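import Pool.Agent.V11230.SVD

/-!
# Distance domination by trying all sets of balls
-/

set_option autoImplicit false

namespace Pool.Agent.V11230.SV

open Pool.Agent.H622R2 Pool.Agent.V11230.DS

/-- distance test -/
def nr (A : List (List Bool)) : ℕ → ℕ → ℕ → Bool
  | 0, v, w => decide (v = w)
  | r + 1, v, w => nr A r v w || (List.range A.length).any (fun z => nr A r v z && ed A z w)

/-- is the vertex isolated -/
def iso (A : List (List Bool)) (v : ℕ) : Bool := !((List.range A.length).any (fun w => ed A v w))

/-- do the two vertices have the same ball -/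
def sameB (A : List (List Bool)) (r v w : ℕ) : Bool :=
  (List.range A.length).all (fun z => decide (nr A r v z = nr A r w z))

/-- the first centres of the balls -/
def reps (A : List (List Bool)) (r : ℕ) : List ℕ :=
  (List.range A.length).filter (fun v => !(iso A v) &&
    (List.range A.length).all (fun w => !(decide (w < v)) || iso A w || !(sameB A r w v)))

/-- the set of centres with number `m` -/
def subs (A : List (List Bool)) (r m : ℕ) : List ℕ :=
  ((reps A r).zipIdx.filter (fun p => m.bits.getD p.2 false)).map Prod.fst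

/-- does the set with number `m` work -/
def works (A : List (List Bool)) (r l m : ℕ) : Bool :=
  (List.range A.length).all (fun v => iso A v || (subs A r m).any (fun s => nr A r v s)) &&
    decide ((subs A r m).length + ((List.range A.length).filter (iso A)).length ≤ l)

/-- try the first `N` sets -/
def acc (A : List (List Bool)) (r l N : ℕ) : Bool := (List.range N).any (works A r l)

theorem adj_ed (A : List (List Bool)) (a b : Fin A.length) :
    (matGraph A).Adj a b ↔ ed A a b = true := by
  unfold matGraph ed
  simp [Fin.ext_iff]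

theorem nr_iff (A : List (List Bool)) (r : ℕ) : ∀ v w : Fin A.length,
    nr A r v w = true ↔ Near (matGraph A) r v w := by
  induction r with
  | zero =>
    intro v w
    rw [near_zero]
    simp [nr, Fin.ext_iff]
  | succ r ih =>
    intro v w
    unfold nr
    rw [Bool.or_eq_true, List.any_eq_true, ih]
    constructor
    · rintro (h | ⟨z, hz, h⟩)
      · exact h.mono (by omega)
      · rw [List.mem_range] at hz
        rw [Bool.and_eq_true] at h
        exact ((ih v ⟨z, hz⟩).1 h.1).snoc ((adj_ed A ⟨z, hz⟩ w).2 h.2)
    · intro h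
      rcases near_succ.1 h.symm with rfl | ⟨z, hz, hz'⟩
      · exact Or.inl (Near.refl _ _)
      · right
        refine ⟨z, List.mem_range.2 z.2, ?_⟩
        rw [Bool.and_eq_true]
        exact ⟨(ih v z).2 hz'.symm, (adj_ed A z w).1 hz.symm⟩

theorem iso_iff (A : List (List Bool)) (v : Fin A.length) :
    iso A v = true ↔ ∀ z, ¬ (matGraph A).Adj v z := by
  unfold iso
  rw [Bool.not_eq_true', List.any_eq_false]
  constructor
  · intro h z hz
    exact h z (List.mem_range.2 z.2) ((adj_ed A v z).1 hz)
  · intro h w hw hw'
    rw [List.mem_range] at hw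
    exact h ⟨w, hw⟩ ((adj_ed A v ⟨w, hw⟩).2 hw')

theorem sameB_iff (A : List (List Bool)) (r : ℕ) (v w : Fin A.length) :
    sameB A r v w = true ↔ ∀ z, (Near (matGraph A) r v z ↔ Near (matGraph A) r w z) := by
  unfold sameB
  rw [List.all_eq_true]
  constructor
  · intro h z
    have := h z (List.mem_range.2 z.2)
    rw [decide_eq_true_eq] at this
    rw [← nr_iff, ← nr_iff, this]
  · intro h z hz
    rw [List.mem_range] at hz
    rw [decide_eq_true_eq, Bool.eq_iff_iff]
    have := h ⟨z, hz⟩
    rw [← nr_iff, ← nr_iff] at this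
    exact this

theorem near_iso {n : ℕ} {G : SimpleGraph (Fin n)} {r : ℕ} {v w : Fin n}
    (h : ∀ z, ¬ G.Adj v z) (h' : Near G r v w) : v = w := by
  cases r with
  | zero => exact near_zero.1 h'
  | succ r =>
    rcases near_succ.1 h' with h1 | ⟨z, hz, _⟩
    · exact h1
    · exact absurd hz (h z)

theorem nodup_reps (A : List (List Bool)) (r : ℕ) : (reps A r).Nodup :=
  List.nodup_range.filter _

theorem mem_reps {A : List (List Bool)} {r v : ℕ} : v ∈ reps A r ↔ v < A.length ∧
    iso A v = false ∧ ∀ w < A.length, w < v → iso A w = false → sameB A r w v = false := by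
  unfold reps
  rw [List.mem_filter, List.mem_range, Bool.and_eq_true, List.all_eq_true]
  refine and_congr Iff.rfl (and_congr (by simp) ?_)
  constructor
  · intro h w hw hwv hwi
    have := h w (List.mem_range.2 hw)
    rw [hwi] at this
    simpa [hwv] using this
  · intro h w hw
    rw [List.mem_range] at hw
    by_cases hwv : w < v
    · cases hwi : iso A w
      · simp [h w hw hwv hwi]
      · simp
    · simp [hwv]

theorem sub_mem {A : List (List Bool)} {r m v : ℕ} (h : v ∈ subs A r m) : v ∈ reps A r := by
  unfold subs at h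
  rw [List.mem_map] at h
  obtain ⟨p, hp, rfl⟩ := h
  rw [List.mem_filter] at hp
  exact List.fst_mem_of_mem_zipIdx hp.1

/-- soundness -/
theorem rDom_of_acc {A : List (List Bool)} {r l N : ℕ} (h : acc A r l N = true) :
    RDom (matGraph A) r l := by
  classical
  unfold acc at h
  rw [List.any_eq_true] at h
  obtain ⟨m, -, hm⟩ := h
  unfold works at hm
  rw [Bool.and_eq_true, List.all_eq_true, decide_eq_true_eq] at hm
  obtain ⟨h1, h2⟩ := hm
  refine ⟨(Finset.univ.filter (fun v : Fin A.length => (v : ℕ) ∈ subs A r m)) ∪
    (Finset.univ.filter (fun v : Fin A.length => iso A v = true)), ?_, ?_⟩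
  · refine (Finset.card_union_le _ _).trans (le_trans (Nat.add_le_add ?_ ?_) h2)
    · have h3 : ((Finset.univ.filter (fun v : Fin A.length => (v : ℕ) ∈ subs A r m)).image
          Fin.val) ⊆ (subs A r m).toFinset := by
        intro x hx
        rw [Finset.mem_image] at hx
        obtain ⟨v, hv, rfl⟩ := hx
        rw [List.mem_toFinset]
        exact (Finset.mem_filter.1 hv).2
      have h4 := Finset.card_le_card h3
      rw [Finset.card_image_of_injective _ Fin.val_injective] at h4
      exact h4.trans (List.toFinset_card_le _)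
    · have h3 : ((Finset.univ.filter (fun v : Fin A.length => iso A v = true)).image
          Fin.val) ⊆ ((List.range A.length).filter (iso A)).toFinset := by
        intro x hx
        rw [Finset.mem_image] at hx
        obtain ⟨v, hv, rfl⟩ := hx
        rw [List.mem_toFinset, List.mem_filter]
        exact ⟨List.mem_range.2 v.2, (Finset.mem_filter.1 hv).2⟩
      have h4 := Finset.card_le_card h3
      rw [Finset.card_image_of_injective _ Fin.val_injective] at h4
      exact h4.trans (List.toFinset_card_le _)
  · intro v
    have h3 := h1 v (List.mem_range.2 v.2)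
    rw [Bool.or_eq_true] at h3
    rcases h3 with h3 | h3
    · exact ⟨v, Finset.mem_union_right _ (by simp [h3]), Near.refl _ _⟩
    · rw [List.any_eq_true] at h3
      obtain ⟨s, hs, hs'⟩ := h3
      have hsn := (mem_reps.1 (sub_mem hs)).1
      exact ⟨⟨s, hsn⟩, Finset.mem_union_left _ (by simpa using hs), (nr_iff A r v ⟨s, hsn⟩).1 hs'⟩

theorem exists_rep {A : List (List Bool)} {r : ℕ} (s : Fin A.length) (hs : iso A s = false) :
    ∃ v, v ∈ reps A r ∧ sameB A r v s = true := by
  classical
  have hex : ∃ v, v < A.length ∧ iso A v = false ∧ sameB A r v s = true :=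
    ⟨s, s.2, hs, (sameB_iff A r s s).2 fun _ => Iff.rfl⟩
  obtain ⟨h1, h2, h3⟩ := Nat.find_spec hex
  refine ⟨Nat.find hex, mem_reps.2 ⟨h1, h2, fun w hw hwv hwi => ?_⟩, h3⟩
  rw [← Bool.not_eq_true]
  intro h4
  refine Nat.find_min hex hwv ⟨hw, hwi, ?_⟩
  rw [sameB_iff A r ⟨w, hw⟩ s]
  have h5 := (sameB_iff A r ⟨w, hw⟩ ⟨_, h1⟩).1 h4
  have h6 := (sameB_iff A r ⟨_, h1⟩ s).1 h3
  exact fun z => (h5 z).trans (h6 z)

theorem subs_ofBits {A : List (List Bool)} {r : ℕ} (R : ℕ → Bool) :
    ∃ m < 2 ^ (reps A r).length, subs A r m = (reps A r).filter R := by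
  refine ⟨Nat.ofBits (fun i : Fin (reps A r).length => R ((reps A r).get i)),
    Nat.ofBits_lt_two_pow _, ?_⟩
  unfold subs
  have h1 : (reps A r).zipIdx.filter (fun p => (Nat.ofBits (fun i : Fin (reps A r).length =>
      R ((reps A r).get i))).bits.getD p.2 false) =
      (reps A r).zipIdx.filter (R ∘ Prod.fst) := by
    refine List.filter_congr fun p hp => ?_
    have h2 := List.mem_zipIdx' hp
    obtain ⟨h3, h4⟩ := h2
    have h5 : ∀ (m i : ℕ), m.bits.getD i false = m.testBit i := by
      intro m i
      rw [Nat.testBit_eq_inth]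
      rfl
    rw [h5, Nat.testBit_ofBits_lt _ _ h3]
    simp [h4]
  rw [h1, ← List.filter_map, List.zipIdx_map_fst]

/-- completeness -/
theorem acc_of_rDom {A : List (List Bool)} {r l N : ℕ} (hN : 2 ^ (reps A r).length ≤ N)
    (h : RDom (matGraph A) r l) : acc A r l N = true := by
  classical
  obtain ⟨S, hS, hd⟩ := h
  have hrep : ∀ s : Fin A.length, ∃ v, iso A s = false → v ∈ reps A r ∧ sameB A r v s = true := by
    intro s
    by_cases hs : iso A s = false
    · obtain ⟨v, hv⟩ := exists_rep (r := r) s hs
      exact ⟨v, fun _ => hv⟩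
    · exact ⟨0, fun h => absurd h hs⟩
  choose rp hrp using hrep
  obtain ⟨m, hm, hsub⟩ := subs_ofBits (A := A) (r := r)
    (fun v => decide (∃ s ∈ S, iso A s = false ∧ rp s = v))
  unfold acc
  rw [List.any_eq_true]
  refine ⟨m, List.mem_range.2 (by omega), ?_⟩
  unfold works
  rw [Bool.and_eq_true, List.all_eq_true, decide_eq_true_eq, hsub]
  constructor
  · intro v hv
    rw [List.mem_range] at hv
    cases hvi : iso A v
    · rw [Bool.false_or, List.any_eq_true]
      obtain ⟨s, hs, hns⟩ := hd ⟨v, hv⟩
      have hsi : iso A s = false := by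
        rw [← Bool.not_eq_true]
        intro hsi
        rw [iso_iff] at hsi
        have := near_iso hsi hns.symm
        rw [← Bool.not_eq_true] at hvi
        apply hvi
        have h1 := (iso_iff A s).2 hsi
        rw [this] at h1
        exact h1
      obtain ⟨h1, h2⟩ := hrp s hsi
      refine ⟨rp s, List.mem_filter.2 ⟨h1, by simpa using ⟨s, hs, hsi, rfl⟩⟩, ?_⟩
      have h3 := (mem_reps.1 h1).1
      rw [sameB_iff A r ⟨rp s, h3⟩ s] at h2
      exact (nr_iff A r ⟨v, hv⟩ ⟨rp s, h3⟩).2 (((h2 _).2 hns.symm).symm)
    · rw [Bool.true_or]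
  · have h1 : ((reps A r).filter (fun v => decide (∃ s ∈ S, iso A s = false ∧ rp s = v))).length ≤
        (S.filter (fun s : Fin A.length => iso A (s : ℕ) = false)).card := by
      have h2 : ((reps A r).filter (fun v =>
          decide (∃ s ∈ S, iso A s = false ∧ rp s = v))).toFinset ⊆
          (S.filter (fun s : Fin A.length => iso A (s : ℕ) = false)).image rp := by
        intro v hv
        rw [List.mem_toFinset, List.mem_filter, decide_eq_true_eq] at hv
        obtain ⟨-, s, hs, hsi, rfl⟩ := hv
        exact Finset.mem_image_of_mem _ (Finset.mem_filter.2 ⟨hs, hsi⟩)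
      have h3 := (Finset.card_le_card h2).trans Finset.card_image_le
      rwa [List.toFinset_card_of_nodup ((nodup_reps A r).filter _)] at h3
    have h2 : ((List.range A.length).filter (iso A)).length ≤
        (S.filter (fun s : Fin A.length => ¬ iso A (s : ℕ) = false)).card := by
      have h3 : ((List.range A.length).filter (iso A)).toFinset ⊆
          (S.filter (fun s : Fin A.length => ¬ iso A (s : ℕ) = false)).image Fin.val := by
        intro v hv
        rw [List.mem_toFinset, List.mem_filter, List.mem_range] at hv
        obtain ⟨hv, hvi⟩ := hv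
        obtain ⟨s, hs, hns⟩ := hd ⟨v, hv⟩
        have hvs := near_iso ((iso_iff A ⟨v, hv⟩).1 hvi) hns
        rw [Finset.mem_image]
        refine ⟨s, Finset.mem_filter.2 ⟨hs, ?_⟩, ?_⟩
        · rw [← hvs]
          simp [hvi]
        · rw [← hvs]
      have h4 := (Finset.card_le_card h3).trans Finset.card_image_le
      rwa [List.toFinset_card_of_nodup (List.nodup_range.filter _)] at h4
    have h3 := Finset.card_filter_add_card_filter_not (s := S)
      (fun s : Fin A.length => iso A (s : ℕ) = false)
    omega

/-- **The number of balls.** -/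
theorem length_reps {A : List (List Bool)} {X : List ℕ} {r : ℕ} (hr : 3 ≤ r)
    (hX : SplitModulator (matGraph A) X) : (reps A r).length ≤ 3 * (2 ^ X.length * 2 ^ X.length) := by
  classical
  obtain ⟨q, rfl⟩ : ∃ q, r = q + 1 := ⟨r - 1, by omega⟩
  obtain ⟨K, hK1, hK2, hK3⟩ := hX
  have hXc : (Finset.univ.filter (fun v : Fin A.length => (v : ℕ) ∈ X)).card ≤ X.length := by
    have h3 : ((Finset.univ.filter (fun v : Fin A.length => (v : ℕ) ∈ X)).image
        Fin.val) ⊆ X.toFinset := by
      intro x hx
      rw [Finset.mem_image] at hx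
      obtain ⟨v, hv, rfl⟩ := hx
      rw [List.mem_toFinset]
      exact (Finset.mem_filter.1 hv).2
    have h4 := Finset.card_le_card h3
    rw [Finset.card_image_of_injective _ Fin.val_injective] at h4
    exact h4.trans (List.toFinset_card_le _)
  have h1 := card_balls (G := matGraph A)
    (X := Finset.univ.filter (fun v : Fin A.length => (v : ℕ) ∈ X)) (K := K) (q := q) hK2
    (fun u v hu hv hu' hv' => hK3 u v hu hv (by simpa using hu') (by simpa using hv')) (by omega)
    (Finset.univ.filter (fun v : Fin A.length => (v : ℕ) ∈ reps A (q + 1)))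
    (by
      intro v hv
      rw [Finset.mem_filter] at hv
      have := (mem_reps.1 hv.2).2.1
      by_contra hne
      push Not at hne
      rw [(iso_iff A v).2 hne] at this
      simp at this)
    (by
      intro v hv w hw hvw
      rw [Finset.mem_filter] at hv hw
      have hv' := mem_reps.1 hv.2
      have hw' := mem_reps.1 hw.2
      rcases lt_trichotomy (v : ℕ) w with h | h | h
      · have := hw'.2.2 v v.2 h hv'.2.1
        rw [(sameB_iff A _ v w).2 hvw] at this
        simp at this
      · exact Fin.ext h
      · have := hv'.2.2 w w.2 h hw'.2.1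
        rw [(sameB_iff A _ w v).2 (fun z => (hvw z).symm)] at this
        simp at this)
  have h2 : (reps A (q + 1)).length ≤
      (Finset.univ.filter (fun v : Fin A.length => (v : ℕ) ∈ reps A (q + 1))).card := by
    have h3 : (reps A (q + 1)).toFinset ⊆
        (Finset.univ.filter (fun v : Fin A.length => (v : ℕ) ∈ reps A (q + 1))).image
        Fin.val := by
      intro x hx
      rw [List.mem_toFinset] at hx
      have hxn := (mem_reps.1 hx).1
      rw [Finset.mem_image]
      exact ⟨⟨x, hxn⟩, by simpa using hx, rfl⟩
    have h4 := (Finset.card_le_card h3).trans Finset.card_image_le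
    rwa [List.toFinset_card_of_nodup (nodup_reps A _)] at h4
  refine h2.trans (h1.trans (Nat.mul_le_mul_left 3 (Nat.mul_le_mul ?_ ?_)))
  · exact Nat.pow_le_pow_right (by norm_num) hXc
  · exact Nat.pow_le_pow_right (by norm_num) hXc

/-- **The algorithm is correct.** -/
theorem acc_iff {A : List (List Bool)} {X : List ℕ} {r l N : ℕ} (hr : 3 ≤ r)
    (hX : SplitModulator (matGraph A) X) (hN : 2 ^ (3 * (2 ^ X.length * 2 ^ X.length)) ≤ N) :
    acc A r l N = true ↔ RDom (matGraph A) r l :=
  ⟨rDom_of_acc, acc_of_rDom ((Nat.pow_le_pow_right (by norm_num) (length_reps hr hX)).trans hN)⟩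

end Pool.Agent.V11230.SV
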