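import Mathlib

/-!
# Antistrong and strong arc-disjoint spanning subdigraphs: definitions and the first gadget
-/

set_option autoImplicit false

namespace Pool.Agent.NPC.V11230.AS

/-- Digraphs: the vertices are `0, …, n - 1`; no loops and no parallel arcs. -/
def IsDigraph (D : ℕ × List (ℕ × ℕ)) : Prop :=
  D.2.Nodup ∧ ∀ e ∈ D.2, e.1 < D.1 ∧ e.2 < D.1 ∧ e.1 ≠ e.2

/-- The arc between `v i` and `v (i + 1)`: forward for even `i`, backward for odd `i`. -/
def arc (v : ℕ → ℕ) (i : ℕ) : ℕ × ℕ := if i % 2 = 0 then (v i, v (i + 1)) else (v (i + 1), v i)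

/-- A forward antidirected trail from `x` to `y` in the digraph with the arcs `A`. -/
def FwdTrail (A : List (ℕ × ℕ)) (x y : ℕ) : Prop :=
  ∃ (k : ℕ) (v : ℕ → ℕ), v 0 = x ∧ v (2 * k + 1) = y ∧ (∀ i ≤ 2 * k, arc v i ∈ A) ∧
    ∀ i ≤ 2 * k, ∀ j ≤ 2 * k, arc v i = arc v j → i = j

/-- Antistrong spanning subdigraphs with the arcs `A`, on `n` vertices. -/
def Antistrong (n : ℕ) (A : List (ℕ × ℕ)) : Prop :=
  3 ≤ n ∧ ∀ x < n, ∀ y < n, x ≠ y → FwdTrail A x y

/-- Strongly connected spanning subdigraphs with the arcs `A`, on `n` vertices. -/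
def Strong (n : ℕ) (A : List (ℕ × ℕ)) : Prop :=
  ∀ x < n, ∀ y < n, Relation.ReflTransGen (fun u w => (u, w) ∈ A) x y

/-- Digraphs with an antistrong and a strongly connected arc-disjoint spanning subdigraphs. -/
def AntistrongStrong (D : ℕ × List (ℕ × ℕ)) : Prop :=
  IsDigraph D ∧ ∃ A₁ A₂ : List (ℕ × ℕ), (∀ e ∈ A₁, e ∈ D.2) ∧ (∀ e ∈ A₂, e ∈ D.2) ∧
    (∀ e ∈ A₁, e ∉ A₂) ∧ Antistrong D.1 A₁ ∧ Strong D.1 A₂

/-- the bipartite representation -/
def BG (A : List (ℕ × ℕ)) : SimpleGraph (ℕ ⊕ ℕ) :=
  SimpleGraph.fromRel (fun a b => ∃ u w, a = Sum.inl u ∧ b = Sum.inr w ∧ (u, w) ∈ A)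

theorem BG_adj_iff {A : List (ℕ × ℕ)} {a b : ℕ ⊕ ℕ} : (BG A).Adj a b ↔
    (∃ u w, a = Sum.inl u ∧ b = Sum.inr w ∧ (u, w) ∈ A) ∨
    (∃ u w, b = Sum.inl u ∧ a = Sum.inr w ∧ (u, w) ∈ A) := by
  unfold BG
  rw [SimpleGraph.fromRel_adj]
  constructor
  · rintro ⟨-, h⟩; exact h
  · intro h
    refine ⟨?_, h⟩
    rcases h with ⟨u, w, rfl, rfl, -⟩ | ⟨u, w, rfl, rfl, -⟩ <;> simp

def pj : ℕ ⊕ ℕ → ℕ := Sum.elim id id

theorem trail_of_reachable {A : List (ℕ × ℕ)} {x y : ℕ}
    (h : (BG A).Reachable (Sum.inl x) (Sum.inr y)) : FwdTrail A x y := by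
  obtain ⟨p, hp⟩ := h.exists_isPath
  have hside : ∀ i ≤ p.length, (i % 2 = 0 → ∃ u, p.getVert i = Sum.inl u) ∧
      (i % 2 = 1 → ∃ u, p.getVert i = Sum.inr u) := by
    intro i
    induction i with
    | zero => intro _; exact ⟨fun _ => ⟨x, by simp⟩, by omega⟩
    | succ i ih =>
      intro hi
      have ih' := ih (by omega)
      have hadj := p.adj_getVert_succ (i := i) (by omega)
      rw [BG_adj_iff] at hadj
      rcases hadj with ⟨u, w, h1, h2, -⟩ | ⟨u, w, h1, h2, -⟩
      · refine ⟨fun h3 => ?_, fun _ => ⟨w, h2⟩⟩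
        obtain ⟨u', hu'⟩ := ih'.2 (by omega)
        rw [h1] at hu'
        simp at hu'
      · refine ⟨fun _ => ⟨u, h1⟩, fun h3 => ?_⟩
        obtain ⟨u', hu'⟩ := ih'.1 (by omega)
        rw [h2] at hu'
        simp at hu'
  have hodd : p.length % 2 = 1 := by
    by_contra hne
    obtain ⟨u, hu⟩ := (hside p.length le_rfl).1 (by omega)
    rw [SimpleGraph.Walk.getVert_length] at hu
    simp at hu
  have hinj : ∀ i ≤ p.length, ∀ j ≤ p.length, p.getVert i = p.getVert j → i = j :=
    fun i hi j hj hij => hp.getVert_injOn hi hj hij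
  have hE : ∀ i ≤ p.length, i % 2 = 0 → p.getVert i = Sum.inl (pj (p.getVert i)) := by
    intro i hi h0
    obtain ⟨u, hu⟩ := (hside i hi).1 h0
    rw [hu]; rfl
  have hO : ∀ i ≤ p.length, i % 2 = 1 → p.getVert i = Sum.inr (pj (p.getVert i)) := by
    intro i hi h0
    obtain ⟨u, hu⟩ := (hside i hi).2 h0
    rw [hu]; rfl
  refine ⟨p.length / 2, fun i => pj (p.getVert i), ?_, ?_, ?_, ?_⟩
  · simp [pj]
  · have : 2 * (p.length / 2) + 1 = p.length := by omega
    rw [this]
    beta_reduce
    rw [SimpleGraph.Walk.getVert_length]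
    rfl
  · intro i hi
    have hadj := p.adj_getVert_succ (i := i) (by omega)
    rw [BG_adj_iff] at hadj
    unfold arc
    rcases Nat.mod_two_eq_zero_or_one i with h0 | h0
    · rw [if_pos h0]
      rcases hadj with ⟨u, w, h1, h2, h3⟩ | ⟨u, w, h1, h2, -⟩
      · simp only [h1, h2]
        exact h3
      · rw [hE i (by omega) h0] at h2
        simp at h2
    · rw [if_neg (by omega)]
      rcases hadj with ⟨u, w, h1, h2, -⟩ | ⟨u, w, h1, h2, h3⟩
      · rw [hO i (by omega) h0] at h1
        simp at h1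
      · simp only [h1, h2]
        exact h3
  · intro i hi j hj hij
    unfold arc at hij
    rcases Nat.mod_two_eq_zero_or_one i with hi0 | hi0 <;>
      rcases Nat.mod_two_eq_zero_or_one j with hj0 | hj0
    · rw [if_pos hi0, if_pos hj0, Prod.mk.injEq] at hij
      beta_reduce at hij
      apply hinj i (by omega) j (by omega)
      rw [hE i (by omega) hi0, hE j (by omega) hj0, hij.1]
    · rw [if_pos hi0, if_neg (by omega), Prod.mk.injEq] at hij
      beta_reduce at hij
      exfalso
      have h1 : i = j + 1 := by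
        apply hinj i (by omega) (j + 1) (by omega)
        rw [hE i (by omega) hi0, hE (j + 1) (by omega) (by omega), hij.1]
      have h2 : i + 1 = j := by
        apply hinj (i + 1) (by omega) j (by omega)
        rw [hO (i + 1) (by omega) (by omega), hO j (by omega) hj0, hij.2]
      omega
    · rw [if_neg (by omega), if_pos hj0, Prod.mk.injEq] at hij
      beta_reduce at hij
      exfalso
      have h1 : i + 1 = j := by
        apply hinj (i + 1) (by omega) j (by omega)
        rw [hE (i + 1) (by omega) (by omega), hE j (by omega) hj0, hij.1]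
      have h2 : i = j + 1 := by
        apply hinj i (by omega) (j + 1) (by omega)
        rw [hO i (by omega) hi0, hO (j + 1) (by omega) (by omega), hij.2]
      omega
    · rw [if_neg (by omega), if_neg (by omega), Prod.mk.injEq] at hij
      beta_reduce at hij
      apply hinj i (by omega) j (by omega)
      rw [hO i (by omega) hi0, hO j (by omega) hj0, hij.2]

/-! ### The gadget: digraphs in which the vertices of `0, …, M - 1` other than `t` have out-degree
two, with three additional vertices `M`, `M + 1`, `M + 2`. -/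

def outs (M s t : ℕ) (al be : ℕ → ℕ) (v : ℕ) : List ℕ :=
  if v = t then [s, M, M + 1, M + 2] else
  if v < M then [al v, be v] else
  if v = M then (List.range (M + 3)).filter (fun w => decide (w ≠ M)) else
  if v = M + 1 then [s, M, M + 2] else [s, M, M + 1]

def Dg (M s t : ℕ) (al be : ℕ → ℕ) : ℕ × List (ℕ × ℕ) :=
  (M + 3, (List.range (M + 3)).flatMap (fun v => (outs M s t al be v).map (fun w => (v, w))))

/-- the conditions on the core -/
structure Core (M s t : ℕ) (al be : ℕ → ℕ) : Prop where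
  s_lt : s < M
  t_lt : t < M
  ne : s ≠ t
  al_lt : ∀ v < M, v ≠ t → al v < M
  be_lt : ∀ v < M, v ≠ t → be v < M
  al_ne : ∀ v < M, v ≠ t → al v ≠ v
  be_ne : ∀ v < M, v ≠ t → be v ≠ v
  ab : ∀ v < M, v ≠ t → al v ≠ be v

/-- the steps of the path -/
def Rf (M t : ℕ) (f : ℕ → ℕ) (a b : ℕ) : Prop := a < M ∧ a ≠ t ∧ b = f a

/-- the choice `f` of an out-neighbour of every vertex gives a Hamiltonian path from `s` to `t` -/
def HP (M s t : ℕ) (al be f : ℕ → ℕ) : Prop :=
  (∀ v < M, v ≠ t → f v = al v ∨ f v = be v) ∧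
    ∀ w < M, Relation.ReflTransGen (Rf M t f) s w

theorem mem_Dg {M s t : ℕ} {al be : ℕ → ℕ} {v w : ℕ} :
    (v, w) ∈ (Dg M s t al be).2 ↔ v < M + 3 ∧ w ∈ outs M s t al be v := by
  unfold Dg
  simp only [List.mem_flatMap, List.mem_range, List.mem_map, Prod.mk.injEq]
  constructor
  · rintro ⟨v', h1, w', h2, rfl, rfl⟩; exact ⟨h1, h2⟩
  · rintro ⟨h1, h2⟩; exact ⟨v, h1, w, h2, rfl, rfl⟩

theorem isDigraph_Dg {M s t : ℕ} {al be : ℕ → ℕ} (hc : Core M s t al be) :
    IsDigraph (Dg M s t al be) := by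
  have hs := hc.s_lt
  have ht := hc.t_lt
  have hne := hc.ne
  constructor
  · unfold Dg
    simp only
    rw [List.nodup_flatMap]
    constructor
    · intro v hv
      rw [List.mem_range] at hv
      refine List.Nodup.map (fun a b h => (Prod.mk.injEq _ _ _ _ ▸ h).2) ?_
      unfold outs
      split_ifs with h1 h2 h3 h4
      · simp only [List.nodup_cons, List.mem_cons, List.not_mem_nil, List.nodup_nil, or_false,
          not_false_eq_true, and_true]
        omega
      · simp only [List.nodup_cons, List.mem_cons, List.not_mem_nil, List.nodup_nil]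
        have := hc.ab v h2 h1
        simp [this]
      · exact List.Nodup.filter _ List.nodup_range
      · simp only [List.nodup_cons, List.mem_cons, List.not_mem_nil, List.nodup_nil, or_false,
          not_false_eq_true, and_true]
        omega
      · simp only [List.nodup_cons, List.mem_cons, List.not_mem_nil, List.nodup_nil, or_false,
          not_false_eq_true, and_true]
        omega
    · refine List.Nodup.pairwise_of_forall_ne List.nodup_range ?_
      intro v _ v' _ hvv'
      show List.Disjoint _ _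
      rintro ⟨a, b⟩ h1 h2
      simp only [List.mem_map, Prod.mk.injEq] at h1 h2
      obtain ⟨_, -, rfl, -⟩ := h1
      obtain ⟨_, -, rfl, -⟩ := h2
      exact hvv' rfl
  · rintro ⟨v, w⟩ h
    rw [mem_Dg] at h
    obtain ⟨hv, hw⟩ := h
    show v < M + 3 ∧ w < M + 3 ∧ v ≠ w
    refine ⟨hv, ?_⟩
    unfold outs at hw
    split_ifs at hw with h1 h2 h3 h4
    · simp only [List.mem_cons, List.not_mem_nil, or_false] at hw
      omega
    · simp only [List.mem_cons, List.not_mem_nil, or_false] at hw
      have f1 := hc.al_lt v h2 h1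
      have f2 := hc.be_lt v h2 h1
      have f3 := hc.al_ne v h2 h1
      have f4 := hc.be_ne v h2 h1
      omega
    · simp only [List.mem_filter, List.mem_range, decide_eq_true_eq] at hw
      omega
    · simp only [List.mem_cons, List.not_mem_nil, or_false] at hw
      omega
    · simp only [List.mem_cons, List.not_mem_nil, or_false] at hw
      omega

end Pool.Agent.NPC.V11230.AS
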