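import Pool.Agent.V11230.AStrong1

/-!
# Hamiltonian paths and pairs of subdigraphs
-/

set_option autoImplicit false

namespace Pool.Agent.NPC.V11230.AS

open Relation

variable {M s t : ℕ} {al be : ℕ → ℕ}

theorem to_pair (hc : Core M s t al be) {f : ℕ → ℕ} (hf : HP M s t al be f) :
    AntistrongStrong (Dg M s t al be) := by
  have hs := hc.s_lt
  have ht := hc.t_lt
  have hne := hc.ne
  obtain ⟨hf1, hf2⟩ := hf
  have hflt : ∀ v < M, v ≠ t → f v < M := by
    intro v hv hvt
    have f1 := hc.al_lt v hv hvt
    have f2 := hc.be_lt v hv hvt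
    rcases hf1 v hv hvt with h | h <;> omega
  let A2 : List (ℕ × ℕ) := ((List.range M).filter (fun v => decide (v ≠ t))).map (fun v => (v, f v)) ++
    [(t, M), (M, M + 1), (M + 1, M + 2), (M + 2, s)]
  have hA2 : ∀ v w, (v, w) ∈ A2 ↔ (v < M ∧ v ≠ t ∧ w = f v) ∨ (v = t ∧ w = M) ∨
      (v = M ∧ w = M + 1) ∨ (v = M + 1 ∧ w = M + 2) ∨ (v = M + 2 ∧ w = s) := by
    intro v w
    simp only [A2, List.mem_append, List.mem_map, List.mem_filter, List.mem_range,
      decide_eq_true_eq, Prod.mk.injEq, List.mem_cons, List.not_mem_nil, or_false]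
    constructor
    · rintro (⟨v', ⟨h1, h2⟩, rfl, rfl⟩ | h)
      · exact Or.inl ⟨h1, h2, rfl⟩
      · exact Or.inr h
    · rintro (⟨h1, h2, rfl⟩ | h)
      · exact Or.inl ⟨v, ⟨h1, h2⟩, rfl, rfl⟩
      · exact Or.inr h
  let A1 : List (ℕ × ℕ) := (Dg M s t al be).2.filter (fun e => decide (e ∉ A2))
  have hA1 : ∀ v w, v < M + 3 → w ∈ outs M s t al be v → (v, w) ∉ A2 → (v, w) ∈ A1 := by
    intro v w h1 h2 h3
    simp only [A1, List.mem_filter, decide_eq_true_eq]
    exact ⟨mem_Dg.2 ⟨h1, h2⟩, h3⟩
  refine ⟨isDigraph_Dg hc, A1, A2, fun e he => (List.mem_filter.1 he).1, ?_, ?_, ?_, ?_⟩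
  · rintro ⟨v, w⟩ h
    rw [mem_Dg]
    rw [hA2] at h
    unfold outs
    rcases h with ⟨h1, h2, rfl⟩ | ⟨rfl, rfl⟩ | ⟨rfl, rfl⟩ | ⟨rfl, rfl⟩ | ⟨rfl, rfl⟩
    · refine ⟨by omega, ?_⟩
      rw [if_neg h2, if_pos h1]
      rcases hf1 v h1 h2 with h | h <;> simp [h]
    · exact ⟨by omega, by simp⟩
    · refine ⟨by omega, ?_⟩
      rw [if_neg (by omega), if_neg (by omega), if_pos rfl]
      simp
    · refine ⟨by omega, ?_⟩
      rw [if_neg (by omega), if_neg (by omega), if_neg (by omega), if_pos rfl]
      simp
    · refine ⟨by omega, ?_⟩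
      rw [if_neg (by omega), if_neg (by omega), if_neg (by omega), if_neg (by omega)]
      simp
  · intro e he
    simpa using (List.mem_filter.1 he).2
  · refine ⟨by simp [Dg], fun x hx y hy _ => ?_⟩
    apply trail_of_reachable
    change x < M + 3 at hx
    change y < M + 3 at hy
    -- arcs of the first subdigraph
    have a1 : ∀ w < M + 3, w ≠ M → w ≠ M + 1 → (M, w) ∈ A1 := by
      intro w h1 h2 h3
      refine hA1 M w (by omega) ?_ ?_
      · unfold outs
        rw [if_neg (by omega), if_neg (by omega), if_pos rfl]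
        simp only [List.mem_filter, List.mem_range, decide_eq_true_eq]
        exact ⟨h1, h2⟩
      · rw [hA2]; omega
    have a2 : ∀ v < M, v ≠ t → ∃ w < M, (v, w) ∈ A1 := by
      intro v h1 h2
      have hab := hc.ab v h1 h2
      by_cases h3 : f v = al v
      · refine ⟨be v, hc.be_lt v h1 h2, hA1 v _ (by omega) ?_ ?_⟩
        · unfold outs
          rw [if_neg h2, if_pos h1]
          simp
        · rw [hA2]; omega
      · refine ⟨al v, hc.al_lt v h1 h2, hA1 v _ (by omega) ?_ ?_⟩
        · unfold outs
          rw [if_neg h2, if_pos h1]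
          simp
        · rw [hA2]; omega
    have a3 : (t, M + 1) ∈ A1 := by
      refine hA1 _ _ (by omega) ?_ ?_
      · unfold outs
        rw [if_pos rfl]
        simp
      · rw [hA2]; omega
    have a4 : (t, s) ∈ A1 := by
      refine hA1 _ _ (by omega) ?_ ?_
      · unfold outs
        rw [if_pos rfl]
        simp
      · rw [hA2]; omega
    have a5 : (M + 1, s) ∈ A1 := by
      refine hA1 _ _ (by omega) ?_ ?_
      · unfold outs
        rw [if_neg (by omega), if_neg (by omega), if_neg (by omega), if_pos rfl]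
        simp
      · rw [hA2]; omega
    have a6 : (M + 1, M) ∈ A1 := by
      refine hA1 _ _ (by omega) ?_ ?_
      · unfold outs
        rw [if_neg (by omega), if_neg (by omega), if_neg (by omega), if_pos rfl]
        simp
      · rw [hA2]; omega
    have a7 : (M + 2, M) ∈ A1 := by
      refine hA1 _ _ (by omega) ?_ ?_
      · unfold outs
        rw [if_neg (by omega), if_neg (by omega), if_neg (by omega), if_neg (by omega)]
        simp
      · rw [hA2]; omega
    have adj : ∀ {v w : ℕ}, (v, w) ∈ A1 → (BG A1).Adj (Sum.inl v) (Sum.inr w) := fun {v w} h =>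
      BG_adj_iff.2 (Or.inl ⟨v, w, rfl, rfl, h⟩)
    have r1 : ∀ w < M, (BG A1).Reachable (Sum.inl M) (Sum.inr w) := fun w hw =>
      (adj (a1 w (by omega) (by omega) (by omega))).reachable
    have rs := r1 s hs
    have rt : (BG A1).Reachable (Sum.inl M) (Sum.inl t) := rs.trans (adj a4).reachable.symm
    have r2 : ∀ v < M, (BG A1).Reachable (Sum.inl M) (Sum.inl v) := by
      intro v hv
      by_cases h : v = t
      · rw [h]; exact rt
      · obtain ⟨w, hw, hvw⟩ := a2 v hv h
        exact (r1 w hw).trans (adj hvw).reachable.symm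
    have r3 : (BG A1).Reachable (Sum.inl M) (Sum.inl (M + 1)) := rs.trans (adj a5).reachable.symm
    have r4 : (BG A1).Reachable (Sum.inl M) (Sum.inr M) := r3.trans (adj a6).reachable
    have r5 : (BG A1).Reachable (Sum.inl M) (Sum.inl (M + 2)) := r4.trans (adj a7).reachable.symm
    have r6 : (BG A1).Reachable (Sum.inl M) (Sum.inr (M + 1)) := rt.trans (adj a3).reachable
    have r7 : (BG A1).Reachable (Sum.inl M) (Sum.inr (M + 2)) :=
      (adj (a1 (M + 2) (by omega) (by omega) (by omega))).reachable
    have RL : (BG A1).Reachable (Sum.inl M) (Sum.inl x) := by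
      rcases (by omega : x < M ∨ x = M ∨ x = M + 1 ∨ x = M + 2) with h | h | h | h
      · exact r2 x h
      · rw [h]
      · rw [h]; exact r3
      · rw [h]; exact r5
    have RR : (BG A1).Reachable (Sum.inl M) (Sum.inr y) := by
      rcases (by omega : y < M ∨ y = M ∨ y = M + 1 ∨ y = M + 2) with h | h | h | h
      · exact r1 y h
      · rw [h]; exact r4
      · rw [h]; exact r6
      · rw [h]; exact r7
    exact RL.symm.trans RR
  · intro x hx y hy
    change x < M + 3 at hx
    change y < M + 3 at hy
    have hmono : ∀ a b, Rf M t f a b → (a, b) ∈ A2 := by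
      rintro a b ⟨h1, h2, rfl⟩
      exact (hA2 _ _).2 (Or.inl ⟨h1, h2, rfl⟩)
    have c1 : ∀ w < M, ReflTransGen (fun u w => (u, w) ∈ A2) s w := fun w hw =>
      ReflTransGen.mono hmono _ _ (hf2 w hw)
    have hU : Relator.RightUnique (Rf M t f) := by
      rintro a b c ⟨-, -, rfl⟩ ⟨-, -, rfl⟩
      rfl
    have c2 : ∀ v < M, ReflTransGen (fun u w => (u, w) ∈ A2) v t := by
      intro v hv
      rcases ReflTransGen.total_of_right_unique hU (hf2 v hv) (hf2 t ht) with h | h
      · exact ReflTransGen.mono hmono _ _ h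
      · rcases ReflTransGen.cases_head h with h | ⟨c, ⟨-, h, -⟩, -⟩
        · rw [h]
        · exact absurd rfl h
    have e1 : (t, M) ∈ A2 := (hA2 _ _).2 (by omega)
    have e2 : (M, M + 1) ∈ A2 := (hA2 _ _).2 (by omega)
    have e3 : (M + 1, M + 2) ∈ A2 := (hA2 _ _).2 (by omega)
    have e4 : (M + 2, s) ∈ A2 := (hA2 _ _).2 (by omega)
    have k3 : ReflTransGen (fun u w => (u, w) ∈ A2) (M + 2) s := ReflTransGen.single e4
    have k2 : ReflTransGen (fun u w => (u, w) ∈ A2) (M + 1) s := ReflTransGen.head e3 k3
    have k1 : ReflTransGen (fun u w => (u, w) ∈ A2) M s := ReflTransGen.head e2 k2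
    have k0 : ReflTransGen (fun u w => (u, w) ∈ A2) t s := ReflTransGen.head e1 k1
    have l1 : ReflTransGen (fun u w => (u, w) ∈ A2) s M := (c1 t ht).tail e1
    have l2 := l1.tail e2
    have l3 := l2.tail e3
    have toS : ReflTransGen (fun u w => (u, w) ∈ A2) x s := by
      rcases (by omega : x < M ∨ x = M ∨ x = M + 1 ∨ x = M + 2) with h | h | h | h
      · exact (c2 x h).trans k0
      · rw [h]; exact k1
      · rw [h]; exact k2
      · rw [h]; exact k3
    have fromS : ReflTransGen (fun u w => (u, w) ∈ A2) s y := by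
      rcases (by omega : y < M ∨ y = M ∨ y = M + 1 ∨ y = M + 2) with h | h | h | h
      · exact c1 y h
      · rw [h]; exact l1
      · rw [h]; exact l2
      · rw [h]; exact l3
    exact toS.trans fromS

theorem of_pair (hc : Core M s t al be) (h : AntistrongStrong (Dg M s t al be)) :
    ∃ f, HP M s t al be f := by
  have hs := hc.s_lt
  have ht := hc.t_lt
  have hne := hc.ne
  obtain ⟨-, A1, A2, s1, s2, hd, hA, hS⟩ := h
  change Strong (M + 3) A2 at hS
  obtain ⟨-, hA⟩ := hA
  change ∀ x < M + 3, ∀ y < M + 3, x ≠ y → FwdTrail A1 x y at hA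
  have m1 : ∀ v w, (v, w) ∈ A1 → v < M + 3 ∧ w ∈ outs M s t al be v := fun v w h =>
    mem_Dg.1 (s1 _ h)
  have m2 : ∀ v w, (v, w) ∈ A2 → v < M + 3 ∧ w ∈ outs M s t al be v := fun v w h =>
    mem_Dg.1 (s2 _ h)
  have ho : ∀ v < M, v ≠ t → ∀ w, w ∈ outs M s t al be v → w = al v ∨ w = be v := by
    intro v h1 h2 w hw
    unfold outs at hw
    rw [if_neg h2, if_pos h1] at hw
    simpa using hw
  -- every vertex has an arc in both subdigraphs
  have x1 : ∀ v < M, ∃ w, (v, w) ∈ A1 := by
    intro v hv
    obtain ⟨k, u, h0, -, h2, -⟩ := hA v (by omega) M (by omega) (by omega)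
    have := h2 0 (by omega)
    unfold arc at this
    rw [if_pos (by omega), h0] at this
    exact ⟨_, this⟩
  have x2 : ∀ v < M, ∃ w, (v, w) ∈ A2 := by
    intro v hv
    rcases ReflTransGen.cases_head (hS v (by omega) M (by omega)) with h | ⟨c, h, -⟩
    · omega
    · exact ⟨c, h⟩
  classical
  let f : ℕ → ℕ := fun v => if (v, al v) ∈ A2 then al v else be v
  have hf2 : ∀ v < M, v ≠ t → ∀ w, (v, w) ∈ A2 → w = f v := by
    intro v h1 h2 w hw
    simp only [f]
    split_ifs with h3
    · rcases ho v h1 h2 w (m2 _ _ hw).2 with h | h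
      · exact h
      · exfalso
        subst h
        obtain ⟨w', hw'⟩ := x1 v h1
        rcases ho v h1 h2 w' (m1 _ _ hw').2 with h | h
        · subst h; exact hd _ hw' h3
        · subst h; exact hd _ hw' hw
    · rcases ho v h1 h2 w (m2 _ _ hw).2 with h | h
      · subst h; exact (h3 hw).elim
      · exact h
  have hf1 : ∀ v < M, v ≠ t → ∀ w w', (v, w) ∈ A1 → (v, w') ∈ A1 → w = w' := by
    intro v h1 h2 w w' hw hw'
    obtain ⟨w2, hw2⟩ := x2 v h1
    have e0 := ho v h1 h2 w2 (m2 _ _ hw2).2
    have e1 := ho v h1 h2 w (m1 _ _ hw).2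
    have e2 := ho v h1 h2 w' (m1 _ _ hw').2
    have n1 : w ≠ w2 := by rintro rfl; exact hd _ hw hw2
    have n2 : w' ≠ w2 := by rintro rfl; exact hd _ hw' hw2
    omega
  -- the arcs from `M` into the core are in the first subdigraph
  have hMw : ∀ w < M, w ≠ s → (M, w) ∈ A1 := by
    intro w hw hws
    obtain ⟨k, u, h0, h1, h2, h3⟩ := hA M (by omega) w (by omega) (by omega)
    have hlast := h2 (2 * k) le_rfl
    have e0 : arc u (2 * k) = (u (2 * k), w) := by
      unfold arc
      rw [if_pos (by omega), h1]
    rw [e0] at hlast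
    rcases Nat.eq_zero_or_pos k with hk | hk
    · subst hk
      rw [Nat.mul_zero, h0] at hlast
      exact hlast
    · obtain ⟨j, rfl⟩ : ∃ j, k = j + 1 := ⟨k - 1, by omega⟩
      have hprev := h2 (2 * j + 1) (by omega)
      have e1 : arc u (2 * j + 1) = (u (2 * (j + 1)), u (2 * j + 1)) := by
        unfold arc
        rw [if_neg (by omega)]
        rfl
      rw [e1] at hprev
      by_cases hM : u (2 * (j + 1)) = M
      · rw [hM] at hlast; exact hlast
      · exfalso
        obtain ⟨g1, g2⟩ := m1 _ _ hlast
        have hvM : u (2 * (j + 1)) < M ∧ u (2 * (j + 1)) ≠ t := by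
          unfold outs at g2
          split_ifs at g2 with q1 q2 q3 q4
          · simp only [List.mem_cons, List.not_mem_nil, or_false] at g2
            omega
          · exact ⟨q2, q1⟩
          · simp only [List.mem_cons, List.not_mem_nil, or_false] at g2
            omega
          · simp only [List.mem_cons, List.not_mem_nil, or_false] at g2
            omega
        have e2 := hf1 _ hvM.1 hvM.2 _ _ hlast hprev
        have e3 := h3 (2 * (j + 1)) le_rfl (2 * j + 1) (by omega) (by rw [e0, e1, e2])
        omega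
  refine ⟨f, fun v _ _ => ?_, fun w hw => ?_⟩
  · simp only [f]
    split_ifs
    · exact Or.inl rfl
    · exact Or.inr rfl
  · have key : ∀ u, ReflTransGen (fun u w => (u, w) ∈ A2) M u →
        (M ≤ u ∧ u < M + 3) ∨ (u < M ∧ ReflTransGen (Rf M t f) s u) := by
      intro u hu
      induction hu with
      | refl => left; omega
      | @tail b c _ hbc ih =>
        obtain ⟨g1, g2⟩ := m2 _ _ hbc
        rcases ih with ih | ⟨hb, ih⟩
        · unfold outs at g2
          split_ifs at g2 with q1 q2 q3 q4
          · omega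
          · omega
          · simp only [List.mem_filter, List.mem_range, decide_eq_true_eq] at g2
            by_cases hcM : c < M
            · by_cases hcs : c = s
              · right; subst hcs; exact ⟨hcM, ReflTransGen.refl⟩
              · exfalso
                rw [q3] at hbc
                exact hd _ (hMw c hcM hcs) hbc
            · left; omega
          · simp only [List.mem_cons, List.not_mem_nil, or_false] at g2
            rcases g2 with h | h | h
            · right; subst h; exact ⟨hs, ReflTransGen.refl⟩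
            · left; omega
            · left; omega
          · simp only [List.mem_cons, List.not_mem_nil, or_false] at g2
            rcases g2 with h | h | h
            · right; subst h; exact ⟨hs, ReflTransGen.refl⟩
            · left; omega
            · left; omega
        · by_cases hbt : b = t
          · unfold outs at g2
            rw [if_pos hbt] at g2
            simp only [List.mem_cons, List.not_mem_nil, or_false] at g2
            rcases g2 with h | h | h | h
            · right; subst h; exact ⟨hs, ReflTransGen.refl⟩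
            · left; omega
            · left; omega
            · left; omega
          · right
            have hcf := hf2 b hb hbt c hbc
            refine ⟨?_, ih.tail ⟨hb, hbt, hcf⟩⟩
            rcases ho b hb hbt c g2 with h | h
            · rw [h]; exact hc.al_lt b hb hbt
            · rw [h]; exact hc.be_lt b hb hbt
    rcases key w (hS M (by omega) w (by omega)) with h | h
    · omega
    · exact h.2

theorem core_iff (hc : Core M s t al be) :
    (∃ f, HP M s t al be f) ↔ AntistrongStrong (Dg M s t al be) :=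
  ⟨fun ⟨_, hf⟩ => to_pair hc hf, of_pair hc⟩

end Pool.Agent.NPC.V11230.AS
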