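import Pool.Agent.V11230.AStrong2
import Pool.Agent.NPC.Sat2

/-!
# Satisfiability and Hamiltonian paths in digraphs of out-degree two
-/

set_option autoImplicit false

namespace Pool.Agent.NPC.V11230.AS

open Relation

/-- the first position at or after `a` with the literal `l` -/
def fo (O : List (Bool × ℕ)) (a : ℕ) (l : Bool × ℕ) : Option ℕ :=
  ((List.range O.length).filter (fun o => decide (a ≤ o) &&
    decide (O.getD o (true, 0) = l))).head?

theorem fo_some {O : List (Bool × ℕ)} {a o : ℕ} {l : Bool × ℕ} : fo O a l = some o ↔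
    a ≤ o ∧ o < O.length ∧ O.getD o (true, 0) = l ∧
      ∀ j, a ≤ j → j < o → O.getD j (true, 0) ≠ l := by
  unfold fo
  rw [List.head?_filter, List.find?_range_eq_some]
  simp only [Bool.and_eq_true, decide_eq_true_eq, List.mem_range, Bool.not_eq_true',
    Bool.and_eq_false_iff, decide_eq_false_iff_not]
  constructor
  · rintro ⟨⟨h1, h2⟩, h3, h4⟩
    refine ⟨h1, h3, h2, fun j hj hjo => ?_⟩
    rcases h4 j hjo with h | h
    · exact absurd hj h
    · exact h
  · rintro ⟨h1, h2, h3, h4⟩
    refine ⟨⟨h1, h3⟩, h2, fun j hjo => ?_⟩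
    by_cases hj : a ≤ j
    · exact Or.inr (h4 j hj hjo)
    · exact Or.inl hj

theorem fo_none {O : List (Bool × ℕ)} {a : ℕ} {l : Bool × ℕ} : fo O a l = none ↔
    ∀ o, a ≤ o → o < O.length → O.getD o (true, 0) ≠ l := by
  unfold fo
  rw [List.head?_eq_none_iff, List.filter_eq_nil_iff]
  simp only [List.mem_range, Bool.and_eq_true, decide_eq_true_eq, not_and]
  constructor
  · intro h o h1 h2; exact h o h2 h1
  · intro h o h1 h2; exact h o h2 h1

theorem fo_self {O : List (Bool × ℕ)} {o : ℕ} (h : o < O.length) :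
    fo O o (O.getD o (true, 0)) = some o := fo_some.2 ⟨le_rfl, h, rfl, fun j h1 h2 => by omega⟩

theorem fo_succ {O : List (Bool × ℕ)} {a : ℕ} {l : Bool × ℕ} (h : O.getD a (true, 0) ≠ l) :
    fo O (a + 1) l = fo O a l := by
  cases hh : fo O a l with
  | none =>
    rw [fo_none] at hh ⊢
    exact fun o h1 h2 => hh o (by omega) h2
  | some o =>
    rw [fo_some] at hh ⊢
    obtain ⟨h1, h2, h3, h4⟩ := hh
    have : a ≠ o := by rintro rfl; exact h h3
    exact ⟨by omega, h2, h3, fun j hj hjo => h4 j (by omega) hjo⟩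

def rr (o : ℕ) : ℕ := 3 * (o / 3) + (o % 3 + 1) % 3
def ll (o : ℕ) : ℕ := 3 * (o / 3) + (o % 3 + 2) % 3

theorem rr_ll (o : ℕ) : rr (ll o) = o := by unfold rr ll; omega
theorem ll_rr (o : ℕ) : ll (rr o) = o := by unfold rr ll; omega
theorem rr_rr (o : ℕ) : rr (rr o) = ll o := by unfold rr ll; omega
theorem rr_ne (o : ℕ) : rr o ≠ o := by unfold rr; omega
theorem ll_ne (o : ℕ) : ll o ≠ o := by unfold ll; omega
theorem rr_div (o : ℕ) : rr o / 3 = o / 3 := by unfold rr; omega
theorem ll_div (o : ℕ) : ll o / 3 = o / 3 := by unfold ll; omega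

/-- the instances: `O` is the list of the literals of `m` clauses -/
structure Good (O : List (Bool × ℕ)) (m n : ℕ) : Prop where
  len : O.length = 3 * m
  lt : ∀ o < 3 * m, (O.getD o (true, 0)).2 < n
  occ : ∀ x < n, ∀ b : Bool, ∃ o < 3 * m, O.getD o (true, 0) = (b, x)
  pos : 0 < n

def alF (O : List (Bool × ℕ)) (m : ℕ) (v : ℕ) : ℕ :=
  if v < 6 * m then
    if v % 2 = 0 then v + 1
    else (match fo O (v / 2 + 1) (O.getD (v / 2) (true, 0)) with
      | some o => 2 * o
      | none => 6 * m + (O.getD (v / 2) (true, 0)).2 + 1)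
  else 2 * (fo O 0 (true, v - 6 * m)).getD 0

def beF (O : List (Bool × ℕ)) (m : ℕ) (v : ℕ) : ℕ :=
  if v < 6 * m then
    if v % 2 = 0 then 2 * rr (v / 2) else 2 * ll (v / 2) + 1
  else 2 * (fo O 0 (false, v - 6 * m)).getD 0

variable {O : List (Bool × ℕ)} {m n : ℕ}

theorem al_even {o : ℕ} (h : o < 3 * m) : alF O m (2 * o) = 2 * o + 1 := by
  unfold alF
  rw [if_pos (by omega), if_pos (by omega)]

theorem be_even {o : ℕ} (h : o < 3 * m) : beF O m (2 * o) = 2 * rr o := by
  unfold beF
  rw [if_pos (by omega), if_pos (by omega)]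
  congr 2
  omega

theorem be_odd {o : ℕ} (h : o < 3 * m) : beF O m (2 * o + 1) = 2 * ll o + 1 := by
  unfold beF
  rw [if_pos (by omega), if_neg (by omega)]
  congr 3
  omega

theorem al_odd_some {o o' : ℕ} (h : o < 3 * m) (h' : fo O (o + 1) (O.getD o (true, 0)) = some o') :
    alF O m (2 * o + 1) = 2 * o' := by
  unfold alF
  rw [if_pos (by omega), if_neg (by omega)]
  have : (2 * o + 1) / 2 = o := by omega
  rw [this, h']

theorem al_odd_none {o : ℕ} (h : o < 3 * m) (h' : fo O (o + 1) (O.getD o (true, 0)) = none) :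
    alF O m (2 * o + 1) = 6 * m + (O.getD o (true, 0)).2 + 1 := by
  unfold alF
  rw [if_pos (by omega), if_neg (by omega)]
  have : (2 * o + 1) / 2 = o := by omega
  rw [this, h']

theorem exists_fo (hG : Good O m n) {x : ℕ} (hx : x < n) (b : Bool) :
    ∃ o < 3 * m, fo O 0 (b, x) = some o := by
  cases h : fo O 0 (b, x) with
  | none =>
    obtain ⟨o, ho, hO⟩ := hG.occ x hx b
    exact absurd hO (fo_none.1 h o (by omega) (by rw [hG.len]; exact ho))
  | some o =>
    have := (fo_some.1 h).2.1
    rw [hG.len] at this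
    exact ⟨o, this, rfl⟩

theorem al_b {x o : ℕ} (h : fo O 0 (true, x) = some o) : alF O m (6 * m + x) = 2 * o := by
  unfold alF
  rw [if_neg (by omega), Nat.add_sub_cancel_left, h]
  rfl

theorem be_b {x o : ℕ} (h : fo O 0 (false, x) = some o) : beF O m (6 * m + x) = 2 * o := by
  unfold beF
  rw [if_neg (by omega), Nat.add_sub_cancel_left, h]
  rfl

theorem rr_lt {o : ℕ} (h : o < 3 * m) : rr o < 3 * m := by unfold rr; omega
theorem ll_lt {o : ℕ} (h : o < 3 * m) : ll o < 3 * m := by unfold ll; omega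

/-- the kinds of the vertices -/
theorem kinds (v : ℕ) (hv : v < 6 * m + n + 1) (hvt : v ≠ 6 * m + n) :
    (∃ o < 3 * m, v = 2 * o) ∨ (∃ o < 3 * m, v = 2 * o + 1) ∨ ∃ x < n, v = 6 * m + x := by
  by_cases h : v < 6 * m
  · rcases Nat.mod_two_eq_zero_or_one v with h0 | h0
    · exact Or.inl ⟨v / 2, by omega, by omega⟩
    · exact Or.inr (Or.inl ⟨v / 2, by omega, by omega⟩)
  · exact Or.inr (Or.inr ⟨v - 6 * m, by omega, by omega⟩)

/-- the next vertex on the line of a literal -/
theorem al_odd_cases (hG : Good O m n) {o : ℕ} (h : o < 3 * m) :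
    (∃ o', fo O (o + 1) (O.getD o (true, 0)) = some o' ∧ o < o' ∧ o' < 3 * m ∧
      alF O m (2 * o + 1) = 2 * o') ∨
    (fo O (o + 1) (O.getD o (true, 0)) = none ∧
      alF O m (2 * o + 1) = 6 * m + (O.getD o (true, 0)).2 + 1) := by
  cases hh : fo O (o + 1) (O.getD o (true, 0)) with
  | none => exact Or.inr ⟨rfl, al_odd_none h hh⟩
  | some o' =>
    obtain ⟨h1, h2, -⟩ := fo_some.1 hh
    rw [hG.len] at h2
    exact Or.inl ⟨o', rfl, by omega, h2, al_odd_some h hh⟩

theorem core (hG : Good O m n) :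
    Core (6 * m + n + 1) (6 * m) (6 * m + n) (alF O m) (beF O m) := by
  have hn := hG.pos
  refine ⟨by omega, by omega, by omega, ?_, ?_, ?_, ?_, ?_⟩
  · intro v hv hvt
    rcases kinds v hv hvt with ⟨o, ho, rfl⟩ | ⟨o, ho, rfl⟩ | ⟨x, hx, rfl⟩
    · rw [al_even ho]; omega
    · rcases al_odd_cases hG ho with ⟨o', -, -, h1, h2⟩ | ⟨-, h2⟩
      · omega
      · have := hG.lt o ho
        omega
    · obtain ⟨o, ho, h1⟩ := exists_fo hG hx true
      rw [al_b h1]; omega
  · intro v hv hvt
    rcases kinds v hv hvt with ⟨o, ho, rfl⟩ | ⟨o, ho, rfl⟩ | ⟨x, hx, rfl⟩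
    · rw [be_even ho]; have := rr_lt ho; omega
    · rw [be_odd ho]; have := ll_lt ho; omega
    · obtain ⟨o, ho, h1⟩ := exists_fo hG hx false
      rw [be_b h1]; omega
  · intro v hv hvt
    rcases kinds v hv hvt with ⟨o, ho, rfl⟩ | ⟨o, ho, rfl⟩ | ⟨x, hx, rfl⟩
    · rw [al_even ho]; omega
    · rcases al_odd_cases hG ho with ⟨o', -, -, h1, h2⟩ | ⟨-, h2⟩
      · omega
      · omega
    · obtain ⟨o, ho, h1⟩ := exists_fo hG hx true
      rw [al_b h1]; omega
  · intro v hv hvt
    rcases kinds v hv hvt with ⟨o, ho, rfl⟩ | ⟨o, ho, rfl⟩ | ⟨x, hx, rfl⟩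
    · rw [be_even ho]; have := rr_ne o; omega
    · rw [be_odd ho]; have := ll_ne o; omega
    · obtain ⟨o, ho, h1⟩ := exists_fo hG hx false
      rw [be_b h1]; omega
  · intro v hv hvt
    rcases kinds v hv hvt with ⟨o, ho, rfl⟩ | ⟨o, ho, rfl⟩ | ⟨x, hx, rfl⟩
    · rw [al_even ho, be_even ho]; omega
    · rw [be_odd ho]
      have := ll_lt ho
      rcases al_odd_cases hG ho with ⟨o', -, -, h1, h2⟩ | ⟨-, h2⟩
      · omega
      · omega
    · obtain ⟨o, ho, h1⟩ := exists_fo hG hx true
      obtain ⟨o', ho', h1'⟩ := exists_fo hG hx false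
      rw [al_b h1, be_b h1']
      have e1 := (fo_some.1 h1).2.2.1
      have e2 := (fo_some.1 h1').2.2.1
      intro h
      have : o = o' := by omega
      subst this
      rw [e1] at e2
      simp at e2

/-- satisfiability -/
def SatO (O : List (Bool × ℕ)) (m : ℕ) : Prop :=
  ∃ τ : ℕ → Bool, ∀ c < m, ∃ i < 3, τ (O.getD (3 * c + i) (true, 0)).2 =
    (O.getD (3 * c + i) (true, 0)).1

section ToPath

variable (τ : ℕ → Bool)

/-- the literal is true -/
def act (O : List (Bool × ℕ)) (o : ℕ) : Prop := τ (O.getD o (true, 0)).2 = (O.getD o (true, 0)).1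

instance (o : ℕ) : Decidable (act τ O o) := by unfold act; infer_instance

def fT (O : List (Bool × ℕ)) (m : ℕ) (v : ℕ) : ℕ :=
  if v < 6 * m then
    if v % 2 = 0 then (if act τ O (rr (v / 2)) then alF O m v else beF O m v)
    else (if act τ O (v / 2) then alF O m v else beF O m v)
  else if τ (v - 6 * m) = true then alF O m v else beF O m v

theorem sat_to_path (hG : Good O m n) (hsat : ∀ c < m, ∃ i < 3, act τ O (3 * c + i)) :
    HP (6 * m + n + 1) (6 * m) (6 * m + n) (alF O m) (beF O m) (fT τ O m) := by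
  have hn := hG.pos
  set R := Rf (6 * m + n + 1) (6 * m + n) (fT τ O m) with hR
  have st : ∀ v w, v < 6 * m + n → fT τ O m v = w → R v w := fun v w h1 h2 =>
    ⟨by omega, by omega, h2.symm⟩
  -- steps
  have s1 : ∀ o < 3 * m, act τ O (rr o) → R (2 * o) (2 * o + 1) := by
    intro o ho ha
    refine st _ _ (by omega) ?_
    unfold fT
    rw [if_pos (by omega), if_pos (by omega), if_pos, al_even ho]
    have : 2 * o / 2 = o := by omega
    rwa [this]
  have s2 : ∀ o < 3 * m, ¬ act τ O (rr o) → R (2 * o) (2 * rr o) := by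
    intro o ho ha
    refine st _ _ (by omega) ?_
    unfold fT
    rw [if_pos (by omega), if_pos (by omega), if_neg, be_even ho]
    have : 2 * o / 2 = o := by omega
    rwa [this]
  have s3 : ∀ o < 3 * m, act τ O o → R (2 * o + 1) (alF O m (2 * o + 1)) := by
    intro o ho ha
    refine st _ _ (by omega) ?_
    unfold fT
    rw [if_pos (by omega), if_neg (by omega), if_pos]
    have : (2 * o + 1) / 2 = o := by omega
    rwa [this]
  have s4 : ∀ o < 3 * m, ¬ act τ O o → R (2 * o + 1) (2 * ll o + 1) := by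
    intro o ho ha
    refine st _ _ (by omega) ?_
    unfold fT
    rw [if_pos (by omega), if_neg (by omega), if_neg, be_odd ho]
    have : (2 * o + 1) / 2 = o := by omega
    rwa [this]
  have s5 : ∀ x < n, ∀ o, fo O 0 (τ x, x) = some o → R (6 * m + x) (2 * o) := by
    intro x hx o ho
    refine st _ _ (by omega) ?_
    unfold fT
    rw [if_neg (by omega), Nat.add_sub_cancel_left]
    cases hτ : τ x with
    | true => rw [hτ] at ho; rw [if_pos rfl, al_b ho]
    | false => rw [hτ] at ho; rw [if_neg (by simp), be_b ho]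
  -- the rings
  have ring1 : ∀ o < 3 * m, act τ O (rr o) → ReflTransGen R (2 * o) (2 * o + 1) :=
    fun o ho ha => ReflTransGen.single (s1 o ho ha)
  have ring2 : ∀ o < 3 * m, ReflTransGen R (2 * rr o) (2 * rr o + 1) →
      ReflTransGen R (2 * o) (2 * o + 1) := by
    intro o ho h
    by_cases ha : act τ O (rr o)
    · exact ring1 o ho ha
    · have e := s4 (rr o) (rr_lt ho) ha
      rw [ll_rr] at e
      exact ((ReflTransGen.single (s2 o ho ha)).trans h).tail e
  have exact3 : ∀ o < 3 * m, act τ O o ∨ act τ O (rr o) ∨ act τ O (ll o) := by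
    intro o ho
    obtain ⟨i, hi, ha⟩ := hsat (o / 3) (by omega)
    have : 3 * (o / 3) + i = o ∨ 3 * (o / 3) + i = rr o ∨ 3 * (o / 3) + i = ll o := by
      unfold rr ll; omega
    rcases this with h | h | h
    · rw [h] at ha; exact Or.inl ha
    · rw [h] at ha; exact Or.inr (Or.inl ha)
    · rw [h] at ha; exact Or.inr (Or.inr ha)
  have rdown : ∀ o < 3 * m, ReflTransGen R (2 * o) (2 * o + 1) := by
    intro o ho
    rcases exact3 o ho with h | h | h
    · -- act o
      have h1 : ReflTransGen R (2 * ll o) (2 * ll o + 1) :=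
        ring1 _ (ll_lt ho) (by rw [rr_ll]; exact h)
      have h2 : ReflTransGen R (2 * rr o) (2 * rr o + 1) :=
        ring2 _ (rr_lt ho) (by rw [rr_rr]; exact h1)
      exact ring2 o ho h2
    · exact ring1 o ho h
    · have h2 : ReflTransGen R (2 * rr o) (2 * rr o + 1) :=
        ring1 _ (rr_lt ho) (by rw [rr_rr]; exact h)
      exact ring2 o ho h2
  -- the lines
  have line1 : ∀ x < n, ReflTransGen R (6 * m) (6 * m + x) → ∀ a ≤ 3 * m, ∀ o,
      fo O a (τ x, x) = some o → ReflTransGen R (6 * m) (2 * o) := by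
    intro x hx hP a
    induction a with
    | zero => intro _ o ho; exact hP.tail (s5 x hx o ho)
    | succ a ih =>
      intro ha o ho
      by_cases h : O.getD a (true, 0) = (τ x, x)
      · have h1 : fo O a (τ x, x) = some a := by
          rw [← h]; exact fo_self (by rw [hG.len]; omega)
        have h2 := ih (by omega) a h1
        have h3 := s3 a (by omega) (by unfold act; rw [h])
        rw [al_odd_some (by omega) (o' := o) (by rw [h]; exact ho)] at h3
        exact (h2.trans (rdown a (by omega))).tail h3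
      · rw [fo_succ h] at ho
        exact ih (by omega) o ho
  have line2 : ∀ x < n, ReflTransGen R (6 * m) (6 * m + x) → ∀ a ≤ 3 * m,
      fo O a (τ x, x) = none → ReflTransGen R (6 * m) (6 * m + (x + 1)) := by
    intro x hx hP a
    induction a with
    | zero =>
      intro _ ho
      obtain ⟨o, -, h⟩ := exists_fo hG hx (τ x)
      rw [ho] at h
      simp at h
    | succ a ih =>
      intro ha ho
      by_cases h : O.getD a (true, 0) = (τ x, x)
      · have h1 : fo O a (τ x, x) = some a := by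
          rw [← h]; exact fo_self (by rw [hG.len]; omega)
        have h2 := line1 x hx hP a (by omega) a h1
        have h3 := s3 a (by omega) (by unfold act; rw [h])
        rw [al_odd_none (by omega) (by rw [h]; exact ho), h] at h3
        exact (h2.trans (rdown a (by omega))).tail h3
      · rw [fo_succ h] at ho
        exact ih (by omega) ho
  have base : ∀ x ≤ n, ReflTransGen R (6 * m) (6 * m + x) := by
    intro x
    induction x with
    | zero => intro _; exact ReflTransGen.refl
    | succ x ih =>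
      intro hx
      refine line2 x (by omega) (ih (by omega)) (3 * m) le_rfl ?_
      rw [fo_none]
      intro o h1 h2
      rw [hG.len] at h2
      omega
  have active : ∀ o < 3 * m, act τ O o → ReflTransGen R (6 * m) (2 * o) := by
    intro o ho ha
    have hx := hG.lt o ho
    refine line1 _ hx (base _ hx.le) o (by omega) o ?_
    have : (τ (O.getD o (true, 0)).2, (O.getD o (true, 0)).2) = O.getD o (true, 0) := by
      unfold act at ha
      rw [ha]
    rw [this]
    exact fo_self (by rw [hG.len]; exact ho)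
  have step1 : ∀ o < 3 * m, ReflTransGen R (6 * m) (2 * o) → ReflTransGen R (6 * m) (2 * rr o) := by
    intro o ho h
    by_cases ha : act τ O (rr o)
    · exact active _ (rr_lt ho) ha
    · exact h.tail (s2 o ho ha)
  have all0 : ∀ o < 3 * m, ReflTransGen R (6 * m) (2 * o) := by
    intro o ho
    rcases exact3 o ho with h | h | h
    · exact active o ho h
    · have h1 := step1 _ (rr_lt ho) (active _ (rr_lt ho) h)
      have h2 := step1 _ (rr_lt (rr_lt ho)) h1
      rwa [rr_rr, ll_rr] at h2
    · have h1 := step1 _ (ll_lt ho) (active _ (ll_lt ho) h)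
      rwa [rr_ll] at h1
  constructor
  · intro v hv hvt
    unfold fT
    split_ifs <;> simp
  · intro w hw
    by_cases hwt : w = 6 * m + n
    · rw [hwt]; exact base n le_rfl
    · rcases kinds w hw hwt with ⟨o, ho, rfl⟩ | ⟨o, ho, rfl⟩ | ⟨x, hx, rfl⟩
      · exact all0 o ho
      · exact (all0 o ho).trans (rdown o ho)
      · exact base x hx.le

end ToPath

end Pool.Agent.NPC.V11230.AS
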