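import Pool.Agent.V11230.AStrong3

/-!
# From Hamiltonian paths to satisfying assignments
-/

set_option autoImplicit false

namespace Pool.Agent.NPC.V11230.AS

open Relation

variable {O : List (Bool × ℕ)} {m n : ℕ}

theorem path_to_sat (hG : Good O m n) {f : ℕ → ℕ}
    (hf : HP (6 * m + n + 1) (6 * m) (6 * m + n) (alF O m) (beF O m) f) : SatO O m := by
  have hn := hG.pos
  have hc := core hG
  obtain ⟨hf1, hf2⟩ := hf
  set M := 6 * m + n + 1 with hM
  have hflt : ∀ v < M, v ≠ 6 * m + n → f v < M := by
    intro v hv hvt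
    have f1 := hc.al_lt v hv hvt
    have f2 := hc.be_lt v hv hvt
    rcases hf1 v hv hvt with h | h <;> omega
  -- surjectivity and injectivity
  have hsur : ∀ w < M, w ≠ 6 * m → ∃ v < M, v ≠ 6 * m + n ∧ f v = w := by
    intro w hw hws
    rcases ReflTransGen.cases_tail (hf2 w hw) with h | ⟨c, -, h1, h2, h3⟩
    · omega
    · exact ⟨c, h1, h2, h3.symm⟩
  have himg : ((Finset.range M).erase (6 * m + n)).image f = (Finset.range M).erase (6 * m) ∧
      Set.InjOn f ((Finset.range M).erase (6 * m + n)) := by
    have hsub : (Finset.range M).erase (6 * m) ⊆ ((Finset.range M).erase (6 * m + n)).image f := by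
      intro w hw
      rw [Finset.mem_erase, Finset.mem_range] at hw
      obtain ⟨v, h1, h2, h3⟩ := hsur w hw.2 hw.1
      rw [Finset.mem_image]
      exact ⟨v, by rw [Finset.mem_erase, Finset.mem_range]; exact ⟨h2, h1⟩, h3⟩
    have c1 : ((Finset.range M).erase (6 * m)).card = M - 1 := by
      rw [Finset.card_erase_of_mem (by rw [Finset.mem_range]; omega), Finset.card_range]
    have c2 : ((Finset.range M).erase (6 * m + n)).card = M - 1 := by
      rw [Finset.card_erase_of_mem (by rw [Finset.mem_range]; omega), Finset.card_range]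
    have c3 := Finset.card_le_card hsub
    have c4 : (((Finset.range M).erase (6 * m + n)).image f).card ≤ M - 1 :=
      Finset.card_image_le.trans c2.le
    refine ⟨(Finset.eq_of_subset_of_card_le hsub (by omega)).symm, ?_⟩
    rw [← Finset.card_image_iff]
    omega
  have hinj : ∀ v < M, v ≠ 6 * m + n → ∀ v' < M, v' ≠ 6 * m + n → f v = f v' → v = v' := by
    intro v h1 h2 v' h3 h4 h5
    apply himg.2 _ _ h5
    · rw [Finset.mem_coe, Finset.mem_erase, Finset.mem_range]; exact ⟨h2, h1⟩
    · rw [Finset.mem_coe, Finset.mem_erase, Finset.mem_range]; exact ⟨h4, h3⟩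
  have fe : ∀ o < 3 * m, f (2 * o) = 2 * o + 1 ∨ f (2 * o) = 2 * rr o := by
    intro o ho
    have := hf1 (2 * o) (by omega) (by omega)
    rwa [al_even ho, be_even ho] at this
  have fodd : ∀ o < 3 * m, f (2 * o + 1) = alF O m (2 * o + 1) ∨ f (2 * o + 1) = 2 * ll o + 1 := by
    intro o ho
    have := hf1 (2 * o + 1) (by omega) (by omega)
    rwa [be_odd ho] at this
  have fb : ∀ x < n, ∀ o o', fo O 0 (true, x) = some o → fo O 0 (false, x) = some o' →
      f (6 * m + x) = 2 * o ∨ f (6 * m + x) = 2 * o' := by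
    intro x hx o o' h1 h2
    have := hf1 (6 * m + x) (by omega) (by omega)
    rwa [al_b h1, be_b h2] at this
  have odd_al : ∀ o < 3 * m, alF O m (2 * o + 1) % 2 = 0 ∧ alF O m (2 * o + 1) < 6 * m ∨
      6 * m < alF O m (2 * o + 1) := by
    intro o ho
    rcases al_odd_cases hG ho with ⟨o', -, -, h1, h2⟩ | ⟨-, h2⟩
    · left; omega
    · right; omega
  -- the vertices `2 o + 1`
  have D : ∀ o < 3 * m, (f (2 * o) = 2 * o + 1 ↔ ¬ f (2 * rr o + 1) = 2 * o + 1) := by
    intro o ho
    have hr := rr_lt ho
    constructor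
    · intro h1 h2
      have := hinj (2 * o) (by omega) (by omega) (2 * rr o + 1) (by omega) (by omega)
        (h1.trans h2.symm)
      omega
    · intro h1
      obtain ⟨v, hv, hvt, h2⟩ := hsur (2 * o + 1) (by omega) (by omega)
      rcases kinds v hv hvt with ⟨o', ho', rfl⟩ | ⟨o', ho', rfl⟩ | ⟨x, hx, rfl⟩
      · rcases fe o' ho' with h | h
        · have : o' = o := by omega
          rwa [this] at h2
        · omega
      · exfalso
        rcases fodd o' ho' with h | h
        · rcases odd_al o' ho' with h3 | h3 <;> omega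
        · have h3 : ll o' = o := by omega
          have h4 : o' = rr o := by rw [← h3, rr_ll]
          rw [h4] at h2
          exact h1 h2
      · exfalso
        obtain ⟨o1, ho1, g1⟩ := exists_fo hG hx true
        obtain ⟨o2, ho2, g2⟩ := exists_fo hG hx false
        rcases fb x hx o1 o2 g1 g2 with h | h <;> omega
  -- active occurrences
  let ac : ℕ → Prop := fun o => f (2 * ll o) = 2 * ll o + 1
  have ac1 : ∀ o < 3 * m, (ac o ↔ f (2 * o + 1) = alF O m (2 * o + 1)) := by
    intro o ho
    have h1 := D (ll o) (ll_lt ho)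
    rw [rr_ll] at h1
    show f (2 * ll o) = 2 * ll o + 1 ↔ _
    rw [h1]
    have hl := ll_lt ho
    constructor
    · intro h2
      rcases fodd o ho with h | h
      · exact h
      · exact (h2 h).elim
    · intro h2 h3
      rcases odd_al o ho with h | h <;> omega
  have ac0 : ∀ o < 3 * m, (ac o ↔ ¬ f (2 * ll o) = 2 * o) := by
    intro o ho
    show f (2 * ll o) = 2 * ll o + 1 ↔ _
    have hl := ll_lt ho
    have h1 := fe (ll o) hl
    rw [rr_ll] at h1
    omega
  -- preimages of `2 o`
  have pre : ∀ o < 3 * m, ∀ v < M, v ≠ 6 * m + n → f v = 2 * o → v = 2 * ll o ∨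
      (∃ o' < 3 * m, v = 2 * o' + 1 ∧ fo O (o' + 1) (O.getD o' (true, 0)) = some o) ∨
      (∃ x < n, ∃ b, v = 6 * m + x ∧ fo O 0 (b, x) = some o) := by
    intro o ho v hv hvt h2
    rcases kinds v hv hvt with ⟨o', ho', rfl⟩ | ⟨o', ho', rfl⟩ | ⟨x, hx, rfl⟩
    · left
      rcases fe o' ho' with h | h
      · omega
      · have : rr o' = o := by omega
        rw [← this, ll_rr]
    · right; left
      refine ⟨o', ho', rfl, ?_⟩
      rcases fodd o' ho' with h | h
      · rcases al_odd_cases hG ho' with ⟨o'', h3, -, -, h4⟩ | ⟨-, h4⟩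
        · have : o'' = o := by omega
          rw [h3, this]
        · omega
      · omega
    · right; right
      obtain ⟨o1, ho1, g1⟩ := exists_fo hG hx true
      obtain ⟨o2, ho2, g2⟩ := exists_fo hG hx false
      rcases fb x hx o1 o2 g1 g2 with h | h
      · have : o1 = o := by omega
        exact ⟨x, hx, true, rfl, by rw [g1, this]⟩
      · have : o2 = o := by omega
        exact ⟨x, hx, false, rfl, by rw [g2, this]⟩
  have preuniq : ∀ o < 3 * m, ∀ v < M, v ≠ 6 * m + n → v ≠ 2 * ll o →
      (∀ w < M, w ≠ 6 * m + n → f w = 2 * o → w = 2 * ll o ∨ w = v) →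
      (ac o ↔ f v = 2 * o) := by
    intro o ho v hv hvt hne h
    rw [ac0 o ho]
    have hl := ll_lt ho
    constructor
    · intro h1
      obtain ⟨w, hw, hwt, h2⟩ := hsur (2 * o) (by omega) (by omega)
      rcases h w hw hwt h2 with h3 | h3
      · rw [h3] at h2; exact (h1 h2).elim
      · rwa [h3] at h2
    · intro h1 h2
      exact hne (hinj v hv hvt (2 * ll o) (by omega) (by omega) (h1.trans h2.symm))
  have ac2 : ∀ o < 3 * m, ∀ o', fo O (o + 1) (O.getD o (true, 0)) = some o' → (ac o' ↔ ac o) := by
    intro o ho o' h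
    obtain ⟨h1, h2, h3, h4⟩ := fo_some.1 h
    rw [hG.len] at h2
    rw [ac1 o ho, al_odd_some ho h]
    refine preuniq o' h2 (2 * o + 1) (by omega) (by omega) (by omega) ?_
    intro w hw hwt hfw
    rcases pre o' h2 w hw hwt hfw with g | ⟨o'', ho'', rfl, g⟩ | ⟨x, hx, b, rfl, g⟩
    · exact Or.inl g
    · right
      obtain ⟨g1, -, g3, g4⟩ := fo_some.1 g
      have e : O.getD o'' (true, 0) = O.getD o (true, 0) := by rw [← g3, h3]
      rcases Nat.lt_trichotomy o'' o with hlt | heq | hgt
      · exact absurd e.symm (g4 o (by omega) (by omega))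
      · rw [heq]
      · exact absurd e (h4 o'' (by omega) (by omega))
    · exfalso
      obtain ⟨-, -, g3, g4⟩ := fo_some.1 g
      have e : O.getD o (true, 0) = (b, x) := by rw [← h3, g3]
      exact g4 o (by omega) (by omega) e
  have ac3 : ∀ x < n, ∀ b, ∀ o, fo O 0 (b, x) = some o → (ac o ↔ f (6 * m + x) = 2 * o) := by
    intro x hx b o h
    obtain ⟨-, h2, h3, h4⟩ := fo_some.1 h
    rw [hG.len] at h2
    have hl := ll_lt h2
    refine preuniq o h2 (6 * m + x) (by omega) (by omega) (by omega) ?_
    intro w hw hwt hfw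
    rcases pre o h2 w hw hwt hfw with g | ⟨o'', ho'', rfl, g⟩ | ⟨x', hx', b', rfl, g⟩
    · exact Or.inl g
    · exfalso
      obtain ⟨g1, -, g3, g4⟩ := fo_some.1 g
      have e : O.getD o'' (true, 0) = (b, x) := by rw [← g3, h3]
      exact h4 o'' (by omega) (by omega) e
    · right
      obtain ⟨-, -, g3, -⟩ := fo_some.1 g
      rw [h3] at g3
      have : x = x' := congrArg Prod.snd g3
      rw [this]
  have ac4 : ∀ x < n, ∀ b, ∀ a o o1, fo O 0 (b, x) = some o1 → fo O a (b, x) = some o →
      a ≤ 3 * m → (ac o ↔ f (6 * m + x) = 2 * o1) := by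
    intro x hx b a
    induction a with
    | zero =>
      intro o o1 h1 h2 _
      rw [h1] at h2
      have : o1 = o := by simpa using h2
      rw [← this]
      exact ac3 x hx b o1 h1
    | succ a ih =>
      intro o o1 h1 h2 ha
      by_cases h : O.getD a (true, 0) = (b, x)
      · have h3 : fo O a (b, x) = some a := by
          rw [← h]; exact fo_self (by rw [hG.len]; omega)
        rw [← ih a o1 h1 h3 (by omega)]
        exact ac2 a (by omega) o (by rw [h]; exact h2)
      · rw [fo_succ h] at h2
        exact ih o o1 h1 h2 (by omega)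
  classical
  refine ⟨fun x => decide (∃ o, fo O 0 (true, x) = some o ∧ f (6 * m + x) = 2 * o), ?_⟩
  intro c hcm
  -- some occurrence is active
  have hex : ∃ i < 3, ac (3 * c + i) := by
    by_contra hno
    push Not at hno
    have hcyc : ∀ i < 3, f (2 * ll (3 * c + i)) = 2 * (3 * c + i) := by
      intro i hi
      have := hno i hi
      rw [ac0 (3 * c + i) (by omega)] at this
      exact not_not.1 this
    have key : ∀ w, ReflTransGen (Rf M (6 * m + n) f) (6 * m) w → w ≠ 2 * (3 * c) ∧
        w ≠ 2 * (3 * c + 1) ∧ w ≠ 2 * (3 * c + 2) := by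
      intro w hw
      induction hw with
      | refl => omega
      | @tail u w _ hstep ih =>
        obtain ⟨g1, g2, g3⟩ := hstep
        have e0 : ll (3 * c + 0) = 3 * c + 2 := by unfold ll; omega
        have e1 : ll (3 * c + 1) = 3 * c := by unfold ll; omega
        have e2 : ll (3 * c + 2) = 3 * c + 1 := by unfold ll; omega
        have k0 := hcyc 0 (by omega)
        have k1 := hcyc 1 (by omega)
        have k2 := hcyc 2 (by omega)
        rw [e0] at k0
        rw [e1] at k1
        rw [e2] at k2
        refine ⟨fun h => ?_, fun h => ?_, fun h => ?_⟩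
        · have := hinj u g1 g2 (2 * (3 * c + 2)) (by omega) (by omega) (by omega)
          omega
        · have := hinj u g1 g2 (2 * (3 * c)) (by omega) (by omega) (by omega)
          omega
        · have := hinj u g1 g2 (2 * (3 * c + 1)) (by omega) (by omega) (by omega)
          omega
    exact (key (2 * (3 * c)) (hf2 _ (by omega))).1 rfl
  obtain ⟨i, hi, ha⟩ := hex
  refine ⟨i, hi, ?_⟩
  have ho : 3 * c + i < 3 * m := by omega
  set o := 3 * c + i with hoo
  have hx := hG.lt o ho
  cases hl : O.getD o (true, 0) with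
  | mk b x =>
    rw [hl] at hx
    simp only at hx ⊢
    obtain ⟨o1, ho1, g1⟩ := exists_fo hG hx true
    obtain ⟨o2, ho2, g2⟩ := exists_fo hG hx false
    have hself : fo O o (b, x) = some o := by
      rw [← hl]; exact fo_self (by rw [hG.len]; exact ho)
    have e1 := (fo_some.1 g1).2.2.1
    have e2 := (fo_some.1 g2).2.2.1
    have hne : o1 ≠ o2 := by
      rintro rfl
      rw [e1] at e2
      simp at e2
    cases b with
    | true =>
      rw [decide_eq_true_eq]
      exact ⟨o1, g1, (ac4 x hx true o o o1 g1 hself (by omega)).1 ha⟩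
    | false =>
      rw [decide_eq_false_iff_not]
      rintro ⟨o3, g3, h3⟩
      have h4 := (ac4 x hx false o o o2 g2 hself (by omega)).1 ha
      rw [g1] at g3
      have : o1 = o3 := by simpa using g3
      omega

theorem satO_iff (hG : Good O m n) : SatO O m ↔
    AntistrongStrong (Dg (6 * m + n + 1) (6 * m) (6 * m + n) (alF O m) (beF O m)) := by
  rw [← core_iff (core hG)]
  constructor
  · rintro ⟨τ, h⟩
    exact ⟨_, sat_to_path τ hG h⟩
  · rintro ⟨f, hf⟩
    exact path_to_sat hG hf

end Pool.Agent.NPC.V11230.AS
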