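import Pool.Agent.V11230.AStrong4
import Pool.Agent.Y644.QS.PolyBase
import Pool.Agent.H601R2.PP

/-!
# Antistrong and strong arc-disjoint spanning subdigraphs: NP-hardness
-/

set_option autoImplicit false

namespace Pool.Agent.NPC.V11230.AS

abbrev F3' := List (Lit ℕ × Lit ℕ × Lit ℕ)

def trip (c : Lit ℕ × Lit ℕ × Lit ℕ) : List (Bool × ℕ) := [c.1, c.2.1, c.2.2]

def padF (φ : F3') : F3' :=
  φ ++ (List.range (3 * φ.length)).map (fun x => ((true, x), (false, x), (true, x)))

def OF (φ : F3') : List (Bool × ℕ) := (padF φ).flatMap trip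

def mF (φ : F3') : ℕ := φ.length + 3 * φ.length

theorem trip_getD (L : F3') : ∀ c (h : c < L.length),
    (L.flatMap trip).getD (3 * c) (true, 0) = L[c].1 ∧
    (L.flatMap trip).getD (3 * c + 1) (true, 0) = L[c].2.1 ∧
    (L.flatMap trip).getD (3 * c + 2) (true, 0) = L[c].2.2 := by
  induction L with
  | nil => intro c h; simp at h
  | cons a L ih =>
    intro c h
    rw [List.flatMap_cons]
    have hl : (trip a).length = 3 := rfl
    cases c with
    | zero => exact ⟨rfl, rfl, rfl⟩
    | succ c =>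
      rw [List.getD_append_right _ _ _ _ (by rw [hl]; omega),
        List.getD_append_right _ _ _ _ (by rw [hl]; omega),
        List.getD_append_right _ _ _ _ (by rw [hl]; omega), hl]
      have e0 : 3 * (c + 1) - 3 = 3 * c := by omega
      have e1 : 3 * (c + 1) + 1 - 3 = 3 * c + 1 := by omega
      have e2 : 3 * (c + 1) + 2 - 3 = 3 * c + 2 := by omega
      rw [e0, e1, e2]
      exact ih c (by simpa using h)

theorem length_trip (L : F3') : (L.flatMap trip).length = 3 * L.length := by
  induction L with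
  | nil => rfl
  | cons a L ih =>
    rw [List.flatMap_cons, List.length_append, ih, List.length_cons]
    have hl : (trip a).length = 3 := rfl
    omega

theorem mem_trip_flat {L : F3'} {o : ℕ} (h : o < 3 * L.length) :
    ∃ c ∈ L, (L.flatMap trip).getD o (true, 0) ∈ trip c := by
  have hc : o / 3 < L.length := by omega
  obtain ⟨h1, h2, h3⟩ := trip_getD L (o / 3) hc
  refine ⟨L[o / 3], List.getElem_mem _, ?_⟩
  rcases (by omega : o = 3 * (o / 3) ∨ o = 3 * (o / 3) + 1 ∨ o = 3 * (o / 3) + 2) with h | h | h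
  · have h4 := (congrArg (fun z => (L.flatMap trip).getD z (true, 0)) h).trans h1
    rw [h4]; simp [trip]
  · have h4 := (congrArg (fun z => (L.flatMap trip).getD z (true, 0)) h).trans h2
    rw [h4]; simp [trip]
  · have h4 := (congrArg (fun z => (L.flatMap trip).getD z (true, 0)) h).trans h3
    rw [h4]; simp [trip]

theorem satO_flat (L : F3') : SatO (L.flatMap trip) L.length ↔ SAT3 L := by
  constructor
  · rintro ⟨τ, h⟩
    refine ⟨τ, fun c hc => ?_⟩
    obtain ⟨i, hi, rfl⟩ := List.getElem_of_mem hc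
    obtain ⟨h1, h2, h3⟩ := trip_getD L i hi
    obtain ⟨j, hj, h4⟩ := h i hi
    rcases (by omega : j = 0 ∨ j = 1 ∨ j = 2) with rfl | rfl | rfl
    · rw [Nat.add_zero, h1] at h4; exact Or.inl h4
    · rw [h2] at h4; exact Or.inr (Or.inl h4)
    · rw [h3] at h4; exact Or.inr (Or.inr h4)
  · rintro ⟨τ, h⟩
    refine ⟨τ, fun c hc => ?_⟩
    obtain ⟨h1, h2, h3⟩ := trip_getD L c hc
    rcases h _ (List.getElem_mem hc) with h4 | h4 | h4
    · exact ⟨0, by omega, by rw [Nat.add_zero, h1]; exact h4⟩
    · exact ⟨1, by omega, by rw [h2]; exact h4⟩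
    · exact ⟨2, by omega, by rw [h3]; exact h4⟩

theorem padF_length (φ : F3') : (padF φ).length = mF φ := by
  unfold padF mF
  simp

theorem sat_padF (φ : F3') : SAT3 (padF φ) ↔ SAT3 φ := by
  constructor
  · rintro ⟨τ, h⟩
    exact ⟨τ, fun c hc => h c (List.mem_append_left _ hc)⟩
  · rintro ⟨τ, h⟩
    refine ⟨τ, fun c hc => ?_⟩
    rcases List.mem_append.1 hc with hc | hc
    · exact h c hc
    · obtain ⟨x, -, rfl⟩ := List.mem_map.1 hc
      simp only
      cases τ x <;> simp

theorem good_OF {φ : F3'} (hb : Bounded3 φ) (hne : φ ≠ []) : Good (OF φ) (mF φ) (3 * φ.length) := by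
  have hlen : (OF φ).length = 3 * mF φ := by rw [OF, length_trip, padF_length]
  refine ⟨hlen, ?_, ?_, ?_⟩
  · intro o ho
    obtain ⟨c, hc, hm⟩ := mem_trip_flat (L := padF φ) (o := o) (by rw [padF_length]; exact ho)
    change (((padF φ).flatMap trip).getD o (true, 0)).2 < _
    generalize ((padF φ).flatMap trip).getD o (true, 0) = l at hm
    rcases List.mem_append.1 hc with hc | hc
    · obtain ⟨b1, b2, b3⟩ := hb c hc
      unfold trip at hm
      simp only [List.mem_cons, List.not_mem_nil, or_false] at hm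
      rcases hm with rfl | rfl | rfl <;> assumption
    · obtain ⟨x, hx, rfl⟩ := List.mem_map.1 hc
      rw [List.mem_range] at hx
      unfold trip at hm
      simp only [List.mem_cons, List.not_mem_nil, or_false] at hm
      rcases hm with rfl | rfl | rfl <;> exact hx
  · intro x hx b
    have hc : φ.length + x < (padF φ).length := by rw [padF_length]; unfold mF; omega
    obtain ⟨h1, h2, h3⟩ := trip_getD (padF φ) (φ.length + x) hc
    have e' : (padF φ)[φ.length + x]? = some ((true, x), (false, x), (true, x)) := by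
      unfold padF
      rw [List.getElem?_append_right (by omega), Nat.add_sub_cancel_left]
      simp [hx]
    have e : (padF φ)[φ.length + x] = ((true, x), (false, x), (true, x)) :=
      (List.getElem?_eq_some_iff.1 e').2
    rw [e] at h1 h2
    rw [padF_length] at hc
    cases b with
    | true => exact ⟨3 * (φ.length + x), by omega, h1⟩
    | false => exact ⟨3 * (φ.length + x) + 1, by omega, h2⟩
  · have := List.length_pos_iff.2 hne
    omega

/-- the reduction -/
def redA (φ : F3') : ℕ × List (ℕ × ℕ) :=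
  Dg (6 * mF φ + 3 * φ.length + 1) (6 * mF φ) (6 * mF φ + 3 * φ.length) (alF (OF φ) (mF φ))
    (beF (OF φ) (mF φ))

/-! ### polynomial time -/

theorem poly_OF : Poly OF := by
  unfold OF padF trip
  have h : Poly (fun φ : F3' => List.range (3 * φ.length)) :=
    (UPoly.mul (UPoly.const 3) (UPoly.length Poly.id)).range
  fun_prop

theorem upoly_mF : UPoly mF :=
  UPoly.add (UPoly.length Poly.id) (UPoly.mul (UPoly.const 3) (UPoly.length Poly.id))

theorem poly_fo {α : Type} [TEnc α] {O : α → List (Bool × ℕ)} {a : α → ℕ} {l : α → Bool × ℕ}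
    (hO : Poly O) (ha : Poly a) (hl : Poly l) : Poly (fun x => fo (O x) (a x) (l x)) := by
  unfold fo
  have hr : Poly (fun x => List.range (O x).length) := (UPoly.length hO).range
  refine Poly.head? (Poly.filter (p := fun x o => decide (a x ≤ o) &&
    decide ((O x).getD o (true, 0) = l x)) hr ?_)
  refine Poly.and (by fun_prop) (Poly.dec_eq ?_ (by fun_prop))
  exact Poly.getD (hO.comp (Poly.fst Poly.id)) (Poly.snd Poly.id) (Poly.const (true, 0))

theorem poly_al : Poly (fun x : F3' × ℕ => alF (OF x.1) (mF x.1) x.2) := by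
  have hm : Poly (fun x : F3' × ℕ => mF x.1) := upoly_mF.toPoly.comp (Poly.fst Poly.id)
  have hO : Poly (fun x : F3' × ℕ => OF x.1) := poly_OF.comp (Poly.fst Poly.id)
  have hl : Poly (fun x : F3' × ℕ => (OF x.1).getD (x.2 / 2) (true, 0)) :=
    Poly.getD hO (by fun_prop) (Poly.const (true, 0))
  have h1 : Poly (fun x : F3' × ℕ => fo (OF x.1) (x.2 / 2 + 1) ((OF x.1).getD (x.2 / 2) (true, 0))) :=
    poly_fo hO (by fun_prop) hl
  have h2 : Poly (fun x : F3' × ℕ => fo (OF x.1) 0 (true, x.2 - 6 * mF x.1)) :=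
    poly_fo hO (Poly.const 0) (by fun_prop)
  unfold alF
  refine Poly.ite (by fun_prop) (Poly.ite (by fun_prop) (by fun_prop) ?_) ?_
  · exact (Poly.optCases (o := fun x : F3' × ℕ => fo (OF x.1) (x.2 / 2 + 1)
      ((OF x.1).getD (x.2 / 2) (true, 0)))
      (g := fun x => 6 * mF x.1 + ((OF x.1).getD (x.2 / 2) (true, 0)).2 + 1)
      (h := fun _ o => 2 * o) h1 (by fun_prop) (by fun_prop)).congr fun x => by
        cases fo (OF x.1) (x.2 / 2 + 1) ((OF x.1).getD (x.2 / 2) (true, 0)) <;> rfl
  · fun_prop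

theorem poly_be : Poly (fun x : F3' × ℕ => beF (OF x.1) (mF x.1) x.2) := by
  have hm : Poly (fun x : F3' × ℕ => mF x.1) := upoly_mF.toPoly.comp (Poly.fst Poly.id)
  have hO : Poly (fun x : F3' × ℕ => OF x.1) := poly_OF.comp (Poly.fst Poly.id)
  have h2 : Poly (fun x : F3' × ℕ => fo (OF x.1) 0 (false, x.2 - 6 * mF x.1)) :=
    poly_fo hO (Poly.const 0) (by fun_prop)
  unfold beF rr ll
  refine Poly.ite (by fun_prop) (Poly.ite (by fun_prop) (by fun_prop) (by fun_prop)) (by fun_prop)

def MF (φ : F3') : ℕ := 6 * mF φ + 3 * φ.length + 1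

theorem upoly_MF : UPoly MF := by
  unfold MF
  exact UPoly.add (UPoly.add (UPoly.mul (UPoly.const 6) upoly_mF)
    (UPoly.mul (UPoly.const 3) (UPoly.length Poly.id))) (UPoly.const 1)

theorem poly_outs : Poly (fun x : F3' × ℕ => outs (MF x.1) (6 * mF x.1)
    (6 * mF x.1 + 3 * x.1.length) (alF (OF x.1) (mF x.1)) (beF (OF x.1) (mF x.1)) x.2) := by
  have hm : Poly (fun x : F3' × ℕ => mF x.1) := upoly_mF.toPoly.comp (Poly.fst Poly.id)
  have hM : Poly (fun x : F3' × ℕ => MF x.1) := upoly_MF.toPoly.comp (Poly.fst Poly.id)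
  have hMr : Poly (fun x : F3' × ℕ => List.range (MF x.1 + 3)) :=
    (UPoly.add (upoly_MF.comp (Poly.fst Poly.id)) (UPoly.const 3)).range
  have h1 := poly_al
  have h2 := poly_be
  unfold outs
  refine Poly.ite (by fun_prop) (by fun_prop) (Poly.ite (by fun_prop) (by fun_prop)
    (Poly.ite (by fun_prop) ?_ (Poly.ite (by fun_prop) (by fun_prop) (by fun_prop))))
  exact Poly.filter (p := fun (x : F3' × ℕ) w => decide (w ≠ MF x.1)) hMr
    (Poly.decide_not (Poly.dec_eq (by fun_prop) (hM.comp (Poly.fst Poly.id))))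

theorem poly_redA : Poly redA := by
  have hM : Poly MF := upoly_MF.toPoly
  have hMr : Poly (fun φ : F3' => List.range (MF φ + 3)) :=
    (UPoly.add upoly_MF (UPoly.const 3)).range
  unfold redA Dg
  refine Poly.pair (by change Poly (fun φ => MF φ + 3); fun_prop) ?_
  refine Poly.flatMap (F := fun (φ : F3') v => (outs (MF φ) (6 * mF φ)
    (6 * mF φ + 3 * φ.length) (alF (OF φ) (mF φ)) (beF (OF φ) (mF φ)) v).map (fun w => (v, w)))
    hMr ?_
  exact Poly.map (F := fun (x : F3' × ℕ) w => (x.2, w)) poly_outs (by fun_prop)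

theorem hardPr_AntistrongStrong : HardPr (fun _ => True) AntistrongStrong := by
  refine hardPr_SAT3b.trans poly_redA (fun _ _ => trivial) ?_
  rintro φ ⟨-, hb, hne⟩
  unfold redA
  rw [← satO_iff (good_OF hb hne), ← sat_padF, ← satO_flat, padF_length]
  rfl

theorem npHard_AntistrongStrong : NPHardP AntistrongStrong :=
  hardPr_AntistrongStrong.toHardI.toNPHardP

end Pool.Agent.NPC.V11230.AS
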