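import Mathlib

/-!
# Strips in the king's graph
-/

set_option autoImplicit false

namespace Pool.Agent.V11230.BG

/-- Four different cells that are pairwise close. -/
theorem k4 {x1 y1 x2 y2 x3 y3 x4 y4 : ℕ}
    (a1 : x1 ≤ x2 + 1) (a2 : x2 ≤ x1 + 1) (a3 : y1 ≤ y2 + 1) (a4 : y2 ≤ y1 + 1)
    (b1 : x1 ≤ x3 + 1) (b2 : x3 ≤ x1 + 1) (b3 : y1 ≤ y3 + 1) (b4 : y3 ≤ y1 + 1)
    (c1 : x1 ≤ x4 + 1) (c2 : x4 ≤ x1 + 1) (c3 : y1 ≤ y4 + 1) (c4 : y4 ≤ y1 + 1)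
    (d1 : x2 ≤ x3 + 1) (d2 : x3 ≤ x2 + 1) (d3 : y2 ≤ y3 + 1) (d4 : y3 ≤ y2 + 1)
    (e1 : x2 ≤ x4 + 1) (e2 : x4 ≤ x2 + 1) (e3 : y2 ≤ y4 + 1) (e4 : y4 ≤ y2 + 1)
    (f1 : x3 ≤ x4 + 1) (f2 : x4 ≤ x3 + 1) (f3 : y3 ≤ y4 + 1) (f4 : y4 ≤ y3 + 1)
    (n12 : ¬ (x1 = x2 ∧ y1 = y2)) (n13 : ¬ (x1 = x3 ∧ y1 = y3)) (n14 : ¬ (x1 = x4 ∧ y1 = y4))
    (n23 : ¬ (x2 = x3 ∧ y2 = y3)) (n24 : ¬ (x2 = x4 ∧ y2 = y4)) (n34 : ¬ (x3 = x4 ∧ y3 = y4)) :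
    (x1 = x2 ∧ x3 = x4 ∧ (x3 = x1 + 1 ∨ x1 = x3 + 1) ∧ (y2 = y1 + 1 ∨ y1 = y2 + 1) ∧
      ((y3 = y1 ∧ y4 = y2) ∨ (y3 = y2 ∧ y4 = y1))) ∨
    (y1 = y2 ∧ y3 = y4 ∧ (y3 = y1 + 1 ∨ y1 = y3 + 1) ∧ (x2 = x1 + 1 ∨ x1 = x2 + 1) ∧
      ((x3 = x1 ∧ x4 = x2) ∨ (x3 = x2 ∧ x4 = x1))) ∨
    (x1 ≠ x2 ∧ y1 ≠ y2 ∧ ((x3 = x1 ∧ y3 = y2 ∧ x4 = x2 ∧ y4 = y1) ∨
      (x3 = x2 ∧ y3 = y1 ∧ x4 = x1 ∧ y4 = y2))) := by
  rcases lt_trichotomy x1 x2 with h | h | h <;> rcases lt_trichotomy y1 y2 with h' | h' | h'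
  · right; right
    refine ⟨by omega, by omega, ?_⟩
    have : x3 = x1 ∨ x3 = x2 := by omega
    rcases this with h3 | h3 <;> omega
  · right; left
    refine ⟨h', by omega, by omega, by omega, by omega⟩
  · right; right
    refine ⟨by omega, by omega, ?_⟩
    have : x3 = x1 ∨ x3 = x2 := by omega
    rcases this with h3 | h3 <;> omega
  · left
    refine ⟨h, by omega, by omega, by omega, by omega⟩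
  · exact absurd ⟨h, h'⟩ n12
  · left
    refine ⟨h, by omega, by omega, by omega, by omega⟩
  · right; right
    refine ⟨by omega, by omega, ?_⟩
    have : x3 = x1 ∨ x3 = x2 := by omega
    rcases this with h3 | h3 <;> omega
  · right; left
    refine ⟨h', by omega, by omega, by omega, by omega⟩
  · right; right
    refine ⟨by omega, by omega, ?_⟩
    have : x3 = x1 ∨ x3 = x2 := by omega
    rcases this with h3 | h3 <;> omega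

end Pool.Agent.V11230.BG
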