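import Pool.Agent.V11230.BG1

/-!
# Strips in the king's graph: rigidity
-/

set_option autoImplicit false

namespace Pool.Agent.V11230.BG

/-- the cells of `a` and `b` are equal or adjacent -/
def Close (X Y : ℕ → ℕ) (a b : ℕ) : Prop :=
  X a ≤ X b + 1 ∧ X b ≤ X a + 1 ∧ Y a ≤ Y b + 1 ∧ Y b ≤ Y a + 1

theorem Close.swap {X Y : ℕ → ℕ} {a b : ℕ} (h : Close X Y a b) : Close Y X a b :=
  ⟨h.2.2.1, h.2.2.2, h.1, h.2.1⟩

/-- the letters below `M` have different cells -/
def Inj (M : ℕ) (X Y : ℕ → ℕ) : Prop :=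
  ∀ a < M, ∀ b < M, a ≠ b → ¬ (X a = X b ∧ Y a = Y b)

theorem Inj.swap {M : ℕ} {X Y : ℕ → ℕ} (h : Inj M X Y) : Inj M Y X :=
  fun a ha b hb hab he => h a ha b hb hab ⟨he.2, he.1⟩

/-- the closeness conditions of a strip with the columns `s, ..., s + L - 1` -/
structure Links (X Y : ℕ → ℕ) (s L : ℕ) : Prop where
  col : ∀ c < L, Close X Y (2 * (s + c)) (2 * (s + c) + 1)
  next : ∀ c, c + 1 < L → ∀ i < 2, ∀ i' < 2,
    Close X Y (2 * (s + c) + i) (2 * (s + (c + 1)) + i')

theorem Links.swap {X Y : ℕ → ℕ} {s L : ℕ} (h : Links X Y s L) : Links Y X s L :=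
  ⟨fun c hc => (h.col c hc).swap, fun c hc i hi i' hi' => (h.next c hc i hi i' hi').swap⟩

/-- two consecutive columns of a strip along the first direction -/
def TyA (X Y : ℕ → ℕ) (a b : ℕ) : Prop :=
  X a = X (a + 1) ∧ X b = X (b + 1) ∧ (X b = X a + 1 ∨ X a = X b + 1) ∧
    (Y (a + 1) = Y a + 1 ∨ Y a = Y (a + 1) + 1) ∧
      ((Y b = Y a ∧ Y (b + 1) = Y (a + 1)) ∨ (Y b = Y (a + 1) ∧ Y (b + 1) = Y a))

/-- two consecutive diagonal columns -/
def TyD (X Y : ℕ → ℕ) (a b : ℕ) : Prop :=
  X a ≠ X (a + 1) ∧ Y a ≠ Y (a + 1) ∧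
    ((X b = X a ∧ Y b = Y (a + 1) ∧ X (b + 1) = X (a + 1) ∧ Y (b + 1) = Y a) ∨
      (X b = X (a + 1) ∧ Y b = Y a ∧ X (b + 1) = X a ∧ Y (b + 1) = Y (a + 1)))

/-- the strip is along the first direction, in the rows `ρ` and `ρ + 1` -/
structure Along (X Y : ℕ → ℕ) (s L ρ : ℕ) : Prop where
  eqX : ∀ c < L, X (2 * (s + c) + 1) = X (2 * (s + c))
  rows : ∀ c < L, (Y (2 * (s + c)) = ρ ∧ Y (2 * (s + c) + 1) = ρ + 1) ∨
    (Y (2 * (s + c)) = ρ + 1 ∧ Y (2 * (s + c) + 1) = ρ)
  dir : (∀ c < L, X (2 * (s + c)) = X (2 * s) + c) ∨ (∀ c < L, X (2 * (s + c)) + c = X (2 * s))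

section

variable {X Y : ℕ → ℕ} {M s L : ℕ}

theorem types (hi : Inj M X Y) (hM : 2 * (s + L) ≤ M) (hl : Links X Y s L) {c : ℕ}
    (hc : c + 1 < L) : TyA X Y (2 * (s + c)) (2 * (s + (c + 1))) ∨
      TyA Y X (2 * (s + c)) (2 * (s + (c + 1))) ∨ TyD X Y (2 * (s + c)) (2 * (s + (c + 1))) := by
  obtain ⟨a1, a2, a3, a4⟩ := hl.col c (by omega)
  obtain ⟨f1, f2, f3, f4⟩ := hl.col (c + 1) hc
  obtain ⟨b1, b2, b3, b4⟩ := hl.next c hc 0 (by omega) 0 (by omega)
  obtain ⟨c1, c2, c3, c4⟩ := hl.next c hc 0 (by omega) 1 (by omega)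
  obtain ⟨d1, d2, d3, d4⟩ := hl.next c hc 1 (by omega) 0 (by omega)
  obtain ⟨e1, e2, e3, e4⟩ := hl.next c hc 1 (by omega) 1 (by omega)
  exact k4 a1 a2 a3 a4 b1 b2 b3 b4 c1 c2 c3 c4 d1 d2 d3 d4 e1 e2 e3 e4 f1 f2 f3 f4
    (hi _ (by omega) _ (by omega) (by omega)) (hi _ (by omega) _ (by omega) (by omega))
    (hi _ (by omega) _ (by omega) (by omega)) (hi _ (by omega) _ (by omega) (by omega))
    (hi _ (by omega) _ (by omega) (by omega)) (hi _ (by omega) _ (by omega) (by omega))

theorem noD (hi : Inj M X Y) (hM : 2 * (s + L) ≤ M) (hl : Links X Y s L) (hL : 3 ≤ L) {c : ℕ}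
    (hc : c + 1 < L) : ¬ TyD X Y (2 * (s + c)) (2 * (s + (c + 1))) := by
  have key : ∀ c, c + 2 < L → TyD X Y (2 * (s + (c + 1))) (2 * (s + (c + 2))) →
      TyD X Y (2 * (s + c)) (2 * (s + (c + 1))) → False := by
    intro c hc h2 h1
    have n1 := hi (2 * (s + c)) (by omega) (2 * (s + (c + 2))) (by omega) (by omega)
    have n2 := hi (2 * (s + c)) (by omega) (2 * (s + (c + 2)) + 1) (by omega) (by omega)
    unfold TyD at h1 h2
    omega
  intro hD
  by_cases h : c + 2 < L
  · refine key c h ?_ hD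
    have hD' := hD
    unfold TyD at hD'
    rcases types hi hM hl (c := c + 1) (by omega) with hT | hT | hT
    · unfold TyA at hT
      omega
    · unfold TyA at hT
      omega
    · exact hT
  · obtain ⟨d, rfl⟩ : ∃ d, c = d + 1 := ⟨c - 1, by omega⟩
    refine key d (by omega) hD ?_
    have hD' := hD
    unfold TyD at hD'
    rcases types hi hM hl (c := d) (by omega) with hT | hT | hT
    · unfold TyA at hT
      omega
    · unfold TyA at hT
      omega
    · exact hT

theorem allA (hi : Inj M X Y) (hM : 2 * (s + L) ≤ M) (hl : Links X Y s L) (hL : 3 ≤ L)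
    (h0 : TyA X Y (2 * (s + 0)) (2 * (s + (0 + 1)))) :
    ∀ c, c + 1 < L → TyA X Y (2 * (s + c)) (2 * (s + (c + 1))) := by
  intro c
  induction c with
  | zero => exact fun _ => h0
  | succ c ih =>
    intro hc
    have h1 := ih (by omega)
    rcases types hi hM hl hc with hT | hT | hT
    · exact hT
    · exfalso
      have n := hi (2 * (s + (c + 1))) (by omega) (2 * (s + (c + 1)) + 1) (by omega) (by omega)
      unfold TyA at h1 hT
      omega
    · exact absurd hT (noD hi hM hl hL hc)

theorem along_of_allA (hi : Inj M X Y) (hM : 2 * (s + L) ≤ M) (hL : 3 ≤ L)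
    (hA : ∀ c, c + 1 < L → TyA X Y (2 * (s + c)) (2 * (s + (c + 1)))) :
    ∃ ρ, Along X Y s L ρ := by
  refine ⟨min (Y (2 * (s + 0))) (Y (2 * (s + 0) + 1)), ?_, ?_, ?_⟩
  · intro c hc
    by_cases h : c + 1 < L
    · have := hA c h
      unfold TyA at this
      omega
    · obtain ⟨d, rfl⟩ : ∃ d, c = d + 1 := ⟨c - 1, by omega⟩
      have := hA d (by omega)
      unfold TyA at this
      omega
  · intro c
    induction c with
    | zero =>
      intro _
      have := hA 0 (by omega)
      unfold TyA at this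
      omega
    | succ c ih =>
      intro hc
      have h1 := ih (by omega)
      have h2 := hA c hc
      unfold TyA at h2
      omega
  · have h0 := hA 0 (by omega)
    have hstep : ∀ c, c + 2 < L →
        (X (2 * (s + (c + 1))) = X (2 * (s + c)) + 1 →
          X (2 * (s + (c + 2))) = X (2 * (s + (c + 1))) + 1) ∧
        (X (2 * (s + (c + 1))) + 1 = X (2 * (s + c)) →
          X (2 * (s + (c + 2))) + 1 = X (2 * (s + (c + 1)))) := by
      intro c hc
      have h1 := hA c (by omega)
      have h2 := hA (c + 1) (by omega)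
      have e : s + (c + 1 + 1) = s + (c + 2) := by omega
      rw [e] at h2
      have n1 := hi (2 * (s + c)) (by omega) (2 * (s + (c + 2))) (by omega) (by omega)
      have n2 := hi (2 * (s + c)) (by omega) (2 * (s + (c + 2)) + 1) (by omega) (by omega)
      unfold TyA at h1 h2
      constructor
      · intro h
        by_contra hne
        omega
      · intro h
        by_contra hne
        omega
    have h0' := h0
    unfold TyA at h0'
    rcases h0'.2.2.1 with hd | hd
    · left
      have key : ∀ c, c + 1 < L → X (2 * (s + (c + 1))) = X (2 * (s + c)) + 1 := by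
        intro c
        induction c with
        | zero => exact fun _ => hd
        | succ c ih => exact fun hc => (hstep c hc).1 (ih (by omega))
      intro c
      induction c with
      | zero => exact fun _ => rfl
      | succ c ih =>
        intro hc
        rw [key c hc, ih (by omega), Nat.add_assoc]
    · right
      have key : ∀ c, c + 1 < L → X (2 * (s + (c + 1))) + 1 = X (2 * (s + c)) := by
        intro c
        induction c with
        | zero => exact fun _ => hd.symm
        | succ c ih => exact fun hc => (hstep c hc).2 (ih (by omega))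
      intro c
      induction c with
      | zero => exact fun _ => rfl
      | succ c ih =>
        intro hc
        have g1 := key c hc
        have g2 := ih (by omega)
        omega

/-- **Rigidity of strips.** -/
theorem rigid (hi : Inj M X Y) (hM : 2 * (s + L) ≤ M) (hl : Links X Y s L) (hL : 3 ≤ L) :
    (∃ ρ, Along X Y s L ρ) ∨ (∃ ρ, Along Y X s L ρ) := by
  rcases types hi hM hl (c := 0) (by omega) with h | h | h
  · exact Or.inl (along_of_allA hi hM hL (allA hi hM hl hL h))
  · exact Or.inr (along_of_allA hi.swap hM hL (allA hi.swap hM hl.swap hL h))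
  · exact absurd h (noD hi hM hl hL (by omega))

end

end Pool.Agent.V11230.BG
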