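import Pool.Agent.V11230.BG2

/-!
# Strips in the king's graph: from boards to packings
-/

set_option autoImplicit false

namespace Pool.Agent.V11230.BG

open Finset

section

variable {X Y : ℕ → ℕ} {n s ρ : ℕ}

/-- a strip of full length meets all values of the first coordinate -/
theorem full_surj (hX : ∀ c < n, X (2 * (s + c)) < n) (h : Along X Y s n ρ) {x : ℕ}
    (hx : x < n) : ∃ c < n, X (2 * (s + c)) = x := by
  rcases h.dir with hd | hd
  · have h1 := hd (n - 1) (by omega)
    have h2 := hX (n - 1) (by omega)
    exact ⟨x, hx, by rw [hd x hx]; omega⟩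
  · have h1 := hd (n - 1) (by omega)
    have h2 := hX 0 (by omega)
    rw [Nat.add_zero] at h2
    have h3 := hd (n - 1 - x) (by omega)
    exact ⟨n - 1 - x, by omega, by omega⟩

/-- the rows of a full strip contain no other letters -/
theorem full_row (hn : 2 * (s + n) ≤ n * n) (hX : ∀ a < n * n, X a < n) (hi : Inj (n * n) X Y)
    (h : Along X Y s n ρ) {b : ℕ} (hb : b < n * n) (hb' : b < 2 * s ∨ 2 * (s + n) ≤ b) :
    Y b ≠ ρ ∧ Y b ≠ ρ + 1 := by
  obtain ⟨c, hc, hxc⟩ := full_surj (fun c hc => hX _ (by omega)) h (hX b hb)
  have h1 := h.eqX c hc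
  have h2 := h.rows c hc
  have n1 := hi (2 * (s + c)) (by omega) b hb (by omega)
  have n2 := hi (2 * (s + c) + 1) (by omega) b hb (by omega)
  omega

end

/-- the first column of the strip `t` -/
def start (l : List ℕ) (t : ℕ) : ℕ := (l.take t).sum

theorem start_succ {l : List ℕ} {t : ℕ} (ht : t < l.length) :
    start l (t + 1) = start l t + l.getD t 0 := by
  unfold start
  rw [List.take_add_one, List.getElem?_eq_getElem ht, List.sum_append, List.getD_eq_getElem _ _ ht]
  simp

theorem start_mono (l : List ℕ) {t t' : ℕ} (h : t ≤ t') : start l t ≤ start l t' := by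
  induction t' with
  | zero =>
    have : t = 0 := by omega
    rw [this]
  | succ t' ih =>
    rcases Nat.eq_or_lt_of_le h with rfl | h'
    · exact le_rfl
    · refine (ih (by omega)).trans ?_
      by_cases hl : t' < l.length
      · rw [start_succ hl]
        omega
      · unfold start
        rw [List.take_of_length_le (by omega), List.take_of_length_le (by omega)]

theorem start_length (l : List ℕ) : start l l.length = l.sum := by
  unfold start
  rw [List.take_length]

theorem start_le_sum {l : List ℕ} {t : ℕ} (ht : t < l.length) :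
    start l t + l.getD t 0 ≤ l.sum := by
  rw [← start_succ ht, ← start_length]
  exact start_mono l ht

theorem sum_blocks (g : ℕ → ℕ) (l : List ℕ) : ∑ κ ∈ range l.sum, g κ =
    ∑ t ∈ range l.length, ∑ c ∈ range (l.getD t 0), g (start l t + c) := by
  induction l generalizing g with
  | nil => simp
  | cons a l ih =>
    rw [List.sum_cons, sum_range_add, List.length_cons, sum_range_succ', add_comm]
    congr 1
    · rw [ih (fun κ => g (a + κ))]
      refine sum_congr rfl fun t _ => ?_
      rw [List.getD_cons_succ]
      refine sum_congr rfl fun c _ => ?_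
      congr 1
      unfold start
      rw [List.take_succ_cons, List.sum_cons]
      omega
    · rw [List.getD_cons_zero]
      refine sum_congr rfl fun c _ => ?_
      simp [start]

theorem sum_pairs (g : ℕ → ℕ) (m : ℕ) :
    ∑ a ∈ range (2 * m), g a = ∑ κ ∈ range m, (g (2 * κ) + g (2 * κ + 1)) := by
  induction m with
  | zero => simp
  | succ m ih =>
    rw [Nat.mul_succ, sum_range_succ, sum_range_succ, ih, sum_range_succ]
    omega

/-- each row contains `n` letters -/
theorem row_card {X Y : ℕ → ℕ} {n : ℕ} (hX : ∀ a < n * n, X a < n) (hY : ∀ a < n * n, Y a < n)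
    (hi : Inj (n * n) X Y) {y : ℕ} (hy : y < n) :
    ∑ a ∈ range (n * n), (if Y a = y then 1 else 0) = n := by
  have hle : ∀ y, ∑ a ∈ range (n * n), (if Y a = y then 1 else 0) ≤ n := by
    intro y
    rw [sum_boole]
    have : ((range (n * n)).filter (fun a => Y a = y)).card ≤ (range n).card := by
      refine card_le_card_of_injOn X ?_ ?_
      · intro a ha
        rw [mem_coe, mem_filter, mem_range] at ha
        rw [mem_coe, mem_range]
        exact hX a ha.1
      · intro a ha b hb hab
        rw [mem_coe, mem_filter, mem_range] at ha hb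
        by_contra hne
        exact hi a ha.1 b hb.1 hne ⟨hab, ha.2.trans hb.2.symm⟩
    rw [card_range] at this
    simpa using this
  have htot : ∑ y ∈ range n, ∑ a ∈ range (n * n), (if Y a = y then 1 else 0) = n * n := by
    rw [sum_comm]
    have : ∀ a ∈ range (n * n), ∑ y ∈ range n, (if Y a = y then 1 else 0) = 1 := by
      intro a ha
      rw [sum_ite_eq, if_pos (mem_range.2 (hY a (mem_range.1 ha)))]
    rw [sum_congr rfl this]
    simp
  by_contra hne
  have hlt : ∑ a ∈ range (n * n), (if Y a = y then 1 else 0) < n :=
    lt_of_le_of_ne (hle y) hne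
  have : ∑ y ∈ range n, ∑ a ∈ range (n * n), (if Y a = y then 1 else 0) < ∑ _y ∈ range n, n :=
    sum_lt_sum (fun y _ => hle y) ⟨y, mem_range.2 hy, hlt⟩
  rw [htot, sum_const, card_range, smul_eq_mul] at this
  exact lt_irrefl _ this

section

variable {X Y : ℕ → ℕ} {n r : ℕ} {l : List ℕ}

/-- the strips on a board -/
structure Brd (X Y : ℕ → ℕ) (n r : ℕ) (l : List ℕ) : Prop where
  hX : ∀ a < n * n, X a < n
  hY : ∀ a < n * n, Y a < n
  inj : Inj (n * n) X Y
  sum : 2 * l.sum = n * n
  links : ∀ t < l.length, Links X Y (start l t) (l.getD t 0)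
  three : ∀ t < l.length, 3 ≤ l.getD t 0
  full : ∀ t < l.length, l.length ≤ t + r → l.getD t 0 = n
  hr : 0 < r
  hrl : r ≤ l.length
  long : ∀ t < l.length, n < l.getD t 0 + 2 * r

theorem Brd.swap (h : Brd X Y n r l) : Brd Y X n r l :=
  ⟨h.hY, h.hX, h.inj.swap, h.sum, fun t ht => (h.links t ht).swap, h.three, h.full, h.hr, h.hrl,
    h.long⟩

theorem Brd.rigid (h : Brd X Y n r l) {t : ℕ} (ht : t < l.length) :
    (∃ ρ, Along X Y (start l t) (l.getD t 0) ρ) ∨ (∃ ρ, Along Y X (start l t) (l.getD t 0) ρ) := by
  have h1 := start_le_sum ht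
  have h2 := h.sum
  exact BG.rigid h.inj (by omega) (h.links t ht) (h.three t ht)

theorem disj {t t' : ℕ} (ht : t < l.length) (ht' : t' < l.length) (hne : t ≠ t') {c : ℕ}
    (hc : c < l.getD t' 0) (i : ℕ) (hi : i < 2) : 2 * (start l t' + c) + i < 2 * start l t ∨
      2 * (start l t + l.getD t 0) ≤ 2 * (start l t' + c) + i := by
  rcases Nat.lt_or_gt_of_ne hne with h | h
  · right
    have h1 := start_mono l (show t + 1 ≤ t' from h)
    rw [start_succ ht] at h1
    omega
  · left
    have h1 := start_mono l (show t' + 1 ≤ t from h)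
    rw [start_succ ht'] at h1
    omega

theorem all_along (h : Brd X Y n r l)
    (h0 : ∃ ρ, Along X Y (start l (l.length - 1)) (l.getD (l.length - 1) 0) ρ) :
    ∀ t < l.length, ∃ ρ, Along X Y (start l t) (l.getD t 0) ρ := by
  classical
  have hr := h.hr
  have hrl := h.hrl
  have hsum := h.sum
  have hl0 : l.length - 1 < l.length := by omega
  have hbd : ∀ t < l.length, 2 * (start l t + l.getD t 0) ≤ n * n := by
    intro t ht
    have := start_le_sum ht
    omega
  -- full strips
  obtain ⟨ρ0, hρ0⟩ := h0
  have hf0 := h.full _ hl0 (by omega)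
  rw [hf0] at hρ0
  have hfull : ∀ t < l.length, l.length ≤ t + r → ∃ ρ, Along X Y (start l t) n ρ := by
    intro t ht htr
    have hft := h.full t ht htr
    rcases h.rigid ht with ⟨ρ, hρ⟩ | ⟨ρ, hρ⟩
    · rw [hft] at hρ
      exact ⟨ρ, hρ⟩
    · rw [hft] at hρ
      by_cases he : t = l.length - 1
      · exact ⟨ρ0, he ▸ hρ0⟩
      · exfalso
        have b0 := hbd _ hl0
        have b1 := hbd _ ht
        rw [hf0] at b0
        rw [hft] at b1
        have hy0 : ρ0 < n := by
          have := hρ0.rows 0 (by have := h.three _ hl0; omega)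
          have h1 := h.hY (2 * (start l (l.length - 1) + 0)) (by
            have := h.three _ hl0; omega)
          have h2 := h.hY (2 * (start l (l.length - 1) + 0) + 1) (by
            have := h.three _ hl0; omega)
          omega
        obtain ⟨c, hc, hyc⟩ := full_surj (X := Y) (Y := X) (fun c hc => h.hY _ (by omega)) hρ hy0
        have := full_row b0 h.hX h.inj hρ0 (b := 2 * (start l t + c) + 0) (by omega) (by
          have := disj (l := l) hl0 ht (Ne.symm he) (c := c) (by rw [hft]; exact hc) 0 (by omega)
          rw [hf0] at this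
          exact this)
        exact this.1 hyc
  have hf : ∀ t, ∃ ρ, t < l.length → l.length ≤ t + r → Along X Y (start l t) n ρ := by
    intro t
    by_cases ht : t < l.length ∧ l.length ≤ t + r
    · obtain ⟨ρ, hρ⟩ := hfull t ht.1 ht.2
      exact ⟨ρ, fun _ _ => hρ⟩
    · exact ⟨0, fun h1 h2 => absurd ⟨h1, h2⟩ ht⟩
  choose P hP using hf
  have hrow : ∀ t < l.length, l.length ≤ t + r → ∀ t' < l.length, t ≠ t' → ∀ c < l.getD t' 0,
      ∀ i < 2, Y (2 * (start l t' + c) + i) ≠ P t ∧ Y (2 * (start l t' + c) + i) ≠ P t + 1 := by
    intro t ht htr t' ht' hne c hc i hi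
    have b0 := hbd t ht
    have b1 := hbd t' ht'
    have hft := h.full t ht htr
    have hd := disj (l := l) ht ht' hne hc i hi
    rw [hft] at b0 hd
    exact full_row b0 h.hX h.inj (hP t ht htr) (by omega) hd
  intro t ht
  rcases h.rigid ht with hA | ⟨ρ, hρ⟩
  · exact hA
  · exfalso
    have hnf : ¬ (l.length ≤ t + r) := by
      intro htr
      have hft := h.full t ht htr
      have h3 := h.three t ht
      have hA := hP t ht htr
      rw [hft] at hρ
      have e1 := hA.eqX 0 (by omega)
      have e2 := hρ.eqX 0 (by omega)
      have b1 := hbd t ht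
      exact h.inj _ (by omega) _ (by omega) (by omega) ⟨e1, e2⟩
    have hlong := h.long t ht
    have b1 := hbd t ht
    set q := l.length - r with hq
    -- rows of the full strips
    have hc1 : ((range r ×ˢ range 2).image (fun p => P (q + p.1) + p.2)).card = r * 2 := by
      rw [card_image_of_injOn, card_product, card_range, card_range]
      rintro ⟨a, i⟩ ha ⟨b, j⟩ hb he
      rw [mem_coe, mem_product, mem_range, mem_range] at ha hb
      simp only at ha hb he
      have hab : a = b := by
        by_contra hne
        have hA := hP (q + b) (by omega) (by omega)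
        have hfb := h.full (q + b) (by omega) (by omega)
        have h3 := h.three (q + b) (by omega)
        have hrows := hA.rows 0 (by omega)
        have g1 := hrow (q + a) (by omega) (by omega) (q + b) (by omega) (by omega) 0 (by omega)
          0 (by omega)
        have g2 := hrow (q + a) (by omega) (by omega) (q + b) (by omega) (by omega) 0 (by omega)
          1 (by omega)
        simp only [Nat.add_zero] at g1 g2 hrows
        omega
      subst hab
      have : i = j := by omega
      rw [this]
    have hc2 : ((range (l.getD t 0)).image (fun c => Y (2 * (start l t + c)))).card =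
        l.getD t 0 := by
      rw [card_image_of_injOn, card_range]
      intro a ha b hb he
      rw [mem_coe, mem_range] at ha hb
      have he' : Y (2 * (start l t + a)) = Y (2 * (start l t + b)) := he
      rcases hρ.dir with hd | hd
      · rw [hd a ha, hd b hb] at he'
        omega
      · have h1 := hd a ha
        have h2 := hd b hb
        omega
    have hdisj : Disjoint ((range r ×ˢ range 2).image (fun p => P (q + p.1) + p.2))
        ((range (l.getD t 0)).image (fun c => Y (2 * (start l t + c)))) := by
      rw [disjoint_left]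
      intro y hy1 hy2
      obtain ⟨⟨a, i⟩, ha, rfl⟩ := mem_image.1 hy1
      obtain ⟨c, hc, he⟩ := mem_image.1 hy2
      rw [mem_product, mem_range, mem_range] at ha
      rw [mem_range] at hc
      simp only at ha he
      have g1 := hrow (q + a) (by omega) (by omega) t ht (by omega) c hc 0 (by omega)
      rw [Nat.add_zero] at g1
      omega
    have hsub : ((range r ×ˢ range 2).image (fun p => P (q + p.1) + p.2)) ∪
        ((range (l.getD t 0)).image (fun c => Y (2 * (start l t + c)))) ⊆ range n := by
      intro y hy
      rw [mem_range]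
      rcases mem_union.1 hy with hy | hy
      · obtain ⟨⟨a, i⟩, ha, rfl⟩ := mem_image.1 hy
        rw [mem_product, mem_range, mem_range] at ha
        simp only at ha ⊢
        have hA := hP (q + a) (by omega) (by omega)
        have hfb := h.full (q + a) (by omega) (by omega)
        have h3 := h.three (q + a) (by omega)
        have hrows := hA.rows 0 (by omega)
        have b2 := hbd (q + a) (by omega)
        have y1 := h.hY (2 * (start l (q + a) + 0)) (by omega)
        have y2 := h.hY (2 * (start l (q + a) + 0) + 1) (by omega)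
        omega
      · obtain ⟨c, hc, rfl⟩ := mem_image.1 hy
        rw [mem_range] at hc
        exact h.hY _ (by omega)
    have := card_le_card hsub
    rw [card_union_of_disjoint hdisj, hc1, hc2, card_range] at this
    omega

/-- **From boards to packings.** -/
theorem classes_of_board {h : ℕ} (hn : n = 2 * h) (hb : Brd X Y n r l)
    (hA : ∀ t < l.length, ∃ ρ, Along X Y (start l t) (l.getD t 0) ρ) :
    ∃ c : ℕ → ℕ, (∀ t < l.length, c t < h) ∧
      ∀ j < h, ∑ t ∈ range l.length, (if c t = j then l.getD t 0 else 0) = n := by
  have hex : ∀ t, ∃ ρ, t < l.length → Along X Y (start l t) (l.getD t 0) ρ := by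
    intro t
    by_cases ht : t < l.length
    · obtain ⟨ρ, hρ⟩ := hA t ht
      exact ⟨ρ, fun _ => hρ⟩
    · exact ⟨0, fun h => absurd h ht⟩
  choose P hP using hex
  have hPn : ∀ t < l.length, P t + 1 < n := by
    intro t ht
    have h1 := start_le_sum ht
    have h2 := hb.sum
    have h3 := hb.three t ht
    have y1 := hb.hY (2 * (start l t + 0)) (by omega)
    have y2 := hb.hY (2 * (start l t + 0) + 1) (by omega)
    have := (hP t ht).rows 0 (by omega)
    omega
  set w : ℕ → ℕ := fun y => ∑ t ∈ range l.length, (if P t = y then l.getD t 0 else 0) with hw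
  have hw' : ∀ y, ∑ t ∈ range l.length, (if P t + 1 = y + 1 then l.getD t 0 else 0) = w y := by
    intro y
    simp only [hw]
    refine sum_congr rfl fun t _ => ?_
    by_cases h : P t = y
    · rw [if_pos h, if_pos (by omega)]
    · rw [if_neg h, if_neg (by omega)]
  have hrow : ∀ y < n, w y + ∑ t ∈ range l.length, (if P t + 1 = y then l.getD t 0 else 0) =
      n := by
    intro y hy
    rw [← row_card hb.hX hb.hY hb.inj hy]
    conv_rhs => rw [← hb.sum]
    rw [sum_pairs (fun a => if Y a = y then 1 else 0), sum_blocks, hw, ← sum_add_distrib]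
    refine sum_congr rfl fun t ht => ?_
    have ht' := mem_range.1 ht
    have : ∀ c ∈ range (l.getD t 0), ((if Y (2 * (start l t + c)) = y then 1 else 0) +
        (if Y (2 * (start l t + c) + 1) = y then 1 else 0)) =
        ((if P t = y then 1 else 0) + (if P t + 1 = y then 1 else 0)) := by
      intro c hc
      rcases (hP t ht').rows c (mem_range.1 hc) with ⟨h1, h2⟩ | ⟨h1, h2⟩
      · rw [h1, h2]
      · rw [h1, h2, add_comm]
    rw [sum_congr rfl this, sum_const, card_range, smul_eq_mul]
    split_ifs <;> omega
  have hind : ∀ i < h, w (2 * i) = n ∧ w (2 * i + 1) = 0 := by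
    intro i
    induction i with
    | zero =>
      intro hh
      have h1 := hrow 0 (by omega)
      have h2 := hrow 1 (by omega)
      rw [hw' 0] at h2
      have h3 : ∑ t ∈ range l.length, (if P t + 1 = 0 then l.getD t 0 else 0) = 0 :=
        sum_eq_zero fun t _ => if_neg (by omega)
      rw [h3] at h1
      constructor
      · simpa using h1
      · change w 1 = 0
        omega
    | succ i ih =>
      intro hh
      obtain ⟨g1, g2⟩ := ih (by omega)
      have h1 : w (2 * i + 2) + w (2 * i + 1) = n := by
        have := hrow (2 * i + 1 + 1) (by omega)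
        rw [hw'] at this
        exact this
      have h2 : w (2 * i + 3) + w (2 * i + 2) = n := by
        have := hrow (2 * i + 2 + 1) (by omega)
        rw [hw'] at this
        exact this
      have e1 : 2 * (i + 1) = 2 * i + 2 := by ring
      have e2 : 2 * (i + 1) + 1 = 2 * i + 3 := by ring
      rw [e2, e1]
      omega
  refine ⟨fun t => P t / 2, fun t ht => ?_, fun j hj => ?_⟩
  · have := hPn t ht
    change P t / 2 < h
    omega
  have h1 := (hind j hj).1
  have h2 := (hind j hj).2
  have : ∑ t ∈ range l.length, (if P t / 2 = j then l.getD t 0 else 0) =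
      w (2 * j) + w (2 * j + 1) := by
    simp only [hw]
    rw [← sum_add_distrib]
    refine sum_congr rfl fun t _ => ?_
    split_ifs <;> omega
  rw [this, h1, h2]
  rfl

end

end Pool.Agent.V11230.BG
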