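import Pool.Agent.V11230.BG3

/-!
# Strips in the king's graph: from packings to boards
-/

set_option autoImplicit false

namespace Pool.Agent.V11230.BG

open Finset

section

variable {l : List ℕ}

/-- the strip of the column `κ` -/
def strip (l : List ℕ) (κ : ℕ) : ℕ :=
  ((range l.length).filter (fun t => start l (t + 1) ≤ κ)).card

theorem strip_eq {t κ : ℕ} (ht : t < l.length) (h1 : start l t ≤ κ) (h2 : κ < start l (t + 1)) :
    strip l κ = t := by
  unfold strip
  have : (range l.length).filter (fun t => start l (t + 1) ≤ κ) = range t := by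
    ext t'
    rw [mem_filter, mem_range, mem_range]
    constructor
    · rintro ⟨_, h⟩
      by_contra hc
      have := start_mono l (show t + 1 ≤ t' + 1 by omega)
      omega
    · intro h
      have := start_mono l (show t' + 1 ≤ t by omega)
      exact ⟨by omega, by omega⟩
  rw [this, card_range]

theorem exists_strip {κ : ℕ} (hκ : κ < l.sum) :
    ∃ t < l.length, start l t ≤ κ ∧ κ < start l (t + 1) := by
  classical
  have hex : ∃ t, κ < start l (t + 1) := by
    refine ⟨l.length, ?_⟩
    have := start_mono l (show l.length ≤ l.length + 1 by omega)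
    rw [start_length] at this
    omega
  have h1 := Nat.find_spec hex
  have h2 : ∀ t < Nat.find hex, ¬ κ < start l (t + 1) := fun t ht => Nat.find_min hex ht
  set t := Nat.find hex with ht
  have h3 : start l t ≤ κ := by
    rcases t with _ | t
    · simp [start]
    · have := h2 t (by omega)
      omega
  refine ⟨t, ?_, h3, h1⟩
  by_contra hc
  have := start_mono l (show l.length ≤ t by omega)
  rw [start_length] at this
  omega

/-- the class of the column `κ` -/
def bcl (l : List ℕ) (c : ℕ → ℕ) (κ : ℕ) : ℕ := c (strip l κ)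

theorem bcl_eq {c : ℕ → ℕ} {t d : ℕ} (ht : t < l.length) (hd : d < l.getD t 0) :
    bcl l c (start l t + d) = c t := by
  unfold bcl
  rw [strip_eq ht (by omega) (by rw [start_succ ht]; omega)]

theorem fibre {c : ℕ → ℕ} (j : ℕ) : ((range l.sum).filter (fun κ => bcl l c κ = j)).card =
    ∑ t ∈ range l.length, (if c t = j then l.getD t 0 else 0) := by
  rw [card_eq_sum_ones, sum_filter, sum_blocks]
  refine sum_congr rfl fun t ht => ?_
  have : ∀ d ∈ range (l.getD t 0), (if bcl l c (start l t + d) = j then 1 else 0) =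
      if c t = j then 1 else 0 := by
    intro d hd
    rw [bcl_eq (mem_range.1 ht) (mem_range.1 hd)]
  rw [sum_congr rfl this, sum_const, card_range, smul_eq_mul]
  split_ifs <;> simp

/-- the rank of the column in its class -/
def rk (l : List ℕ) (c : ℕ → ℕ) (κ : ℕ) : ℕ :=
  ((range κ).filter (fun κ' => bcl l c κ' = bcl l c κ)).card

theorem rk_lt {c : ℕ → ℕ} {κ κ' : ℕ} (h : κ < κ') (hb : bcl l c κ = bcl l c κ') :
    rk l c κ < rk l c κ' := by
  unfold rk
  refine card_lt_card ⟨?_, ?_⟩
  · intro x hx
    rw [mem_filter, mem_range] at hx ⊢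
    exact ⟨by omega, hx.2.trans hb⟩
  · intro hs
    have := hs (mem_filter.2 ⟨mem_range.2 h, hb⟩)
    rw [mem_filter, mem_range] at this
    omega

theorem rk_succ {c : ℕ → ℕ} {κ : ℕ} (hb : bcl l c (κ + 1) = bcl l c κ) :
    rk l c (κ + 1) = rk l c κ + 1 := by
  unfold rk
  rw [hb, range_add_one, filter_insert, if_pos rfl, card_insert_of_notMem]
  simp

/-- **From packings to boards.** -/
theorem board_of_classes {n h : ℕ} {c : ℕ → ℕ} (hn : n = 2 * h) (hs : 2 * l.sum = n * n)
    (hc : ∀ t < l.length, c t < h)
    (hsum : ∀ j < h, ∑ t ∈ range l.length, (if c t = j then l.getD t 0 else 0) = n) :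
    ∃ X Y : ℕ → ℕ, (∀ a < n * n, X a < n ∧ Y a < n) ∧ Inj (n * n) X Y ∧
      ∀ t < l.length, Links X Y (start l t) (l.getD t 0) := by
  have hb : ∀ κ < l.sum, bcl l c κ < h := by
    intro κ hκ
    obtain ⟨t, ht, h1, h2⟩ := exists_strip hκ
    unfold bcl
    rw [strip_eq ht h1 h2]
    exact hc t ht
  refine ⟨fun a => rk l c (a / 2), fun a => 2 * bcl l c (a / 2) + a % 2, ?_, ?_, ?_⟩
  · intro a ha
    have hκ : a / 2 < l.sum := by omega
    have h1 := hb _ hκ
    refine ⟨?_, by
      change 2 * bcl l c (a / 2) + a % 2 < n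
      omega⟩
    change rk l c (a / 2) < n
    rw [← hsum _ h1, ← fibre]
    unfold rk
    refine card_lt_card ⟨?_, ?_⟩
    · intro x hx
      rw [mem_filter, mem_range] at hx ⊢
      exact ⟨by omega, hx.2⟩
    · intro hs
      have := hs (mem_filter.2 ⟨mem_range.2 hκ, rfl⟩)
      rw [mem_filter, mem_range] at this
      omega
  · rintro a _ b _ hab ⟨h1, h2⟩
    simp only at h1 h2
    have e1 : bcl l c (a / 2) = bcl l c (b / 2) := by omega
    rcases lt_trichotomy (a / 2) (b / 2) with h | h | h
    · have := rk_lt h e1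
      omega
    · omega
    · have := rk_lt h e1.symm
      omega
  · intro t ht
    have e1 : ∀ κ, 2 * κ / 2 = κ := fun κ => by omega
    have e2 : ∀ κ i, i < 2 → (2 * κ + i) / 2 = κ := fun κ i hi => by omega
    have e3 : ∀ κ i, i < 2 → (2 * κ + i) % 2 = i := fun κ i hi => by omega
    refine ⟨?_, ?_⟩
    · intro d hd
      unfold Close
      simp only [e1, e2 _ 1 (by omega : 1 < 2), e3 _ 1 (by omega : 1 < 2)]
      omega
    · intro d hd i hi i' hi'
      unfold Close
      simp only [e2 _ i hi, e2 _ i' hi', e3 _ i hi, e3 _ i' hi']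
      have h1 : bcl l c (start l t + (d + 1)) = bcl l c (start l t + d) := by
        rw [bcl_eq ht hd, bcl_eq ht (by omega)]
      have h2 := rk_succ (l := l) (c := c) (κ := start l t + d) h1
      rw [Nat.add_assoc] at h2
      rw [h2, h1]
      omega

end

end Pool.Agent.V11230.BG
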