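import Pool.Agent.V11230.TSyncD
import Pool.Agent.H601R2.PP

/-!
# Recognising totally synchronizing digraphs is coNP-complete
-/

set_option autoImplicit false

namespace Pool.Agent.NPC.V11230.TS

open Finset

theorem red_iff {A B : List ℕ} {p P : ℕ} (hA : ∀ a ∈ A, 0 < a)
    (hB : ∀ b ∈ B, 2 * b < P) (hbp : B.length < p) (hp : p.Prime) (hP : P.Prime) (hpP : p < P)
    (hs : A.sum = B.sum) : VBP A B ↔ ¬ TotSync (Gr (Wt A B p P)) := by
  have hlen : (Wt A B p P).length = A.length + p := wt_length hbp.le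
  have hp2 := hp.two_le
  have hsum : (Wt A B p P).sum = p * P := wt_sum hbp.le hB hs
  have hpos : ∀ a ∈ Wt A B p P, 0 < a := by
    intro a ha
    unfold Wt at ha
    simp only [List.mem_append, List.mem_map, List.mem_replicate] at ha
    rcases ha with ha | ⟨b, hb, rfl⟩ | ⟨-, rfl⟩
    · exact hA a ha
    · have := hB b hb; omega
    · exact hP.pos
  constructor
  · rintro h ⟨k, hk, hR, hC⟩
    obtain ⟨c, hc1, hc2⟩ := vbp_to_fun h
    have hmem : Hd (Wt A B p P) ∈ Gr (Wt A B p P) := by
      unfold Gr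
      rw [List.mem_replicate]
      exact ⟨by omega, rfl⟩
    have hk' : k = p * P := by
      rw [← (hR _ hmem).1, length_Hd, hsum]
    subst hk'
    have hd : ∀ v < (Wt A B p P).length, cl A c v < p := by
      intro v hv
      unfold cl
      split_ifs with h1
      · have := hc1 v h1; omega
      · omega
    have hcs : ∀ j < p, ∑ v ∈ range (Wt A B p P).length,
        (if cl A c v = j then (Wt A B p P).getD v 0 else 0) = P := by
      intro j hj
      rw [hlen]
      exact cl_sum hB hc1 hc2 hj
    exact not_sync_Col hd hcs hP.pos hp2 (hC _ (isColouring_Col hd))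
  · intro h
    have h1 : ∃ C, IsColouring (Gr (Wt A B p P)) C ∧ ¬ Sync (Wt A B p P).sum C := by
      by_contra hno
      push Not at hno
      refine h ⟨(Wt A B p P).sum, ?_, reg_Gr _, fun C hC => hno C hC⟩
      rw [hsum]
      have := hP.two_le
      nlinarith
    obtain ⟨C, hC, hns⟩ := h1
    obtain ⟨r, m, c, hr, hc1, hc2⟩ := not_sync_classes hpos (by
      intro h0
      rw [h0] at hlen
      simp at hlen
      omega) hC hns
    rw [hlen] at hc1 hc2
    exact (classes_to_vbp hA hB hbp hp hP hpP hs hr c hc1 hc2).2.2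

/-! ### The reduction in polynomial time -/

def isPr (N q : ℕ) : Bool :=
  decide (2 ≤ q) && (List.range (min q N)).all (fun d => decide (d < 2) || decide (q % d ≠ 0))

theorem isPr_iff {N q : ℕ} (h : q ≤ N) : isPr N q = true ↔ q.Prime := by
  unfold isPr
  rw [min_eq_left h, Nat.prime_def_lt']
  simp only [Bool.and_eq_true, decide_eq_true_eq, List.all_eq_true, List.mem_range,
    Bool.or_eq_true, ne_eq, decide_not, Bool.not_eq_true', decide_eq_false_iff_not]
  refine and_congr_right fun h2 => ?_
  constructor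
  · intro hd m hm2 hm hdvd
    rcases hd m hm with h4 | h4
    · omega
    · exact h4 (Nat.mod_eq_zero_of_dvd hdvd)
  · intro hd m hm
    by_cases h4 : m < 2
    · exact Or.inl h4
    · exact Or.inr fun h5 => hd m (by omega) hm (Nat.dvd_of_mod_eq_zero h5)

/-- the first prime above `x` -/
def npr (x : ℕ) : ℕ :=
  (((List.range (2 * x + 1)).filter (fun q => decide (x < q) && isPr (2 * x + 1) q)).head?).getD 2

theorem npr_spec {x : ℕ} (hx : x ≠ 0) : (npr x).Prime ∧ x < npr x ∧ npr x ≤ 2 * x := by
  obtain ⟨q, hq, h1, h2⟩ := Nat.exists_prime_lt_and_le_two_mul x hx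
  have hmem : q ∈ (List.range (2 * x + 1)).filter (fun q => decide (x < q) && isPr (2 * x + 1) q) := by
    rw [List.mem_filter, List.mem_range]
    refine ⟨by omega, ?_⟩
    rw [Bool.and_eq_true, decide_eq_true_eq, isPr_iff (by omega)]
    exact ⟨h1, hq⟩
  unfold npr
  cases h : (List.range (2 * x + 1)).filter (fun q => decide (x < q) && isPr (2 * x + 1) q) with
  | nil => rw [h] at hmem; simp at hmem
  | cons a l =>
    have ha : a ∈ (List.range (2 * x + 1)).filter (fun q => decide (x < q) && isPr (2 * x + 1) q) := by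
      rw [h]; exact List.mem_cons_self
    rw [List.mem_filter, List.mem_range, Bool.and_eq_true, decide_eq_true_eq] at ha
    simp only [List.head?_cons, Option.getD_some]
    exact ⟨(isPr_iff (by omega)).1 ha.2.2, ha.2.1, by omega⟩

theorem npr_le (x : ℕ) : npr x ≤ 2 * x + 2 := by
  by_cases hx : x = 0
  · subst hx
    unfold npr
    simp
  · have := (npr_spec hx).2.2
    omega

theorem upoly_npr {α : Type} [TEnc α] {x : α → ℕ} (hx : UPoly x) : UPoly (fun a => npr (x a)) := by
  have h2 : UPoly (fun a => 2 * x a + 1) := UPoly.add (UPoly.mul (UPoly.const 2) hx) (UPoly.const 1)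
  have h2r := h2.range
  have hxp := hx.toPoly
  have h2p := h2.toPoly
  refine UPoly.of_le ?_ (UPoly.add (UPoly.mul (UPoly.const 2) hx) (UPoly.const 2))
    (fun a => npr_le (x a))
  unfold npr
  refine Poly.head?_getD (Poly.filter (p := fun a q => decide (x a < q) && isPr (2 * x a + 1) q)
    h2r ?_) 2
  unfold isPr
  have hm : UPoly (fun y : α × ℕ => min y.2 (2 * x y.1 + 1)) :=
    UPoly.of_le (by fun_prop) (h2.comp (Poly.fst Poly.id)) (fun _ => Nat.min_le_right _ _)
  have hmr := hm.range
  refine Poly.and (by fun_prop) (Poly.and (by fun_prop) ?_)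
  refine Poly.all (p := fun (y : α × ℕ) d => decide (d < 2) || decide (y.2 % d ≠ 0)) hmr ?_
  fun_prop

def mF (I : List ℕ × List ℕ) : ℕ := I.2.length
def SF (I : List ℕ × List ℕ) : ℕ := min I.2.sum (16000 * (mF I * mF I * (mF I * mF I)))
def pF (I : List ℕ × List ℕ) : ℕ := npr (mF I)
def PF (I : List ℕ × List ℕ) : ℕ := npr (2 * SF I + 2 * mF I)

def redG (I : List ℕ × List ℕ) : List (List ℕ) :=
  List.replicate (Wt I.1 I.2 (pF I) (PF I)).length
    ((List.range (Wt I.1 I.2 (pF I) (PF I)).length).flatMap (fun u =>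
      List.replicate (min ((Wt I.1 I.2 (pF I) (PF I)).getD u 0) (PF I)) u))

theorem upoly_mF : UPoly mF := UPoly.length (Poly.snd Poly.id)

theorem upoly_SF : UPoly SF := by
  unfold SF
  have h1 := upoly_mF.toPoly
  have h2 : UPoly (fun I => 16000 * (mF I * mF I * (mF I * mF I))) :=
    UPoly.mul (UPoly.const 16000) (UPoly.mul (UPoly.mul upoly_mF upoly_mF)
      (UPoly.mul upoly_mF upoly_mF))
  exact UPoly.of_le (Poly.min (Poly.sum (Poly.snd Poly.id)) h2.toPoly) h2
    (fun _ => Nat.min_le_right _ _)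

theorem upoly_pF : UPoly pF := upoly_npr upoly_mF

theorem upoly_PF : UPoly PF :=
  upoly_npr (UPoly.add (UPoly.mul (UPoly.const 2) upoly_SF) (UPoly.mul (UPoly.const 2) upoly_mF))

theorem poly_Wt : Poly (fun I : List ℕ × List ℕ => Wt I.1 I.2 (pF I) (PF I)) := by
  unfold Wt
  have h1 := upoly_PF.toPoly
  have h2 := upoly_pF.toPoly
  have hsub : UPoly (fun I : List ℕ × List ℕ => pF I - I.2.length) :=
    UPoly.of_le (by fun_prop) upoly_pF (fun _ => Nat.sub_le _ _)
  exact Poly.append (Poly.fst Poly.id) (Poly.append (by fun_prop) (Poly.replicateU hsub h1))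

theorem poly_redG : Poly redG := by
  unfold redG
  have h1 := poly_Wt
  have h2 : UPoly (fun I : List ℕ × List ℕ => (Wt I.1 I.2 (pF I) (PF I)).length) := UPoly.length h1
  refine Poly.replicateU h2 (Poly.flatMap (F := fun (I : List ℕ × List ℕ) u =>
    List.replicate (min ((Wt I.1 I.2 (pF I) (PF I)).getD u 0) (PF I)) u) h2.range ?_)
  refine Poly.replicateU (UPoly.of_le ?_ (upoly_PF.comp (Poly.fst Poly.id))
    (fun _ => Nat.min_le_right _ _)) (Poly.snd Poly.id)
  exact Poly.min (Poly.getD (h1.comp (Poly.fst Poly.id)) (Poly.snd Poly.id) (Poly.const 0))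
    (upoly_PF.toPoly.comp (Poly.fst Poly.id))

theorem hardPr_notTotSync : HardPr (fun _ => True) (fun G => ¬ TotSync G) := by
  refine hardPr_UVBP.trans poly_redG (fun _ _ => trivial) ?_
  rintro ⟨A, B⟩ ⟨h1, h2, h3, h4⟩
  simp only at h1 h2 h3 h4 ⊢
  have hm : 0 < B.length := List.length_pos_iff.2 h2
  have hS : SF (A, B) = B.sum := min_eq_left h4
  obtain ⟨p1, p2, p3⟩ := npr_spec (x := B.length) (by omega)
  obtain ⟨P1, P2, P3⟩ := npr_spec (x := 2 * B.sum + 2 * B.length) (by omega)
  have ep : pF (A, B) = npr B.length := rfl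
  have eP : PF (A, B) = npr (2 * B.sum + 2 * B.length) := by
    unfold PF
    rw [hS]
    rfl
  have hB : ∀ b ∈ B, 2 * b < PF (A, B) := by
    intro b hb
    have := List.le_sum_of_mem hb
    rw [eP]
    omega
  have e : redG (A, B) = Gr (Wt A B (pF (A, B)) (PF (A, B))) := by
    unfold redG Gr Hd
    congr 1
    refine List.flatMap_congr fun u hu => ?_
    congr 1
    rw [min_eq_left]
    simp only
    rw [List.mem_range] at hu
    rw [List.getD_eq_getElem _ _ hu]
    have hmem := List.getElem_mem hu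
    generalize (Wt A B (pF (A, B)) (PF (A, B)))[u] = x at hmem
    unfold Wt at hmem
    simp only [List.mem_append, List.mem_map, List.mem_replicate] at hmem
    rcases hmem with ha | ⟨b, hb, rfl⟩ | ⟨-, rfl⟩
    · have := List.le_sum_of_mem ha
      rw [h3] at this
      rw [eP]
      omega
    · omega
    · exact le_rfl
  rw [e]
  refine red_iff h1 hB ?_ ?_ ?_ ?_ h3
  · rw [ep]; exact p2
  · rw [ep]; exact p1
  · rw [eP]; exact P1
  · rw [ep, eP]; omega

/-- Recognising totally synchronizing digraphs is coNP-hard. -/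
theorem coNPHard_TotSync : CoNPHardP TotSync := hardPr_notTotSync.toCoNPHardP

end Pool.Agent.NPC.V11230.TS
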