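import Pool.Agent.V11230.BG4
import Pool.Agent.V11230.TSyncE

/-!
# Strips in the king's graph: exact bin packing
-/

set_option autoImplicit false

namespace Pool.Agent.NPC.V11230.BGR

open Finset Pool.Agent.V11230.BG Pool.Agent.NPC.V11230.TS

theorem fun_to_vbp {A B : List ℕ} {c : ℕ → ℕ} (hc : ∀ i < A.length, c i < B.length)
    (hsum : ∀ t < B.length, ∑ i ∈ range A.length, (if c i = t then A.getD i 0 else 0) =
      B.getD t 0) : VBP A B := by
  have hAget : (List.range A.length).map (fun i => A.getD i 0) = A := by
    apply List.ext_getElem
    · simp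
    · intro i h1 h2
      simp [h2]
  refine ⟨(List.range B.length).map (fun t =>
    ((List.range A.length).filter (fun i => decide (c i = t))).map
      (fun i => A.getD i 0)), ?_, ?_⟩
  · have h1 : ((List.range B.length).map (fun t =>
        ((List.range A.length).filter (fun i => decide (c i = t))).map
        (fun i => A.getD i 0))).flatten = (((List.range B.length).flatMap (fun t =>
        (List.range A.length).filter (fun i => decide (c i = t)))).map
        (fun i => A.getD i 0)) := by
      rw [List.map_flatMap, List.flatMap_def]
    have h2 : ((List.range B.length).flatMap (fun t =>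
        (List.range A.length).filter (fun i => decide (c i = t)))).Perm
        (List.range A.length) := by
      rw [List.perm_ext_iff_of_nodup]
      · intro i
        simp only [List.mem_flatMap, List.mem_range, List.mem_filter, decide_eq_true_eq]
        constructor
        · rintro ⟨t, -, hi, -⟩
          exact hi
        · intro hi
          exact ⟨c i, hc i hi, hi, rfl⟩
      · rw [List.nodup_flatMap]
        refine ⟨fun t _ => List.Nodup.filter _ List.nodup_range, ?_⟩
        refine List.Nodup.pairwise_of_forall_ne List.nodup_range ?_
        intro t ht t' ht' hne i hi hi'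
        simp only [List.mem_filter, decide_eq_true_eq, List.mem_range] at hi hi'
        exact hne (hi.2.symm.trans hi'.2)
      · exact List.nodup_range
    rw [h1]
    exact (h2.map _).trans (by rw [hAget])
  · have h3 : ((List.range B.length).map (fun t =>
        ((List.range A.length).filter (fun i => decide (c i = t))).map
        (fun i => A.getD i 0))).map List.sum = B := by
      apply List.ext_getElem
      · simp
      · intro t h1 h2
        simp only [List.getElem_map, List.getElem_range]
        rw [sum_filter_range]
        have h4 := hsum t h2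
        rw [List.getD_eq_getElem _ _ h2] at h4
        simpa using h4
    rw [h3]

theorem classes_to_fun {A B : List ℕ} {p P : ℕ} (hA : ∀ a ∈ A, 0 < a)
    (hB : ∀ b ∈ B, 2 * b < P) (hbp : B.length ≤ p) (hP : 0 < P) {c : ℕ → ℕ}
    (hcr : ∀ v < A.length + p, c v < p)
    (hc : ∀ j < p, ∑ v ∈ range (A.length + p), (if c v = j then (Wt A B p P).getD v 0 else 0) =
      P) : ∃ c' : ℕ → ℕ, (∀ i < A.length, c' i < B.length) ∧
      ∀ t < B.length, ∑ i ∈ range A.length, (if c' i = t then A.getD i 0 else 0) =
        B.getD t 0 := by
  set L := Wt A B p P with hL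
  have hbig : ∀ t < p, P < 2 * L.getD (A.length + t) 0 := by
    intro t ht
    by_cases h : t < B.length
    · rw [hL, wt_B h]
      have h2 := hB (B.getD t 0) (by rw [List.getD_eq_getElem _ _ h]; exact List.getElem_mem _)
      omega
    · rw [hL, wt_P (by omega) ht]; omega
  have hinj : ∀ t < p, ∀ t' < p, c (A.length + t) = c (A.length + t') → t = t' := by
    intro t ht t' ht' hcc
    by_contra hne
    have h1 := hc (c (A.length + t)) (hcr _ (by omega))
    have h2 : ∑ v ∈ ({A.length + t, A.length + t'} : Finset ℕ),
        (if c v = c (A.length + t) then L.getD v 0 else 0) ≤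
        ∑ v ∈ range (A.length + p), (if c v = c (A.length + t) then L.getD v 0 else 0) := by
      apply sum_le_sum_of_subset
      intro v hv
      simp only [mem_insert, mem_singleton] at hv
      rw [mem_range]
      omega
    rw [sum_pair (by omega), h1, if_pos rfl, if_pos hcc.symm] at h2
    have h3 := hbig t ht
    have h4 := hbig t' ht'
    omega
  have hsur : ∀ j < p, ∃ t < p, c (A.length + t) = j := by
    intro j hj
    let f : Fin p → Fin p := fun t => ⟨c (A.length + t), hcr _ (by omega)⟩
    have hf : Function.Injective f := by
      intro t t' h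
      exact Fin.ext (hinj t t.2 t' t'.2 (by simpa [f] using h))
    obtain ⟨t, ht⟩ := (Finite.injective_iff_surjective.1 hf) ⟨j, hj⟩
    exact ⟨t, t.2, by simpa [f] using congrArg Fin.val ht⟩
  have hpart : ∀ t < p, (∑ i ∈ range A.length, if c i = c (A.length + t) then A.getD i 0 else 0) +
      L.getD (A.length + t) 0 = P := by
    intro t ht
    rw [← hc (c (A.length + t)) (hcr _ (by omega)), sum_range_add]
    congr 1
    · refine sum_congr rfl fun i hi => ?_
      rw [hL, wt_A (mem_range.1 hi)]
    · rw [sum_eq_single t]
      · simp
      · intro t' ht' hne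
        rw [if_neg]
        intro h
        exact hne (hinj t' (mem_range.1 ht') t ht h)
      · intro h
        exact (h (mem_range.2 ht)).elim
  have hB' : ∀ t < B.length, (∑ i ∈ range A.length, if c i = c (A.length + t) then A.getD i 0 else 0)
      = B.getD t 0 := by
    intro t ht
    have h1 := hpart t (by omega)
    rw [hL, wt_B ht] at h1
    have h2 := hB (B.getD t 0) (by rw [List.getD_eq_getElem _ _ ht]; exact List.getElem_mem _)
    omega
  have hE : ∀ i, ∃ t, i < A.length → t < B.length ∧ c i = c (A.length + t) := by
    intro i
    by_cases hi : i < A.length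
    · obtain ⟨t, ht, hct⟩ := hsur (c i) (hcr i (by omega))
      by_cases h : t < B.length
      · exact ⟨t, fun _ => ⟨h, hct.symm⟩⟩
      · exfalso
        have h1 := hpart t ht
        rw [hL, wt_P (by omega) ht] at h1
        have h2 := single_le_sum (f := fun i => if c i = c (A.length + t) then A.getD i 0 else 0)
          (fun _ _ => Nat.zero_le _) (mem_range.2 hi)
        simp only [hct, if_true] at h2
        rw [hct] at h1
        have h3 := hA (A.getD i 0) (by rw [List.getD_eq_getElem _ _ hi]; exact List.getElem_mem _)
        omega
    · exact ⟨0, fun h => absurd h hi⟩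
  choose c' hc' using hE
  refine ⟨c', fun i hi => (hc' i hi).1, fun t ht => ?_⟩
  rw [← hB' t ht]
  refine sum_congr rfl fun i hi => ?_
  have h1 := hc' i (mem_range.1 hi)
  by_cases h : c' i = t
  · rw [if_pos h, if_pos (by rw [h1.2, h])]
  · rw [if_neg h, if_neg]
    intro h2
    rw [h1.2] at h2
    exact h (hinj _ (by omega) _ (by omega) h2)

theorem getD_smul (s : ℕ) (A : List ℕ) (i : ℕ) :
    (A.map (fun a => s * a)).getD i 0 = s * A.getD i 0 := by
  rw [List.getD_eq_getElem?_getD, List.getD_eq_getElem?_getD, List.getElem?_map]
  cases A[i]? <;> simp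

theorem sum_smul (s : ℕ) (A : List ℕ) : (A.map (fun a => s * a)).sum = s * A.sum := by
  rw [List.sum_map_mul_left]
  simp

/-! ### The strips of an instance -/

/-- the factor -/
def sc (B : List ℕ) : ℕ := 2 * B.length + 1

/-- half of the size of the board -/
def hf (B : List ℕ) (S : ℕ) : ℕ := sc B * S + 2 * B.length + 1

/-- the lengths of the strips -/
def strips (A B : List ℕ) (S : ℕ) : List ℕ :=
  Wt (A.map (fun a => sc B * a)) (B.map (fun b => sc B * b)) (hf B S) (2 * hf B S)

section

variable {A B : List ℕ}

theorem hB_of {S : ℕ} (hS : B.sum ≤ S) :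
    ∀ b ∈ B.map (fun b => sc B * b), 2 * b < 2 * hf B S := by
  intro b hb
  obtain ⟨x, hx, rfl⟩ := List.mem_map.1 hb
  have h1 := List.le_sum_of_mem hx
  have h2 := Nat.mul_le_mul_left (sc B) (h1.trans hS)
  unfold hf
  omega

theorem strips_length {S : ℕ} : (strips A B S).length = A.length + hf B S := by
  unfold strips
  rw [wt_length (by rw [List.length_map]; unfold hf; omega), List.length_map]

theorem strips_entry (hA : ∀ a ∈ A, 0 < a) (hm : 0 < B.length) {S : ℕ} (hS : B.sum ≤ S) {t : ℕ}
    (ht : t < (strips A B S).length) : 2 * B.length < (strips A B S).getD t 0 ∧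
      (A.length + B.length ≤ t → (strips A B S).getD t 0 = 2 * hf B S) := by
  rw [strips_length] at ht
  unfold strips
  by_cases h1 : t < A.length
  · rw [wt_A (by rw [List.length_map]; exact h1), getD_smul]
    have h2 := hA (A.getD t 0) (by rw [List.getD_eq_getElem _ _ h1]; exact List.getElem_mem _)
    have h3 := Nat.mul_le_mul_left (sc B) h2
    have h4 : sc B = 2 * B.length + 1 := rfl
    exact ⟨by omega, fun h => by omega⟩
  · obtain ⟨d, rfl⟩ : ∃ d, t = A.length + d := ⟨t - A.length, by omega⟩
    have e : (A.map (fun a => sc B * a)).length = A.length := List.length_map _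
    by_cases h2 : d < B.length
    · have h3 := wt_B (A := A.map (fun a => sc B * a)) (B := B.map (fun b => sc B * b))
        (p := hf B S) (P := 2 * hf B S) (t := d) (by rw [List.length_map]; exact h2)
      rw [e] at h3
      rw [h3]
      have h4 := hB_of hS ((B.map (fun b => sc B * b)).getD d 0) (by
        rw [List.getD_eq_getElem _ _ (by rw [List.length_map]; exact h2)]
        exact List.getElem_mem _)
      have h5 : 2 * B.length + 1 ≤ hf B S := by
        unfold hf
        omega
      exact ⟨by omega, fun h => by omega⟩
    · have h3 := wt_P (A := A.map (fun a => sc B * a)) (B := B.map (fun b => sc B * b))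
        (p := hf B S) (P := 2 * hf B S) (t := d) (by rw [List.length_map]; omega) (by omega)
      rw [e] at h3
      rw [h3]
      have h5 : 2 * B.length + 1 ≤ hf B S := by
        unfold hf
        omega
      exact ⟨by omega, fun _ => rfl⟩

theorem strips_sum {S : ℕ} (hS : B.sum ≤ S) (hs : A.sum = B.sum) :
    (strips A B S).sum = hf B S * (2 * hf B S) := by
  unfold strips
  exact wt_sum (by rw [List.length_map]; unfold hf; omega) (hB_of hS) (by
    rw [sum_smul, sum_smul, hs])

/-- a placement of the strips -/
def Placed (n : ℕ) (l : List ℕ) : Prop :=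
  ∃ X Y : ℕ → ℕ, (∀ a < n * n, X a < n ∧ Y a < n) ∧ Inj (n * n) X Y ∧
    ∀ t < l.length, Links X Y (start l t) (l.getD t 0)

/-- **Placements of the strips and packings.** -/
theorem placed_iff (hA : ∀ a ∈ A, 0 < a) (hm : 0 < B.length) {S : ℕ} (hS : B.sum ≤ S)
    (hs : A.sum = B.sum) : Placed (2 * hf B S) (strips A B S) ↔ VBP A B := by
  have hsc : 0 < sc B := by unfold sc; omega
  have hf1 : 2 * B.length + 1 ≤ hf B S := by
    unfold hf
    omega
  have hsum : 2 * (strips A B S).sum = 2 * hf B S * (2 * hf B S) := by
    rw [strips_sum hS hs]
    ring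
  have hlen := strips_length (A := A) (B := B) (S := S)
  constructor
  · rintro ⟨X, Y, h1, h2, h3⟩
    have hb : Brd X Y (2 * hf B S) (hf B S - B.length) (strips A B S) := by
      refine ⟨fun a ha => (h1 a ha).1, fun a ha => (h1 a ha).2, h2, hsum, h3, ?_, ?_, by omega,
        by omega, ?_⟩
      · intro t ht
        have := (strips_entry hA hm hS ht).1
        omega
      · intro t ht htr
        exact (strips_entry hA hm hS ht).2 (by omega)
      · intro t ht
        have := (strips_entry hA hm hS ht).1
        omega
    have key : ∃ c : ℕ → ℕ, (∀ t < (strips A B S).length, c t < hf B S) ∧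
        ∀ j < hf B S, ∑ t ∈ range (strips A B S).length,
          (if c t = j then (strips A B S).getD t 0 else 0) = 2 * hf B S := by
      rcases hb.rigid (t := (strips A B S).length - 1) (by omega) with h0 | h0
      · exact classes_of_board rfl hb (all_along hb h0)
      · exact classes_of_board rfl hb.swap (all_along hb.swap h0)
    obtain ⟨c, hc1, hc2⟩ := key
    rw [hlen] at hc1 hc2
    obtain ⟨c', hc'1, hc'2⟩ := classes_to_fun (A := A.map (fun a => sc B * a))
      (B := B.map (fun b => sc B * b)) (p := hf B S) (P := 2 * hf B S) (c := c)
      (fun a ha => by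
        obtain ⟨x, hx, rfl⟩ := List.mem_map.1 ha
        exact Nat.mul_pos hsc (hA x hx))
      (hB_of hS) (by rw [List.length_map]; omega) (by omega)
      (by rw [List.length_map]; exact hc1)
      (fun j hj => by rw [List.length_map]; exact hc2 j hj)
    rw [List.length_map, List.length_map] at hc'1
    rw [List.length_map, List.length_map] at hc'2
    refine fun_to_vbp hc'1 (fun t ht => ?_)
    have h4 := hc'2 t ht
    rw [getD_smul] at h4
    refine Nat.eq_of_mul_eq_mul_left hsc ?_
    rw [← h4, mul_sum]
    refine sum_congr rfl fun i _ => ?_
    rw [getD_smul]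
    split_ifs <;> simp
  · intro hv
    obtain ⟨c, hc1, hc2⟩ := vbp_to_fun hv
    have hc1' : ∀ i < (A.map (fun a => sc B * a)).length,
        c i < (B.map (fun b => sc B * b)).length := by
      rw [List.length_map, List.length_map]
      exact hc1
    have hc2' : ∀ j < (B.map (fun b => sc B * b)).length,
        ∑ i ∈ range (A.map (fun a => sc B * a)).length,
          (if c i = j then (A.map (fun a => sc B * a)).getD i 0 else 0) =
          (B.map (fun b => sc B * b)).getD j 0 := by
      intro j hj
      rw [List.length_map] at hj
      rw [List.length_map, getD_smul, ← hc2 j hj, mul_sum]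
      refine sum_congr rfl fun i _ => ?_
      rw [getD_smul]
      split_ifs <;> simp
    refine board_of_classes (h := hf B S) (c := cl (A.map (fun a => sc B * a)) c) rfl hsum ?_ ?_
    · intro t ht
      rw [hlen] at ht
      unfold cl
      rw [List.length_map]
      split_ifs with h
      · have := hc1 t h
        omega
      · omega
    · intro j hj
      rw [hlen]
      have := cl_sum (hB_of (B := B) hS) hc1' hc2' hj
      rw [List.length_map] at this
      exact this

end

end Pool.Agent.NPC.V11230.BGR
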