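import Pool.Agent.V11230.BG5

/-!
# Boggle logic puzzles: the instances
-/

set_option autoImplicit false

namespace Pool.Agent.NPC.V11230.BGR

open Pool.Agent.V11230.BG Pool.Agent.NPC Pool.Agent.NPC.V11230.TS

/-! ### Definitions -/

/-- An `n × n` board: the cell of each letter. -/
abbrev Board (n : ℕ) : Type := Fin (n * n) ≃ Fin n × Fin n

/-- The cells touch horizontally, vertically or diagonally. -/
def Touch {n : ℕ} (p q : Fin n × Fin n) : Prop :=
  max (((p.1 : ℕ) : ℤ) - ((q.1 : ℕ) : ℤ)).natAbs (((p.2 : ℕ) : ℤ) - ((q.2 : ℕ) : ℤ)).natAbs = 1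

/-- The letters `a` and `b` sit on touching cells. -/
def LetterAdj {n : ℕ} (B : Board n) (a b : ℕ) : Prop :=
  ∃ (ha : a < n * n) (hb : b < n * n), Touch (B ⟨a, ha⟩) (B ⟨b, hb⟩)

/-- A word occurs in the board if each two consecutive letters sit on touching cells. -/
def Occurs {n : ℕ} (B : Board n) (w : List ℕ) : Prop := w.IsChain (LetterAdj B)

/-- A word over the letters `0, ..., n² - 1`: at least two letters, pairwise distinct. -/
def IsWord (n : ℕ) (w : List ℕ) : Prop := w.Nodup ∧ 2 ≤ w.length ∧ ∀ a ∈ w, a < n * n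

/-- An instance: the size of the board, in unary, and a finite set of words. -/
abbrev Inst : Type := List Unit × List (List ℕ)

/-- the instance is correct -/
def Valid (I : Inst) : Prop := 1 ≤ I.1.length ∧ ∀ w ∈ I.2, IsWord I.1.length w

/-- All words of the instance occur in some board. -/
def Solve (I : Inst) : Prop := ∃ B : Board I.1.length, ∀ w ∈ I.2, Occurs B w

/-! ### Boards and coordinates -/

theorem touch_iff {n : ℕ} {p q : Fin n × Fin n} : Touch p q ↔
    ((p.1 : ℕ) ≤ q.1 + 1 ∧ (q.1 : ℕ) ≤ p.1 + 1 ∧ (p.2 : ℕ) ≤ q.2 + 1 ∧ (q.2 : ℕ) ≤ p.2 + 1) ∧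
      ¬ ((p.1 : ℕ) = q.1 ∧ (p.2 : ℕ) = q.2) := by
  unfold Touch
  omega

/-- the words of a strip -/
def wordsOf (s L : ℕ) : List (List ℕ) :=
  (List.range L).map (fun c => [2 * (s + c), 2 * (s + c) + 1]) ++
    (List.range L).flatMap (fun c => if c + 1 < L then
      [[2 * (s + c) + 0, 2 * (s + (c + 1)) + 0], [2 * (s + c) + 0, 2 * (s + (c + 1)) + 1],
        [2 * (s + c) + 1, 2 * (s + (c + 1)) + 0], [2 * (s + c) + 1, 2 * (s + (c + 1)) + 1]]
      else [])

theorem mem_wordsOf {s L : ℕ} {w : List ℕ} : w ∈ wordsOf s L ↔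
    (∃ c < L, w = [2 * (s + c), 2 * (s + c) + 1]) ∨
      (∃ c, c + 1 < L ∧ ∃ i < 2, ∃ i' < 2, w = [2 * (s + c) + i, 2 * (s + (c + 1)) + i']) := by
  unfold wordsOf
  rw [List.mem_append, List.mem_map, List.mem_flatMap]
  refine or_congr ?_ ?_
  · constructor
    · rintro ⟨c, hc, rfl⟩
      exact ⟨c, List.mem_range.1 hc, rfl⟩
    · rintro ⟨c, hc, rfl⟩
      exact ⟨c, List.mem_range.2 hc, rfl⟩
  · constructor
    · rintro ⟨c, hc, hw⟩
      by_cases h : c + 1 < L
      · rw [if_pos h] at hw
        simp only [List.mem_cons, List.not_mem_nil, or_false] at hw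
        rcases hw with rfl | rfl | rfl | rfl
        · exact ⟨c, h, 0, by omega, 0, by omega, rfl⟩
        · exact ⟨c, h, 0, by omega, 1, by omega, rfl⟩
        · exact ⟨c, h, 1, by omega, 0, by omega, rfl⟩
        · exact ⟨c, h, 1, by omega, 1, by omega, rfl⟩
      · rw [if_neg h] at hw
        simp at hw
    · rintro ⟨c, hc, i, hi, i', hi', rfl⟩
      refine ⟨c, List.mem_range.2 (by omega), ?_⟩
      rw [if_pos hc]
      interval_cases i <;> interval_cases i' <;> simp

/-- the words of the strips -/
def words (n : ℕ) (l : List ℕ) : List (List ℕ) :=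
  (List.range l.length).flatMap (fun t => wordsOf (start l t) (min (l.getD t 0) n))

theorem words_iff {n : ℕ} {l : List ℕ} (hl : ∀ t < l.length, l.getD t 0 ≤ n) {w : List ℕ} :
    w ∈ words n l ↔ ∃ t < l.length, w ∈ wordsOf (start l t) (l.getD t 0) := by
  unfold words
  rw [List.mem_flatMap]
  constructor
  · rintro ⟨t, ht, hw⟩
    rw [List.mem_range] at ht
    rw [min_eq_left (hl t ht)] at hw
    exact ⟨t, ht, hw⟩
  · rintro ⟨t, ht, hw⟩
    refine ⟨t, List.mem_range.2 ht, ?_⟩
    rw [min_eq_left (hl t ht)]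
    exact hw

section

variable {n : ℕ} {l : List ℕ}

theorem valid_words (hn : 1 ≤ n) (hl : ∀ t < l.length, l.getD t 0 ≤ n)
    (hs : 2 * l.sum = n * n) : Valid (List.replicate n (), words n l) := by
  refine ⟨by simpa using hn, fun w hw => ?_⟩
  have hw' : w ∈ words n l := hw
  rw [words_iff hl] at hw'
  obtain ⟨t, ht, hw'⟩ := hw'
  have h1 := start_le_sum ht
  unfold IsWord
  rw [show ((List.replicate n (), words n l) : Inst).1.length = n from List.length_replicate ..]
  rw [mem_wordsOf] at hw'
  rcases hw' with ⟨c, hc, rfl⟩ | ⟨c, hc, i, hi, i', hi', rfl⟩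
  · refine ⟨?_, by simp, ?_⟩
    · simp
    · intro a ha
      simp only [List.mem_cons, List.not_mem_nil, or_false] at ha
      omega
  · refine ⟨?_, by simp, ?_⟩
    · simp only [List.nodup_cons, List.mem_cons, List.not_mem_nil, or_false, not_false_eq_true,
        List.nodup_nil, and_true]
      omega
    · intro a ha
      simp only [List.mem_cons, List.not_mem_nil, or_false] at ha
      omega

theorem occurs_pair {B : Board n} {a b : ℕ} : Occurs B [a, b] ↔ LetterAdj B a b := by
  unfold Occurs
  simp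

/-- **Solutions and placements of the strips.** -/
theorem solve_iff (hl : ∀ t < l.length, l.getD t 0 ≤ n) (hs : 2 * l.sum = n * n) :
    Solve (List.replicate n (), words n l) ↔ Placed n l := by
  classical
  have hlen : ((List.replicate n (), words n l) : Inst).1.length = n := List.length_replicate ..
  have hS : Solve (List.replicate n (), words n l) ↔
      ∃ B : Board n, ∀ w ∈ words n l, Occurs B w := by
    unfold Solve
    rw [hlen]
  rw [hS]
  constructor
  · rintro ⟨B, hB⟩
    have key : ∀ a b, [a, b] ∈ words n l →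
        Close (fun a => if h : a < n * n then ((B ⟨a, h⟩).1 : ℕ) else 0)
          (fun a => if h : a < n * n then ((B ⟨a, h⟩).2 : ℕ) else 0) a b := by
      intro a b hab
      obtain ⟨ha, hb, ht⟩ := occurs_pair.1 (hB _ hab)
      unfold Close
      simp only [dif_pos ha, dif_pos hb]
      exact (touch_iff.1 ht).1
    refine ⟨fun a => if h : a < n * n then (B ⟨a, h⟩).1 else 0,
      fun a => if h : a < n * n then (B ⟨a, h⟩).2 else 0, ?_, ?_, ?_⟩
    · intro a ha
      simp only [dif_pos ha]
      exact ⟨(B ⟨a, ha⟩).1.2, (B ⟨a, ha⟩).2.2⟩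
    · intro a ha b hb hab h
      simp only [dif_pos ha, dif_pos hb] at h
      have h1 : B ⟨a, ha⟩ = B ⟨b, hb⟩ := Prod.ext (Fin.ext h.1) (Fin.ext h.2)
      exact hab (congrArg Fin.val (B.injective h1))
    · intro t ht
      refine ⟨fun c hc => key _ _ ?_, fun c hc i hi i' hi' => key _ _ ?_⟩
      · exact (words_iff hl).2 ⟨t, ht, mem_wordsOf.2 (Or.inl ⟨c, hc, rfl⟩)⟩
      · exact (words_iff hl).2 ⟨t, ht, mem_wordsOf.2 (Or.inr ⟨c, hc, i, hi, i', hi', rfl⟩)⟩
  · rintro ⟨X, Y, h1, h2, h3⟩
    let f : Fin (n * n) → Fin n × Fin n := fun a => (⟨X a, (h1 a a.2).1⟩, ⟨Y a, (h1 a a.2).2⟩)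
    have hf : Function.Injective f := by
      intro a b hab
      by_contra hne
      refine h2 a a.2 b b.2 (fun h => hne (Fin.ext h)) ⟨?_, ?_⟩
      · exact congrArg Fin.val (congrArg Prod.fst hab)
      · exact congrArg Fin.val (congrArg Prod.snd hab)
    have hbij : Function.Bijective f := by
      rw [Fintype.bijective_iff_injective_and_card]
      exact ⟨hf, by simp⟩
    refine ⟨Equiv.ofBijective f hbij, fun w hw => ?_⟩
    have key : ∀ a b, a < n * n → b < n * n → a ≠ b → Close X Y a b →
        Occurs (Equiv.ofBijective f hbij) [a, b] := by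
      intro a b ha hb hab hcl
      rw [occurs_pair]
      refine ⟨ha, hb, touch_iff.2 ⟨hcl, h2 a ha b hb hab⟩⟩
    obtain ⟨t, ht, hw'⟩ := (words_iff hl).1 hw
    have h4 := start_le_sum ht
    rcases mem_wordsOf.1 hw' with ⟨c, hc, rfl⟩ | ⟨c, hc, i, hi, i', hi', rfl⟩
    · exact key _ _ (by omega) (by omega) (by omega) ((h3 t ht).col c hc)
    · exact key _ _ (by omega) (by omega) (by omega) ((h3 t ht).next c hc i hi i' hi')

end

/-! ### The reduction -/

/-- the size of the board -/
def nF (I : List ℕ × List ℕ) : ℕ := 2 * hf I.2 (SF I)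

/-- the instance -/
def red (I : List ℕ × List ℕ) : Inst :=
  (List.replicate (nF I) (), words (nF I) (strips I.1 I.2 (SF I)))

theorem strips_le {A B : List ℕ} {S : ℕ} (hS : B.sum ≤ S) (hs : A.sum = B.sum) {t : ℕ}
    (ht : t < (strips A B S).length) : (strips A B S).getD t 0 ≤ 2 * hf B S := by
  rw [strips_length] at ht
  unfold strips
  have hsc : ∀ x, x ≤ B.sum → sc B * x ≤ 2 * hf B S := by
    intro x hx
    have := Nat.mul_le_mul_left (sc B) (hx.trans hS)
    unfold hf
    omega
  by_cases h1 : t < A.length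
  · rw [wt_A (by rw [List.length_map]; exact h1), getD_smul]
    refine hsc _ ?_
    rw [← hs]
    exact List.le_sum_of_mem (by rw [List.getD_eq_getElem _ _ h1]; exact List.getElem_mem _)
  · obtain ⟨d, rfl⟩ : ∃ d, t = A.length + d := ⟨t - A.length, by omega⟩
    have e : (A.map (fun a => sc B * a)).length = A.length := List.length_map _
    by_cases h2 : d < B.length
    · have h3 := wt_B (A := A.map (fun a => sc B * a)) (B := B.map (fun b => sc B * b))
        (p := hf B S) (P := 2 * hf B S) (t := d) (by rw [List.length_map]; exact h2)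
      rw [e] at h3
      rw [h3]
      omega
    · have h3 := wt_P (A := A.map (fun a => sc B * a)) (B := B.map (fun b => sc B * b))
        (p := hf B S) (P := 2 * hf B S) (t := d) (by rw [List.length_map]; omega) (by omega)
      rw [e] at h3
      rw [h3]

theorem red_correct {I : List ℕ × List ℕ} (h : UVPr I) :
    Valid (red I) ∧ (VBP I.1 I.2 ↔ Solve (red I)) := by
  obtain ⟨A, B⟩ := I
  obtain ⟨h1, h2, h3, h4⟩ := h
  simp only at h1 h2 h3 h4
  have hm : 0 < B.length := List.length_pos_iff.2 h2
  have hS : B.sum ≤ SF (A, B) := by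
    have : SF (A, B) = B.sum := min_eq_left h4
    omega
  have hsum : 2 * (strips A B (SF (A, B))).sum =
      2 * hf B (SF (A, B)) * (2 * hf B (SF (A, B))) := by
    rw [strips_sum hS h3]
    ring
  have hle : ∀ t < (strips A B (SF (A, B))).length,
      (strips A B (SF (A, B))).getD t 0 ≤ 2 * hf B (SF (A, B)) :=
    fun t ht => strips_le hS h3 ht
  refine ⟨valid_words ?_ hle hsum, ?_⟩
  · unfold nF hf
    omega
  · change VBP A B ↔ Solve (List.replicate (2 * hf B (SF (A, B))) (),
      words (2 * hf B (SF (A, B))) (strips A B (SF (A, B))))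
    rw [solve_iff hle hsum, placed_iff h1 hm hS h3]

/-! ### Polynomial time -/

theorem start_sum (l : List ℕ) (t : ℕ) : start l t =
    (((List.range l.length).filter (fun i => decide (i < t))).map (fun i => l.getD i 0)).sum := by
  rw [sum_filter_range]
  induction t with
  | zero => simp [start]
  | succ t ih =>
    by_cases ht : t < l.length
    · rw [start_succ ht, ih]
      have : ∀ i ∈ Finset.range l.length, (if decide (i < t + 1) = true then l.getD i 0 else 0) =
          (if decide (i < t) = true then l.getD i 0 else 0) +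
            (if i = t then l.getD t 0 else 0) := by
        intro i _
        by_cases h1 : i = t
        · subst h1
          simp
        · by_cases h2 : i < t
          · simp [h1, h2, show i < t + 1 by omega]
          · simp [h1, h2, show ¬ i < t + 1 by omega]
      rw [Finset.sum_congr rfl this, Finset.sum_add_distrib, Finset.sum_ite_eq',
        if_pos (Finset.mem_range.2 ht)]
    · have h1 : start l (t + 1) = start l t := by
        unfold start
        rw [List.take_of_length_le (by omega), List.take_of_length_le (by omega)]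
      rw [h1, ih]
      refine Finset.sum_congr rfl fun i hi => ?_
      rw [Finset.mem_range] at hi
      simp [show i < t by omega, show i < t + 1 by omega]

section

variable {α : Type} [TEnc α]

theorem poly_start {l : α → List ℕ} {t : α → ℕ} (hl : Poly l) (ht : Poly t) :
    Poly (fun a => start (l a) (t a)) := by
  have h1 : Poly (fun a => (List.range (l a).length).filter (fun i => decide (i < t a))) :=
    Poly.filter (p := fun a i => decide (i < t a)) (UPoly.length hl).range
      (Poly.decide_lt (Poly.snd Poly.id) (ht.comp (Poly.fst Poly.id)))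
  have h2 : Poly (fun a => ((List.range (l a).length).filter (fun i => decide (i < t a))).map
      (fun i => (l a).getD i 0)) :=
    Poly.map (F := fun a i => (l a).getD i 0) h1
      (Poly.getD (hl.comp (Poly.fst Poly.id)) (Poly.snd Poly.id) (Poly.const 0))
  exact (Poly.sum h2).congr fun a => (start_sum _ _).symm

theorem poly_w2 {x y : α → ℕ} (hx : Poly x) (hy : Poly y) : Poly (fun a => [x a, y a]) :=
  Poly.cons hx (Poly.cons hy (Poly.const []))

theorem poly_wordsOf {s L : α → ℕ} (hs : Poly s) (hL : UPoly L) :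
    Poly (fun a => wordsOf (s a) (L a)) := by
  have hs' : Poly (fun p : α × ℕ => s p.1) := hs.comp (Poly.fst Poly.id)
  have hL' : Poly (fun p : α × ℕ => L p.1) := hL.toPoly.comp (Poly.fst Poly.id)
  have hc : Poly (fun p : α × ℕ => p.2) := Poly.snd Poly.id
  have e1 : Poly (fun p : α × ℕ => 2 * (s p.1 + p.2)) := Poly.mul (Poly.const 2) (Poly.add hs' hc)
  have e2 : Poly (fun p : α × ℕ => 2 * (s p.1 + (p.2 + 1))) :=
    Poly.mul (Poly.const 2) (Poly.add hs' (Poly.add hc (Poly.const 1)))
  have a1 := fun m : ℕ => Poly.add e1 (Poly.const m)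
  have a2 := fun m : ℕ => Poly.add e2 (Poly.const m)
  unfold wordsOf
  refine Poly.append ?_ ?_
  · exact Poly.map (F := fun a c => [2 * (s a + c), 2 * (s a + c) + 1]) hL.range
      (poly_w2 e1 (a1 1))
  · refine Poly.flatMap (F := fun a c => if c + 1 < L a then
      [[2 * (s a + c) + 0, 2 * (s a + (c + 1)) + 0], [2 * (s a + c) + 0, 2 * (s a + (c + 1)) + 1],
        [2 * (s a + c) + 1, 2 * (s a + (c + 1)) + 0], [2 * (s a + c) + 1, 2 * (s a + (c + 1)) + 1]]
      else []) hL.range ?_
    refine Poly.ite (Poly.decide_lt (Poly.add hc (Poly.const 1)) hL') ?_ (Poly.const [])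
    exact Poly.cons (poly_w2 (a1 0) (a2 0)) (Poly.cons (poly_w2 (a1 0) (a2 1))
      (Poly.cons (poly_w2 (a1 1) (a2 0)) (Poly.cons (poly_w2 (a1 1) (a2 1)) (Poly.const []))))

theorem poly_words {n : α → ℕ} {l : α → List ℕ} (hn : UPoly n) (hl : Poly l) :
    Poly (fun a => words (n a) (l a)) := by
  unfold words
  refine Poly.flatMap (F := fun a t => wordsOf (start (l a) t) (min ((l a).getD t 0) (n a)))
    (UPoly.length hl).range ?_
  have hl' : Poly (fun p : α × ℕ => l p.1) := hl.comp (Poly.fst Poly.id)
  have ht : Poly (fun p : α × ℕ => p.2) := Poly.snd Poly.id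
  have hn' : UPoly (fun p : α × ℕ => n p.1) := hn.comp (Poly.fst Poly.id)
  refine poly_wordsOf (s := fun p : α × ℕ => start (l p.1) p.2)
    (L := fun p : α × ℕ => min ((l p.1).getD p.2 0) (n p.1)) (poly_start hl' ht) ?_
  exact UPoly.of_le (Poly.min (Poly.getD hl' ht (Poly.const 0)) hn'.toPoly) hn'
    (fun _ => Nat.min_le_right _ _)

end

theorem u_sc : UPoly (fun I : List ℕ × List ℕ => sc I.2) :=
  UPoly.add (UPoly.mul (UPoly.const 2) (UPoly.length (Poly.snd Poly.id))) (UPoly.const 1)

theorem u_hf : UPoly (fun I : List ℕ × List ℕ => hf I.2 (SF I)) :=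
  UPoly.add (UPoly.add (UPoly.mul u_sc upoly_SF)
    (UPoly.mul (UPoly.const 2) (UPoly.length (Poly.snd Poly.id)))) (UPoly.const 1)

theorem u_nF : UPoly nF := UPoly.mul (UPoly.const 2) u_hf

theorem poly_strips : Poly (fun I : List ℕ × List ℕ => strips I.1 I.2 (SF I)) := by
  have hn := u_nF.toPoly
  have hs := u_sc.toPoly
  have h1 : Poly (fun I : List ℕ × List ℕ => I.1.map (fun a => sc I.2 * a)) :=
    Poly.map (F := fun (I : List ℕ × List ℕ) a => sc I.2 * a) (Poly.fst Poly.id)
      (Poly.mul (hs.comp (Poly.fst Poly.id)) (Poly.snd Poly.id))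
  have h2 : Poly (fun I : List ℕ × List ℕ => I.2.map (fun a => sc I.2 * a)) :=
    Poly.map (F := fun (I : List ℕ × List ℕ) a => sc I.2 * a) (Poly.snd Poly.id)
      (Poly.mul (hs.comp (Poly.fst Poly.id)) (Poly.snd Poly.id))
  have h3 : Poly (fun I : List ℕ × List ℕ => (I.2.map (fun a => sc I.2 * a)).map
      (fun b => nF I - b)) :=
    Poly.map (F := fun (I : List ℕ × List ℕ) b => nF I - b) h2
      (Poly.sub (hn.comp (Poly.fst Poly.id)) (Poly.snd Poly.id))
  have h4 : UPoly (fun I : List ℕ × List ℕ => hf I.2 (SF I) -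
      (I.2.map (fun a => sc I.2 * a)).length) :=
    UPoly.of_le (Poly.sub u_hf.toPoly (Poly.length h2)) u_hf (fun _ => Nat.sub_le _ _)
  unfold strips Wt
  exact Poly.append h1 (Poly.append h3 (Poly.replicateU h4 hn))

theorem poly_red : Poly red := by
  unfold red
  exact Poly.pair (Poly.replicateU u_nF (Poly.const ())) (poly_words u_nF poly_strips)

theorem hardPr_solve : HardPr Valid Solve :=
  hardPr_UVBP.trans poly_red (fun _ h => (red_correct h).1) (fun _ h => (red_correct h).2)

end Pool.Agent.NPC.V11230.BGR
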