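import Pool.Agent.V11230.BG6

/-!
# Boggle logic puzzles: membership in NP
-/

set_option autoImplicit false

namespace Pool.Agent.NPC.V11230.BGR

open Pool.Agent.V11230.BG Pool.Agent.NPC Pool.Agent.NPC.V11230.TS

/-- test for repetitions -/
def nodupB {β : Type} [DecidableEq β] (d : β) (u : List β) : Bool :=
  (List.range u.length).all (fun i => (List.range u.length).all (fun j =>
    decide (i = j) || !(decide (u.getD i d = u.getD j d))))

theorem nodupB_iff {β : Type} [DecidableEq β] {d : β} {u : List β} :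
    nodupB d u = true ↔ u.Nodup := by
  unfold nodupB
  simp only [List.all_eq_true, List.mem_range, Bool.or_eq_true, decide_eq_true_eq,
    Bool.not_eq_true', decide_eq_false_iff_not]
  rw [List.nodup_iff_injective_getElem]
  constructor
  · intro h i j hij
    rcases h i i.2 j j.2 with h1 | h1
    · exact Fin.ext h1
    · refine absurd ?_ h1
      rw [List.getD_eq_getElem _ _ i.2, List.getD_eq_getElem _ _ j.2]
      exact hij
  · intro h i hi j hj
    by_cases he : i = j
    · exact Or.inl he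
    · right
      rw [List.getD_eq_getElem _ _ hi, List.getD_eq_getElem _ _ hj]
      intro hc
      have := h (a₁ := ⟨i, hi⟩) (a₂ := ⟨j, hj⟩) hc
      exact he (congrArg Fin.val this)

/-- the cells touch -/
def touchB (p q : ℕ × ℕ) : Bool :=
  (decide (p.1 ≤ q.1 + 1) && decide (q.1 ≤ p.1 + 1) && decide (p.2 ≤ q.2 + 1) &&
    decide (q.2 ≤ p.2 + 1)) && !(decide (p = q))

/-- the word is correct and occurs -/
def wordB (n : ℕ) (w : List (ℕ × ℕ)) (u : List ℕ) : Bool :=
  (nodupB 0 u && decide (2 ≤ u.length) && u.all (fun a => decide (a < n * n))) &&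
    (List.range u.length).all (fun i => if i + 1 < u.length then
      touchB (w.getD (u.getD i 0) (0, 0)) (w.getD (u.getD (i + 1) 0) (0, 0)) else true)

/-- the test of the certificate: the list of the cells of the letters -/
def ver (z : Inst × List (ℕ × ℕ)) : Bool :=
  (decide (1 ≤ z.1.1.length) && decide (z.2.length = z.1.1.length * z.1.1.length) &&
    z.2.all (fun p => decide (p.1 < z.1.1.length) && decide (p.2 < z.1.1.length)) &&
      nodupB (0, 0) z.2) &&
    z.1.2.all (fun u => wordB z.1.1.length z.2 u)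

theorem touch_touchB {n : ℕ} {p q : Fin n × Fin n} {p' q' : ℕ × ℕ}
    (hp : p' = ((p.1 : ℕ), (p.2 : ℕ))) (hq : q' = ((q.1 : ℕ), (q.2 : ℕ))) :
    touchB p' q' = true ↔ Touch p q := by
  subst hp hq
  unfold touchB
  rw [touch_iff]
  simp only [Bool.and_eq_true, decide_eq_true_eq, Bool.not_eq_true', decide_eq_false_iff_not,
    Prod.mk.injEq]
  tauto

theorem wordB_iff {n : ℕ} {w : List (ℕ × ℕ)} {u : List ℕ} (B : Board n)
    (hw : ∀ a (ha : a < n * n), w.getD a (0, 0) = (((B ⟨a, ha⟩).1 : ℕ), ((B ⟨a, ha⟩).2 : ℕ))) :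
    wordB n w u = true ↔ IsWord n u ∧ Occurs B u := by
  unfold wordB
  rw [Bool.and_eq_true, Bool.and_eq_true, Bool.and_eq_true, nodupB_iff, decide_eq_true_iff]
  unfold IsWord Occurs
  rw [List.isChain_iff_getElem]
  simp only [List.all_eq_true, decide_eq_true_eq, List.mem_range]
  constructor
  · rintro ⟨⟨⟨h1, h2⟩, h3⟩, h4⟩
    refine ⟨⟨h1, h2, h3⟩, fun i hi => ?_⟩
    have h5 := h4 i (by omega)
    rw [if_pos hi, List.getD_eq_getElem _ _ (by omega : i < u.length),
      List.getD_eq_getElem _ _ hi] at h5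
    have a1 := h3 _ (List.getElem_mem (by omega : i < u.length))
    have a2 := h3 _ (List.getElem_mem hi)
    exact ⟨a1, a2, (touch_touchB (hw _ a1) (hw _ a2)).1 h5⟩
  · rintro ⟨⟨h1, h2, h3⟩, h4⟩
    refine ⟨⟨⟨h1, h2⟩, h3⟩, fun i hi => ?_⟩
    by_cases hi' : i + 1 < u.length
    · obtain ⟨a1, a2, h5⟩ := h4 i hi'
      rw [if_pos hi', List.getD_eq_getElem _ _ hi, List.getD_eq_getElem _ _ hi']
      exact (touch_touchB (hw _ a1) (hw _ a2)).2 h5
    · rw [if_neg hi']

theorem ver_of_solve {I : Inst} (hv : Valid I) (hs : Solve I) :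
    ∃ w : List (ℕ × ℕ), w.length = I.1.length * I.1.length ∧
      (∀ p ∈ w, p.1 < I.1.length ∧ p.2 < I.1.length) ∧ ver (I, w) = true := by
  obtain ⟨B, hB⟩ := hs
  obtain ⟨hn, hW⟩ := hv
  set w : List (ℕ × ℕ) := List.ofFn (fun a : Fin (I.1.length * I.1.length) =>
    (((B a).1 : ℕ), ((B a).2 : ℕ))) with hwd
  have hlen : w.length = I.1.length * I.1.length := by simp [hwd]
  have hget : ∀ a (ha : a < I.1.length * I.1.length), w.getD a (0, 0) =
      (((B ⟨a, ha⟩).1 : ℕ), ((B ⟨a, ha⟩).2 : ℕ)) := by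
    intro a ha
    rw [List.getD_eq_getElem _ _ (by rw [hlen]; exact ha)]
    simp [hwd]
  have hmem : ∀ p ∈ w, p.1 < I.1.length ∧ p.2 < I.1.length := by
    intro p hp
    obtain ⟨a, rfl⟩ := (List.mem_ofFn' _ _).1 hp
    exact ⟨(B a).1.2, (B a).2.2⟩
  have hnd' : w.Nodup := by
    rw [hwd, List.nodup_ofFn]
    intro a b hab
    simp only [Prod.mk.injEq] at hab
    exact B.injective (Prod.ext (Fin.ext hab.1) (Fin.ext hab.2))
  refine ⟨w, hlen, hmem, ?_⟩
  unfold ver
  simp only [Bool.and_eq_true, decide_eq_true_eq, List.all_eq_true]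
  refine ⟨⟨⟨⟨hn, hlen⟩, hmem⟩, nodupB_iff.2 hnd'⟩, fun u hu => ?_⟩
  exact (wordB_iff B hget).2 ⟨hW u hu, hB u hu⟩

theorem solve_of_ver {I : Inst} {w : List (ℕ × ℕ)} (h : ver (I, w) = true) :
    Valid I ∧ Solve I := by
  unfold ver at h
  simp only [Bool.and_eq_true, decide_eq_true_eq, List.all_eq_true] at h
  obtain ⟨⟨⟨⟨hn, hlen⟩, hmem⟩, hnd⟩, hu⟩ := h
  rw [nodupB_iff] at hnd
  have hlt : ∀ a : Fin (I.1.length * I.1.length), (a : ℕ) < w.length := fun a => by
    rw [hlen]
    exact a.2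
  let f : Fin (I.1.length * I.1.length) → Fin I.1.length × Fin I.1.length := fun a =>
    (⟨(w[a.1]'(hlt a)).1, (hmem _ (List.getElem_mem (hlt a))).1⟩,
      ⟨(w[a.1]'(hlt a)).2, (hmem _ (List.getElem_mem (hlt a))).2⟩)
  have hf : Function.Injective f := by
    intro a b hab
    have h1 : w[a.1]'(hlt a) = w[b.1]'(hlt b) :=
      Prod.ext (congrArg Fin.val (congrArg Prod.fst hab))
        (congrArg Fin.val (congrArg Prod.snd hab))
    exact Fin.ext ((List.Nodup.getElem_inj_iff hnd).1 h1)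
  have hbij : Function.Bijective f := by
    rw [Fintype.bijective_iff_injective_and_card]
    exact ⟨hf, by simp⟩
  have hget : ∀ a (ha : a < I.1.length * I.1.length), w.getD a (0, 0) =
      (((Equiv.ofBijective f hbij ⟨a, ha⟩).1 : ℕ), ((Equiv.ofBijective f hbij ⟨a, ha⟩).2 : ℕ)) := by
    intro a ha
    rw [List.getD_eq_getElem _ _ (by rw [hlen]; exact ha)]
    rfl
  exact ⟨⟨hn, fun u hu' => ((wordB_iff _ hget).1 (hu u hu')).1⟩,
    _, fun u hu' => ((wordB_iff _ hget).1 (hu u hu')).2⟩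

section

variable {α : Type} [TEnc α]

theorem poly_nodupB {β : Type} [TEnc β] [DecidableEq β] {d : β} {u : α → List β} (hu : Poly u) :
    Poly (fun a => nodupB d (u a)) := by
  unfold nodupB
  refine Poly.all (p := fun a i => (List.range (u a).length).all (fun j =>
    decide (i = j) || !(decide ((u a).getD i d = (u a).getD j d)))) (UPoly.length hu).range ?_
  refine Poly.all (p := fun (q : α × ℕ) j => decide (q.2 = j) ||
    !(decide ((u q.1).getD q.2 d = (u q.1).getD j d)))
    (UPoly.length (hu.comp (Poly.fst Poly.id))).range ?_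
  have hi : Poly (fun q : (α × ℕ) × ℕ => q.1.2) := Poly.snd (Poly.fst Poly.id)
  have hj : Poly (fun q : (α × ℕ) × ℕ => q.2) := Poly.snd Poly.id
  have hu' : Poly (fun q : (α × ℕ) × ℕ => u q.1.1) := hu.comp (Poly.fst (Poly.fst Poly.id))
  exact Poly.or (Poly.decide_eq hi hj) (Poly.not (Poly.decide_eq
    (Poly.getD hu' hi (Poly.const d)) (Poly.getD hu' hj (Poly.const d))))

theorem poly_touchB {p q : α → ℕ × ℕ} (hp : Poly p) (hq : Poly q) :
    Poly (fun a => touchB (p a) (q a)) := by
  unfold touchB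
  have p1 := Poly.fst hp
  have p2 := Poly.snd hp
  have q1 := Poly.fst hq
  have q2 := Poly.snd hq
  exact Poly.and (Poly.and (Poly.and (Poly.and
    (Poly.decide_le p1 (Poly.add q1 (Poly.const 1))) (Poly.decide_le q1 (Poly.add p1
    (Poly.const 1)))) (Poly.decide_le p2 (Poly.add q2 (Poly.const 1))))
    (Poly.decide_le q2 (Poly.add p2 (Poly.const 1)))) (Poly.not (Poly.decide_eq hp hq))

theorem poly_wordB {n : α → ℕ} {w : α → List (ℕ × ℕ)} {u : α → List ℕ} (hn : Poly n)
    (hw : Poly w) (hu : Poly u) : Poly (fun a => wordB (n a) (w a) (u a)) := by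
  unfold wordB
  refine Poly.and (Poly.and (Poly.and (poly_nodupB hu) (Poly.decide_le (Poly.const 2)
    (Poly.length hu))) ?_) ?_
  · have hn' : Poly (fun q : α × ℕ => n q.1) := hn.comp (Poly.fst Poly.id)
    exact Poly.all (p := fun a x => decide (x < n a * n a)) hu
      (Poly.decide_lt (Poly.snd Poly.id) (Poly.mul hn' hn'))
  · refine Poly.all (p := fun a i => if i + 1 < (u a).length then
      touchB ((w a).getD ((u a).getD i 0) (0, 0)) ((w a).getD ((u a).getD (i + 1) 0) (0, 0))
      else true) (UPoly.length hu).range ?_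
    have hi : Poly (fun q : α × ℕ => q.2) := Poly.snd Poly.id
    have hi1 : Poly (fun q : α × ℕ => q.2 + 1) := Poly.add hi (Poly.const 1)
    have hu' : Poly (fun q : α × ℕ => u q.1) := hu.comp (Poly.fst Poly.id)
    have hw' : Poly (fun q : α × ℕ => w q.1) := hw.comp (Poly.fst Poly.id)
    exact Poly.ite (Poly.decide_lt hi1 (Poly.length hu'))
      (poly_touchB (Poly.getD hw' (Poly.getD hu' hi (Poly.const 0)) (Poly.const (0, 0)))
        (Poly.getD hw' (Poly.getD hu' hi1 (Poly.const 0)) (Poly.const (0, 0)))) (Poly.const true)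

end

theorem poly_ver : Poly ver := by
  have hz : Poly (fun z : Inst × List (ℕ × ℕ) => z) := Poly.id
  have hw := Poly.snd hz
  have hn : Poly (fun z : Inst × List (ℕ × ℕ) => z.1.1.length) :=
    Poly.length (Poly.fst (Poly.fst hz))
  have hP : Poly (fun z : Inst × List (ℕ × ℕ) => z.1.2) := Poly.snd (Poly.fst hz)
  unfold ver
  refine Poly.and (Poly.and (Poly.and (Poly.and (Poly.decide_le (Poly.const 1) hn)
    (Poly.decide_eq (Poly.length hw) (Poly.mul hn hn))) ?_) (poly_nodupB hw)) ?_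
  · have hn' : Poly (fun q : (Inst × List (ℕ × ℕ)) × (ℕ × ℕ) => q.1.1.1.length) :=
      hn.comp (Poly.fst Poly.id)
    have hp : Poly (fun q : (Inst × List (ℕ × ℕ)) × (ℕ × ℕ) => q.2) := Poly.snd Poly.id
    exact Poly.all (p := fun (z : Inst × List (ℕ × ℕ)) (p : ℕ × ℕ) =>
      decide (p.1 < z.1.1.length) && decide (p.2 < z.1.1.length)) hw
      (Poly.and (Poly.decide_lt (Poly.fst hp) hn') (Poly.decide_lt (Poly.snd hp) hn'))
  · exact Poly.all (p := fun (z : Inst × List (ℕ × ℕ)) (u : List ℕ) =>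
      wordB z.1.1.length z.2 u) hP
      (poly_wordB (hn.comp (Poly.fst Poly.id)) (hw.comp (Poly.fst Poly.id)) (Poly.snd Poly.id))

theorem poly_eq_true : Poly (fun y : List Bool => decide (y = [true])) :=
  Poly.decide_eq Poly.id (Poly.const [true])

/-- BOGGLE-SOLVE is in NP. -/
theorem inNP_solve : InNPP (fun I : Inst => Valid I ∧ Solve I) := by
  refine inNPP_of (β := List (ℕ × ℕ)) poly_ver
    (Polynomial.X * Polynomial.X * (Polynomial.C 8 * Polynomial.X + Polynomial.C 5) +
      Polynomial.C 1) (fun I => ⟨?_, ?_⟩)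
  · rintro ⟨hv, hs⟩
    obtain ⟨w, hlen, hmem, hver⟩ := ver_of_solve hv hs
    refine ⟨w, ?_, hver⟩
    have hnI : I.1.length ≤ sz I := by
      have h1 := length_lt_sz I.1
      have h2 : sz I = sz I.1 + sz I.2 + 1 := sz_pair _ _
      omega
    have hB : ∀ p ∈ w, sz p ≤ 8 * I.1.length + 3 := by
      rintro ⟨x, y⟩ hp
      obtain ⟨hx, hy⟩ := hmem _ hp
      rw [sz_pair]
      have h1 := sz_nat_le x
      have h2 := sz_nat_le y
      have h3 : x.size ≤ x := Nat.size_le.2 Nat.lt_two_pow_self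
      have h4 : y.size ≤ y := Nat.size_le.2 Nat.lt_two_pow_self
      simp only at hx hy
      omega
    have h1 := sz_le_length_mul w _ hB
    rw [hlen] at h1
    simp only [Polynomial.eval_add, Polynomial.eval_mul, Polynomial.eval_C, Polynomial.eval_X]
    refine h1.trans ?_
    have h2 : I.1.length * I.1.length * (8 * I.1.length + 3 + 1) ≤
        sz I * sz I * (8 * sz I + 5) :=
      Nat.mul_le_mul (Nat.mul_le_mul hnI hnI) (by omega)
    omega
  · rintro ⟨w, _, hw⟩
    exact solve_of_ver hw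

end Pool.Agent.NPC.V11230.BGR
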