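import Mathlib

/-!
# Clickomania: definitions and groups of a colour
-/

set_option autoImplicit false

namespace Pool.Agent.V11230.CK

open Classical

/-- A board: the list of the columns, each column being the list of the colours of its tiles from
the bottom to the top. -/
abbrev Board : Type := List (List ℕ)

/-- the colour of the tile at the position `p` (column, height), if there is one -/
def colour (B : Board) (p : ℕ × ℕ) : Option ℕ := (B.getD p.1 [])[p.2]?

/-- horizontal or vertical neighbours -/
def Adj (p q : ℕ × ℕ) : Prop :=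
  (p.1 = q.1 ∧ (p.2 = q.2 + 1 ∨ q.2 = p.2 + 1)) ∨ (p.2 = q.2 ∧ (p.1 = q.1 + 1 ∨ q.1 = p.1 + 1))

/-- neighbouring tiles of the same colour -/
def Link (B : Board) (p q : ℕ × ℕ) : Prop :=
  Adj p q ∧ (colour B p).isSome ∧ colour B p = colour B q

/-- the group of the tile at `p` -/
def group (B : Board) (p : ℕ × ℕ) : Set (ℕ × ℕ) := {q | Relation.ReflTransGen (Link B) p q}

/-- the column `i` with the tiles `c`, after the removal of the tiles in `g` -/
noncomputable def removeCol (g : Set (ℕ × ℕ)) (i : ℕ) (c : List ℕ) : List ℕ :=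
  ((c.zipIdx).filter (fun x => decide ((i, x.2) ∉ g))).map Prod.fst

/-- the board after the removal of the tiles in `g`: the tiles fall down, and the empty columns are
deleted -/
noncomputable def remove (g : Set (ℕ × ℕ)) (B : Board) : Board :=
  (B.mapIdx (removeCol g)).filter (fun c => decide (c ≠ []))

/-- A click: a group with at least two tiles is removed. -/
def Click (B B' : Board) : Prop :=
  ∃ p, (colour B p).isSome ∧ (∃ q ∈ group B p, q ≠ p) ∧ B' = remove (group B p) B

/-- `k` clicks lead from one board to another -/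
inductive Clicks : ℕ → Board → Board → Prop
  | nil (B : Board) : Clicks 0 B B
  | cons {k : ℕ} {B B' B'' : Board} : Click B B' → Clicks k B' B'' → Clicks (k + 1) B B''

/-- the number of the tiles -/
def tiles (B : Board) : ℕ := (B.map List.length).sum

/-- **k-Click Score-Variant Clickomania**: at most `k` clicks can remove more than `S` tiles. -/
def Score (B : Board) (k S : ℕ) : Prop :=
  ∃ k' ≤ k, ∃ B', Clicks k' B B' ∧ S + tiles B' < tiles B

/-! ### Groups -/

theorem Adj.symm {p q : ℕ × ℕ} (h : Adj p q) : Adj q p := by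
  unfold Adj at h ⊢
  omega

theorem Link.symm {B : Board} {p q : ℕ × ℕ} (h : Link B p q) : Link B q p :=
  ⟨h.1.symm, h.2.2 ▸ h.2.1, h.2.2.symm⟩

theorem colour_eq {B : Board} {p q : ℕ × ℕ} (h : q ∈ group B p) : colour B q = colour B p := by
  induction h with
  | refl => rfl
  | tail _ h2 ih => exact h2.2.2.symm.trans ih

theorem getElem_mid {X Y : List ℕ} {a t j : ℕ} (hX : a ∉ X) (hY : a ∉ Y) :
    (X ++ (List.replicate t a ++ Y))[j]? = some a ↔ X.length ≤ j ∧ j < X.length + t := by
  rw [List.getElem?_append]
  split_ifs with h1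
  · constructor
    · intro h
      exact absurd (List.mem_of_getElem? h) hX
    · intro h
      omega
  · rw [List.getElem?_append, List.length_replicate]
    split_ifs with h2
    · rw [List.getElem?_replicate, if_pos h2]
      constructor
      · intro _
        omega
      · intro _
        rfl
    · constructor
      · intro h
        exact absurd (List.mem_of_getElem? h) hY
      · intro h
        omega

theorem filter_zipIdx_self {g : Set (ℕ × ℕ)} {i : ℕ} : ∀ (c : List ℕ) (k : ℕ),
    (∀ j, k ≤ j → j < k + c.length → (i, j) ∉ g) →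
      (((c.zipIdx k).filter (fun x => decide ((i, x.2) ∉ g))).map Prod.fst) = c
  | [], k, _ => rfl
  | a :: c, k, h => by
    rw [List.zipIdx_cons, List.filter_cons, if_pos, List.map_cons,
      filter_zipIdx_self c (k + 1) (fun j h1 h2 => h j (by omega) (by
        rw [List.length_cons]
        omega))]
    exact decide_eq_true (h k le_rfl (by rw [List.length_cons]; omega))

theorem filter_zipIdx_nil {g : Set (ℕ × ℕ)} {i : ℕ} : ∀ (c : List ℕ) (k : ℕ),
    (∀ j, k ≤ j → j < k + c.length → (i, j) ∈ g) →
      (((c.zipIdx k).filter (fun x => decide ((i, x.2) ∉ g))).map Prod.fst) = []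
  | [], k, _ => rfl
  | a :: c, k, h => by
    rw [List.zipIdx_cons, List.filter_cons, if_neg,
      filter_zipIdx_nil c (k + 1) (fun j h1 h2 => h j (by omega) (by
        rw [List.length_cons]
        omega))]
    have := h k le_rfl (by rw [List.length_cons]; omega)
    simp [this]

theorem removeCol_self {g : Set (ℕ × ℕ)} {i : ℕ} {c : List ℕ}
    (h : ∀ j < c.length, (i, j) ∉ g) : removeCol g i c = c :=
  filter_zipIdx_self c 0 (fun j _ h2 => h j (by omega))

theorem removeCol_mid {g : Set (ℕ × ℕ)} {i : ℕ} {X Y : List ℕ} {a t : ℕ}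
    (h : ∀ j, (i, j) ∈ g ↔ X.length ≤ j ∧ j < X.length + t) :
    removeCol g i (X ++ (List.replicate t a ++ Y)) = X ++ Y := by
  unfold removeCol
  rw [List.zipIdx_append, List.zipIdx_append, List.filter_append, List.filter_append,
    List.map_append, List.map_append, filter_zipIdx_self X, filter_zipIdx_nil, filter_zipIdx_self Y]
  · rfl
  · intro j h1 h2 h3
    rw [h] at h3
    rw [List.length_replicate] at h1
    omega
  · intro j h1 h2
    rw [h]
    rw [List.length_replicate] at h2
    omega
  · intro j h1 h2 h3
    rw [h] at h3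
    omega

/-! ### Boards in which the tiles of a colour form intervals -/

section

variable {m a : ℕ} {X Y : ℕ → List ℕ} {t : ℕ → ℕ}

/-- the board -/
def bd (m a : ℕ) (X Y : ℕ → List ℕ) (t : ℕ → ℕ) : Board :=
  (List.range m).map (fun i => X i ++ (List.replicate (t i) a ++ Y i))

theorem colour_bd (p : ℕ × ℕ) : colour (bd m a X Y t) p =
    if p.1 < m then (X p.1 ++ (List.replicate (t p.1) a ++ Y p.1))[p.2]? else none := by
  unfold colour bd
  by_cases h : p.1 < m
  · rw [if_pos h, List.getD_eq_getElem _ _ (by simpa using h)]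
    simp
  · rw [if_neg h, List.getD_eq_default _ _ (by simpa using h)]
    simp

variable (hX : ∀ i < m, a ∉ X i) (hY : ∀ i < m, a ∉ Y i)
include hX hY

theorem colour_bd_iff (p : ℕ × ℕ) : colour (bd m a X Y t) p = some a ↔
    p.1 < m ∧ (X p.1).length ≤ p.2 ∧ p.2 < (X p.1).length + t p.1 := by
  rw [colour_bd]
  by_cases h : p.1 < m
  · rw [if_pos h, getElem_mid (hX _ h) (hY _ h)]
    exact ⟨fun h' => ⟨h, h'⟩, fun h' => h'.2⟩
  · rw [if_neg h]
    constructor
    · intro h'
      cases h'
    · intro h'
      exact absurd h'.1 h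

/-- two tiles of the colour in the same column are connected -/
theorem conn_col {i : ℕ} {p : ℕ × ℕ} (hi : i < m) : ∀ (d j : ℕ), (X i).length ≤ j →
    j + d < (X i).length + t i →
    ((i, j) ∈ group (bd m a X Y t) p ↔ (i, j + d) ∈ group (bd m a X Y t) p)
  | 0, j, _, _ => Iff.rfl
  | d + 1, j, h1, h2 => by
    rw [conn_col hi d j h1 (by omega)]
    have hl : Link (bd m a X Y t) (i, j + d) (i, j + (d + 1)) := by
      have e1 := (colour_bd_iff hX hY (t := t) (i, j + d)).2 ⟨hi, by
        dsimp only
        omega, by
        dsimp only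
        omega⟩
      have e2 := (colour_bd_iff hX hY (t := t) (i, j + (d + 1))).2 ⟨hi, by
        dsimp only
        omega, h2⟩
      refine ⟨Or.inl ⟨rfl, Or.inr ?_⟩, ?_, ?_⟩
      · dsimp only
        omega
      · rw [e1]
        rfl
      · rw [e1, e2]
    exact ⟨fun h => Relation.ReflTransGen.tail h hl,
      fun h => Relation.ReflTransGen.tail h hl.symm⟩

theorem conn_col' {i j j' : ℕ} {p : ℕ × ℕ} (hi : i < m) (h1 : (X i).length ≤ j)
    (h2 : j < (X i).length + t i) (h3 : (X i).length ≤ j') (h4 : j' < (X i).length + t i)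
    (h : (i, j) ∈ group (bd m a X Y t) p) : (i, j') ∈ group (bd m a X Y t) p := by
  rcases Nat.le_total j j' with hle | hle
  · have := (conn_col hX hY hi (j' - j) j h1 (by omega) (t := t) (p := p)).1 h
    rwa [Nat.add_sub_cancel' hle] at this
  · refine (conn_col hX hY hi (j - j') j' h3 (by omega) (t := t) (p := p)).2 ?_
    rwa [Nat.add_sub_cancel' hle]

/-- the group of a tile of the colour `a` -/
theorem mem_group {p q : ℕ × ℕ} (hp : colour (bd m a X Y t) p = some a)
    (h : q ∈ group (bd m a X Y t) p) :
    q.1 < m ∧ (X q.1).length ≤ q.2 ∧ q.2 < (X q.1).length + t q.1 :=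
  (colour_bd_iff hX hY q).1 ((colour_eq h).trans hp)

/-- **Removal of a group.** -/
theorem remove_group {p : ℕ × ℕ} (hp : colour (bd m a X Y t) p = some a)
    (hne : ∀ i < m, X i ++ Y i ≠ []) :
    remove (group (bd m a X Y t) p) (bd m a X Y t) = (List.range m).map (fun i =>
      if ∃ j, (i, j) ∈ group (bd m a X Y t) p then X i ++ Y i
      else X i ++ (List.replicate (t i) a ++ Y i)) := by
  unfold remove
  rw [List.filter_eq_self.2]
  · apply List.ext_getElem
    · simp [bd]
    · intro i h1 h2
      have hi : i < m := by simpa [bd] using h1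
      rw [List.getElem_mapIdx, List.getElem_map, List.getElem_range]
      have e : (bd m a X Y t)[i]'(by simpa [bd] using hi) =
          X i ++ (List.replicate (t i) a ++ Y i) := by
        simp [bd]
      rw [e]
      split_ifs with h
      · obtain ⟨j, hj⟩ := h
        refine removeCol_mid fun j' => ?_
        have hj1 := mem_group hX hY hp hj
        constructor
        · intro h'
          exact (mem_group hX hY hp h').2
        · intro h'
          exact conn_col' hX hY hi hj1.2.1 hj1.2.2 h'.1 h'.2 hj
      · refine removeCol_self fun j _ hj => h ⟨j, hj⟩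
  · intro c hc
    rw [List.mem_mapIdx] at hc
    obtain ⟨i, hi, rfl⟩ := hc
    have hi' : i < m := by simpa [bd] using hi
    have e : (bd m a X Y t)[i]'(by simpa [bd] using hi') =
        X i ++ (List.replicate (t i) a ++ Y i) := by
      simp [bd]
    rw [e, decide_eq_true_eq]
    have hne' := hne i hi'
    by_cases h : ∃ j, (i, j) ∈ group (bd m a X Y t) p
    · obtain ⟨j, hj⟩ := h
      have hj1 := mem_group hX hY hp hj
      rw [removeCol_mid (fun j' => ⟨fun h' => (mem_group hX hY hp h').2, fun h' =>
        conn_col' hX hY hi' hj1.2.1 hj1.2.2 h'.1 h'.2 hj⟩)]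
      exact hne'
    · rw [removeCol_self (fun j _ hj => h ⟨j, hj⟩)]
      intro h0
      apply hne'
      rw [List.append_eq_nil_iff] at h0 ⊢
      exact ⟨h0.1, (List.append_eq_nil_iff.1 h0.2).2⟩

/-- if a row meets all intervals then all tiles of the colour form a group -/
theorem group_row {p : ℕ × ℕ} {y : ℕ} (hp : colour (bd m a X Y t) p = some a)
    (hy : ∀ i < m, (X i).length ≤ y ∧ y < (X i).length + t i) {i : ℕ} (hi : i < m) :
    (i, y) ∈ group (bd m a X Y t) p := by
  have hp' := (colour_bd_iff hX hY p).1 hp
  have h0 : (p.1, y) ∈ group (bd m a X Y t) p := by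
    refine conn_col' hX hY hp'.1 hp'.2.1 hp'.2.2 (hy _ hp'.1).1 (hy _ hp'.1).2 ?_
    exact Relation.ReflTransGen.refl
  have hl : ∀ i, i + 1 < m → Link (bd m a X Y t) (i, y) (i + 1, y) := by
    intro i hi
    have e1 := (colour_bd_iff hX hY (t := t) (i, y)).2 ⟨by dsimp only; omega, hy i (by omega)⟩
    have e2 := (colour_bd_iff hX hY (t := t) (i + 1, y)).2 ⟨hi, hy (i + 1) hi⟩
    refine ⟨Or.inr ⟨rfl, Or.inr rfl⟩, ?_, ?_⟩
    · rw [e1]
      rfl
    · rw [e1, e2]
  have h1 : ∀ i, i < m → ((i, y) ∈ group (bd m a X Y t) p ↔ (0, y) ∈ group (bd m a X Y t) p) := by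
    intro i
    induction i with
    | zero => intro _; exact Iff.rfl
    | succ i ih =>
      intro hi
      rw [← ih (by omega)]
      exact ⟨fun h => Relation.ReflTransGen.tail h (hl i hi).symm,
        fun h => Relation.ReflTransGen.tail h (hl i hi)⟩
  exact (h1 i hi).2 ((h1 _ hp'.1).1 h0)

end

end Pool.Agent.V11230.CK
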