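import Pool.Agent.V11230.CK1

/-!
# Clickomania: the boards of the reduction from Dominating Set
-/

set_option autoImplicit false

namespace Pool.Agent.V11230.CK

open Finset

/-- is the column `c` the column of a vertex dominated by `u` -/
def ex (dm : ℕ → ℕ → Bool) (u c : ℕ) : ℕ := if c % 2 = 1 ∧ dm u (c / 2) = true then 1 else 0

/-- a bound on the number of the tiles in the layers -/
def Wt (n : ℕ) : ℕ := (2 * n + 1) * (n * (n + 3))

/-- the height of the red blocks -/
def Ht (n : ℕ) : ℕ := 2 * Wt n + (n + 2)

/-- the layers that are left -/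
def lft (n : ℕ) (U : Finset ℕ) : List ℕ := (List.range n).filter (fun u => decide (u ∉ U))

/-- the tiles of the layers in `L` -/
def lay (n : ℕ) (dm : ℕ → ℕ → Bool) (L : List ℕ) (c : ℕ) : List ℕ :=
  L.flatMap (fun u => List.replicate (n + 2 + ex dm u c) u)

/-- the number of the vertices that dominate the vertex of the column `c` -/
def tot (n : ℕ) (dm : ℕ → ℕ → Bool) (c : ℕ) : ℕ := ((List.range n).map (fun u => ex dm u c)).sum

/-- the number of the neutral tiles in the column `c` -/
def spLen (n : ℕ) (dm : ℕ → ℕ → Bool) (c : ℕ) : ℕ :=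
  if c % 2 = 1 then 1 + Ht n - tot n dm c else 1

/-- the colour of a neutral tile -/
def fil (n c i : ℕ) : ℕ := n + 1 + (i * (2 * n + 1) + c)

/-- the neutral tiles -/
def sp (n : ℕ) (dm : ℕ → ℕ → Bool) (c : ℕ) : List ℕ := (List.range (spLen n dm c)).map (fil n c)

/-- the number of the red tiles -/
def rt (n : ℕ) (Q : Finset ℕ) (c : ℕ) : ℕ := if c ∈ Q then 0 else Ht n

/-- the board after the removal of the layers of `U` and of the red blocks of `Q` -/
def st (n : ℕ) (dm : ℕ → ℕ → Bool) (U Q : Finset ℕ) : Board :=
  (List.range (2 * n + 1)).map (fun c => lay n dm (lft n U) c ++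
    (sp n dm c ++ List.replicate (rt n Q c) n))

variable {n : ℕ} {dm : ℕ → ℕ → Bool} {U Q : Finset ℕ}

theorem ex_le (u c : ℕ) : ex dm u c ≤ 1 := by
  unfold ex
  split_ifs <;> omega

theorem ex_even {u c : ℕ} (h : c % 2 = 0) : ex dm u c = 0 := by
  unfold ex
  rw [if_neg (by omega)]

theorem length_lay (L : List ℕ) (c : ℕ) :
    (lay n dm L c).length = L.length * (n + 2) + (L.map (fun u => ex dm u c)).sum := by
  unfold lay
  induction L with
  | nil => simp
  | cons u L ih =>
    rw [List.flatMap_cons, List.length_append, ih, List.length_replicate, List.map_cons,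
      List.sum_cons, List.length_cons]
    ring

theorem sum_ex_le (L : List ℕ) (c : ℕ) : (L.map (fun u => ex dm u c)).sum ≤ L.length := by
  induction L with
  | nil => simp
  | cons u L ih =>
    rw [List.map_cons, List.sum_cons, List.length_cons]
    have := ex_le (dm := dm) u c
    omega

theorem sum_ex_even (L : List ℕ) {c : ℕ} (h : c % 2 = 0) :
    (L.map (fun u => ex dm u c)).sum = 0 := by
  induction L with
  | nil => simp
  | cons u L ih => rw [List.map_cons, List.sum_cons, ih, ex_even h]

theorem lay_append (L L' : List ℕ) (c : ℕ) :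
    lay n dm (L ++ L') c = lay n dm L c ++ lay n dm L' c := by
  unfold lay
  rw [List.flatMap_append]

theorem lay_cons (u : ℕ) (L : List ℕ) (c : ℕ) :
    lay n dm (u :: L) c = List.replicate (n + 2 + ex dm u c) u ++ lay n dm L c := by
  unfold lay
  rw [List.flatMap_cons]

theorem mem_lay {L : List ℕ} {c a : ℕ} (h : a ∈ lay n dm L c) : a ∈ L := by
  unfold lay at h
  rw [List.mem_flatMap] at h
  obtain ⟨u, hu, h'⟩ := h
  rw [List.mem_replicate] at h'
  rw [h'.2]
  exact hu

theorem mem_sp {c a : ℕ} (h : a ∈ sp n dm c) : n < a := by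
  unfold sp at h
  rw [List.mem_map] at h
  obtain ⟨i, _, rfl⟩ := h
  unfold fil
  omega

theorem mem_lft {u : ℕ} : u ∈ lft n U ↔ u < n ∧ u ∉ U := by
  unfold lft
  simp

theorem nodup_lft : (lft n U).Nodup := List.Nodup.filter _ List.nodup_range

theorem length_lft_le : (lft n U).length ≤ n := by
  unfold lft
  refine (List.length_filter_le _ _).trans ?_
  rw [List.length_range]

theorem tot_le (c : ℕ) : tot n dm c ≤ n := by
  unfold tot
  refine (sum_ex_le _ _).trans ?_
  rw [List.length_range]

theorem spLen_pos (c : ℕ) : 1 ≤ spLen n dm c := by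
  unfold spLen
  have := tot_le (n := n) (dm := dm) c
  have : n ≤ Ht n := by
    unfold Ht
    omega
  split_ifs <;> omega

theorem sp_ne_nil (c : ℕ) : sp n dm c ≠ [] := by
  intro h
  have h1 := congrArg List.length h
  unfold sp at h1
  rw [List.length_map, List.length_range, List.length_nil] at h1
  have := spLen_pos (n := n) (dm := dm) c
  omega

theorem length_sp (c : ℕ) : (sp n dm c).length = spLen n dm c := by
  unfold sp
  rw [List.length_map, List.length_range]

/-! ### Layers -/

theorem lft_insert {v : ℕ} {L1 L2 : List ℕ} (h : lft n U = L1 ++ v :: L2) :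
    lft n (insert v U) = L1 ++ L2 := by
  have h1 : lft n (insert v U) = (lft n U).filter (fun u => decide (u ≠ v)) := by
    unfold lft
    rw [List.filter_filter]
    refine List.filter_congr fun u _ => ?_
    rw [← Bool.decide_and, decide_eq_decide, Finset.mem_insert]
    tauto
  have hnd := nodup_lft (n := n) (U := U)
  rw [h] at hnd
  rw [h1, h, List.filter_append, List.filter_cons, if_neg (by simp)]
  rw [List.nodup_append, List.nodup_cons] at hnd
  rw [List.filter_eq_self.2, List.filter_eq_self.2]
  · intro a ha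
    rw [decide_eq_true_eq]
    rintro rfl
    exact hnd.2.1.1 ha
  · intro a ha
    rw [decide_eq_true_eq]
    rintro rfl
    exact hnd.2.2 a ha a List.mem_cons_self rfl

/-- the board and a layer -/
theorem st_layer {v : ℕ} {L1 L2 : List ℕ} (h : lft n U = L1 ++ v :: L2) :
    st n dm U Q = bd (2 * n + 1) v (fun c => lay n dm L1 c)
      (fun c => lay n dm L2 c ++ (sp n dm c ++ List.replicate (rt n Q c) n))
      (fun c => n + 2 + ex dm v c) := by
  unfold st bd
  refine List.map_congr_left fun c _ => ?_
  rw [h, lay_append, lay_cons]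
  simp only [List.append_assoc]

/-- **A click on a layer.** -/
theorem remove_layer {v : ℕ} (hv : v ∈ lft n U) {p : ℕ × ℕ}
    (hp : colour (st n dm U Q) p = some v) :
    remove (group (st n dm U Q) p) (st n dm U Q) = st n dm (insert v U) Q := by
  obtain ⟨L1, L2, h⟩ := List.append_of_mem hv
  have hnd := nodup_lft (n := n) (U := U)
  have hlt : ∀ u ∈ lft n U, u < n := fun u hu => (mem_lft.1 hu).1
  have hle : L1.length ≤ n := by
    have := length_lft_le (n := n) (U := U)
    rw [h, List.length_append, List.length_cons] at this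
    omega
  rw [h, List.nodup_append, List.nodup_cons] at hnd
  rw [st_layer h] at hp ⊢
  have hX : ∀ i < 2 * n + 1, v ∉ lay n dm L1 i := fun i _ hc =>
    hnd.2.2 v (mem_lay hc) v List.mem_cons_self rfl
  have hvn := hlt v hv
  have hY : ∀ i < 2 * n + 1, v ∉ lay n dm L2 i ++
      (sp n dm i ++ List.replicate (rt n Q i) n) := by
    intro i _ hc
    rw [List.mem_append, List.mem_append] at hc
    rcases hc with hc | hc | hc
    · exact hnd.2.1.1 (mem_lay hc)
    · have := mem_sp hc
      omega
    · have := (List.mem_replicate.1 hc).2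
      omega
  rw [remove_group hX hY hp (by
    intro i _
    rw [← List.append_assoc, ← List.append_assoc]
    have := sp_ne_nil (n := n) (dm := dm) i
    simp [this])]
  unfold st
  refine List.map_congr_left fun c hc => ?_
  rw [if_pos, lft_insert h, lay_append, List.append_assoc]
  refine ⟨L1.length * (n + 2) + n, group_row hX hY hp (fun i _ => ?_) (List.mem_range.1 hc)⟩
  rw [length_lay]
  have := sum_ex_le (dm := dm) L1 i
  omega

/-- the click exists -/
theorem click_layer {v : ℕ} (hv : v ∈ lft n U) : Click (st n dm U Q) (st n dm (insert v U) Q) := by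
  obtain ⟨L1, L2, h⟩ := List.append_of_mem hv
  have hnd := nodup_lft (n := n) (U := U)
  have hlt : ∀ u ∈ lft n U, u < n := fun u hu => (mem_lft.1 hu).1
  rw [h, List.nodup_append, List.nodup_cons] at hnd
  have hX : ∀ i < 2 * n + 1, v ∉ lay n dm L1 i := fun i _ hc =>
    hnd.2.2 v (mem_lay hc) v List.mem_cons_self rfl
  have hvn := hlt v hv
  have hY : ∀ i < 2 * n + 1, v ∉ lay n dm L2 i ++
      (sp n dm i ++ List.replicate (rt n Q i) n) := by
    intro i _ hc
    rw [List.mem_append, List.mem_append] at hc
    rcases hc with hc | hc | hc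
    · exact hnd.2.1.1 (mem_lay hc)
    · have := mem_sp hc
      omega
    · have := (List.mem_replicate.1 hc).2
      omega
  have hp : colour (st n dm U Q) (0, (lay n dm L1 0).length) = some v := by
    rw [st_layer h]
    refine (colour_bd_iff hX hY _).2 ⟨by dsimp only; omega, le_rfl, ?_⟩
    dsimp only
    omega
  refine ⟨(0, (lay n dm L1 0).length), ?_, ⟨(0, (lay n dm L1 0).length + 1), ?_, ?_⟩,
    (remove_layer hv hp).symm⟩
  · rw [hp]
    rfl
  · rw [st_layer h]
    refine conn_col' hX hY (by omega) le_rfl (by omega) (by omega) (by omega)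
      (Relation.ReflTransGen.refl)
  · intro hc
    rw [Prod.mk.injEq] at hc
    omega

/-! ### The red blocks -/

/-- the board and the red blocks -/
theorem st_red : st n dm U Q = bd (2 * n + 1) n (fun c => lay n dm (lft n U) c ++ sp n dm c)
    (fun _ => []) (rt n Q) := by
  unfold st bd
  refine List.map_congr_left fun c _ => ?_
  rw [List.append_nil, List.append_assoc]

theorem red_X (i : ℕ) (_ : i < 2 * n + 1) : n ∉ lay n dm (lft n U) i ++ sp n dm i := by
  intro hc
  rw [List.mem_append] at hc
  rcases hc with hc | hc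
  · have := (mem_lft.1 (mem_lay hc)).1
    omega
  · have := mem_sp hc
    omega

theorem red_Y (i : ℕ) (_ : i < 2 * n + 1) : n ∉ ([] : List ℕ) := List.not_mem_nil

theorem rt_mem {c : ℕ} (h : c ∈ Q) : rt n Q c = 0 := by
  unfold rt
  rw [if_pos h]

theorem rt_notMem {c : ℕ} (h : c ∉ Q) : rt n Q c = Ht n := by
  unfold rt
  rw [if_neg h]

/-- **A click on a red block.** -/
theorem remove_red {p : ℕ × ℕ} (hp : colour (st n dm U Q) p = some n) :
    ∃ I : Finset ℕ, (∀ i, i ∈ I ↔ ∃ j, (i, j) ∈ group (st n dm U Q) p) ∧
      remove (group (st n dm U Q) p) (st n dm U Q) = st n dm U (Q ∪ I) := by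
  classical
  rw [st_red] at hp
  refine ⟨(range (2 * n + 1)).filter (fun i => ∃ j, (i, j) ∈ group (st n dm U Q) p), ?_, ?_⟩
  · intro i
    rw [mem_filter, mem_range]
    refine ⟨fun h => h.2, fun h => ⟨?_, h⟩⟩
    obtain ⟨j, hj⟩ := h
    rw [st_red] at hj
    exact (mem_group red_X red_Y hp hj).1
  · rw [st_red, remove_group red_X red_Y hp (by
      intro i _
      have := sp_ne_nil (n := n) (dm := dm) i
      simp [this])]
    unfold st
    refine List.map_congr_left fun c hc => ?_
    have e : (c ∈ Q ∪ (range (2 * n + 1)).filter (fun i => ∃ j, (i, j) ∈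
        group (bd (2 * n + 1) n (fun c => lay n dm (lft n U) c ++ sp n dm c) (fun _ => [])
          (rt n Q)) p)) ↔ (c ∈ Q ∨ ∃ j, (c, j) ∈
        group (bd (2 * n + 1) n (fun c => lay n dm (lft n U) c ++ sp n dm c) (fun _ => [])
          (rt n Q)) p) := by
      rw [mem_union, mem_filter, mem_range]
      have := List.mem_range.1 hc
      tauto
    by_cases h : ∃ j, (c, j) ∈ group (bd (2 * n + 1) n (fun c => lay n dm (lft n U) c ++
        sp n dm c) (fun _ => []) (rt n Q)) p
    · rw [if_pos h, rt_mem (e.2 (Or.inr h))]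
      simp
    · rw [if_neg h]
      simp only [List.append_nil, List.append_assoc]
      congr 3
      by_cases hq : c ∈ Q
      · rw [rt_mem hq, rt_mem (e.2 (Or.inl hq))]
      · rw [rt_notMem hq, rt_notMem (by
          rw [e]
          tauto)]

/-- the number of the removed layers that dominate -/
def dd (n : ℕ) (dm : ℕ → ℕ → Bool) (U : Finset ℕ) (c : ℕ) : ℕ :=
  (((List.range n).filter (fun u => decide (u ∈ U))).map (fun u => ex dm u c)).sum

theorem tot_eq (c : ℕ) :
    tot n dm c = dd n dm U c + ((lft n U).map (fun u => ex dm u c)).sum := by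
  unfold tot dd lft
  induction List.range n with
  | nil => simp
  | cons u L ih =>
    rw [List.map_cons, List.sum_cons, ih, List.filter_cons, List.filter_cons]
    by_cases h : u ∈ U
    · rw [if_pos (by simpa using h), if_neg (by simpa using h), List.map_cons, List.sum_cons]
      ring
    · rw [if_neg (by simpa using h), if_pos (by simpa using h), List.map_cons, List.sum_cons]
      ring

theorem dd_le (c : ℕ) : dd n dm U c ≤ n := by
  have h1 := tot_eq (n := n) (dm := dm) (U := U) c
  have h2 := tot_le (n := n) (dm := dm) c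
  omega

theorem dd_pos {c : ℕ} (h : 0 < dd n dm U c) : ∃ u ∈ U, u < n ∧ dm u (c / 2) = true := by
  by_contra hne
  push Not at hne
  have h0 : dd n dm U c = 0 := by
    unfold dd
    rw [List.sum_eq_zero]
    intro x hx
    rw [List.mem_map] at hx
    obtain ⟨u, hu, rfl⟩ := hx
    rw [List.mem_filter, List.mem_range, decide_eq_true_eq] at hu
    unfold ex
    rw [if_neg]
    rintro ⟨_, h1⟩
    exact hne u hu.2 hu.1 h1
  omega

theorem dd_pos_of {c u : ℕ} (hu : u ∈ U) (hn : u < n) (hc : c % 2 = 1)
    (h : dm u (c / 2) = true) : 0 < dd n dm U c := by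
  unfold dd
  refine Nat.lt_of_lt_of_le Nat.zero_lt_one ?_
  refine List.single_le_sum (fun x _ => Nat.zero_le x) 1 ?_
  rw [List.mem_map]
  refine ⟨u, ?_, ?_⟩
  · rw [List.mem_filter, List.mem_range, decide_eq_true_eq]
    exact ⟨hn, hu⟩
  · unfold ex
    rw [if_pos ⟨hc, h⟩]

/-- the height at which a red block starts -/
theorem len_even {c : ℕ} (hc : c % 2 = 0) : (lay n dm (lft n U) c ++ sp n dm c).length =
    (lft n U).length * (n + 2) + 1 := by
  rw [List.length_append, length_lay, length_sp, sum_ex_even _ hc]
  unfold spLen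
  rw [if_neg (by omega)]

theorem len_odd {c : ℕ} (hc : c % 2 = 1) : (lay n dm (lft n U) c ++ sp n dm c).length +
    dd n dm U c = (lft n U).length * (n + 2) + 1 + Ht n := by
  rw [List.length_append, length_lay, length_sp]
  unfold spLen
  rw [if_pos hc]
  have h1 := tot_eq (n := n) (dm := dm) (U := U) c
  have h2 := tot_le (n := n) (dm := dm) c
  have h3 : n ≤ Ht n := by
    unfold Ht
    omega
  omega

theorem rt_le (c : ℕ) : rt n Q c ≤ Ht n := by
  unfold rt
  split_ifs <;> omega

/-- **Isolated red blocks.** -/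
theorem red_iso {p q : ℕ × ℕ} (hp : colour (st n dm U Q) p = some n)
    (hq : q ∈ group (st n dm U Q) p) {c : ℕ} (hc : c % 2 = 1) (h0 : dd n dm U c = 0) :
    q.1 = c ↔ p.1 = c := by
  induction hq with
  | refl => exact Iff.rfl
  | @tail q q' h1 h2 ih =>
    rw [← ih]
    have e1 := (colour_eq (B := st n dm U Q) (p := p) (q := q) h1).trans hp
    have e2 := h2.2.2.symm.trans e1
    rw [st_red, colour_bd_iff red_X red_Y] at e1 e2
    have b1 := rt_le (n := n) (Q := Q) q.1
    have b2 := rt_le (n := n) (Q := Q) q'.1
    have hadj := h2.1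
    unfold Adj at hadj
    constructor
    · intro hq'
      by_contra hne
      have h3 : q.1 % 2 = 0 := by omega
      have l1 := len_even (n := n) (dm := dm) (U := U) h3
      have l2 := len_odd (n := n) (dm := dm) (U := U) hc
      rw [hq'] at e2
      omega
    · intro hq'
      by_contra hne
      have h3 : q'.1 % 2 = 0 := by omega
      have l1 := len_even (n := n) (dm := dm) (U := U) h3
      have l2 := len_odd (n := n) (dm := dm) (U := U) hc
      rw [hq'] at e1
      omega

/-- **The last click.** -/
theorem click_all (h : ∀ c < 2 * n + 1, c % 2 = 1 → 0 < dd n dm U c) :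
    ∃ Q' : Finset ℕ, (∀ c < 2 * n + 1, c ∈ Q') ∧ Click (st n dm U ∅) (st n dm U Q') := by
  have hH : n + 2 ≤ Ht n := by
    unfold Ht
    omega
  have hr : ∀ c, rt n ∅ c = Ht n := by
    intro c
    unfold rt
    rw [if_neg (by simp)]
  have hp : colour (st n dm U ∅) (0, (lay n dm (lft n U) 0 ++ sp n dm 0).length) = some n := by
    rw [st_red]
    refine (colour_bd_iff red_X red_Y _).2 ⟨by dsimp only; omega, le_rfl, ?_⟩
    dsimp only
    rw [hr]
    omega
  obtain ⟨I, hI, hI'⟩ := remove_red hp
  refine ⟨∅ ∪ I, ?_, _, ?_, ⟨(0, (lay n dm (lft n U) 0 ++ sp n dm 0).length + 1), ?_, ?_⟩,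
    hI'.symm⟩
  · intro c hc
    rw [empty_union, hI]
    refine ⟨(lft n U).length * (n + 2) + Ht n, ?_⟩
    rw [st_red] at hp ⊢
    refine group_row red_X red_Y hp (fun i hi => ?_) hc
    rw [hr]
    rcases Nat.mod_two_eq_zero_or_one i with hi2 | hi2
    · have := len_even (n := n) (dm := dm) (U := U) hi2
      omega
    · have h1 := len_odd (n := n) (dm := dm) (U := U) hi2
      have h2 := h i hi hi2
      have h3 := dd_le (n := n) (dm := dm) (U := U) i
      omega
  · rw [hp]
    rfl
  · rw [st_red]
    refine conn_col' red_X red_Y (by omega) le_rfl ?_ (by omega) ?_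
      (Relation.ReflTransGen.refl)
    · rw [hr]
      omega
    · rw [hr]
      omega
  · intro hc
    rw [Prod.mk.injEq] at hc
    omega

/-! ### Neutral tiles -/

theorem fil_inj {c c' i i' : ℕ} (hc : c < 2 * n + 1) (hc' : c' < 2 * n + 1)
    (h : fil n c i = fil n c' i') : c = c' ∧ i = i' := by
  unfold fil at h
  have h1 : c + (2 * n + 1) * i = c' + (2 * n + 1) * i' := by
    have : i * (2 * n + 1) + c = i' * (2 * n + 1) + c' := by omega
    linarith
  have h2 : c = c' := by
    have := congrArg (· % (2 * n + 1)) h1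
    simp only [Nat.add_mul_mod_self_left] at this
    rwa [Nat.mod_eq_of_lt hc, Nat.mod_eq_of_lt hc'] at this
  refine ⟨h2, ?_⟩
  subst h2
  have h3 : (2 * n + 1) * i = (2 * n + 1) * i' := by omega
  exact Nat.eq_of_mul_eq_mul_left (by omega) h3

theorem colour_st (p : ℕ × ℕ) : colour (st n dm U Q) p = if p.1 < 2 * n + 1 then
    (lay n dm (lft n U) p.1 ++ (sp n dm p.1 ++ List.replicate (rt n Q p.1) n))[p.2]? else none := by
  rw [st_red, colour_bd, List.append_nil, List.append_assoc]

/-- the position of a neutral tile -/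
theorem colour_fil {p : ℕ × ℕ} {a : ℕ} (h : colour (st n dm U Q) p = some a) (ha : n < a) :
    p.1 < 2 * n + 1 ∧ ∃ i, a = fil n p.1 i ∧ p.2 = (lay n dm (lft n U) p.1).length + i := by
  rw [colour_st] at h
  by_cases hp : p.1 < 2 * n + 1
  · rw [if_pos hp] at h
    refine ⟨hp, p.2 - (lay n dm (lft n U) p.1).length, ?_⟩
    rw [List.getElem?_append] at h
    split_ifs at h with h1
    · have := (mem_lft.1 (mem_lay (List.mem_of_getElem? h))).1
      omega
    · rw [List.getElem?_append] at h
      split_ifs at h with h2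
      · refine ⟨?_, by omega⟩
        unfold sp at h
        rw [List.getElem?_map, List.getElem?_range (by rwa [length_sp] at h2)] at h
        simp only [Option.map_some, Option.some.injEq] at h
        exact h.symm
      · have := (List.mem_replicate.1 (List.mem_of_getElem? h)).2
        omega
  · rw [if_neg hp] at h
    cases h

/-- the possible colours -/
theorem colour_cases {p : ℕ × ℕ} {a : ℕ} (h : colour (st n dm U Q) p = some a) :
    a ∈ lft n U ∨ a = n ∨ n < a := by
  rw [colour_st] at h
  split_ifs at h with hp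
  have h1 := List.mem_of_getElem? h
  rw [List.mem_append, List.mem_append] at h1
  rcases h1 with h1 | h1 | h1
  · exact Or.inl (mem_lay h1)
  · exact Or.inr (Or.inr (mem_sp h1))
  · exact Or.inr (Or.inl (List.mem_replicate.1 h1).2)

end Pool.Agent.V11230.CK
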