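import Pool.Agent.V11230.CK2

/-!
# Clickomania: correctness of the reduction from Dominating Set
-/

set_option autoImplicit false

namespace Pool.Agent.V11230.CK

open Finset

variable {n : ℕ} {dm : ℕ → ℕ → Bool} {U Q : Finset ℕ}

/-- the invariant: `Z` is the set of the vertices whose red block was removed in isolation -/
def Inv (n : ℕ) (dm : ℕ → ℕ → Bool) (U Q : Finset ℕ) (t : ℕ) : Prop :=
  (∀ u ∈ U, u < n) ∧ ∃ Z : Finset ℕ, (∀ z ∈ Z, z < n) ∧
    U.card + Z.card + (if 0 ∈ Q then 1 else 0) ≤ t ∧
      ∀ j < n, 2 * j + 1 ∈ Q → j ∈ Z ∨ ∃ u ∈ U, dm u j = true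

theorem inv_step {t : ℕ} {B' : Board} (hI : Inv n dm U Q t) (hc : Click (st n dm U Q) B') :
    ∃ U' Q', B' = st n dm U' Q' ∧ Inv n dm U' Q' (t + 1) := by
  obtain ⟨p, hp, ⟨q, hq, hne⟩, rfl⟩ := hc
  obtain ⟨a, ha⟩ := Option.isSome_iff_exists.1 hp
  obtain ⟨hU, Z, hZ, hcard, hdom⟩ := hI
  rcases colour_cases ha with h | h | h
  · refine ⟨insert a U, Q, remove_layer h ha, ?_, Z, hZ, ?_, ?_⟩
    · intro u hu
      rw [mem_insert] at hu
      rcases hu with rfl | hu
      · exact (mem_lft.1 h).1
      · exact hU u hu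
    · have := card_insert_le a U
      omega
    · intro j hj hjQ
      rcases hdom j hj hjQ with h' | ⟨u, hu, h'⟩
      · exact Or.inl h'
      · exact Or.inr ⟨u, mem_insert_of_mem hu, h'⟩
  · subst h
    obtain ⟨I, hI, hI'⟩ := remove_red ha
    have hpm : p.1 < 2 * a + 1 := by
      have h1 := ha
      rw [st_red, colour_bd_iff red_X red_Y] at h1
      exact h1.1
    by_cases hcase : p.1 % 2 = 1 ∧ dd a dm U p.1 = 0
    · refine ⟨U, Q ∪ I, hI', hU, insert (p.1 / 2) Z, ?_, ?_, ?_⟩
      · intro z hz
        rw [mem_insert] at hz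
        rcases hz with rfl | hz
        · omega
        · exact hZ z hz
      · have h1 := card_insert_le (p.1 / 2) Z
        have h2 : (if 0 ∈ Q ∪ I then 1 else 0) ≤ (if 0 ∈ Q then 1 else 0) := by
          by_cases h0 : 0 ∈ Q
          · rw [if_pos h0]
            split_ifs <;> omega
          · rw [if_neg h0, if_neg]
            rw [mem_union, not_or]
            refine ⟨h0, fun h3 => ?_⟩
            obtain ⟨j, hj⟩ := (hI 0).1 h3
            have := (red_iso ha hj hcase.1 hcase.2).2 rfl
            dsimp only at this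
            omega
        omega
      · intro j hj hjQ
        rw [mem_union] at hjQ
        rcases hjQ with h1 | h1
        · rcases hdom j hj h1 with h' | h'
          · exact Or.inl (mem_insert_of_mem h')
          · exact Or.inr h'
        · left
          obtain ⟨j', hj'⟩ := (hI _).1 h1
          have := (red_iso ha hj' hcase.1 hcase.2).2 rfl
          dsimp only at this
          have e : j = p.1 / 2 := by omega
          rw [e]
          exact mem_insert_self _ _
    · refine ⟨U, Q ∪ I, hI', hU, Z, hZ, ?_, ?_⟩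
      · split_ifs at hcard ⊢ <;> omega
      · intro j hj hjQ
        rw [mem_union] at hjQ
        rcases hjQ with h1 | h1
        · exact hdom j hj h1
        · right
          obtain ⟨j', hj'⟩ := (hI _).1 h1
          have h2 : 0 < dd a dm U (2 * j + 1) := by
            by_contra h0
            have h3 := (red_iso ha hj' (c := 2 * j + 1) (by omega) (by omega)).1 rfl
            refine hcase ⟨by omega, ?_⟩
            rw [h3]
            omega
          obtain ⟨u, hu, _, h3⟩ := dd_pos h2
          refine ⟨u, hu, ?_⟩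
          have e : (2 * j + 1) / 2 = j := by omega
          rwa [e] at h3
  · exfalso
    apply hne
    have hb := (colour_eq hq).trans ha
    obtain ⟨hp1, i, hi1, hi2⟩ := colour_fil ha h
    obtain ⟨hq1, i', hi1', hi2'⟩ := colour_fil hb h
    obtain ⟨e1, e2⟩ := fil_inj hp1 hq1 (hi1.symm.trans hi1')
    refine Prod.ext e1.symm ?_
    rw [hi2, hi2', e1, e2]

theorem inv_clicks {k : ℕ} {B B' : Board} (h : Clicks k B B') : ∀ {U Q : Finset ℕ} {t : ℕ},
    B = st n dm U Q → Inv n dm U Q t → ∃ U' Q', B' = st n dm U' Q' ∧ Inv n dm U' Q' (t + k) := by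
  induction h with
  | nil B => exact fun h1 h2 => ⟨_, _, h1, h2⟩
  | cons h1 _ ih =>
    intro U Q t hB hI
    subst hB
    obtain ⟨U', Q', h3, h4⟩ := inv_step hI h1
    obtain ⟨U'', Q'', h5, h6⟩ := ih h3 h4
    refine ⟨U'', Q'', h5, ?_⟩
    rwa [Nat.add_assoc, Nat.add_comm 1] at h6

theorem Clicks.snoc {k : ℕ} {B B' B'' : Board} (h : Clicks k B B') (h' : Click B' B'') :
    Clicks (k + 1) B B'' := by
  induction h with
  | nil B => exact Clicks.cons h' (Clicks.nil _)
  | cons h1 _ ih => exact Clicks.cons h1 (ih h')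

/-! ### The number of the tiles -/

theorem sum_range_list (f : ℕ → ℕ) (m : ℕ) : ((List.range m).map f).sum = ∑ i ∈ range m, f i := by
  induction m with
  | zero => simp
  | succ m ih => rw [List.range_succ, List.map_append, List.sum_append, ih, sum_range_succ]; simp

theorem tiles_st : tiles (st n dm U Q) = ∑ c ∈ range (2 * n + 1),
    ((lay n dm (lft n U) c).length + (spLen n dm c + rt n Q c)) := by
  unfold tiles st
  rw [List.map_map, ← sum_range_list]
  congr 1
  refine List.map_congr_left fun c _ => ?_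
  rw [Function.comp_apply, List.length_append, List.length_append, length_sp,
    List.length_replicate]

theorem len_lay_le (c : ℕ) : (lay n dm (lft n U) c).length ≤ n * (n + 3) := by
  rw [length_lay]
  have h1 := sum_ex_le (dm := dm) (lft n U) c
  have h2 := length_lft_le (n := n) (U := U)
  calc (lft n U).length * (n + 2) + ((lft n U).map (fun u => ex dm u c)).sum
      ≤ n * (n + 2) + n := Nat.add_le_add (Nat.mul_le_mul_right _ h2) (h1.trans h2)
    _ = n * (n + 3) := by ring

theorem tiles_le : tiles (st n dm U Q) ≤ Wt n + ∑ c ∈ range (2 * n + 1), spLen n dm c +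
    ∑ c ∈ range (2 * n + 1), rt n Q c := by
  rw [tiles_st, sum_add_distrib, sum_add_distrib, ← Nat.add_assoc]
  have h1 : ∑ c ∈ range (2 * n + 1), (lay n dm (lft n U) c).length ≤ Wt n := by
    calc ∑ c ∈ range (2 * n + 1), (lay n dm (lft n U) c).length
        ≤ ∑ c ∈ range (2 * n + 1), n * (n + 3) := sum_le_sum fun c _ => len_lay_le c
      _ = Wt n := by
        rw [sum_const, card_range, smul_eq_mul]
        rfl
  omega

theorem le_tiles : ∑ c ∈ range (2 * n + 1), spLen n dm c + ∑ c ∈ range (2 * n + 1), rt n Q c ≤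
    tiles (st n dm U Q) := by
  rw [tiles_st, sum_add_distrib, sum_add_distrib]
  omega

theorem sum_rt_empty : ∑ c ∈ range (2 * n + 1), rt n ∅ c = 2 * n * Ht n + Ht n := by
  rw [sum_congr rfl (fun c _ => rt_notMem (by simp)), sum_const, card_range, smul_eq_mul]
  ring

/-- the bound on the score -/
def bound (n : ℕ) : ℕ := 2 * n * Ht n + Wt n

/-- **Correctness of the reduction.** -/
theorem score_iff {t : ℕ} (hrefl : ∀ j < n, dm j j = true) :
    Score (st n dm ∅ ∅) (t + 1) (bound n) ↔ ∃ D : Finset ℕ, (∀ u ∈ D, u < n) ∧ D.card ≤ t ∧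
      ∀ j < n, ∃ u ∈ D, dm u j = true := by
  constructor
  · rintro ⟨k, hk, B', hB', hs⟩
    obtain ⟨U, Q, rfl, hU, Z, hZ, hcard, hdom⟩ := inv_clicks (t := 0) hB' rfl (by
      refine ⟨by simp, ∅, by simp, by simp, fun j _ h => by simp at h⟩)
    have hall : ∀ c < 2 * n + 1, c ∈ Q := by
      intro c hc
      by_contra hne
      have h1 := tiles_le (n := n) (dm := dm) (U := ∅) (Q := ∅)
      have h2 := le_tiles (n := n) (dm := dm) (U := U) (Q := Q)
      rw [sum_rt_empty] at h1
      have h3 : rt n Q c ≤ ∑ c ∈ range (2 * n + 1), rt n Q c :=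
        single_le_sum (f := fun c => rt n Q c) (fun _ _ => Nat.zero_le _) (mem_range.2 hc)
      rw [rt_notMem hne] at h3
      unfold bound at hs
      omega
    rw [if_pos (hall 0 (by omega))] at hcard
    refine ⟨U ∪ Z, ?_, ?_, ?_⟩
    · intro u hu
      rw [mem_union] at hu
      rcases hu with hu | hu
      · exact hU u hu
      · exact hZ u hu
    · have := card_union_le U Z
      omega
    · intro j hj
      rcases hdom j hj (hall _ (by omega)) with h | ⟨u, hu, h⟩
      · exact ⟨j, mem_union_right _ h, hrefl j hj⟩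
      · exact ⟨u, mem_union_left _ hu, h⟩
  · rintro ⟨D, hD, hcard, hdom⟩
    have h1 : ∀ D : Finset ℕ, (∀ u ∈ D, u < n) → Clicks D.card (st n dm ∅ ∅) (st n dm D ∅) := by
      intro D
      induction D using Finset.induction_on with
      | empty => exact fun _ => Clicks.nil _
      | insert v D hv ih =>
        intro hD
        rw [card_insert_of_notMem hv]
        refine (ih fun u hu => hD u (mem_insert_of_mem hu)).snoc (click_layer ?_)
        exact mem_lft.2 ⟨hD v (mem_insert_self _ _), hv⟩
    obtain ⟨Q', hQ', hc⟩ := click_all (n := n) (dm := dm) (U := D) (by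
      intro c hc hc2
      obtain ⟨u, hu, h⟩ := hdom (c / 2) (by omega)
      exact dd_pos_of hu (hD u hu) hc2 h)
    refine ⟨D.card + 1, by omega, _, (h1 D hD).snoc hc, ?_⟩
    have h2 := tiles_le (n := n) (dm := dm) (U := D) (Q := Q')
    have h3 := le_tiles (n := n) (dm := dm) (U := ∅) (Q := ∅)
    rw [sum_rt_empty] at h3
    have h4 : ∑ c ∈ range (2 * n + 1), rt n Q' c = 0 :=
      sum_eq_zero fun c hc => rt_mem (hQ' c (mem_range.1 hc))
    unfold bound
    have h5 : Ht n = 2 * Wt n + (n + 2) := rfl
    omega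

end Pool.Agent.V11230.CK
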