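import Pool.Agent.V11230.DS2

/-!
# Foremost coverage of periodic caterpillars: soundness
-/

set_option autoImplicit false

namespace Pool.Agent.NPC.V11230.CP

open Pool.Agent.NPC Pool.Agent.NPC.V11230.DS

/-- the labels of the leaf of a variable -/
def labX (L x c : ℕ) : Bool :=
  decide (c / (4 * L + 3) = x) && (decide (c % (4 * L + 3) = 0) ||
    decide (c % (4 * L + 3) = 2 * L + 1) || decide (c % (4 * L + 3) = 4 * L + 2))

/-- the labels of the leaf of a clause -/
def labC (cl : Cl) (L j c : ℕ) : Bool :=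
  (decide (1 ≤ c % (4 * L + 3)) && decide (c % (4 * L + 3) ≤ 2 * L) &&
    decide ((c % (4 * L + 3) - 1) / 2 = j) && inC cl (false, c / (4 * L + 3))) ||
  (decide (2 * L + 2 ≤ c % (4 * L + 3)) && decide (c % (4 * L + 3) ≤ 4 * L + 1) &&
    decide ((c % (4 * L + 3) - (2 * L + 2)) / 2 = j) && inC cl (true, c / (4 * L + 3)))

/-- the labels of the leaf `i` -/
def lab (φ : List Cl) (i c : ℕ) : Bool :=
  if i < 3 * φ.length then labX φ.length i c
  else if i < 4 * φ.length then
    labC (φ.getD (i - 3 * φ.length) dcl) φ.length (i - 3 * φ.length) c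
  else decide (c = 3 * φ.length * (4 * φ.length + 3))

theorem labX_iff {L x c r y : ℕ} (hr : r < 4 * L + 3) (hc : c = (4 * L + 3) * y + r) :
    labX L x c = true ↔ y = x ∧ (r = 0 ∨ r = 2 * L + 1 ∨ r = 4 * L + 2) := by
  subst hc
  unfold labX
  rw [Nat.mul_add_div (by omega), Nat.div_eq_of_lt hr, Nat.add_zero, Nat.mul_add_mod,
    Nat.mod_eq_of_lt hr]
  simp [or_assoc]

theorem labC_iff {cl : Cl} {L j c r x : ℕ} (hr : r < 4 * L + 3) (hc : c = (4 * L + 3) * x + r) :
    labC cl L j c = true ↔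
      (1 ≤ r ∧ r ≤ 2 * L ∧ (r - 1) / 2 = j ∧ inC cl (false, x) = true) ∨
      (2 * L + 2 ≤ r ∧ r ≤ 4 * L + 1 ∧ (r - (2 * L + 2)) / 2 = j ∧ inC cl (true, x) = true) := by
  subst hc
  unfold labC
  rw [Nat.mul_add_div (by omega), Nat.div_eq_of_lt hr, Nat.add_zero, Nat.mul_add_mod,
    Nat.mod_eq_of_lt hr]
  simp [and_assoc]

theorem split_mod {F : ℕ} (hF : 0 < F) (t : ℕ) : ∃ c r, r < F ∧ t = F * c + r :=
  ⟨t / F, t % F, Nat.mod_lt _ hF, (Nat.div_add_mod t F).symm⟩

/-- the edge of the leaf `i` is present at time `t` -/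
def pres (lb : ℕ → ℕ → Bool) (F i t : ℕ) : Bool := decide (t % F = 0) && lb i (t / F)

theorem pres_iff {lb : ℕ → ℕ → Bool} {F i t : ℕ} (hF : 0 < F) :
    pres lb F i t = true ↔ ∃ c, t = F * c ∧ lb i c = true := by
  unfold pres
  rw [Bool.and_eq_true, decide_eq_true_iff]
  constructor
  · rintro ⟨h1, h2⟩
    exact ⟨t / F, (Nat.mul_div_cancel' (Nat.dvd_of_mod_eq_zero h1)).symm, h2⟩
  · rintro ⟨c, rfl, h⟩
    rw [Nat.mul_mod_right, Nat.mul_div_cancel_left _ hF]
    exact ⟨rfl, h⟩

/-- the edges of the caterpillar that are present at time `t`; the vertices are `0, ..., m - 1`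
on the spine and their leaves `m, ..., 2 m - 1` -/
def edgeAt (lb : ℕ → ℕ → Bool) (m F t u v : ℕ) : Bool :=
  (decide (u < m) && decide (v < m) && (decide (u + 1 = v) || decide (v + 1 = u))) ||
  (decide (u < m) && decide (v = m + u) && pres lb F u t) ||
  (decide (v < m) && decide (u = m + v) && pres lb F v t)

theorem edgeAt_iff {lb : ℕ → ℕ → Bool} {m F t u v : ℕ} : edgeAt lb m F t u v = true ↔
    (u < m ∧ v < m ∧ (u + 1 = v ∨ v + 1 = u)) ∨ (u < m ∧ v = m + u ∧ pres lb F u t = true) ∨
      (v < m ∧ u = m + v ∧ pres lb F v t = true) := by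
  unfold edgeAt
  simp [and_assoc, or_assoc]

/-- a movement on the caterpillar until time `t` -/
structure Mv (lb : ℕ → ℕ → Bool) (m F t : ℕ) (pos : ℕ → ℕ) : Prop where
  start : pos 0 = 0
  move : ∀ τ < t, pos (τ + 1) = pos τ ∨ edgeAt lb m F τ (pos τ) (pos (τ + 1)) = true
  all : ∀ v < 2 * m, ∃ τ ≤ t, pos τ = v

section

variable {lb : ℕ → ℕ → Bool} {m F t : ℕ} {pos : ℕ → ℕ}

theorem enter (h : Mv lb m F t pos) (hF : 0 < F) {i : ℕ} (hi : i < m) :
    ∃ c, F * c < t ∧ lb i c = true ∧ pos (F * c + 1) = m + i := by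
  classical
  have hex : ∃ τ, τ ≤ t ∧ pos τ = m + i := by
    obtain ⟨τ, h1, h2⟩ := h.all (m + i) (by omega)
    exact ⟨τ, h1, h2⟩
  obtain ⟨g1, g2⟩ := Nat.find_spec hex
  have g3 : ∀ τ < Nat.find hex, ¬ (τ ≤ t ∧ pos τ = m + i) := fun τ hτ => Nat.find_min hex hτ
  set τ₀ := Nat.find hex with hτ₀
  have g4 : τ₀ ≠ 0 := by
    intro hz
    rw [hz, h.start] at g2
    omega
  obtain ⟨a, ha⟩ : ∃ a, τ₀ = a + 1 := ⟨τ₀ - 1, by omega⟩
  rw [ha] at g1 g2
  have g5 := g3 a (by omega)
  have g6 : pos a ≠ m + i := fun hc => g5 ⟨by omega, hc⟩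
  rcases h.move a (by omega) with hm | hm
  · rw [g2] at hm
    exact absurd hm.symm g6
  · rw [g2, edgeAt_iff] at hm
    rcases hm with ⟨_, hm, _⟩ | ⟨_, hm, hp⟩ | ⟨hm, _⟩
    · omega
    · have : pos a = i := by omega
      rw [this, pres_iff hF] at hp
      obtain ⟨c, rfl, hc⟩ := hp
      exact ⟨c, by omega, hc, g2⟩
    · omega

theorem stay (h : Mv lb m F t pos) (hF : 0 < F) {i c c' : ℕ}
    (hp : pos (F * c + 1) = m + i) (hno : ∀ d, c < d → d < c' → lb i d = false)
    (hc' : F * c' ≤ t ∨ t ≤ F * c') : ∀ τ, F * c + 1 ≤ τ → τ ≤ F * c' → τ ≤ t → pos τ = m + i := by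
  intro τ
  induction τ with
  | zero =>
    intro h1
    omega
  | succ τ ih =>
    intro h1 h2 h3
    rcases Nat.eq_or_lt_of_le h1 with he | hlt
    · rw [← he]
      exact hp
    · have h4 := ih (by omega) (by omega) (by omega)
      rcases h.move τ (by omega) with hm | hm
      · rw [hm, h4]
      · rw [h4, edgeAt_iff] at hm
        exfalso
        rcases hm with ⟨hm, _⟩ | ⟨hm, _⟩ | ⟨_, hm, hpr⟩
        · omega
        · omega
        · have : pos (τ + 1) = i := by omega
          rw [this, pres_iff hF] at hpr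
          obtain ⟨d, rfl, hd⟩ := hpr
          have hcd : c < d := by
            by_contra hc
            have := Nat.mul_le_mul_left F (show d ≤ c by omega)
            omega
          have hdc : d < c' := by
            by_contra hc
            have := Nat.mul_le_mul_left F (show c' ≤ d by omega)
            omega
          rw [hno d hcd hdc] at hd
          exact Bool.false_ne_true hd

end

/-- **Soundness.** -/
theorem sound {φ : List Cl} (hb : Bounded3 φ) {m F T t : ℕ} {pos : ℕ → ℕ}
    (hm : m = 4 * φ.length + 1) (hF : 2 ≤ F) (hT : T = 3 * φ.length * (4 * φ.length + 3))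
    (ht : t = F * T + 1) (h : Mv (lab φ) m F t pos) : SAT3 φ := by
  classical
  have hF0 : 0 < F := by omega
  have hB0 : 0 < 4 * φ.length + 3 := by omega
  -- the last leaf
  have hD : pos t = m + 4 * φ.length := by
    obtain ⟨c, h1, h2, h3⟩ := enter h hF0 (i := 4 * φ.length) (by omega)
    unfold lab at h2
    rw [if_neg (by omega), if_neg (by omega), decide_eq_true_iff, ← hT] at h2
    rw [ht, ← h2, h3]
  -- variable leaves
  have hX : ∀ x < 3 * φ.length,
      pos (F * ((4 * φ.length + 3) * x) + 1) = m + x ∨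
      pos (F * ((4 * φ.length + 3) * x + (2 * φ.length + 1)) + 1) = m + x := by
    intro x hx
    obtain ⟨c, h1, h2, h3⟩ := enter h hF0 (i := x) (by omega)
    obtain ⟨y, r, hr, hc⟩ := split_mod hB0 c
    have h2' := h2
    unfold lab at h2'
    rw [if_pos hx, labX_iff hr hc] at h2'
    obtain ⟨rfl, hr'⟩ := h2'
    rcases hr' with rfl | rfl | rfl
    · left
      rw [← h3, hc]
      rfl
    · right
      rw [← h3, hc]
    · exfalso
      have hcT : c < T := by
        have := Nat.mul_le_mul_left (4 * φ.length + 3) (show y + 1 ≤ 3 * φ.length by omega)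
        rw [Nat.mul_succ] at this
        rw [hT, Nat.mul_comm (3 * φ.length)]
        omega
      have hFc : F * c + F ≤ F * T := by
        have := Nat.mul_le_mul_left F (show c + 1 ≤ T from hcT)
        rwa [Nat.mul_succ] at this
      have := stay h hF0 (c' := T + 1) h3 (fun d hd _ => by
        rw [Bool.eq_false_iff]
        intro hl
        obtain ⟨z, r, hr, hd'⟩ := split_mod hB0 d
        unfold lab at hl
        rw [if_pos hx, labX_iff hr hd'] at hl
        obtain ⟨rfl, _⟩ := hl
        omega) (Or.inr (by rw [Nat.mul_succ]; omega)) t (by omega) (by rw [Nat.mul_succ]; omega)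
        le_rfl
      omega
  refine ⟨fun x => decide (pos (F * ((4 * φ.length + 3) * x) + 1) = m + x), fun cl hcl => ?_⟩
  obtain ⟨j, hj, rfl⟩ := List.getElem_of_mem hcl
  have hbj := hb _ (List.getElem_mem hj)
  obtain ⟨c, h1, h2, h3⟩ := enter h hF0 (i := 3 * φ.length + j) (by omega)
  obtain ⟨x, r, hr, hc⟩ := split_mod hB0 c
  have hgd : φ.getD (3 * φ.length + j - 3 * φ.length) dcl = φ[j] := by
    rw [Nat.add_sub_cancel_left, List.getD_eq_getElem?_getD, List.getElem?_eq_getElem hj,
      Option.getD_some]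
  unfold lab at h2
  rw [if_neg (by omega), if_pos (by omega), hgd, labC_iff hr hc] at h2
  have hlt : ∀ b : Bool, inC φ[j] (b, x) = true → x < 3 * φ.length := by
    intro b hin
    rcases inC_iff.1 hin with h' | h' | h'
    · rw [h'] at hbj
      exact hbj.1
    · rw [h'] at hbj
      exact hbj.2.1
    · rw [h'] at hbj
      exact hbj.2.2
  have key : ∀ b : Bool, inC φ[j] (b, x) = true →
      decide (pos (F * ((4 * φ.length + 3) * x) + 1) = m + x) = b →
      (decide (pos (F * ((4 * φ.length + 3) * φ[j].1.2) + 1) = m + φ[j].1.2) = φ[j].1.1 ∨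
      decide (pos (F * ((4 * φ.length + 3) * φ[j].2.1.2) + 1) = m + φ[j].2.1.2) = φ[j].2.1.1 ∨
      decide (pos (F * ((4 * φ.length + 3) * φ[j].2.2.2) + 1) = m + φ[j].2.2.2) =
        φ[j].2.2.1) := by
    intro b hin hd
    rcases inC_iff.1 hin with h' | h' | h'
    · left; rw [h']; exact hd
    · right; left; rw [h']; exact hd
    · right; right; rw [h']; exact hd
  have hjX : ∀ x < 3 * φ.length, ∀ r r', r' < 4 * φ.length + 3 → r < r' →
      (∀ s, r < s → s < r' → ¬ (s = 0 ∨ s = 2 * φ.length + 1 ∨ s = 4 * φ.length + 2)) →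
      pos (F * ((4 * φ.length + 3) * x + r) + 1) = m + x →
      ∀ s, r < s → s < r' → pos (F * ((4 * φ.length + 3) * x + s) + 1) = m + x := by
    intro x hx r r' hr' hrr hno hp s hs hs'
    have hxT : (4 * φ.length + 3) * x + r' < T := by
      have := Nat.mul_le_mul_left (4 * φ.length + 3) (show x + 1 ≤ 3 * φ.length by omega)
      rw [Nat.mul_succ] at this
      rw [hT, Nat.mul_comm (3 * φ.length)]
      omega
    have m1 := Nat.mul_le_mul_left F hxT.le
    have m2 := Nat.mul_le_mul_left F (show (4 * φ.length + 3) * x + r + 1 ≤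
      (4 * φ.length + 3) * x + s by omega)
    have m3 := Nat.mul_le_mul_left F (show (4 * φ.length + 3) * x + s + 1 ≤
      (4 * φ.length + 3) * x + r' by omega)
    rw [Nat.mul_succ] at m2 m3
    refine stay h hF0 (c' := (4 * φ.length + 3) * x + r') hp (fun d hd hd' => ?_)
      (Or.inl (by omega)) _ (by omega) (by omega) (by omega)
    rw [Bool.eq_false_iff]
    intro hl
    unfold lab at hl
    rw [if_pos hx, labX_iff (r := d - (4 * φ.length + 3) * x) (y := x) (by omega) (by omega)] at hl
    exact hno _ (by omega) (by omega) hl.2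
  rcases h2 with ⟨g1, g2, g3, g4⟩ | ⟨g1, g2, g3, g4⟩
  · refine key false g4 ?_
    rw [decide_eq_false_iff_not]
    intro hp
    have := hjX x (hlt _ g4) 0 (2 * φ.length + 1) (by omega) (by omega) (fun s _ _ => by omega)
      hp r (by omega) (by omega)
    rw [← hc, h3] at this
    have := hlt _ g4
    omega
  · refine key true g4 ?_
    rw [decide_eq_true_iff]
    rcases hX x (hlt _ g4) with hp | hp
    · exact hp
    · exfalso
      have := hjX x (hlt _ g4) (2 * φ.length + 1) (4 * φ.length + 2) (by omega) (by omega)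
        (fun s _ _ => by omega) hp r (by omega) (by omega)
      rw [← hc, h3] at this
      have := hlt _ g4
      omega

end Pool.Agent.NPC.V11230.CP
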