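import Pool.Agent.V11230.CP1

/-!
# Foremost coverage of periodic caterpillars: completeness
-/

set_option autoImplicit false

namespace Pool.Agent.NPC.V11230.CP

open Pool.Agent.NPC Pool.Agent.NPC.V11230.DS

/-- the position after `k` steps from `a` to `b` -/
def step (a b k : ℕ) : ℕ := if a ≤ b then min b (a + k) else max b (a - k)

theorem step_zero (a b : ℕ) : step a b 0 = a := by
  unfold step
  split_ifs <;> omega

theorem step_far {a b k : ℕ} (h : a ≤ b + k) (h' : b ≤ a + k) : step a b k = b := by
  unfold step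
  split_ifs <;> omega

theorem step_lt {a b m : ℕ} (ha : a < m) (hb : b < m) (k : ℕ) : step a b k < m := by
  unfold step
  split_ifs <;> omega

theorem step_succ (a b k : ℕ) : step a b (k + 1) = step a b k ∨
    step a b (k + 1) = step a b k + 1 ∨ step a b (k + 1) + 1 = step a b k := by
  unfold step
  split_ifs <;> omega

/-- a plan for the times `F c` -/
structure Plan (lb : ℕ → ℕ → Bool) (m T : ℕ) (g : ℕ → ℕ) (inn : ℕ → Bool) : Prop where
  start : g 0 = 0
  lt : ∀ c, g c < m
  same : ∀ c, inn c = true → g (c + 1) = g c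
  enter0 : inn 0 = true → lb (g 0) 0 = true
  enter : ∀ c, inn c = false → inn (c + 1) = true → lb (g (c + 1)) (c + 1) = true
  leave : ∀ c, inn c = true → inn (c + 1) = false → lb (g (c + 1)) (c + 1) = true
  all : ∀ i < m, ∃ c ≤ T, inn c = true ∧ g c = i ∧ ∀ d, c = d + 1 → inn d = false

/-- the position at time `F c + r` -/
def posP' (m : ℕ) (g : ℕ → ℕ) (inn : ℕ → Bool) (c r : ℕ) : ℕ :=
  if r = 0 then (if 0 < c ∧ inn (c - 1) = true then m + g c else g c)
  else if inn c = true then m + g c else step (g c) (g (c + 1)) (r - 1)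

/-- the position at time `τ` -/
def posF (m F : ℕ) (g : ℕ → ℕ) (inn : ℕ → Bool) (τ : ℕ) : ℕ :=
  posP' m g inn (τ / F) (τ % F)

theorem posF_eq {m F : ℕ} {g : ℕ → ℕ} {inn : ℕ → Bool} {c r : ℕ} (hr : r < F) :
    posF m F g inn (F * c + r) = posP' m g inn c r := by
  unfold posF
  rw [Nat.mul_add_div (by omega), Nat.div_eq_of_lt hr, Nat.add_zero, Nat.mul_add_mod,
    Nat.mod_eq_of_lt hr]

theorem mv_of_plan {lb : ℕ → ℕ → Bool} {m F T t : ℕ} {g : ℕ → ℕ} {inn : ℕ → Bool}
    (hF : m + 1 ≤ F) (ht : t = F * T + 1) (h : Plan lb m T g inn) :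
    Mv lb m F t (posF m F g inn) := by
  have hm : 0 < m := lt_of_le_of_lt (Nat.zero_le _) (h.lt 0)
  refine ⟨?_, ?_, ?_⟩
  · have := posF_eq (m := m) (g := g) (inn := inn) (c := 0) (r := 0) (F := F) (by omega)
    rw [Nat.mul_zero, Nat.zero_add] at this
    rw [this]
    unfold posP'
    rw [if_pos rfl, if_neg (by omega)]
    exact h.start
  · intro τ _
    obtain ⟨c, r, hr, rfl⟩ := split_mod (show 0 < F by omega) τ
    by_cases hr1 : r + 1 < F
    · rw [Nat.add_assoc, posF_eq hr1, posF_eq hr]
      by_cases hr0 : r = 0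
      · subst hr0
        unfold posP'
        rw [if_neg (by omega), if_pos rfl, Nat.zero_add, Nat.sub_self, step_zero, edgeAt_iff,
          Nat.add_zero, pres_iff (by omega), pres_iff (by omega)]
        rcases c with _ | c
        · rw [if_neg (show ¬ (0 < 0 ∧ inn (0 - 1) = true) by omega)]
          by_cases hi : inn 0 = true
          · rw [if_pos hi]
            exact Or.inr (Or.inr (Or.inl ⟨h.lt 0, rfl, 0, rfl, h.enter0 hi⟩))
          · rw [if_neg hi]
            exact Or.inl rfl
        · rw [Nat.add_sub_cancel]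
          by_cases h1 : inn c = true
          · rw [if_pos (⟨Nat.succ_pos c, h1⟩ : 0 < c + 1 ∧ inn c = true)]
            by_cases h2 : inn (c + 1) = true
            · rw [if_pos h2]
              exact Or.inl rfl
            · rw [if_neg h2]
              exact Or.inr (Or.inr (Or.inr ⟨h.lt _, rfl, c + 1, rfl,
                h.leave c h1 (by simpa using h2)⟩))
          · rw [if_neg (show ¬ (0 < c + 1 ∧ inn c = true) from fun hc => h1 hc.2)]
            by_cases h2 : inn (c + 1) = true
            · rw [if_pos h2]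
              exact Or.inr (Or.inr (Or.inl ⟨h.lt _, rfl, c + 1, rfl,
                h.enter c (by simpa using h1) h2⟩))
            · rw [if_neg h2]
              exact Or.inl rfl
      · unfold posP'
        rw [if_neg (by omega), if_neg hr0]
        by_cases hi : inn c = true
        · rw [if_pos hi, if_pos hi]
          exact Or.inl rfl
        · rw [if_neg hi, if_neg hi, Nat.add_sub_cancel]
          obtain ⟨k, rfl⟩ : ∃ k, r = k + 1 := ⟨r - 1, by omega⟩
          rw [Nat.add_sub_cancel, edgeAt_iff]
          have b1 := step_lt (h.lt c) (h.lt (c + 1)) k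
          have b2 := step_lt (h.lt c) (h.lt (c + 1)) (k + 1)
          rcases step_succ (g c) (g (c + 1)) k with he | he | he
          · exact Or.inl he
          · exact Or.inr (Or.inl ⟨b1, b2, Or.inl he.symm⟩)
          · exact Or.inr (Or.inl ⟨b1, b2, Or.inr he⟩)
    · have hrF : F * c + r + 1 = F * (c + 1) + 0 := by
        rw [Nat.mul_succ]
        omega
      rw [hrF, posF_eq (by omega), posF_eq hr]
      left
      unfold posP'
      rw [if_pos rfl, if_neg (show ¬ r = 0 by omega), Nat.add_sub_cancel]
      by_cases hi : inn c = true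
      · rw [if_pos hi, if_pos ⟨Nat.succ_pos c, hi⟩, h.same c hi]
      · rw [if_neg hi, if_neg (fun hc => hi hc.2)]
        have b1 := h.lt c
        have b2 := h.lt (c + 1)
        rw [step_far (by omega) (by omega)]
  · intro v hv
    by_cases hvm : v < m
    · obtain ⟨c, hc, h1, h2, h3⟩ := h.all v hvm
      have hFc := Nat.mul_le_mul_left F hc
      refine ⟨F * c, by omega, ?_⟩
      have := posF_eq (m := m) (g := g) (inn := inn) (c := c) (r := 0) (F := F) (by omega)
      rw [Nat.add_zero] at this
      rw [this]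
      unfold posP'
      rw [if_pos rfl, if_neg, h2]
      rintro ⟨h4, h5⟩
      rw [h3 (c - 1) (by omega)] at h5
      exact Bool.false_ne_true h5
    · obtain ⟨c, hc, h1, h2, _⟩ := h.all (v - m) (by omega)
      have hFc := Nat.mul_le_mul_left F hc
      refine ⟨F * c + 1, by omega, ?_⟩
      rw [posF_eq (by omega)]
      unfold posP'
      rw [if_neg (by omega), if_pos h1, h2]
      omega

/-! ### The plan of a satisfying assignment -/

/-- the leaf at which the agent is in block `x` at time `r` -/
def gp (L : ℕ) (τ : ℕ → Bool) (x r : ℕ) : ℕ :=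
  if 3 * L ≤ x then 4 * L else
  if τ x = true then (if 2 * L + 2 ≤ r ∧ r ≤ 4 * L + 1 then 3 * L + (r - (2 * L + 2)) / 2 else x)
  else (if 1 ≤ r ∧ r ≤ 2 * L then 3 * L + (r - 1) / 2 else x)

/-- whether the agent is in the leaf -/
def ip (L : ℕ) (τ : ℕ → Bool) (ch : ℕ → Lit ℕ) (x r : ℕ) : Bool :=
  if 3 * L ≤ x then true else
  if τ x = true then (decide (r ≤ 2 * L) || decide (2 * L + 2 ≤ r ∧ r ≤ 4 * L + 1 ∧
    r % 2 = 0 ∧ ch ((r - (2 * L + 2)) / 2) = (true, x)))
  else (decide (2 * L + 1 ≤ r ∧ r ≤ 4 * L + 1) || decide (1 ≤ r ∧ r ≤ 2 * L ∧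
    r % 2 = 1 ∧ ch ((r - 1) / 2) = (false, x)))

section

variable {L : ℕ} {τ : ℕ → Bool} {ch : ℕ → Lit ℕ}

theorem ip_true {x r : ℕ} (hx : x < 3 * L) (ht : τ x = true) : ip L τ ch x r = true ↔
    r ≤ 2 * L ∨ (2 * L + 2 ≤ r ∧ r ≤ 4 * L + 1 ∧ r % 2 = 0 ∧
      ch ((r - (2 * L + 2)) / 2) = (true, x)) := by
  unfold ip
  rw [if_neg (by omega), if_pos ht, Bool.or_eq_true, decide_eq_true_iff, decide_eq_true_iff]

theorem ip_false {x r : ℕ} (hx : x < 3 * L) (ht : τ x ≠ true) : ip L τ ch x r = true ↔
    (2 * L + 1 ≤ r ∧ r ≤ 4 * L + 1) ∨ (1 ≤ r ∧ r ≤ 2 * L ∧ r % 2 = 1 ∧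
      ch ((r - 1) / 2) = (false, x)) := by
  unfold ip
  rw [if_neg (by omega), if_neg ht, Bool.or_eq_true, decide_eq_true_iff, decide_eq_true_iff]

theorem ip_last {x : ℕ} (hx : x < 3 * L) : ip L τ ch x (4 * L + 2) = false := by
  rw [Bool.eq_false_iff]
  intro h
  by_cases ht : τ x = true
  · rw [ip_true hx ht] at h
    omega
  · rw [ip_false hx ht] at h
    omega

theorem ip_zero {x : ℕ} (hx : x < 3 * L) (ht : τ x ≠ true) : ip L τ ch x 0 = false := by
  rw [Bool.eq_false_iff]
  intro h
  rw [ip_false hx ht] at h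
  omega

end

theorem plan {φ : List Cl} {m T : ℕ} (hb : Bounded3 φ) (hL : 0 < φ.length)
    (hm : m = 4 * φ.length + 1) (hT : T = 3 * φ.length * (4 * φ.length + 3)) (hs : SAT3 φ) :
    ∃ g inn, Plan (lab φ) m T g inn := by
  classical
  obtain ⟨τ, hτ⟩ := hs
  have hB0 : 0 < 4 * φ.length + 3 := by omega
  have hex : ∀ j, ∃ l : Lit ℕ, j < φ.length → l.2 < 3 * φ.length ∧
      inC (φ.getD j dcl) l = true ∧ τ l.2 = l.1 := by
    intro j
    by_cases hj : j < φ.length
    · have hgd : φ.getD j dcl = φ[j] := by
        rw [List.getD_eq_getElem?_getD, List.getElem?_eq_getElem hj, Option.getD_some]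
      have hb' := hb _ (List.getElem_mem hj)
      rw [hgd]
      rcases hτ _ (List.getElem_mem hj) with h | h | h
      · exact ⟨_, fun _ => ⟨hb'.1, inC_iff.2 (Or.inl rfl), h⟩⟩
      · exact ⟨_, fun _ => ⟨hb'.2.1, inC_iff.2 (Or.inr (Or.inl rfl)), h⟩⟩
      · exact ⟨_, fun _ => ⟨hb'.2.2, inC_iff.2 (Or.inr (Or.inr rfl)), h⟩⟩
    · exact ⟨(true, 0), fun h => absurd h hj⟩
  choose ch hch using hex
  obtain ⟨B, hB⟩ : ∃ B, B = 4 * φ.length + 3 := ⟨_, rfl⟩
  rw [← hB] at hT hB0
  -- positions in blocks
  have hdm : ∀ x r, r < B → (B * x + r) / B = x ∧ (B * x + r) % B = r := by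
    intro x r hr
    rw [Nat.mul_add_div hB0, Nat.div_eq_of_lt hr, Nat.add_zero, Nat.mul_add_mod,
      Nat.mod_eq_of_lt hr]
    exact ⟨rfl, rfl⟩
  have hnext : ∀ x r, r < B → (r + 1 < B ∧ B * x + r + 1 = B * x + (r + 1)) ∨
      (r = 4 * φ.length + 2 ∧ B * x + r + 1 = B * (x + 1) + 0) := by
    intro x r hr
    by_cases h : r + 1 < B
    · exact Or.inl ⟨h, rfl⟩
    · right
      rw [Nat.mul_succ]
      omega
  -- labels
  have lX : ∀ x < 3 * φ.length, ∀ r, (r = 0 ∨ r = 2 * φ.length + 1 ∨ r = 4 * φ.length + 2) →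
      lab φ x (B * x + r) = true := by
    intro x hx r hr
    unfold lab
    rw [if_pos hx, labX_iff (r := r) (y := x) (by omega) (by rw [hB])]
    exact ⟨rfl, hr⟩
  have lC : ∀ x r, r < B → ∀ j < φ.length,
      ((1 ≤ r ∧ r ≤ 2 * φ.length ∧ (r - 1) / 2 = j ∧ inC (φ.getD j dcl) (false, x) = true) ∨
      (2 * φ.length + 2 ≤ r ∧ r ≤ 4 * φ.length + 1 ∧ (r - (2 * φ.length + 2)) / 2 = j ∧
        inC (φ.getD j dcl) (true, x) = true)) → lab φ (3 * φ.length + j) (B * x + r) = true := by
    intro x r hr j hj h
    unfold lab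
    rw [if_neg (by omega), if_pos (by omega), Nat.add_sub_cancel_left,
      labC_iff (r := r) (x := x) (by omega) (by rw [hB])]
    exact h
  -- block at the end
  have hend : ∀ x r, r < B → 3 * φ.length ≤ x → (B * x + r) + 1 ≠ T →
      ¬ (B * x + r + 1 < T) := by
    intro x r hr hx _ hlt
    have := Nat.mul_le_mul_left B hx
    rw [Nat.mul_comm B (3 * φ.length)] at this
    omega
  set g : ℕ → ℕ := fun c => gp φ.length τ (c / B) (c % B) with hg
  set inn : ℕ → Bool := fun c => ip φ.length τ ch (c / B) (c % B) with hinn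
  have hgE : ∀ x r, r < B → g (B * x + r) = gp φ.length τ x r := by
    intro x r hr
    simp only [hg]
    rw [(hdm x r hr).1, (hdm x r hr).2]
  have hiE : ∀ x r, r < B → inn (B * x + r) = ip φ.length τ ch x r := by
    intro x r hr
    simp only [hinn]
    rw [(hdm x r hr).1, (hdm x r hr).2]
  have hi0 : inn 0 = ip φ.length τ ch 0 0 := by
    have := hiE 0 0 hB0
    rwa [Nat.mul_zero] at this
  have hg0 : g 0 = gp φ.length τ 0 0 := by
    have := hgE 0 0 hB0
    rwa [Nat.mul_zero] at this
  have hgp0 : ∀ x < 3 * φ.length, gp φ.length τ x 0 = x := by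
    intro x hx
    unfold gp
    split_ifs <;> omega
  have hchin : ∀ j < φ.length, ∀ b x, ch j = (b, x) → inC (φ.getD j dcl) (b, x) = true := by
    intro j hj b x h
    rw [← h]
    exact (hch j hj).2.1
  refine ⟨g, inn, ?_, ?_, ?_, ?_, ?_, ?_, ?_⟩
  · rw [hg0, hgp0 0 (by omega)]
  · intro c
    obtain ⟨x, r, hr, rfl⟩ := split_mod hB0 c
    rw [hgE x r hr]
    unfold gp
    split_ifs <;> omega
  · intro c
    obtain ⟨x, r, hr, rfl⟩ := split_mod hB0 c
    rw [hiE x r hr]
    intro hi
    rcases hnext x r hr with ⟨h1, h2⟩ | ⟨rfl, h2⟩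
    · rw [h2, hgE x (r + 1) h1, hgE x r hr]
      by_cases hx : 3 * φ.length ≤ x
      · unfold gp
        rw [if_pos hx, if_pos hx]
      · unfold gp
        rw [if_neg hx, if_neg hx]
        by_cases ht : τ x = true
        · rw [ip_true (by omega) ht] at hi
          rw [if_pos ht, if_pos ht]
          split_ifs <;> omega
        · rw [ip_false (by omega) ht] at hi
          rw [if_neg ht, if_neg ht]
          split_ifs <;> omega
    · by_cases hx : 3 * φ.length ≤ x
      · rw [h2, hgE (x + 1) 0 hB0, hgE x _ hr]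
        unfold gp
        rw [if_pos hx, if_pos (by omega)]
      · rw [ip_last (by omega)] at hi
        exact absurd hi Bool.false_ne_true
  · intro _
    rw [hg0, hgp0 0 (by omega)]
    have := lX 0 (by omega) 0 (Or.inl rfl)
    rwa [Nat.mul_zero] at this
  · intro c
    obtain ⟨x, r, hr, rfl⟩ := split_mod hB0 c
    rw [hiE x r hr]
    intro hi hi'
    have hx : ¬ (3 * φ.length ≤ x) := by
      intro hx
      unfold ip at hi
      rw [if_pos hx] at hi
      exact Bool.false_ne_true hi.symm
    rcases hnext x r hr with ⟨h1, h2⟩ | ⟨rfl, h2⟩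
    · rw [h2] at hi' ⊢
      rw [hiE x _ h1] at hi'
      rw [hgE x _ h1]
      unfold gp
      rw [if_neg hx]
      rw [← Bool.not_eq_true] at hi
      by_cases ht : τ x = true
      · rw [ip_true (by omega) ht] at hi hi'
        rw [if_pos ht]
        rcases hi' with h | ⟨a1, a2, a3, a4⟩
        · omega
        · rw [if_pos ⟨a1, a2⟩]
          exact lC x _ h1 _ (by omega) (Or.inr ⟨a1, a2, rfl, hchin _ (by omega) _ _ a4⟩)
      · rw [ip_false (by omega) ht] at hi hi'
        rw [if_neg ht]
        rcases hi' with h | ⟨a1, a2, a3, a4⟩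
        · rw [if_neg (by omega)]
          exact lX x (by omega) _ (by omega)
        · rw [if_pos ⟨a1, a2⟩]
          exact lC x _ h1 _ (by omega) (Or.inl ⟨a1, a2, rfl, hchin _ (by omega) _ _ a4⟩)
    · rw [h2] at hi' ⊢
      rw [hgE _ _ hB0]
      by_cases hx' : 3 * φ.length ≤ x + 1
      · unfold gp
        rw [if_pos hx']
        unfold lab
        rw [if_neg (by omega), if_neg (by omega), decide_eq_true_iff]
        have : x + 1 = 3 * φ.length := by omega
        rw [this, ← hB, Nat.add_zero, Nat.mul_comm]
      · rw [hgp0 _ (by omega)]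
        exact lX _ (by omega) _ (Or.inl rfl)
  · intro c
    obtain ⟨x, r, hr, rfl⟩ := split_mod hB0 c
    rw [hiE x r hr]
    intro hi hi'
    rcases hnext x r hr with ⟨h1, h2⟩ | ⟨rfl, h2⟩
    · rw [h2] at hi' ⊢
      rw [hiE x _ h1] at hi'
      have hx : ¬ (3 * φ.length ≤ x) := by
        intro hx
        unfold ip at hi'
        rw [if_pos hx] at hi'
        exact Bool.false_ne_true hi'.symm
      rw [hgE x _ h1]
      unfold gp
      rw [if_neg hx]
      rw [← Bool.not_eq_true] at hi'
      by_cases ht : τ x = true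
      · rw [ip_true (by omega) ht] at hi hi'
        rw [if_pos ht]
        rcases hi with h | ⟨a1, a2, a3, a4⟩
        · rw [if_neg (by omega)]
          exact lX x (by omega) _ (by omega)
        · rw [if_pos (by omega)]
          refine lC x _ h1 _ (by omega) (Or.inr ⟨by omega, by omega, rfl, ?_⟩)
          refine hchin _ (by omega) _ _ ?_
          rw [← a4]
          congr 1
          omega
      · rw [ip_false (by omega) ht] at hi hi'
        rw [if_neg ht]
        rcases hi with h | ⟨a1, a2, a3, a4⟩
        · rw [if_neg (by omega)]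
          exact lX x (by omega) _ (by omega)
        · rw [if_pos (by omega)]
          refine lC x _ h1 _ (by omega) (Or.inl ⟨by omega, by omega, rfl, ?_⟩)
          refine hchin _ (by omega) _ _ ?_
          rw [← a4]
          congr 1
          omega
    · by_cases hx : 3 * φ.length ≤ x
      · rw [h2, hiE _ _ hB0] at hi'
        unfold ip at hi'
        rw [if_pos (by omega)] at hi'
        exact absurd hi'.symm Bool.false_ne_true
      · rw [ip_last (by omega)] at hi
        exact absurd hi Bool.false_ne_true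
  · intro i hi
    have hprev : ∀ x < 3 * φ.length, ∀ r, r < B → B * x + r ≤ T := by
      intro x hx r hr
      have := Nat.mul_le_mul_left B (show x + 1 ≤ 3 * φ.length by omega)
      rw [Nat.mul_succ, Nat.mul_comm B (3 * φ.length)] at this
      omega
    by_cases h1 : i < 3 * φ.length
    · by_cases ht : τ i = true
      · refine ⟨B * i + 0, hprev i h1 0 hB0, ?_, ?_, ?_⟩
        · rw [hiE i 0 hB0, ip_true h1 ht]
          omega
        · rw [hgE i 0 hB0, hgp0 i h1]
        · intro d hd
          rcases i with _ | i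
          · omega
          · rw [Nat.mul_succ] at hd
            have : d = B * i + (4 * φ.length + 2) := by omega
            rw [this, hiE i _ (by omega), ip_last (by omega)]
      · refine ⟨B * i + (2 * φ.length + 1), hprev i h1 _ (by omega), ?_, ?_, ?_⟩
        · rw [hiE i _ (by omega), ip_false h1 ht]
          omega
        · rw [hgE i _ (by omega)]
          unfold gp
          rw [if_neg (by omega), if_neg ht, if_neg (by omega)]
        · intro d hd
          have : d = B * i + 2 * φ.length := by omega
          rw [this, hiE i _ (by omega), Bool.eq_false_iff]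
          intro hc
          rw [ip_false h1 ht] at hc
          omega
    · by_cases h2 : i < 4 * φ.length
      · obtain ⟨j, rfl⟩ : ∃ j, i = 3 * φ.length + j := ⟨i - 3 * φ.length, by omega⟩
        obtain ⟨c1, c2, c3⟩ := hch j (by omega)
        cases hs : (ch j).1 with
        | true =>
          rw [hs] at c3
          have hchj : ch j = (true, (ch j).2) := by rw [← hs]
          refine ⟨B * (ch j).2 + (2 * φ.length + 2 + 2 * j), hprev _ c1 _ (by omega), ?_, ?_, ?_⟩
          · rw [hiE _ _ (by omega), ip_true c1 c3]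
            refine Or.inr ⟨by omega, by omega, by omega, ?_⟩
            rw [show (2 * φ.length + 2 + 2 * j - (2 * φ.length + 2)) / 2 = j by omega]
            exact hchj
          · rw [hgE _ _ (by omega)]
            unfold gp
            rw [if_neg (by omega), if_pos c3, if_pos (by omega)]
            omega
          · intro d hd
            have : d = B * (ch j).2 + (2 * φ.length + 1 + 2 * j) := by omega
            rw [this, hiE _ _ (by omega), Bool.eq_false_iff]
            intro hc
            rw [ip_true c1 c3] at hc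
            omega
        | false =>
          rw [hs] at c3
          have c3' : τ (ch j).2 ≠ true := by rw [c3]; simp
          have hchj : ch j = (false, (ch j).2) := by rw [← hs]
          refine ⟨B * (ch j).2 + (1 + 2 * j), hprev _ c1 _ (by omega), ?_, ?_, ?_⟩
          · rw [hiE _ _ (by omega), ip_false c1 c3']
            refine Or.inr ⟨by omega, by omega, by omega, ?_⟩
            rw [show (1 + 2 * j - 1) / 2 = j by omega]
            exact hchj
          · rw [hgE _ _ (by omega)]
            unfold gp
            rw [if_neg (by omega), if_neg c3', if_pos (by omega)]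
            omega
          · intro d hd
            have : d = B * (ch j).2 + 2 * j := by omega
            rw [this, hiE _ _ (by omega), Bool.eq_false_iff]
            intro hc
            rw [ip_false c1 c3'] at hc
            omega
      · have hi4 : i = 4 * φ.length := by omega
        have hTB : T = B * (3 * φ.length) + 0 := by rw [hT, Nat.mul_comm, Nat.add_zero]
        refine ⟨T, le_rfl, ?_, ?_, ?_⟩
        · rw [hTB, hiE _ _ hB0]
          unfold ip
          rw [if_pos le_rfl]
        · rw [hTB, hgE _ _ hB0]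
          unfold gp
          rw [if_pos le_rfl, hi4]
        · intro d hd
          obtain ⟨y, hy⟩ : ∃ y, 3 * φ.length = y + 1 := ⟨3 * φ.length - 1, by omega⟩
          rw [hTB, hy, Nat.mul_succ] at hd
          have : d = B * y + (4 * φ.length + 2) := by omega
          rw [this, hiE y _ (by omega), ip_last (by omega)]

end Pool.Agent.NPC.V11230.CP
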