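import Pool.Agent.V11230.DS3
import Pool.Agent.NPC.Classes
import Pool.Agent.NPC.Dec

/-!
# Visiting the leaves of a star: schedules of snapshots
-/

set_option autoImplicit false

namespace Pool.Agent.NPC.V11230.DS

open Pool.Agent.NPC Pool.Agent.V11230.DS

/-! ### Definitions -/

/-- Matrices, as lists of rows. -/
abbrev Mat : Type := List (List Bool)

/-- the entry in row `i` and column `j` -/
def entry (M : Mat) (i j : ℕ) : Bool := (M.getD i []).getD j false

/-- `M` is the adjacency matrix of a simple graph on `0, ..., n - 1`. -/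
structure IsAdj (n : ℕ) (M : Mat) : Prop where
  rows : M.length = n
  cols : ∀ r ∈ M, r.length = n
  irrefl : ∀ i, entry M i i = false
  symm : ∀ i j, entry M i j = entry M j i

/-- An instance: the adjacency matrix of the underlying graph `G`, the start vertex, the deadline,
and the schedule `(G_1, t_1), ..., (G_m, t_m)`. -/
abbrev Inst : Type := Mat × ℕ × ℕ × List (Mat × ℕ)

/-- The adjacency matrix of the snapshot at time `τ`; the last one of the schedule persists. -/
def snap : List (Mat × ℕ) → ℕ → Mat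
  | [], _ => []
  | q :: l, τ => if τ < q.2 ∨ l = [] then q.1 else snap l (τ - q.2)

/-- The edge `uv` is available at time `τ`. -/
def Avail (I : Inst) (τ u v : ℕ) : Prop := entry (snap I.2.2.2 τ) u v = true

/-- The matrix is that of a star: its edges are the pairs of the centre and another vertex. -/
def IsStar (G : Mat) : Prop :=
  IsAdj G.length G ∧ ∃ c < G.length, ∀ i < G.length, ∀ j < G.length,
    (entry G i j = true ↔ i ≠ j ∧ (i = c ∨ j = c))

/-- The instance is a correct instance on a star in the class `B_Δ`. -/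
structure Valid (Δ : ℕ) (I : Inst) : Prop where
  star : IsStar I.1
  start : I.2.1 < I.1.length
  snaps : ∀ q ∈ I.2.2.2, IsAdj I.1.length q.1 ∧ 1 ≤ q.2 ∧
    ∀ i j, entry q.1 i j = true → entry I.1 i j = true
  total : I.2.2.1 ≤ (I.2.2.2.map Prod.snd).sum
  recur : ∀ i < I.1.length, ∀ j < I.1.length, entry I.1 i j = true →
    ∀ τ, ∃ τ', τ ≤ τ' ∧ τ' < τ + Δ ∧ Avail I τ' i j

/-- The agent can visit all vertices by the deadline; `pos τ` is its vertex at time `τ`. -/
def CanVisit (I : Inst) : Prop :=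
  ∃ pos : ℕ → ℕ, pos 0 = I.2.1 ∧
    (∀ τ < I.2.2.1, pos (τ + 1) = pos τ ∨ Avail I τ (pos τ) (pos (τ + 1))) ∧
    ∀ v < I.1.length, ∃ τ ≤ I.2.2.1, pos τ = v

/-! ### Snapshots of a star -/

/-- the star with centre `0` and the leaves `l + 1` with `f l` -/
def matOf (m : ℕ) (f : ℕ → Bool) : Mat :=
  (List.range (m + 1)).map (fun i => (List.range (m + 1)).map (fun j =>
    if i = 0 then (decide (1 ≤ j) && f (j - 1)) else (decide (j = 0) && f (i - 1))))

theorem matOf_length (m : ℕ) (f : ℕ → Bool) : (matOf m f).length = m + 1 := by simp [matOf]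

theorem entry_matOf {m : ℕ} {f : ℕ → Bool} {i j : ℕ} : entry (matOf m f) i j = true ↔
    (i = 0 ∧ ∃ l < m, j = l + 1 ∧ f l = true) ∨ (j = 0 ∧ ∃ l < m, i = l + 1 ∧ f l = true) := by
  unfold entry matOf
  by_cases hi : i < m + 1
  · by_cases hj : j < m + 1
    · simp only [List.getD_eq_getElem?_getD, List.getElem?_map, List.getElem?_range hi,
        Option.map_some, Option.getD_some, List.getElem?_range hj]
      by_cases h0 : i = 0
      · subst h0
        rw [if_pos rfl, Bool.and_eq_true, decide_eq_true_iff]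
        constructor
        · rintro ⟨h1, h2⟩
          exact Or.inl ⟨rfl, j - 1, by omega, by omega, h2⟩
        · rintro (⟨_, l, _, rfl, h⟩ | ⟨_, l, _, h, _⟩)
          · exact ⟨by omega, by simpa using h⟩
          · omega
      · rw [if_neg h0, Bool.and_eq_true, decide_eq_true_iff]
        constructor
        · rintro ⟨h1, h2⟩
          exact Or.inr ⟨h1, i - 1, by omega, by omega, h2⟩
        · rintro (⟨h, _⟩ | ⟨h1, l, _, rfl, h⟩)
          · exact absurd h h0
          · exact ⟨h1, by simpa using h⟩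
    · simp only [List.getD_eq_getElem?_getD, List.getElem?_map, List.getElem?_range hi,
        Option.map_some, Option.getD_some]
      rw [List.getElem?_eq_none (by simp; omega)]
      simp only [Option.map_none, Option.getD_none, Bool.false_eq_true, false_iff]
      rintro (⟨_, l, h1, h2, _⟩ | ⟨h, _⟩) <;> omega
  · have hno : (List.range (m + 1))[i]? = none := List.getElem?_eq_none (by simp; omega)
    simp only [List.getD_eq_getElem?_getD, List.getElem?_map, hno, Option.map_none,
      Option.getD_none, List.getElem?_nil, Bool.false_eq_true, false_iff]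
    rintro (⟨h, _⟩ | ⟨_, l, h1, h2, _⟩) <;> omega

theorem isAdj_matOf (m : ℕ) (f : ℕ → Bool) : IsAdj (m + 1) (matOf m f) := by
  refine ⟨matOf_length m f, ?_, ?_, ?_⟩
  · intro r hr
    unfold matOf at hr
    obtain ⟨i, _, rfl⟩ := List.mem_map.1 hr
    simp
  · intro i
    rw [Bool.eq_false_iff]
    intro h
    rcases entry_matOf.1 h with ⟨h1, l, _, h2, _⟩ | ⟨h1, l, _, h2, _⟩ <;> omega
  · intro i j
    rw [Bool.eq_iff_iff, entry_matOf, entry_matOf]
    exact or_comm

theorem isStar_matOf (m : ℕ) : IsStar (matOf m (fun _ => true)) := by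
  refine ⟨by rw [matOf_length]; exact isAdj_matOf m _, 0, by rw [matOf_length]; omega, ?_⟩
  intro i hi j hj
  rw [matOf_length] at hi hj
  rw [entry_matOf]
  constructor
  · rintro (⟨h1, l, _, h2, _⟩ | ⟨h1, l, _, h2, _⟩) <;> omega
  · rintro ⟨h1, h2 | h2⟩
    · exact Or.inl ⟨h2, j - 1, by omega, by omega, rfl⟩
    · exact Or.inr ⟨h2, i - 1, by omega, by omega, rfl⟩

theorem snap_unit (F : Mat) : ∀ (l : List Mat) (τ : ℕ),
    snap (l.map (fun M => (M, 1)) ++ [(F, 1)]) τ = l.getD τ F
  | [], τ => by simp [snap]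
  | M :: l, 0 => by simp [snap]
  | M :: l, τ + 1 => by
    rw [List.map_cons, List.cons_append, snap, if_neg (by simp), Nat.add_sub_cancel,
      snap_unit F l τ, List.getD_cons_succ]

/-! ### The instance of a star with a presence function -/

/-- the snapshots for the times before `T` and then the complete star -/
def sched (N T : ℕ) (ρ : ℕ → ℕ → Bool) : List (Mat × ℕ) :=
  ((List.range T).map (fun t => matOf N (fun l => ρ l t))).map (fun M => (M, 1)) ++
    [(matOf N (fun _ => true), 1)]

/-- the instance -/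
def starInst (N T : ℕ) (ρ : ℕ → ℕ → Bool) : Inst :=
  (matOf N (fun _ => true), 0, T - 1, sched N T ρ)

section

variable {N T : ℕ} {ρ : ℕ → ℕ → Bool}

theorem snap_lt {τ : ℕ} (h : τ < T) :
    snap (sched N T ρ) τ = matOf N (fun l => ρ l τ) := by
  unfold sched
  rw [snap_unit, List.getD_eq_getElem?_getD, List.getElem?_map, List.getElem?_range h]
  rfl

theorem snap_ge {τ : ℕ} (h : T ≤ τ) : snap (sched N T ρ) τ = matOf N (fun _ => true) := by
  unfold sched
  rw [snap_unit, List.getD_eq_getElem?_getD, List.getElem?_eq_none (by simpa using h)]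
  rfl

theorem valid_starInst {Δ : ℕ} (hΔ : 2 ≤ Δ)
    (h : ∀ l < N, ∀ t, ρ l t = true ∨ ρ l (t + 1) = true) : Valid Δ (starInst N T ρ) := by
  have hlen : (starInst N T ρ).1.length = N + 1 := matOf_length N (fun _ => true)
  have hav : ∀ l < N, ∀ τ, ρ l τ = true ∨ T ≤ τ →
      Avail (starInst N T ρ) τ 0 (l + 1) ∧ Avail (starInst N T ρ) τ (l + 1) 0 := by
    intro l hl τ hτ
    unfold Avail
    change entry (snap (sched N T ρ) τ) _ _ = true ∧ entry (snap (sched N T ρ) τ) _ _ = true
    by_cases h1 : τ < T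
    · rw [snap_lt h1, entry_matOf, entry_matOf]
      have h2 : ρ l τ = true := by
        rcases hτ with h2 | h2
        · exact h2
        · omega
      exact ⟨Or.inl ⟨rfl, l, hl, rfl, h2⟩, Or.inr ⟨rfl, l, hl, rfl, h2⟩⟩
    · rw [snap_ge (by omega), entry_matOf, entry_matOf]
      exact ⟨Or.inl ⟨rfl, l, hl, rfl, rfl⟩, Or.inr ⟨rfl, l, hl, rfl, rfl⟩⟩
  refine ⟨isStar_matOf N, ?_, ?_, ?_, ?_⟩
  · rw [hlen]
    exact Nat.succ_pos N
  · intro q hq
    rw [hlen]
    have hsub : ∀ f : ℕ → Bool, ∀ i j, entry (matOf N f) i j = true →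
        entry (matOf N (fun _ => true)) i j = true := by
      intro f i j hf
      rw [entry_matOf] at hf ⊢
      rcases hf with ⟨h1, l, h2, h3, _⟩ | ⟨h1, l, h2, h3, _⟩
      · exact Or.inl ⟨h1, l, h2, h3, rfl⟩
      · exact Or.inr ⟨h1, l, h2, h3, rfl⟩
    have hq' : q ∈ sched N T ρ := hq
    unfold sched at hq'
    rw [List.mem_append, List.mem_singleton] at hq'
    rcases hq' with hq' | rfl
    · obtain ⟨M, hM, rfl⟩ := List.mem_map.1 hq'
      obtain ⟨t, _, rfl⟩ := List.mem_map.1 hM
      exact ⟨isAdj_matOf N (fun l => ρ l t), le_rfl, hsub (fun l => ρ l t)⟩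
    · exact ⟨isAdj_matOf N (fun _ => true), le_rfl, hsub (fun _ => true)⟩
  · have : ((starInst N T ρ).2.2.2.map Prod.snd).sum = T + 1 := by
      change ((sched N T ρ).map Prod.snd).sum = T + 1
      unfold sched
      rw [List.map_append, List.sum_append, List.map_map, List.map_map]
      have hc : ((Prod.snd ∘ fun M : Mat => (M, 1)) ∘ fun t => matOf N (fun l => ρ l t)) =
        fun _ => 1 := rfl
      rw [hc]
      simp
    rw [this]
    change T - 1 ≤ T + 1
    omega
  · intro i hi j hj he τ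
    have he' : entry (matOf N (fun _ => true)) i j = true := he
    rw [entry_matOf] at he'
    have key : ∀ l < N, ∃ τ', τ ≤ τ' ∧ τ' < τ + Δ ∧ (ρ l τ' = true ∨ T ≤ τ') := by
      intro l hl
      rcases h l hl τ with h' | h'
      · exact ⟨τ, le_rfl, by omega, Or.inl h'⟩
      · exact ⟨τ + 1, by omega, by omega, Or.inl h'⟩
    rcases he' with ⟨rfl, l, hl, rfl, _⟩ | ⟨rfl, l, hl, rfl, _⟩
    · obtain ⟨τ', h1, h2, h3⟩ := key l hl
      exact ⟨τ', h1, h2, (hav l hl τ' h3).1⟩
    · obtain ⟨τ', h1, h2, h3⟩ := key l hl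
      exact ⟨τ', h1, h2, (hav l hl τ' h3).2⟩

theorem avail_iff {τ u v : ℕ} (h : τ < T) : Avail (starInst N T ρ) τ u v ↔
    (u = 0 ∧ ∃ l < N, v = l + 1 ∧ ρ l τ = true) ∨ (v = 0 ∧ ∃ l < N, u = l + 1 ∧ ρ l τ = true) := by
  unfold Avail
  change entry (snap (sched N T ρ) τ) u v = true ↔ _
  rw [snap_lt h, entry_matOf]

theorem ent_of_canVisit (h : CanVisit (starInst N T ρ)) : ∃ e, Ent N (T - 1) ρ e := by
  classical
  obtain ⟨pos, h0, hmove, hall⟩ := h
  have h0' : pos 0 = 0 := h0
  have hmove' : ∀ τ < T - 1, pos (τ + 1) = pos τ ∨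
      Avail (starInst N T ρ) τ (pos τ) (pos (τ + 1)) := hmove
  have hex : ∀ l, ∃ a, l < N → a < T - 1 ∧ pos a = 0 ∧ pos (a + 1) = l + 1 ∧ ρ l a = true := by
    intro l
    by_cases hl : l < N
    · have hex : ∃ τ, τ ≤ T - 1 ∧ pos τ = l + 1 := by
        obtain ⟨τ, h1, h2⟩ := hall (l + 1) (by
          change l + 1 < (matOf N (fun _ => true)).length
          rw [matOf_length]
          omega)
        exact ⟨τ, h1, h2⟩
      obtain ⟨g1, g2⟩ := Nat.find_spec hex
      have g3 : ∀ τ < Nat.find hex, ¬ (τ ≤ T - 1 ∧ pos τ = l + 1) :=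
        fun τ hτ => Nat.find_min hex hτ
      set τ₀ := Nat.find hex with hτ₀
      have g4 : τ₀ ≠ 0 := by
        intro hz
        rw [hz, h0'] at g2
        omega
      obtain ⟨a, ha⟩ : ∃ a, τ₀ = a + 1 := ⟨τ₀ - 1, by omega⟩
      rw [ha] at g1 g2
      have g5 := g3 a (by omega)
      have g6 : pos a ≠ l + 1 := fun hc => g5 ⟨by omega, hc⟩
      refine ⟨a, fun _ => ?_⟩
      rcases hmove' a (by omega) with hm | hm
      · rw [g2] at hm
        exact absurd hm.symm g6
      · rw [g2, avail_iff (by omega)] at hm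
        rcases hm with ⟨m1, l', m2, m3, m4⟩ | ⟨m1, _⟩
        · have : l' = l := by omega
          subst this
          exact ⟨by omega, m1, g2, m4⟩
        · omega
    · exact ⟨0, fun h => absurd h hl⟩
  choose e he using hex
  refine ⟨e, fun l hl => (he l hl).1, fun l hl => (he l hl).2.2.2, ?_, ?_, ?_⟩
  · intro l hl l' hl' hee
    have h1 := (he l hl).2.2.1
    have h2 := (he l' hl').2.2.1
    rw [hee, h2] at h1
    omega
  · intro l hl l' hl' hee
    have h1 := (he l hl).2.2.1
    have h2 := (he l' hl').2.1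
    rw [hee, h2] at h1
    omega
  · intro l hl l' hl' hee
    have h1 := (he l hl).2.2.1
    have h2 := (he l' hl').2.1
    have h3 := (he l' hl').1
    rcases hmove' (e l + 1) (by omega) with hm | hm
    · rw [h1, show e l + 1 + 1 = e l' by omega, h2] at hm
      omega
    · rw [h1, show e l + 1 + 1 = e l' by omega, h2, avail_iff (by omega)] at hm
      rcases hm with ⟨m1, _⟩ | ⟨_, l'', m2, m3, m4⟩
      · omega
      · have : l'' = l := by omega
        subst this
        exact m4

theorem canVisit_of_ent2 {e : ℕ → ℕ} (h : Ent2 N (T - 1) ρ e) :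
    CanVisit (starInst N T ρ) := by
  classical
  set pos : ℕ → ℕ := fun τ => if h : ∃ l, l < N ∧ e l + 1 = τ then h.choose + 1 else 0 with hpos
  have p1 : ∀ l < N, pos (e l + 1) = l + 1 := by
    intro l hl
    have hex : ∃ l', l' < N ∧ e l' + 1 = e l + 1 := ⟨l, hl, rfl⟩
    simp only [hpos]
    rw [dif_pos hex]
    obtain ⟨h1, h2⟩ := hex.choose_spec
    rw [h.inj _ h1 l hl (by omega)]
  have p2 : ∀ τ, (∀ l < N, e l + 1 ≠ τ) → pos τ = 0 := by
    intro τ hτ
    simp only [hpos]
    rw [dif_neg]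
    rintro ⟨l, hl, he⟩
    exact hτ l hl he
  refine ⟨pos, p2 0 (fun l _ => by omega), ?_, ?_⟩
  · intro τ hτ
    have hτ' : τ < T - 1 := hτ
    rw [avail_iff (by omega)]
    by_cases h1 : ∃ l, l < N ∧ e l = τ
    · obtain ⟨l, hl, rfl⟩ := h1
      right
      left
      refine ⟨p2 _ (fun l' hl' => h.ne1 l' hl' l hl), l, hl, p1 l hl, h.av l hl⟩
    · have q1 : pos (τ + 1) = 0 := p2 _ (fun l hl he => h1 ⟨l, hl, by omega⟩)
      by_cases h2 : ∃ l, l < N ∧ e l + 1 = τ
      · obtain ⟨l, hl, rfl⟩ := h2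
        right
        right
        exact ⟨q1, l, hl, p1 l hl, h.av' l hl⟩
      · left
        rw [q1, p2 τ (fun l hl he => h2 ⟨l, hl, he⟩)]
  · intro v hv
    have hv' : v < N + 1 := by
      have : v < (matOf N (fun _ => true)).length := hv
      rwa [matOf_length] at this
    rcases v with _ | l
    · exact ⟨0, Nat.zero_le _, p2 0 (fun l _ => by omega)⟩
    · exact ⟨e l + 1, h.lt l (by omega), p1 l (by omega)⟩

end

/-! ### Recurrence -/

theorem sepP_rec (T t : ℕ) : sepP T t = true ∨ sepP T (t + 1) = true := by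
  unfold sepP
  split_ifs <;> simp only [decide_eq_true_eq] <;> omega

theorem clP_rec {cl : Cl} {K C P c : ℕ} (hP : P % 2 = 0) (hP0 : 0 < P) (t : ℕ) :
    clP cl K C P c t = true ∨ clP cl K C P c (t + 1) = true := by
  obtain ⟨x, r, hr, rfl⟩ : ∃ x r, r < P ∧ t = P * x + r :=
    ⟨t / P, t % P, Nat.mod_lt _ hP0, (Nat.div_add_mod t P).symm⟩
  by_cases h : r + 1 < P
  · rw [Nat.add_assoc, clP_eq hr, clP_eq h]
    split_ifs
    · unfold posP
      split_ifs <;> simp only [decide_eq_true_eq] <;> omega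
    · rw [negP_iff, negP_iff]
      omega
    · simp only [decide_eq_true_eq]
      omega
  · right
    have e : P * x + r + 1 = P * (x + 1) + 0 := by
      rw [Nat.mul_succ]
      omega
    rw [e, clP_eq hP0]
    split_ifs
    · unfold posP
      simp
    · rw [negP_iff]
      exact Or.inl rfl
    · simp

theorem pr_rec {φ : List Cl} {K C P n l : ℕ} (hP : P % 2 = 0) (hP0 : 0 < P) (t : ℕ) :
    pr φ K C P n l t = true ∨ pr φ K C P n l (t + 1) = true := by
  unfold pr
  split_ifs
  · exact sepP_rec _ t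
  · exact clP_rec hP hP0 t
  · exact Or.inl rfl

/-! ### The instance of a formula -/

/-- the number of variables -/
def vn (φ : List Cl) : ℕ := 3 * φ.length
/-- the number of copies -/
def vK (φ : List Cl) : ℕ := 4 * vn φ + 2
/-- the number of clause leaves -/
def vC (φ : List Cl) : ℕ := φ.length * vK φ
/-- the number of slots in a block -/
def vQ (φ : List Cl) : ℕ := 2 * vK φ + 2 * vC φ
/-- the duration of a block -/
def vP (φ : List Cl) : ℕ := 2 * vQ φ + 2
/-- the number of leaves -/
def vN (φ : List Cl) : ℕ := vn φ * vQ φ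

/-- the instance -/
def inst (φ : List Cl) : Inst :=
  starInst (vN φ) (vn φ * vP φ) (pr φ (vK φ) (vC φ) (vP φ) (vn φ))

theorem valid_inst (φ : List Cl) {Δ : ℕ} (hΔ : 2 ≤ Δ) : Valid Δ (inst φ) := by
  refine valid_starInst hΔ (fun l _ t => pr_rec ?_ ?_ t)
  · unfold vP
    omega
  · unfold vP
    omega

/-- **Correctness of the reduction.** -/
theorem sat_iff {φ : List Cl} (hD : Distinct3 φ) (hb : Bounded3 φ) (hne : φ ≠ []) :
    SAT3 φ ↔ CanVisit (inst φ) := by
  have hL : 0 < φ.length := List.length_pos_iff.2 hne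
  have hn : 0 < vn φ := by
    unfold vn
    omega
  have hT : vn φ * vP φ - 1 + 1 = vn φ * vP φ := by
    have : 0 < vn φ * vP φ := Nat.mul_pos hn (by unfold vP; omega)
    omega
  have hLn : φ.length ≤ vn φ := by
    unfold vn
    omega
  constructor
  · intro hs
    obtain ⟨e, he⟩ := complete (φ := φ) (K := vK φ) (C := vC φ) (Q := vQ φ) (P := vP φ)
      (n := vn φ) (N := vN φ) (t := vn φ * vP φ - 1) rfl rfl rfl rfl rfl hLn hT hD hb hs
    exact canVisit_of_ent2 he
  · intro hv
    obtain ⟨e, he⟩ := ent_of_canVisit hv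
    exact sound (φ := φ) (K := vK φ) (C := vC φ) (Q := vQ φ) (P := vP φ)
      (n := vn φ) (N := vN φ) (t := vn φ * vP φ - 1) rfl rfl rfl rfl rfl hLn hT he

end Pool.Agent.NPC.V11230.DS
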