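import Pool.Agent.V11230.CP2
import Pool.Agent.V11230.DS4

/-!
# Foremost coverage of periodic trees: the instances
-/

set_option autoImplicit false

namespace Pool.Agent.NPC.V11230.CP

open Pool.Agent.NPC Pool.Agent.NPC.V11230.DS

/-! ### Definitions -/

/-- The graph of an adjacency matrix. -/
def gr (M : Mat) : SimpleGraph (Fin M.length) where
  Adj i j := i ≠ j ∧ (entry M i j = true ∨ entry M j i = true)
  symm := ⟨fun _ _ h => ⟨h.1.symm, h.2.symm⟩⟩
  loopless := ⟨fun _ h => h.1 rfl⟩

/-- An instance: the adjacency matrix of the tree, the start vertex and the snapshots for the times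
`0, ..., p - 1`, where `p` is the period. -/
abbrev Inst : Type := Mat × ℕ × List Mat

/-- The edge `uv` is present at time `τ`. -/
def Avail (I : Inst) (τ u v : ℕ) : Prop :=
  entry (I.2.2.getD (τ % I.2.2.length) []) u v = true

/-- The instance is a periodic temporal tree of maximum degree at most `D`. -/
structure Valid (D : ℕ) (I : Inst) : Prop where
  adj : IsAdj I.1.length I.1
  tree : (gr I.1).IsTree
  degree : ∀ v, ((gr I.1).neighborSet v).ncard ≤ D
  start : I.2.1 < I.1.length
  period : 1 ≤ I.2.2.length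
  snaps : ∀ q ∈ I.2.2, IsAdj I.1.length q ∧ ∀ i j, entry q i j = true → entry I.1 i j = true
  recur : ∀ i j, entry I.1 i j = true → ∃ τ < I.2.2.length, Avail I τ i j

/-- The agent can cover all vertices by time `t`; `pos τ` is its vertex at time `τ`. -/
def Covers (I : Inst) (t : ℕ) : Prop :=
  ∃ pos : ℕ → ℕ, pos 0 = I.2.1 ∧
    (∀ τ < t, pos (τ + 1) = pos τ ∨ Avail I τ (pos τ) (pos (τ + 1))) ∧
    ∀ v < I.1.length, ∃ τ ≤ t, pos τ = v

/-! ### Trees -/

section

variable {N : ℕ} (G : SimpleGraph (Fin N))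

theorem isAcyclic_of (h : ∀ v a b, G.Adj v a → G.Adj v b → a < v → b < v → a = b) :
    G.IsAcyclic := by
  classical
  intro v c hc
  obtain ⟨w, hw, hmax⟩ := Finset.exists_max_image c.support.toFinset id
    ⟨v, List.mem_toFinset.2 c.start_mem_support⟩
  have hw' : w ∈ c.support := List.mem_toFinset.1 hw
  have hc' := hc.rotate hw'
  have hmax' : ∀ x ∈ (c.rotate w hw').support, x ≤ w := by
    intro x hx
    rw [SimpleGraph.Walk.mem_support_rotate_iff] at hx
    exact hmax x (List.mem_toFinset.2 hx)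
  have hn := hc'.not_nil
  have a1 := (c.rotate w hw').adj_snd hn
  have a2 := (c.rotate w hw').adj_penultimate hn
  have m1 : (c.rotate w hw').snd ∈ (c.rotate w hw').support :=
    List.mem_of_mem_tail ((c.rotate w hw').snd_mem_tail_support hn)
  have m2 : (c.rotate w hw').penultimate ∈ (c.rotate w hw').support :=
    List.mem_of_mem_dropLast ((c.rotate w hw').penultimate_mem_dropLast_support hn)
  exact hc'.snd_ne_penultimate (h w _ _ a1 a2.symm (lt_of_le_of_ne (hmax' _ m1) a1.ne')
    (lt_of_le_of_ne (hmax' _ m2) a2.ne))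

theorem connected_of (hN : 0 < N) (h : ∀ v : Fin N, 0 < v.1 → ∃ u, u.1 < v.1 ∧ G.Adj v u) :
    G.Connected := by
  have key : ∀ n, ∀ v : Fin N, v.1 = n → G.Reachable v ⟨0, hN⟩ := by
    intro n
    induction n using Nat.strong_induction_on with
    | _ n ih =>
      intro v hv
      by_cases h0 : v.1 = 0
      · have : v = ⟨0, hN⟩ := Fin.ext h0
        rw [this]
      · obtain ⟨u, hu, ha⟩ := h v (Nat.pos_of_ne_zero h0)
        exact ha.reachable.trans (ih u.1 (by omega) u rfl)
  haveI : Nonempty (Fin N) := ⟨⟨0, hN⟩⟩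
  exact ⟨fun u v => (key _ u rfl).trans (key _ v rfl).symm⟩

end

/-! ### Matrices -/

/-- the matrix of `f` -/
def tabM (n : ℕ) (f : ℕ → ℕ → Bool) : Mat :=
  (List.range n).map (fun i => (List.range n).map (fun j => f i j))

theorem tabM_length (n : ℕ) (f : ℕ → ℕ → Bool) : (tabM n f).length = n := by simp [tabM]

theorem entry_tabM {n : ℕ} {f : ℕ → ℕ → Bool} {i j : ℕ} :
    entry (tabM n f) i j = true ↔ i < n ∧ j < n ∧ f i j = true := by
  unfold entry tabM
  by_cases hi : i < n
  · by_cases hj : j < n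
    · simp [List.getD_eq_getElem?_getD, List.getElem?_map, List.getElem?_range hi,
        List.getElem?_range hj, hi, hj]
    · have hno : (List.range n)[j]? = none := List.getElem?_eq_none (by simpa using hj)
      simp [List.getD_eq_getElem?_getD, List.getElem?_map, List.getElem?_range hi, hno, hj]
  · have hno : (List.range n)[i]? = none := List.getElem?_eq_none (by simpa using hi)
    simp [List.getD_eq_getElem?_getD, List.getElem?_map, hno, hi]

theorem isAdj_tabM {n : ℕ} {f : ℕ → ℕ → Bool} (h0 : ∀ i, f i i = false)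
    (hs : ∀ i j, f i j = f j i) : IsAdj n (tabM n f) := by
  refine ⟨tabM_length n f, ?_, ?_, ?_⟩
  · intro r hr
    obtain ⟨i, _, rfl⟩ := List.mem_map.1 hr
    simp
  · intro i
    rw [Bool.eq_false_iff]
    intro h
    have := (entry_tabM.1 h).2.2
    rw [h0] at this
    exact Bool.false_ne_true this
  · intro i j
    rw [Bool.eq_iff_iff, entry_tabM, entry_tabM, hs i j]
    tauto

/-- all edges of the caterpillar -/
def treeE (m u v : ℕ) : Bool := edgeAt (fun _ _ => true) m 1 0 u v

theorem treeE_iff {m u v : ℕ} : treeE m u v = true ↔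
    (u < m ∧ v < m ∧ (u + 1 = v ∨ v + 1 = u)) ∨ (u < m ∧ v = m + u) ∨ (v < m ∧ u = m + v) := by
  unfold treeE
  rw [edgeAt_iff]
  have : ∀ i, pres (fun _ _ => true) 1 i 0 = true := fun i => by simp [pres]
  simp only [this, and_true]

theorem edgeAt_symm (lb : ℕ → ℕ → Bool) (m F t u v : ℕ) :
    edgeAt lb m F t u v = edgeAt lb m F t v u := by
  rw [Bool.eq_iff_iff, edgeAt_iff, edgeAt_iff]
  tauto

theorem edgeAt_irrefl (lb : ℕ → ℕ → Bool) (m F t u : ℕ) : edgeAt lb m F t u u = false := by
  rw [Bool.eq_false_iff]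
  intro h
  rcases edgeAt_iff.1 h with ⟨_, _, h⟩ | ⟨h1, h2, _⟩ | ⟨h1, h2, _⟩ <;> omega

/-- the instance with the labels `lb` -/
def catInst (lb : ℕ → ℕ → Bool) (m F T : ℕ) : Inst :=
  (tabM (2 * m) (treeE m), 0,
    (List.range (F * (T + 1))).map (fun t => tabM (2 * m) (edgeAt lb m F t)))

section

variable {lb : ℕ → ℕ → Bool} {m F T : ℕ}

theorem cat_len : (catInst lb m F T).1.length = 2 * m := tabM_length _ _

theorem cat_period : (catInst lb m F T).2.2.length = F * (T + 1) := by simp [catInst]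

theorem cat_avail {τ u v : ℕ} (hτ : τ < F * (T + 1)) : Avail (catInst lb m F T) τ u v ↔
    u < 2 * m ∧ v < 2 * m ∧ edgeAt lb m F τ u v = true := by
  unfold Avail
  rw [cat_period, Nat.mod_eq_of_lt hτ]
  change entry (((List.range (F * (T + 1))).map (fun t => tabM (2 * m) (edgeAt lb m F t))).getD τ
    []) u v = true ↔ _
  rw [List.getD_eq_getElem?_getD, List.getElem?_map, List.getElem?_range hτ, Option.map_some,
    Option.getD_some, entry_tabM]

theorem gr_adj {u v : Fin (catInst lb m F T).1.length} :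
    (gr (catInst lb m F T).1).Adj u v ↔ treeE m u v = true := by
  have hu : (u : ℕ) < 2 * m := lt_of_lt_of_eq u.2 cat_len
  have hv : (v : ℕ) < 2 * m := lt_of_lt_of_eq v.2 cat_len
  change u ≠ v ∧ (entry (tabM (2 * m) (treeE m)) u v = true ∨
    entry (tabM (2 * m) (treeE m)) v u = true) ↔ _
  rw [entry_tabM, entry_tabM]
  constructor
  · rintro ⟨_, ⟨_, _, h⟩ | ⟨_, _, h⟩⟩
    · exact h
    · unfold treeE at h ⊢
      rw [edgeAt_symm]
      exact h
  · intro h
    refine ⟨?_, Or.inl ⟨hu, hv, h⟩⟩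
    rintro rfl
    unfold treeE at h
    rw [edgeAt_irrefl] at h
    exact Bool.false_ne_true h

theorem cat_tree (hm : 0 < m) : (gr (catInst lb m F T).1).IsTree := by
  refine ⟨connected_of _ (by rw [cat_len]; omega) ?_, isAcyclic_of _ ?_⟩
  · intro v hv
    have hv2 : (v : ℕ) < 2 * m := lt_of_lt_of_eq v.2 cat_len
    by_cases h : v.1 < m
    · refine ⟨⟨v.1 - 1, by omega⟩, by simp; omega, gr_adj.2 (treeE_iff.2 ?_)⟩
      left
      simp only
      omega
    · refine ⟨⟨v.1 - m, by omega⟩, by simp; omega, gr_adj.2 (treeE_iff.2 ?_)⟩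
      right
      right
      simp only
      omega
  · intro v a b ha hb hav hbv
    rw [gr_adj, treeE_iff] at ha hb
    have h1 : a.1 < v.1 := hav
    have h2 : b.1 < v.1 := hbv
    refine Fin.ext ?_
    omega

theorem cat_degree (v : Fin (catInst lb m F T).1.length) :
    ((gr (catInst lb m F T).1).neighborSet v).ncard ≤ 3 := by
  classical
  have h1 : (Fin.val '' ((gr (catInst lb m F T).1).neighborSet v)).ncard =
      ((gr (catInst lb m F T).1).neighborSet v).ncard :=
    Set.ncard_image_of_injective _ Fin.val_injective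
  rw [← h1]
  have h2 : Fin.val '' ((gr (catInst lb m F T).1).neighborSet v) ⊆
      ((if v.1 < m then {v.1 - 1, v.1 + 1, m + v.1} else {v.1 - m} : Finset ℕ) : Set ℕ) := by
    rintro x ⟨a, ha, rfl⟩
    have ha' := gr_adj.1 ha
    rw [treeE_iff] at ha'
    rw [Finset.mem_coe]
    split_ifs with hv
    · simp only [Finset.mem_insert, Finset.mem_singleton]
      omega
    · simp only [Finset.mem_singleton]
      omega
  refine (Set.ncard_le_ncard h2 (Finset.finite_toSet _)).trans ?_
  rw [Set.ncard_coe_finset]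
  split_ifs
  · exact Finset.card_le_three
  · simp

theorem valid_cat (hm : 0 < m) (hF : 0 < F) (hlb : ∀ i < m, ∃ c ≤ T, lb i c = true) :
    Valid 3 (catInst lb m F T) := by
  refine ⟨?_, cat_tree hm, cat_degree, ?_, ?_, ?_, ?_⟩
  · rw [cat_len]
    exact isAdj_tabM (fun i => edgeAt_irrefl _ _ _ _ i) (fun i j => edgeAt_symm _ _ _ _ i j)
  · rw [cat_len]
    change 0 < 2 * m
    omega
  · rw [cat_period]
    exact Nat.mul_pos hF (Nat.succ_pos T)
  · intro q hq
    rw [cat_len]
    obtain ⟨t, _, rfl⟩ := List.mem_map.1 (show q ∈ (List.range (F * (T + 1))).map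
      (fun t => tabM (2 * m) (edgeAt lb m F t)) from hq)
    refine ⟨isAdj_tabM (fun i => edgeAt_irrefl _ _ _ _ i) (fun i j => edgeAt_symm _ _ _ _ i j),
      fun i j h => ?_⟩
    change entry (tabM (2 * m) (treeE m)) i j = true
    rw [entry_tabM] at h ⊢
    refine ⟨h.1, h.2.1, ?_⟩
    have h3 := edgeAt_iff.1 h.2.2
    rw [treeE_iff]
    tauto
  · intro i j h
    rw [cat_period]
    have h' : entry (tabM (2 * m) (treeE m)) i j = true := h
    rw [entry_tabM, treeE_iff] at h'
    obtain ⟨hi, hj, h'⟩ := h'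
    have hp : 0 < F * (T + 1) := Nat.mul_pos hF (Nat.succ_pos T)
    rcases h' with h' | ⟨h1, h2⟩ | ⟨h1, h2⟩
    · exact ⟨0, hp, (cat_avail hp).2 ⟨hi, hj, edgeAt_iff.2 (Or.inl h')⟩⟩
    · obtain ⟨c, hc, hl⟩ := hlb i h1
      have hlt : F * c < F * (T + 1) := Nat.mul_lt_mul_of_pos_left (by omega) hF
      exact ⟨F * c, hlt, (cat_avail hlt).2 ⟨hi, hj, edgeAt_iff.2
        (Or.inr (Or.inl ⟨h1, h2, (pres_iff hF).2 ⟨c, rfl, hl⟩⟩))⟩⟩
    · obtain ⟨c, hc, hl⟩ := hlb j h1
      have hlt : F * c < F * (T + 1) := Nat.mul_lt_mul_of_pos_left (by omega) hF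
      exact ⟨F * c, hlt, (cat_avail hlt).2 ⟨hi, hj, edgeAt_iff.2
        (Or.inr (Or.inr ⟨h1, h2, (pres_iff hF).2 ⟨c, rfl, hl⟩⟩))⟩⟩

theorem covers_iff (hF : 1 ≤ F) : Covers (catInst lb m F T) (F * T + 1) ↔
    ∃ pos, Mv lb m F (F * T + 1) pos := by
  have hlt : ∀ τ < F * T + 1, τ < F * (T + 1) := by
    intro τ hτ
    rw [Nat.mul_succ]
    omega
  constructor
  · rintro ⟨pos, h0, hmv, hall⟩
    refine ⟨pos, h0, fun τ hτ => ?_, ?_⟩
    · rcases hmv τ hτ with h | h
      · exact Or.inl h
      · exact Or.inr ((cat_avail (hlt τ hτ)).1 h).2.2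
    · rw [cat_len] at hall
      exact hall
  · rintro ⟨pos, h⟩
    refine ⟨pos, h.start, fun τ hτ => ?_, ?_⟩
    · rcases h.move τ hτ with h' | h'
      · exact Or.inl h'
      · refine Or.inr ((cat_avail (hlt τ hτ)).2 ⟨?_, ?_, h'⟩)
        · rcases edgeAt_iff.1 h' with h2 | h2 | h2 <;> omega
        · rcases edgeAt_iff.1 h' with h2 | h2 | h2 <;> omega
    · rw [cat_len]
      exact h.all

end

/-! ### The instance of a formula -/

/-- the instance -/
def inst (φ : List Cl) : Inst :=
  catInst (lab φ) (4 * φ.length + 1) (4 * φ.length + 2) (3 * φ.length * (4 * φ.length + 3))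

/-- the bound for the cover time -/
def bound (φ : List Cl) : ℕ := (4 * φ.length + 2) * (3 * φ.length * (4 * φ.length + 3)) + 1

theorem valid_inst {φ : List Cl} (hb : Bounded3 φ) (hne : φ ≠ []) : Valid 3 (inst φ) := by
  have hL : 0 < φ.length := List.length_pos_iff.2 hne
  refine valid_cat (by omega) (by omega) (fun i hi => ?_)
  have hblk : ∀ x < 3 * φ.length, ∀ r < 4 * φ.length + 3,
      (4 * φ.length + 3) * x + r ≤ 3 * φ.length * (4 * φ.length + 3) := by
    intro x hx r hr
    have := Nat.mul_le_mul_left (4 * φ.length + 3) (show x + 1 ≤ 3 * φ.length by omega)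
    rw [Nat.mul_succ, Nat.mul_comm _ (3 * φ.length)] at this
    omega
  by_cases h1 : i < 3 * φ.length
  · refine ⟨(4 * φ.length + 3) * i + 0, hblk i h1 0 (by omega), ?_⟩
    unfold lab
    rw [if_pos h1, labX_iff (r := 0) (y := i) (by omega) rfl]
    exact ⟨rfl, Or.inl rfl⟩
  · by_cases h2 : i < 4 * φ.length
    · obtain ⟨j, rfl⟩ : ∃ j, i = 3 * φ.length + j := ⟨i - 3 * φ.length, by omega⟩
      have hj : j < φ.length := by omega
      have hgd : φ.getD (3 * φ.length + j - 3 * φ.length) dcl = φ[j] := by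
        rw [Nat.add_sub_cancel_left, List.getD_eq_getElem?_getD, List.getElem?_eq_getElem hj,
          Option.getD_some]
      have hx := (hb _ (List.getElem_mem hj)).1
      cases hs : φ[j].1.1 with
      | true =>
        refine ⟨(4 * φ.length + 3) * φ[j].1.2 + (2 * φ.length + 2 + 2 * j),
          hblk _ hx _ (by omega), ?_⟩
        unfold lab
        rw [if_neg (by omega), if_pos (by omega), hgd, labC_iff (by omega) rfl]
        refine Or.inr ⟨by omega, by omega, by omega, inC_iff.2 (Or.inl ?_)⟩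
        rw [← hs]
      | false =>
        refine ⟨(4 * φ.length + 3) * φ[j].1.2 + (1 + 2 * j), hblk _ hx _ (by omega), ?_⟩
        unfold lab
        rw [if_neg (by omega), if_pos (by omega), hgd, labC_iff (by omega) rfl]
        refine Or.inl ⟨by omega, by omega, by omega, inC_iff.2 (Or.inl ?_)⟩
        rw [← hs]
    · refine ⟨_, le_rfl, ?_⟩
      unfold lab
      rw [if_neg h1, if_neg h2]
      simp

/-- **Correctness of the reduction.** -/
theorem sat_iff {φ : List Cl} (hb : Bounded3 φ) (hne : φ ≠ []) :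
    SAT3 φ ↔ Covers (inst φ) (bound φ) := by
  have hL : 0 < φ.length := List.length_pos_iff.2 hne
  unfold inst bound
  rw [covers_iff (by omega)]
  constructor
  · intro hs
    obtain ⟨g, inn, hp⟩ := plan (m := 4 * φ.length + 1) hb hL rfl rfl hs
    exact ⟨_, mv_of_plan (by omega) rfl hp⟩
  · rintro ⟨pos, h⟩
    exact sound hb rfl (by omega) rfl rfl h

end Pool.Agent.NPC.V11230.CP
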