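import Mathlib
import Pool.Agent.NPC.Sat2

/-!
# Comparability digraphs: definitions, the digraph of a formula
-/

set_option autoImplicit false

namespace Pool.Agent.NPC.V11230.CD

open Pool.Agent.NPC

/-- There is an arc from `i` to `j` in the digraph with adjacency matrix `M`. -/
def Arc (M : List (List Bool)) (i j : ℕ) : Prop := (M.getD i []).getD j false = true

/-- `M` is the adjacency matrix of a digraph without loops. -/
def IsDigraph (M : List (List Bool)) : Prop :=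
  (∀ row ∈ M, row.length = M.length) ∧ ∀ i, ¬ Arc M i i

/-- `lt` is a comparability ordering. -/
def IsComparabilityOrdering (M : List (List Bool)) (lt : Fin M.length → Fin M.length → Prop) :
    Prop :=
  IsStrictTotalOrder (Fin M.length) lt ∧ ∀ x y z : Fin M.length, lt x y → lt y z →
    (Arc M x y → Arc M y z → Arc M x z) ∧ (Arc M z y → Arc M y x → Arc M z x)

/-- The digraph is a comparability digraph. -/
def IsComparability (M : List (List Bool)) : Prop :=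
  ∃ lt : Fin M.length → Fin M.length → Prop, IsComparabilityOrdering M lt

/-! ### The digraph of a formula -/

/-- A clause with three literals. -/
abbrev Cl : Type := Lit ℕ × Lit ℕ × Lit ℕ

/-- the hub of a literal -/
def hub (l : Lit ℕ) : ℕ := if l.1 = true then 3 * l.2 + 1 else 3 * l.2 + 2

/-- the negation of a literal -/
def neg (l : Lit ℕ) : Lit ℕ := (!l.1, l.2)

/-- the first vertex of the gadget of the clause with number `k` -/
def bs (L k : ℕ) : ℕ := 9 * L + 3 + 8 * k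

/-- the arcs of a clause gadget -/
def cArcs (L : ℕ) (p : Cl × ℕ) : List (ℕ × ℕ) :=
  [(hub p.1.1, bs L p.2 + 4), (bs L p.2 + 4, bs L p.2), (bs L p.2 + 4, bs L p.2 + 3),
   (hub (neg p.1.2.1), bs L p.2 + 5), (bs L p.2 + 5, bs L p.2 + 2), (bs L p.2 + 5, bs L p.2 + 3),
   (hub p.1.2.2, bs L p.2 + 6), (bs L p.2 + 6, bs L p.2 + 2), (bs L p.2 + 6, bs L p.2 + 1),
   (9 * L + 1, bs L p.2 + 7), (bs L p.2 + 7, bs L p.2), (bs L p.2 + 7, bs L p.2 + 1),
   (bs L p.2, bs L p.2 + 1), (bs L p.2, bs L p.2 + 3),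
   (bs L p.2 + 2, bs L p.2 + 1), (bs L p.2 + 2, bs L p.2 + 3)]

/-- the arcs -/
def arcs (φ : List Cl) : List (ℕ × ℕ) :=
  (List.range (3 * φ.length + 1)).flatMap (fun x => [(3 * x, 3 * x + 1), (3 * x + 1, 3 * x + 2)]) ++
    φ.zipIdx.flatMap (cArcs φ.length)

/-- the matrix of a list of arcs -/
def matOf (N : ℕ) (A : List (ℕ × ℕ)) : List (List Bool) :=
  (List.range N).map (fun i => (List.range N).map (fun j =>
    A.any (fun e => decide (e.1 = i) && decide (e.2 = j))))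

/-- the digraph -/
def dig (φ : List Cl) : List (List Bool) := matOf (17 * φ.length + 3) (arcs φ)

theorem matOf_length (N : ℕ) (A : List (ℕ × ℕ)) : (matOf N A).length = N := by
  simp [matOf]

theorem arc_matOf {N : ℕ} {A : List (ℕ × ℕ)} (hA : ∀ e ∈ A, e.1 < N ∧ e.2 < N) (i j : ℕ) :
    Arc (matOf N A) i j ↔ (i, j) ∈ A := by
  unfold Arc matOf
  by_cases hi : i < N
  · by_cases hj : j < N
    · simp [List.getD_eq_getElem?_getD, List.getElem?_map, List.getElem?_range hi,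
        List.getElem?_range hj]
    · simp only [List.getD_eq_getElem?_getD, List.getElem?_map, List.getElem?_range hi,
        Option.map_some, Option.getD_some]
      rw [List.getElem?_eq_none (by simpa using hj)]
      simp only [Option.map_none, Option.getD_none, Bool.false_eq_true, false_iff]
      exact fun h => hj (hA _ h).2
  · simp only [List.getD_eq_getElem?_getD, List.getElem?_map]
    rw [List.getElem?_eq_none (l := List.range N) (i := i) (by simpa using hi)]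
    simp only [Option.map_none, Option.getD_none, List.getElem?_nil, Bool.false_eq_true, false_iff]
    exact fun h => hi (hA _ h).1

section

variable {φ : List Cl}

theorem mem_cl {k : ℕ} (hk : k < φ.length) {e : ℕ × ℕ} (he : e ∈ cArcs φ.length (φ[k], k)) :
    e ∈ arcs φ := by
  unfold arcs
  refine List.mem_append_right _ (List.mem_flatMap.2 ⟨(φ[k], k), ?_, he⟩)
  rw [List.mk_mem_zipIdx_iff_getElem?]
  simp [hk]

theorem mem_UV {x : ℕ} (hx : x ≤ 3 * φ.length) : (3 * x, 3 * x + 1) ∈ arcs φ := by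
  unfold arcs
  exact List.mem_append_left _ (List.mem_flatMap.2 ⟨x, List.mem_range.2 (by omega), by simp⟩)

theorem mem_VV {x : ℕ} (hx : x ≤ 3 * φ.length) : (3 * x + 1, 3 * x + 2) ∈ arcs φ := by
  unfold arcs
  exact List.mem_append_left _ (List.mem_flatMap.2 ⟨x, List.mem_range.2 (by omega), by simp⟩)

/-- The arcs, with the sizes of the numbers. -/
theorem cases_arc (hb : Bounded3 φ) {u v : ℕ} (h : (u, v) ∈ arcs φ) :
    (∃ x, x ≤ 3 * φ.length ∧ u = 3 * x ∧ v = 3 * x + 1) ∨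
    (∃ x, x ≤ 3 * φ.length ∧ u = 3 * x + 1 ∧ v = 3 * x + 2) ∨
    (∃ (l : Lit ℕ) (k j : ℕ), l.2 ≤ 3 * φ.length ∧ k < φ.length ∧ 4 ≤ j ∧ j < 8 ∧ u = hub l ∧
      v = bs φ.length k + j ∧ ∃ hk : k < φ.length, (j = 4 → l = φ[k].1) ∧
        (j = 5 → l = neg φ[k].2.1) ∧ (j = 6 → l = φ[k].2.2) ∧
        (j = 7 → l = (true, 3 * φ.length))) ∨
    (∃ k i j : ℕ, k < φ.length ∧ u = bs φ.length k + i ∧ v = bs φ.length k + j ∧
      ((i = 4 ∧ j = 0) ∨ (i = 4 ∧ j = 3) ∨ (i = 5 ∧ j = 2) ∨ (i = 5 ∧ j = 3) ∨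
       (i = 6 ∧ j = 2) ∨ (i = 6 ∧ j = 1) ∨ (i = 7 ∧ j = 0) ∨ (i = 7 ∧ j = 1) ∨
       (i = 0 ∧ j = 1) ∨ (i = 0 ∧ j = 3) ∨ (i = 2 ∧ j = 1) ∨ (i = 2 ∧ j = 3))) := by
  unfold arcs at h
  rcases List.mem_append.1 h with h | h
  · obtain ⟨x, hx, h⟩ := List.mem_flatMap.1 h
    rw [List.mem_range] at hx
    simp only [List.mem_cons, Prod.mk.injEq, List.not_mem_nil, or_false] at h
    rcases h with ⟨rfl, rfl⟩ | ⟨rfl, rfl⟩
    · exact Or.inl ⟨x, by omega, rfl, rfl⟩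
    · exact Or.inr (Or.inl ⟨x, by omega, rfl, rfl⟩)
  · obtain ⟨⟨c, k⟩, hc, h⟩ := List.mem_flatMap.1 h
    rw [List.mk_mem_zipIdx_iff_getElem?] at hc
    obtain ⟨hk, rfl⟩ := List.getElem?_eq_some_iff.1 hc
    have hb' := hb _ (List.getElem_mem hk)
    refine Or.inr (Or.inr ?_)
    simp only [cArcs, List.mem_cons, Prod.mk.injEq, List.not_mem_nil, or_false] at h
    rcases h with ⟨rfl, rfl⟩ | ⟨rfl, rfl⟩ | ⟨rfl, rfl⟩ | ⟨rfl, rfl⟩ | ⟨rfl, rfl⟩ | ⟨rfl, rfl⟩ |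
      ⟨rfl, rfl⟩ | ⟨rfl, rfl⟩ | ⟨rfl, rfl⟩ | ⟨rfl, rfl⟩ | ⟨rfl, rfl⟩ | ⟨rfl, rfl⟩ | ⟨rfl, rfl⟩ |
      ⟨rfl, rfl⟩ | ⟨rfl, rfl⟩ | ⟨rfl, rfl⟩
    · exact Or.inl ⟨φ[k].1, k, 4, by omega, hk, by omega, by omega, rfl, rfl, hk, fun _ => rfl,
        by omega, by omega, by omega⟩
    · exact Or.inr ⟨k, 4, 0, hk, rfl, rfl, by omega⟩
    · exact Or.inr ⟨k, 4, 3, hk, rfl, rfl, by omega⟩
    · exact Or.inl ⟨neg φ[k].2.1, k, 5, by change φ[k].2.1.2 ≤ _; omega, hk, by omega, by omega,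
        rfl, rfl, hk, by omega, fun _ => rfl, by omega, by omega⟩
    · exact Or.inr ⟨k, 5, 2, hk, rfl, rfl, by omega⟩
    · exact Or.inr ⟨k, 5, 3, hk, rfl, rfl, by omega⟩
    · exact Or.inl ⟨φ[k].2.2, k, 6, by omega, hk, by omega, by omega, rfl, rfl, hk, by omega,
        by omega, fun _ => rfl, by omega⟩
    · exact Or.inr ⟨k, 6, 2, hk, rfl, rfl, by omega⟩
    · exact Or.inr ⟨k, 6, 1, hk, rfl, rfl, by omega⟩
    · exact Or.inl ⟨(true, 3 * φ.length), k, 7, le_rfl, hk, by omega, by omega,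
        by simp [hub]; omega, rfl, hk, by omega, by omega, by omega, fun _ => rfl⟩
    · exact Or.inr ⟨k, 7, 0, hk, rfl, rfl, by omega⟩
    · exact Or.inr ⟨k, 7, 1, hk, rfl, rfl, by omega⟩
    · exact Or.inr ⟨k, 0, 1, hk, rfl, rfl, by omega⟩
    · exact Or.inr ⟨k, 0, 3, hk, rfl, rfl, by omega⟩
    · exact Or.inr ⟨k, 2, 1, hk, rfl, rfl, by omega⟩
    · exact Or.inr ⟨k, 2, 3, hk, rfl, rfl, by omega⟩

theorem hub_cases (l : Lit ℕ) :
    (l.1 = true ∧ hub l = 3 * l.2 + 1) ∨ (l.1 = false ∧ hub l = 3 * l.2 + 2) := by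
  unfold hub
  rcases l with ⟨_ | _, x⟩ <;> simp

theorem arc_lt (hb : Bounded3 φ) {u v : ℕ} (h : (u, v) ∈ arcs φ) :
    u < 17 * φ.length + 3 ∧ v < 17 * φ.length + 3 := by
  rcases cases_arc hb h with ⟨x, hx, rfl, rfl⟩ | ⟨x, hx, rfl, rfl⟩ |
    ⟨l, k, j, hl, hk, hj4, hj, rfl, rfl, _⟩ | ⟨k, i, j, hk, rfl, rfl, hij⟩
  · omega
  · omega
  · unfold bs
    rcases hub_cases l with ⟨_, h⟩ | ⟨_, h⟩ <;> rw [h] <;> omega
  · unfold bs
    omega

theorem arc_dig (hb : Bounded3 φ) (i j : ℕ) : Arc (dig φ) i j ↔ (i, j) ∈ arcs φ :=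
  arc_matOf (fun e he => arc_lt hb (u := e.1) (v := e.2) he) i j

theorem dig_length : (dig φ).length = 17 * φ.length + 3 := matOf_length _ _

theorem isDigraph_dig (hb : Bounded3 φ) : IsDigraph (dig φ) := by
  constructor
  · intro row hrow
    rw [dig_length]
    unfold dig matOf at hrow
    obtain ⟨i, _, rfl⟩ := List.mem_map.1 hrow
    simp
  · intro i h
    rw [arc_dig hb] at h
    rcases cases_arc hb h with ⟨x, hx, h1, h2⟩ | ⟨x, hx, h1, h2⟩ |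
      ⟨l, k, j, hl, hk, hj4, hj, h1, h2, _⟩ | ⟨k, i, j, hk, h1, h2, hij⟩
    · omega
    · omega
    · unfold bs at h2
      rcases hub_cases l with ⟨_, h⟩ | ⟨_, h⟩ <;> rw [h] at h1 <;> omega
    · omega

/-! ### In-neighbours -/

theorem in_U (hb : Bounded3 φ) {u x : ℕ} (hx : x ≤ 3 * φ.length) : (u, 3 * x) ∉ arcs φ := by
  intro h
  rcases cases_arc hb h with ⟨y, hy, h1, h2⟩ | ⟨y, hy, h1, h2⟩ |
    ⟨l, k, j, hl, hk, hj4, hj, h1, h2, _⟩ | ⟨k, i, j, hk, h1, h2, hij⟩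
  · omega
  · omega
  · unfold bs at h2; omega
  · unfold bs at h2; omega

theorem in_V (hb : Bounded3 φ) {u x : ℕ} (hx : x ≤ 3 * φ.length) (h : (u, 3 * x + 1) ∈ arcs φ) :
    u = 3 * x := by
  rcases cases_arc hb h with ⟨y, hy, h1, h2⟩ | ⟨y, hy, h1, h2⟩ |
    ⟨l, k, j, hl, hk, hj4, hj, h1, h2, _⟩ | ⟨k, i, j, hk, h1, h2, hij⟩
  · omega
  · omega
  · unfold bs at h2; omega
  · unfold bs at h2; omega

theorem in_V' (hb : Bounded3 φ) {u x : ℕ} (hx : x ≤ 3 * φ.length) (h : (u, 3 * x + 2) ∈ arcs φ) :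
    u = 3 * x + 1 := by
  rcases cases_arc hb h with ⟨y, hy, h1, h2⟩ | ⟨y, hy, h1, h2⟩ |
    ⟨l, k, j, hl, hk, hj4, hj, h1, h2, _⟩ | ⟨k, i, j, hk, h1, h2, hij⟩
  · omega
  · omega
  · unfold bs at h2; omega
  · unfold bs at h2; omega

theorem in_con (hb : Bounded3 φ) {u k j : ℕ} (hj : 4 ≤ j) (hj8 : j < 8)
    (h : (u, bs φ.length k + j) ∈ arcs φ) :
    ∃ l : Lit ℕ, l.2 ≤ 3 * φ.length ∧ u = hub l ∧ ∃ hk : k < φ.length, (j = 4 → l = φ[k].1) ∧
        (j = 5 → l = neg φ[k].2.1) ∧ (j = 6 → l = φ[k].2.2) ∧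
        (j = 7 → l = (true, 3 * φ.length)) := by
  rcases cases_arc hb h with ⟨y, hy, h1, h2⟩ | ⟨y, hy, h1, h2⟩ |
    ⟨l, k', j', hl, hk', hj4', hj', h1, h2, h3⟩ | ⟨k', i, j', hk', h1, h2, hij⟩
  · unfold bs at h2; omega
  · unfold bs at h2; omega
  · unfold bs at h2
    obtain rfl : k = k' := by omega
    obtain rfl : j = j' := by omega
    exact ⟨l, hl, h1, h3⟩
  · unfold bs at h2; omega

theorem in_mid (hb : Bounded3 φ) {u k j : ℕ} (hj : j < 4) (h : (u, bs φ.length k + j) ∈ arcs φ) :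
    ∃ i, u = bs φ.length k + i ∧
      ((i = 4 ∧ j = 0) ∨ (i = 4 ∧ j = 3) ∨ (i = 5 ∧ j = 2) ∨ (i = 5 ∧ j = 3) ∨
       (i = 6 ∧ j = 2) ∨ (i = 6 ∧ j = 1) ∨ (i = 7 ∧ j = 0) ∨ (i = 7 ∧ j = 1) ∨
       (i = 0 ∧ j = 1) ∨ (i = 0 ∧ j = 3) ∨ (i = 2 ∧ j = 1) ∨ (i = 2 ∧ j = 3)) := by
  rcases cases_arc hb h with ⟨y, hy, h1, h2⟩ | ⟨y, hy, h1, h2⟩ |
    ⟨l, k', j', hl, hk', hj4', hj', h1, h2, h3⟩ | ⟨k', i, j', hk', h1, h2, hij⟩
  · unfold bs at h2; omega
  · unfold bs at h2; omega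
  · unfold bs at h2; omega
  · have hkk : k = k' := by unfold bs at h2; omega
    subst hkk
    have hjj : j = j' := by omega
    subst hjj
    exact ⟨i, h1, hij⟩

end

end Pool.Agent.NPC.V11230.CD
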