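import Pool.Agent.V11230.CompDi

/-!
# Comparability digraphs: soundness of the reduction
-/

set_option autoImplicit false

namespace Pool.Agent.NPC.V11230.CD

open Pool.Agent.NPC

/-- An ordering of the numbers below `N` for which the middle vertex of each path without shortcut
is not between the ends. -/
structure Ord (N : ℕ) (A : List (ℕ × ℕ)) (r : ℕ → ℕ → Prop) : Prop where
  asymm : ∀ i j, i < N → j < N → r i j → ¬ r j i
  total : ∀ i j, i < N → j < N → i ≠ j → r i j ∨ r j i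
  trans : ∀ i j k, i < N → j < N → k < N → r i j → r j k → r i k
  nb : ∀ u v w, (u, v) ∈ A → (v, w) ∈ A → (u, w) ∉ A → u ≠ w → (r v u ↔ r v w)

theorem exists_ord {φ : List Cl} (hb : Bounded3 φ) (h : IsComparability (dig φ)) :
    ∃ r, Ord (17 * φ.length + 3) (arcs φ) r := by
  obtain ⟨lt, hord, hc⟩ := h
  have hN : (dig φ).length = 17 * φ.length + 3 := dig_length
  refine ⟨fun i j => ∃ (hi : i < (dig φ).length) (hj : j < (dig φ).length), lt ⟨i, hi⟩ ⟨j, hj⟩,
    ⟨?_, ?_, ?_, ?_⟩⟩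
  · rintro i j hi hj ⟨h1, h2, h3⟩ ⟨_, _, h4⟩
    exact hord.toIsStrictOrder.toIrrefl.irrefl _ (hord.toIsStrictOrder.toIsTrans.trans _ _ _ h3 h4)
  · intro i j hi hj hij
    rw [← hN] at hi hj
    by_contra hcon
    push Not at hcon
    have h3 : (⟨i, hi⟩ : Fin (dig φ).length) = ⟨j, hj⟩ :=
      hord.toTrichotomous.trichotomous _ _ (fun h => hcon.1 hi hj h)
        (fun h => hcon.2 hj hi h)
    exact hij (congrArg Fin.val h3)
  · rintro i j k hi hj hk ⟨h1, h2, h3⟩ ⟨_, h5, h4⟩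
    exact ⟨h1, h5, hord.toIsStrictOrder.toIsTrans.trans _ _ _ h3 h4⟩
  · intro u v w huv hvw huw hne
    have hu := arc_lt hb huv
    have hv := arc_lt hb hvw
    rw [← hN] at hu hv
    have key : ∀ u w : ℕ, ∀ (hu : u < (dig φ).length) (hw : w < (dig φ).length),
        u ≠ w → v ≠ u → v ≠ w → lt ⟨v, hv.1⟩ ⟨u, hu⟩ → ¬ lt ⟨v, hv.1⟩ ⟨w, hw⟩ →
          lt ⟨w, hw⟩ ⟨v, hv.1⟩ := by
      intro u w hu hw hne hvu hvw h1 h2
      by_contra h3
      have h4 : (⟨v, hv.1⟩ : Fin (dig φ).length) = ⟨w, hw⟩ :=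
        hord.toTrichotomous.trichotomous _ _ h2 h3
      exact hvw (congrArg Fin.val h4)
    have hloop : ∀ i, (i, i) ∉ arcs φ := fun i hi => (isDigraph_dig hb).2 i
      ((arc_dig hb i i).2 hi)
    have hvu : v ≠ u := by rintro rfl; exact hloop _ huv
    have hvw' : v ≠ w := by rintro rfl; exact hloop _ hvw
    constructor
    · rintro ⟨h1, h2, h3⟩
      refine ⟨h1, hv.2, ?_⟩
      by_contra h4
      have h5 := key u w hu.1 hv.2 hne hvu hvw' h3 h4
      have h6 := (hc ⟨w, hv.2⟩ ⟨v, hv.1⟩ ⟨u, hu.1⟩ h5 h3).2 ((arc_dig hb u v).2 huv)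
        ((arc_dig hb v w).2 hvw)
      exact huw ((arc_dig hb u w).1 h6)
    · rintro ⟨h1, h2, h3⟩
      refine ⟨h1, hu.1, ?_⟩
      by_contra h4
      have h5 := key w u hv.2 hu.1 hne.symm hvw' hvu h3 h4
      have h6 := (hc ⟨u, hu.1⟩ ⟨v, hv.1⟩ ⟨w, hv.2⟩ h5 h3).1 ((arc_dig hb u v).2 huv)
        ((arc_dig hb v w).2 hvw)
      exact huw ((arc_dig hb u w).1 h6)

section

variable {φ : List Cl} {r : ℕ → ℕ → Prop}

theorem Ord.flip (R : Ord (17 * φ.length + 3) (arcs φ) r) {i j : ℕ}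
    (hi : i < 17 * φ.length + 3) (hj : j < 17 * φ.length + 3) (hij : i ≠ j) :
    r i j ↔ ¬ r j i := by
  constructor
  · exact fun h => R.asymm _ _ hi hj h
  · intro h
    rcases R.total i j hi hj hij with h1 | h1
    · exact h1
    · exact absurd h1 h

/-- the truth value of a literal -/
def tl (r : ℕ → ℕ → Prop) (l : Lit ℕ) : Prop :=
  if l.1 = true then r (3 * l.2 + 1) (3 * l.2) else ¬ r (3 * l.2 + 1) (3 * l.2)

/-- A hub is before its connectors iff the literal is true. -/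
theorem hub_con (hb : Bounded3 φ) (R : Ord (17 * φ.length + 3) (arcs φ) r) {l : Lit ℕ} {k j : ℕ}
    (hl : l.2 ≤ 3 * φ.length) (hj : 4 ≤ j) (hj8 : j < 8)
    (h : (hub l, bs φ.length k + j) ∈ arcs φ) : r (hub l) (bs φ.length k + j) ↔ tl r l := by
  obtain ⟨b, x⟩ := l
  simp only at hl
  have hlt := arc_lt hb h
  have hbs : bs φ.length k = 9 * φ.length + 3 + 8 * k := rfl
  cases b with
  | true =>
    have h1 : hub (true, x) = 3 * x + 1 := rfl
    have h2 : tl r (true, x) = r (3 * x + 1) (3 * x) := by simp [tl]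
    rw [h1] at h hlt ⊢
    rw [h2]
    refine (R.nb (3 * x) (3 * x + 1) _ (mem_UV hl) h ?_ (by omega)).symm
    intro hcon
    obtain ⟨l', hl', h3, _⟩ := in_con hb hj hj8 hcon
    rcases hub_cases l' with ⟨_, h4⟩ | ⟨_, h4⟩ <;> omega
  | false =>
    have h1 : hub (false, x) = 3 * x + 2 := rfl
    have h2 : tl r (false, x) = ¬ r (3 * x + 1) (3 * x) := by simp [tl]
    rw [h1] at h hlt ⊢
    rw [h2]
    -- the hub `V'` and `V`
    have h3 : r (3 * x + 2) (3 * x + 1) ↔ r (3 * x + 2) (bs φ.length k + j) := by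
      refine R.nb (3 * x + 1) (3 * x + 2) _ (mem_VV hl) h ?_ (by omega)
      intro hcon
      obtain ⟨l1, hl1, h3, hk1, h4, h5, h6, h7⟩ := in_con hb hj hj8 hcon
      obtain ⟨l2, hl2, g3, hk2, g4, g5, g6, g7⟩ := in_con hb hj hj8 h
      have : l1 = l2 := by
        have : j = 4 ∨ j = 5 ∨ j = 6 ∨ j = 7 := by omega
        rcases this with rfl | rfl | rfl | rfl
        · rw [h4 rfl, g4 rfl]
        · rw [h5 rfl, g5 rfl]
        · rw [h6 rfl, g6 rfl]
        · rw [h7 rfl, g7 rfl]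
      subst this
      omega
    have h4 : r (3 * x + 1) (3 * x) ↔ r (3 * x + 1) (3 * x + 2) := by
      refine R.nb (3 * x) (3 * x + 1) _ (mem_UV hl) (mem_VV hl) ?_ (by omega)
      intro hcon
      have := in_V' hb hl hcon
      omega
    rw [← h3, h4, R.flip (by omega) (by omega) (by omega)]

/-- A connector is before its hub iff it is before its out-neighbours. -/
theorem con_mid (hb : Bounded3 φ) (R : Ord (17 * φ.length + 3) (arcs φ) r) {l : Lit ℕ} {k i j : ℕ}
    (hl : l.2 ≤ 3 * φ.length) (hj : 4 ≤ j) (hj8 : j < 8) (hi : i < 4)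
    (h : (hub l, bs φ.length k + j) ∈ arcs φ) (h' : (bs φ.length k + j, bs φ.length k + i) ∈ arcs φ) :
    r (bs φ.length k + i) (bs φ.length k + j) ↔ tl r l := by
  have hlt := arc_lt hb h
  have hlt' := arc_lt hb h'
  have hbs : bs φ.length k = 9 * φ.length + 3 + 8 * k := rfl
  have hhub : hub l < bs φ.length k := by
    rcases hub_cases l with ⟨_, h4⟩ | ⟨_, h4⟩ <;> omega
  rw [← hub_con hb R hl hj hj8 h, R.flip hlt'.2 hlt'.1 (by omega), R.flip hlt.1 hlt.2 (by omega)]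
  refine not_congr (R.nb (hub l) _ _ h h' ?_ (by omega)).symm
  intro hcon
  obtain ⟨i', h5, _⟩ := in_mid hb hi hcon
  omega

end

open Classical in
theorem tl_false {r : ℕ → ℕ → Prop} {T0 : Prop} {l : Lit ℕ}
    (h : (decide (r (3 * l.2 + 1) (3 * l.2) ↔ T0)) ≠ l.1) : tl r l ↔ ¬ T0 := by
  obtain ⟨b, x⟩ := l
  cases b <;> simp only [tl, Bool.false_eq_true, if_true, if_false, ne_eq, decide_eq_true_eq,
    decide_eq_false_iff_not, not_not] at h ⊢
  · rw [h]
  · by_cases h1 : T0 <;> simp_all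

open Classical in
theorem tl_false' {r : ℕ → ℕ → Prop} {T0 : Prop} {l : Lit ℕ}
    (h : (decide (r (3 * l.2 + 1) (3 * l.2) ↔ T0)) ≠ l.1) : tl r (neg l) ↔ T0 := by
  obtain ⟨b, x⟩ := l
  cases b <;> simp only [tl, neg, Bool.not_true, Bool.not_false, Bool.false_eq_true, if_true,
    if_false, ne_eq, decide_eq_true_eq, decide_eq_false_iff_not, not_not] at h ⊢
  · exact h
  · by_cases h1 : T0 <;> simp_all

theorem sound {φ : List Cl} (hb : Bounded3 φ) (h : IsComparability (dig φ)) : SAT3 φ := by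
  obtain ⟨r, R⟩ := exists_ord hb h
  classical
  refine ⟨fun x => decide (r (3 * x + 1) (3 * x) ↔
    r (3 * (3 * φ.length) + 1) (3 * (3 * φ.length))), fun c hc => ?_⟩
  obtain ⟨k, hk, rfl⟩ := List.mem_iff_getElem.1 hc
  have hb' := hb _ (List.getElem_mem hk)
  have e1 : (hub φ[k].1, bs φ.length k + 4) ∈ arcs φ := mem_cl hk (by simp [cArcs])
  have e2 : (hub (neg φ[k].2.1), bs φ.length k + 5) ∈ arcs φ := mem_cl hk (by simp [cArcs])
  have e3 : (hub φ[k].2.2, bs φ.length k + 6) ∈ arcs φ := mem_cl hk (by simp [cArcs])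
  have e4 : (hub (true, 3 * φ.length), bs φ.length k + 7) ∈ arcs φ := by
    have : hub (true, 3 * φ.length) = 9 * φ.length + 1 := by simp [hub]; omega
    rw [this]
    exact mem_cl hk (by simp [cArcs])
  have o1 : (bs φ.length k + 4, bs φ.length k + 0) ∈ arcs φ := mem_cl hk (by simp [cArcs])
  have o1' : (bs φ.length k + 4, bs φ.length k + 3) ∈ arcs φ := mem_cl hk (by simp [cArcs])
  have o2 : (bs φ.length k + 5, bs φ.length k + 2) ∈ arcs φ := mem_cl hk (by simp [cArcs])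
  have o2' : (bs φ.length k + 5, bs φ.length k + 3) ∈ arcs φ := mem_cl hk (by simp [cArcs])
  have o3 : (bs φ.length k + 6, bs φ.length k + 2) ∈ arcs φ := mem_cl hk (by simp [cArcs])
  have o3' : (bs φ.length k + 6, bs φ.length k + 1) ∈ arcs φ := mem_cl hk (by simp [cArcs])
  have o4 : (bs φ.length k + 7, bs φ.length k + 0) ∈ arcs φ := mem_cl hk (by simp [cArcs])
  have o4' : (bs φ.length k + 7, bs φ.length k + 1) ∈ arcs φ := mem_cl hk (by simp [cArcs])
  have m1 : (bs φ.length k + 0, bs φ.length k + 1) ∈ arcs φ := mem_cl hk (by simp [cArcs])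
  have m2 : (bs φ.length k + 0, bs φ.length k + 3) ∈ arcs φ := mem_cl hk (by simp [cArcs])
  have m3 : (bs φ.length k + 2, bs φ.length k + 1) ∈ arcs φ := mem_cl hk (by simp [cArcs])
  have m4 : (bs φ.length k + 2, bs φ.length k + 3) ∈ arcs φ := mem_cl hk (by simp [cArcs])
  have c1 := con_mid hb R (by omega) (by omega) (by omega) (by omega) e1 o1
  have c2 := con_mid hb R (l := neg φ[k].2.1) (by change φ[k].2.1.2 ≤ _; omega) (by omega)
    (by omega) (by omega) e2 o2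
  have c3 := con_mid hb R (by omega) (by omega) (by omega) (by omega) e3 o3
  have c4 := con_mid hb R le_rfl (by omega) (by omega) (by omega) e4 o4
  have nin : ∀ i j, j < 4 → ¬ ((i = 4 ∧ j = 0) ∨ (i = 4 ∧ j = 3) ∨ (i = 5 ∧ j = 2) ∨
      (i = 5 ∧ j = 3) ∨ (i = 6 ∧ j = 2) ∨ (i = 6 ∧ j = 1) ∨ (i = 7 ∧ j = 0) ∨ (i = 7 ∧ j = 1) ∨
      (i = 0 ∧ j = 1) ∨ (i = 0 ∧ j = 3) ∨ (i = 2 ∧ j = 1) ∨ (i = 2 ∧ j = 3)) →
      (bs φ.length k + i, bs φ.length k + j) ∉ arcs φ := by
    intro i j hj hn hcon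
    obtain ⟨i', h5, h6⟩ := in_mid hb hj hcon
    have : i = i' := by omega
    subst this
    exact hn h6
  have p1 := R.nb _ _ _ o1 m1 (nin 4 1 (by omega) (by omega)) (by omega)
  have p2 := R.nb _ _ _ o4 m2 (nin 7 3 (by omega) (by omega)) (by omega)
  have p3 := R.nb _ _ _ o2 m3 (nin 5 1 (by omega) (by omega)) (by omega)
  have p4 := R.nb _ _ _ o3 m4 (nin 6 3 (by omega) (by omega)) (by omega)
  rw [c1] at p1
  rw [c4] at p2
  rw [c2] at p3
  rw [c3] at p4
  have hlt : ∀ i, i < 8 → bs φ.length k + i < 17 * φ.length + 3 := by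
    intro i hi
    unfold bs
    omega
  set B := bs φ.length k with hB
  have f10 := R.flip (hlt 1 (by omega)) (hlt 0 (by omega)) (by omega)
  have f30 := R.flip (hlt 3 (by omega)) (hlt 0 (by omega)) (by omega)
  have f12 := R.flip (hlt 1 (by omega)) (hlt 2 (by omega)) (by omega)
  have f32 := R.flip (hlt 3 (by omega)) (hlt 2 (by omega)) (by omega)
  -- no cyclic orientation
  have cyc : ∀ i j k l : ℕ, i < 8 → j < 8 → k < 8 → l < 8 → r (B + i) (B + j) →
      r (B + j) (B + k) → r (B + k) (B + l) → r (B + l) (B + i) → False := by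
    intro i j k l hi hj hk hl h1 h2 h3 h4
    have h5 := R.trans _ _ _ (hlt i hi) (hlt j hj) (hlt k hk) h1 h2
    have h6 := R.trans _ _ _ (hlt i hi) (hlt k hk) (hlt l hl) h5 h3
    exact R.asymm _ _ (hlt i hi) (hlt l hl) h6 h4
  have cy1 := cyc 0 1 2 3 (by omega) (by omega) (by omega) (by omega)
  have cy2 := cyc 0 3 2 1 (by omega) (by omega) (by omega) (by omega)
  by_contra hcon
  push Not at hcon
  obtain ⟨n1, n2, n3⟩ := hcon
  have t1 := tl_false n1
  have t2 := tl_false' n2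
  have t3 := tl_false n3
  have t4 : tl r (true, 3 * φ.length) ↔
      r (3 * (3 * φ.length) + 1) (3 * (3 * φ.length)) := by simp [tl]
  rw [t1] at p1
  rw [t4] at p2
  rw [t2] at p3
  rw [t3] at p4
  by_cases h0 : r (3 * (3 * φ.length) + 1) (3 * (3 * φ.length))
  · exact cy2 (p2.1 h0) (f32.2 fun h => (p4.2 h) h0) (p3.1 h0) (f10.2 fun h => (p1.2 h) h0)
  · exact cy1 (p1.1 h0) (f12.2 fun h => h0 (p3.2 h)) (p4.1 h0) (f30.2 fun h => h0 (p2.2 h))

end Pool.Agent.NPC.V11230.CD
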