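import Pool.Agent.V11230.CompDi2

/-!
# Comparability digraphs: completeness of the reduction
-/

set_option autoImplicit false

namespace Pool.Agent.NPC.V11230.CD

open Pool.Agent.NPC

/-- From heights that differ on arcs to a comparability ordering. -/
theorem of_height {φ : List Cl} (hb : Bounded3 φ) (f : ℕ → ℕ)
    (hf : ∀ u v, (u, v) ∈ arcs φ → f u ≠ f v)
    (hnb : ∀ u v w, (u, v) ∈ arcs φ → (v, w) ∈ arcs φ → (u, w) ∉ arcs φ → u ≠ w →
      (f v < f u ↔ f v < f w)) : IsComparability (dig φ) := by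
  refine ⟨fun i j => f i < f j ∨ (f i = f j ∧ i < j), ?_, ?_⟩
  · exact {
      irrefl := by
        rintro i (h | ⟨_, h⟩)
        · exact lt_irrefl _ h
        · exact lt_irrefl _ h
      trans := by
        rintro i j k (h | ⟨h, h'⟩) (g | ⟨g, g'⟩)
        · exact Or.inl (h.trans g)
        · exact Or.inl (g ▸ h)
        · exact Or.inl (h ▸ g)
        · exact Or.inr ⟨h.trans g, h'.trans g'⟩
      trichotomous := by
        intro i j h1 h2
        by_contra hne
        have hlt : i < j ∨ j < i := lt_or_gt_of_ne hne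
        rcases lt_trichotomy (f i) (f j) with h | h | h
        · exact h1 (Or.inl h)
        · rcases hlt with hlt | hlt
          · exact h1 (Or.inr ⟨h, hlt⟩)
          · exact h2 (Or.inr ⟨h.symm, hlt⟩)
        · exact h2 (Or.inl h) }
  · intro x y z hxy hyz
    have hxz : (x : ℕ) ≠ z := by
      intro h
      have : x = z := Fin.ext h
      subst this
      rcases hxy with h1 | ⟨h1, h2⟩ <;> rcases hyz with h3 | ⟨h3, h4⟩
      · omega
      · omega
      · omega
      · exact absurd (h2.trans h4) (lt_irrefl _)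
    rw [arc_dig hb, arc_dig hb, arc_dig hb, arc_dig hb, arc_dig hb, arc_dig hb]
    constructor
    · intro h1 h2
      by_contra h3
      have h4 := hnb _ _ _ h1 h2 h3 hxz
      have h5 := hf _ _ h1
      have h6 := hf _ _ h2
      omega
    · intro h1 h2
      by_contra h3
      have h4 := hnb _ _ _ h1 h2 h3 hxz.symm
      have h5 := hf _ _ h1
      have h6 := hf _ _ h2
      omega

/-- the value of a literal -/
def vl (t : ℕ → Bool) (l : Lit ℕ) : Bool := if l.1 = true then t l.2 else !(t l.2)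

/-- the height of the `j`-th vertex of a clause gadget, where `p, r, s` tell whether the hubs of
the first three connectors are at the bottom -/
def ht (p r s : Bool) (j : ℕ) : ℕ :=
  if j = 0 then (if p = true then 20 else 26) else
  if j = 1 then (if r = true ∧ s = false then 30 else 23) else
  if j = 2 then (if r = true then (if s = true then 21 else 27) else
    (if s = true then 27 else 33)) else
  if j = 3 then (if r = true ∧ s = false then 23 else 30) else
  if j = 4 then (if p = true then 100 else 0) else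
  if j = 5 then (if r = true then 100 else 0) else
  if j = 6 then (if s = true then 100 else 0) else 100

/-- the heights -/
def hgt (φ : List Cl) (t : ℕ → Bool) (v : ℕ) : ℕ :=
  if v < 9 * φ.length + 3 then
    (if v % 3 = 0 then 10 else if v % 3 = 1 then (if t (v / 3) = true then 0 else 100) else
      (if t (v / 3) = true then 100 else 0))
  else
    let c := φ.getD ((v - (9 * φ.length + 3)) / 8) ((true, 0), (true, 1), (true, 2))
    ht (vl t c.1) (vl t (neg c.2.1)) (vl t c.2.2) ((v - (9 * φ.length + 3)) % 8)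

section

variable {φ : List Cl} {t : ℕ → Bool}

theorem hgt_U {x : ℕ} (hx : x ≤ 3 * φ.length) : hgt φ t (3 * x) = 10 := by
  unfold hgt
  rw [if_pos (by omega), if_pos (by omega)]

theorem hgt_V {x : ℕ} (hx : x ≤ 3 * φ.length) :
    hgt φ t (3 * x + 1) = if t x = true then 0 else 100 := by
  unfold hgt
  rw [if_pos (by omega), if_neg (by omega), if_pos (by omega)]
  have : (3 * x + 1) / 3 = x := by omega
  rw [this]

theorem hgt_V' {x : ℕ} (hx : x ≤ 3 * φ.length) :
    hgt φ t (3 * x + 2) = if t x = true then 100 else 0 := by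
  unfold hgt
  rw [if_pos (by omega), if_neg (by omega), if_neg (by omega)]
  have : (3 * x + 2) / 3 = x := by omega
  rw [this]

theorem hgt_hub {l : Lit ℕ} (hl : l.2 ≤ 3 * φ.length) :
    hgt φ t (hub l) = if vl t l = true then 0 else 100 := by
  obtain ⟨b, x⟩ := l
  cases b with
  | true =>
    have h1 : hub (true, x) = 3 * x + 1 := rfl
    rw [h1, hgt_V hl]
    simp [vl]
  | false =>
    have h1 : hub (false, x) = 3 * x + 2 := rfl
    rw [h1, hgt_V' hl]
    simp only [vl, Bool.false_eq_true, if_false]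
    cases t x <;> simp

theorem hgt_cl {k j : ℕ} (hk : k < φ.length) (hj : j < 8) :
    hgt φ t (bs φ.length k + j) =
      ht (vl t φ[k].1) (vl t (neg φ[k].2.1)) (vl t φ[k].2.2) j := by
  unfold hgt bs
  rw [if_neg (by omega)]
  have h1 : (9 * φ.length + 3 + 8 * k + j - (9 * φ.length + 3)) / 8 = k := by omega
  have h2 : (9 * φ.length + 3 + 8 * k + j - (9 * φ.length + 3)) % 8 = j := by omega
  simp only [h1, h2]
  rw [List.getD_eq_getElem _ _ hk]

/-- A connector has the height opposite to its hub. -/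
theorem hgt_con (ht0 : t (3 * φ.length) = true) {l : Lit ℕ} {k j : ℕ} (hk : k < φ.length)
    (hj : 4 ≤ j) (hj8 : j < 8) (h4 : j = 4 → l = φ[k].1) (h5 : j = 5 → l = neg φ[k].2.1)
    (h6 : j = 6 → l = φ[k].2.2) (h7 : j = 7 → l = (true, 3 * φ.length)) :
    hgt φ t (bs φ.length k + j) = if vl t l = true then 100 else 0 := by
  rw [hgt_cl hk hj8]
  have : j = 4 ∨ j = 5 ∨ j = 6 ∨ j = 7 := by omega
  rcases this with rfl | rfl | rfl | rfl
  · rw [h4 rfl]
    simp [ht]
  · rw [h5 rfl]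
    simp [ht]
  · rw [h6 rfl]
    simp [ht]
  · rw [h7 rfl]
    simp [ht, vl, ht0]

theorem hgt_arc (hb : Bounded3 φ) (ht0 : t (3 * φ.length) = true)
    {u v : ℕ} (h : (u, v) ∈ arcs φ) : hgt φ t u ≠ hgt φ t v := by
  rcases cases_arc hb h with ⟨x, hx, rfl, rfl⟩ | ⟨x, hx, rfl, rfl⟩ |
    ⟨l, k, j, hl, hk, hj4, hj, rfl, rfl, hk', h4, h5, h6, h7⟩ | ⟨k, i, j, hk, rfl, rfl, hij⟩
  · rw [hgt_U hx, hgt_V hx]
    split_ifs <;> omega
  · rw [hgt_V hx, hgt_V' hx]
    split_ifs <;> omega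
  · rw [hgt_hub hl, hgt_con ht0 hk hj4 hj h4 h5 h6 h7]
    split_ifs <;> omega
  · rw [hgt_cl hk (by omega), hgt_cl hk (by omega)]
    generalize vl t φ[k].1 = p
    generalize vl t (neg φ[k].2.1) = r
    generalize vl t φ[k].2.2 = s
    rcases hij with ⟨rfl, rfl⟩ | ⟨rfl, rfl⟩ | ⟨rfl, rfl⟩ | ⟨rfl, rfl⟩ | ⟨rfl, rfl⟩ | ⟨rfl, rfl⟩ |
      ⟨rfl, rfl⟩ | ⟨rfl, rfl⟩ | ⟨rfl, rfl⟩ | ⟨rfl, rfl⟩ | ⟨rfl, rfl⟩ | ⟨rfl, rfl⟩ <;>
      cases p <;> cases r <;> cases s <;> simp [ht]

theorem vl_eq {l : Lit ℕ} : vl t l = true ↔ t l.2 = l.1 := by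
  obtain ⟨b, x⟩ := l
  cases b <;> simp [vl]

theorem vl_neg {l : Lit ℕ} : vl t (neg l) = true ↔ ¬ t l.2 = l.1 := by
  obtain ⟨b, x⟩ := l
  cases b <;> simp [vl, neg]

theorem hgt_nb (hb : Bounded3 φ) (ht0 : t (3 * φ.length) = true)
    (hsat : ∀ c ∈ φ, t c.1.2 = c.1.1 ∨ t c.2.1.2 = c.2.1.1 ∨ t c.2.2.2 = c.2.2.1)
    {u v w : ℕ} (huv : (u, v) ∈ arcs φ) (hvw : (v, w) ∈ arcs φ) (huw : (u, w) ∉ arcs φ) :
    hgt φ t v < hgt φ t u ↔ hgt φ t v < hgt φ t w := by
  rcases cases_arc hb hvw with ⟨x, hx, rfl, rfl⟩ | ⟨x, hx, rfl, rfl⟩ |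
    ⟨l, k, j, hl, hk, hj4, hj, rfl, rfl, hk', h4, h5, h6, h7⟩ | ⟨k, i, j, hk, rfl, rfl, hij⟩
  · exact absurd huv (in_U hb hx)
  · rw [in_V hb hx huv, hgt_U hx, hgt_V hx, hgt_V' hx]
    split_ifs <;> omega
  · rw [hgt_con ht0 hk hj4 hj h4 h5 h6 h7]
    obtain ⟨b, x⟩ := l
    cases b with
    | true =>
      have h1 : hub (true, x) = 3 * x + 1 := rfl
      rw [h1] at huv
      rw [in_V hb hl huv, hgt_hub hl, hgt_U hl]
      split_ifs <;> omega
    | false =>
      have h1 : hub (false, x) = 3 * x + 2 := rfl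
      rw [h1] at huv
      rw [in_V' hb hl huv, hgt_hub hl, hgt_V hl]
      simp only [vl, Bool.false_eq_true, if_false]
      cases t x <;> simp
  · by_cases hi : 4 ≤ i
    · -- a connector
      obtain ⟨l, hl, rfl, hk', h4, h5, h6, h7⟩ := in_con hb hi (by omega) huv
      rw [hgt_con ht0 hk hi (by omega) h4 h5 h6 h7, hgt_hub hl, hgt_cl hk (by omega)]
      have hr : 20 ≤ ht (vl t φ[k].1) (vl t (neg φ[k].2.1)) (vl t φ[k].2.2) j ∧
          ht (vl t φ[k].1) (vl t (neg φ[k].2.1)) (vl t φ[k].2.2) j ≤ 33 := by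
        have : j = 0 ∨ j = 1 ∨ j = 2 ∨ j = 3 := by omega
        unfold ht
        rcases this with rfl | rfl | rfl | rfl <;> simp only [if_true, Nat.reduceEqDiff,
          OfNat.ofNat_ne_zero, one_ne_zero, if_false] <;> split_ifs <;> omega
      split_ifs <;> omega
    · -- the vertices `a` and `c`
      obtain ⟨i', rfl, hi'⟩ := in_mid hb (by omega) huv
      have hc := hsat _ (List.getElem_mem hk)
      rw [hgt_cl hk (by omega), hgt_cl hk (by omega), hgt_cl hk (by omega)]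
      replace hc : vl t φ[k].1 = true ∨ ¬ vl t (neg φ[k].2.1) = true ∨ vl t φ[k].2.2 = true := by
        rw [vl_neg, not_not, vl_eq, vl_eq]
        exact hc
      have hin : ∀ i j, ((i = 4 ∧ j = 3) ∨ (i = 5 ∧ j = 3) ∨ (i = 6 ∧ j = 1) ∨ (i = 7 ∧ j = 1)) →
          (bs φ.length k + i, bs φ.length k + j) ∈ arcs φ := by
        rintro i j (⟨rfl, rfl⟩ | ⟨rfl, rfl⟩ | ⟨rfl, rfl⟩ | ⟨rfl, rfl⟩) <;>
          exact mem_cl hk (by simp [cArcs])
      have hcase : (i = 0 ∧ ((i' = 4 ∧ j = 1) ∨ (i' = 7 ∧ j = 3))) ∨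
          (i = 2 ∧ ((i' = 5 ∧ j = 1) ∨ (i' = 6 ∧ j = 3))) := by
        have h1 : ¬ ((i' = 4 ∧ j = 3) ∨ (i' = 5 ∧ j = 3) ∨ (i' = 6 ∧ j = 1) ∨ (i' = 7 ∧ j = 1)) :=
          fun h => huw (hin i' j h)
        clear hin huw huv hvw hc hsat hb
        have h2 : (i = 0 ∧ j = 1) ∨ (i = 0 ∧ j = 3) ∨ (i = 2 ∧ j = 1) ∨ (i = 2 ∧ j = 3) := by
          clear h1 hi'
          omega
        clear hij
        rcases h2 with ⟨rfl, rfl⟩ | ⟨rfl, rfl⟩ | ⟨rfl, rfl⟩ | ⟨rfl, rfl⟩
        · have h3 : i' = 4 ∨ i' = 7 := by clear h1; omega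
          clear hi'
          omega
        · have h3 : i' = 4 ∨ i' = 7 := by clear h1; omega
          clear hi'
          omega
        · have h3 : i' = 5 ∨ i' = 6 := by clear h1; omega
          clear hi'
          omega
        · have h3 : i' = 5 ∨ i' = 6 := by clear h1; omega
          clear hi'
          omega
      generalize vl t φ[k].1 = p at hc ⊢
      generalize vl t (neg φ[k].2.1) = r at hc ⊢
      generalize vl t φ[k].2.2 = s at hc ⊢
      rcases hcase with ⟨rfl, ⟨rfl, rfl⟩ | ⟨rfl, rfl⟩⟩ | ⟨rfl, ⟨rfl, rfl⟩ | ⟨rfl, rfl⟩⟩ <;>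
        revert hc <;> cases p <;> cases r <;> cases s <;> simp [ht]

end

theorem complete {φ : List Cl} (hb : Bounded3 φ) (h : SAT3 φ) : IsComparability (dig φ) := by
  obtain ⟨τ, hτ⟩ := h
  have ht0 : (fun x => τ x || decide (3 * φ.length ≤ x)) (3 * φ.length) = true := by simp
  have hsat : ∀ c ∈ φ, (fun x => τ x || decide (3 * φ.length ≤ x)) c.1.2 = c.1.1 ∨
      (fun x => τ x || decide (3 * φ.length ≤ x)) c.2.1.2 = c.2.1.1 ∨
      (fun x => τ x || decide (3 * φ.length ≤ x)) c.2.2.2 = c.2.2.1 := by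
    intro c hc
    have h1 := hb c hc
    have h2 := hτ c hc
    simp only
    rw [decide_eq_false (by omega : ¬ 3 * φ.length ≤ c.1.2),
      decide_eq_false (by omega : ¬ 3 * φ.length ≤ c.2.1.2),
      decide_eq_false (by omega : ¬ 3 * φ.length ≤ c.2.2.2), Bool.or_false, Bool.or_false,
      Bool.or_false]
    exact h2
  exact of_height hb (hgt φ (fun x => τ x || decide (3 * φ.length ≤ x)))
    (fun u v h => hgt_arc hb ht0 h) (fun u v w h1 h2 h3 _ => hgt_nb hb ht0 hsat h1 h2 h3)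

end Pool.Agent.NPC.V11230.CD
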