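import Pool.Agent.NPC.Dec
import Pool.Agent.H622R2.MatGraph

/-!
# Mixed connectivity of two vertices: definitions and the second coordinate
-/

namespace Pool.Agent.NPC.V11230.CP

open Pool.Agent.NPC Pool.Agent.H622R2

variable {V : Type}

/-- `(S, T)` is a `v`-`w` disconnecting pair of `G`: `S` is a set of vertices other than `v`, `w`,
`T` is a set of edges, and `v`, `w` are in different components of `G - (S ∪ T)`. -/
def Disconnects (G : SimpleGraph V) (v w : V) (S : Finset V) (T : Finset (Sym2 V)) : Prop :=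
  ∃ (hv : v ∉ S) (hw : w ∉ S), (T : Set (Sym2 V)) ⊆ G.edgeSet ∧
    ¬ ((G.deleteEdges (T : Set (Sym2 V))).induce {x | x ∉ S}).Reachable ⟨v, hv⟩ ⟨w, hw⟩

/-- `v`, `w` are `(k, l)`-connected: there is no disconnecting pair with `s` vertices and `t` edges
such that `s < k` and `t ≤ l`, or `s ≤ k` and `t < l`. -/
def KLConnected (G : SimpleGraph V) (v w : V) (k l : ℕ) : Prop :=
  ∀ S T, Disconnects G v w S T → ¬ ((S.card < k ∧ T.card ≤ l) ∨ (S.card ≤ k ∧ T.card < l))

/-- `(k, l)` is a `v`-`w` connectivity pair: `v`, `w` are `(k, l)`-connected, but neither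
`(k + 1, l)`-connected nor `(k, l + 1)`-connected. -/
def ConnectivityPair (G : SimpleGraph V) (v w : V) (k l : ℕ) : Prop :=
  KLConnected G v w k l ∧ ¬ KLConnected G v w (k + 1) l ∧ ¬ KLConnected G v w k (l + 1)

/-- `v`, `w` are different non-adjacent vertices and `k ≤ κ(v, w)`: every set of vertices
separating `v` from `w` has at least `k` elements. -/
def LeKappa (G : SimpleGraph V) (v w : V) (k : ℕ) : Prop :=
  v ≠ w ∧ ¬ G.Adj v w ∧ ∀ S : Finset V, Disconnects G v w S ∅ → k ≤ S.card

/-- There is a disconnecting pair with at most `s` vertices and at most `t` edges. -/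
def Q (G : SimpleGraph V) (v w : V) (s t : ℕ) : Prop :=
  ∃ S T, Disconnects G v w S T ∧ S.card ≤ s ∧ T.card ≤ t

theorem Q.mono {G : SimpleGraph V} {v w : V} {s t s' t' : ℕ} (h : Q G v w s t) (hs : s ≤ s')
    (ht : t ≤ t') : Q G v w s' t' := by
  obtain ⟨S, T, h, h1, h2⟩ := h
  exact ⟨S, T, h, h1.trans hs, h2.trans ht⟩

/-- Deleting more keeps a pair disconnecting. -/
theorem not_reachable_mono {G : SimpleGraph V} {v w : V} {S S' : Finset V}
    {T T' : Finset (Sym2 V)} (hv : v ∉ S) (hw : w ∉ S) (hv' : v ∉ S') (hw' : w ∉ S')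
    (hS : S ⊆ S') (hE : ∀ a b, G.Adj a b → a ∉ S' → b ∉ S' → s(a, b) ∈ T → s(a, b) ∈ T')
    (h : ¬ ((G.deleteEdges (T : Set (Sym2 V))).induce {x | x ∉ S}).Reachable ⟨v, hv⟩ ⟨w, hw⟩) :
    ¬ ((G.deleteEdges (T' : Set (Sym2 V))).induce {x | x ∉ S'}).Reachable ⟨v, hv'⟩ ⟨w, hw'⟩ := by
  intro hr
  apply h
  let f : ((G.deleteEdges (T' : Set (Sym2 V))).induce {x | x ∉ S'}) →g
      ((G.deleteEdges (T : Set (Sym2 V))).induce {x | x ∉ S}) :=
    { toFun := fun x => ⟨x.1, fun hx => x.2 (hS hx)⟩
      map_rel' := by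
        rintro ⟨a, ha⟩ ⟨b, hb⟩ hab
        simp only [SimpleGraph.comap_adj, Function.Embedding.subtype_apply,
          SimpleGraph.deleteEdges_adj, Finset.mem_coe] at hab ⊢
        exact ⟨hab.1, fun hT => hab.2 (hE a b hab.1 ha hb hT)⟩ }
  exact hr.map f

/-- Replace an edge of a disconnecting pair by one of its ends. -/
theorem Q.step {G : SimpleGraph V} {v w : V} (hvw : ¬ G.Adj v w) {s t : ℕ}
    (hκ : ∀ S : Finset V, Disconnects G v w S ∅ → s < S.card)
    (h : Q G v w s t) : 0 < t ∧ Q G v w (s + 1) (t - 1) := by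
  classical
  obtain ⟨S, T, ⟨hv, hw, hT, hr⟩, h1, h2⟩ := h
  rcases T.eq_empty_or_nonempty with rfl | ⟨e, he⟩
  · have := hκ S ⟨hv, hw, hT, hr⟩
    omega
  · have hc : 0 < T.card := Finset.card_pos.2 ⟨e, he⟩
    refine ⟨by omega, ?_⟩
    have hadj : e ∈ G.edgeSet := hT he
    -- an end of `e` different from `v` and `w`
    obtain ⟨x, hx, hxv, hxw⟩ : ∃ x, x ∈ e ∧ x ≠ v ∧ x ≠ w := by
      induction e with
      | h a b =>
        rw [SimpleGraph.mem_edgeSet] at hadj
        by_cases ha : a = v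
        · subst ha
          refine ⟨b, by simp, fun h => ?_, fun h => ?_⟩
          · subst h; exact hadj.ne rfl
          · subst h; exact hvw hadj
        · by_cases hb : a = w
          · subst hb
            refine ⟨b, by simp, fun h => ?_, fun h => ?_⟩
            · subst h; exact hvw hadj.symm
            · subst h; exact hadj.ne rfl
          · exact ⟨a, by simp, ha, hb⟩
    refine ⟨insert x S, T.erase e, ⟨?_, ?_, ?_, ?_⟩, ?_, ?_⟩
    · simp only [Finset.mem_insert, not_or]
      exact ⟨fun h => hxv h.symm, hv⟩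
    · simp only [Finset.mem_insert, not_or]
      exact ⟨fun h => hxw h.symm, hw⟩
    · intro f hf
      exact hT (Finset.mem_of_mem_erase (Finset.mem_coe.1 hf))
    · refine not_reachable_mono hv hw _ _ (Finset.subset_insert x S) ?_ hr
      intro a b _ ha hb hab
      refine Finset.mem_erase.2 ⟨?_, hab⟩
      rintro rfl
      rcases Sym2.mem_iff.1 hx with rfl | rfl
      · exact ha (Finset.mem_insert_self _ _)
      · exact hb (Finset.mem_insert_self _ _)
    · exact (Finset.card_insert_le _ _).trans (by omega)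
    · rw [Finset.card_erase_of_mem he]
      omega

/-- Deleting all edges disconnects. -/
theorem exists_Q [Finite V] {G : SimpleGraph V} {v w : V} (hne : v ≠ w) (s : ℕ) :
    ∃ t, Q G v w s t := by
  classical
  haveI := Fintype.ofFinite V
  refine ⟨G.edgeFinset.card, ∅, G.edgeFinset, ⟨by simp, by simp, by simp, ?_⟩, by simp, le_rfl⟩
  rintro ⟨p⟩
  cases p with
  | nil => exact hne rfl
  | cons h _ =>
    simp only [SimpleGraph.comap_adj, Function.Embedding.subtype_apply,
      SimpleGraph.deleteEdges_adj, Finset.mem_coe, SimpleGraph.mem_edgeFinset] at h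
    exact h.2 h.1

theorem klConnected_iff {G : SimpleGraph V} {v w : V} {k l : ℕ} :
    KLConnected G v w k l ↔
      (∀ s, s < k → ¬ Q G v w s l) ∧ (∀ t, t < l → ¬ Q G v w k t) := by
  constructor
  · intro h
    refine ⟨fun s hs hQ => ?_, fun t ht hQ => ?_⟩
    · obtain ⟨S, T, hd, h1, h2⟩ := hQ
      exact h S T hd (Or.inl ⟨by omega, h2⟩)
    · obtain ⟨S, T, hd, h1, h2⟩ := hQ
      exact h S T hd (Or.inr ⟨h1, by omega⟩)
  · rintro ⟨h1, h2⟩ S T hd (⟨h3, h4⟩ | ⟨h3, h4⟩)
    · exact h1 S.card h3 ⟨S, T, hd, le_rfl, h4⟩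
    · exact h2 T.card h4 ⟨S, T, hd, h3, le_rfl⟩

/-- For `k ≤ κ(v, w)` the connectivity pairs with first coordinate `k` are those with second
coordinate the least number of edges of a disconnecting pair with at most `k` vertices. -/
theorem connectivityPair_iff [Finite V] {G : SimpleGraph V} {v w : V} {k : ℕ}
    (h : LeKappa G v w k) (l : ℕ) :
    ConnectivityPair G v w k l ↔ Q G v w k l ∧ ∀ t, t < l → ¬ Q G v w k t := by
  obtain ⟨hne, hvw, hκ⟩ := h
  have hstep : ∀ s t, s < k → Q G v w s t → 0 < t ∧ Q G v w (s + 1) (t - 1) := fun s t hs hQ =>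
    Q.step hvw (fun S hS => lt_of_lt_of_le hs (hκ S hS)) hQ
  constructor
  · rintro ⟨h1, h2, h3⟩
    rw [klConnected_iff] at h1 h2 h3
    refine ⟨?_, h1.2⟩
    by_contra hQ
    -- `Q k l` fails
    have h4 : ∃ s, s < k ∧ Q G v w s (l + 1) := by
      by_contra h5
      push Not at h5
      apply h3
      refine ⟨h5, fun t ht => ?_⟩
      rcases Nat.lt_succ_iff_lt_or_eq.1 ht with h6 | rfl
      · exact h1.2 t h6
      · exact hQ
    obtain ⟨s, hs, hQs⟩ := h4
    have := (hstep s (l + 1) hs hQs).2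
    exact hQ (this.mono (by omega) (by omega))
  · rintro ⟨h1, h2⟩
    refine ⟨klConnected_iff.2 ⟨fun s hs hQ => ?_, h2⟩, fun h3 => ?_, fun h3 => ?_⟩
    · obtain ⟨h3, h4⟩ := hstep s l hs hQ
      exact h2 (l - 1) (by omega) (h4.mono (by omega) le_rfl)
    · rw [klConnected_iff] at h3
      exact h3.1 k (by omega) h1
    · rw [klConnected_iff] at h3
      exact h3.2 l (by omega) h1

/-- For `k ≤ κ(v, w)` there is exactly one connectivity pair with first coordinate `k`. -/
theorem existsUnique_connectivityPair [Finite V] {G : SimpleGraph V} {v w : V} {k : ℕ}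
    (h : LeKappa G v w k) : ∃! l, ConnectivityPair G v w k l := by
  classical
  have hex := exists_Q (G := G) h.1 k
  refine ⟨Nat.find hex, ?_, ?_⟩
  · exact (connectivityPair_iff h _).2 ⟨Nat.find_spec hex, fun t ht => Nat.find_min hex ht⟩
  · intro l hl
    rw [connectivityPair_iff h] at hl
    refine le_antisymm ?_ (Nat.find_min' hex hl.1)
    by_contra hlt
    exact hl.2 _ (by omega) (Nat.find_spec hex)

theorem le_iff_Q [Finite V] {G : SimpleGraph V} {v w : V} {k l m : ℕ}
    (h : LeKappa G v w k) (hl : ConnectivityPair G v w k l) : l ≤ m ↔ Q G v w k m := by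
  rw [connectivityPair_iff h] at hl
  constructor
  · intro hm; exact hl.1.mono le_rfl hm
  · intro hQ
    by_contra hlt
    exact hl.2 m (by omega) hQ

/-! ### Transport along isomorphisms -/

theorem Disconnects.map {V' : Type} {G : SimpleGraph V} {G' : SimpleGraph V'} (φ : G ≃g G')
    {v w : V} {S : Finset V} {T : Finset (Sym2 V)} (h : Disconnects G v w S T) :
    Disconnects G' (φ v) (φ w) (S.map φ.toEquiv.toEmbedding)
      (T.map ⟨Sym2.map φ, Sym2.map.injective φ.injective⟩) := by
  obtain ⟨hv, hw, hT, hr⟩ := h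
  have hv' : φ v ∉ S.map φ.toEquiv.toEmbedding := by
    intro h; rw [Finset.mem_map] at h
    obtain ⟨a, ha, hav⟩ := h
    exact hv (by have := φ.injective hav; rwa [this] at ha)
  have hw' : φ w ∉ S.map φ.toEquiv.toEmbedding := by
    intro h; rw [Finset.mem_map] at h
    obtain ⟨a, ha, hav⟩ := h
    exact hw (by have := φ.injective hav; rwa [this] at ha)
  refine ⟨hv', hw', ?_, ?_⟩
  · intro e he
    rw [Finset.mem_coe, Finset.mem_map] at he
    obtain ⟨f, hf, rfl⟩ := he
    have := hT hf
    induction f with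
    | h a b =>
      simp only [Function.Embedding.coeFn_mk, Sym2.map_pair_eq, SimpleGraph.mem_edgeSet] at this ⊢
      exact φ.map_adj_iff.2 this
  · intro hr'
    apply hr
    let f : ((G'.deleteEdges ((T.map ⟨Sym2.map φ, Sym2.map.injective φ.injective⟩ :
        Finset (Sym2 V')) : Set (Sym2 V'))).induce {x | x ∉ S.map φ.toEquiv.toEmbedding}) →g
        ((G.deleteEdges (T : Set (Sym2 V))).induce {x | x ∉ S}) :=
      { toFun := fun x => ⟨φ.symm x.1, fun hx => x.2 (by
          rw [Finset.mem_map]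
          exact ⟨φ.symm x.1, hx, by simp⟩)⟩
        map_rel' := by
          rintro ⟨a, ha⟩ ⟨b, hb⟩ hab
          simp only [SimpleGraph.comap_adj, Function.Embedding.subtype_apply,
            SimpleGraph.deleteEdges_adj, Finset.mem_coe] at hab ⊢
          refine ⟨φ.symm.map_adj_iff.2 hab.1, fun hT => hab.2 ?_⟩
          rw [Finset.mem_map]
          refine ⟨_, hT, ?_⟩
          simp }
    have := hr'.map f
    simpa [f] using this

theorem Q.map {V' : Type} {G : SimpleGraph V} {G' : SimpleGraph V'} (φ : G ≃g G')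
    {v w : V} {s t : ℕ} (h : Q G v w s t) : Q G' (φ v) (φ w) s t := by
  obtain ⟨S, T, h, h1, h2⟩ := h
  exact ⟨_, _, h.map φ, by simpa using h1, by simpa using h2⟩

theorem LeKappa.map {V' : Type} {G : SimpleGraph V} {G' : SimpleGraph V'} (φ : G ≃g G')
    {v w : V} {k : ℕ} (h : LeKappa G v w k) : LeKappa G' (φ v) (φ w) k := by
  obtain ⟨h1, h2, h3⟩ := h
  refine ⟨fun h => h1 (φ.injective h), fun h => h2 (φ.map_adj_iff.1 h), fun S hS => ?_⟩
  have := hS.map φ.symm
  simp only [RelIso.symm_apply_apply, Finset.map_empty] at this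
  have h4 := h3 _ this
  simpa using h4

end Pool.Agent.NPC.V11230.CP
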