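import Pool.Agent.V11230.ConnDefs
import Pool.Agent.H634R2.Clique
import Pool.Agent.H692R2.FinGraph
import Pool.Agent.H598R2.Collapse

/-!
# From cliques to mixed connectivity: combinatorics of the reduction
-/

namespace Pool.Agent.NPC.V11230.CP

open Pool.Agent.NPC Pool.Agent.H622R2 Pool.Agent.NPC.H634R2 Pool.Agent.H692R2

/-- Labels of the vertices: a tag and two numbers. -/
abbrev Lab : Type := ℕ × ℕ × ℕ

/-- The vertices: `v = (0,0,0)`, `w = (1,0,0)`, one vertex `(2,i,0)` for each vertex `i` of the given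
graph, and three vertices `(3,i,j)`, `(4,i,j)`, `(5,i,j)` for each edge `ij`. -/
def labs (V : List ℕ) (E : List (ℕ × ℕ)) : List Lab :=
  (0, 0, 0) :: (1, 0, 0) :: (V.map (fun i => (2, i, 0)) ++ (E.map (fun e => (3, e.1, e.2)) ++
    (E.map (fun e => (4, e.1, e.2)) ++ E.map (fun e => (5, e.1, e.2)))))

/-- Adjacency (to be symmetrised). -/
def adjL (a b : Lab) : Bool :=
  (decide (a.1 = 0) && decide (b.1 = 3)) ||
  ((decide (a.1 = 3) && decide (b.1 = 2)) && (decide (b.2.1 = a.2.1) || decide (b.2.1 = a.2.2))) ||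
  ((decide (a.1 = 2) && decide (b.1 = 4)) && decide (a.2.1 = b.2.1)) ||
  ((decide (a.1 = 2) && decide (b.1 = 5)) && decide (a.2.1 = b.2.2)) ||
  (decide (b.1 = 1) && (decide (a.1 = 4) || decide (a.1 = 5)))

theorem mem_labs {V : List ℕ} {E : List (ℕ × ℕ)} {t x y : ℕ} :
    ((t, x, y) : Lab) ∈ labs V E ↔ (t = 0 ∧ x = 0 ∧ y = 0) ∨ (t = 1 ∧ x = 0 ∧ y = 0) ∨
      (t = 2 ∧ x ∈ V ∧ y = 0) ∨ (t = 3 ∧ (x, y) ∈ E) ∨ (t = 4 ∧ (x, y) ∈ E) ∨
      (t = 5 ∧ (x, y) ∈ E) := by
  unfold labs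
  simp only [List.mem_cons, Prod.mk.injEq, List.mem_append, List.mem_map, Prod.exists]
  constructor
  · rintro (h | h | ⟨i, hi, h1, h2, h3⟩ | ⟨a, b, hab, h1, h2, h3⟩ | ⟨a, b, hab, h1, h2, h3⟩ |
      ⟨a, b, hab, h1, h2, h3⟩)
    · exact Or.inl h
    · exact Or.inr (Or.inl h)
    · subst h1 h2 h3; exact Or.inr (Or.inr (Or.inl ⟨rfl, hi, rfl⟩))
    · subst h1 h2 h3; simp [hab]
    · subst h1 h2 h3; simp [hab]
    · subst h1 h2 h3; simp [hab]
  · rintro (h | h | ⟨h1, h2, h3⟩ | ⟨h1, h2⟩ | ⟨h1, h2⟩ | ⟨h1, h2⟩)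
    · exact Or.inl h
    · exact Or.inr (Or.inl h)
    · exact Or.inr (Or.inr (Or.inl ⟨x, h2, h1.symm, rfl, h3.symm⟩))
    · exact Or.inr (Or.inr (Or.inr (Or.inl ⟨x, y, h2, h1.symm, rfl, rfl⟩)))
    · exact Or.inr (Or.inr (Or.inr (Or.inr (Or.inl ⟨x, y, h2, h1.symm, rfl, rfl⟩))))
    · exact Or.inr (Or.inr (Or.inr (Or.inr (Or.inr ⟨x, y, h2, h1.symm, rfl, rfl⟩))))

theorem labs_nodup {V : List ℕ} {E : List (ℕ × ℕ)} (h : IsGraph V E) : (labs V E).Nodup := by
  have hE : E.Nodup := List.Nodup.of_map _ h.2.2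
  unfold labs
  rw [List.nodup_cons, List.nodup_cons, List.nodup_append', List.nodup_append',
    List.nodup_append']
  refine ⟨?_, ?_, ?_, ⟨?_, ⟨?_, ?_, ?_⟩, ?_⟩, ?_⟩
  · simp
  · simp
  · exact h.1.map fun a b hab => by simpa using hab
  · exact hE.map fun a b hab => by
      simp only [Prod.mk.injEq, true_and] at hab; exact Prod.ext hab.1 hab.2
  · exact hE.map fun a b hab => by
      simp only [Prod.mk.injEq, true_and] at hab; exact Prod.ext hab.1 hab.2
  · exact hE.map fun a b hab => by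
      simp only [Prod.mk.injEq, true_and] at hab; exact Prod.ext hab.1 hab.2
  · intro a ha hb
    simp only [List.mem_map, Prod.exists] at ha hb
    obtain ⟨x, y, _, rfl⟩ := ha
    obtain ⟨x', y', _, hh⟩ := hb
    simp at hh
  · intro a ha hb
    simp only [List.mem_map, Prod.exists, List.mem_append] at ha hb
    obtain ⟨x, y, _, rfl⟩ := ha
    rcases hb with ⟨x', y', _, hh⟩ | ⟨x', y', _, hh⟩ <;> simp at hh
  · intro a ha hb
    simp only [List.mem_map, Prod.exists, List.mem_append] at ha hb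
    obtain ⟨x, _, rfl⟩ := ha
    rcases hb with ⟨x', y', _, hh⟩ | ⟨x', y', _, hh⟩ | ⟨x', y', _, hh⟩ <;> simp at hh

section

variable {V : List ℕ} {E : List (ℕ × ℕ)}

/-- The graph of the reduction. -/
abbrev Gr (V : List ℕ) (E : List (ℕ × ℕ)) : SimpleGraph {x // x ∈ labs V E} :=
  labGraph (labs V E) adjL

/-- The vertex `v`. -/
def vv (V : List ℕ) (E : List (ℕ × ℕ)) : {x // x ∈ labs V E} := ⟨(0, 0, 0), by simp [labs]⟩

/-- The vertex `w`. -/
def ww (V : List ℕ) (E : List (ℕ × ℕ)) : {x // x ∈ labs V E} := ⟨(1, 0, 0), by simp [labs]⟩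

/-- Exactly one end of each edge has a tag at least `3`. -/
theorem adj_tag {a b : {x // x ∈ labs V E}} (h : (Gr V E).Adj a b) :
    (3 ≤ a.1.1 ∧ b.1.1 < 3) ∨ (a.1.1 < 3 ∧ 3 ≤ b.1.1) := by
  obtain ⟨_, h | h⟩ := h
  · unfold adjL at h
    simp only [Bool.or_eq_true, Bool.and_eq_true, decide_eq_true_eq] at h
    omega
  · unfold adjL at h
    simp only [Bool.or_eq_true, Bool.and_eq_true, decide_eq_true_eq] at h
    omega

theorem vv_not_adj_ww : ¬ (Gr V E).Adj (vv V E) (ww V E) := by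
  intro h
  have := adj_tag h
  simp [vv, ww] at this

/-- The basic inequality. -/
theorem core (hG : IsGraph V E) {S : Finset {x // x ∈ labs V E}}
    {T : Finset (Sym2 {x // x ∈ labs V E})} (h : Disconnects (Gr V E) (vv V E) (ww V E) S T) :
    ∃ U : Finset ℕ, (∀ i ∈ U, i ∈ V) ∧ U.card ≤ S.card ∧
      E.length ≤ T.card + inside E U + (S.card - U.card) := by
  classical
  obtain ⟨hv, hw, hT, hr⟩ := h
  have hEnd : E.Nodup := List.Nodup.of_map _ hG.2.2
  -- the removed vertices of the given graph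
  let S2 := S.filter (fun x => x.1.1 = 2)
  let S3 := S.filter (fun x => ¬ x.1.1 = 2)
  let U : Finset ℕ := S2.image (fun x => x.1.2.1)
  have hS : S2.card + S3.card = S.card := Finset.card_filter_add_card_filter_not _
  have hU : U.card ≤ S2.card := Finset.card_image_le
  have hmemU : ∀ (i : ℕ) (hi : ((2, i, 0) : Lab) ∈ labs V E), (⟨(2, i, 0), hi⟩ :
      {x // x ∈ labs V E}) ∈ S → i ∈ U := by
    intro i hi hmem
    exact Finset.mem_image.2 ⟨_, Finset.mem_filter.2 ⟨hmem, rfl⟩, rfl⟩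
  -- the sets covering the edges
  let A1 : Finset (ℕ × ℕ) := (E.filter (fun e => decide (e.1 ∈ U) && decide (e.2 ∈ U))).toFinset
  let A2 : Finset (ℕ × ℕ) := S3.image (fun x => x.1.2)
  let A3 : Finset (ℕ × ℕ) := E.toFinset.filter (fun e => ∃ τ ∈ T, ∃ x ∈ τ, 3 ≤ x.1.1 ∧ x.1.2 = e)
  have hA1 : A1.card = inside E U := by
    rw [List.toFinset_card_of_nodup (hEnd.filter _)]
    unfold inside
    rw [List.countP_eq_length_filter]
  have hA2 : A2.card ≤ S3.card := Finset.card_image_le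
  have hA3 : A3.card ≤ T.card := by
    have hch : ∀ e ∈ A3, ∃ τ ∈ T, ∃ x ∈ τ, 3 ≤ x.1.1 ∧ x.1.2 = e := fun e he =>
      (Finset.mem_filter.1 he).2
    haveI : Nonempty (Sym2 {x // x ∈ labs V E}) := ⟨s(vv V E, vv V E)⟩
    choose! g hg1 hg2 using hch
    refine Finset.card_le_card_of_injOn g hg1 ?_
    intro e he e' he' heq
    obtain ⟨x, hx, hx3, hxe⟩ := hg2 e he
    obtain ⟨x', hx', hx3', hxe'⟩ := hg2 e' he'
    rw [heq] at hx
    have hτ : g e' ∈ (Gr V E).edgeSet := hT (hg1 e' he')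
    have key : x = x' := by
      revert hx hx' hτ
      generalize g e' = τ
      induction τ with
      | h a b =>
        intro hx hx' hτ
        rw [SimpleGraph.mem_edgeSet] at hτ
        have := adj_tag hτ
        rcases Sym2.mem_iff.1 hx with rfl | rfl <;> rcases Sym2.mem_iff.1 hx' with rfl | rfl
        · rfl
        · omega
        · omega
        · rfl
    rw [← hxe, ← hxe', key]
  have hcov : E.toFinset ⊆ A1 ∪ (A2 ∪ A3) := by
    rintro ⟨x, y⟩ he
    by_contra hnot
    simp only [Finset.mem_union, not_or] at hnot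
    obtain ⟨h1, h2, h3⟩ := hnot
    have heE : (x, y) ∈ E := List.mem_toFinset.1 he
    have hxy := hG.2.1 (x, y) heE
    have hnS : ∀ (t : ℕ) (ht : 3 ≤ t) (hl : ((t, x, y) : Lab) ∈ labs V E),
        (⟨(t, x, y), hl⟩ : {x // x ∈ labs V E}) ∉ S := by
      intro t ht hl hmem
      exact h2 (Finset.mem_image.2 ⟨_, Finset.mem_filter.2 ⟨hmem, by simp; omega⟩, rfl⟩)
    have hnT : ∀ (t : ℕ) (ht : 3 ≤ t) (hl : ((t, x, y) : Lab) ∈ labs V E)
        (b : {x // x ∈ labs V E}), s((⟨(t, x, y), hl⟩ : {x // x ∈ labs V E}), b) ∉ T := by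
      intro t ht hl b hmem
      refine h3 (Finset.mem_filter.2 ⟨he, _, hmem, _, Sym2.mem_mk_left _ _, ht, rfl⟩)
    have hl3 : ((3, x, y) : Lab) ∈ labs V E := mem_labs.2 (by simp [heE])
    have hl4 : ((4, x, y) : Lab) ∈ labs V E := mem_labs.2 (by simp [heE])
    have hl5 : ((5, x, y) : Lab) ∈ labs V E := mem_labs.2 (by simp [heE])
    have hlx : ((2, x, 0) : Lab) ∈ labs V E := mem_labs.2 (by simp [hxy.1])
    have hly : ((2, y, 0) : Lab) ∈ labs V E := mem_labs.2 (by simp [hxy.2.1])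
    have hadj : ∀ (a b : {x // x ∈ labs V E}) (ha : a ∉ S) (hb : b ∉ S), a.1 ≠ b.1 →
        (adjL a.1 b.1 = true ∨ adjL b.1 a.1 = true) → s(a, b) ∉ T →
        (((Gr V E).deleteEdges (T : Set (Sym2 _))).induce {x | x ∉ S}).Adj ⟨a, ha⟩ ⟨b, hb⟩ := by
      intro a b ha hb hne hab hT
      simp only [SimpleGraph.comap_adj, Function.Embedding.subtype_apply,
        SimpleGraph.deleteEdges_adj, Finset.mem_coe]
      exact ⟨⟨fun h => hne (by rw [h]), hab⟩, hT⟩
    have hnot1 : ¬ (x ∈ U ∧ y ∈ U) := by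
      intro hh
      apply h1
      rw [List.mem_toFinset, List.mem_filter]
      exact ⟨heE, by simp [hh.1, hh.2]⟩
    by_cases hx : x ∈ U
    · have hy : y ∉ U := fun hy => hnot1 ⟨hx, hy⟩
      have n3 := hnS 3 le_rfl hl3
      have n5 := hnS 5 (by norm_num) hl5
      have n2 : (⟨(2, y, 0), hly⟩ : {x // x ∈ labs V E}) ∉ S := fun h => hy (hmemU y hly h)
      apply hr
      have r1 := (hadj (vv V E) ⟨(3, x, y), hl3⟩ hv n3 (by simp [vv]) (by simp [adjL, vv])
        (by rw [Sym2.eq_swap]; exact hnT 3 le_rfl hl3 _)).reachable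
      have r2 := (hadj ⟨(3, x, y), hl3⟩ ⟨(2, y, 0), hly⟩ n3 n2 (by simp) (by simp [adjL])
        (hnT 3 le_rfl hl3 _)).reachable
      have r3 := (hadj ⟨(2, y, 0), hly⟩ ⟨(5, x, y), hl5⟩ n2 n5 (by simp) (by simp [adjL])
        (by rw [Sym2.eq_swap]; exact hnT 5 (by norm_num) hl5 _)).reachable
      have r4 := (hadj ⟨(5, x, y), hl5⟩ (ww V E) n5 hw (by simp [ww]) (by simp [adjL, ww])
        (hnT 5 (by norm_num) hl5 _)).reachable
      exact r1.trans (r2.trans (r3.trans r4))
    · have n3 := hnS 3 le_rfl hl3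
      have n4 := hnS 4 (by norm_num) hl4
      have n2 : (⟨(2, x, 0), hlx⟩ : {x // x ∈ labs V E}) ∉ S := fun h => hx (hmemU x hlx h)
      apply hr
      have r1 := (hadj (vv V E) ⟨(3, x, y), hl3⟩ hv n3 (by simp [vv]) (by simp [adjL, vv])
        (by rw [Sym2.eq_swap]; exact hnT 3 le_rfl hl3 _)).reachable
      have r2 := (hadj ⟨(3, x, y), hl3⟩ ⟨(2, x, 0), hlx⟩ n3 n2 (by simp) (by simp [adjL])
        (hnT 3 le_rfl hl3 _)).reachable
      have r3 := (hadj ⟨(2, x, 0), hlx⟩ ⟨(4, x, y), hl4⟩ n2 n4 (by simp) (by simp [adjL])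
        (by rw [Sym2.eq_swap]; exact hnT 4 (by norm_num) hl4 _)).reachable
      have r4 := (hadj ⟨(4, x, y), hl4⟩ (ww V E) n4 hw (by simp [ww]) (by simp [adjL, ww])
        (hnT 4 (by norm_num) hl4 _)).reachable
      exact r1.trans (r2.trans (r3.trans r4))
  refine ⟨U, ?_, by omega, ?_⟩
  · intro i hi
    obtain ⟨⟨⟨t, x, y⟩, hx⟩, hx2, rfl⟩ := Finset.mem_image.1 hi
    have ht : t = 2 := (Finset.mem_filter.1 hx2).2
    subst ht
    have := mem_labs.1 hx
    simp at this
    exact this.1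
  · have h1 := Finset.card_le_card hcov
    rw [List.toFinset_card_of_nodup hEnd] at h1
    have h2 := Finset.card_union_le A1 (A2 ∪ A3)
    have h3 := Finset.card_union_le A2 A3
    omega

/-- A clique gives a disconnecting pair. -/
theorem of_inside (_hG : IsGraph V E) {U : Finset ℕ} {k : ℕ} (hU : U.card ≤ k) :
    Q (Gr V E) (vv V E) (ww V E) k (E.length - inside E U) := by
  classical
  let S : Finset {x // x ∈ labs V E} := (U.image (fun i => ((2, i, 0) : Lab))).subtype _
  let F : List (ℕ × ℕ) := E.filter (fun e => !(decide (e.1 ∈ U) && decide (e.2 ∈ U)))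
  have hF : ∀ e ∈ F, ((3, e.1, e.2) : Lab) ∈ labs V E := fun e he =>
    mem_labs.2 (by simp [(List.mem_filter.1 he).1])
  let T : Finset (Sym2 {x // x ∈ labs V E}) :=
    (F.attach.map (fun e => s(vv V E, ⟨(3, e.1.1, e.1.2), hF e.1 e.2⟩))).toFinset
  have hv : vv V E ∉ S := by
    simp [S, vv, Finset.mem_subtype]
  have hw : ww V E ∉ S := by
    simp [S, ww, Finset.mem_subtype]
  refine ⟨S, T, ⟨hv, hw, ?_, ?_⟩, ?_, ?_⟩
  · intro τ hτ
    rw [Finset.mem_coe, List.mem_toFinset, List.mem_map] at hτ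
    obtain ⟨e, _, rfl⟩ := hτ
    rw [SimpleGraph.mem_edgeSet]
    exact ⟨by simp [vv], Or.inl (by simp [adjL, vv])⟩
  · -- the set of reachable vertices
    have key : ∀ (a b : {x : {x // x ∈ labs V E} // x ∈ {x | x ∉ S}}),
        (((Gr V E).deleteEdges (T : Set (Sym2 _))).induce {x | x ∉ S}).Walk a b →
        (a.1.1.1 = 0 ∨ (a.1.1.1 = 3 ∧ a.1.1.2.1 ∈ U ∧ a.1.1.2.2 ∈ U)) →
        (b.1.1.1 = 0 ∨ (b.1.1.1 = 3 ∧ b.1.1.2.1 ∈ U ∧ b.1.1.2.2 ∈ U)) := by
      intro a b p
      induction p with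
      | nil => exact id
      | @cons a c b hac p ih =>
        intro ha
        apply ih
        simp only [SimpleGraph.comap_adj, Function.Embedding.subtype_apply,
          SimpleGraph.deleteEdges_adj, Finset.mem_coe] at hac
        obtain ⟨⟨hne, hadj⟩, hT⟩ := hac
        obtain ⟨⟨⟨ta, xa, ya⟩, ha'⟩, haS⟩ := a
        obtain ⟨⟨⟨tc, xc, yc⟩, hc'⟩, hcS⟩ := c
        simp only at ha ⊢
        unfold adjL at hadj
        simp only [Bool.or_eq_true, Bool.and_eq_true, decide_eq_true_eq] at hadj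
        rcases ha with rfl | ⟨rfl, hxU, hyU⟩
        · have htc : tc = 3 := by omega
          subst htc
          right
          refine ⟨rfl, ?_⟩
          by_contra hnot
          apply hT
          have hcE : (xc, yc) ∈ E := by
            have := mem_labs.1 hc'
            simpa using this
          have ha0 := mem_labs.1 ha'
          simp only [true_and, OfNat.zero_ne_ofNat, false_and, or_false,
            zero_ne_one] at ha0
          obtain ⟨rfl, rfl⟩ := ha0
          rw [List.mem_toFinset, List.mem_map]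
          refine ⟨⟨(xc, yc), List.mem_filter.2 ⟨hcE, ?_⟩⟩, List.mem_attach _ _, rfl⟩
          simp only [Bool.not_eq_true', Bool.and_eq_false_iff, decide_eq_false_iff_not]
          by_contra hh
          push Not at hh
          exact hnot hh
        · -- from an edge vertex inside `U`
          have htc : tc = 0 ∨ (tc = 2 ∧ (xc = xa ∨ xc = ya)) := by omega
          rcases htc with h0 | ⟨rfl, hx⟩
          · exact Or.inl h0
          · exfalso
            apply hcS
            have hc0 := mem_labs.1 hc'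
            simp only [OfNat.ofNat_ne_zero, false_and, OfNat.ofNat_ne_one, true_and,
              Nat.reduceEqDiff, or_false, false_or] at hc0
            obtain ⟨_, rfl⟩ := hc0
            rw [Finset.mem_subtype, Finset.mem_image]
            refine ⟨xc, ?_, rfl⟩
            rcases hx with rfl | rfl
            · exact hxU
            · exact hyU
    rintro ⟨p⟩
    have := key _ _ p (Or.inl rfl)
    simp [ww] at this
  · calc S.card ≤ (U.image (fun i => ((2, i, 0) : Lab))).card := by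
          simp only [S, Finset.card_subtype]
          exact Finset.card_filter_le _ _
      _ ≤ U.card := Finset.card_image_le
      _ ≤ k := hU
  · have h1 : T.card ≤ F.length := (List.toFinset_card_le _).trans (by simp)
    have h2 : F.length + inside E U = E.length := by
      unfold inside
      rw [List.countP_eq_length_filter]
      simp only [F]
      rw [add_comm]
      have := List.length_eq_length_filter_add (l := E)
        (fun e => decide (e.1 ∈ U) && decide (e.2 ∈ U))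
      exact this.symm
    omega

theorem arith {u k : ℕ} (h4 : 4 ≤ k) (h : u < k) : u.choose 2 + (k - u) < k.choose 2 := by
  obtain ⟨d, rfl⟩ := Nat.exists_eq_add_of_lt h
  have h1 : ((u.choose 2 : ℕ) : ℚ) = (u : ℚ) * (u - 1) / 2 := Nat.cast_choose_two ℚ u
  have h2 : (((u + d + 1).choose 2 : ℕ) : ℚ) = ((u + d + 1 : ℕ) : ℚ) * ((u + d + 1 : ℕ) - 1) / 2 :=
    Nat.cast_choose_two ℚ _
  have h3 : u + d + 1 - u = d + 1 := by omega
  rw [h3]
  have h5 : ((u.choose 2 + (d + 1) : ℕ) : ℚ) < (((u + d + 1).choose 2 : ℕ) : ℚ) := by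
    rw [h2]
    push_cast
    rw [h1]
    have hu : (0 : ℚ) ≤ u := Nat.cast_nonneg u
    have hd : (0 : ℚ) ≤ d := Nat.cast_nonneg d
    have hs : (4 : ℚ) ≤ u + d + 1 := by exact_mod_cast h4
    nlinarith [mul_nonneg hu hd]
  exact_mod_cast h5

theorem arith' {u s k : ℕ} (h4 : 4 ≤ k) (h : u < k) (hu : u ≤ s) (hs : s ≤ k) :
    u.choose 2 + (s - u) < k.choose 2 := by
  have := arith h4 h
  omega

/-- Validity of the instances. -/
theorem leKappa (hG : IsGraph V E) {k : ℕ} (h4 : 4 ≤ k) (hE : k.choose 2 ≤ E.length) :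
    LeKappa (Gr V E) (vv V E) (ww V E) k := by
  refine ⟨by simp [vv, ww], vv_not_adj_ww, fun S hS => ?_⟩
  obtain ⟨U, _, hU2, hU3⟩ := core hG hS
  by_contra hlt
  push Not at hlt
  have h1 := inside_le hG U
  have h2 := arith' h4 (lt_of_le_of_lt hU2 hlt) hU2 hlt.le
  simp only [Finset.card_empty, zero_add] at hU3
  omega

/-- Correctness. -/
theorem correct (hG : IsGraph V E) {k : ℕ} (h4 : 4 ≤ k) (hE : k.choose 2 ≤ E.length) :
    HasClique V E k ↔ Q (Gr V E) (vv V E) (ww V E) k (E.length - k.choose 2) := by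
  rw [hasClique_iff hG (by omega)]
  constructor
  · rintro ⟨U, _, hU2, hU3⟩
    exact (of_inside hG hU2).mono le_rfl (by omega)
  · rintro ⟨S, T, h, h1, h2⟩
    obtain ⟨U, hU1, hU2, hU3⟩ := core hG h
    refine ⟨U, hU1, hU2.trans h1, ?_⟩
    have h3 := inside_le hG U
    rcases Nat.lt_or_ge U.card k with hlt | hge
    · have := arith' h4 hlt hU2 h1
      omega
    · omega

end

end Pool.Agent.NPC.V11230.CP
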