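import Mathlib

/-!
# Visiting the leaves of a star: slack
-/

set_option autoImplicit false

namespace Pool.Agent.V11230.DS

/-- the times at which the agent starts to cross to a new leaf, and the next times -/
def busy (E : Finset ℕ) : Finset ℕ := E ∪ E.image Nat.succ

theorem mem_busy {E : Finset ℕ} {a : ℕ} : a ∈ busy E ↔ a ∈ E ∨ ∃ b ∈ E, b + 1 = a := by
  simp [busy]

/-- the number of idle times before `T` -/
def slack (E : Finset ℕ) (T : ℕ) : ℕ := (Finset.range T \ busy E).card

theorem slack_mono (E : Finset ℕ) {T T' : ℕ} (h : T ≤ T') : slack E T ≤ slack E T' :=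
  Finset.card_le_card (Finset.sdiff_subset_sdiff
    (fun _ hx => Finset.mem_range.2 (lt_of_lt_of_le (Finset.mem_range.1 hx) h)) le_rfl)

variable {E : Finset ℕ}

theorem card_busy (hE : ∀ a ∈ E, a + 1 ∉ E) : (busy E).card = 2 * E.card := by
  unfold busy
  rw [Finset.card_union_of_disjoint, Finset.card_image_of_injective _ Nat.succ_injective, two_mul]
  rw [Finset.disjoint_left]
  intro a ha hb'
  obtain ⟨b, hb, rfl⟩ := Finset.mem_image.1 hb'
  exact hE b hb ha

theorem slack_top {N W : ℕ} (hE : ∀ a ∈ E, a + 1 ∉ E) (hN : E.card = N)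
    (hr : ∀ a ∈ E, a + 1 < 2 * N + W) : slack E (2 * N + W) = W := by
  unfold slack
  rw [Finset.card_sdiff_of_subset, Finset.card_range, card_busy hE, hN]
  · omega
  · intro a ha
    rw [Finset.mem_range]
    rcases mem_busy.1 ha with h | ⟨b, hb, rfl⟩
    · have := hr a h
      omega
    · exact hr b hb

theorem slack_parity (hE : ∀ a ∈ E, a + 1 ∉ E) {a : ℕ} (ha : a ∈ E) :
    slack E a % 2 = a % 2 := by
  have h1 : Finset.range a ∩ busy E = busy (E.filter (· < a)) := by
    ext x
    rw [Finset.mem_inter, Finset.mem_range, mem_busy, mem_busy]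
    constructor
    · rintro ⟨h, h' | ⟨b, hb, rfl⟩⟩
      · exact Or.inl (Finset.mem_filter.2 ⟨h', h⟩)
      · exact Or.inr ⟨b, Finset.mem_filter.2 ⟨hb, by omega⟩, rfl⟩
    · rintro (h | ⟨b, hb, rfl⟩)
      · exact ⟨(Finset.mem_filter.1 h).2, Or.inl (Finset.mem_filter.1 h).1⟩
      · obtain ⟨hb1, hb2⟩ := Finset.mem_filter.1 hb
        refine ⟨?_, Or.inr ⟨b, hb1, rfl⟩⟩
        by_contra hc
        have : a = b + 1 := by omega
        exact hE b hb1 (this ▸ ha)
  have h2 := card_busy (E := E.filter (· < a)) (fun b hb hb' =>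
    hE b (Finset.mem_filter.1 hb).1 (Finset.mem_filter.1 hb').1)
  have h3 := Finset.card_sdiff_add_card_inter (Finset.range a) (busy E)
  rw [h1, h2, Finset.card_range] at h3
  unfold slack
  omega

/-- few visits are not followed immediately by a new visit -/
theorem card_irregular {N W : ℕ} (hE : ∀ a ∈ E, a + 1 ∉ E) (hN : E.card = N)
    (hr : ∀ a ∈ E, a + 1 < 2 * N + W) : (E.filter (fun a => a + 2 ∉ E)).card ≤ W + 1 := by
  have h := slack_top hE hN hr
  unfold slack at h
  have h1 : ((E.filter (fun a => a + 2 ∉ E)).image (· + 2)).card ≤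
      (insert (2 * N + W) (Finset.range (2 * N + W) \ busy E)).card := by
    refine Finset.card_le_card fun x hx => ?_
    obtain ⟨a, ha, rfl⟩ := Finset.mem_image.1 hx
    obtain ⟨ha1, ha2⟩ := Finset.mem_filter.1 ha
    rw [Finset.mem_insert, Finset.mem_sdiff, Finset.mem_range, mem_busy]
    have := hr a ha1
    by_cases he : a + 2 = 2 * N + W
    · exact Or.inl he
    · refine Or.inr ⟨by omega, ?_⟩
      rintro (h' | ⟨b, hb, hb'⟩)
      · exact ha2 h'
      · have : b = a + 1 := by omega
        exact hE a ha1 (this ▸ hb)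
  rw [Finset.card_image_of_injective _ (add_left_injective 2)] at h1
  refine h1.trans ((Finset.card_insert_le _ _).trans ?_)
  rw [h]

theorem exists_regular {N W K u : ℕ} {U : Finset ℕ} (hE : ∀ a ∈ E, a + 1 ∉ E) (hN : E.card = N)
    (hr : ∀ a ∈ E, a + 1 < 2 * N + W) (hU : U.card ≤ u) {g : ℕ → ℕ} (hg : ∀ k < K, g k ∈ E)
    (hi : ∀ k < K, ∀ k' < K, g k = g k' → k = k') (hK : W + 1 + u < K) :
    ∃ k < K, g k + 2 ∈ E ∧ g k ∉ U := by
  by_contra hc
  push Not at hc
  have h1 : ((Finset.range K).image g).card = K := by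
    rw [Finset.card_image_of_injOn, Finset.card_range]
    intro k hk k' hk' h
    exact hi k (Finset.mem_range.1 (Finset.mem_coe.1 hk)) k'
      (Finset.mem_range.1 (Finset.mem_coe.1 hk')) h
  have h2 : ((Finset.range K).image g).card ≤ (E.filter (fun a => a + 2 ∉ E) ∪ U).card := by
    refine Finset.card_le_card fun x hx => ?_
    obtain ⟨k, hk, rfl⟩ := Finset.mem_image.1 hx
    have hk' := Finset.mem_range.1 hk
    rw [Finset.mem_union, Finset.mem_filter]
    by_cases h : g k + 2 ∈ E
    · exact Or.inr (hc k hk' h)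
    · exact Or.inl ⟨hg k hk', h⟩
  have h3 := card_irregular hE hN hr
  have h4 := Finset.card_union_le (E.filter (fun a => a + 2 ∉ E)) U
  omega

/-- anchors of all slack values -/
theorem anchor {N W : ℕ} (hE : ∀ a ∈ E, a + 1 ∉ E) (hN : E.card = N)
    (hr : ∀ a ∈ E, a + 1 < 2 * N + W) {σ : ℕ → ℕ} (hσ : ∀ b < W, σ b ∈ E)
    (hp : ∀ b < W, σ b % 2 = (b + 1) % 2) (hlt : ∀ b, b + 1 < W → σ b < σ (b + 1)) :
    ∀ b < W, slack E (σ b) = b + 1 := by
  have h1 : ∀ b < W, b + 1 ≤ slack E (σ b) := by
    intro b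
    induction b with
    | zero =>
      intro h
      have := slack_parity hE (hσ 0 h)
      have := hp 0 h
      omega
    | succ b ih =>
      intro h
      have g1 := ih (by omega)
      have g2 := slack_mono E (hlt b h).le
      have g3 := slack_parity hE (hσ (b + 1) h)
      have g4 := hp (b + 1) h
      omega
  have h2 : ∀ d, ∀ b, b + d + 1 = W → slack E (σ b) ≤ b + 1 := by
    intro d
    induction d with
    | zero =>
      intro b hb
      have g1 := slack_top hE hN hr
      have g2 : σ b ≤ 2 * N + W := by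
        have := hr _ (hσ b (by omega))
        omega
      have g3 := slack_mono E g2
      omega
    | succ d ih =>
      intro b hb
      have g1 := ih (b + 1) (by omega)
      have g2 := slack_mono E (hlt b (by omega)).le
      have g3 := slack_parity hE (hσ b (by omega))
      have g4 := hp b (by omega)
      omega
  intro b hb
  exact le_antisymm (h2 (W - 1 - b) b (by omega)) (h1 b hb)

end Pool.Agent.V11230.DS
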