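import Pool.Agent.V11230.DS1
import Pool.Agent.NPC.Sat2

/-!
# Visiting the leaves of a star: the instance of a formula, soundness
-/

set_option autoImplicit false

namespace Pool.Agent.NPC.V11230.DS

open Pool.Agent.NPC Pool.Agent.V11230.DS

/-- a clause with three literals -/
abbrev Cl : Type := Lit ℕ × Lit ℕ × Lit ℕ

/-- a clause -/
def dcl : Cl := ((true, 0), (true, 0), (true, 0))

/-- the literal `l` occurs in the clause -/
def inC (c : Cl) (l : Lit ℕ) : Bool := decide (c.1 = l) || decide (c.2.1 = l) || decide (c.2.2 = l)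

theorem inC_iff {c : Cl} {l : Lit ℕ} : inC c l = true ↔ c.1 = l ∨ c.2.1 = l ∨ c.2.2 = l := by
  simp [inC, or_assoc]

/-- first visits to the leaves `0, ..., N - 1` by time `t` -/
structure Ent (N t : ℕ) (ρ : ℕ → ℕ → Bool) (e : ℕ → ℕ) : Prop where
  lt : ∀ l < N, e l < t
  av : ∀ l < N, ρ l (e l) = true
  inj : ∀ l < N, ∀ l' < N, e l = e l' → l = l'
  ne1 : ∀ l < N, ∀ l' < N, e l + 1 ≠ e l'
  ret : ∀ l < N, ∀ l' < N, e l + 2 = e l' → ρ l (e l + 1) = true

/-! ### The schedule -/

/-- the two consecutive times are `T` and `T + 1` -/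
def sepP (T t : ℕ) : Bool := if t ≤ T then decide (t % 2 = T % 2) else decide (t % 2 ≠ T % 2)

/-- even until `T`, then odd -/
def posP (T r : ℕ) : Bool := if r ≤ T then decide (r % 2 = 0) else decide (r % 2 = 1)

/-- odd until `T`, then even -/
def negP (T r : ℕ) : Bool :=
  decide (r = 0) || (if r ≤ T then decide (r % 2 = 1) else decide (r % 2 = 0))

/-- the time for the separator `k` of zone `b` -/
def sepT (K C P b k : ℕ) : ℕ :=
  P * (b / 2) + (if b % 2 = 0 then 2 * k + 1 else 2 * (K + 2 * C + k) + 2)

/-- clause leaves -/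
def clP (cl : Cl) (K C P c t : ℕ) : Bool :=
  if inC cl (true, t / P) = true then posP (2 * K + 2 + 2 * c) (t % P)
  else if inC cl (false, t / P) = true then negP (2 * K + 1 + 2 * (C + c)) (t % P)
  else decide (t % P % 2 = 0)

/-- the edge of the leaf `l` is available at time `t` -/
def pr (φ : List Cl) (K C P n l t : ℕ) : Bool :=
  if l < 2 * n * K then sepP (sepT K C P (l / K) (l % K)) t
  else if l < 2 * n * K + C then
    clP (φ.getD ((l - 2 * n * K) / K) dcl) K C P (l - 2 * n * K) t
  else true

theorem sepP_double {T t : ℕ} (h : sepP T t = true) (h' : sepP T (t + 1) = true) : t = T := by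
  unfold sepP at h h'
  split_ifs at h h' <;> simp only [decide_eq_true_eq] at h h' <;> omega

theorem posP_double {T r : ℕ} (hT : T % 2 = 0) (h : posP T r = true)
    (h' : posP T (r + 1) = true) : r = T := by
  unfold posP at h h'
  split_ifs at h h' <;> simp only [decide_eq_true_eq] at h h' <;> omega

theorem negP_iff {T r : ℕ} : negP T r = true ↔
    r = 0 ∨ (r ≤ T ∧ r % 2 = 1) ∨ (T < r ∧ r % 2 = 0) := by
  unfold negP
  rw [Bool.or_eq_true, decide_eq_true_iff]
  split_ifs with h <;> rw [decide_eq_true_iff] <;> omega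

theorem negP_double {T r : ℕ} (hT : T % 2 = 1) (h0 : r ≠ 0) (h : negP T r = true)
    (h' : negP T (r + 1) = true) : r = T := by
  rw [negP_iff] at h h'
  omega

theorem sepT_even (K C P x k : ℕ) : sepT K C P (2 * x) k = P * x + (2 * k + 1) := by
  unfold sepT
  rw [if_pos (by omega), show 2 * x / 2 = x by omega]

theorem sepT_odd (K C P x k : ℕ) :
    sepT K C P (2 * x + 1) k = P * x + (2 * (K + 2 * C + k) + 2) := by
  unfold sepT
  rw [if_neg (by omega), show (2 * x + 1) / 2 = x by omega]

theorem mul_even {P Q x : ℕ} (hP : P = 2 * Q + 2) : P * x % 2 = 0 := by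
  rw [hP, show (2 * Q + 2) * x = 2 * ((Q + 1) * x) by ring]
  omega

theorem even_or_odd (b : ℕ) : ∃ x, b = 2 * x ∨ b = 2 * x + 1 := ⟨b / 2, by omega⟩

theorem clP_eq {cl : Cl} {K C P c x r : ℕ} (hr : r < P) :
    clP cl K C P c (P * x + r) =
      if inC cl (true, x) = true then posP (2 * K + 2 + 2 * c) r
      else if inC cl (false, x) = true then negP (2 * K + 1 + 2 * (C + c)) r
      else decide (r % 2 = 0) := by
  have hP : 0 < P := by omega
  unfold clP
  rw [Nat.mul_add_div hP, Nat.div_eq_of_lt hr, Nat.add_zero, Nat.mul_add_mod, Nat.mod_eq_of_lt hr]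

section

variable {φ : List Cl} {K C P Q n N t : ℕ} {e : ℕ → ℕ}

/-- **Soundness.** -/
theorem sound (hK : K = 4 * n + 2) (hC : C = φ.length * K) (hQ : Q = 2 * K + 2 * C)
    (hP : P = 2 * Q + 2) (hN : N = n * Q) (hn : φ.length ≤ n) (ht : t + 1 = n * P)
    (h : Ent N t (pr φ K C P n) e) : SAT3 φ := by
  classical
  have hnP : n * P = 2 * N + 2 * n := by rw [hP, hN]; ring
  have hNn : N = 2 * n * K + 2 * (n * C) := by rw [hN, hQ]; ring
  have hCn : φ.length ≠ 0 → C ≤ n * C := fun _ => by
    have : 0 < n := by omega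
    exact Nat.le_mul_of_pos_left C this
  set E : Finset ℕ := (Finset.range N).image e with hEdef
  have hmem : ∀ a, a ∈ E ↔ ∃ l < N, e l = a := by
    intro a
    simp [hEdef]
  have hE : ∀ a ∈ E, a + 1 ∉ E := by
    intro a ha ha'
    obtain ⟨l, hl, rfl⟩ := (hmem a).1 ha
    obtain ⟨l', hl', he⟩ := (hmem _).1 ha'
    exact h.ne1 l hl l' hl' he.symm
  have hcard : E.card = N := by
    rw [hEdef, Finset.card_image_of_injOn, Finset.card_range]
    intro l hl l' hl' he
    exact h.inj l (Finset.mem_range.1 (Finset.mem_coe.1 hl)) l'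
      (Finset.mem_range.1 (Finset.mem_coe.1 hl')) he
  have hr : ∀ a ∈ E, a + 1 < 2 * N + 2 * n := by
    intro a ha
    obtain ⟨l, hl, rfl⟩ := (hmem a).1 ha
    have := h.lt l hl
    omega
  have hret : ∀ l < N, e l + 2 ∈ E → pr φ K C P n l (e l + 1) = true := by
    intro l hl he
    obtain ⟨l', hl', he'⟩ := (hmem _).1 he
    exact h.ret l hl l' hl' he'.symm
  -- separators
  have hbK : ∀ b k, b < 2 * n → k < K → b * K + k < 2 * n * K := by
    intro b k hb hk
    have : (b + 1) * K ≤ 2 * n * K := Nat.mul_le_mul_right K hb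
    have h2 : (b + 1) * K = b * K + K := by ring
    omega
  have hsep : ∀ b, ∃ k, b < 2 * n → k < K ∧ sepT K C P b k ∈ E := by
    intro b
    by_cases hb : b < 2 * n
    · obtain ⟨k, hk, h1, -⟩ := exists_regular (K := K) (u := 0) (U := ∅) hE hcard hr (by simp)
        (g := fun k => e (b * K + k))
        (fun k hk => (hmem _).2 ⟨b * K + k, by have := hbK b k hb hk; omega, rfl⟩)
        (fun k hk k' hk' he => by
          have h1 := hbK b k hb hk
          have h2 := hbK b k' hb hk'
          have := h.inj _ (by omega) _ (by omega) he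
          omega) (by omega)
      have hl := hbK b k hb hk
      have g1 := h.av (b * K + k) (by omega)
      have g2 := hret (b * K + k) (by omega) h1
      have hd : (b * K + k) / K = b := by
        rw [Nat.mul_comm, Nat.mul_add_div (by omega), Nat.div_eq_of_lt hk, Nat.add_zero]
      have hm : (b * K + k) % K = k := by
        rw [Nat.mul_comm, Nat.mul_add_mod, Nat.mod_eq_of_lt hk]
      unfold pr at g1 g2
      rw [if_pos hl, hd, hm] at g1 g2
      have g3 := sepP_double g1 g2
      refine ⟨k, fun _ => ⟨hk, ?_⟩⟩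
      rw [← g3]
      exact (hmem _).2 ⟨_, by omega, rfl⟩
    · exact ⟨0, fun h => absurd h hb⟩
  choose ks hks using hsep
  have hanch := anchor hE hcard hr (σ := fun b => sepT K C P b (ks b))
    (fun b hb => (hks b hb).2)
    (fun b hb => by
      obtain ⟨x, rfl | rfl⟩ := even_or_odd b
      · simp only [sepT_even]
        have := mul_even (x := x) hP
        omega
      · simp only [sepT_odd]
        have := mul_even (x := x) hP
        omega)
    (fun b hb => by
      have g := (hks b (by omega)).1
      obtain ⟨x, rfl | rfl⟩ := even_or_odd b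
      · simp only [sepT_even, sepT_odd]
        omega
      · have h2 : 2 * x + 1 + 1 = 2 * (x + 1) := by ring
        simp only [sepT_odd, h2, sepT_even]
        rw [Nat.mul_succ]
        omega)
  -- slack in a block
  have hblock : ∀ x < n, ∀ a ∈ E, P * x + 2 * K ≤ a → a < P * x + (2 * (K + 2 * C) + 2) →
      2 * x + 1 ≤ slack E a ∧ slack E a ≤ 2 * x + 2 := by
    intro x hx a _ h1 h2
    have g1 := hanch (2 * x) (by omega)
    have g2 := hanch (2 * x + 1) (by omega)
    have g3 := (hks (2 * x) (by omega)).1
    simp only [sepT_even] at g1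
    simp only [sepT_odd] at g2
    rw [← g1]
    refine ⟨slack_mono E (by omega), ?_⟩
    refine (slack_mono E ?_).trans g2.le
    omega
  refine ⟨fun x => decide (∃ a ∈ E, a % 2 = 0 ∧ P * x + 2 * K ≤ a ∧ a < P * x + (2 * K + 2 + 2 * C)),
    fun cl hcl => ?_⟩
  obtain ⟨j, hj, rfl⟩ := List.getElem_of_mem hcl
  -- exceptional times
  have hjK : ∀ k < K, j * K + k < C := by
    intro k hk
    have : (j + 1) * K ≤ φ.length * K := Nat.mul_le_mul_right K hj
    have h2 : (j + 1) * K = j * K + K := by ring
    omega
  have hCn' := hCn (by omega)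
  set U : Finset ℕ := (Finset.range n).image (fun x => P * x) ∪
    (Finset.range n).image (fun x => P * x + (P - 1)) with hU
  have hUc : U.card ≤ 2 * n := by
    refine (Finset.card_union_le _ _).trans ?_
    have g1 := Finset.card_image_le (s := Finset.range n) (f := fun x => P * x)
    have g2 := Finset.card_image_le (s := Finset.range n) (f := fun x => P * x + (P - 1))
    rw [Finset.card_range] at g1 g2
    omega
  obtain ⟨k, hk, h1, h2⟩ := exists_regular (K := K) hE hcard hr hUc
    (g := fun k => e (2 * n * K + (j * K + k)))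
    (fun k hk => (hmem _).2 ⟨_, by have := hjK k hk; omega, rfl⟩)
    (fun k hk k' hk' he => by
      have h1 := hjK k hk
      have h2 := hjK k' hk'
      have := h.inj _ (by omega) _ (by omega) he
      omega) (by omega)
  have hc := hjK k hk
  set c := j * K + k with hcdef
  have hd : c / K = j := by
    rw [hcdef, Nat.mul_comm, Nat.mul_add_div (by omega), Nat.div_eq_of_lt hk, Nat.add_zero]
  have g1 := h.av (2 * n * K + c) (by omega)
  have g2 := hret (2 * n * K + c) (by omega) h1
  have g3 := h.lt (2 * n * K + c) (by omega)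
  have haE : e (2 * n * K + c) ∈ E := (hmem _).2 ⟨_, by omega, rfl⟩
  set a := e (2 * n * K + c) with hadef
  have hP0 : 0 < P := by omega
  obtain ⟨x, r, hr', ha⟩ : ∃ x r, r < P ∧ a = P * x + r :=
    ⟨a / P, a % P, Nat.mod_lt _ hP0, (Nat.div_add_mod a P).symm⟩
  have hx : x < n := by
    by_contra hc'
    have : P * n ≤ P * x := Nat.mul_le_mul_left P (by omega)
    rw [Nat.mul_comm] at this
    omega
  have hr0 : r ≠ 0 := by
    rintro rfl
    refine h2 (Finset.mem_union_left _ (Finset.mem_image.2 ⟨x, Finset.mem_range.2 hx, ?_⟩))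
    exact ha.symm
  have hrP : r + 1 < P := by
    by_contra hc'
    refine h2 (Finset.mem_union_right _ (Finset.mem_image.2 ⟨x, Finset.mem_range.2 hx, ?_⟩))
    change P * x + (P - 1) = a
    omega
  have hgd : φ.getD j dcl = φ[j] := by
    rw [List.getD_eq_getElem?_getD, List.getElem?_eq_getElem hj, Option.getD_some]
  unfold pr at g1 g2
  rw [if_neg (by omega), if_pos (by omega), Nat.add_sub_cancel_left, hd, hgd] at g1 g2
  rw [ha, clP_eq hr'] at g1
  rw [ha, Nat.add_assoc, clP_eq hrP] at g2
  have hpar := slack_parity hE haE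
  have hPx := mul_even (x := x) hP
  by_cases hp : inC φ[j] (true, x) = true
  · rw [if_pos hp] at g1 g2
    have hr3 := posP_double (by omega) g1 g2
    have ht : decide (∃ a ∈ E, a % 2 = 0 ∧ P * x + 2 * K ≤ a ∧
        a < P * x + (2 * K + 2 + 2 * C)) = true :=
      decide_eq_true ⟨a, haE, by omega, by omega, by omega⟩
    rcases inC_iff.1 hp with h' | h' | h'
    · left; rw [h']; exact ht
    · right; left; rw [h']; exact ht
    · right; right; rw [h']; exact ht
  · rw [if_neg hp] at g1 g2
    by_cases hq : inC φ[j] (false, x) = true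
    · rw [if_pos hq] at g1 g2
      have hr3 := negP_double (by omega) hr0 g1 g2
      have ht : decide (∃ a ∈ E, a % 2 = 0 ∧ P * x + 2 * K ≤ a ∧
          a < P * x + (2 * K + 2 + 2 * C)) = false := by
        rw [decide_eq_false_iff_not]
        rintro ⟨a', ha', h3, h4, h5⟩
        have b1 := hblock x hx a haE (by omega) (by omega)
        have b2 := hblock x hx a' ha' (by omega) (by omega)
        have b3 := slack_parity hE ha'
        have b4 := slack_mono E (show a' ≤ a by omega)
        omega
      rcases inC_iff.1 hq with h' | h' | h'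
      · left; rw [h']; exact ht
      · right; left; rw [h']; exact ht
      · right; right; rw [h']; exact ht
    · rw [if_neg hq, decide_eq_true_iff] at g1 g2
      omega

end

end Pool.Agent.NPC.V11230.DS
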