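import Pool.Agent.V11230.DS2

/-!
# Visiting the leaves of a star: completeness
-/

set_option autoImplicit false

namespace Pool.Agent.NPC.V11230.DS

open Pool.Agent.NPC Pool.Agent.V11230.DS

/-- first visits that are followed immediately by the way back -/
structure Ent2 (N t : ℕ) (ρ : ℕ → ℕ → Bool) (e : ℕ → ℕ) : Prop where
  lt : ∀ l < N, e l < t
  av : ∀ l < N, ρ l (e l) = true
  av' : ∀ l < N, ρ l (e l + 1) = true
  inj : ∀ l < N, ∀ l' < N, e l = e l' → l = l'
  ne1 : ∀ l < N, ∀ l' < N, e l + 1 ≠ e l'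

/-- the time of the slot `q` -/
def slotT (K C P Q : ℕ) (τ : ℕ → Bool) (q : ℕ) : ℕ :=
  P * (q / Q) + (2 * (q % Q) + 1 +
    if K + 2 * C ≤ q % Q ∨ (K ≤ q % Q ∧ τ (q / Q) = true) then 1 else 0)

theorem slotT_eq {K C P Q : ℕ} {τ : ℕ → Bool} {x i : ℕ} (hi : i < Q) :
    slotT K C P Q τ (Q * x + i) =
      P * x + (2 * i + 1 + if K + 2 * C ≤ i ∨ (K ≤ i ∧ τ x = true) then 1 else 0) := by
  unfold slotT
  rw [Nat.mul_add_div (by omega), Nat.div_eq_of_lt hi, Nat.add_zero, Nat.mul_add_mod,
    Nat.mod_eq_of_lt hi]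

theorem split_slot {Q : ℕ} (hQ : 0 < Q) (q : ℕ) : ∃ x i, i < Q ∧ q = Q * x + i :=
  ⟨q / Q, q % Q, Nat.mod_lt _ hQ, (Nat.div_add_mod q Q).symm⟩

theorem slotT_step {K C P Q : ℕ} {τ : ℕ → Bool} (hP : P = 2 * Q + 2) (hQ : 0 < Q) {q q' : ℕ}
    (h : q < q') : slotT K C P Q τ q + 2 ≤ slotT K C P Q τ q' := by
  obtain ⟨x, i, hi, rfl⟩ := split_slot hQ q
  obtain ⟨x', i', hi', rfl⟩ := split_slot hQ q'
  rw [slotT_eq hi, slotT_eq hi']
  have hxx : x ≤ x' := by
    by_contra hc
    have : Q * (x' + 1) ≤ Q * x := Nat.mul_le_mul_left Q (by omega)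
    rw [Nat.mul_succ] at this
    omega
  rcases Nat.eq_or_lt_of_le hxx with rfl | hlt
  · have hii : i < i' := by omega
    by_cases c1 : K + 2 * C ≤ i ∨ (K ≤ i ∧ τ x = true)
    · have c2 : K + 2 * C ≤ i' ∨ (K ≤ i' ∧ τ x = true) := by
        rcases c1 with c | c
        · exact Or.inl (by omega)
        · exact Or.inr ⟨by omega, c.2⟩
      rw [if_pos c1, if_pos c2]
      omega
    · rw [if_neg c1]
      omega
  · have : P * (x + 1) ≤ P * x' := Nat.mul_le_mul_left P hlt
    rw [Nat.mul_succ] at this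
    split_ifs <;> omega

theorem slotT_lt {K C P Q n : ℕ} {τ : ℕ → Bool} (hP : P = 2 * Q + 2) (hQ : 0 < Q) {q : ℕ}
    (h : q < n * Q) : slotT K C P Q τ q + 1 < n * P := by
  obtain ⟨x, i, hi, rfl⟩ := split_slot hQ q
  rw [slotT_eq hi]
  have hx : x < n := by
    by_contra hc
    have : Q * n ≤ Q * x := Nat.mul_le_mul_left Q (by omega)
    rw [Nat.mul_comm] at this
    omega
  have : P * (x + 1) ≤ P * n := Nat.mul_le_mul_left P hx
  rw [Nat.mul_succ, Nat.mul_comm P n] at this
  split_ifs <;> omega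

section

variable {φ : List Cl} {K C P Q n N t : ℕ}

/-- the block of a leaf -/
def gx (K n : ℕ) (ch : ℕ → Lit ℕ) (l : ℕ) : ℕ :=
  if l < 2 * n * K then l / K / 2 else (ch ((l - 2 * n * K) / K)).2

/-- the slot of a leaf in its block -/
def gi (K C n : ℕ) (τ : ℕ → Bool) (ch : ℕ → Lit ℕ) (l : ℕ) : ℕ :=
  if l < 2 * n * K then (if l / K % 2 = 0 then l % K else K + 2 * C + l % K)
  else K + (if τ (gx K n ch l) = true then l - 2 * n * K else C + (l - 2 * n * K))

theorem gx_lt {ch : ℕ → Lit ℕ} (hK : 0 < K) (hC : C = φ.length * K)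
    (hch : ∀ j < φ.length, (ch j).2 < n) {l : ℕ} (hl : l < 2 * n * K + C) :
    gx K n ch l < n := by
  unfold gx
  split_ifs with h
  · have : l / K < 2 * n := by
      rw [Nat.div_lt_iff_lt_mul hK]
      exact h
    omega
  · refine hch _ ?_
    rw [Nat.div_lt_iff_lt_mul hK, ← hC]
    omega

theorem gi_lt {τ : ℕ → Bool} {ch : ℕ → Lit ℕ} (hK : 0 < K) (hQ : Q = 2 * K + 2 * C) {l : ℕ}
    (hl : l < 2 * n * K + C) : gi K C n τ ch l < Q := by
  have := Nat.mod_lt l hK
  unfold gi
  split_ifs <;> omega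

theorem g_inj {τ : ℕ → Bool} {ch : ℕ → Lit ℕ} (hK : 0 < K) {l l' : ℕ}
    (hl : l < 2 * n * K + C) (hl' : l' < 2 * n * K + C) (hx : gx K n ch l = gx K n ch l')
    (hi : gi K C n τ ch l = gi K C n τ ch l') : l = l' := by
  unfold gi at hi
  rw [hx] at hi
  have m1 := Nat.mod_lt l hK
  have m2 := Nat.mod_lt l' hK
  by_cases h1 : l < 2 * n * K
  · rw [if_pos h1] at hi
    by_cases h2 : l' < 2 * n * K
    · rw [if_pos h2] at hi
      unfold gx at hx
      rw [if_pos h1, if_pos h2] at hx
      have e1 := Nat.div_add_mod l K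
      have e2 := Nat.div_add_mod l' K
      have e3 : l / K = l' / K ∧ l % K = l' % K := by
        split_ifs at hi <;> omega
      rw [e3.1, e3.2, e2] at e1
      exact e1.symm
    · rw [if_neg h2] at hi
      split_ifs at hi <;> omega
  · rw [if_neg h1] at hi
    by_cases h2 : l' < 2 * n * K
    · rw [if_pos h2] at hi
      split_ifs at hi <;> omega
    · rw [if_neg h2] at hi
      split_ifs at hi <;> omega

theorem pr_slot {τ : ℕ → Bool} {ch : ℕ → Lit ℕ} (hK : 0 < K) (hC : C = φ.length * K)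
    (hQ : Q = 2 * K + 2 * C) (hP : P = 2 * Q + 2)
    (hch : ∀ j < φ.length, (ch j).2 < n) (hD : Distinct3 φ)
    (hin : ∀ j < φ.length, inC (φ.getD j dcl) (ch j) = true ∧ τ (ch j).2 = (ch j).1)
    {l : ℕ} (hl : l < 2 * n * K + C) :
    pr φ K C P n l (slotT K C P Q τ (Q * gx K n ch l + gi K C n τ ch l)) = true ∧
    pr φ K C P n l (slotT K C P Q τ (Q * gx K n ch l + gi K C n τ ch l) + 1) = true := by
  rw [slotT_eq (gi_lt hK hQ hl)]
  have m1 := Nat.mod_lt l hK
  by_cases h1 : l < 2 * n * K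
  · have key : P * gx K n ch l + (2 * gi K C n τ ch l + 1 +
        if K + 2 * C ≤ gi K C n τ ch l ∨ (K ≤ gi K C n τ ch l ∧ τ (gx K n ch l) = true)
          then 1 else 0) = sepT K C P (l / K) (l % K) := by
      unfold gi sepT
      rw [if_pos h1]
      have hgx : gx K n ch l = l / K / 2 := by
        unfold gx
        rw [if_pos h1]
      rw [hgx]
      by_cases hb : l / K % 2 = 0
      · rw [if_pos hb, if_pos hb, if_neg (by omega)]
      · rw [if_neg hb, if_neg hb, if_pos (by omega)]
    rw [key]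
    unfold pr
    rw [if_pos h1, if_pos h1]
    unfold sepP
    constructor
    · rw [if_pos le_rfl]
      simp
    · rw [if_neg (by omega)]
      rw [decide_eq_true_iff]
      omega
  · obtain ⟨c, hc⟩ : ∃ c, c = l - 2 * n * K := ⟨_, rfl⟩
    have hj : c / K < φ.length := by
      rw [Nat.div_lt_iff_lt_mul hK, ← hC]
      omega
    have hgx : gx K n ch l = (ch (c / K)).2 := by
      unfold gx
      rw [if_neg h1, hc]
    have hgi : gi K C n τ ch l = K + (if τ (ch (c / K)).2 = true then c else C + c) := by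
      unfold gi
      rw [if_neg h1, hgx, hc]
    have hcC : c < C := by omega
    obtain ⟨hin1, hin2⟩ := hin (c / K) hj
    rw [hgx, hgi]
    unfold pr
    rw [if_neg h1, if_pos hl, if_neg h1, if_pos hl, ← hc]
    cases hs : (ch (c / K)).1 with
    | true =>
      rw [hs] at hin2
      rw [if_pos hin2, if_pos (Or.inr ⟨by omega, hin2⟩)]
      have e1 : ch (c / K) = (true, (ch (c / K)).2) := by rw [← hs]
      rw [e1] at hin1
      rw [Nat.add_assoc (P * (ch (c / K)).2), clP_eq (by omega), clP_eq (by omega), if_pos hin1,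
        if_pos hin1]
      unfold posP
      rw [if_pos (by omega), if_neg (by omega), decide_eq_true_iff, decide_eq_true_iff]
      omega
    | false =>
      rw [hs] at hin2
      have hin3 : ¬ (τ (ch (c / K)).2 = true) := by rw [hin2]; simp
      rw [if_neg hin3, if_neg (by
        rintro (h | h)
        · omega
        · exact hin3 h.2)]
      have e1 : ch (c / K) = (false, (ch (c / K)).2) := by rw [← hs]
      have hno : ¬ (inC (φ.getD (c / K) dcl) (true, (ch (c / K)).2) = true) := by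
        intro hyes
        have hmem : φ.getD (c / K) dcl ∈ φ := by
          rw [List.getD_eq_getElem?_getD, List.getElem?_eq_getElem hj, Option.getD_some]
          exact List.getElem_mem hj
        have hd := hD _ hmem
        rw [e1] at hin1
        rcases inC_iff.1 hyes with a | a | a <;> rcases inC_iff.1 hin1 with b | b | b
        all_goals first
          | (rw [a] at b
             exact absurd (congrArg Prod.fst b) (by simp))
          | exact hd.1 ((congrArg Prod.snd a).trans (congrArg Prod.snd b).symm)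
          | exact hd.2.1 ((congrArg Prod.snd a).trans (congrArg Prod.snd b).symm)
          | exact hd.2.2 ((congrArg Prod.snd a).trans (congrArg Prod.snd b).symm)
          | exact hd.1 ((congrArg Prod.snd b).trans (congrArg Prod.snd a).symm)
          | exact hd.2.1 ((congrArg Prod.snd b).trans (congrArg Prod.snd a).symm)
          | exact hd.2.2 ((congrArg Prod.snd b).trans (congrArg Prod.snd a).symm)
      rw [e1] at hin1
      rw [Nat.add_assoc (P * (ch (c / K)).2), clP_eq (by omega), clP_eq (by omega), if_neg hno,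
        if_neg hno, if_pos hin1, if_pos hin1, negP_iff, negP_iff]
      omega

/-- **Completeness.** -/
theorem complete (hK : K = 4 * n + 2) (hC : C = φ.length * K) (hQ : Q = 2 * K + 2 * C)
    (hP : P = 2 * Q + 2) (hN : N = n * Q) (hn : φ.length ≤ n) (ht : t + 1 = n * P)
    (hD : Distinct3 φ) (hB : ∀ cl ∈ φ, cl.1.2 < n ∧ cl.2.1.2 < n ∧ cl.2.2.2 < n)
    (hs : SAT3 φ) : ∃ e, Ent2 N t (pr φ K C P n) e := by
  classical
  obtain ⟨τ, hτ⟩ := hs
  have hK0 : 0 < K := by omega
  have hQ0 : 0 < Q := by omega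
  have hNn : N = 2 * n * K + 2 * (n * C) := by rw [hN, hQ]; ring
  have hCn : C ≤ n * C := by
    by_cases h0 : n = 0
    · have : φ.length = 0 := by omega
      rw [this] at hC
      omega
    · exact Nat.le_mul_of_pos_left C (Nat.pos_of_ne_zero h0)
  have hex : ∀ j, ∃ l : Lit ℕ, j < φ.length → l.2 < n ∧
      inC (φ.getD j dcl) l = true ∧ τ l.2 = l.1 := by
    intro j
    by_cases hj : j < φ.length
    · have hgd : φ.getD j dcl = φ[j] := by
        rw [List.getD_eq_getElem?_getD, List.getElem?_eq_getElem hj, Option.getD_some]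
      have hb := hB _ (List.getElem_mem hj)
      rw [hgd]
      rcases hτ _ (List.getElem_mem hj) with h | h | h
      · exact ⟨_, fun _ => ⟨hb.1, inC_iff.2 (Or.inl rfl), h⟩⟩
      · exact ⟨_, fun _ => ⟨hb.2.1, inC_iff.2 (Or.inr (Or.inl rfl)), h⟩⟩
      · exact ⟨_, fun _ => ⟨hb.2.2, inC_iff.2 (Or.inr (Or.inr rfl)), h⟩⟩
    · exact ⟨(true, 0), fun h => absurd h hj⟩
  choose ch hch using hex
  have hgxlt : ∀ l, l < 2 * n * K + C → gx K n ch l < n := fun l hl =>
    gx_lt (φ := φ) hK0 hC (fun j hj => (hch j hj).1) hl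
  obtain ⟨G, hG⟩ := Finset.exists_equiv_extend_of_card_eq (α := Fin N) (β := ℕ)
    (t := Finset.range N) (by simp)
    (s := Finset.univ.filter (fun l : Fin N => (l : ℕ) < 2 * n * K + C))
    (f := fun l => Q * gx K n ch l + gi K C n τ ch l)
    (by
      intro y hy
      obtain ⟨l, hl, rfl⟩ := Finset.mem_image.1 hy
      have hl' := (Finset.mem_filter.1 hl).2
      have h1 := hgxlt l hl'
      have h2 := gi_lt (τ := τ) (ch := ch) hK0 hQ hl'
      rw [Finset.mem_range]
      have h3 : Q * (gx K n ch l + 1) ≤ Q * n := Nat.mul_le_mul_left Q h1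
      rw [Nat.mul_succ, Nat.mul_comm Q n, ← hN] at h3
      omega)
    (by
      intro l hl l' hl' he
      have h1 := (Finset.mem_filter.1 (Finset.mem_coe.1 hl)).2
      have h2 := (Finset.mem_filter.1 (Finset.mem_coe.1 hl')).2
      have h3 := gi_lt (τ := τ) (ch := ch) hK0 hQ h1
      have h4 := gi_lt (τ := τ) (ch := ch) hK0 hQ h2
      have he' : Q * gx K n ch l + gi K C n τ ch l = Q * gx K n ch l' + gi K C n τ ch l' := he
      have e1 : gx K n ch l = gx K n ch l' := by
        have := congrArg (· / Q) he'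
        simp only [Nat.mul_add_div hQ0, Nat.div_eq_of_lt h3, Nat.div_eq_of_lt h4,
          Nat.add_zero] at this
        exact this
      have e2 : gi K C n τ ch l = gi K C n τ ch l' := by
        rw [e1] at he'
        omega
      exact Fin.ext (g_inj hK0 h1 h2 e1 e2))
  have hGlt : ∀ l : Fin N, (G l : ℕ) < N := fun l => Finset.mem_range.1 (G l).2
  refine ⟨fun l => if h : l < N then slotT K C P Q τ (G ⟨l, h⟩ : ℕ) else 0, ?_, ?_, ?_, ?_, ?_⟩
  · intro l hl
    simp only [dif_pos hl]
    have := slotT_lt (K := K) (C := C) (τ := τ) (n := n) hP hQ0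
      (q := (G ⟨l, hl⟩ : ℕ)) (by rw [← hN]; exact hGlt _)
    omega
  · intro l hl
    simp only [dif_pos hl]
    by_cases h : l < 2 * n * K + C
    · rw [hG ⟨l, hl⟩ (Finset.mem_filter.2 ⟨Finset.mem_univ _, h⟩)]
      exact (pr_slot hK0 hC hQ hP (fun j hj => (hch j hj).1) hD (fun j hj => (hch j hj).2) h).1
    · unfold pr
      rw [if_neg (by omega), if_neg h]
  · intro l hl
    simp only [dif_pos hl]
    by_cases h : l < 2 * n * K + C
    · rw [hG ⟨l, hl⟩ (Finset.mem_filter.2 ⟨Finset.mem_univ _, h⟩)]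
      exact (pr_slot hK0 hC hQ hP (fun j hj => (hch j hj).1) hD (fun j hj => (hch j hj).2) h).2
    · unfold pr
      rw [if_neg (by omega), if_neg h]
  · intro l hl l' hl' he
    simp only [dif_pos hl, dif_pos hl'] at he
    rcases lt_trichotomy (G ⟨l, hl⟩ : ℕ) (G ⟨l', hl'⟩ : ℕ) with h | h | h
    · have := slotT_step (K := K) (C := C) (τ := τ) hP hQ0 h
      omega
    · have := G.injective (Subtype.ext h)
      exact congrArg Fin.val this
    · have := slotT_step (K := K) (C := C) (τ := τ) hP hQ0 h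
      omega
  · intro l hl l' hl' he
    simp only [dif_pos hl, dif_pos hl'] at he
    rcases lt_trichotomy (G ⟨l, hl⟩ : ℕ) (G ⟨l', hl'⟩ : ℕ) with h | h | h
    · have := slotT_step (K := K) (C := C) (τ := τ) hP hQ0 h
      omega
    · rw [h] at he
      omega
    · have := slotT_step (K := K) (C := C) (τ := τ) hP hQ0 h
      omega

end

end Pool.Agent.NPC.V11230.DS
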