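import Mathlib

/-!
# Dual separators in edge-bicoloured graphs: the reduction from Clique

The red graph consists of `k` rows, each a chain of `n` bundles of `k` parallel paths between
junctions that cannot be deleted; hence in each row a whole bundle has to be cut.  The blue graph
consists of `k` columns of the same kind on the same vertices.
-/

set_option autoImplicit false

namespace Pool.Agent.V11230.DS

/-! ### Edge-bicoloured graphs -/

/-- The entry in row `i` and column `j` of a matrix given as a list of rows. -/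
def cell (M : List (List ℕ)) (i j : ℕ) : ℕ := (M.getD i []).getD j 0

/-- The graph of the edges with colour `c` in the matrix of colours `M`: distinct vertices `a`, `b`
are adjacent iff both entries `(a, b)` and `(b, a)` are `c`. -/
def colGraph (M : List (List ℕ)) (c : ℕ) : SimpleGraph (Fin M.length) where
  Adj a b := a ≠ b ∧ cell M a b = c ∧ cell M b a = c
  symm := ⟨fun _ _ h => ⟨h.1.symm, h.2.2, h.2.1⟩⟩
  loopless := ⟨fun _ h => h.1 rfl⟩

/-- `S` separates `s` from `t`: it contains neither of them and meets each walk between them. -/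
def Separates {V : Type} (G : SimpleGraph V) (S : Finset V) (s t : V) : Prop :=
  s ∉ S ∧ t ∉ S ∧ ∀ p : G.Walk s t, ∃ v ∈ p.support, v ∈ S

/-- The edge-bicoloured graph with the matrix of colours `M` (red is `1`, blue is `2`) has a dual
`(s, t)`-separator with at most `k` vertices. -/
def HasDualSep (M : List (List ℕ)) (s t : Fin M.length) (k : ℕ) : Prop :=
  ∃ S : Finset (Fin M.length), S.card ≤ k ∧ Separates (colGraph M 1) S s t ∧
    Separates (colGraph M 2) S s t

/-! ### Labels -/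

/-- Labels `(h, i, j, u, v, c)` of vertices. -/
abbrev Lab : Type := ℕ × ℕ × ℕ × ℕ × ℕ × ℕ

/-- exchange rows and columns -/
def sw (x : Lab) : Lab :=
  (if x.1 = 2 then 3 else if x.1 = 3 then 2 else x.1, x.2.2.1, x.2.1, x.2.2.2.2.1, x.2.2.2.1,
    x.2.2.2.2.2)

theorem sw_sw (x : Lab) : sw (sw x) = x := by
  obtain ⟨h, i, j, u, v, c⟩ := x
  unfold sw
  dsimp only
  split_ifs <;> simp_all

theorem sw_injective : Function.Injective sw := fun x y h => by rw [← sw_sw x, h, sw_sw]

/-- may `(u, v)` be chosen for the pair `(i, j)` -/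
def okp (E : ℕ → ℕ → Bool) (i j u v : ℕ) : Bool := if i = j then decide (u = v) else E u v

theorem okp_comm {E : ℕ → ℕ → Bool} (hE : ∀ u v, E u v = E v u) (i j u v : ℕ) :
    okp E i j u v = okp E j i v u := by
  unfold okp
  by_cases h : i = j
  · subst h
    simp [eq_comm]
  · rw [if_neg h, if_neg (Ne.symm h), hE]

/-- the vertices other than the terminals -/
def valid (n k : ℕ) (E : ℕ → ℕ → Bool) (x : Lab) : Bool :=
  (decide (x.1 = 2) && decide (x.2.1 < k) && decide (x.2.2.1 = 0) && decide (x.2.2.2.1 ≤ n) &&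
    decide (x.2.2.2.2.1 = 0) && decide (x.2.2.2.2.2 ≤ k * k)) ||
  (decide (x.1 = 3) && decide (x.2.1 = 0) && decide (x.2.2.1 < k) && decide (x.2.2.2.1 = 0) &&
    decide (x.2.2.2.2.1 ≤ n) && decide (x.2.2.2.2.2 ≤ k * k)) ||
  (decide (x.1 = 4) && decide (x.2.1 < k) && decide (x.2.2.1 < k) && decide (x.2.2.2.1 < n) &&
    decide (x.2.2.2.2.1 < n) && (if okp E x.2.1 x.2.2.1 x.2.2.2.1 x.2.2.2.2.1 = true then
      decide (x.2.2.2.2.2 = 0) else decide (x.2.2.2.2.2 ≤ k * k)))

theorem valid_iff {n k : ℕ} {E : ℕ → ℕ → Bool} {h i j u v c : ℕ} :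
    valid n k E (h, i, j, u, v, c) = true ↔
      (h = 2 ∧ i < k ∧ j = 0 ∧ u ≤ n ∧ v = 0 ∧ c ≤ k * k) ∨
      (h = 3 ∧ i = 0 ∧ j < k ∧ u = 0 ∧ v ≤ n ∧ c ≤ k * k) ∨
      (h = 4 ∧ i < k ∧ j < k ∧ u < n ∧ v < n ∧ (okp E i j u v = true → c = 0) ∧
        (okp E i j u v = false → c ≤ k * k)) := by
  unfold valid
  cases hok : okp E i j u v
  · simp [and_assoc, or_assoc]
  · simp [and_assoc, or_assoc]

theorem valid_sw {n k : ℕ} {E : ℕ → ℕ → Bool} (hE : ∀ u v, E u v = E v u) {x : Lab}
    (hx : valid n k E x = true) : valid n k E (sw x) = true := by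
  obtain ⟨h, i, j, u, v, c⟩ := x
  rw [valid_iff] at hx
  unfold sw
  dsimp only
  rw [valid_iff, okp_comm hE j i v u]
  rcases hx with ⟨rfl, h1, h2, h3, h4, h5⟩ | ⟨rfl, h1, h2, h3, h4, h5⟩ | ⟨rfl, h1, h2, h3, h4, h5⟩
  · right; left
    exact ⟨rfl, h2, h1, h4, h3, h5⟩
  · left
    exact ⟨rfl, h2, h1, h4, h3, h5⟩
  · right; right
    exact ⟨rfl, h2, h1, h4, h3, h5⟩

/-- the red edges in the direction from `s` to `t` -/
def rr (n : ℕ) (x y : Lab) : Bool :=
  (decide (x.1 = 0) && decide (y.1 = 2) && decide (y.2.2.2.1 = 0)) ||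
  (decide (x.1 = 2) && decide (y.1 = 4) && decide (x.2.1 = y.2.1) &&
    decide (x.2.2.2.1 = y.2.2.2.1) && decide (y.2.2.2.2.1 = 0)) ||
  (decide (x.1 = 4) && decide (y.1 = 4) && decide (x.2.1 = y.2.1) && decide (x.2.2.1 = y.2.2.1) &&
    decide (x.2.2.2.1 = y.2.2.2.1) && decide (x.2.2.2.2.1 + 1 = y.2.2.2.2.1)) ||
  (decide (x.1 = 4) && decide (y.1 = 2) && decide (x.2.1 = y.2.1) &&
    decide (x.2.2.2.1 + 1 = y.2.2.2.1) && decide (x.2.2.2.2.1 + 1 = n)) ||
  (decide (x.1 = 2) && decide (y.1 = 1) && decide (x.2.2.2.1 = n))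

theorem rr_iff {n : ℕ} {h i j u v c h' i' j' u' v' c' : ℕ} :
    rr n (h, i, j, u, v, c) (h', i', j', u', v', c') = true ↔
      (h = 0 ∧ h' = 2 ∧ u' = 0) ∨ (h = 2 ∧ h' = 4 ∧ i = i' ∧ u = u' ∧ v' = 0) ∨
      (h = 4 ∧ h' = 4 ∧ i = i' ∧ j = j' ∧ u = u' ∧ v + 1 = v') ∨
      (h = 4 ∧ h' = 2 ∧ i = i' ∧ u + 1 = u' ∧ v + 1 = n) ∨ (h = 2 ∧ h' = 1 ∧ u = n) := by
  unfold rr
  simp [and_assoc, or_assoc]

/-- red edges -/
def red (n : ℕ) (x y : Lab) : Bool := rr n x y || rr n y x

/-- blue edges -/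
def blue (n : ℕ) (x y : Lab) : Bool := red n (sw x) (sw y)

theorem red_comm (n : ℕ) (x y : Lab) : red n x y = red n y x := by
  unfold red
  rw [Bool.or_comm]

theorem not_red_of_blue {n : ℕ} {x y : Lab} (h : blue n x y = true) : red n x y = false := by
  rw [← Bool.not_eq_true]
  intro h'
  obtain ⟨h1, i, j, u, v, c⟩ := x
  obtain ⟨h2, i', j', u', v', c'⟩ := y
  unfold blue sw at h
  unfold red at h h'
  rw [Bool.or_eq_true] at h h'
  dsimp only at h
  rw [rr_iff, rr_iff] at h h'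
  split_ifs at h <;> omega

theorem red_irrefl (n : ℕ) (x : Lab) : red n x x = false := by
  rw [← Bool.not_eq_true]
  intro h'
  obtain ⟨h1, i, j, u, v, c⟩ := x
  unfold red at h'
  rw [Bool.or_eq_true] at h'
  rw [rr_iff] at h'
  omega

/-- the colour of a pair -/
def col (n : ℕ) (x y : Lab) : ℕ := if red n x y = true then 1 else if blue n x y = true then 2 else 0

theorem col_one {n : ℕ} {x y : Lab} : col n x y = 1 ↔ red n x y = true := by
  unfold col
  split_ifs with h1 h2 <;> simp [h1]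

theorem col_two {n : ℕ} {x y : Lab} : col n x y = 2 ↔ blue n x y = true := by
  unfold col
  split_ifs with h1 h2
  · simp only [OfNat.one_ne_ofNat, false_iff]
    intro h
    rw [not_red_of_blue h] at h1
    exact absurd h1 (by simp)
  · simp [h2]
  · simp [h2]

/-- the first terminal -/
def sL : Lab := (0, 0, 0, 0, 0, 0)
/-- the second terminal -/
def tL : Lab := (1, 0, 0, 0, 0, 0)

/-- is a label a vertex -/
def IsV (n k : ℕ) (E : ℕ → ℕ → Bool) (x : Lab) : Prop := x = sL ∨ x = tL ∨ valid n k E x = true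

theorem IsV.sw {n k : ℕ} {E : ℕ → ℕ → Bool} (hE : ∀ u v, E u v = E v u) {x : Lab}
    (hx : IsV n k E x) : IsV n k E (sw x) := by
  rcases hx with rfl | rfl | hx
  · exact Or.inl rfl
  · exact Or.inr (Or.inl rfl)
  · exact Or.inr (Or.inr (valid_sw hE hx))

/-! ### From a separator to a clique -/

/-- one step to a vertex that is not deleted -/
def Stp (n k : ℕ) (E : ℕ → ℕ → Bool) (R : Lab → Lab → Bool) (T : Finset Lab) (x y : Lab) : Prop :=
  R x y = true ∧ IsV n k E y ∧ y ∉ T

theorem exists_copy {T : Finset Lab} {K : ℕ} (hT : T.card ≤ K) (h i j u v : ℕ) :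
    ∃ c ≤ K, (h, i, j, u, v, c) ∉ T := by
  by_contra hne
  push Not at hne
  have h1 : (Finset.range (K + 1)).image (fun c => ((h, i, j, u, v, c) : Lab)) ⊆ T := by
    intro x hx
    rw [Finset.mem_image] at hx
    obtain ⟨c, hc, rfl⟩ := hx
    rw [Finset.mem_range] at hc
    exact hne c (by omega)
  have h2 := Finset.card_le_card h1
  rw [Finset.card_image_of_injective _ (by
    intro a b hab
    simpa using hab), Finset.card_range] at h2
  omega

/-- In each row a whole bundle is cut. -/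
theorem row_cut {n k : ℕ} {E : ℕ → ℕ → Bool} {T : Finset Lab} (hT : T.card ≤ k * k)
    (htT : tL ∉ T) (hcut : ¬ Relation.ReflTransGen (Stp n k E (red n) T) sL tL) {i : ℕ}
    (hi : i < k) : ∃ u < n, ∀ j < k, ∃ v < n, okp E i j u v = true ∧ (4, i, j, u, v, 0) ∈ T := by
  by_contra hne
  push Not at hne
  choose! jf hj1 hj2 using hne
  have key : ∀ u ≤ n, ∃ c ≤ k * k, (2, i, 0, u, 0, c) ∉ T ∧
      Relation.ReflTransGen (Stp n k E (red n) T) sL (2, i, 0, u, 0, c) := by
    intro u
    induction u with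
    | zero =>
      intro _
      obtain ⟨c, hc, hcT⟩ := exists_copy hT 2 i 0 0 0
      refine ⟨c, hc, hcT, Relation.ReflTransGen.single ⟨?_, ?_, hcT⟩⟩
      · unfold red sL
        rw [Bool.or_eq_true, rr_iff]
        left; left
        exact ⟨rfl, rfl, rfl⟩
      · right; right
        rw [valid_iff]
        left
        exact ⟨rfl, hi, rfl, by omega, rfl, hc⟩
    | succ u ih =>
      intro hu
      obtain ⟨c, hc, hcT, hreach⟩ := ih (by omega)
      have hjk := hj1 u (by omega)
      have hjn := hj2 u (by omega)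
      have key2 : ∀ v < n, ∃ c', (4, i, jf u, u, v, c') ∉ T ∧
          Relation.ReflTransGen (Stp n k E (red n) T) sL (4, i, jf u, u, v, c') := by
        have hcopy : ∀ v < n, ∃ c', (4, i, jf u, u, v, c') ∉ T ∧
            valid n k E (4, i, jf u, u, v, c') = true := by
          intro v hv
          cases hok : okp E i (jf u) u v
          · obtain ⟨c', hc', hcT'⟩ := exists_copy hT 4 i (jf u) u v
            refine ⟨c', hcT', ?_⟩
            rw [valid_iff]
            right; right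
            exact ⟨rfl, hi, hjk, by omega, hv, fun h => by rw [hok] at h; simp at h, fun _ => hc'⟩
          · refine ⟨0, hjn v hv hok, ?_⟩
            rw [valid_iff]
            right; right
            exact ⟨rfl, hi, hjk, by omega, hv, fun _ => rfl, fun h => by rw [hok] at h; simp at h⟩
        intro v
        induction v with
        | zero =>
          intro hv
          obtain ⟨c', h1, h2⟩ := hcopy 0 hv
          refine ⟨c', h1, hreach.tail ⟨?_, Or.inr (Or.inr h2), h1⟩⟩
          unfold red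
          rw [Bool.or_eq_true, rr_iff]
          left; right; left
          exact ⟨rfl, rfl, rfl, rfl, rfl⟩
        | succ v ihv =>
          intro hv
          obtain ⟨c₀, _, hr⟩ := ihv (by omega)
          obtain ⟨c', h1, h2⟩ := hcopy (v + 1) hv
          refine ⟨c', h1, hr.tail ⟨?_, Or.inr (Or.inr h2), h1⟩⟩
          unfold red
          rw [Bool.or_eq_true, rr_iff]
          left; right; right; left
          exact ⟨rfl, rfl, rfl, rfl, rfl, rfl⟩
      obtain ⟨c₀, _, hr⟩ := key2 (n - 1) (by omega)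
      obtain ⟨c', hc', hcT'⟩ := exists_copy hT 2 i 0 (u + 1) 0
      refine ⟨c', hc', hcT', hr.tail ⟨?_, ?_, hcT'⟩⟩
      · unfold red
        rw [Bool.or_eq_true, rr_iff]
        left; right; right; right; left
        exact ⟨rfl, rfl, rfl, rfl, by omega⟩
      · right; right
        rw [valid_iff]
        left
        exact ⟨rfl, hi, rfl, hu, rfl, hc'⟩
  obtain ⟨c, hc, hcT, hreach⟩ := key n le_rfl
  refine hcut (hreach.tail ⟨?_, Or.inr (Or.inl rfl), htT⟩)
  unfold red tL
  rw [Bool.or_eq_true, rr_iff]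
  left; right; right; right; right
  exact ⟨rfl, rfl, rfl⟩

/-- From a set of labels that cuts both colours to a clique. -/
theorem clique_of_cut {n k : ℕ} {E : ℕ → ℕ → Bool} (hE : ∀ u v, E u v = E v u) {T : Finset Lab}
    (hT : T.card ≤ k * k) (htT : tL ∉ T)
    (hred : ¬ Relation.ReflTransGen (Stp n k E (red n) T) sL tL)
    (hblue : ¬ Relation.ReflTransGen (Stp n k E (blue n) T) sL tL) :
    ∃ x : ℕ → ℕ, (∀ i < k, x i < n) ∧ ∀ i < k, ∀ j < k, i ≠ j → E (x i) (x j) = true := by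
  have h1 := fun i (hi : i < k) => row_cut hT htT hred hi
  have hT' : (T.image sw).card ≤ k * k := Finset.card_image_le.trans hT
  have hmem : ∀ x, x ∈ T.image sw ↔ sw x ∈ T := by
    intro x
    rw [Finset.mem_image]
    constructor
    · rintro ⟨y, hy, rfl⟩
      rwa [sw_sw]
    · intro hx
      exact ⟨sw x, hx, sw_sw x⟩
  have hred' : ¬ Relation.ReflTransGen (Stp n k E (red n) (T.image sw)) sL tL := by
    intro h
    apply hblue
    have := Relation.ReflTransGen.lift (p := Stp n k E (blue n) T) sw (fun a b hab => ?_) _ _ h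
    · exact this
    · obtain ⟨h1, h2, h3⟩ := hab
      refine ⟨?_, h2.sw hE, fun hb => h3 ((hmem b).2 hb)⟩
      unfold blue
      rw [sw_sw, sw_sw]
      exact h1
  have h2 := fun j (hj : j < k) => row_cut (E := E) hT' (fun h => htT ((hmem tL).1 h)) hred' hj
  choose! uf hu1 hu2 using h1
  choose! vf hv1 hv2 using h2
  have h3 : ∀ i < k, ∀ j < k, ∃ v, okp E i j (uf i) v = true ∧ (4, i, j, uf i, v, 0) ∈ T := by
    intro i hi j hj
    obtain ⟨v, _, h⟩ := hu2 i hi j hj
    exact ⟨v, h⟩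
  choose! g hg1 hg2 using h3
  -- the chosen vertices are all of `T`
  have himg : (Finset.univ : Finset (Fin k × Fin k)).image
      (fun p => ((4, (p.1 : ℕ), (p.2 : ℕ), uf p.1, g p.1 p.2, 0) : Lab)) = T := by
    refine Finset.eq_of_subset_of_card_le ?_ ?_
    · intro x hx
      rw [Finset.mem_image] at hx
      obtain ⟨⟨i, j⟩, _, rfl⟩ := hx
      exact hg2 i i.2 j j.2
    · rw [Finset.card_image_of_injective]
      · simpa using hT
      · rintro ⟨i, j⟩ ⟨i', j'⟩ h
        simp only [Prod.mk.injEq, true_and] at h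
        exact Prod.ext (Fin.ext h.1) (Fin.ext h.2.1)
  have h4 : ∀ i < k, ∀ j < k, okp E i j (uf i) (vf j) = true := by
    intro i hi j hj
    obtain ⟨u, _, hok, hm⟩ := hv2 j hj i hi
    rw [hmem] at hm
    have hm' : ((4, i, j, u, vf j, 0) : Lab) ∈ T := hm
    rw [← himg, Finset.mem_image] at hm'
    obtain ⟨⟨i', j'⟩, _, heq⟩ := hm'
    simp only [Prod.mk.injEq, true_and, and_true] at heq
    obtain ⟨h5, h6, h7, h8⟩ := heq
    rw [h5] at h7
    rw [h7, okp_comm hE]
    exact hok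
  refine ⟨uf, hu1, fun i hi j hj hij => ?_⟩
  have h5 := h4 i hi j hj
  have h6 := h4 j hj j hj
  unfold okp at h5 h6
  rw [if_neg hij] at h5
  rw [if_pos rfl, decide_eq_true_eq] at h6
  rw [h6]
  exact h5

/-! ### From a clique to a separator -/

/-- the side of a vertex in the red graph -/
def side (x : ℕ → ℕ) (a : Lab) : Bool :=
  decide (a.1 = 0) || (decide (a.1 = 2) && decide (a.2.2.2.1 ≤ x a.2.1)) ||
    (decide (a.1 = 4) && (decide (a.2.2.2.1 < x a.2.1) ||
      (decide (a.2.2.2.1 = x a.2.1) && decide (a.2.2.2.2.1 < x a.2.2.1))))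

theorem side_iff {x : ℕ → ℕ} {h i j u v c : ℕ} : side x (h, i, j, u, v, c) = true ↔
    h = 0 ∨ (h = 2 ∧ u ≤ x i) ∨ (h = 4 ∧ (u < x i ∨ (u = x i ∧ v < x j))) := by
  unfold side
  simp [or_assoc]

/-- the chosen vertices -/
def Chosen (k : ℕ) (x : ℕ → ℕ) (a : Lab) : Prop :=
  ∃ i < k, ∃ j < k, a = (4, i, j, x i, x j, 0)

theorem side_eq {n k : ℕ} {E : ℕ → ℕ → Bool} {x : ℕ → ℕ} (hx : ∀ i < k, x i < n)
    (hc : ∀ i < k, ∀ j < k, i ≠ j → E (x i) (x j) = true) {a b : Lab} (hab : rr n a b = true)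
    (ha : IsV n k E a) (hb : IsV n k E b) (ha' : ¬ Chosen k x a) (hb' : ¬ Chosen k x b) :
    side x a = side x b := by
  have hok : ∀ i < k, ∀ j < k, okp E i j (x i) (x j) = true := by
    intro i hi j hj
    unfold okp
    by_cases h : i = j
    · subst h
      simp
    · rw [if_neg h]
      exact hc i hi j hj h
  -- a valid vertex of type 4 at the chosen place is chosen
  have hW : ∀ {i j u v c : ℕ}, IsV n k E (4, i, j, u, v, c) → ¬ Chosen k x (4, i, j, u, v, c) →
      i < k ∧ j < k ∧ u < n ∧ v < n ∧ ¬ (u = x i ∧ v = x j) := by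
    intro i j u v c hv hnc
    rcases hv with h | h | h
    · simp [sL] at h
    · simp [tL] at h
    · rw [valid_iff] at h
      have h' := h.resolve_left (by omega)
      have h'' := h'.resolve_left (by omega)
      refine ⟨h''.2.1, h''.2.2.1, h''.2.2.2.1, h''.2.2.2.2.1, ?_⟩
      rintro ⟨rfl, rfl⟩
      have hc0 := h''.2.2.2.2.2.1 (hok i h''.2.1 j h''.2.2.1)
      exact hnc ⟨i, h''.2.1, j, h''.2.2.1, by rw [hc0]⟩
  have hJ : ∀ {i j u v c : ℕ}, IsV n k E (2, i, j, u, v, c) → i < k := by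
    intro i j u v c hv
    rcases hv with h | h | h
    · simp [sL] at h
    · simp [tL] at h
    · rw [valid_iff] at h
      omega
  obtain ⟨h, i, j, u, v, c⟩ := a
  obtain ⟨h', i', j', u', v', c'⟩ := b
  rw [rr_iff] at hab
  rw [Bool.eq_iff_iff, side_iff, side_iff]
  rcases hab with ⟨rfl, rfl, rfl⟩ | ⟨rfl, rfl, rfl, rfl, rfl⟩ | ⟨rfl, rfl, rfl, rfl, rfl, rfl⟩ |
    ⟨rfl, rfl, rfl, rfl, h5⟩ | ⟨rfl, rfl, rfl⟩
  · simp
  · obtain ⟨h1, h2, h3, h4, h5⟩ := hW hb hb'
    omega
  · obtain ⟨h1, h2, h3, h4, h5⟩ := hW hb hb'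
    obtain ⟨-, -, -, -, h6⟩ := hW ha ha'
    omega
  · obtain ⟨h1, h2, h3, h4, h6⟩ := hW ha ha'
    have h7 := hx j h2
    omega
  · have h1 := hx i (hJ ha)
    omega

theorem side_red {n k : ℕ} {E : ℕ → ℕ → Bool} {x : ℕ → ℕ} (hx : ∀ i < k, x i < n)
    (hc : ∀ i < k, ∀ j < k, i ≠ j → E (x i) (x j) = true) {a b : Lab} (hab : red n a b = true)
    (ha : IsV n k E a) (hb : IsV n k E b) (ha' : ¬ Chosen k x a) (hb' : ¬ Chosen k x b) :
    side x a = side x b := by
  unfold red at hab
  rw [Bool.or_eq_true] at hab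
  rcases hab with h | h
  · exact side_eq hx hc h ha hb ha' hb'
  · exact (side_eq hx hc h hb ha hb' ha').symm

theorem chosen_sw {k : ℕ} {x : ℕ → ℕ} {a : Lab} (h : Chosen k x (sw a)) : Chosen k x a := by
  obtain ⟨i, hi, j, hj, h⟩ := h
  refine ⟨j, hj, i, hi, ?_⟩
  rw [← sw_sw a, h]
  rfl

theorem side_blue {n k : ℕ} {E : ℕ → ℕ → Bool} (hE : ∀ u v, E u v = E v u) {x : ℕ → ℕ}
    (hx : ∀ i < k, x i < n) (hc : ∀ i < k, ∀ j < k, i ≠ j → E (x i) (x j) = true) {a b : Lab}
    (hab : blue n a b = true) (ha : IsV n k E a) (hb : IsV n k E b) (ha' : ¬ Chosen k x a)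
    (hb' : ¬ Chosen k x b) : side x (sw a) = side x (sw b) :=
  side_red hx hc hab (ha.sw hE) (hb.sw hE) (fun h => ha' (chosen_sw h)) (fun h => hb' (chosen_sw h))

end Pool.Agent.V11230.DS
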