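import Pool.Agent.V11230.DSep
import Pool.Agent.H622R2.MatGraph

/-!
# Dual separators: the matrix of the constructed graph
-/

set_option autoImplicit false

namespace Pool.Agent.V11230.DS

open Pool.Agent.H622R2

/-- the matrix of a function on labels -/
def cmat (vs : List Lab) (f : Lab → Lab → ℕ) : List (List ℕ) := vs.map fun a => vs.map fun b => f a b

theorem cmat_length (vs : List Lab) (f : Lab → Lab → ℕ) : (cmat vs f).length = vs.length := by
  simp [cmat]

theorem cell_cmat (vs : List Lab) (f : Lab → Lab → ℕ) (i j : ℕ) (hi : i < vs.length)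
    (hj : j < vs.length) : cell (cmat vs f) i j = f vs[i] vs[j] := by
  unfold cell cmat
  rw [List.getD_eq_getElem?_getD (l := List.map _ _), List.getElem?_map,
    List.getElem?_eq_getElem hi]
  simp only [Option.map_some, Option.getD_some]
  rw [List.getD_eq_getElem?_getD, List.getElem?_map, List.getElem?_eq_getElem hj]
  simp

/-- the label of a vertex -/
def lab (vs : List Lab) (f : Lab → Lab → ℕ) (a : Fin (cmat vs f).length) : Lab :=
  vs.get (Fin.cast (cmat_length vs f) a)

theorem lab_injective {vs : List Lab} (hnd : vs.Nodup) (f : Lab → Lab → ℕ) :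
    Function.Injective (lab vs f) := by
  intro a b h
  have := hnd.injective_get h
  simpa [Fin.ext_iff] using this

theorem lab_mem (vs : List Lab) (f : Lab → Lab → ℕ) (a : Fin (cmat vs f).length) :
    lab vs f a ∈ vs := List.get_mem _ _

theorem exists_lab {vs : List Lab} (f : Lab → Lab → ℕ) {x : Lab} (hx : x ∈ vs) :
    ∃ a, lab vs f a = x := by
  obtain ⟨i, hi⟩ := List.get_of_mem hx
  refine ⟨Fin.cast (cmat_length vs f).symm i, ?_⟩
  unfold lab
  rw [← hi]
  rfl

theorem adj_iff {vs : List Lab} (hnd : vs.Nodup) (f : Lab → Lab → ℕ) (c : ℕ) (R : Lab → Lab → Bool)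
    (hR : ∀ x y, f x y = c ↔ R x y = true) (hsymm : ∀ x y, R x y = R y x)
    (hirr : ∀ x, R x x = false) (a b : Fin (cmat vs f).length) :
    (colGraph (cmat vs f) c).Adj a b ↔ R (lab vs f a) (lab vs f b) = true := by
  have ha : (a : ℕ) < vs.length := lt_of_lt_of_eq a.2 (cmat_length vs f)
  have hb : (b : ℕ) < vs.length := lt_of_lt_of_eq b.2 (cmat_length vs f)
  have h1 : cell (cmat vs f) a b = f (lab vs f a) (lab vs f b) := cell_cmat vs f a b ha hb
  have h2 : cell (cmat vs f) b a = f (lab vs f b) (lab vs f a) := cell_cmat vs f b a hb ha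
  unfold colGraph
  simp only
  rw [h1, h2, hR, hR, hsymm (lab vs f b)]
  constructor
  · exact fun h => h.2.1
  · intro h
    refine ⟨?_, h, h⟩
    rintro rfl
    rw [hirr] at h
    simp at h

theorem blue_comm (n : ℕ) (x y : Lab) : blue n x y = blue n y x := red_comm n _ _

theorem blue_irrefl (n : ℕ) (x : Lab) : blue n x x = false := red_irrefl n _

section

variable {n k : ℕ} {E : ℕ → ℕ → Bool} {vs : List Lab} (hnd : vs.Nodup)
  (hvs : ∀ x, x ∈ vs ↔ IsV n k E x)
  {s t : Fin (cmat vs (col n)).length} (hs : lab vs (col n) s = sL) (ht : lab vs (col n) t = tL)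

include hnd hvs hs

theorem walk_of_chain {c : ℕ} {R : Lab → Lab → Bool}
    (hadj : ∀ a b, (colGraph (cmat vs (col n)) c).Adj a b ↔
      R (lab vs (col n) a) (lab vs (col n) b) = true)
    {S : Finset (Fin (cmat vs (col n)).length)} (hsS : s ∉ S) {y : Lab}
    (h : Relation.ReflTransGen (Stp n k E R (S.image (lab vs (col n)))) sL y) :
    ∃ b, lab vs (col n) b = y ∧ ∃ p : (colGraph (cmat vs (col n)) c).Walk s b,
      ∀ v ∈ p.support, v ∉ S := by
  induction h with
  | refl =>
    refine ⟨s, hs, SimpleGraph.Walk.nil, ?_⟩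
    intro v hv
    rw [SimpleGraph.Walk.support_nil, List.mem_singleton] at hv
    rw [hv]
    exact hsS
  | tail _ hstep ih =>
    obtain ⟨b, hb, p, hp⟩ := ih
    obtain ⟨h1, h2, h3⟩ := hstep
    obtain ⟨b', hb'⟩ := exists_lab (col n) ((hvs _).2 h2)
    have hb'S : b' ∉ S := by
      intro h
      exact h3 (Finset.mem_image.2 ⟨b', h, hb'⟩)
    refine ⟨b', hb', p.concat ((hadj b b').2 (by rw [hb, hb']; exact h1)), ?_⟩
    intro v hv
    rw [SimpleGraph.Walk.support_concat, List.mem_append, List.mem_singleton] at hv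
    rcases hv with hv | rfl
    · exact hp v hv
    · exact hb'S

include ht in
theorem no_chain {c : ℕ} {R : Lab → Lab → Bool}
    (hadj : ∀ a b, (colGraph (cmat vs (col n)) c).Adj a b ↔
      R (lab vs (col n) a) (lab vs (col n) b) = true)
    {S : Finset (Fin (cmat vs (col n)).length)} (hS : Separates (colGraph (cmat vs (col n)) c) S s t) :
    ¬ Relation.ReflTransGen (Stp n k E R (S.image (lab vs (col n)))) sL tL := by
  intro h
  obtain ⟨b, hb, p, hp⟩ := walk_of_chain hnd hvs hs hadj hS.1 h
  have hbt : b = t := lab_injective hnd _ (by rw [hb, ht])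
  subst hbt
  obtain ⟨v, hv, hvS⟩ := hS.2.2 p
  exact hp v hv hvS

end

theorem walk_invariant {V : Type} {G : SimpleGraph V} {S : Finset V} {σ : V → Bool}
    (h : ∀ a b, G.Adj a b → a ∉ S → b ∉ S → σ a = σ b) {a b : V} (p : G.Walk a b)
    (hp : ∀ v ∈ p.support, v ∉ S) : σ a = σ b := by
  induction p with
  | nil => rfl
  | @cons a b' b hab q ih =>
    rw [SimpleGraph.Walk.support_cons] at hp
    have h1 : a ∉ S := hp a (by simp)
    have h2 : ∀ v ∈ q.support, v ∉ S := fun v hv => hp v (List.mem_cons_of_mem _ hv)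
    have h3 : b' ∉ S := h2 b' (SimpleGraph.Walk.start_mem_support q)
    rw [h a b' hab h1 h3]
    exact ih h2

/-- **The constructed graph has a dual separator iff there is a clique.** -/
theorem hasDualSep_iff {n k : ℕ} {E : ℕ → ℕ → Bool} (hE : ∀ u v, E u v = E v u) {vs : List Lab}
    (hnd : vs.Nodup) (hvs : ∀ x, x ∈ vs ↔ IsV n k E x) {s t : Fin (cmat vs (col n)).length}
    (hs : lab vs (col n) s = sL) (ht : lab vs (col n) t = tL) :
    HasDualSep (cmat vs (col n)) s t (k * k) ↔
      ∃ x : ℕ → ℕ, (∀ i < k, x i < n) ∧ ∀ i < k, ∀ j < k, i ≠ j → E (x i) (x j) = true := by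
  classical
  have hadj1 := adj_iff hnd (col n) 1 (red n) (fun x y => col_one) (red_comm n) (red_irrefl n)
  have hadj2 := adj_iff hnd (col n) 2 (blue n) (fun x y => col_two) (blue_comm n) (blue_irrefl n)
  constructor
  · rintro ⟨S, hcard, h1, h2⟩
    refine clique_of_cut hE (T := S.image (lab vs (col n))) (Finset.card_image_le.trans hcard) ?_
      (no_chain hnd hvs hs ht hadj1 h1) (no_chain hnd hvs hs ht hadj2 h2)
    intro h
    rw [Finset.mem_image] at h
    obtain ⟨a, ha, ha'⟩ := h
    have : a = t := lab_injective hnd _ (by rw [ha', ht])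
    rw [this] at ha
    exact h1.2.1 ha
  · rintro ⟨x, hx, hc⟩
    obtain ⟨S, hS⟩ : ∃ S : Finset (Fin (cmat vs (col n)).length),
        ∀ a, a ∈ S ↔ Chosen k x (lab vs (col n) a) :=
      ⟨Finset.univ.filter (fun a => Chosen k x (lab vs (col n) a)), fun a => by simp⟩
    have hsS : s ∉ S := by
      rw [hS, hs]
      rintro ⟨i, _, j, _, h⟩
      simp [sL] at h
    have htS : t ∉ S := by
      rw [hS, ht]
      rintro ⟨i, _, j, _, h⟩
      simp [tL] at h
    refine ⟨S, ?_, ⟨hsS, htS, ?_⟩, ⟨hsS, htS, ?_⟩⟩
    · have h1 : S.image (lab vs (col n)) ⊆ (Finset.univ : Finset (Fin k × Fin k)).image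
          (fun p => ((4, (p.1 : ℕ), (p.2 : ℕ), x p.1, x p.2, 0) : Lab)) := by
        intro y hy
        rw [Finset.mem_image] at hy
        obtain ⟨a, ha, rfl⟩ := hy
        obtain ⟨i, hi, j, hj, h⟩ := (hS a).1 ha
        rw [Finset.mem_image]
        exact ⟨(⟨i, hi⟩, ⟨j, hj⟩), Finset.mem_univ _, h.symm⟩
      have h2 := Finset.card_le_card h1
      rw [Finset.card_image_of_injective _ (lab_injective hnd _)] at h2
      refine h2.trans (Finset.card_image_le.trans ?_)
      simp
    · intro p
      by_contra hne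
      push Not at hne
      have := walk_invariant (σ := fun a => side x (lab vs (col n) a)) (fun a b hab ha hb => by
        rw [hS] at ha hb
        exact side_red hx hc ((hadj1 a b).1 hab) ((hvs _).1 (lab_mem _ _ a))
          ((hvs _).1 (lab_mem _ _ b)) ha hb) p hne
      simp only [hs, ht] at this
      simp [side, sL, tL] at this
    · intro p
      by_contra hne
      push Not at hne
      have := walk_invariant (σ := fun a => side x (sw (lab vs (col n) a))) (fun a b hab ha hb => by
        rw [hS] at ha hb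
        exact side_blue hE hx hc ((hadj2 a b).1 hab) ((hvs _).1 (lab_mem _ _ a))
          ((hvs _).1 (lab_mem _ _ b)) ha hb) p hne
      simp only [hs, ht] at this
      simp [side, sw, sL, tL] at this

/-! ### The vertices in a list -/

/-- the vertices -/
def verts (n k : ℕ) (E : ℕ → ℕ → Bool) : List Lab :=
  sL :: tL :: ((List.range 5).flatMap fun h => (List.range k).flatMap fun i =>
    (List.range k).flatMap fun j => (List.range (n + 1)).flatMap fun u =>
      (List.range (n + 1)).flatMap fun v => ((List.range (k * k + 1)).map fun c =>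
        (h, i, j, u, v, c)).filter (valid n k E))

theorem nodup_flatMap_range {α β : Type} (N : ℕ) (f : ℕ → List α) (g : α → β) (key : ℕ → β)
    (hkey : Function.Injective key) (hg : ∀ h, ∀ x ∈ f h, g x = key h) (hf : ∀ h, (f h).Nodup) :
    ((List.range N).flatMap f).Nodup := by
  rw [List.nodup_flatMap]
  refine ⟨fun h _ => hf h, ?_⟩
  refine List.Pairwise.imp_of_mem ?_ (List.nodup_range (n := N))
  intro a b _ _ hab
  rw [Function.onFun, List.disjoint_left]
  intro x hx hx'
  have h1 := hg a x hx
  have h2 := hg b x hx'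
  exact hab (hkey (h1.symm.trans h2))

theorem mem_verts {n k : ℕ} {E : ℕ → ℕ → Bool} {x : Lab} : x ∈ verts n k E ↔ IsV n k E x := by
  obtain ⟨h, i, j, u, v, c⟩ := x
  unfold verts IsV
  rw [List.mem_cons, List.mem_cons]
  refine or_congr Iff.rfl (or_congr Iff.rfl ?_)
  simp only [List.mem_flatMap, List.mem_filter, List.mem_map, List.mem_range]
  constructor
  · rintro ⟨_, _, _, _, _, _, _, _, _, _, h⟩
    exact h.2
  · intro hv
    have h1 := valid_iff.1 hv
    have hlt : h < 5 ∧ i < k ∧ j < k ∧ u < n + 1 ∧ v < n + 1 ∧ c < k * k + 1 := by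
      cases hok : okp E i j u v
      · rw [hok] at h1
        simp only [Bool.false_eq_true, false_imp_iff, true_and, true_imp_iff] at h1
        omega
      · rw [hok] at h1
        simp only [Bool.true_eq_false, false_imp_iff, and_true, true_imp_iff] at h1
        omega
    exact ⟨h, hlt.1, i, hlt.2.1, j, hlt.2.2.1, u, hlt.2.2.2.1, v, hlt.2.2.2.2.1,
      ⟨c, hlt.2.2.2.2.2, rfl⟩, hv⟩

theorem nodup_verts (n k : ℕ) (E : ℕ → ℕ → Bool) : (verts n k E).Nodup := by
  have h0 : ∀ {α : Type} [DecidableEq α] (a : α), Function.Injective (fun _ : α => a) → True :=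
    fun _ _ => trivial
  have hrest : ((List.range 5).flatMap fun h => (List.range k).flatMap fun i =>
    (List.range k).flatMap fun j => (List.range (n + 1)).flatMap fun u =>
      (List.range (n + 1)).flatMap fun v => ((List.range (k * k + 1)).map fun c =>
        (h, i, j, u, v, c)).filter (valid n k E)).Nodup := by
    refine nodup_flatMap_range 5 _ (fun x : Lab => x.1) (fun h => h) (fun a b h => h) ?_ ?_
    · intro h x hx
      simp only [List.mem_flatMap, List.mem_filter, List.mem_map] at hx
      obtain ⟨_, _, _, _, _, _, _, _, ⟨_, _, rfl⟩, _⟩ := hx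
      rfl
    intro h
    refine nodup_flatMap_range k _ (fun x : Lab => x.2.1) (fun h => h) (fun a b h => h) ?_ ?_
    · intro i x hx
      simp only [List.mem_flatMap, List.mem_filter, List.mem_map] at hx
      obtain ⟨_, _, _, _, _, _, ⟨_, _, rfl⟩, _⟩ := hx
      rfl
    intro i
    refine nodup_flatMap_range k _ (fun x : Lab => x.2.2.1) (fun h => h) (fun a b h => h) ?_ ?_
    · intro j x hx
      simp only [List.mem_flatMap, List.mem_filter, List.mem_map] at hx
      obtain ⟨_, _, _, _, ⟨_, _, rfl⟩, _⟩ := hx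
      rfl
    intro j
    refine nodup_flatMap_range (n + 1) _ (fun x : Lab => x.2.2.2.1) (fun h => h) (fun a b h => h)
      ?_ ?_
    · intro u x hx
      simp only [List.mem_flatMap, List.mem_filter, List.mem_map] at hx
      obtain ⟨_, _, ⟨_, _, rfl⟩, _⟩ := hx
      rfl
    intro u
    refine nodup_flatMap_range (n + 1) _ (fun x : Lab => x.2.2.2.2.1) (fun h => h)
      (fun a b h => h) ?_ ?_
    · intro v x hx
      simp only [List.mem_filter, List.mem_map] at hx
      obtain ⟨⟨_, _, rfl⟩, _⟩ := hx
      rfl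
    intro v
    refine List.Nodup.filter _ (List.Nodup.map ?_ List.nodup_range)
    intro a b hab
    simpa using hab
  unfold verts
  rw [List.nodup_cons, List.nodup_cons]
  refine ⟨?_, ?_, hrest⟩
  · rw [List.mem_cons]
    rintro (h | h)
    · simp [sL, tL] at h
    · simp only [List.mem_flatMap, List.mem_filter, List.mem_map] at h
      obtain ⟨_, _, _, _, _, _, _, _, _, _, _, h⟩ := h
      simp [sL, valid] at h
  · intro h
    simp only [List.mem_flatMap, List.mem_filter, List.mem_map] at h
    obtain ⟨_, _, _, _, _, _, _, _, _, _, _, h⟩ := h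
    simp [tL, valid] at h

/-! ### Cliques -/

/-- adjacency in the source graph -/
def ed (A : List (List Bool)) (u v : ℕ) : Bool := !(decide (u = v)) && (entry A u v || entry A v u)

theorem ed_comm (A : List (List Bool)) (u v : ℕ) : ed A u v = ed A v u := by
  unfold ed
  rw [Bool.or_comm]
  simp [eq_comm]

theorem not_cliqueFree_iff' (A : List (List Bool)) (k : ℕ) :
    ¬ (matGraph A).CliqueFree k ↔ ∃ x : ℕ → ℕ, (∀ i < k, x i < A.length) ∧
      ∀ i < k, ∀ j < k, i ≠ j → ed A (x i) (x j) = true := by
  have hadj : ∀ a b : Fin A.length, (matGraph A).Adj a b ↔ ed A a b = true := by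
    intro a b
    unfold matGraph ed
    simp [Fin.ext_iff]
  rw [SimpleGraph.not_cliqueFree_iff_top_isContained]
  constructor
  · rintro ⟨e⟩
    refine ⟨fun i => if h : i < k then (e ⟨i, h⟩ : ℕ) else 0, ?_, ?_⟩
    · intro i hi
      simp [hi]
    · intro i hi j hj hij
      simp only [hi, hj, dif_pos]
      rw [← hadj]
      exact e.toHom.map_adj (by simp [Fin.ext_iff, hij])
  · rintro ⟨x, hx, hc⟩
    have hinj : ∀ i < k, ∀ j < k, x i = x j → i = j := by
      intro i hi j hj hxy
      by_contra hij
      have := hc i hi j hj hij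
      unfold ed at this
      simp [hxy] at this
    refine ⟨⟨⟨fun i => ⟨x i, hx i i.2⟩, ?_⟩, ?_⟩⟩
    · intro a b h
      rw [hadj]
      simp only [SimpleGraph.completeGraph_eq_top, SimpleGraph.top_adj] at h
      exact hc a a.2 b b.2 (fun h' => h (Fin.ext h'))
    · intro a b hab
      have h1 : (⟨x a, hx a a.2⟩ : Fin A.length) = ⟨x b, hx b b.2⟩ := hab
      exact Fin.ext (hinj a a.2 b b.2 (by simpa using h1))

end Pool.Agent.V11230.DS
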