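import Mathlib
import Pool.Agent.NPC.Sat2

/-!
# Graphs in which given edge sequences are paths: definitions and basic facts
-/

set_option autoImplicit false

namespace Pool.Agent.NPC.V11230.ES

open Pool.Agent.NPC

/-- An instance: the list of the elements of `E`, and the list of the sequences. -/
abbrev Inst : Type := List ℕ × List (List ℕ)

/-- The elements are listed without repetition, and the sequences consist of elements of `E`. -/
def Valid (I : Inst) : Prop := I.1.Nodup ∧ ∀ s ∈ I.2, ∀ e ∈ s, e ∈ I.1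

/-- With the element `e` being the edge `r e`, the sequence `s` is a simple path: there are
pairwise distinct vertices `v_0, …, v_k` such that the `i`-th edge joins `v_{i-1}` and `v_i`. -/
def IsPathSeq {V : Type} (r : ℕ → Sym2 V) (s : List ℕ) : Prop :=
  ∃ vs : List V, vs.Nodup ∧ ∃ hl : vs.length = s.length + 1,
    ∀ (i : ℕ) (h : i < s.length), r s[i] = s(vs[i], vs[i + 1])

/-- `G` with the labelling `r` of its edges by the elements of `E` is a realisation. -/
def IsRealisation (I : Inst) {V : Type} (G : SimpleGraph V) (r : ℕ → Sym2 V) : Prop :=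
  Set.BijOn r {e | e ∈ I.1} G.edgeSet ∧ ∀ s ∈ I.2, IsPathSeq r s

/-- The instance has a realisation. -/
def Realisable (I : Inst) : Prop :=
  ∃ (V : Type) (_ : Finite V) (G : SimpleGraph V) (r : ℕ → Sym2 V), IsRealisation I G r

section

variable {V : Type} {r : ℕ → Sym2 V}

theorem path2 {e f : ℕ} (h : IsPathSeq r [e, f]) :
    ∃ u0 u1 u2, u0 ≠ u1 ∧ u0 ≠ u2 ∧ u1 ≠ u2 ∧ r e = s(u0, u1) ∧ r f = s(u1, u2) := by
  obtain ⟨vs, hnd, hl, h⟩ := h
  match vs, hl with
  | [u0, u1, u2], _ =>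
    have h0 := h 0 (by simp)
    have h1 := h 1 (by simp)
    simp only [List.nodup_cons, List.mem_cons, List.not_mem_nil, or_false, not_or,
      not_false_eq_true, List.nodup_nil, and_true] at hnd
    exact ⟨u0, u1, u2, hnd.1.1, hnd.1.2, hnd.2, h0, h1⟩

theorem path3 {e f g : ℕ} (h : IsPathSeq r [e, f, g]) :
    ∃ u0 u1 u2 u3, u0 ≠ u1 ∧ u0 ≠ u2 ∧ u0 ≠ u3 ∧ u1 ≠ u2 ∧ u1 ≠ u3 ∧ u2 ≠ u3 ∧
      r e = s(u0, u1) ∧ r f = s(u1, u2) ∧ r g = s(u2, u3) := by
  obtain ⟨vs, hnd, hl, h⟩ := h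
  match vs, hl with
  | [u0, u1, u2, u3], _ =>
    have h0 := h 0 (by simp)
    have h1 := h 1 (by simp)
    have h2 := h 2 (by simp)
    simp only [List.nodup_cons, List.mem_cons, List.not_mem_nil, or_false, not_or,
      not_false_eq_true, List.nodup_nil, and_true] at hnd
    exact ⟨u0, u1, u2, u3, hnd.1.1, hnd.1.2.1, hnd.1.2.2, hnd.2.1.1, hnd.2.1.2, hnd.2.2, h0, h1,
      h2⟩

theorem share {e f : ℕ} (h : IsPathSeq r [e, f]) : ∃ u, u ∈ r e ∧ u ∈ r f := by
  obtain ⟨u0, u1, u2, _, _, _, he, hf⟩ := path2 h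
  exact ⟨u1, by rw [he]; simp, by rw [hf]; simp⟩

theorem of_path2 {e f : ℕ} (u0 u1 u2 : V) (h01 : u0 ≠ u1) (h02 : u0 ≠ u2) (h12 : u1 ≠ u2)
    (he : r e = s(u0, u1)) (hf : r f = s(u1, u2)) : IsPathSeq r [e, f] := by
  refine ⟨[u0, u1, u2], by simp [h01, h02, h12], rfl, ?_⟩
  intro i hi
  simp only [List.length_cons, List.length_nil] at hi
  interval_cases i
  · exact he
  · exact hf

theorem of_path3 {e f g : ℕ} (u0 u1 u2 u3 : V) (h01 : u0 ≠ u1) (h02 : u0 ≠ u2) (h03 : u0 ≠ u3)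
    (h12 : u1 ≠ u2) (h13 : u1 ≠ u3) (h23 : u2 ≠ u3)
    (he : r e = s(u0, u1)) (hf : r f = s(u1, u2)) (hg : r g = s(u2, u3)) :
    IsPathSeq r [e, f, g] := by
  refine ⟨[u0, u1, u2, u3], by simp [h01, h02, h12, h03, h13, h23], rfl, ?_⟩
  intro i hi
  simp only [List.length_cons, List.length_nil] at hi
  interval_cases i
  · exact he
  · exact hf
  · exact hg

end

/-! ### The instance of a formula -/

/-- A clause with three literals. -/
abbrev Cl : Type := Lit ℕ × Lit ℕ × Lit ℕ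

/-- the vertex of the value `b` in block `i` -/
def loc (i : ℕ) (b : Bool) : ℕ := if b = true then 6 * i + 2 else 6 * i + 1

/-- the sequence that forces the edge `e` to contain the vertex `loc i b` -/
def pin (e i : ℕ) (b : Bool) : List ℕ :=
  if b = true then [e, 6 * i + 1, 6 * i] else [e, 6 * i + 1, 6 * i + 2]

/-- the sequences of a clause -/
def clSeqs (L : ℕ) (p : Cl × ℕ) : List (List ℕ) :=
  [[27 * L + 6 * p.2, 18 * L + 6 * p.2 + 1], [27 * L + 6 * p.2, 6 * p.1.2.2.2 + 1],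
   [27 * L + 6 * p.2, 24 * L + p.1.2.2.2],
   [27 * L + 6 * p.2 + 1, 18 * L + 6 * p.2 + 1], pin (27 * L + 6 * p.2 + 1) p.1.2.2.2 (!p.1.2.2.1),
   [27 * L + 6 * p.2 + 2, 18 * L + 6 * p.2 + 1], [27 * L + 6 * p.2 + 2, 6 * p.1.1.2 + 1],
   [27 * L + 6 * p.2 + 2, 27 * L + 6 * p.2], [27 * L + 6 * p.2 + 2, 24 * L + p.1.1.2],
   [27 * L + 6 * p.2 + 3, 18 * L + 6 * p.2 + 1], [27 * L + 6 * p.2 + 3, 6 * p.1.2.1.2 + 1],
   [27 * L + 6 * p.2 + 3, 27 * L + 6 * p.2 + 1], [27 * L + 6 * p.2 + 3, 24 * L + p.1.2.1.2],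
   pin (27 * L + 6 * p.2 + 4) (3 * L + p.2) true, pin (27 * L + 6 * p.2 + 4) p.1.1.2 (!p.1.1.1),
   pin (27 * L + 6 * p.2 + 5) (3 * L + p.2) true, pin (27 * L + 6 * p.2 + 5) p.1.2.1.2 (!p.1.2.1.1)]

/-- the sequences -/
def seqs (φ : List Cl) : List (List ℕ) :=
  List.range (24 * φ.length) ::
    ((List.range (3 * φ.length)).flatMap (fun x => [[24 * φ.length + x, 6 * x + 1],
      [24 * φ.length + x, 6 * x + 4, 6 * x + 5]]) ++
    φ.zipIdx.flatMap (clSeqs φ.length))

/-- the instance -/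
def inst (φ : List Cl) : Inst := (List.range (33 * φ.length), seqs φ)

section Sound

variable {V : Type} {r : ℕ → Sym2 V} {L : ℕ} {v : ℕ → V}

/-- The frame. -/
structure Frame (L : ℕ) (r : ℕ → Sym2 V) (v : ℕ → V) : Prop where
  inj : ∀ i j, i ≤ 24 * L → j ≤ 24 * L → v i = v j → i = j
  ends : ∀ t < 24 * L, r t = s(v t, v (t + 1))

theorem exists_frame (h : IsPathSeq r (List.range (24 * L))) : ∃ v, Frame L r v := by
  obtain ⟨vs, hnd, hl, h⟩ := h
  rw [List.length_range] at hl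
  have hne : vs ≠ [] := by
    intro h0
    rw [h0] at hl
    simp at hl
  refine ⟨fun i => vs.getD i (vs.head hne), ⟨fun i j hi hj hij => ?_, fun t ht => ?_⟩⟩
  · rw [List.getD_eq_getElem _ _ (by omega), List.getD_eq_getElem _ _ (by omega)] at hij
    exact (List.Nodup.getElem_inj_iff hnd).1 hij
  · have := h t (by rw [List.length_range]; exact ht)
    rw [List.getElem_range] at this
    rw [List.getD_eq_getElem _ _ (by omega), List.getD_eq_getElem _ _ (by omega)]
    exact this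

theorem Frame.touch (F : Frame L r v) {e t : ℕ} (ht : t < 24 * L) (h : IsPathSeq r [e, t]) :
    v t ∈ r e ∨ v (t + 1) ∈ r e := by
  obtain ⟨u, hu, hu'⟩ := share h
  rw [F.ends t ht] at hu'
  rcases Sym2.mem_iff.1 hu' with rfl | rfl
  · exact Or.inl hu
  · exact Or.inr hu

theorem Frame.touchB (F : Frame L r v) {e i : ℕ} (ht : i < 4 * L)
    (h : IsPathSeq r [e, 6 * i + 1]) : ∃ b, v (loc i b) ∈ r e := by
  rcases F.touch (by omega) h with h | h
  · exact ⟨false, by simpa [loc] using h⟩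
  · exact ⟨true, by simpa [loc] using h⟩

theorem Frame.pinned3 (F : Frame L r v) {e i : ℕ} (hi : i + 1 < 24 * L)
    (h : IsPathSeq r [e, i, i + 1]) : v i ∈ r e := by
  obtain ⟨u0, u1, u2, u3, _, _, _, h12, h13, _, he, hf, hg⟩ := path3 h
  rw [F.ends i (by omega)] at hf
  rw [F.ends (i + 1) hi] at hg
  have n1 : v i ≠ v (i + 1) := fun hh => by have := F.inj _ _ (by omega) (by omega) hh; omega
  have n2 : v i ≠ v (i + 1 + 1) := fun hh => by
    have := F.inj _ _ (by omega) (by omega) hh; omega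
  have n3 : v (i + 1) ≠ v (i + 1 + 1) := fun hh => by
    have := F.inj _ _ (by omega) (by omega) hh; omega
  have hu2 : u2 = v (i + 1) := by
    have m1 : u2 ∈ s(v i, v (i + 1)) := by rw [hf]; simp
    have m2 : u2 ∈ s(v (i + 1), v (i + 1 + 1)) := by rw [hg]; simp
    rcases Sym2.mem_iff.1 m1 with h1 | h1
    · rcases Sym2.mem_iff.1 m2 with h2 | h2
      · exact h2
      · exact absurd (h1.symm.trans h2) n2
    · exact h1
  have hu1 : u1 = v i := by
    have m1 : u1 ∈ s(v i, v (i + 1)) := by rw [hf]; simp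
    rcases Sym2.mem_iff.1 m1 with h1 | h1
    · exact h1
    · exact absurd (h1.trans hu2.symm) h12
  rw [he, ← hu1]
  simp

theorem Frame.pinned3' (F : Frame L r v) {e i : ℕ} (hi : i + 1 < 24 * L)
    (h : IsPathSeq r [e, i + 1, i]) : v (i + 2) ∈ r e := by
  obtain ⟨u0, u1, u2, u3, _, _, _, h12, h13, _, he, hf, hg⟩ := path3 h
  rw [F.ends i (by omega)] at hg
  rw [F.ends (i + 1) hi] at hf
  have n1 : v i ≠ v (i + 1) := fun hh => by have := F.inj _ _ (by omega) (by omega) hh; omega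
  have n2 : v i ≠ v (i + 1 + 1) := fun hh => by
    have := F.inj _ _ (by omega) (by omega) hh; omega
  have n3 : v (i + 1) ≠ v (i + 1 + 1) := fun hh => by
    have := F.inj _ _ (by omega) (by omega) hh; omega
  have hu2 : u2 = v (i + 1) := by
    have m1 : u2 ∈ s(v i, v (i + 1)) := by rw [hg]; simp
    have m2 : u2 ∈ s(v (i + 1), v (i + 1 + 1)) := by rw [hf]; simp
    rcases Sym2.mem_iff.1 m1 with h1 | h1
    · rcases Sym2.mem_iff.1 m2 with h2 | h2
      · exact h2
      · exact absurd (h1.symm.trans h2) n2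
    · exact h1
  have hu1 : u1 = v (i + 2) := by
    have m1 : u1 ∈ s(v (i + 1), v (i + 1 + 1)) := by rw [hf]; simp
    rcases Sym2.mem_iff.1 m1 with h1 | h1
    · exact absurd (h1.trans hu2.symm) h12
    · exact h1
  rw [he, ← hu1]
  simp

theorem Frame.pinned (F : Frame L r v) {e i : ℕ} {b : Bool} (hi : i < 4 * L)
    (h : IsPathSeq r (pin e i b)) : v (loc i b) ∈ r e := by
  unfold pin at h
  unfold loc
  cases b with
  | true =>
    simp only [if_true] at h ⊢
    exact F.pinned3' (i := 6 * i) (by omega) h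
  | false =>
    simp only [Bool.false_eq_true, if_false] at h ⊢
    exact F.pinned3 (i := 6 * i + 1) (by omega) h

theorem Frame.eq (F : Frame L r v) {e i j : ℕ} (hi : i ≤ 24 * L) (hj : j ≤ 24 * L) (hij : i ≠ j)
    (h1 : v i ∈ r e) (h2 : v j ∈ r e) : r e = s(v i, v j) :=
  (Sym2.mem_and_mem_iff fun h => hij (F.inj i j hi hj h)).1 ⟨h1, h2⟩

/-- Two edges of the frame vertices that share a vertex. -/
theorem Frame.meet (F : Frame L r v) {e f a b c d : ℕ} (ha : a ≤ 24 * L) (hb : b ≤ 24 * L)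
    (hc : c ≤ 24 * L) (hd : d ≤ 24 * L) (he : r e = s(v a, v b)) (hf : r f = s(v c, v d))
    (h : IsPathSeq r [e, f]) : a = c ∨ a = d ∨ b = c ∨ b = d := by
  obtain ⟨u, hu, hu'⟩ := share h
  rw [he] at hu
  rw [hf] at hu'
  rcases Sym2.mem_iff.1 hu with h1 | h1 <;> rcases Sym2.mem_iff.1 hu' with h2 | h2
  · exact Or.inl (F.inj _ _ ha hc (h1.symm.trans h2))
  · exact Or.inr (Or.inl (F.inj _ _ ha hd (h1.symm.trans h2)))
  · exact Or.inr (Or.inr (Or.inl (F.inj _ _ hb hc (h1.symm.trans h2))))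
  · exact Or.inr (Or.inr (Or.inr (F.inj _ _ hb hd (h1.symm.trans h2))))

theorem loc_lt {i : ℕ} {b : Bool} (hi : i < 4 * L) : loc i b ≤ 24 * L := by
  unfold loc; split_ifs <;> omega

theorem loc_cases (i : ℕ) (b : Bool) :
    (b = true ∧ loc i b = 6 * i + 2) ∨ (b = false ∧ loc i b = 6 * i + 1) := by
  unfold loc; cases b <;> simp

end Sound

end Pool.Agent.NPC.V11230.ES
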