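import Pool.Agent.V11230.EdgeSeq

/-!
# Graphs in which given edge sequences are paths: soundness
-/

set_option autoImplicit false

namespace Pool.Agent.NPC.V11230.ES

open Pool.Agent.NPC

variable {V : Type} {r : ℕ → Sym2 V} {L : ℕ} {v : ℕ → V}

theorem loc_inj {i j : ℕ} {b c : Bool} (h : loc i b = loc j c) : i = j ∧ b = c := by
  rcases loc_cases i b with ⟨hb, h1⟩ | ⟨hb, h1⟩ <;> rcases loc_cases j c with ⟨hc, h2⟩ | ⟨hc, h2⟩ <;>
    rw [h1, h2] at h
  · exact ⟨by omega, hb.trans hc.symm⟩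
  · exact absurd h (by omega)
  · exact absurd h (by omega)
  · exact ⟨by omega, hb.trans hc.symm⟩

theorem loc_ne (i j : ℕ) (b : Bool) : loc i b ≠ 6 * j + 4 := by
  rcases loc_cases i b with ⟨_, h⟩ | ⟨_, h⟩ <;> rw [h] <;> omega

/-- Two edges between blocks: the shared vertex. -/
theorem Frame.meetLL (F : Frame L r v) {e f i j i' j' : ℕ} {a b c d : Bool} (hi : i < 4 * L)
    (hj : j < 4 * L) (hi' : i' < 4 * L) (hj' : j' < 4 * L)
    (he : r e = s(v (loc i a), v (loc j b))) (hf : r f = s(v (loc i' c), v (loc j' d)))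
    (h : IsPathSeq r [e, f]) :
    (i = i' ∧ a = c) ∨ (i = j' ∧ a = d) ∨ (j = i' ∧ b = c) ∨ (j = j' ∧ b = d) := by
  rcases F.meet (loc_lt hi) (loc_lt hj) (loc_lt hi') (loc_lt hj') he hf h with h | h | h | h
  · exact Or.inl (loc_inj h)
  · exact Or.inr (Or.inl (loc_inj h))
  · exact Or.inr (Or.inr (Or.inl (loc_inj h)))
  · exact Or.inr (Or.inr (Or.inr (loc_inj h)))

theorem Frame.eqLL (F : Frame L r v) {e i j : ℕ} {a b : Bool} (hi : i < 4 * L) (hj : j < 4 * L)
    (hij : i ≠ j) (h1 : v (loc i a) ∈ r e) (h2 : v (loc j b) ∈ r e) :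
    r e = s(v (loc i a), v (loc j b)) :=
  F.eq (loc_lt hi) (loc_lt hj) (fun h => hij (loc_inj h).1) h1 h2

/-- The value of a variable. -/
theorem exists_val (F : Frame L r v) {x : ℕ} (hx : x < 3 * L)
    (h1 : IsPathSeq r [24 * L + x, 6 * x + 1])
    (h2 : IsPathSeq r [24 * L + x, 6 * x + 4, 6 * x + 5]) :
    ∃ b, r (24 * L + x) = s(v (loc x b), v (6 * x + 4)) := by
  obtain ⟨b, hb⟩ := F.touchB (by omega) h1
  have h := F.pinned3 (i := 6 * x + 4) (by omega) h2
  exact ⟨b, F.eq (loc_lt (by omega)) (by omega) (loc_ne _ _ _) hb h⟩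

/-- An edge that shares a vertex with the edge of the variable. -/
theorem Frame.meetM (F : Frame L r v) {e i x x' : ℕ} {a b c : Bool} (hi : i < 4 * L)
    (hx : x < 3 * L) (hx' : x' < 3 * L) (hix : i ≠ x')
    (he : r e = s(v (loc i a), v (loc x b))) (hf : r (24 * L + x') = s(v (loc x' c), v (6 * x' + 4)))
    (h : IsPathSeq r [e, 24 * L + x']) : b = c := by
  rcases F.meet (loc_lt hi) (loc_lt (by omega)) (loc_lt (by omega)) (by omega) he hf h with
    h | h | h | h
  · exact absurd (loc_inj h).1 hix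
  · exact absurd h (loc_ne _ _ _)
  · exact (loc_inj h).2
  · exact absurd h (loc_ne _ _ _)

theorem clause_sound (F : Frame L r v) {τ : ℕ → Bool}
    (hinj : ∀ e f, e < 33 * L → f < 33 * L → r e = r f → e = f)
    (hτ : ∀ x < 3 * L, r (24 * L + x) = s(v (loc x (τ x)), v (6 * x + 4))) {c : Cl} {k : ℕ}
    (hk : k < L) (hd : c.1.2 ≠ c.2.1.2 ∧ c.1.2 ≠ c.2.2.2 ∧ c.2.1.2 ≠ c.2.2.2)
    (hb : c.1.2 < 3 * L ∧ c.2.1.2 < 3 * L ∧ c.2.2.2 < 3 * L)
    (hs : ∀ s ∈ clSeqs L (c, k), IsPathSeq r s) :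
    τ c.1.2 = c.1.1 ∨ τ c.2.1.2 = c.2.1.1 ∨ τ c.2.2.2 = c.2.2.1 := by
  obtain ⟨⟨p1, x1⟩, ⟨p2, x2⟩, ⟨p3, x3⟩⟩ := c
  obtain ⟨d12, d13, d23⟩ := hd
  obtain ⟨b1, b2, b3⟩ := hb
  simp only at d12 d13 d23 b1 b2 b3 ⊢
  simp only [clSeqs, List.mem_cons, List.not_mem_nil, or_false, forall_eq_or_imp, forall_eq] at hs
  obtain ⟨s1, s2, s3, s4, s5, s6, s7, s8, s9, s10, s11, s12, s13, s14, s15, s16, s17⟩ := hs
  have hK : 3 * L + k < 4 * L := by omega
  have e18 : 18 * L + 6 * k + 1 = 6 * (3 * L + k) + 1 := by ring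
  rw [e18] at s1 s4 s6 s10
  -- first edge
  obtain ⟨s, hs0⟩ := F.touchB hK s1
  obtain ⟨β, hc0⟩ := F.touchB (by omega : x3 < 4 * L) s2
  have h0 := F.eqLL hK (by omega) (by omega) hs0 hc0
  have hβ : β = τ x3 := F.meetM hK b3 b3 (by omega) h0 (hτ x3 b3) s3
  rw [hβ] at h0
  -- second edge
  obtain ⟨t, ht1⟩ := F.touchB hK s4
  have hc1 := F.pinned (by omega : x3 < 4 * L) s5
  have h1 := F.eqLL hK (by omega) (by omega) ht1 hc1
  -- third edge
  obtain ⟨s', hs2⟩ := F.touchB hK s6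
  obtain ⟨α, ha2⟩ := F.touchB (by omega : x1 < 4 * L) s7
  have h2 := F.eqLL hK (by omega) (by omega) hs2 ha2
  have hα : α = τ x1 := F.meetM hK b1 b1 (by omega) h2 (hτ x1 b1) s9
  have hs' : s' = s := by
    rcases F.meetLL hK (by omega) hK (by omega) h2 h0 s8 with h | h | h | h
    · exact h.2
    · exact absurd h.1 (by omega)
    · exact absurd h.1 (by omega)
    · exact absurd h.1 d13
  rw [hα, hs'] at h2
  -- fourth edge
  obtain ⟨t', ht3⟩ := F.touchB hK s10
  obtain ⟨γ, hb3⟩ := F.touchB (by omega : x2 < 4 * L) s11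
  have h3 := F.eqLL hK (by omega) (by omega) ht3 hb3
  have hγ : γ = τ x2 := F.meetM hK b2 b2 (by omega) h3 (hτ x2 b2) s13
  have ht' : t' = t := by
    rcases F.meetLL hK (by omega) hK (by omega) h3 h1 s12 with h | h | h | h
    · exact h.2
    · exact absurd h.1 (by omega)
    · exact absurd h.1 (by omega)
    · exact absurd h.1 d23
  rw [hγ, ht'] at h3
  -- fifth and sixth edge
  have h4 := F.eqLL hK (by omega) (by omega) (F.pinned hK s14) (F.pinned (by omega : x1 < 4 * L) s15)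
  have h5 := F.eqLL hK (by omega) (by omega) (F.pinned hK s16) (F.pinned (by omega : x2 < 4 * L) s17)
  by_contra hcon
  push Not at hcon
  obtain ⟨n1, n2, n3⟩ := hcon
  have n1' : τ x1 = !p1 := by revert n1; cases τ x1 <;> cases p1 <;> simp
  have n2' : τ x2 = !p2 := by revert n2; cases τ x2 <;> cases p2 <;> simp
  have n3' : τ x3 = !p3 := by revert n3; cases τ x3 <;> cases p3 <;> simp
  rw [n3'] at h0
  rw [n1'] at h2
  rw [n2'] at h3
  have hst : s ≠ t := by
    rintro rfl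
    have := hinj _ _ (by omega) (by omega) (h0.trans h1.symm)
    omega
  have hs_ : s = false := by
    cases s with
    | false => rfl
    | true =>
      have := hinj _ _ (by omega) (by omega) (h2.trans h4.symm)
      omega
  have ht_ : t = false := by
    cases t with
    | false => rfl
    | true =>
      have := hinj _ _ (by omega) (by omega) (h3.trans h5.symm)
      omega
  exact hst (hs_.trans ht_.symm)

theorem sound {φ : List Cl} (hd : Distinct3 φ) (hb : Bounded3 φ) (h : Realisable (inst φ)) :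
    SAT3 φ := by
  obtain ⟨V, _, G, r, ⟨hbij, hseq⟩⟩ := h
  have hinj : ∀ e f, e < 33 * φ.length → f < 33 * φ.length → r e = r f → e = f := by
    intro e f he hf h
    exact hbij.injOn (by simpa [inst] using he) (by simpa [inst] using hf) h
  have hmem : ∀ s ∈ seqs φ, IsPathSeq r s := hseq
  obtain ⟨v, F⟩ := exists_frame (hmem _ (by unfold seqs; exact List.mem_cons_self))
  have hval : ∀ x, ∃ b, x < 3 * φ.length →
      r (24 * φ.length + x) = s(v (loc x b), v (6 * x + 4)) := by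
    intro x
    by_cases hx : x < 3 * φ.length
    · obtain ⟨b, hb⟩ := exists_val F hx (hmem _ (by
        unfold seqs
        refine List.mem_cons_of_mem _ (List.mem_append_left _ (List.mem_flatMap.2
          ⟨x, List.mem_range.2 hx, by simp⟩)))) (hmem _ (by
        unfold seqs
        refine List.mem_cons_of_mem _ (List.mem_append_left _ (List.mem_flatMap.2
          ⟨x, List.mem_range.2 hx, by simp⟩))))
      exact ⟨b, fun _ => hb⟩
    · exact ⟨false, fun h => absurd h hx⟩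
  choose τ hτ using hval
  refine ⟨τ, fun c hc => ?_⟩
  obtain ⟨k, hk, rfl⟩ := List.mem_iff_getElem.1 hc
  refine clause_sound F hinj hτ hk (hd _ hc) (hb _ hc) (fun s hs => hmem s ?_)
  unfold seqs
  refine List.mem_cons_of_mem _ (List.mem_append_right _ (List.mem_flatMap.2 ⟨(φ[k], k), ?_, hs⟩))
  rw [List.mk_mem_zipIdx_iff_getElem?]
  simp [hk]

end Pool.Agent.NPC.V11230.ES
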