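import Pool.Agent.V11230.EdgeSeq2

/-!
# Graphs in which given edge sequences are paths: completeness
-/

set_option autoImplicit false

namespace Pool.Agent.NPC.V11230.ES

open Pool.Agent.NPC

/-- the value of the clause block on the side of the first literal -/
def sV (τ : ℕ → Bool) (c : Cl) : Bool :=
  !(decide (τ c.2.2.2 = c.2.2.1)) && decide (τ c.1.2 = c.1.1)

/-- the value of the clause block on the side of the second literal -/
def tV (τ : ℕ → Bool) (c : Cl) : Bool :=
  !(decide (τ c.2.2.2 = c.2.2.1)) && !(decide (τ c.1.2 = c.1.1))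

/-- value in the clause block, variable and value for the `j`-th edge of the clause `c` -/
def trip (τ : ℕ → Bool) (c : Cl) (j : ℕ) : Bool × ℕ × Bool :=
  if j = 0 then (sV τ c, c.2.2.2, τ c.2.2.2) else
  if j = 1 then (tV τ c, c.2.2.2, !c.2.2.1) else
  if j = 2 then (sV τ c, c.1.2, τ c.1.2) else
  if j = 3 then (tV τ c, c.2.1.2, τ c.2.1.2) else
  if j = 4 then (true, c.1.2, !c.1.1) else (true, c.2.1.2, !c.2.1.1)

theorem trip_inj {τ : ℕ → Bool} {c : Cl} {j j' : ℕ} (hj : j < 6) (hj' : j' < 6)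
    (hd : c.1.2 ≠ c.2.1.2 ∧ c.1.2 ≠ c.2.2.2 ∧ c.2.1.2 ≠ c.2.2.2)
    (hc : τ c.1.2 = c.1.1 ∨ τ c.2.1.2 = c.2.1.1 ∨ τ c.2.2.2 = c.2.2.1)
    (h : trip τ c j = trip τ c j') : j = j' := by
  obtain ⟨⟨p1, x1⟩, ⟨p2, x2⟩, ⟨p3, x3⟩⟩ := c
  obtain ⟨d12, d13, d23⟩ := hd
  simp only [trip, sV, tV] at *
  generalize τ x1 = a1 at *
  generalize τ x2 = a2 at *
  generalize τ x3 = a3 at *
  interval_cases j <;> interval_cases j' <;> first
    | rfl
    | (exfalso
       simp (config := {decide := true}) only [if_true, if_false, Prod.mk.injEq] at h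
       obtain ⟨h1, h2, h3⟩ := h
       first
         | exact d12 h2
         | exact d13 h2
         | exact d23 h2
         | exact d12 h2.symm
         | exact d13 h2.symm
         | exact d23 h2.symm
         | (clear h2
            revert h1 h3 hc
            cases p1 <;> cases p2 <;> cases p3 <;> cases a1 <;> cases a2 <;> cases a3 <;> simp))

/-- the end vertices of the edge `e` -/
def en (φ : List Cl) (τ : ℕ → Bool) (e : ℕ) : ℕ × ℕ :=
  if e < 24 * φ.length then (e, e + 1) else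
  if e < 27 * φ.length then (loc (e - 24 * φ.length) (τ (e - 24 * φ.length)),
    6 * (e - 24 * φ.length) + 4) else
  let k := (e - 27 * φ.length) / 6
  let p := trip τ (φ.getD k ((true, 0), (true, 1), (true, 2))) ((e - 27 * φ.length) % 6)
  (loc (3 * φ.length + k) p.1, loc p.2.1 p.2.2)

section

variable {φ : List Cl} {τ : ℕ → Bool}

theorem en_frame {e : ℕ} (h : e < 24 * φ.length) : en φ τ e = (e, e + 1) := by
  unfold en
  rw [if_pos h]

theorem en_m {x : ℕ} (h : x < 3 * φ.length) :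
    en φ τ (24 * φ.length + x) = (loc x (τ x), 6 * x + 4) := by
  unfold en
  rw [if_neg (by omega), if_pos (by omega)]
  have : 24 * φ.length + x - 24 * φ.length = x := by omega
  rw [this]

theorem en_cl {k j : ℕ} (h : k < φ.length) (hj : j < 6) :
    en φ τ (27 * φ.length + 6 * k + j) = (loc (3 * φ.length + k) (trip τ φ[k] j).1,
      loc (trip τ φ[k] j).2.1 (trip τ φ[k] j).2.2) := by
  unfold en
  rw [if_neg (by omega), if_neg (by omega)]
  have h1 : (27 * φ.length + 6 * k + j - 27 * φ.length) / 6 = k := by omega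
  have h2 : (27 * φ.length + 6 * k + j - 27 * φ.length) % 6 = j := by omega
  simp only [h1, h2]
  rw [List.getD_eq_getElem _ _ h]

/-- The three kinds of edges. -/
theorem kinds {e : ℕ} (h : e < 33 * φ.length) :
    (e < 24 * φ.length) ∨ (∃ x, x < 3 * φ.length ∧ e = 24 * φ.length + x) ∨
      ∃ k j, k < φ.length ∧ j < 6 ∧ e = 27 * φ.length + 6 * k + j := by
  rcases lt_or_ge e (24 * φ.length) with h1 | h1
  · exact Or.inl h1
  · rcases lt_or_ge e (27 * φ.length) with h2 | h2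
    · exact Or.inr (Or.inl ⟨e - 24 * φ.length, by omega, by omega⟩)
    · exact Or.inr (Or.inr ⟨(e - 27 * φ.length) / 6, (e - 27 * φ.length) % 6, by omega, by omega,
        by omega⟩)

theorem trip_lt (hb : Bounded3 φ) {k j : ℕ} (h : k < φ.length) :
    (trip τ φ[k] j).2.1 < 3 * φ.length := by
  have := hb φ[k] (List.getElem_mem h)
  unfold trip
  split_ifs
  · exact this.2.2
  · exact this.2.2
  · exact this.1
  · exact this.2.1
  · exact this.1
  · exact this.2.1

theorem loc_bd (i : ℕ) (b : Bool) : 6 * i + 1 ≤ loc i b ∧ loc i b ≤ 6 * i + 2 := by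
  rcases loc_cases i b with ⟨_, h⟩ | ⟨_, h⟩ <;> rw [h] <;> omega

theorem en_bd (hb : Bounded3 φ) {e : ℕ} (h : e < 33 * φ.length) :
    (en φ τ e).1 ≤ 24 * φ.length ∧ (en φ τ e).2 ≤ 24 * φ.length ∧
      (en φ τ e).1 ≠ (en φ τ e).2 := by
  rcases kinds h with h | ⟨x, hx, rfl⟩ | ⟨k, j, hk, hj, rfl⟩
  · rw [en_frame h]
    simp only
    omega
  · rw [en_m hx]
    have := loc_bd x (τ x)
    simp only
    omega
  · rw [en_cl hk hj]
    have h1 := loc_bd (3 * φ.length + k) (trip τ φ[k] j).1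
    have h2 := loc_bd (trip τ φ[k] j).2.1 (trip τ φ[k] j).2.2
    have h3 := trip_lt (τ := τ) hb (j := j) hk
    simp only
    omega

theorem en_inj (hd : Distinct3 φ) (hb : Bounded3 φ)
    (hτ : ∀ c ∈ φ, τ c.1.2 = c.1.1 ∨ τ c.2.1.2 = c.2.1.1 ∨ τ c.2.2.2 = c.2.2.1)
    {e f : ℕ} (he : e < 33 * φ.length) (hf : f < 33 * φ.length)
    (h : ((en φ τ e).1 = (en φ τ f).1 ∧ (en φ τ e).2 = (en φ τ f).2) ∨
      ((en φ τ e).1 = (en φ τ f).2 ∧ (en φ τ e).2 = (en φ τ f).1)) : e = f := by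
  rcases kinds he with he | ⟨x, hx, rfl⟩ | ⟨k, j, hk, hj, rfl⟩ <;>
    rcases kinds hf with hf | ⟨y, hy, rfl⟩ | ⟨l, i, hl, hi, rfl⟩
  · rw [en_frame he, en_frame hf] at h
    simp only at h
    omega
  · rw [en_frame he, en_m hy] at h
    have := loc_bd y (τ y)
    simp only at h
    omega
  · rw [en_frame he, en_cl hl hi] at h
    have h1 := loc_bd (3 * φ.length + l) (trip τ φ[l] i).1
    have h2 := loc_bd (trip τ φ[l] i).2.1 (trip τ φ[l] i).2.2
    have h3 := trip_lt (τ := τ) hb (j := i) hl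
    simp only at h
    omega
  · rw [en_m hx, en_frame hf] at h
    have := loc_bd x (τ x)
    simp only at h
    omega
  · rw [en_m hx, en_m hy] at h
    have h1 := loc_bd x (τ x)
    have h2 := loc_bd y (τ y)
    simp only at h
    omega
  · rw [en_m hx, en_cl hl hi] at h
    have h1 := loc_bd (3 * φ.length + l) (trip τ φ[l] i).1
    have h2 := loc_bd x (τ x)
    simp only at h
    omega
  · rw [en_cl hk hj, en_frame hf] at h
    have h1 := loc_bd (3 * φ.length + k) (trip τ φ[k] j).1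
    have h2 := loc_bd (trip τ φ[k] j).2.1 (trip τ φ[k] j).2.2
    have h3 := trip_lt (τ := τ) hb (j := j) hk
    simp only at h
    omega
  · rw [en_cl hk hj, en_m hy] at h
    have h1 := loc_bd (3 * φ.length + k) (trip τ φ[k] j).1
    have h2 := loc_bd y (τ y)
    simp only at h
    omega
  · rw [en_cl hk hj, en_cl hl hi] at h
    have h1 := loc_bd (3 * φ.length + k) (trip τ φ[k] j).1
    have h2 := loc_bd (trip τ φ[k] j).2.1 (trip τ φ[k] j).2.2
    have h3 := trip_lt (τ := τ) hb (j := j) hk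
    have h4 := loc_bd (3 * φ.length + l) (trip τ φ[l] i).1
    have h5 := loc_bd (trip τ φ[l] i).2.1 (trip τ φ[l] i).2.2
    have h6 := trip_lt (τ := τ) hb (j := i) hl
    simp only at h
    rcases h with ⟨h7, h8⟩ | ⟨h7, h8⟩
    · have hkl : k = l := by have := (loc_inj h7).1; omega
      subst hkl
      have hji : j = i := by
        refine trip_inj (τ := τ) (c := φ[k]) hj hi (hd _ (List.getElem_mem hk))
          (hτ _ (List.getElem_mem hk)) ?_
        exact Prod.ext (loc_inj h7).2 (Prod.ext (loc_inj h8).1 (loc_inj h8).2)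
      rw [hji]
    · omega

/-! ### The graph -/

/-- The vertex with number `n`. -/
def vx (φ : List Cl) (n : ℕ) : Fin (24 * φ.length + 1) := Fin.ofNat _ n

theorem vx_inj {m n : ℕ} (hm : m ≤ 24 * φ.length) (hn : n ≤ 24 * φ.length)
    (h : vx φ m = vx φ n) : m = n := by
  have := congrArg Fin.val h
  simp only [vx, Fin.ofNat] at this
  rw [Nat.mod_eq_of_lt (by omega), Nat.mod_eq_of_lt (by omega)] at this
  exact this

/-- the edges -/
def rr (φ : List Cl) (τ : ℕ → Bool) (e : ℕ) : Sym2 (Fin (24 * φ.length + 1)) :=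
  s(vx φ (en φ τ e).1, vx φ (en φ τ e).2)

theorem rr_injOn (hd : Distinct3 φ) (hb : Bounded3 φ)
    (hτ : ∀ c ∈ φ, τ c.1.2 = c.1.1 ∨ τ c.2.1.2 = c.2.1.1 ∨ τ c.2.2.2 = c.2.2.1) :
    Set.InjOn (rr φ τ) {e | e ∈ List.range (33 * φ.length)} := by
  intro e he f hf h
  rw [Set.mem_ofPred_eq, List.mem_range] at he hf
  unfold rr at h
  have h1 := en_bd (τ := τ) hb he
  have h2 := en_bd (τ := τ) hb hf
  refine en_inj hd hb hτ he hf ?_
  rcases Sym2.eq_iff.1 h with ⟨h3, h4⟩ | ⟨h3, h4⟩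
  · exact Or.inl ⟨vx_inj h1.1 h2.1 h3, vx_inj h1.2.1 h2.2.1 h4⟩
  · exact Or.inr ⟨vx_inj h1.1 h2.2.1 h3, vx_inj h1.2.1 h2.1 h4⟩

/-! ### The sequences -/

theorem vx_ne {m n : ℕ} (hm : m ≤ 24 * φ.length) (hn : n ≤ 24 * φ.length) (h : m ≠ n) :
    vx φ m ≠ vx φ n := fun hh => h (vx_inj hm hn hh)

theorem p2 {r : ℕ → Sym2 (Fin (24 * φ.length + 1))} {e f a b c : ℕ} (ha : a ≤ 24 * φ.length)
    (hb : b ≤ 24 * φ.length) (hc : c ≤ 24 * φ.length) (hab : a ≠ b) (hac : a ≠ c) (hbc : b ≠ c)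
    (he : r e = s(vx φ a, vx φ b)) (hf : r f = s(vx φ b, vx φ c)) : IsPathSeq r [e, f] :=
  of_path2 _ _ _ (vx_ne ha hb hab) (vx_ne ha hc hac) (vx_ne hb hc hbc) he hf

theorem p3 {r : ℕ → Sym2 (Fin (24 * φ.length + 1))} {e f g a b c d : ℕ} (ha : a ≤ 24 * φ.length)
    (hb : b ≤ 24 * φ.length) (hc : c ≤ 24 * φ.length) (hd : d ≤ 24 * φ.length) (hab : a ≠ b)
    (hac : a ≠ c) (had : a ≠ d) (hbc : b ≠ c) (hbd : b ≠ d) (hcd : c ≠ d)
    (he : r e = s(vx φ a, vx φ b)) (hf : r f = s(vx φ b, vx φ c)) (hg : r g = s(vx φ c, vx φ d)) :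
    IsPathSeq r [e, f, g] :=
  of_path3 _ _ _ _ (vx_ne ha hb hab) (vx_ne ha hc hac) (vx_ne ha hd had) (vx_ne hb hc hbc)
    (vx_ne hb hd hbd) (vx_ne hc hd hcd) he hf hg

theorem rr_frame {e : ℕ} (h : e < 24 * φ.length) : rr φ τ e = s(vx φ e, vx φ (e + 1)) := by
  unfold rr
  rw [en_frame h]

theorem rr_m {x : ℕ} (h : x < 3 * φ.length) :
    rr φ τ (24 * φ.length + x) = s(vx φ (loc x (τ x)), vx φ (6 * x + 4)) := by
  unfold rr
  rw [en_m h]

theorem rr_cl {k j : ℕ} (h : k < φ.length) (hj : j < 6) :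
    rr φ τ (27 * φ.length + 6 * k + j) = s(vx φ (loc (3 * φ.length + k) (trip τ φ[k] j).1),
      vx φ (loc (trip τ φ[k] j).2.1 (trip τ φ[k] j).2.2)) := by
  unfold rr
  rw [en_cl h hj]

/-- An edge with one end in the location of a block touches the frame edge of the location. -/
theorem seq_touch {e i u : ℕ} {b : Bool} (hi : i < 4 * φ.length) (hu : u ≤ 24 * φ.length)
    (h1 : u ≠ 6 * i + 1) (h2 : u ≠ 6 * i + 2) (he : rr φ τ e = s(vx φ u, vx φ (loc i b))) :
    IsPathSeq (rr φ τ) [e, 6 * i + 1] := by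
  have hf := rr_frame (φ := φ) (τ := τ) (e := 6 * i + 1) (by omega)
  rcases loc_cases i b with ⟨_, h⟩ | ⟨_, h⟩ <;> rw [h] at he
  · exact p2 hu (by omega) (by omega : 6 * i + 1 ≤ _) h2 h1 (by omega) he (by rw [hf, Sym2.eq_swap])
  · exact p2 hu (by omega) (by omega : 6 * i + 2 ≤ _) h1 h2 (by omega) he hf

theorem seq_pin {e i u : ℕ} {b : Bool} (hi : i < 4 * φ.length) (hu : u ≤ 24 * φ.length)
    (h : u < 6 * i ∨ 6 * i + 3 < u) (he : rr φ τ e = s(vx φ u, vx φ (loc i b))) :
    IsPathSeq (rr φ τ) (pin e i b) := by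
  have hf := rr_frame (φ := φ) (τ := τ) (e := 6 * i + 1) (by omega)
  have hg := rr_frame (φ := φ) (τ := τ) (e := 6 * i) (by omega)
  have hg' := rr_frame (φ := φ) (τ := τ) (e := 6 * i + 2) (by omega)
  cases b with
  | true =>
    simp only [pin, loc, if_true] at he ⊢
    exact p3 (a := u) (b := 6 * i + 2) (c := 6 * i + 1) (d := 6 * i) (by omega) (by omega)
      (by omega) (by omega) (by omega) (by omega) (by omega) (by omega) (by omega) (by omega) he
      (by rw [hf, Sym2.eq_swap]) (by rw [hg, Sym2.eq_swap])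
  | false =>
    simp only [pin, loc, Bool.false_eq_true, if_false] at he ⊢
    exact p3 (a := u) (b := 6 * i + 1) (c := 6 * i + 2) (d := 6 * i + 3) (by omega) (by omega)
      (by omega) (by omega) (by omega) (by omega) (by omega) (by omega) (by omega) (by omega) he
      hf hg'

theorem seq_m {e x u : ℕ} (hx : x < 3 * φ.length) (hu : u ≤ 24 * φ.length)
    (h : 6 * x + 4 < u) (he : rr φ τ e = s(vx φ u, vx φ (loc x (τ x)))) :
    IsPathSeq (rr φ τ) [e, 24 * φ.length + x] := by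
  have hf := rr_m (φ := φ) (τ := τ) hx
  have hl := loc_bd x (τ x)
  exact p2 hu (by omega) (by omega) (by omega) (by omega) (by omega) he hf

theorem seq_m1 {x : ℕ} (hx : x < 3 * φ.length) :
    IsPathSeq (rr φ τ) [24 * φ.length + x, 6 * x + 1] := by
  have hf := rr_m (φ := φ) (τ := τ) hx
  exact seq_touch (b := τ x) (u := 6 * x + 4) (by omega) (by omega) (by omega) (by omega)
    (by rw [hf, Sym2.eq_swap])

theorem seq_m2 {x : ℕ} (hx : x < 3 * φ.length) :
    IsPathSeq (rr φ τ) [24 * φ.length + x, 6 * x + 4, 6 * x + 5] := by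
  have hf := rr_m (φ := φ) (τ := τ) hx
  have h4 := rr_frame (φ := φ) (τ := τ) (e := 6 * x + 4) (by omega)
  have h5 := rr_frame (φ := φ) (τ := τ) (e := 6 * x + 5) (by omega)
  have hl := loc_bd x (τ x)
  exact p3 (by omega) (by omega) (by omega) (by omega : 6 * x + 5 + 1 ≤ _) (by omega) (by omega)
    (by omega) (by omega) (by omega) (by omega) hf h4 h5

theorem seq_frame : IsPathSeq (rr φ τ) (List.range (24 * φ.length)) := by
  refine ⟨(List.range (24 * φ.length + 1)).map (vx φ), ?_, by simp, ?_⟩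
  · refine List.Nodup.map_on ?_ List.nodup_range
    intro a ha b hb h
    rw [List.mem_range] at ha hb
    exact vx_inj (by omega) (by omega) h
  · intro i hi
    rw [List.length_range] at hi
    rw [List.getElem_range, List.getElem_map, List.getElem_map, List.getElem_range,
      List.getElem_range]
    exact rr_frame hi

end

end Pool.Agent.NPC.V11230.ES
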