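import Mathlib

/-!
# Factorization of finite languages: the numerical core

Pairs `(k, r)` of a level and an offset. A Sidon set `t 0 = 0 < … < t (m - 1) = s`.
-/

set_option autoImplicit false

namespace Pool.Agent.NPC.V11230.Fact

/-- The atoms are `0, …, m - 1`, and `t` is a Sidon set with least element `0` and greatest `s`. -/
structure Par (m s : ℕ) (t : ℕ → ℕ) : Prop where
  four : 4 ≤ m
  even : ∃ q, m = 2 * q
  t0 : t 0 = 0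
  tl : t (m - 1) = s
  le : ∀ a < m, t a ≤ s
  sid : ∀ a < m, ∀ b < m, ∀ c < m, ∀ d < m, t a + t b = t c + t d →
    (a = c ∧ b = d) ∨ (a = d ∧ b = c)

/-- The set of the column with the clause `cl`. -/
def InC (m s : ℕ) (t : ℕ → ℕ) (cl : List ℕ) (k r : ℕ) : Prop :=
  (k = 0 ∧ r = 0) ∨ (k = 1 ∧ ∃ a < m, r = t a) ∨
  (k = 2 ∧ ∃ a < m, ∃ b < m, a ≠ b ∧ r = t a + t b) ∨
  (k = 3 ∧ r ≤ 3 * s) ∨ (k = 4 ∧ r ≤ 4 * s) ∨ (k = 10 ∧ r = 0) ∨ (k = 11 ∧ ∃ a < m, r = t a) ∨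
  (k = 12 ∧ ∃ a < m, ∃ b < m, a / 2 ≠ b / 2 ∧ r = t a + t b) ∨ (k = 13 ∧ r ≤ 3 * s) ∨
  (k = 20 ∧ r = 0) ∨ (k = 50 ∧ ∃ x ∈ cl, r + t x = s) ∨
  (k = 51 ∧ ∃ x ∈ cl, ∃ y < m, r + t x = s + t y) ∨ (k = 52 ∧ cl ≠ [] ∧ r ≤ 3 * s) ∨
  (k = 53 ∧ cl ≠ [] ∧ r ≤ 4 * s) ∨ (k = 60 ∧ ∃ x ∈ cl, r + t x = s) ∨
  (k = 61 ∧ r ≠ s ∧ ∃ x ∈ cl, ∃ y < m, r + t x = s + t y) ∨ (k = 62 ∧ cl ≠ [] ∧ r ≤ 3 * s)

variable {m s : ℕ} {t : ℕ → ℕ} {cl : List ℕ}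

theorem inC_lev {k r : ℕ} (h : InC m s t cl k r) : k ≤ 4 ∨ (10 ≤ k ∧ k ≤ 13) ∨ k = 20 ∨
    (50 ≤ k ∧ k ≤ 53) ∨ (60 ≤ k ∧ k ≤ 62) := by
  unfold InC at h
  omega

theorem inC_lev0 {k r : ℕ} (h : InC m s t [] k r) : k ≤ 4 ∨ (10 ≤ k ∧ k ≤ 13) ∨ k = 20 := by
  rcases inC_lev h with h1 | h1 | h1 | h1 | h1
  · exact Or.inl h1
  · exact Or.inr (Or.inl h1)
  · exact Or.inr (Or.inr h1)
  · exfalso
    unfold InC at h
    simp at h
    omega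
  · exfalso
    unfold InC at h
    simp at h
    omega

theorem inC_off (P : Par m s t) (hcl : ∀ x ∈ cl, x < m) {k r : ℕ} (h : InC m s t cl k r) :
    r ≤ 4 * s := by
  have hle := P.le
  rcases h with h | ⟨-, a, ha, rfl⟩ | ⟨-, a, ha, b, hb, -, rfl⟩ | h | h | h | ⟨-, a, ha, rfl⟩ |
    ⟨-, a, ha, b, hb, -, rfl⟩ | h | h | ⟨-, x, hx, h⟩ | ⟨-, x, hx, y, hy, h⟩ | h | h |
    ⟨-, x, hx, h⟩ | ⟨-, -, x, hx, y, hy, h⟩ | h
  · omega
  · have := hle a ha; omega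
  · have := hle a ha; have := hle b hb; omega
  · omega
  · omega
  · omega
  · have := hle a ha; omega
  · have := hle a ha; have := hle b hb; omega
  · omega
  · omega
  · omega
  · have := hle y hy; omega
  · omega
  · omega
  · omega
  · have := hle y hy; omega
  · omega

theorem inC_0 {r : ℕ} : InC m s t cl 0 r ↔ r = 0 := by simp [InC]
theorem inC_1 {r : ℕ} : InC m s t cl 1 r ↔ ∃ a < m, r = t a := by simp [InC]
theorem inC_2 {r : ℕ} : InC m s t cl 2 r ↔ ∃ a < m, ∃ b < m, a ≠ b ∧ r = t a + t b := by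
  simp [InC]
theorem inC_3 {r : ℕ} : InC m s t cl 3 r ↔ r ≤ 3 * s := by simp [InC]
theorem inC_4 {r : ℕ} : InC m s t cl 4 r ↔ r ≤ 4 * s := by simp [InC]
theorem inC_10 {r : ℕ} : InC m s t cl 10 r ↔ r = 0 := by simp [InC]
theorem inC_11 {r : ℕ} : InC m s t cl 11 r ↔ ∃ a < m, r = t a := by simp [InC]
theorem inC_12 {r : ℕ} : InC m s t cl 12 r ↔ ∃ a < m, ∃ b < m, a / 2 ≠ b / 2 ∧ r = t a + t b := by
  simp [InC]
theorem inC_13 {r : ℕ} : InC m s t cl 13 r ↔ r ≤ 3 * s := by simp [InC]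
theorem inC_20 {r : ℕ} : InC m s t cl 20 r ↔ r = 0 := by simp [InC]
theorem inC_50 {r : ℕ} : InC m s t cl 50 r ↔ ∃ x ∈ cl, r + t x = s := by simp [InC]
theorem inC_51 {r : ℕ} : InC m s t cl 51 r ↔ ∃ x ∈ cl, ∃ y < m, r + t x = s + t y := by
  simp [InC]
theorem inC_52 {r : ℕ} : InC m s t cl 52 r ↔ cl ≠ [] ∧ r ≤ 3 * s := by simp [InC]
theorem inC_53 {r : ℕ} : InC m s t cl 53 r ↔ cl ≠ [] ∧ r ≤ 4 * s := by simp [InC]
theorem inC_60 {r : ℕ} : InC m s t cl 60 r ↔ ∃ x ∈ cl, r + t x = s := by simp [InC]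
theorem inC_61 {r : ℕ} : InC m s t cl 61 r ↔ r ≠ s ∧ ∃ x ∈ cl, ∃ y < m, r + t x = s + t y := by
  simp [InC]
theorem inC_62 {r : ℕ} : InC m s t cl 62 r ↔ cl ≠ [] ∧ r ≤ 3 * s := by simp [InC]

/-- `A + B` is the set of the column `cl`. -/
structure PFac (m s : ℕ) (t : ℕ → ℕ) (A B : ℕ → ℕ → Prop) (cl : List ℕ) : Prop where
  sum : ∀ k r k' r', A k r → B k' r' → InC m s t cl (k + k') (r + r')
  dec : ∀ k r, InC m s t cl k r → ∃ ka ra kb rb, A ka ra ∧ B kb rb ∧ ka + kb = k ∧ ra + rb = r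

theorem Par.inj (P : Par m s t) {a b : ℕ} (ha : a < m) (hb : b < m) (h : t a = t b) : a = b := by
  rcases P.sid a ha a ha b hb b hb (by omega) with h | h <;> exact h.1

theorem Par.pos (P : Par m s t) : 0 < s := by
  rcases Nat.eq_zero_or_pos s with h | h
  · exfalso
    have h1 := P.four
    have := P.inj (a := 0) (b := m - 1) (by omega) (by omega) (by rw [P.t0, P.tl, h])
    omega
  · exact h

section sound

variable {A B0 B1 : ℕ → ℕ → Prop}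

theorem PFac.zero {B : ℕ → ℕ → Prop} (F : PFac m s t A B cl) : A 0 0 ∧ B 0 0 := by
  obtain ⟨ka, ra, kb, rb, ha, hb, h1, h2⟩ := F.dec 0 0 (inC_0.2 rfl)
  obtain ⟨rfl, rfl⟩ : ka = 0 ∧ kb = 0 := by omega
  obtain ⟨rfl, rfl⟩ : ra = 0 ∧ rb = 0 := by omega
  exact ⟨ha, hb⟩

theorem PFac.hA {B : ℕ → ℕ → Prop} (F : PFac m s t A B cl) {k r : ℕ} (h : A k r) :
    InC m s t cl k r := by
  have := F.sum k r 0 0 h F.zero.2
  simpa using this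

theorem PFac.hB {B : ℕ → ℕ → Prop} (F : PFac m s t A B cl) {k r : ℕ} (h : B k r) :
    InC m s t cl k r := by
  have := F.sum 0 0 k r F.zero.1 h
  simpa using this

/-- The elements of level fifty are in `B`. -/
theorem fifty (F0 : PFac m s t A B0 []) {B : ℕ → ℕ → Prop} (F : PFac m s t A B cl) {r : ℕ}
    (h : InC m s t cl 50 r) : B 50 r := by
  obtain ⟨ka, ra, kb, rb, ha, hb, h1, h2⟩ := F.dec 50 r h
  have l1 := inC_lev0 (F0.hA ha)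
  have l2 := inC_lev (F.hB hb)
  obtain ⟨rfl, rfl⟩ : ka = 0 ∧ kb = 50 := by omega
  have : ra = 0 := inC_0.1 (F0.hA ha)
  subst this
  rw [zero_add] at h2
  rw [← h2]
  exact hb

theorem lev_A (P : Par m s t) (F0 : PFac m s t A B0 []) (F1 : PFac m s t A B1 [m - 1]) {k r : ℕ}
    (h : A k r) : k ≤ 3 ∨ (10 ≤ k ∧ k ≤ 12) := by
  have hg : B1 50 0 := fifty F0 F1 (inC_50.2 ⟨m - 1, by simp, by rw [P.tl, zero_add]⟩)
  have l1 := inC_lev (F1.sum _ _ _ _ h hg)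
  have l2 := inC_lev0 (F0.hA h)
  omega

/-- `2 f` is a sum of two copies of `f`, or it is in `B`. -/
theorem two_f (P : Par m s t) (F0 : PFac m s t A B0 []) (F1 : PFac m s t A B1 [m - 1]) :
    (A 10 0 ∧ B0 10 0) ∨ B0 20 0 := by
  obtain ⟨ka, ra, kb, rb, ha, hb, h1, h2⟩ := F0.dec 20 0 (inC_20.2 rfl)
  obtain ⟨rfl, rfl⟩ : ra = 0 ∧ rb = 0 := by omega
  have l1 := lev_A P F0 F1 ha
  have l2 := inC_lev0 (F0.hB hb)
  rcases (by omega : (ka = 0 ∧ kb = 20) ∨ (ka = 10 ∧ kb = 10)) with ⟨rfl, rfl⟩ | ⟨rfl, rfl⟩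
  · exact Or.inr hb
  · exact Or.inl ⟨ha, hb⟩

theorem no_11 (P : Par m s t) (F0 : PFac m s t A B0 []) (F1 : PFac m s t A B1 [m - 1]) {r : ℕ}
    (h : A 11 r) : False := by
  rcases two_f P F0 F1 with ⟨-, h2⟩ | h2
  · have := inC_lev0 (F0.sum _ _ _ _ h h2); omega
  · have := inC_lev0 (F0.sum _ _ _ _ h h2); omega

theorem excl (P : Par m s t) {B : ℕ → ℕ → Prop} (F : PFac m s t A B cl) {a : ℕ} (ha : a < m)
    (h1 : A 1 (t a)) (h2 : B 1 (t a)) : False := by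
  obtain ⟨b, hb, c, hc, hbc, h⟩ := inC_2.1 (F.sum _ _ _ _ h1 h2)
  rcases P.sid a ha a ha b hb c hc h with h | h <;> omega

theorem no_3 (P : Par m s t) (F0 : PFac m s t A B0 []) (F1 : PFac m s t A B1 [m - 1]) {r : ℕ}
    (h : A 3 r) : False := by
  have h4 := P.four
  have hm1 : m - 1 < m := by omega
  -- `(51, 0 + 0)` must be covered by an atom
  have key : A 1 (t 0) := by
    obtain ⟨ka, ra, kb, rb, ha, hb, h1, h2⟩ := F1.dec 51 0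
      (inC_51.2 ⟨m - 1, by simp, 0, by omega, by rw [P.tl, P.t0]; omega⟩)
    obtain ⟨rfl, rfl⟩ : ra = 0 ∧ rb = 0 := by omega
    have l1 := lev_A P F0 F1 ha
    have l2 := inC_lev (F1.hB hb)
    rcases (by omega : (ka = 0 ∧ kb = 51) ∨ (ka = 1 ∧ kb = 50)) with ⟨rfl, rfl⟩ | ⟨rfl, rfl⟩
    · have := inC_lev (F1.sum _ _ _ _ h hb); omega
    · rw [P.t0]; exact ha
  obtain ⟨ka, ra, kb, rb, ha, hb, h1, h2⟩ := F0.dec 4 0 (inC_4.2 (by omega))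
  obtain ⟨rfl, rfl⟩ : ra = 0 ∧ rb = 0 := by omega
  have l1 := lev_A P F0 F1 ha
  have l2 := inC_lev0 (F0.sum _ _ _ _ h hb)
  obtain ⟨rfl, rfl⟩ : ka = 3 ∧ kb = 1 := by omega
  exact excl P F0 (by omega) key (by rw [P.t0]; exact hb)

theorem no_2 (P : Par m s t) (F0 : PFac m s t A B0 []) (F1 : PFac m s t A B1 [m - 1]) {r : ℕ}
    (h : A 2 r) : False := by
  have h4 := P.four
  have hpos : ∀ {r : ℕ}, InC m s t [] 2 r → r ≠ 0 := by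
    intro r hr h0
    obtain ⟨a, ha, b, hb, hab, h⟩ := inC_2.1 hr
    have e1 : t a = t 0 := by rw [P.t0]; omega
    have e2 : t b = t 0 := by rw [P.t0]; omega
    have := P.inj ha (by omega) e1
    have := P.inj hb (by omega) e2
    omega
  obtain ⟨ka, ra, kb, rb, ha, hb, h1, h2⟩ := F0.dec 3 0 (inC_3.2 (by omega))
  obtain ⟨rfl, rfl⟩ : ra = 0 ∧ rb = 0 := by omega
  have l2 := inC_lev0 (F0.sum _ _ _ _ h hb)
  rcases (by omega : (ka = 1 ∧ kb = 2) ∨ (ka = 2 ∧ kb = 1) ∨ (ka = 3 ∧ kb = 0)) with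
    ⟨rfl, rfl⟩ | ⟨rfl, rfl⟩ | ⟨rfl, rfl⟩
  · exact hpos (F0.hB hb) rfl
  · exact hpos (F0.hA ha) rfl
  · exact no_3 P F0 F1 ha

/-- A pair of atoms is covered by the atoms, or by the pair in `A` or in `B`. -/
theorem pair_dec (P : Par m s t) (F0 : PFac m s t A B0 []) (F1 : PFac m s t A B1 [m - 1]) {a b : ℕ}
    (ha : a < m) (hb : b < m) (hab : a ≠ b) : B0 2 (t a + t b) ∨ (A 1 (t a) ∧ B0 1 (t b)) ∨
      (A 1 (t b) ∧ B0 1 (t a)) := by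
  obtain ⟨ka, ra, kb, rb, h1, h2, h3, h4⟩ := F0.dec 2 _ (inC_2.2 ⟨a, ha, b, hb, hab, rfl⟩)
  rcases (by omega : (ka = 0 ∧ kb = 2) ∨ (ka = 1 ∧ kb = 1) ∨ (ka = 2 ∧ kb = 0)) with
    ⟨rfl, rfl⟩ | ⟨rfl, rfl⟩ | ⟨rfl, rfl⟩
  · have : ra = 0 := inC_0.1 (F0.hA h1)
    subst this
    rw [zero_add] at h4
    rw [h4] at h2
    exact Or.inl h2
  · obtain ⟨c, hc, rfl⟩ := inC_1.1 (F0.hA h1)
    obtain ⟨d, hd, rfl⟩ := inC_1.1 (F0.hB h2)
    rcases P.sid c hc d hd a ha b hb h4 with ⟨rfl, rfl⟩ | ⟨rfl, rfl⟩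
    · exact Or.inr (Or.inl ⟨h1, h2⟩)
    · exact Or.inr (Or.inr ⟨h1, h2⟩)
  · exact (no_2 P F0 F1 h1).elim

theorem no_12 (P : Par m s t) (F0 : PFac m s t A B0 []) (F1 : PFac m s t A B1 [m - 1]) {r : ℕ}
    (h : A 12 r) : False := by
  have h4 := P.four
  have hB2 : ∀ r', ¬ B0 2 r' := by
    intro r' h'
    have := inC_lev0 (F0.sum _ _ _ _ h h')
    omega
  have e1 := (pair_dec P F0 F1 (a := 0) (b := 1) (by omega) (by omega) (by omega)).resolve_left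
    (hB2 _)
  have e2 := (pair_dec P F0 F1 (a := 0) (b := 2) (by omega) (by omega) (by omega)).resolve_left
    (hB2 _)
  have e3 := (pair_dec P F0 F1 (a := 1) (b := 2) (by omega) (by omega) (by omega)).resolve_left
    (hB2 _)
  have x0 := excl P F0 (a := 0) (by omega)
  have x1 := excl P F0 (a := 1) (by omega)
  have x2 := excl P F0 (a := 2) (by omega)
  tauto

theorem lev_A' (P : Par m s t) (F0 : PFac m s t A B0 []) (F1 : PFac m s t A B1 [m - 1]) {k r : ℕ}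
    (h : A k r) : (k = 0 ∧ r = 0) ∨ k = 1 ∨ (k = 10 ∧ r = 0) := by
  have l := lev_A P F0 F1 h
  rcases (by omega : k = 0 ∨ k = 1 ∨ k = 2 ∨ k = 3 ∨ k = 10 ∨ k = 11 ∨ k = 12) with
    rfl | rfl | rfl | rfl | rfl | rfl | rfl
  · exact Or.inl ⟨rfl, inC_0.1 (F0.hA h)⟩
  · exact Or.inr (Or.inl rfl)
  · exact (no_2 P F0 F1 h).elim
  · exact (no_3 P F0 F1 h).elim
  · exact Or.inr (Or.inr ⟨rfl, inC_10.1 (F0.hA h)⟩)
  · exact (no_11 P F0 F1 h).elim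
  · exact (no_12 P F0 F1 h).elim

theorem f_mem (P : Par m s t) (F0 : PFac m s t A B0 []) (F1 : PFac m s t A B1 [m - 1])
    (hA : ∃ k r, A k r ∧ ¬ (k = 0 ∧ r = 0)) : A 10 0 := by
  rcases two_f P F0 F1 with h | h
  · exact h.1
  · obtain ⟨k, r, h1, h2⟩ := hA
    rcases lev_A' P F0 F1 h1 with h3 | rfl | ⟨rfl, rfl⟩
    · exact (h2 h3).elim
    · have := inC_lev0 (F0.sum _ _ _ _ h1 h); omega
    · exact h1

/-- Exactly one of two complementary atoms is in `A`. -/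
theorem compl_iff (P : Par m s t) (F0 : PFac m s t A B0 []) (F1 : PFac m s t A B1 [m - 1])
    (hA : ∃ k r, A k r ∧ ¬ (k = 0 ∧ r = 0)) {i : ℕ} (hi : 2 * i + 1 < m) :
    A 1 (t (2 * i)) ↔ ¬ A 1 (t (2 * i + 1)) := by
  have hf := f_mem P F0 F1 hA
  have hno : ¬ B0 2 (t (2 * i) + t (2 * i + 1)) := by
    intro h
    have h1 := F0.sum _ _ _ _ hf h
    rw [zero_add] at h1
    obtain ⟨a, ha, b, hb, hab, h⟩ := inC_12.1 h1
    rcases P.sid (2 * i) (by omega) (2 * i + 1) hi a ha b hb h with h | h <;> omega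
  have e := (pair_dec P F0 F1 (a := 2 * i) (b := 2 * i + 1) (by omega) hi (by omega)).resolve_left
    hno
  have x0 := excl P F0 (a := 2 * i) (by omega)
  have x1 := excl P F0 (a := 2 * i + 1) hi
  tauto

/-- Every clause has an atom in `A`. -/
theorem clause_sat (P : Par m s t) (F0 : PFac m s t A B0 []) (F1 : PFac m s t A B1 [m - 1])
    (hA : ∃ k r, A k r ∧ ¬ (k = 0 ∧ r = 0)) {B : ℕ → ℕ → Prop} (F : PFac m s t A B cl)
    (hcl : ∀ x ∈ cl, x < m) (hne : cl ≠ []) : ∃ x ∈ cl, A 1 (t x) := by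
  have hf := f_mem P F0 F1 hA
  obtain ⟨x, hx⟩ := List.exists_mem_of_ne_nil _ hne
  obtain ⟨ka, ra, kb, rb, h1, h2, h3, h4⟩ := F.dec 51 s (inC_51.2 ⟨x, hx, x, hcl x hx, rfl⟩)
  rcases lev_A' P F0 F1 h1 with ⟨rfl, rfl⟩ | rfl | ⟨rfl, rfl⟩
  · obtain rfl : kb = 51 := by omega
    obtain rfl : rb = s := by omega
    have h5 := F.sum _ _ _ _ hf h2
    rw [zero_add] at h5
    exact ((inC_61.1 h5).1 rfl).elim
  · obtain rfl : kb = 50 := by omega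
    obtain ⟨y, hy, h5⟩ := inC_50.1 (F.hB h2)
    refine ⟨y, hy, ?_⟩
    have : ra = t y := by omega
    rw [← this]
    exact h1
  · have := inC_lev (F.hB h2); omega

end sound

/-! ### completeness -/

/-- The set `A` for the set `S` of the true atoms. -/
def InA (m : ℕ) (t : ℕ → ℕ) (S : ℕ → Prop) (k r : ℕ) : Prop :=
  (k = 0 ∧ r = 0) ∨ (k = 1 ∧ ∃ a < m, S a ∧ r = t a) ∨ (k = 10 ∧ r = 0)

/-- The set `B` for the set `S` of the true atoms. -/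
def InB (m s : ℕ) (t : ℕ → ℕ) (S : ℕ → Prop) (cl : List ℕ) (k r : ℕ) : Prop :=
  (k = 0 ∧ r = 0) ∨ (k = 1 ∧ ∃ a < m, ¬ S a ∧ r = t a) ∨
  (k = 2 ∧ ∃ a < m, ∃ b < m, a / 2 ≠ b / 2 ∧ r = t a + t b) ∨ (k = 3 ∧ r ≤ 3 * s) ∨
  (k = 10 ∧ r = 0) ∨ (k = 50 ∧ ∃ x ∈ cl, r + t x = s) ∨
  (k = 51 ∧ r ≠ s ∧ ∃ x ∈ cl, ∃ y < m, r + t x = s + t y) ∨ (k = 52 ∧ cl ≠ [] ∧ r ≤ 3 * s)

theorem complete (P : Par m s t) {S : ℕ → Prop} (h0 : S 0) (hl : S (m - 1))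
    (hS : ∀ i, 2 * i + 1 < m → (S (2 * i) ↔ ¬ S (2 * i + 1))) (hcl : ∀ x ∈ cl, x < m)
    (hsat : cl ≠ [] → ∃ x ∈ cl, S x) : PFac m s t (InA m t S) (InB m s t S cl) cl := by
  have hle := P.le
  have h4 := P.four
  constructor
  · rintro k r k' r' (⟨rfl, rfl⟩ | ⟨rfl, a, ha, hSa, rfl⟩ | ⟨rfl, rfl⟩) hB
    · rw [zero_add, zero_add]
      rcases hB with ⟨rfl, rfl⟩ | ⟨rfl, a, ha, -, rfl⟩ | ⟨rfl, a, ha, b, hb, hab, rfl⟩ | ⟨rfl, h⟩ |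
        ⟨rfl, rfl⟩ | ⟨rfl, h⟩ | ⟨rfl, h⟩ | ⟨rfl, h⟩
      · exact inC_0.2 rfl
      · exact inC_1.2 ⟨a, ha, rfl⟩
      · exact inC_2.2 ⟨a, ha, b, hb, fun h => hab (by rw [h]), rfl⟩
      · exact inC_3.2 h
      · exact inC_10.2 rfl
      · exact inC_50.2 h
      · exact inC_51.2 h.2
      · exact inC_52.2 h
    · have hat := hle a ha
      rcases hB with ⟨rfl, rfl⟩ | ⟨rfl, b, hb, hSb, rfl⟩ | ⟨rfl, b, hb, c, hc, hab, rfl⟩ |
        ⟨rfl, h⟩ | ⟨rfl, rfl⟩ | ⟨rfl, x, hx, h⟩ | ⟨rfl, -, x, hx, y, hy, h⟩ | ⟨rfl, h, h'⟩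
      · exact inC_1.2 ⟨a, ha, rfl⟩
      · exact inC_2.2 ⟨a, ha, b, hb, fun h => hSb (h ▸ hSa), rfl⟩
      · have := hle b hb
        have := hle c hc
        exact inC_3.2 (by omega)
      · exact inC_4.2 (by omega)
      · exact inC_11.2 ⟨a, ha, rfl⟩
      · exact inC_51.2 ⟨x, hx, a, ha, by omega⟩
      · have := hle y hy
        exact inC_52.2 ⟨List.ne_nil_of_mem hx, by omega⟩
      · exact inC_53.2 ⟨h, by omega⟩
    · rw [zero_add]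
      rcases hB with ⟨rfl, rfl⟩ | ⟨rfl, a, ha, -, rfl⟩ | ⟨rfl, a, ha, b, hb, hab, rfl⟩ | ⟨rfl, h⟩ |
        ⟨rfl, rfl⟩ | ⟨rfl, h⟩ | ⟨rfl, h⟩ | ⟨rfl, h⟩
      · exact inC_10.2 rfl
      · exact inC_11.2 ⟨a, ha, rfl⟩
      · exact inC_12.2 ⟨a, ha, b, hb, hab, rfl⟩
      · exact inC_13.2 h
      · exact inC_20.2 rfl
      · exact inC_60.2 h
      · exact inC_61.2 h
      · exact inC_62.2 h
  · have A0 : InA m t S 0 0 := Or.inl ⟨rfl, rfl⟩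
    have A1 : ∀ a < m, S a → InA m t S 1 (t a) := fun a ha h => Or.inr (Or.inl ⟨rfl, a, ha, h, rfl⟩)
    have A10 : InA m t S 10 0 := Or.inr (Or.inr ⟨rfl, rfl⟩)
    have B0 : InB m s t S cl 0 0 := Or.inl ⟨rfl, rfl⟩
    have B1 : ∀ a < m, ¬ S a → InB m s t S cl 1 (t a) := fun a ha h =>
      Or.inr (Or.inl ⟨rfl, a, ha, h, rfl⟩)
    have B2 : ∀ a < m, ∀ b < m, a / 2 ≠ b / 2 → InB m s t S cl 2 (t a + t b) :=
      fun a ha b hb h => Or.inr (Or.inr (Or.inl ⟨rfl, a, ha, b, hb, h, rfl⟩))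
    have B3 : ∀ r ≤ 3 * s, InB m s t S cl 3 r := fun r h =>
      Or.inr (Or.inr (Or.inr (Or.inl ⟨rfl, h⟩)))
    have B10 : InB m s t S cl 10 0 := Or.inr (Or.inr (Or.inr (Or.inr (Or.inl ⟨rfl, rfl⟩))))
    have B50 : ∀ r, (∃ x ∈ cl, r + t x = s) → InB m s t S cl 50 r := fun r h =>
      Or.inr (Or.inr (Or.inr (Or.inr (Or.inr (Or.inl ⟨rfl, h⟩)))))
    have B51 : ∀ r, (r ≠ s ∧ ∃ x ∈ cl, ∃ y < m, r + t x = s + t y) → InB m s t S cl 51 r :=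
      fun r h => Or.inr (Or.inr (Or.inr (Or.inr (Or.inr (Or.inr (Or.inl ⟨rfl, h⟩))))))
    have B52 : ∀ r, (cl ≠ [] ∧ r ≤ 3 * s) → InB m s t S cl 52 r :=
      fun r h => Or.inr (Or.inr (Or.inr (Or.inr (Or.inr (Or.inr (Or.inr ⟨rfl, h⟩))))))
    have hl' : InA m t S 1 s := by
      have := A1 (m - 1) (by omega) hl
      rwa [P.tl] at this
    have h0' : InA m t S 1 0 := by
      have := A1 0 (by omega) h0
      rwa [P.t0] at this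
    rintro k r (⟨rfl, rfl⟩ | ⟨rfl, a, ha, rfl⟩ | ⟨rfl, a, ha, b, hb, hab, rfl⟩ | ⟨rfl, h⟩ |
      ⟨rfl, h⟩ | ⟨rfl, rfl⟩ | ⟨rfl, a, ha, rfl⟩ | ⟨rfl, a, ha, b, hb, hab, rfl⟩ | ⟨rfl, h⟩ |
      ⟨rfl, rfl⟩ | ⟨rfl, h⟩ | ⟨rfl, h⟩ | ⟨rfl, h⟩ | ⟨rfl, h, h'⟩ | ⟨rfl, h⟩ | ⟨rfl, h⟩ | ⟨rfl, h⟩)
    · exact ⟨0, 0, 0, 0, A0, B0, rfl, rfl⟩
    · by_cases hSa : S a
      · exact ⟨1, t a, 0, 0, A1 a ha hSa, B0, rfl, by omega⟩
      · exact ⟨0, 0, 1, t a, A0, B1 a ha hSa, rfl, by omega⟩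
    · by_cases h2 : a / 2 = b / 2
      · -- complementary atoms
        have hi : 2 * (a / 2) + 1 < m := by
          obtain ⟨q, hq⟩ := P.even
          omega
        have hc := hS (a / 2) hi
        rcases (by omega : (a = 2 * (a / 2) ∧ b = 2 * (a / 2) + 1) ∨
          (b = 2 * (a / 2) ∧ a = 2 * (a / 2) + 1)) with ⟨e1, e2⟩ | ⟨e1, e2⟩
        · by_cases hSa : S a
          · refine ⟨1, t a, 1, t b, A1 a ha hSa, B1 b hb ?_, rfl, rfl⟩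
            rw [e2]; rw [e1] at hSa; exact hc.1 hSa
          · refine ⟨1, t b, 1, t a, A1 b hb ?_, B1 a ha hSa, rfl, by omega⟩
            rw [e2]
            by_contra hcon
            rw [e1] at hSa
            exact hSa (hc.2 hcon)
        · by_cases hSb : S b
          · refine ⟨1, t b, 1, t a, A1 b hb hSb, B1 a ha ?_, rfl, by omega⟩
            rw [e2]; rw [e1] at hSb; exact hc.1 hSb
          · refine ⟨1, t a, 1, t b, A1 a ha ?_, B1 b hb hSb, rfl, rfl⟩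
            rw [e2]
            by_contra hcon
            rw [e1] at hSb
            exact hSb (hc.2 hcon)
      · exact ⟨0, 0, 2, _, A0, B2 a ha b hb h2, rfl, by omega⟩
    · exact ⟨0, 0, 3, r, A0, B3 r h, rfl, by omega⟩
    · by_cases h3 : r ≤ 3 * s
      · exact ⟨1, 0, 3, r, h0', B3 r h3, rfl, by omega⟩
      · exact ⟨1, s, 3, r - s, hl', B3 _ (by omega), rfl, by omega⟩
    · exact ⟨0, 0, 10, 0, A0, B10, rfl, rfl⟩
    · by_cases hSa : S a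
      · exact ⟨1, t a, 10, 0, A1 a ha hSa, B10, rfl, by omega⟩
      · exact ⟨10, 0, 1, t a, A10, B1 a ha hSa, rfl, by omega⟩
    · exact ⟨10, 0, 2, _, A10, B2 a ha b hb hab, rfl, by omega⟩
    · exact ⟨10, 0, 3, r, A10, B3 r h, rfl, by omega⟩
    · exact ⟨10, 0, 10, 0, A10, B10, rfl, rfl⟩
    · exact ⟨0, 0, 50, r, A0, B50 r h, rfl, by omega⟩
    · by_cases hr : r = s
      · subst hr
        obtain ⟨x, hx, -⟩ := h
        obtain ⟨y, hy, hSy⟩ := hsat (List.ne_nil_of_mem hx)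
        have hym := hcl y hy
        have := hle y hym
        exact ⟨1, t y, 50, r - t y, A1 y hym hSy, B50 _ ⟨y, hy, by omega⟩, rfl, by omega⟩
      · exact ⟨0, 0, 51, r, A0, B51 r ⟨hr, h⟩, rfl, by omega⟩
    · exact ⟨0, 0, 52, r, A0, B52 r h, rfl, by omega⟩
    · by_cases h3 : r ≤ 3 * s
      · exact ⟨1, 0, 52, r, h0', B52 r ⟨h, h3⟩, rfl, by omega⟩
      · exact ⟨1, s, 52, r - s, hl', B52 _ ⟨h, by omega⟩, rfl, by omega⟩
    · exact ⟨10, 0, 50, r, A10, B50 r h, rfl, by omega⟩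
    · exact ⟨10, 0, 51, r, A10, B51 r h, rfl, by omega⟩
    · exact ⟨10, 0, 52, r, A10, B52 r h, rfl, by omega⟩

end Pool.Agent.NPC.V11230.Fact
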