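import Pool.Agent.H634R2.Clique
import Pool.Agent.H671R2.PolyAuto

/-!
# Vertex cover is NP-hard
-/

set_option autoImplicit false

namespace Pool.Agent.NPC.V11230

open Pool.Agent.NPC Pool.Agent.NPC.H634R2

/-- Vertex cover: the graph on `{0, …, |V| - 1}` with the edges `E` has a vertex cover with at most
`k` elements. -/
def VC (I : (List ℕ × List (ℕ × ℕ)) × ℕ) : Prop :=
  ∃ K : Finset ℕ, (∀ v ∈ K, v < I.1.1.length) ∧ K.card ≤ I.2 ∧ ∀ e ∈ I.1.2, e.1 ∈ K ∨ e.2 ∈ K

/-- Promise: the vertices are `0, …, n - 1`, the edges are distinct and given with the smaller end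
first, `k ≤ n` and `1 ≤ n`. -/
def VCPr (I : (List ℕ × List (ℕ × ℕ)) × ℕ) : Prop :=
  I.1.1 = List.range I.1.1.length ∧ I.1.2.Nodup ∧ (∀ e ∈ I.1.2, e.1 < e.2 ∧ e.2 < I.1.1.length) ∧
    I.2 ≤ I.1.1.length ∧ 1 ≤ I.1.1.length

namespace VCRed

def cE (V : List ℕ) (E : List (ℕ × ℕ)) : List (ℕ × ℕ) :=
  V.flatMap (fun j => (V.filter (fun i => decide (i < j) && !decide ((i, j) ∈ E))).map
    (fun i => (i, j)))

theorem mem_cE {V : List ℕ} {E : List (ℕ × ℕ)} {i j : ℕ} :
    (i, j) ∈ cE V E ↔ i ∈ V ∧ j ∈ V ∧ i < j ∧ (i, j) ∉ E := by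
  simp only [cE, List.mem_flatMap, List.mem_map, List.mem_filter, Prod.mk.injEq, Bool.and_eq_true,
    decide_eq_true_eq, Bool.not_eq_true', decide_eq_false_iff_not]
  constructor
  · rintro ⟨j', hj', i', ⟨hi', h1, h2⟩, rfl, rfl⟩
    exact ⟨hi', hj', h1, h2⟩
  · rintro ⟨h1, h2, h3, h4⟩
    exact ⟨j, h2, i, ⟨h1, h3, h4⟩, rfl, rfl⟩

theorem cE_nodup {V : List ℕ} (hV : V.Nodup) (E : List (ℕ × ℕ)) : (cE V E).Nodup := by
  unfold cE
  rw [List.nodup_flatMap]
  refine ⟨fun j _ => ?_, ?_⟩
  · exact (hV.filter _).map (fun a b h => (Prod.mk.inj h).1)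
  · refine hV.imp ?_
    intro a b hab
    simp only [Function.onFun, List.disjoint_left, List.mem_map]
    rintro p ⟨i, _, rfl⟩ ⟨i', _, h⟩
    exact hab (Prod.mk.inj h).2.symm

theorem clique_iff {n k : ℕ} {E : List (ℕ × ℕ)} (hk : k ≤ n) (hE : ∀ i j, (i, j) ∈ E → i < j) :
    HasClique (List.range n) E k ↔ VC ((List.range n, cE (List.range n) E), n - k) := by
  unfold HasClique VC
  simp only [List.length_range, List.mem_range]
  constructor
  · rintro ⟨K, h1, h2, h3⟩
    refine ⟨Finset.range n \ K, ?_, ?_, ?_⟩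
    · intro v hv
      exact Finset.mem_range.1 (Finset.mem_sdiff.1 hv).1
    · rw [Finset.card_sdiff_of_subset (fun v hv => Finset.mem_range.2 (h1 v hv)), h2,
        Finset.card_range]
    · rintro ⟨i, j⟩ he
      rw [mem_cE, List.mem_range, List.mem_range] at he
      obtain ⟨hi, hj, hij, hn⟩ := he
      simp only [Finset.mem_sdiff, Finset.mem_range]
      by_contra hcon
      have hiK : i ∈ K := by
        by_contra h
        exact hcon (Or.inl ⟨hi, h⟩)
      have hjK : j ∈ K := by
        by_contra h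
        exact hcon (Or.inr ⟨hj, h⟩)
      rcases h3 i hiK j hjK (by omega) with h | h
      · exact hn h
      · have := hE _ _ h
        omega
  · rintro ⟨C, h1, h2, h3⟩
    have hcard : k ≤ (Finset.range n \ C).card := by
      rw [Finset.card_sdiff_of_subset (fun v hv => Finset.mem_range.2 (h1 v hv)),
        Finset.card_range]
      omega
    obtain ⟨K, hK, hKc⟩ := Finset.exists_subset_card_eq hcard
    refine ⟨K, fun v hv => Finset.mem_range.1 (Finset.mem_sdiff.1 (hK hv)).1, hKc, ?_⟩
    have key : ∀ u ∈ K, ∀ v ∈ K, u < v → (u, v) ∈ E := by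
      intro u hu v hv huv
      by_contra hn
      have hu' := Finset.mem_sdiff.1 (hK hu)
      have hv' := Finset.mem_sdiff.1 (hK hv)
      have := h3 (u, v) (mem_cE.2 ⟨List.mem_range.2 (Finset.mem_range.1 hu'.1),
        List.mem_range.2 (Finset.mem_range.1 hv'.1), huv, hn⟩)
      rcases this with h | h
      · exact hu'.2 h
      · exact hv'.2 h
    intro u hu v hv huv
    rcases Nat.lt_or_ge u v with h | h
    · exact Or.inl (key u hu v hv h)
    · exact Or.inr (key v hv u hu (by omega))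

theorem poly_cE {α : Type} [TEnc α] {V : α → List ℕ} {E : α → List (ℕ × ℕ)} (hV : Poly V)
    (hE : Poly E) : Poly (fun a => cE (V a) (E a)) := by
  have h1 : Poly (fun p : α × ℕ => (V p.1).filter
      (fun i => decide (i < p.2) && !decide ((i, p.2) ∈ E p.1))) := by
    have hV' : Poly (fun p : α × ℕ => V p.1) := hV.comp (Poly.fst Poly.id)
    have hE' : Poly (fun p : (α × ℕ) × ℕ => E p.1.1) := hE.comp (Poly.fst (Poly.fst Poly.id))
    refine Poly.filter hV' (p := fun p i => decide (i < p.2) && !decide ((i, p.2) ∈ E p.1)) ?_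
    fun_prop
  unfold cE
  refine Poly.flatMap hV (F := fun a j => ((V a).filter
    (fun i => decide (i < j) && !decide ((i, j) ∈ E a))).map (fun i => (i, j))) ?_
  exact Poly.map h1 (F := fun p i => (i, p.2)) (by fun_prop)

end VCRed

open VCRed in
/-- **Vertex cover is NP-hard**, with the promise `VCPr`. -/
theorem hardPr_VC : HardPr VCPr VC := by
  have hpad : Poly (fun φ : List Cl3 => pad ++ φ) := Poly.append (Poly.const pad) Poly.id
  have hV : Poly (fun φ : List Cl3 => gV (pad ++ φ)) := gV_poly.comp hpad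
  have hE : Poly (fun φ : List Cl3 => gE (pad ++ φ)) := gE_poly.comp hpad
  refine (hardI_SAT3.toHardPr).trans (f := fun φ => ((gV (pad ++ φ), cE (gV (pad ++ φ))
    (gE (pad ++ φ))), (gV (pad ++ φ)).length - (pad ++ φ).length)) ?_ ?_ ?_
  · exact Poly.pair (Poly.pair hV (poly_cE hV hE)) (Poly.sub (Poly.length hV) (Poly.length hpad))
  · intro φ _
    have h1 := gV_eq (pad ++ φ)
    have hl : (gV (pad ++ φ)).length = 3 * (pad ++ φ).length := by rw [h1, List.length_range]
    have hn : (gV (pad ++ φ)).Nodup := by rw [h1]; exact List.nodup_range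
    refine ⟨?_, cE_nodup hn _, ?_, ?_, ?_⟩
    · simp only
      rw [hl, ← h1]
    · rintro ⟨i, j⟩ he
      simp only at he ⊢
      rw [mem_cE, h1, List.mem_range] at he
      refine ⟨he.2.2.1, ?_⟩
      rw [hl]
      exact List.mem_range.1 he.2.1
    · simp only
      omega
    · simp only
      rw [hl]
      simp [pad]
      omega
  · intro φ _
    rw [← sat3_pad φ, ← hasClique_g, gV_eq, List.length_range]
    exact clique_iff (by omega) (fun i j h => gE_lt h)

end Pool.Agent.NPC.V11230
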