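import Pool.Agent.V11230.FactWord
import Pool.Agent.NPC.Sat2
import Pool.Agent.V11230.VC
import Pool.Agent.Y644.QS.PolyBase
import Pool.Agent.H601R2.PP

/-!
# Factorization of finite languages is NP-hard: the reduction from 3-satisfiability
-/

set_option autoImplicit false

namespace Pool.Agent.NPC.V11230.Fact

open Pool.Agent.NPC

/-! ### the predicates are decidable in polynomial time -/

theorem pp_exlt {β : Type} [TEnc β] {m : β → ℕ} (hm : UPoly m) {p : β → ℕ → Prop}
    (hp : PP (fun x : β × ℕ => p x.1 x.2)) : PP (fun b => ∃ a < m b, p b a) :=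
  (PP.bex hm.range hp).congr (fun b => by simp)

section pp

variable {α : Type} [TEnc α] {m s k r : α → ℕ} {t : α → ℕ → ℕ} {cl : α → List ℕ}

theorem pp_ex2 (hm : UPoly m) {p : α → ℕ → ℕ → Prop}
    (hp : PP (fun x : (α × ℕ) × ℕ => p x.1.1 x.1.2 x.2)) :
    PP (fun x => ∃ a < m x, ∃ b < m x, p x a b) :=
  pp_exlt (p := fun x a => ∃ b < m x, p x a b) hm
    (pp_exlt (m := fun x : α × ℕ => m x.1) (p := fun x b => p x.1 x.2 b)
      (hm.comp (Poly.fst Poly.id)) hp)

theorem pp_InC (hm : UPoly m) (hs : Poly s) (ht : Poly (fun x : α × ℕ => t x.1 x.2))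
    (hcl : Poly cl) (hk : Poly k) (hr : Poly r) :
    PP (fun x => InC (m x) (s x) (t x) (cl x) (k x) (r x)) := by
  have hta : Poly (fun x : (α × ℕ) × ℕ => t x.1.1 x.1.2) := ht.comp (Poly.fst Poly.id)
  have htb : Poly (fun x : (α × ℕ) × ℕ => t x.1.1 x.2) :=
    ht.comp (Poly.pair (Poly.fst (Poly.fst Poly.id)) (Poly.snd Poly.id))
  have hr2 : Poly (fun x : (α × ℕ) × ℕ => r x.1.1) := hr.comp (Poly.fst (Poly.fst Poly.id))
  have hs2 : Poly (fun x : (α × ℕ) × ℕ => s x.1.1) := hs.comp (Poly.fst (Poly.fst Poly.id))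
  have hr1 : Poly (fun x : α × ℕ => r x.1) := hr.comp (Poly.fst Poly.id)
  have hs1 : Poly (fun x : α × ℕ => s x.1) := hs.comp (Poly.fst Poly.id)
  have kk : ∀ c : ℕ, PP (fun x => k x = c) := fun c => PP.eq hk (Poly.const c)
  have r0 : PP (fun x => r x = 0) := PP.eq hr (Poly.const 0)
  have r3 : PP (fun x => r x ≤ 3 * s x) := PP.le hr (Poly.mul (Poly.const 3) hs)
  have r4 : PP (fun x => r x ≤ 4 * s x) := PP.le hr (Poly.mul (Poly.const 4) hs)
  have cn : PP (fun x => cl x ≠ []) := PP.ne hcl (Poly.const [])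
  have q1 : PP (fun x => ∃ a < m x, r x = t x a) :=
    pp_exlt (p := fun x a => r x = t x a) hm (PP.eq hr1 ht)
  have ha : Poly (fun x : (α × ℕ) × ℕ => x.1.2) := by fun_prop
  have hb : Poly (fun x : (α × ℕ) × ℕ => x.2) := by fun_prop
  have q2 : PP (fun x => ∃ a < m x, ∃ b < m x, a ≠ b ∧ r x = t x a + t x b) :=
    pp_ex2 (p := fun x a b => a ≠ b ∧ r x = t x a + t x b) hm
      (PP.and (PP.ne ha hb) (PP.eq hr2 (Poly.add hta htb)))
  have q3 : PP (fun x => ∃ a < m x, ∃ b < m x, a / 2 ≠ b / 2 ∧ r x = t x a + t x b) :=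
    pp_ex2 (p := fun x a b => a / 2 ≠ b / 2 ∧ r x = t x a + t x b) hm
      (PP.and (PP.ne (Poly.div ha (Poly.const 2)) (Poly.div hb (Poly.const 2)))
        (PP.eq hr2 (Poly.add hta htb)))
  have q4 : PP (fun x => ∃ y ∈ cl x, r x + t x y = s x) :=
    PP.bex (r := fun x y => r x + t x y = s x) hcl (PP.eq (Poly.add hr1 ht) hs1)
  have q5 : PP (fun x => ∃ z ∈ cl x, ∃ y < m x, r x + t x z = s x + t x y) := by
    refine PP.bex (r := fun x z => ∃ y < m x, r x + t x z = s x + t x y) hcl ?_
    exact pp_exlt (m := fun x : α × ℕ => m x.1)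
      (p := fun x y => r x.1 + t x.1 x.2 = s x.1 + t x.1 y) (hm.comp (Poly.fst Poly.id))
      (PP.eq (Poly.add hr2 hta) (Poly.add hs2 htb))
  unfold InC
  exact ((kk 0).and r0).or <| ((kk 1).and q1).or <| ((kk 2).and q2).or <| ((kk 3).and r3).or <|
    ((kk 4).and r4).or <| ((kk 10).and r0).or <| ((kk 11).and q1).or <| ((kk 12).and q3).or <|
    ((kk 13).and r3).or <| ((kk 20).and r0).or <| ((kk 50).and q4).or <| ((kk 51).and q5).or <|
    ((kk 52).and (cn.and r3)).or <| ((kk 53).and (cn.and r4)).or <| ((kk 60).and q4).or <|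
    ((kk 61).and ((PP.ne hr hs).and q5)).or ((kk 62).and (cn.and r3))

end pp

/-! ### the reduction -/

abbrev F3 := List (Lit ℕ × Lit ℕ × Lit ℕ)

/-- number of atoms -/
def mF (φ : F3) : ℕ := 6 * φ.length + 4
/-- a Sidon set -/
def tF (φ : F3) (a : ℕ) : ℕ := a + 2 * mF φ * (a * a)
/-- the largest element of the Sidon set -/
def sF (φ : F3) : ℕ := (6 * φ.length + 3) + 2 * mF φ * ((6 * φ.length + 3) * (6 * φ.length + 3))
/-- the distance of the levels -/
def EF (φ : F3) : ℕ := 8 * sF φ + 1
/-- the atom of a literal -/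
def atom (l : Lit ℕ) : ℕ := 2 * (l.2 + 1) + if l.1 = true then 1 else 0
/-- the atoms of a clause -/
def clF (c : Lit ℕ × Lit ℕ × Lit ℕ) : List ℕ := [atom c.1, atom c.2.1, atom c.2.2]
/-- the columns -/
def colsF (φ : F3) : List (List ℕ) := [] :: [6 * φ.length + 3] :: [0] :: φ.map clF

theorem sidon_aux {a b c d : ℕ} (h1 : a + b = c + d) (h2 : a * a + b * b = c * c + d * d) :
    (a = c ∧ b = d) ∨ (a = d ∧ b = c) := by
  have h1' : (a : ℤ) + b = c + d := by exact_mod_cast h1
  have h2' : (a : ℤ) * a + b * b = c * c + d * d := by exact_mod_cast h2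
  have hb : (b : ℤ) = c + d - a := by linarith
  have h3 : ((a : ℤ) - c) * (a - d) = 0 := by
    rw [hb] at h2'
    nlinarith
  rcases mul_eq_zero.1 h3 with h | h
  · left
    constructor <;> omega
  · right
    constructor <;> omega

theorem parF (φ : F3) : Par (mF φ) (sF φ) (tF φ) := by
  refine ⟨?_, ?_, ?_, ?_, ?_, ?_⟩
  · unfold mF; omega
  · exact ⟨3 * φ.length + 2, by unfold mF; ring⟩
  · unfold tF; simp
  · have e : mF φ - 1 = 6 * φ.length + 3 := by unfold mF; omega
    rw [e]
    rfl
  · intro a ha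
    unfold tF sF
    have h1 : a ≤ 6 * φ.length + 3 := by unfold mF at ha; omega
    have h2 : a * a ≤ (6 * φ.length + 3) * (6 * φ.length + 3) := Nat.mul_le_mul h1 h1
    have h3 := Nat.mul_le_mul_left (2 * mF φ) h2
    omega
  · intro a ha b hb c hc d hd h
    unfold tF at h
    set M := 2 * mF φ with hM
    have h' : (a + b) + M * (a * a + b * b) = (c + d) + M * (c * c + d * d) := by
      calc (a + b) + M * (a * a + b * b) = a + M * (a * a) + (b + M * (b * b)) := by ring
        _ = c + M * (c * c) + (d + M * (d * d)) := h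
        _ = (c + d) + M * (c * c + d * d) := by ring
    have h1 : a + b = c + d := by
      have := congrArg (fun z => z % M) h'
      simp only [Nat.add_mul_mod_self_left] at this
      rw [Nat.mod_eq_of_lt (by omega), Nat.mod_eq_of_lt (by omega)] at this
      exact this
    have h2 : a * a + b * b = c * c + d * d := by
      have h3 : M * (a * a + b * b) = M * (c * c + d * d) := by omega
      exact Nat.eq_of_mul_eq_mul_left (by omega) h3
    exact sidon_aux h1 h2

theorem atom_lt {φ : F3} (hb : Bounded3 φ) : ∀ cl ∈ colsF φ, ∀ x ∈ cl, x < mF φ := by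
  have key : ∀ l : Lit ℕ, l.2 < 3 * φ.length → atom l < mF φ := by
    intro l hl
    unfold atom mF
    split_ifs <;> omega
  intro cl hcl x hx
  unfold colsF at hcl
  simp only [List.mem_cons, List.mem_map] at hcl
  rcases hcl with rfl | rfl | rfl | ⟨c, hc, rfl⟩
  · simp at hx
  · simp only [List.mem_singleton] at hx
    subst hx
    unfold mF; omega
  · simp only [List.mem_singleton] at hx
    subst hx
    unfold mF; omega
  · obtain ⟨h1, h2, h3⟩ := hb c hc
    unfold clF at hx
    simp only [List.mem_cons, List.not_mem_nil, or_false] at hx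
    rcases hx with rfl | rfl | rfl
    · exact key _ h1
    · exact key _ h2
    · exact key _ h3

/-- the truth values of the atoms for an assignment -/
def SF (φ : F3) (τ : ℕ → Bool) (a : ℕ) : Prop :=
  if a / 2 = 0 then a % 2 = 0 else if a / 2 = 3 * φ.length + 1 then a % 2 = 1 else
    (a % 2 = 1 ↔ τ (a / 2 - 1) = true)

theorem SF_atom {φ : F3} {τ : ℕ → Bool} {l : Lit ℕ} (hl : l.2 < 3 * φ.length) :
    SF φ τ (atom l) ↔ τ l.2 = l.1 := by
  have e1 : atom l / 2 = l.2 + 1 := by unfold atom; split_ifs <;> omega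
  have e2 : atom l % 2 = if l.1 = true then 1 else 0 := by unfold atom; split_ifs <;> omega
  unfold SF
  rw [e1, e2, if_neg (by omega), if_neg (by omega), Nat.add_sub_cancel]
  cases h1 : l.1 <;> cases h2 : τ l.2 <;> simp

/-- the reduction -/
noncomputable def red (φ : F3) : List ℕ × List (List ℕ) :=
  (List.range ((colsF φ).length + 1), lang (mF φ) (sF φ) (tF φ) (EF φ) (colsF φ))

theorem red_iff {φ : F3} (hb : Bounded3 φ) : SAT3 φ ↔ FACT (red φ) := by
  have P := parF φ
  have hE : 8 * sF φ < EF φ := by unfold EF; omega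
  have hcols := atom_lt hb
  have h2 : 2 ≤ (colsF φ).length := by unfold colsF; simp
  have hm1 : mF φ - 1 = 6 * φ.length + 3 := by unfold mF; omega
  constructor
  · rintro ⟨τ, hτ⟩
    obtain ⟨L1, L2, hL, hn1, hn2⟩ := complete_word P hE hcols h2 (S := SF φ τ)
      (by unfold SF; simp) (by
        rw [hm1]
        unfold SF
        rw [if_neg (by omega), if_pos (by omega)]
        omega) (by
        intro i hi
        unfold SF
        have e1 : 2 * i / 2 = i := by omega
        have e2 : (2 * i + 1) / 2 = i := by omega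
        have e3 : 2 * i % 2 = 0 := by omega
        have e4 : (2 * i + 1) % 2 = 1 := by omega
        rw [e1, e2, e3, e4]
        split_ifs
        · simp
        · simp
        · simp) (by
        intro cl hcl hne
        unfold colsF at hcl
        simp only [List.mem_cons, List.mem_map] at hcl
        rcases hcl with rfl | rfl | rfl | ⟨c, hc, rfl⟩
        · exact (hne rfl).elim
        · refine ⟨6 * φ.length + 3, by simp, ?_⟩
          unfold SF
          rw [if_neg (by omega), if_pos (by omega)]
          omega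
        · refine ⟨0, by simp, ?_⟩
          unfold SF
          simp
        · obtain ⟨h1, h2, h3⟩ := hb c hc
          rcases hτ c hc with h | h | h
          · exact ⟨atom c.1, by simp [clF], (SF_atom h1).2 h⟩
          · exact ⟨atom c.2.1, by simp [clF], (SF_atom h2).2 h⟩
          · exact ⟨atom c.2.2, by simp [clF], (SF_atom h3).2 h⟩)
    have hlet : ∀ w ∈ lang (mF φ) (sF φ) (tF φ) (EF φ) (colsF φ), ∀ c ∈ w,
        c ∈ List.range ((colsF φ).length + 1) := by
      intro w hw c hc
      obtain ⟨v, hv, n, -, -, rfl⟩ := mem_lang.1 hw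
      unfold word at hc
      rw [List.mem_append, List.mem_replicate, List.mem_singleton] at hc
      rw [List.mem_range]
      omega
    have hs : word 0 0 ∈ lang (mF φ) (sF φ) (tF φ) (EF φ) (colsF φ) := by
      rw [word_mem_lang]
      refine ⟨by omega, by omega, ?_⟩
      rw [Nat.zero_div, Nat.zero_mod]
      exact inC_0.2 rfl
    obtain ⟨u0, hu0, y0, hy0, -⟩ := (hL _).1 hs
    refine ⟨?_, List.nodup_range, List.ne_nil_of_mem hs, lang_nodup, hlet, L1, L2, ?_, ?_, hL,
      hn1, hn2⟩
    · intro h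
      have := congrArg List.length h
      unfold red at this
      simp at this
    · intro u hu c hc
      exact hlet _ ((hL (u ++ y0)).2 ⟨u, hu, y0, hy0, rfl⟩) c (List.mem_append_left _ hc)
    · intro y hy c hc
      exact hlet _ ((hL (u0 ++ y)).2 ⟨u0, hu0, y, hy, rfl⟩) c (List.mem_append_right _ hc)
  · rintro ⟨-, -, -, -, -, L1, L2, -, -, hL, hn1, hn2⟩
    obtain ⟨S, hS, hsat⟩ := sound_word P hE hcols (by unfold colsF; simp)
      (by unfold colsF; simp [hm1]) h2 hL hn1 hn2
    classical
    refine ⟨fun x => decide (S (2 * (x + 1) + 1)), ?_⟩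
    have key : ∀ l : Lit ℕ, l.2 < 3 * φ.length → S (atom l) →
        decide (S (2 * (l.2 + 1) + 1)) = l.1 := by
      intro l hl h
      unfold atom at h
      have h3 := hS (l.2 + 1) (by unfold mF; omega)
      cases h1 : l.1
      · rw [h1] at h
        simp only [Bool.false_eq_true, if_false, Nat.add_zero] at h
        rw [decide_eq_false_iff_not]
        exact h3.1 h
      · rw [h1] at h
        simp only [if_true] at h
        rw [decide_eq_true_eq]
        exact h
    intro c hc
    obtain ⟨x, hx, h⟩ := hsat (clF c) (by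
      unfold colsF
      simp only [List.mem_cons, List.mem_map]
      exact Or.inr (Or.inr (Or.inr ⟨c, hc, rfl⟩))) (by simp [clF])
    obtain ⟨h1, h2, h3⟩ := hb c hc
    unfold clF at hx
    simp only [List.mem_cons, List.not_mem_nil, or_false] at hx
    rcases hx with rfl | rfl | rfl
    · exact Or.inl (key _ h1 h)
    · exact Or.inr (Or.inl (key _ h2 h))
    · exact Or.inr (Or.inr (key _ h3 h))

/-! ### polynomial time -/

theorem upoly_len : UPoly (fun φ : F3 => φ.length) := UPoly.length Poly.id

theorem upoly_mF : UPoly mF := by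
  unfold mF
  exact UPoly.add (UPoly.mul (UPoly.const 6) upoly_len) (UPoly.const 4)

theorem upoly_sF : UPoly sF := by
  unfold sF
  have h : UPoly (fun φ : F3 => 6 * φ.length + 3) :=
    UPoly.add (UPoly.mul (UPoly.const 6) upoly_len) (UPoly.const 3)
  exact UPoly.add h (UPoly.mul (UPoly.mul (UPoly.const 2) upoly_mF) (UPoly.mul h h))

theorem upoly_EF : UPoly EF := by
  unfold EF
  exact UPoly.add (UPoly.mul (UPoly.const 8) upoly_sF) (UPoly.const 1)

theorem poly_colsF : Poly colsF := by
  unfold colsF clF atom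
  refine Poly.cons (Poly.const []) (Poly.cons (by fun_prop) (Poly.cons (Poly.const [0]) ?_))
  refine Poly.map Poly.id (F := fun (_ : F3) c => [2 * (c.1.2 + 1) + if c.1.1 = true then 1 else 0,
    2 * (c.2.1.2 + 1) + if c.2.1.1 = true then 1 else 0,
    2 * (c.2.2.2 + 1) + if c.2.2.1 = true then 1 else 0]) ?_
  fun_prop

theorem poly_red : Poly red := by
  have hc := poly_colsF
  have hcu : UPoly (fun φ => (colsF φ).length) := UPoly.length hc
  unfold red lang colL
  refine Poly.pair (UPoly.add hcu (UPoly.const 1)).range ?_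
  have hE : Poly (fun x : (F3 × ℕ) × ℕ => EF x.1.1) :=
    upoly_EF.toPoly.comp (Poly.fst (Poly.fst Poly.id))
  have hm2 : Poly (fun x : ((F3 × ℕ) × ℕ) × ℕ => mF x.1.1.1) :=
    upoly_mF.toPoly.comp (Poly.fst (Poly.fst (Poly.fst Poly.id)))
  have hC : PP (fun x : (F3 × ℕ) × ℕ => InC (mF x.1.1) (sF x.1.1) (tF x.1.1)
      ((colsF x.1.1).getD x.1.2 []) (x.2 / EF x.1.1) (x.2 % EF x.1.1)) := by
    refine pp_InC (m := fun x : (F3 × ℕ) × ℕ => mF x.1.1) (s := fun x => sF x.1.1)
      (t := fun x => tF x.1.1) (cl := fun x => (colsF x.1.1).getD x.1.2 [])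
      (k := fun x => x.2 / EF x.1.1) (r := fun x => x.2 % EF x.1.1)
      (upoly_mF.comp (Poly.fst (Poly.fst Poly.id)))
      (upoly_sF.toPoly.comp (Poly.fst (Poly.fst Poly.id))) ?_ ?_ ?_ ?_
    · unfold tF
      fun_prop
    · exact Poly.getD (hc.comp (Poly.fst (Poly.fst Poly.id))) (Poly.snd (Poly.fst Poly.id))
        (Poly.const [])
    · exact Poly.div (Poly.snd Poly.id) hE
    · exact Poly.mod (Poly.snd Poly.id) hE
  have hcol : Poly (fun x : F3 × ℕ => (List.range (63 * EF x.1)).filter
      (fun n => @decide (InC (mF x.1) (sF x.1) (tF x.1) ((colsF x.1).getD x.2 []) (n / EF x.1)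
        (n % EF x.1)) (Classical.propDecidable _))) := by
    refine PP.filter (r := fun (x : F3 × ℕ) n => InC (mF x.1) (sF x.1) (tF x.1)
      ((colsF x.1).getD x.2 []) (n / EF x.1) (n % EF x.1))
      (inst := fun _ _ => Classical.propDecidable _) ?_ hC
    exact (UPoly.mul (UPoly.const 63) (upoly_EF.comp (Poly.fst Poly.id))).range
  refine Poly.flatMap hcu.range (F := fun (φ : F3) v => ((List.range (63 * EF φ)).filter
      (fun n => @decide (InC (mF φ) (sF φ) (tF φ) ((colsF φ).getD v []) (n / EF φ)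
        (n % EF φ)) (Classical.propDecidable _))).map (fun n => word n v)) ?_
  -- the words
  have hw : Poly (fun x : (F3 × ℕ) × ℕ => ((List.range (63 * EF x.1.1)).filter
      (fun i => decide (i < x.2))).map (fun _ => 0) ++ [x.1.2 + 1]) := by
    have h1 : Poly (fun x : (F3 × ℕ) × ℕ => List.range (63 * EF x.1.1)) :=
      (UPoly.mul (UPoly.const 63) (upoly_EF.comp (Poly.fst (Poly.fst Poly.id)))).range
    have h2 : Poly (fun x : (F3 × ℕ) × ℕ => (List.range (63 * EF x.1.1)).filter
      (fun i => decide (i < x.2))) :=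
      Poly.filter (p := fun (x : (F3 × ℕ) × ℕ) i => decide (i < x.2)) h1 (by fun_prop)
    exact Poly.append (Poly.map (F := fun (_ : (F3 × ℕ) × ℕ) _ => 0) h2 (Poly.const 0))
      (by fun_prop)
  refine (Poly.map (F := fun (x : F3 × ℕ) n => ((List.range (63 * EF x.1)).filter
      (fun i => decide (i < n))).map (fun _ => 0) ++ [x.2 + 1]) hcol hw).congr ?_
  intro x
  refine List.map_congr_left fun n hn => ?_
  have hn' : n < 63 * EF x.1 := List.mem_range.1 (List.mem_filter.1 hn).1
  have this : (List.range (63 * EF x.1)).filter (fun i => decide (i < n)) = List.range n := by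
    have e : 63 * EF x.1 = n + (63 * EF x.1 - n) := by omega
    rw [e, List.range_add, List.filter_append]
    rw [List.filter_eq_self.2 (by intro i hi; simpa using hi), List.filter_eq_nil_iff.2 (by
      intro i hi
      simp only [List.mem_map, List.mem_range] at hi
      obtain ⟨j, -, rfl⟩ := hi
      simp)]
    simp
  have e2 : ((List.range (63 * EF x.1)).filter (fun i => decide (i < n))).map (fun _ => 0) =
      List.replicate n 0 := by
    rw [this, List.map_const', List.length_range]
  unfold word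
  rw [e2]

theorem hardPr_FACT : HardPr (fun _ => True) FACT := by
  refine hardPr_SAT3b.trans poly_red (fun _ _ => trivial) ?_
  rintro φ ⟨-, hb, -⟩
  exact red_iff hb

theorem npHard_FACT : NPHardP FACT := hardPr_FACT.toHardI.toNPHardP

end Pool.Agent.NPC.V11230.Fact
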