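import Pool.Agent.V11230.FactCore

/-!
# Factorization of finite languages: from pairs to words
-/

set_option autoImplicit false

namespace Pool.Agent.NPC.V11230.Fact

/-- `L` is the product of `L1` and `L2`. -/
def IsProduct (L : List (List ℕ)) (L1 L2 : Finset (List ℕ)) : Prop :=
  ∀ w, w ∈ L ↔ ∃ u ∈ L1, ∃ v ∈ L2, u ++ v = w

/-- FACT: the first component is the alphabet `X` and the second one is the list of the words of a
finite nonempty language `L` over `X`; there are finite sets `L1`, `L2` of words over `X`, both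
different from `{ε}`, with `L = L1 L2`. -/
def FACT (I : List ℕ × List (List ℕ)) : Prop :=
  I.1 ≠ [] ∧ I.1.Nodup ∧ I.2 ≠ [] ∧ I.2.Nodup ∧ (∀ w ∈ I.2, ∀ c ∈ w, c ∈ I.1) ∧
  ∃ L1 L2 : Finset (List ℕ), (∀ w ∈ L1, ∀ c ∈ w, c ∈ I.1) ∧ (∀ w ∈ L2, ∀ c ∈ w, c ∈ I.1) ∧
    IsProduct I.2 L1 L2 ∧ L1 ≠ {[]} ∧ L2 ≠ {[]}

/-- the word `a ^ n s_v` -/
def word (n v : ℕ) : List ℕ := List.replicate n 0 ++ [v + 1]

theorem word_inj {n v n' v' : ℕ} (h : word n v = word n' v') : n = n' ∧ v = v' := by
  have h1 := congrArg List.length h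
  simp only [word, List.length_append, List.length_replicate, List.length_cons,
    List.length_nil] at h1
  have h2 := congrArg List.getLast? h
  simp only [word, List.getLast?_append, List.getLast?_singleton, Option.some_or,
    Option.some.injEq] at h2
  omega

theorem word_add (a b v : ℕ) : List.replicate a 0 ++ word b v = word (a + b) v := by
  unfold word
  rw [List.replicate_add, List.append_assoc]

open Classical in
/-- the numbers of the column `cl` -/
noncomputable def colL (m s : ℕ) (t : ℕ → ℕ) (E : ℕ) (cl : List ℕ) : List ℕ :=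
  (List.range (63 * E)).filter (fun n => decide (InC m s t cl (n / E) (n % E)))

/-- the language of the columns `cols` -/
noncomputable def lang (m s : ℕ) (t : ℕ → ℕ) (E : ℕ) (cols : List (List ℕ)) : List (List ℕ) :=
  (List.range cols.length).flatMap (fun v => (colL m s t E (cols.getD v [])).map
    (fun n => word n v))

variable {m s E : ℕ} {t : ℕ → ℕ} {cols : List (List ℕ)}

theorem mem_lang {w : List ℕ} : w ∈ lang m s t E cols ↔ ∃ v < cols.length, ∃ n < 63 * E,
    InC m s t (cols.getD v []) (n / E) (n % E) ∧ w = word n v := by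
  simp only [lang, colL, List.mem_flatMap, List.mem_range, List.mem_map, List.mem_filter,
    decide_eq_true_eq]
  constructor
  · rintro ⟨v, hv, n, ⟨h1, h2⟩, rfl⟩
    exact ⟨v, hv, n, h1, h2, rfl⟩
  · rintro ⟨v, hv, n, h1, h2, rfl⟩
    exact ⟨v, hv, n, ⟨h1, h2⟩, rfl⟩

theorem word_mem_lang {n v : ℕ} : word n v ∈ lang m s t E cols ↔ v < cols.length ∧ n < 63 * E ∧
    InC m s t (cols.getD v []) (n / E) (n % E) := by
  rw [mem_lang]
  constructor
  · rintro ⟨v', hv', n', hn', h, e⟩
    obtain ⟨rfl, rfl⟩ := word_inj e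
    exact ⟨hv', hn', h⟩
  · rintro ⟨hv, hn, h⟩
    exact ⟨v, hv, n, hn, h, rfl⟩

theorem lang_nodup : (lang m s t E cols).Nodup := by
  unfold lang
  rw [List.nodup_flatMap]
  refine ⟨fun v _ => ?_, ?_⟩
  · exact ((List.nodup_range.filter _).map (fun a b h => (word_inj h).1))
  · refine List.nodup_range.imp ?_
    intro a b hab
    simp only [Function.onFun, List.disjoint_left, List.mem_map]
    rintro w ⟨n, _, rfl⟩ ⟨n', _, h⟩
    exact hab (word_inj h).2.symm

theorem divmod {k r : ℕ} (h : r < E) : (k * E + r) / E = k ∧ (k * E + r) % E = r := by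
  have hE : 0 < E := by omega
  constructor
  · rw [Nat.add_comm, Nat.add_mul_div_right _ _ hE, Nat.div_eq_of_lt h, zero_add]
  · rw [Nat.add_comm, Nat.add_mul_mod_self_right, Nat.mod_eq_of_lt h]

theorem divmod_add {a b : ℕ} (h : a % E + b % E < E) : (a + b) / E = a / E + b / E ∧
    (a + b) % E = a % E + b % E := by
  have e : a + b = (a / E + b / E) * E + (a % E + b % E) := by
    have h1 := Nat.div_add_mod a E
    have h2 := Nat.div_add_mod b E
    calc a + b = (E * (a / E) + a % E) + (E * (b / E) + b % E) := by rw [h1, h2]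
      _ = (a / E + b / E) * E + (a % E + b % E) := by ring
  have h3 := divmod (E := E) (k := a / E + b / E) (r := a % E + b % E) h
  rw [← e] at h3
  exact h3

/-! ### from a factorization of the language to the pairs -/

section sound

variable {L1 L2 : Finset (List ℕ)}

theorem zero_getElem_word {n v i : ℕ} (h : i < n) : (word n v)[i]? = some 0 := by
  unfold word
  rw [List.getElem?_append_left (by simpa using h)]
  simp [h]

theorem last_getElem_word {n v : ℕ} : (word n v)[n]? = some (v + 1) := by
  unfold word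
  rw [List.getElem?_append_right (by simp)]
  simp

theorem word_length {n v : ℕ} : (word n v).length = n + 1 := by simp [word]

/-- A proper prefix of a word of the language is a power of the letter `0`. -/
theorem prefix_word {u y : List ℕ} {n v : ℕ} (hy : y ≠ []) (h : u ++ y = word n v) :
    u = List.replicate u.length 0 ∧ u.length ≤ n ∧ y = word (n - u.length) v := by
  have hl := congrArg List.length h
  rw [List.length_append, word_length] at hl
  have hy' := List.length_pos_iff.2 hy
  have h1 : u = List.replicate u.length 0 := by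
    apply List.ext_getElem?
    intro i
    by_cases hi : i < u.length
    · have h2 : (u ++ y)[i]? = u[i]? := List.getElem?_append_left hi
      rw [← h2, h, zero_getElem_word (by omega)]
      simp [hi]
    · rw [List.getElem?_eq_none (by omega), List.getElem?_eq_none (by simp; omega)]
  refine ⟨h1, by omega, ?_⟩
  have h3 : u ++ y = List.replicate u.length 0 ++ word (n - u.length) v := by
    rw [h, word_add]
    congr 1
    omega
  rw [← h1] at h3
  exact List.append_cancel_left h3

theorem sound_word (P : Par m s t) (hE : 8 * s < E) (hcols : ∀ cl ∈ cols, ∀ x ∈ cl, x < m)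
    (h0 : cols.getD 0 [] = []) (h1 : cols.getD 1 [] = [m - 1]) (h2 : 2 ≤ cols.length)
    (hL : IsProduct (lang m s t E cols) L1 L2) (hn1 : L1 ≠ {[]}) (hn2 : L2 ≠ {[]}) :
    ∃ S : ℕ → Prop, (∀ i, 2 * i + 1 < m → (S (2 * i) ↔ ¬ S (2 * i + 1))) ∧
      ∀ cl ∈ cols, cl ≠ [] → ∃ x ∈ cl, S x := by
  have hE0 : 0 < E := by omega
  have hmem : ∀ v, ∀ x ∈ cols.getD v [], x < m := by
    intro v x hx
    by_cases hv : v < cols.length
    · rw [List.getD_eq_getElem _ _ hv] at hx
      exact hcols _ (List.getElem_mem _) x hx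
    · rw [List.getD_eq_default _ _ (by omega)] at hx
      simp at hx
  -- the word `s_v`
  have hs : ∀ v < cols.length, word 0 v ∈ lang m s t E cols := by
    intro v hv
    rw [word_mem_lang]
    refine ⟨hv, by omega, ?_⟩
    rw [Nat.zero_div, Nat.zero_mod]
    exact inC_0.2 rfl
  obtain ⟨u0, hu0, y0, hy0, -⟩ := (hL _).1 (hs 0 (by omega))
  -- the empty word is not in the second factor
  have hne : ∀ y ∈ L2, y ≠ [] := by
    intro y hy hy'
    subst hy'
    apply hn2
    refine Finset.Subset.antisymm ?_ (Finset.singleton_subset_iff.2 hy)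
    intro z hz
    rw [Finset.mem_singleton]
    by_contra hz'
    obtain ⟨v, -, n, -, -, e⟩ := mem_lang.1 ((hL (u0 ++ [])).2 ⟨u0, hu0, [], hy, rfl⟩)
    obtain ⟨v', -, n', -, -, e'⟩ := mem_lang.1 ((hL (u0 ++ z)).2 ⟨u0, hu0, z, hz, rfl⟩)
    rw [List.append_nil] at e
    have h3 := (prefix_word hz' e').1
    have h4 : u0[n]? = some (v + 1) := by rw [e]; exact last_getElem_word
    rw [h3] at h4
    have h5 : n < u0.length := by rw [e, word_length]; omega
    simp [h5] at h4
  -- the words of the factors
  have hu : ∀ u ∈ L1, u = List.replicate u.length 0 := by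
    intro u hu
    obtain ⟨v, -, n, -, -, e⟩ := mem_lang.1 ((hL (u ++ y0)).2 ⟨u, hu, y0, hy0, rfl⟩)
    exact (prefix_word (hne y0 hy0) e).1
  set A : ℕ → ℕ → Prop := fun k r => List.replicate (k * E + r) 0 ∈ L1 ∧ r < E with hA
  set B : ℕ → ℕ → ℕ → Prop := fun v k r => word (k * E + r) v ∈ L2 ∧ r < E with hB
  -- the empty word is in the first factor
  have hz : ∀ v < cols.length, [] ∈ L1 ∧ word 0 v ∈ L2 := by
    intro v hv
    obtain ⟨u, hu1, y, hy1, e⟩ := (hL _).1 (hs v hv)
    obtain ⟨e1, e2, e3⟩ := prefix_word (hne y hy1) e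
    have : u = [] := List.eq_nil_of_length_eq_zero (by omega)
    subst this
    refine ⟨hu1, ?_⟩
    rw [List.nil_append] at e
    rw [← e]
    exact hy1
  have hInA : ∀ n, List.replicate n 0 ∈ L1 → ∀ v < cols.length,
      InC m s t (cols.getD v []) (n / E) (n % E) := by
    intro n hn v hv
    have h3 : List.replicate n 0 ++ word 0 v ∈ lang m s t E cols :=
      (hL _).2 ⟨_, hn, _, (hz v hv).2, rfl⟩
    rw [word_add, Nat.add_zero, word_mem_lang] at h3
    exact h3.2.2
  have hInB : ∀ n v, word n v ∈ L2 → v < cols.length ∧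
      InC m s t (cols.getD v []) (n / E) (n % E) := by
    intro n v hn
    have h3 : [] ++ word n v ∈ lang m s t E cols :=
      (hL _).2 ⟨_, (hz 0 (by omega)).1, _, hn, rfl⟩
    rw [List.nil_append, word_mem_lang] at h3
    exact ⟨h3.1, h3.2.2⟩
  have hF : ∀ v < cols.length, PFac m s t A (B v) (cols.getD v []) := by
    intro v hv
    constructor
    · rintro k r k' r' ⟨hu1, hr⟩ ⟨hy1, hr'⟩
      have i1 := hInA _ hu1 v hv
      have i2 := (hInB _ _ hy1).2
      rw [(divmod hr).1, (divmod hr).2] at i1
      rw [(divmod hr').1, (divmod hr').2] at i2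
      have o1 := inC_off P (hmem v) i1
      have o2 := inC_off P (hmem v) i2
      have h3 : List.replicate (k * E + r) 0 ++ word (k' * E + r') v ∈ lang m s t E cols :=
        (hL _).2 ⟨_, hu1, _, hy1, rfl⟩
      rw [word_add, word_mem_lang] at h3
      have h4 := h3.2.2
      have e : k * E + r + (k' * E + r') = (k + k') * E + (r + r') := by ring
      rw [e, (divmod (by omega)).1, (divmod (by omega)).2] at h4
      exact h4
    · intro k r hkr
      have o1 := inC_off P (hmem v) hkr
      have hk : k ≤ 62 := by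
        have := inC_lev hkr; omega
      have hr : r < E := by omega
      have h3 : word (k * E + r) v ∈ lang m s t E cols := by
        rw [word_mem_lang, (divmod hr).1, (divmod hr).2]
        refine ⟨hv, ?_, hkr⟩
        have : k * E ≤ 62 * E := Nat.mul_le_mul_right _ hk
        omega
      obtain ⟨u, hu1, y, hy1, e⟩ := (hL _).1 h3
      obtain ⟨e1, e2, e3⟩ := prefix_word (hne y hy1) e
      rw [e1] at hu1
      rw [e3] at hy1
      set a := u.length with ha
      set b := k * E + r - a with hb
      have i1 := hInA _ hu1 v hv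
      have i2 := (hInB _ _ hy1).2
      have o1 := inC_off P (hmem v) i1
      have o2 := inC_off P (hmem v) i2
      have hab : a + b = k * E + r := by omega
      have h4 := divmod_add (E := E) (a := a) (b := b) (by omega)
      rw [hab, (divmod hr).1, (divmod hr).2] at h4
      refine ⟨a / E, a % E, b / E, b % E, ⟨?_, Nat.mod_lt _ hE0⟩, ⟨?_, Nat.mod_lt _ hE0⟩,
        h4.1.symm, h4.2.symm⟩
      · rw [Nat.div_add_mod']; exact hu1
      · rw [Nat.div_add_mod']; exact hy1
  have F0 := hF 0 (by omega)
  have F1 := hF 1 (by omega)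
  rw [h0] at F0
  rw [h1] at F1
  have hA' : ∃ k r, A k r ∧ ¬ (k = 0 ∧ r = 0) := by
    by_contra hcon
    push Not at hcon
    apply hn1
    refine Finset.Subset.antisymm ?_ (Finset.singleton_subset_iff.2 (hz 0 (by omega)).1)
    intro u hu1
    rw [Finset.mem_singleton]
    have h3 := hu u hu1
    have h4 : A (u.length / E) (u.length % E) :=
      ⟨by rw [Nat.div_add_mod', ← h3]; exact hu1, Nat.mod_lt _ hE0⟩
    have h5 := hcon _ _ h4
    have h6 := Nat.div_add_mod u.length E
    rw [h5.1, h5.2, Nat.mul_zero, Nat.zero_add] at h6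
    exact List.eq_nil_of_length_eq_zero h6.symm
  refine ⟨fun a => A 1 (t a), fun i hi => compl_iff P F0 F1 hA' hi, ?_⟩
  intro cl hcl hne'
  obtain ⟨v, hv, rfl⟩ := List.getElem_of_mem hcl
  have F := hF v hv
  rw [List.getD_eq_getElem _ _ hv] at F
  exact clause_sat P F0 F1 hA' F (hcols _ hcl) hne'

end sound

/-! ### from an assignment to a factorization -/

open Classical in
theorem complete_word (P : Par m s t) (hE : 8 * s < E) (hcols : ∀ cl ∈ cols, ∀ x ∈ cl, x < m)
    (h2 : 2 ≤ cols.length) {S : ℕ → Prop} (hS0 : S 0) (hSl : S (m - 1))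
    (hS : ∀ i, 2 * i + 1 < m → (S (2 * i) ↔ ¬ S (2 * i + 1)))
    (hsat : ∀ cl ∈ cols, cl ≠ [] → ∃ x ∈ cl, S x) :
    ∃ L1 L2 : Finset (List ℕ), IsProduct (lang m s t E cols) L1 L2 ∧ L1 ≠ {[]} ∧ L2 ≠ {[]} := by
  have hE0 : 0 < E := by omega
  have hmem : ∀ v, ∀ x ∈ cols.getD v [], x < m := by
    intro v x hx
    by_cases hv : v < cols.length
    · rw [List.getD_eq_getElem _ _ hv] at hx
      exact hcols _ (List.getElem_mem _) x hx
    · rw [List.getD_eq_default _ _ (by omega)] at hx
      simp at hx
  have hF : ∀ v < cols.length, PFac m s t (InA m t S) (InB m s t S (cols.getD v []))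
      (cols.getD v []) := by
    intro v hv
    refine complete P hS0 hSl hS (hmem v) ?_
    rw [List.getD_eq_getElem _ _ hv]
    exact hsat _ (List.getElem_mem _)
  set L1 : Finset (List ℕ) := ((Finset.range (63 * E)).filter
    (fun n => InA m t S (n / E) (n % E))).image (fun n => List.replicate n 0) with hL1
  set L2 : Finset (List ℕ) := (Finset.range cols.length).biUnion (fun v =>
    ((Finset.range (63 * E)).filter
    (fun n => InB m s t S (cols.getD v []) (n / E) (n % E))).image (fun n => word n v)) with hL2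
  have m1 : ∀ u, u ∈ L1 ↔ ∃ n < 63 * E, InA m t S (n / E) (n % E) ∧ u = List.replicate n 0 := by
    intro u
    simp only [hL1, Finset.mem_image, Finset.mem_filter, Finset.mem_range]
    constructor
    · rintro ⟨n, ⟨h1, h2⟩, rfl⟩; exact ⟨n, h1, h2, rfl⟩
    · rintro ⟨n, h1, h2, rfl⟩; exact ⟨n, ⟨h1, h2⟩, rfl⟩
  have m2 : ∀ y, y ∈ L2 ↔ ∃ v < cols.length, ∃ n < 63 * E,
      InB m s t S (cols.getD v []) (n / E) (n % E) ∧ y = word n v := by
    intro y
    simp only [hL2, Finset.mem_biUnion, Finset.mem_image, Finset.mem_filter, Finset.mem_range]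
    constructor
    · rintro ⟨v, hv, n, ⟨h1, h2⟩, rfl⟩; exact ⟨v, hv, n, h1, h2, rfl⟩
    · rintro ⟨v, hv, n, h1, h2, rfl⟩; exact ⟨v, hv, n, ⟨h1, h2⟩, rfl⟩
  have bd : ∀ k r, k ≤ 62 → r < E → k * E + r < 63 * E := by
    intro k r hk hr
    have : k * E ≤ 62 * E := Nat.mul_le_mul_right _ hk
    omega
  refine ⟨L1, L2, ?_, ?_, ?_⟩
  · intro w
    constructor
    · intro hw
      obtain ⟨v, hv, n, hn, hC, rfl⟩ := mem_lang.1 hw
      obtain ⟨ka, ra, kb, rb, hA, hB, e1, e2⟩ := (hF v hv).dec _ _ hC
      have i1 := (hF v hv).hA hA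
      have i2 := (hF v hv).hB hB
      have o1 := inC_off P (hmem v) i1
      have o2 := inC_off P (hmem v) i2
      have l1 := inC_lev i1
      have l2 := inC_lev i2
      refine ⟨_, (m1 _).2 ⟨ka * E + ra, bd _ _ (by omega) (by omega), ?_, rfl⟩, _,
        (m2 _).2 ⟨v, hv, kb * E + rb, bd _ _ (by omega) (by omega), ?_, rfl⟩, ?_⟩
      · rw [(divmod (by omega)).1, (divmod (by omega)).2]; exact hA
      · rw [(divmod (by omega)).1, (divmod (by omega)).2]; exact hB
      · rw [word_add]
        congr 1
        have h3 := Nat.div_add_mod' n E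
        rw [← e1, ← e2] at h3
        calc ka * E + ra + (kb * E + rb) = (ka + kb) * E + (ra + rb) := by ring
          _ = n := h3
    · rintro ⟨u, hu, y, hy, rfl⟩
      obtain ⟨a, ha, hA, rfl⟩ := (m1 _).1 hu
      obtain ⟨v, hv, b, hb, hB, rfl⟩ := (m2 _).1 hy
      have i1 := (hF v hv).hA hA
      have i2 := (hF v hv).hB hB
      have o1 := inC_off P (hmem v) i1
      have o2 := inC_off P (hmem v) i2
      have h3 := divmod_add (E := E) (a := a) (b := b) (by omega)
      have h4 := (hF v hv).sum _ _ _ _ hA hB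
      rw [← h3.1, ← h3.2] at h4
      rw [word_add, word_mem_lang]
      refine ⟨hv, ?_, h4⟩
      have l1 := inC_lev h4
      have h5 := Nat.div_add_mod' (a + b) E
      have h6 : (a + b) / E * E ≤ 62 * E := Nat.mul_le_mul_right _ (by omega)
      have h7 := Nat.mod_lt (a + b) hE0
      omega
  · intro h
    have h3 : List.replicate (10 * E) 0 ∈ L1 := (m1 _).2 ⟨10 * E, by omega, by
      have := divmod (E := E) (k := 10) (r := 0) hE0
      rw [Nat.add_zero] at this
      rw [this.1, this.2]
      exact Or.inr (Or.inr ⟨rfl, rfl⟩), rfl⟩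
    rw [h, Finset.mem_singleton] at h3
    have := congrArg List.length h3
    simp at this
    omega
  · intro h
    have h3 : word 0 0 ∈ L2 := (m2 _).2 ⟨0, by omega, 0, by omega, by
      rw [Nat.zero_div, Nat.zero_mod]
      exact Or.inl ⟨rfl, rfl⟩, rfl⟩
    rw [h, Finset.mem_singleton] at h3
    have := congrArg List.length h3
    simp [word] at this

end Pool.Agent.NPC.V11230.Fact
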