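import Mathlib

/-!
# Budgeted overlapping edge-coloured clustering: local ratio for conflicts
-/

set_option autoImplicit false

namespace Pool.Agent.V11230.GB

open Finset

/-! ### Local ratio for hitting sets of quadruples -/

/-- a set of at most four elements -/
abbrev Quad : Type := ℕ × ℕ × ℕ × ℕ

/-- membership -/
def inK (x : ℕ) (K : Quad) : Bool :=
  (decide (x = K.1) || decide (x = K.2.1)) || (decide (x = K.2.2.1) || decide (x = K.2.2.2))

theorem inK_iff {x : ℕ} {K : Quad} :
    inK x K = true ↔ (x = K.1 ∨ x = K.2.1) ∨ (x = K.2.2.1 ∨ x = K.2.2.2) := by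
  unfold inK
  simp only [Bool.or_eq_true, decide_eq_true_eq]

/-- the smallest weight of an element -/
def mn (W : List ℕ) (K : Quad) : ℕ :=
  min (min (W.getD K.1 0) (W.getD K.2.1 0)) (min (W.getD K.2.2.1 0) (W.getD K.2.2.2 0))

theorem mn_le {W : List ℕ} {K : Quad} {x : ℕ} (h : inK x K = true) : mn W K ≤ W.getD x 0 := by
  rw [inK_iff] at h
  unfold mn
  rcases h with (rfl | rfl) | (rfl | rfl) <;> omega

theorem mn_eq (W : List ℕ) (K : Quad) : ∃ x, inK x K = true ∧ W.getD x 0 = mn W K := by
  have h : mn W K = W.getD K.1 0 ∨ mn W K = W.getD K.2.1 0 ∨ mn W K = W.getD K.2.2.1 0 ∨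
      mn W K = W.getD K.2.2.2 0 := by
    unfold mn
    omega
  rcases h with h | h | h | h
  · exact ⟨_, inK_iff.2 (Or.inl (Or.inl rfl)), h.symm⟩
  · exact ⟨_, inK_iff.2 (Or.inl (Or.inr rfl)), h.symm⟩
  · exact ⟨_, inK_iff.2 (Or.inr (Or.inl rfl)), h.symm⟩
  · exact ⟨_, inK_iff.2 (Or.inr (Or.inr rfl)), h.symm⟩

/-- one step: the weights of the elements of `K` are decreased -/
def stp (W : List ℕ) (K : Quad) : List ℕ :=
  (List.range W.length).map (fun x => if inK x K = true then W.getD x 0 - mn W K else W.getD x 0)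

theorem getD_stp (W : List ℕ) (K : Quad) (x : ℕ) : (stp W K).getD x 0 =
    if inK x K = true then W.getD x 0 - mn W K else W.getD x 0 := by
  unfold stp
  by_cases h : x < W.length
  · rw [List.getD_eq_getElem _ _ (by simpa using h)]
    simp
  · rw [List.getD_eq_default _ _ (by simpa using h), List.getD_eq_default _ _ (by omega)]
    split_ifs <;> simp

theorem length_stp (W : List ℕ) (K : Quad) : (stp W K).length = W.length := by
  unfold stp
  simp

/-- all steps -/
def fin (W : List ℕ) (Ks : List Quad) : List ℕ := Ks.foldl stp W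

theorem length_fin (Ks : List Quad) : ∀ W : List ℕ, (fin W Ks).length = W.length := by
  induction Ks with
  | nil => exact fun _ => rfl
  | cons K Ks ih =>
    intro W
    change (fin (stp W K) Ks).length = W.length
    rw [ih, length_stp]

theorem fin_le (Ks : List Quad) : ∀ (W : List ℕ) (x : ℕ), (fin W Ks).getD x 0 ≤ W.getD x 0 := by
  induction Ks with
  | nil => exact fun _ _ => le_rfl
  | cons K Ks ih =>
    intro W x
    refine (ih (stp W K) x).trans ?_
    rw [getD_stp]
    split_ifs <;> omega

/-- the elements of weight 0 form a hitting set -/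
theorem fin_hits (Ks : List Quad) : ∀ (W : List ℕ), ∀ K ∈ Ks,
    ∃ x, inK x K = true ∧ (fin W Ks).getD x 0 = 0 := by
  induction Ks with
  | nil => exact fun _ _ h => absurd h List.not_mem_nil
  | cons K Ks ih =>
    intro W K' hK'
    rw [List.mem_cons] at hK'
    rcases hK' with rfl | hK'
    · obtain ⟨x, hx, h⟩ := mn_eq W K'
      refine ⟨x, hx, ?_⟩
      have h1 := fin_le Ks (stp W K') x
      rw [getD_stp, if_pos hx, h, Nat.sub_self] at h1
      exact Nat.le_zero.1 h1
    · exact ih (stp W K) K' hK'

theorem card_inK (X : Finset ℕ) (K : Quad) : (X.filter (fun x => inK x K = true)).card ≤ 4 := by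
  calc (X.filter (fun x => inK x K = true)).card
      ≤ ({K.1, K.2.1, K.2.2.1, K.2.2.2} : Finset ℕ).card := by
        refine card_le_card fun x hx => ?_
        rw [mem_filter, inK_iff] at hx
        simp only [mem_insert, mem_singleton]
        tauto
    _ ≤ 4 := by
        refine (card_insert_le _ _).trans ?_
        have h1 := card_insert_le K.2.1 ({K.2.2.1, K.2.2.2} : Finset ℕ)
        have h2 := card_le_two (a := K.2.2.1) (b := K.2.2.2)
        omega

/-- **Local ratio.** -/
theorem fin_cost (Ks : List Quad) : ∀ (W : List ℕ) (X H : Finset ℕ),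
    (∀ K ∈ Ks, ∃ x ∈ H, inK x K = true) →
      ∑ x ∈ X, W.getD x 0 ≤ ∑ x ∈ X, (fin W Ks).getD x 0 + 4 * ∑ x ∈ H, W.getD x 0 := by
  induction Ks with
  | nil => exact fun W X H _ => Nat.le_add_right _ _
  | cons K Ks ih =>
    intro W X H hH
    have h1 := ih (stp W K) X H (fun K' h => hH K' (List.mem_cons_of_mem _ h))
    change ∑ x ∈ X, W.getD x 0 ≤ ∑ x ∈ X, (fin (stp W K) Ks).getD x 0 +
      4 * ∑ x ∈ H, W.getD x 0
    have h2 : ∑ x ∈ X, W.getD x 0 ≤ ∑ x ∈ X, (stp W K).getD x 0 + 4 * mn W K := by
      calc ∑ x ∈ X, W.getD x 0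
          ≤ ∑ x ∈ X, ((stp W K).getD x 0 + (if inK x K = true then mn W K else 0)) := by
            refine sum_le_sum fun x _ => ?_
            rw [getD_stp]
            split_ifs <;> omega
        _ = ∑ x ∈ X, (stp W K).getD x 0 +
            (X.filter (fun x => inK x K = true)).card * mn W K := by
            rw [sum_add_distrib, ← sum_filter, sum_const, smul_eq_mul]
        _ ≤ _ := Nat.add_le_add_left (Nat.mul_le_mul_right _ (card_inK X K)) _
    have h3 : ∑ x ∈ H, (stp W K).getD x 0 + mn W K ≤ ∑ x ∈ H, W.getD x 0 := by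
      obtain ⟨y, hy, hyK⟩ := hH K List.mem_cons_self
      rw [← sum_erase_add _ _ hy, ← sum_erase_add _ _ hy]
      have h4 : ∑ x ∈ H.erase y, (stp W K).getD x 0 ≤ ∑ x ∈ H.erase y, W.getD x 0 := by
        refine sum_le_sum fun x _ => ?_
        rw [getD_stp]
        split_ifs <;> omega
      have h5 : (stp W K).getD y 0 + mn W K ≤ W.getD y 0 := by
        rw [getD_stp, if_pos hyK]
        have := mn_le (W := W) hyK
        omega
      omega
    omega

/-! ### Instances and assignments -/

/-- the hyperedges: colour and list of the nodes -/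
abbrev Edges : Type := List (ℕ × List ℕ)

/-- the colour of the hyperedge `i` -/
def Col (E : Edges) (i : ℕ) : ℕ := (E.getD i (0, [])).1

/-- the nodes of the hyperedge `i` -/
def Nod (E : Edges) (i : ℕ) : List ℕ := (E.getD i (0, [])).2

/-- the instance is valid: `n` nodes, `q` colours -/
def ValidE (n q : ℕ) (E : Edges) : Prop :=
  1 ≤ q ∧ ∀ e ∈ E, e.1 < q ∧ e.2 ≠ [] ∧ ∀ v ∈ e.2, v < n

/-- `S` assigns to each of the `n` nodes a nonempty set of the `q` colours -/
def IsAssign (n q : ℕ) (S : List (List ℕ)) : Prop :=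
  S.length = n ∧ ∀ T ∈ S, T ≠ [] ∧ T.Nodup ∧ ∀ c ∈ T, c < q

/-- the number of the extra colours -/
def extra (S : List (List ℕ)) : ℕ := (S.map (fun T => T.length - 1)).sum

/-- the hyperedge `e` is a mistake -/
def bad (S : List (List ℕ)) (e : ℕ × List ℕ) : Bool :=
  e.2.any (fun v => !(decide (e.1 ∈ S.getD v [])))

/-- the number of the mistakes -/
def mistakes (E : Edges) (S : List (List ℕ)) : ℕ := (E.filter (bad S)).length

theorem bad_iff {S : List (List ℕ)} {e : ℕ × List ℕ} :
    bad S e = true ↔ ∃ v ∈ e.2, e.1 ∉ S.getD v [] := by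
  unfold bad
  simp only [List.any_eq_true, Bool.not_eq_true', decide_eq_false_iff_not]

theorem mistakes_eq (E : Edges) (S : List (List ℕ)) : mistakes E S =
    ((range E.length).filter (fun i => bad S (E.getD i (0, [])) = true)).card := by
  unfold mistakes
  induction E using List.reverseRecOn with
  | nil => simp
  | append_singleton E e ih =>
    rw [List.filter_append, List.length_append, ih, List.length_append, List.length_singleton,
      range_add_one, filter_insert]
    have g1 : (range E.length).filter (fun i => bad S ((E ++ [e]).getD i (0, [])) = true) =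
        (range E.length).filter (fun i => bad S (E.getD i (0, [])) = true) := by
      refine filter_congr fun i hi => ?_
      rw [List.getD_append _ _ _ _ (mem_range.1 hi)]
    have g2 : (E ++ [e]).getD E.length (0, []) = e := by
      rw [List.getD_append_right _ _ _ _ le_rfl]
      simp
    rw [g1, g2]
    by_cases h : bad S e = true
    · rw [if_pos h, card_insert_of_notMem (by simp)]
      simp [h]
    · rw [if_neg h]
      simp [h]

end Pool.Agent.V11230.GB
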