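import Pool.Agent.V11230.GB1

/-!
# Budgeted overlapping edge-coloured clustering: the bicriteria approximation
-/

set_option autoImplicit false

namespace Pool.Agent.V11230.GB

open Finset

/-- the code of the colour `c` at the node `v` -/
def pc (m q v c : ℕ) : ℕ := m + (v * q + c)

/-- the conflicts: two hyperedges of different colours at a node -/
def confs (n q : ℕ) (E : Edges) : List Quad :=
  (List.range n).flatMap (fun v => (List.range E.length).flatMap (fun i =>
    (List.range E.length).flatMap (fun j =>
      if (v ∈ Nod E i ∧ v ∈ Nod E j) ∧ Col E i ≠ Col E j then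
        [(i, j, pc E.length q v (Col E i), pc E.length q v (Col E j))] else [])))

/-- the colours at `v` of the hyperedges of nonzero weight -/
def rm (q : ℕ) (E : Edges) (W : List ℕ) (v : ℕ) : List ℕ :=
  (List.range q).filter (fun c => (List.range E.length).any (fun i =>
    (decide (v ∈ Nod E i) && !(decide (W.getD i 0 = 0))) && decide (Col E i = c)))

/-- the assignment -/
def asg (n q : ℕ) (E : Edges) (W : List ℕ) : List (List ℕ) :=
  (List.range n).map (fun v => if (rm q E W v).isEmpty = true then [0] else rm q E W v)

/-- the number of the indices `y < k` with weight 0, with an offset -/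
def cz (W : List ℕ) (o k : ℕ) : ℕ :=
  ((List.range k).filter (fun y => decide (W.getD (o + y) 0 = 0))).length

/-- the initial weights -/
def W0 (m k we wp : ℕ) : List ℕ := List.replicate m we ++ List.replicate k wp

/-- the final weights for the guess `t` -/
def Wt (n q : ℕ) (E : Edges) (b t : ℕ) : List ℕ :=
  fin (W0 E.length (n * q) (if b = 0 then 1 else b) (if b = 0 then 4 * E.length + 1 else t))
    (confs n q E)

/-- the guess is good -/
def ok (n q : ℕ) (E : Edges) (b t : ℕ) : Bool :=
  decide (cz (Wt n q E b t) 0 E.length ≤ 8 * t) &&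
    decide (cz (Wt n q E b t) E.length (n * q) ≤ 8 * b)

/-- the first good guess -/
def best (n q : ℕ) (E : Edges) (b : ℕ) : ℕ :=
  (((List.range (E.length + 1)).filter (fun t => decide (1 ≤ t) && ok n q E b t)).head?).getD 0

/-- the algorithm -/
def alg (n q : ℕ) (E : Edges) (b : ℕ) : List (List ℕ) :=
  if extra (asg n q E (List.replicate E.length 1)) ≤ b then
    asg n q E (List.replicate E.length 1) else asg n q E (Wt n q E b (best n q E b))

variable {n q b : ℕ} {E : Edges} {W : List ℕ}

theorem mem_confs {K : Quad} : K ∈ confs n q E ↔ ∃ v < n, ∃ i < E.length, ∃ j < E.length,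
    ((v ∈ Nod E i ∧ v ∈ Nod E j) ∧ Col E i ≠ Col E j) ∧
      K = (i, j, pc E.length q v (Col E i), pc E.length q v (Col E j)) := by
  unfold confs
  simp only [List.mem_flatMap, List.mem_range]
  constructor
  · rintro ⟨v, hv, i, hi, j, hj, h⟩
    split_ifs at h with h1
    · rw [List.mem_singleton] at h
      exact ⟨v, hv, i, hi, j, hj, h1, h⟩
    · simp at h
  · rintro ⟨v, hv, i, hi, j, hj, h1, h⟩
    refine ⟨v, hv, i, hi, j, hj, ?_⟩
    rw [if_pos h1, List.mem_singleton]
    exact h

theorem mem_rm {v c : ℕ} : c ∈ rm q E W v ↔ c < q ∧ ∃ i < E.length, (v ∈ Nod E i ∧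
    W.getD i 0 ≠ 0) ∧ Col E i = c := by
  unfold rm
  simp only [List.mem_filter, List.mem_range, List.any_eq_true, Bool.and_eq_true,
    decide_eq_true_eq, Bool.not_eq_true', decide_eq_false_iff_not, ne_eq]

theorem length_asg : (asg n q E W).length = n := by
  unfold asg
  simp

theorem getD_asg {v : ℕ} (hv : v < n) : (asg n q E W).getD v [] =
    if (rm q E W v).isEmpty = true then [0] else rm q E W v := by
  unfold asg
  rw [List.getD_eq_getElem _ _ (by simpa using hv)]
  simp

theorem isAssign_asg (hq : 1 ≤ q) : IsAssign n q (asg n q E W) := by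
  refine ⟨length_asg, fun T hT => ?_⟩
  unfold asg at hT
  rw [List.mem_map] at hT
  obtain ⟨v, _, rfl⟩ := hT
  split_ifs with h
  · exact ⟨by simp, by simp, by simp; omega⟩
  · refine ⟨?_, ?_, fun c hc => (mem_rm.1 hc).1⟩
    · rwa [List.isEmpty_iff] at h
    · exact List.Nodup.filter _ List.nodup_range

theorem cz_eq (W : List ℕ) (o k : ℕ) :
    cz W o k = ((range k).filter (fun y => W.getD (o + y) 0 = 0)).card := by
  unfold cz
  induction k with
  | zero => simp
  | succ k ih =>
    rw [List.range_succ, List.filter_append, List.length_append, ih, range_add_one, filter_insert]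
    by_cases h : W.getD (o + k) 0 = 0
    · rw [if_pos h, card_insert_of_notMem (by simp), List.filter_cons,
        if_pos (decide_eq_true h)]
      rfl
    · rw [if_neg h, List.filter_cons, if_neg (by rw [decide_eq_true_eq]; exact h)]
      rfl

theorem getD_mem_valid (hE : ValidE n q E) {i : ℕ} (hi : i < E.length) :
    Col E i < q ∧ ∀ v ∈ Nod E i, v < n := by
  have h : E.getD i (0, []) ∈ E := by
    rw [List.getD_eq_getElem _ _ hi]
    exact List.getElem_mem hi
  have := hE.2 _ h
  exact ⟨this.1, this.2.2⟩

theorem mistakes_asg (hE : ValidE n q E) : mistakes E (asg n q E W) ≤ cz W 0 E.length := by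
  rw [mistakes_eq, cz_eq]
  refine card_le_card fun i hi => ?_
  rw [mem_filter, mem_range] at hi ⊢
  refine ⟨hi.1, ?_⟩
  rw [Nat.zero_add]
  by_contra h0
  obtain ⟨v, hv, hc⟩ := bad_iff.1 hi.2
  have hval := getD_mem_valid hE hi.1
  have hvn := hval.2 v hv
  apply hc
  rw [getD_asg hvn]
  have hm : Col E i ∈ rm q E W v := mem_rm.2 ⟨hval.1, i, hi.1, ⟨hv, h0⟩, rfl⟩
  rw [if_neg]
  · exact hm
  · rw [List.isEmpty_iff]
    intro h
    rw [h] at hm
    simp at hm

theorem extra_eq (S : List (List ℕ)) :
    extra S = ∑ v ∈ range S.length, ((S.getD v []).length - 1) := by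
  unfold extra
  induction S using List.reverseRecOn with
  | nil => simp
  | append_singleton S T ih =>
    rw [List.map_append, List.sum_append, ih, List.length_append, List.length_singleton,
      sum_range_succ, List.getD_append_right _ _ _ _ le_rfl]
    rw [sum_congr rfl (fun i hi => by rw [List.getD_append _ _ _ _ (mem_range.1 hi)] :
      ∀ i ∈ range S.length, ((S ++ [T]).getD i []).length - 1 = (S.getD i []).length - 1)]
    simp

theorem cz_mul (W : List ℕ) (o n q : ℕ) : cz W o (n * q) =
    ∑ v ∈ range n, ((range q).filter (fun c => W.getD (o + (v * q + c)) 0 = 0)).card := by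
  rw [cz_eq, card_filter]
  induction n with
  | zero => simp
  | succ n ih =>
    rw [Nat.succ_mul, sum_range_add, ih, sum_range_succ, card_filter]

/-- the number of the extra colours of the assignment -/
theorem extra_asg (hE : ValidE n q E) (hW : ∀ K ∈ confs n q E, ∃ x, inK x K = true ∧
    W.getD x 0 = 0) : extra (asg n q E W) ≤ cz W E.length (n * q) := by
  rw [extra_eq, length_asg, cz_mul]
  refine sum_le_sum fun v hv => ?_
  have hvn := mem_range.1 hv
  rw [getD_asg hvn]
  split_ifs with h
  · simp
  · set A := (range q).filter (fun c => W.getD (E.length + (v * q + c)) 0 = 0) with hA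
    have hnd : (rm q E W v).Nodup := List.Nodup.filter _ List.nodup_range
    have h1 : ((rm q E W v).toFinset \ A).card ≤ 1 := by
      rw [card_le_one]
      intro c hc c' hc'
      rw [mem_sdiff, List.mem_toFinset, mem_rm] at hc hc'
      obtain ⟨⟨hcq, i, hi, ⟨hvi, hWi⟩, rfl⟩, hcA⟩ := hc
      obtain ⟨⟨hcq', j, hj, ⟨hvj, hWj⟩, rfl⟩, hcA'⟩ := hc'
      by_contra hne
      obtain ⟨x, hx, hx0⟩ := hW _ (mem_confs.2 ⟨v, hvn, i, hi, j, hj, ⟨⟨hvi, hvj⟩, hne⟩, rfl⟩)
      rw [inK_iff] at hx
      rcases hx with (rfl | rfl) | (rfl | rfl)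
      · exact hWi hx0
      · exact hWj hx0
      · exact hcA (mem_filter.2 ⟨mem_range.2 hcq, hx0⟩)
      · exact hcA' (mem_filter.2 ⟨mem_range.2 hcq', hx0⟩)
    have h2 : (rm q E W v).toFinset.card = (rm q E W v).length := List.toFinset_card_of_nodup hnd
    have h3 := card_le_card_sdiff_add_card (s := A) (t := (rm q E W v).toFinset)
    have h4 := card_le_card_sdiff_add_card (t := A) (s := (rm q E W v).toFinset)
    omega

theorem getD_W0 (m k we wp x : ℕ) : (W0 m k we wp).getD x 0 =
    if x < m then we else if x < m + k then wp else 0 := by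
  unfold W0
  by_cases h : x < m
  · rw [if_pos h, List.getD_append _ _ _ _ (by simpa using h),
      List.getD_eq_getElem _ _ (by simpa using h)]
    simp
  · rw [if_neg h, List.getD_append_right _ _ _ _ (by simpa using h), List.length_replicate]
    by_cases h2 : x < m + k
    · rw [if_pos h2, List.getD_eq_getElem _ _ (by simp; omega)]
      simp
    · rw [if_neg h2, List.getD_eq_default _ _ (by simp; omega)]

/-- the cost of the elements of weight 0 -/
theorem cost_le {m k we wp : ℕ} {Ks : List Quad} {H : Finset ℕ}
    (hH : ∀ K ∈ Ks, ∃ x ∈ H, inK x K = true) :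
    we * cz (fin (W0 m k we wp) Ks) 0 m + wp * cz (fin (W0 m k we wp) Ks) m k ≤
      4 * ∑ x ∈ H, (W0 m k we wp).getD x 0 := by
  have h1 := fin_cost Ks (W0 m k we wp) (range (m + k)) H hH
  have h2 := fin_le Ks (W0 m k we wp)
  set F := fin (W0 m k we wp) Ks with hF
  have h3 : ∑ x ∈ range (m + k), (F.getD x 0 + (if F.getD x 0 = 0 then
      (W0 m k we wp).getD x 0 else 0)) ≤ ∑ x ∈ range (m + k), (W0 m k we wp).getD x 0 := by
    refine sum_le_sum fun x _ => ?_
    have := h2 x
    split_ifs <;> omega
  rw [sum_add_distrib] at h3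
  have h4 : ∑ x ∈ range (m + k), (if F.getD x 0 = 0 then (W0 m k we wp).getD x 0 else 0) =
      we * cz F 0 m + wp * cz F m k := by
    rw [sum_range_add, cz_eq, cz_eq]
    congr 1
    · rw [card_filter, mul_sum]
      refine sum_congr rfl fun x hx => ?_
      rw [getD_W0, if_pos (mem_range.1 hx), Nat.zero_add]
      split_ifs <;> simp
    · rw [card_filter, mul_sum]
      refine sum_congr rfl fun x hx => ?_
      have := mem_range.1 hx
      rw [getD_W0, if_neg (by omega : ¬ m + x < m), if_pos (by omega : m + x < m + k)]
      split_ifs <;> simp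
  omega

/-- an assignment gives a hitting set -/
theorem exists_hit {S : List (List ℕ)} (hE : ValidE n q E) (hS : IsAssign n q S) (we wp : ℕ) :
    ∃ H : Finset ℕ, (∀ K ∈ confs n q E, ∃ x ∈ H, inK x K = true) ∧
      ∑ x ∈ H, (W0 E.length (n * q) we wp).getD x 0 ≤ we * mistakes E S + wp * extra S := by
  set H1 := (range E.length).filter (fun i => bad S (E.getD i (0, [])) = true) with hH1
  set H2 := (range n).biUnion (fun v => ((S.getD v []).tail.toFinset).image (pc E.length q v))
    with hH2
  refine ⟨H1 ∪ H2, ?_, ?_⟩
  · intro K hK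
    obtain ⟨v, hv, i, hi, j, hj, ⟨⟨hvi, hvj⟩, hne⟩, rfl⟩ := mem_confs.1 hK
    by_cases hbi : bad S (E.getD i (0, [])) = true
    · exact ⟨i, mem_union_left _ (mem_filter.2 ⟨mem_range.2 hi, hbi⟩),
        inK_iff.2 (Or.inl (Or.inl rfl))⟩
    by_cases hbj : bad S (E.getD j (0, [])) = true
    · exact ⟨j, mem_union_left _ (mem_filter.2 ⟨mem_range.2 hj, hbj⟩),
        inK_iff.2 (Or.inl (Or.inr rfl))⟩
    have h1 : Col E i ∈ S.getD v [] := by
      by_contra h
      exact hbi (bad_iff.2 ⟨v, hvi, h⟩)
    have h2 : Col E j ∈ S.getD v [] := by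
      by_contra h
      exact hbj (bad_iff.2 ⟨v, hvj, h⟩)
    have h3 : Col E i ∈ (S.getD v []).tail ∨ Col E j ∈ (S.getD v []).tail := by
      cases hT : S.getD v [] with
      | nil =>
        rw [hT] at h1
        simp at h1
      | cons a T =>
        rw [hT, List.mem_cons] at h1 h2
        rw [List.tail_cons]
        rcases h1 with h1 | h1
        · rcases h2 with h2 | h2
          · exact absurd (h1.trans h2.symm) hne
          · exact Or.inr h2
        · exact Or.inl h1
    rcases h3 with h3 | h3
    · refine ⟨pc E.length q v (Col E i), mem_union_right _ (mem_biUnion.2 ⟨v, mem_range.2 hv,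
        mem_image_of_mem _ (List.mem_toFinset.2 h3)⟩), inK_iff.2 (Or.inr (Or.inl rfl))⟩
    · refine ⟨pc E.length q v (Col E j), mem_union_right _ (mem_biUnion.2 ⟨v, mem_range.2 hv,
        mem_image_of_mem _ (List.mem_toFinset.2 h3)⟩), inK_iff.2 (Or.inr (Or.inr rfl))⟩
  · have h1 : ∑ x ∈ H1, (W0 E.length (n * q) we wp).getD x 0 = we * mistakes E S := by
      rw [sum_congr rfl (fun x hx => by
        rw [getD_W0, if_pos (mem_range.1 (mem_filter.1 hx).1)]), sum_const, smul_eq_mul,
        mistakes_eq, mul_comm]
    have h2 : ∑ x ∈ H2, (W0 E.length (n * q) we wp).getD x 0 ≤ wp * extra S := by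
      calc ∑ x ∈ H2, (W0 E.length (n * q) we wp).getD x 0
          ≤ ∑ x ∈ H2, wp := by
            refine sum_le_sum fun x hx => ?_
            rw [mem_biUnion] at hx
            obtain ⟨v, _, hx⟩ := hx
            rw [mem_image] at hx
            obtain ⟨c, _, rfl⟩ := hx
            rw [getD_W0, if_neg (by unfold pc; omega)]
            split_ifs <;> omega
        _ = H2.card * wp := by rw [sum_const, smul_eq_mul]
        _ ≤ extra S * wp := by
            refine Nat.mul_le_mul_right _ ?_
            rw [extra_eq, hS.1]
            refine card_biUnion_le.trans (sum_le_sum fun v _ => ?_)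
            refine card_image_le.trans ((List.toFinset_card_le _).trans ?_)
            rw [List.length_tail]
        _ = wp * extra S := mul_comm _ _
    have h3 := sum_union_inter (s₁ := H1) (s₂ := H2)
      (f := fun x => (W0 E.length (n * q) we wp).getD x 0)
    omega

theorem mistakes_le (S : List (List ℕ)) : mistakes E S ≤ E.length := by
  unfold mistakes
  exact List.length_filter_le _ _

/-- the right guess is good -/
theorem ok_of {S : List (List ℕ)} (hE : ValidE n q E) (hS : IsAssign n q S) (hb : extra S ≤ b)
    (h1 : 1 ≤ mistakes E S) : ok n q E b (mistakes E S) = true := by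
  unfold ok
  rw [Bool.and_eq_true, decide_eq_true_iff, decide_eq_true_iff]
  unfold Wt
  by_cases hb0 : b = 0
  · rw [if_pos hb0, if_pos hb0]
    obtain ⟨H, hH, hc⟩ := exists_hit hE hS 1 (4 * E.length + 1)
    have h2 := cost_le (m := E.length) (k := n * q) (we := 1) (wp := 4 * E.length + 1) hH
    have h3 : extra S = 0 := by omega
    have h4 := mistakes_le (E := E) S
    rw [h3, Nat.mul_zero] at hc
    set F := fin (W0 E.length (n * q) 1 (4 * E.length + 1)) (confs n q E) with hF
    have h5 : cz F E.length (n * q) = 0 := by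
      by_contra h0
      have h6 : 4 * E.length + 1 ≤ (4 * E.length + 1) * cz F E.length (n * q) :=
        Nat.le_mul_of_pos_right _ (Nat.pos_of_ne_zero h0)
      omega
    constructor
    · omega
    · omega
  · rw [if_neg hb0, if_neg hb0]
    obtain ⟨H, hH, hc⟩ := exists_hit hE hS b (mistakes E S)
    have h2 := cost_le (m := E.length) (k := n * q) (we := b) (wp := mistakes E S) hH
    set F := fin (W0 E.length (n * q) b (mistakes E S)) (confs n q E) with hF
    have h3 : mistakes E S * extra S ≤ mistakes E S * b := Nat.mul_le_mul_left _ hb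
    have h4 : b * cz F 0 E.length ≤ b * (8 * mistakes E S) := by
      calc b * cz F 0 E.length ≤ 4 * (b * mistakes E S + mistakes E S * b) := by omega
        _ = b * (8 * mistakes E S) := by ring
    have h5 : mistakes E S * cz F E.length (n * q) ≤ mistakes E S * (8 * b) := by
      calc mistakes E S * cz F E.length (n * q) ≤ 4 * (b * mistakes E S + mistakes E S * b) := by
            omega
        _ = mistakes E S * (8 * b) := by ring
    exact ⟨Nat.le_of_mul_le_mul_left h4 (by omega), Nat.le_of_mul_le_mul_left h5 (by omega)⟩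

theorem head_filter {p : ℕ → Bool} {N t : ℕ} (ht : t < N) (hp : p t = true) :
    (((List.range N).filter p).head?).getD 0 ≤ t ∧
      p ((((List.range N).filter p).head?).getD 0) = true := by
  have hmem : t ∈ (List.range N).filter p := List.mem_filter.2 ⟨List.mem_range.2 ht, hp⟩
  have hs : ((List.range N).filter p).Pairwise (· < ·) := List.Pairwise.filter _
    List.pairwise_lt_range
  cases hl : (List.range N).filter p with
  | nil =>
    rw [hl] at hmem
    simp at hmem
  | cons a l =>
    rw [hl] at hmem hs
    have ha : a ∈ (List.range N).filter p := by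
      rw [hl]
      exact List.mem_cons_self
    refine ⟨?_, (List.mem_filter.1 ha).2⟩
    rw [List.head?_cons, Option.getD_some]
    rw [List.mem_cons] at hmem
    rcases hmem with rfl | hmem
    · exact le_rfl
    · exact ((List.pairwise_cons.1 hs).1 t hmem).le

/-- the assignment without mistakes -/
theorem asg_one {S : List (List ℕ)} (hE : ValidE n q E) (hS : IsAssign n q S)
    (h0 : mistakes E S = 0) : extra (asg n q E (List.replicate E.length 1)) ≤ extra S := by
  rw [extra_eq, extra_eq, length_asg, hS.1]
  refine sum_le_sum fun v hv => ?_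
  have hvn := mem_range.1 hv
  rw [getD_asg hvn]
  split_ifs with h
  · simp
  · have hnd : (rm q E (List.replicate E.length 1) v).Nodup :=
      List.Nodup.filter _ List.nodup_range
    have hsub : (rm q E (List.replicate E.length 1) v) ⊆ S.getD v [] := by
      intro c hc
      obtain ⟨_, i, hi, ⟨hvi, _⟩, rfl⟩ := mem_rm.1 hc
      by_contra hne
      rw [mistakes_eq, card_eq_zero, filter_eq_empty_iff] at h0
      exact h0 (mem_range.2 hi) (bad_iff.2 ⟨v, hvi, hne⟩)
    have := (List.Nodup.subperm hnd hsub).length_le
    omega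

/-- **The bicriteria approximation.** -/
theorem alg_spec (hE : ValidE n q E) : IsAssign n q (alg n q E b) ∧
    extra (alg n q E b) ≤ 8 * b ∧ ∀ S, IsAssign n q S → extra S ≤ b →
      mistakes E (alg n q E b) ≤ 8 * mistakes E S := by
  unfold alg
  split_ifs with hc
  · refine ⟨isAssign_asg hE.1, by omega, fun S _ _ => ?_⟩
    have h1 := mistakes_asg (W := List.replicate E.length 1) hE
    have h2 : cz (List.replicate E.length 1) 0 E.length = 0 := by
      rw [cz_eq, card_eq_zero, filter_eq_empty_iff]
      intro i hi
      have := mem_range.1 hi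
      rw [Nat.zero_add, List.getD_eq_getElem _ _ (by simpa using this)]
      simp
    omega
  · have key : ∀ S, IsAssign n q S → extra S ≤ b → best n q E b ≤ mistakes E S ∧
        ok n q E b (best n q E b) = true := by
      intro S hS hb
      have h1 : 1 ≤ mistakes E S := by
        by_contra h0
        have := asg_one hE hS (by omega)
        omega
      have h2 := head_filter (N := E.length + 1) (p := fun t => decide (1 ≤ t) && ok n q E b t)
        (t := mistakes E S) (by have := mistakes_le (E := E) S; omega) (by
          rw [Bool.and_eq_true, decide_eq_true_iff]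
          exact ⟨h1, ok_of hE hS hb h1⟩)
      rw [Bool.and_eq_true] at h2
      exact ⟨h2.1, h2.2.2⟩
    have hhit : ∀ K ∈ confs n q E, ∃ x, inK x K = true ∧
        (Wt n q E b (best n q E b)).getD x 0 = 0 := fun K hK => fin_hits _ _ K hK
    refine ⟨isAssign_asg hE.1, ?_, ?_⟩
    · have hS0 : IsAssign n q (List.replicate n [0]) := by
        refine ⟨by simp, fun T hT => ?_⟩
        rw [(List.mem_replicate.1 hT).2]
        exact ⟨by simp, by simp, by simp; exact hE.1⟩
      have h1 := (key _ hS0 (by unfold extra; simp)).2
      unfold ok at h1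
      rw [Bool.and_eq_true, decide_eq_true_iff, decide_eq_true_iff] at h1
      exact (extra_asg hE hhit).trans h1.2
    · intro S hS hb
      have h1 := key S hS hb
      have h2 := h1.2
      unfold ok at h2
      rw [Bool.and_eq_true, decide_eq_true_iff, decide_eq_true_iff] at h2
      have h3 := mistakes_asg (W := Wt n q E b (best n q E b)) hE
      omega

end Pool.Agent.V11230.GB
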