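import Pool.Agent.V11230.GB2
import Pool.Agent.NPC.Dec
import Pool.Agent.Y644.QS.PolyBase

/-!
# Budgeted overlapping edge-coloured clustering: polynomial time
-/

set_option autoImplicit false

namespace Pool.Agent.NPC.V11230.GBP

open Pool.Agent.V11230.GB Pool.Agent.NPC

section

variable {α : Type} [TEnc α]

theorem poly_inK {x : α → ℕ} {K : α → Quad} (hx : Poly x) (hK : Poly K) :
    Poly (fun a => inK (x a) (K a)) := by
  unfold inK
  exact Poly.or (Poly.or (Poly.decide_eq hx (Poly.fst hK))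
    (Poly.decide_eq hx (Poly.fst (Poly.snd hK))))
    (Poly.or (Poly.decide_eq hx (Poly.fst (Poly.snd (Poly.snd hK))))
      (Poly.decide_eq hx (Poly.snd (Poly.snd (Poly.snd hK)))))

theorem poly_mn {W : α → List ℕ} {K : α → Quad} (hW : Poly W) (hK : Poly K) :
    Poly (fun a => mn (W a) (K a)) := by
  unfold mn
  exact Poly.min (Poly.min (Poly.getD hW (Poly.fst hK) (Poly.const 0))
    (Poly.getD hW (Poly.fst (Poly.snd hK)) (Poly.const 0)))
    (Poly.min (Poly.getD hW (Poly.fst (Poly.snd (Poly.snd hK))) (Poly.const 0))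
      (Poly.getD hW (Poly.snd (Poly.snd (Poly.snd hK))) (Poly.const 0)))

theorem poly_stp {W : α → List ℕ} {K : α → Quad} (hW : Poly W) (hK : Poly K) :
    Poly (fun a => stp (W a) (K a)) := by
  unfold stp
  have h1 : Poly (fun x : α × ℕ => inK x.2 (K x.1)) :=
    poly_inK (Poly.snd Poly.id) (hK.comp (Poly.fst Poly.id))
  have h2 : Poly (fun x : α × ℕ => (W x.1).getD x.2 0) :=
    Poly.getD (hW.comp (Poly.fst Poly.id)) (Poly.snd Poly.id) (Poly.const 0)
  have h3 : Poly (fun x : α × ℕ => mn (W x.1) (K x.1)) :=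
    (poly_mn hW hK).comp (Poly.fst Poly.id)
  exact Poly.map (F := fun a x => if inK x (K a) = true then (W a).getD x 0 - mn (W a) (K a)
    else (W a).getD x 0) (Poly.range_length hW)
    (Poly.ite (Poly.decide_bool h1) (Poly.sub h2 h3) h2)

theorem sz_fin_le (W : List ℕ) (Ks : List Quad) :
    sz (fin W Ks) ≤ sz W * (2 * sz W + 1) + 1 := by
  have h1 := sz_le_length_mul (fin W Ks) (2 * sz W) (by
    intro a ha
    obtain ⟨i, hi, rfl⟩ := List.getElem_of_mem ha
    have h2 := fin_le Ks W i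
    rw [List.getD_eq_getElem _ _ hi, List.getD_eq_getElem _ _ (by
      rwa [length_fin] at hi)] at h2
    have h3 := sz_nat_mono_le h2
    have h4 := sz_le_of_mem (List.getElem_mem (l := W) (by rwa [length_fin] at hi))
    omega)
  rw [length_fin] at h1
  have h5 := length_lt_sz W
  have h6 : W.length * (2 * sz W + 1) ≤ sz W * (2 * sz W + 1) :=
    Nat.mul_le_mul_right _ h5.le
  omega

theorem poly_fin {W : α → List ℕ} {Ks : α → List Quad} (hW : Poly W) (hK : Poly Ks) :
    Poly (fun a => fin (W a) (Ks a)) := by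
  obtain ⟨r, hr⟩ := hW.sz_le
  unfold fin
  refine Poly.foldl (F := fun _ W K => stp W K) hK hW
    (poly_stp (α := α × List ℕ × Quad) (Poly.fst (Poly.snd Poly.id)) (Poly.snd (Poly.snd Poly.id)))
    (r * (2 * r + 1) + 1) ?_
  intro a k hk
  have h1 := sz_fin_le (W a) ((Ks a).take k)
  have h2 := hr a
  refine h1.trans ?_
  simp only [Polynomial.eval_add, Polynomial.eval_mul, Polynomial.eval_ofNat,
    Polynomial.eval_one]
  have h3 : sz (W a) * (2 * sz (W a) + 1) ≤ r.eval (sz a) * (2 * r.eval (sz a) + 1) :=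
    Nat.mul_le_mul h2 (by omega)
  omega

theorem poly_Col {E : α → Edges} {i : α → ℕ} (hE : Poly E) (hi : Poly i) :
    Poly (fun a => Col (E a) (i a)) := by
  unfold Col
  exact Poly.fst (Poly.getD hE hi (Poly.const _))

theorem poly_Nod {E : α → Edges} {i : α → ℕ} (hE : Poly E) (hi : Poly i) :
    Poly (fun a => Nod (E a) (i a)) := by
  unfold Nod
  exact Poly.snd (Poly.getD hE hi (Poly.const _))

theorem poly_mem {v : α → ℕ} {l : α → List ℕ} (hv : Poly v) (hl : Poly l) :
    Poly (fun a => decide (v a ∈ l a)) :=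
  (Poly.decide_mem hv hl).congr fun _ => decide_eq_decide.2 Iff.rfl

theorem poly_pc {m q v c : α → ℕ} (hm : Poly m) (hq : Poly q) (hv : Poly v) (hc : Poly c) :
    Poly (fun a => pc (m a) (q a) (v a) (c a)) := by
  unfold pc
  exact Poly.add hm (Poly.add (Poly.mul hv hq) hc)

theorem poly_confs {n q : α → ℕ} {E : α → Edges} (hn : UPoly n) (hq : UPoly q) (hE : Poly E) :
    Poly (fun a => confs (n a) (q a) (E a)) := by
  have hm := UPoly.length hE
  have hr : Poly (fun a => List.range (E a).length) := Poly.range_length hE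
  have p1 : Poly (fun x : ((α × ℕ) × ℕ) × ℕ => x.1.1.1) :=
    Poly.fst (Poly.fst (Poly.fst Poly.id))
  have p2 : Poly (fun x : ((α × ℕ) × ℕ) × ℕ => x.1.1.2) :=
    Poly.snd (Poly.fst (Poly.fst Poly.id))
  have p3 : Poly (fun x : ((α × ℕ) × ℕ) × ℕ => x.1.2) := Poly.snd (Poly.fst Poly.id)
  have p4 : Poly (fun x : ((α × ℕ) × ℕ) × ℕ => x.2) := Poly.snd Poly.id
  have e1 := hE.comp p1
  unfold confs
  refine Poly.flatMap (F := fun a v => (List.range (E a).length).flatMap (fun i =>
    (List.range (E a).length).flatMap (fun j =>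
      if (v ∈ Nod (E a) i ∧ v ∈ Nod (E a) j) ∧ Col (E a) i ≠ Col (E a) j then
        [(i, j, pc (E a).length (q a) v (Col (E a) i), pc (E a).length (q a) v (Col (E a) j))]
      else []))) (UPoly.range hn) ?_
  refine Poly.flatMap (F := fun (x : α × ℕ) i =>
    (List.range (E x.1).length).flatMap (fun j =>
      if (x.2 ∈ Nod (E x.1) i ∧ x.2 ∈ Nod (E x.1) j) ∧ Col (E x.1) i ≠ Col (E x.1) j then
        [(i, j, pc (E x.1).length (q x.1) x.2 (Col (E x.1) i),
          pc (E x.1).length (q x.1) x.2 (Col (E x.1) j))]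
      else [])) (hr.comp (Poly.fst Poly.id)) ?_
  refine Poly.flatMap (F := fun (x : (α × ℕ) × ℕ) j =>
      if (x.1.2 ∈ Nod (E x.1.1) x.2 ∧ x.1.2 ∈ Nod (E x.1.1) j) ∧
          Col (E x.1.1) x.2 ≠ Col (E x.1.1) j then
        [(x.2, j, pc (E x.1.1).length (q x.1.1) x.1.2 (Col (E x.1.1) x.2),
          pc (E x.1.1).length (q x.1.1) x.1.2 (Col (E x.1.1) j))]
      else []) (hr.comp (Poly.fst (Poly.fst Poly.id))) ?_
  refine Poly.ite (Poly.decide_and (Poly.decide_and (poly_mem p2 (poly_Nod e1 p3))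
    (poly_mem p2 (poly_Nod e1 p4))) (Poly.decide_not (Poly.decide_eq (poly_Col e1 p3)
      (poly_Col e1 p4)))) (Poly.cons ?_ (Poly.const [])) (Poly.const [])
  have hl : Poly (fun x : ((α × ℕ) × ℕ) × ℕ => (E x.1.1.1).length) := Poly.length e1
  have hqq : Poly (fun x : ((α × ℕ) × ℕ) × ℕ => q x.1.1.1) := hq.toPoly.comp p1
  exact Poly.pair p3 (Poly.pair p4 (Poly.pair (poly_pc hl hqq p2 (poly_Col e1 p3))
    (poly_pc hl hqq p2 (poly_Col e1 p4))))

theorem poly_rm {q v : α → ℕ} {E : α → Edges} {W : α → List ℕ} (hq : UPoly q) (hE : Poly E)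
    (hW : Poly W) (hv : Poly v) : Poly (fun a => rm (q a) (E a) (W a) (v a)) := by
  have p1 : Poly (fun x : (α × ℕ) × ℕ => x.1.1) := Poly.fst (Poly.fst Poly.id)
  have p2 : Poly (fun x : (α × ℕ) × ℕ => x.1.2) := Poly.snd (Poly.fst Poly.id)
  have p3 : Poly (fun x : (α × ℕ) × ℕ => x.2) := Poly.snd Poly.id
  unfold rm
  refine Poly.filter (p := fun a c => (List.range (E a).length).any (fun i =>
    (decide (v a ∈ Nod (E a) i) && !(decide ((W a).getD i 0 = 0))) &&
      decide (Col (E a) i = c))) (UPoly.range hq) ?_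
  refine Poly.any (p := fun (x : α × ℕ) i =>
    (decide (v x.1 ∈ Nod (E x.1) i) && !(decide ((W x.1).getD i 0 = 0))) &&
      decide (Col (E x.1) i = x.2)) ((Poly.range_length hE).comp (Poly.fst Poly.id)) ?_
  exact Poly.and (Poly.and (poly_mem (hv.comp p1) (poly_Nod (hE.comp p1) p3))
    (Poly.not (Poly.decide_eq (Poly.getD (hW.comp p1) p3 (Poly.const 0)) (Poly.const 0))))
    (Poly.decide_eq (poly_Col (hE.comp p1) p3) p2)

theorem poly_asg {n q : α → ℕ} {E : α → Edges} {W : α → List ℕ} (hn : UPoly n) (hq : UPoly q)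
    (hE : Poly E) (hW : Poly W) : Poly (fun a => asg (n a) (q a) (E a) (W a)) := by
  have p1 : Poly (fun x : α × ℕ => x.1) := Poly.fst Poly.id
  have h1 : Poly (fun x : α × ℕ => rm (q x.1) (E x.1) (W x.1) x.2) :=
    poly_rm (hq.comp p1) (hE.comp p1) (hW.comp p1) (Poly.snd Poly.id)
  unfold asg
  exact Poly.map (F := fun a v => if (rm (q a) (E a) (W a) v).isEmpty = true then [0] else
    rm (q a) (E a) (W a) v) (UPoly.range hn)
    (Poly.ite (Poly.decide_bool (Poly.isEmpty h1)) (Poly.const [0]) h1)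

theorem poly_extra {S : α → List (List ℕ)} (hS : Poly S) : Poly (fun a => extra (S a)) := by
  unfold extra
  exact Poly.sum (Poly.map (F := fun (_ : α) (T : List ℕ) => T.length - 1) hS
    (Poly.sub (Poly.length (Poly.snd Poly.id)) (Poly.const 1)))

theorem poly_cz {W : α → List ℕ} {o k : α → ℕ} (hW : Poly W) (ho : Poly o) (hk : UPoly k) :
    Poly (fun a => cz (W a) (o a) (k a)) := by
  unfold cz
  refine Poly.length (Poly.filter (p := fun a y => decide ((W a).getD (o a + y) 0 = 0))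
    (UPoly.range hk) ?_)
  exact Poly.decide_eq (Poly.getD (hW.comp (Poly.fst Poly.id)) (Poly.add
    (ho.comp (Poly.fst Poly.id)) (Poly.snd Poly.id)) (Poly.const 0)) (Poly.const 0)

theorem poly_Wt {n q b t : α → ℕ} {E : α → Edges} (hn : UPoly n) (hq : UPoly q) (hE : Poly E)
    (hb : Poly b) (ht : Poly t) : Poly (fun a => Wt (n a) (q a) (E a) (b a) (t a)) := by
  unfold Wt W0
  have h0 := Poly.decide_eq hb (Poly.const 0)
  exact poly_fin (Poly.append (Poly.replicateU (UPoly.length hE) (Poly.ite h0 (Poly.const 1) hb))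
    (Poly.replicateU (UPoly.mul hn hq) (Poly.ite h0 (Poly.add (Poly.mul (Poly.const 4)
      (Poly.length hE)) (Poly.const 1)) ht))) (poly_confs hn hq hE)

theorem poly_ok {n q b t : α → ℕ} {E : α → Edges} (hn : UPoly n) (hq : UPoly q) (hE : Poly E)
    (hb : Poly b) (ht : Poly t) : Poly (fun a => ok (n a) (q a) (E a) (b a) (t a)) := by
  unfold ok
  exact Poly.and (Poly.decide_le (poly_cz (poly_Wt hn hq hE hb ht) (Poly.const 0)
    (UPoly.length hE)) (Poly.mul (Poly.const 8) ht))
    (Poly.decide_le (poly_cz (poly_Wt hn hq hE hb ht) (Poly.length hE) (UPoly.mul hn hq))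
      (Poly.mul (Poly.const 8) hb))

theorem poly_best {n q b : α → ℕ} {E : α → Edges} (hn : UPoly n) (hq : UPoly q) (hE : Poly E)
    (hb : Poly b) : Poly (fun a => best (n a) (q a) (E a) (b a)) := by
  unfold best
  have p1 : Poly (fun x : α × ℕ => x.1) := Poly.fst Poly.id
  exact Poly.head?_getD (Poly.filter (p := fun a t => decide (1 ≤ t) &&
    ok (n a) (q a) (E a) (b a) t) (UPoly.range (UPoly.add (UPoly.length hE) (UPoly.const 1)))
    (Poly.and (Poly.decide_le (Poly.const 1) (Poly.snd Poly.id))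
      (poly_ok (hn.comp p1) (hq.comp p1) (hE.comp p1) (hb.comp p1) (Poly.snd Poly.id)))) 0

theorem poly_alg {n q b : α → ℕ} {E : α → Edges} (hn : UPoly n) (hq : UPoly q) (hE : Poly E)
    (hb : Poly b) : Poly (fun a => alg (n a) (q a) (E a) (b a)) := by
  unfold alg
  have h1 : Poly (fun a => asg (n a) (q a) (E a) (List.replicate (E a).length 1)) :=
    poly_asg hn hq hE (Poly.replicateU (UPoly.length hE) (Poly.const 1))
  exact Poly.ite (Poly.decide_le (poly_extra h1) hb) h1
    (poly_asg hn hq hE (poly_Wt hn hq hE hb (poly_best hn hq hE hb)))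

end

end Pool.Agent.NPC.V11230.GBP
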