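import Pool.Agent.V11230.GB1
import Pool.Agent.H622R2.MatGraph

/-!
# Budgeted overlapping edge-coloured clustering and Minimum k-Union
-/

set_option autoImplicit false

namespace Pool.Agent.V11230.HA

open Pool.Agent.V11230.GB Pool.Agent.H622R2

/-! ### Minimum k-Union -/

/-- the number of the elements -/
def nEl (M : List (List Bool)) : ℕ := (M.getD 0 []).length

/-- the size of the union of the sets in `K` -/
def un (M : List (List Bool)) (K : List ℕ) : ℕ :=
  ((List.range (nEl M)).filter (fun x => K.any (fun i => entry M i x))).length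

/-- `K` selects `k` of the sets -/
def IsSel (M : List (List Bool)) (k : ℕ) (K : List ℕ) : Prop :=
  K.length = k ∧ K.Nodup ∧ ∀ i ∈ K, i < M.length

/-! ### The reduction -/

/-- the hyperedges without their private nodes -/
def cores (α : ℕ) (M : List (List Bool)) : List (ℕ × List ℕ) :=
  (List.range (M.getD 0 []).length).map
    (fun x => (1, (List.range M.length).filter (fun i => entry M i x))) ++
  (List.range M.length).flatMap (fun i => (List.range (α + 1)).flatMap (fun _ =>
    (true :: M.getD 0 []).map (fun _ => (0, [i]))))

/-- the hyperedges -/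
def edges (α : ℕ) (M : List (List Bool)) : Edges :=
  (List.range (cores α M).length).map (fun t =>
    (((cores α M).getD t (0, [])).1, (M.length + t) :: ((cores α M).getD t (0, [])).2))

theorem count_range {β : Type} (l : List β) (d : β) (q : β → Bool) :
    (List.range l.length).countP (fun t => q (l.getD t d)) = l.countP q := by
  have h : (List.range l.length).map (fun t => l.getD t d) = l := by
    apply List.ext_getElem
    · simp
    · intro i h1 h2
      simp only [List.getElem_map, List.getElem_range]
      exact List.getD_eq_getElem _ _ h2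
  conv_rhs => rw [← h]
  rw [List.countP_map]
  rfl

theorem core_mem {α : ℕ} {M : List (List Bool)} {c : ℕ × List ℕ} (h : c ∈ cores α M) :
    c.1 < 2 ∧ (∀ v ∈ c.2, v < M.length) ∧ c.2.Nodup := by
  unfold cores at h
  rw [List.mem_append] at h
  rcases h with h | h
  · rw [List.mem_map] at h
    obtain ⟨x, _, rfl⟩ := h
    refine ⟨by norm_num, fun v hv => ?_, List.nodup_range.filter _⟩
    exact List.mem_range.1 (List.mem_filter.1 hv).1
  · rw [List.mem_flatMap] at h
    obtain ⟨i, hi, h⟩ := h
    rw [List.mem_flatMap] at h
    obtain ⟨_, _, h⟩ := h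
    rw [List.mem_map] at h
    obtain ⟨_, _, rfl⟩ := h
    refine ⟨by norm_num, fun v hv => ?_, List.nodup_singleton _⟩
    rw [List.mem_singleton] at hv
    rw [hv]
    exact List.mem_range.1 hi

theorem core_getD {α : ℕ} {M : List (List Bool)} (t : ℕ) :
    ((cores α M).getD t (0, [])).1 < 2 ∧ (∀ v ∈ ((cores α M).getD t (0, [])).2, v < M.length) ∧
      ((cores α M).getD t (0, [])).2.Nodup := by
  by_cases h : t < (cores α M).length
  · rw [List.getD_eq_getElem _ _ h]
    exact core_mem (List.getElem_mem h)
  · rw [List.getD_eq_default _ _ (not_lt.1 h)]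
    exact ⟨by norm_num, fun v hv => absurd hv (List.not_mem_nil), List.nodup_nil⟩

/-- no hyperedge has a repeated node, and no two hyperedges have the same set of nodes -/
def Simple (E : Edges) : Prop :=
  (∀ e ∈ E, e.2.Nodup) ∧ E.Pairwise (fun e f => ¬ ∀ v, v ∈ e.2 ↔ v ∈ f.2)

theorem valid_edges (α : ℕ) (M : List (List Bool)) :
    ValidE (M.length + (cores α M).length) 2 (edges α M) := by
  refine ⟨by norm_num, fun e he => ?_⟩
  unfold edges at he
  rw [List.mem_map] at he
  obtain ⟨t, ht, rfl⟩ := he
  rw [List.mem_range] at ht
  refine ⟨(core_getD t).1, List.cons_ne_nil _ _, fun v hv => ?_⟩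
  rw [List.mem_cons] at hv
  rcases hv with rfl | hv
  · omega
  · have := (core_getD t).2.1 v hv
    omega

theorem simple_edges (α : ℕ) (M : List (List Bool)) : Simple (edges α M) := by
  constructor
  · intro e he
    unfold edges at he
    rw [List.mem_map] at he
    obtain ⟨t, ht, rfl⟩ := he
    rw [List.nodup_cons]
    refine ⟨fun h => ?_, (core_getD t).2.2⟩
    have := (core_getD t).2.1 _ h
    omega
  · unfold edges
    rw [List.pairwise_map]
    refine List.pairwise_lt_range.imp ?_
    intro t t' htt h
    have h1 := (h (M.length + t)).1 (List.mem_cons_self)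
    rw [List.mem_cons] at h1
    rcases h1 with h1 | h1
    · omega
    · have := (core_getD t').2.1 _ h1
      omega

theorem mistakes_eq (α : ℕ) (M : List (List Bool)) (S : List (List ℕ)) :
    mistakes (edges α M) S = (List.range (cores α M).length).countP (fun t =>
      bad S (((cores α M).getD t (0, [])).1,
        (M.length + t) :: ((cores α M).getD t (0, [])).2)) := by
  unfold mistakes edges
  rw [← List.countP_eq_length_filter, List.countP_map]
  rfl

theorem le_mistakes (α : ℕ) (M : List (List Bool)) (S : List (List ℕ)) :
    (cores α M).countP (bad S) ≤ mistakes (edges α M) S := by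
  rw [mistakes_eq, ← count_range (cores α M) (0, []) (bad S)]
  refine List.countP_mono_left (fun t _ h => ?_)
  rw [bad_iff] at h ⊢
  obtain ⟨v, hv, h⟩ := h
  exact ⟨v, List.mem_cons_of_mem _ hv, h⟩

/-- the assignment made from a selection -/
def sol (α : ℕ) (M : List (List Bool)) (K : List ℕ) : List (List ℕ) :=
  (List.range M.length).map (fun i => if i ∈ K then [0] else [0, 1]) ++
    (cores α M).map (fun c => [c.1])

theorem getD_sol {α : ℕ} {M : List (List Bool)} {K : List ℕ} {i : ℕ} (hi : i < M.length) :
    (sol α M K).getD i [] = if i ∈ K then [0] else [0, 1] := by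
  unfold sol
  rw [List.getD_append _ _ _ _ (by simpa using hi), List.getD_eq_getElem _ _ (by simpa using hi)]
  simp

theorem getD_sol' {α : ℕ} {M : List (List Bool)} {K : List ℕ} {t : ℕ}
    (ht : t < (cores α M).length) :
    (sol α M K).getD (M.length + t) [] = [((cores α M).getD t (0, [])).1] := by
  unfold sol
  rw [List.getD_append_right _ _ _ _ (by simp), List.getD_eq_getElem _ _ (by simpa using ht),
    List.getD_eq_getElem _ _ ht]
  simp

theorem mistakes_sol (α : ℕ) (M : List (List Bool)) (K : List ℕ) :
    mistakes (edges α M) (sol α M K) ≤ un M K := by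
  have h1 : mistakes (edges α M) (sol α M K) ≤ (cores α M).countP (bad (sol α M K)) := by
    rw [mistakes_eq, ← count_range (cores α M) (0, []) (bad (sol α M K))]
    refine List.countP_mono_left (fun t ht h => ?_)
    rw [List.mem_range] at ht
    rw [bad_iff] at h ⊢
    obtain ⟨v, hv, h⟩ := h
    rw [List.mem_cons] at hv
    rcases hv with rfl | hv
    · rw [getD_sol' ht] at h
      exact absurd (List.mem_singleton.2 rfl) h
    · exact ⟨v, hv, h⟩
  refine h1.trans ?_
  unfold cores
  rw [List.countP_append]
  have h2 : ((List.range M.length).flatMap (fun i => (List.range (α + 1)).flatMap (fun _ =>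
    (true :: M.getD 0 []).map (fun _ => ((0 : ℕ), [i]))))).countP (bad (sol α M K)) = 0 := by
    rw [List.countP_eq_zero]
    intro c hc
    rw [List.mem_flatMap] at hc
    obtain ⟨i, hi, hc⟩ := hc
    rw [List.mem_flatMap] at hc
    obtain ⟨_, _, hc⟩ := hc
    rw [List.mem_map] at hc
    obtain ⟨_, _, rfl⟩ := hc
    rw [bad_iff]
    rintro ⟨v, hv, h⟩
    rw [List.mem_singleton] at hv
    subst hv
    rw [getD_sol (List.mem_range.1 hi)] at h
    apply h
    split_ifs <;> simp
  rw [h2, add_zero, List.countP_map]
  unfold un nEl
  rw [← List.countP_eq_length_filter]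
  refine List.countP_mono_left (fun x _ h => ?_)
  have h' : bad (sol α M K) (1, (List.range M.length).filter (fun i => entry M i x)) = true := h
  rw [bad_iff] at h'
  obtain ⟨v, hv, h⟩ := h'
  rw [List.mem_filter, List.mem_range] at hv
  rw [getD_sol hv.1] at h
  rw [List.any_eq_true]
  refine ⟨v, ?_, hv.2⟩
  by_contra hK
  rw [if_neg hK] at h
  exact h (by simp)

/-- the selected sets: those without the colour 1 -/
def pick (M : List (List Bool)) (S : List (List ℕ)) : List ℕ :=
  (List.range M.length).filter (fun i => !(decide (1 ∈ S.getD i [])))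

theorem un_pick (α : ℕ) (M : List (List Bool)) (S : List (List ℕ)) :
    un M (pick M S) ≤ mistakes (edges α M) S := by
  refine le_trans ?_ (le_mistakes α M S)
  unfold cores un nEl
  rw [List.countP_append, List.countP_map, ← List.countP_eq_length_filter]
  refine le_trans (List.countP_mono_left (fun x _ h => ?_)) (Nat.le_add_right _ _)
  show bad S (1, (List.range M.length).filter (fun i => entry M i x)) = true
  rw [List.any_eq_true] at h
  obtain ⟨i, hi, h⟩ := h
  unfold pick at hi
  rw [List.mem_filter, List.mem_range] at hi
  rw [bad_iff]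
  refine ⟨i, List.mem_filter.2 ⟨List.mem_range.2 hi.1, h⟩, ?_⟩
  simpa using hi.2

theorem heavy (α : ℕ) (M : List (List Bool)) (S : List (List ℕ)) {i : ℕ} (hi : i < M.length)
    (h0 : 0 ∉ S.getD i []) : (α + 1) * (nEl M + 1) ≤ mistakes (edges α M) S := by
  refine le_trans ?_ (le_mistakes α M S)
  unfold cores
  rw [List.countP_append]
  refine le_trans ?_ (Nat.le_add_left _ _)
  have h1 : ((List.range (α + 1)).flatMap (fun _ =>
      (true :: M.getD 0 []).map (fun _ => ((0 : ℕ), [i])))).countP (bad S) =
      (α + 1) * (nEl M + 1) := by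
    rw [List.countP_eq_length.2]
    · rw [List.length_flatMap]
      simp [nEl]
    · intro c hc
      rw [List.mem_flatMap] at hc
      obtain ⟨_, _, hc⟩ := hc
      rw [List.mem_map] at hc
      obtain ⟨_, _, rfl⟩ := hc
      rw [bad_iff]
      exact ⟨i, List.mem_singleton.2 rfl, h0⟩
  rw [← h1, List.flatMap_def (l := List.range M.length)]
  refine List.Sublist.countP_le (List.sublist_flatten_of_mem ?_)
  exact List.mem_map.2 ⟨i, List.mem_range.2 hi, rfl⟩

theorem un_le (M : List (List Bool)) (K : List ℕ) : un M K ≤ nEl M := by
  unfold un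
  exact (List.length_filter_le _ _).trans (by simp)

theorem un_mono {M : List (List Bool)} {K K' : List ℕ} (h : ∀ i ∈ K, i ∈ K') :
    un M K ≤ un M K' := by
  unfold un
  rw [← List.countP_eq_length_filter, ← List.countP_eq_length_filter]
  refine List.countP_mono_left (fun x _ hx => ?_)
  rw [List.any_eq_true] at hx ⊢
  obtain ⟨i, hi, he⟩ := hx
  exact ⟨i, h i hi, he⟩

/-- **Key step.** -/
theorem key {α k : ℕ} {M : List (List Bool)} (hk : k ≤ M.length) {S : List (List ℕ)}
    (hlen : S.length = M.length + (cores α M).length)
    (hb : S.countP (fun T => decide (0 ∈ T) && decide (1 ∈ T)) ≤ M.length - k)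
    (hopt : ∀ K, IsSel M k K → mistakes (edges α M) S ≤ α * mistakes (edges α M) (sol α M K)) :
    IsSel M k ((pick M S).take k) ∧
      ∀ K, IsSel M k K → un M ((pick M S).take k) ≤ α * un M K := by
  have hle : ∀ K, IsSel M k K → mistakes (edges α M) S ≤ α * un M K := fun K hK =>
    (hopt K hK).trans (Nat.mul_le_mul_left _ (mistakes_sol α M K))
  have h0 : ∀ i < M.length, 0 ∈ S.getD i [] := by
    intro i hi
    by_contra h
    have h1 := heavy α M S hi h
    have h2 := hle (List.range k) ⟨List.length_range, List.nodup_range, fun j hj =>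
      lt_of_lt_of_le (List.mem_range.1 hj) hk⟩
    have h3 := Nat.mul_le_mul_left α (un_le M (List.range k))
    have h4 : (α + 1) * (nEl M + 1) = α * nEl M + α + nEl M + 1 := by ring
    omega
  have hcard : k ≤ (pick M S).length := by
    have h1 : (pick M S).length + (List.range M.length).countP (fun i =>
        decide (1 ∈ S.getD i [])) = M.length := by
      unfold pick
      rw [← List.countP_eq_length_filter]
      have := List.length_eq_countP_add_countP (l := List.range M.length)
        (fun i => decide (1 ∈ S.getD i []))
      rw [List.length_range] at this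
      have h5 : (List.range M.length).countP (fun i => !(decide (1 ∈ S.getD i []))) =
        (List.range M.length).countP (fun a => decide ¬ (decide (1 ∈ S.getD a []) = true)) := by
        refine List.countP_congr (fun x _ => ?_)
        simp
      omega
    have h2 : (List.range M.length).countP (fun i => decide (1 ∈ S.getD i [])) ≤
        S.countP (fun T => decide (0 ∈ T) && decide (1 ∈ T)) := by
      rw [← count_range S [] (fun T => decide (0 ∈ T) && decide (1 ∈ T))]
      refine le_trans (List.countP_mono_left (q := fun i => decide (0 ∈ S.getD i []) &&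
        decide (1 ∈ S.getD i [])) (fun i hi h => ?_)) ?_
      · rw [Bool.and_eq_true]
        exact ⟨decide_eq_true (h0 i (List.mem_range.1 hi)), h⟩
      · refine List.Sublist.countP_le (List.range_sublist.2 ?_)
        omega
    omega
  refine ⟨⟨?_, ?_, ?_⟩, fun K hK => ?_⟩
  · rw [List.length_take]; omega
  · exact (List.nodup_range.filter _).sublist (List.take_sublist _ _)
  · intro i hi
    have := List.mem_of_mem_take hi
    exact List.mem_range.1 (List.mem_filter.1 this).1
  · exact (un_mono (fun i hi => List.mem_of_mem_take hi)).trans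
      ((un_pick α M S).trans (hle K hK))

end Pool.Agent.V11230.HA
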