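import Pool.Agent.V11230.MS4
import Pool.Agent.NPC.Dec
import Pool.Agent.Y644.QS.PolyBase

/-!
# Row permutations that make a matrix symmetric: polynomial time
-/

set_option autoImplicit false

namespace Pool.Agent.NPC.V11230.MSP

open Pool.Agent.V11230.MS Pool.Agent.NPC Pool.Agent.H622R2

section

variable {α : Type} [TEnc α]

theorem poly_product {β γ : Type} [TEnc β] [TEnc γ] {l : α → List β} {r : α → List γ}
    (hl : Poly l) (hr : Poly r) : Poly (fun a => List.product (l a) (r a)) := by
  have h : Poly (fun a => (l a).flatMap (fun x => (r a).map (fun y => (x, y)))) := by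
    refine Poly.flatMap (F := fun a x => (r a).map (fun y => (x, y))) hl ?_
    exact Poly.map (F := fun (p : α × β) y => (p.2, y)) (hr.comp (Poly.fst Poly.id))
      (Poly.pair (Poly.snd (Poly.fst Poly.id)) (Poly.snd Poly.id))
  exact h

/-- a family of parameters that can be computed in polynomial time -/
structure PolyPar (P : α → Par) : Prop where
  /-- the number of the groups -/
  m : UPoly (fun a => (P a).m)
  /-- the conflicts -/
  cf : Poly (fun x : α × ℕ × ℕ => (P x.1).cf x.2.1 x.2.2)

theorem PolyPar.comp {β : Type} [TEnc β] {P : α → Par} (hP : PolyPar P) {f : β → α}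
    (hf : Poly f) : PolyPar (fun b => P (f b)) where
  m := hP.m.comp hf
  cf := hP.cf.comp (Poly.pair (hf.comp (Poly.fst Poly.id)) (Poly.snd Poly.id))

variable {P : α → Par} (hP : PolyPar P)
include hP

theorem uN : UPoly (fun a => (P a).N) := UPoly.mul (UPoly.const 3) hP.m

theorem poly_main : Poly (fun a => (P a).main) := by
  unfold Par.main
  refine Poly.filter (p := fun (_ : α) (x : Lab) => !(decide (x.1 = 0)) || decide (x.2.2.2 < 2))
    (poly_product (Poly.const _) (poly_product (UPoly.range (uN hP))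
      (poly_product (UPoly.range (uN hP)) (Poly.const _)))) ?_
  exact Poly.or (Poly.not (Poly.decide_eq (Poly.fst (Poly.snd Poly.id)) (Poly.const 0)))
    (Poly.decide_lt (Poly.snd (Poly.snd (Poly.snd (Poly.snd Poly.id)))) (Poly.const 2))

theorem uB : UPoly (fun a => (P a).B) := UPoly.add (UPoly.length (poly_main hP)) (UPoly.const 1)

theorem uNZ : UPoly (fun a => (P a).NZ) :=
  UPoly.mul (UPoly.mul (UPoly.mul (UPoly.const 4) (uN hP)) (uN hP)) (uB hP)

theorem poly_vs : Poly (fun a => (P a).vs) := by
  unfold Par.vs Par.zs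
  refine Poly.append (poly_main hP) (Poly.map (F := fun (_ : α) l => ((4, l, 0, 0) : Lab))
    (UPoly.range (uNZ hP)) ?_)
  exact Poly.pair (Poly.const 4) (Poly.pair (Poly.snd Poly.id) (Poly.const (0, 0)))

variable {x y : α → Lab} (hx : Poly x) (hy : Poly y)
include hx hy

omit hx hy in
theorem poly_w {κ p q : α → ℕ} (hκ : Poly κ) (hp : Poly p) (hq : Poly q) :
    Poly (fun a => (P a).w (κ a) (p a) (q a)) := by
  unfold Par.w Par.cn
  exact Poly.mul (Poly.add (Poly.add (Poly.mul (Poly.add (Poly.mul hκ (uN hP).toPoly) hp)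
    (uN hP).toPoly) hq) (Poly.const 1)) (uB hP).toPoly

omit hx hy hP in
theorem poly_tr {j y : α → ℕ} (hj : Poly j) (hy : Poly y) : Poly (fun a => tr (j a) (y a)) := by
  unfold tr
  have h2 := Poly.div hy (Poly.const 2)
  have h3 := Poly.mod hy (Poly.const 2)
  exact Poly.ite (Poly.decide_eq hj (Poly.const 0)) h2
    (Poly.ite (Poly.decide_eq hj (Poly.const 1)) h3 (Poly.mod (Poly.add h2 h3) (Poly.const 2)))

theorem poly_S : Poly (fun a => (P a).S (x a) (y a)) := by
  have x1 := Poly.fst hx
  have x2 := Poly.fst (Poly.snd hx)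
  have x3 := Poly.fst (Poly.snd (Poly.snd hx))
  have x4 := Poly.snd (Poly.snd (Poly.snd hx))
  have y1 := Poly.fst hy
  have y2 := Poly.fst (Poly.snd hy)
  have y3 := Poly.fst (Poly.snd (Poly.snd hy))
  have y4 := Poly.snd (Poly.snd (Poly.snd hy))
  have c : Poly (fun a => (P a).cf (y a).2.1 (y a).2.2.1) :=
    hP.cf.comp (Poly.pair Poly.id (Poly.pair y2 y3))
  have hk : ∀ i j : ℕ, Poly (fun a => decide ((x a).1 = i ∧ (y a).1 = j)) := fun i j =>
    Poly.decide_and (Poly.decide_eq x1 (Poly.const i)) (Poly.decide_eq y1 (Poly.const j))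
  have hv : Poly (fun a => decide ((x a).2.2.2 = (y a).2.2.2 % 2)) :=
    Poly.decide_eq x4 (Poly.mod y4 (Poly.const 2))
  unfold Par.S
  refine Poly.ite (Poly.decide_eq y1 (Poly.const 4)) (Poly.and (Poly.decide_lt x1 (Poly.const 4))
    (Poly.decide_lt y2 (poly_w hP x1 x2 x3))) ?_
  refine Poly.ite (hk 0 1) (Poly.and (Poly.decide_and (Poly.decide_and
    (Poly.decide_eq x3 (Poly.const 0)) (Poly.decide_eq y3 (Poly.const 0)))
      (Poly.decide_eq (Poly.div x2 (Poly.const 3)) y2))
    (Poly.decide_eq x4 (poly_tr (Poly.mod x2 (Poly.const 3)) y4))) ?_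
  refine Poly.ite (hk 0 2) (Poly.and (Poly.and (Poly.decide_and
    (Poly.decide_eq x3 (Poly.const 0)) (Poly.decide_eq x2 y2)) c) hv) ?_
  refine Poly.ite (hk 0 3) (Poly.and (Poly.and (Poly.decide_and
    (Poly.decide_eq x3 (Poly.const 0)) (Poly.decide_eq x2 y3)) c) hv) ?_
  refine Poly.ite (hk 2 2) (Poly.decide_eq hx hy) ?_
  refine Poly.ite (hk 2 3) (Poly.and (Poly.decide_and (Poly.decide_eq x2 y2)
    (Poly.decide_eq x3 y3)) (Poly.decide_or (Poly.decide_eq x4 y4)
      (Poly.decide_eq x4 (Poly.mod (Poly.add y4 (Poly.const 1)) (Poly.const 4))))) ?_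
  exact Poly.const false

omit hP in
theorem poly_T : Poly (fun a => Par.T (x a) (y a)) := by
  have x2 := Poly.fst (Poly.snd hx)
  have x3 := Poly.fst (Poly.snd (Poly.snd hx))
  have x4 := Poly.snd (Poly.snd (Poly.snd hx))
  have y2 := Poly.fst (Poly.snd hy)
  have y3 := Poly.fst (Poly.snd (Poly.snd hy))
  have y4 := Poly.snd (Poly.snd (Poly.snd hy))
  have hm := Poly.mod x2 (Poly.const 3)
  unfold Par.T dd
  exact Poly.and (Poly.decide_and (Poly.decide_and
    (Poly.decide_eq x3 (Poly.const 0)) (Poly.decide_eq y3 (Poly.const 0)))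
      (Poly.decide_eq (Poly.div x2 (Poly.const 3)) y2))
    (Poly.decide_eq (Poly.mod (Poly.add (poly_tr hm y4) x4) (Poly.const 2))
      (Poly.ite (Poly.decide_eq hm (Poly.const 0)) (Poly.const 1) (Poly.const 0)))

theorem poly_A : Poly (fun a => (P a).A (x a) (y a)) := by
  unfold Par.A
  exact Poly.ite (Poly.decide_le (Poly.fst hx) (Poly.fst hy)) (poly_S hP hx hy)
    (Poly.ite (Poly.decide_and (Poly.decide_eq (Poly.fst hx) (Poly.const 1))
      (Poly.decide_eq (Poly.fst hy) (Poly.const 0))) (poly_T hy hx) (poly_S hP hy hx))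

omit hx hy in
theorem poly_mat : Poly (fun a => mat (P a).vs (P a).A) := by
  unfold mat
  refine Poly.map (F := fun a u => (P a).vs.map (fun v => (P a).A u v)) (poly_vs hP) ?_
  refine Poly.map (F := fun (p : α × Lab) v => (P p.1).A p.2 v)
    ((poly_vs hP).comp (Poly.fst Poly.id)) ?_
  exact poly_A (hP.comp (Poly.fst (Poly.fst Poly.id))) (Poly.snd (Poly.fst Poly.id))
    (Poly.snd Poly.id)

end

section
variable {α : Type} [TEnc α] {φ : α → List Cl} {p : α → ℕ}

theorem poly_lit (hφ : Poly φ) (hp : Poly p) : Poly (fun a => lit (φ a) (p a)) := by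
  have hm := Poly.mod hp (Poly.const 3)
  have hg : Poly (fun a => (φ a).getD (p a / 3) ((false, 0), (false, 0), (false, 0))) :=
    Poly.getD hφ (Poly.div hp (Poly.const 3)) (Poly.const _)
  unfold lit
  exact Poly.ite (Poly.decide_eq hm (Poly.const 0)) (Poly.fst hg)
    (Poly.ite (Poly.decide_eq hm (Poly.const 1)) (Poly.fst (Poly.snd hg))
      (Poly.snd (Poly.snd hg)))

end

theorem polyPar : PolyPar (fun φ : List Cl => par φ) where
  m := UPoly.length Poly.id
  cf := by
    have hφ : Poly (fun x : List Cl × ℕ × ℕ => x.1) := Poly.fst Poly.id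
    have h1 := poly_lit hφ (Poly.fst (Poly.snd Poly.id))
    have h2 := poly_lit hφ (Poly.snd (Poly.snd Poly.id))
    exact Poly.and (Poly.decide_eq (Poly.snd h1) (Poly.snd h2))
      (Poly.not (Poly.decide_eq (Poly.fst h1) (Poly.fst h2)))

theorem poly_matF : Poly matF := poly_mat polyPar

theorem hard_MSym : HardI MSym :=
  hardI_SAT3.trans poly_matF (fun φ => (msym_matF φ).symm)

/-! ### Membership in NP -/

/-- the test of a certificate -/
def chk (x : List (List Bool) × List ℕ) : Bool :=
  (x.1.all (fun r => decide (r.length = x.1.length)) &&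
    (decide (x.2.length = x.1.length) && x.2.all (fun v => decide (v < x.1.length)))) &&
  ((List.range x.1.length).all (fun i => (List.range x.1.length).all (fun j =>
    (!(decide (x.2.getD i 0 = x.2.getD j 0)) || decide (i = j)) &&
      decide (entry x.1 (x.2.getD i 0) j = entry x.1 (x.2.getD j 0) i))))

theorem poly_entry {α : Type} [TEnc α] {M : α → List (List Bool)} {i j : α → ℕ} (hM : Poly M)
    (hi : Poly i) (hj : Poly j) : Poly (fun a => entry (M a) (i a) (j a)) :=
  Poly.getD (Poly.getD hM hi (Poly.const [])) hj (Poly.const false)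

theorem poly_chk : Poly chk := by
  have hM : Poly (fun x : List (List Bool) × List ℕ => x.1) := Poly.fst Poly.id
  have hw : Poly (fun x : List (List Bool) × List ℕ => x.2) := Poly.snd Poly.id
  have hf : Poly (fun y : (List (List Bool) × List ℕ) × ℕ => y.1) := Poly.fst Poly.id
  have hff : Poly (fun y : ((List (List Bool) × List ℕ) × ℕ) × ℕ => y.1.1) :=
    Poly.fst (Poly.fst Poly.id)
  have hi : Poly (fun y : ((List (List Bool) × List ℕ) × ℕ) × ℕ => y.1.2) :=
    Poly.snd (Poly.fst Poly.id)
  have hj : Poly (fun y : ((List (List Bool) × List ℕ) × ℕ) × ℕ => y.2) := Poly.snd Poly.id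
  unfold chk
  refine Poly.and (Poly.and ?_ (Poly.and (Poly.decide_eq (Poly.length hw) (Poly.length hM)) ?_)) ?_
  · exact Poly.all (p := fun (x : List (List Bool) × List ℕ) r =>
      decide (r.length = x.1.length)) hM (Poly.decide_eq (Poly.length (Poly.snd Poly.id))
        (Poly.length (hM.comp (Poly.fst Poly.id))))
  · exact Poly.all (p := fun (x : List (List Bool) × List ℕ) v =>
      decide (v < x.1.length)) hw (Poly.decide_lt (Poly.snd Poly.id)
        (Poly.length (hM.comp (Poly.fst Poly.id))))
  · refine Poly.all (p := fun (x : List (List Bool) × List ℕ) i =>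
      (List.range x.1.length).all (fun j =>
        (!(decide (x.2.getD i 0 = x.2.getD j 0)) || decide (i = j)) &&
          decide (entry x.1 (x.2.getD i 0) j = entry x.1 (x.2.getD j 0) i)))
      (Poly.range_length hM) ?_
    refine Poly.all (p := fun (y : (List (List Bool) × List ℕ) × ℕ) j =>
        (!(decide (y.1.2.getD y.2 0 = y.1.2.getD j 0)) || decide (y.2 = j)) &&
          decide (entry y.1.1 (y.1.2.getD y.2 0) j = entry y.1.1 (y.1.2.getD j 0) y.2))
      (Poly.range_length (hM.comp hf)) ?_
    have g1 := Poly.getD (hw.comp hff) hi (Poly.const 0)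
    have g2 := Poly.getD (hw.comp hff) hj (Poly.const 0)
    exact Poly.and (Poly.or (Poly.not (Poly.decide_eq g1 g2)) (Poly.decide_eq hi hj))
      (Poly.decide_eq (poly_entry (hM.comp hff) g1 hj) (poly_entry (hM.comp hff) g2 hi))

theorem chk_iff {M : List (List Bool)} {w : List ℕ} : chk (M, w) = true ↔
    (Square M ∧ w.length = M.length ∧ ∀ v ∈ w, v < M.length) ∧
      ∀ i < M.length, ∀ j < M.length, (w.getD i 0 = w.getD j 0 → i = j) ∧
        entry M (w.getD i 0) j = entry M (w.getD j 0) i := by
  unfold chk Square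
  simp only [Bool.and_eq_true, List.all_eq_true, decide_eq_true_eq, List.mem_range,
    Bool.or_eq_true, Bool.not_eq_true', decide_eq_false_iff_not]
  refine and_congr Iff.rfl (forall_congr' fun i => forall_congr' fun _ => forall_congr' fun j =>
    forall_congr' fun _ => and_congr ?_ Iff.rfl)
  exact ⟨fun h h' => h.resolve_left (fun g => g h'), fun h => by
    by_cases g : w.getD i 0 = w.getD j 0
    · exact Or.inr (h g)
    · exact Or.inl g⟩

theorem msym_cert (M : List (List Bool)) : MSym M ↔ ∃ w : List ℕ,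
    sz w ≤ (Polynomial.X * (4 * Polynomial.X + 2) + 1 : Polynomial ℕ).eval (sz M) ∧
      chk (M, w) = true := by
  rw [msym_iff]
  constructor
  · rintro ⟨hs, π, h⟩
    have hg : ∀ i (hi : i < M.length), (List.ofFn (fun i => (π i).val)).getD i 0 =
        (π ⟨i, hi⟩).val := by
      intro i hi
      rw [List.getD_eq_getElem _ _ (by simpa using hi)]
      simp
    refine ⟨List.ofFn (fun i => (π i).val), ?_, chk_iff.2 ⟨⟨hs, by simp, ?_⟩, ?_⟩⟩
    · have h1 := sz_le_length_mul (List.ofFn (fun i => (π i).val)) (4 * sz M + 1) (by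
        intro a ha
        rw [List.mem_ofFn] at ha
        obtain ⟨i, rfl⟩ := ha
        have h2 := sz_nat_le (π i).val
        have h3 : (π i).val.size ≤ (π i).val := Nat.size_le.2 Nat.lt_two_pow_self
        have h4 := (π i).2
        have h5 := length_lt_sz M
        omega)
      rw [List.length_ofFn] at h1
      have h5 := length_lt_sz M
      simp only [Polynomial.eval_add, Polynomial.eval_mul, Polynomial.eval_ofNat,
        Polynomial.eval_one, Polynomial.eval_X]
      have h6 : M.length * (4 * sz M + 1 + 1) ≤ sz M * (4 * sz M + 2) :=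
        Nat.mul_le_mul h5.le (by omega)
      omega
    · intro v hv
      rw [List.mem_ofFn] at hv
      obtain ⟨i, rfl⟩ := hv
      exact (π i).2
    · intro i hi j hj
      rw [hg i hi, hg j hj]
      refine ⟨fun he => ?_, h ⟨i, hi⟩ ⟨j, hj⟩⟩
      have := π.injective (Fin.ext he)
      exact congrArg Fin.val this
  · rintro ⟨w, _, hw⟩
    obtain ⟨⟨hs, hl, hlt⟩, h⟩ := chk_iff.1 hw
    refine ⟨hs, ?_⟩
    have hlt' : ∀ i : Fin M.length, w.getD i 0 < M.length := by
      intro i
      rw [List.getD_eq_getElem _ _ (by rw [hl]; exact i.2)]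
      exact hlt _ (List.getElem_mem _)
    have hinj : Function.Injective (fun i : Fin M.length =>
        (⟨w.getD i 0, hlt' i⟩ : Fin M.length)) := by
      intro i j hij
      exact Fin.ext ((h i i.2 j j.2).1 (congrArg Fin.val hij))
    refine ⟨Equiv.ofBijective _ (Finite.injective_iff_bijective.1 hinj), fun i j => ?_⟩
    exact (h i i.2 j j.2).2

theorem inNPP_MSym : InNPP MSym := inNPP_of poly_chk _ msym_cert

end Pool.Agent.NPC.V11230.MSP
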