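import Pool.Agent.V11230.HA1
import Pool.Agent.V11230.GB3
import Pool.Agent.V11230.MS5
import Pool.Agent.H642R2.TMSim

/-!
# Budgeted overlapping edge-coloured clustering and Minimum k-Union: polynomial time
-/

set_option autoImplicit false

namespace Pool.Agent.NPC.V11230.HAP

open Pool.Agent.V11230.GB Pool.Agent.V11230.HA Pool.Agent.NPC Pool.Agent.H622R2
open Pool.Agent.NPC.V11230.MSP

/-- An instance of the clustering problems: a token for each node, a token for each colour, the
hyperedges (the colour and the list of the nodes of each), and the budget. -/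
abbrev Inst : Type := List Unit × List Unit × Edges × ℕ

/-- A feasible solution of GlobalECC: each node gets a nonempty set of colours, and there are at
most `b` extra colours. -/
def GlobalOK (I : Inst) (S : List (List ℕ)) : Prop :=
  IsAssign I.1.length I.2.1.length S ∧ extra S ≤ I.2.2.2

/-- A feasible solution of RobustECC: each node gets one colour, except that at most `b` nodes get
all the colours. -/
def RobustOK (I : Inst) (S : List (List ℕ)) : Prop :=
  IsAssign I.1.length I.2.1.length S ∧ (∀ T ∈ S, T.length = 1 ∨ T.length = I.2.1.length) ∧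
    S.countP (fun T => decide (T.length ≠ 1)) ≤ I.2.2.2

/-- There is a polynomial-time algorithm that on each instance outputs a feasible solution with at
most `α` times as many mistakes as any feasible solution. -/
def Approx (OK : Inst → List (List ℕ) → Prop) (α : ℕ) : Prop :=
  ∃ A : List Bool → List Bool, PolyTime A ∧ ∀ I : Inst,
    ValidE I.1.length I.2.1.length I.2.2.1 → Simple I.2.2.1 →
    ∃ S : List (List ℕ), A (bits I) = bits S ∧ OK I S ∧
      ∀ S', OK I S' → mistakes I.2.2.1 S ≤ α * mistakes I.2.2.1 S'

/-- There is a polynomial-time algorithm for Minimum k-Union with factor `α`. -/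
def MkUApprox (α : ℕ) : Prop :=
  ∃ A : List Bool → List Bool, PolyTime A ∧ ∀ (M : List (List Bool)) (k : ℕ), k ≤ M.length →
    ∃ K : List ℕ, A (bits (M, k)) = bits K ∧ IsSel M k K ∧
      ∀ K', IsSel M k K' → un M K ≤ α * un M K'

/-! ### The reduction in polynomial time -/

/-- the instance of the clustering problems -/
def red (α : ℕ) (q : List (List Bool) × ℕ) : Inst :=
  (q.1.map (fun _ => ()) ++ (cores α q.1).map (fun _ => ()), [(), ()], edges α q.1,
    q.1.length - q.2)

theorem poly_cores (α : ℕ) : Poly (cores α) := by
  unfold cores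
  refine Poly.append (Poly.map (F := fun (M : List (List Bool)) (x : ℕ) =>
    ((1 : ℕ), (List.range M.length).filter (fun i => entry M i x)))
    (Poly.range_length (Poly.getD Poly.id (Poly.const 0) (Poly.const []))) ?_)
    (Poly.flatMap (F := fun (M : List (List Bool)) (i : ℕ) =>
      (List.range (α + 1)).flatMap (fun _ => (true :: M.getD 0 []).map (fun _ => ((0 : ℕ), [i]))))
      (Poly.range_length Poly.id) ?_)
  · exact Poly.pair (Poly.const 1) (Poly.filter
      (p := fun (z : List (List Bool) × ℕ) (i : ℕ) => entry z.1 i z.2)
      (Poly.range_length (Poly.fst Poly.id))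
      (poly_entry (Poly.fst (Poly.fst Poly.id)) (Poly.snd Poly.id) (Poly.snd (Poly.fst Poly.id))))
  · refine Poly.flatMap (F := fun (p : List (List Bool) × ℕ) (_ : ℕ) =>
      (true :: p.1.getD 0 []).map (fun _ => ((0 : ℕ), [p.2]))) (Poly.const _) ?_
    refine Poly.map (F := fun (p : (List (List Bool) × ℕ) × ℕ) (_ : Bool) =>
      ((0 : ℕ), [p.1.2])) (Poly.cons (Poly.const true)
        (Poly.getD (Poly.fst (Poly.fst Poly.id)) (Poly.const 0) (Poly.const []))) ?_
    exact Poly.pair (Poly.const 0)
      (Poly.cons (Poly.snd (Poly.fst (Poly.fst Poly.id))) (Poly.const []))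

theorem poly_edges (α : ℕ) : Poly (edges α) := by
  unfold edges
  have hc : Poly (fun p : List (List Bool) × ℕ => (cores α p.1).getD p.2 (0, [])) :=
    Poly.getD ((poly_cores α).comp (Poly.fst Poly.id)) (Poly.snd Poly.id) (Poly.const _)
  exact Poly.map (F := fun (M : List (List Bool)) (t : ℕ) => (((cores α M).getD t (0, [])).1,
    (M.length + t) :: ((cores α M).getD t (0, [])).2)) (Poly.range_length (poly_cores α))
    (Poly.pair (Poly.fst hc) (Poly.cons (Poly.add (Poly.length (Poly.fst Poly.id))
      (Poly.snd Poly.id)) (Poly.snd hc)))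

theorem poly_red (α : ℕ) : Poly (red α) := by
  have h1 : Poly (fun q : List (List Bool) × ℕ => q.1) := Poly.fst Poly.id
  have h2 : Poly (fun q : List (List Bool) × ℕ => cores α q.1) := (poly_cores α).comp h1
  exact Poly.pair (Poly.append (Poly.map (F := fun _ _ => ()) h1 (Poly.const ()))
    (Poly.map (F := fun _ _ => ()) h2 (Poly.const ()))) (Poly.pair (Poly.const _)
    (Poly.pair ((poly_edges α).comp h1) (Poly.sub (Poly.length h1) (Poly.snd Poly.id))))

theorem take_eq (U : List ℕ) (k : ℕ) :
    ((List.range U.length).filter (fun t => decide (t < k))).map (fun t => U.getD t 0) =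
      U.take k := by
  have h1 : ∀ n : ℕ, (List.range n).filter (fun t => decide (t < k)) = List.range (min k n) := by
    intro n
    induction n with
    | zero => simp
    | succ n ih =>
      rw [List.range_succ, List.filter_append, ih]
      by_cases h : n < k
      · rw [show min k (n + 1) = min k n + 1 by omega, List.range_succ, show min k n = n by omega]
        simp [h]
      · rw [show min k (n + 1) = min k n by omega]
        simp [h]
  rw [h1]
  apply List.ext_getElem
  · simp
  · intro i h2 h3
    simp only [List.getElem_map, List.getElem_range, List.getElem_take]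
    rw [List.length_take] at h3
    exact List.getD_eq_getElem _ _ (by omega)

/-- the selection made from a solution -/
def post (q : List (List Bool) × ℕ) (S : List (List ℕ)) : List ℕ := (pick q.1 S).take q.2

theorem poly_post : Poly (fun z : (List (List Bool) × ℕ) × List (List ℕ) => post z.1 z.2) := by
  have h1 : Poly (fun z : (List (List Bool) × ℕ) × List (List ℕ) => pick z.1.1 z.2) := by
    unfold pick
    exact Poly.filter (p := fun (z : (List (List Bool) × ℕ) × List (List ℕ)) (i : ℕ) =>
      !(decide (1 ∈ z.2.getD i []))) (Poly.range_length (Poly.fst (Poly.fst Poly.id)))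
      (Poly.not (Poly.decide_mem (Poly.const 1)
        (Poly.getD (Poly.snd (Poly.fst Poly.id)) (Poly.snd Poly.id) (Poly.const []))))
  have h2 : Poly (fun z : (List (List Bool) × ℕ) × List (List ℕ) =>
      (List.range (pick z.1.1 z.2).length).filter (fun t => decide (t < z.1.2))) :=
    Poly.filter (p := fun (z : (List (List Bool) × ℕ) × List (List ℕ)) (t : ℕ) =>
      decide (t < z.1.2)) (Poly.range_length h1)
      (Poly.decide_lt (Poly.snd Poly.id) (Poly.snd (Poly.fst (Poly.fst Poly.id))))
  refine (Poly.map (F := fun (z : (List (List Bool) × ℕ) × List (List ℕ)) (t : ℕ) =>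
    (pick z.1.1 z.2).getD t 0) h2 (Poly.getD (h1.comp (Poly.fst Poly.id)) (Poly.snd Poly.id)
    (Poly.const 0))).congr fun z => ?_
  exact take_eq _ _

/-- the algorithm for Minimum k-Union -/
def algK (α : ℕ) (A : List Bool → List Bool) (q : List (List Bool) × ℕ) : List ℕ :=
  match unbits (List (List ℕ)) (A (bits (red α q))) with
  | none => []
  | some S => post q S

theorem poly_algK (α : ℕ) {A : List Bool → List Bool} (hA : PolyTime A) : Poly (algK α A) := by
  have h1 : PC (fun x : List Bool => x) (fun x : List Bool => x) A :=
    H642R2.TMSim.polyTime_toPC hA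
  have h2 : PC (bits : List (List Bool) × ℕ → List Bool) (fun x : List Bool => x)
      (fun q => bits (red α q)) := poly_red α
  have h3 : PC (bits : List (List Bool) × ℕ → List Bool) (fun x : List Bool => x)
      (fun q => A (bits (red α q))) := PC.comp h1 h2
  have h4 : Poly (fun q : List (List Bool) × ℕ => A (bits (red α q))) :=
    PC.comp (g := fun x => x) PC.rawIn h3
  have h5 : Poly (fun q : List (List Bool) × ℕ =>
      unbits (List (List ℕ)) (A (bits (red α q)))) := poly_unbits.comp h4
  refine (Poly.optCases (o := fun q : List (List Bool) × ℕ =>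
    unbits (List (List ℕ)) (A (bits (red α q)))) (g := fun _ => ([] : List ℕ))
    (h := fun q S => post q S) h5 (Poly.const _) poly_post).congr fun q => ?_
  unfold algK
  cases unbits (List (List ℕ)) (A (bits (red α q))) <;> rfl

/-- the algorithm on strings -/
def algS (α : ℕ) (A : List Bool → List Bool) (x : List Bool) : List Bool :=
  bits (algK α A ((unbits (List (List Bool) × ℕ) x).getD ([], 0)))

theorem polyTime_algS (α : ℕ) {A : List Bool → List Bool} (hA : PolyTime A) :
    PolyTime (algS α A) := by
  refine polyTime_bits (g := fun x => algK α A ((unbits (List (List Bool) × ℕ) x).getD ([], 0))) ?_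
  exact (poly_algK α hA).comp ((Poly.optCases (o := fun x => unbits (List (List Bool) × ℕ) x)
    (g := fun _ => (([], 0) : List (List Bool) × ℕ)) (h := fun _ I => I) poly_unbits
    (Poly.const _) (Poly.snd Poly.id)).congr fun x => by
      cases unbits (List (List Bool) × ℕ) x <;> rfl)

theorem transfer {OK : Inst → List (List ℕ) → Prop} {α : ℕ}
    (h1 : ∀ I S, OK I S → S.length = I.1.length)
    (h2 : ∀ I S, OK I S → S.countP (fun T => decide (0 ∈ T) && decide (1 ∈ T)) ≤ I.2.2.2)
    (h3 : ∀ M k K, IsSel M k K → OK (red α (M, k)) (sol α M K))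
    (hA : Approx OK α) : MkUApprox α := by
  obtain ⟨A, hp, hA⟩ := hA
  refine ⟨algS α A, polyTime_algS α hp, fun M k hk => ?_⟩
  have hl : (red α (M, k)).1.length = M.length + (cores α M).length := by
    simp [red]
  obtain ⟨S, hS1, hS2, hS3⟩ := hA (red α (M, k)) (by
    rw [hl]; exact valid_edges α M) (simple_edges α M)
  refine ⟨post (M, k) S, ?_, ?_⟩
  · unfold algS algK
    rw [unbits_bits, Option.getD_some, hS1, unbits_bits]
  · exact key hk ((h1 _ _ hS2).trans hl) (h2 _ _ hS2) (fun K hK => hS3 _ (h3 M k K hK))

/-! ### The two problems -/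

theorem both_length {T : List ℕ} (h : (decide (0 ∈ T) && decide (1 ∈ T)) = true) :
    2 ≤ T.length := by
  rw [Bool.and_eq_true, decide_eq_true_eq, decide_eq_true_eq] at h
  match T, h with
  | [], h => exact absurd h.1 (List.not_mem_nil)
  | [a], h =>
    rw [List.mem_singleton, List.mem_singleton] at h
    omega
  | _ :: _ :: _, _ => simp

theorem count_extra (S : List (List ℕ)) :
    S.countP (fun T => decide (0 ∈ T) && decide (1 ∈ T)) ≤ extra S := by
  unfold extra
  induction S with
  | nil => simp
  | cons T S ih =>
    rw [List.countP_cons, List.map_cons, List.sum_cons]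
    split_ifs with h
    · have := both_length h
      omega
    · omega

theorem count_not {m k : ℕ} {K : List ℕ} (h1 : K.length = k) (h2 : K.Nodup)
    (h3 : ∀ i ∈ K, i < m) : (List.range m).countP (fun i => !decide (i ∈ K)) = m - k := by
  have h4 : ((List.range m).filter (fun i => decide (i ∈ K))).Perm K := by
    rw [List.perm_ext_iff_of_nodup (List.nodup_range.filter _) h2]
    intro a
    rw [List.mem_filter, List.mem_range, decide_eq_true_eq]
    exact ⟨fun h => h.2, fun h => ⟨h3 a h, h⟩⟩
  have h5 := h4.length_eq
  rw [← List.countP_eq_length_filter, h1] at h5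
  have h6 := List.length_eq_countP_add_countP (l := List.range m) (fun i => decide (i ∈ K))
  rw [List.length_range] at h6
  have h7 : (List.range m).countP (fun i => !(decide (i ∈ K))) =
      (List.range m).countP (fun a => decide ¬ (decide (a ∈ K) = true)) := by
    refine List.countP_congr (fun x _ => ?_)
    simp
  omega

theorem assign_sol {α k : ℕ} {M : List (List Bool)} {K : List ℕ} :
    IsAssign (red α (M, k)).1.length (red α (M, k)).2.1.length (sol α M K) := by
  refine ⟨by simp [red, sol], fun T hT => ?_⟩
  unfold sol at hT
  rw [List.mem_append, List.mem_map, List.mem_map] at hT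
  rcases hT with ⟨i, _, rfl⟩ | ⟨c, hc, rfl⟩
  · split_ifs <;> simp [red]
  · refine ⟨List.cons_ne_nil _ _, List.nodup_singleton _, fun x hx => ?_⟩
    rw [List.mem_singleton] at hx
    rw [hx]
    exact (core_mem hc).1

theorem global_transfer {α : ℕ} : Approx GlobalOK α → MkUApprox α := by
  refine transfer (fun I S h => h.1.1) (fun I S h => (count_extra S).trans h.2) ?_
  rintro M k K ⟨g1, g2, g3⟩
  refine ⟨assign_sol, ?_⟩
  show extra (sol α M K) ≤ M.length - k
  rw [← count_not g1 g2 g3]
  unfold extra sol
  rw [List.map_append, List.sum_append, List.map_map, List.map_map]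
  have e1 : ∀ l : List ℕ, (l.map ((fun T : List ℕ => T.length - 1) ∘
      (fun i => if i ∈ K then [0] else [0, 1]))).sum = l.countP (fun i => !decide (i ∈ K)) := by
    intro l
    induction l with
    | nil => rfl
    | cons a l ih =>
      rw [List.map_cons, List.sum_cons, ih, List.countP_cons]
      by_cases h : a ∈ K
      · simp [h]
      · simp [h, add_comm]
  have e2 : ∀ l : List (ℕ × List ℕ), (l.map ((fun T : List ℕ => T.length - 1) ∘
      (fun c => [c.1]))).sum = 0 := by
    intro l
    induction l with
    | nil => rfl
    | cons a l ih => rw [List.map_cons, List.sum_cons, ih]; rfl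
  rw [e1, e2, add_zero]

theorem robust_transfer {α : ℕ} : Approx RobustOK α → MkUApprox α := by
  refine transfer (fun I S h => h.1.1) (fun I S h => ?_) ?_
  · refine (List.countP_mono_left (fun T _ hT => ?_)).trans h.2.2
    have := both_length hT
    exact decide_eq_true (by omega)
  · rintro M k K ⟨g1, g2, g3⟩
    refine ⟨assign_sol, fun T hT => ?_, ?_⟩
    · unfold sol at hT
      rw [List.mem_append, List.mem_map, List.mem_map] at hT
      rcases hT with ⟨i, _, rfl⟩ | ⟨c, hc, rfl⟩
      · split_ifs <;> simp [red]
      · left; rfl
    · show (sol α M K).countP _ ≤ M.length - k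
      rw [← count_not g1 g2 g3]
      unfold sol
      rw [List.countP_append, List.countP_map, List.countP_map]
      have e2 : (cores α M).countP ((fun T : List ℕ => decide (T.length ≠ 1)) ∘
          (fun c => [c.1])) = 0 := by
        rw [List.countP_eq_zero]
        intro a _
        simp
      rw [e2, add_zero]
      refine List.countP_mono_left (fun i _ h => ?_)
      by_cases hi : i ∈ K
      · simp [hi] at h
      · simp [hi]

end Pool.Agent.NPC.V11230.HAP
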