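import Pool.Agent.V11230.HA1

/-!
# Small set expansion and Minimum k-Union
-/

set_option autoImplicit false

namespace Pool.Agent.V11230.HB

open Finset Pool.Agent.H622R2 Pool.Agent.V11230.HA

/-- adjacency in the graph of a matrix -/
def adjB (M : List (List Bool)) (i j : ℕ) : Bool :=
  !(decide (i = j)) && (entry M i j || entry M j i)

/-- the graph is `d`-regular -/
def Regular (M : List (List Bool)) (d : ℕ) : Prop :=
  ∀ v : Fin M.length, (univ.filter (fun w : Fin M.length => adjB M v w = true)).card = d

/-- the number of the edges that leave `S` -/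
def cut (M : List (List Bool)) (S : Finset (Fin M.length)) : ℕ :=
  ∑ v ∈ S, (univ.filter (fun w : Fin M.length => w ∉ S ∧ adjB M v w = true)).card

/-- the ordered adjacent pairs inside `S` -/
def prs (M : List (List Bool)) (S : Finset (Fin M.length)) :
    Finset (Fin M.length × Fin M.length) :=
  (S ×ˢ S).filter (fun p => adjB M p.1 p.2 = true)

theorem prs_add_cut {M : List (List Bool)} {d : ℕ} (h : Regular M d)
    (S : Finset (Fin M.length)) : (prs M S).card + cut M S = d * S.card := by
  have h1 : (prs M S).card = ∑ v ∈ S,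
      (S.filter (fun w : Fin M.length => adjB M v w = true)).card := by
    unfold prs
    simp only [card_filter, sum_product]
  rw [h1]
  unfold cut
  rw [← sum_add_distrib, mul_comm, ← smul_eq_mul, ← sum_const]
  refine sum_congr rfl (fun v _ => ?_)
  have e1 : S.filter (fun w : Fin M.length => adjB M v w = true) =
      (univ.filter (fun w : Fin M.length => adjB M v w = true)).filter (fun w => w ∈ S) := by
    ext w
    simp only [mem_filter, mem_univ, true_and]
    exact and_comm
  have e2 : univ.filter (fun w : Fin M.length => w ∉ S ∧ adjB M v w = true) =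
      (univ.filter (fun w : Fin M.length => adjB M v w = true)).filter (fun w => ¬ w ∈ S) := by
    ext w
    simp only [mem_filter, mem_univ, true_and]
    exact and_comm
  rw [← h v, e1, e2]
  exact card_filter_add_card_filter_not _

/-- the ordered pairs of adjacent vertices -/
def pl (M : List (List Bool)) : List (ℕ × ℕ) :=
  ((List.range M.length).flatMap (fun i => (List.range M.length).map (fun j => (i, j)))).filter
    (fun p => adjB M p.1 p.2)

theorem mem_pl {M : List (List Bool)} {p : ℕ × ℕ} :
    p ∈ pl M ↔ p.1 < M.length ∧ p.2 < M.length ∧ adjB M p.1 p.2 = true := by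
  unfold pl
  rw [List.mem_filter, List.mem_flatMap]
  constructor
  · rintro ⟨⟨i, hi, h⟩, h2⟩
    rw [List.mem_map] at h
    obtain ⟨j, hj, rfl⟩ := h
    exact ⟨List.mem_range.1 hi, List.mem_range.1 hj, h2⟩
  · rintro ⟨h1, h2, h3⟩
    exact ⟨⟨p.1, List.mem_range.2 h1, List.mem_map.2 ⟨p.2, List.mem_range.2 h2, rfl⟩⟩, h3⟩

theorem nodup_pl (M : List (List Bool)) : (pl M).Nodup :=
  (List.Nodup.product List.nodup_range List.nodup_range).filter _

/-- the sets: for each ordered pair of adjacent vertices the set of the two ends -/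
def rows (M : List (List Bool)) : List (List Bool) :=
  (pl M).map (fun p => (List.range M.length).map (fun x => decide (x = p.1) || decide (x = p.2)))

theorem length_rows (M : List (List Bool)) : (rows M).length = (pl M).length := List.length_map _

theorem entry_rows {M : List (List Bool)} {t x : ℕ} (ht : t < (pl M).length)
    (hx : x < M.length) : entry (rows M) t x = true ↔
      x = ((pl M).getD t (0, 0)).1 ∨ x = ((pl M).getD t (0, 0)).2 := by
  have e : (rows M).getD t [] = (List.range M.length).map (fun x =>
      decide (x = ((pl M).getD t (0, 0)).1) || decide (x = ((pl M).getD t (0, 0)).2)) := by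
    rw [List.getD_eq_getElem _ _ (by rw [length_rows]; exact ht), List.getD_eq_getElem _ _ ht]
    simp [rows]
  unfold entry
  rw [e, List.getD_eq_getElem _ _ (by simpa using hx), List.getElem_map, List.getElem_range]
  simp only [Bool.or_eq_true, decide_eq_true_eq]

theorem nEl_le (M : List (List Bool)) : nEl (rows M) ≤ M.length := by
  unfold nEl
  by_cases h : 0 < (rows M).length
  · rw [List.getD_eq_getElem _ _ h]
    simp [rows]
  · rw [List.getD_eq_default _ _ (not_lt.1 h)]
    simp

theorem nEl_eq {M : List (List Bool)} (h : 0 < (pl M).length) : nEl (rows M) = M.length := by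
  unfold nEl
  rw [List.getD_eq_getElem _ _ (by rw [length_rows]; exact h)]
  simp [rows]

theorem getD_mem_pl {M : List (List Bool)} {t : ℕ} (ht : t < (pl M).length) :
    (pl M).getD t (0, 0) ∈ pl M := by
  rw [List.getD_eq_getElem _ _ ht]
  exact List.getElem_mem ht

/-- a set of vertices with many pairs inside gives a good selection -/
theorem yes_sel {M : List (List Bool)} {S : Finset (Fin M.length)} {k : ℕ}
    (hk : k ≤ (prs M S).card) : ∃ K, IsSel (rows M) k K ∧ un (rows M) K ≤ S.card := by
  classical
  set Sv : Finset ℕ := S.image Fin.val with hSv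
  set q : ℕ × ℕ → Bool := fun p => decide (p.1 ∈ Sv) && decide (p.2 ∈ Sv) with hq
  set K₀ := (List.range (pl M).length).filter (fun t => q ((pl M).getD t (0, 0))) with hK₀
  have h1 : (prs M S).card ≤ K₀.length := by
    rw [hK₀, ← List.countP_eq_length_filter, count_range (pl M) (0, 0) q,
      List.countP_eq_length_filter, ← List.toFinset_card_of_nodup ((nodup_pl M).filter _)]
    refine card_le_card_of_injOn (fun p => (p.1.val, p.2.val)) ?_ ?_
    · intro p hp
      have hp' := mem_filter.1 (mem_coe.1 hp)
      have hp2 := mem_product.1 hp'.1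
      rw [mem_coe, List.mem_toFinset, List.mem_filter, mem_pl]
      refine ⟨⟨p.1.2, p.2.2, hp'.2⟩, ?_⟩
      rw [hq]
      simp only [Bool.and_eq_true, decide_eq_true_eq]
      exact ⟨mem_image_of_mem _ hp2.1, mem_image_of_mem _ hp2.2⟩
    · rintro ⟨a, b⟩ _ ⟨a', b'⟩ _ he
      simp only [Prod.mk.injEq] at he ⊢
      exact ⟨Fin.ext he.1, Fin.ext he.2⟩
  have hmem : ∀ t ∈ K₀.take k, t < (pl M).length ∧ q ((pl M).getD t (0, 0)) = true := by
    intro t ht
    have := List.mem_filter.1 (List.mem_of_mem_take ht)
    exact ⟨List.mem_range.1 this.1, this.2⟩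
  refine ⟨K₀.take k, ⟨by rw [List.length_take]; omega,
    (List.nodup_range.filter _).sublist (List.take_sublist _ _), fun t ht => ?_⟩, ?_⟩
  · rw [length_rows]; exact (hmem t ht).1
  · unfold un
    rw [← List.toFinset_card_of_nodup (List.nodup_range.filter _)]
    refine le_trans (card_le_card (t := Sv) (fun x hx => ?_)) card_image_le
    rw [List.mem_toFinset, List.mem_filter, List.mem_range, List.any_eq_true] at hx
    obtain ⟨hx, t, ht, he⟩ := hx
    obtain ⟨ht1, ht2⟩ := hmem t ht
    rw [hq] at ht2
    simp only [Bool.and_eq_true, decide_eq_true_eq] at ht2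
    rw [entry_rows ht1 (hx.trans_le (nEl_le M))] at he
    rcases he with rfl | rfl
    · exact ht2.1
    · exact ht2.2

/-- the set of the ends of a selection -/
theorem no_sel {M : List (List Bool)} {K : List ℕ} {k : ℕ} (hk : 1 ≤ k)
    (hK : IsSel (rows M) k K) : ∃ T : Finset (Fin M.length), T.card ≤ un (rows M) K ∧
      k ≤ (prs M T).card := by
  classical
  obtain ⟨h1, h2, h3⟩ := hK
  rw [length_rows] at h3
  have hpos : 0 < (pl M).length := by
    obtain ⟨t, ht⟩ := List.exists_mem_of_length_pos (show 0 < K.length by omega)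
    have := h3 t ht
    omega
  have hn := nEl_eq hpos
  refine ⟨univ.filter (fun x => ∃ t ∈ K, entry (rows M) t x = true), ?_, ?_⟩
  · unfold un
    rw [← List.toFinset_card_of_nodup (List.nodup_range.filter _)]
    refine card_le_card_of_injOn Fin.val ?_ (fun a _ b _ h => Fin.ext h)
    intro x hx
    have hx' := (mem_filter.1 (mem_coe.1 hx)).2
    rw [mem_coe, List.mem_toFinset, List.mem_filter, List.mem_range, List.any_eq_true, hn]
    exact ⟨x.2, hx'⟩
  · rw [← h1, ← List.toFinset_card_of_nodup h2]
    refine le_trans (card_le_card_of_injOn (t := (prs M (univ.filter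
      (fun x => ∃ t ∈ K, entry (rows M) t x = true))).image (fun p => (p.1.val, p.2.val)))
      (fun t => (pl M).getD t (0, 0)) ?_ ?_) card_image_le
    · intro t ht
      have ht' : t ∈ K := List.mem_toFinset.1 (mem_coe.1 ht)
      have ht2 := h3 t ht'
      have h4 := mem_pl.1 (getD_mem_pl ht2)
      rw [mem_coe, mem_image]
      refine ⟨(⟨_, h4.1⟩, ⟨_, h4.2.1⟩), ?_, rfl⟩
      unfold prs
      rw [mem_filter, mem_product, mem_filter, mem_filter]
      exact ⟨⟨⟨mem_univ _, t, ht', (entry_rows ht2 h4.1).2 (Or.inl rfl)⟩,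
        ⟨mem_univ _, t, ht', (entry_rows ht2 h4.2.1).2 (Or.inr rfl)⟩⟩, h4.2.2⟩
    · intro t ht t' ht' he
      have g1 := h3 t (List.mem_toFinset.1 (mem_coe.1 ht))
      have g2 := h3 t' (List.mem_toFinset.1 (mem_coe.1 ht'))
      have he' : (pl M).getD t (0, 0) = (pl M).getD t' (0, 0) := he
      rw [List.getD_eq_getElem _ _ g1, List.getD_eq_getElem _ _ g2] at he'
      exact (nodup_pl M).getElem_inj_iff.1 he'

/-- a set with at most `a * s` vertices and many pairs contains many pairs in some set with `s`
vertices -/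
theorem blocks {M : List (List Bool)} {T : Finset (Fin M.length)} {a s B : ℕ} (hs : 2 ≤ s)
    (hsn : s ≤ M.length) (hT : T.card ≤ a * s)
    (hB : ∀ S : Finset (Fin M.length), S.card = s → (prs M S).card ≤ B) :
    (prs M T).card ≤ 9 * a ^ 2 * B := by
  classical
  set h := s / 2 with hh
  have hh1 : 1 ≤ h := by omega
  have hh2 : s ≤ 3 * h := by omega
  set r : Fin M.length → ℕ := fun v => (T.filter (fun x => x < v)).card with hr
  have hr1 : ∀ v ∈ T, r v < T.card := by
    intro v hv
    refine card_lt_card ⟨filter_subset _ _, fun hsub => ?_⟩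
    have := (mem_filter.1 (hsub hv)).2
    exact lt_irrefl _ this
  have hr2 : ∀ v ∈ T, ∀ w ∈ T, v < w → r v < r w := by
    intro v hv w hw hvw
    refine card_lt_card ⟨fun x hx => ?_, fun hsub => ?_⟩
    · rw [mem_filter] at hx ⊢
      exact ⟨hx.1, hx.2.trans hvw⟩
    · have := (mem_filter.1 (hsub (mem_filter.2 ⟨hv, hvw⟩))).2
      exact lt_irrefl _ this
  have hr3 : ∀ v ∈ T, ∀ w ∈ T, r v = r w → v = w := by
    intro v hv w hw he
    rcases lt_trichotomy v w with h1 | h1 | h1
    · have := hr2 v hv w hw h1; omega
    · exact h1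
    · have := hr2 w hw v hv h1; omega
  have hblk : ∀ v ∈ T, r v / h < 3 * a := by
    intro v hv
    rw [Nat.div_lt_iff_lt_mul hh1]
    have h1 := hr1 v hv
    have h2 : a * s ≤ a * (3 * h) := Nat.mul_le_mul_left _ hh2
    have h3 : a * (3 * h) = 3 * a * h := by ring
    omega
  have hcard : ∀ p : ℕ, (T.filter (fun v => r v / h = p)).card ≤ h := by
    intro p
    have h1 : (Finset.Ico (p * h) (p * h + h)).card = h := by simp
    refine le_trans (card_le_card_of_injOn (t := Finset.Ico (p * h) (p * h + h)) r ?_ ?_) h1.le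
    · intro v hv
      have hv' := (mem_filter.1 (mem_coe.1 hv)).2
      rw [mem_coe, mem_Ico]
      have h2 := Nat.div_add_mod (r v) h
      have h3 := Nat.mod_lt (r v) (show 0 < h by omega)
      rw [hv'] at h2
      have h4 : h * p = p * h := mul_comm _ _
      omega
    · intro v hv w hw he
      exact hr3 v (mem_filter.1 (mem_coe.1 hv)).1 w (mem_filter.1 (mem_coe.1 hw)).1 he
  have hmaps : ∀ e ∈ prs M T, (r e.1 / h, r e.2 / h) ∈ range (3 * a) ×ˢ range (3 * a) := by
    intro e he
    have he' := mem_product.1 (mem_filter.1 he).1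
    rw [mem_product, mem_range, mem_range]
    exact ⟨hblk _ he'.1, hblk _ he'.2⟩
  rw [card_eq_sum_card_fiberwise hmaps]
  have hfib : ∀ y ∈ range (3 * a) ×ˢ range (3 * a),
      ((prs M T).filter (fun e => (r e.1 / h, r e.2 / h) = y)).card ≤ B := by
    rintro ⟨p, q⟩ _
    obtain ⟨S, hS1, hS2⟩ := exists_superset_card_eq (s := T.filter (fun v => r v / h = p) ∪
      T.filter (fun v => r v / h = q)) (n := s) (by
        refine (card_union_le _ _).trans ?_
        have h1 := hcard p
        have h2 := hcard q
        omega) (by rw [Fintype.card_fin]; exact hsn)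
    refine (card_le_card (fun e he => ?_)).trans (hB S hS2)
    obtain ⟨he1, he2⟩ := mem_filter.1 he
    have he3 := mem_filter.1 he1
    have he4 := mem_product.1 he3.1
    rw [Prod.mk.injEq] at he2
    exact mem_filter.2 ⟨mem_product.2 ⟨hS1 (mem_union_left _ (mem_filter.2 ⟨he4.1, he2.1⟩)),
      hS1 (mem_union_right _ (mem_filter.2 ⟨he4.2, he2.2⟩))⟩, he3.2⟩
  refine (sum_le_card_nsmul _ _ B hfib).trans ?_
  rw [card_product, card_range, smul_eq_mul]
  exact le_of_eq (by ring)

end Pool.Agent.V11230.HB
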