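import Pool.Agent.V11230.HB1
import Pool.Agent.V11230.HA2

/-!
# Minimum k-Union and small set expansion: polynomial time
-/

set_option autoImplicit false

namespace Pool.Agent.NPC.V11230.HBP

open Finset Pool.Agent.V11230.HA Pool.Agent.V11230.HB Pool.Agent.NPC Pool.Agent.H622R2
open Pool.Agent.NPC.V11230.MSP Pool.Agent.NPC.V11230.HAP

/-- some set of `s` vertices has edge expansion at most `η` -/
def SseYes (η : ℝ) (M : List (List Bool)) (d s : ℕ) : Prop :=
  ∃ S : Finset (Fin M.length), S.card = s ∧ (cut M S : ℝ) ≤ η * (d * s)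

/-- each set of `s` vertices has edge expansion at least `1 - η` -/
def SseNo (η : ℝ) (M : List (List Bool)) (d s : ℕ) : Prop :=
  ∀ S : Finset (Fin M.length), S.card = s → (1 - η) * (d * s) ≤ (cut M S : ℝ)

/-- a polynomial-time algorithm for the gap problem of small set expansion, for each size `s` of
the sets, on `d`-regular graphs with `d ≥ 1` -/
def GapSse (η : ℝ) : Prop :=
  ∃ B : List Bool → List Bool, PolyTime B ∧ ∀ (M : List (List Bool)) (d s : ℕ),
    Regular M d → 1 ≤ d → 1 ≤ s → s ≤ M.length →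
    (SseYes η M d s → B (bits (M, d, s)) = [true]) ∧
    (SseNo η M d s → B (bits (M, d, s)) = [false])

theorem poly_adjB {α : Type} [TEnc α] {M : α → List (List Bool)} {i j : α → ℕ} (hM : Poly M)
    (hi : Poly i) (hj : Poly j) : Poly (fun a => adjB (M a) (i a) (j a)) :=
  Poly.and (Poly.not (Poly.decide_eq hi hj)) (Poly.or (poly_entry hM hi hj) (poly_entry hM hj hi))

theorem poly_pl : Poly pl := by
  unfold pl
  refine Poly.filter (p := fun (M : List (List Bool)) (p : ℕ × ℕ) => adjB M p.1 p.2)
    (Poly.flatMap (F := fun (M : List (List Bool)) (i : ℕ) =>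
      (List.range M.length).map (fun j => (i, j))) (Poly.range_length Poly.id) ?_)
    (poly_adjB (Poly.fst Poly.id) (Poly.fst (Poly.snd Poly.id)) (Poly.snd (Poly.snd Poly.id)))
  exact Poly.map (F := fun (p : List (List Bool) × ℕ) (j : ℕ) => (p.2, j))
    (Poly.range_length (Poly.fst Poly.id)) (Poly.pair (Poly.snd (Poly.fst Poly.id))
    (Poly.snd Poly.id))

theorem poly_rows : Poly rows := by
  unfold rows
  refine Poly.map (F := fun (M : List (List Bool)) (p : ℕ × ℕ) => (List.range M.length).map
    (fun x => decide (x = p.1) || decide (x = p.2))) poly_pl ?_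
  exact Poly.map (F := fun (z : List (List Bool) × (ℕ × ℕ)) (x : ℕ) =>
    decide (x = z.2.1) || decide (x = z.2.2)) (Poly.range_length (Poly.fst Poly.id))
    (Poly.or (Poly.decide_eq (Poly.snd Poly.id) (Poly.fst (Poly.snd (Poly.fst Poly.id))))
      (Poly.decide_eq (Poly.snd Poly.id) (Poly.snd (Poly.snd (Poly.fst Poly.id)))))

theorem poly_un : Poly (fun z : List (List Bool) × List ℕ => un z.1 z.2) := by
  unfold un nEl
  refine Poly.length (Poly.filter (p := fun (z : List (List Bool) × List ℕ) (x : ℕ) =>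
    z.2.any (fun i => entry z.1 i x)) (Poly.range_length (Poly.getD (Poly.fst Poly.id)
    (Poly.const 0) (Poly.const []))) ?_)
  exact Poly.any (p := fun (w : (List (List Bool) × List ℕ) × ℕ) (i : ℕ) => entry w.1.1 i w.2)
    (Poly.snd (Poly.fst Poly.id)) (poly_entry (Poly.fst (Poly.fst (Poly.fst Poly.id)))
    (Poly.snd Poly.id) (Poly.snd (Poly.fst Poly.id)))

/-- the number of the pairs to be selected -/
def kk (c d s : ℕ) : ℕ := ((c - 1) * (d * s) + (c - 1)) / c

theorem kk_ge {c d s : ℕ} (hc : 1 ≤ c) : (c - 1) * (d * s) ≤ c * kk c d s := by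
  unfold kk
  have h1 := Nat.div_add_mod ((c - 1) * (d * s) + (c - 1)) c
  have h2 := Nat.mod_lt ((c - 1) * (d * s) + (c - 1)) (show 0 < c by omega)
  omega

theorem kk_le {c d s y : ℕ} (hc : 1 ≤ c) (h : (c - 1) * (d * s) ≤ c * y) : kk c d s ≤ y := by
  unfold kk
  refine Nat.lt_succ_iff.1 ((Nat.div_lt_iff_lt_mul (show 0 < c by omega)).2 ?_)
  have h1 : y.succ * c = c * y + c := by rw [Nat.succ_mul, mul_comm]
  omega

/-- the selection by the algorithm -/
def out (c : ℕ) (A : List Bool → List Bool) (q : List (List Bool) × ℕ × ℕ) : List ℕ :=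
  (unbits (List ℕ) (A (bits (rows q.1, kk c q.2.1 q.2.2)))).getD []

/-- the test -/
def tst (c α : ℕ) (A : List Bool → List Bool) (q : List (List Bool) × ℕ × ℕ) : Bool :=
  decide (2 ≤ q.2.2) && (decide (kk c q.2.1 q.2.2 ≤ (rows q.1).length) &&
    decide (un (rows q.1) (out c A q) ≤ α * q.2.2))

theorem poly_kk (c : ℕ) : Poly (fun q : List (List Bool) × ℕ × ℕ => kk c q.2.1 q.2.2) := by
  have hs : Poly (fun q : List (List Bool) × ℕ × ℕ => q.2.2) := Poly.snd (Poly.snd Poly.id)
  have hd : Poly (fun q : List (List Bool) × ℕ × ℕ => q.2.1) := Poly.fst (Poly.snd Poly.id)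
  unfold kk
  exact Poly.div (Poly.add (Poly.mul (Poly.const _) (Poly.mul hd hs)) (Poly.const _))
    (Poly.const _)

/-- the question to the algorithm -/
def qry (c : ℕ) (q : List (List Bool) × ℕ × ℕ) : List (List Bool) × ℕ :=
  (rows q.1, kk c q.2.1 q.2.2)

theorem poly_qry (c : ℕ) : Poly (qry c) :=
  Poly.pair (poly_rows.comp (Poly.fst Poly.id)) (poly_kk c)

theorem poly_ask {A : List Bool → List Bool} (hA : PolyTime A) {β γ : Type} [TEnc β] [TEnc γ]
    {f : β → γ} (hf : Poly f) : Poly (fun q : β => A (bits (f q))) := by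
  have h1 : PC (fun x : List Bool => x) (fun x : List Bool => x) A :=
    H642R2.TMSim.polyTime_toPC hA
  have h2 : PC (bits : β → List Bool) (fun x : List Bool => x) (fun q => bits (f q)) := hf
  have h3 : PC (bits : β → List Bool) (fun x : List Bool => x) (fun q => A (bits (f q))) :=
    PC.comp h1 h2
  exact PC.comp (g := fun x => x) PC.rawIn h3

theorem poly_getD_opt {β γ : Type} [TEnc β] [TEnc γ] {o : β → Option γ} (d : γ) (ho : Poly o) :
    Poly (fun q => (o q).getD d) := by
  refine (Poly.optCases (o := o) (g := fun _ => d) (h := fun _ S => S) ho (Poly.const _)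
    (Poly.snd Poly.id)).congr fun q => ?_
  cases o q <;> rfl

theorem poly_out (c : ℕ) {A : List Bool → List Bool} (hA : PolyTime A) :
    Poly (fun q : List (List Bool) × ℕ × ℕ => (unbits (List ℕ) (A (bits (qry c q)))).getD []) :=
  poly_getD_opt [] (poly_unbits.comp (poly_ask hA (poly_qry c)))

theorem poly_un_comp {β : Type} [TEnc β] {f : β → List (List Bool)} {g : β → List ℕ}
    (hf : Poly f) (hg : Poly g) : Poly (fun q => un (f q) (g q)) := by
  have h1 := Poly.pair hf hg
  have h2 := poly_un.comp h1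
  exact h2

theorem poly_tst (c α : ℕ) {A : List Bool → List Bool} (hA : PolyTime A) : Poly (tst c α A) := by
  have hr : Poly (fun q : List (List Bool) × ℕ × ℕ => rows q.1) :=
    poly_rows.comp (Poly.fst Poly.id)
  have hs : Poly (fun q : List (List Bool) × ℕ × ℕ => q.2.2) := Poly.snd (Poly.snd Poly.id)
  have ho : Poly (out c A) := poly_out c hA
  have h1 : Poly (fun q : List (List Bool) × ℕ × ℕ => decide (2 ≤ q.2.2)) :=
    Poly.decide_le (Poly.const 2) hs
  have h2 : Poly (fun q : List (List Bool) × ℕ × ℕ =>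
      decide (kk c q.2.1 q.2.2 ≤ (rows q.1).length)) :=
    Poly.decide_le (poly_kk c) (Poly.length hr)
  have h3 : Poly (fun q : List (List Bool) × ℕ × ℕ => un (rows q.1) (out c A q)) :=
    poly_un_comp hr ho
  have h4 : Poly (fun q : List (List Bool) × ℕ × ℕ =>
      decide (un (rows q.1) (out c A q) ≤ α * q.2.2)) :=
    Poly.decide_le h3 (Poly.mul (Poly.const α) hs)
  exact Poly.and h1 (Poly.and h2 h4)

/-- the test on strings -/
def tstS (c α : ℕ) (A : List Bool → List Bool) (x : List Bool) : List Bool :=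
  [tst c α A ((unbits (List (List Bool) × ℕ × ℕ) x).getD ([], 0, 0))]

theorem polyTime_tstS (c α : ℕ) {A : List Bool → List Bool} (hA : PolyTime A) :
    PolyTime (tstS c α A) := by
  refine polyTime_of_poly
    (g := fun x => tst c α A ((unbits (List (List Bool) × ℕ × ℕ) x).getD ([], 0, 0))) ?_
  exact (poly_tst c α hA).comp ((Poly.optCases
    (o := fun x => unbits (List (List Bool) × ℕ × ℕ) x)
    (g := fun _ => (([], 0, 0) : List (List Bool) × ℕ × ℕ)) (h := fun _ I => I) poly_unbits
    (Poly.const _) (Poly.snd Poly.id)).congr fun x => by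
      cases unbits (List (List Bool) × ℕ × ℕ) x <;> rfl)

theorem sel_le {M : List (List Bool)} {k : ℕ} {K : List ℕ} (h : IsSel M k K) : k ≤ M.length := by
  classical
  rw [← h.1, ← List.toFinset_card_of_nodup h.2.1, ← card_range M.length]
  refine card_le_card (fun x hx => ?_)
  rw [mem_range]
  exact h.2.2 x (List.mem_toFinset.1 hx)

theorem prs_one {M : List (List Bool)} {S : Finset (Fin M.length)} (h : S.card = 1) :
    (prs M S).card = 0 := by
  have h1 : prs M S ⊆ S.offDiag := by
    intro p hp
    have hp' := mem_filter.1 hp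
    have hp2 := mem_product.1 hp'.1
    rw [mem_offDiag]
    refine ⟨hp2.1, hp2.2, fun he => ?_⟩
    have h2 := hp'.2
    unfold adjB at h2
    rw [he] at h2
    simp at h2
  have h2 := card_le_card h1
  rw [offDiag_card, h] at h2
  omega

/-- **An approximation of Minimum k-Union solves the gap problem of small set expansion.** -/
theorem gapSse_of_mkU {α : ℕ} (hA : MkUApprox α) {η : ℝ} (hη : η * (9 * α ^ 2 + 2) ≤ 1) :
    GapSse η := by
  obtain ⟨A, hp, hA⟩ := hA
  obtain ⟨c, hc⟩ : ∃ c : ℕ, c = 9 * α ^ 2 + 2 := ⟨_, rfl⟩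
  have hη' : η * (c : ℝ) ≤ 1 := by rw [hc]; push_cast; exact hη
  have hc2 : 2 ≤ c := by omega
  have hcR : (0 : ℝ) < c := by exact_mod_cast (show 0 < c by omega)
  refine ⟨tstS c α A, polyTime_tstS c α hp, fun M d s hreg hd hs hsn => ?_⟩
  have e1 : tstS c α A (bits (M, d, s)) = [tst c α A (M, d, s)] := by
    unfold tstS
    rw [unbits_bits, Option.getD_some]
  have hds : 1 ≤ d * s := Nat.mul_pos hd hs
  have hdsR : (0 : ℝ) < (d : ℝ) * s := by exact_mod_cast hds
  have hηds : (c : ℝ) * (η * (d * s)) ≤ d * s := by nlinarith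
  rw [e1]
  constructor
  · rintro ⟨S, hS1, hS2⟩
    have h1 := prs_add_cut hreg S
    rw [hS1] at h1
    have h2 : c * cut M S ≤ d * s := by
      have : (c : ℝ) * cut M S ≤ d * s := (mul_le_mul_of_nonneg_left hS2 hcR.le).trans hηds
      exact_mod_cast this
    have h3 : (c - 1) * (d * s) ≤ c * (prs M S).card := by
      have h4 : c * (prs M S).card + c * cut M S = c * (d * s) := by rw [← mul_add, h1]
      have h5 : (c - 1) * (d * s) + d * s = c * (d * s) := by
        rw [Nat.sub_mul, one_mul]
        have : d * s ≤ c * (d * s) := Nat.le_mul_of_pos_left _ (by omega)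
        omega
      omega
    have hs2 : 2 ≤ s := by
      by_contra hcon
      have hs1 : s = 1 := by omega
      rw [prs_one (hS1.trans hs1), mul_zero] at h3
      have : 1 ≤ (c - 1) * (d * s) := Nat.mul_pos (by omega) hds
      omega
    obtain ⟨K, hK1, hK2⟩ := yes_sel (kk_le (by omega) h3)
    have hkl := sel_le hK1
    obtain ⟨K', g1, g2, g3⟩ := hA (rows M) (kk c d s) hkl
    have ho : out c A (M, d, s) = K' := by
      unfold out
      show (unbits (List ℕ) (A (bits (rows M, kk c d s)))).getD [] = K'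
      rw [g1, unbits_bits, Option.getD_some]
    have h6 : un (rows M) K' ≤ α * s := (g3 K hK1).trans
      (Nat.mul_le_mul_left _ (hK2.trans hS1.le))
    congr 1
    unfold tst
    rw [ho]
    simp only [Bool.and_eq_true, decide_eq_true_eq]
    exact ⟨hs2, hkl, h6⟩
  · intro hno
    congr 1
    rw [← Bool.not_eq_true]
    intro ht
    unfold tst at ht
    simp only [Bool.and_eq_true, decide_eq_true_eq] at ht
    obtain ⟨hs2, hkl, h6⟩ := ht
    obtain ⟨K', g1, g2, g3⟩ := hA (rows M) (kk c d s) hkl
    have ho : out c A (M, d, s) = K' := by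
      unfold out
      show (unbits (List ℕ) (A (bits (rows M, kk c d s)))).getD [] = K'
      rw [g1, unbits_bits, Option.getD_some]
    rw [ho] at h6
    have hk1 : (c - 1) * (d * s) ≤ c * kk c d s := kk_ge (by omega)
    have hk2 : 1 ≤ kk c d s := by
      by_contra hcon
      have h0 : kk c d s = 0 := by omega
      rw [h0, mul_zero] at hk1
      have : 1 ≤ (c - 1) * (d * s) := Nat.mul_pos (by omega) hds
      omega
    obtain ⟨T, hT1, hT2⟩ := no_sel hk2 g2
    have hB : ∀ S : Finset (Fin M.length), S.card = s → (prs M S).card ≤ d * s / c := by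
      intro S hS
      rw [Nat.le_div_iff_mul_le (by omega)]
      have h1 := prs_add_cut hreg S
      rw [hS] at h1
      have h2 := hno S hS
      have h3 : ((prs M S).card : ℝ) + cut M S = d * s := by exact_mod_cast h1
      have h4 : ((prs M S).card : ℝ) ≤ η * (d * s) := by nlinarith
      have h5 : (c : ℝ) * (prs M S).card ≤ d * s :=
        (mul_le_mul_of_nonneg_left h4 hcR.le).trans hηds
      rw [mul_comm]
      exact_mod_cast h5
    have hbl := blocks hs2 hsn (hT1.trans h6) hB
    have h7 : c * kk c d s ≤ 9 * α ^ 2 * (d * s) := by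
      calc c * kk c d s ≤ c * (9 * α ^ 2 * (d * s / c)) :=
            Nat.mul_le_mul_left _ (hT2.trans hbl)
        _ = 9 * α ^ 2 * (c * (d * s / c)) := by ring
        _ ≤ 9 * α ^ 2 * (d * s) := Nat.mul_le_mul_left _ (Nat.mul_div_le _ _)
    have h8 : (c - 1) * (d * s) = 9 * α ^ 2 * (d * s) + d * s := by
      rw [show c - 1 = 9 * α ^ 2 + 1 by omega]
      ring
    omega

end Pool.Agent.NPC.V11230.HBP
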