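import Mathlib

/-!
# Just-in-time sequences with prescribed cyclic distances
-/

set_option autoImplicit false

namespace Pool.Agent.NPC.V11230.JIT

/-- The positions (starting with `0`) of the letter `i` in the word `w`, in increasing order. -/
def positions (w : List ℕ) (i : ℕ) : List ℕ :=
  (List.range w.length).filter (fun t => decide (w[t]? = some i))

/-- For positions `p₁ < p₂ < … < p_d` in a cyclic word of length `D`: the distances
`p₂ - p₁, …, p_d - p_{d-1}` and the wrap-around distance `D + p₁ - p_d`. -/
def cyc (D : ℕ) (l : List ℕ) : List ℕ :=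
  List.zipWith (fun a b => b - a) l (l.tail ++ [D + l.headD 0])

/-- The distances of the letter `i` in the cyclic word `w`. -/
def distances (w : List ℕ) (i : ℕ) : List ℕ := cyc w.length (positions w i)

/-- The instance: `α` lists the decomposition vectors `α¹, …, αⁿ` (letters are numbered from `0`);
`dᵢ` is the number of components of `αⁱ`, and `total α` is `D = ∑ dᵢ`. -/
def total (α : List (List ℕ)) : ℕ := (α.map List.length).sum

/-- Each `αⁱ` is a decomposition vector of `D` into `dᵢ ≥ 1` components: a nonincreasing vector of
positive integers with sum `D`. -/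
def Valid (α : List (List ℕ)) : Prop :=
  ∀ v ∈ α, v ≠ [] ∧ (∀ x ∈ v, 1 ≤ x) ∧ v.Pairwise (fun a b => b ≤ a) ∧ v.sum = total α

/-- The nodes `α¹, …, αⁿ` are feasible: some just-in-time sequence `w` for `(d₁, …, dₙ)` has, for
every letter `i`, the multiset of distances of `i` equal to the multiset of components of `αⁱ`. -/
def Feasible (α : List (List ℕ)) : Prop :=
  ∃ w : List ℕ, (∀ x ∈ w, x < α.length) ∧
    (∀ (i : ℕ) (h : i < α.length), w.count i = α[i].length ∧ (distances w i).Perm α[i])

/-- The decision problem FEAS. -/
def FEAS (α : List (List ℕ)) : Prop := Valid α ∧ Feasible α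

/-! ### Positions -/

def posFrom (i : ℕ) : ℕ → List ℕ → List ℕ
  | _, [] => []
  | k, x :: u => if x = i then k :: posFrom i (k + 1) u else posFrom i (k + 1) u

theorem posFrom_shift (i : ℕ) : ∀ (u : List ℕ) (k : ℕ),
    posFrom i (k + 1) u = (posFrom i k u).map (· + 1)
  | [], k => rfl
  | x :: u, k => by
    simp only [posFrom]
    split_ifs
    · rw [List.map_cons, posFrom_shift i u (k + 1)]
    · exact posFrom_shift i u (k + 1)

theorem positions_eq (i : ℕ) : ∀ w : List ℕ, positions w i = posFrom i 0 w
  | [] => rfl
  | x :: u => by
    have ih := positions_eq i u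
    unfold positions at ih ⊢
    rw [List.length_cons, List.range_succ_eq_map, List.filter_cons, List.filter_map]
    have e : ((fun t => decide ((x :: u)[t]? = some i)) ∘ Nat.succ) =
        (fun t => decide (u[t]? = some i)) := by
      funext t
      simp
    rw [e, ih]
    simp only [posFrom, posFrom_shift, List.getElem?_cons_zero, Option.some.injEq]
    by_cases h : x = i
    · simp [h]
    · simp [h]

theorem posFrom_append (i : ℕ) : ∀ (u v : List ℕ) (k : ℕ),
    posFrom i k (u ++ v) = posFrom i k u ++ posFrom i (k + u.length) v
  | [], v, k => by simp [posFrom]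
  | x :: u, v, k => by
    simp only [List.cons_append, posFrom, posFrom_append i u v (k + 1), List.length_cons]
    have : k + 1 + u.length = k + (u.length + 1) := by omega
    rw [this]
    split_ifs <;> simp

theorem posFrom_nil {i : ℕ} : ∀ {u : List ℕ} (_ : i ∉ u) (k : ℕ), posFrom i k u = []
  | [], _, k => rfl
  | x :: u, h, k => by
    rw [List.mem_cons, not_or] at h
    simp only [posFrom]
    rw [if_neg (fun e => h.1 e.symm)]
    exact posFrom_nil h.2 (k + 1)

theorem posFrom_length (i : ℕ) : ∀ (u : List ℕ) (k : ℕ), (posFrom i k u).length = u.count i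
  | [], k => rfl
  | x :: u, k => by
    simp only [posFrom, List.count_cons]
    split_ifs with h1 h2
    · rw [List.length_cons, posFrom_length]
    · simp [h1] at h2
    · rename_i h3; simp at h3; exact absurd h3 h1
    · rw [posFrom_length]; rfl

theorem cyc_cons (D p : ℕ) (ps : List ℕ) :
    cyc D (p :: ps) = List.zipWith (fun a b => b - a) (p :: ps) (ps ++ [D + p]) := rfl

theorem cyc_length (D : ℕ) (l : List ℕ) : (cyc D l).length = l.length := by
  cases l with
  | nil => rfl
  | cons p ps => rw [cyc_cons, List.length_zipWith]; simp

theorem cyc_map_succ (D : ℕ) (l : List ℕ) : cyc D (l.map (· + 1)) = cyc D l := by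
  cases l with
  | nil => rfl
  | cons p ps =>
    rw [List.map_cons, cyc_cons, cyc_cons]
    have : ps.map (· + 1) ++ [D + (p + 1)] = (ps ++ [D + p]).map (· + 1) := by simp; omega
    rw [this]
    change List.zipWith _ ((p :: ps).map (· + 1)) _ = _
    rw [List.zipWith_map]
    congr 1
    funext a b
    omega

/-- Rotating the word by one letter does not change the multiset of distances. -/
theorem rotate_one (x i : ℕ) (u : List ℕ) :
    (distances (x :: u) i).Perm (distances (u ++ [x]) i) := by
  unfold distances
  rw [positions_eq, positions_eq, posFrom_append]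
  simp only [posFrom, List.length_cons, List.length_append, List.length_nil, Nat.zero_add]
  rw [posFrom_shift]
  by_cases h : x = i
  · rw [if_pos h, if_pos h]
    cases hl : posFrom i 0 u with
    | nil => simp [cyc]
    | cons p ps =>
      rw [List.cons_append, cyc_cons, cyc_cons, List.map_cons]
      have e1 : List.zipWith (fun a b => b - a) (0 :: (p + 1) :: ps.map (· + 1))
          ((p + 1) :: ps.map (· + 1) ++ [u.length + 1 + 0]) =
          (p + 1) :: List.zipWith (fun a b => b - a) (p :: ps) (ps ++ [u.length]) := by
        rw [List.cons_append, List.zipWith_cons_cons]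
        congr 1
        have : ps.map (· + 1) ++ [u.length + 1 + 0] = (ps ++ [u.length]).map (· + 1) := by simp
        rw [this]
        change List.zipWith _ ((p :: ps).map (· + 1)) _ = _
        rw [List.zipWith_map]
        congr 1
        funext a b
        omega
      have e2 : List.zipWith (fun a b => b - a) (p :: (ps ++ [u.length]))
          (ps ++ [u.length] ++ [u.length + 1 + p]) =
          List.zipWith (fun a b => b - a) (p :: ps) (ps ++ [u.length]) ++ [p + 1] := by
        rw [← List.cons_append, List.zipWith_append (by simp)]
        congr 1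
        simp
        omega
      rw [e1, e2]
      exact (List.perm_append_singleton _ _).symm
  · rw [if_neg h, if_neg h, List.append_nil, cyc_map_succ]

theorem rotate_append (i : ℕ) : ∀ u v : List ℕ,
    (distances (u ++ v) i).Perm (distances (v ++ u) i)
  | [], v => by simp
  | x :: u, v => by
    rw [List.cons_append]
    refine (rotate_one x i (u ++ v)).trans ?_
    rw [List.append_assoc]
    refine (rotate_append i u (v ++ [x])).trans ?_
    rw [List.append_assoc, List.singleton_append]

/-! ### Blocks -/

/-- the word made of the blocks `bs`, each preceded by the separator `0` -/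
def word (bs : List (List ℕ)) : List ℕ := bs.flatMap (fun b => 0 :: b)

theorem split_zero : ∀ u : List ℕ, ∃ (b : List ℕ) (bs : List (List ℕ)), u = b ++ word bs ∧ 0 ∉ b ∧
    ∀ c ∈ bs, 0 ∉ c
  | [] => ⟨[], [], rfl, by simp, by simp⟩
  | x :: u => by
    obtain ⟨b, bs, hu, hb, hbs⟩ := split_zero u
    by_cases hx : x = 0
    · refine ⟨[], b :: bs, ?_, by simp, ?_⟩
      · subst hx; rw [hu]; simp [word]
      · intro c hc
        rcases List.mem_cons.1 hc with rfl | hc
        · exact hb
        · exact hbs c hc
    · refine ⟨x :: b, bs, by rw [hu]; simp, ?_, hbs⟩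
      simp [hb, Ne.symm hx]

theorem word_length (bs : List (List ℕ)) :
    (word bs).length = (bs.map (fun b => b.length + 1)).sum := by
  unfold word
  rw [List.length_flatMap]
  simp

/-- the separator positions and their differences -/
theorem pos_word : ∀ (bs : List (List ℕ)) (k : ℕ), (∀ c ∈ bs, 0 ∉ c) → 
    List.zipWith (fun a b => b - a) (posFrom 0 k (word bs))
      ((posFrom 0 k (word bs)).tail ++ [k + (word bs).length]) = bs.map (fun b => b.length + 1)
  | [], k, _ => rfl
  | b :: bs, k, h => by
    have hb : 0 ∉ b := h b (List.mem_cons_self)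
    have hbs : ∀ c ∈ bs, 0 ∉ c := fun c hc => h c (List.mem_cons_of_mem _ hc)
    have hw : word (b :: bs) = 0 :: (b ++ word bs) := by simp [word]
    have hp : posFrom 0 k (word (b :: bs)) = k :: posFrom 0 (k + 1 + b.length) (word bs) := by
      rw [hw]
      simp only [posFrom, if_true]
      rw [posFrom_append, posFrom_nil hb, List.nil_append]
    have ih := pos_word bs (k + 1 + b.length) hbs
    have hE : k + (word (b :: bs)).length = k + 1 + b.length + (word bs).length := by
      rw [hw]; simp; omega
    rw [hp, hE, List.tail_cons, List.map_cons, ← ih]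
    cases bs with
    | nil => simp [word, posFrom]; omega
    | cons b' bs' =>
      have hp' : posFrom 0 (k + 1 + b.length) (word (b' :: bs')) = (k + 1 + b.length) ::
          posFrom 0 (k + 1 + b.length + 1 + b'.length) (word bs') := by
        have hb' : 0 ∉ b' := hbs b' (List.mem_cons_self)
        have hw' : word (b' :: bs') = 0 :: (b' ++ word bs') := by simp [word]
        rw [hw']
        simp only [posFrom, if_true]
        rw [posFrom_append, posFrom_nil hb', List.nil_append]
      rw [hp', List.cons_append, List.zipWith_cons_cons, List.tail_cons]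
      congr 1
      omega

theorem dist_zero {bs : List (List ℕ)} (h : ∀ c ∈ bs, 0 ∉ c) :
    distances (word bs) 0 = bs.map (fun b => b.length + 1) := by
  have := pos_word bs 0 h
  unfold distances cyc
  rw [positions_eq]
  rw [Nat.zero_add] at this
  cases bs with
  | nil => rfl
  | cons b bs =>
    have hh : (posFrom 0 0 (word (b :: bs))).headD 0 = 0 := by simp [word, posFrom]
    rw [hh, Nat.add_zero]
    exact this

/-! ### Items -/

/-- the decomposition vector of an item of size `a` -/
def vec (D a : ℕ) : List ℕ := (D + 1 - a) :: List.replicate (a - 1) 1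

theorem posFrom_replicate (i : ℕ) : ∀ (a k : ℕ), posFrom i k (List.replicate a i) = List.range' k a
  | 0, k => rfl
  | a + 1, k => by
    rw [List.replicate_succ, List.range'_succ]
    simp only [posFrom, if_true]
    rw [posFrom_replicate i a (k + 1)]

theorem zip_range' : ∀ (b s E : ℕ),
    List.zipWith (fun a b => b - a) (List.range' s (b + 1)) (List.range' (s + 1) b ++ [E]) =
      List.replicate b 1 ++ [E - (s + b)]
  | 0, s, E => by simp
  | b + 1, s, E => by
    change List.zipWith (fun a b => b - a) (s :: List.range' (s + 1) (b + 1))
      ((s + 1) :: (List.range' (s + 1 + 1) b ++ [E])) = _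
    rw [List.zipWith_cons_cons, zip_range' b (s + 1) E, List.replicate_succ, List.cons_append]
    congr 1
    · omega
    · congr 2
      omega

theorem dist_block {i a : ℕ} {x z : List ℕ} (hx : i ∉ x) (hz : i ∉ z) (ha : 1 ≤ a) :
    (distances (x ++ (List.replicate a i ++ z)) i).Perm
      (vec (x ++ (List.replicate a i ++ z)).length a) := by
  unfold distances vec
  rw [positions_eq, posFrom_append, posFrom_append, posFrom_nil hx, posFrom_nil hz,
    posFrom_replicate, List.nil_append, List.append_nil]
  generalize (x ++ (List.replicate a i ++ z)).length = D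
  obtain ⟨b, rfl⟩ : ∃ b, a = b + 1 := ⟨a - 1, by omega⟩
  have e : List.range' (0 + x.length) (b + 1) =
      (0 + x.length) :: List.range' (0 + x.length + 1) b := List.range'_succ ..
  have e2 : cyc D (List.range' (0 + x.length) (b + 1)) =
      List.replicate b 1 ++ [D + (0 + x.length) - (0 + x.length + b)] := by
    rw [← zip_range', e, cyc_cons]
  rw [e2]
  have e3 : D + (0 + x.length) - (0 + x.length + b) = D + 1 - (b + 1) := by omega
  rw [e3, Nat.add_sub_cancel]
  exact List.perm_append_singleton _ _

/-- Conversely a letter with the distances `vec D a`, other than the first letter of the word,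
occupies an interval. -/
theorem block_of_dist {i a : ℕ} {w : List ℕ} (ha : 1 ≤ a)
    (hw : w.head? ≠ some i) (h : (distances w i).Perm (vec w.length a)) :
    ∃ x z, w = x ++ (List.replicate a i ++ z) ∧ i ∉ x ∧ i ∉ z := by
  have hc : w.count i = a := by
    have := h.length_eq
    unfold distances at this
    rw [cyc_length, positions_eq, posFrom_length] at this
    rw [this]
    simp only [vec, List.length_cons, List.length_replicate]
    omega
  have hmem : i ∈ w := by
    rw [← List.count_pos_iff]; omega
  obtain ⟨x, w', rfl, hx⟩ := List.eq_append_cons_of_mem hmem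
  -- split from the right
  have key : ∃ y z, w' = y ++ z ∧ i ∉ z ∧ (y = [] ∨ ∃ y', y = y' ++ [i]) := by
    by_cases hm : i ∈ w'
    · obtain ⟨z, y, hzy, hz⟩ := List.eq_append_cons_of_mem (List.mem_reverse.2 hm)
      have : w' = (y.reverse ++ [i]) ++ z.reverse := by
        rw [← List.reverse_reverse w', hzy]; simp
      exact ⟨y.reverse ++ [i], z.reverse, this, by simpa using hz, Or.inr ⟨_, rfl⟩⟩
    · exact ⟨[], w', rfl, hm, Or.inl rfl⟩
  obtain ⟨y, z, rfl, hz, hy⟩ := key
  refine ⟨x, z, ?_, hx, hz⟩
  have hcy : (i :: y).count i = a := by
    rw [List.count_append, List.count_eq_zero_of_not_mem hx, ← List.cons_append, List.count_append,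
      List.count_eq_zero_of_not_mem hz] at hc
    omega
  have hlast : (x ++ i :: (y ++ z)).length - y.length ∈ distances (x ++ i :: (y ++ z)) i := by
    unfold distances
    rw [positions_eq, posFrom_append, posFrom_nil hx, List.nil_append]
    simp only [posFrom, if_true]
    rw [posFrom_append, posFrom_nil hz, List.append_nil]
    generalize hD : (x ++ i :: (y ++ z)).length = D
    rcases hy with rfl | ⟨y', rfl⟩
    · simp [posFrom, cyc]
    · rw [posFrom_append]
      simp only [posFrom, if_true]
      rw [cyc_cons, ← List.cons_append, List.zipWith_append (by simp)]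
      refine List.mem_append_right _ ?_
      simp
      omega
  have hlast' := h.mem_iff.1 hlast
  have hlen : (i :: y).length = a := by
    simp only [vec, List.mem_cons, List.mem_replicate] at hlast'
    have hy1 : a ≤ (i :: y).length := by rw [← hcy]; exact List.count_le_length
    have hD : (x ++ i :: (y ++ z)).length = x.length + y.length + z.length + 1 := by
      simp; omega
    rw [hD] at hlast'
    rw [List.length_cons] at hy1 ⊢
    rcases hlast' with h1 | ⟨-, h1⟩
    · omega
    · exfalso
      have hx0 : x = [] := List.eq_nil_of_length_eq_zero (by omega)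
      subst hx0
      exact hw rfl
  have hrep : i :: y = List.replicate a i := by
    rw [List.eq_replicate_iff]
    refine ⟨hlen, ?_⟩
    rw [← hlen] at hcy
    intro b hb
    exact (List.count_eq_length.1 hcy b hb).symm
  rw [← hrep]
  rfl

end Pool.Agent.NPC.V11230.JIT
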