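import Pool.Agent.V11230.JITRed
import Pool.Agent.Y592.OP.NPMem
import Pool.Agent.Y644.QS.PolyBase

/-!
# FEAS is NP-complete
-/

set_option autoImplicit false

namespace Pool.Agent.NPC.V11230.JIT

open Pool.Agent.NPC.V11230.VB

def sortDesc (V : ℕ) (L : List ℕ) : List ℕ :=
  (List.range (V + 1)).flatMap (fun v => L.filter (fun x => decide (x = V - v)))

theorem count_filter_eq (L : List ℕ) (b a : ℕ) :
    (L.filter (fun x => decide (x = b))).count a = if a = b then L.count a else 0 := by
  induction L with
  | nil => simp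
  | cons x L ih =>
    rw [List.filter_cons, List.count_cons]
    by_cases hx : x = b
    · subst hx
      simp only [decide_true, if_true, List.count_cons, ih]
      by_cases ha : a = x
      · subst ha; simp
      · have : ¬ (x == a) = true := by simp; exact fun h => ha h.symm
        simp [ha, this]
    · simp only [hx, decide_false, Bool.false_eq_true, if_false, ih]
      by_cases ha : a = b
      · subst ha
        have : ¬ (x == a) = true := by simpa using hx
        simp [this]
      · simp [ha]

theorem sortDesc_perm {V : ℕ} {L : List ℕ} (hL : ∀ x ∈ L, x ≤ V) : (sortDesc V L).Perm L := by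
  rw [List.perm_iff_count]
  intro a
  have key : ∀ n, n ≤ V + 1 →
      ((List.range n).flatMap (fun v => L.filter (fun x => decide (x = V - v)))).count a =
        if a ≤ V ∧ V < a + n then L.count a else 0 := by
    intro n
    induction n with
    | zero =>
      intro _
      have : ¬ (a ≤ V ∧ V < a + 0) := by omega
      simp [this]
    | succ n ih =>
      intro hn
      rw [List.range_succ, List.flatMap_append, List.count_append, ih (by omega)]
      simp only [List.flatMap_cons, List.flatMap_nil, List.append_nil, count_filter_eq]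
      by_cases h1 : a = V - n
      · have h2 : ¬ (a ≤ V ∧ V < a + n) := by omega
        have h3 : a ≤ V ∧ V < a + (n + 1) := by omega
        rw [if_neg h2, if_pos h3, if_pos h1]
        omega
      · by_cases h2 : a ≤ V ∧ V < a + n
        · have h3 : a ≤ V ∧ V < a + (n + 1) := by omega
          simp [h1, h2, h3]
        · have h3 : ¬ (a ≤ V ∧ V < a + (n + 1)) := by omega
          simp [h1, h2, h3]
  unfold sortDesc
  rw [key (V + 1) le_rfl]
  by_cases ha : a ≤ V
  · rw [if_pos (by omega)]
  · rw [if_neg (by omega)]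
    exact (List.count_eq_zero_of_not_mem (fun h => ha (hL a h))).symm

theorem sortDesc_sorted (V : ℕ) (L : List ℕ) : (sortDesc V L).Pairwise (fun a b => b ≤ a) := by
  unfold sortDesc
  rw [List.pairwise_flatMap]
  constructor
  · intro v _
    have : (L.filter (fun x => decide (x = V - v))) =
        List.replicate (L.filter (fun x => decide (x = V - v))).length (V - v) := by
      rw [List.eq_replicate_iff]
      refine ⟨rfl, ?_⟩
      intro b hb
      simpa using (List.mem_filter.1 hb).2
    rw [this]
    exact List.pairwise_replicate_of_refl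
  · refine List.pairwise_lt_range.imp ?_
    intro a b hab x hx y hy
    have h1 : x = V - a := by simpa using (List.mem_filter.1 hx).2
    have h2 : y = V - b := by simpa using (List.mem_filter.1 hy).2
    omega

/-- the vector of an item, clipped -/
def vecC (V D a : ℕ) : List ℕ := (D + 1 - a) :: List.replicate (min (a - 1) V) 1

def qf (I : List (ℕ × ℕ × ℕ) × ℕ) : ℕ := min I.2 I.1.length
def rf (I : List (ℕ × ℕ × ℕ) × ℕ) : ℕ := 4 * qf I + 4
def Vf (I : List (ℕ × ℕ × ℕ) × ℕ) : ℕ := 31 * (rf I * rf I * rf I) + 1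
def Lf (I : List (ℕ × ℕ × ℕ) × ℕ) : List ℕ := I.1.map (fun t => val (rf I) (bin t) + 1)

def redF (I : List (ℕ × ℕ × ℕ) × ℕ) : List (List ℕ) :=
  sortDesc (Vf I) (Lf I) :: (items I.1 (qf I)).map (fun x => vecC (Vf I) (Lf I).sum (val (rf I) x))

theorem val_le {q r : ℕ} {x : It} (hr : 4 * q < r) (h0 : x.1 ≤ 30) (h1 : x.2.1 ≤ q)
    (h2 : x.2.2.1 ≤ q) (h3 : x.2.2.2 ≤ q) : val r x ≤ 31 * (r * r * r) := by
  have hr0 : 0 < r := by omega
  unfold val
  have f0 : x.1 * r ^ 3 ≤ 30 * r ^ 3 := Nat.mul_le_mul_right _ h0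
  have f1 : x.2.2.2 * r ^ 2 ≤ q * r ^ 2 := Nat.mul_le_mul_right _ (by omega)
  have f2 : x.2.2.1 * r ≤ q * r := Nat.mul_le_mul_right _ (by omega)
  have f2' : q * r ≤ q * r ^ 2 := Nat.mul_le_mul_left _ (by nlinarith)
  have f3 : x.2.1 ≤ q * r ^ 2 := by
    calc x.2.1 ≤ q * 1 := by omega
      _ ≤ q * r ^ 2 := Nat.mul_le_mul_left _ (Nat.one_le_pow _ _ hr0)
  have f4 : 3 * q * r ^ 2 ≤ r * r ^ 2 := Nat.mul_le_mul_right _ (by omega)
  have f5 : r ^ 3 = r * r ^ 2 := by ring
  have f6 : r * r * r = r * r ^ 2 := by ring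
  rw [f6]
  nlinarith

theorem redF_eq {I : List (ℕ × ℕ × ℕ) × ℕ} (h : TDMPr I) :
    redF I = sortDesc (Vf I) (Lf I) ::
      ((items I.1 I.2).map (val (rf I))).map (vec (Lf I).sum) ∧
      (sortDesc (Vf I) (Lf I)).Perm (Lf I) ∧
      (∀ a ∈ (items I.1 I.2).map (val (rf I)), 1 ≤ a) := by
  obtain ⟨h1, h2, h3⟩ := h
  have hq : qf I = I.2 := min_eq_left h3
  have hr : rf I = 4 * I.2 + 4 := by rw [rf, hq]
  have hr0 : 0 < rf I := by omega
  have hbound : ∀ x ∈ Lf I, x ≤ Vf I := by
    intro x hx
    obtain ⟨t, ht, rfl⟩ := List.mem_map.1 hx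
    have hMt := h1 t ht
    unfold Vf
    have := val_le (x := bin t) (r := rf I) (q := I.2) (by omega) (by simp [bin])
      (by simp only [bin]; omega) (by simp only [bin]; omega) (by simp only [bin]; omega)
    omega
  have hpos : ∀ a ∈ (items I.1 I.2).map (val (rf I)), 1 ≤ a := by
    intro a ha
    obtain ⟨x, hx, rfl⟩ := List.mem_map.1 ha
    have hk := kind_items hx
    have h10 : 8 ≤ x.1 := by unfold Kind at hk; omega
    unfold val
    have : 1 ≤ rf I ^ 3 := Nat.one_le_pow _ _ hr0
    nlinarith [Nat.zero_le (x.2.2.2 * rf I ^ 2), Nat.zero_le (x.2.2.1 * rf I)]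
  refine ⟨?_, sortDesc_perm hbound, hpos⟩
  unfold redF
  rw [hq, List.map_map]
  congr 1
  refine List.map_congr_left fun x hx => ?_
  simp only [Function.comp_apply, vecC, vec]
  congr 2
  refine min_eq_left ?_
  have hk := kind_items hx
  unfold Kind at hk
  have := val_le (x := x) (r := rf I) (q := I.2) (by omega) (by omega) (by omega) (by omega)
    (by omega)
  unfold Vf
  omega

theorem dum_eq (q : ℕ) (L : List ℕ) : VB.dum q L =
    (List.range q).flatMap (fun i => (L.filter (fun x => decide (x = i))).tail) := by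
  unfold VB.dum
  refine List.flatMap_congr fun i _ => ?_
  have : L.filter (fun x => decide (x = i)) = List.replicate (L.count i) i := by
    rw [List.eq_replicate_iff]
    constructor
    · rw [List.count_eq_countP, List.countP_eq_length_filter]
      congr 1
    · intro b hb
      simpa using (List.mem_filter.1 hb).2
  rw [this]
  cases L.count i <;> simp [List.replicate_succ]

theorem upoly_qf : UPoly qf :=
  UPoly.of_le (by unfold qf; fun_prop) (UPoly.length (Poly.fst Poly.id)) (fun _ => Nat.min_le_right _ _)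

theorem upoly_rf : UPoly rf := by
  unfold rf
  exact UPoly.add (UPoly.mul (UPoly.const 4) upoly_qf) (UPoly.const 4)

theorem upoly_Vf : UPoly Vf := by
  unfold Vf
  exact UPoly.add (UPoly.mul (UPoly.const 31)
    (UPoly.mul (UPoly.mul upoly_rf upoly_rf) upoly_rf)) (UPoly.const 1)

theorem poly_val {α : Type} [TEnc α] {r : α → ℕ} {x : α → It} (hr : Poly r) (hx : Poly x) :
    Poly (fun a => val (r a) (x a)) := by
  have : Poly (fun a => (x a).1 * (r a * r a * r a) + (x a).2.2.2 * (r a * r a) +
      (x a).2.2.1 * (r a) + (x a).2.1) := by fun_prop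
  refine this.congr fun a => ?_
  unfold val
  ring

theorem poly_dum {α : Type} [TEnc α] {q : α → ℕ} {L : α → List ℕ} (hq : UPoly q) (hL : Poly L) :
    Poly (fun a => VB.dum (q a) (L a)) := by
  have hr : Poly (fun a => List.range (q a)) := hq.range
  have : Poly (fun a => (List.range (q a)).flatMap
      (fun i => ((L a).filter (fun x => decide (x = i))).tail)) := by fun_prop
  exact this.congr fun a => (dum_eq _ _).symm

theorem poly_items : Poly (fun I : List (ℕ × ℕ × ℕ) × ℕ => items I.1 (qf I)) := by
  have hr : Poly (fun I => List.range (qf I)) := upoly_qf.range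
  have h1 : Poly (fun I => VB.dum (qf I) (I.1.map (fun t => t.1))) := poly_dum upoly_qf (by fun_prop)
  have h2 : Poly (fun I => VB.dum (qf I) (I.1.map (fun t => t.2.1))) := poly_dum upoly_qf (by fun_prop)
  have h3 : Poly (fun I => VB.dum (qf I) (I.1.map (fun t => t.2.2))) := poly_dum upoly_qf (by fun_prop)
  unfold items rW rX rY dW dX dY
  fun_prop

theorem poly_Lf : Poly Lf := by
  unfold Lf bin
  have hr : Poly rf := upoly_rf.toPoly
  refine Poly.map (F := fun I (t : ℕ × ℕ × ℕ) => val (rf I) (30, t.1 + 1, t.2.1 + 1, t.2.2 + 1) + 1)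
    (by fun_prop) ?_
  have : Poly (fun p : (List (ℕ × ℕ × ℕ) × ℕ) × (ℕ × ℕ × ℕ) =>
      val (rf p.1) (30, p.2.1 + 1, p.2.2.1 + 1, p.2.2.2 + 1)) :=
    poly_val (hr.comp (Poly.fst Poly.id)) (by fun_prop)
  fun_prop

theorem poly_redF : Poly redF := by
  unfold redF sortDesc vecC
  have hr : Poly rf := upoly_rf.toPoly
  have hV : Poly Vf := upoly_Vf.toPoly
  have hL := poly_Lf
  have hI := poly_items
  have hVr : Poly (fun I => List.range (Vf I + 1)) :=
    (UPoly.add upoly_Vf (UPoly.const 1)).range
  refine Poly.cons (by fun_prop) (Poly.map (F := fun I (x : It) =>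
    ((Lf I).sum + 1 - val (rf I) x) :: List.replicate (min (val (rf I) x - 1) (Vf I)) 1) hI ?_)
  have hv : Poly (fun p : (List (ℕ × ℕ × ℕ) × ℕ) × It => val (rf p.1) p.2) :=
    poly_val (hr.comp (Poly.fst Poly.id)) (Poly.snd Poly.id)
  refine Poly.cons (by fun_prop) (Poly.replicateU ?_ (Poly.const 1))
  exact UPoly.of_le (by fun_prop) (upoly_Vf.comp (Poly.fst Poly.id)) (fun _ => Nat.min_le_right _ _)

/-- FEAS is NP-hard. -/
theorem hardI_FEAS : HardI FEAS := by
  refine (hardPr_TDM.trans (Pr' := fun _ => True) poly_redF (fun _ _ => trivial) ?_).toHardI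
  intro I hI
  obtain ⟨e1, e2, e3⟩ := redF_eq hI
  obtain ⟨h1, h2, h3⟩ := hI
  have hq : qf I = I.2 := min_eq_left h3
  have hr : 3 * I.2 + 1 < rf I := by rw [rf, hq]; omega
  have hL : Lf I = (I.1.map (fun t => val (rf I) (bin t))).map (· + 1) := by
    unfold Lf
    rw [List.map_map]
    rfl
  have hB : I.1.map (fun t => val (rf I) (bin t)) ≠ [] := by
    intro h0
    have : I.1.length = 0 := by
      have := congrArg List.length h0
      simpa using this
    omega
  rw [e1]
  constructor
  · intro h
    exact vbp_to_feas e3 hB (hL ▸ e2) (sortDesc_sorted _ _) e2.sum_eq (tdm_to_vbp h1 h)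
  · intro h
    exact vbp_to_tdm hr h1 (feas_to_vbp e3 hB (hL ▸ e2) e2.sum_eq h)

/-! ### Membership in NP -/

theorem perm_iff_test (l l' : List ℕ) : l.Perm l' ↔
    ∀ x ∈ l ++ l', (l.filter (fun y => decide (y = x))).length =
      (l'.filter (fun y => decide (y = x))).length := by
  have hc : ∀ (l : List ℕ) (x : ℕ), (l.filter (fun y => decide (y = x))).length = l.count x := by
    intro l x
    rw [List.count_eq_countP, List.countP_eq_length_filter]
    congr 1
  constructor
  · intro h x _
    rw [hc, hc, h.count_eq]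
  · intro h
    rw [List.perm_iff_count]
    intro a
    by_cases ha : a ∈ l ++ l'
    · have := h a ha
      rwa [hc, hc] at this
    · rw [List.mem_append, not_or] at ha
      rw [List.count_eq_zero_of_not_mem ha.1, List.count_eq_zero_of_not_mem ha.2]

theorem pp_perm {α : Type} [TEnc α] {l l' : α → List ℕ} (hl : Poly l) (hl' : Poly l') :
    PP (fun a => (l a).Perm (l' a)) := by
  refine PP.congr (p := fun a => ∀ x ∈ l a ++ l' a,
    ((l a).filter (fun y => decide (y = x))).length =
      ((l' a).filter (fun y => decide (y = x))).length) ?_ (fun a => (perm_iff_test _ _).symm)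
  refine PP.ball (by fun_prop) (PP.eq ?_ ?_)
  · fun_prop
  · fun_prop

theorem poly_distances {α : Type} [TEnc α] {w : α → List ℕ} {i : α → ℕ} (hw : Poly w)
    (hi : Poly i) : Poly (fun a => distances (w a) (i a)) := by
  have hp : Poly (fun a => positions (w a) (i a)) := by
    unfold positions
    have hr : Poly (fun a => List.range (w a).length) := (UPoly.length hw).range
    fun_prop
  have hh : Poly (fun a => (positions (w a) (i a)).head?.getD 0) := Poly.head?_getD hp 0
  have hh' : Poly (fun a => (positions (w a) (i a)).headD 0) := hh.congr fun a => by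
    cases positions (w a) (i a) <;> rfl
  unfold distances cyc
  exact Poly.zipWith hp (by fun_prop) (by fun_prop)

theorem pp_valid : PP Valid := by
  unfold Valid total
  refine PP.ball (l := fun α : List (List ℕ) => α) (r := fun α v => v ≠ [] ∧ (∀ x ∈ v, 1 ≤ x) ∧
    v.Pairwise (fun a b => b ≤ a) ∧ v.sum = (α.map List.length).sum) Poly.id ?_
  refine PP.and (PP.ne (by fun_prop) (by fun_prop)) (PP.and ?_ (PP.and ?_
    (PP.eq (by fun_prop) (by fun_prop))))
  · exact PP.ball (l := fun x : List (List ℕ) × List ℕ => x.2) (r := fun _ y => 1 ≤ y)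
      (by fun_prop) (PP.le (by fun_prop) (by fun_prop))
  · exact Y592.OP.pp_pairwise (Poly.snd Poly.id) (PP.le (by fun_prop) (by fun_prop))

/-- the test of a certificate -/
def Cert (α : List (List ℕ)) (w : List ℕ) : Prop :=
  Valid α ∧ (∀ x ∈ w, x < α.length) ∧ ∀ p ∈ α.zipIdx,
    (w.filter (fun y => decide (y = p.2))).length = p.1.length ∧ (distances w p.2).Perm p.1

theorem cert_iff (α : List (List ℕ)) (w : List ℕ) : Cert α w ↔
    Valid α ∧ (∀ x ∈ w, x < α.length) ∧
    (∀ (i : ℕ) (h : i < α.length), w.count i = α[i].length ∧ (distances w i).Perm α[i]) := by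
  have hc : ∀ (l : List ℕ) (x : ℕ), (l.filter (fun y => decide (y = x))).length = l.count x := by
    intro l x
    rw [List.count_eq_countP, List.countP_eq_length_filter]
    congr 1
  unfold Cert
  refine and_congr_right fun _ => and_congr_right fun _ => ?_
  constructor
  · intro h i hi
    have := h (α[i], i) (by rw [List.mem_zipIdx_iff_getElem?]; simp)
    rwa [hc] at this
  · rintro h ⟨v, i⟩ hv
    rw [List.mem_zipIdx_iff_getElem?] at hv
    obtain ⟨hi, hv'⟩ := List.getElem?_eq_some_iff.1 hv
    simp only at hi hv' ⊢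
    subst hv'
    rw [hc]
    exact h i hi

theorem pp_cert : PP (fun x : List (List ℕ) × List ℕ => Cert x.1 x.2) := by
  unfold Cert
  refine PP.and (pp_valid.comp (by fun_prop)) (PP.and ?_ ?_)
  · exact PP.ball (l := fun x : List (List ℕ) × List ℕ => x.2) (r := fun x y => y < x.1.length)
      (by fun_prop) (PP.lt (by fun_prop) (by fun_prop))
  · refine PP.ball (l := fun x : List (List ℕ) × List ℕ => x.1.zipIdx) (r := fun x p =>
      (x.2.filter (fun y => decide (y = p.2))).length = p.1.length ∧
        (distances x.2 p.2).Perm p.1) (by fun_prop) ?_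
    exact PP.and (PP.eq (by fun_prop) (by fun_prop)) (pp_perm
      (poly_distances (by fun_prop) (by fun_prop)) (by fun_prop))

theorem length_le_sz {β : Type} [TEnc β] (l : List β) : l.length ≤ sz l := by
  induction l with
  | nil => simp
  | cons a l ih => rw [sz_list_cons, List.length_cons]; omega

theorem total_le_sz : ∀ α : List (List ℕ), total α ≤ sz α
  | [] => by simp [total]
  | v :: α => by
    have := total_le_sz α
    have := length_le_sz v
    unfold total at *
    rw [sz_list_cons, List.map_cons, List.sum_cons]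
    omega

theorem inNPP_FEAS : InNPP FEAS := by
  obtain ⟨b, hb, hb'⟩ := pp_cert
  refine inNPP_of (β := List ℕ) hb (Polynomial.X * (4 * Polynomial.X + 2) + 1) (fun α => ⟨?_, ?_⟩)
  · rintro ⟨hV, w, h1, h2⟩
    refine ⟨w, ?_, (hb' (α, w)).2 ((cert_iff α w).2 ⟨hV, h1, h2⟩)⟩
    have hl : w.length = total α := length_of_feasible h1 (fun i hi => (h2 i hi).1)
    have hs : ∀ x ∈ w, sz x ≤ 4 * sz α + 1 := by
      intro x hx
      apply Y592.OP.sz_le_of_le
      have := h1 x hx
      have := length_le_sz α
      omega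
    have h3 := sz_le_length_mul w _ hs
    have h4 := total_le_sz α
    have h5 : w.length * (4 * sz α + 1 + 1) ≤ sz α * (4 * sz α + 2) :=
      Nat.mul_le_mul (by omega) (by omega)
    simp only [Polynomial.eval_add, Polynomial.eval_mul, Polynomial.eval_X,
      Polynomial.eval_one, Polynomial.eval_ofNat]
    omega
  · rintro ⟨w, -, hR⟩
    obtain ⟨hV, h1, h2⟩ := (cert_iff α w).1 ((hb' (α, w)).1 hR)
    exact ⟨hV, w, h1, h2⟩

end Pool.Agent.NPC.V11230.JIT
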