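import Pool.Agent.V11230.VBP
import Pool.Agent.V11230.JIT

/-!
# FEAS and exact bin packing
-/

set_option autoImplicit false

namespace Pool.Agent.NPC.V11230.JIT

open Pool.Agent.NPC.V11230.VB

theorem vec_length {D a : ℕ} (ha : 1 ≤ a) : (vec D a).length = a := by
  simp only [vec, List.length_cons, List.length_replicate]; omega

theorem vec_sum {D a : ℕ} (ha : 1 ≤ a) (hD : a ≤ D) : (vec D a).sum = D := by
  simp only [vec, List.sum_cons, List.sum_replicate, smul_eq_mul]; omega

theorem distances_length (w : List ℕ) (i : ℕ) : (distances w i).length = w.count i := by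
  unfold distances
  rw [cyc_length, positions_eq, posFrom_length]

theorem total_eq {A S : List ℕ} {D : ℕ} (hA : ∀ a ∈ A, 1 ≤ a) :
    total (S :: A.map (vec D)) = S.length + A.sum := by
  simp only [total, List.map_cons, List.sum_cons, List.map_map]
  congr 1
  have : A.map (List.length ∘ vec D) = A.map id :=
    List.map_congr_left (fun a ha => vec_length (hA a ha))
  rw [this, List.map_id]

theorem valid_iff {A S : List ℕ} {D : ℕ} (hA : ∀ a ∈ A, 1 ≤ a) (hS : S ≠ [])
    (hS1 : ∀ x ∈ S, 1 ≤ x) (hS2 : S.Pairwise (fun a b => b ≤ a)) (hD : S.sum = D)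
    (hs : S.length + A.sum = D) : Valid (S :: A.map (vec D)) := by
  have hle : ∀ a ∈ A, a ≤ D := by
    intro a ha
    have := List.le_sum_of_mem ha
    omega
  intro v hv
  rw [total_eq hA, hs]
  rcases List.mem_cons.1 hv with rfl | hv
  · exact ⟨hS, hS1, hS2, hD⟩
  · obtain ⟨a, ha, rfl⟩ := List.mem_map.1 hv
    have h1 := hA a ha
    have h2 := hle a ha
    refine ⟨by simp [vec], ?_, ?_, vec_sum h1 h2⟩
    · intro x hx
      simp only [vec, List.mem_cons, List.mem_replicate] at hx
      omega
    · unfold vec
      rw [List.pairwise_cons]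
      refine ⟨?_, ?_⟩
      · intro x hx
        rw [List.eq_of_mem_replicate hx]
        omega
      · exact List.pairwise_replicate_of_refl

/-- the letters of an item -/
def rep (x : ℕ × ℕ) : List ℕ := List.replicate x.1 (x.2 + 1)

theorem mem_word_blocks {Q : List (List (ℕ × ℕ))} {y : ℕ}
    (h : y ∈ word (Q.map (fun p => p.flatMap rep))) :
    y = 0 ∨ ∃ x ∈ Q.flatten, y = x.2 + 1 := by
  unfold word at h
  simp only [List.mem_flatMap, List.mem_map] at h
  obtain ⟨b, ⟨p, hp, rfl⟩, hy⟩ := h
  rcases List.mem_cons.1 hy with rfl | hy
  · exact Or.inl rfl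
  · obtain ⟨x, hx, hyx⟩ := List.mem_flatMap.1 hy
    exact Or.inr ⟨x, List.mem_flatten.2 ⟨p, hp, hx⟩, List.eq_of_mem_replicate hyx⟩

theorem vbp_to_feas {A B S : List ℕ} {D : ℕ} (hA : ∀ a ∈ A, 1 ≤ a) (hB : B ≠ [])
    (hS : S.Perm (B.map (· + 1))) (hS2 : S.Pairwise (fun a b => b ≤ a)) (hD : S.sum = D)
    (h : VBP A B) : FEAS (S :: A.map (vec D)) := by
  obtain ⟨P0, h1, h2⟩ := h
  have hAB : A.sum = B.sum := by
    rw [← h1.sum_eq, ← h2.sum_eq, List.sum_flatten]
  have hSB : S.sum = B.sum + B.length := by
    rw [hS.sum_eq, List.sum_map_add]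
    simp
  have hSl : S.length = B.length := by rw [hS.length_eq, List.length_map]
  have hS0 : S ≠ [] := by
    intro h0
    rw [h0] at hSl
    exact hB (List.eq_nil_of_length_eq_zero hSl.symm)
  have hS1 : ∀ x ∈ S, 1 ≤ x := by
    intro x hx
    obtain ⟨b, hb, rfl⟩ := List.mem_map.1 (hS.mem_iff.1 hx)
    omega
  refine ⟨valid_iff hA hS0 hS1 hS2 hD (by omega), ?_⟩
  have e0 : A = A.zipIdx.map Prod.fst := by simp
  rw [e0] at h1
  obtain ⟨l', hl1, hl2⟩ := lift_perm Prod.fst h1
  obtain ⟨P, rfl, rfl⟩ := lift_flatten Prod.fst P0 l' hl2
  clear h1 hl2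
  have hnd : (P.flatten.map (fun x => x.2)).Nodup := by
    rw [(hl1.map _).nodup_iff]
    have : A.zipIdx.map (fun x => x.2) = List.range A.length := by
      simp [List.zipIdx_map_snd, List.range_eq_range']
    rw [this]
    exact List.nodup_range
  let bs : List (List ℕ) := P.map (fun p => p.flatMap rep)
  have hbs0 : ∀ c ∈ bs, 0 ∉ c := by
    intro c hc h0
    obtain ⟨p, hp, rfl⟩ := List.mem_map.1 hc
    obtain ⟨x, hx, hyx⟩ := List.mem_flatMap.1 h0
    have := List.eq_of_mem_replicate hyx
    omega
  have hlenb : bs.map (fun b => b.length + 1) =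
      ((P.map (List.map Prod.fst)).map List.sum).map (· + 1) := by
    simp only [bs, List.map_map]
    refine List.map_congr_left fun p _ => ?_
    simp only [Function.comp_apply, List.length_flatMap, rep, List.length_replicate]
  have hw0 : (distances (word bs) 0).Perm S := by
    rw [dist_zero hbs0, hlenb]
    exact (h2.map _).trans hS.symm
  have hwl : (word bs).length = D := by
    rw [word_length, hlenb, ← hD]
    exact ((h2.map _).trans hS.symm).sum_eq
  refine ⟨word bs, ?_, ?_⟩
  · intro y hy
    simp only [List.length_cons, List.length_map]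
    rcases mem_word_blocks hy with rfl | ⟨x, hx, rfl⟩
    · omega
    · have := (hl1.mem_iff).1 hx
      rw [List.mem_zipIdx_iff_getElem?] at this
      obtain ⟨h3, _⟩ := List.getElem?_eq_some_iff.1 this
      omega
  · have key : ∀ (i : ℕ) (h : i < (S :: A.map (vec D)).length),
        (distances (word bs) i).Perm ((S :: A.map (vec D))[i]) := by
      intro i hi
      cases i with
      | zero => exact hw0
      | succ j =>
        simp only [List.length_cons, List.length_map] at hi
        have hj : j < A.length := by omega
        simp only [List.getElem_cons_succ, List.getElem_map]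
        have hm : (A[j], j) ∈ P.flatten := by
          rw [hl1.mem_iff, List.mem_zipIdx_iff_getElem?]
          simp
        obtain ⟨p, hp, hpm⟩ := List.mem_flatten.1 hm
        obtain ⟨pre, post, rfl⟩ := List.append_of_mem hp
        obtain ⟨p1, p2, rfl⟩ := List.append_of_mem hpm
        have hnd' : (((pre.flatten ++ p1) ++ (A[j], j) :: (p2 ++ post.flatten)).map
            (fun x => x.2)).Nodup := by
          simpa [List.flatten_append, List.flatten_cons, List.append_assoc] using hnd
        rw [List.map_append, List.map_cons, List.nodup_append] at hnd'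
        obtain ⟨-, hn2, hn3⟩ := hnd'
        rw [List.nodup_cons] at hn2
        have hx1 : ∀ x ∈ pre.flatten ++ p1, x.2 ≠ j := by
          intro x hx
          have := hn3 x.2 (List.mem_map_of_mem hx) j (List.mem_cons_self)
          exact this
        have hx2 : ∀ x ∈ p2 ++ post.flatten, x.2 ≠ j := by
          intro x hx he
          exact hn2.1 (List.mem_map.2 ⟨x, hx, he⟩)
        have hw : word bs = (word (pre.map (fun p => p.flatMap rep)) ++ 0 :: p1.flatMap rep) ++
            (List.replicate A[j] (j + 1) ++
              (p2.flatMap rep ++ word (post.map (fun p => p.flatMap rep)))) := by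
          simp only [bs, word, List.map_append, List.map_cons, List.flatMap_append,
            List.flatMap_cons, rep, List.append_assoc, List.cons_append]
        suffices hfin : (distances (word bs) (j + 1)).Perm (vec (word bs).length A[j]) by
          have hcg : vec (word bs).length A[j] = vec D A[j] := congrArg (fun E => vec E A[j]) hwl
          exact hcg ▸ hfin
        rw [hw]
        apply dist_block
        · rw [List.mem_append, not_or]
          constructor
          · intro hh
            rcases mem_word_blocks hh with h0 | ⟨x, hx, hxe⟩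
            · omega
            · exact hx1 x (List.mem_append_left _ hx) (by omega)
          · intro hh
            rcases List.mem_cons.1 hh with h0 | hh
            · omega
            · obtain ⟨x, hx, hyx⟩ := List.mem_flatMap.1 hh
              have := List.eq_of_mem_replicate hyx
              exact hx1 x (List.mem_append_right _ hx) (by omega)
        · rw [List.mem_append, not_or]
          constructor
          · intro hh
            obtain ⟨x, hx, hyx⟩ := List.mem_flatMap.1 hh
            have := List.eq_of_mem_replicate hyx
            exact hx2 x (List.mem_append_left _ hx) (by omega)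
          · intro hh
            rcases mem_word_blocks hh with h0 | ⟨x, hx, hxe⟩
            · omega
            · exact hx2 x (List.mem_append_right _ hx) (by omega)
        · exact hA _ (List.getElem_mem _)
    intro i hi
    refine ⟨?_, key i hi⟩
    rw [← distances_length]
    exact (key i hi).length_eq

theorem length_of_feasible {α : List (List ℕ)} {w : List ℕ} (h1 : ∀ x ∈ w, x < α.length)
    (h2 : ∀ (i : ℕ) (h : i < α.length), w.count i = α[i].length) : w.length = total α := by
  rw [← sum_count_range h1, total]
  congr 1
  apply List.ext_getElem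
  · simp
  · intro i hi1 hi2
    simp only [List.length_map] at hi2
    simp [h2 i hi2]

theorem no_return {i a : ℕ} {x z : List ℕ} (hi : i ≠ 0) (hx : i ∉ x) (hz : i ∉ z) :
    ¬ List.Sublist [i, 0, i] (x ++ (List.replicate a i ++ z)) := by
  intro h
  obtain ⟨l1, l2, he, h1, h2⟩ := List.sublist_append_iff.1 h
  have hl1 : l1 = [] := by
    cases l1 with
    | nil => rfl
    | cons y l1 =>
      rw [List.cons_append, List.cons.injEq] at he
      rw [← he.1] at h1
      exact absurd (h1.subset (List.mem_cons_self)) hx
  subst hl1
  rw [List.nil_append] at he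
  subst he
  obtain ⟨l1, l2, he, h3, h4⟩ := List.sublist_append_iff.1 h2
  have hl2 : l2 = [] := by
    rcases List.eq_nil_or_concat l2 with h0 | ⟨l, y, rfl⟩
    · exact h0
    · exfalso
      rw [List.concat_eq_append] at he h4
      have : y = i := by
        have h5 := congrArg List.getLast? he
        rw [← List.append_assoc, List.getLast?_append] at h5
        simpa [eq_comm] using h5
      subst this
      exact hz (h4.subset (by simp))
  subst hl2
  rw [List.append_nil] at he
  subst he
  have := h3.subset (show (0 : ℕ) ∈ [i, 0, i] by simp)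
  exact hi (List.eq_of_mem_replicate this).symm

theorem word_sublist {bs cs : List (List ℕ)} (h : bs.Sublist cs) : (word bs).Sublist (word cs) := by
  unfold word
  induction h with
  | slnil => exact List.Sublist.refl _
  | cons a _ ih =>
    rw [List.flatMap_cons]
    exact ih.trans (List.sublist_append_right _ _)
  | cons_cons a _ ih =>
    rw [List.flatMap_cons, List.flatMap_cons]
    exact (List.Sublist.refl _).append ih

theorem feas_to_vbp {A B S : List ℕ} {D : ℕ} (hA : ∀ a ∈ A, 1 ≤ a) (hB : B ≠ [])
    (hS : S.Perm (B.map (· + 1))) (hD : S.sum = D)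
    (h : FEAS (S :: A.map (vec D))) : VBP A B := by
  obtain ⟨hV, w0, hw1, hw2⟩ := h
  have hSl : S.length = B.length := by rw [hS.length_eq, List.length_map]
  have hBl : B.length ≠ 0 := fun h => hB (List.eq_nil_of_length_eq_zero h)
  have hlen0 : w0.length = D := by
    rw [length_of_feasible hw1 (fun i hi => (hw2 i hi).1), ← (hV S (List.mem_cons_self)).2.2.2, hD]
  have h0 : 0 ∈ w0 := by
    rw [← List.count_pos_iff, (hw2 0 (by simp)).1]
    simp only [List.getElem_cons_zero]
    omega
  obtain ⟨u, v, hwe⟩ := List.append_of_mem h0
  obtain ⟨b, bs0, hbs, hb0, hbs0⟩ := split_zero (v ++ u)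
  obtain ⟨bs, hbsd⟩ : ∃ bs, bs = b :: bs0 := ⟨_, rfl⟩
  have hwd : word bs = (0 :: v) ++ u := by
    rw [hbsd, List.cons_append, hbs]
    simp [word]
  have hbsn : ∀ c ∈ bs, 0 ∉ c := by
    rw [hbsd]
    intro c hc
    rcases List.mem_cons.1 hc with rfl | hc
    · exact hb0
    · exact hbs0 c hc
  have hperm : (word bs).Perm w0 := by
    rw [hwd, hwe]
    exact List.perm_append_comm
  have hdist : ∀ i, (distances (word bs) i).Perm (distances w0 i) := by
    intro i
    rw [hwd, hwe]
    exact rotate_append i _ _
  have hlen : (word bs).length = D := by rw [hperm.length_eq, hlen0]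
  have hhead : (word bs).head? = some 0 := by rw [hwd]; rfl
  clear hbs hb0 hbs0 h0 hwe hwd hbsd
  -- block sizes
  have hsizes : (bs.map List.length).Perm B := by
    have h3 := (hdist 0).trans (hw2 0 (by simp)).2
    simp only [List.getElem_cons_zero] at h3
    rw [dist_zero hbsn] at h3
    have h4 := (h3.trans hS).map (· - 1)
    simpa [Function.comp_def] using h4
  -- items
  have hitem : ∀ j, (hj : j < A.length) → (word bs).count (j + 1) = A[j] ∧
      ¬ List.Sublist [j + 1, 0, j + 1] (word bs) := by
    intro j hj
    have h3 := hw2 (j + 1) (by simpa using hj)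
    simp only [List.getElem_cons_succ, List.getElem_map] at h3
    have hpos := hA _ (List.getElem_mem hj)
    obtain ⟨x, z, hxz, hx, hz⟩ := block_of_dist (i := j + 1) (w := word bs) hpos
      (by rw [hhead]; simp) (by rw [hlen]; exact (hdist _).trans h3.2)
    refine ⟨?_, ?_⟩
    · rw [hperm.count_eq, h3.1, vec_length hpos]
    · rw [hxz]
      exact no_return (by omega) hx hz
  have hletter : ∀ c ∈ bs, ∀ x ∈ c, ∃ j, j < A.length ∧ x = j + 1 := by
    intro c hc x hx
    have h3 : x ∈ word bs := List.mem_flatMap.2 ⟨c, hc, List.mem_cons_of_mem _ hx⟩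
    have h4 := hw1 x (hperm.mem_iff.1 h3)
    simp only [List.length_cons, List.length_map] at h4
    have h5 : x ≠ 0 := fun h => hbsn c hc (h ▸ hx)
    exact ⟨x - 1, by omega, by omega⟩
  have hpw : bs.Pairwise (fun b c => ∀ x ∈ b, x ∉ c) := by
    rw [List.pairwise_iff_forall_sublist]
    intro b c hbc x hxb hxc
    have hb : b ∈ bs := hbc.subset (by simp)
    obtain ⟨j, hj, rfl⟩ := hletter b hb x hxb
    apply (hitem j hj).2
    refine List.Sublist.trans ?_ (word_sublist hbc)
    have e : word [b, c] = (0 :: b) ++ (0 :: c) := by simp [word]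
    rw [e]
    have s1 : List.Sublist [j + 1] (0 :: b) :=
      (List.singleton_sublist.2 hxb).trans (List.sublist_cons_self _ _)
    have s2 : List.Sublist [0, j + 1] (0 :: c) :=
      List.Sublist.cons_cons 0 (List.singleton_sublist.2 hxc)
    exact s1.append s2
  have hcount : ∀ c ∈ bs, ∀ x ∈ c, c.count x = (word bs).count x := by
    intro c hc x hx
    have hx0 : x ≠ 0 := fun h => hbsn c hc (h ▸ hx)
    obtain ⟨pre, post, rfl⟩ := List.append_of_mem hc
    rw [List.pairwise_append] at hpw
    obtain ⟨-, hp2, hp3⟩ := hpw
    rw [List.pairwise_cons] at hp2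
    have e : word (pre ++ c :: post) = word pre ++ ((0 :: c) ++ word post) := by simp [word]
    have n1 : x ∉ word pre := by
      intro h
      obtain ⟨d, hd, hxd⟩ := List.mem_flatMap.1 h
      rcases List.mem_cons.1 hxd with h | h
      · exact hx0 h
      · exact hp3 d hd c (List.mem_cons_self) x h hx
    have n2 : x ∉ word post := by
      intro h
      obtain ⟨d, hd, hxd⟩ := List.mem_flatMap.1 h
      rcases List.mem_cons.1 hxd with h | h
      · exact hx0 h
      · exact hp2.1 d hd x hx h
    rw [e, List.count_append, List.count_append, List.count_eq_zero_of_not_mem n1,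
      List.count_eq_zero_of_not_mem n2, List.count_cons_of_ne (Ne.symm hx0)]
    omega
  -- the packing
  refine ⟨bs.map (fun c => c.dedup.map (fun x => A.getD (x - 1) 0)), ?_, ?_⟩
  · have e1 : (bs.map (fun c => c.dedup.map (fun x => A.getD (x - 1) 0))).flatten =
        (bs.flatMap List.dedup).map (fun x => A.getD (x - 1) 0) := by
      rw [List.map_flatMap, List.flatMap_def]
    rw [e1]
    have e2 : (bs.flatMap List.dedup).Perm ((List.range A.length).map (· + 1)) := by
      rw [List.perm_ext_iff_of_nodup]
      · intro x
        constructor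
        · intro h
          obtain ⟨c, hc, hx⟩ := List.mem_flatMap.1 h
          obtain ⟨j, hj, rfl⟩ := hletter c hc x (List.mem_dedup.1 hx)
          exact List.mem_map.2 ⟨j, List.mem_range.2 hj, rfl⟩
        · intro h
          obtain ⟨j, hj, rfl⟩ := List.mem_map.1 h
          have hj' := List.mem_range.1 hj
          have h3 : j + 1 ∈ word bs := by
            rw [← List.count_pos_iff, (hitem j hj').1]
            exact hA _ (List.getElem_mem _)
          obtain ⟨c, hc, hxc⟩ := List.mem_flatMap.1 h3
          rcases List.mem_cons.1 hxc with h | h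
          · omega
          · exact List.mem_flatMap.2 ⟨c, hc, List.mem_dedup.2 h⟩
      · rw [List.nodup_flatMap]
        refine ⟨fun c _ => List.nodup_dedup c, hpw.imp ?_⟩
        intro b c hbc
        simp only [Function.onFun, List.disjoint_left, List.mem_dedup]
        exact fun x h => hbc x h
      · exact List.nodup_range.map (fun a b h => by simpa using h)
    refine (e2.map _).trans ?_
    rw [List.map_map]
    have e3 : (List.range A.length).map ((fun x => A.getD (x - 1) 0) ∘ (· + 1)) = A := by
      apply List.ext_getElem
      · simp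
      · intro i h1 h2
        simp [h2]
    rw [e3]
  · refine List.Perm.trans ?_ hsizes
    rw [List.map_map]
    have e4 : bs.map (List.sum ∘ fun c => c.dedup.map (fun x => A.getD (x - 1) 0)) =
        bs.map List.length := by
      refine List.map_congr_left fun c hc => ?_
      simp only [Function.comp_apply]
      rw [← List.sum_map_count_dedup_eq_length c]
      congr 1
      refine List.map_congr_left fun x hx => ?_
      have hx' := List.mem_dedup.1 hx
      obtain ⟨j, hj, rfl⟩ := hletter c hc x hx'
      rw [hcount c hc _ hx', (hitem j hj).1]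
      simp [hj]
    rw [e4]

end Pool.Agent.NPC.V11230.JIT
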