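import Mathlib

/-!
# Solution-free sets: generic numbers of polynomial size
-/

set_option autoImplicit false

namespace Pool.Agent.NPC.V11230.LF

open Finset

/-- The coefficients `(a_1, …, a_ℓ, -b)` of the equation `a_1 x_1 + … + a_ℓ x_ℓ = b y`, written as
`∑ c_i z_i = 0`. -/
def coef {ℓ : ℕ} (a : Fin ℓ → ℕ) (b : ℕ) : Fin (ℓ + 1) → ℤ :=
  Fin.snoc (fun i => (a i : ℤ)) (-(b : ℤ))

/-- A solution `z` of `∑ c_i z_i = 0` is trivial if the set of indices can be partitioned into
classes such that `z` is constant on every class and the sum of the `c_i` over every class is `0`. -/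
def Trivial {m : ℕ} (c z : Fin m → ℤ) : Prop :=
  ∃ P : Finpartition (Finset.univ : Finset (Fin m)), ∀ B ∈ P.parts,
    (∀ i ∈ B, ∀ j ∈ B, z i = z j) ∧ ∑ i ∈ B, c i = 0

/-- The set `S` is free: all solutions of `∑ c_i z_i = 0` in `S` are trivial. -/
def Free {m : ℕ} (c : Fin m → ℤ) (S : Finset ℤ) : Prop :=
  ∀ z : Fin m → ℤ, (∀ i, z i ∈ S) → ∑ i, c i * z i = 0 → Trivial c z

/-! ### Digits and moments -/

theorem digits_zero {Q : ℤ} (hQ : 0 < Q) : ∀ (k : ℕ) (d : ℕ → ℤ), (∀ j < k, |d j| < Q) →
    ∑ j ∈ range k, d j * Q ^ j = 0 → ∀ j < k, d j = 0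
  | 0, _, _, _ => by simp
  | k + 1, d, hd, h => by
    rw [sum_range_succ'] at h
    have h0 : d 0 = 0 := by
      have h1 : Q ∣ d 0 := by
        have e : d 0 = -(∑ j ∈ range k, d (j + 1) * Q ^ (j + 1)) := by
          rw [pow_zero, mul_one] at h
          linarith
        rw [e]
        refine (Finset.dvd_sum fun j _ => ?_).neg_right
        exact Dvd.dvd.mul_left (dvd_pow_self Q (by omega)) _
      exact Int.eq_zero_of_abs_lt_dvd h1 (hd 0 (by omega))
    have h2 : ∑ j ∈ range k, d (j + 1) * Q ^ j = 0 := by
      have e : ∑ j ∈ range k, d (j + 1) * Q ^ (j + 1) =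
          (∑ j ∈ range k, d (j + 1) * Q ^ j) * Q := by
        rw [sum_mul]
        exact sum_congr rfl fun j _ => by ring
      rw [h0, zero_mul, add_zero, e] at h
      rcases mul_eq_zero.1 h with h | h
      · exact h
      · exact absurd h hQ.ne'
    intro j hj
    cases j with
    | zero => exact h0
    | succ j =>
      exact digits_zero hQ k (fun j => d (j + 1)) (fun j hj => hd (j + 1) (by omega)) h2 j
        (by omega)

theorem moments_zero {k : ℕ} {s : Finset ℤ} {l : ℤ → ℤ} (hs : s.card ≤ k)
    (h : ∀ j < k, ∑ t ∈ s, l t * t ^ j = 0) : ∀ t ∈ s, l t = 0 := by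
  classical
  intro t ht
  let P : Polynomial ℤ := ∏ u ∈ s.erase t, (Polynomial.X - Polynomial.C u)
  have hdeg : P.natDegree < k := by
    have h1 : P.natDegree = (s.erase t).card := Polynomial.natDegree_finsetProd_X_sub_C_eq_card _ _
    have h2 : (s.erase t).card < s.card := Finset.card_erase_lt_of_mem ht
    omega
  have h1 : ∑ v ∈ s, l v * P.eval v = 0 := by
    have : ∀ v ∈ s, l v * P.eval v = ∑ j ∈ range k, P.coeff j * (l v * v ^ j) := by
      intro v _
      rw [Polynomial.eval_eq_sum_range' hdeg, mul_sum]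
      exact sum_congr rfl fun j _ => by ring
    rw [sum_congr rfl this, sum_comm]
    refine sum_eq_zero fun j hj => ?_
    rw [← mul_sum, h j (mem_range.1 hj), mul_zero]
  have h2 : ∑ v ∈ s, l v * P.eval v = l t * P.eval t := by
    refine sum_eq_single t (fun v hv hvt => ?_) (fun hn => absurd ht hn)
    have : P.eval v = 0 := by
      rw [Polynomial.eval_prod]
      exact prod_eq_zero (mem_erase.2 ⟨hvt, hv⟩) (by simp)
    rw [this, mul_zero]
  rw [h2] at h1
  rcases mul_eq_zero.1 h1 with h | h
  · exact h
  · exfalso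
    rw [Polynomial.eval_prod, prod_eq_zero_iff] at h
    obtain ⟨u, hu, hu0⟩ := h
    simp only [Polynomial.eval_sub, Polynomial.eval_X, Polynomial.eval_C, sub_eq_zero] at hu0
    exact (mem_erase.1 hu).1 hu0.symm

/-- `1 + t Q + (t Q) ^ 2 + … + (t Q) ^ (k - 1)` -/
def beta (k Q t : ℕ) : ℕ := ∑ j ∈ range k, (t * Q) ^ j

/-- The numbers `beta k Q t` satisfy no short linear relation. -/
theorem indep {k Q T M : ℕ} (hQ : k * M * T ^ k < Q) {s : Finset ℕ} {l : ℕ → ℤ} (hs : s.card ≤ k)
    (hT : ∀ t ∈ s, t + 1 ≤ T) (hM : ∀ t ∈ s, |l t| ≤ M)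
    (h : ∑ t ∈ s, l t * (beta k Q (t + 1) : ℤ) = 0) : ∀ t ∈ s, l t = 0 := by
  classical
  have hQ0 : (0 : ℤ) < Q := by
    have : 0 < Q := by omega
    exact_mod_cast this
  -- moments
  have hmom : ∀ j < k, ∑ t ∈ s, l t * ((t : ℤ) + 1) ^ j = 0 := by
    refine digits_zero hQ0 k _ ?_ ?_
    · intro j hj
      have hb : ∀ t ∈ s, |l t * ((t : ℤ) + 1) ^ j| ≤ M * (T : ℤ) ^ k := by
        intro t ht
        have h1 : ((t : ℤ) + 1) ≤ T := by exact_mod_cast hT t ht
        have h2 : (1 : ℤ) ≤ T := by
          have := hT t ht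
          have : 1 ≤ T := by omega
          exact_mod_cast this
        rw [abs_mul, abs_of_nonneg (by positivity : (0 : ℤ) ≤ ((t : ℤ) + 1) ^ j)]
        refine mul_le_mul (hM t ht) ?_ (by positivity) (by positivity)
        calc ((t : ℤ) + 1) ^ j ≤ (T : ℤ) ^ j := pow_le_pow_left₀ (by positivity) h1 j
          _ ≤ (T : ℤ) ^ k := pow_le_pow_right₀ h2 (by omega)
      calc |∑ t ∈ s, l t * ((t : ℤ) + 1) ^ j| ≤ ∑ t ∈ s, |l t * ((t : ℤ) + 1) ^ j| :=
            abs_sum_le_sum_abs _ _
        _ ≤ ∑ _t ∈ s, (M * (T : ℤ) ^ k) := sum_le_sum hb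
        _ = s.card * (M * (T : ℤ) ^ k) := by rw [sum_const, nsmul_eq_mul]
        _ ≤ k * (M * (T : ℤ) ^ k) := by
            refine mul_le_mul_of_nonneg_right (by exact_mod_cast hs) (by positivity)
        _ < Q := by
            have : ((k * M * T ^ k : ℕ) : ℤ) < Q := by exact_mod_cast hQ
            push_cast at this
            linarith
    · rw [← h]
      have : ∀ t ∈ s, l t * (beta k Q (t + 1) : ℤ) =
          ∑ j ∈ range k, (l t * ((t : ℤ) + 1) ^ j) * (Q : ℤ) ^ j := by
        intro t _
        unfold beta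
        push_cast
        rw [mul_sum]
        exact sum_congr rfl fun j _ => by rw [mul_pow]; ring
      rw [sum_congr rfl this, sum_comm]
      exact sum_congr rfl fun j _ => by rw [sum_mul]
  -- Vandermonde
  let s' : Finset ℤ := s.image (fun t : ℕ => (t : ℤ) + 1)
  have hinj : Set.InjOn (fun t : ℕ => (t : ℤ) + 1) s := fun a _ b _ hab => by
    simp only at hab
    omega
  have hs' : s'.card ≤ k := by
    rw [Finset.card_image_of_injOn hinj]
    exact hs
  have := moments_zero (s := s') (l := fun x => l (x - 1).toNat) hs' (fun j hj => by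
    rw [Finset.sum_image hinj]
    rw [← hmom j hj]
    refine sum_congr rfl fun t _ => ?_
    simp)
  intro t ht
  have h1 := this ((t : ℤ) + 1) (mem_image_of_mem _ ht)
  simpa using h1

/-! ### The elements -/

/-- The elements of the set: `inl t` is a free number, `inr e` the number of an edge. -/
abbrev El : Type := ℕ ⊕ ℕ

section

variable {ℓ : ℕ} (a : Fin ℓ → ℕ) (b : ℕ) (var : ℕ → Fin ℓ → ℕ)

/-- the formal vector -/
def F : El → ℕ → ℤ
  | Sum.inl t, t' => if t' = t then b else 0
  | Sum.inr e, t' => ∑ i, if t' = var e i then (a i : ℤ) else 0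

/-- the support -/
def supp : El → Finset ℕ
  | Sum.inl t => {t}
  | Sum.inr e => univ.image (var e)

/-- the value -/
def V (β : ℕ → ℤ) : El → ℤ
  | Sum.inl t => b * β t
  | Sum.inr e => ∑ i, (a i : ℤ) * β (var e i)

variable {a b var}

theorem F_supp {x : El} {t : ℕ} (h : t ∉ supp var x) : F a b var x t = 0 := by
  cases x with
  | inl t0 =>
    simp only [supp, mem_singleton] at h
    simp [F, h]
  | inr e =>
    simp only [supp, mem_image, mem_univ, true_and, not_exists] at h
    simp only [F]
    refine sum_eq_zero fun i _ => if_neg (fun h' => h i h'.symm)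

theorem supp_card (hℓ : 1 ≤ ℓ) (x : El) : (supp var x).card ≤ ℓ := by
  cases x with
  | inl t => simpa [supp] using hℓ
  | inr e =>
    refine Finset.card_image_le.trans ?_
    simp

theorem F_nonneg (x : El) (t : ℕ) : 0 ≤ F a b var x t := by
  cases x with
  | inl t0 => simp only [F]; split_ifs <;> positivity
  | inr e => exact sum_nonneg fun i _ => by split_ifs <;> positivity

theorem F_le (x : El) (t : ℕ) : F a b var x t ≤ ((∑ i, a i + b : ℕ) : ℤ) := by
  cases x with
  | inl t0 =>
    simp only [F]
    split_ifs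
    · push_cast
      have : (0 : ℤ) ≤ ∑ i, (a i : ℤ) := sum_nonneg fun i _ => by positivity
      linarith
    · positivity
  | inr e =>
    simp only [F]
    push_cast
    have : (∑ i, if t = var e i then (a i : ℤ) else 0) ≤ ∑ i, (a i : ℤ) :=
      sum_le_sum fun i _ => by
        split_ifs
        · exact le_refl _
        · positivity
    have h2 : (0 : ℤ) ≤ b := by positivity
    linarith

theorem V_eq (β : ℕ → ℤ) (x : El) (s : Finset ℕ) (hs : supp var x ⊆ s) :
    V a b var β x = ∑ t ∈ s, F a b var x t * β t := by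
  classical
  cases x with
  | inl t0 =>
    have ht : t0 ∈ s := hs (by simp [supp])
    simp only [V, F, ite_mul, zero_mul]
    rw [Finset.sum_ite_eq' s t0]
    simp [ht]
  | inr e =>
    simp only [V, F, sum_mul]
    rw [sum_comm]
    refine sum_congr rfl fun i _ => ?_
    have ht : var e i ∈ s := hs (by simp [supp])
    simp only [ite_mul, zero_mul]
    rw [Finset.sum_ite_eq' s (var e i)]
    simp [ht]

/-- A linear relation between few values is a formal relation. -/
theorem formal {m Q T : ℕ} (hℓ : 1 ≤ ℓ) {c : Fin m → ℤ} {C : ℕ} (hC : ∑ i, |c i| ≤ C)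
    (hQ : m * ℓ * (C * (∑ i, a i + b)) * T ^ (m * ℓ) < Q) {κ : Fin m → El}
    (hκ : ∀ i, ∀ t ∈ supp var (κ i), t + 1 ≤ T)
    (h : ∑ i, c i * V a b var (fun t => (beta (m * ℓ) Q (t + 1) : ℤ)) (κ i) = 0) :
    ∀ t, ∑ i, c i * F a b var (κ i) t = 0 := by
  classical
  let s : Finset ℕ := univ.biUnion (fun i => supp var (κ i))
  have hs : s.card ≤ m * ℓ := by
    refine card_biUnion_le.trans ?_
    calc ∑ i : Fin m, (supp var (κ i)).card ≤ ∑ _i : Fin m, ℓ :=
          sum_le_sum fun i _ => supp_card hℓ _
      _ = m * ℓ := by simp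
  have hsub : ∀ i, supp var (κ i) ⊆ s := fun i => subset_biUnion_of_mem (fun i => supp var (κ i))
    (mem_univ i)
  have key := indep (k := m * ℓ) (Q := Q) (T := T) (M := C * (∑ i, a i + b)) hQ (s := s)
    (l := fun t => ∑ i, c i * F a b var (κ i) t) hs ?_ ?_ ?_
  · intro t
    by_cases ht : t ∈ s
    · exact key t ht
    · refine sum_eq_zero fun i _ => ?_
      rw [F_supp (fun h => ht (hsub i h)), mul_zero]
  · intro t ht
    obtain ⟨i, _, hi⟩ := mem_biUnion.1 ht
    exact hκ i t hi
  · intro t _
    calc |∑ i, c i * F a b var (κ i) t| ≤ ∑ i, |c i * F a b var (κ i) t| :=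
          abs_sum_le_sum_abs _ _
      _ ≤ ∑ i, |c i| * ((∑ i, a i + b : ℕ) : ℤ) := by
          refine sum_le_sum fun i _ => ?_
          rw [abs_mul, abs_of_nonneg (F_nonneg _ _)]
          exact mul_le_mul_of_nonneg_left (F_le _ _) (abs_nonneg _)
      _ = (∑ i, |c i|) * ((∑ i, a i + b : ℕ) : ℤ) := by rw [sum_mul]
      _ ≤ (C : ℤ) * ((∑ i, a i + b : ℕ) : ℤ) := mul_le_mul_of_nonneg_right hC (by positivity)
      _ = ((C * (∑ i, a i + b) : ℕ) : ℤ) := by push_cast; ring
  · rw [← h]
    simp only [sum_mul]
    rw [sum_comm]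
    refine sum_congr rfl fun i _ => ?_
    rw [V_eq _ _ s (hsub i), mul_sum]
    exact sum_congr rfl fun t _ => by ring

/-- Hypotheses on the variables of the edges. -/
structure Good (m : ℕ) (var : ℕ → Fin ℓ → ℕ) : Prop where
  inj : ∀ e < m, Function.Injective (var e)
  sep : ∀ e < m, ∀ e' < m, e ≠ e' → ∃ i, ∀ i', var e' i ≠ var e i'

def Ok (T m : ℕ) : El → Prop
  | Sum.inl t => t < T
  | Sum.inr e => e < m

theorem F_inr_pos (ha : ∀ i, 0 < a i) (e : ℕ) (i : Fin ℓ) :
    0 < F a b var (Sum.inr e) (var e i) := by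
  simp only [F]
  refine sum_pos' (fun j _ => by split_ifs <;> positivity) ⟨i, mem_univ _, ?_⟩
  rw [if_pos rfl]
  exact_mod_cast ha i

theorem F_inr_eq {m : ℕ} (hg : Good m var) {e : ℕ} (he : e < m) (i : Fin ℓ) :
    F a b var (Sum.inr e) (var e i) = a i := by
  simp only [F]
  rw [sum_eq_single i]
  · simp
  · intro j _ hj
    exact if_neg (fun h => hj (hg.inj e he h).symm)
  · simp

/-- The sum of the coefficients of the occurrences of the element `W`. -/
def cc {m : ℕ} (c : Fin m → ℤ) (κ : Fin m → El) (W : El) : ℤ := ∑ i, if κ i = W then c i else 0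

theorem trivial_of_cc {m : ℕ} {c : Fin m → ℤ} {κ : Fin m → El} {v : El → ℤ}
    (h : ∀ W, cc c κ W = 0) : Trivial c (fun i => v (κ i)) := by
  classical
  refine ⟨Finpartition.ofSetoid (Setoid.ker κ), ?_⟩
  intro B hB
  obtain ⟨i, -, rfl⟩ := (Finpartition.ofSetoid (Setoid.ker κ)).part_surjOn hB
  have hmem : ∀ j, j ∈ (Finpartition.ofSetoid (Setoid.ker κ)).part i ↔ κ i = κ j := fun j => by
    rw [Finpartition.mem_part_ofSetoid_iff_rel, Setoid.ker_def]
  constructor
  · intro j hj j' hj'
    simp only
    rw [← (hmem j).1 hj, ← (hmem j').1 hj']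
  · have := h (κ i)
    unfold cc at this
    rw [← sum_filter] at this
    rw [← this]
    refine sum_congr ?_ fun _ _ => rfl
    ext j
    rw [hmem]
    simp only [mem_filter, mem_univ, true_and]
    exact ⟨fun h => h.symm, fun h => h.symm⟩

/-- The solutions in terms of elements. -/
theorem analysis {m T : ℕ} (hℓ : 2 ≤ ℓ) (ha : ∀ i, 0 < a i) (hb : 0 < b) (hg : Good m var)
    {κ : Fin (ℓ + 1) → El} (hok : ∀ i, Ok T m (κ i))
    (h : ∀ t, ∑ i, coef a b i * F a b var (κ i) t = 0) :
    (∀ W, cc (coef a b) κ W = 0) ∨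
      ∃ e < m, (∀ i, ∃ j, κ j = Sum.inl (var e i)) ∧ ∃ j, κ j = Sum.inr e := by
  classical
  have hstar : ∀ t, F a b var (κ (Fin.last ℓ)) t = 0 → ∀ i, F a b var (κ i) t = 0 := by
    intro t ht
    have h1 := h t
    rw [Fin.sum_univ_castSucc, ht, mul_zero, add_zero] at h1
    have h2 := (sum_eq_zero_iff_of_nonneg (fun i _ => by
      have : coef a b (Fin.castSucc i) = a i := by simp [coef]
      rw [this]
      exact mul_nonneg (by positivity) (F_nonneg _ _))).1 h1
    intro i
    refine Fin.lastCases ht (fun i => ?_) i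
    have h3 := h2 i (mem_univ i)
    have : coef a b (Fin.castSucc i) = a i := by simp [coef]
    rw [this] at h3
    rcases mul_eq_zero.1 h3 with h4 | h4
    · have := ha i
      omega
    · exact h4
  cases hlast : κ (Fin.last ℓ) with
  | inl t0 =>
    left
    -- all elements are equal
    have hall : ∀ i, κ i = Sum.inl t0 := by
      intro i
      cases hi : κ i with
      | inl t =>
        by_contra hne
        have htt : t ≠ t0 := fun h => hne (by rw [h])
        have := hstar t (by rw [hlast]; simp [F, htt]) i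
        rw [hi] at this
        simp only [F, if_true] at this
        omega
      | inr e =>
        exfalso
        have he : e < m := by have := hok i; rw [hi] at this; exact this
        have h01 : var e ⟨0, by omega⟩ ≠ var e ⟨1, by omega⟩ := by
          intro h'
          have := hg.inj e he h'
          simp at this
        have key : ∀ j, var e j ≠ t0 → False := by
          intro j hj
          have h1 := hstar (var e j) (by rw [hlast]; simp [F, hj]) i
          rw [hi] at h1
          have h2 := F_inr_pos (a := a) (b := b) (var := var) ha e j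
          omega
        by_cases h0 : var e ⟨0, by omega⟩ = t0
        · exact key ⟨1, by omega⟩ (fun h1 => h01 (h0.trans h1.symm))
        · exact key _ h0
    have hsum : ∑ i, coef a b i = 0 := by
      have := h t0
      simp only [hall, F, if_true] at this
      rw [← sum_mul] at this
      rcases mul_eq_zero.1 this with h' | h'
      · exact h'
      · omega
    intro W
    unfold cc
    by_cases hW : W = Sum.inl t0
    · rw [← hsum]
      refine sum_congr rfl fun i _ => ?_
      rw [hall i, hW, if_pos rfl]
    · refine sum_eq_zero fun i _ => if_neg ?_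
      rw [hall i]
      exact fun h' => hW h'.symm
  | inr e0 =>
    have he0 : e0 < m := by have := hok (Fin.last ℓ); rw [hlast] at this; exact this
    have hst : ∀ t, (∀ j, var e0 j ≠ t) → ∀ i, F a b var (κ i) t = 0 := by
      intro t ht
      refine hstar t ?_
      rw [hlast]
      exact F_supp (by
        simp only [supp, mem_image, mem_univ, true_and, not_exists]
        exact ht)
    have hedge : ∀ i e, κ i = Sum.inr e → e = e0 := by
      intro i e hi
      by_contra hne
      have he : e < m := by have := hok i; rw [hi] at this; exact this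
      obtain ⟨j, hj⟩ := hg.sep e0 he0 e he (fun h' => hne h'.symm)
      have h1 := hst (var e j) (fun j' h' => hj j' h'.symm) i
      rw [hi] at h1
      have h2 := F_inr_pos (a := a) (b := b) (var := var) ha e j
      omega
    have hfree : ∀ i t, κ i = Sum.inl t → ∃ j, t = var e0 j := by
      intro i t hi
      by_contra hne
      rw [not_exists] at hne
      have h1 := hst t (fun j h' => hne j h'.symm) i
      rw [hi] at h1
      simp only [F, if_true] at h1
      omega
    -- equation at `var e0 j`
    have heq : ∀ j, (b : ℤ) * cc (coef a b) κ (Sum.inl (var e0 j)) +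
        (a j : ℤ) * cc (coef a b) κ (Sum.inr e0) = 0 := by
      intro j
      rw [← h (var e0 j)]
      unfold cc
      rw [mul_sum, mul_sum, ← sum_add_distrib]
      refine sum_congr rfl fun i _ => ?_
      cases hi : κ i with
      | inl t =>
        simp only [F]
        by_cases ht : t = var e0 j
        · subst ht
          simp
          ring
        · have : ¬ (var e0 j = t) := fun h' => ht h'.symm
          simp [ht, this]
      | inr e =>
        have := hedge i e hi
        subst this
        rw [F_inr_eq hg he0]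
        simp
        ring
    by_cases hs : cc (coef a b) κ (Sum.inr e0) = 0
    · left
      intro W
      cases W with
      | inl t =>
        by_cases ht : ∃ j, t = var e0 j
        · obtain ⟨j, rfl⟩ := ht
          have := heq j
          rw [hs, mul_zero, add_zero] at this
          rcases mul_eq_zero.1 this with h' | h'
          · omega
          · exact h'
        · refine sum_eq_zero fun i _ => if_neg fun h' => ht (hfree i t h')
      | inr e =>
        by_cases he : e = e0
        · rw [he]; exact hs
        · refine sum_eq_zero fun i _ => if_neg fun h' => he (hedge i e h')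
    · right
      refine ⟨e0, he0, ?_, ⟨Fin.last ℓ, hlast⟩⟩
      intro j
      by_contra hne
      rw [not_exists] at hne
      have h1 : cc (coef a b) κ (Sum.inl (var e0 j)) = 0 :=
        sum_eq_zero fun i _ => if_neg (hne i)
      have h2 := heq j
      rw [h1, mul_zero, zero_add] at h2
      rcases mul_eq_zero.1 h2 with h' | h'
      · have := ha j
        omega
      · exact hs h'

end

end Pool.Agent.NPC.V11230.LF
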