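import Pool.Agent.V11230.LFree
import Pool.Agent.V11230.VC

/-!
# Solution-free sets and vertex covers
-/

set_option autoImplicit false

namespace Pool.Agent.NPC.V11230.LF

open Finset

/-- The set of the elements of the list `I.1` (without repetitions) contains a free subset with at
least `I.2` elements. -/
def LFS {m : ℕ} (c : Fin m → ℤ) (I : List ℤ × ℕ) : Prop :=
  I.1.Nodup ∧ ∃ S : Finset ℤ, (∀ x ∈ S, x ∈ I.1) ∧ Free c S ∧ I.2 ≤ S.card

section

variable {ℓ : ℕ} (a : Fin ℓ → ℕ) (b : ℕ) (n : ℕ) (E : List (ℕ × ℕ))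

/-- the `i`-th variable of the edge `e` -/
def vr (ℓ n : ℕ) (E : List (ℕ × ℕ)) (e : ℕ) (i : ℕ) : ℕ :=
  if i = 0 then (E.getD e (0, 0)).1 else if i = 1 then (E.getD e (0, 0)).2
    else n + e * (ℓ - 2) + (i - 2)

def var (ℓ n : ℕ) (E : List (ℕ × ℕ)) (e : ℕ) (i : Fin ℓ) : ℕ := vr ℓ n E e i

/-- number of free numbers -/
def TT (ℓ n : ℕ) (E : List (ℕ × ℕ)) : ℕ := n + E.length * (ℓ - 2)

def CC : ℕ := ∑ i, a i + b

def KK (ℓ : ℕ) : ℕ := (ℓ + 1) * ℓ

def QQ (T : ℕ) : ℕ := KK ℓ * (CC a b * CC a b) * T ^ (KK ℓ) + 1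

def els (ℓ n : ℕ) (E : List (ℕ × ℕ)) : List El :=
  (List.range (TT ℓ n E)).map Sum.inl ++ (List.range E.length).map Sum.inr

def be (t : ℕ) : ℤ := (beta (KK ℓ) (QQ a b (TT ℓ n E)) (t + 1) : ℤ)

def val (x : El) : ℤ := V a b (var ℓ n E) (be a b n E) x

variable {a b n E}

structure Gr (n : ℕ) (E : List (ℕ × ℕ)) : Prop where
  nodup : E.Nodup
  lt : ∀ e ∈ E, e.1 < e.2 ∧ e.2 < n

theorem getD_mem {e : ℕ} (he : e < E.length) : E.getD e (0, 0) ∈ E := by
  rw [List.getD_eq_getElem _ _ he]
  exact List.getElem_mem he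

theorem block_lt {e m q j : ℕ} (he : e < m) (hj : j < q) : e * q + j < m * q := by
  calc e * q + j < e * q + q := by omega
    _ = (e + 1) * q := by ring
    _ ≤ m * q := Nat.mul_le_mul_right _ he

theorem vr_lt (hG : Gr n E) {e i : ℕ} (he : e < E.length) (hi : i < ℓ) (hℓ : 2 ≤ ℓ) :
    vr ℓ n E e i < TT ℓ n E := by
  have h1 := hG.lt _ (getD_mem he)
  unfold vr TT
  split_ifs with h0 h2
  · omega
  · omega
  · have := block_lt (j := i - 2) he (show i - 2 < ℓ - 2 by omega)
    omega

theorem good (hG : Gr n E) (hℓ : 2 ≤ ℓ) : Good E.length (var ℓ n E) := by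
  constructor
  · intro e he i j hij
    have h1 := hG.lt _ (getD_mem he)
    unfold var vr at hij
    have hi := i.2
    have hj := j.2
    apply Fin.ext
    split_ifs at hij <;> omega
  · intro e he e' he' hne
    have h1 := hG.lt _ (getD_mem he)
    have h2 := hG.lt _ (getD_mem he')
    have hd : E.getD e (0, 0) ≠ E.getD e' (0, 0) := by
      rw [List.getD_eq_getElem _ _ he, List.getD_eq_getElem _ _ he']
      intro h
      exact hne ((hG.nodup.getElem_inj_iff).1 h)
    set p := E.getD e (0, 0) with hp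
    set q := E.getD e' (0, 0) with hq
    have hd' : p.1 ≠ q.1 ∨ p.2 ≠ q.2 := by
      by_contra hcon
      push Not at hcon
      exact hd (Prod.ext hcon.1 hcon.2)
    have hval : ∀ i' : Fin ℓ, var ℓ n E e i' = p.1 ∨ var ℓ n E e i' = p.2 ∨
        n ≤ var ℓ n E e i' := by
      intro i'
      unfold var vr
      rw [← hp]
      split_ifs
      · exact Or.inl rfl
      · exact Or.inr (Or.inl rfl)
      · right; right; omega
    have hv0 : var ℓ n E e' ⟨0, by omega⟩ = q.1 := by
      unfold var vr
      simp [hq]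
    have hv1 : var ℓ n E e' ⟨1, by omega⟩ = q.2 := by
      unfold var vr
      simp [hq]
    by_cases h3 : q.1 = p.1 ∨ q.1 = p.2
    · refine ⟨⟨1, by omega⟩, fun i' h => ?_⟩
      rw [hv1] at h
      have := hval i'
      omega
    · refine ⟨⟨0, by omega⟩, fun i' h => ?_⟩
      rw [hv0] at h
      have := hval i'
      omega

theorem sum_coef_abs : ∑ i, |coef a b i| ≤ (CC a b : ℤ) := by
  rw [Fin.sum_univ_castSucc]
  have h1 : ∀ i : Fin ℓ, |coef a b (Fin.castSucc i)| = a i := by
    intro i
    simp [coef]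
  have h2 : |coef a b (Fin.last ℓ)| = b := by simp [coef]
  rw [h2, sum_congr rfl (fun i _ => h1 i)]
  unfold CC
  push_cast
  exact le_refl _

theorem supp_ok (hG : Gr n E) (hℓ : 2 ≤ ℓ) {x : El} (hx : Ok (TT ℓ n E) E.length x) :
    ∀ t ∈ supp (var ℓ n E) x, t + 1 ≤ TT ℓ n E := by
  cases x with
  | inl t =>
    intro t' ht'
    simp only [supp, mem_singleton] at ht'
    subst ht'
    exact hx
  | inr e =>
    intro t ht
    simp only [supp, mem_image, mem_univ, true_and] at ht
    obtain ⟨i, rfl⟩ := ht
    exact vr_lt hG hx i.2 hℓ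

theorem formal' (hG : Gr n E) (hℓ : 2 ≤ ℓ) {c : Fin (ℓ + 1) → ℤ} (hc : ∑ i, |c i| ≤ (CC a b : ℤ))
    {κ : Fin (ℓ + 1) → El} (hκ : ∀ i, Ok (TT ℓ n E) E.length (κ i))
    (h : ∑ i, c i * val a b n E (κ i) = 0) :
    ∀ t, ∑ i, c i * F a b (var ℓ n E) (κ i) t = 0 := by
  refine formal (a := a) (b := b) (var := var ℓ n E) (m := ℓ + 1)
    (Q := QQ a b (TT ℓ n E)) (T := TT ℓ n E) (by omega) (c := c)
    (C := CC a b) hc ?_ (fun i => supp_ok hG hℓ (hκ i)) h
  unfold QQ KK CC
  exact Nat.lt_succ_self _

theorem val_inj (hG : Gr n E) (hℓ : 2 ≤ ℓ) (ha : ∀ i, 0 < a i) (hb : 0 < b) {x y : El}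
    (hx : Ok (TT ℓ n E) E.length x) (hy : Ok (TT ℓ n E) E.length y)
    (h : val a b n E x = val a b n E y) : x = y := by
  classical
  have hg := good (ℓ := ℓ) hG hℓ
  let c : Fin (ℓ + 1) → ℤ := fun i => if i = 0 then 1 else if i = Fin.last ℓ then -1 else 0
  let κ : Fin (ℓ + 1) → El := fun i => if i = 0 then x else y
  have h0l : (0 : Fin (ℓ + 1)) ≠ Fin.last ℓ := by
    intro h'
    have := congrArg Fin.val h'
    simp at this
    omega
  have hsum : ∀ v : El → ℤ, ∑ i, c i * v (κ i) = v x - v y := by
    intro v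
    have : ∀ i, c i * v (κ i) = (if i = 0 then v x else 0) +
        (if i = Fin.last ℓ then - v y else 0) := by
      intro i
      by_cases hi0 : i = 0
      · subst hi0
        simp [c, κ, h0l]
      · by_cases hil : i = Fin.last ℓ
        · subst hil
          simp [c, κ, h0l.symm]
        · simp [c, hi0, hil]
    rw [sum_congr rfl (fun i _ => this i), sum_add_distrib]
    simp
    ring
  have hc : ∑ i, |c i| ≤ (CC a b : ℤ) := by
    have : ∀ i, |c i| = (if i = 0 then 1 else 0) + (if i = Fin.last ℓ then 1 else 0) := by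
      intro i
      by_cases hi0 : i = 0
      · subst hi0
        simp [c, h0l]
      · by_cases hil : i = Fin.last ℓ
        · subst hil
          simp [c, h0l.symm]
        · simp [c, hi0, hil]
    rw [sum_congr rfl (fun i _ => this i), sum_add_distrib]
    simp only [sum_ite_eq', mem_univ, if_true]
    unfold CC
    have h1 : 1 ≤ ∑ i, a i := by
      have h2 := ha ⟨0, by omega⟩
      have h3 := Finset.single_le_sum (f := a) (fun i _ => Nat.zero_le _)
        (mem_univ (⟨0, by omega⟩ : Fin ℓ))
      omega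
    push_cast
    have : (1 : ℤ) ≤ ∑ i, (a i : ℤ) := by exact_mod_cast h1
    have : (1 : ℤ) ≤ b := by exact_mod_cast hb
    linarith
  have hκ : ∀ i, Ok (TT ℓ n E) E.length (κ i) := by
    intro i
    simp only [κ]
    split_ifs
    · exact hx
    · exact hy
  have hF := formal' hG hℓ hc hκ (by rw [hsum (val a b n E), h, sub_self])
  have hF' : ∀ t, F a b (var ℓ n E) x t = F a b (var ℓ n E) y t := by
    intro t
    have := hF t
    rw [hsum (fun x => F a b (var ℓ n E) x t)] at this
    linarith
  have h01 : ∀ e < E.length, var ℓ n E e ⟨0, by omega⟩ ≠ var ℓ n E e ⟨1, by omega⟩ := by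
    intro e he h'
    have := hg.inj e he h'
    simp at this
  have hmix : ∀ t e, e < E.length → (∀ t', F a b (var ℓ n E) (Sum.inl t) t' =
      F a b (var ℓ n E) (Sum.inr e) t') → False := by
    intro t e he hh
    have key : ∀ j, var ℓ n E e j = t := by
      intro j
      by_contra hj
      have h1 := hh (var ℓ n E e j)
      have h2 := F_inr_pos (a := a) (b := b) (var := var ℓ n E) ha e j
      rw [← h1] at h2
      simp [F, hj] at h2
    exact h01 e he ((key _).trans (key _).symm)
  cases x with
  | inl t =>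
    cases y with
    | inl t' =>
      have h1 := hF' t
      simp only [F, if_true] at h1
      by_cases htt : t = t'
      · rw [htt]
      · rw [if_neg htt] at h1
        omega
    | inr e => exact (hmix t e hy hF').elim
  | inr e =>
    cases y with
    | inl t => exact (hmix t e hx (fun t' => (hF' t').symm)).elim
    | inr e' =>
      by_contra hne
      have hne' : e' ≠ e := fun h' => hne (by rw [h'])
      obtain ⟨i, hi⟩ := hg.sep e' hy e hx hne'
      have h1 := hF' (var ℓ n E e i)
      have h2 := F_inr_pos (a := a) (b := b) (var := var ℓ n E) ha e i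
      have h3 : F a b (var ℓ n E) (Sum.inr e') (var ℓ n E e i) = 0 := by
        refine F_supp ?_
        simp only [supp, mem_image, mem_univ, true_and, not_exists]
        exact fun j hj => hi j hj.symm
      omega

theorem mem_els {x : El} : x ∈ els ℓ n E ↔ Ok (TT ℓ n E) E.length x := by
  unfold els
  cases x with
  | inl t => simp [Ok]
  | inr e => simp [Ok]

theorem els_nodup : (els ℓ n E).Nodup := by
  unfold els
  rw [List.nodup_append]
  refine ⟨List.nodup_range.map Sum.inl_injective, List.nodup_range.map Sum.inr_injective, ?_⟩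
  intro x hx y hy
  obtain ⟨t, _, rfl⟩ := List.mem_map.1 hx
  obtain ⟨e, _, rfl⟩ := List.mem_map.1 hy
  simp

variable (a b n E) in
/-- the list of the numbers -/
def nums : List ℤ := (els ℓ n E).map (val a b n E)

theorem nums_nodup (hG : Gr n E) (hℓ : 2 ≤ ℓ) (ha : ∀ i, 0 < a i) (hb : 0 < b) :
    (nums a b n E).Nodup := by
  unfold nums
  refine List.Nodup.map_on ?_ els_nodup
  intro x hx y hy h
  exact val_inj hG hℓ ha hb (mem_els.1 hx) (mem_els.1 hy) h

/-- the designed solution -/
theorem designed (hG : Gr n E) (hℓ : 2 ≤ ℓ) (ha : ∀ i, 0 < a i) (hb : 0 < b) {S : Finset ℤ}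
    (hS : Free (coef a b) S) {e : ℕ} (he : e < E.length) :
    (∃ i, val a b n E (Sum.inl (var ℓ n E e i)) ∉ S) ∨ val a b n E (Sum.inr e) ∉ S := by
  classical
  by_contra hcon
  push Not at hcon
  obtain ⟨h1, h2⟩ := hcon
  let κ : Fin (ℓ + 1) → El := Fin.snoc (fun i => Sum.inl (var ℓ n E e i)) (Sum.inr e)
  have hκc : ∀ i : Fin ℓ, κ (Fin.castSucc i) = Sum.inl (var ℓ n E e i) := by
    intro i; simp [κ]
  have hκl : κ (Fin.last ℓ) = Sum.inr e := by simp [κ]
  have hg := good (ℓ := ℓ) hG hℓ
  have hok : ∀ i, Ok (TT ℓ n E) E.length (κ i) := by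
    intro i
    refine Fin.lastCases ?_ (fun i => ?_) i
    · rw [hκl]; exact he
    · rw [hκc]; exact vr_lt hG he i.2 hℓ
  have hinj : Function.Injective κ := by
    intro i j
    refine Fin.lastCases ?_ (fun i => ?_) i
    · refine Fin.lastCases (fun _ => rfl) (fun j => ?_) j
      rw [hκl, hκc]; simp
    · refine Fin.lastCases ?_ (fun j => ?_) j
      · rw [hκl, hκc]; simp
      · rw [hκc, hκc]
        intro h
        rw [hg.inj e he (Sum.inl_injective h)]
  have hT := hS (fun i => val a b n E (κ i)) ?_ ?_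
  · obtain ⟨P, hP⟩ := hT
    obtain ⟨B, hB, hB0⟩ := P.exists_mem (mem_univ (0 : Fin (ℓ + 1)))
    obtain ⟨h3, h4⟩ := hP B hB
    have hBs : B = {0} := by
      refine eq_singleton_iff_unique_mem.2 ⟨hB0, ?_⟩
      intro j hj
      have := h3 j hj 0 hB0
      exact hinj (val_inj hG hℓ ha hb (hok j) (hok 0) this)
    rw [hBs, sum_singleton] at h4
    have h5 : (0 : Fin (ℓ + 1)) = Fin.castSucc (⟨0, by omega⟩ : Fin ℓ) := rfl
    rw [h5] at h4
    have h6 : coef a b (Fin.castSucc (⟨0, by omega⟩ : Fin ℓ)) = a ⟨0, by omega⟩ :=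
      Fin.snoc_castSucc ..
    rw [h6] at h4
    have := ha ⟨0, by omega⟩
    omega
  · intro i
    refine Fin.lastCases ?_ (fun i => ?_) i
    · rw [hκl]; exact h2
    · rw [hκc]; exact h1 i
  · rw [Fin.sum_univ_castSucc, hκl]
    have h6 : ∀ i : Fin ℓ, coef a b (Fin.castSucc i) = a i := by intro i; simp [coef]
    have h7 : coef a b (Fin.last ℓ) = -(b : ℤ) := by simp [coef]
    rw [h7]
    simp only [h6, hκc, val, V]
    rw [mul_comm (-(b : ℤ)), Finset.sum_mul, ← sum_add_distrib]
    refine sum_eq_zero fun i _ => ?_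
    ring

/-- a vertex for every element -/
def rho (ℓ n : ℕ) (E : List (ℕ × ℕ)) : El → ℕ
  | Sum.inl t => if t < n then t else vr ℓ n E ((t - n) / (ℓ - 2)) 0
  | Sum.inr e => vr ℓ n E e 0

theorem rho_var (hG : Gr n E) {e : ℕ} (he : e < E.length) (i : Fin ℓ) :
    rho ℓ n E (Sum.inl (var ℓ n E e i)) = (E.getD e (0, 0)).1 ∨
      rho ℓ n E (Sum.inl (var ℓ n E e i)) = (E.getD e (0, 0)).2 := by
  have h1 := hG.lt _ (getD_mem he)
  have hi := i.2
  unfold rho var
  by_cases h0 : (i : ℕ) = 0
  · left
    have : vr ℓ n E e i = (E.getD e (0, 0)).1 := by simp [vr, h0]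
    simp only [this]
    rw [if_pos (by omega)]
  · by_cases h2 : (i : ℕ) = 1
    · right
      have : vr ℓ n E e i = (E.getD e (0, 0)).2 := by simp [vr, h2]
      simp only [this]
      rw [if_pos (by omega)]
    · left
      have : vr ℓ n E e i = n + e * (ℓ - 2) + (i - 2) := by simp [vr, h0, h2]
      simp only [this]
      rw [if_neg (by omega)]
      have h3 : (n + e * (ℓ - 2) + ((i : ℕ) - 2) - n) / (ℓ - 2) = e := by
        have h4 : n + e * (ℓ - 2) + ((i : ℕ) - 2) - n = (i - 2) + (ℓ - 2) * e := by
          rw [Nat.mul_comm (ℓ - 2) e]; omega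
        rw [h4, Nat.add_mul_div_left _ _ (by omega), Nat.div_eq_of_lt (by omega)]
        omega
      rw [h3]
      simp [vr]

theorem main_iff (hG : Gr n E) (hℓ : 2 ≤ ℓ) (ha : ∀ i, 0 < a i) (hb : 0 < b) {k : ℕ} :
    (∃ K : Finset ℕ, (∀ v ∈ K, v < n) ∧ K.card ≤ k ∧ ∀ e ∈ E, e.1 ∈ K ∨ e.2 ∈ K) ↔
      LFS (coef a b) (nums a b n E, (nums a b n E).length - k) := by
  classical
  have hg := good (ℓ := ℓ) hG hℓ
  constructor
  · rintro ⟨K, hK1, hK2, hK3⟩
    refine ⟨nums_nodup hG hℓ ha hb, (nums a b n E).toFinset \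
      K.image (fun v => val a b n E (Sum.inl v)), ?_, ?_, ?_⟩
    · intro x hx
      exact List.mem_toFinset.1 (mem_sdiff.1 hx).1
    · intro z hz hsol
      have hch : ∀ i, ∃ x, Ok (TT ℓ n E) E.length x ∧ val a b n E x = z i := by
        intro i
        have := List.mem_toFinset.1 (mem_sdiff.1 (hz i)).1
        obtain ⟨x, hx, hxe⟩ := List.mem_map.1 this
        exact ⟨x, mem_els.1 hx, hxe⟩
      choose κ hok hκ using hch
      have hz' : z = fun i => val a b n E (κ i) := by funext i; exact (hκ i).symm
      rw [hz'] at hsol ⊢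
      rcases analysis hℓ ha hb hg hok (formal' hG hℓ sum_coef_abs hok hsol) with h | ⟨e, he, h1, -⟩
      · exact trivial_of_cc h
      · exfalso
        have hkey : ∀ v ∈ K, ∀ i : Fin ℓ, var ℓ n E e i ≠ v := by
          intro v hv i hvi
          obtain ⟨j, hj⟩ := h1 i
          have := (mem_sdiff.1 (hz j)).2
          apply this
          rw [← hκ j, hj, hvi]
          exact mem_image_of_mem _ hv
        rcases hK3 _ (getD_mem he) with h | h
        · exact hkey _ h ⟨0, by omega⟩ (by simp [var, vr])
        · exact hkey _ h ⟨1, by omega⟩ (by simp [var, vr])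
    · have h1 : (nums a b n E).toFinset.card = (nums a b n E).length :=
        List.toFinset_card_of_nodup (nums_nodup hG hℓ ha hb)
      have h2 := Finset.le_card_sdiff (K.image (fun v => val a b n E (Sum.inl v)))
        (nums a b n E).toFinset
      have h3 : (K.image (fun v => val a b n E (Sum.inl v))).card ≤ K.card := card_image_le
      simp only
      omega
  · rintro ⟨hnd, S, hS1, hS2, hS3⟩
    simp only at hS1 hS3
    let R : Finset El := (els ℓ n E).toFinset.filter (fun x => val a b n E x ∉ S)
    have hRc : R.card ≤ k := by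
      have h1 : ((els ℓ n E).toFinset.filter (fun x => val a b n E x ∈ S)).card = S.card := by
        have : S = ((els ℓ n E).toFinset.filter (fun x => val a b n E x ∈ S)).image
            (val a b n E) := by
          ext y
          simp only [mem_image, mem_filter, List.mem_toFinset]
          constructor
          · intro hy
            obtain ⟨x, hx, rfl⟩ := List.mem_map.1 (hS1 y hy)
            exact ⟨x, ⟨hx, hy⟩, rfl⟩
          · rintro ⟨x, ⟨_, hx⟩, rfl⟩
            exact hx
        conv_rhs => rw [this]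
        refine (card_image_of_injOn ?_).symm
        intro x hx y hy hxy
        simp only [coe_filter, List.mem_toFinset, Set.mem_ofPred_eq] at hx hy
        exact val_inj hG hℓ ha hb (mem_els.1 hx.1) (mem_els.1 hy.1) hxy
      have h2 := Finset.card_filter_add_card_filter_not (s := (els ℓ n E).toFinset)
        (fun x => val a b n E x ∈ S)
      have h3 : (els ℓ n E).toFinset.card = (els ℓ n E).length :=
        List.toFinset_card_of_nodup els_nodup
      have h4 : (nums a b n E).length = (els ℓ n E).length := by simp [nums]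
      have h5 : R.card = ((els ℓ n E).toFinset.filter (fun x => ¬ val a b n E x ∈ S)).card := rfl
      omega
    have hρ : ∀ x ∈ R, rho ℓ n E x < n := by
      intro x hx
      have hok := mem_els.1 (List.mem_toFinset.1 (mem_filter.1 hx).1)
      have hv : ∀ e < E.length, vr ℓ n E e 0 < n := by
        intro e he
        have := hG.lt _ (getD_mem he)
        simp only [vr, if_true]
        omega
      cases x with
      | inl t =>
        simp only [rho]
        split_ifs with h
        · exact h
        · have hok' : t < TT ℓ n E := hok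
          unfold TT at hok'
          have h1 : 0 < ℓ - 2 := by
            by_contra h0
            have : ℓ - 2 = 0 := by omega
            rw [this, Nat.mul_zero] at hok'
            omega
          refine hv _ ?_
          rw [Nat.div_lt_iff_lt_mul h1]
          omega
      | inr e => exact hv e hok
    refine ⟨R.image (rho ℓ n E), ?_, (card_image_le).trans hRc, ?_⟩
    · intro v hv
      obtain ⟨x, hx, rfl⟩ := mem_image.1 hv
      exact hρ x hx
    · intro p hp
      obtain ⟨e, he, rfl⟩ := List.getElem_of_mem hp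
      have hpe : E.getD e (0, 0) = E[e] := List.getD_eq_getElem _ _ he
      rcases designed hG hℓ ha hb hS2 he with ⟨i, hi⟩ | hi
      · have hxR : (Sum.inl (var ℓ n E e i) : El) ∈ R := by
          refine mem_filter.2 ⟨List.mem_toFinset.2 (mem_els.2 ?_), hi⟩
          exact vr_lt hG he i.2 hℓ
        have := mem_image_of_mem (rho ℓ n E) hxR
        rcases rho_var hG he i with h | h
        · left
          rw [h, hpe] at this
          exact this
        · right
          rw [h, hpe] at this
          exact this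
      · have hxR : (Sum.inr e : El) ∈ R :=
          mem_filter.2 ⟨List.mem_toFinset.2 (mem_els.2 he), hi⟩
        have := mem_image_of_mem (rho ℓ n E) hxR
        left
        simp only [rho, vr, if_true] at this
        rw [hpe] at this
        exact this

end

end Pool.Agent.NPC.V11230.LF
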