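import Pool.Agent.V11230.LFree2
import Pool.Agent.H687R2.IntPoly

/-!
# Solution-free sets: the reduction is computable in polynomial time
-/

set_option autoImplicit false

namespace Pool.Agent.NPC.V11230.LF

open Finset Pool.Agent.NPC

section

variable {α : Type} [TEnc α]

theorem poly_pow {f : α → ℕ} (hf : Poly f) : ∀ j : ℕ, Poly (fun x => f x ^ j)
  | 0 => (Poly.const 1).congr fun x => by simp
  | j + 1 => (Poly.mul (poly_pow hf j) hf).congr fun x => by rw [pow_succ]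

theorem poly_beta {Q t : α → ℕ} (hQ : Poly Q) (ht : Poly t) :
    ∀ k : ℕ, Poly (fun x => beta k (Q x) (t x))
  | 0 => (Poly.const 0).congr fun x => by simp [beta]
  | k + 1 => (Poly.add (poly_beta hQ ht k) (poly_pow (Poly.mul ht hQ) k)).congr fun x => by
      simp only [beta]
      rw [sum_range_succ]

theorem poly_sum_list {ι : Type} {f : ι → α → ℕ} (hf : ∀ i, Poly (f i)) :
    ∀ l : List ι, Poly (fun x => (l.map (fun i => f i x)).sum)
  | [] => (Poly.const 0).congr fun x => by simp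
  | i :: l => (Poly.add (hf i) (poly_sum_list hf l)).congr fun x => by simp

theorem poly_sum_fin {ℓ : ℕ} {f : Fin ℓ → α → ℕ} (hf : ∀ i, Poly (f i)) :
    Poly (fun x => ∑ i, f i x) :=
  (poly_sum_list hf (List.finRange ℓ)).congr fun x => by
    rw [← Fin.sum_univ_def]

theorem poly_vr {ℓ : ℕ} {n e : α → ℕ} {E : α → List (ℕ × ℕ)} (hn : Poly n) (he : Poly e)
    (hE : Poly E) (i : ℕ) : Poly (fun x => vr ℓ (n x) (E x) (e x) i) := by
  unfold vr
  by_cases h0 : i = 0
  · simp only [h0, if_true]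
    fun_prop
  · by_cases h1 : i = 1
    · simp only [h1, if_true]
      simp only [one_ne_zero, if_false]
      fun_prop
    · simp only [h0, h1, if_false]
      fun_prop

end

variable {ℓ : ℕ} (a : Fin ℓ → ℕ) (b : ℕ)

def nV (I : (List ℕ × List (ℕ × ℕ)) × ℕ) : ℕ := I.1.1.length

def numsN (I : (List ℕ × List (ℕ × ℕ)) × ℕ) : List ℕ :=
  (List.range (TT ℓ (nV I) I.1.2)).map
      (fun t => b * beta (KK ℓ) (QQ a b (TT ℓ (nV I) I.1.2)) (t + 1)) ++
    (List.range I.1.2.length).map (fun e => ∑ i : Fin ℓ, a i *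
      beta (KK ℓ) (QQ a b (TT ℓ (nV I) I.1.2)) (vr ℓ (nV I) I.1.2 e i + 1))

theorem nums_eq (I : (List ℕ × List (ℕ × ℕ)) × ℕ) :
    nums a b (nV I) I.1.2 = (numsN a b I).map (fun x : ℕ => (x : ℤ)) := by
  unfold nums numsN els
  rw [List.map_append, List.map_map, List.map_map, List.map_append, List.map_map, List.map_map]
  have h1 : ∀ t, (val a b (nV I) I.1.2 ∘ Sum.inl) t = ((fun x : ℕ => (x : ℤ)) ∘
      (fun t => b * beta (KK ℓ) (QQ a b (TT ℓ (nV I) I.1.2)) (t + 1))) t := by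
    intro t
    simp only [Function.comp_apply, val, V, be]
    push_cast
    ring
  have h2 : ∀ e, (val a b (nV I) I.1.2 ∘ Sum.inr) e = ((fun x : ℕ => (x : ℤ)) ∘
      (fun e => ∑ i : Fin ℓ, a i *
        beta (KK ℓ) (QQ a b (TT ℓ (nV I) I.1.2)) (vr ℓ (nV I) I.1.2 e i + 1))) e := by
    intro e
    simp only [Function.comp_apply, val, V, be, var]
    push_cast
    rfl
  rw [List.map_congr_left (fun t _ => h1 t), List.map_congr_left (fun e _ => h2 e)]

theorem upoly_TT : UPoly (fun I : (List ℕ × List (ℕ × ℕ)) × ℕ => TT ℓ (nV I) I.1.2) := by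
  unfold TT nV
  exact UPoly.add (UPoly.length (by fun_prop)) (UPoly.mul (UPoly.length (by fun_prop))
    (UPoly.const (ℓ - 2)))

theorem poly_numsN : Poly (numsN a b) := by
  have hT : Poly (fun I : (List ℕ × List (ℕ × ℕ)) × ℕ => TT ℓ (nV I) I.1.2) := upoly_TT.toPoly
  have hTr := (upoly_TT (ℓ := ℓ)).range
  have hQ : Poly (fun I : (List ℕ × List (ℕ × ℕ)) × ℕ => QQ a b (TT ℓ (nV I) I.1.2)) := by
    unfold QQ
    exact Poly.add (Poly.mul (Poly.const _) (poly_pow hT _)) (Poly.const 1)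
  have hn : Poly nV := by unfold nV; fun_prop
  unfold numsN
  refine Poly.append (Poly.map hTr (F := fun I t =>
    b * beta (KK ℓ) (QQ a b (TT ℓ (nV I) I.1.2)) (t + 1)) ?_)
    (Poly.map (UPoly.length (by fun_prop)).range (F := fun I e => ∑ i : Fin ℓ, a i *
      beta (KK ℓ) (QQ a b (TT ℓ (nV I) I.1.2)) (vr ℓ (nV I) I.1.2 e i + 1)) ?_)
  · exact Poly.mul (Poly.const b) (poly_beta (hQ.comp (Poly.fst Poly.id)) (by fun_prop) _)
  · refine poly_sum_fin fun i => Poly.mul (Poly.const _) (poly_beta (hQ.comp (Poly.fst Poly.id))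
      (Poly.add (poly_vr (hn.comp (Poly.fst Poly.id)) (Poly.snd Poly.id) (by fun_prop) _)
        (Poly.const 1)) _)

/-- the polynomial bound -/
noncomputable def bd : Polynomial ℕ :=
  Polynomial.C (CC a b * KK ℓ) * (Polynomial.X * (Polynomial.C (KK ℓ * (CC a b * CC a b)) *
    Polynomial.X ^ (KK ℓ) + 1)) ^ (KK ℓ)

theorem bd_eval (N : ℕ) : (bd a b).eval N = CC a b * KK ℓ * (N * QQ a b N) ^ (KK ℓ) := by
  unfold bd QQ
  simp

theorem beta_le {k Q t : ℕ} (h : 1 ≤ t * Q) : beta k Q t ≤ k * (t * Q) ^ k := by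
  unfold beta
  calc ∑ j ∈ range k, (t * Q) ^ j ≤ ∑ _j ∈ range k, (t * Q) ^ k :=
        sum_le_sum fun j hj => Nat.pow_le_pow_right h (mem_range.1 hj).le
    _ = k * (t * Q) ^ k := by simp

variable {a b}

theorem be_le {n : ℕ} {E : List (ℕ × ℕ)} {t N : ℕ} (ht : t + 1 ≤ TT ℓ n E) (hN : TT ℓ n E ≤ N) :
    be a b n E t ≤ ((KK ℓ * (N * QQ a b N) ^ (KK ℓ) : ℕ) : ℤ) := by
  unfold be
  have hQ : 1 ≤ QQ a b (TT ℓ n E) := by unfold QQ; omega
  have hQ' : QQ a b (TT ℓ n E) ≤ QQ a b N := by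
    unfold QQ
    gcongr
  have h1 : 1 ≤ (t + 1) * QQ a b (TT ℓ n E) := Nat.mul_pos (by omega) hQ
  have h2 := beta_le (k := KK ℓ) h1
  have h3 : KK ℓ * ((t + 1) * QQ a b (TT ℓ n E)) ^ (KK ℓ) ≤ KK ℓ * (N * QQ a b N) ^ (KK ℓ) := by
    gcongr
    omega
  exact_mod_cast h2.trans h3

theorem be_nonneg {n : ℕ} {E : List (ℕ × ℕ)} (t : ℕ) : 0 ≤ be a b n E t := by
  unfold be
  positivity

theorem small {n : ℕ} {E : List (ℕ × ℕ)} (hG : Gr n E) (hℓ : 2 ≤ ℓ) :
    ∀ x ∈ nums a b n E, |x| ≤ (((bd a b).eval (nums a b n E).length : ℕ) : ℤ) := by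
  intro x hx
  obtain ⟨y, hy, rfl⟩ := List.mem_map.1 hx
  have hok := mem_els.1 hy
  have hN : TT ℓ n E ≤ (nums a b n E).length := by
    unfold nums els
    simp
  generalize (nums a b n E).length = N at *
  rw [bd_eval]
  have hsupp := supp_ok hG hℓ hok
  have hnn : 0 ≤ val a b n E y := by
    unfold val
    cases y with
    | inl t => exact mul_nonneg (by positivity) (be_nonneg t)
    | inr e => exact sum_nonneg fun i _ => mul_nonneg (by positivity) (be_nonneg _)
  rw [abs_of_nonneg hnn]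
  set W : ℤ := ((KK ℓ * (N * QQ a b N) ^ (KK ℓ) : ℕ) : ℤ) with hW
  have hW0 : 0 ≤ W := by positivity
  have hgoal : ((CC a b * KK ℓ * (N * QQ a b N) ^ (KK ℓ) : ℕ) : ℤ) = CC a b * W := by
    rw [hW]
    push_cast
    ring
  rw [hgoal]
  unfold val
  cases y with
  | inl t =>
    have h1 := be_le (a := a) (b := b) (hsupp t (by simp [supp])) hN
    have hb : (b : ℤ) ≤ CC a b := by
      unfold CC
      push_cast
      have : (0 : ℤ) ≤ ∑ i, (a i : ℤ) := sum_nonneg fun i _ => by positivity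
      linarith
    exact mul_le_mul hb h1 (be_nonneg t) (by positivity)
  | inr e =>
    have h1 : ∀ i : Fin ℓ, be a b n E (var ℓ n E e i) ≤ W := fun i =>
      be_le (hsupp _ (by simp [supp])) hN
    calc ∑ i, (a i : ℤ) * be a b n E (var ℓ n E e i) ≤ ∑ i, (a i : ℤ) * W :=
          sum_le_sum fun i _ => mul_le_mul_of_nonneg_left (h1 i) (by positivity)
      _ = (∑ i, (a i : ℤ)) * W := by rw [sum_mul]
      _ ≤ CC a b * W := by
          refine mul_le_mul_of_nonneg_right ?_ hW0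
          unfold CC
          push_cast
          linarith [Int.natCast_nonneg b]

/-- **Strong NP-hardness.** -/
theorem hard (hℓ : 2 ≤ ℓ) (ha : ∀ i, 0 < a i) (hb : 0 < b) :
    HardI (fun I : List ℤ × ℕ => (∀ x ∈ I.1, |x| ≤ (((bd a b).eval I.1.length : ℕ) : ℤ)) ∧
      LFS (coef a b) I) := by
  have hp : Poly (fun I : (List ℕ × List (ℕ × ℕ)) × ℕ =>
      ((numsN a b I).map (fun x : ℕ => (x : ℤ)), (numsN a b I).length - I.2)) := by
    have h1 := poly_numsN a b
    fun_prop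
  refine (hardPr_VC.trans (Pr' := fun _ => True) hp (fun _ _ => trivial) ?_).toHardI
  intro I hI
  obtain ⟨h1, h2, h3, h4, h5⟩ := hI
  have hG : Gr (nV I) I.1.2 := ⟨h2, h3⟩
  have hl : (numsN a b I).length = (nums a b (nV I) I.1.2).length := by
    rw [nums_eq, List.length_map]
  rw [← nums_eq, hl]
  have hm := main_iff (ℓ := ℓ) (a := a) (b := b) hG hℓ ha hb (k := I.2)
  constructor
  · intro h
    exact ⟨small hG hℓ, hm.1 h⟩
  · intro h
    exact hm.2 h.2

end Pool.Agent.NPC.V11230.LF
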