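import Mathlib
import Pool.Agent.NPC.Sat2

/-!
# Hospitals/Residents with lower quotas at most 2: definitions, the instance of a formula
-/

set_option autoImplicit false

namespace Pool.Agent.NPC.V11230.LQ

open Pool.Agent.NPC

/-! ### Definitions -/

/-- An instance: for each resident `0, 1, ...` the preference list (most preferred hospital first),
and for each hospital `0, 1, ...` its preference list, its lower quota and its upper quota. -/
abbrev Inst : Type := List (List ℕ) × List (List ℕ × ℕ × ℕ)

/-- the preference list of the resident `i` -/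
def rl (I : Inst) (i : ℕ) : List ℕ := I.1.getD i []

/-- the preference list of the hospital `j` -/
def hl (I : Inst) (j : ℕ) : List ℕ := (I.2.getD j ([], 0, 0)).1

/-- the lower quota of the hospital `j` -/
def lq (I : Inst) (j : ℕ) : ℕ := (I.2.getD j ([], 0, 0)).2.1

/-- the upper quota of the hospital `j` -/
def uq (I : Inst) (j : ℕ) : ℕ := (I.2.getD j ([], 0, 0)).2.2

/-- The lists have no repetitions, acceptability is mutual, and the quotas are admissible. -/
structure Valid (I : Inst) : Prop where
  rnodup : ∀ i < I.1.length, (rl I i).Nodup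
  hnodup : ∀ j < I.2.length, (hl I j).Nodup
  rrange : ∀ i < I.1.length, ∀ j ∈ rl I i, j < I.2.length
  hrange : ∀ j < I.2.length, ∀ i ∈ hl I j, i < I.1.length
  accept : ∀ i < I.1.length, ∀ j < I.2.length, j ∈ rl I i ↔ i ∈ hl I j
  quota : ∀ j < I.2.length, lq I j ≤ uq I j ∧ 1 ≤ uq I j

/-- Assignments: for each resident its hospital, if any. -/
abbrev Asg : Type := List (Option ℕ)

/-- the hospital of the resident `i` -/
def hosp (M : Asg) (i : ℕ) : Option ℕ := M.getD i none

/-- the number of residents at the hospital `j` -/
def load (M : Asg) (j : ℕ) : ℕ :=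
  ((Finset.range M.length).filter (fun i => hosp M i = some j)).card

/-- the number of assigned residents -/
def size (M : Asg) : ℕ := ((Finset.range M.length).filter (fun i => hosp M i ≠ none)).card

/-- `M` consists of acceptable pairs -/
def Acceptable (I : Inst) (M : Asg) : Prop :=
  M.length = I.1.length ∧ ∀ i < I.1.length, ∀ j, hosp M i = some j → j ∈ rl I i

/-- `M` is a matching: the number of residents of a hospital is `0` (it is closed) or between its
quotas. -/
def IsMatching (I : Inst) (M : Asg) : Prop :=
  Acceptable I M ∧ ∀ j < I.2.length, load M j = 0 ∨ (lq I j ≤ load M j ∧ load M j ≤ uq I j)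

/-- The resident `i` finds `j` acceptable, and is unassigned or prefers `j` to its hospital. -/
def Wants (I : Inst) (M : Asg) (i j : ℕ) : Prop :=
  j ∈ rl I i ∧ (hosp M i = none ∨
    ∃ j', hosp M i = some j' ∧ (rl I i).idxOf j < (rl I i).idxOf j')

/-- The hospital `j` is undersubscribed or prefers `i` to one of its residents. -/
def Admits (I : Inst) (M : Asg) (i j : ℕ) : Prop :=
  load M j < uq I j ∨ ∃ i', hosp M i' = some j ∧ (hl I j).idxOf i < (hl I j).idxOf i'

/-- `M` is a pairwise stable matching: no resident wants an open hospital that admits it. -/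
def PairwiseStable (I : Inst) (M : Asg) : Prop :=
  IsMatching I M ∧ ∀ i < I.1.length, ∀ j, Wants I M i j → load M j ≠ 0 → ¬ Admits I M i j

/-- `M` is a stable matching of the instance without lower quotas. -/
def ClassicalStable (I : Inst) (M : Asg) : Prop :=
  Acceptable I M ∧ (∀ j < I.2.length, load M j ≤ uq I j) ∧
    ∀ i < I.1.length, ∀ j, Wants I M i j → ¬ Admits I M i j

/-- `M` is the resident-optimal stable matching of the instance without lower quotas: no resident
prefers its hospital in another one. -/
def ResidentOptimal (I : Inst) (M : Asg) : Prop :=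
  ClassicalStable I M ∧ ∀ M', ClassicalStable I M' →
    ∀ i < I.1.length, ∀ j, hosp M' i = some j → ¬ Wants I M i j

/-- the hospital `j` is popular -/
def Popular (I : Inst) (j : ℕ) : Prop := ∃ M, ResidentOptimal I M ∧ lq I j ≤ load M j

/-- `M` is a popular pairwise stable matching: all popular hospitals are open. -/
def PopularStable (I : Inst) (M : Asg) : Prop :=
  PairwiseStable I M ∧ ∀ j < I.2.length, Popular I j → load M j ≠ 0

/-! ### The instance of a formula -/

/-- a clause with three literals -/
abbrev Cl : Type := Lit ℕ × Lit ℕ × Lit ℕ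

/-- a clause -/
def dcl : Cl := ((true, 0), (true, 0), (true, 0))

/-- the literal with number `k` of a clause -/
def litC (c : Cl) (k : ℕ) : Lit ℕ := if k = 0 then c.1 else if k = 1 then c.2.1 else c.2.2

/-- the occurrence with number `e = 3 j + k` -/
def lit (φ : List Cl) (e : ℕ) : Lit ℕ := litC (φ.getD (e / 3) dcl) (e % 3)

/-- the hospital that is open when the literal is false -/
def yh (L : ℕ) (l : Lit ℕ) : ℕ := if l.1 = true then 29 * L + l.2 else 26 * L + l.2

/-- the preference list of the resident `i` -/
def rlf (φ : List Cl) (i : ℕ) : List ℕ :=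
  if i < 3 * φ.length then [i, 26 * φ.length + i, 29 * φ.length + i]
  else if i < 6 * φ.length then [i, 26 * φ.length + (i - 3 * φ.length), 13 * φ.length + i]
  else if i < 9 * φ.length then [i, 29 * φ.length + (i - 6 * φ.length), 13 * φ.length + i]
  else if i < 10 * φ.length then [i, 32 * φ.length + 3 * (i - 9 * φ.length),
    32 * φ.length + 3 * (i - 9 * φ.length) + 1, 32 * φ.length + 3 * (i - 9 * φ.length) + 2]
  else [i, yh φ.length (lit φ (i - 10 * φ.length)), 32 * φ.length + (i - 10 * φ.length),
    13 * φ.length + i]

/-- the lower quota of the hospital `j` -/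
def lqf (L j : ℕ) : ℕ := if 13 * L ≤ j ∧ j < 26 * L then 1 else 2

/-- the instance -/
def inst (φ : List Cl) : Inst :=
  ((List.range (13 * φ.length)).map (rlf φ),
    (List.range (35 * φ.length)).map (fun j =>
      ((List.range (13 * φ.length)).filter (fun i => decide (j ∈ rlf φ i)), lqf φ.length j,
        13 * φ.length)))

section

variable {φ : List Cl}

theorem rl_inst {i : ℕ} (hi : i < 13 * φ.length) : rl (inst φ) i = rlf φ i := by
  unfold rl inst
  simp [List.getD_eq_getElem?_getD, List.getElem?_map, List.getElem?_range hi]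

theorem hosp_inst {j : ℕ} (hj : j < 35 * φ.length) :
    hl (inst φ) j = (List.range (13 * φ.length)).filter (fun i => decide (j ∈ rlf φ i)) ∧
      lq (inst φ) j = lqf φ.length j ∧ uq (inst φ) j = 13 * φ.length := by
  unfold hl lq uq inst
  simp [List.getD_eq_getElem?_getD, List.getElem?_map, List.getElem?_range hj]

theorem len1 : (inst φ).1.length = 13 * φ.length := by simp [inst]

theorem len2 : (inst φ).2.length = 35 * φ.length := by simp [inst]

/-- variables are small -/
def Bd (φ : List Cl) : Prop := ∀ e, (lit φ e).2 < 3 * φ.length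

theorem bd_of (hb : Bounded3 φ) (hne : φ ≠ []) : Bd φ := by
  intro e
  have hL : 0 < φ.length := List.length_pos_iff.2 hne
  unfold lit
  have : ∀ c : Cl, c.1.2 < 3 * φ.length → c.2.1.2 < 3 * φ.length → c.2.2.2 < 3 * φ.length →
      (litC c (e % 3)).2 < 3 * φ.length := by
    intro c h1 h2 h3
    unfold litC
    split_ifs <;> assumption
  by_cases he : e / 3 < φ.length
  · rw [List.getD_eq_getElem?_getD, List.getElem?_eq_getElem he, Option.getD_some]
    have h := hb _ (List.getElem_mem he)
    exact this _ h.1 h.2.1 h.2.2
  · rw [List.getD_eq_getElem?_getD, List.getElem?_eq_none (by omega), Option.getD_none]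
    apply this <;> simp only [dcl] <;> omega

theorem yh_cases (L : ℕ) (l : Lit ℕ) : (l.1 = true ∧ yh L l = 29 * L + l.2) ∨
    (l.1 = false ∧ yh L l = 26 * L + l.2) := by
  unfold yh
  cases h : l.1 <;> simp

/-- the possible hospitals of a resident -/
theorem mem_rlf {i j : ℕ} : j ∈ rlf φ i ↔
    (i < 3 * φ.length ∧ (j = i ∨ j = 26 * φ.length + i ∨ j = 29 * φ.length + i)) ∨
    (3 * φ.length ≤ i ∧ i < 6 * φ.length ∧
      (j = i ∨ j = 26 * φ.length + (i - 3 * φ.length) ∨ j = 13 * φ.length + i)) ∨
    (6 * φ.length ≤ i ∧ i < 9 * φ.length ∧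
      (j = i ∨ j = 29 * φ.length + (i - 6 * φ.length) ∨ j = 13 * φ.length + i)) ∨
    (9 * φ.length ≤ i ∧ i < 10 * φ.length ∧ (j = i ∨
      j = 32 * φ.length + 3 * (i - 9 * φ.length) ∨ j = 32 * φ.length + 3 * (i - 9 * φ.length) + 1 ∨
      j = 32 * φ.length + 3 * (i - 9 * φ.length) + 2)) ∨
    (10 * φ.length ≤ i ∧ (j = i ∨ j = yh φ.length (lit φ (i - 10 * φ.length)) ∨
      j = 32 * φ.length + (i - 10 * φ.length) ∨ j = 13 * φ.length + i)) := by
  unfold rlf
  split_ifs with h1 h2 h3 h4 <;>
    simp only [List.mem_cons, List.not_mem_nil, or_false] <;> omega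

theorem valid_inst (hL : 0 < φ.length) (hb : Bd φ) : Valid (inst φ) := by
  refine ⟨?_, ?_, ?_, ?_, ?_, ?_⟩
  · intro i hi
    rw [len1] at hi
    rw [rl_inst hi]
    have hv := hb (i - 10 * φ.length)
    have hy := yh_cases φ.length (lit φ (i - 10 * φ.length))
    unfold rlf
    split_ifs with h1 h2 h3 h4 <;>
      simp only [List.nodup_cons, List.mem_cons, List.not_mem_nil, or_false, not_false_eq_true,
        List.nodup_nil, and_true] <;> omega
  · intro j hj
    rw [len2] at hj
    rw [(hosp_inst hj).1]
    exact List.nodup_range.filter _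
  · intro i hi j hj
    rw [len1] at hi
    rw [rl_inst hi, mem_rlf] at hj
    rw [len2]
    have hv := hb (i - 10 * φ.length)
    have hy := yh_cases φ.length (lit φ (i - 10 * φ.length))
    omega
  · intro j hj i hi
    rw [len2] at hj
    rw [(hosp_inst hj).1, List.mem_filter, List.mem_range] at hi
    rw [len1]
    exact hi.1
  · intro i hi j hj
    rw [len1] at hi
    rw [len2] at hj
    rw [rl_inst hi, (hosp_inst hj).1, List.mem_filter, List.mem_range]
    simp [hi]
  · intro j hj
    rw [len2] at hj
    rw [(hosp_inst hj).2.1, (hosp_inst hj).2.2]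
    unfold lqf
    split_ifs <;> omega

theorem lq_le (j : ℕ) (hj : j < (inst φ).2.length) : lq (inst φ) j ≤ 2 := by
  rw [len2] at hj
  rw [(hosp_inst hj).2.1]
  unfold lqf
  split_ifs <;> omega

/-! ### Loads -/

theorem mem_load {M : Asg} {i j : ℕ} (hi : i < M.length) (h : hosp M i = some j) :
    i ∈ (Finset.range M.length).filter (fun i => hosp M i = some j) :=
  Finset.mem_filter.2 ⟨Finset.mem_range.2 hi, h⟩

theorem load_ne_zero {M : Asg} {j : ℕ} (h : load M j ≠ 0) :
    ∃ i < M.length, hosp M i = some j := by
  unfold load at h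
  obtain ⟨i, hi⟩ := Finset.card_pos.1 (Nat.pos_of_ne_zero h)
  rw [Finset.mem_filter, Finset.mem_range] at hi
  exact ⟨i, hi⟩

theorem load_pos {M : Asg} {i j : ℕ} (hi : i < M.length) (h : hosp M i = some j) :
    load M j ≠ 0 :=
  (Finset.card_pos.2 ⟨i, mem_load hi h⟩).ne'

theorem load_two {M : Asg} {i i' j : ℕ} (hi : i < M.length) (hi' : i' < M.length) (hne : i ≠ i')
    (h : hosp M i = some j) (h' : hosp M i' = some j) : 2 ≤ load M j :=
  Finset.one_lt_card.2 ⟨i, mem_load hi h, i', mem_load hi' h', hne⟩

theorem load_lt {M : Asg} {i j : ℕ} (hi : i < M.length) (h : hosp M i ≠ some j) :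
    load M j < M.length := by
  have : ((Finset.range M.length).filter (fun i => hosp M i = some j)).card <
      (Finset.range M.length).card := by
    refine Finset.card_lt_card ⟨Finset.filter_subset _ _, fun hs => ?_⟩
    exact h (Finset.mem_filter.1 (hs (Finset.mem_range.2 hi))).2
  rwa [Finset.card_range] at this

theorem load_le (M : Asg) (j : ℕ) : load M j ≤ M.length := by
  have := Finset.card_filter_le (Finset.range M.length) (fun i => hosp M i = some j)
  rwa [Finset.card_range] at this

theorem size_eq_iff (M : Asg) : size M = M.length ↔ ∀ i < M.length, hosp M i ≠ none := by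
  unfold size
  constructor
  · intro h i hi
    have h' : ((Finset.range M.length).filter (fun i => hosp M i ≠ none)).card =
        (Finset.range M.length).card := by rw [h, Finset.card_range]
    have := Finset.filter_card_eq h' i (Finset.mem_range.2 hi)
    exact this
  · intro h
    rw [Finset.filter_true_of_mem (fun i hi => h i (Finset.mem_range.1 hi)), Finset.card_range]

theorem size_le (M : Asg) : size M ≤ M.length := by
  have := Finset.card_filter_le (Finset.range M.length) (fun i => hosp M i ≠ none)
  rwa [Finset.card_range] at this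

/-! ### A matching that assigns all residents gives a satisfying assignment -/

theorem sound (hb : Bd φ) {M : Asg} (hM : PairwiseStable (inst φ) M)
    (hs : M.length ≤ size M) : SAT3 φ := by
  obtain ⟨⟨⟨hlen, hacc⟩, hload⟩, hst⟩ := hM
  rw [len1] at hlen hacc hst
  rw [len2] at hload
  have hall := (size_eq_iff M).1 (le_antisymm (size_le M) hs)
  rw [hlen] at hall
  -- hospitals that are preferred are closed
  have hclosed : ∀ i < 13 * φ.length, ∀ j j', j < 35 * φ.length → hosp M i = some j' →
      j ∈ rlf φ i → (rlf φ i).idxOf j < (rlf φ i).idxOf j' → load M j = 0 := by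
    intro i hi j j' hj hij' hji hlt
    by_contra hne
    refine hst i hi j ?_ hne (Or.inl ?_)
    · unfold Wants
      rw [rl_inst hi]
      exact ⟨hji, Or.inr ⟨j', hij', hlt⟩⟩
    · rw [(hosp_inst hj).2.2, ← hlen]
      refine load_lt (i := i) (by omega) ?_
      rw [hij']
      intro he
      rw [Option.some.inj he] at hlt
      exact lt_irrefl _ hlt
  have hmem : ∀ i < 13 * φ.length, ∀ j, hosp M i = some j → j ∈ rlf φ i := by
    intro i hi j hj
    have := hacc i hi j hj
    rwa [rl_inst hi] at this
  have hyb : ∀ i, 26 * φ.length ≤ yh φ.length (lit φ (i - 10 * φ.length)) ∧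
      yh φ.length (lit φ (i - 10 * φ.length)) < 32 * φ.length := by
    intro i
    have hv := hb (i - 10 * φ.length)
    have hy := yh_cases φ.length (lit φ (i - 10 * φ.length))
    omega
  -- no resident at its first choice
  have hA : ∀ i < 13 * φ.length, hosp M i ≠ some i := by
    intro i hi he
    have h1 : load M i = 1 := by
      unfold load
      rw [Finset.card_eq_one]
      refine ⟨i, ?_⟩
      ext i'
      simp only [Finset.mem_filter, Finset.mem_range, Finset.mem_singleton]
      constructor
      · rintro ⟨h1, h2⟩
        have h3 := mem_rlf.1 (hmem i' (by omega) i h2)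
        have := hyb i'
        omega
      · rintro rfl
        exact ⟨by omega, he⟩
    have h2 := hload i (by omega)
    rw [h1, (hosp_inst (by omega)).2.1] at h2
    unfold lqf at h2
    rw [if_neg (by omega)] at h2
    omega
  refine ⟨fun x => decide (hosp M x = some (26 * φ.length + x)), fun cl hcl => ?_⟩
  obtain ⟨j, hj, rfl⟩ := List.getElem_of_mem hcl
  -- the hospital of the clause resident
  obtain ⟨h, hh⟩ := Option.ne_none_iff_exists'.1 (hall (9 * φ.length + j) (by omega))
  have hcase : ∃ e, e / 3 = j ∧ h = 32 * φ.length + e := by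
    have h1 := mem_rlf.1 (hmem _ (by omega) _ hh)
    have h2 : h ≠ 9 * φ.length + j := by
      rintro rfl
      exact hA _ (by omega) hh
    exact ⟨h - 32 * φ.length, by omega, by omega⟩
  obtain ⟨e, he, rfl⟩ := hcase
  have he3 : e < 3 * φ.length := by omega
  -- its second resident
  have hd : hosp M (10 * φ.length + e) = some (32 * φ.length + e) := by
    have h1 := hload (32 * φ.length + e) (by omega)
    have h0 := load_pos (M := M) (i := 9 * φ.length + j) (by omega) hh
    rw [(hosp_inst (by omega)).2.1] at h1
    unfold lqf at h1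
    rw [if_neg (by omega)] at h1
    have h2 : 1 < load M (32 * φ.length + e) := by omega
    obtain ⟨a, ha, b, hb', hab⟩ := Finset.one_lt_card.1 h2
    rw [Finset.mem_filter, Finset.mem_range] at ha hb'
    have key : ∀ a, a < M.length → hosp M a = some (32 * φ.length + e) →
        a = 9 * φ.length + j ∨ a = 10 * φ.length + e := by
      intro a ha1 ha2
      have h3 := mem_rlf.1 (hmem a (by omega) _ ha2)
      have := hyb a
      omega
    rcases key a ha.1 ha.2 with rfl | rfl
    · rcases key b hb'.1 hb'.2 with rfl | rfl
      · exact absurd rfl hab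
      · exact hb'.2
    · exact ha.2
  -- the hospital of the false literal is closed
  have hlit : lit φ (10 * φ.length + e - 10 * φ.length) = lit φ e := by
    rw [Nat.add_sub_cancel_left]
  have hyb' := hyb (10 * φ.length + e)
  rw [hlit] at hyb'
  have hrd : rlf φ (10 * φ.length + e) = [10 * φ.length + e, yh φ.length (lit φ e),
      32 * φ.length + e, 13 * φ.length + (10 * φ.length + e)] := by
    unfold rlf
    rw [if_neg (by omega), if_neg (by omega), if_neg (by omega), if_neg (by omega), hlit,
      Nat.add_sub_cancel_left]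
  have hY : load M (yh φ.length (lit φ e)) = 0 := by
    refine hclosed (10 * φ.length + e) (by omega) _ _ (by omega) hd ?_ ?_
    · rw [hrd]
      simp
    · rw [hrd]
      have n1 : (10 * φ.length + e) ≠ yh φ.length (lit φ e) := by omega
      have n2 : (10 * φ.length + e) ≠ 32 * φ.length + e := by omega
      have n3 : yh φ.length (lit φ e) ≠ 32 * φ.length + e := by omega
      rw [List.idxOf_cons_ne _ n1, List.idxOf_cons_self, List.idxOf_cons_ne _ n2,
        List.idxOf_cons_ne _ n3, List.idxOf_cons_self]
      omega
  have hv := hb e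
  have htrue : decide (hosp M (lit φ e).2 = some (26 * φ.length + (lit φ e).2)) = (lit φ e).1 := by
    obtain ⟨h', hh'⟩ := Option.ne_none_iff_exists'.1 (hall (lit φ e).2 (by omega))
    have hm := mem_rlf.1 (hmem _ (by omega) _ hh')
    have hA' : h' ≠ (lit φ e).2 := by
      rintro rfl
      exact hA _ (by omega) hh'
    have hnY : h' ≠ yh φ.length (lit φ e) := by
      intro hc
      rw [hc] at hh'
      exact load_pos (M := M) (i := (lit φ e).2) (by omega) hh' hY
    rcases yh_cases φ.length (lit φ e) with ⟨h1, h2⟩ | ⟨h1, h2⟩
    · rw [h1, decide_eq_true_iff, hh']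
      congr 1
      omega
    · rw [h1, decide_eq_false_iff_not, hh']
      intro hc
      have := Option.some.inj hc
      omega
  have hcl' : φ.getD (e / 3) dcl = φ[j] := by
    rw [he, List.getD_eq_getElem?_getD, List.getElem?_eq_getElem hj, Option.getD_some]
  unfold lit litC at htrue
  rw [hcl'] at htrue
  split_ifs at htrue with g1 g2
  · exact Or.inl htrue
  · exact Or.inr (Or.inl htrue)
  · exact Or.inr (Or.inr htrue)

/-! ### A satisfying assignment gives a matching that assigns all residents -/

/-- the hospital of the resident `i` -/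
def mf (φ : List Cl) (τ : ℕ → Bool) (ch : ℕ → ℕ) (i : ℕ) : ℕ :=
  if i < 3 * φ.length then (if τ i = true then 26 * φ.length + i else 29 * φ.length + i)
  else if i < 6 * φ.length then
    (if τ (i - 3 * φ.length) = true then 26 * φ.length + (i - 3 * φ.length) else 13 * φ.length + i)
  else if i < 9 * φ.length then
    (if τ (i - 6 * φ.length) = true then 13 * φ.length + i else 29 * φ.length + (i - 6 * φ.length))
  else if i < 10 * φ.length then 32 * φ.length + ch (i - 9 * φ.length)
  else if τ (lit φ (i - 10 * φ.length)).2 ≠ (lit φ (i - 10 * φ.length)).1 then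
    yh φ.length (lit φ (i - 10 * φ.length))
  else if ch ((i - 10 * φ.length) / 3) = i - 10 * φ.length then
    32 * φ.length + (i - 10 * φ.length)
  else 13 * φ.length + i

/-- the matching -/
def asg (φ : List Cl) (τ : ℕ → Bool) (ch : ℕ → ℕ) : Asg :=
  (List.range (13 * φ.length)).map (fun i => some (mf φ τ ch i))

theorem asg_length (τ : ℕ → Bool) (ch : ℕ → ℕ) : (asg φ τ ch).length = 13 * φ.length := by
  simp [asg]

theorem hosp_asg (τ : ℕ → Bool) (ch : ℕ → ℕ) {i : ℕ} (hi : i < 13 * φ.length) :
    hosp (asg φ τ ch) i = some (mf φ τ ch i) := by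
  unfold hosp asg
  simp [List.getD_eq_getElem?_getD, List.getElem?_map, List.getElem?_range hi]

end

end Pool.Agent.NPC.V11230.LQ
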