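import Pool.Agent.V11230.LQ1

/-!
# Hospitals/Residents with lower quotas at most 2: completeness and popularity
-/

set_option autoImplicit false

namespace Pool.Agent.NPC.V11230.LQ

open Pool.Agent.NPC

theorem mem_of_idxOf_lt {p s : List ℕ} {j j' : ℕ}
    (h : (p ++ j' :: s).idxOf j < (p ++ j' :: s).idxOf j') : j ∈ p := by
  by_contra hj
  rw [List.idxOf_append_of_notMem hj] at h
  by_cases hj' : j' ∈ p
  · rw [List.idxOf_append_of_mem hj'] at h
    have := List.idxOf_le_length (a := j') (l := p)
    omega
  · rw [List.idxOf_append_of_notMem hj', List.idxOf_cons_self] at h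
    omega

section

variable {φ : List Cl} {τ : ℕ → Bool} {ch : ℕ → ℕ}

theorem mf1 {i : ℕ} (h : i < 3 * φ.length) :
    mf φ τ ch i = if τ i = true then 26 * φ.length + i else 29 * φ.length + i := by
  unfold mf
  rw [if_pos h]

theorem mf2 {i : ℕ} (h : 3 * φ.length ≤ i) (h' : i < 6 * φ.length) :
    mf φ τ ch i = if τ (i - 3 * φ.length) = true then 26 * φ.length + (i - 3 * φ.length)
      else 13 * φ.length + i := by
  unfold mf
  rw [if_neg (by omega), if_pos h']

theorem mf3 {i : ℕ} (h : 6 * φ.length ≤ i) (h' : i < 9 * φ.length) :
    mf φ τ ch i = if τ (i - 6 * φ.length) = true then 13 * φ.length + i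
      else 29 * φ.length + (i - 6 * φ.length) := by
  unfold mf
  rw [if_neg (by omega), if_neg (by omega), if_pos h']

theorem mf4 {i : ℕ} (h : 9 * φ.length ≤ i) (h' : i < 10 * φ.length) :
    mf φ τ ch i = 32 * φ.length + ch (i - 9 * φ.length) := by
  unfold mf
  rw [if_neg (by omega), if_neg (by omega), if_neg (by omega), if_pos h']

theorem mf5 {i e : ℕ} (h : i = 10 * φ.length + e) :
    mf φ τ ch i = if τ (lit φ e).2 ≠ (lit φ e).1 then yh φ.length (lit φ e)
      else if ch (e / 3) = e then 32 * φ.length + e else 13 * φ.length + i := by
  subst h
  unfold mf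
  rw [if_neg (by omega), if_neg (by omega), if_neg (by omega), if_neg (by omega),
    Nat.add_sub_cancel_left]

/-- the choices -/
structure Choice (φ : List Cl) (τ : ℕ → Bool) (ch : ℕ → ℕ) : Prop where
  bd : Bd φ
  div : ∀ j < φ.length, ch j / 3 = j
  true : ∀ j < φ.length, τ (lit φ (ch j)).2 = (lit φ (ch j)).1

theorem mf_mem (h : Choice φ τ ch) {i : ℕ} (hi : i < 13 * φ.length) :
    mf φ τ ch i ∈ rlf φ i ∧ 13 * φ.length ≤ mf φ τ ch i := by
  rw [mem_rlf]
  rcases Nat.lt_or_ge i (3 * φ.length) with h1 | h1
  · rw [mf1 h1]
    split_ifs <;> omega
  · rcases Nat.lt_or_ge i (6 * φ.length) with h2 | h2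
    · rw [mf2 h1 h2]
      split_ifs <;> omega
    · rcases Nat.lt_or_ge i (9 * φ.length) with h3 | h3
      · rw [mf3 h2 h3]
        split_ifs <;> omega
      · rcases Nat.lt_or_ge i (10 * φ.length) with h4 | h4
        · rw [mf4 h3 h4]
          have := h.div (i - 9 * φ.length) (by omega)
          omega
        · obtain ⟨e, rfl⟩ : ∃ e, i = 10 * φ.length + e := ⟨i - 10 * φ.length, by omega⟩
          rw [mf5 rfl, Nat.add_sub_cancel_left]
          have hy := yh_cases φ.length (lit φ e)
          split_ifs <;> omega

/-- a used hospital has enough residents -/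
theorem mf_two (h : Choice φ τ ch) {i : ℕ} (hi : i < 13 * φ.length) :
    (13 * φ.length ≤ mf φ τ ch i ∧ mf φ τ ch i < 26 * φ.length) ∨
      ∃ b < 13 * φ.length, b ≠ i ∧ mf φ τ ch b = mf φ τ ch i := by
  rcases Nat.lt_or_ge i (3 * φ.length) with h1 | h1
  · right
    rw [mf1 h1]
    by_cases ht : τ i = true
    · refine ⟨3 * φ.length + i, by omega, by omega, ?_⟩
      rw [mf2 (by omega) (by omega), Nat.add_sub_cancel_left, if_pos ht, if_pos ht]
    · refine ⟨6 * φ.length + i, by omega, by omega, ?_⟩
      rw [mf3 (by omega) (by omega), Nat.add_sub_cancel_left, if_neg ht, if_neg ht]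
  · rcases Nat.lt_or_ge i (6 * φ.length) with h2 | h2
    · rw [mf2 h1 h2]
      by_cases ht : τ (i - 3 * φ.length) = true
      · right
        refine ⟨i - 3 * φ.length, by omega, by omega, ?_⟩
        rw [mf1 (by omega), if_pos ht, if_pos ht]
      · left
        rw [if_neg ht]
        omega
    · rcases Nat.lt_or_ge i (9 * φ.length) with h3 | h3
      · rw [mf3 h2 h3]
        by_cases ht : τ (i - 6 * φ.length) = true
        · left
          rw [if_pos ht]
          omega
        · right
          refine ⟨i - 6 * φ.length, by omega, by omega, ?_⟩
          rw [mf1 (by omega), if_neg ht, if_neg ht]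
      · rcases Nat.lt_or_ge i (10 * φ.length) with h4 | h4
        · right
          rw [mf4 h3 h4]
          have g1 := h.div (i - 9 * φ.length) (by omega)
          have g2 := h.true (i - 9 * φ.length) (by omega)
          refine ⟨10 * φ.length + ch (i - 9 * φ.length), by omega, by omega, ?_⟩
          rw [mf5 rfl, if_neg (by simpa using g2), g1, if_pos rfl]
        · obtain ⟨e, rfl⟩ : ∃ e, i = 10 * φ.length + e := ⟨i - 10 * φ.length, by omega⟩
          rw [mf5 rfl]
          have hv := h.bd e
          by_cases ht : τ (lit φ e).2 ≠ (lit φ e).1
          · right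
            refine ⟨(lit φ e).2, by omega, by omega, ?_⟩
            rw [mf1 hv, if_pos ht]
            rcases yh_cases φ.length (lit φ e) with ⟨g1, g2⟩ | ⟨g1, g2⟩
            · rw [g2, if_neg]
              rw [g1] at ht
              exact ht
            · rw [g2, if_pos]
              rw [g1] at ht
              simpa using ht
          · rw [if_neg ht]
            by_cases hc : ch (e / 3) = e
            · right
              rw [if_pos hc]
              refine ⟨9 * φ.length + e / 3, by omega, by omega, ?_⟩
              rw [mf4 (by omega) (by omega), Nat.add_sub_cancel_left, hc]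
            · left
              rw [if_neg hc]
              omega

/-- hospitals without residents -/
theorem mf_none (h : Choice φ τ ch) {i j : ℕ} (hi : i < 13 * φ.length)
    (hj : j < 13 * φ.length ∨ (∃ x, x < 3 * φ.length ∧ τ x = false ∧ j = 26 * φ.length + x) ∨
      (∃ x, x < 3 * φ.length ∧ τ x = true ∧ j = 29 * φ.length + x) ∨
      (∃ e, e < 3 * φ.length ∧ ch (e / 3) ≠ e ∧ j = 32 * φ.length + e)) :
    mf φ τ ch i ≠ j := by
  rcases hj with hj | ⟨x, hx, ht, rfl⟩ | ⟨x, hx, ht, rfl⟩ | ⟨e', he', hc', rfl⟩
  · have := (mf_mem h hi).2
    omega
  all_goals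
    intro hmf
    rcases Nat.lt_or_ge i (3 * φ.length) with h1 | h1
    · rw [mf1 h1] at hmf
      split_ifs at hmf with g
      all_goals first
        | omega
        | (have e1 : i = x := by omega
           rw [e1, ht] at g
           simp at g)
    · rcases Nat.lt_or_ge i (6 * φ.length) with h2 | h2
      · rw [mf2 h1 h2] at hmf
        split_ifs at hmf with g
        all_goals first
          | omega
          | (have e1 : i - 3 * φ.length = x := by omega
             rw [e1, ht] at g
             simp at g)
      · rcases Nat.lt_or_ge i (9 * φ.length) with h3 | h3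
        · rw [mf3 h2 h3] at hmf
          split_ifs at hmf with g
          all_goals first
            | omega
            | (have e1 : i - 6 * φ.length = x := by omega
               rw [e1, ht] at g
               simp at g)
        · rcases Nat.lt_or_ge i (10 * φ.length) with h4 | h4
          · rw [mf4 h3 h4] at hmf
            have g1 := h.div (i - 9 * φ.length) (by omega)
            first
              | omega
              | (apply hc'
                 have e1 : ch (i - 9 * φ.length) = e' := by omega
                 rw [e1] at g1
                 rw [g1]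
                 exact e1)
          · obtain ⟨e, rfl⟩ : ∃ e, i = 10 * φ.length + e := ⟨i - 10 * φ.length, by omega⟩
            rw [mf5 rfl] at hmf
            have hv := h.bd e
            have hy := yh_cases φ.length (lit φ e)
            split_ifs at hmf with g1 g2
            all_goals first
              | omega
              | (rcases hy with ⟨y1, y2⟩ | ⟨y1, y2⟩
                 · rw [y2] at hmf
                   rw [y1] at g1
                   first
                     | omega
                     | (have e1 : (lit φ e).2 = x := by omega
                        rw [e1, ht] at g1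
                        simp at g1)
                 · rw [y2] at hmf
                   rw [y1] at g1
                   first
                     | omega
                     | (have e1 : (lit φ e).2 = x := by omega
                        rw [e1, ht] at g1
                        simp at g1))
              | (have e1 : e = e' := by omega
                 rw [e1] at g2
                 exact hc' g2)

theorem load_asg_zero (h : Choice φ τ ch) {j : ℕ}
    (hj : j < 13 * φ.length ∨ (∃ x, x < 3 * φ.length ∧ τ x = false ∧ j = 26 * φ.length + x) ∨
      (∃ x, x < 3 * φ.length ∧ τ x = true ∧ j = 29 * φ.length + x) ∨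
      (∃ e, e < 3 * φ.length ∧ ch (e / 3) ≠ e ∧ j = 32 * φ.length + e)) :
    load (asg φ τ ch) j = 0 := by
  by_contra hne
  obtain ⟨i, hi, he⟩ := load_ne_zero hne
  rw [asg_length] at hi
  rw [hosp_asg τ ch hi] at he
  exact mf_none h hi hj (Option.some.inj he)

theorem stable_asg (h : Choice φ τ ch) : PairwiseStable (inst φ) (asg φ τ ch) := by
  refine ⟨⟨⟨by rw [asg_length, len1], ?_⟩, ?_⟩, ?_⟩
  · intro i hi j hj
    rw [len1] at hi
    rw [hosp_asg τ ch hi] at hj
    rw [rl_inst hi, ← Option.some.inj hj]
    exact (mf_mem h hi).1
  · intro j hj
    rw [len2] at hj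
    by_cases h0 : load (asg φ τ ch) j = 0
    · exact Or.inl h0
    · right
      rw [(hosp_inst hj).2.1, (hosp_inst hj).2.2]
      refine ⟨?_, ?_⟩
      · obtain ⟨i, hi, he⟩ := load_ne_zero h0
        rw [asg_length] at hi
        have he' := he
        rw [hosp_asg τ ch hi] at he'
        have he'' := Option.some.inj he'
        rcases mf_two h hi with hr | ⟨b, hb, hbi, hbe⟩
        · unfold lqf
          rw [he''] at hr
          rw [if_pos hr]
          omega
        · have h2 := load_two (M := asg φ τ ch) (i := i) (i' := b) (j := j)
            (by rw [asg_length]; exact hi) (by rw [asg_length]; exact hb) hbi.symm he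
            (by rw [hosp_asg τ ch hb, hbe, he''])
          unfold lqf
          split_ifs <;> omega
      · have := load_le (asg φ τ ch) j
        rwa [asg_length] at this
  · intro i hi j hw hl
    exfalso
    apply hl
    rw [len1] at hi
    obtain ⟨hj, hw⟩ := hw
    rw [hosp_asg τ ch hi, rl_inst hi] at hw
    rcases hw with hw | ⟨j', hj', hlt⟩
    · exact absurd hw (by simp)
    · rw [← Option.some.inj hj'] at hlt
      rcases Nat.lt_or_ge i (3 * φ.length) with h1 | h1
      · rw [mf1 h1] at hlt
        unfold rlf at hlt
        rw [if_pos h1] at hlt
        by_cases ht : τ i = true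
        · rw [if_pos ht] at hlt
          have := mem_of_idxOf_lt (p := [i]) (s := [29 * φ.length + i]) hlt
          rw [List.mem_singleton] at this
          subst this
          exact load_asg_zero h (Or.inl hi)
        · rw [if_neg ht] at hlt
          have := mem_of_idxOf_lt (p := [i, 26 * φ.length + i]) (s := []) hlt
          simp only [List.mem_cons, List.not_mem_nil, or_false] at this
          rcases this with rfl | rfl
          · exact load_asg_zero h (Or.inl hi)
          · exact load_asg_zero h (Or.inr (Or.inl ⟨i, h1, by simpa using ht, rfl⟩))
      · rcases Nat.lt_or_ge i (6 * φ.length) with h2 | h2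
        · rw [mf2 h1 h2] at hlt
          unfold rlf at hlt
          rw [if_neg (by omega), if_pos h2] at hlt
          by_cases ht : τ (i - 3 * φ.length) = true
          · rw [if_pos ht] at hlt
            have := mem_of_idxOf_lt (p := [i]) (s := [13 * φ.length + i]) hlt
            rw [List.mem_singleton] at this
            subst this
            exact load_asg_zero h (Or.inl hi)
          · rw [if_neg ht] at hlt
            have := mem_of_idxOf_lt (p := [i, 26 * φ.length + (i - 3 * φ.length)]) (s := []) hlt
            simp only [List.mem_cons, List.not_mem_nil, or_false] at this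
            rcases this with rfl | rfl
            · exact load_asg_zero h (Or.inl hi)
            · exact load_asg_zero h (Or.inr (Or.inl ⟨i - 3 * φ.length, by omega,
                by simpa using ht, rfl⟩))
        · rcases Nat.lt_or_ge i (9 * φ.length) with h3 | h3
          · rw [mf3 h2 h3] at hlt
            unfold rlf at hlt
            rw [if_neg (by omega), if_neg (by omega), if_pos h3] at hlt
            by_cases ht : τ (i - 6 * φ.length) = true
            · rw [if_pos ht] at hlt
              have := mem_of_idxOf_lt (p := [i, 29 * φ.length + (i - 6 * φ.length)]) (s := []) hlt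
              simp only [List.mem_cons, List.not_mem_nil, or_false] at this
              rcases this with rfl | rfl
              · exact load_asg_zero h (Or.inl hi)
              · exact load_asg_zero h (Or.inr (Or.inr (Or.inl ⟨i - 6 * φ.length, by omega,
                  ht, rfl⟩)))
            · rw [if_neg ht] at hlt
              have := mem_of_idxOf_lt (p := [i]) (s := [13 * φ.length + i]) hlt
              rw [List.mem_singleton] at this
              subst this
              exact load_asg_zero h (Or.inl hi)
          · rcases Nat.lt_or_ge i (10 * φ.length) with h4 | h4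
            · rw [mf4 h3 h4] at hlt
              have hd := h.div (i - 9 * φ.length) (by omega)
              rw [rl_inst hi, mem_rlf] at hj
              have hc : j = i ∨ ∃ e, e / 3 = i - 9 * φ.length ∧ j = 32 * φ.length + e := by
                by_cases hji : j = i
                · exact Or.inl hji
                · exact Or.inr ⟨j - 32 * φ.length, by omega, by omega⟩
              rcases hc with rfl | ⟨e, he, rfl⟩
              · exact load_asg_zero h (Or.inl hi)
              · refine load_asg_zero h (Or.inr (Or.inr (Or.inr ⟨e, by omega, ?_, rfl⟩)))
                rw [he]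
                intro hc
                rw [hc] at hlt
                exact lt_irrefl _ hlt
            · obtain ⟨e, rfl⟩ : ∃ e, i = 10 * φ.length + e := ⟨i - 10 * φ.length, by omega⟩
              have hv := h.bd e
              rw [mf5 rfl] at hlt
              have hrd : rlf φ (10 * φ.length + e) = [10 * φ.length + e, yh φ.length (lit φ e),
                  32 * φ.length + e, 13 * φ.length + (10 * φ.length + e)] := by
                unfold rlf
                rw [if_neg (by omega), if_neg (by omega), if_neg (by omega), if_neg (by omega),
                  Nat.add_sub_cancel_left]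
              rw [hrd] at hlt
              have hY : τ (lit φ e).2 = (lit φ e).1 →
                  load (asg φ τ ch) (yh φ.length (lit φ e)) = 0 := by
                intro ht
                rcases yh_cases φ.length (lit φ e) with ⟨y1, y2⟩ | ⟨y1, y2⟩
                · rw [y2]
                  exact load_asg_zero h (Or.inr (Or.inr (Or.inl ⟨_, hv, ht.trans y1, rfl⟩)))
                · rw [y2]
                  exact load_asg_zero h (Or.inr (Or.inl ⟨_, hv, ht.trans y1, rfl⟩))
              split_ifs at hlt with g1 g2
              · have := mem_of_idxOf_lt (p := [10 * φ.length + e])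
                  (s := [32 * φ.length + e, 13 * φ.length + (10 * φ.length + e)]) hlt
                rw [List.mem_singleton] at this
                subst this
                exact load_asg_zero h (Or.inl hi)
              · have := mem_of_idxOf_lt (p := [10 * φ.length + e, yh φ.length (lit φ e)])
                  (s := [13 * φ.length + (10 * φ.length + e)]) hlt
                simp only [List.mem_cons, List.not_mem_nil, or_false] at this
                rcases this with rfl | rfl
                · exact load_asg_zero h (Or.inl hi)
                · exact hY (by simpa using g1)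
              · have := mem_of_idxOf_lt (p := [10 * φ.length + e, yh φ.length (lit φ e),
                  32 * φ.length + e]) (s := []) hlt
                simp only [List.mem_cons, List.not_mem_nil, or_false] at this
                rcases this with rfl | rfl | rfl
                · exact load_asg_zero h (Or.inl hi)
                · exact hY (by simpa using g1)
                · exact load_asg_zero h (Or.inr (Or.inr (Or.inr ⟨e, by omega, g2, rfl⟩)))

theorem size_asg (h : 0 ≤ φ.length) : size (asg φ τ ch) = (asg φ τ ch).length := by
  rw [size_eq_iff]
  intro i hi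
  rw [asg_length] at hi
  rw [hosp_asg τ ch hi]
  simp

theorem complete (hb : Bd φ) (hs : SAT3 φ) :
    ∃ M, PairwiseStable (inst φ) M ∧ M.length ≤ size M := by
  classical
  obtain ⟨τ, hτ⟩ := hs
  have hex : ∀ j, ∃ e, j < φ.length → e / 3 = j ∧ τ (lit φ e).2 = (lit φ e).1 := by
    intro j
    by_cases hj : j < φ.length
    · have hm := hτ _ (List.getElem_mem hj)
      have hg : ∀ k < 3, lit φ (3 * j + k) = litC φ[j] k := by
        intro k hk
        unfold lit
        rw [show (3 * j + k) / 3 = j by omega, show (3 * j + k) % 3 = k by omega,
          List.getD_eq_getElem?_getD, List.getElem?_eq_getElem hj, Option.getD_some]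
      rcases hm with hm | hm | hm
      · exact ⟨3 * j + 0, fun _ => ⟨by omega, by rw [hg 0 (by omega)]; exact hm⟩⟩
      · exact ⟨3 * j + 1, fun _ => ⟨by omega, by rw [hg 1 (by omega)]; exact hm⟩⟩
      · exact ⟨3 * j + 2, fun _ => ⟨by omega, by rw [hg 2 (by omega)]; exact hm⟩⟩
    · exact ⟨0, fun h => absurd h hj⟩
  choose ch hch using hex
  have h : Choice φ τ ch := ⟨hb, fun j hj => (hch j hj).1, fun j hj => (hch j hj).2⟩
  exact ⟨asg φ τ ch, stable_asg h, (size_asg (Nat.zero_le _)).ge⟩

/-! ### No hospital is popular -/

/-- each resident at its first choice -/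
def top (L : ℕ) : Asg := (List.range (13 * L)).map some

theorem rlf_head (φ : List Cl) (i : ℕ) : ∃ s, rlf φ i = i :: s := by
  unfold rlf
  split_ifs <;> exact ⟨_, rfl⟩

theorem top_stable : ClassicalStable (inst φ) (top φ.length) := by
  have hlen : (top φ.length).length = 13 * φ.length := by simp [top]
  have hh : ∀ i < 13 * φ.length, hosp (top φ.length) i = some i := by
    intro i hi
    unfold hosp top
    simp [List.getD_eq_getElem?_getD, List.getElem?_map, List.getElem?_range hi]
  refine ⟨⟨by rw [hlen, len1], ?_⟩, ?_, ?_⟩
  · intro i hi j hj
    rw [len1] at hi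
    rw [hh i hi] at hj
    rw [rl_inst hi, ← Option.some.inj hj]
    obtain ⟨s, hs⟩ := rlf_head φ i
    rw [hs]
    exact List.mem_cons_self
  · intro j hj
    rw [len2] at hj
    rw [(hosp_inst hj).2.2]
    have := load_le (top φ.length) j
    rwa [hlen] at this
  · intro i hi j hw
    exfalso
    rw [len1] at hi
    obtain ⟨_, hw⟩ := hw
    rw [hh i hi, rl_inst hi] at hw
    rcases hw with hw | ⟨j', hj', hlt⟩
    · exact absurd hw (by simp)
    · rw [← Option.some.inj hj'] at hlt
      obtain ⟨s, hs⟩ := rlf_head φ i
      rw [hs, List.idxOf_cons_self] at hlt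
      omega

theorem not_popular (hb : Bd φ) {j : ℕ} (hj : j < (inst φ).2.length) :
    ¬ Popular (inst φ) j := by
  rintro ⟨M, ⟨⟨⟨hlen, hacc⟩, _, _⟩, hopt⟩, hl⟩
  rw [len2] at hj
  rw [len1] at hlen hacc hopt
  rw [(hosp_inst hj).2.1] at hl
  have hh : ∀ i < 13 * φ.length, hosp (top φ.length) i = some i := by
    intro i hi
    unfold hosp top
    simp [List.getD_eq_getElem?_getD, List.getElem?_map, List.getElem?_range hi]
  have hM : ∀ i < 13 * φ.length, hosp M i = some i := by
    intro i hi
    have hw := hopt _ top_stable i hi i (hh i hi)
    obtain ⟨s, hs⟩ := rlf_head φ i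
    unfold Wants at hw
    rw [rl_inst hi, hs] at hw
    cases hM : hosp M i with
    | none => exact absurd ⟨List.mem_cons_self, Or.inl hM⟩ hw
    | some j' =>
      by_contra hne
      have hne' : j' ≠ i := fun h => hne (by rw [h])
      refine hw ⟨List.mem_cons_self, Or.inr ⟨j', hM, ?_⟩⟩
      rw [List.idxOf_cons_self, List.idxOf_cons_ne _ hne'.symm]
      omega
  have hload : load M j ≤ 1 ∧ (13 * φ.length ≤ j → load M j = 0) := by
    constructor
    · unfold load
      refine Finset.card_le_one.2 ?_
      intro a ha b hb'
      rw [Finset.mem_filter, Finset.mem_range] at ha hb'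
      have h1 := hM a (by omega)
      have h2 := hM b (by omega)
      rw [ha.2] at h1
      rw [hb'.2] at h2
      rw [← Option.some.inj h1, ← Option.some.inj h2]
    · intro hj'
      by_contra hne
      obtain ⟨i, hi, he⟩ := load_ne_zero hne
      have h1 := hM i (by omega)
      rw [he] at h1
      have := Option.some.inj h1
      omega
  unfold lqf at hl
  split_ifs at hl <;> omega

end

/-- **Correctness of the reduction**, for pairwise stable matchings. -/
theorem sat_iff {φ : List Cl} (hb : Bd φ) :
    SAT3 φ ↔ ∃ M, PairwiseStable (inst φ) M ∧ (inst φ).1.length ≤ size M := by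
  constructor
  · intro hs
    obtain ⟨M, h1, h2⟩ := complete hb hs
    exact ⟨M, h1, by rw [← h1.1.1.1]; exact h2⟩
  · rintro ⟨M, h1, h2⟩
    exact sound hb h1 (by rw [h1.1.1.1]; exact h2)

theorem popularStable_iff {φ : List Cl} (hb : Bd φ) (M : Asg) :
    PopularStable (inst φ) M ↔ PairwiseStable (inst φ) M :=
  ⟨fun h => h.1, fun h => ⟨h, fun _ hj hp => absurd hp (not_popular hb hj)⟩⟩

end Pool.Agent.NPC.V11230.LQ
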