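import Mathlib
import Pool.Agent.NPC.Sat2
import Pool.Agent.H622R2.MatGraph

/-!
# Unanimity lobbying with a quota of issues: definitions and the two reductions from Clique
-/

set_option autoImplicit false

namespace Pool.Agent.NPC.V11230.LB

open Pool.Agent.H622R2 (entry)

/-- The number of issues of a profile (given as the list of the rows of the voters). -/
def issues (X : List (List Bool)) : ℕ := (X.getD 0 []).length

/-- Instances: a profile with at least one voter, and a budget `k ≤ n`. -/
def Valid (I : List (List Bool) × ℕ) : Prop :=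
  I.1 ≠ [] ∧ (∀ row ∈ I.1, row.length = issues I.1) ∧ I.2 ≤ I.1.length

/-- The problem `OLD(Unan, ψ_z)`: is there a profile `Y` that differs from `X` in at most `k` rows
such that at least `z m` columns of `Y` are all ones? -/
def OLD (z : ℕ → ℕ) (I : List (List Bool) × ℕ) : Prop :=
  ∃ Y : List (List Bool), Y.length = I.1.length ∧ (∀ row ∈ Y, row.length = issues I.1) ∧
    ((Finset.range I.1.length).filter (fun i => Y.getD i [] ≠ I.1.getD i [])).card ≤ I.2 ∧
    z (issues I.1) ≤
      ((Finset.range (issues I.1)).filter (fun j => ∀ row ∈ Y, row.getD j false = true)).card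

/-- The matrix with entries `b i j`. -/
def tab (n m : ℕ) (b : ℕ → ℕ → Bool) : List (List Bool) :=
  (List.range n).map (fun i => (List.range m).map (fun j => b i j))

theorem tab_length (n m : ℕ) (b : ℕ → ℕ → Bool) : (tab n m b).length = n := by simp [tab]

theorem tab_getD {n m i : ℕ} (b : ℕ → ℕ → Bool) (hi : i < n) :
    (tab n m b).getD i [] = (List.range m).map (fun j => b i j) := by
  unfold tab
  simp [List.getD_eq_getElem?_getD, List.getElem?_map, List.getElem?_range hi]

theorem tab_issues {n m : ℕ} (b : ℕ → ℕ → Bool) (hn : 0 < n) : issues (tab n m b) = m := by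
  unfold issues
  rw [tab_getD b hn]
  simp

theorem tab_valid {n m k : ℕ} (b : ℕ → ℕ → Bool) (hn : 0 < n) (hk : k ≤ n) :
    Valid (tab n m b, k) := by
  refine ⟨?_, ?_, ?_⟩
  · intro h
    have := tab_length n m b
    change tab n m b = [] at h
    rw [h] at this
    simp at this
    omega
  · intro row hrow
    change row ∈ tab n m b at hrow
    change row.length = issues (tab n m b)
    rw [tab_issues b hn]
    unfold tab at hrow
    obtain ⟨i, _, rfl⟩ := List.mem_map.1 hrow
    simp
  · change k ≤ (tab n m b).length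
    rw [tab_length]
    exact hk

/-- The problem for a matrix given by its entries. -/
theorem old_tab {z : ℕ → ℕ} {n m k : ℕ} (b : ℕ → ℕ → Bool) (hn : 0 < n) :
    OLD z (tab n m b, k) ↔ ∃ R : Finset ℕ, R ⊆ Finset.range n ∧ R.card ≤ k ∧
      z m ≤ ((Finset.range m).filter (fun j => ∀ i < n, i ∉ R → b i j = true)).card := by
  unfold OLD
  simp only [tab_issues b hn, tab_length]
  constructor
  · rintro ⟨Y, hl, hrow, hk, hz⟩
    refine ⟨(Finset.range n).filter (fun i => Y.getD i [] ≠ (tab n m b).getD i []),
      Finset.filter_subset _ _, hk, hz.trans (Finset.card_le_card ?_)⟩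
    intro j hj
    rw [Finset.mem_filter] at hj ⊢
    refine ⟨hj.1, fun i hi hiR => ?_⟩
    have h1 : Y.getD i [] = (tab n m b).getD i [] := by
      by_contra hne
      exact hiR (Finset.mem_filter.2 ⟨Finset.mem_range.2 hi, hne⟩)
    have h2 : Y.getD i [] ∈ Y := by
      rw [List.getD_eq_getElem _ _ (by omega)]
      exact List.getElem_mem _
    have h3 := hj.2 _ h2
    rw [h1, tab_getD b hi, List.getD_eq_getElem _ _ (by simpa using Finset.mem_range.1 hj.1)] at h3
    simpa using h3
  · rintro ⟨R, hR, hk, hz⟩
    classical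
    refine ⟨tab n m (fun i j => if i ∈ R then true else b i j), tab_length _ _ _, ?_, ?_, ?_⟩
    · intro row hrow
      unfold tab at hrow
      obtain ⟨i, _, rfl⟩ := List.mem_map.1 hrow
      simp
    · refine le_trans (Finset.card_le_card ?_) hk
      intro i hi
      rw [Finset.mem_filter] at hi
      by_contra hiR
      refine hi.2 ?_
      rw [tab_getD _ (Finset.mem_range.1 hi.1), tab_getD _ (Finset.mem_range.1 hi.1)]
      simp [hiR]
    · refine hz.trans (Finset.card_le_card ?_)
      intro j hj
      rw [Finset.mem_filter] at hj ⊢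
      refine ⟨hj.1, fun row hrow => ?_⟩
      unfold tab at hrow
      obtain ⟨i, hi, rfl⟩ := List.mem_map.1 hrow
      rw [List.getD_eq_getElem _ _ (by simpa using Finset.mem_range.1 hj.1)]
      simp only [List.getElem_map, List.getElem_range]
      split_ifs with h
      · rfl
      · exact hj.2 i (List.mem_range.1 hi) h

/-! ### Cliques and pairs -/

/-- adjacency -/
def adj (M : List (List Bool)) (u v : ℕ) : Bool := entry M u v || entry M v u

/-- The number `j < n * n` encodes the edge `{j / n, j % n}`. -/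
def isE (M : List (List Bool)) (n j : ℕ) : Bool := decide (j / n < j % n) && adj M (j / n) (j % n)

/-- the edges inside `S` -/
def EI (M : List (List Bool)) (n : ℕ) (S : Finset ℕ) : Finset ℕ :=
  (Finset.range (n * n)).filter (fun j => isE M n j = true ∧ j / n ∈ S ∧ j % n ∈ S)

/-- `S` is a clique with `k` elements -/
def IsCl (M : List (List Bool)) (n k : ℕ) (S : Finset ℕ) : Prop :=
  S ⊆ Finset.range n ∧ S.card = k ∧ ∀ u ∈ S, ∀ v ∈ S, u < v → adj M u v = true

section

variable {M : List (List Bool)} {n k : ℕ} {S : Finset ℕ}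

theorem EI_maps : ∀ j ∈ EI M n S, ({j / n, j % n} : Finset ℕ) ∈ S.powersetCard 2 := by
  intro j hj
  obtain ⟨_, h1, h2, h3⟩ := Finset.mem_filter.1 hj
  rw [Finset.mem_powersetCard]
  refine ⟨fun x hx => ?_, ?_⟩
  · rcases Finset.mem_insert.1 hx with rfl | hx
    · exact h2
    · rw [Finset.mem_singleton.1 hx]
      exact h3
  · unfold isE at h1
    rw [Bool.and_eq_true, decide_eq_true_eq] at h1
    exact Finset.card_pair (by omega)

theorem pair_inj {a b c d : ℕ} (hab : a < b) (hcd : c < d)
    (h : ({a, b} : Finset ℕ) = {c, d}) : a = c ∧ b = d := by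
  have h1 : a = c ∨ a = d := by
    have : a ∈ ({c, d} : Finset ℕ) := by rw [← h]; simp
    simpa using this
  have h2 : b = c ∨ b = d := by
    have : b ∈ ({c, d} : Finset ℕ) := by rw [← h]; simp
    simpa using this
  have h3 : c = a ∨ c = b := by
    have : c ∈ ({a, b} : Finset ℕ) := by rw [h]; simp
    simpa using this
  omega

theorem EI_injOn : Set.InjOn (fun j => ({j / n, j % n} : Finset ℕ)) (EI M n S) := by
  intro i hi j hj h
  obtain ⟨_, h1, _⟩ := Finset.mem_filter.1 hi
  obtain ⟨_, h2, _⟩ := Finset.mem_filter.1 hj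
  unfold isE at h1 h2
  rw [Bool.and_eq_true, decide_eq_true_eq] at h1 h2
  obtain ⟨h3, h4⟩ := pair_inj h1.1 h2.1 h
  rw [← Nat.div_add_mod i n, ← Nat.div_add_mod j n, h3, h4]

theorem EI_card_le : (EI M n S).card ≤ S.card.choose 2 := by
  rw [← Finset.card_powersetCard]
  exact Finset.card_le_card_of_injOn _ EI_maps EI_injOn

theorem choose_lt {s k : ℕ} (hk : 2 ≤ k) (h : s < k) : s.choose 2 < k.choose 2 := by
  obtain ⟨t, rfl⟩ : ∃ t, k = t + 1 := ⟨k - 1, by omega⟩
  have h1 : s.choose 2 ≤ t.choose 2 := Nat.choose_le_choose 2 (by omega)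
  have h2 : (t + 1).choose 2 = t.choose 1 + t.choose 2 := Nat.choose_succ_succ t 1
  rw [h2, Nat.choose_one_right]
  omega

theorem clique_of_card (hS : S ⊆ Finset.range n) (hk : 2 ≤ k) (hSk : S.card ≤ k)
    (h : k.choose 2 ≤ (EI M n S).card) : IsCl M n k S := by
  have hcard : S.card = k := by
    by_contra hne
    have := choose_lt hk (by omega : S.card < k)
    have := EI_card_le (M := M) (n := n) (S := S)
    omega
  refine ⟨hS, hcard, ?_⟩
  have himg : (EI M n S).image (fun j => ({j / n, j % n} : Finset ℕ)) = S.powersetCard 2 := by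
    refine Finset.eq_of_subset_of_card_le (fun x hx => ?_) ?_
    · obtain ⟨j, hj, rfl⟩ := Finset.mem_image.1 hx
      exact EI_maps j hj
    · rw [Finset.card_image_of_injOn EI_injOn, Finset.card_powersetCard, hcard]
      exact h
  intro u hu v hv huv
  have h1 : ({u, v} : Finset ℕ) ∈ S.powersetCard 2 := by
    rw [Finset.mem_powersetCard]
    refine ⟨fun x hx => ?_, Finset.card_pair (by omega)⟩
    rcases Finset.mem_insert.1 hx with rfl | hx
    · exact hu
    · rw [Finset.mem_singleton.1 hx]
      exact hv
  rw [← himg] at h1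
  obtain ⟨j, hj, hju⟩ := Finset.mem_image.1 h1
  obtain ⟨_, h2, _⟩ := Finset.mem_filter.1 hj
  unfold isE at h2
  rw [Bool.and_eq_true, decide_eq_true_eq] at h2
  obtain ⟨h3, h4⟩ := pair_inj h2.1 huv hju
  rw [← h3, ← h4]
  exact h2.2

theorem card_of_clique (h : IsCl M n k S) : (EI M n S).card = k.choose 2 := by
  obtain ⟨hS, hcard, hcl⟩ := h
  refine le_antisymm (hcard ▸ EI_card_le) ?_
  rw [← hcard, ← Finset.card_powersetCard]
  have hsub : S.powersetCard 2 ⊆ (EI M n S).image (fun j => ({j / n, j % n} : Finset ℕ)) := by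
    intro x hx
    rw [Finset.mem_powersetCard] at hx
    obtain ⟨hxS, hx2⟩ := hx
    obtain ⟨a, b, hab, rfl⟩ := Finset.card_eq_two.1 hx2
    wlog hlt : a < b generalizing a b
    · have := this b a hab.symm (by rwa [Finset.pair_comm]) (by rwa [Finset.pair_comm])
        (by omega)
      rwa [Finset.pair_comm] at this
    have ha : a ∈ S := hxS (by simp)
    have hb : b ∈ S := hxS (by simp)
    have ha' := Finset.mem_range.1 (hS ha)
    have hb' := Finset.mem_range.1 (hS hb)
    have hdiv : (a * n + b) / n = a := by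
      rw [Nat.mul_comm, Nat.mul_add_div (by omega), Nat.div_eq_of_lt hb']
      omega
    have hmod : (a * n + b) % n = b := by
      rw [Nat.mul_comm, Nat.mul_add_mod, Nat.mod_eq_of_lt hb']
    refine Finset.mem_image.2 ⟨a * n + b, Finset.mem_filter.2 ⟨Finset.mem_range.2 ?_, ?_, ?_, ?_⟩,
      ?_⟩
    · nlinarith
    · unfold isE
      rw [hdiv, hmod, hcl a ha b hb hlt]
      simp [hlt]
    · rwa [hdiv]
    · rwa [hmod]
    · rw [hdiv, hmod]
  exact (Finset.card_le_card hsub).trans Finset.card_image_le

end

end Pool.Agent.NPC.V11230.LB
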