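import Pool.Agent.V11230.Lobby

/-!
# Unanimity lobbying with a quota of issues: correctness of the reductions
-/

set_option autoImplicit false

namespace Pool.Agent.NPC.V11230.LB

open Pool.Agent.H622R2 (entry)

/-- First reduction: the issues are the pairs of vertices, and `d` issues approved by all. -/
def b1 (M : List (List Bool)) (n d i j : ℕ) : Bool :=
  if j < n * n then isE M n j && !(decide (i = j / n)) && !(decide (i = j % n))
  else decide (j < n * n + d)

/-- Second reduction: the voters are the pairs of vertices, the issues are the vertices, and `d`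
issues that cannot pass. -/
def b2 (M : List (List Bool)) (n d i j : ℕ) : Bool :=
  if i < n * n then !(isE M n i && (decide (j = i / n) || decide (j = i % n)))
  else !(decide (n ≤ j) && decide (j < n + d))

section

variable {M : List (List Bool)} {n k : ℕ}

theorem red1 {z : ℕ → ℕ} {m F : ℕ} (hk : 2 ≤ k) (hkF : k ≤ F)
    (hz : k.choose 2 ≤ z m) (hm : n * n + (z m - k.choose 2) ≤ m) :
    OLD z (tab (n + F + 1) m (b1 M n (z m - k.choose 2)), k) ↔ ∃ S, IsCl M n k S := by
  set d := z m - k.choose 2 with hd
  rw [old_tab _ (by omega)]
  constructor
  · rintro ⟨R, hR, hRk, hz'⟩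
    refine ⟨R.filter (fun i => i < n), ?_⟩
    have hsub : (Finset.range m).filter (fun j => ∀ i < n + F + 1, i ∉ R → b1 M n d i j = true) ⊆
        EI M n (R.filter (fun i => i < n)) ∪ (Finset.range d).image (fun t => n * n + t) := by
      intro j hj
      obtain ⟨_, h1⟩ := Finset.mem_filter.1 hj
      -- a voter outside `R` and outside the vertices
      have hex : ∃ i < n + F + 1, n ≤ i ∧ i ∉ R := by
        by_contra hcon
        push Not at hcon
        have hs : (Finset.range (F + 1)).image (fun t => n + t) ⊆ R := by
          intro x hx
          obtain ⟨t, ht, rfl⟩ := Finset.mem_image.1 hx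
          rw [Finset.mem_range] at ht
          exact hcon _ (by omega) (by omega)
        have h2 := Finset.card_le_card hs
        rw [Finset.card_image_of_injective _ (fun a b hab => by simpa using hab),
          Finset.card_range] at h2
        omega
      obtain ⟨i, hi, hni, hiR⟩ := hex
      have h2 := h1 i hi hiR
      rw [Finset.mem_union]
      unfold b1 at h2
      split_ifs at h2 with hj2
      · left
        simp only [Bool.and_eq_true, Bool.not_eq_true', decide_eq_false_iff_not] at h2
        have hn : 0 < n := by
          rcases Nat.eq_zero_or_pos n with rfl | h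
          · simp at hj2
          · exact h
        have hd1 : j / n < n := Nat.div_lt_of_lt_mul hj2
        have hd2 : j % n < n := Nat.mod_lt _ hn
        refine Finset.mem_filter.2 ⟨Finset.mem_range.2 hj2, h2.1.1, Finset.mem_filter.2 ⟨?_, hd1⟩,
          Finset.mem_filter.2 ⟨?_, hd2⟩⟩
        · by_contra h3
          have h4 := h1 (j / n) (by omega) h3
          unfold b1 at h4
          rw [if_pos hj2] at h4
          simp at h4
        · by_contra h3
          have h4 := h1 (j % n) (by omega) h3
          unfold b1 at h4
          rw [if_pos hj2] at h4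
          simp at h4
      · right
        rw [decide_eq_true_eq] at h2
        exact Finset.mem_image.2 ⟨j - n * n, Finset.mem_range.2 (by omega), by omega⟩
    have h3 := (Finset.card_le_card hsub).trans (Finset.card_union_le _ _)
    have h4 : ((Finset.range d).image (fun t => n * n + t)).card ≤ d :=
      Finset.card_image_le.trans (by simp)
    refine clique_of_card (fun x hx => Finset.mem_range.2 (Finset.mem_filter.1 hx).2) hk
      ((Finset.card_filter_le _ _).trans hRk) ?_
    omega
  · rintro ⟨S, hS⟩
    have hcard := card_of_clique hS
    obtain ⟨hSn, hSk, hcl⟩ := hS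
    refine ⟨S, fun x hx => Finset.mem_range.2 ?_, hSk.le, ?_⟩
    · have := Finset.mem_range.1 (hSn hx)
      omega
    have hsub : EI M n S ∪ (Finset.range d).image (fun t => n * n + t) ⊆
        (Finset.range m).filter (fun j => ∀ i < n + F + 1, i ∉ S → b1 M n d i j = true) := by
      intro j hj
      rw [Finset.mem_union] at hj
      rcases hj with hj | hj
      · obtain ⟨h1, h2, h3, h4⟩ := Finset.mem_filter.1 hj
        rw [Finset.mem_range] at h1
        refine Finset.mem_filter.2 ⟨Finset.mem_range.2 (by omega), fun i _ hi => ?_⟩
        unfold b1
        rw [if_pos h1, h2]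
        simp only [Bool.true_and, Bool.and_eq_true, Bool.not_eq_true', decide_eq_false_iff_not]
        exact ⟨fun h => hi (h ▸ h3), fun h => hi (h ▸ h4)⟩
      · obtain ⟨t, ht, rfl⟩ := Finset.mem_image.1 hj
        rw [Finset.mem_range] at ht
        refine Finset.mem_filter.2 ⟨Finset.mem_range.2 (by omega), fun i _ hi => ?_⟩
        unfold b1
        rw [if_neg (by omega), decide_eq_true_eq]
        omega
    have hdisj : Disjoint (EI M n S) ((Finset.range d).image (fun t => n * n + t)) := by
      rw [Finset.disjoint_left]
      intro j hj hj'
      obtain ⟨h1, _⟩ := Finset.mem_filter.1 hj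
      obtain ⟨t, _, rfl⟩ := Finset.mem_image.1 hj'
      rw [Finset.mem_range] at h1
      omega
    have h3 := Finset.card_le_card hsub
    rw [Finset.card_union_of_disjoint hdisj, hcard,
      Finset.card_image_of_injective _ (fun a b hab => by simpa using hab),
      Finset.card_range] at h3
    omega

/-- all edges -/
def allE (M : List (List Bool)) (n : ℕ) : Finset ℕ :=
  (Finset.range (n * n)).filter (fun j => isE M n j = true)

theorem EI_sub (S : Finset ℕ) : EI M n S ⊆ allE M n := by
  intro j hj
  obtain ⟨h1, h2, _⟩ := Finset.mem_filter.1 hj
  exact Finset.mem_filter.2 ⟨h1, h2⟩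

theorem allE_card : (allE M n).card ≤ n * n := (Finset.card_filter_le _ _).trans (by simp)

theorem red2 {z : ℕ → ℕ} {m : ℕ} (hk : 2 ≤ k) (hE : k.choose 2 ≤ (allE M n).card)
    (hzm : z m ≤ m) (hz : k ≤ m - z m) (hm : n + (m - z m - k) ≤ m) :
    OLD z (tab (n * n + n * n + 1) m (b2 M n (m - z m - k)), (allE M n).card - k.choose 2) ↔
      ∃ S, IsCl M n k S := by
  set d := m - z m - k with hd
  set b := (allE M n).card - k.choose 2 with hb
  have hbn : b ≤ n * n := by have := allE_card (M := M) (n := n); omega
  rw [old_tab _ (by omega)]
  constructor
  · rintro ⟨R, hR, hRb, hz'⟩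
    -- the edges outside `R` and their end vertices
    set T := (allE M n) \ R with hT
    set S := T.image (fun i => i / n) ∪ T.image (fun i => i % n) with hS
    have hTmem : ∀ i ∈ T, i < n * n ∧ isE M n i = true ∧ i ∉ R := by
      intro i hi
      rw [hT, Finset.mem_sdiff] at hi
      obtain ⟨h1, h2⟩ := Finset.mem_filter.1 hi.1
      exact ⟨Finset.mem_range.1 h1, h2, hi.2⟩
    have hSn : S ⊆ Finset.range n := by
      intro x hx
      rw [hS, Finset.mem_union] at hx
      rcases hx with hx | hx <;> obtain ⟨i, hi, rfl⟩ := Finset.mem_image.1 hx
      · exact Finset.mem_range.2 (Nat.div_lt_of_lt_mul (hTmem i hi).1)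
      · refine Finset.mem_range.2 (Nat.mod_lt _ ?_)
        rcases Nat.eq_zero_or_pos n with rfl | h
        · have := (hTmem i hi).1
          simp at this
        · exact h
    have hTc : k.choose 2 ≤ T.card := by
      have h1 : (allE M n).card ≤ T.card + R.card := by
        rw [hT]
        exact Finset.card_le_card_sdiff_add_card
      omega
    -- the passing issues avoid `S` and the `d` issues
    have hex : ∃ i < n * n + n * n + 1, n * n ≤ i ∧ i ∉ R := by
      by_contra hcon
      push Not at hcon
      have hs : (Finset.range (n * n + 1)).image (fun t => n * n + t) ⊆ R := by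
        intro x hx
        obtain ⟨t, ht, rfl⟩ := Finset.mem_image.1 hx
        rw [Finset.mem_range] at ht
        exact hcon _ (by omega) (by omega)
      have h2 := Finset.card_le_card hs
      rw [Finset.card_image_of_injective _ (fun a b hab => by simpa using hab),
        Finset.card_range] at h2
      omega
    obtain ⟨i0, hi0, hni0, hi0R⟩ := hex
    have hsub : (Finset.range m).filter
        (fun j => ∀ i < n * n + n * n + 1, i ∉ R → b2 M n d i j = true) ⊆
        Finset.range m \ (S ∪ (Finset.range d).image (fun t => n + t)) := by
      intro j hj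
      obtain ⟨hj1, h1⟩ := Finset.mem_filter.1 hj
      rw [Finset.mem_sdiff]
      refine ⟨hj1, fun hcon => ?_⟩
      rw [Finset.mem_union] at hcon
      rcases hcon with hcon | hcon
      · rw [hS, Finset.mem_union] at hcon
        rcases hcon with hx | hx <;> obtain ⟨i, hi, rfl⟩ := Finset.mem_image.1 hx
        · obtain ⟨h2, h3, h4⟩ := hTmem i hi
          have h5 := h1 i (by omega) h4
          unfold b2 at h5
          rw [if_pos h2, h3] at h5
          simp at h5
        · obtain ⟨h2, h3, h4⟩ := hTmem i hi
          have h5 := h1 i (by omega) h4
          unfold b2 at h5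
          rw [if_pos h2, h3] at h5
          simp at h5
      · obtain ⟨t, ht, rfl⟩ := Finset.mem_image.1 hcon
        rw [Finset.mem_range] at ht
        have h5 := h1 i0 hi0 hi0R
        unfold b2 at h5
        rw [if_neg (by omega)] at h5
        simp [ht] at h5
    have hdisj : Disjoint S ((Finset.range d).image (fun t => n + t)) := by
      rw [Finset.disjoint_left]
      intro j hj hj'
      have h1 := Finset.mem_range.1 (hSn hj)
      obtain ⟨t, _, rfl⟩ := Finset.mem_image.1 hj'
      omega
    have hin : S ∪ (Finset.range d).image (fun t => n + t) ⊆ Finset.range m := by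
      intro j hj
      rw [Finset.mem_union] at hj
      rcases hj with hj | hj
      · have := Finset.mem_range.1 (hSn hj)
        exact Finset.mem_range.2 (by omega)
      · obtain ⟨t, ht, rfl⟩ := Finset.mem_image.1 hj
        rw [Finset.mem_range] at ht
        exact Finset.mem_range.2 (by omega)
    have h3 := Finset.card_le_card hsub
    rw [Finset.card_sdiff_of_subset hin, Finset.card_union_of_disjoint hdisj,
      Finset.card_image_of_injective _ (fun a b hab => by simpa using hab),
      Finset.card_range, Finset.card_range] at h3
    have h4 : S.card + d ≤ m := by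
      have := Finset.card_le_card hin
      rw [Finset.card_union_of_disjoint hdisj,
        Finset.card_image_of_injective _ (fun a b hab => by simpa using hab),
        Finset.card_range, Finset.card_range] at this
      exact this
    have hSk : S.card ≤ k := by omega
    refine ⟨S, clique_of_card hSn hk hSk (hTc.trans (Finset.card_le_card ?_))⟩
    intro i hi
    obtain ⟨h5, h6, _⟩ := hTmem i hi
    refine Finset.mem_filter.2 ⟨Finset.mem_range.2 h5, h6, ?_, ?_⟩
    · rw [hS]
      exact Finset.mem_union_left _ (Finset.mem_image_of_mem _ hi)
    · rw [hS]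
      exact Finset.mem_union_right _ (Finset.mem_image_of_mem _ hi)
  · rintro ⟨S, hS⟩
    have hcard := card_of_clique hS
    obtain ⟨hSn, hSk, hcl⟩ := hS
    refine ⟨allE M n \ EI M n S, fun x hx => Finset.mem_range.2 ?_, ?_, ?_⟩
    · have := Finset.mem_range.1 (Finset.mem_filter.1 (Finset.mem_sdiff.1 hx).1).1
      omega
    · rw [Finset.card_sdiff_of_subset (EI_sub S), hcard]
    · have hsub : Finset.range m \ (S ∪ (Finset.range d).image (fun t => n + t)) ⊆
          (Finset.range m).filter (fun j => ∀ i < n * n + n * n + 1, i ∉ allE M n \ EI M n S →
            b2 M n d i j = true) := by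
        intro j hj
        rw [Finset.mem_sdiff, Finset.mem_union, not_or] at hj
        obtain ⟨hj1, hj2, hj3⟩ := hj
        refine Finset.mem_filter.2 ⟨hj1, fun i hi hiR => ?_⟩
        unfold b2
        split_ifs with hin
        · by_contra hcon
          simp only [Bool.not_eq_true', Bool.not_eq_false, Bool.and_eq_true, Bool.or_eq_true,
            decide_eq_true_eq] at hcon
          have h1 : i ∈ EI M n S := by
            by_contra h2
            exact hiR (Finset.mem_sdiff.2 ⟨Finset.mem_filter.2 ⟨Finset.mem_range.2 hin, hcon.1⟩,
              h2⟩)
          obtain ⟨_, _, h3, h4⟩ := Finset.mem_filter.1 h1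
          rcases hcon.2 with h | h
          · exact hj2 (h ▸ h3)
          · exact hj2 (h ▸ h4)
        · by_contra hcon
          simp only [Bool.not_eq_true', Bool.not_eq_false, Bool.and_eq_true,
            decide_eq_true_eq] at hcon
          exact hj3 (Finset.mem_image.2 ⟨j - n, Finset.mem_range.2 (by omega), by omega⟩)
      refine le_trans ?_ (Finset.card_le_card hsub)
      have h1 : (S ∪ (Finset.range d).image (fun t => n + t)).card ≤ k + d := by
        refine (Finset.card_union_le _ _).trans ?_
        have : ((Finset.range d).image (fun t => n + t)).card ≤ d :=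
          Finset.card_image_le.trans (by simp)
        omega
      have h2 := Finset.le_card_sdiff (S ∪ (Finset.range d).image (fun t => n + t))
        (Finset.range m)
      rw [Finset.card_range] at h2
      omega

end

end Pool.Agent.NPC.V11230.LB
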