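import Mathlib

/-!
# Majority domination of complete multipartite graphs: the dynamic programme
-/

set_option autoImplicit false

namespace Pool.Agent.V11230.MD

open Finset

/-! ### Choices with truncated sums -/

/-- one step of the dynamic programme -/
def stepD (T U : ℕ) (o : List (ℕ × ℕ)) (R : List (ℕ × ℕ)) : List (ℕ × ℕ) :=
  ((List.range (T + 1)).flatMap (fun x => (List.range (U + 1)).map (fun y => (x, y)))).filter
    (fun s => R.any (fun r => o.any (fun q =>
      decide (s = (min (r.1 + q.1) T, min (r.2 + q.2) U)))))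

theorem mem_stepD {T U : ℕ} {o R : List (ℕ × ℕ)} {s : ℕ × ℕ} : s ∈ stepD T U o R ↔
    ∃ r ∈ R, ∃ q ∈ o, s = (min (r.1 + q.1) T, min (r.2 + q.2) U) := by
  unfold stepD
  simp only [List.mem_filter, List.mem_flatMap, List.mem_range, List.mem_map, List.any_eq_true,
    decide_eq_true_eq]
  constructor
  · rintro ⟨_, r, hr, q, hq, h⟩
    exact ⟨r, hr, q, hq, h⟩
  · rintro ⟨r, hr, q, hq, rfl⟩
    refine ⟨⟨min (r.1 + q.1) T, by omega, min (r.2 + q.2) U, by omega, rfl⟩, r, hr, q, hq, rfl⟩

/-- the reachable truncated sums -/
def reach (T U : ℕ) (opt : ℕ → List (ℕ × ℕ)) (l : List ℕ) : List (ℕ × ℕ) :=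
  l.foldl (fun R n => stepD T U (opt n) R) [(0, 0)]

theorem mem_reach {T U : ℕ} {opt : ℕ → List (ℕ × ℕ)} (l : List ℕ) (s : ℕ × ℕ) :
    s ∈ reach T U opt l ↔ ∃ c : ℕ → ℕ × ℕ, (∀ i < l.length, c i ∈ opt (l.getD i 0)) ∧
      s = (min (∑ i ∈ range l.length, (c i).1) T, min (∑ i ∈ range l.length, (c i).2) U) := by
  induction l using List.reverseRecOn generalizing s with
  | nil => simp [reach]
  | append_singleton l n ih =>
    have h1 : reach T U opt (l ++ [n]) = stepD T U (opt n) (reach T U opt l) := by
      unfold reach
      rw [List.foldl_append]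
      rfl
    rw [h1, mem_stepD]
    have hlen : (l ++ [n]).length = l.length + 1 := by simp
    have g1 : ∀ i < l.length, (l ++ [n]).getD i 0 = l.getD i 0 := fun i hi =>
      List.getD_append _ _ _ _ hi
    have g2 : (l ++ [n]).getD l.length 0 = n := by
      rw [List.getD_append_right _ _ _ _ le_rfl]
      simp
    constructor
    · rintro ⟨r, hr, q, hq, rfl⟩
      obtain ⟨c, hc, rfl⟩ := (ih r).1 hr
      refine ⟨Function.update c l.length q, ?_, ?_⟩
      · intro i hi
        rw [hlen] at hi
        by_cases h : i = l.length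
        · subst h
          rw [Function.update_self, g2]
          exact hq
        · rw [Function.update_of_ne h, g1 i (by omega)]
          exact hc i (by omega)
      · have e : ∀ i ∈ range l.length, Function.update c l.length q i = c i := by
          intro i hi
          rw [Function.update_of_ne (by have := mem_range.1 hi; omega)]
        rw [hlen, sum_range_succ, sum_range_succ, Function.update_self]
        rw [sum_congr rfl (fun i hi => by rw [e i hi] :
            ∀ i ∈ range l.length, (Function.update c l.length q i).1 = (c i).1),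
          sum_congr rfl (fun i hi => by rw [e i hi] :
            ∀ i ∈ range l.length, (Function.update c l.length q i).2 = (c i).2)]
        simp only [Prod.mk.injEq]
        omega
    · rintro ⟨c, hc, rfl⟩
      refine ⟨_, (ih _).2 ⟨c, fun i hi => ?_, rfl⟩, c l.length, ?_, ?_⟩
      · rw [← g1 i hi]
        exact hc i (by omega)
      · have := hc l.length (by omega)
        rwa [g2] at this
      · rw [hlen, sum_range_succ, sum_range_succ]
        simp only [Prod.mk.injEq]
        omega

/-- the thresholds can be reached -/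
theorem reach_top {T U : ℕ} {opt : ℕ → List (ℕ × ℕ)} (l : List ℕ) :
    (T, U) ∈ reach T U opt l ↔ ∃ c : ℕ → ℕ × ℕ, (∀ i < l.length, c i ∈ opt (l.getD i 0)) ∧
      T ≤ ∑ i ∈ range l.length, (c i).1 ∧ U ≤ ∑ i ∈ range l.length, (c i).2 := by
  rw [mem_reach]
  refine exists_congr fun c => and_congr_right fun _ => ?_
  simp only [Prod.mk.injEq]
  omega

/-! ### Types of the parts -/

/-- the first value of a part of size `n`, for the types 0, 1, 2 -/
def vx (t n : ℕ) : ℤ := if t = 0 then -2 - (n % 2 : ℕ) else if t = 1 then -(n % 2 : ℕ) else n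

/-- the second value of a part of size `n` -/
def vy (t n : ℕ) : ℤ := if t = 0 then n else if t = 1 then -(n % 2 : ℕ) else -n

/-- there are suitable types -/
def Types (l : List ℕ) : Prop :=
  ∃ t : ℕ → ℕ, (∀ i < l.length, t i ≤ 2 ∧ (t i = 0 → 2 ≤ l.getD i 0)) ∧
    0 ≤ ∑ i ∈ range l.length, vx (t i) (l.getD i 0) ∧
    0 ≤ ∑ i ∈ range l.length, vy (t i) (l.getD i 0)

/-- the options of a part -/
def opts (K n : ℕ) : List (ℕ × ℕ) :=
  (if n < K then [(n + 3, K - n)] else []) ++ ([(3 - n % 2, K - n % 2)] ++
    (if 2 ≤ n then [(1 - n % 2, K + n)] else []))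

theorem mem_opts {K n : ℕ} (hK : 1 ≤ K) {q : ℕ × ℕ} : q ∈ opts K n ↔
    ∃ t, (t ≤ 2 ∧ (t = 0 → 2 ≤ n) ∧ (t = 2 → n < K)) ∧
      (q.1 : ℤ) = vx t n + 3 ∧ (q.2 : ℤ) = vy t n + K := by
  obtain ⟨a, b⟩ := q
  unfold opts
  simp only [List.mem_append]
  constructor
  · rintro (h | h | h)
    · split_ifs at h with h1
      · simp only [List.mem_cons, List.not_mem_nil, or_false, Prod.mk.injEq] at h
        refine ⟨2, ⟨by omega, by omega, fun _ => h1⟩, ?_, ?_⟩ <;> simp [vx, vy] <;> omega
      · simp at h
    · simp only [List.mem_cons, List.not_mem_nil, or_false, Prod.mk.injEq] at h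
      refine ⟨1, ⟨by omega, by omega, by omega⟩, ?_, ?_⟩ <;> simp [vx, vy] <;> omega
    · split_ifs at h with h1
      · simp only [List.mem_cons, List.not_mem_nil, or_false, Prod.mk.injEq] at h
        refine ⟨0, ⟨by omega, fun _ => h1, by omega⟩, ?_, ?_⟩ <;> simp [vx, vy] <;> omega
      · simp at h
  · rintro ⟨t, ⟨h1, h2, h3⟩, h4, h5⟩
    have ht : t = 0 ∨ t = 1 ∨ t = 2 := by omega
    rcases ht with rfl | rfl | rfl
    · simp only [vx, vy, if_true] at h4 h5
      right; right
      rw [if_pos (h2 rfl)]
      simp only [List.mem_cons, List.not_mem_nil, or_false, Prod.mk.injEq]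
      omega
    · simp only [vx, vy, one_ne_zero, if_false, if_true] at h4 h5
      right; left
      simp only [List.mem_cons, List.not_mem_nil, or_false, Prod.mk.injEq]
      omega
    · simp only [vx, vy, OfNat.ofNat_ne_zero, OfNat.ofNat_ne_one, if_false] at h4 h5
      left
      rw [if_pos (h3 rfl)]
      simp only [List.mem_cons, List.not_mem_nil, or_false, Prod.mk.injEq]
      omega

/-- a big part of type 2 -/
def pivot (l : List ℕ) : Bool :=
  l.any (fun n => decide (3 * l.length ≤ n) && decide (2 * n +
    (l.map (fun n => if 2 ≤ n then 0 else 1)).sum ≤ (l.map (fun n => if 2 ≤ n then n else 0)).sum))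

/-- the dynamic programme -/
def dp (l : List ℕ) : Bool :=
  decide ((3 * l.length, 3 * l.length * l.length) ∈
    reach (3 * l.length) (3 * l.length * l.length) (opts (3 * l.length)) l)

theorem sum_list (g : ℕ → ℤ) (l : List ℕ) :
    ∑ i ∈ range l.length, g (l.getD i 0) = (l.map g).sum := by
  induction l with
  | nil => simp
  | cons a l ih =>
    rw [List.length_cons, sum_range_succ', List.map_cons, List.sum_cons, ← ih]
    simp [add_comm]

theorem sum_listN (g : ℕ → ℕ) (l : List ℕ) :
    ∑ i ∈ range l.length, g (l.getD i 0) = (l.map g).sum := by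
  induction l with
  | nil => simp
  | cons a l ih =>
    rw [List.length_cons, sum_range_succ', List.map_cons, List.sum_cons, ← ih]
    simp [add_comm]

/-- **Correctness of the algorithm for types.** -/
theorem types_iff {l : List ℕ} (hl : l ≠ []) (hpos : ∀ n ∈ l, 1 ≤ n) :
    Types l ↔ dp l = true ∨ pivot l = true := by
  have hm : 0 < l.length := List.length_pos_iff.2 hl
  have hget : ∀ i < l.length, 1 ≤ l.getD i 0 := by
    intro i hi
    rw [List.getD_eq_getElem _ _ hi]
    exact hpos _ (List.getElem_mem hi)
  constructor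
  · rintro ⟨t, ht, hx, hy⟩
    by_cases hbig : ∃ j < l.length, t j = 2 ∧ 3 * l.length ≤ l.getD j 0
    · right
      obtain ⟨j, hj, htj, hbj⟩ := hbig
      unfold pivot
      rw [List.any_eq_true]
      refine ⟨l.getD j 0, by rw [List.getD_eq_getElem _ _ hj]; exact List.getElem_mem hj, ?_⟩
      rw [Bool.and_eq_true, decide_eq_true_iff, decide_eq_true_iff]
      refine ⟨hbj, ?_⟩
      rw [← sum_listN, ← sum_listN]
      have key : ∀ i ∈ range l.length, vy (t i) (l.getD i 0) ≤
          (((if 2 ≤ l.getD i 0 then l.getD i 0 else 0 : ℕ) : ℤ) -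
            ((if 2 ≤ l.getD i 0 then 0 else 1 : ℕ) : ℤ)) -
              (if i = j then 2 * (l.getD j 0 : ℤ) else 0) := by
        intro i hi
        have hi' := mem_range.1 hi
        have h1 := hget i hi'
        have h2 := ht i hi'
        by_cases hij : i = j
        · subst hij
          rw [htj, if_pos rfl]
          simp only [vy, OfNat.ofNat_ne_zero, OfNat.ofNat_ne_one, if_false]
          split_ifs <;> push_cast <;> omega
        · rw [if_neg hij]
          unfold vy
          split_ifs <;> push_cast <;> omega
      have h1 := sum_le_sum key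
      rw [sum_sub_distrib, sum_sub_distrib, sum_ite_eq', if_pos (mem_range.2 hj)] at h1
      rw [← Nat.cast_sum, ← Nat.cast_sum] at h1
      omega
    · left
      push Not at hbig
      unfold dp
      rw [decide_eq_true_iff, reach_top]
      have hex : ∀ i, ∃ q : ℕ × ℕ, i < l.length → q ∈ opts (3 * l.length) (l.getD i 0) ∧
          (q.1 : ℤ) = vx (t i) (l.getD i 0) + 3 ∧ (q.2 : ℤ) = vy (t i) (l.getD i 0) +
            (3 * l.length : ℕ) := by
        intro i
        by_cases hi : i < l.length
        · have h1 := ht i hi
          have h2 := hbig i hi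
          have h3 := hget i hi
          refine ⟨((vx (t i) (l.getD i 0) + 3).toNat,
            (vy (t i) (l.getD i 0) + (3 * l.length : ℕ)).toNat), fun _ => ?_⟩
          have e1 : (((vx (t i) (l.getD i 0) + 3).toNat : ℕ) : ℤ) =
              vx (t i) (l.getD i 0) + 3 := by
            rw [Int.toNat_of_nonneg]
            unfold vx
            split_ifs <;> push_cast <;> omega
          have e2 : (((vy (t i) (l.getD i 0) + (3 * l.length : ℕ)).toNat : ℕ) : ℤ) =
              vy (t i) (l.getD i 0) + (3 * l.length : ℕ) := by
            rw [Int.toNat_of_nonneg]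
            unfold vy
            split_ifs <;> push_cast <;> omega
          refine ⟨(mem_opts (by omega)).2 ⟨t i, ⟨h1.1, h1.2, fun h => ?_⟩, e1, e2⟩, e1, e2⟩
          have := h2 h
          omega
        · exact ⟨(0, 0), fun h => absurd h hi⟩
      choose c hc using hex
      refine ⟨c, fun i hi => (hc i hi).1, ?_, ?_⟩
      · zify
        rw [sum_congr rfl (fun i hi => (hc i (mem_range.1 hi)).2.1), sum_add_distrib, sum_const,
          card_range, nsmul_eq_mul]
        linarith
      · zify
        rw [sum_congr rfl (fun i hi => (hc i (mem_range.1 hi)).2.2), sum_add_distrib, sum_const,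
          card_range, nsmul_eq_mul]
        push_cast
        nlinarith
  · rintro (h | h)
    · unfold dp at h
      rw [decide_eq_true_iff, reach_top] at h
      obtain ⟨c, hc, h1, h2⟩ := h
      have hex : ∀ i, ∃ t, i < l.length → (t ≤ 2 ∧ (t = 0 → 2 ≤ l.getD i 0) ∧
          (t = 2 → l.getD i 0 < 3 * l.length)) ∧ ((c i).1 : ℤ) = vx t (l.getD i 0) + 3 ∧
            ((c i).2 : ℤ) = vy t (l.getD i 0) + (3 * l.length : ℕ) := by
        intro i
        by_cases hi : i < l.length
        · obtain ⟨t, ht⟩ := (mem_opts (by omega)).1 (hc i hi)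
          exact ⟨t, fun _ => ht⟩
        · exact ⟨0, fun h => absurd h hi⟩
      choose t ht using hex
      refine ⟨t, fun i hi => ⟨(ht i hi).1.1, (ht i hi).1.2.1⟩, ?_, ?_⟩
      · zify at h1
        rw [sum_congr rfl (fun i hi => (ht i (mem_range.1 hi)).2.1), sum_add_distrib, sum_const,
          card_range, nsmul_eq_mul] at h1
        linarith
      · zify at h2
        rw [sum_congr rfl (fun i hi => (ht i (mem_range.1 hi)).2.2), sum_add_distrib, sum_const,
          card_range, nsmul_eq_mul] at h2
        push_cast at h2
        nlinarith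
    · unfold pivot at h
      rw [List.any_eq_true] at h
      obtain ⟨n, hn, h⟩ := h
      rw [Bool.and_eq_true, decide_eq_true_iff, decide_eq_true_iff] at h
      obtain ⟨h1, h2⟩ := h
      obtain ⟨j, hj, rfl⟩ := List.getElem_of_mem hn
      have hgj : l.getD j 0 = l[j] := List.getD_eq_getElem _ _ hj
      rw [← hgj] at h1 h2
      rw [← sum_listN, ← sum_listN] at h2
      refine ⟨fun i => if i = j then 2 else if 2 ≤ l.getD i 0 then 0 else 1, ?_, ?_, ?_⟩
      · intro i hi
        dsimp only
        split_ifs with h3 h4
        · exact ⟨le_rfl, fun h => absurd h (by norm_num)⟩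
        · exact ⟨by norm_num, fun _ => h4⟩
        · exact ⟨by norm_num, fun h => absurd h (by norm_num)⟩
      · have key : ∀ i ∈ range l.length, (-3 : ℤ) + (if i = j then (l.getD j 0 : ℤ) + 3 else 0) ≤
            vx (if i = j then 2 else if 2 ≤ l.getD i 0 then 0 else 1) (l.getD i 0) := by
          intro i hi
          by_cases hij : i = j
          · subst hij
            rw [if_pos rfl, if_pos rfl]
            simp only [vx, OfNat.ofNat_ne_zero, OfNat.ofNat_ne_one, if_false]
            omega
          · rw [if_neg hij, if_neg hij]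
            unfold vx
            split_ifs <;> push_cast <;> omega
        have h3 := sum_le_sum key
        rw [sum_add_distrib, sum_const, card_range, nsmul_eq_mul, sum_ite_eq',
          if_pos (mem_range.2 hj)] at h3
        refine le_trans ?_ h3
        zify at h1
        linarith
      · have key : ∀ i ∈ range l.length,
            (((if 2 ≤ l.getD i 0 then l.getD i 0 else 0 : ℕ) : ℤ) -
              ((if 2 ≤ l.getD i 0 then 0 else 1 : ℕ) : ℤ)) -
                (if i = j then 2 * (l.getD j 0 : ℤ) else 0) ≤
            vy (if i = j then 2 else if 2 ≤ l.getD i 0 then 0 else 1) (l.getD i 0) := by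
          intro i hi
          by_cases hij : i = j
          · subst hij
            rw [if_pos rfl, if_pos rfl]
            simp only [vy, OfNat.ofNat_ne_zero, OfNat.ofNat_ne_one, if_false]
            split_ifs <;> push_cast <;> omega
          · rw [if_neg hij, if_neg hij]
            unfold vy
            split_ifs <;> push_cast <;> omega
        have h3 := sum_le_sum key
        rw [sum_sub_distrib, sum_sub_distrib, sum_ite_eq', if_pos (mem_range.2 hj)] at h3
        refine le_trans ?_ h3
        rw [← Nat.cast_sum, ← Nat.cast_sum]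
        omega

end Pool.Agent.V11230.MD
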