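import Pool.Agent.V11230.MD1

/-!
# Majority domination of complete multipartite graphs: the numbers
-/

set_option autoImplicit false

namespace Pool.Agent.V11230.MD

open Finset

/-- the number of the good vertices of a part with `n` vertices, of which `p` have value 1, if the
total weight is `w` -/
def cntI (w : ℤ) (n p : ℕ) : ℕ :=
  if 2 * (p : ℤ) - n + 2 ≤ w then n else if 2 * (p : ℤ) - n ≤ w then p else 0

/-- the weight -/
def wt (l : List ℕ) (p : ℕ → ℕ) : ℤ := 2 * ((∑ i ∈ range l.length, p i : ℕ) : ℤ) - (l.sum : ℕ)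

/-- there are suitable numbers of the vertices of value 1 -/
def Feas (l : List ℕ) (k : ℕ) : Prop :=
  ∃ p : ℕ → ℕ, (∀ i < l.length, p i ≤ l.getD i 0) ∧ wt l p ≤ k ∧
    l.sum ≤ 2 * ∑ i ∈ range l.length, cntI (wt l p) (l.getD i 0) (p i)

theorem exists_between (m : ℕ) (lo hi : ℕ → ℕ) (h : ∀ i < m, lo i ≤ hi i) :
    ∀ s : ℕ, ∑ i ∈ range m, lo i ≤ s → s ≤ ∑ i ∈ range m, hi i →
      ∃ p : ℕ → ℕ, (∀ i < m, lo i ≤ p i ∧ p i ≤ hi i) ∧ ∑ i ∈ range m, p i = s := by
  induction m with
  | zero =>
    intro s h1 h2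
    refine ⟨fun _ => 0, fun i hi => absurd hi (by omega), ?_⟩
    simp only [range_zero, sum_empty] at h1 h2 ⊢
    omega
  | succ m ih =>
    intro s h1 h2
    rw [sum_range_succ] at h1 h2
    have hm := h m (by omega)
    have hle : ∑ i ∈ range m, lo i ≤ ∑ i ∈ range m, hi i :=
      sum_le_sum fun i hi => h i (by have := mem_range.1 hi; omega)
    obtain ⟨x, hx1, hx2, hx3, hx4⟩ : ∃ x, lo m ≤ x ∧ x ≤ hi m ∧ x ≤ s ∧
        ∑ i ∈ range m, lo i ≤ s - x ∧ s - x ≤ ∑ i ∈ range m, hi i := by
      by_cases hc : s ≤ hi m + ∑ i ∈ range m, lo i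
      · exact ⟨s - ∑ i ∈ range m, lo i, by omega, by omega, by omega, by omega, by omega⟩
      · exact ⟨hi m, by omega, by omega, by omega, by omega, by omega⟩
    obtain ⟨p, hp1, hp2⟩ := ih (fun i hi => h i (by omega)) (s - x) hx4.1 hx4.2
    refine ⟨Function.update p m x, ?_, ?_⟩
    · intro i hi
      by_cases hc : i = m
      · subst hc
        rw [Function.update_self]
        exact ⟨hx1, hx2⟩
      · rw [Function.update_of_ne hc]
        exact hp1 i (by omega)
    · rw [sum_range_succ, Function.update_self,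
        sum_congr rfl (fun i hi => by
          rw [Function.update_of_ne (by have := mem_range.1 hi; omega)] :
          ∀ i ∈ range m, Function.update p m x i = p i), hp2]
      omega

theorem sum_getD (l : List ℕ) : ∑ i ∈ range l.length, l.getD i 0 = l.sum := by
  have := sum_listN (fun n => n) l
  rw [List.map_id'] at this
  exact this

theorem le_cntI {w : ℤ} {n p : ℕ} (h : 2 * (p : ℤ) - n ≤ w) (hp : p ≤ n) : p ≤ cntI w n p := by
  unfold cntI
  split_ifs <;> omega

/-- the easy cases -/
theorem feas_easy {l : List ℕ} (hl : l ≠ []) (hpos : ∀ n ∈ l, 1 ≤ n) {k : ℕ} (hk : 1 ≤ k)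
    (h : 2 ≤ k ∨ l.sum % 2 = 1) : Feas l k := by
  have hm : 0 < l.length := List.length_pos_iff.2 hl
  have hget : ∀ i < l.length, 1 ≤ l.getD i 0 := by
    intro i hi
    rw [List.getD_eq_getElem _ _ hi]
    exact hpos _ (List.getElem_mem hi)
  obtain ⟨c, hc1, hc2, hc3, hc4⟩ : ∃ c, 1 ≤ c ∧ c ≤ 2 ∧ c ≤ k ∧ (l.sum + c) % 2 = 0 := by
    by_cases h' : l.sum % 2 = 1
    · exact ⟨1, by omega, by omega, by omega, by omega⟩
    · exact ⟨2, by omega, by omega, by omega, by omega⟩
  have hlo : 2 * ∑ i ∈ range l.length, l.getD i 0 / 2 ≤ l.sum := by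
    rw [mul_sum, ← sum_getD l]
    exact sum_le_sum fun i _ => by omega
  have hhi : l.sum + c ≤ 2 * ∑ i ∈ range l.length, (l.getD i 0 + c) / 2 := by
    have h1 : ∑ i ∈ range l.length, (l.getD i 0 + (c - 1)) ≤
        ∑ i ∈ range l.length, 2 * ((l.getD i 0 + c) / 2) :=
      sum_le_sum fun i _ => by omega
    rw [sum_add_distrib, sum_getD, sum_const, card_range, smul_eq_mul, ← mul_sum] at h1
    have h2 : c - 1 ≤ l.length * (c - 1) := Nat.le_mul_of_pos_left _ hm
    omega
  obtain ⟨p, hp1, hp2⟩ := exists_between l.length (fun i => l.getD i 0 / 2)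
    (fun i => (l.getD i 0 + c) / 2) (fun i _ => by omega) ((l.sum + c) / 2)
    (by omega) (by omega)
  have hw : wt l p = c := by
    unfold wt
    rw [hp2]
    omega
  refine ⟨p, fun i hi => ?_, ?_, ?_⟩
  · have h1 := (hp1 i hi).2
    have h2 := hget i hi
    omega
  · rw [hw]
    exact_mod_cast hc3
  · have h1 : ∑ i ∈ range l.length, p i ≤
        ∑ i ∈ range l.length, cntI (wt l p) (l.getD i 0) (p i) := by
      refine sum_le_sum fun i hi => ?_
      have h1 := (hp1 i (mem_range.1 hi)).2
      have h2 := hget i (mem_range.1 hi)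
      refine le_cntI ?_ (by omega)
      rw [hw]
      omega
    omega

/-- the hard case, one direction -/
theorem feas_of_types {l : List ℕ} {k : ℕ} (h2 : l.sum % 2 = 0) (h : Types l) : Feas l k := by
  obtain ⟨t, ht, hx, hy⟩ := h
  set p0 : ℕ → ℕ := fun i => if t i = 0 then l.getD i 0 / 2 - 1 else
    if t i = 1 then l.getD i 0 / 2 else l.getD i 0 with hp0
  have hpx : ∀ i ∈ range l.length, (2 * (p0 i : ℤ) - (l.getD i 0 : ℕ)) =
      vx (t i) (l.getD i 0) := by
    intro i hi
    have h1 := ht i (mem_range.1 hi)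
    rw [hp0]
    dsimp only
    unfold vx
    by_cases c0 : t i = 0
    · have h3 := h1.2 c0
      rw [if_pos c0, if_pos c0]
      omega
    · rw [if_neg c0, if_neg c0]
      by_cases c1 : t i = 1
      · rw [if_pos c1, if_pos c1]
        omega
      · rw [if_neg c1, if_neg c1]
        omega
  have hle : ∀ i < l.length, p0 i ≤ l.getD i 0 := by
    intro i _
    rw [hp0]
    dsimp only
    split_ifs <;> omega
  have hs : (l.sum : ℤ) ≤ 2 * ((∑ i ∈ range l.length, p0 i : ℕ) : ℤ) := by
    rw [← sum_congr rfl hpx, sum_sub_distrib, ← mul_sum, ← Nat.cast_sum, ← Nat.cast_sum,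
      sum_getD] at hx
    omega
  obtain ⟨p, hp1, hp2⟩ := exists_between l.length (fun _ => 0) p0 (fun i _ => Nat.zero_le _)
    (l.sum / 2) (by simp) (by omega)
  have hw : wt l p = 0 := by
    unfold wt
    rw [hp2]
    omega
  refine ⟨p, fun i hi => (hp1 i hi).2.trans (hle i hi), by rw [hw]; positivity, ?_⟩
  have key : ∀ i ∈ range l.length, vy (t i) (l.getD i 0) ≤
      2 * (cntI (wt l p) (l.getD i 0) (p i) : ℤ) - (l.getD i 0 : ℕ) := by
    intro i hi
    have h1 := ht i (mem_range.1 hi)
    have h3 := (hp1 i (mem_range.1 hi)).2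
    rw [hp0] at h3
    dsimp only at h3
    rw [hw]
    unfold vy cntI
    by_cases c0 : t i = 0
    · rw [if_pos c0] at h3 ⊢
      have h4 := h1.2 c0
      rw [if_pos (by omega)]
      omega
    · rw [if_neg c0] at h3 ⊢
      by_cases c1 : t i = 1
      · rw [if_pos c1] at h3 ⊢
        by_cases h5 : 2 * (p i : ℤ) - (l.getD i 0 : ℕ) + 2 ≤ 0
        · rw [if_pos h5]
          omega
        · rw [if_neg h5, if_pos (by omega)]
          omega
      · rw [if_neg c1] at h3 ⊢
        omega
  have h3 := hy.trans (sum_le_sum key)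
  rw [sum_sub_distrib, ← mul_sum, ← Nat.cast_sum, ← Nat.cast_sum, sum_getD] at h3
  omega

/-- the hard case, the other direction -/
theorem types_of_feas {l : List ℕ} (hl : l ≠ []) (hpos : ∀ n ∈ l, 1 ≤ n)
    (h2 : l.sum % 2 = 0) (h : Feas l 1) : Types l := by
  obtain ⟨p, hp, hw1, hc⟩ := h
  have hm : 0 < l.length := List.length_pos_iff.2 hl
  have hget : ∀ i < l.length, 1 ≤ l.getD i 0 := by
    intro i hi
    rw [List.getD_eq_getElem _ _ hi]
    exact hpos _ (List.getElem_mem hi)
  have hw : wt l p = 2 * ((∑ i ∈ range l.length, p i : ℕ) : ℤ) - (l.sum : ℕ) := rfl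
  set w := wt l p with hwd
  have hw0 : w ≤ 0 := by omega
  have hwe : w % 2 = 0 := by omega
  set t : ℕ → ℕ := fun i => if 2 * (p i : ℤ) - (l.getD i 0 : ℕ) + 2 ≤ w then 0 else
    if 2 * (p i : ℤ) - (l.getD i 0 : ℕ) ≤ w then 1 else 2 with ht
  have hsum : 1 ≤ l.sum := by
    rw [← sum_getD]
    calc 1 ≤ l.getD 0 0 := hget 0 hm
      _ ≤ _ := single_le_sum (f := fun i => l.getD i 0) (fun i _ => Nat.zero_le _)
        (mem_range.2 hm)
  have hex : ∃ j < l.length, t j ≠ 2 := by
    by_contra hne
    push Not at hne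
    have h3 : ∑ i ∈ range l.length, cntI w (l.getD i 0) (p i) = 0 := by
      refine sum_eq_zero fun i hi => ?_
      have h4 := hne i (mem_range.1 hi)
      rw [ht] at h4
      dsimp only at h4
      unfold cntI
      by_cases c0 : 2 * (p i : ℤ) - (l.getD i 0 : ℕ) + 2 ≤ w
      · rw [if_pos c0] at h4
        omega
      · rw [if_neg c0] at h4 ⊢
        by_cases c1 : 2 * (p i : ℤ) - (l.getD i 0 : ℕ) ≤ w
        · rw [if_pos c1] at h4
          omega
        · rw [if_neg c1]
    omega
  obtain ⟨j, hj, htj⟩ := hex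
  refine ⟨t, ?_, ?_, ?_⟩
  · intro i hi
    rw [ht]
    dsimp only
    by_cases c0 : 2 * (p i : ℤ) - (l.getD i 0 : ℕ) + 2 ≤ w
    · rw [if_pos c0]
      exact ⟨by omega, fun _ => by omega⟩
    · rw [if_neg c0]
      by_cases c1 : 2 * (p i : ℤ) - (l.getD i 0 : ℕ) ≤ w
      · rw [if_pos c1]
        exact ⟨by omega, fun h => absurd h (by omega)⟩
      · rw [if_neg c1]
        exact ⟨by omega, fun h => absurd h (by omega)⟩
  · have key : ∀ i ∈ range l.length, (2 * (p i : ℤ) - (l.getD i 0 : ℕ)) -
        (if t i = 2 then 0 else w) ≤ vx (t i) (l.getD i 0) := by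
      intro i hi
      have h3 := hp i (mem_range.1 hi)
      have e : t i = if 2 * (p i : ℤ) - (l.getD i 0 : ℕ) + 2 ≤ w then 0 else
        if 2 * (p i : ℤ) - (l.getD i 0 : ℕ) ≤ w then 1 else 2 := rfl
      by_cases c0 : 2 * (p i : ℤ) - (l.getD i 0 : ℕ) + 2 ≤ w
      · rw [if_pos c0] at e
        rw [e]
        simp only [vx, if_true, OfNat.zero_ne_ofNat, if_false]
        omega
      · rw [if_neg c0] at e
        by_cases c1 : 2 * (p i : ℤ) - (l.getD i 0 : ℕ) ≤ w
        · rw [if_pos c1] at e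
          rw [e]
          simp only [vx, if_true, one_ne_zero, OfNat.one_ne_ofNat, if_false]
          omega
        · rw [if_neg c1] at e
          rw [e]
          simp only [vx, if_true, OfNat.ofNat_ne_zero, OfNat.ofNat_ne_one, if_false]
          omega
    have h3 := sum_le_sum key
    rw [sum_sub_distrib, sum_sub_distrib, ← mul_sum, ← Nat.cast_sum, ← Nat.cast_sum,
      sum_getD] at h3
    have h4 : ∑ i ∈ range l.length, (if t i = 2 then 0 else w) ≤ w := by
      calc ∑ i ∈ range l.length, (if t i = 2 then 0 else w)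
          ≤ ∑ i ∈ range l.length, (if i = j then w else 0) := by
            refine sum_le_sum fun i _ => ?_
            by_cases hij : i = j
            · subst hij
              rw [if_neg htj, if_pos rfl]
            · rw [if_neg hij]
              split_ifs <;> omega
        _ = w := by rw [sum_ite_eq', if_pos (mem_range.2 hj)]
    omega
  · have key : ∀ i ∈ range l.length, 2 * (cntI w (l.getD i 0) (p i) : ℤ) - (l.getD i 0 : ℕ) ≤
        vy (t i) (l.getD i 0) := by
      intro i hi
      have h3 := hp i (mem_range.1 hi)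
      have e : t i = if 2 * (p i : ℤ) - (l.getD i 0 : ℕ) + 2 ≤ w then 0 else
        if 2 * (p i : ℤ) - (l.getD i 0 : ℕ) ≤ w then 1 else 2 := rfl
      unfold cntI
      by_cases c0 : 2 * (p i : ℤ) - (l.getD i 0 : ℕ) + 2 ≤ w
      · rw [if_pos c0] at e ⊢
        rw [e]
        simp only [vy, if_true]
        omega
      · rw [if_neg c0] at e ⊢
        by_cases c1 : 2 * (p i : ℤ) - (l.getD i 0 : ℕ) ≤ w
        · rw [if_pos c1] at e ⊢
          rw [e]
          simp only [vy, if_true, one_ne_zero, if_false]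
          omega
        · rw [if_neg c1] at e ⊢
          rw [e]
          simp only [vy, OfNat.ofNat_ne_zero, OfNat.ofNat_ne_one, if_false]
          omega
    have h3 := sum_le_sum key
    rw [sum_sub_distrib, ← mul_sum, ← Nat.cast_sum, ← Nat.cast_sum, sum_getD] at h3
    omega

/-- the decision -/
def dec (I : List ℕ × ℕ) : Bool :=
  (decide (2 ≤ I.2) || decide (I.1.sum % 2 = 1)) || (dp I.1 || pivot I.1)

/-- **Correctness of the decision.** -/
theorem feas_iff {l : List ℕ} (hl : l ≠ []) (hpos : ∀ n ∈ l, 1 ≤ n) {k : ℕ} (hk : 1 ≤ k) :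
    Feas l k ↔ dec (l, k) = true := by
  unfold dec
  rw [Bool.or_eq_true, Bool.or_eq_true, Bool.or_eq_true, decide_eq_true_iff, decide_eq_true_iff,
    ← types_iff hl hpos]
  constructor
  · intro h
    by_cases h1 : 2 ≤ k ∨ l.sum % 2 = 1
    · exact Or.inl h1
    · right
      push Not at h1
      have : k = 1 := by omega
      subst this
      exact types_of_feas hl hpos (by omega) h
  · rintro (h | h)
    · exact feas_easy hl hpos hk h
    · by_cases h1 : l.sum % 2 = 1
      · exact feas_easy hl hpos hk (Or.inr h1)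
      · exact feas_of_types (by omega) h

end Pool.Agent.V11230.MD
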