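import Pool.Agent.V11230.MD2

/-!
# Majority domination of complete multipartite graphs: the graphs
-/

set_option autoImplicit false

namespace Pool.Agent.V11230.MD

open Finset Classical

/-- the closed neighbourhood of `v` -/
noncomputable def nbhd {V : Type} [Fintype V] (G : SimpleGraph V) (v : V) : Finset V :=
  univ.filter (fun u => u = v ∨ G.Adj v u)

/-- the vertices with `f(N[v]) ≥ 1` -/
noncomputable def good {V : Type} [Fintype V] (G : SimpleGraph V) (f : V → ℤ) : Finset V :=
  univ.filter (fun v => 1 ≤ ∑ u ∈ nbhd G v, f u)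

/-- `f` takes the values 1 and -1, and `f(N[v]) ≥ 1` for at least half of the vertices -/
def IsMDF {V : Type} [Fintype V] (G : SimpleGraph V) (f : V → ℤ) : Prop :=
  (∀ v, f v = 1 ∨ f v = -1) ∧ Fintype.card V ≤ 2 * (good G f).card

/-- the vertices of the complete multipartite graph with the parts `l` -/
abbrev VT (l : List ℕ) : Type := Σ i : Fin l.length, Fin (l.get i)

/-- the complete multipartite graph with the parts `l` -/
abbrev KG (l : List ℕ) : SimpleGraph (VT l) :=
  SimpleGraph.completeMultipartiteGraph (fun i : Fin l.length => Fin (l.get i))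

/-- `G` has a majority dominating function of weight at most `k` -/
def HasMDF {V : Type} [Fintype V] (G : SimpleGraph V) (k : ℕ) : Prop :=
  ∃ f : V → ℤ, IsMDF G f ∧ ∑ v, f v ≤ k

variable {l : List ℕ}

/-- the number of vertices of value 1 in the part `i` -/
noncomputable def pf (f : VT l → ℤ) (i : ℕ) : ℕ :=
  if h : i < l.length then (univ.filter (fun x : Fin (l.get ⟨i, h⟩) => f ⟨⟨i, h⟩, x⟩ = 1)).card
  else 0

theorem pf_fin (f : VT l → ℤ) (i : Fin l.length) :
    pf f i = (univ.filter (fun x : Fin (l.get i) => f ⟨i, x⟩ = 1)).card := by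
  unfold pf
  rw [dif_pos i.2]

theorem pf_le (f : VT l → ℤ) (i : Fin l.length) : pf f i ≤ l.getD i 0 := by
  rw [pf_fin]
  refine (card_le_univ _).trans ?_
  rw [Fintype.card_fin, List.getD_eq_getElem _ _ i.2]
  rfl

theorem getD_fin (i : Fin l.length) : l.getD i 0 = l.get i := by
  rw [List.getD_eq_getElem _ _ i.2]
  rfl

/-- the sum of a part -/
theorem sum_part {f : VT l → ℤ} (hf : ∀ v, f v = 1 ∨ f v = -1) (i : Fin l.length) :
    ∑ x : Fin (l.get i), f ⟨i, x⟩ = 2 * (pf f i : ℤ) - (l.getD i 0 : ℕ) := by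
  have h1 : ∀ x : Fin (l.get i), f ⟨i, x⟩ = 2 * (if f ⟨i, x⟩ = 1 then 1 else 0) - 1 := by
    intro x
    rcases hf ⟨i, x⟩ with h | h
    · rw [if_pos h, h]
      norm_num
    · rw [if_neg (by rw [h]; norm_num), h]
      norm_num
  rw [sum_congr rfl (fun x _ => h1 x), sum_sub_distrib, ← mul_sum, sum_boole, pf_fin, getD_fin]
  simp

theorem sum_all {f : VT l → ℤ} (hf : ∀ v, f v = 1 ∨ f v = -1) : ∑ v, f v = wt l (pf f) := by
  rw [Fintype.sum_sigma, sum_congr rfl (fun i _ => sum_part hf i), sum_sub_distrib, ← mul_sum]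
  unfold wt
  rw [← Nat.cast_sum, ← Nat.cast_sum, ← sum_getD, ← Fin.sum_univ_eq_sum_range,
    ← Fin.sum_univ_eq_sum_range]

theorem card_VT : Fintype.card (VT l) = l.sum := by
  rw [Fintype.card_sigma, ← sum_getD, ← Fin.sum_univ_eq_sum_range]
  exact sum_congr rfl fun i _ => by rw [Fintype.card_fin, getD_fin]

/-- the sum over a closed neighbourhood -/
theorem sum_nbhd {f : VT l → ℤ} (hf : ∀ v, f v = 1 ∨ f v = -1) (i : Fin l.length)
    (x : Fin (l.get i)) :
    ∑ u ∈ nbhd (KG l) ⟨i, x⟩, f u =
      wt l (pf f) - (2 * (pf f i : ℤ) - (l.getD i 0 : ℕ)) + f ⟨i, x⟩ := by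
  unfold nbhd
  rw [sum_filter]
  trans ∑ u : VT l, (f u - (if u.1 = i then f u else 0) + (if u = ⟨i, x⟩ then f u else 0))
  · refine sum_congr rfl fun u _ => ?_
    by_cases hu : u = ⟨i, x⟩
    · have hi : u.1 = i := by rw [hu]
      rw [if_pos (Or.inl hu), if_pos hi, if_pos hu]
      ring
    · by_cases hi : u.1 = i
      · have hna : ¬ (KG l).Adj ⟨i, x⟩ u := fun h => h hi.symm
        rw [if_neg (by tauto), if_pos hi, if_neg hu]
        ring
      · have ha : (KG l).Adj ⟨i, x⟩ u := fun h => hi h.symm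
        rw [if_pos (Or.inr ha), if_neg hi, if_neg hu]
        ring
  rw [sum_add_distrib, sum_sub_distrib, sum_all hf, sum_ite_eq' univ, if_pos (mem_univ _)]
  congr 2
  rw [Fintype.sum_sigma, ← sum_part hf i]
  rw [Finset.sum_eq_single i]
  · simp
  · intro j _ hj
    simp [hj]
  · intro h
    exact absurd (mem_univ _) h

/-- the number of the good vertices -/
theorem card_good {f : VT l → ℤ} (hf : ∀ v, f v = 1 ∨ f v = -1) :
    (good (KG l) f).card =
      ∑ i ∈ range l.length, cntI (wt l (pf f)) (l.getD i 0) (pf f i) := by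
  unfold good
  rw [card_filter, Fintype.sum_sigma, ← Fin.sum_univ_eq_sum_range (fun i => cntI (wt l (pf f))
    (l.getD i 0) (pf f i))]
  refine sum_congr rfl fun i _ => ?_
  rw [sum_congr rfl (fun x _ => by rw [sum_nbhd hf i x])]
  set a : ℤ := 2 * (pf f i : ℤ) - (l.getD i 0 : ℕ) with ha
  set w := wt l (pf f) with hw
  unfold cntI
  rw [← ha]
  by_cases c0 : a + 2 ≤ w
  · rw [if_pos c0, sum_congr rfl (fun x _ => if_pos (by
      rcases hf ⟨i, x⟩ with h | h <;> rw [h] <;> omega))]
    rw [sum_const, card_univ, Fintype.card_fin, smul_eq_mul, mul_one, getD_fin]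
  · rw [if_neg c0]
    by_cases c1 : a ≤ w
    · rw [if_pos c1, pf_fin, card_filter]
      refine sum_congr rfl fun x _ => ?_
      rcases hf ⟨i, x⟩ with h | h
      · rw [h, if_pos (by omega), if_pos rfl]
      · rw [h, if_neg (by omega), if_neg (by norm_num)]
    · rw [if_neg c1]
      refine sum_eq_zero fun x _ => if_neg ?_
      rcases hf ⟨i, x⟩ with h | h <;> rw [h] <;> omega

/-- **The graphs and the numbers.** -/
theorem hasMDF_iff {k : ℕ} : HasMDF (KG l) k ↔ Feas l k := by
  constructor
  · rintro ⟨f, ⟨hf, hc⟩, hk⟩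
    refine ⟨pf f, fun i hi => pf_le f ⟨i, hi⟩, ?_, ?_⟩
    · rw [← sum_all hf]
      exact hk
    · rw [card_VT, card_good hf] at hc
      exact hc
  · rintro ⟨p, hp, hk, hc⟩
    set f : VT l → ℤ := fun v => if (v.2 : ℕ) < p v.1 then 1 else -1 with hfd
    have hf : ∀ v, f v = 1 ∨ f v = -1 := by
      intro v
      rw [hfd]
      dsimp only
      split_ifs
      · exact Or.inl rfl
      · exact Or.inr rfl
    have hpf : ∀ i < l.length, pf f i = p i := by
      intro i hi
      have h1 := pf_fin f ⟨i, hi⟩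
      have h2 := hp i hi
      rw [getD_fin (l := l) ⟨i, hi⟩] at h2
      dsimp only at h1
      rw [h1]
      have e : (univ.filter (fun x : Fin (l.get ⟨i, hi⟩) => f ⟨⟨i, hi⟩, x⟩ = 1)) =
          univ.filter (fun x : Fin (l.get ⟨i, hi⟩) => (x : ℕ) < p i) := by
        ext x
        simp only [mem_filter, mem_univ, true_and, hfd]
        constructor
        · intro h
          by_contra hne
          rw [if_neg hne] at h
          norm_num at h
        · intro h
          rw [if_pos h]
      rw [e, Fin.card_filter_val_lt]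
      exact min_eq_right h2
    have hw : wt l (pf f) = wt l p := by
      unfold wt
      rw [sum_congr rfl (fun i hi => hpf i (mem_range.1 hi))]
    refine ⟨f, ⟨hf, ?_⟩, ?_⟩
    · rw [card_VT, card_good hf, hw,
        sum_congr rfl (fun i hi => by rw [hpf i (mem_range.1 hi)])]
      exact hc
    · rw [sum_all hf, hw]
      exact hk

end Pool.Agent.V11230.MD
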