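import Pool.Agent.V11230.MD3
import Pool.Agent.NPC.Dec

/-!
# Majority domination of complete multipartite graphs: polynomial time
-/

set_option autoImplicit false

namespace Pool.Agent.NPC.V11230.MDP

open Pool.Agent.V11230.MD Pool.Agent.NPC

section

variable {α : Type} [TEnc α]

theorem sz_filter_le {β : Type} [TEnc β] (p : β → Bool) (l : List β) : sz (l.filter p) ≤ sz l := by
  induction l with
  | nil => simp
  | cons b l ih =>
    rw [List.filter_cons]
    split_ifs <;> simp <;> omega

/-- the box of the possible pairs -/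
def box (T U : ℕ) : List (ℕ × ℕ) :=
  (List.range (T + 1)).flatMap (fun x => (List.range (U + 1)).map (fun y => (x, y)))

/-- the test of a step -/
def tst (T U : ℕ) (o R : List (ℕ × ℕ)) (s : ℕ × ℕ) : Bool :=
  R.any (fun r => o.any (fun q => decide (s = (min (r.1 + q.1) T, min (r.2 + q.2) U))))

theorem stepD_eq (T U : ℕ) (o R : List (ℕ × ℕ)) : stepD T U o R = (box T U).filter (tst T U o R) :=
  rfl

theorem poly_box {T U : α → ℕ} (hT : UPoly T) (hU : UPoly U) : Poly (fun a => box (T a) (U a)) := by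
  unfold box
  refine Poly.flatMap (F := fun a x => (List.range (U a + 1)).map (fun y => (x, y)))
    (UPoly.range (UPoly.add hT (UPoly.const 1))) ?_
  refine Poly.map (F := fun (p : α × ℕ) y => (p.2, y))
    (UPoly.range ((UPoly.add hU (UPoly.const 1)).comp (Poly.fst Poly.id))) ?_
  exact Poly.pair (Poly.snd (Poly.fst Poly.id)) (Poly.snd Poly.id)

theorem poly_tst {T U : α → ℕ} {o R : α → List (ℕ × ℕ)} {s : α → ℕ × ℕ} (hT : Poly T)
    (hU : Poly U) (ho : Poly o) (hR : Poly R) (hs : Poly s) :
    Poly (fun a => tst (T a) (U a) (o a) (R a) (s a)) := by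
  unfold tst
  refine Poly.any (p := fun a r => (o a).any (fun q => decide (s a =
    (min (r.1 + q.1) (T a), min (r.2 + q.2) (U a))))) hR ?_
  refine Poly.any (p := fun (x : α × ℕ × ℕ) q => decide (s x.1 =
    (min (x.2.1 + q.1) (T x.1), min (x.2.2 + q.2) (U x.1)))) (ho.comp (Poly.fst Poly.id)) ?_
  have hf : Poly (fun x : (α × ℕ × ℕ) × ℕ × ℕ => x.1.1) := Poly.fst (Poly.fst Poly.id)
  have hr : Poly (fun x : (α × ℕ × ℕ) × ℕ × ℕ => x.1.2) := Poly.snd (Poly.fst Poly.id)
  have hq : Poly (fun x : (α × ℕ × ℕ) × ℕ × ℕ => x.2) := Poly.snd Poly.id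
  exact Poly.decide_eq (hs.comp hf) (Poly.pair
    (Poly.min (Poly.add (Poly.fst hr) (Poly.fst hq)) (hT.comp hf))
    (Poly.min (Poly.add (Poly.snd hr) (Poly.snd hq)) (hU.comp hf)))

theorem poly_opts {K n : α → ℕ} (hK : Poly K) (hn : Poly n) :
    Poly (fun a => opts (K a) (n a)) := by
  have hm := Poly.mod hn (Poly.const 2)
  unfold opts
  refine Poly.append ?_ (Poly.append ?_ ?_)
  · exact Poly.ite (Poly.decide_lt hn hK) (Poly.cons (Poly.pair (Poly.add hn (Poly.const 3))
      (Poly.sub hK hn)) (Poly.const [])) (Poly.const [])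
  · exact Poly.cons (Poly.pair (Poly.sub (Poly.const 3) hm) (Poly.sub hK hm)) (Poly.const [])
  · exact Poly.ite (Poly.decide_le (Poly.const 2) hn) (Poly.cons (Poly.pair
      (Poly.sub (Poly.const 1) hm) (Poly.add hK hn)) (Poly.const [])) (Poly.const [])

theorem poly_stepD {T U : α → ℕ} {o R : α → List (ℕ × ℕ)} (hT : UPoly T) (hU : UPoly U)
    (ho : Poly o) (hR : Poly R) : Poly (fun a => stepD (T a) (U a) (o a) (R a)) := by
  have h := Poly.filter (l := fun a => box (T a) (U a))
    (p := fun a => tst (T a) (U a) (o a) (R a)) (poly_box hT hU)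
    (poly_tst (α := α × ℕ × ℕ) (T := fun x => T x.1) (U := fun x => U x.1) (o := fun x => o x.1)
      (R := fun x => R x.1) (s := fun x => x.2) (hT.toPoly.comp (Poly.fst Poly.id))
      (hU.toPoly.comp (Poly.fst Poly.id)) (ho.comp (Poly.fst Poly.id))
      (hR.comp (Poly.fst Poly.id)) (Poly.snd Poly.id))
  exact h

end

theorem uT : UPoly (fun l : List ℕ => 3 * l.length) :=
  UPoly.mul (UPoly.const 3) (UPoly.length Poly.id)

theorem uU : UPoly (fun l : List ℕ => 3 * l.length * l.length) :=
  UPoly.mul uT (UPoly.length Poly.id)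

theorem poly_reach : Poly (fun l : List ℕ =>
    reach (3 * l.length) (3 * l.length * l.length) (opts (3 * l.length)) l) := by
  obtain ⟨r, hr⟩ := (poly_box uT uU).sz_le
  unfold reach
  refine Poly.foldl (l := fun l : List ℕ => l) (s := fun _ => ([(0, 0)] : List (ℕ × ℕ)))
    (F := fun (l : List ℕ) R n => stepD (3 * l.length) (3 * l.length * l.length)
      (opts (3 * l.length) n) R) Poly.id (Poly.const _) ?_ (r + Polynomial.C (sz [((0 : ℕ), (0 : ℕ))]))
      ?_
  · have hl : Poly (fun p : List ℕ × List (ℕ × ℕ) × ℕ => p.1) := Poly.fst Poly.id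
    exact poly_stepD (α := List ℕ × List (ℕ × ℕ) × ℕ) (uT.comp hl) (uU.comp hl)
      (poly_opts (uT.comp hl).toPoly (Poly.snd (Poly.snd Poly.id))) (Poly.fst (Poly.snd Poly.id))
  · intro l k hk
    simp only [Polynomial.eval_add, Polynomial.eval_C]
    rcases List.eq_nil_or_concat' (l.take k) with h | ⟨l', n, h⟩
    · rw [h]
      exact Nat.le_add_left _ _
    · rw [h, List.foldl_append, List.foldl_cons, List.foldl_nil, stepD_eq]
      exact (sz_filter_le _ _).trans ((hr l).trans (Nat.le_add_right _ _))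

theorem poly_dp : Poly dp := by
  unfold dp
  exact (Poly.decide_mem (Poly.pair uT.toPoly uU.toPoly) poly_reach).congr fun l =>
    decide_eq_decide.2 Iff.rfl

theorem poly_pivot : Poly pivot := by
  unfold pivot
  have h1 : Poly (fun l : List ℕ => (l.map (fun n => if 2 ≤ n then 0 else 1)).sum) :=
    Poly.sum (Poly.map (F := fun (_ : List ℕ) n => if 2 ≤ n then 0 else 1) Poly.id
      (Poly.ite (Poly.decide_le (Poly.const 2) (Poly.snd Poly.id)) (Poly.const 0) (Poly.const 1)))
  have h2 : Poly (fun l : List ℕ => (l.map (fun n => if 2 ≤ n then n else 0)).sum) :=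
    Poly.sum (Poly.map (F := fun (_ : List ℕ) n => if 2 ≤ n then n else 0) Poly.id
      (Poly.ite (Poly.decide_le (Poly.const 2) (Poly.snd Poly.id)) (Poly.snd Poly.id)
        (Poly.const 0)))
  refine Poly.any (p := fun (l : List ℕ) n => decide (3 * l.length ≤ n) && decide (2 * n +
    (l.map (fun n => if 2 ≤ n then 0 else 1)).sum ≤ (l.map (fun n => if 2 ≤ n then n else 0)).sum))
    Poly.id ?_
  have hf : Poly (fun x : List ℕ × ℕ => x.1) := Poly.fst Poly.id
  exact Poly.and (Poly.decide_le (uT.toPoly.comp hf) (Poly.snd Poly.id))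
    (Poly.decide_le (Poly.add (Poly.mul (Poly.const 2) (Poly.snd Poly.id)) (h1.comp hf))
      (h2.comp hf))

theorem poly_dec : Poly dec := by
  have hf : Poly (fun x : List ℕ × ℕ => x.1) := Poly.fst Poly.id
  unfold dec
  exact Poly.or (Poly.or (Poly.decide_le (Poly.const 2) (Poly.snd Poly.id))
    (Poly.decide_eq (Poly.mod (Poly.sum hf) (Poly.const 2)) (Poly.const 1)))
    (Poly.or (poly_dp.comp hf) (poly_pivot.comp hf))

/-- the instances of the problem: the sizes of the parts and the bound on the weight are positive -/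
def Valid (I : List ℕ × ℕ) : Prop := (I.1 ≠ [] ∧ ∀ n ∈ I.1, 1 ≤ n) ∧ 1 ≤ I.2

/-- the test of the validity -/
def validB (I : List ℕ × ℕ) : Bool :=
  (!(I.1.isEmpty) && I.1.all (fun n => decide (1 ≤ n))) && decide (1 ≤ I.2)

theorem validB_iff (I : List ℕ × ℕ) : validB I = true ↔ Valid I := by
  unfold validB Valid
  simp

theorem poly_validB : Poly validB := by
  have hf : Poly (fun x : List ℕ × ℕ => x.1) := Poly.fst Poly.id
  unfold validB
  exact Poly.and (Poly.and (Poly.not (Poly.isEmpty hf))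
    (Poly.all (p := fun (_ : List ℕ × ℕ) n => decide (1 ≤ n)) hf
      (Poly.decide_le (Poly.const 1) (Poly.snd Poly.id))))
    (Poly.decide_le (Poly.const 1) (Poly.snd Poly.id))

end Pool.Agent.NPC.V11230.MDP
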