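import Mathlib
import Pool.Agent.H622R2.MatGraph

/-!
# Row permutations that make a matrix symmetric: the construction
-/

set_option autoImplicit false

namespace Pool.Agent.V11230.MS

open Finset

/-- labels: kind, two parameters, and a value -/
abbrev Lab : Type := ℕ × ℕ × ℕ × ℕ

/-- the parameters: the number of the groups and the conflicts -/
structure Par where
  /-- the number of the groups of three elements -/
  m : ℕ
  /-- the conflicts -/
  cf : ℕ → ℕ → Bool

/-- the coordinates of a triple of even parity -/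
def tr (j y : ℕ) : ℕ := if j = 0 then y / 2 else if j = 1 then y % 2 else (y / 2 + y % 2) % 2

/-- the twist -/
def dd (j : ℕ) : ℕ := if j = 0 then 1 else 0

namespace Par

variable (P : Par)

/-- the number of the elements -/
def N : ℕ := 3 * P.m

/-- the main labels -/
def main : List Lab :=
  (List.product (List.range 4) (List.product (List.range P.N)
    (List.product (List.range P.N) (List.range 4)))).filter
    (fun x => !(decide (x.1 = 0)) || decide (x.2.2.2 < 2))

/-- the base for the padding -/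
def B : ℕ := P.main.length + 1

/-- the number of a class -/
def cn (κ p q : ℕ) : ℕ := (κ * P.N + p) * P.N + q + 1

/-- the weight of a class -/
def w (κ p q : ℕ) : ℕ := P.cn κ p q * P.B

/-- the size of the padding -/
def NZ : ℕ := 4 * P.N * P.N * P.B

/-- the labels for the padding -/
def zs : List Lab := (List.range P.NZ).map (fun l => (4, l, 0, 0))

/-- the labels -/
def vs : List Lab := P.main ++ P.zs

/-- the relation between labels of increasing kinds -/
def S (x y : Lab) : Bool :=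
  if y.1 = 4 then decide (x.1 < 4) && decide (y.2.1 < P.w x.1 x.2.1 x.2.2.1)
  else if x.1 = 0 ∧ y.1 = 1 then
    decide ((x.2.2.1 = 0 ∧ y.2.2.1 = 0) ∧ x.2.1 / 3 = y.2.1) &&
      decide (x.2.2.2 = tr (x.2.1 % 3) y.2.2.2)
  else if x.1 = 0 ∧ y.1 = 2 then
    (decide (x.2.2.1 = 0 ∧ x.2.1 = y.2.1) && P.cf y.2.1 y.2.2.1) &&
      decide (x.2.2.2 = y.2.2.2 % 2)
  else if x.1 = 0 ∧ y.1 = 3 then
    (decide (x.2.2.1 = 0 ∧ x.2.1 = y.2.2.1) && P.cf y.2.1 y.2.2.1) &&
      decide (x.2.2.2 = y.2.2.2 % 2)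
  else if x.1 = 2 ∧ y.1 = 2 then decide (x = y)
  else if x.1 = 2 ∧ y.1 = 3 then decide (x.2.1 = y.2.1 ∧ x.2.2.1 = y.2.2.1) &&
      decide (x.2.2.2 = y.2.2.2 ∨ x.2.2.2 = (y.2.2.2 + 1) % 4)
  else false

/-- the twisted relation -/
def T (x y : Lab) : Bool :=
  decide ((x.2.2.1 = 0 ∧ y.2.2.1 = 0) ∧ x.2.1 / 3 = y.2.1) &&
    decide ((tr (x.2.1 % 3) y.2.2.2 + x.2.2.2) % 2 = dd (x.2.1 % 3))

/-- the entries of the matrix -/
def A (x y : Lab) : Bool :=
  if x.1 ≤ y.1 then P.S x y else if x.1 = 1 ∧ y.1 = 0 then T y x else P.S y x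

/-- there is a permutation of the labels that makes the matrix symmetric -/
def Sol (P : Par) : Prop := ∃ f g : Lab → Lab,
  (∀ x ∈ P.vs, f x ∈ P.vs ∧ g x ∈ P.vs ∧ g (f x) = x ∧ f (g x) = x) ∧
    ∀ x ∈ P.vs, ∀ y ∈ P.vs, P.A (f x) y = P.A (f y) x

/-- the selection problem -/
def Sel (P : Par) : Prop := ∃ a : ℕ → ℕ, (∀ p, a p < 2) ∧
  (∀ i < P.m, (a (3 * i) + a (3 * i + 1) + a (3 * i + 2)) % 2 = 1) ∧
    ∀ p < P.N, ∀ q < P.N, P.cf p q = true → ¬ (a p = 1 ∧ a q = 1)

variable {P}

theorem mem_main {κ p q v : ℕ} : (κ, p, q, v) ∈ P.main ↔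
    (κ < 4 ∧ p < P.N ∧ q < P.N ∧ v < 4) ∧ (κ = 0 → v < 2) := by
  unfold main
  rw [List.mem_filter, List.pair_mem_product, List.pair_mem_product, List.pair_mem_product,
    List.mem_range, List.mem_range, List.mem_range, List.mem_range, Bool.or_eq_true,
    Bool.not_eq_true', decide_eq_false_iff_not, decide_eq_true_iff]
  constructor
  · rintro ⟨h1, h2⟩
    exact ⟨h1, fun h => h2.resolve_left (fun h' => h' h)⟩
  · rintro ⟨h1, h2⟩
    refine ⟨h1, ?_⟩
    by_cases h : κ = 0
    · exact Or.inr (h2 h)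
    · exact Or.inl h

theorem mem_zs {x : Lab} : x ∈ P.zs ↔ ∃ l < P.NZ, x = (4, l, 0, 0) := by
  unfold zs
  rw [List.mem_map]
  constructor
  · rintro ⟨l, hl, rfl⟩
    exact ⟨l, List.mem_range.1 hl, rfl⟩
  · rintro ⟨l, hl, rfl⟩
    exact ⟨l, List.mem_range.2 hl, rfl⟩

theorem mem_vs {x : Lab} : x ∈ P.vs ↔ x ∈ P.main ∨ x ∈ P.zs := by
  unfold vs
  exact List.mem_append

theorem main_lt {x : Lab} (h : x ∈ P.main) : x.1 < 4 := by
  obtain ⟨κ, p, q, v⟩ := x
  exact (mem_main.1 h).1.1

theorem nodup_vs : P.vs.Nodup := by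
  unfold vs
  refine List.Nodup.append ?_ ?_ ?_
  · unfold main
    refine List.Nodup.filter _ ?_
    exact List.nodup_range.product (List.nodup_range.product
      (List.nodup_range.product List.nodup_range))
  · unfold zs
    refine List.Nodup.map ?_ List.nodup_range
    intro a b h
    exact congrArg (fun x : Lab => x.2.1) h
  · intro x h1 h2
    have h3 := main_lt h1
    obtain ⟨l, _, rfl⟩ := mem_zs.1 h2
    exact absurd h3 (by simp)

/-! ### The classes are preserved -/

theorem w_le {κ p q : ℕ} (h1 : κ < 4) (h2 : p < P.N) (h3 : q < P.N) : P.w κ p q ≤ P.NZ := by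
  unfold w NZ cn
  refine Nat.mul_le_mul_right _ ?_
  have e1 : κ * P.N + p + 1 ≤ 4 * P.N := by
    have : (κ + 1) * P.N ≤ 4 * P.N := Nat.mul_le_mul_right _ h1
    rw [Nat.succ_mul] at this
    omega
  have e2 : (κ * P.N + p + 1) * P.N ≤ 4 * P.N * P.N := Nat.mul_le_mul_right _ e1
  rw [Nat.succ_mul] at e2
  omega

theorem cn_inj {κ p q κ' p' q' : ℕ} (h2 : p < P.N) (h3 : q < P.N) (h2' : p' < P.N)
    (h3' : q' < P.N) (h : P.cn κ p q = P.cn κ' p' q') : κ = κ' ∧ p = p' ∧ q = q' := by
  unfold cn at h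
  have key : ∀ {a s a' s' W : ℕ}, s < W → s' < W → a * W + s = a' * W + s' → a = a' ∧ s = s' := by
    intro a s a' s' W hs hs' he
    have e1 : (a * W + s) / W = a := by
      rw [Nat.add_comm, Nat.add_mul_div_right _ _ (by omega), Nat.div_eq_of_lt hs, Nat.zero_add]
    have e2 : (a' * W + s') / W = a' := by
      rw [Nat.add_comm, Nat.add_mul_div_right _ _ (by omega), Nat.div_eq_of_lt hs', Nat.zero_add]
    have e3 : a = a' := by rw [← e1, ← e2, he]
    subst e3
    exact ⟨rfl, by omega⟩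
  obtain ⟨h4, h5⟩ := key h3 h3' (Nat.succ.inj h)
  obtain ⟨h6, h7⟩ := key h2 h2' h4
  exact ⟨h6, h7, h5⟩

theorem A_main_z {κ p q v l : ℕ} (h : κ < 4) :
    P.A (κ, p, q, v) (4, l, 0, 0) = decide (l < P.w κ p q) := by
  unfold A S
  rw [if_pos (by exact h.le), if_pos rfl]
  simp [h]

theorem A_z_main {κ p q v l : ℕ} (h : κ < 4) :
    P.A (4, l, 0, 0) (κ, p, q, v) = decide (l < P.w κ p q) := by
  unfold A S
  rw [if_neg (by simpa using h), if_neg (by simp), if_pos rfl]
  simp [h]

theorem A_z_z {l l' : ℕ} : P.A (4, l, 0, 0) (4, l', 0, 0) = false := by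
  unfold A S
  simp

/-- the number of the labels with a property -/
theorem card_split (p : Lab → Prop) [DecidablePred p] : (P.vs.toFinset.filter p).card =
    (P.main.toFinset.filter p).card + (P.zs.toFinset.filter p).card := by
  have h : P.vs.toFinset = P.main.toFinset ∪ P.zs.toFinset := by
    unfold vs
    rw [List.toFinset_append]
  rw [h, filter_union, card_union_of_disjoint]
  rw [disjoint_left]
  intro x h1 h2
  have h3 := main_lt (List.mem_toFinset.1 (mem_filter.1 h1).1)
  obtain ⟨l, _, rfl⟩ := mem_zs.1 (List.mem_toFinset.1 (mem_filter.1 h2).1)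
  exact absurd h3 (by simp)

theorem card_main_lt (p : Lab → Prop) [DecidablePred p] :
    (P.main.toFinset.filter p).card < P.B := by
  unfold B
  have h1 := card_filter_le P.main.toFinset p
  have h2 := List.toFinset_card_le P.main
  omega

theorem card_zs {κ p q v : ℕ} (h1 : κ < 4) (h2 : p < P.N) (h3 : q < P.N) :
    (P.zs.toFinset.filter (fun y => P.A (κ, p, q, v) y = true)).card = P.w κ p q ∧
      (P.zs.toFinset.filter (fun y => P.A y (κ, p, q, v) = true)).card = P.w κ p q := by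
  have hw := w_le h1 h2 h3
  have hinj : Function.Injective (fun l : ℕ => ((4, l, 0, 0) : Lab)) := by
    intro a b h
    exact congrArg (fun x : Lab => x.2.1) h
  constructor
  · rw [← card_range (P.w κ p q), ← card_image_of_injective (range (P.w κ p q)) hinj]
    congr 1
    ext x
    rw [mem_filter, List.mem_toFinset, mem_zs, mem_image]
    constructor
    · rintro ⟨⟨l, hl, rfl⟩, h⟩
      rw [A_main_z h1, decide_eq_true_iff] at h
      exact ⟨l, mem_range.2 h, rfl⟩
    · rintro ⟨l, hl, rfl⟩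
      have hl := mem_range.1 hl
      refine ⟨⟨l, by omega, rfl⟩, ?_⟩
      rw [A_main_z h1, decide_eq_true_iff]
      exact hl
  · rw [← card_range (P.w κ p q), ← card_image_of_injective (range (P.w κ p q)) hinj]
    congr 1
    ext x
    rw [mem_filter, List.mem_toFinset, mem_zs, mem_image]
    constructor
    · rintro ⟨⟨l, hl, rfl⟩, h⟩
      rw [A_z_main h1, decide_eq_true_iff] at h
      exact ⟨l, mem_range.2 h, rfl⟩
    · rintro ⟨l, hl, rfl⟩
      have hl := mem_range.1 hl
      refine ⟨⟨l, by omega, rfl⟩, ?_⟩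
      rw [A_z_main h1, decide_eq_true_iff]
      exact hl

variable {f g : Lab → Lab}
  (hfg : ∀ x ∈ P.vs, f x ∈ P.vs ∧ g x ∈ P.vs ∧ g (f x) = x ∧ f (g x) = x)
  (hA : ∀ x ∈ P.vs, ∀ y ∈ P.vs, P.A (f x) y = P.A (f y) x)
include hfg hA

theorem row_col {x : Lab} (hx : x ∈ P.vs) :
    (P.vs.toFinset.filter (fun y => P.A (f x) y = true)).card =
      (P.vs.toFinset.filter (fun y => P.A y x = true)).card := by
  refine card_nbij' f g ?_ ?_ ?_ ?_
  · intro y hy
    rw [mem_coe, mem_filter, List.mem_toFinset] at hy ⊢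
    exact ⟨(hfg y hy.1).1, by rw [← hA x hx y hy.1]; exact hy.2⟩
  · intro y hy
    rw [mem_coe, mem_filter, List.mem_toFinset] at hy ⊢
    refine ⟨(hfg y hy.1).2.1, ?_⟩
    rw [hA x hx _ (hfg y hy.1).2.1, (hfg y hy.1).2.2.2]
    exact hy.2
  · intro y hy
    rw [mem_coe, mem_filter, List.mem_toFinset] at hy
    exact (hfg y hy.1).2.2.1
  · intro y hy
    rw [mem_coe, mem_filter, List.mem_toFinset] at hy
    exact (hfg y hy.1).2.2.2

/-- the classes are preserved -/
theorem keep {κ p q v : ℕ} (hx : (κ, p, q, v) ∈ P.main) :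
    ∃ v', f (κ, p, q, v) = (κ, p, q, v') ∧ (κ, p, q, v') ∈ P.main := by
  have hx' : (κ, p, q, v) ∈ P.vs := mem_vs.2 (Or.inl hx)
  obtain ⟨⟨m1, m2, m3, _⟩, _⟩ := mem_main.1 hx
  have h1 := row_col hfg hA hx'
  rw [card_split, card_split, (card_zs m1 m2 m3).2] at h1
  have h2 := card_main_lt (P := P) (fun y => P.A (f (κ, p, q, v)) y = true)
  have h3 := card_main_lt (P := P) (fun y => P.A y (κ, p, q, v) = true)
  have h4 : P.B ≤ P.w κ p q := by
    unfold w
    exact Nat.le_mul_of_pos_left _ (by unfold cn; omega)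
  rcases mem_vs.1 (hfg _ hx').1 with h5 | h5
  · rcases hf : f (κ, p, q, v) with ⟨κ', p', q', v'⟩
    rw [hf] at h1 h2 h5
    obtain ⟨⟨n1, n2, n3, _⟩, _⟩ := mem_main.1 h5
    rw [(card_zs n1 n2 n3).1] at h1
    have h6 : P.cn κ' p' q' = P.cn κ p q := by
      unfold w at h1
      set e := (P.main.toFinset.filter (fun y => P.A (κ', p', q', v') y = true)).card
      set e' := (P.main.toFinset.filter (fun y => P.A y (κ, p, q, v) = true)).card
      have a1 : (e + P.cn κ' p' q' * P.B) / P.B = P.cn κ' p' q' := by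
        rw [Nat.add_mul_div_right _ _ (by omega), Nat.div_eq_of_lt h2, Nat.zero_add]
      have a2 : (e' + P.cn κ p q * P.B) / P.B = P.cn κ p q := by
        rw [Nat.add_mul_div_right _ _ (by omega), Nat.div_eq_of_lt h3, Nat.zero_add]
      rw [← a1, ← a2, h1]
    obtain ⟨rfl, rfl, rfl⟩ := cn_inj n2 n3 m2 m3 h6
    exact ⟨v', rfl, h5⟩
  · exfalso
    obtain ⟨l, _, hl⟩ := mem_zs.1 h5
    rw [hl] at h1 h2
    have h6 : (P.zs.toFinset.filter (fun y => P.A (4, l, 0, 0) y = true)).card = 0 := by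
      rw [card_eq_zero, filter_eq_empty_iff]
      intro y hy
      obtain ⟨l', _, rfl⟩ := mem_zs.1 (List.mem_toFinset.1 hy)
      rw [A_z_z]
      simp
    omega

end Par

end Pool.Agent.V11230.MS
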