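import Pool.Agent.V11230.MS1

/-!
# Row permutations that make a matrix symmetric: correctness of the construction
-/

set_option autoImplicit false

namespace Pool.Agent.V11230.MS

open Finset

namespace Par

variable {P : Par}

theorem A01 {p q v p' q' v' : ℕ} : P.A (0, p, q, v) (1, p', q', v') =
    (decide ((q = 0 ∧ q' = 0) ∧ p / 3 = p') && decide (v = tr (p % 3) v')) := by
  unfold A S
  simp

theorem A10 {p q v p' q' v' : ℕ} : P.A (1, p', q', v') (0, p, q, v) =
    (decide ((q = 0 ∧ q' = 0) ∧ p / 3 = p') &&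
      decide ((tr (p % 3) v' + v) % 2 = dd (p % 3))) := by
  unfold A T
  simp

theorem A02 {p q v p' q' v' : ℕ} : P.A (0, p, q, v) (2, p', q', v') =
    ((decide (q = 0 ∧ p = p') && P.cf p' q') && decide (v = v' % 2)) := by
  unfold A S
  simp

theorem A20 {p q v p' q' v' : ℕ} : P.A (2, p', q', v') (0, p, q, v) =
    ((decide (q = 0 ∧ p = p') && P.cf p' q') && decide (v = v' % 2)) := by
  unfold A S
  simp

theorem A03 {p q v p' q' v' : ℕ} : P.A (0, p, q, v) (3, p', q', v') =
    ((decide (q = 0 ∧ p = q') && P.cf p' q') && decide (v = v' % 2)) := by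
  unfold A S
  simp

theorem A30 {p q v p' q' v' : ℕ} : P.A (3, p', q', v') (0, p, q, v) =
    ((decide (q = 0 ∧ p = q') && P.cf p' q') && decide (v = v' % 2)) := by
  unfold A S
  simp

theorem A22 {p q v p' q' v' : ℕ} : P.A (2, p, q, v) (2, p', q', v') =
    decide (((2, p, q, v) : Lab) = (2, p', q', v')) := by
  unfold A S
  simp

theorem A23 {p q v p' q' v' : ℕ} : P.A (2, p, q, v) (3, p', q', v') =
    (decide (p = p' ∧ q = q') && decide (v = v' ∨ v = (v' + 1) % 4)) := by
  unfold A S
  simp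

theorem A32 {p q v p' q' v' : ℕ} : P.A (3, p', q', v') (2, p, q, v) =
    (decide (p = p' ∧ q = q') && decide (v = v' ∨ v = (v' + 1) % 4)) := by
  unfold A S
  simp

theorem A00 {p q v p' q' v' : ℕ} : P.A (0, p, q, v) (0, p', q', v') = false := by
  unfold A S
  simp

theorem A11 {p q v p' q' v' : ℕ} : P.A (1, p, q, v) (1, p', q', v') = false := by
  unfold A S
  simp

theorem A33 {p q v p' q' v' : ℕ} : P.A (3, p, q, v) (3, p', q', v') = false := by
  unfold A S
  simp

theorem A12 {p q v p' q' v' : ℕ} : P.A (1, p, q, v) (2, p', q', v') = false := by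
  unfold A S
  simp

theorem A21 {p q v p' q' v' : ℕ} : P.A (2, p', q', v') (1, p, q, v) = false := by
  unfold A S
  simp

theorem A13 {p q v p' q' v' : ℕ} : P.A (1, p, q, v) (3, p', q', v') = false := by
  unfold A S
  simp

theorem A31 {p q v p' q' v' : ℕ} : P.A (3, p', q', v') (1, p, q, v) = false := by
  unfold A S
  simp

/-- **From a permutation to a selection.** -/
theorem sel_of_sol (h : Sol P) : Sel P := by
  obtain ⟨f, g, hfg, hA⟩ := h
  have hN : P.N = 3 * P.m := rfl
  -- the values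
  set F : ℕ → ℕ → ℕ → ℕ → ℕ := fun κ p q v => (f (κ, p, q, v)).2.2.2 with hF
  have hkeep : ∀ {κ p q v : ℕ}, (κ, p, q, v) ∈ P.main → f (κ, p, q, v) = (κ, p, q, F κ p q v) ∧
      (κ, p, q, F κ p q v) ∈ P.main := by
    intro κ p q v hx
    obtain ⟨v', h1, h2⟩ := keep hfg hA hx
    have e : F κ p q v = v' := by
      rw [hF]
      change (f (κ, p, q, v)).2.2.2 = v'
      rw [h1]
    rw [e]
    exact ⟨h1, h2⟩
  have hmain : ∀ {κ p q v : ℕ}, κ < 4 → p < P.N → q < P.N → v < 4 → (κ = 0 → v < 2) →
      (κ, p, q, v) ∈ P.main := fun h1 h2 h3 h4 h5 => mem_main.2 ⟨⟨h1, h2, h3, h4⟩, h5⟩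
  have hvs : ∀ {x : Lab}, x ∈ P.main → x ∈ P.vs := fun h => mem_vs.2 (Or.inl h)
  have hK2 : ∀ {p v : ℕ}, p < P.N → v < 2 → F 0 p 0 v < 2 := by
    intro p v hp hv
    have h1 := (hkeep (hmain (κ := 0) (p := p) (q := 0) (v := v) (by omega) hp (by omega)
      (by omega) (fun _ => hv))).2
    exact (mem_main.1 h1).2 rfl
  have hK1 : ∀ {p : ℕ}, p < P.N → F 0 p 0 1 = 1 - F 0 p 0 0 := by
    intro p hp
    have m0 := hmain (κ := 0) (p := p) (q := 0) (v := 0) (by omega) hp (by omega)
      (by omega) (fun _ => by omega)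
    have m1 := hmain (κ := 0) (p := p) (q := 0) (v := 1) (by omega) hp (by omega)
      (by omega) (fun _ => by omega)
    have l0 := hK2 (v := 0) hp (by omega)
    have l1 := hK2 (v := 1) hp (by omega)
    have hne : F 0 p 0 0 ≠ F 0 p 0 1 := by
      intro he
      have e1 := (hkeep m0).1
      have e2 := (hkeep m1).1
      rw [he, ← e2] at e1
      have e3 := congrArg g e1
      rw [(hfg _ (hvs m0)).2.2.1, (hfg _ (hvs m1)).2.2.1] at e3
      simp at e3
    omega
  refine ⟨fun p => if p < P.N then F 0 p 0 0 else 0, ?_, ?_, ?_⟩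
  · intro p
    change (if p < P.N then F 0 p 0 0 else 0) < 2
    split_ifs with h
    · exact hK2 h (by omega)
    · omega
  · intro i hi
    change ((if 3 * i < P.N then F 0 (3 * i) 0 0 else 0) +
      (if 3 * i + 1 < P.N then F 0 (3 * i + 1) 0 0 else 0) +
      (if 3 * i + 2 < P.N then F 0 (3 * i + 2) 0 0 else 0)) % 2 = 1
    rw [if_pos (by omega), if_pos (by omega), if_pos (by omega)]
    have my := hmain (κ := 1) (p := i) (q := 0) (v := 0) (by omega) (by omega) (by omega)
      (by omega) (fun h => by omega)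
    obtain ⟨k1, k2⟩ := hkeep my
    have hF1 : F 1 i 0 0 < 4 := (mem_main.1 k2).1.2.2.2
    have key : ∀ j < 3, (F 0 (3 * i + j) 0 0 = tr j 0) ↔ (tr j (F 1 i 0 0) % 2 = dd j) := by
      intro j hj
      have mx := hmain (κ := 0) (p := 3 * i + j) (q := 0) (v := 0) (by omega) (by omega)
        (by omega) (by omega) (fun _ => by omega)
      have h1 := hA _ (hvs mx) _ (hvs my)
      rw [(hkeep mx).1, k1, A01, A10] at h1
      have e1 : (3 * i + j) / 3 = i := by omega
      have e2 : (3 * i + j) % 3 = j := by omega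
      rw [e1, e2, decide_eq_true (by simp : ((0 : ℕ) = 0 ∧ (0 : ℕ) = 0) ∧ i = i), Bool.true_and,
        Bool.true_and, decide_eq_decide, Nat.add_zero] at h1
      exact h1
    have c0 := key 0 (by omega)
    have c1 := key 1 (by omega)
    have c2 := key 2 (by omega)
    have b0 := hK2 (p := 3 * i) (v := 0) (by omega) (by omega)
    have b1 := hK2 (p := 3 * i + 1) (v := 0) (by omega) (by omega)
    have b2 := hK2 (p := 3 * i + 2) (v := 0) (by omega) (by omega)
    rw [Nat.add_zero] at c0
    unfold tr dd at c0 c1 c2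
    norm_num at c0 c1 c2
    generalize F 1 i 0 0 = z at *
    generalize F 0 (3 * i) 0 0 = a0 at *
    generalize F 0 (3 * i + 1) 0 0 = a1 at *
    generalize F 0 (3 * i + 2) 0 0 = a2 at *
    interval_cases z <;> omega
  · intro p hp q hq hcf
    change ¬ ((if p < P.N then F 0 p 0 0 else 0) = 1 ∧ (if q < P.N then F 0 q 0 0 else 0) = 1)
    rw [if_pos hp, if_pos hq]
    rintro ⟨ap, aq⟩
    have hN0 : 0 < P.N := by omega
    have mK : ∀ {p}, p < P.N → (0, p, 0, 0) ∈ P.main := fun h =>
      hmain (by omega) h hN0 (by omega) (fun _ => by omega)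
    have mV : ∀ {v}, v < 4 → (2, p, q, v) ∈ P.main := fun h =>
      hmain (by omega) hp hq h (fun h => by omega)
    have mW : ∀ {v}, v < 4 → (3, p, q, v) ∈ P.main := fun h =>
      hmain (by omega) hp hq h (fun h => by omega)
    have lV : ∀ {v}, v < 4 → F 2 p q v < 4 := fun h =>
      (mem_main.1 (hkeep (mV h)).2).1.2.2.2
    have lW : ∀ {v}, v < 4 → F 3 p q v < 4 := fun h =>
      (mem_main.1 (hkeep (mW h)).2).1.2.2.2
    -- the parities
    have pV : ∀ {v}, v < 4 → (1 = v % 2 ↔ 0 = F 2 p q v % 2) := by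
      intro v hv
      have h1 := hA _ (hvs (mK hp)) _ (hvs (mV hv))
      rw [(hkeep (mK hp)).1, (hkeep (mV hv)).1, A02, A20, hcf, ap,
        decide_eq_true (by simp : (0 : ℕ) = 0 ∧ p = p)] at h1
      simpa using h1
    have pW : ∀ {v}, v < 4 → (1 = v % 2 ↔ 0 = F 3 p q v % 2) := by
      intro v hv
      have h1 := hA _ (hvs (mK hq)) _ (hvs (mW hv))
      rw [(hkeep (mK hq)).1, (hkeep (mW hv)).1, A03, A30, hcf, aq,
        decide_eq_true (by simp : (0 : ℕ) = 0 ∧ q = q)] at h1
      simpa using h1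
    -- the involution
    have inv : ∀ {v}, v < 4 → F 2 p q (F 2 p q v) = v := by
      intro v hv
      have h1 := hA _ (hvs (mV hv)) _ (hvs (mV (lV hv)))
      rw [(hkeep (mV hv)).1, (hkeep (mV (lV hv))).1, A22, A22, decide_eq_decide] at h1
      have h2 := h1.1 rfl
      simpa using h2
    -- the incidences
    have inc : ∀ {v e}, v < 4 → e < 4 → ((F 2 p q v = e ∨ F 2 p q v = (e + 1) % 4) ↔
        (v = F 3 p q e ∨ v = (F 3 p q e + 1) % 4)) := by
      intro v e hv he
      have h1 := hA _ (hvs (mV hv)) _ (hvs (mW he))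
      rw [(hkeep (mV hv)).1, (hkeep (mW he)).1, A23, A32,
        decide_eq_true (by simp : p = p ∧ q = q), Bool.true_and, Bool.true_and,
        decide_eq_decide] at h1
      exact h1
    have t0 := lW (v := 0) (by omega)
    have q0 := pW (v := 0) (by omega)
    have s0 := lV (v := 0) (by omega)
    have s1 := lV (v := 1) (by omega)
    have s2 := lV (v := 2) (by omega)
    have s3 := lV (v := 3) (by omega)
    have r0 := pV (v := 0) (by omega)
    have r1 := pV (v := 1) (by omega)
    have r2 := pV (v := 2) (by omega)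
    have r3 := pV (v := 3) (by omega)
    have i0 := inc (v := 0) (e := 0) (by omega) (by omega)
    have i1 := inc (v := 1) (e := 0) (by omega) (by omega)
    have i2 := inc (v := 2) (e := 0) (by omega) (by omega)
    have i3 := inc (v := 3) (e := 0) (by omega) (by omega)
    have j0 := inv (v := 0) (by omega)
    generalize hz : F 3 p q 0 = z at *
    have hz' : z = 1 ∨ z = 3 := by omega
    rcases hz' with rfl | rfl
    · have e0 : F 2 p q 0 = 3 := by omega
      rw [e0] at j0
      omega
    · have e0 : F 2 p q 0 = 1 := by omega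
      rw [e0] at j0
      omega

/-- the permutation of the four vertices -/
def sg (a b v : ℕ) : ℕ := if a = 1 then (5 - v) % 4 else if b = 1 then (4 - v) % 4 else v

/-- the permutation of the four edges -/
def tu (a b e : ℕ) : ℕ := if a = 1 then (4 - e) % 4 else if b = 1 then 3 - e else e

/-- the new value -/
def ff (P : Par) (a : ℕ → ℕ) (κ p q v : ℕ) : ℕ :=
  if κ = 0 then (v + a p) % 2
  else if κ = 1 then (if q = 0 ∧ p < P.m then
    2 * ((v / 2 + (1 + a (3 * p))) % 2) + (v % 2 + a (3 * p + 1)) % 2 else v)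
  else if κ = 2 then (if P.cf p q = true then sg (a p) (a q) v else v)
  else if κ = 3 then (if P.cf p q = true then tu (a p) (a q) v else v)
  else v

/-- the permutation -/
def fP (P : Par) (a : ℕ → ℕ) (x : Lab) : Lab :=
  (x.1, x.2.1, x.2.2.1, P.ff a x.1 x.2.1 x.2.2.1 x.2.2.2)

theorem ff_lt {a : ℕ → ℕ} (ha : ∀ p, a p < 2) {κ p q v : ℕ}
    (hv : v < 4) : P.ff a κ p q v < 4 ∧ (κ = 0 → P.ff a κ p q v < 2) := by
  unfold ff sg tu
  split_ifs <;> omega

theorem ff_ff {a : ℕ → ℕ} (ha : ∀ p, a p < 2) {κ p q v : ℕ}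
    (hv : v < 4) (h0 : κ = 0 → v < 2) : P.ff a κ p q (P.ff a κ p q v) = v := by
  unfold ff sg tu
  split_ifs
  · have := ha p
    have := h0 ‹_›
    omega
  all_goals omega

end Par

end Pool.Agent.V11230.MS
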