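import Pool.Agent.V11230.MS2

/-!
# Row permutations that make a matrix symmetric: from a selection to a permutation
-/

set_option autoImplicit false

namespace Pool.Agent.V11230.MS

open Finset

namespace Par

variable {P : Par}

theorem xor_check {a0 a1 a2 v v' j : ℕ} (h0 : a0 < 2) (h1 : a1 < 2) (h2 : a2 < 2)
    (hs : (a0 + a1 + a2) % 2 = 1) (hv : v < 2) (hv' : v' < 4) (hj : j < 3) :
    ((v + (if j = 0 then a0 else if j = 1 then a1 else a2)) % 2 = tr j v') ↔
      ((tr j (2 * ((v' / 2 + (1 + a0)) % 2) + (v' % 2 + a1) % 2) + v) % 2 = dd j) := by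
  unfold tr dd
  interval_cases j <;> interval_cases v' <;> interval_cases a0 <;> interval_cases a1 <;>
    interval_cases a2 <;> interval_cases v <;> first | (exfalso; omega) | simp

theorem sg_check {a b v v' : ℕ} (ha : a < 2) (hb : b < 2) (hv : v < 2) (hv' : v' < 4) :
    ((v + a) % 2 = v' % 2) ↔ (v = sg a b v' % 2) := by
  unfold sg
  interval_cases a <;> interval_cases b <;> interval_cases v' <;> simp <;> omega

theorem tu_check {a b v v' : ℕ} (ha : a < 2) (hb : b < 2) (hab : ¬ (a = 1 ∧ b = 1)) (hv : v < 2)
    (hv' : v' < 4) : ((v + b) % 2 = v' % 2) ↔ (v = tu a b v' % 2) := by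
  unfold tu
  interval_cases a <;> interval_cases b
  · interval_cases v' <;> simp <;> omega
  · interval_cases v' <;> simp <;> omega
  · interval_cases v' <;> simp <;> omega
  · exact absurd ⟨rfl, rfl⟩ hab

theorem inc_check {a b v e : ℕ} (ha : a < 2) (hb : b < 2) (hv : v < 4)
    (he : e < 4) : (sg a b v = e ∨ sg a b v = (e + 1) % 4) ↔
      (v = tu a b e ∨ v = (tu a b e + 1) % 4) := by
  unfold sg tu
  interval_cases a <;> interval_cases b <;> interval_cases v <;> interval_cases e <;> simp

/-- **From a selection to a permutation.** -/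
theorem sol_of_sel (h : Sel P) : Sol P := by
  obtain ⟨a, ha, hx, hc⟩ := h
  have hN : P.N = 3 * P.m := rfl
  have hz : ∀ l, P.fP a (4, l, 0, 0) = (4, l, 0, 0) := by
    intro l
    unfold fP ff
    simp
  have hmem : ∀ x ∈ P.vs, P.fP a x ∈ P.vs ∧ P.fP a (P.fP a x) = x := by
    intro x hx
    rcases mem_vs.1 hx with h | h
    · obtain ⟨κ, p, q, v⟩ := x
      obtain ⟨⟨h1, h2, h3, h4⟩, h5⟩ := mem_main.1 h
      refine ⟨mem_vs.2 (Or.inl ?_), ?_⟩
      · change (κ, p, q, P.ff a κ p q v) ∈ P.main
        obtain ⟨h6, h7⟩ := ff_lt (P := P) ha (κ := κ) (p := p) (q := q) h4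
        exact mem_main.2 ⟨⟨h1, h2, h3, h6⟩, h7⟩
      · change (κ, p, q, P.ff a κ p q (P.ff a κ p q v)) = (κ, p, q, v)
        rw [ff_ff ha h4 h5]
    · obtain ⟨l, _, rfl⟩ := mem_zs.1 h
      rw [hz, hz]
      exact ⟨hx, rfl⟩
  have key : ∀ x ∈ P.vs, ∀ y ∈ P.vs, x.1 ≤ y.1 →
      P.A (P.fP a x) y = P.A (P.fP a y) x := by
    intro x hxv y hyv hle
    rcases mem_vs.1 hyv with hy | hy
    · rcases mem_vs.1 hxv with hxm | hxz
      · obtain ⟨κ, p, q, v⟩ := x
        obtain ⟨κ', p', q', v'⟩ := y
        obtain ⟨⟨m1, m2, m3, m4⟩, m5⟩ := mem_main.1 hxm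
        obtain ⟨⟨n1, n2, n3, n4⟩, n5⟩ := mem_main.1 hy
        change P.A (κ, p, q, P.ff a κ p q v) (κ', p', q', v') =
          P.A (κ', p', q', P.ff a κ' p' q' v') (κ, p, q, v)
        have hle' : κ ≤ κ' := hle
        have hcases : (κ = 0 ∧ κ' = 0) ∨ (κ = 0 ∧ κ' = 1) ∨ (κ = 0 ∧ κ' = 2) ∨
            (κ = 0 ∧ κ' = 3) ∨ (κ = 1 ∧ κ' = 1) ∨ (κ = 1 ∧ κ' = 2) ∨ (κ = 1 ∧ κ' = 3) ∨
            (κ = 2 ∧ κ' = 2) ∨ (κ = 2 ∧ κ' = 3) ∨ (κ = 3 ∧ κ' = 3) := by omega
        rcases hcases with ⟨rfl, rfl⟩ | ⟨rfl, rfl⟩ | ⟨rfl, rfl⟩ | ⟨rfl, rfl⟩ | ⟨rfl, rfl⟩ |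
          ⟨rfl, rfl⟩ | ⟨rfl, rfl⟩ | ⟨rfl, rfl⟩ | ⟨rfl, rfl⟩ | ⟨rfl, rfl⟩
        · rw [A00, A00]
        · rw [A01, A10]
          by_cases hl : (q = 0 ∧ q' = 0) ∧ p / 3 = p'
          · rw [decide_eq_true hl, Bool.true_and, Bool.true_and, decide_eq_decide]
            have hp' : p' < P.m := by omega
            have e1 : P.ff a 0 p q v = (v + a p) % 2 := by
              unfold ff
              rw [if_pos rfl]
            have e2 : P.ff a 1 p' q' v' = 2 * ((v' / 2 + (1 + a (3 * p'))) % 2) +
                (v' % 2 + a (3 * p' + 1)) % 2 := by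
              unfold ff
              rw [if_neg (by omega), if_pos rfl, if_pos ⟨hl.1.2, hp'⟩]
            rw [e1, e2, ← xor_check (ha _) (ha _) (ha (3 * p' + 2)) (hx p' hp') (m5 rfl) n4
              (Nat.mod_lt p (by omega))]
            have e3 : a p = (if p % 3 = 0 then a (3 * p') else
                if p % 3 = 1 then a (3 * p' + 1) else a (3 * p' + 2)) := by
              split_ifs with g1 g2
              · congr 1
                omega
              · congr 1
                omega
              · congr 1
                omega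
            rw [← e3]
          · rw [decide_eq_false hl, Bool.false_and, Bool.false_and]
        · rw [A02, A20]
          by_cases hl : q = 0 ∧ p = p'
          · cases hcf : P.cf p' q' with
            | false => simp
            | true =>
              rw [decide_eq_true hl, Bool.true_and, Bool.true_and, Bool.true_and,
                decide_eq_decide]
              have e1 : P.ff a 0 p q v = (v + a p) % 2 := by
                unfold ff
                rw [if_pos rfl]
              have e2 : P.ff a 2 p' q' v' = sg (a p') (a q') v' := by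
                unfold ff
                rw [if_neg (by omega), if_neg (by omega), if_pos rfl, if_pos hcf]
              rw [e1, e2, ← hl.2]
              exact sg_check (ha _) (ha _) (m5 rfl) n4
          · rw [decide_eq_false hl, Bool.false_and, Bool.false_and, Bool.false_and]
        · rw [A03, A30]
          by_cases hl : q = 0 ∧ p = q'
          · cases hcf : P.cf p' q' with
            | false => simp
            | true =>
              rw [decide_eq_true hl, Bool.true_and, Bool.true_and, Bool.true_and,
                decide_eq_decide]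
              have e1 : P.ff a 0 p q v = (v + a p) % 2 := by
                unfold ff
                rw [if_pos rfl]
              have e2 : P.ff a 3 p' q' v' = tu (a p') (a q') v' := by
                unfold ff
                rw [if_neg (by omega), if_neg (by omega), if_neg (by omega), if_pos rfl,
                  if_pos hcf]
              rw [e1, e2, hl.2]
              exact tu_check (ha _) (ha _) (hc _ n2 _ n3 hcf) (m5 rfl) n4
          · rw [decide_eq_false hl, Bool.false_and, Bool.false_and, Bool.false_and]
        · rw [A11, A11]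
        · rw [A12, A21]
        · rw [A13, A31]
        · rw [A22, A22, decide_eq_decide]
          have i1 := ff_ff (P := P) ha (κ := 2) (p := p) (q := q) m4 m5
          have i2 := ff_ff (P := P) ha (κ := 2) (p := p') (q := q') n4 n5
          rw [Prod.mk.injEq, Prod.mk.injEq, Prod.mk.injEq, Prod.mk.injEq, Prod.mk.injEq,
            Prod.mk.injEq]
          constructor
          · rintro ⟨_, rfl, rfl, h⟩
            exact ⟨rfl, rfl, rfl, by rw [← h, i1]⟩
          · rintro ⟨_, rfl, rfl, h⟩
            exact ⟨rfl, rfl, rfl, by rw [← h, i2]⟩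
        · rw [A23, A32]
          by_cases hl : p = p' ∧ q = q'
          · obtain ⟨rfl, rfl⟩ := hl
            rw [decide_eq_true (⟨rfl, rfl⟩ : p = p ∧ q = q), Bool.true_and, Bool.true_and,
              decide_eq_decide]
            cases hcf : P.cf p q with
            | false =>
              have e1 : P.ff a 2 p q v = v := by
                unfold ff
                rw [if_neg (by omega), if_neg (by omega), if_pos rfl, if_neg (by simp [hcf])]
              have e2 : P.ff a 3 p q v' = v' := by
                unfold ff
                rw [if_neg (by omega), if_neg (by omega), if_neg (by omega), if_pos rfl,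
                  if_neg (by simp [hcf])]
              rw [e1, e2]
            | true =>
              have e1 : P.ff a 2 p q v = sg (a p) (a q) v := by
                unfold ff
                rw [if_neg (by omega), if_neg (by omega), if_pos rfl, if_pos hcf]
              have e2 : P.ff a 3 p q v' = tu (a p) (a q) v' := by
                unfold ff
                rw [if_neg (by omega), if_neg (by omega), if_neg (by omega), if_pos rfl,
                  if_pos hcf]
              rw [e1, e2]
              exact inc_check (ha _) (ha _) m4 n4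
          · rw [decide_eq_false hl, Bool.false_and, Bool.false_and]
        · rw [A33, A33]
      · exfalso
        obtain ⟨l, _, rfl⟩ := mem_zs.1 hxz
        have := main_lt hy
        change 4 ≤ y.1 at hle
        omega
    · obtain ⟨l, _, rfl⟩ := mem_zs.1 hy
      rw [hz]
      rcases mem_vs.1 hxv with hxm | hxz
      · have h1 := main_lt hxm
        obtain ⟨κ, p, q, v⟩ := x
        change P.A (κ, p, q, P.ff a κ p q v) (4, l, 0, 0) = _
        rw [A_main_z h1, A_z_main h1]
      · obtain ⟨l', _, rfl⟩ := mem_zs.1 hxz
        rw [hz, A_z_z, A_z_z]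
  refine ⟨P.fP a, P.fP a, fun x hx => ⟨(hmem x hx).1, (hmem x hx).1, (hmem x hx).2,
    (hmem x hx).2⟩, fun x hx y hy => ?_⟩
  rcases Nat.le_total x.1 y.1 with h | h
  · exact key x hx y hy h
  · exact (key y hy x hx h).symm

/-- **The construction is correct.** -/
theorem sol_iff : Sol P ↔ Sel P := ⟨sel_of_sol, sol_of_sel⟩

end Par

end Pool.Agent.V11230.MS
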