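import Pool.Agent.V11230.MS3
import Pool.Agent.NPC.Sat

/-!
# Row permutations that make a matrix symmetric: from matrices to labels, and satisfiability
-/

set_option autoImplicit false

namespace Pool.Agent.V11230.MS

open Pool.Agent.H622R2

/-- the square 0-1 matrix given by a list of rows -/
def mx (M : List (List Bool)) : Matrix (Fin M.length) (Fin M.length) ℕ :=
  Matrix.of fun i j => if entry M i j = true then 1 else 0

/-- all rows have the right length -/
def Square (M : List (List Bool)) : Prop := ∀ r ∈ M, r.length = M.length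

/-- Matrix symmetry: there is a permutation matrix `P` such that `(P A)ᵀ = P A`. -/
def MSym (M : List (List Bool)) : Prop := Square M ∧ ∃ π : Equiv.Perm (Fin M.length),
  (π.permMatrix ℕ * mx M).transpose = π.permMatrix ℕ * mx M

theorem msym_iff {M : List (List Bool)} : MSym M ↔ Square M ∧ ∃ π : Equiv.Perm (Fin M.length),
    ∀ i j : Fin M.length, entry M (π i) j = entry M (π j) i := by
  unfold MSym
  refine and_congr_right fun _ => exists_congr fun π => ?_
  have h1 : π.permMatrix ℕ * mx M = (mx M).submatrix π id := PEquiv.toMatrix_toPEquiv_mul π (mx M)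
  rw [h1]
  constructor
  · intro h i j
    have h2 : (if entry M (π j) i = true then 1 else 0 : ℕ) =
        (if entry M (π i) j = true then 1 else 0) := congrFun (congrFun h i) j
    cases h3 : entry M (π i) j <;> cases h4 : entry M (π j) i <;> rw [h3, h4] at h2 <;>
      simp at h2 ⊢
  · intro h
    ext i j
    change (if entry M (π j) i = true then 1 else 0 : ℕ) =
      (if entry M (π i) j = true then 1 else 0)
    rw [h i j]

theorem square_mat {α : Type} (vs : List α) (adj : α → α → Bool) : Square (mat vs adj) := by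
  intro r hr
  rw [mat_length]
  unfold mat at hr
  rw [List.mem_map] at hr
  obtain ⟨u, _, rfl⟩ := hr
  exact List.length_map _

theorem msym_mat {α : Type} [DecidableEq α] {vs : List α} (adj : α → α → Bool)
    (hnd : vs.Nodup) : MSym (mat vs adj) ↔ ∃ f g : α → α,
      (∀ x ∈ vs, f x ∈ vs ∧ g x ∈ vs ∧ g (f x) = x ∧ f (g x) = x) ∧
        ∀ x ∈ vs, ∀ y ∈ vs, adj (f x) y = adj (f y) x := by
  rw [msym_iff]
  set e : Fin (mat vs adj).length ≃ {x // x ∈ vs} :=
    (finCongr (mat_length vs adj)).trans (List.Nodup.getEquiv vs hnd) with he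
  have hent : ∀ a b : Fin (mat vs adj).length,
      entry (mat vs adj) a b = adj (e a).1 (e b).1 := by
    intro a b
    have ha : a.1 < vs.length := lt_of_lt_of_eq a.2 (mat_length vs adj)
    have hb : b.1 < vs.length := lt_of_lt_of_eq b.2 (mat_length vs adj)
    rw [entry_mat _ _ _ _ ha hb]
    rfl
  constructor
  · rintro ⟨_, π, h⟩
    refine ⟨fun x => if hx : x ∈ vs then (e (π (e.symm ⟨x, hx⟩))).1 else x,
      fun x => if hx : x ∈ vs then (e (π.symm (e.symm ⟨x, hx⟩))).1 else x, ?_, ?_⟩
    · intro x hx
      simp only [dif_pos hx]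
      refine ⟨(e _).2, (e _).2, ?_, ?_⟩
      · rw [dif_pos (e _).2]
        simp
      · rw [dif_pos (e _).2]
        simp
    · intro x hx y hy
      simp only [dif_pos hx, dif_pos hy]
      have h1 := h (e.symm ⟨x, hx⟩) (e.symm ⟨y, hy⟩)
      rw [hent, hent, e.apply_symm_apply, e.apply_symm_apply] at h1
      exact h1
  · rintro ⟨f, g, hfg, hA⟩
    refine ⟨square_mat vs adj, ?_⟩
    set σ : Equiv.Perm {x // x ∈ vs} :=
      { toFun := fun x => ⟨f x.1, (hfg x.1 x.2).1⟩
        invFun := fun x => ⟨g x.1, (hfg x.1 x.2).2.1⟩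
        left_inv := fun x => Subtype.ext (hfg x.1 x.2).2.2.1
        right_inv := fun x => Subtype.ext (hfg x.1 x.2).2.2.2 } with hσ
    refine ⟨(e.trans σ).trans e.symm, fun i j => ?_⟩
    rw [hent, hent]
    simp only [Equiv.trans_apply, e.apply_symm_apply]
    exact hA _ (e i).2 _ (e j).2

/-! ### Satisfiability -/

open Pool.Agent.NPC

/-- a clause with three literals -/
abbrev Cl : Type := Lit ℕ × Lit ℕ × Lit ℕ

/-- the literal `p % 3` of the clause `p / 3` -/
def lit (φ : List Cl) (p : ℕ) : Lit ℕ :=
  if p % 3 = 0 then (φ.getD (p / 3) ((false, 0), (false, 0), (false, 0))).1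
  else if p % 3 = 1 then (φ.getD (p / 3) ((false, 0), (false, 0), (false, 0))).2.1
  else (φ.getD (p / 3) ((false, 0), (false, 0), (false, 0))).2.2

/-- the parameters for a formula: the conflicts are the complementary literals -/
def par (φ : List Cl) : Par where
  m := φ.length
  cf p q := decide ((lit φ p).2 = (lit φ q).2) && !(decide ((lit φ p).1 = (lit φ q).1))

theorem sel_iff (φ : List Cl) : (par φ).Sel ↔ SAT3 φ := by
  classical
  have hN : (par φ).N = 3 * φ.length := rfl
  have hlit : ∀ i < φ.length, lit φ (3 * i) = (φ.getD i ((false, 0), (false, 0), (false, 0))).1 ∧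
      lit φ (3 * i + 1) = (φ.getD i ((false, 0), (false, 0), (false, 0))).2.1 ∧
      lit φ (3 * i + 2) = (φ.getD i ((false, 0), (false, 0), (false, 0))).2.2 := by
    intro i _
    unfold lit
    refine ⟨?_, ?_, ?_⟩
    · rw [if_pos (by omega), show 3 * i / 3 = i by omega]
    · rw [if_neg (by omega), if_pos (by omega), show (3 * i + 1) / 3 = i by omega]
    · rw [if_neg (by omega), if_neg (by omega), show (3 * i + 2) / 3 = i by omega]
  have hcf : ∀ p q, (par φ).cf p q = true ↔
      (lit φ p).2 = (lit φ q).2 ∧ (lit φ p).1 ≠ (lit φ q).1 := by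
    intro p q
    change (decide ((lit φ p).2 = (lit φ q).2) && !(decide ((lit φ p).1 = (lit φ q).1))) = true ↔ _
    rw [Bool.and_eq_true, Bool.not_eq_true', decide_eq_true_iff, decide_eq_false_iff_not]
  constructor
  · rintro ⟨a, ha, hx, hc⟩
    have hm : (par φ).m = φ.length := rfl
    set τ : ℕ → Bool := fun v => decide (∃ p < 3 * φ.length, a p = 1 ∧ lit φ p = (true, v))
      with hτ
    have key : ∀ p < 3 * φ.length, a p = 1 → τ (lit φ p).2 = (lit φ p).1 := by
      intro p hp hap
      cases hb : (lit φ p).1 with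
      | true =>
        rw [hτ]
        exact decide_eq_true ⟨p, hp, hap, Prod.ext hb rfl⟩
      | false =>
        rw [hτ]
        refine decide_eq_false ?_
        rintro ⟨q, hq, haq, hlq⟩
        refine hc q hq p hp ((hcf q p).2 ⟨?_, ?_⟩) ⟨haq, hap⟩
        · rw [hlq]
        · rw [hlq, hb]
          simp
    refine ⟨τ, fun c hcφ => ?_⟩
    obtain ⟨i, hi, rfl⟩ := List.getElem_of_mem hcφ
    have hs := hx i hi
    have h0 := ha (3 * i)
    have h1 := ha (3 * i + 1)
    have h2 := ha (3 * i + 2)
    have hl := hlit i hi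
    rw [List.getD_eq_getElem _ _ hi] at hl
    have h3 : a (3 * i) = 1 ∨ a (3 * i + 1) = 1 ∨ a (3 * i + 2) = 1 := by omega
    rcases h3 with h3 | h3 | h3
    · have h4 := key _ (by omega) h3
      rw [hl.1] at h4
      exact Or.inl h4
    · have h4 := key _ (by omega) h3
      rw [hl.2.1] at h4
      exact Or.inr (Or.inl h4)
    · have h4 := key _ (by omega) h3
      rw [hl.2.2] at h4
      exact Or.inr (Or.inr h4)
  · rintro ⟨τ, hτ⟩
    set sat : ℕ → Bool := fun p => decide (τ (lit φ p).2 = (lit φ p).1) with hsat
    set a : ℕ → ℕ := fun p => if p % 3 = 0 then (if sat p = true then 1 else 0)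
      else if p % 3 = 1 then (if sat p = true ∧ ¬ sat (p - 1) = true then 1 else 0)
      else (if sat p = true ∧ ¬ sat (p - 1) = true ∧ ¬ sat (p - 2) = true then 1 else 0) with ha
    have hap : ∀ p, a p = 1 → sat p = true := by
      intro p h
      rw [ha] at h
      change (if p % 3 = 0 then (if sat p = true then 1 else 0)
        else if p % 3 = 1 then (if sat p = true ∧ ¬ sat (p - 1) = true then 1 else 0)
        else (if sat p = true ∧ ¬ sat (p - 1) = true ∧ ¬ sat (p - 2) = true then 1 else 0)) = 1
        at h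
      split_ifs at h with h1 h2 h3 h4 h5
      · exact h2
      · exact h4.1
      · exact h5.1
    refine ⟨a, ?_, ?_, ?_⟩
    · intro p
      rw [ha]
      change (if p % 3 = 0 then (if sat p = true then 1 else 0)
        else if p % 3 = 1 then (if sat p = true ∧ ¬ sat (p - 1) = true then 1 else 0)
        else (if sat p = true ∧ ¬ sat (p - 1) = true ∧ ¬ sat (p - 2) = true then 1 else 0)) < 2
      split_ifs <;> omega
    · intro i hi
      have hi' : i < φ.length := hi
      have e0 : a (3 * i) = if sat (3 * i) = true then 1 else 0 := by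
        rw [ha]
        change (if (3 * i) % 3 = 0 then _ else _) = _
        rw [if_pos (by omega)]
      have e1 : a (3 * i + 1) = if sat (3 * i + 1) = true ∧ ¬ sat (3 * i) = true then 1 else 0 := by
        rw [ha]
        change (if (3 * i + 1) % 3 = 0 then _ else if (3 * i + 1) % 3 = 1 then _ else _) = _
        rw [if_neg (by omega), if_pos (by omega), Nat.add_sub_cancel]
      have e2 : a (3 * i + 2) = if sat (3 * i + 2) = true ∧ ¬ sat (3 * i + 1) = true ∧
          ¬ sat (3 * i) = true then 1 else 0 := by
        rw [ha]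
        change (if (3 * i + 2) % 3 = 0 then _ else if (3 * i + 2) % 3 = 1 then _ else _) = _
        rw [if_neg (by omega), if_neg (by omega), Nat.add_sub_cancel,
          show 3 * i + 2 - 1 = 3 * i + 1 by omega]
      rw [e0, e1, e2]
      have hl := hlit i hi'
      have h1 := hτ _ (List.getElem_mem hi')
      rw [List.getD_eq_getElem _ _ hi'] at hl
      have h2 : sat (3 * i) = true ∨ sat (3 * i + 1) = true ∨ sat (3 * i + 2) = true := by
        rw [hsat]
        simp only [decide_eq_true_eq]
        rw [hl.1, hl.2.1, hl.2.2]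
        exact h1
      cases g0 : sat (3 * i) <;> cases g1 : sat (3 * i + 1) <;> cases g2 : sat (3 * i + 2) <;>
        simp [g0, g1, g2] at h2 ⊢
    · intro p _ q _ hpq
      rintro ⟨h1, h2⟩
      have g1 := hap p h1
      have g2 := hap q h2
      rw [hsat] at g1 g2
      simp only [decide_eq_true_eq] at g1 g2
      obtain ⟨h3, h4⟩ := (hcf p q).1 hpq
      apply h4
      rw [← g1, ← g2, h3]

/-- the matrix of a formula -/
def matF (φ : List Cl) : List (List Bool) := mat (par φ).vs (par φ).A

/-- **Satisfiability and matrix symmetry.** -/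
theorem msym_matF (φ : List Cl) : MSym (matF φ) ↔ SAT3 φ := by
  unfold matF
  rw [msym_mat _ Par.nodup_vs, ← sel_iff, ← Par.sol_iff]
  exact Iff.rfl

end Pool.Agent.V11230.MS
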