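import Mathlib

/-!
# The dynamic program for maintenance jobs between parallel train paths

A set of kept positions `x = u₀ < u₁ < … < u_k = y` is good if each job which has to be placed
between `x` and `y` fits into one of the gaps.  An optimal set is found by choosing its widest gap
first: each job that can be placed there by its position alone is then placed there.
-/

set_option autoImplicit false

namespace Pool.Agent.V11230.MT

/-- The pairs of consecutive entries. -/
def gaps (l : List ℕ) : List (ℕ × ℕ) := l.zip l.tail

theorem gaps_cons_cons (a b : ℕ) (l : List ℕ) : gaps (a :: b :: l) = (a, b) :: gaps (b :: l) := rfl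

theorem gaps_append (s : List ℕ) (p q : ℕ) (t : List ℕ) :
    gaps ((s ++ [p]) ++ (q :: t)) = gaps (s ++ [p]) ++ (p, q) :: gaps (q :: t) := by
  induction s with
  | nil => rfl
  | cons a s ih =>
    cases s with
    | nil => rfl
    | cons b s =>
      have h1 : (a :: b :: s ++ [p]) ++ (q :: t) = a :: b :: ((s ++ [p]) ++ (q :: t)) := by simp
      have h2 : a :: b :: s ++ [p] = a :: b :: (s ++ [p]) := by simp
      have h3 : b :: s ++ [p] ++ q :: t = b :: ((s ++ [p]) ++ (q :: t)) := by simp
      have h4 : b :: s ++ [p] = b :: (s ++ [p]) := by simp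
      rw [h3, h4] at ih
      rw [h1, h2, gaps_cons_cons, gaps_cons_cons, ih]
      rfl

theorem exists_of_mem_gaps {l : List ℕ} {u v : ℕ} (h : (u, v) ∈ gaps l) :
    ∃ s t, l = (s ++ [u]) ++ (v :: t) := by
  induction l with
  | nil => simp [gaps] at h
  | cons a l ih =>
    cases l with
    | nil => simp [gaps] at h
    | cons b l =>
      rw [gaps_cons_cons, List.mem_cons] at h
      rcases h with h | h
      · obtain ⟨rfl, rfl⟩ := Prod.mk.inj h
        exact ⟨[], l, rfl⟩
      · obtain ⟨s, t, hst⟩ := ih h
        exact ⟨a :: s, t, by rw [hst]; rfl⟩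

theorem gaps_lt {l : List ℕ} (hl : l.Pairwise (· < ·)) {u v : ℕ} (h : (u, v) ∈ gaps l) : u < v := by
  obtain ⟨s, t, rfl⟩ := exists_of_mem_gaps h
  exact (List.pairwise_append.1 hl).2.2 u (by simp) v (by simp)

theorem mem_of_gaps {l : List ℕ} {u v : ℕ} (h : (u, v) ∈ gaps l) : u ∈ l ∧ v ∈ l := by
  obtain ⟨s, t, rfl⟩ := exists_of_mem_gaps h
  simp

/-- each entry of the list is at most `u` or at least `v` -/
theorem le_or_le_of_gap {l : List ℕ} (hl : l.Pairwise (· < ·)) {u v a : ℕ} (h : (u, v) ∈ gaps l)
    (ha : a ∈ l) : a ≤ u ∨ v ≤ a := by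
  obtain ⟨s, t, rfl⟩ := exists_of_mem_gaps h
  obtain ⟨h1, h2, h3⟩ := List.pairwise_append.1 hl
  rcases List.mem_append.1 ha with ha | ha
  · left
    rcases List.mem_append.1 ha with ha | ha
    · exact ((List.pairwise_append.1 h1).2.2 a ha u (by simp)).le
    · rw [List.mem_singleton.1 ha]
  · right
    rcases List.mem_cons.1 ha with rfl | ha
    · exact le_rfl
    · exact ((List.pairwise_cons.1 h2).1 a ha).le

/-- the step from true to false -/
theorem exists_switch (P : ℕ → Prop) : ∀ (l : List ℕ) (x y : ℕ), l.head? = some x →
    l.getLast? = some y → P x → ¬ P y → ∃ u v, (u, v) ∈ gaps l ∧ P u ∧ ¬ P v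
  | [], _, _, h, _, _, _ => by simp at h
  | [a], x, y, h, h', hx, hy => by
    simp only [List.head?_cons, Option.some.injEq, List.getLast?_singleton] at h h'
    subst h h'
    exact absurd hx hy
  | a :: b :: l, x, y, h, h', hx, hy => by
    simp only [List.head?_cons, Option.some.injEq] at h
    subst h
    by_cases hb : P b
    · obtain ⟨u, v, huv, h1, h2⟩ := exists_switch P (b :: l) b y rfl (by
        rw [List.getLast?_cons_cons] at h'
        exact h') hb hy
      exact ⟨u, v, by rw [gaps_cons_cons]; exact List.mem_cons_of_mem _ huv, h1, h2⟩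
    · exact ⟨a, b, by rw [gaps_cons_cons]; exact List.mem_cons_self, hx, hb⟩

/-- a longest member of a list of lists -/
def best (C : List (List ℕ)) : List ℕ :=
  (C.filter (fun l => C.all (fun l' => decide (l'.length ≤ l.length)))).head?.getD []

theorem best_spec {C : List (List ℕ)} (hC : C ≠ []) :
    best C ∈ C ∧ ∀ l ∈ C, l.length ≤ (best C).length := by
  have hex : ∃ l ∈ C, ∀ l' ∈ C, l'.length ≤ l.length := by
    have hfin : (C.toFinset).Nonempty := by
      obtain ⟨a, ha⟩ := List.exists_mem_of_ne_nil C hC
      exact ⟨a, by simpa using ha⟩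
    obtain ⟨l, hl, hmax⟩ := Finset.exists_max_image C.toFinset List.length hfin
    exact ⟨l, by simpa using hl, fun l' hl' => hmax l' (by simpa using hl')⟩
  obtain ⟨l, hl, hmax⟩ := hex
  have hmem : l ∈ C.filter (fun l => C.all (fun l' => decide (l'.length ≤ l.length))) := by
    rw [List.mem_filter]
    refine ⟨hl, ?_⟩
    rw [List.all_eq_true]
    intro l' hl'
    simpa using hmax l' hl'
  have hb : best C ∈ C.filter (fun l => C.all (fun l' => decide (l'.length ≤ l.length))) := by
    unfold best
    cases h : C.filter (fun l => C.all (fun l' => decide (l'.length ≤ l.length))) with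
    | nil => rw [h] at hmem; simp at hmem
    | cons a L => simp
  rw [List.mem_filter, List.all_eq_true] at hb
  exact ⟨hb.1, fun l hl => by simpa using hb.2 l hl⟩

theorem best_nil : best [] = [] := rfl

/-- table lookup -/
def look (T : List (List (List ℕ))) (x y : ℕ) : List ℕ := (T.getD x []).getD y []

section DP

variable {J : Type} (N : ℕ) (jobs : List J) (A B : J → ℕ → Bool) (W : J → ℕ → ℕ → Bool)

/-- may the gap `(p, q)` be chosen between `x` and `y` -/
def check (x y p q : ℕ) : Bool :=
  decide (x ≤ p) && decide (p < q) && decide (q ≤ y) &&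
    jobs.all (fun j => A j x || B j y || !(B j p) || !(A j q) || W j p q)

/-- the candidates -/
def cands (T : List (List (List ℕ))) (x y : ℕ) : List (List ℕ) :=
  (List.range N).flatMap fun p => (List.range N).flatMap fun q =>
    if check jobs A B W x y p q = true ∧ (look T x p ≠ [] ∧ look T q y ≠ []) then
      [look T x p ++ look T q y] else []

/-- a new entry of the table -/
def entry (T : List (List (List ℕ))) (x y : ℕ) : List ℕ :=
  if x = y then (if jobs.all (fun j => A j x || B j x) = true then [x] else [])
  else best (cands N jobs A B W T x y)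

/-- the new table -/
def step (T : List (List (List ℕ))) : List (List (List ℕ)) :=
  (List.range N).map fun x => (List.range N).map fun y => entry N jobs A B W T x y

theorem getD_map_range {α : Type} (f : ℕ → α) (d : α) {n x : ℕ} (hx : x < n) :
    ((List.range n).map f).getD x d = f x := by
  rw [List.getD_eq_getElem _ _ (by simpa using hx)]
  simp

theorem look_step (T : List (List (List ℕ))) {x y : ℕ} (hx : x < N) (hy : y < N) :
    look (step N jobs A B W T) x y = entry N jobs A B W T x y := by
  unfold look step
  rw [getD_map_range _ _ hx, getD_map_range _ _ hy]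

theorem look_nil (x y : ℕ) : look [] x y = [] := by
  unfold look
  simp

theorem mem_cands {T : List (List (List ℕ))} {x y : ℕ} {l : List ℕ} :
    l ∈ cands N jobs A B W T x y ↔ ∃ p < N, ∃ q < N, check jobs A B W x y p q = true ∧
      look T x p ≠ [] ∧ look T q y ≠ [] ∧ l = look T x p ++ look T q y := by
  unfold cands
  rw [List.mem_flatMap]
  constructor
  · rintro ⟨p, hp, h⟩
    rw [List.mem_flatMap] at h
    obtain ⟨q, hq, h⟩ := h
    rw [List.mem_range] at hp hq
    split_ifs at h with hc
    · exact ⟨p, hp, q, hq, hc.1, hc.2.1, hc.2.2, List.mem_singleton.1 h⟩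
    · simp at h
  · rintro ⟨p, hp, q, hq, h1, h2, h3, rfl⟩
    refine ⟨p, List.mem_range.2 hp, ?_⟩
    rw [List.mem_flatMap]
    refine ⟨q, List.mem_range.2 hq, ?_⟩
    rw [if_pos ⟨h1, h2, h3⟩]
    exact List.mem_singleton.2 rfl

/-- A good choice of kept positions between `x` and `y`. -/
structure Good (x y : ℕ) (l : List ℕ) : Prop where
  hd : l.head? = some x
  lst : l.getLast? = some y
  inc : l.Pairwise (· < ·)
  bd : ∀ a ∈ l, a < N
  fit : ∀ j ∈ jobs, A j x = false → B j y = false →
    ∃ u v, (u, v) ∈ gaps l ∧ B j u = true ∧ A j v = true ∧ W j u v = true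

variable {N jobs A B W}

theorem check_iff {x y p q : ℕ} : check jobs A B W x y p q = true ↔ x ≤ p ∧ p < q ∧ q ≤ y ∧
    ∀ j ∈ jobs, A j x = false → B j y = false → B j p = true → A j q = true → W j p q = true := by
  unfold check
  simp only [Bool.and_eq_true, decide_eq_true_eq, List.all_eq_true, and_assoc]
  refine and_congr Iff.rfl (and_congr Iff.rfl (and_congr Iff.rfl ?_))
  refine forall_congr' fun j => forall_congr' fun _ => ?_
  cases A j x <;> cases B j y <;> cases B j p <;> cases A j q <;> cases W j p q <;> simp

theorem Good.ne_nil {x y : ℕ} {l : List ℕ} (h : Good N jobs A B W x y l) : l ≠ [] := by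
  rintro rfl
  have := h.hd
  simp at this

theorem Good.combine {x y p q : ℕ} {l l' : List ℕ} (h : Good N jobs A B W x p l)
    (h' : Good N jobs A B W q y l') (hc : check jobs A B W x y p q = true) :
    Good N jobs A B W x y (l ++ l') := by
  obtain ⟨hxp, hpq, hqy, hch⟩ := check_iff.1 hc
  obtain ⟨s, rfl⟩ : ∃ s, l = s ++ [p] := by
    have h1 := h.lst
    exact ⟨l.dropLast, (List.dropLast_append_getLast? p (by rw [h1]; exact rfl)).symm⟩
  obtain ⟨t, rfl⟩ : ∃ t, l' = q :: t := by
    have h1 := h'.hd
    cases l' with
    | nil => simp at h1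
    | cons a t => simp at h1; exact ⟨t, by rw [h1]⟩
  have hle : ∀ a ∈ s ++ [p], a ≤ p := by
    intro a ha
    rcases List.mem_append.1 ha with ha | ha
    · exact ((List.pairwise_append.1 h.inc).2.2 a ha p (by simp)).le
    · rw [List.mem_singleton.1 ha]
  have hge : ∀ a ∈ q :: t, q ≤ a := by
    intro a ha
    rcases List.mem_cons.1 ha with rfl | ha
    · exact le_rfl
    · exact ((List.pairwise_cons.1 h'.inc).1 a ha).le
  refine ⟨?_, ?_, ?_, ?_, ?_⟩
  · have := h.hd
    rw [List.head?_append, this]
    rfl
  · have := h'.lst
    rw [List.getLast?_append, this]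
    rfl
  · rw [List.pairwise_append]
    exact ⟨h.inc, h'.inc, fun a ha b hb => (hle a ha).trans_lt (hpq.trans_le (hge b hb))⟩
  · intro a ha
    rcases List.mem_append.1 ha with ha | ha
    · exact h.bd a ha
    · exact h'.bd a ha
  · intro j hj h1 h2
    rw [gaps_append]
    by_cases hB : B j p = true
    · by_cases hA : A j q = true
      · exact ⟨p, q, by simp, hB, hA, hch j hj h1 h2 hB hA⟩
      · obtain ⟨u, v, huv, h3⟩ := h'.fit j hj (by simpa using hA) h2
        exact ⟨u, v, by simp [huv], h3⟩
    · obtain ⟨u, v, huv, h3⟩ := h.fit j hj h1 (by simpa using hB)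
      exact ⟨u, v, by simp [huv], h3⟩

/-- The entries of the table are empty or good. -/
def Inv (N : ℕ) (jobs : List J) (A B : J → ℕ → Bool) (W : J → ℕ → ℕ → Bool)
    (T : List (List (List ℕ))) : Prop :=
  ∀ x < N, ∀ y < N, look T x y = [] ∨ Good N jobs A B W x y (look T x y)

theorem inv_nil : Inv N jobs A B W [] := fun x _ y _ => Or.inl (look_nil x y)

theorem entry_spec {T : List (List (List ℕ))} (hT : Inv N jobs A B W T) {x y : ℕ} (hx : x < N)
    (hy : y < N) : entry N jobs A B W T x y = [] ∨
      Good N jobs A B W x y (entry N jobs A B W T x y) := by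
  unfold entry
  by_cases hxy : x = y
  · subst hxy
    rw [if_pos rfl]
    split_ifs with h
    · right
      refine ⟨rfl, rfl, by simp, by simpa using hx, fun j hj h1 h2 => ?_⟩
      rw [List.all_eq_true] at h
      have := h j hj
      rw [h1, h2] at this
      simp at this
    · left
      rfl
  · rw [if_neg hxy]
    by_cases hC : cands N jobs A B W T x y = []
    · left
      rw [hC, best_nil]
    · right
      obtain ⟨p, hp, q, hq, hc, h1, h2, h3⟩ := (mem_cands N jobs A B W).1 (best_spec hC).1
      rw [h3]
      exact ((hT x hx p hp).resolve_left h1).combine ((hT q hq y hy).resolve_left h2) hc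

theorem Inv.step {T : List (List (List ℕ))} (hT : Inv N jobs A B W T) :
    Inv N jobs A B W (step N jobs A B W T) := by
  intro x hx y hy
  rw [look_step N jobs A B W T hx hy]
  exact entry_spec hT hx hy

theorem inv_iterate (k : ℕ) : Inv N jobs A B W ((step N jobs A B W)^[k] []) := by
  induction k with
  | zero => exact inv_nil
  | succ k ih =>
    rw [Function.iterate_succ_apply']
    exact ih.step

/-- Completeness of the dynamic program. -/
theorem complete {X : Type} [LinearOrder X] (w : ℕ → ℕ → X)
    (hA : ∀ j u v, u ≤ v → v < N → A j u = true → A j v = true)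
    (hB : ∀ j u v, u ≤ v → v < N → B j v = true → B j u = true)
    (hW : ∀ j u v p q, u < v → v < N → p < q → q < N → w u v ≤ w p q → W j u v = true →
      W j p q = true) :
    ∀ (k x y : ℕ) (l : List ℕ), x < N → y < N → y - x < k → Good N jobs A B W x y l →
      l.length ≤ (look ((step N jobs A B W)^[k] []) x y).length := by
  intro k
  induction k with
  | zero => intro x y l _ _ h; omega
  | succ k ih =>
    intro x y l hx hy hk hl
    rw [Function.iterate_succ_apply', look_step N jobs A B W _ hx hy]
    match l, hl with
    | [], hl => simp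
    | [a], hl =>
      have h1 := hl.hd
      have h2 := hl.lst
      simp only [List.head?_cons, Option.some.injEq, List.getLast?_singleton] at h1 h2
      subst h1 h2
      unfold entry
      rw [if_pos rfl, if_pos]
      rw [List.all_eq_true]
      intro j hj
      by_contra hne
      simp only [Bool.or_eq_true, not_or, Bool.not_eq_true] at hne
      obtain ⟨u, v, huv, _⟩ := hl.fit j hj hne.1 hne.2
      simp [gaps] at huv
    | a :: b :: l, hl =>
      obtain ⟨g, hg, hmax⟩ : ∃ g ∈ gaps (a :: b :: l), ∀ g' ∈ gaps (a :: b :: l),
          w g'.1 g'.2 ≤ w g.1 g.2 := by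
        have hne : (gaps (a :: b :: l)).toFinset.Nonempty := ⟨(a, b), by
          rw [gaps_cons_cons]; simp⟩
        obtain ⟨g, hg, hm⟩ := Finset.exists_max_image _ (fun g => w g.1 g.2) hne
        exact ⟨g, by simpa using hg, fun g' hg' => hm g' (by simpa using hg')⟩
      obtain ⟨p, q⟩ := g
      have hpq : p < q := gaps_lt hl.inc hg
      have hpN : p < N := hl.bd p (mem_of_gaps hg).1
      have hqN : q < N := hl.bd q (mem_of_gaps hg).2
      obtain ⟨s, t, hst⟩ := exists_of_mem_gaps hg
      rw [hst] at hl hmax ⊢
      have hinc := List.pairwise_append.1 hl.inc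
      have hxs : (s ++ [p]).head? = some x := by
        have := hl.hd
        rw [List.head?_append] at this
        cases hh : (s ++ [p]).head? with
        | none =>
          rw [List.head?_eq_none_iff] at hh
          simp at hh
        | some c => rw [hh] at this; simpa using this
      have hyt : (q :: t).getLast? = some y := by
        have := hl.lst
        rw [List.getLast?_append] at this
        cases hh : (q :: t).getLast? with
        | none =>
          rw [List.getLast?_eq_none_iff] at hh
          simp at hh
        | some c => rw [hh] at this; simpa using this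
      have hle : ∀ a ∈ s ++ [p], a ≤ p := by
        intro a ha
        rcases List.mem_append.1 ha with ha | ha
        · exact ((List.pairwise_append.1 hinc.1).2.2 a ha p (by simp)).le
        · rw [List.mem_singleton.1 ha]
      have hge : ∀ a ∈ q :: t, q ≤ a := by
        intro a ha
        rcases List.mem_cons.1 ha with rfl | ha
        · exact le_rfl
        · exact ((List.pairwise_cons.1 hinc.2.1).1 a ha).le
      have hxp : x ≤ p := hle x (by
        cases hs : s ++ [p] with
        | nil => simp at hs
        | cons c s' => rw [hs] at hxs; simp at hxs; simp [hxs])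
      have hqy : q ≤ y := hge y (List.mem_of_getLast? hyt)
      have hg1 : Good N jobs A B W x p (s ++ [p]) := by
        refine ⟨hxs, by simp, hinc.1, fun a ha => hl.bd a (List.mem_append_left _ ha), ?_⟩
        intro j hj h1 h2
        obtain ⟨u, v, huv, h3, h4, h5⟩ := hl.fit j hj h1 (by
          by_contra hne
          rw [Bool.not_eq_false] at hne
          rw [hB j p y (by omega) hy hne] at h2
          exact absurd h2 (by simp))
        rw [gaps_append, List.mem_append, List.mem_cons] at huv
        have hup : u < p := by
          by_contra hne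
          rw [not_lt] at hne
          have hu : u < N := by
            rcases huv with huv | huv | huv
            · exact hl.bd u (List.mem_append_left _ (mem_of_gaps huv).1)
            · rw [(Prod.mk.inj huv).1]; exact hpN
            · exact hl.bd u (List.mem_append_right _ (mem_of_gaps huv).1)
          rw [hB j p u hne hu h3] at h2
          exact absurd h2 (by simp)
        rcases huv with huv | huv | huv
        · exact ⟨u, v, huv, h3, h4, h5⟩
        · have := (Prod.mk.inj huv).1
          omega
        · have := hge u (mem_of_gaps huv).1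
          omega
      have hg2 : Good N jobs A B W q y (q :: t) := by
        refine ⟨rfl, hyt, hinc.2.1, fun a ha => hl.bd a (List.mem_append_right _ ha), ?_⟩
        intro j hj h1 h2
        obtain ⟨u, v, huv, h3, h4, h5⟩ := hl.fit j hj (by
          by_contra hne
          rw [Bool.not_eq_false] at hne
          rw [hA j x q (by omega) hqN hne] at h1
          exact absurd h1 (by simp)) h2
        rw [gaps_append, List.mem_append, List.mem_cons] at huv
        have huq : q < v := by
          by_contra hne
          rw [not_lt] at hne
          rw [hA j v q hne hqN h4] at h1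
          exact absurd h1 (by simp)
        rcases huv with huv | huv | huv
        · have := hle v (mem_of_gaps huv).2
          omega
        · have := (Prod.mk.inj huv).2
          omega
        · exact ⟨u, v, huv, h3, h4, h5⟩
      have hch : check jobs A B W x y p q = true := by
        rw [check_iff]
        refine ⟨hxp, hpq, hqy, fun j hj h1 h2 _ _ => ?_⟩
        obtain ⟨u, v, huv, _, _, h5⟩ := hl.fit j hj h1 h2
        exact hW j u v p q (gaps_lt hl.inc huv) (hl.bd v (mem_of_gaps huv).2) hpq hqN
          (hmax (u, v) huv) h5
      have l1 := ih x p _ hx hpN (by omega) hg1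
      have l2 := ih q y _ hqN hy (by omega) hg2
      have hn1 : look ((MT.step N jobs A B W)^[k] []) x p ≠ [] := by
        intro h
        rw [h] at l1
        simp at l1
      have hn2 : look ((MT.step N jobs A B W)^[k] []) q y ≠ [] := by
        intro h
        rw [h] at l2
        simp at l2
      have hmem := (mem_cands N jobs A B W (T := (MT.step N jobs A B W)^[k] []) (x := x) (y := y)).2
        ⟨p, hpN, q, hqN, hch, hn1, hn2, rfl⟩
      have hbest := (best_spec (List.ne_nil_of_mem hmem)).2 _ hmem
      unfold entry
      rw [if_neg (by omega)]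
      rw [List.length_append] at hbest ⊢
      omega

/-- The result of the dynamic program. -/
def final (N : ℕ) (jobs : List J) (A B : J → ℕ → Bool) (W : J → ℕ → ℕ → Bool) : List ℕ :=
  look ((MT.step N jobs A B W)^[N] []) 0 (N - 1)

theorem final_spec {X : Type} [LinearOrder X] (w : ℕ → ℕ → X) (hN : 2 ≤ N)
    (hA : ∀ j u v, u ≤ v → v < N → A j u = true → A j v = true)
    (hB : ∀ j u v, u ≤ v → v < N → B j v = true → B j u = true)
    (hW : ∀ j u v p q, u < v → v < N → p < q → q < N → w u v ≤ w p q → W j u v = true →
      W j p q = true)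
    (h0 : ∀ j, B j 0 = true) (h1 : ∀ j, A j (N - 1) = true) (h2 : ∀ j, W j 0 (N - 1) = true) :
    Good N jobs A B W 0 (N - 1) (final N jobs A B W) ∧
      ∀ l, Good N jobs A B W 0 (N - 1) l → l.length ≤ (final N jobs A B W).length := by
  have hmax : ∀ l, Good N jobs A B W 0 (N - 1) l → l.length ≤ (final N jobs A B W).length :=
    fun l hl => complete w hA hB hW N 0 (N - 1) l (by omega) (by omega) (by omega) hl
  have hg : Good N jobs A B W 0 (N - 1) [0, N - 1] := by
    refine ⟨rfl, rfl, by simp; omega, ?_, fun j hj _ _ => ⟨0, N - 1, by simp [gaps], h0 j, h1 j, h2 j⟩⟩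
    intro a ha
    simp only [List.mem_cons, List.not_mem_nil, or_false] at ha
    omega
  refine ⟨?_, hmax⟩
  have := hmax _ hg
  refine (inv_iterate N 0 (by omega) (N - 1) (by omega)).resolve_left ?_
  intro h
  unfold final at this
  rw [h] at this
  simp at this

end DP

end Pool.Agent.V11230.MT
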