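import Pool.Agent.V11230.Maint

/-!
# Maintenance jobs between parallel train paths

The paths `i` start at the times `t_i` at location `0` and arrive at the location `L` at the times
`t_i + δ`.  A job occupies a box.  This file shows that the dynamic program of `Maint.lean` yields a
schedule which cancels as few paths as possible.
-/

set_option autoImplicit false

namespace Pool.Agent.V11230.MT

/-- A maintenance job with release time `r`, deadline `d`, processing time `p` and location interval
`[ls, le]`. -/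
structure Job where
  r : ℚ
  d : ℚ
  p : ℚ
  ls : ℚ
  le : ℚ

/-- An instance: length of the corridor, travel time, start times of the paths, jobs. -/
structure Inst where
  L : ℚ
  δ : ℚ
  t : List ℚ
  jobs : List Job

/-- The conditions on an instance. -/
structure Inst.Valid (I : Inst) : Prop where
  L_pos : 0 < I.L
  δ_pos : 0 < I.δ
  t_nonneg : ∀ x ∈ I.t, 0 ≤ x
  t_inc : I.t.Pairwise (· < ·)
  job : ∀ j ∈ I.jobs, 0 ≤ j.r ∧ 0 ≤ j.d ∧ 0 ≤ j.p ∧ j.p ≤ j.d - j.r ∧ 0 ≤ j.ls ∧ j.ls ≤ j.le ∧
    j.le ≤ I.L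

/-- The path `i`: the segment from `(t_i, 0)` to `(t_i + δ, L)`. -/
def path (I : Inst) (i : Fin I.t.length) : Set (ℝ × ℝ) :=
  segment ℝ ((I.t.get i : ℝ), (0 : ℝ)) ((I.t.get i : ℝ) + (I.δ : ℝ), (I.L : ℝ))

/-- The box of the job `k` under the schedule `s`. -/
def box (I : Inst) (s : Fin I.jobs.length → ℝ) (k : Fin I.jobs.length) : Set (ℝ × ℝ) :=
  Set.Icc (s k) (s k + ((I.jobs.get k).p : ℝ)) ×ˢ
    Set.Icc ((I.jobs.get k).ls : ℝ) ((I.jobs.get k).le : ℝ)

/-- Start times in `[r_j, d_j - p_j]`. -/
def Feasible (I : Inst) (s : Fin I.jobs.length → ℝ) : Prop :=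
  ∀ k, s k ∈ Set.Icc ((I.jobs.get k).r : ℝ) (((I.jobs.get k).d : ℝ) - ((I.jobs.get k).p : ℝ))

open Classical in
/-- The cancelled paths: those that meet the box of some job. -/
noncomputable def cancelled (I : Inst) (s : Fin I.jobs.length → ℝ) : Finset (Fin I.t.length) :=
  Finset.univ.filter (fun i => ∃ k, (path I i ∩ box I s k).Nonempty)

theorem seg_box {t δ L σ p a b : ℝ} (hL : 0 < L) (hδ : 0 < δ) (hp : 0 ≤ p) (ha : 0 ≤ a)
    (hab : a ≤ b) (hb : b ≤ L) :
    (segment ℝ (t, (0 : ℝ)) (t + δ, L) ∩ Set.Icc σ (σ + p) ×ˢ Set.Icc a b).Nonempty ↔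
      σ ≤ t + δ * b / L ∧ t + δ * a / L ≤ σ + p := by
  rw [segment_eq_image']
  constructor
  · rintro ⟨_, ⟨θ, ⟨h0, h1⟩, rfl⟩, ⟨⟨h2, h3⟩, ⟨h4, h5⟩⟩⟩
    simp only [Prod.mk_sub_mk, Prod.smul_mk, Prod.mk_add_mk, smul_eq_mul, add_sub_cancel_left,
      sub_zero, zero_add] at h2 h3 h4 h5
    have h6 : θ ≤ b / L := (le_div_iff₀ hL).2 h5
    have h7 : a / L ≤ θ := (div_le_iff₀ hL).2 h4
    have h8 : θ * δ ≤ δ * b / L := by
      rw [mul_comm θ δ, mul_div_assoc]
      exact mul_le_mul_of_nonneg_left h6 hδ.le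
    have h9 : δ * a / L ≤ θ * δ := by
      rw [mul_comm θ δ, mul_div_assoc]
      exact mul_le_mul_of_nonneg_left h7 hδ.le
    constructor <;> linarith
  · rintro ⟨h1, h2⟩
    have h3 : a / L ≤ b / L := div_le_div_of_nonneg_right hab hL.le
    have h4 : (σ - t) / δ ≤ b / L := by
      rw [div_le_iff₀ hδ]
      have : b / L * δ = δ * b / L := by ring
      rw [this]
      linarith
    have h5 : 0 ≤ a / L := div_nonneg ha hL.le
    have h6 : b / L ≤ 1 := (div_le_one hL).2 hb
    obtain ⟨θ, hθ⟩ : ∃ θ, θ = max (a / L) ((σ - t) / δ) := ⟨_, rfl⟩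
    have h7 : θ ≤ b / L := by rw [hθ]; exact max_le h3 h4
    have h8 : a / L ≤ θ := by rw [hθ]; exact le_max_left _ _
    have h9 : (σ - t) / δ ≤ θ := by rw [hθ]; exact le_max_right _ _
    have h10 : t + θ * δ ≤ σ + p := by
      rcases max_choice (a / L) ((σ - t) / δ) with h | h
      · rw [hθ, h]
        have : a / L * δ = δ * a / L := by ring
        rw [this]
        exact h2
      · rw [hθ, h, div_mul_cancel₀ _ hδ.ne']
        linarith
    refine ⟨(t + θ * δ, θ * L), ⟨θ, ⟨h5.trans h8, h7.trans h6⟩, by simp⟩, ⟨⟨?_, h10⟩, ?_, ?_⟩⟩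
    · have := (div_le_iff₀ hδ).1 h9
      change σ ≤ t + θ * δ
      linarith
    · exact (div_le_iff₀ hL).1 h8
    · exact (le_div_iff₀ hL).1 h7

theorem meets_iff {I : Inst} (hI : I.Valid) {s : Fin I.jobs.length → ℝ} {i : Fin I.t.length}
    {k : Fin I.jobs.length} : (path I i ∩ box I s k).Nonempty ↔
      s k ≤ (I.t.get i : ℝ) + (I.δ : ℝ) * ((I.jobs.get k).le : ℝ) / (I.L : ℝ) ∧
      (I.t.get i : ℝ) + (I.δ : ℝ) * ((I.jobs.get k).ls : ℝ) / (I.L : ℝ) ≤
        s k + ((I.jobs.get k).p : ℝ) := by
  obtain ⟨-, -, hp, -, hls, hle, hleL⟩ := hI.job (I.jobs.get k) (List.get_mem _ _)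
  exact seg_box (by exact_mod_cast hI.L_pos) (by exact_mod_cast hI.δ_pos) (by exact_mod_cast hp)
    (by exact_mod_cast hls) (by exact_mod_cast hle) (by exact_mod_cast hleL)

/-! ### The functions of the algorithm -/

/-- the start time of the path at position `u`, `1 ≤ u ≤ m` -/
def tv (I : Inst) (u : ℕ) : ℚ := I.t.getD (u - 1) 0

/-- the job can be placed after the path at position `u` -/
def Bq (I : Inst) (j : Job) (u : ℕ) : Bool :=
  decide (u = 0) || (decide (u ≤ I.t.length) && decide (tv I u + I.δ * j.le / I.L + j.p < j.d))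

/-- the job can be placed before the path at position `v` -/
def Aq (I : Inst) (j : Job) (v : ℕ) : Bool :=
  decide (I.t.length < v) || (!(decide (v = 0)) && decide (j.r + j.p < tv I v + I.δ * j.ls / I.L))

/-- the job is short enough -/
def Wq (I : Inst) (j : Job) (u v : ℕ) : Bool :=
  decide (u = 0) || (decide (I.t.length < v) ||
    decide (tv I u + I.δ * j.le / I.L + j.p < tv I v + I.δ * j.ls / I.L))

/-- the kept positions -/
def kept (I : Inst) : List ℕ := final (I.t.length + 2) I.jobs (Aq I) (Bq I) (Wq I)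

/-- the gap for the job `j` -/
def pick (I : Inst) (j : Job) : ℕ × ℕ :=
  ((gaps (kept I)).filter (fun g => Bq I j g.1 && Aq I j g.2 && Wq I j g.1 g.2)).head?.getD (0, 0)

/-- the start time of a job in a gap -/
def startAt (I : Inst) (j : Job) (g : ℕ × ℕ) : ℚ :=
  ((if g.1 = 0 then j.r else max j.r (tv I g.1 + I.δ * j.le / I.L)) +
    (if I.t.length < g.2 then j.d - j.p else
      min (j.d - j.p) (tv I g.2 + I.δ * j.ls / I.L - j.p))) / 2

/-- the schedule -/
def sched (I : Inst) (k : Fin I.jobs.length) : ℚ :=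
  startAt I (I.jobs.get k) (pick I (I.jobs.get k))

theorem tv_get (I : Inst) (i : Fin I.t.length) : tv I ((i : ℕ) + 1) = I.t.get i := by
  unfold tv
  rw [Nat.add_sub_cancel, List.getD_eq_getElem _ _ i.2]
  rfl

theorem tv_mono {I : Inst} (hI : I.Valid) {u v : ℕ} (hu : u ≠ 0) (huv : u ≤ v)
    (hv : v ≤ I.t.length) : tv I u ≤ tv I v := by
  rcases huv.eq_or_lt with rfl | h
  · exact le_rfl
  · obtain ⟨u, rfl⟩ : ∃ k, u = k + 1 := ⟨u - 1, by omega⟩
    obtain ⟨v, rfl⟩ : ∃ k, v = k + 1 := ⟨v - 1, by omega⟩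
    rw [tv_get I ⟨u, by omega⟩, tv_get I ⟨v, by omega⟩]
    exact (List.pairwise_iff_get.1 hI.t_inc ⟨u, by omega⟩ ⟨v, by omega⟩
      (by simpa [Fin.lt_def] using h)).le

theorem Bq_iff {I : Inst} {j : Job} {u : ℕ} : Bq I j u = true ↔
    u = 0 ∨ (u ≤ I.t.length ∧ tv I u + I.δ * j.le / I.L + j.p < j.d) := by
  simp [Bq]

theorem Aq_iff {I : Inst} {j : Job} {v : ℕ} : Aq I j v = true ↔
    I.t.length < v ∨ (v ≠ 0 ∧ j.r + j.p < tv I v + I.δ * j.ls / I.L) := by
  simp [Aq]

theorem Wq_iff {I : Inst} {j : Job} {u v : ℕ} : Wq I j u v = true ↔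
    u = 0 ∨ I.t.length < v ∨ tv I u + I.δ * j.le / I.L + j.p < tv I v + I.δ * j.ls / I.L := by
  simp [Wq]

/-- the width of a gap -/
noncomputable def width (I : Inst) (u v : ℕ) : WithTop ℚ :=
  if u = 0 ∨ I.t.length < v then ⊤ else ((tv I v - tv I u : ℚ) : WithTop ℚ)

theorem kept_spec {I : Inst} (hI : I.Valid) :
    Good (I.t.length + 2) I.jobs (Aq I) (Bq I) (Wq I) 0 (I.t.length + 1) (kept I) ∧
      ∀ l, Good (I.t.length + 2) I.jobs (Aq I) (Bq I) (Wq I) 0 (I.t.length + 1) l →
        l.length ≤ (kept I).length := by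
  refine final_spec (width I) (by omega) ?_ ?_ ?_ ?_ ?_ ?_
  · intro j u v huv hv h
    rw [Aq_iff] at h ⊢
    by_cases hvm : I.t.length < v
    · exact Or.inl hvm
    · right
      rcases h with h | ⟨h1, h2⟩
      · omega
      · have := tv_mono hI h1 huv (by omega)
        exact ⟨by omega, by linarith⟩
  · intro j u v huv hv h
    rw [Bq_iff] at h ⊢
    by_cases hu : u = 0
    · exact Or.inl hu
    · right
      rcases h with h | ⟨h1, h2⟩
      · omega
      · have := tv_mono hI hu huv h1
        exact ⟨by omega, by linarith⟩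
  · intro j u v p q huv hv hpq hq hw h
    rw [Wq_iff] at h ⊢
    by_cases hp : p = 0
    · exact Or.inl hp
    by_cases hqm : I.t.length < q
    · exact Or.inr (Or.inl hqm)
    right
    right
    unfold width at hw
    rw [if_neg (by tauto : ¬ (p = 0 ∨ I.t.length < q))] at hw
    by_cases huv' : u = 0 ∨ I.t.length < v
    · rw [if_pos huv'] at hw
      exact absurd hw (by simp)
    · rw [if_neg huv'] at hw
      have hw' := WithTop.coe_le_coe.1 hw
      rcases h with h | h | h
      · exact absurd (Or.inl h) huv'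
      · exact absurd (Or.inr h) huv'
      · linarith
  · intro j
    rw [Bq_iff]
    exact Or.inl rfl
  · intro j
    rw [Aq_iff]
    exact Or.inl (by omega)
  · intro j
    rw [Wq_iff]
    exact Or.inl rfl

theorem startAt_spec {I : Inst} (hI : I.Valid) {j : Job} (hj : j ∈ I.jobs) {u v : ℕ}
    (hB : Bq I j u = true) (hA : Aq I j v = true) (hW : Wq I j u v = true) :
    j.r ≤ startAt I j (u, v) ∧ startAt I j (u, v) ≤ j.d - j.p ∧
      (u ≠ 0 → tv I u + I.δ * j.le / I.L < startAt I j (u, v)) ∧
      (v ≤ I.t.length → startAt I j (u, v) + j.p < tv I v + I.δ * j.ls / I.L) := by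
  obtain ⟨-, -, -, hp, -, -, -⟩ := hI.job j hj
  rw [Bq_iff] at hB
  rw [Aq_iff] at hA
  rw [Wq_iff] at hW
  unfold startAt
  dsimp only
  generalize tv I u + I.δ * j.le / I.L = x at *
  generalize tv I v + I.δ * j.ls / I.L = y at *
  by_cases hu : u = 0
  · rw [if_pos hu]
    by_cases hv : I.t.length < v
    · rw [if_pos hv]
      exact ⟨by linarith, by linarith, fun h => absurd hu h, fun h => by omega⟩
    · rw [if_neg hv]
      have h1 := hA.resolve_left hv
      have h2 : j.r ≤ min (j.d - j.p) (y - j.p) := le_min (by linarith) (by linarith)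
      have h3 := min_le_left (j.d - j.p) (y - j.p)
      have h4 := min_le_right (j.d - j.p) (y - j.p)
      exact ⟨by linarith, by linarith, fun h => absurd hu h, fun _ => by linarith⟩
  · rw [if_neg hu]
    have h0 := hB.resolve_left hu
    have h5 := le_max_left j.r x
    have h6 := le_max_right j.r x
    by_cases hv : I.t.length < v
    · rw [if_pos hv]
      have h7 : max j.r x ≤ j.d - j.p := max_le (by linarith) (by linarith)
      exact ⟨by linarith, by linarith, fun _ => by linarith, fun h => by omega⟩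
    · rw [if_neg hv]
      have h1 := hA.resolve_left hv
      have h8 := (hW.resolve_left hu).resolve_left hv
      have h3 := min_le_left (j.d - j.p) (y - j.p)
      have h4 := min_le_right (j.d - j.p) (y - j.p)
      have h9 : max j.r x < y - j.p := max_lt (by linarith) (by linarith)
      have h10 : x < min (j.d - j.p) (y - j.p) := lt_min (by linarith) (by linarith)
      have h11 : max j.r x ≤ min (j.d - j.p) (y - j.p) :=
        le_min (max_le (by linarith) (by linarith)) h9.le
      exact ⟨by linarith, by linarith, fun _ => by linarith, fun _ => by linarith⟩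

theorem pick_spec {I : Inst} (hI : I.Valid) {j : Job} (hj : j ∈ I.jobs) :
    pick I j ∈ gaps (kept I) ∧ Bq I j (pick I j).1 = true ∧ Aq I j (pick I j).2 = true ∧
      Wq I j (pick I j).1 (pick I j).2 = true := by
  obtain ⟨u, v, h1, h2, h3, h4⟩ := (kept_spec hI).1.fit j hj (by simp [Aq]) (by simp [Bq])
  have hmem : (u, v) ∈ (gaps (kept I)).filter
      (fun g => Bq I j g.1 && Aq I j g.2 && Wq I j g.1 g.2) := by
    rw [List.mem_filter]
    exact ⟨h1, by simp [h2, h3, h4]⟩
  have hb : pick I j ∈ (gaps (kept I)).filter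
      (fun g => Bq I j g.1 && Aq I j g.2 && Wq I j g.1 g.2) := by
    unfold pick
    cases h : (gaps (kept I)).filter (fun g => Bq I j g.1 && Aq I j g.2 && Wq I j g.1 g.2) with
    | nil => rw [h] at hmem; simp at hmem
    | cons a L => simp
  rw [List.mem_filter] at hb
  simpa [and_assoc] using hb

theorem feasible_sched {I : Inst} (hI : I.Valid) : Feasible I (fun k => (sched I k : ℝ)) := by
  intro k
  obtain ⟨-, h2, h3, h4⟩ := pick_spec hI (List.get_mem I.jobs k)
  obtain ⟨h5, h6, -, -⟩ := startAt_spec hI (List.get_mem I.jobs k) h2 h3 h4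
  have h5' : ((I.jobs.get k).r : ℝ) ≤ (sched I k : ℝ) := by
    unfold sched
    exact_mod_cast h5
  have h6' : (sched I k : ℝ) ≤ ((I.jobs.get k).d : ℝ) - ((I.jobs.get k).p : ℝ) := by
    unfold sched
    exact_mod_cast h6
  exact ⟨h5', h6'⟩

theorem cancelled_sched {I : Inst} (hI : I.Valid) :
    (cancelled I (fun k => (sched I k : ℝ))).card + (kept I).length ≤ I.t.length + 2 := by
  classical
  have hg := (kept_spec hI).1
  have hnd : (kept I).Nodup := hg.inc.imp (fun h => ne_of_lt h)
  have hcard : ((cancelled I (fun k => (sched I k : ℝ))).image (fun i : Fin I.t.length => (i : ℕ) + 1)).card =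
      (cancelled I (fun k => (sched I k : ℝ))).card := by
    refine Finset.card_image_of_injective _ ?_
    intro a b hab
    exact Fin.ext (by simpa using hab)
  have hdisj : Disjoint ((cancelled I (fun k => (sched I k : ℝ))).image (fun i : Fin I.t.length => (i : ℕ) + 1))
      (kept I).toFinset := by
    rw [Finset.disjoint_left]
    intro a ha hk
    rw [Finset.mem_image] at ha
    obtain ⟨i, hi, rfl⟩ := ha
    rw [List.mem_toFinset] at hk
    unfold cancelled at hi
    rw [Finset.mem_filter] at hi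
    obtain ⟨-, k, hmeet⟩ := hi
    rw [meets_iff hI] at hmeet
    obtain ⟨h1, h2, h3, h4⟩ := pick_spec hI (List.get_mem I.jobs k)
    obtain ⟨⟨u, v⟩, huv⟩ : ∃ g, g = pick I (I.jobs.get k) := ⟨_, rfl⟩
    have hsch : sched I k = startAt I (I.jobs.get k) (u, v) := by
      unfold sched
      rw [← huv]
    rw [← huv] at h1 h2 h3 h4
    dsimp only at h2 h3 h4
    obtain ⟨-, -, h7, h8⟩ := startAt_spec hI (List.get_mem I.jobs k) h2 h3 h4
    obtain ⟨hm1, hm2⟩ := hmeet
    rcases le_or_le_of_gap hg.inc h1 hk with hle | hle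
    · have hu : u ≠ 0 := by omega
      have hum : u ≤ I.t.length := ((Bq_iff.1 h2).resolve_left hu).1
      have h9 := tv_mono hI (by omega : (i : ℕ) + 1 ≠ 0) hle hum
      rw [tv_get] at h9
      have h10 := h7 hu
      have h11 : I.t.get i + I.δ * (I.jobs.get k).le / I.L < sched I k := by
        rw [hsch]
        linarith
      have h12 : (I.t.get i : ℝ) + (I.δ : ℝ) * ((I.jobs.get k).le : ℝ) / (I.L : ℝ) <
        (sched I k : ℝ) := by exact_mod_cast h11
      exact absurd hm1 (not_le.2 h12)
    · have hv0 : v ≠ 0 := by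
        have := gaps_lt hg.inc h1
        omega
      have hi := i.2
      have h9 := tv_mono hI hv0 hle (by omega)
      rw [tv_get] at h9
      have h10 := h8 (by omega)
      have h11 : sched I k + (I.jobs.get k).p < I.t.get i + I.δ * (I.jobs.get k).ls / I.L := by
        rw [hsch]
        linarith
      have h12 : (sched I k : ℝ) + ((I.jobs.get k).p : ℝ) <
        (I.t.get i : ℝ) + (I.δ : ℝ) * ((I.jobs.get k).ls : ℝ) / (I.L : ℝ) := by
        exact_mod_cast h11
      exact absurd hm2 (not_le.2 h12)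
  rw [← hcard, ← List.toFinset_card_of_nodup hnd, ← Finset.card_union_of_disjoint hdisj,
    ← Finset.card_range (I.t.length + 2)]
  refine Finset.card_le_card fun a ha => ?_
  rw [Finset.mem_union] at ha
  rw [Finset.mem_range]
  rcases ha with ha | ha
  · rw [Finset.mem_image] at ha
    obtain ⟨i, -, rfl⟩ := ha
    have := i.2
    omega
  · exact hg.bd a (List.mem_toFinset.1 ha)

theorem exists_good {I : Inst} (hI : I.Valid) {s : Fin I.jobs.length → ℝ} (hs : Feasible I s) :
    ∃ l, Good (I.t.length + 2) I.jobs (Aq I) (Bq I) (Wq I) 0 (I.t.length + 1) l ∧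
      (cancelled I s).card + l.length = I.t.length + 2 := by
  classical
  let K : List (Fin I.t.length) := (List.finRange I.t.length).filter
    (fun i => decide (i ∉ cancelled I s))
  have hK : ∀ i, i ∈ K ↔ i ∉ cancelled I s := by
    intro i
    simp [K]
  have hKinc : K.Pairwise (· < ·) := (List.pairwise_lt_finRange _).filter _
  have hKcard : (cancelled I s).card + K.length = I.t.length := by
    have h1 : K.toFinset = (cancelled I s)ᶜ := by
      ext i
      rw [List.mem_toFinset, hK, Finset.mem_compl]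
    have h2 : K.length = ((cancelled I s)ᶜ).card := by
      rw [← h1, List.toFinset_card_of_nodup (hKinc.imp (fun h => ne_of_lt h))]
    rw [h2, Finset.card_add_card_compl, Fintype.card_fin]
  refine ⟨(0 :: K.map (fun i : Fin I.t.length => (i : ℕ) + 1)) ++ [I.t.length + 1], ⟨rfl, by rw [List.getLast?_append]; rfl, ?_, ?_, ?_⟩, ?_⟩
  · rw [List.pairwise_append, List.pairwise_cons, List.pairwise_map]
    refine ⟨⟨?_, hKinc.imp (fun h => by simpa using h)⟩, by simp, ?_⟩
    · intro a ha
      rw [List.mem_map] at ha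
      obtain ⟨i, -, rfl⟩ := ha
      omega
    · intro a ha b hb
      rw [List.mem_singleton.1 hb]
      rcases List.mem_cons.1 ha with rfl | ha
      · omega
      · rw [List.mem_map] at ha
        obtain ⟨i, -, rfl⟩ := ha
        have := i.2
        omega
  · intro a ha
    rcases List.mem_append.1 ha with ha | ha
    · rcases List.mem_cons.1 ha with rfl | ha
      · omega
      · rw [List.mem_map] at ha
        obtain ⟨i, -, rfl⟩ := ha
        have := i.2
        omega
    · rw [List.mem_singleton.1 ha]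
      omega
  · intro j hj _ _
    obtain ⟨k, rfl⟩ := List.get_of_mem hj
    obtain ⟨u, v, huv, hPu, hPv⟩ := exists_switch
      (fun u => u = 0 ∨ (u ≤ I.t.length ∧
        (tv I u : ℝ) + (I.δ : ℝ) * ((I.jobs.get k).le : ℝ) / (I.L : ℝ) < s k))
      ((0 :: K.map (fun i : Fin I.t.length => (i : ℕ) + 1)) ++ [I.t.length + 1]) 0 (I.t.length + 1) rfl
      (by rw [List.getLast?_append]; rfl) (Or.inl rfl) (by
        rintro (h | ⟨h, -⟩)
        · omega
        · omega)
    obtain ⟨hs1, hs2⟩ := hs k
    have hv0 : v ≠ 0 := by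
      rintro rfl
      exact hPv (Or.inl rfl)
    have hvm := (mem_of_gaps huv).2
    have hv : v = I.t.length + 1 ∨ (v ≤ I.t.length ∧ s k + ((I.jobs.get k).p : ℝ) <
        (tv I v : ℝ) + (I.δ : ℝ) * ((I.jobs.get k).ls : ℝ) / (I.L : ℝ)) := by
      rcases List.mem_append.1 hvm with hvm | hvm
      · rcases List.mem_cons.1 hvm with hvm | hvm
        · exact absurd hvm hv0
        · right
          rw [List.mem_map] at hvm
          obtain ⟨i, hi, rfl⟩ := hvm
          have hi2 := i.2
          refine ⟨by omega, ?_⟩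
          have hnot : ¬ ∃ k, (path I i ∩ box I s k).Nonempty := by
            have := (hK i).1 hi
            unfold cancelled at this
            simpa using this
          by_contra hlt
          refine hnot ⟨k, (meets_iff hI).2 ⟨?_, ?_⟩⟩
          · by_contra h
            refine hPv (Or.inr ⟨by omega, ?_⟩)
            rw [tv_get]
            exact not_le.1 h
          · rw [tv_get] at hlt
            exact not_lt.1 hlt
      · exact Or.inl (List.mem_singleton.1 hvm)
    refine ⟨u, v, huv, ?_, ?_, ?_⟩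
    · rw [Bq_iff]
      rcases hPu with h | ⟨h, h'⟩
      · exact Or.inl h
      · refine Or.inr ⟨h, ?_⟩
        have : (tv I u : ℝ) + (I.δ : ℝ) * ((I.jobs.get k).le : ℝ) / (I.L : ℝ) +
            ((I.jobs.get k).p : ℝ) < ((I.jobs.get k).d : ℝ) := by linarith
        exact_mod_cast this
    · rw [Aq_iff]
      rcases hv with h | ⟨h, h'⟩
      · exact Or.inl (by omega)
      · refine Or.inr ⟨hv0, ?_⟩
        have : ((I.jobs.get k).r : ℝ) + ((I.jobs.get k).p : ℝ) <
            (tv I v : ℝ) + (I.δ : ℝ) * ((I.jobs.get k).ls : ℝ) / (I.L : ℝ) := by linarith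
        exact_mod_cast this
    · rw [Wq_iff]
      rcases hPu with h | ⟨h, h'⟩
      · exact Or.inl h
      · right
        rcases hv with h2 | ⟨h2, h2'⟩
        · exact Or.inl (by omega)
        · right
          have : (tv I u : ℝ) + (I.δ : ℝ) * ((I.jobs.get k).le : ℝ) / (I.L : ℝ) +
              ((I.jobs.get k).p : ℝ) <
              (tv I v : ℝ) + (I.δ : ℝ) * ((I.jobs.get k).ls : ℝ) / (I.L : ℝ) := by linarith
          exact_mod_cast this
  · simp only [List.cons_append, List.length_cons, List.length_append, List.length_map,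
      List.length_nil]
    omega

/-- **The schedule of the dynamic program is optimal.** -/
theorem sched_optimal {I : Inst} (hI : I.Valid) : Feasible I (fun k => (sched I k : ℝ)) ∧
    ∀ s : Fin I.jobs.length → ℝ, Feasible I s →
      (cancelled I (fun k => (sched I k : ℝ))).card ≤ (cancelled I s).card := by
  refine ⟨feasible_sched hI, fun s hs => ?_⟩
  obtain ⟨l, hl, hc⟩ := exists_good hI hs
  have h1 := (kept_spec hI).2 l hl
  have h2 := cancelled_sched hI
  omega

end Pool.Agent.V11230.MT
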