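import Pool.Agent.V11230.Maint2
import Pool.Agent.NPC.Dec

/-!
# The dynamic program on encoded instances
-/

set_option autoImplicit false

namespace Pool.Agent.NPC.V11230.MTA

open Pool.Agent.NPC Pool.Agent.V11230.MT

/-- A fraction: numerator and denominator. -/
abbrev Fr : Type := ℕ × ℕ

/-- the code of a nonnegative rational number: numerator and denominator in lowest terms -/
def frac (q : ℚ) : Fr := (q.num.toNat, q.den)

/-- `x` is a fraction for `q` -/
def Rep (x : Fr) (q : ℚ) : Prop := x.2 ≠ 0 ∧ q * x.2 = x.1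

def fadd (x y : Fr) : Fr := (x.1 * y.2 + y.1 * x.2, x.2 * y.2)
def fmul (x y : Fr) : Fr := (x.1 * y.1, x.2 * y.2)
def fdiv (x y : Fr) : Fr := (x.1 * y.2, x.2 * y.1)
def fsub (x y : Fr) : Fr := (x.1 * y.2 - y.1 * x.2, x.2 * y.2)
def fhalf (x : Fr) : Fr := (x.1, 2 * x.2)
def flt (x y : Fr) : Bool := decide (x.1 * y.2 < y.1 * x.2)
def fmax (x y : Fr) : Fr := bif flt x y then y else x
def fmin (x y : Fr) : Fr := bif flt y x then y else x

theorem rep_frac {q : ℚ} (hq : 0 ≤ q) : Rep (frac q) q := by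
  refine ⟨q.den_nz, ?_⟩
  have h1 : ((q.num.toNat : ℤ) : ℚ) = q.num := by
    rw [Int.toNat_of_nonneg (Rat.num_nonneg.2 hq)]
  unfold frac
  dsimp only
  rw [Rat.mul_den_eq_num]
  exact_mod_cast h1.symm

section
variable {x y : Fr} {p q : ℚ}

theorem Rep.add (hx : Rep x p) (hy : Rep y q) : Rep (fadd x y) (p + q) := by
  refine ⟨Nat.mul_ne_zero hx.1 hy.1, ?_⟩
  unfold fadd
  push_cast
  rw [← hx.2, ← hy.2]
  ring

theorem Rep.mul (hx : Rep x p) (hy : Rep y q) : Rep (fmul x y) (p * q) := by
  refine ⟨Nat.mul_ne_zero hx.1 hy.1, ?_⟩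
  unfold fmul
  push_cast
  rw [← hx.2, ← hy.2]
  ring

theorem Rep.div (hx : Rep x p) (hy : Rep y q) (hq : q ≠ 0) : Rep (fdiv x y) (p / q) := by
  have hy1 : (y.1 : ℚ) ≠ 0 := by
    rw [← hy.2]
    exact mul_ne_zero hq (by exact_mod_cast hy.1)
  refine ⟨Nat.mul_ne_zero hx.1 (by exact_mod_cast hy1), ?_⟩
  unfold fdiv
  push_cast
  rw [← hx.2, ← hy.2]
  field_simp

theorem Rep.lt_iff (hx : Rep x p) (hy : Rep y q) : flt x y = true ↔ p < q := by
  have hx2 : (0 : ℚ) < x.2 := by exact_mod_cast Nat.pos_of_ne_zero hx.1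
  have hy2 : (0 : ℚ) < y.2 := by exact_mod_cast Nat.pos_of_ne_zero hy.1
  unfold flt
  rw [decide_eq_true_eq]
  have h1 : (x.1 * y.2 < y.1 * x.2) ↔ ((x.1 : ℚ) * y.2 < y.1 * x.2) := by
    constructor
    · intro h; exact_mod_cast h
    · intro h; exact_mod_cast h
  rw [h1, ← hx.2, ← hy.2]
  have h2 : p * x.2 * y.2 = (x.2 * y.2) * p := by ring
  have h3 : q * y.2 * x.2 = (x.2 * y.2) * q := by ring
  rw [h2, h3]
  exact mul_lt_mul_iff_right₀ (mul_pos hx2 hy2)

theorem Rep.sub (hx : Rep x p) (hy : Rep y q) (h : q ≤ p) : Rep (fsub x y) (p - q) := by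
  refine ⟨Nat.mul_ne_zero hx.1 hy.1, ?_⟩
  have h1 : y.1 * x.2 ≤ x.1 * y.2 := by
    by_contra hne
    have : flt x y = true := by
      unfold flt
      simpa using hne
    rw [hx.lt_iff hy] at this
    exact absurd this (not_lt.2 h)
  unfold fsub
  dsimp only
  rw [Nat.cast_sub h1]
  push_cast
  rw [← hx.2, ← hy.2]
  ring

theorem Rep.half (hx : Rep x p) : Rep (fhalf x) (p / 2) := by
  refine ⟨Nat.mul_ne_zero two_ne_zero hx.1, ?_⟩
  unfold fhalf
  push_cast
  rw [← hx.2]
  ring

theorem Rep.max (hx : Rep x p) (hy : Rep y q) : Rep (fmax x y) (max p q) := by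
  unfold fmax
  by_cases h : p < q
  · rw [(hx.lt_iff hy).2 h, max_eq_right h.le]
    exact hy
  · have : flt x y = false := by
      rw [← Bool.not_eq_true, hx.lt_iff hy]
      exact h
    rw [this, max_eq_left (not_lt.1 h)]
    exact hx

theorem Rep.min (hx : Rep x p) (hy : Rep y q) : Rep (fmin x y) (min p q) := by
  unfold fmin
  by_cases h : q < p
  · rw [(hy.lt_iff hx).2 h, min_eq_right h.le]
    exact hy
  · have : flt y x = false := by
      rw [← Bool.not_eq_true, hy.lt_iff hx]
      exact h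
    rw [this, min_eq_left (not_lt.1 h)]
    exact hx

end

/-! ### Encoded instances -/

/-- the code of a job: `r, d, p, ls, le` -/
abbrev JC : Type := Fr × Fr × Fr × Fr × Fr

/-- the code of an instance: `(L, δ)`, start times, jobs -/
abbrev IC : Type := (Fr × Fr) × List Fr × List JC

/-- the code of a job -/
def codeJob (j : Job) : JC := (frac j.r, frac j.d, frac j.p, frac j.ls, frac j.le)

/-- the code of an instance -/
def code (I : Inst) : IC := ((frac I.L, frac I.δ), I.t.map frac, I.jobs.map codeJob)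

/-- number of paths -/
def mm (c : IC) : ℕ := c.2.1.length

/-- start time -/
def tvc (c : IC) (u : ℕ) : Fr := c.2.1.getD (u - 1) (0, 1)

/-- the time at which the path at position `u` has passed the end of the job -/
def xc (c : IC) (j : JC) (u : ℕ) : Fr := fadd (tvc c u) (fdiv (fmul c.1.2 j.2.2.2.2) c.1.1)

/-- the time at which the path at position `v` reaches the begin of the job -/
def yc (c : IC) (j : JC) (v : ℕ) : Fr := fadd (tvc c v) (fdiv (fmul c.1.2 j.2.2.2.1) c.1.1)

def Bc (c : IC) (j : JC) (u : ℕ) : Bool :=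
  decide (u = 0) || (decide (u ≤ mm c) && flt (fadd (xc c j u) j.2.2.1) j.2.1)

def Ac (c : IC) (j : JC) (v : ℕ) : Bool :=
  decide (mm c < v) || (!(decide (v = 0)) && flt (fadd j.1 j.2.2.1) (yc c j v))

def Wc (c : IC) (j : JC) (u v : ℕ) : Bool :=
  decide (u = 0) || (decide (mm c < v) || flt (fadd (xc c j u) j.2.2.1) (yc c j v))

/-- the kept positions -/
def keptc (c : IC) : List ℕ := final (mm c + 2) c.2.2 (Ac c) (Bc c) (Wc c)

/-- the gap of a job -/
def pickc (c : IC) (j : JC) : ℕ × ℕ :=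
  ((gaps (keptc c)).filter (fun g => Bc c j g.1 && Ac c j g.2 && Wc c j g.1 g.2)).head?.getD (0, 0)

/-- the start time of a job -/
def startc (c : IC) (j : JC) (g : ℕ × ℕ) : Fr :=
  fhalf (fadd (if g.1 = 0 then j.1 else fmax j.1 (xc c j g.1))
    (if mm c < g.2 then fsub j.2.1 j.2.2.1 else
      fmin (fsub j.2.1 j.2.2.1) (fsub (yc c j g.2) j.2.2.1)))

/-- the output -/
def out (c : IC) : List Fr := c.2.2.map (fun j => startc c j (pickc c j))

/-! ### Correctness -/

theorem flt_eq {x y : Fr} {p q : ℚ} (hx : Rep x p) (hy : Rep y q) :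
    flt x y = decide (p < q) := by
  rw [Bool.eq_iff_iff, hx.lt_iff hy, decide_eq_true_eq]

section
variable {I : Inst} (hI : I.Valid)

include hI

theorem rep_tvc (u : ℕ) : Rep (tvc (code I) u) (tv I u) := by
  unfold tvc tv code
  dsimp only
  by_cases h : u - 1 < I.t.length
  · rw [List.getD_eq_getElem _ _ h, List.getD_eq_getElem _ _ (by simpa using h), List.getElem_map]
    exact rep_frac (hI.t_nonneg _ (List.getElem_mem _))
  · rw [List.getD_eq_default _ _ (by simpa using h), List.getD_eq_default _ _ (by simpa using h)]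
    exact ⟨one_ne_zero, by simp⟩

variable {j : Job} (hj : j ∈ I.jobs)

include hj

theorem rep_xc (u : ℕ) : Rep (xc (code I) (codeJob j) u) (tv I u + I.δ * j.le / I.L) := by
  obtain ⟨-, -, -, -, h5, h6, -⟩ := hI.job j hj
  exact (rep_tvc hI u).add (((rep_frac hI.δ_pos.le).mul (rep_frac (h5.trans h6))).div
    (rep_frac hI.L_pos.le) hI.L_pos.ne')

theorem rep_yc (v : ℕ) : Rep (yc (code I) (codeJob j) v) (tv I v + I.δ * j.ls / I.L) := by
  obtain ⟨-, -, -, -, h5, -, -⟩ := hI.job j hj
  exact (rep_tvc hI v).add (((rep_frac hI.δ_pos.le).mul (rep_frac h5)).div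
    (rep_frac hI.L_pos.le) hI.L_pos.ne')

theorem Bc_eq (u : ℕ) : Bc (code I) (codeJob j) u = Bq I j u := by
  obtain ⟨-, h2, h3, -, -, -, -⟩ := hI.job j hj
  unfold Bc Bq
  have e : flt (fadd (xc (code I) (codeJob j) u) (codeJob j).2.2.1) (codeJob j).2.1 =
      decide (tv I u + I.δ * j.le / I.L + j.p < j.d) :=
    flt_eq ((rep_xc hI hj u).add (rep_frac h3)) (rep_frac h2)
  have hm : mm (code I) = I.t.length := by simp [mm, code]
  rw [e, hm]

theorem Ac_eq (v : ℕ) : Ac (code I) (codeJob j) v = Aq I j v := by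
  obtain ⟨h1, h2, h3, -, -, -, -⟩ := hI.job j hj
  unfold Ac Aq
  have e : flt (fadd (codeJob j).1 (codeJob j).2.2.1) (yc (code I) (codeJob j) v) =
      decide (j.r + j.p < tv I v + I.δ * j.ls / I.L) :=
    flt_eq ((rep_frac h1).add (rep_frac h3)) (rep_yc hI hj v)
  have hm : mm (code I) = I.t.length := by simp [mm, code]
  rw [e, hm]

theorem Wc_eq (u v : ℕ) : Wc (code I) (codeJob j) u v = Wq I j u v := by
  obtain ⟨h1, h2, h3, -, -, -, -⟩ := hI.job j hj
  unfold Wc Wq
  have e : flt (fadd (xc (code I) (codeJob j) u) (codeJob j).2.2.1)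
      (yc (code I) (codeJob j) v) =
      decide (tv I u + I.δ * j.le / I.L + j.p < tv I v + I.δ * j.ls / I.L) :=
    flt_eq ((rep_xc hI hj u).add (rep_frac h3)) (rep_yc hI hj v)
  have hm : mm (code I) = I.t.length := by simp [mm, code]
  rw [e, hm]

theorem rep_startc {u v : ℕ} (hA : Aq I j v = true) :
    Rep (startc (code I) (codeJob j) (u, v)) (startAt I j (u, v)) := by
  obtain ⟨h1, h2, h3, h4, -, -, -⟩ := hI.job j hj
  unfold startc startAt
  refine Rep.half (Rep.add ?_ ?_)
  · dsimp only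
    split_ifs
    · exact rep_frac h1
    · exact (rep_frac h1).max (rep_xc hI hj u)
  · have hm : mm (code I) = I.t.length := by simp [mm, code]
    dsimp only
    rw [hm]
    rw [Aq_iff] at hA
    have h5 : Rep (fsub (codeJob j).2.1 (codeJob j).2.2.1) (j.d - j.p) :=
      (rep_frac h2).sub (rep_frac h3) (by linarith)
    split_ifs with h
    · exact h5
    · have h6 := (hA.resolve_left h).2
      exact h5.min ((rep_yc hI hj v).sub (rep_frac h3) (by linarith))

end

section
variable {J J' : Type} {N : ℕ} {jobs : List J} {g : J → J'} {A B : J → ℕ → Bool}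
  {W : J → ℕ → ℕ → Bool} {A' B' : J' → ℕ → Bool} {W' : J' → ℕ → ℕ → Bool}

theorem all_map_congr (f' : J' → Bool) (f : J → Bool) (h : ∀ j ∈ jobs, f' (g j) = f j) :
    (jobs.map g).all f' = jobs.all f := by
  rw [Bool.eq_iff_iff, List.all_eq_true, List.all_eq_true]
  constructor
  · intro h1 j hj
    rw [← h j hj]
    exact h1 _ (List.mem_map_of_mem hj)
  · intro h1 j' hj'
    rw [List.mem_map] at hj'
    obtain ⟨j, hj, rfl⟩ := hj'
    rw [h j hj]
    exact h1 j hj

theorem final_congr (hA : ∀ j ∈ jobs, ∀ v, A' (g j) v = A j v)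
    (hB : ∀ j ∈ jobs, ∀ v, B' (g j) v = B j v)
    (hW : ∀ j ∈ jobs, ∀ u v, W' (g j) u v = W j u v) :
    final N (jobs.map g) A' B' W' = final N jobs A B W := by
  have hcheck : ∀ x y p q, check (jobs.map g) A' B' W' x y p q = check jobs A B W x y p q := by
    intro x y p q
    unfold check
    rw [all_map_congr (g := g) _ (fun j => A j x || B j y || !(B j p) || !(A j q) || W j p q)
      (fun j hj => by rw [hA j hj, hB j hj, hB j hj, hA j hj, hW j hj])]
  have hstep : step N (jobs.map g) A' B' W' = step N jobs A B W := by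
    funext T
    unfold step entry
    refine List.map_congr_left fun x _ => List.map_congr_left fun y _ => ?_
    rw [all_map_congr (g := g) _ (fun j => A j x || B j x)
      (fun j hj => by rw [hA j hj, hB j hj])]
    unfold cands
    simp only [hcheck]
  unfold final
  rw [hstep]

end

theorem keptc_code {I : Inst} (hI : I.Valid) : keptc (code I) = kept I := by
  have hm : mm (code I) = I.t.length := by simp [mm, code]
  unfold keptc kept
  rw [hm]
  exact final_congr (fun j hj v => Ac_eq hI hj v) (fun j hj v => Bc_eq hI hj v)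
    (fun j hj u v => Wc_eq hI hj u v)

theorem pickc_code {I : Inst} (hI : I.Valid) {j : Job} (hj : j ∈ I.jobs) :
    pickc (code I) (codeJob j) = pick I j := by
  unfold pickc pick
  rw [keptc_code hI]
  simp only [Ac_eq hI hj, Bc_eq hI hj, Wc_eq hI hj]

theorem out_code {I : Inst} (hI : I.Valid) :
    (out (code I)).length = I.jobs.length ∧ ∀ k : Fin I.jobs.length,
      ∃ x : Fr, (out (code I))[(k : ℕ)]? = some x ∧ x.2 ≠ 0 ∧ sched I k = x.1 / x.2 := by
  constructor
  · simp [out, code]
  · intro k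
    refine ⟨startc (code I) (codeJob (I.jobs.get k)) (pickc (code I) (codeJob (I.jobs.get k))),
      ?_, ?_⟩
    · unfold out
      rw [List.getElem?_map]
      have : (code I).2.2 = I.jobs.map codeJob := rfl
      rw [this, List.getElem?_map, List.getElem?_eq_getElem k.2]
      rfl
    · rw [pickc_code hI (List.get_mem _ _)]
      obtain ⟨-, -, h3, -⟩ := pick_spec hI (List.get_mem I.jobs k)
      have h := rep_startc hI (List.get_mem I.jobs k) (u := (pick I (I.jobs.get k)).1) h3
      refine ⟨h.1, ?_⟩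
      unfold sched
      rw [eq_div_iff (by exact_mod_cast h.1)]
      exact h.2

end Pool.Agent.NPC.V11230.MTA
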