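import Pool.Agent.V11230.Maint3

/-!
# The dynamic program runs in polynomial time
-/

set_option autoImplicit false

namespace Pool.Agent.NPC.V11230.MTA

open Pool.Agent.NPC Pool.Agent.V11230.MT

section
variable {α : Type} [TEnc α] {f g : α → Fr}

theorem poly_fadd (hf : Poly f) (hg : Poly g) : Poly (fun a => fadd (f a) (g a)) :=
  Poly.pair (Poly.add (Poly.mul (Poly.fst hf) (Poly.snd hg)) (Poly.mul (Poly.fst hg) (Poly.snd hf)))
    (Poly.mul (Poly.snd hf) (Poly.snd hg))

theorem poly_fmul (hf : Poly f) (hg : Poly g) : Poly (fun a => fmul (f a) (g a)) :=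
  Poly.pair (Poly.mul (Poly.fst hf) (Poly.fst hg)) (Poly.mul (Poly.snd hf) (Poly.snd hg))

theorem poly_fdiv (hf : Poly f) (hg : Poly g) : Poly (fun a => fdiv (f a) (g a)) :=
  Poly.pair (Poly.mul (Poly.fst hf) (Poly.snd hg)) (Poly.mul (Poly.snd hf) (Poly.fst hg))

theorem poly_fsub (hf : Poly f) (hg : Poly g) : Poly (fun a => fsub (f a) (g a)) :=
  Poly.pair (Poly.sub (Poly.mul (Poly.fst hf) (Poly.snd hg)) (Poly.mul (Poly.fst hg) (Poly.snd hf)))
    (Poly.mul (Poly.snd hf) (Poly.snd hg))

theorem poly_fhalf (hf : Poly f) : Poly (fun a => fhalf (f a)) :=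
  Poly.pair (Poly.fst hf) (Poly.mul (Poly.const 2) (Poly.snd hf))

theorem poly_flt (hf : Poly f) (hg : Poly g) : Poly (fun a => flt (f a) (g a)) :=
  Poly.decide_lt (Poly.mul (Poly.fst hf) (Poly.snd hg)) (Poly.mul (Poly.fst hg) (Poly.snd hf))

theorem poly_fmax (hf : Poly f) (hg : Poly g) : Poly (fun a => fmax (f a) (g a)) :=
  Poly.cond (poly_flt hf hg) hg hf

theorem poly_fmin (hf : Poly f) (hg : Poly g) : Poly (fun a => fmin (f a) (g a)) :=
  Poly.cond (poly_flt hg hf) hg hf

variable {c : α → IC} {j : α → JC} {u v : α → ℕ}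

theorem upoly_mm (hc : Poly c) : UPoly (fun a => mm (c a)) :=
  UPoly.length (Poly.fst (Poly.snd hc))

theorem poly_tvc (hc : Poly c) (hu : Poly u) : Poly (fun a => tvc (c a) (u a)) :=
  Poly.getD (Poly.fst (Poly.snd hc)) (Poly.sub hu (Poly.const 1)) (Poly.const (0, 1))

theorem poly_xc (hc : Poly c) (hj : Poly j) (hu : Poly u) :
    Poly (fun a => xc (c a) (j a) (u a)) :=
  poly_fadd (poly_tvc hc hu) (poly_fdiv (poly_fmul (Poly.snd (Poly.fst hc))
    (Poly.snd (Poly.snd (Poly.snd (Poly.snd hj))))) (Poly.fst (Poly.fst hc)))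

theorem poly_yc (hc : Poly c) (hj : Poly j) (hu : Poly u) :
    Poly (fun a => yc (c a) (j a) (u a)) :=
  poly_fadd (poly_tvc hc hu) (poly_fdiv (poly_fmul (Poly.snd (Poly.fst hc))
    (Poly.fst (Poly.snd (Poly.snd (Poly.snd hj))))) (Poly.fst (Poly.fst hc)))

theorem poly_Bc (hc : Poly c) (hj : Poly j) (hu : Poly u) :
    Poly (fun a => Bc (c a) (j a) (u a)) :=
  Poly.or (Poly.decide_eq hu (Poly.const 0)) (Poly.and (Poly.decide_le hu (upoly_mm hc).toPoly)
    (poly_flt (poly_fadd (poly_xc hc hj hu) (Poly.fst (Poly.snd (Poly.snd hj))))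
      (Poly.fst (Poly.snd hj))))

theorem poly_Ac (hc : Poly c) (hj : Poly j) (hv : Poly v) :
    Poly (fun a => Ac (c a) (j a) (v a)) :=
  Poly.or (Poly.decide_lt (upoly_mm hc).toPoly hv) (Poly.and (Poly.not (Poly.decide_eq hv
    (Poly.const 0))) (poly_flt (poly_fadd (Poly.fst hj) (Poly.fst (Poly.snd (Poly.snd hj))))
      (poly_yc hc hj hv)))

theorem poly_Wc (hc : Poly c) (hj : Poly j) (hu : Poly u) (hv : Poly v) :
    Poly (fun a => Wc (c a) (j a) (u a) (v a)) :=
  Poly.or (Poly.decide_eq hu (Poly.const 0)) (Poly.or (Poly.decide_lt (upoly_mm hc).toPoly hv)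
    (poly_flt (poly_fadd (poly_xc hc hj hu) (Poly.fst (Poly.snd (Poly.snd hj))))
      (poly_yc hc hj hv)))

theorem poly_startc {p : α → ℕ × ℕ} (hc : Poly c) (hj : Poly j) (hp : Poly p) :
    Poly (fun a => startc (c a) (j a) (p a)) :=
  poly_fhalf (poly_fadd
    (Poly.ite (Poly.decide_eq (Poly.fst hp) (Poly.const 0)) (Poly.fst hj)
      (poly_fmax (Poly.fst hj) (poly_xc hc hj (Poly.fst hp))))
    (Poly.ite (Poly.decide_lt (upoly_mm hc).toPoly (Poly.snd hp))
      (poly_fsub (Poly.fst (Poly.snd hj)) (Poly.fst (Poly.snd (Poly.snd hj))))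
      (poly_fmin (poly_fsub (Poly.fst (Poly.snd hj)) (Poly.fst (Poly.snd (Poly.snd hj))))
        (poly_fsub (poly_yc hc hj (Poly.snd hp)) (Poly.fst (Poly.snd (Poly.snd hj)))))))

variable {x y p q : α → ℕ}

theorem poly_check (hc : Poly c) (hx : Poly x) (hy : Poly y) (hp : Poly p) (hq : Poly q) :
    Poly (fun a => check (c a).2.2 (Ac (c a)) (Bc (c a)) (Wc (c a)) (x a) (y a) (p a) (q a)) := by
  have h1 : ∀ {γ : Type} [TEnc γ] {h : α → γ}, Poly h → Poly (fun z : α × JC => h z.1) :=
    fun hh => hh.comp (Poly.fst Poly.id)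
  have hj : Poly (fun z : α × JC => z.2) := Poly.snd Poly.id
  exact Poly.and (Poly.and (Poly.and (Poly.decide_le hx hp) (Poly.decide_lt hp hq))
    (Poly.decide_le hq hy))
    (Poly.all (p := fun a j => Ac (c a) j (x a) || Bc (c a) j (y a) || !(Bc (c a) j (p a)) ||
      !(Ac (c a) j (q a)) || Wc (c a) j (p a) (q a)) (Poly.snd (Poly.snd hc))
      (Poly.or (Poly.or (Poly.or (Poly.or (poly_Ac (h1 hc) hj (h1 hx)) (poly_Bc (h1 hc) hj (h1 hy)))
        (Poly.not (poly_Bc (h1 hc) hj (h1 hp)))) (Poly.not (poly_Ac (h1 hc) hj (h1 hq))))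
        (poly_Wc (h1 hc) hj (h1 hp) (h1 hq))))

theorem poly_look {T : α → List (List (List ℕ))} (hT : Poly T) (hx : Poly x) (hy : Poly y) :
    Poly (fun a => look (T a) (x a) (y a)) :=
  Poly.getD (Poly.getD hT hx (Poly.const [])) hy (Poly.const [])

theorem poly_gaps {l : α → List ℕ} (hl : Poly l) : Poly (fun a => gaps (l a)) :=
  Poly.zip hl (Poly.tail hl)

theorem poly_best {C : α → List (List ℕ)} (hC : Poly C) : Poly (fun a => best (C a)) := by
  have h1 : Poly (fun z : α × List ℕ => (C z.1).all (fun l' => decide (l'.length ≤ z.2.length))) :=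
    Poly.all (l := fun z : α × List ℕ => C z.1) (p := fun z l' => decide (l'.length ≤ z.2.length))
      (hC.comp (Poly.fst Poly.id)) (Poly.decide_le (Poly.length (Poly.snd Poly.id))
        (Poly.length (Poly.snd (Poly.fst Poly.id))))
  have h2 : Poly (fun a => (C a).filter (fun l => (C a).all (fun l' =>
      decide (l'.length ≤ l.length)))) :=
    Poly.filter (p := fun a l => (C a).all (fun l' => decide (l'.length ≤ l.length))) hC h1
  exact Poly.head?_getD h2 []

theorem upoly_N (hc : Poly c) : UPoly (fun a => mm (c a) + 2) :=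
  UPoly.add (upoly_mm hc) (UPoly.const 2)

theorem poly_cands {T : α → List (List (List ℕ))} (hc : Poly c) (hT : Poly T) (hx : Poly x)
    (hy : Poly y) : Poly (fun a => cands (mm (c a) + 2) (c a).2.2 (Ac (c a)) (Bc (c a)) (Wc (c a))
      (T a) (x a) (y a)) := by
  have h1 : ∀ {γ : Type} [TEnc γ] {h : α → γ}, Poly h →
      Poly (fun z : (α × ℕ) × ℕ => h z.1.1) :=
    fun hh => hh.comp (Poly.fst (Poly.fst Poly.id))
  have hp : Poly (fun z : (α × ℕ) × ℕ => z.1.2) := Poly.snd (Poly.fst Poly.id)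
  have hq : Poly (fun z : (α × ℕ) × ℕ => z.2) := Poly.snd Poly.id
  exact Poly.flatMap (F := fun a p => (List.range (mm (c a) + 2)).flatMap fun q =>
      if check (c a).2.2 (Ac (c a)) (Bc (c a)) (Wc (c a)) (x a) (y a) p q = true ∧
        (look (T a) (x a) p ≠ [] ∧ look (T a) q (y a) ≠ []) then
        [look (T a) (x a) p ++ look (T a) q (y a)] else [])
    (upoly_N hc).range
    (Poly.flatMap (F := fun (z : α × ℕ) q =>
      if check (c z.1).2.2 (Ac (c z.1)) (Bc (c z.1)) (Wc (c z.1)) (x z.1) (y z.1) z.2 q = true ∧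
        (look (T z.1) (x z.1) z.2 ≠ [] ∧ look (T z.1) q (y z.1) ≠ []) then
        [look (T z.1) (x z.1) z.2 ++ look (T z.1) q (y z.1)] else [])
      ((upoly_N hc).comp (Poly.fst Poly.id)).range
      (Poly.ite (Poly.decide_and (Poly.decide_bool (poly_check (h1 hc) (h1 hx) (h1 hy) hp hq))
        (Poly.decide_and (Poly.decide_not (Poly.decide_eq (poly_look (h1 hT) (h1 hx) hp)
          (Poly.const []))) (Poly.decide_not (Poly.decide_eq (poly_look (h1 hT) hq (h1 hy))
          (Poly.const [])))))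
        (Poly.cons (Poly.append (poly_look (h1 hT) (h1 hx) hp) (poly_look (h1 hT) hq (h1 hy)))
          (Poly.const [])) (Poly.const [])))

theorem poly_entry {T : α → List (List (List ℕ))} (hc : Poly c) (hT : Poly T) (hx : Poly x)
    (hy : Poly y) : Poly (fun a => entry (mm (c a) + 2) (c a).2.2 (Ac (c a)) (Bc (c a)) (Wc (c a))
      (T a) (x a) (y a)) :=
  Poly.ite (Poly.decide_eq hx hy)
    (Poly.ite (Poly.decide_bool (Poly.all (p := fun a j => Ac (c a) j (x a) || Bc (c a) j (x a))
      (Poly.snd (Poly.snd hc)) (Poly.or (poly_Ac (hc.comp (Poly.fst Poly.id)) (Poly.snd Poly.id)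
        (hx.comp (Poly.fst Poly.id))) (poly_Bc (hc.comp (Poly.fst Poly.id)) (Poly.snd Poly.id)
        (hx.comp (Poly.fst Poly.id)))))) (Poly.cons hx (Poly.const [])) (Poly.const []))
    (poly_best (poly_cands hc hT hx hy))

theorem poly_step {T : α → List (List (List ℕ))} (hc : Poly c) (hT : Poly T) :
    Poly (fun a => step (mm (c a) + 2) (c a).2.2 (Ac (c a)) (Bc (c a)) (Wc (c a)) (T a)) := by
  have h1 : ∀ {γ : Type} [TEnc γ] {h : α → γ}, Poly h →
      Poly (fun z : (α × ℕ) × ℕ => h z.1.1) :=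
    fun hh => hh.comp (Poly.fst (Poly.fst Poly.id))
  exact Poly.map (F := fun a x => (List.range (mm (c a) + 2)).map fun y =>
      entry (mm (c a) + 2) (c a).2.2 (Ac (c a)) (Bc (c a)) (Wc (c a)) (T a) x y)
    (upoly_N hc).range
    (Poly.map (F := fun (z : α × ℕ) y => entry (mm (c z.1) + 2) (c z.1).2.2 (Ac (c z.1))
      (Bc (c z.1)) (Wc (c z.1)) (T z.1) z.2 y)
      ((upoly_N hc).comp (Poly.fst Poly.id)).range
      (poly_entry (h1 hc) (h1 hT) (Poly.snd (Poly.fst Poly.id)) (Poly.snd Poly.id)))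

end

theorem length_le_of_inc {l : List ℕ} {N : ℕ} (h : l.Pairwise (· < ·)) (hN : ∀ a ∈ l, a < N) :
    l.length ≤ N := by
  have h1 : l.toFinset ⊆ Finset.range N := fun a ha => Finset.mem_range.2
    (hN a (List.mem_toFinset.1 ha))
  have h2 := Finset.card_le_card h1
  rwa [List.toFinset_card_of_nodup (h.imp (fun h => ne_of_lt h)), Finset.card_range] at h2

theorem sz_small {l : List ℕ} {N : ℕ} (h : l.Pairwise (· < ·)) (hN : ∀ a ∈ l, a < N) :
    sz l ≤ N * (4 * N + 2) + 1 := by
  have h1 := sz_le_length_mul l (4 * N + 1) (fun a ha => by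
    have h2 := sz_nat_le a
    have h3 : a.size ≤ a := Nat.size_le.2 Nat.lt_two_pow_self
    have h4 := hN a ha
    omega)
  have h2 := length_le_of_inc h hN
  have h3 := Nat.mul_le_mul_right (4 * N + 1 + 1) h2
  have h4 : 4 * N + 1 + 1 = 4 * N + 2 := rfl
  rw [h4] at h1 h3
  omega

theorem sz_table {J : Type} (N : ℕ) (jobs : List J) (A B : J → ℕ → Bool) (W : J → ℕ → ℕ → Bool)
    (k : ℕ) : sz ((step N jobs A B W)^[k] []) ≤
      N * (N * (N * (4 * N + 2) + 2) + 2) + 1 := by
  cases k with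
  | zero => simp
  | succ k =>
    rw [Function.iterate_succ_apply']
    have hinv := inv_iterate (N := N) (jobs := jobs) (A := A) (B := B) (W := W) k
    generalize (step N jobs A B W)^[k] [] = T at *
    have h1 := sz_le_length_mul (step N jobs A B W T) (N * (N * (4 * N + 2) + 2) + 1) (by
      intro row hrow
      unfold step at hrow
      rw [List.mem_map] at hrow
      obtain ⟨x, hx, rfl⟩ := hrow
      rw [List.mem_range] at hx
      have h2 := sz_le_length_mul ((List.range N).map fun y => entry N jobs A B W T x y)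
        (N * (4 * N + 2) + 1) (by
          intro l hl
          rw [List.mem_map] at hl
          obtain ⟨y, hy, rfl⟩ := hl
          rw [List.mem_range] at hy
          rcases entry_spec hinv hx hy with h | h
          · rw [h]
            simp
          · exact sz_small h.inc h.bd)
      rw [List.length_map, List.length_range] at h2
      exact h2)
    have h3 : (step N jobs A B W T).length = N := by
      unfold step
      simp
    rw [h3] at h1
    exact h1

theorem poly_keptc : Poly keptc := by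
  have hid : Poly (fun c : IC => c) := Poly.id
  have hN := upoly_N hid
  have h1 : Poly (fun c : IC => (step (mm c + 2) c.2.2 (Ac c) (Bc c) (Wc c))^[(List.range
      (mm c + 2)).length] []) := by
    refine Poly.iterLen (s := fun _ => []) (F := fun c T => step (mm c + 2) c.2.2 (Ac c) (Bc c)
      (Wc c) T) hN.range (Poly.const [])
      (poly_step (c := fun p : IC × List (List (List ℕ)) => p.1) (T := fun p => p.2)
        (Poly.fst Poly.id) (Poly.snd Poly.id))
      ((Polynomial.X + Polynomial.C 2) * ((Polynomial.X + Polynomial.C 2) *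
        ((Polynomial.X + Polynomial.C 2) * (Polynomial.C 4 * (Polynomial.X + Polynomial.C 2) +
          Polynomial.C 2) + Polynomial.C 2) + Polynomial.C 2) + Polynomial.C 1) ?_
    intro c k _
    have hsz : mm c + 2 ≤ sz c + 2 := by
      have h1 := length_lt_sz c.2.1
      have h2 : sz c = sz c.1 + (sz c.2.1 + sz c.2.2 + 1) + 1 := by
        obtain ⟨a, b, d⟩ := c
        simp
      unfold mm
      omega
    refine (sz_table (mm c + 2) c.2.2 (Ac c) (Bc c) (Wc c) k).trans ?_
    simp only [Polynomial.eval_add, Polynomial.eval_mul, Polynomial.eval_C, Polynomial.eval_X]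
    gcongr
  have h2 : Poly (fun c : IC => look ((step (mm c + 2) c.2.2 (Ac c) (Bc c) (Wc c))^[(List.range
      (mm c + 2)).length] []) 0 (mm c + 2 - 1)) :=
    poly_look h1 (Poly.const 0) (Poly.sub hN.toPoly (Poly.const 1))
  refine h2.congr fun c => ?_
  rw [List.length_range]
  rfl

theorem poly_gapsKept : Poly (fun z : IC × JC => gaps (keptc z.1)) :=
  poly_gaps (poly_keptc.comp (Poly.fst Poly.id))

/-- does the gap fit -/
def fitc (z : IC × JC) (g : ℕ × ℕ) : Bool :=
  Bc z.1 z.2 g.1 && Ac z.1 z.2 g.2 && Wc z.1 z.2 g.1 g.2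

theorem poly_fitc : Poly (fun x : (IC × JC) × (ℕ × ℕ) => fitc x.1 x.2) := by
  have hc : Poly (fun z : (IC × JC) × (ℕ × ℕ) => z.1.1) := Poly.fst (Poly.fst Poly.id)
  have hj : Poly (fun z : (IC × JC) × (ℕ × ℕ) => z.1.2) := Poly.snd (Poly.fst Poly.id)
  have hu : Poly (fun z : (IC × JC) × (ℕ × ℕ) => z.2.1) := Poly.fst (Poly.snd Poly.id)
  have hv : Poly (fun z : (IC × JC) × (ℕ × ℕ) => z.2.2) := Poly.snd (Poly.snd Poly.id)
  exact Poly.and (Poly.and (poly_Bc hc hj hu) (poly_Ac hc hj hv)) (poly_Wc hc hj hu hv)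

theorem poly_pickc : Poly (fun z : IC × JC => pickc z.1 z.2) := by
  have h1 : Poly (fun z : IC × JC => (gaps (keptc z.1)).filter (fitc z)) :=
    Poly.filter poly_gapsKept poly_fitc
  exact (Poly.head?_getD h1 (0, 0)).congr fun z => rfl

theorem poly_out : Poly out :=
  Poly.map (F := fun c j => startc c j (pickc c j)) (Poly.snd (Poly.snd Poly.id))
    (poly_startc (Poly.fst Poly.id) (Poly.snd Poly.id) poly_pickc)

/-- the algorithm -/
def alg (x : List Bool) : List Bool := bits (out ((unbits IC x).getD (((0, 0), (0, 0)), [], [])))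

theorem polyTime_alg : PolyTime alg := by
  refine polyTime_bits (g := fun x => out ((unbits IC x).getD (((0, 0), (0, 0)), [], []))) ?_
  exact poly_out.comp ((Poly.optCases (o := fun x => unbits IC x)
    (g := fun _ => ((((0, 0), (0, 0)), [], []) : IC)) (h := fun _ I => I) poly_unbits (Poly.const _)
    (Poly.snd Poly.id)).congr fun x => by cases unbits IC x <;> rfl)

theorem alg_code (c : IC) : alg (bits c) = bits (out c) := by
  unfold alg
  rw [unbits_bits, Option.getD_some]

end Pool.Agent.NPC.V11230.MTA
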