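import Mathlib

/-!
# Proper labellings of forests with minimum sum: removing a leaf edge

A state consists of the remaining edges and of a table with entries `(v, c, a, s)`: the vertex `v`
gets the colour `c`, the removed edges at `v` contribute `a` to it, and the removed edges that are
charged to `v` have sum `s`.
-/

set_option autoImplicit false

namespace Pool.Agent.V11230.MS

/-- entries of tables -/
abbrev En : Type := ℕ × ℕ × ℕ × ℕ

/-- `v` is an end of `e` -/
def inc (v : ℕ) (e : ℕ × ℕ) : Bool := decide (e.1 = v) || decide (e.2 = v)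

theorem inc_iff {v : ℕ} {e : ℕ × ℕ} : inc v e = true ↔ e.1 = v ∨ e.2 = v := by
  unfold inc
  simp

/-- the sum of the labels at `v` -/
def csum (E : List (ℕ × ℕ)) (l : ℕ × ℕ → ℕ) (v : ℕ) : ℕ := ((E.filter (inc v)).map l).sum

/-- a labelling of the remaining edges with a choice of table entries -/
structure Sol (n : ℕ) (E : List (ℕ × ℕ)) (T : List En) (l : ℕ × ℕ → ℕ) (f : ℕ → ℕ × ℕ × ℕ) :
    Prop where
  pos : ∀ e ∈ E, 1 ≤ l e
  mem : ∀ v < n, (v, f v) ∈ T
  col : ∀ v < n, (f v).1 = (f v).2.1 + csum E l v
  ne : ∀ e ∈ E, (f e.1).1 ≠ (f e.2).1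

/-- the total cost -/
def cost (n : ℕ) (E : List (ℕ × ℕ)) (l : ℕ × ℕ → ℕ) (f : ℕ → ℕ × ℕ × ℕ) : ℕ :=
  (∑ v ∈ Finset.range n, (f v).2.2) + (E.map l).sum

/-- there is a solution of total cost `s` -/
def Feas (n : ℕ) (E : List (ℕ × ℕ)) (T : List En) (s : ℕ) : Prop :=
  ∃ l f, Sol n E T l f ∧ cost n E l f = s

/-- all entries -/
def uni (n S : ℕ) : List En :=
  (List.range n).flatMap fun w => (List.range S).flatMap fun c => (List.range S).flatMap fun a =>
    (List.range S).map fun s => (w, c, a, s)

theorem mem_uni {n S w c a s : ℕ} : (w, c, a, s) ∈ uni n S ↔ w < n ∧ c < S ∧ a < S ∧ s < S := by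
  unfold uni
  simp only [List.mem_flatMap, List.mem_range, List.mem_map, Prod.mk.injEq]
  constructor
  · rintro ⟨w', h1, c', h2, a', h3, s', h4, rfl, rfl, rfl, rfl⟩
    exact ⟨h1, h2, h3, h4⟩
  · rintro ⟨h1, h2, h3, h4⟩
    exact ⟨w, h1, c, h2, a, h3, s, h4, rfl, rfl, rfl, rfl⟩

/-- the entry `t` of `v` arises from the entry `t1` of `v` and the entry `t2` of the leaf `u` -/
def joins (u v : ℕ) (t t1 t2 : En) : Bool :=
  decide (t1.1 = v) && decide (t2.1 = u) && decide (t1.2.1 = t.2.1) &&
    !decide (t.2.1 = t2.2.1) && decide (t2.2.2.1 < t2.2.1) &&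
    decide (t.2.2.1 = t1.2.2.1 + (t2.2.1 - t2.2.2.1)) &&
    decide (t.2.2.2 = t1.2.2.2 + t2.2.2.2 + (t2.2.1 - t2.2.2.1))

/-- is the entry in the new table -/
def keep (T : List En) (u v : ℕ) (t : En) : Bool :=
  if t.1 = u then decide (t.2 = (0, 0, 0)) else if t.1 = v then
    T.any (fun t1 => T.any (fun t2 => joins u v t t1 t2))
  else decide (t ∈ T)

/-- the table after the removal of the leaf edge between the leaf `u` and `v` -/
def newT (n S : ℕ) (T : List En) (u v : ℕ) : List En := (uni n S).filter (keep T u v)

theorem csum_perm {E E' : List (ℕ × ℕ)} (h : E.Perm E') (l : ℕ × ℕ → ℕ) (v : ℕ) :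
    csum E l v = csum E' l v := ((h.filter _).map _).sum_eq

theorem csum_cons (e : ℕ × ℕ) (E : List (ℕ × ℕ)) (l : ℕ × ℕ → ℕ) (v : ℕ) :
    csum (e :: E) l v = (if inc v e = true then l e else 0) + csum E l v := by
  unfold csum
  rw [List.filter_cons]
  split_ifs <;> simp

theorem csum_congr {E : List (ℕ × ℕ)} {l l' : ℕ × ℕ → ℕ} {v : ℕ} (h : ∀ e ∈ E, l e = l' e) :
    csum E l v = csum E l' v := by
  unfold csum
  congr 1
  exact List.map_congr_left fun e he => h e (List.mem_filter.1 he).1

theorem csum_eq_zero {E : List (ℕ × ℕ)} {l : ℕ × ℕ → ℕ} {v : ℕ} (h : ∀ e ∈ E, inc v e = false) :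
    csum E l v = 0 := by
  unfold csum
  rw [List.filter_eq_nil_iff.2 fun e he => by simp [h e he]]
  rfl

theorem sum_change {n u v : ℕ} (huv : u ≠ v) (hu : u < n) (hv : v < n) {g g' : ℕ → ℕ} {x : ℕ}
    (h1 : g' u = 0) (h2 : g' v = g v + g u + x) (h3 : ∀ w, w ≠ u → w ≠ v → g' w = g w) :
    ∑ w ∈ Finset.range n, g' w = (∑ w ∈ Finset.range n, g w) + x := by
  have key : ∀ w, g' w + (if w = u then g u else 0) = g w + (if w = v then g u + x else 0) := by
    intro w
    by_cases hwu : w = u
    · subst hwu
      rw [if_pos rfl, if_neg huv, h1]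
      omega
    · by_cases hwv : w = v
      · subst hwv
        rw [if_neg hwu, if_pos rfl, h2]
        omega
      · rw [if_neg hwu, if_neg hwv, h3 w hwu hwv]
  have h := Finset.sum_congr (rfl : Finset.range n = Finset.range n) (fun w _ => key w)
  rw [Finset.sum_add_distrib, Finset.sum_add_distrib, Finset.sum_ite_eq' , Finset.sum_ite_eq',
    if_pos (Finset.mem_range.2 hu), if_pos (Finset.mem_range.2 hv)] at h
  omega

section

variable {n S s : ℕ} {E : List (ℕ × ℕ)} {T : List En} {u v : ℕ} {e0 : ℕ × ℕ}

theorem feas_step (hE : E.Nodup) (he0 : e0 ∈ E) (huv : u ≠ v) (hu : u < n) (hv : v < n)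
    (he : e0 = (u, v) ∨ e0 = (v, u)) (hleaf : ∀ e ∈ E, inc u e = true → e = e0)
    (hT : ∀ t ∈ T, t ∈ uni n S) (hs : s < S) :
    Feas n E T s ↔ Feas n (E.erase e0) (newT n S T u v) s := by
  have hperm := List.perm_cons_erase he0
  have hnot : e0 ∉ E.erase e0 := by
    rw [hE.mem_erase_iff]
    exact fun h => h.1 rfl
  have hincu : inc u e0 = true := inc_iff.2 (by rcases he with rfl | rfl <;> simp)
  have hincv : inc v e0 = true := inc_iff.2 (by rcases he with rfl | rfl <;> simp)
  have hincw : ∀ w, w ≠ u → w ≠ v → inc w e0 = false := by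
    intro w hw hw'
    rw [← Bool.not_eq_true, inc_iff]
    rcases he with rfl | rfl
    · rintro (h | h)
      · exact hw h.symm
      · exact hw' h.symm
    · rintro (h | h)
      · exact hw' h.symm
      · exact hw h.symm
  have hE'u : ∀ e ∈ E.erase e0, inc u e = false := by
    intro e h
    rw [hE.mem_erase_iff] at h
    rw [← Bool.not_eq_true]
    exact fun h' => h.1 (hleaf e h.2 h')
  have hEe : ∀ e ∈ E.erase e0, e ∈ E := fun e h => List.mem_of_mem_erase h
  constructor
  · rintro ⟨l, f, ⟨hpos, hmem, hcol, hne⟩, hcost⟩
    have hcu : (f u).1 = (f u).2.1 + l e0 := by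
      rw [hcol u hu, csum_perm hperm, csum_cons, if_pos hincu, csum_eq_zero hE'u]
      omega
    have hcv : (f v).1 = (f v).2.1 + (l e0 + csum (E.erase e0) l v) := by
      rw [hcol v hv, csum_perm hperm, csum_cons, if_pos hincv]
    have hsum : (E.map l).sum = l e0 + ((E.erase e0).map l).sum := by
      rw [(hperm.map l).sum_eq, List.map_cons, List.sum_cons]
    have hku : (f u).2.2 + (f v).2.2 ≤ ∑ w ∈ Finset.range n, (f w).2.2 := by
      have h := Finset.sum_le_sum_of_subset (f := fun w => (f w).2.2)
        (show ({u, v} : Finset ℕ) ⊆ Finset.range n by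
          intro w hw
          simp only [Finset.mem_insert, Finset.mem_singleton] at hw
          rcases hw with rfl | rfl
          · exact Finset.mem_range.2 hu
          · exact Finset.mem_range.2 hv)
      rwa [Finset.sum_pair huv] at h
    have hnuv : (f v).1 ≠ (f u).1 := by
      rcases he with rfl | rfl
      · exact (hne _ he0).symm
      · exact hne _ he0
    have hU := hT _ (hmem v hv)
    have hU' := hT _ (hmem u hu)
    rcases hfv : f v with ⟨cv, av, kv⟩
    rcases hfu : f u with ⟨cu, au, ku⟩
    rw [hfv] at hcv hku hU hnuv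
    rw [hfu] at hcu hku hU' hnuv
    rw [mem_uni] at hU hU'
    dsimp only at hcv hcu hku hnuv
    unfold cost at hcost
    have hl0 : 1 ≤ l e0 := hpos e0 he0
    refine ⟨l, fun w => if w = u then (0, 0, 0) else if w = v then
      (cv, av + l e0, kv + ku + l e0) else f w, ⟨?_, ?_, ?_, ?_⟩, ?_⟩
    · exact fun e h => hpos e (hEe e h)
    · intro w hw
      unfold newT
      rw [List.mem_filter]
      by_cases hwu : w = u
      · subst hwu
        rw [if_pos rfl]
        refine ⟨mem_uni.2 ⟨hu, by omega, by omega, by omega⟩, ?_⟩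
        unfold keep
        simp
      · rw [if_neg hwu]
        by_cases hwv : w = v
        · subst hwv
          rw [if_pos rfl]
          refine ⟨mem_uni.2 ⟨hv, by omega, by omega, by omega⟩, ?_⟩
          unfold keep
          dsimp only
          rw [if_neg hwu, if_pos rfl, List.any_eq_true]
          refine ⟨(w, f w), hmem w hw, ?_⟩
          rw [List.any_eq_true]
          refine ⟨(u, f u), hmem u hu, ?_⟩
          rw [hfv, hfu]
          unfold joins
          dsimp only
          simp only [Bool.and_eq_true, decide_eq_true_eq, Bool.not_eq_true',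
            decide_eq_false_iff_not, true_and]
          omega
        · rw [if_neg hwv]
          have := hT _ (hmem w hw)
          refine ⟨this, ?_⟩
          unfold keep
          dsimp only
          rw [if_neg hwu, if_neg hwv]
          exact decide_eq_true (hmem w hw)
    · intro w hw
      by_cases hwu : w = u
      · subst hwu
        rw [if_pos rfl, csum_eq_zero hE'u]
      · rw [if_neg hwu]
        by_cases hwv : w = v
        · subst hwv
          rw [if_pos rfl]
          dsimp only
          omega
        · rw [if_neg hwv, hcol w hw, csum_perm hperm, csum_cons, hincw w hwu hwv]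
          simp
    · intro e h
      have hne' := hne e (hEe e h)
      have hiu := hE'u e h
      rw [← Bool.not_eq_true, inc_iff] at hiu
      push Not at hiu
      rw [if_neg hiu.1, if_neg hiu.2]
      have e1 : ∀ w, (if w = v then (cv, av + l e0, kv + ku + l e0) else f w).1 = (f w).1 := by
        intro w
        split_ifs with h
        · rw [h, hfv]
        · rfl
      rw [e1, e1]
      exact hne'
    · unfold cost
      have hch := sum_change huv hu hv (g := fun w => (f w).2.2)
        (g' := fun w => (if w = u then ((0, 0, 0) : ℕ × ℕ × ℕ) else if w = v then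
          (cv, av + l e0, kv + ku + l e0) else f w).2.2) (x := l e0)
        (by simp) (by
          rw [if_neg huv.symm, if_pos rfl, hfv, hfu]) (by
          intro w h1 h2
          rw [if_neg h1, if_neg h2])
      rw [hsum] at hcost
      dsimp only at hch ⊢
      omega
  · rintro ⟨l, f, ⟨hpos, hmem, hcol, hne⟩, hcost⟩
    have hmu := hmem u hu
    have hmv := hmem v hv
    rcases hfv : f v with ⟨cv, av, kv⟩
    rcases hfu : f u with ⟨cu, au, ku⟩
    rw [hfv] at hmv
    rw [hfu] at hmu
    unfold newT at hmu hmv
    rw [List.mem_filter] at hmu hmv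
    have hz : (cu, au, ku) = (0, 0, 0) := by
      have := hmu.2
      unfold keep at this
      dsimp only at this
      rw [if_pos rfl] at this
      exact of_decide_eq_true this
    simp only [Prod.mk.injEq] at hz
    obtain ⟨rfl, rfl, rfl⟩ := hz
    have hj := hmv.2
    unfold keep at hj
    dsimp only at hj
    rw [if_neg huv.symm, if_pos rfl, List.any_eq_true] at hj
    obtain ⟨⟨v', c1, a1, k1⟩, ht1, hj⟩ := hj
    rw [List.any_eq_true] at hj
    obtain ⟨⟨u', c2, a2, k2⟩, ht2, hj⟩ := hj
    unfold joins at hj
    dsimp only at hj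
    simp only [Bool.and_eq_true, decide_eq_true_eq, Bool.not_eq_true',
      decide_eq_false_iff_not] at hj
    obtain ⟨⟨⟨⟨⟨⟨rfl, rfl⟩, rfl⟩, hj1⟩, hj2⟩, hj3⟩, hj4⟩ := hj
    have hlc : ∀ e ∈ E.erase e0, Function.update l e0 (c2 - a2) e = l e := by
      intro e h
      refine Function.update_of_ne (fun h' => hnot ?_) _ _
      rwa [h'] at h
    have hl0 : Function.update l e0 (c2 - a2) e0 = c2 - a2 := Function.update_self _ _ _
    have hcv := hcol v' hv
    rw [hfv] at hcv
    dsimp only at hcv
    refine ⟨Function.update l e0 (c2 - a2), fun w => if w = u' then (c2, a2, k2) else if w = v' then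
      (c1, a1, k1) else f w, ⟨?_, ?_, ?_, ?_⟩, ?_⟩
    · intro e h
      by_cases h0 : e = e0
      · rw [h0, hl0]
        omega
      · rw [Function.update_of_ne h0]
        exact hpos e ((hE.mem_erase_iff).2 ⟨h0, h⟩)
    · intro w hw
      by_cases hwu : w = u'
      · subst hwu
        rw [if_pos rfl]
        exact ht2
      · rw [if_neg hwu]
        by_cases hwv : w = v'
        · subst hwv
          rw [if_pos rfl]
          exact ht1
        · rw [if_neg hwv]
          have := hmem w hw
          unfold newT at this
          rw [List.mem_filter] at this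
          have h2 := this.2
          unfold keep at h2
          dsimp only at h2
          rw [if_neg hwu, if_neg hwv] at h2
          exact of_decide_eq_true h2
    · intro w hw
      rw [csum_perm hperm, csum_cons, hl0]
      rw [csum_congr hlc]
      by_cases hwu : w = u'
      · subst hwu
        rw [if_pos rfl, if_pos hincu, csum_eq_zero hE'u]
        dsimp only
        omega
      · rw [if_neg hwu]
        by_cases hwv : w = v'
        · subst hwv
          rw [if_pos rfl, if_pos hincv]
          dsimp only
          omega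
        · rw [if_neg hwv, hincw w hwu hwv, hcol w hw]
          simp
    · intro e h
      by_cases h0 : e = e0
      · subst h0
        rcases he with rfl | rfl
        · dsimp only
          rw [if_pos rfl, if_neg huv.symm, if_pos rfl]
          exact fun h' => hj1 h'.symm
        · dsimp only
          rw [if_pos rfl, if_neg huv.symm, if_pos rfl]
          exact hj1
      · have h' : e ∈ E.erase e0 := (hE.mem_erase_iff).2 ⟨h0, h⟩
        have hiu := hE'u e h'
        rw [← Bool.not_eq_true, inc_iff] at hiu
        push Not at hiu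
        rw [if_neg hiu.1, if_neg hiu.2]
        have e1 : ∀ w, (if w = v' then (c1, a1, k1) else f w).1 = (f w).1 := by
          intro w
          split_ifs with h
          · rw [h, hfv]
          · rfl
        rw [e1, e1]
        exact hne e h'
    · unfold cost
      unfold cost at hcost
      have hch := sum_change huv hu hv (g' := fun w => (f w).2.2)
        (g := fun w => (if w = u' then (c2, a2, k2) else if w = v' then
          (c1, a1, k1) else f w).2.2) (x := c2 - a2)
        (by rw [hfu]) (by
          rw [if_neg huv.symm, if_pos rfl, if_pos rfl, hfv]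
          exact hj4) (by
          intro w h1 h2
          rw [if_neg h1, if_neg h2])
      rw [(hperm.map _).sum_eq, List.map_cons, List.sum_cons, hl0, List.map_congr_left hlc]
      dsimp only at hch ⊢
      omega

theorem newT_uni : ∀ t ∈ newT n S T u v, t ∈ uni n S := fun _ h => (List.mem_filter.1 h).1

end

end Pool.Agent.V11230.MS
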