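import Pool.Agent.V11230.MinSum1

/-!
# Proper labellings of forests with minimum sum: the algorithm
-/

set_option autoImplicit false

namespace Pool.Agent.V11230.MS

/-- the candidates for leaf edges: `(u, v, e)` where `e` is the only edge at `u` -/
def cands (E : List (ℕ × ℕ)) : List (ℕ × ℕ × ℕ × ℕ) :=
  (E.flatMap fun e => [(e.1, e.2, e), (e.2, e.1, e)]).filter
    (fun z => E.all (fun e => !inc z.1 e || decide (e = z.2.2)))

theorem mem_cands {E : List (ℕ × ℕ)} {z : ℕ × ℕ × ℕ × ℕ} (hz : z ∈ cands E) :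
    z.2.2 ∈ E ∧ (z.2.2 = (z.1, z.2.1) ∨ z.2.2 = (z.2.1, z.1)) ∧
      ∀ e ∈ E, inc z.1 e = true → e = z.2.2 := by
  unfold cands at hz
  rw [List.mem_filter, List.mem_flatMap] at hz
  obtain ⟨⟨e, he, hz1⟩, hz2⟩ := hz
  simp only [List.mem_cons, List.not_mem_nil, or_false] at hz1
  rw [List.all_eq_true] at hz2
  refine ⟨?_, ?_, ?_⟩
  · rcases hz1 with rfl | rfl <;> exact he
  · rcases hz1 with rfl | rfl <;> simp
  · intro e' he' hi
    have := hz2 e' he'
    rw [hi] at this
    simpa using this

/-- edges of a forest on `{0, ..., n - 1}` as pairs `(i, j)` with `i < j` -/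
structure Good (n : ℕ) (E : List (ℕ × ℕ)) : Prop where
  nodup : E.Nodup
  lt : ∀ e ∈ E, e.1 < e.2
  bd : ∀ e ∈ E, e.2 < n

/-- the graph of the edges -/
def gF (n : ℕ) (E : List (ℕ × ℕ)) : SimpleGraph (Fin n) where
  Adj a b := a ≠ b ∧ ((a.1, b.1) ∈ E ∨ (b.1, a.1) ∈ E)
  symm := ⟨fun _ _ h => ⟨h.1.symm, h.2.symm⟩⟩
  loopless := ⟨fun _ h => h.1 rfl⟩

theorem Good.erase {n : ℕ} {E : List (ℕ × ℕ)} (h : Good n E) (e : ℕ × ℕ) : Good n (E.erase e) :=
  ⟨h.nodup.erase e, fun e' he' => h.lt e' (List.mem_of_mem_erase he'),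
    fun e' he' => h.bd e' (List.mem_of_mem_erase he')⟩

theorem gF_erase {n : ℕ} {E : List (ℕ × ℕ)} (e : ℕ × ℕ) : gF n (E.erase e) ≤ gF n E := by
  intro a b h
  exact ⟨h.1, h.2.imp List.mem_of_mem_erase List.mem_of_mem_erase⟩

theorem cands_ne_nil {n : ℕ} {E : List (ℕ × ℕ)} (h : Good n E) (hac : (gF n E).IsAcyclic)
    (hE : E ≠ []) : cands E ≠ [] := by
  classical
  obtain ⟨e, he⟩ := List.exists_mem_of_ne_nil E hE
  have h1 := h.lt e he
  have h2 := h.bd e he
  let a : Fin n := ⟨e.1, by omega⟩
  let b : Fin n := ⟨e.2, h2⟩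
  have hab : (gF n E).Adj a b := ⟨by simp only [ne_eq, Fin.ext_iff, a, b]; omega, Or.inl he⟩
  let c := (gF n E).connectedComponentMk a
  have ha : a ∈ c := SimpleGraph.ConnectedComponent.connectedComponentMk_mem
  have hb : b ∈ c := by
    change (gF n E).connectedComponentMk b = (gF n E).connectedComponentMk a
    exact SimpleGraph.ConnectedComponent.eq.2 hab.symm.reachable
  have htree := hac.isTree_connectedComponent c
  have : Nontrivial c := ⟨⟨a, ha⟩, ⟨b, hb⟩, fun h => hab.1 (congrArg Subtype.val h)⟩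
  obtain ⟨⟨v, hv⟩, hdeg⟩ := htree.exists_vert_degree_one_of_nontrivial
  rw [SimpleGraph.degree_eq_one_iff_existsUnique_adj] at hdeg
  obtain ⟨⟨w, hw⟩, hadj, huniq⟩ := hdeg
  rw [SimpleGraph.ConnectedComponent.toSimpleGraph_adj] at hadj
  have huniq' : ∀ w', (gF n E).Adj v w' → w' = w := by
    intro w' hw'
    have hm : w' ∈ c := by
      change (gF n E).connectedComponentMk w' = c
      rw [← (show (gF n E).connectedComponentMk v = c from hv)]
      exact SimpleGraph.ConnectedComponent.eq.2 hw'.symm.reachable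
    have := huniq ⟨w', hm⟩ ((c.toSimpleGraph_adj hv hm).2 hw')
    exact congrArg Subtype.val this
  -- all edges at `v`
  have hone : ∀ e' ∈ E, inc v.1 e' = true → e' = (v.1, w.1) ∨ e' = (w.1, v.1) := by
    intro e' he' hi
    have h1' := h.lt e' he'
    have h2' := h.bd e' he'
    obtain ⟨x, y⟩ := e'
    dsimp only at h1' h2'
    rw [inc_iff] at hi
    rcases hi with hi | hi
    · dsimp only at hi
      have hA : (gF n E).Adj v ⟨y, h2'⟩ := by
        refine ⟨?_, Or.inl ?_⟩
        · simp only [ne_eq, Fin.ext_iff]; omega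
        · simpa [← hi] using he'
      have := congrArg Fin.val (huniq' _ hA)
      dsimp only at this
      left
      rw [hi, this]
    · dsimp only at hi
      have hA : (gF n E).Adj v ⟨x, by omega⟩ := by
        refine ⟨?_, Or.inr ?_⟩
        · simp only [ne_eq, Fin.ext_iff]; omega
        · simpa [← hi] using he'
      have := congrArg Fin.val (huniq' _ hA)
      dsimp only at this
      right
      rw [hi, this]
  intro hnil
  rcases hadj.2 with hm | hm
  · have : ((v.1, w.1, (v.1, w.1)) : ℕ × ℕ × ℕ × ℕ) ∈ cands E := by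
      unfold cands
      rw [List.mem_filter, List.mem_flatMap]
      refine ⟨⟨_, hm, by simp⟩, ?_⟩
      rw [List.all_eq_true]
      intro e' he'
      by_cases hi : inc v.1 e' = true
      · rcases hone e' he' hi with h' | h'
        · simp [h']
        · exfalso
          have g1 := h.lt _ he'
          have g2 := h.lt _ hm
          rw [h'] at g1
          dsimp only at g1 g2
          omega
      · simp [hi]
    rw [hnil] at this
    exact absurd this (List.not_mem_nil)
  · have : ((v.1, w.1, (w.1, v.1)) : ℕ × ℕ × ℕ × ℕ) ∈ cands E := by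
      unfold cands
      rw [List.mem_filter, List.mem_flatMap]
      refine ⟨⟨_, hm, by simp⟩, ?_⟩
      rw [List.all_eq_true]
      intro e' he'
      by_cases hi : inc v.1 e' = true
      · rcases hone e' he' hi with h' | h'
        · exfalso
          have g1 := h.lt _ he'
          have g2 := h.lt _ hm
          rw [h'] at g1
          dsimp only at g1 g2
          omega
        · simp [h']
      · simp [hi]
    rw [hnil] at this
    exact absurd this (List.not_mem_nil)

/-- One step: remove a leaf edge. -/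
def stp (n S : ℕ) (st : List (ℕ × ℕ) × List En) : List (ℕ × ℕ) × List En :=
  if cands st.1 = [] then st else
    (st.1.filter (fun e => !decide (e = ((cands st.1).head?.getD (0, 0, 0, 0)).2.2)),
      newT n S st.2 ((cands st.1).head?.getD (0, 0, 0, 0)).1
        ((cands st.1).head?.getD (0, 0, 0, 0)).2.1)

/-- the invariant of the algorithm -/
structure Inv (n S : ℕ) (E : List (ℕ × ℕ)) (T : List En) : Prop where
  good : Good n E
  ac : (gF n E).IsAcyclic
  tab : ∀ t ∈ T, t ∈ uni n S

theorem stp_spec {n S : ℕ} {E : List (ℕ × ℕ)} {T : List En} (h : Inv n S E T) (hE : E ≠ []) :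
    Inv n S (stp n S (E, T)).1 (stp n S (E, T)).2 ∧ (stp n S (E, T)).1.length + 1 = E.length ∧
      ∀ s < S, Feas n E T s ↔ Feas n (stp n S (E, T)).1 (stp n S (E, T)).2 s := by
  have hc := cands_ne_nil h.good h.ac hE
  obtain ⟨z, L, hz⟩ := List.exists_cons_of_ne_nil hc
  have hzm : z ∈ cands E := by rw [hz]; simp
  obtain ⟨m1, m2, m3⟩ := mem_cands hzm
  have hst : stp n S (E, T) = (E.erase z.2.2, newT n S T z.1 z.2.1) := by
    unfold stp
    dsimp only
    rw [if_neg hc, hz]
    simp only [List.head?_cons, Option.getD_some, Prod.mk.injEq, and_true]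
    rw [h.good.nodup.erase_eq_filter]
    refine List.filter_congr fun e _ => ?_
    by_cases he : e = z.2.2 <;> simp [he, bne]
  rw [hst]
  have h1 := h.good.lt _ m1
  have h2 := h.good.bd _ m1
  have hb : z.1 ≠ z.2.1 ∧ z.1 < n ∧ z.2.1 < n := by
    rcases m2 with m2 | m2 <;> rw [m2] at h1 h2 <;> dsimp only at h1 h2 <;> omega
  refine ⟨⟨h.good.erase _, h.ac.anti (gF_erase _), newT_uni⟩, ?_, ?_⟩
  · rw [List.length_erase_of_mem m1]
    have : 0 < E.length := List.length_pos_iff.2 hE
    omega
  · intro s hs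
    exact feas_step h.good.nodup m1 hb.1 hb.2.1 hb.2.2 m2 m3 h.tab hs

theorem stp_iterate {n S : ℕ} : ∀ (k : ℕ) (E : List (ℕ × ℕ)) (T : List En), Inv n S E T →
    E.length = k → ((stp n S)^[k] (E, T)).1 = [] ∧
      (∀ t ∈ ((stp n S)^[k] (E, T)).2, t ∈ uni n S) ∧
      ∀ s < S, Feas n E T s ↔ Feas n [] ((stp n S)^[k] (E, T)).2 s := by
  intro k
  induction k with
  | zero =>
    intro E T h hk
    have : E = [] := List.length_eq_zero_iff.1 hk
    subst this
    exact ⟨rfl, h.tab, fun s _ => Iff.rfl⟩
  | succ k ih =>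
    intro E T h hk
    have hE : E ≠ [] := by
      rintro rfl
      simp at hk
    obtain ⟨i1, i2, i3⟩ := stp_spec h hE
    rw [Function.iterate_succ_apply]
    obtain ⟨j1, j2, j3⟩ := ih (stp n S (E, T)).1 (stp n S (E, T)).2 i1 (by omega)
    exact ⟨j1, j2, fun s hs => (i3 s hs).trans (j3 s hs)⟩

/-! ### The costs of the isolated vertices -/

/-- the costs of the vertex `v` without edges -/
def kosts (S : ℕ) (T : List En) (v : ℕ) : List ℕ :=
  (List.range S).filter (fun k => T.any (fun t => decide (t.1 = v) && decide (t.2.1 = t.2.2.1) &&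
    decide (t.2.2.2 = k)))

theorem mem_kosts {n S : ℕ} {T : List En} (hT : ∀ t ∈ T, t ∈ uni n S) {v k : ℕ} :
    k ∈ kosts S T v ↔ ∃ c, (v, c, c, k) ∈ T := by
  unfold kosts
  rw [List.mem_filter, List.mem_range, List.any_eq_true]
  constructor
  · rintro ⟨_, ⟨v', c, a, k'⟩, ht, h⟩
    simp only [Bool.and_eq_true, decide_eq_true_eq] at h
    obtain ⟨⟨rfl, rfl⟩, rfl⟩ := h
    exact ⟨c, ht⟩
  · rintro ⟨c, hc⟩
    exact ⟨(mem_uni.1 (hT _ hc)).2.2.2, _, hc, by simp⟩

/-- the minimum cost of `v` -/
def mink (S : ℕ) (T : List En) (v : ℕ) : ℕ := (kosts S T v).head?.getD 0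

theorem mink_spec {S : ℕ} {T : List En} {v : ℕ} (h : kosts S T v ≠ []) :
    mink S T v ∈ kosts S T v ∧ ∀ k ∈ kosts S T v, mink S T v ≤ k := by
  have hs : (kosts S T v).Pairwise (· < ·) := (List.pairwise_lt_range).filter _
  unfold mink
  cases hk : kosts S T v with
  | nil => exact absurd hk h
  | cons a l =>
    rw [hk] at hs
    simp only [List.head?_cons, Option.getD_some, List.mem_cons, true_or, true_and]
    rintro k (rfl | hk')
    · exact le_refl _
    · exact (List.rel_of_pairwise_cons hs hk').le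

/-- the result from the final table -/
def fin (n S : ℕ) (T : List En) : Option ℕ :=
  if (List.range n).any (fun v => decide (kosts S T v = [])) = true then none else
    if ((List.range n).map (mink S T)).sum < S then some ((List.range n).map (mink S T)).sum
    else none

theorem sum_range_map (n : ℕ) (f : ℕ → ℕ) :
    ((List.range n).map f).sum = ∑ v ∈ Finset.range n, f v := by
  induction n with
  | zero => rfl
  | succ n ih =>
    rw [List.range_succ, List.map_append, List.sum_append, ih, Finset.sum_range_succ]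
    simp

theorem feas_nil {n S : ℕ} {T : List En} (hT : ∀ t ∈ T, t ∈ uni n S) {s : ℕ} :
    Feas n [] T s ↔ ∃ k : ℕ → ℕ, (∀ v < n, k v ∈ kosts S T v) ∧
      ∑ v ∈ Finset.range n, k v = s := by
  constructor
  · rintro ⟨l, f, ⟨_, hmem, hcol, _⟩, hcost⟩
    refine ⟨fun v => (f v).2.2, fun v hv => ?_, ?_⟩
    · rw [mem_kosts hT]
      have h1 := hmem v hv
      have h2 := hcol v hv
      rcases hf : f v with ⟨c, a, k⟩
      rw [hf] at h1 h2
      simp only [csum, List.filter_nil, List.map_nil, List.sum_nil, Nat.add_zero] at h2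
      subst h2
      dsimp only
      rw [hf]
      exact ⟨_, h1⟩
    · unfold cost at hcost
      simpa using hcost
  · rintro ⟨k, hk, hs⟩
    have hex : ∀ v, ∃ c, v < n → (v, c, c, k v) ∈ T := by
      intro v
      by_cases hv : v < n
      · obtain ⟨c, hc⟩ := (mem_kosts hT).1 (hk v hv)
        exact ⟨c, fun _ => hc⟩
      · exact ⟨0, fun h => absurd h hv⟩
    choose c hc using hex
    refine ⟨fun _ => 0, fun v => (c v, c v, k v), ⟨by simp, fun v hv => hc v hv, ?_, by simp⟩, ?_⟩
    · intro v hv
      simp [csum]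
    · unfold cost
      simpa using hs

theorem fin_spec {n S : ℕ} {T : List En} (hT : ∀ t ∈ T, t ∈ uni n S) :
    (∀ m, fin n S T = some m → m < S ∧ Feas n [] T m ∧ ∀ s, Feas n [] T s → m ≤ s) ∧
      (fin n S T = none → ∀ s < S, ¬ Feas n [] T s) := by
  have hmin : (∀ v < n, kosts S T v ≠ []) → ∀ s, Feas n [] T s →
      ((List.range n).map (mink S T)).sum ≤ s := by
    intro hne s hs
    obtain ⟨k, hk, rfl⟩ := (feas_nil hT).1 hs
    rw [sum_range_map]
    refine Finset.sum_le_sum fun v hv => ?_
    rw [Finset.mem_range] at hv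
    exact (mink_spec (hne v hv)).2 _ (hk v hv)
  constructor
  · intro m hm
    unfold fin at hm
    split_ifs at hm with h1 h2
    rw [Bool.not_eq_true, List.any_eq_false] at h1
    have hne : ∀ v < n, kosts S T v ≠ [] := by
      intro v hv
      simpa using h1 v (List.mem_range.2 hv)
    have hm' := Option.some.inj hm
    refine ⟨hm' ▸ h2, ?_, ?_⟩
    · rw [feas_nil hT]
      refine ⟨mink S T, fun v hv => (mink_spec (hne v hv)).1, ?_⟩
      rw [← sum_range_map, hm']
    · intro s hs
      rw [← hm']
      exact hmin hne s hs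
  · intro hm s hs hf
    unfold fin at hm
    split_ifs at hm with h1 h2
    · rw [List.any_eq_true] at h1
      obtain ⟨v, hv, h⟩ := h1
      rw [List.mem_range] at hv
      obtain ⟨k, hk, _⟩ := (feas_nil hT).1 hf
      have := hk v hv
      rw [of_decide_eq_true h] at this
      exact List.not_mem_nil this
    · rw [Bool.not_eq_true, List.any_eq_false] at h1
      have hne : ∀ v < n, kosts S T v ≠ [] := by
        intro v hv
        simpa using h1 v (List.mem_range.2 hv)
      have := hmin hne s hf
      omega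

/-! ### The initial table -/

/-- the initial table -/
def tab0 (n S : ℕ) : List En := (uni n S).filter (fun t => decide (t.2.2 = (0, 0)))

/-- a proper labelling of a list of edges -/
def PLab (E : List (ℕ × ℕ)) (l : ℕ × ℕ → ℕ) : Prop :=
  (∀ e ∈ E, 1 ≤ l e) ∧ ∀ e ∈ E, csum E l e.1 ≠ csum E l e.2

theorem csum_le (E : List (ℕ × ℕ)) (l : ℕ × ℕ → ℕ) (v : ℕ) : csum E l v ≤ (E.map l).sum := by
  unfold csum
  exact ((List.filter_sublist (p := inc v) (l := E)).map l).sum_le_sum (by simp)

theorem feas_tab0 {n S : ℕ} {E : List (ℕ × ℕ)} (h : Good n E) {s : ℕ} (hs : s < S) :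
    Feas n E (tab0 n S) s ↔ ∃ l, PLab E l ∧ (E.map l).sum = s := by
  constructor
  · rintro ⟨l, f, ⟨hpos, hmem, hcol, hne⟩, hcost⟩
    have h0 : ∀ v < n, (f v).2 = (0, 0) := by
      intro v hv
      have := hmem v hv
      unfold tab0 at this
      rw [List.mem_filter] at this
      simpa using this.2
    have hc : ∀ v < n, (f v).1 = csum E l v := by
      intro v hv
      rw [hcol v hv, h0 v hv]
      simp
    refine ⟨l, ⟨hpos, fun e he => ?_⟩, ?_⟩
    · have h1 := h.lt e he
      have h2 := h.bd e he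
      rw [← hc e.1 (by omega), ← hc e.2 h2]
      exact hne e he
    · unfold cost at hcost
      rw [Finset.sum_eq_zero (fun v hv => by rw [h0 v (Finset.mem_range.1 hv)])] at hcost
      omega
  · rintro ⟨l, ⟨hpos, hne⟩, hsum⟩
    refine ⟨l, fun v => (csum E l v, 0, 0), ⟨hpos, ?_, ?_, hne⟩, ?_⟩
    · intro v hv
      unfold tab0
      rw [List.mem_filter]
      have := csum_le E l v
      exact ⟨mem_uni.2 ⟨hv, by omega, by omega, by omega⟩, by simp⟩
    · intro v _
      simp
    · unfold cost
      simpa using hsum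

/-- the algorithm -/
def run (n S : ℕ) (E : List (ℕ × ℕ)) : Option ℕ :=
  fin n S ((stp n S)^[E.length] (E, tab0 n S)).2

theorem run_spec {n S : ℕ} {E : List (ℕ × ℕ)} (h : Good n E) (hac : (gF n E).IsAcyclic) :
    (∀ m, run n S E = some m → (∃ l, PLab E l ∧ (E.map l).sum = m) ∧
      ∀ l, PLab E l → m ≤ (E.map l).sum) ∧
    (run n S E = none → ∀ l, PLab E l → S ≤ (E.map l).sum) := by
  have hinv : Inv n S E (tab0 n S) := ⟨h, hac, fun t ht => (List.mem_filter.1 ht).1⟩
  obtain ⟨_, h2, h3⟩ := stp_iterate E.length E (tab0 n S) hinv rfl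
  obtain ⟨f1, f2⟩ := fin_spec h2
  have key : ∀ s < S, (∃ l, PLab E l ∧ (E.map l).sum = s) ↔
      Feas n [] ((stp n S)^[E.length] (E, tab0 n S)).2 s := fun s hs =>
    (feas_tab0 h hs).symm.trans (h3 s hs)
  constructor
  · intro m hm
    obtain ⟨g1, g2, g3⟩ := f1 m hm
    refine ⟨(key m g1).2 g2, fun l hl => ?_⟩
    by_contra hlt
    push Not at hlt
    have := g3 _ ((key _ (by omega)).1 ⟨l, hl, rfl⟩)
    omega
  · intro hm l hl
    by_contra hlt
    push Not at hlt
    exact f2 hm _ hlt ((key _ hlt).1 ⟨l, hl, rfl⟩)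

/-! ### Labels need not be large -/

theorem csum_update {E : List (ℕ × ℕ)} (hE : E.Nodup) {e0 : ℕ × ℕ} (he0 : e0 ∈ E)
    (l : ℕ × ℕ → ℕ) (x v : ℕ) : csum E (Function.update l e0 x) v +
      (if inc v e0 = true then l e0 else 0) = csum E l v + (if inc v e0 = true then x else 0) := by
  have hperm := List.perm_cons_erase he0
  have hnot : e0 ∉ E.erase e0 := by
    rw [hE.mem_erase_iff]
    exact fun h => h.1 rfl
  rw [csum_perm hperm, csum_perm hperm, csum_cons, csum_cons,
    csum_congr (l := Function.update l e0 x) (l' := l) (E := E.erase e0) (fun e h =>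
      Function.update_of_ne (fun h' => hnot (by rwa [h'] at h)) _ _), Function.update_self]
  split_ifs <;> omega

theorem sum_update {E : List (ℕ × ℕ)} (hE : E.Nodup) {e0 : ℕ × ℕ} (he0 : e0 ∈ E)
    (l : ℕ × ℕ → ℕ) (x : ℕ) : (E.map (Function.update l e0 x)).sum + l e0 = (E.map l).sum + x := by
  have hperm := List.perm_cons_erase he0
  have hnot : e0 ∉ E.erase e0 := by
    rw [hE.mem_erase_iff]
    exact fun h => h.1 rfl
  rw [(hperm.map _).sum_eq, (hperm.map l).sum_eq, List.map_cons, List.map_cons, List.sum_cons,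
    List.sum_cons, Function.update_self,
    List.map_congr_left (f := Function.update l e0 x) (g := l) (l := E.erase e0) (fun e h =>
      Function.update_of_ne (fun h' => hnot (by rwa [h'] at h)) _ _)]
  omega

theorem exists_smaller {n : ℕ} {E : List (ℕ × ℕ)} (h : Good n E) {l : ℕ × ℕ → ℕ} (hl : PLab E l)
    {e0 : ℕ × ℕ} (he0 : e0 ∈ E) (hbig : 2 * n + 1 < l e0) :
    ∃ l', PLab E l' ∧ (E.map l').sum < (E.map l).sum := by
  classical
  obtain ⟨hpos, hne⟩ := hl
  -- the forbidden values
  let F : Finset ℕ := (Finset.range n).image (fun w => csum E l w + l e0 - csum E l e0.1) ∪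
    (Finset.range n).image (fun w => csum E l w + l e0 - csum E l e0.2)
  have hF : F.card ≤ 2 * n := by
    have h1 := Finset.card_union_le ((Finset.range n).image
      (fun w => csum E l w + l e0 - csum E l e0.1)) ((Finset.range n).image
      (fun w => csum E l w + l e0 - csum E l e0.2))
    have h2 : ((Finset.range n).image (fun w => csum E l w + l e0 - csum E l e0.1)).card ≤ n := by
      simpa using Finset.card_image_le (s := Finset.range n)
        (f := fun w => csum E l w + l e0 - csum E l e0.1)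
    have h3 : ((Finset.range n).image (fun w => csum E l w + l e0 - csum E l e0.2)).card ≤ n := by
      simpa using Finset.card_image_le (s := Finset.range n)
        (f := fun w => csum E l w + l e0 - csum E l e0.2)
    change F.card ≤ _ at h1
    omega
  obtain ⟨x, hx, hxF⟩ : ∃ x ∈ Finset.Icc 1 (2 * n + 1), x ∉ F := by
    by_contra hcon
    push Not at hcon
    have := Finset.card_le_card (show Finset.Icc 1 (2 * n + 1) ⊆ F from hcon)
    rw [Nat.card_Icc] at this
    omega
  rw [Finset.mem_Icc] at hx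
  have hx1 : ∀ w < n, csum E l e0.1 + x ≠ csum E l w + l e0 := by
    intro w hw he
    apply hxF
    refine Finset.mem_union_left _ (Finset.mem_image.2 ⟨w, Finset.mem_range.2 hw, ?_⟩)
    omega
  have hx2 : ∀ w < n, csum E l e0.2 + x ≠ csum E l w + l e0 := by
    intro w hw he
    apply hxF
    refine Finset.mem_union_right _ (Finset.mem_image.2 ⟨w, Finset.mem_range.2 hw, ?_⟩)
    omega
  have hup := csum_update h.nodup he0 l x
  have hend : ∀ w, inc w e0 = true → w = e0.1 ∨ w = e0.2 := by
    intro w hw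
    rw [inc_iff] at hw
    rcases hw with h | h
    · exact Or.inl h.symm
    · exact Or.inr h.symm
  refine ⟨Function.update l e0 x, ⟨?_, ?_⟩, ?_⟩
  · intro e he
    by_cases h0 : e = e0
    · rw [h0, Function.update_self]
      omega
    · rw [Function.update_of_ne h0]
      exact hpos e he
  · intro e he
    have hlt := h.lt e he
    have hbd := h.bd e he
    have u1 := hup e.1
    have u2 := hup e.2
    have hn := hne e he
    by_cases i1 : inc e.1 e0 = true
    · by_cases i2 : inc e.2 e0 = true
      · rw [if_pos i1, if_pos i1] at u1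
        rw [if_pos i2, if_pos i2] at u2
        omega
      · rw [if_pos i1, if_pos i1] at u1
        rw [if_neg i2, if_neg i2] at u2
        rcases hend _ i1 with h' | h'
        · rw [h'] at u1 ⊢
          have := hx1 e.2 hbd
          omega
        · rw [h'] at u1 ⊢
          have := hx2 e.2 hbd
          omega
    · by_cases i2 : inc e.2 e0 = true
      · rw [if_neg i1, if_neg i1] at u1
        rw [if_pos i2, if_pos i2] at u2
        rcases hend _ i2 with h' | h'
        · rw [h'] at u2 ⊢
          have := hx1 e.1 (by omega)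
          omega
        · rw [h'] at u2 ⊢
          have := hx2 e.1 (by omega)
          omega
      · rw [if_neg i1, if_neg i1] at u1
        rw [if_neg i2, if_neg i2] at u2
        omega
  · have := sum_update h.nodup he0 l x
    omega

/-- the bound for the sums -/
def bnd (n : ℕ) (E : List (ℕ × ℕ)) : ℕ := (2 * n + 1) * E.length + 1

theorem exists_small {n : ℕ} {E : List (ℕ × ℕ)} (h : Good n E) {l : ℕ × ℕ → ℕ}
    (hl : PLab E l) : ∃ l', PLab E l' ∧ (E.map l').sum < bnd n E := by
  classical
  have hex : ∃ s, ∃ l', PLab E l' ∧ (E.map l').sum = s := ⟨_, l, hl, rfl⟩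
  obtain ⟨l', hl', hs⟩ := Nat.find_spec hex
  refine ⟨l', hl', ?_⟩
  have hle : ∀ e ∈ E, l' e ≤ 2 * n + 1 := by
    intro e he
    by_contra hlt
    push Not at hlt
    obtain ⟨l'', hl'', hs'⟩ := exists_smaller h hl' he hlt
    have := Nat.find_min' hex ⟨l'', hl'', rfl⟩
    omega
  have : (E.map l').sum ≤ E.length * (2 * n + 1) := by
    have := List.sum_le_card_nsmul (E.map l') (2 * n + 1) (by
      intro x hx
      obtain ⟨e, he, rfl⟩ := List.mem_map.1 hx
      exact hle e he)
    simpa using this
  unfold bnd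
  rw [Nat.mul_comm]
  omega

/-- **Correctness of the algorithm.** -/
theorem run_correct {n : ℕ} {E : List (ℕ × ℕ)} (h : Good n E) (hac : (gF n E).IsAcyclic) (m : ℕ) :
    run n (bnd n E) E = some m ↔ IsLeast {s | ∃ l, PLab E l ∧ (E.map l).sum = s} m := by
  obtain ⟨h1, h2⟩ := run_spec (S := bnd n E) h hac
  constructor
  · intro hm
    obtain ⟨g1, g2⟩ := h1 m hm
    refine ⟨g1, ?_⟩
    rintro s ⟨l, hl, rfl⟩
    exact g2 l hl
  · rintro ⟨⟨l, hl, hs⟩, hmin⟩
    cases hr : run n (bnd n E) E with
    | none =>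
      exfalso
      obtain ⟨l', hl', hlt⟩ := exists_small h hl
      have := h2 hr l' hl'
      omega
    | some m' =>
      obtain ⟨g1, g2⟩ := h1 m' hr
      have e1 := hmin g1
      have e2 := g2 l hl
      rw [hs] at e2
      congr 1
      omega

end Pool.Agent.V11230.MS
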