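import Pool.Agent.V11230.MinSum2
import Pool.Agent.H622R2.MatGraph

/-!
# Proper labellings with minimum sum: labellings of graphs
-/

set_option autoImplicit false

namespace Pool.Agent.V11230.MS

open Pool.Agent.H622R2

section Defs

variable {V : Type} [Fintype V]

open Classical in
/-- the colour of `v`: the sum of the labels of the edges at `v` -/
noncomputable def colour (G : SimpleGraph V) (l : Sym2 V → ℕ) (v : V) : ℕ :=
  ∑ u, if G.Adj v u then l s(v, u) else 0

/-- `l` is a proper labelling: the labels of the edges are positive, and adjacent vertices have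
different colours. -/
def IsProper (G : SimpleGraph V) (l : Sym2 V → ℕ) : Prop :=
  (∀ e ∈ G.edgeSet, 1 ≤ l e) ∧ ∀ u v, G.Adj u v → colour G l u ≠ colour G l v

open Classical in
/-- the sum of the labels of the edges -/
noncomputable def labelSum (G : SimpleGraph V) (l : Sym2 V → ℕ) : ℕ := ∑ e ∈ G.edgeFinset, l e

/-- the sums of the proper labellings -/
def Sums (G : SimpleGraph V) : Set ℕ := {s | ∃ l, IsProper G l ∧ labelSum G l = s}

open Classical in
theorem two_labelSum (G : SimpleGraph V) (l : Sym2 V → ℕ) :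
    ∑ v, ∑ u, (if G.Adj v u then l s(v, u) else 0) = 2 * labelSum G l := by
  rw [← Finset.sum_product' Finset.univ Finset.univ
    (fun v u => if G.Adj v u then l s(v, u) else 0), ← Finset.sum_filter]
  unfold labelSum
  rw [← Finset.sum_fiberwise_of_maps_to (t := G.edgeFinset) (g := fun p : V × V => s(p.1, p.2)),
    Finset.mul_sum]
  · refine Finset.sum_congr rfl fun e he => ?_
    induction e using Sym2.ind with
    | _ a b =>
      rw [SimpleGraph.mem_edgeFinset, SimpleGraph.mem_edgeSet] at he
      have hne : a ≠ b := he.ne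
      have hset : ((Finset.univ ×ˢ Finset.univ).filter (fun p : V × V => G.Adj p.1 p.2)).filter
          (fun p => s(p.1, p.2) = s(a, b)) = {(a, b), (b, a)} := by
        ext ⟨x, y⟩
        simp only [Finset.mem_filter, Finset.mem_product, Finset.mem_univ, true_and,
          Sym2.eq_iff, Finset.mem_insert, Finset.mem_singleton, Prod.mk.injEq]
        constructor
        · exact fun h => h.2
        · rintro (⟨rfl, rfl⟩ | ⟨rfl, rfl⟩)
          · exact ⟨he, Or.inl ⟨rfl, rfl⟩⟩
          · exact ⟨he.symm, Or.inr ⟨rfl, rfl⟩⟩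
      rw [hset, Finset.sum_pair (by simp only [ne_eq, Prod.mk.injEq]; tauto)]
      dsimp only
      rw [Sym2.eq_swap (a := b) (b := a)]
      ring
  · rintro ⟨x, y⟩ h
    simp only [Finset.mem_filter, Finset.mem_product, Finset.mem_univ, true_and] at h
    rw [SimpleGraph.mem_edgeFinset, SimpleGraph.mem_edgeSet]
    exact h

end Defs

/-! ### Matrices -/

/-- the edges `(i, j)`, `i < j`, of the graph with adjacency matrix `M` -/
def edg (M : List (List Bool)) : List (ℕ × ℕ) :=
  (List.range M.length).flatMap fun i => ((List.range M.length).filter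
    (fun j => decide (i < j) && (entry M i j || entry M j i))).map (fun j => (i, j))

theorem mem_edg {M : List (List Bool)} {i j : ℕ} : (i, j) ∈ edg M ↔
    i < M.length ∧ j < M.length ∧ i < j ∧ (entry M i j = true ∨ entry M j i = true) := by
  unfold edg
  simp only [List.mem_flatMap, List.mem_range, List.mem_map, List.mem_filter, Bool.and_eq_true,
    decide_eq_true_eq, Bool.or_eq_true, Prod.mk.injEq]
  constructor
  · rintro ⟨i', h1, j', h2, rfl, rfl⟩
    exact ⟨h1, h2.1, h2.2.1, h2.2.2⟩
  · rintro ⟨h1, h2, h3, h4⟩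
    exact ⟨i, h1, j, ⟨h2, h3, h4⟩, rfl, rfl⟩

theorem good_edg (M : List (List Bool)) : Good M.length (edg M) := by
  refine ⟨?_, ?_, ?_⟩
  · unfold edg
    refine List.nodup_flatMap.2 ⟨fun i _ => ?_, ?_⟩
    · exact (List.nodup_range.filter _).map (fun a b h => by simpa using h)
    · refine List.Pairwise.imp_of_mem ?_ List.nodup_range
      intro a b _ _ hab u hu hu'
      simp only [List.mem_map] at hu hu'
      obtain ⟨_, _, rfl⟩ := hu
      obtain ⟨_, _, h⟩ := hu'
      simp only [Prod.mk.injEq] at h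
      exact hab h.1.symm
  · rintro ⟨i, j⟩ h
    exact (mem_edg.1 h).2.2.1
  · rintro ⟨i, j⟩ h
    exact (mem_edg.1 h).2.1

theorem gF_edg (M : List (List Bool)) : gF M.length (edg M) = matGraph M := by
  ext a b
  change (a ≠ b ∧ ((a.1, b.1) ∈ edg M ∨ (b.1, a.1) ∈ edg M)) ↔
    (a ≠ b ∧ (entry M a b = true ∨ entry M b a = true))
  refine and_congr_right fun hab => ?_
  rw [mem_edg, mem_edg]
  have hne : a.1 ≠ b.1 := fun h => hab (Fin.ext h)
  constructor
  · rintro (h | h)
    · exact h.2.2.2
    · exact h.2.2.2.symm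
  · intro h
    rcases lt_or_gt_of_ne hne with hlt | hlt
    · exact Or.inl ⟨a.2, b.2, hlt, h⟩
    · exact Or.inr ⟨b.2, a.2, hlt, h.symm⟩

/-- labels of edges and of pairs agree -/
def Agree (M : List (List Bool)) (L : Sym2 (Fin M.length) → ℕ) (l : ℕ × ℕ → ℕ) : Prop :=
  ∀ a b : Fin M.length, a < b → (matGraph M).Adj a b → L s(a, b) = l (a.1, b.1)

theorem adj_iff_edg {M : List (List Bool)} {a b : Fin M.length} : (matGraph M).Adj a b ↔
    a ≠ b ∧ ((a.1, b.1) ∈ edg M ∨ (b.1, a.1) ∈ edg M) := by
  rw [← gF_edg]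
  rfl

theorem agree_colour {M : List (List Bool)} {L : Sym2 (Fin M.length) → ℕ} {l : ℕ × ℕ → ℕ}
    (h : Agree M L l) (v : Fin M.length) : colour (matGraph M) L v = csum (edg M) l v.1 := by
  classical
  unfold colour csum
  rw [← Finset.sum_filter, ← List.sum_toFinset _ ((good_edg M).nodup.filter _)]
  refine Finset.sum_bij (fun u _ => (min v.1 u.1, max v.1 u.1)) ?_ ?_ ?_ ?_
  · intro u hu
    simp only [Finset.mem_filter, Finset.mem_univ, true_and] at hu
    rw [List.mem_toFinset, List.mem_filter, inc_iff]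
    have hu' := adj_iff_edg.1 hu
    have hne : v.1 ≠ u.1 := fun h => hu'.1 (Fin.ext h)
    rcases lt_or_gt_of_ne hne with hlt | hlt
    · rw [min_eq_left hlt.le, max_eq_right hlt.le]
      refine ⟨?_, Or.inl rfl⟩
      rcases hu'.2 with h' | h'
      · exact h'
      · exact absurd (mem_edg.1 h').2.2.1 (by omega)
    · rw [min_eq_right hlt.le, max_eq_left hlt.le]
      refine ⟨?_, Or.inr rfl⟩
      rcases hu'.2 with h' | h'
      · exact absurd (mem_edg.1 h').2.2.1 (by omega)
      · exact h'
  · intro u hu u' hu' he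
    simp only [Finset.mem_filter, Finset.mem_univ, true_and] at hu hu'
    have h1 : v.1 ≠ u.1 := fun h => hu.ne (Fin.ext h)
    have h2 : v.1 ≠ u'.1 := fun h => hu'.ne (Fin.ext h)
    simp only [Prod.mk.injEq] at he
    apply Fin.ext
    omega
  · rintro ⟨x, y⟩ hp
    rw [List.mem_toFinset, List.mem_filter, inc_iff] at hp
    obtain ⟨hp1, hp2⟩ := hp
    have hm := mem_edg.1 hp1
    dsimp only at hp2
    rcases hp2 with h' | h'
    · refine ⟨⟨y, hm.2.1⟩, ?_, ?_⟩
      · simp only [Finset.mem_filter, Finset.mem_univ, true_and]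
        rw [adj_iff_edg]
        refine ⟨?_, Or.inl (by simpa [← h'] using hp1)⟩
        simp only [ne_eq, Fin.ext_iff]
        omega
      · dsimp only
        rw [← h', min_eq_left hm.2.2.1.le, max_eq_right hm.2.2.1.le]
    · refine ⟨⟨x, hm.1⟩, ?_, ?_⟩
      · simp only [Finset.mem_filter, Finset.mem_univ, true_and]
        rw [adj_iff_edg]
        refine ⟨?_, Or.inr (by simpa [← h'] using hp1)⟩
        simp only [ne_eq, Fin.ext_iff]
        omega
      · dsimp only
        rw [← h', min_eq_right hm.2.2.1.le, max_eq_left hm.2.2.1.le]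
  · intro u hu
    simp only [Finset.mem_filter, Finset.mem_univ, true_and] at hu
    have hne : v ≠ u := hu.ne
    rcases lt_or_gt_of_ne hne with hlt | hlt
    · rw [h v u hlt hu]
      have hlt' : v.1 < u.1 := hlt
      rw [min_eq_left hlt'.le, max_eq_right hlt'.le]
    · rw [Sym2.eq_swap, h u v hlt hu.symm]
      have hlt' : u.1 < v.1 := hlt
      rw [min_eq_right hlt'.le, max_eq_left hlt'.le]

theorem agree_sum {M : List (List Bool)} {L : Sym2 (Fin M.length) → ℕ} {l : ℕ × ℕ → ℕ}
    (h : Agree M L l) : labelSum (matGraph M) L = ((edg M).map l).sum := by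
  classical
  unfold labelSum
  rw [← List.sum_toFinset _ (good_edg M).nodup]
  symm
  refine Finset.sum_bij (fun p hp => s(⟨p.1, (mem_edg.1 (List.mem_toFinset.1 hp)).1⟩,
    ⟨p.2, (mem_edg.1 (List.mem_toFinset.1 hp)).2.1⟩)) ?_ ?_ ?_ ?_
  · rintro ⟨x, y⟩ hp
    have hp' := List.mem_toFinset.1 hp
    rw [SimpleGraph.mem_edgeFinset, SimpleGraph.mem_edgeSet, adj_iff_edg]
    have := (mem_edg.1 hp').2.2.1
    refine ⟨?_, Or.inl hp'⟩
    simp only [ne_eq, Fin.ext_iff]
    omega
  · rintro ⟨x, y⟩ hp ⟨x', y'⟩ hp' he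
    have h1 := (mem_edg.1 (List.mem_toFinset.1 hp)).2.2.1
    have h2 := (mem_edg.1 (List.mem_toFinset.1 hp')).2.2.1
    simp only [Sym2.eq_iff, Fin.mk.injEq] at he
    simp only [Prod.mk.injEq]
    omega
  · intro e he
    induction e using Sym2.ind with
    | _ a b =>
      rw [SimpleGraph.mem_edgeFinset, SimpleGraph.mem_edgeSet, adj_iff_edg] at he
      rcases he.2 with h' | h'
      · exact ⟨(a.1, b.1), List.mem_toFinset.2 h', rfl⟩
      · exact ⟨(b.1, a.1), List.mem_toFinset.2 h', Sym2.eq_swap⟩
  · rintro ⟨x, y⟩ hp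
    have hp' := List.mem_toFinset.1 hp
    have hm := mem_edg.1 hp'
    rw [h ⟨x, hm.1⟩ ⟨y, hm.2.1⟩ (by exact hm.2.2.1)]
    rw [adj_iff_edg]
    refine ⟨?_, Or.inl hp'⟩
    simp only [ne_eq, Fin.ext_iff]
    omega

theorem agree_proper {M : List (List Bool)} {L : Sym2 (Fin M.length) → ℕ} {l : ℕ × ℕ → ℕ}
    (h : Agree M L l) : IsProper (matGraph M) L ↔ PLab (edg M) l := by
  unfold IsProper PLab
  refine and_congr ?_ ?_
  · constructor
    · rintro hp ⟨x, y⟩ he
      have hm := mem_edg.1 he
      have hadj : (matGraph M).Adj ⟨x, hm.1⟩ ⟨y, hm.2.1⟩ := by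
        rw [adj_iff_edg]
        refine ⟨?_, Or.inl he⟩
        simp only [ne_eq, Fin.ext_iff]
        omega
      have := hp s(⟨x, hm.1⟩, ⟨y, hm.2.1⟩) hadj
      rwa [h ⟨x, hm.1⟩ ⟨y, hm.2.1⟩ (by exact hm.2.2.1) hadj] at this
    · intro hp e he
      induction e using Sym2.ind with
      | _ a b =>
        rw [SimpleGraph.mem_edgeSet] at he
        have he' := adj_iff_edg.1 he
        rcases he'.2 with h' | h'
        · rw [h a b (by exact (mem_edg.1 h').2.2.1) he]
          exact hp _ h'
        · rw [Sym2.eq_swap, h b a (by exact (mem_edg.1 h').2.2.1) he.symm]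
          exact hp _ h'
  · constructor
    · rintro hp ⟨x, y⟩ he
      have hm := mem_edg.1 he
      have hadj : (matGraph M).Adj ⟨x, hm.1⟩ ⟨y, hm.2.1⟩ := by
        rw [adj_iff_edg]
        refine ⟨?_, Or.inl he⟩
        simp only [ne_eq, Fin.ext_iff]
        omega
      have := hp _ _ hadj
      rwa [agree_colour h, agree_colour h] at this
    · intro hp a b hab
      rw [agree_colour h, agree_colour h]
      have hab' := adj_iff_edg.1 hab
      rcases hab'.2 with h' | h'
      · exact hp _ h'
      · exact (hp _ h').symm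

theorem sums_eq (M : List (List Bool)) : Sums (matGraph M) =
    {s | ∃ l, PLab (edg M) l ∧ ((edg M).map l).sum = s} := by
  ext s
  constructor
  · rintro ⟨L, hL, rfl⟩
    let l : ℕ × ℕ → ℕ := fun p => if h : p.1 < M.length ∧ p.2 < M.length then
      L s(⟨p.1, h.1⟩, ⟨p.2, h.2⟩) else 0
    have hag : Agree M L l := by
      intro a b _ _
      simp only [l, dif_pos (show a.1 < M.length ∧ b.1 < M.length from ⟨a.2, b.2⟩)]
    exact ⟨l, (agree_proper hag).1 hL, (agree_sum hag).symm⟩
  · rintro ⟨l, hl, rfl⟩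
    let L : Sym2 (Fin M.length) → ℕ := Sym2.lift ⟨fun a b => l (min a.1 b.1, max a.1 b.1), by
      intro a b
      dsimp only
      rw [min_comm, max_comm]⟩
    have hag : Agree M L l := by
      intro a b hab _
      have hab' : a.1 < b.1 := hab
      simp only [L, Sym2.lift_mk, min_eq_left hab'.le, max_eq_right hab'.le]
    exact ⟨L, (agree_proper hag).2 hl, agree_sum hag⟩

/-- the algorithm on matrices -/
def runM (M : List (List Bool)) : Option ℕ := run M.length (bnd M.length (edg M)) (edg M)

/-- **The algorithm computes the minimum label sum of a proper labelling of a forest.** -/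
theorem runM_correct {M : List (List Bool)} (h : (matGraph M).IsAcyclic) (m : ℕ) :
    runM M = some m ↔ IsLeast (Sums (matGraph M)) m := by
  rw [sums_eq]
  exact run_correct (good_edg M) (by rwa [gF_edg]) m

theorem runM_none {M : List (List Bool)} (h : (matGraph M).IsAcyclic) :
    runM M = none ↔ Sums (matGraph M) = ∅ := by
  classical
  constructor
  · intro hn
    by_contra hne
    rw [← ne_eq, ← Set.nonempty_iff_ne_empty] at hne
    have hex : ∃ s, s ∈ Sums (matGraph M) := hne
    have : IsLeast (Sums (matGraph M)) (Nat.find hex) :=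
      ⟨Nat.find_spec hex, fun s hs => Nat.find_min' hex hs⟩
    rw [← runM_correct h, hn] at this
    exact absurd this (by simp)
  · intro he
    cases hr : runM M with
    | none => rfl
    | some m =>
      have := ((runM_correct h m).1 hr).1
      rw [he] at this
      exact absurd this (Set.notMem_empty m)

end Pool.Agent.V11230.MS
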