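import Pool.Agent.V11230.MinSum3
import Pool.Agent.NPC.Classes
import Pool.Agent.NPC.Dec

/-!
# Proper labellings of forests with minimum sum: polynomial time
-/

set_option autoImplicit false

namespace Pool.Agent.NPC.V11230.MSA

open Pool.Agent.NPC Pool.Agent.V11230.MS Pool.Agent.H622R2

section

variable {α : Type} [TEnc α]

theorem poly_inc {v : α → ℕ} {e : α → ℕ × ℕ} (hv : Poly v) (he : Poly e) :
    Poly (fun a => inc (v a) (e a)) :=
  Poly.or (Poly.decide_eq (Poly.fst he) hv) (Poly.decide_eq (Poly.snd he) hv)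

theorem poly_entry {M : α → List (List Bool)} {i j : α → ℕ} (hM : Poly M) (hi : Poly i)
    (hj : Poly j) : Poly (fun a => entry (M a) (i a) (j a)) :=
  Poly.getD (Poly.getD hM hi (Poly.const [])) hj (Poly.const false)

theorem poly_edg {M : α → List (List Bool)} (hM : Poly M) : Poly (fun a => edg (M a)) := by
  have hn : UPoly (fun a => (M a).length) := UPoly.length hM
  have h1 : ∀ {γ : Type} [TEnc γ] {h : α → γ}, Poly h → Poly (fun z : α × ℕ => h z.1) :=
    fun hh => hh.comp (Poly.fst Poly.id)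
  have h2 : ∀ {γ : Type} [TEnc γ] {h : α → γ}, Poly h → Poly (fun z : (α × ℕ) × ℕ => h z.1.1) :=
    fun hh => hh.comp (Poly.fst (Poly.fst Poly.id))
  have hi : Poly (fun z : (α × ℕ) × ℕ => z.1.2) := Poly.snd (Poly.fst Poly.id)
  have hj : Poly (fun z : (α × ℕ) × ℕ => z.2) := Poly.snd Poly.id
  unfold edg
  refine Poly.flatMap (F := fun (a : α) (i : ℕ) => ((List.range (M a).length).filter
    (fun j => decide (i < j) && (entry (M a) i j || entry (M a) j i))).map (fun j => (i, j)))
    hn.range ?_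
  refine Poly.map (F := fun (z : α × ℕ) (j : ℕ) => (z.2, j)) ?_ (Poly.pair hi hj)
  refine Poly.filter (p := fun (z : α × ℕ) (j : ℕ) => decide (z.2 < j) &&
    (entry (M z.1) z.2 j || entry (M z.1) j z.2)) (UPoly.length (h1 hM)).range ?_
  exact Poly.and (Poly.decide_lt hi hj) (Poly.or (poly_entry (h2 hM) hi hj)
    (poly_entry (h2 hM) hj hi))

theorem poly_cands {E : α → List (ℕ × ℕ)} (hE : Poly E) : Poly (fun a => cands (E a)) := by
  have he : Poly (fun z : α × (ℕ × ℕ) => z.2) := Poly.snd Poly.id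
  unfold cands
  refine Poly.filter (p := fun (a : α) (z : ℕ × ℕ × ℕ × ℕ) => (E a).all
    (fun e => !inc z.1 e || decide (e = z.2.2))) ?_ ?_
  · refine Poly.flatMap (F := fun (_ : α) (e : ℕ × ℕ) => [(e.1, e.2, e), (e.2, e.1, e)]) hE ?_
    exact Poly.cons (Poly.pair (Poly.fst he) (Poly.pair (Poly.snd he) he))
      (Poly.cons (Poly.pair (Poly.snd he) (Poly.pair (Poly.fst he) he)) (Poly.const []))
  · have hz : Poly (fun w : (α × (ℕ × ℕ × ℕ × ℕ)) × (ℕ × ℕ) => w.1.2) :=
      Poly.snd (Poly.fst Poly.id)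
    have he' : Poly (fun w : (α × (ℕ × ℕ × ℕ × ℕ)) × (ℕ × ℕ) => w.2) := Poly.snd Poly.id
    refine Poly.all (p := fun (w : α × (ℕ × ℕ × ℕ × ℕ)) (e : ℕ × ℕ) =>
      !inc w.2.1 e || decide (e = w.2.2.2)) (hE.comp (Poly.fst Poly.id)) ?_
    exact Poly.or (Poly.not (poly_inc (Poly.fst hz) he'))
      (Poly.decide_eq he' (Poly.snd (Poly.snd hz)))

theorem poly_uni {n S : α → ℕ} (hn : UPoly n) (hS : UPoly S) :
    Poly (fun a => uni (n a) (S a)) := by
  unfold uni
  refine Poly.flatMap (F := fun (a : α) (w : ℕ) => (List.range (S a)).flatMap fun c =>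
    (List.range (S a)).flatMap fun b => (List.range (S a)).map fun s => ((w, c, b, s) : En))
    hn.range ?_
  refine Poly.flatMap (F := fun (z : α × ℕ) (c : ℕ) => (List.range (S z.1)).flatMap fun b =>
    (List.range (S z.1)).map fun s => ((z.2, c, b, s) : En)) (hS.comp (Poly.fst Poly.id)).range ?_
  refine Poly.flatMap (F := fun (z : (α × ℕ) × ℕ) (b : ℕ) =>
    (List.range (S z.1.1)).map fun s => ((z.1.2, z.2, b, s) : En))
    (hS.comp (Poly.fst (Poly.fst Poly.id))).range ?_
  refine Poly.map (F := fun (z : ((α × ℕ) × ℕ) × ℕ) (s : ℕ) => ((z.1.1.2, z.1.2, z.2, s) : En))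
    (hS.comp (Poly.fst (Poly.fst (Poly.fst Poly.id)))).range ?_
  have h0 : Poly (fun w : (((α × ℕ) × ℕ) × ℕ) × ℕ => w) := Poly.id
  have h1 := Poly.fst h0
  have h2 := Poly.fst h1
  have h3 := Poly.fst h2
  exact Poly.pair (Poly.snd h3) (Poly.pair (Poly.snd h2) (Poly.pair (Poly.snd h1) (Poly.snd h0)))

theorem poly_joins {u v : α → ℕ} {t t1 t2 : α → En} (hu : Poly u) (hv : Poly v) (ht : Poly t)
    (ht1 : Poly t1) (ht2 : Poly t2) : Poly (fun a => joins (u a) (v a) (t a) (t1 a) (t2 a)) := by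
  have d := Poly.sub (Poly.fst (Poly.snd ht2)) (Poly.fst (Poly.snd (Poly.snd ht2)))
  exact Poly.and (Poly.and (Poly.and (Poly.and (Poly.and (Poly.and
    (Poly.decide_eq (Poly.fst ht1) hv) (Poly.decide_eq (Poly.fst ht2) hu))
    (Poly.decide_eq (Poly.fst (Poly.snd ht1)) (Poly.fst (Poly.snd ht))))
    (Poly.not (Poly.decide_eq (Poly.fst (Poly.snd ht)) (Poly.fst (Poly.snd ht2)))))
    (Poly.decide_lt (Poly.fst (Poly.snd (Poly.snd ht2))) (Poly.fst (Poly.snd ht2))))
    (Poly.decide_eq (Poly.fst (Poly.snd (Poly.snd ht)))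
      (Poly.add (Poly.fst (Poly.snd (Poly.snd ht1))) d)))
    (Poly.decide_eq (Poly.snd (Poly.snd (Poly.snd ht)))
      (Poly.add (Poly.add (Poly.snd (Poly.snd (Poly.snd ht1))) (Poly.snd (Poly.snd (Poly.snd ht2))))
        d))

theorem poly_keep {T : α → List En} {u v : α → ℕ} {t : α → En} (hT : Poly T) (hu : Poly u)
    (hv : Poly v) (ht : Poly t) : Poly (fun a => keep (T a) (u a) (v a) (t a)) := by
  refine Poly.ite (Poly.decide_eq (Poly.fst ht) hu)
    (Poly.decide_eq (Poly.snd ht) (Poly.const (0, 0, 0)))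
    (Poly.ite (Poly.decide_eq (Poly.fst ht) hv) ?_
      ((Poly.decide_mem ht hT).congr fun a => decide_eq_decide.2 Iff.rfl))
  have h1 : ∀ {γ : Type} [TEnc γ] {h : α → γ}, Poly h → Poly (fun z : α × En => h z.1) :=
    fun hh => hh.comp (Poly.fst Poly.id)
  have h2 : ∀ {γ : Type} [TEnc γ] {h : α → γ}, Poly h → Poly (fun z : (α × En) × En => h z.1.1) :=
    fun hh => hh.comp (Poly.fst (Poly.fst Poly.id))
  refine Poly.any (p := fun (a : α) (t1 : En) => (T a).any (fun t2 =>
    joins (u a) (v a) (t a) t1 t2)) hT ?_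
  refine Poly.any (p := fun (z : α × En) (t2 : En) => joins (u z.1) (v z.1) (t z.1) z.2 t2)
    (h1 hT) ?_
  exact poly_joins (h2 hu) (h2 hv) (h2 ht) (Poly.snd (Poly.fst Poly.id)) (Poly.snd Poly.id)

theorem poly_newT {n S : α → ℕ} {T : α → List En} {u v : α → ℕ} (hn : UPoly n) (hS : UPoly S)
    (hT : Poly T) (hu : Poly u) (hv : Poly v) :
    Poly (fun a => newT (n a) (S a) (T a) (u a) (v a)) :=
  Poly.filter (p := fun (a : α) (t : En) => keep (T a) (u a) (v a) t) (poly_uni hn hS)
    (poly_keep (hT.comp (Poly.fst Poly.id)) (hu.comp (Poly.fst Poly.id))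
      (hv.comp (Poly.fst Poly.id)) (Poly.snd Poly.id))

theorem poly_stp {n S : α → ℕ} {st : α → List (ℕ × ℕ) × List En} (hn : UPoly n) (hS : UPoly S)
    (hst : Poly st) : Poly (fun a => stp (n a) (S a) (st a)) := by
  have hE := Poly.fst hst
  have hc := poly_cands hE
  have hz := Poly.head?_getD hc ((0, 0, 0, 0) : ℕ × ℕ × ℕ × ℕ)
  refine Poly.ite (Poly.decide_eq hc (Poly.const [])) hst (Poly.pair ?_ ?_)
  · refine Poly.filter (p := fun (a : α) (e : ℕ × ℕ) => !decide (e =
      ((cands (st a).1).head?.getD (0, 0, 0, 0)).2.2)) hE ?_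
    exact Poly.not (Poly.decide_eq (Poly.snd Poly.id)
      ((Poly.snd (Poly.snd hz)).comp (Poly.fst Poly.id)))
  · exact poly_newT hn hS (Poly.snd hst) (Poly.fst hz) (Poly.fst (Poly.snd hz))

theorem poly_kosts {S : α → ℕ} {T : α → List En} {v : α → ℕ} (hS : UPoly S) (hT : Poly T)
    (hv : Poly v) : Poly (fun a => kosts (S a) (T a) (v a)) := by
  unfold kosts
  refine Poly.filter (p := fun (a : α) (k : ℕ) => (T a).any (fun t => decide (t.1 = v a) &&
    decide (t.2.1 = t.2.2.1) && decide (t.2.2.2 = k))) hS.range ?_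
  refine Poly.any (p := fun (z : α × ℕ) (t : En) => decide (t.1 = v z.1) &&
    decide (t.2.1 = t.2.2.1) && decide (t.2.2.2 = z.2)) (hT.comp (Poly.fst Poly.id)) ?_
  have ht : Poly (fun w : (α × ℕ) × En => w.2) := Poly.snd Poly.id
  exact Poly.and (Poly.and (Poly.decide_eq (Poly.fst ht)
    (hv.comp (Poly.fst (Poly.fst Poly.id)))) (Poly.decide_eq (Poly.fst (Poly.snd ht))
      (Poly.fst (Poly.snd (Poly.snd ht))))) (Poly.decide_eq (Poly.snd (Poly.snd (Poly.snd ht)))
        (Poly.snd (Poly.fst Poly.id)))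

theorem poly_fin {n S : α → ℕ} {T : α → List En} (hn : UPoly n) (hS : UPoly S) (hT : Poly T) :
    Poly (fun a => fin (n a) (S a) (T a)) := by
  have h1 : ∀ {γ : Type} [TEnc γ] {h : α → γ}, Poly h → Poly (fun z : α × ℕ => h z.1) :=
    fun hh => hh.comp (Poly.fst Poly.id)
  have hk : Poly (fun z : α × ℕ => kosts (S z.1) (T z.1) z.2) :=
    poly_kosts (hS.comp (Poly.fst Poly.id)) (h1 hT) (Poly.snd Poly.id)
  have hs : Poly (fun a => ((List.range (n a)).map (mink (S a) (T a))).sum) :=
    Poly.sum (Poly.map (F := fun (a : α) (v : ℕ) => mink (S a) (T a) v) hn.range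
      (Poly.head?_getD hk 0))
  unfold fin
  refine Poly.ite ?_ (Poly.const none) (Poly.ite (Poly.decide_lt hs hS.toPoly) (Poly.some hs)
    (Poly.const none))
  exact Poly.decide_bool (Poly.any (p := fun (a : α) (v : ℕ) => decide (kosts (S a) (T a) v = []))
    hn.range (Poly.decide_eq hk (Poly.const [])))

theorem sz_sublist {β : Type} [TEnc β] {l l' : List β} (h : l.Sublist l') : sz l ≤ sz l' := by
  induction h with
  | slnil => exact le_refl _
  | cons a _ ih =>
    rw [sz_list_cons]
    omega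
  | cons_cons a _ ih =>
    rw [sz_list_cons, sz_list_cons]
    omega

theorem stp_sub {n S : ℕ} {E : List (ℕ × ℕ)} {st : List (ℕ × ℕ) × List En}
    (h1 : st.1.Sublist E) (h2 : st.2.Sublist (uni n S)) :
    (stp n S st).1.Sublist E ∧ (stp n S st).2.Sublist (uni n S) := by
  unfold stp
  split_ifs
  · exact ⟨h1, h2⟩
  · exact ⟨List.filter_sublist.trans h1, List.filter_sublist⟩

theorem iter_sub {n S : ℕ} {E : List (ℕ × ℕ)} (k : ℕ) :
    ((stp n S)^[k] (E, tab0 n S)).1.Sublist E ∧
      ((stp n S)^[k] (E, tab0 n S)).2.Sublist (uni n S) := by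
  induction k with
  | zero => exact ⟨List.Sublist.refl _, List.filter_sublist⟩
  | succ k ih =>
    rw [Function.iterate_succ_apply']
    exact stp_sub ih.1 ih.2

end

/-- the bound of a matrix -/
def bndM (M : List (List Bool)) : ℕ := bnd M.length (edg M)

theorem upoly_bndM : UPoly bndM := by
  have hM : Poly (fun M : List (List Bool) => M) := Poly.id
  unfold bndM bnd
  exact UPoly.add (UPoly.mul (UPoly.add (UPoly.mul (UPoly.const 2) (UPoly.length hM))
    (UPoly.const 1)) (UPoly.length (poly_edg hM))) (UPoly.const 1)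

theorem poly_runM : Poly runM := by
  have hM : Poly (fun M : List (List Bool) => M) := Poly.id
  have hn : UPoly (fun M : List (List Bool) => M.length) := UPoly.length hM
  have hS := upoly_bndM
  have hE := poly_edg hM
  have hU := poly_uni hn hS
  have hT0 : Poly (fun M : List (List Bool) => tab0 M.length (bndM M)) := by
    unfold tab0
    exact Poly.filter (p := fun (_ : List (List Bool)) (t : En) => decide (t.2.2 = (0, 0))) hU
      (Poly.decide_eq (Poly.snd (Poly.snd (Poly.snd Poly.id))) (Poly.const (0, 0)))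
  obtain ⟨q, hq⟩ := (Poly.pair hE hU).sz_le
  have hiter : Poly (fun M : List (List Bool) =>
      (stp M.length (bndM M))^[(edg M).length] (edg M, tab0 M.length (bndM M))) := by
    refine Poly.iterLen (s := fun M : List (List Bool) => (edg M, tab0 M.length (bndM M)))
      (F := fun (M : List (List Bool)) (st : List (ℕ × ℕ) × List En) =>
        stp M.length (bndM M) st) hE (Poly.pair hE hT0)
      (poly_stp (hn.comp (Poly.fst Poly.id)) (hS.comp (Poly.fst Poly.id)) (Poly.snd Poly.id))
      q ?_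
    intro M k _
    obtain ⟨h1, h2⟩ := iter_sub (n := M.length) (S := bndM M) (E := edg M) k
    refine le_trans ?_ (hq M)
    rw [sz_pair]
    rcases hst : (stp M.length (bndM M))^[k] (edg M, tab0 M.length (bndM M)) with ⟨E', T'⟩
    rw [hst] at h1 h2
    rw [sz_pair]
    have := sz_sublist h1
    have := sz_sublist h2
    omega
  have := poly_fin hn hS (Poly.snd hiter)
  exact this.congr fun M => rfl

/-- the algorithm -/
def alg (x : List Bool) : List Bool := bits (runM ((unbits (List (List Bool)) x).getD []))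

theorem polyTime_alg : PolyTime alg := by
  refine polyTime_bits (g := fun x => runM ((unbits (List (List Bool)) x).getD [])) ?_
  exact poly_runM.comp ((Poly.optCases (o := fun x => unbits (List (List Bool)) x)
    (g := fun _ => ([] : List (List Bool))) (h := fun _ I => I) poly_unbits (Poly.const _)
    (Poly.snd Poly.id)).congr fun x => by cases unbits (List (List Bool)) x <;> rfl)

theorem alg_code (M : List (List Bool)) : alg (bits M) = bits (runM M) := by
  unfold alg
  rw [unbits_bits, Option.getD_some]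

end Pool.Agent.NPC.V11230.MSA
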