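import Pool.Agent.V11230.MinSum3
import Pool.Agent.H692R2.Col

/-!
# Proper labellings with minimum sum: the reduction from 3-colourability

The core consists of two copies of the Cartesian product of the graph and a triangle.
All vertices of the first copy have the same degree, all vertices of the second copy have the same
degree, which is one larger, and corresponding vertices of the two copies are adjacent.  The excess
(degree subtracted from colour) of the vertices of a triangle are different, so the sum of the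
excesses of the core is at least `3` for each triangle.
-/

set_option autoImplicit false

namespace Pool.Agent.V11230.MS

open Pool.Agent.H622R2

/-! ### Isomorphisms -/

section Iso

variable {V V' : Type} [Fintype V] [Fintype V'] {G : SimpleGraph V} {G' : SimpleGraph V'}

theorem colour_iso (e : G ≃g G') (l : Sym2 V → ℕ) (v : V) :
    colour G' (fun x => l (Sym2.map e.symm x)) (e v) = colour G l v := by
  classical
  unfold colour
  refine (Equiv.sum_comp e.toEquiv _).symm.trans ?_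
  refine Finset.sum_congr rfl fun u _ => ?_
  have h1 : G'.Adj (e v) (e.toEquiv u) ↔ G.Adj v u := e.map_adj_iff
  have h2 : Sym2.map (⇑e.symm) s(e v, e.toEquiv u) = s(v, u) := by
    rw [Sym2.map_mk]
    change s(e.symm (e v), e.symm (e u)) = _
    rw [e.symm_apply_apply, e.symm_apply_apply]
  simp only [h1, h2]

theorem labelSum_iso (e : G ≃g G') (l : Sym2 V → ℕ) :
    labelSum G' (fun x => l (Sym2.map e.symm x)) = labelSum G l := by
  classical
  have h1 := two_labelSum G' (fun x => l (Sym2.map e.symm x))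
  have h2 := two_labelSum G l
  have h3 : ∑ v, ∑ u, (if G'.Adj v u then l (Sym2.map e.symm s(v, u)) else 0) =
      ∑ v, ∑ u, (if G.Adj v u then l s(v, u) else 0) := by
    refine (Equiv.sum_comp e.toEquiv _).symm.trans ?_
    refine Finset.sum_congr rfl fun v _ => ?_
    exact colour_iso e l v
  omega

theorem isProper_iso (e : G ≃g G') {l : Sym2 V → ℕ} (h : IsProper G l) :
    IsProper G' (fun x => l (Sym2.map e.symm x)) := by
  refine ⟨?_, ?_⟩
  · intro x hx
    induction x using Sym2.ind with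
    | _ a b =>
      rw [SimpleGraph.mem_edgeSet] at hx
      refine h.1 _ ?_
      rw [Sym2.map_mk, SimpleGraph.mem_edgeSet]
      exact e.symm.map_adj_iff.2 hx
  · intro u v huv
    have h1 := colour_iso e l (e.symm u)
    have h2 := colour_iso e l (e.symm v)
    rw [e.apply_symm_apply] at h1 h2
    rw [h1, h2]
    exact h.2 _ _ (e.symm.map_adj_iff.2 huv)

end Iso

/-! ### The graph -/

/-- labels of vertices: core vertices are `(0, a, 0)`, the leaf in the slot `b` of `a` is
`(1, a, b)`, the additional leaf of `a` is `(2, a, 0)`; the other vertices are isolated -/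
abbrev T3 : Type := ℕ × ℕ × ℕ

/-- The adjacency of the core: `a = 6 v + 2 c + i` is the vertex `(v, c)` of the copy `i`. -/
def cadj (E : List (ℕ × ℕ)) (a b : ℕ) : Bool :=
  (decide (a / 2 = b / 2) && !decide (a = b)) ||
  (decide (a % 2 = b % 2) && decide (a / 6 = b / 6) && !decide (a = b)) ||
  (decide (a % 2 = b % 2) && decide (a / 2 % 3 = b / 2 % 3) &&
    (decide ((a / 6, b / 6) ∈ E) || decide ((b / 6, a / 6) ∈ E)))

theorem cadj_iff {E : List (ℕ × ℕ)} {a b : ℕ} : cadj E a b = true ↔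
    (a / 2 = b / 2 ∧ a ≠ b) ∨ (a % 2 = b % 2 ∧ a / 6 = b / 6 ∧ a ≠ b) ∨
    (a % 2 = b % 2 ∧ a / 2 % 3 = b / 2 % 3 ∧ ((a / 6, b / 6) ∈ E ∨ (b / 6, a / 6) ∈ E)) := by
  unfold cadj
  simp only [Bool.or_eq_true, Bool.and_eq_true, decide_eq_true_eq, Bool.not_eq_true',
    decide_eq_false_iff_not, and_assoc, or_assoc, ne_eq]

theorem cadj_comm (E : List (ℕ × ℕ)) (a b : ℕ) : cadj E a b = cadj E b a := by
  rw [Bool.eq_iff_iff, cadj_iff, cadj_iff]
  constructor
  · rintro (h | h | h)
    · exact Or.inl ⟨h.1.symm, h.2.symm⟩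
    · exact Or.inr (Or.inl ⟨h.1.symm, h.2.1.symm, h.2.2.symm⟩)
    · exact Or.inr (Or.inr ⟨h.1.symm, h.2.1.symm, h.2.2.symm⟩)
  · rintro (h | h | h)
    · exact Or.inl ⟨h.1.symm, h.2.symm⟩
    · exact Or.inr (Or.inl ⟨h.1.symm, h.2.1.symm, h.2.2.symm⟩)
    · exact Or.inr (Or.inr ⟨h.1.symm, h.2.1.symm, h.2.2.symm⟩)

/-- adjacency from core vertices -/
def adjT (E : List (ℕ × ℕ)) (x y : T3) : Bool :=
  decide (x.1 = 0) && decide (x.2.2 = 0) &&
    ((decide (y.1 = 0) && decide (y.2.2 = 0) && cadj E x.2.1 y.2.1) ||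
    ((decide (y.1 = 1) && decide (y.2.1 = x.2.1) && !cadj E x.2.1 y.2.2) ||
    (decide (y.1 = 2) && decide (y.2.1 = x.2.1) && decide (y.2.2 = 0) &&
      decide (x.2.1 % 2 = 1))))

theorem adjT_iff {E : List (ℕ × ℕ)} {k a b k' a' b' : ℕ} :
    adjT E (k, a, b) (k', a', b') = true ↔ k = 0 ∧ b = 0 ∧
      ((k' = 0 ∧ b' = 0 ∧ cadj E a a' = true) ∨ (k' = 1 ∧ a' = a ∧ cadj E a b' = false) ∨
      (k' = 2 ∧ a' = a ∧ b' = 0 ∧ a % 2 = 1)) := by
  unfold adjT
  simp only [Bool.or_eq_true, Bool.and_eq_true, decide_eq_true_eq, Bool.not_eq_true', and_assoc]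

/-- the vertices -/
def vsT (m : ℕ) : List T3 :=
  (List.range 3).flatMap fun k => (List.range m).flatMap fun a =>
    (List.range m).map fun b => (k, a, b)

theorem mem_vsT {m k a b : ℕ} : (k, a, b) ∈ vsT m ↔ k < 3 ∧ a < m ∧ b < m := by
  unfold vsT
  simp only [List.mem_flatMap, List.mem_range, List.mem_map, Prod.mk.injEq]
  constructor
  · rintro ⟨k', h1, a', h2, b', h3, rfl, rfl, rfl⟩
    exact ⟨h1, h2, h3⟩
  · rintro ⟨h1, h2, h3⟩
    exact ⟨k, h1, a, h2, b, h3, rfl, rfl, rfl⟩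

theorem nodup_vsT (m : ℕ) : (vsT m).Nodup := by
  unfold vsT
  refine List.nodup_flatMap.2 ⟨fun k _ => ?_, ?_⟩
  · refine List.nodup_flatMap.2 ⟨fun x _ => ?_, ?_⟩
    · exact List.Nodup.map (fun a b h => by simpa using h) List.nodup_range
    · refine List.Pairwise.imp_of_mem ?_ List.nodup_range
      intro a b _ _ hab u hu hu'
      simp only [List.mem_map] at hu hu'
      obtain ⟨_, _, rfl⟩ := hu
      obtain ⟨_, _, h⟩ := hu'
      simp only [Prod.mk.injEq] at h
      exact hab h.2.1.symm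
  · refine List.Pairwise.imp_of_mem ?_ List.nodup_range
    intro a b _ _ hab u hu hu'
    simp only [List.mem_flatMap, List.mem_map] at hu hu'
    obtain ⟨_, _, _, _, rfl⟩ := hu
    obtain ⟨_, _, _, _, h⟩ := hu'
    simp only [Prod.mk.injEq] at h
    exact hab h.1.symm

/-- the graph -/
abbrev GT (E : List (ℕ × ℕ)) (m : ℕ) : SimpleGraph {x // x ∈ vsT m} := labGraph (vsT m) (adjT E)

theorem sum_vsT (m : ℕ) (f : T3 → ℕ) : ∑ y : {x // x ∈ vsT m}, f y.1 =
    ∑ k ∈ Finset.range 3, ∑ a ∈ Finset.range m, ∑ b ∈ Finset.range m, f (k, a, b) := by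
  rw [← Finset.sum_subtype (vsT m).toFinset (fun x => List.mem_toFinset) f]
  have : (vsT m).toFinset = Finset.range 3 ×ˢ Finset.range m ×ˢ Finset.range m := by
    ext ⟨k, a, b⟩
    rw [List.mem_toFinset, mem_vsT]
    simp only [Finset.mem_product, Finset.mem_range]
  rw [this, Finset.sum_product]
  refine Finset.sum_congr rfl fun k _ => ?_
  rw [Finset.sum_product]

variable {E : List (ℕ × ℕ)} {N : ℕ}

/-- a core vertex -/
def cv {m : ℕ} (a : ℕ) (ha : a < m) : {x // x ∈ vsT m} :=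
  ⟨(0, a, 0), mem_vsT.2 ⟨by omega, ha, by omega⟩⟩

theorem adj_core {m a : ℕ} (ha : a < m) {k b d : ℕ} (hy : (k, b, d) ∈ vsT m)
    (hne : cadj E a a = false) :
    (GT E m).Adj (cv a ha) ⟨(k, b, d), hy⟩ ↔ (k = 0 ∧ d = 0 ∧ cadj E a b = true) ∨
      (k = 1 ∧ b = a ∧ cadj E a d = false) ∨ (k = 2 ∧ b = a ∧ d = 0 ∧ a % 2 = 1) := by
  change ((cv a ha ≠ ⟨(k, b, d), hy⟩ ∧ (adjT E (0, a, 0) (k, b, d) = true ∨
    adjT E (k, b, d) (0, a, 0) = true))) ↔ _
  rw [adjT_iff, adjT_iff]
  constructor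
  · rintro ⟨_, h | h⟩
    · exact h.2.2
    · obtain ⟨rfl, rfl, h | h | h⟩ := h
      · left
        rw [cadj_comm]
        exact ⟨rfl, rfl, h.2.2⟩
      · omega
      · omega
  · intro h
    refine ⟨?_, Or.inl ⟨rfl, rfl, h⟩⟩
    unfold cv
    rw [ne_eq, Subtype.mk.injEq]
    simp only [Prod.mk.injEq]
    rintro ⟨rfl, rfl, rfl⟩
    rcases h with h | h | h
    · rw [hne] at h
      exact absurd h.2.2 (by decide)
    · omega
    · omega

/-- sums over the neighbours of a core vertex -/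
theorem sum_core {m a : ℕ} (ha : a < m) (hne : cadj E a a = false) (F : T3 → ℕ)
    [DecidableRel (GT E m).Adj] :
    ∑ y : {x // x ∈ vsT m}, (if (GT E m).Adj (cv a ha) y then F y.1 else 0) =
      (∑ b ∈ Finset.range m, if cadj E a b = true then F (0, b, 0) else 0) +
      (∑ d ∈ Finset.range m, if cadj E a d = true then 0 else F (1, a, d)) +
      (if a % 2 = 1 then F (2, a, 0) else 0) := by
  obtain ⟨f, hf⟩ : ∃ f : T3 → ℕ, ∀ k b d, f (k, b, d) =
      if (k = 0 ∧ d = 0 ∧ cadj E a b = true) ∨ (k = 1 ∧ b = a ∧ cadj E a d = false) ∨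
        (k = 2 ∧ b = a ∧ d = 0 ∧ a % 2 = 1) then F (k, b, d) else 0 :=
    ⟨fun z => if (z.1 = 0 ∧ z.2.2 = 0 ∧ cadj E a z.2.1 = true) ∨
        (z.1 = 1 ∧ z.2.1 = a ∧ cadj E a z.2.2 = false) ∨
        (z.1 = 2 ∧ z.2.1 = a ∧ z.2.2 = 0 ∧ a % 2 = 1) then F z else 0, fun _ _ _ => rfl⟩
  have h1 : ∀ y : {x // x ∈ vsT m}, (if (GT E m).Adj (cv a ha) y then F y.1 else 0) =
      f y.1 := by
    rintro ⟨⟨k, b, d⟩, hy⟩
    have := adj_core (E := E) ha hy hne
    rw [hf]
    simp only [this]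
  rw [Finset.sum_congr rfl (fun y _ => h1 y), sum_vsT m f, Finset.sum_range_succ,
    Finset.sum_range_succ, Finset.sum_range_succ, Finset.sum_range_zero, Nat.zero_add]
  simp only [hf]
  have hm : 0 < m := by omega
  congr 1
  · congr 1
    · refine Finset.sum_congr rfl fun b _ => ?_
      rw [Finset.sum_eq_single_of_mem 0 (Finset.mem_range.2 hm)]
      · simp
      · intro d _ hd
        rw [if_neg]
        omega
    · rw [Finset.sum_eq_single_of_mem a (Finset.mem_range.2 ha)]
      · refine Finset.sum_congr rfl fun d _ => ?_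
        cases cadj E a d <;> simp
      · intro b _ hb
        refine Finset.sum_eq_zero fun d _ => ?_
        rw [if_neg]
        omega
  · rw [Finset.sum_eq_single_of_mem a (Finset.mem_range.2 ha)]
    · rw [Finset.sum_eq_single_of_mem 0 (Finset.mem_range.2 hm)]
      · simp
      · intro d _ hd
        rw [if_neg]
        omega
    · intro b _ hb
      refine Finset.sum_eq_zero fun d _ => ?_
      rw [if_neg]
      omega

/-- the degree of a core vertex -/
theorem deg_core {m a : ℕ} (ha : a < m) (hne : cadj E a a = false)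
    [DecidableRel (GT E m).Adj] :
    ∑ y : {x // x ∈ vsT m}, (if (GT E m).Adj (cv a ha) y then 1 else 0) = m + a % 2 := by
  rw [sum_core ha hne (fun _ => 1), ← Finset.sum_add_distrib]
  have : ∀ b ∈ Finset.range m, ((if cadj E a b = true then 1 else 0) +
      (if cadj E a b = true then 0 else 1)) = 1 := by
    intro b _
    split_ifs <;> rfl
  rw [Finset.sum_congr rfl this]
  have h2 : (if a % 2 = 1 then 1 else 0) = a % 2 := by
    split_ifs <;> omega
  rw [h2]
  simp

theorem cadj_self (hE : ∀ e ∈ E, e.1 ≠ e.2) (a : ℕ) : cadj E a a = false := by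
  rw [← Bool.not_eq_true, cadj_iff]
  rintro (h | h | h)
  · exact h.2 rfl
  · exact h.2.2 rfl
  · rcases h.2.2 with h | h <;> exact hE _ h rfl

/-! ### A labelling with small sum gives a 3-colouring -/

theorem sum_six (N : ℕ) (f : ℕ → ℕ) : ∑ a ∈ Finset.range (6 * N), f a =
    ∑ v ∈ Finset.range N, (f (6 * v) + f (6 * v + 1) + f (6 * v + 2) + f (6 * v + 3) +
      f (6 * v + 4) + f (6 * v + 5)) := by
  induction N with
  | zero => rfl
  | succ N ih =>
    rw [show 6 * (N + 1) = 6 * N + 1 + 1 + 1 + 1 + 1 + 1 by ring, Finset.sum_range_succ,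
      Finset.sum_range_succ, Finset.sum_range_succ, Finset.sum_range_succ, Finset.sum_range_succ,
      Finset.sum_range_succ, ih, Finset.sum_range_succ]
    ring

/-- the excess of a vertex -/
noncomputable def exc (E : List (ℕ × ℕ)) (m : ℕ) (l : Sym2 {x // x ∈ vsT m} → ℕ)
    (v : {x // x ∈ vsT m}) : ℕ := colour (GT E m) (fun e => l e - 1) v

theorem colour_eq {m : ℕ} {l : Sym2 {x // x ∈ vsT m} → ℕ} (h : IsProper (GT E m) l)
    (v : {x // x ∈ vsT m}) : colour (GT E m) l v = colour (GT E m) (fun _ => 1) v +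
      exc E m l v := by
  classical
  unfold exc colour
  rw [← Finset.sum_add_distrib]
  refine Finset.sum_congr rfl fun u _ => ?_
  by_cases huv : (GT E m).Adj v u
  · rw [if_pos huv, if_pos huv, if_pos huv]
    have := h.1 s(v, u) huv
    dsimp only
    omega
  · rw [if_neg huv, if_neg huv, if_neg huv]

theorem labelSum_eq {m : ℕ} {l : Sym2 {x // x ∈ vsT m} → ℕ} (h : IsProper (GT E m) l) :
    2 * labelSum (GT E m) l = 2 * labelSum (GT E m) (fun _ => 1) + ∑ v, exc E m l v := by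
  classical
  rw [← two_labelSum, ← two_labelSum, ← Finset.sum_add_distrib]
  exact Finset.sum_congr rfl fun v _ => colour_eq h v

theorem colour_one {m a : ℕ} (ha : a < m) (hne : cadj E a a = false) :
    colour (GT E m) (fun _ => 1) (cv a ha) = m + a % 2 := by
  classical
  unfold colour
  exact deg_core ha hne

theorem col_of_sum (hE : ∀ e ∈ E, e.1 ≠ e.2 ∧ e.1 < N ∧ e.2 < N)
    {l : Sym2 {x // x ∈ vsT (6 * N)} → ℕ} (h : IsProper (GT E (6 * N)) l)
    (hs : labelSum (GT E (6 * N)) l ≤ labelSum (GT E (6 * N)) (fun _ => 1) + 3 * N) :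
    Pool.Agent.H692R2.Col 3 E := by
  classical
  have hself := cadj_self (E := E) (fun e he => (hE e he).1)
  have hx := labelSum_eq h
  -- the excess of a core vertex
  let X : ℕ → ℕ := fun a => if ha : a < 6 * N then exc E (6 * N) l (cv a ha) else 0
  have hX : ∀ a (ha : a < 6 * N), X a = exc E (6 * N) l (cv a ha) := by
    intro a ha
    simp only [X, dif_pos ha]
  have hXsum : ∑ a ∈ Finset.range (6 * N), X a ≤ ∑ v, exc E (6 * N) l v := by
    have h1 : ∑ a ∈ Finset.range (6 * N), X a =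
        ∑ a : Fin (6 * N), exc E (6 * N) l (cv a.1 a.2) := by
      rw [← Fin.sum_univ_eq_sum_range]
      exact Finset.sum_congr rfl fun a _ => hX a.1 a.2
    rw [h1]
    let c : Fin (6 * N) ↪ {x // x ∈ vsT (6 * N)} := ⟨fun a => cv a.1 a.2, by
      intro a b hab
      have := congrArg (fun z : {x // x ∈ vsT (6 * N)} => z.1.2.1) hab
      exact Fin.ext this⟩
    have h2 : ∑ a : Fin (6 * N), exc E (6 * N) l (cv a.1 a.2) =
        ∑ v ∈ Finset.univ.map c, exc E (6 * N) l v := by
      rw [Finset.sum_map]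
      rfl
    rw [h2]
    exact Finset.sum_le_sum_of_subset (Finset.subset_univ _)
  have hXne : ∀ a b, a < 6 * N → b < 6 * N → cadj E a b = true → a % 2 = b % 2 → X a ≠ X b := by
    intro a b ha hb hab hpar he
    rw [hX a ha, hX b hb] at he
    have hadj : (GT E (6 * N)).Adj (cv a ha) (cv b hb) :=
      (adj_core ha _ (hself a)).2 (Or.inl ⟨rfl, rfl, hab⟩)
    apply h.2 _ _ hadj
    rw [colour_eq h, colour_eq h, he, colour_one ha (hself a), colour_one hb (hself b), hpar]
  have htri : ∀ a b, a < 6 * N → b < 6 * N → a / 6 = b / 6 → a % 2 = b % 2 → a ≠ b →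
      X a ≠ X b := by
    intro a b ha hb h6 h2 hne
    exact hXne a b ha hb (cadj_iff.2 (Or.inr (Or.inl ⟨h2, h6, hne⟩))) h2
  have hblock : ∀ v < N, 6 ≤ X (6 * v) + X (6 * v + 1) + X (6 * v + 2) + X (6 * v + 3) +
      X (6 * v + 4) + X (6 * v + 5) := by
    intro v hv
    have t1 := htri (6 * v) (6 * v + 2) (by omega) (by omega) (by omega) (by omega) (by omega)
    have t2 := htri (6 * v) (6 * v + 4) (by omega) (by omega) (by omega) (by omega) (by omega)
    have t3 := htri (6 * v + 2) (6 * v + 4) (by omega) (by omega) (by omega) (by omega) (by omega)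
    have t4 := htri (6 * v + 1) (6 * v + 3) (by omega) (by omega) (by omega) (by omega) (by omega)
    have t5 := htri (6 * v + 1) (6 * v + 5) (by omega) (by omega) (by omega) (by omega) (by omega)
    have t6 := htri (6 * v + 3) (6 * v + 5) (by omega) (by omega) (by omega) (by omega) (by omega)
    omega
  have hle2 : ∀ v < N, X (6 * v) ≤ 2 := by
    intro v hv
    by_contra hgt
    push Not at hgt
    have t1 := htri (6 * v) (6 * v + 2) (by omega) (by omega) (by omega) (by omega) (by omega)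
    have t2 := htri (6 * v) (6 * v + 4) (by omega) (by omega) (by omega) (by omega) (by omega)
    have t3 := htri (6 * v + 2) (6 * v + 4) (by omega) (by omega) (by omega) (by omega) (by omega)
    have t4 := htri (6 * v + 1) (6 * v + 3) (by omega) (by omega) (by omega) (by omega) (by omega)
    have t5 := htri (6 * v + 1) (6 * v + 5) (by omega) (by omega) (by omega) (by omega) (by omega)
    have t6 := htri (6 * v + 3) (6 * v + 5) (by omega) (by omega) (by omega) (by omega) (by omega)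
    have hlt := Finset.sum_lt_sum (s := Finset.range N) (f := fun _ => 6)
      (g := fun v => X (6 * v) + X (6 * v + 1) + X (6 * v + 2) + X (6 * v + 3) +
        X (6 * v + 4) + X (6 * v + 5)) (fun w hw => hblock w (Finset.mem_range.1 hw))
      ⟨v, Finset.mem_range.2 hv, by omega⟩
    rw [← sum_six N X, Finset.sum_const, Finset.card_range, smul_eq_mul] at hlt
    omega
  refine ⟨fun v => if hv : v < N then ⟨X (6 * v), by have := hle2 v hv; omega⟩ else 0,
    fun e he => ?_⟩
  obtain ⟨h1, h2, h3⟩ := hE e he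
  dsimp only
  rw [dif_pos h2, dif_pos h3]
  intro heq
  rw [Fin.mk.injEq] at heq
  refine hXne (6 * e.1) (6 * e.2) (by omega) (by omega) (cadj_iff.2 (Or.inr (Or.inr
    ⟨by omega, by omega, Or.inl ?_⟩))) (by omega) heq
  rw [Nat.mul_div_cancel_left _ (by omega), Nat.mul_div_cancel_left _ (by omega)]
  exact he

/-! ### A 3-colouring gives a labelling with small sum -/

/-- the excess of the core vertices `2 h` and `2 h + 1` -/
def xv (χ : ℕ → Fin 3) (h : ℕ) : ℕ := ((χ (h / 3)).1 + h % 3) % 3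

/-- the excess of the label -/
def gx (χ : ℕ → Fin 3) (x y : T3) : ℕ :=
  if x.1 = 0 ∧ x.2.2 = 0 ∧ y.1 = 0 ∧ y.2.2 = 0 ∧ x.2.1 / 2 = y.2.1 / 2 ∧ x.2.1 ≠ y.2.1 then
    xv χ (x.2.1 / 2) else 0

theorem gx_comm (χ : ℕ → Fin 3) (x y : T3) : gx χ x y = gx χ y x := by
  unfold gx
  by_cases h : x.1 = 0 ∧ x.2.2 = 0 ∧ y.1 = 0 ∧ y.2.2 = 0 ∧ x.2.1 / 2 = y.2.1 / 2 ∧
      x.2.1 ≠ y.2.1
  · rw [if_pos h, if_pos ⟨h.2.2.1, h.2.2.2.1, h.1, h.2.1, h.2.2.2.2.1.symm, h.2.2.2.2.2.symm⟩,
      h.2.2.2.2.1]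
  · rw [if_neg h, if_neg]
    rintro ⟨h1, h2, h3, h4, h5, h6⟩
    exact h ⟨h3, h4, h1, h2, h5.symm, h6.symm⟩

/-- the labelling -/
def lx (χ : ℕ → Fin 3) (m : ℕ) : Sym2 {x // x ∈ vsT m} → ℕ :=
  Sym2.lift ⟨fun x y => 1 + gx χ x.1 y.1, fun x y => by
    dsimp only
    rw [gx_comm]⟩

theorem lx_mk (χ : ℕ → Fin 3) (m : ℕ) (x y : {x // x ∈ vsT m}) :
    lx χ m s(x, y) = 1 + gx χ x.1 y.1 := rfl

theorem colour_lx (χ : ℕ → Fin 3) {m : ℕ} (v : {x // x ∈ vsT m}) :
    colour (GT E m) (lx χ m) v = colour (GT E m) (fun _ => 1) v +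
      colour (GT E m) (fun e => lx χ m e - 1) v := by
  classical
  unfold colour
  rw [← Finset.sum_add_distrib]
  refine Finset.sum_congr rfl fun u _ => ?_
  split_ifs
  · dsimp only
    rw [lx_mk]
    omega
  · rfl

theorem exc_core (hself : ∀ a, cadj E a a = false) (χ : ℕ → Fin 3) {a : ℕ} (ha : a < 6 * N) :
    colour (GT E (6 * N)) (fun e => lx χ (6 * N) e - 1) (cv a ha) = xv χ (a / 2) := by
  classical
  unfold colour
  have h1 : ∀ y : {x // x ∈ vsT (6 * N)}, (if (GT E (6 * N)).Adj (cv a ha) y then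
      lx χ (6 * N) s(cv a ha, y) - 1 else 0) = (if (GT E (6 * N)).Adj (cv a ha) y then
      (fun z => gx χ (0, a, 0) z) y.1 else 0) := by
    intro y
    split_ifs
    · rw [lx_mk, Nat.add_sub_cancel_left]
      rfl
    · rfl
  rw [Finset.sum_congr rfl fun y _ => h1 y, sum_core ha (hself a)]
  have h2 : ∑ d ∈ Finset.range (6 * N), (if cadj E a d = true then 0 else gx χ (0, a, 0) (1, a, d))
      = 0 := by
    refine Finset.sum_eq_zero fun d _ => ?_
    split_ifs
    · rfl
    · unfold gx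
      rw [if_neg (by simp)]
  have h3 : (if a % 2 = 1 then gx χ (0, a, 0) (2, a, 0) else 0) = 0 := by
    split_ifs
    · unfold gx
      rw [if_neg (by simp)]
    · rfl
  simp only [h2, h3, Nat.add_zero]
  -- the partner
  have hp : ∃ b, b < 6 * N ∧ a / 2 = b / 2 ∧ a ≠ b ∧ ∀ b', a / 2 = b' / 2 → a ≠ b' → b' = b := by
    rcases Nat.mod_two_eq_zero_or_one a with h | h
    · exact ⟨a + 1, by omega, by omega, by omega, by intros; omega⟩
    · exact ⟨a - 1, by omega, by omega, by omega, by intros; omega⟩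
  obtain ⟨b, hb1, hb2, hb3, hb4⟩ := hp
  rw [Finset.sum_eq_single_of_mem b (Finset.mem_range.2 hb1)]
  · rw [if_pos (cadj_iff.2 (Or.inl ⟨hb2, hb3⟩))]
    unfold gx
    rw [if_pos ⟨rfl, rfl, rfl, rfl, hb2, hb3⟩]
  · intro b' _ hb'
    split_ifs
    · unfold gx
      rw [if_neg]
      rintro ⟨_, _, _, _, g1, g2⟩
      exact hb' (hb4 b' g1 g2)
    · rfl

theorem exc_other (χ : ℕ → Fin 3) {m k a b : ℕ} (hm : (k, a, b) ∈ vsT m)
    (hne : k ≠ 0 ∨ b ≠ 0) :
    colour (GT E m) (fun e => lx χ m e - 1) ⟨(k, a, b), hm⟩ = 0 := by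
  classical
  unfold colour
  refine Finset.sum_eq_zero fun y _ => ?_
  split_ifs
  · dsimp only
    rw [lx_mk, Nat.add_sub_cancel_left]
    unfold gx
    rw [if_neg]
    rintro ⟨g1, g2, _⟩
    dsimp only at g1 g2
    omega
  · rfl

theorem xv_sum (χ : ℕ → Fin 3) (v : ℕ) : xv χ (3 * v) + xv χ (3 * v + 1) + xv χ (3 * v + 2) = 3 := by
  unfold xv
  rw [show 3 * v / 3 = v by omega, show (3 * v + 1) / 3 = v by omega,
    show (3 * v + 2) / 3 = v by omega, show 3 * v % 3 = 0 by omega,
    show (3 * v + 1) % 3 = 1 by omega, show (3 * v + 2) % 3 = 2 by omega]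
  have := (χ v).2
  omega

theorem labelSum_lx (hself : ∀ a, cadj E a a = false) (χ : ℕ → Fin 3)
    (hprop : IsProper (GT E (6 * N)) (lx χ (6 * N))) :
    labelSum (GT E (6 * N)) (lx χ (6 * N)) = labelSum (GT E (6 * N)) (fun _ => 1) + 3 * N := by
  classical
  have h := labelSum_eq hprop
  have hx : ∑ v, exc E (6 * N) (lx χ (6 * N)) v = 6 * N := by
    obtain ⟨f, hf⟩ : ∃ f : T3 → ℕ, ∀ k a b, f (k, a, b) =
        if k = 0 ∧ b = 0 then xv χ (a / 2) else 0 :=
      ⟨fun z => if z.1 = 0 ∧ z.2.2 = 0 then xv χ (z.2.1 / 2) else 0, fun _ _ _ => rfl⟩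
    have h1 : ∀ v : {x // x ∈ vsT (6 * N)}, exc E (6 * N) (lx χ (6 * N)) v = f v.1 := by
      rintro ⟨⟨k, a, b⟩, hm⟩
      rw [hf]
      by_cases hkb : k = 0 ∧ b = 0
      · obtain ⟨rfl, rfl⟩ := hkb
        rw [if_pos ⟨rfl, rfl⟩]
        exact exc_core hself χ (mem_vsT.1 hm).2.1
      · rw [if_neg hkb]
        exact exc_other χ hm (by omega)
    rw [Finset.sum_congr rfl fun v _ => h1 v, sum_vsT _ f, Finset.sum_range_succ,
      Finset.sum_range_succ, Finset.sum_range_succ, Finset.sum_range_zero, Nat.zero_add]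
    have z1 : ∑ a ∈ Finset.range (6 * N), ∑ b ∈ Finset.range (6 * N), f (1, a, b) = 0 :=
      Finset.sum_eq_zero fun a _ => Finset.sum_eq_zero fun b _ => by
        rw [hf, if_neg (by omega)]
    have z2 : ∑ a ∈ Finset.range (6 * N), ∑ b ∈ Finset.range (6 * N), f (2, a, b) = 0 :=
      Finset.sum_eq_zero fun a _ => Finset.sum_eq_zero fun b _ => by
        rw [hf, if_neg (by omega)]
    have z0 : ∑ a ∈ Finset.range (6 * N), ∑ b ∈ Finset.range (6 * N), f (0, a, b) =
        ∑ a ∈ Finset.range (6 * N), xv χ (a / 2) := by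
      refine Finset.sum_congr rfl fun a ha => ?_
      rw [Finset.mem_range] at ha
      rw [Finset.sum_eq_single_of_mem 0 (Finset.mem_range.2 (by omega))]
      · rw [hf, if_pos ⟨rfl, rfl⟩]
      · intro b _ hb
        rw [hf, if_neg]
        omega
    rw [z0, z1, z2, sum_six N (fun a => xv χ (a / 2))]
    have h6 : ∀ v ∈ Finset.range N, xv χ (6 * v / 2) + xv χ ((6 * v + 1) / 2) +
        xv χ ((6 * v + 2) / 2) + xv χ ((6 * v + 3) / 2) + xv χ ((6 * v + 4) / 2) +
        xv χ ((6 * v + 5) / 2) = 6 := by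
      intro v _
      rw [show 6 * v / 2 = 3 * v by omega, show (6 * v + 1) / 2 = 3 * v by omega,
        show (6 * v + 2) / 2 = 3 * v + 1 by omega, show (6 * v + 3) / 2 = 3 * v + 1 by omega,
        show (6 * v + 4) / 2 = 3 * v + 2 by omega, show (6 * v + 5) / 2 = 3 * v + 2 by omega]
      have := xv_sum χ v
      omega
    rw [Finset.sum_congr rfl h6, Finset.sum_const, Finset.card_range, smul_eq_mul]
    omega
  omega

theorem colour_leaf {m k a b : ℕ} (hm : (k, a, b) ∈ vsT m) (hk : k ≠ 0) :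
    colour (GT E m) (fun _ => 1) ⟨(k, a, b), hm⟩ ≤ 1 := by
  classical
  have ha := (mem_vsT.1 hm).2.1
  unfold colour
  rw [Finset.sum_eq_single_of_mem (cv a ha) (Finset.mem_univ _)]
  · split_ifs
    · exact le_refl _
    · exact Nat.zero_le _
  · rintro ⟨⟨k', a', b'⟩, hy⟩ _ hne
    rw [if_neg]
    rintro ⟨_, h | h⟩
    · rw [adjT_iff] at h
      exact hk h.1
    · rw [adjT_iff] at h
      apply hne
      unfold cv
      rw [Subtype.mk.injEq]
      simp only [Prod.mk.injEq]
      obtain ⟨h1, h2, h3 | h3 | h3⟩ := h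
      · exact absurd h3.1 hk
      · exact ⟨h1, h3.2.1.symm, h2⟩
      · exact ⟨h1, h3.2.1.symm, h2⟩

theorem proper_lx (hE : ∀ e ∈ E, e.1 ≠ e.2 ∧ e.1 < N ∧ e.2 < N) {χ : ℕ → Fin 3}
    (hχ : ∀ e ∈ E, χ e.1 ≠ χ e.2) : IsProper (GT E (6 * N)) (lx χ (6 * N)) := by
  classical
  have hself := cadj_self (E := E) (fun e he => (hE e he).1)
  have hone : ∀ v w : {x // x ∈ vsT (6 * N)}, adjT E v.1 w.1 = true → v ≠ w →
      colour (GT E (6 * N)) (lx χ (6 * N)) v ≠ colour (GT E (6 * N)) (lx χ (6 * N)) w := by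
    rintro ⟨⟨k, a, b⟩, hv⟩ ⟨⟨k', a', b'⟩, hw⟩ hadj hne
    rw [adjT_iff] at hadj
    obtain ⟨rfl, rfl, hadj⟩ := hadj
    have ha : a < 6 * N := (mem_vsT.1 hv).2.1
    have ha' : a' < 6 * N := (mem_vsT.1 hw).2.1
    rw [colour_lx, colour_lx]
    have e1 : colour (GT E (6 * N)) (fun _ => 1) ⟨(0, a, 0), hv⟩ = 6 * N + a % 2 :=
      colour_one ha (hself a)
    rw [e1]
    rcases hadj with ⟨rfl, rfl, hadj⟩ | hadj | hadj
    · have e2 : colour (GT E (6 * N)) (fun _ => 1) ⟨(0, a', 0), hw⟩ = 6 * N + a' % 2 :=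
        colour_one ha' (hself a')
      have e3 : colour (GT E (6 * N)) (fun e => lx χ (6 * N) e - 1) ⟨(0, a, 0), hv⟩ =
        xv χ (a / 2) := exc_core hself χ ha
      have e4 : colour (GT E (6 * N)) (fun e => lx χ (6 * N) e - 1) ⟨(0, a', 0), hw⟩ =
        xv χ (a' / 2) := exc_core hself χ ha'
      rw [e2, e3, e4]
      rw [cadj_iff] at hadj
      rcases hadj with ⟨h1, h2⟩ | ⟨h1, h2, h3⟩ | ⟨h1, h2, h3⟩
      · rw [h1]
        omega
      · unfold xv
        rw [show a / 2 / 3 = a' / 2 / 3 by omega]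
        have := (χ (a' / 2 / 3)).2
        omega
      · have g1 : a / 2 / 3 = a / 6 := by omega
        have g2 : a' / 2 / 3 = a' / 6 := by omega
        have g3 : (χ (a / 6)).1 ≠ (χ (a' / 6)).1 := by
          intro hc
          rcases h3 with h3 | h3
          · exact hχ _ h3 (Fin.ext hc)
          · exact hχ _ h3 (Fin.ext hc.symm)
        unfold xv
        rw [g1, g2, h2]
        have := (χ (a / 6)).2
        have := (χ (a' / 6)).2
        omega
    · have g1 := colour_leaf (E := E) hw (by omega)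
      have g2 := exc_other (E := E) χ hw (Or.inl (by omega))
      rw [g2]
      omega
    · have g1 := colour_leaf (E := E) hw (by omega)
      have g2 := exc_other (E := E) χ hw (Or.inl (by omega))
      rw [g2]
      omega
  refine ⟨?_, ?_⟩
  · intro e _
    induction e using Sym2.ind with
    | _ x y =>
      rw [lx_mk]
      omega
  · rintro v w ⟨hne, h | h⟩
    · exact hone v w h hne
    · exact (hone w v h hne.symm).symm

/-- **Correctness of the reduction.** -/
theorem col_iff (hE : ∀ e ∈ E, e.1 ≠ e.2 ∧ e.1 < N ∧ e.2 < N) :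
    Pool.Agent.H692R2.Col 3 E ↔ ∃ l, IsProper (GT E (6 * N)) l ∧
      labelSum (GT E (6 * N)) l ≤ labelSum (GT E (6 * N)) (fun _ => 1) + 3 * N := by
  constructor
  · rintro ⟨χ, hχ⟩
    have hp := proper_lx hE hχ
    exact ⟨_, hp, (labelSum_lx (cadj_self (fun e he => (hE e he).1)) χ hp).le⟩
  · rintro ⟨l, hl, hs⟩
    exact col_of_sum hE hl hs

end Pool.Agent.V11230.MS
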