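import Pool.Agent.V11230.MinSum4
import Pool.Agent.V11230.MinSum5
import Pool.Agent.NPC.Sat2

/-!
# Proper labellings with minimum sum: NP-hardness
-/

set_option autoImplicit false

namespace Pool.Agent.NPC.V11230.MSA

open Pool.Agent.NPC Pool.Agent.V11230.MS Pool.Agent.H622R2 Pool.Agent.H692R2

/-! ### 3-colourability with small names -/

/-- instances of 3-colourability with small names -/
def PrB (E : List (ℕ × ℕ)) : Prop :=
  ∀ e ∈ E, e.1 ≠ e.2 ∧ e.1 < 2 * E.length ∧ e.2 < 2 * E.length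

theorem length_satCol (φ : List (Lit ℕ × Lit ℕ × Lit ℕ)) :
    (satCol φ).length = 3 + 19 * φ.length := by
  have h : ∀ l : List ((Lit ℕ × Lit ℕ × Lit ℕ) × ℕ), (l.flatMap (fun p =>
      varE p.1.1.2 ++ (varE p.1.2.1.2 ++ (varE p.1.2.2.2 ++ clauseE p.1 p.2)))).length =
        19 * l.length := by
    intro l
    induction l with
    | nil => rfl
    | cons a l ih =>
      rw [List.flatMap_cons, List.length_append, ih]
      simp [varE, clauseE]
      omega
  unfold satCol
  rw [List.length_append, h, List.length_zipIdx]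
  rfl

theorem hardPr_colB : HardPr PrB (Col 3) := by
  refine hardPr_SAT3b.trans satCol_poly ?_ (fun φ _ => satCol_correct φ)
  rintro φ ⟨_, hb, hne⟩ e he
  refine ⟨satCol_loopless φ e he, ?_⟩
  rw [length_satCol]
  have hlen : 0 < φ.length := List.length_pos_iff.2 hne
  unfold satCol at he
  rw [List.mem_append] at he
  rcases he with he | he
  · simp only [List.mem_cons, List.not_mem_nil, or_false] at he
    rcases he with rfl | rfl | rfl <;> simp only <;> omega
  · rw [List.mem_flatMap] at he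
    obtain ⟨⟨d, k⟩, hd, he⟩ := he
    have hk : k < φ.length := by
      have := List.mem_zipIdx hd
      omega
    have hd' : d ∈ φ := by
      have := List.mem_zipIdx hd
      rw [this.2.2]
      exact List.getElem_mem _
    obtain ⟨b1, b2, b3⟩ := hb d hd'
    have l1 : ∀ l : Lit ℕ, litv l ≤ 8 * l.2 + 2 := by
      intro l
      unfold litv
      split_ifs <;> omega
    have c1 := l1 d.1
    have c2 := l1 d.2.1
    have c3 := l1 d.2.2
    simp only [List.mem_append, varE, clauseE, List.mem_cons, List.not_mem_nil, or_false] at he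
    rcases he with (rfl | rfl | rfl) | (rfl | rfl | rfl) | (rfl | rfl | rfl) |
      (rfl | rfl | rfl | rfl | rfl | rfl | rfl | rfl | rfl | rfl) <;> simp only <;> omega

/-! ### The decision problem -/

/-- An instance of `MIN-SUM`: an adjacency matrix and a bound. -/
abbrev Inst : Type := List (List Bool) × ℕ

/-- `MIN-SUM`: there is a proper labelling with sum at most `q`. -/
def MinSum (I : Inst) : Prop := ∃ l : Sym2 (Fin I.1.length) → ℕ,
  IsProper (matGraph I.1) l ∧ labelSum (matGraph I.1) l ≤ I.2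

/-- No connected component is isomorphic to `K₂`: each edge has an end with another neighbour. -/
def Nice {V : Type} (G : SimpleGraph V) : Prop :=
  ∀ u v, G.Adj u v → ∃ w, w ≠ u ∧ w ≠ v ∧ (G.Adj u w ∨ G.Adj v w)

theorem Nice.iso {V V' : Type} {G : SimpleGraph V} {G' : SimpleGraph V'} (e : G ≃g G')
    (h : Nice G) : Nice G' := by
  intro u v huv
  obtain ⟨w, h1, h2, h3⟩ := h (e.symm u) (e.symm v) (e.symm.map_adj_iff.2 huv)
  refine ⟨e w, ?_, ?_, ?_⟩
  · rintro rfl
    exact h1 (e.symm_apply_apply w).symm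
  · rintro rfl
    exact h2 (e.symm_apply_apply w).symm
  · rcases h3 with h3 | h3
    · left
      have := e.map_adj_iff.2 h3
      rwa [e.apply_symm_apply] at this
    · right
      have := e.map_adj_iff.2 h3
      rwa [e.apply_symm_apply] at this

theorem nice_GT {E : List (ℕ × ℕ)} {m : ℕ} (hE : ∀ e ∈ E, e.1 ≠ e.2) (hm : m ≠ 1) :
    Nice (GT E m) := by
  have hself := cadj_self (E := E) hE
  -- another neighbour of a core vertex
  have key : ∀ (a : ℕ) (ha : a < m) (y : {x // x ∈ vsT m}), ∃ w : {x // x ∈ vsT m},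
      w ≠ cv a ha ∧ w ≠ y ∧ (GT E m).Adj (cv a ha) w := by
    intro a ha y
    have hs : ∀ b, b < m → ∃ w : {x // x ∈ vsT m}, (GT E m).Adj (cv a ha) w ∧
        ((w.1.1 = 0 ∧ w.1.2.1 = b) ∨ (w.1.1 = 1 ∧ w.1.2.2 = b)) := by
      intro b hb
      cases hc : cadj E a b with
      | true =>
        exact ⟨⟨(0, b, 0), mem_vsT.2 ⟨by omega, hb, by omega⟩⟩,
          (adj_core ha _ (hself a)).2 (Or.inl ⟨rfl, rfl, hc⟩), Or.inl ⟨rfl, rfl⟩⟩
      | false =>
        exact ⟨⟨(1, a, b), mem_vsT.2 ⟨by omega, ha, hb⟩⟩,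
          (adj_core ha _ (hself a)).2 (Or.inr (Or.inl ⟨rfl, rfl, hc⟩)), Or.inr ⟨rfl, rfl⟩⟩
    obtain ⟨w0, h0, h0'⟩ := hs 0 (by omega)
    obtain ⟨w1, h1, h1'⟩ := hs 1 (by omega)
    have hne : w0 ≠ w1 := by
      rintro rfl
      omega
    by_cases hy : w0 = y
    · refine ⟨w1, h1.ne', ?_, h1⟩
      rw [← hy]
      exact hne.symm
    · exact ⟨w0, h0.ne', hy, h0⟩
  have hcore : ∀ x y : {x // x ∈ vsT m}, adjT E x.1 y.1 = true →
      ∃ (a : ℕ) (ha : a < m), x = cv a ha := by
    rintro ⟨⟨k, a, b⟩, hx⟩ ⟨⟨k', a', b'⟩, hy⟩ h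
    rw [adjT_iff] at h
    obtain ⟨rfl, rfl, _⟩ := h
    exact ⟨a, (mem_vsT.1 hx).2.1, rfl⟩
  rintro u v ⟨hne, h | h⟩
  · obtain ⟨a, ha, rfl⟩ := hcore u v h
    obtain ⟨w, h1, h2, h3⟩ := key a ha v
    exact ⟨w, h1, h2, Or.inl h3⟩
  · obtain ⟨a, ha, rfl⟩ := hcore v u h
    obtain ⟨w, h1, h2, h3⟩ := key a ha u
    exact ⟨w, h2, h1, Or.inr h3⟩

/-! ### The reduction -/

/-- the matrix -/
def redM (E : List (ℕ × ℕ)) : List (List Bool) := mat (vsT (12 * E.length)) (adjT E)

/-- the reduction -/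
def red (E : List (ℕ × ℕ)) : Inst := (redM E, (edg (redM E)).length + 6 * E.length)

theorem labelSum_one (M : List (List Bool)) :
    labelSum (matGraph M) (fun _ => 1) = (edg M).length := by
  rw [agree_sum (l := fun _ => 1) (fun _ _ _ _ => rfl)]
  simp

theorem red_correct {E : List (ℕ × ℕ)} (hE : PrB E) : Col 3 E ↔ MinSum (red E) := by
  classical
  have hm : 12 * E.length = 6 * (2 * E.length) := by ring
  have key := col_iff (N := 2 * E.length) hE
  have hq : 3 * (2 * E.length) = 6 * E.length := by ring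
  rw [← hm, hq] at key
  rw [key]
  have e : matGraph (redM E) ≃g GT E (12 * E.length) := matIso _ _ (nodup_vsT _)
  have h1 : labelSum (GT E (12 * E.length)) (fun _ => 1) = (edg (redM E)).length := by
    rw [← labelSum_one]
    exact labelSum_iso e (fun _ => 1)
  rw [h1]
  constructor
  · rintro ⟨l, hl, hs⟩
    refine ⟨_, isProper_iso e.symm hl, ?_⟩
    exact (labelSum_iso e.symm l).trans_le hs
  · rintro ⟨l, hl, hs⟩
    refine ⟨_, isProper_iso e hl, ?_⟩
    exact (labelSum_iso e l).trans_le hs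

theorem red_nice {E : List (ℕ × ℕ)} (hE : PrB E) : Nice (matGraph (red E).1) :=
  (nice_GT (E := E) (m := 12 * E.length) (fun e he => (hE e he).1) (by omega)).iso
    (matIso _ _ (nodup_vsT _)).symm

section

variable {α : Type} [TEnc α]

theorem poly_vsT {m : α → ℕ} (hm : UPoly m) : Poly (fun a => vsT (m a)) := by
  unfold vsT
  refine Poly.flatMap (F := fun (a : α) (k : ℕ) => (List.range (m a)).flatMap fun x =>
    (List.range (m a)).map fun b => ((k, x, b) : T3)) (Poly.const _) ?_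
  refine Poly.flatMap (F := fun (z : α × ℕ) (x : ℕ) =>
    (List.range (m z.1)).map fun b => ((z.2, x, b) : T3)) (hm.comp (Poly.fst Poly.id)).range ?_
  refine Poly.map (F := fun (z : (α × ℕ) × ℕ) (b : ℕ) => ((z.1.2, z.2, b) : T3))
    (hm.comp (Poly.fst (Poly.fst Poly.id))).range ?_
  have h0 : Poly (fun w : ((α × ℕ) × ℕ) × ℕ => w) := Poly.id
  have h1 := Poly.fst h0
  have h2 := Poly.fst h1
  exact Poly.pair (Poly.snd h2) (Poly.pair (Poly.snd h1) (Poly.snd h0))

theorem poly_cadj {E : α → List (ℕ × ℕ)} {a b : α → ℕ} (hE : Poly E) (ha : Poly a)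
    (hb : Poly b) : Poly (fun t => cadj (E t) (a t) (b t)) := by
  have c2 : ∀ {x : α → ℕ}, Poly x → Poly (fun t => x t / 2) := fun hx => Poly.div hx (Poly.const 2)
  have c6 : ∀ {x : α → ℕ}, Poly x → Poly (fun t => x t / 6) := fun hx => Poly.div hx (Poly.const 6)
  have m2 : ∀ {x : α → ℕ}, Poly x → Poly (fun t => x t % 2) := fun hx => Poly.mod hx (Poly.const 2)
  have m3 : ∀ {x : α → ℕ}, Poly x → Poly (fun t => x t % 3) := fun hx => Poly.mod hx (Poly.const 3)
  unfold cadj
  exact Poly.or (Poly.or (Poly.and (Poly.decide_eq (c2 ha) (c2 hb)) (Poly.not (Poly.decide_eq ha hb)))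
    (Poly.and (Poly.and (Poly.decide_eq (m2 ha) (m2 hb)) (Poly.decide_eq (c6 ha) (c6 hb)))
      (Poly.not (Poly.decide_eq ha hb))))
    (Poly.and (Poly.and (Poly.decide_eq (m2 ha) (m2 hb))
      (Poly.decide_eq (m3 (c2 ha)) (m3 (c2 hb))))
      (Poly.or ((Poly.decide_mem (Poly.pair (c6 ha) (c6 hb)) hE).congr
          fun _ => decide_eq_decide.2 Iff.rfl)
        ((Poly.decide_mem (Poly.pair (c6 hb) (c6 ha)) hE).congr
          fun _ => decide_eq_decide.2 Iff.rfl)))

theorem poly_adjT {E : α → List (ℕ × ℕ)} {x y : α → T3} (hE : Poly E) (hx : Poly x)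
    (hy : Poly y) : Poly (fun t => adjT (E t) (x t) (y t)) := by
  have x1 := Poly.fst hx
  have x2 := Poly.fst (Poly.snd hx)
  have x3 := Poly.snd (Poly.snd hx)
  have y1 := Poly.fst hy
  have y2 := Poly.fst (Poly.snd hy)
  have y3 := Poly.snd (Poly.snd hy)
  have c : ∀ {u : α → ℕ} (k : ℕ), Poly u → Poly (fun t => decide (u t = k)) :=
    fun k hu => Poly.decide_eq hu (Poly.const k)
  unfold adjT
  exact Poly.and (Poly.and (c 0 x1) (c 0 x3)) (Poly.or
    (Poly.and (Poly.and (c 0 y1) (c 0 y3)) (poly_cadj hE x2 y2)) (Poly.or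
    (Poly.and (Poly.and (c 1 y1) (Poly.decide_eq y2 x2)) (Poly.not (poly_cadj hE x2 y3)))
    (Poly.and (Poly.and (Poly.and (c 2 y1) (Poly.decide_eq y2 x2)) (c 0 y3))
      (c 1 (Poly.mod x2 (Poly.const 2))))))

end

theorem poly_redM : Poly redM := by
  have hu : UPoly (fun E : List (ℕ × ℕ) => 12 * E.length) :=
    UPoly.mul (UPoly.const 12) (UPoly.length Poly.id)
  have hv := poly_vsT hu
  unfold redM mat
  refine Poly.map (F := fun (E : List (ℕ × ℕ)) (u : T3) =>
    (vsT (12 * E.length)).map fun v => adjT E u v) hv ?_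
  refine Poly.map (F := fun (z : List (ℕ × ℕ) × T3) (v : T3) => adjT z.1 z.2 v)
    (hv.comp (Poly.fst Poly.id)) ?_
  have h0 : Poly (fun w : (List (ℕ × ℕ) × T3) × T3 => w) := Poly.id
  have h1 := Poly.fst h0
  exact poly_adjT (Poly.fst h1) (Poly.snd h1) (Poly.snd h0)

theorem poly_red : Poly red := by
  unfold red
  exact Poly.pair poly_redM (Poly.add (UPoly.length (poly_edg poly_redM)).toPoly
    (Poly.mul (Poly.const 6) (Poly.length Poly.id)))

theorem hardPr_minSum : HardPr (fun I : Inst => Nice (matGraph I.1)) MinSum :=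
  hardPr_colB.trans (f := red) poly_red (fun _ hE => red_nice hE) (fun _ hE => red_correct hE)

end Pool.Agent.NPC.V11230.MSA
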