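import Pool.Agent.V11230.MinSum6

/-!
# Proper labellings with minimum sum: membership in NP
-/

set_option autoImplicit false

namespace Pool.Agent.NPC.V11230.MSA

open Pool.Agent.NPC Pool.Agent.V11230.MS Pool.Agent.H622R2

/-- a list of edges with labels -/
abbrev Wt : Type := List ((ℕ × ℕ) × ℕ)

/-- the sum of the labels at `v` -/
def vsum (w : Wt) (v : ℕ) : ℕ := ((w.filter (fun p => inc v p.1)).map (fun p => p.2)).sum

/-- the verifier -/
def ver (z : Inst × Wt) : Bool :=
  decide (z.2.map (fun p => p.1) = edg z.1.1) && (z.2.all (fun p => decide (1 ≤ p.2)) &&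
    ((edg z.1.1).all (fun e => !decide (vsum z.2 e.1 = vsum z.2 e.2)) &&
      decide ((z.2.map (fun p => p.2)).sum ≤ z.1.2)))

/-- the certificate of a labelling -/
def wof (E : List (ℕ × ℕ)) (l : ℕ × ℕ → ℕ) : Wt := E.map (fun e => (e, l e))

theorem vsum_wof (E : List (ℕ × ℕ)) (l : ℕ × ℕ → ℕ) (v : ℕ) : vsum (wof E l) v = csum E l v := by
  unfold vsum wof csum
  rw [List.filter_map, List.map_map]
  rfl

theorem exists_wof {w : Wt} (h : (w.map (fun p => p.1)).Nodup) :
    ∃ l, w = wof (w.map (fun p => p.1)) l := by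
  classical
  have hinj : ∀ p ∈ w, ∀ p' ∈ w, p.1 = p'.1 → p = p' := fun p hp p' hp' he =>
    List.inj_on_of_nodup_map h hp hp' he
  refine ⟨fun e => if h : ∃ p ∈ w, p.1 = e then h.choose.2 else 0, ?_⟩
  unfold wof
  rw [List.map_map]
  conv_lhs => rw [← List.map_id w]
  refine List.map_congr_left fun p hp => ?_
  have hex : ∃ p' ∈ w, p'.1 = p.1 := ⟨p, hp, rfl⟩
  simp only [Function.comp_apply, id_eq]
  rw [dif_pos hex]
  have := hinj _ hex.choose_spec.1 _ hp hex.choose_spec.2
  rw [this]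

theorem ver_wof (I : Inst) (l : ℕ × ℕ → ℕ) : ver (I, wof (edg I.1) l) = true ↔
    PLab (edg I.1) l ∧ ((edg I.1).map l).sum ≤ I.2 := by
  unfold ver PLab
  have h1 : (wof (edg I.1) l).map (fun p => p.1) = edg I.1 := by
    unfold wof
    rw [List.map_map]
    exact (List.map_congr_left (fun _ _ => rfl)).trans (List.map_id _)
  have h2 : (wof (edg I.1) l).map (fun p => p.2) = (edg I.1).map l := by
    unfold wof
    rw [List.map_map]
    rfl
  simp only [Bool.and_eq_true, decide_eq_true_eq, List.all_eq_true, vsum_wof, h1, h2, true_and,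
    Bool.not_eq_true', decide_eq_false_iff_not]
  rw [and_assoc]
  refine and_congr ?_ Iff.rfl
  unfold wof
  simp only [List.mem_map]
  constructor
  · intro h e he
    exact h _ ⟨e, he, rfl⟩
  · rintro h _ ⟨e, he, rfl⟩
    exact h e he

theorem minSum_iff (I : Inst) : MinSum I ↔
    ∃ l, PLab (edg I.1) l ∧ ((edg I.1).map l).sum ≤ I.2 := by
  have h := sums_eq I.1
  constructor
  · rintro ⟨l, hl, hs⟩
    have : labelSum (matGraph I.1) l ∈ Sums (matGraph I.1) := ⟨l, hl, rfl⟩
    rw [h] at this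
    obtain ⟨l', hl', hs'⟩ := this
    exact ⟨l', hl', by rw [hs']; exact hs⟩
  · rintro ⟨l, hl, hs⟩
    have : ((edg I.1).map l).sum ∈ Sums (matGraph I.1) := by
      rw [h]
      exact ⟨l, hl, rfl⟩
    obtain ⟨l', hl', hs'⟩ := this
    exact ⟨l', hl', by rw [hs']; exact hs⟩

theorem exists_small_le {n : ℕ} {E : List (ℕ × ℕ)} (h : Good n E) {l : ℕ × ℕ → ℕ}
    (hl : PLab E l) : ∃ l', PLab E l' ∧ (E.map l').sum < bnd n E ∧
      (E.map l').sum ≤ (E.map l).sum := by
  obtain ⟨l', hl', hs'⟩ := exists_small h hl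
  by_cases hc : (E.map l').sum ≤ (E.map l).sum
  · exact ⟨l', hl', hs', hc⟩
  · exact ⟨l, hl, by omega, le_refl _⟩

theorem sz_wof (E : List (ℕ × ℕ)) (l : ℕ × ℕ → ℕ) (B : ℕ) (h : ∀ e ∈ E, l e ≤ B) :
    sz (wof E l) ≤ sz E + E.length * (4 * B + 2) := by
  induction E with
  | nil => simp [wof]
  | cons e E ih =>
    have ih' := ih fun e' he' => h e' (List.mem_cons_of_mem _ he')
    have h1 : wof (e :: E) l = (e, l e) :: wof E l := rfl
    rw [h1, sz_list_cons, sz_list_cons, sz_pair, List.length_cons, Nat.succ_mul]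
    have h2 := sz_nat_le (l e)
    have h3 : (l e).size ≤ l e := Nat.size_le.2 Nat.lt_two_pow_self
    have h4 := h e List.mem_cons_self
    omega

section

variable {α : Type} [TEnc α]

theorem poly_vsum {w : α → Wt} {v : α → ℕ} (hw : Poly w) (hv : Poly v) :
    Poly (fun a => vsum (w a) (v a)) := by
  unfold vsum
  refine Poly.sum (Poly.map (F := fun (_ : α) (p : (ℕ × ℕ) × ℕ) => p.2)
    (Poly.filter (p := fun (a : α) (p : (ℕ × ℕ) × ℕ) => inc (v a) p.1) hw ?_)
    (Poly.snd (Poly.snd Poly.id)))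
  exact poly_inc (hv.comp (Poly.fst Poly.id)) (Poly.fst (Poly.snd Poly.id))

end

theorem poly_ver : Poly ver := by
  have hz : Poly (fun z : Inst × Wt => z) := Poly.id
  have hw := Poly.snd hz
  have hM := Poly.fst (Poly.fst hz)
  have hE := poly_edg hM
  unfold ver
  refine Poly.and (Poly.decide_eq (Poly.map (F := fun (_ : Inst × Wt) (p : (ℕ × ℕ) × ℕ) => p.1) hw
    (Poly.fst (Poly.snd Poly.id))) hE) (Poly.and ?_ (Poly.and ?_ ?_))
  · exact Poly.all (p := fun (_ : Inst × Wt) (p : (ℕ × ℕ) × ℕ) => decide (1 ≤ p.2)) hw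
      (Poly.decide_le (Poly.const 1) (Poly.snd (Poly.snd Poly.id)))
  · refine Poly.all (p := fun (z : Inst × Wt) (e : ℕ × ℕ) =>
      !decide (vsum z.2 e.1 = vsum z.2 e.2)) hE ?_
    have h1 : Poly (fun y : (Inst × Wt) × (ℕ × ℕ) => y.1.2) := hw.comp (Poly.fst Poly.id)
    have h2 : Poly (fun y : (Inst × Wt) × (ℕ × ℕ) => y.2) := Poly.snd Poly.id
    exact Poly.not (Poly.decide_eq (poly_vsum h1 (Poly.fst h2)) (poly_vsum h1 (Poly.snd h2)))
  · exact Poly.decide_le (Poly.sum (Poly.map (F := fun (_ : Inst × Wt) (p : (ℕ × ℕ) × ℕ) => p.2)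
      hw (Poly.snd (Poly.snd Poly.id)))) (Poly.snd (Poly.fst hz))

/-- `MIN-SUM` is in `NP`. -/
theorem inNP_minSum : InNPP MinSum := by
  have hI : Poly (fun I : Inst => I) := Poly.id
  have hpair : Poly (fun I : Inst => (edg I.1, List.range (bndM I.1))) :=
    Poly.pair (poly_edg (Poly.fst hI)) (upoly_bndM.comp (Poly.fst hI)).range
  obtain ⟨q, hq⟩ := hpair.sz_le
  refine inNPP_of (β := Wt) poly_ver (q + q * (Polynomial.C 4 * q + Polynomial.C 2))
    (fun I => ⟨?_, ?_⟩)
  · intro h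
    obtain ⟨l, hl, hs⟩ := (minSum_iff I).1 h
    obtain ⟨l', hl', hs1, hs2⟩ := exists_small_le (good_edg I.1) hl
    refine ⟨wof (edg I.1) l', ?_, (ver_wof I l').2 ⟨hl', hs2.trans hs⟩⟩
    have hle : ∀ e ∈ edg I.1, l' e ≤ bndM I.1 := by
      intro e he
      have h1 : l' e ≤ ((edg I.1).map l').sum :=
        List.le_sum_of_mem (List.mem_map.2 ⟨e, he, rfl⟩)
      exact (h1.trans hs1.le)
    have h1 := sz_wof (edg I.1) l' (bndM I.1) hle
    have h2 := hq I
    rw [sz_pair] at h2
    have h3 := length_lt_sz (edg I.1)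
    have h4 := length_lt_sz (List.range (bndM I.1))
    rw [List.length_range] at h4
    have h5 : (edg I.1).length * (4 * bndM I.1 + 2) ≤
        q.eval (sz I) * (4 * q.eval (sz I) + 2) := by
      apply Nat.mul_le_mul
      · omega
      · omega
    simp only [Polynomial.eval_add, Polynomial.eval_mul, Polynomial.eval_C]
    omega
  · rintro ⟨w, _, hw⟩
    have h1 : w.map (fun p => p.1) = edg I.1 := by
      unfold ver at hw
      simp only [Bool.and_eq_true, decide_eq_true_eq] at hw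
      exact hw.1
    obtain ⟨l, hl⟩ := exists_wof (w := w) (by rw [h1]; exact (good_edg I.1).nodup)
    rw [h1] at hl
    rw [hl, ver_wof] at hw
    exact (minSum_iff I).2 ⟨l, hw⟩

end Pool.Agent.NPC.V11230.MSA
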