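import Pool.Agent.NPC.Sat2
import Pool.Agent.H692R2.FinGraph

/-!
# Consistent path systems: definitions, and path systems of diameter two
-/

set_option autoImplicit false

namespace Pool.Agent.NPC.V11230.PS

open Pool.Agent.NPC Pool.Agent.H692R2

/-- An instance: a graph with vertex set `{0, …, n - 1}` and a list of paths, a path being given by
the list of its vertices. -/
abbrev Inst : Type := FinGraph × List (List ℕ)

/-- The path `p` joins `u` and `v`. -/
def Joins (p : List ℕ) (u v : ℕ) : Prop :=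
  (p.head? = some u ∧ p.getLast? = some v) ∨ (p.head? = some v ∧ p.getLast? = some u)

/-- `u` and `v` are adjacent vertices of `G`. -/
def AdjN (G : FinGraph) (u v : ℕ) : Prop :=
  ∃ (hu : u < G.n) (hv : v < G.n), G.graph.Adj ⟨u, hu⟩ ⟨v, hv⟩

/-- `p` is a simple path of `G` with at least one edge. -/
def IsPath (G : FinGraph) (p : List ℕ) : Prop :=
  2 ≤ p.length ∧ p.Nodup ∧ p.IsChain (AdjN G)

/-- The list is a path system: it consists of paths of `G`, and each two distinct vertices are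
joined by exactly one of them. -/
def IsPathSystem (I : Inst) : Prop :=
  (∀ p ∈ I.2, IsPath I.1 p) ∧
    ∀ u v, u < I.1.n → v < I.1.n → u ≠ v → ∃! p, p ∈ I.2 ∧ Joins p u v

/-- The path system is consistent: all subpaths (with at least one edge) of its members are members,
up to the direction. -/
def Consistent (I : Inst) : Prop :=
  ∀ p ∈ I.2, ∀ q : List ℕ, q <:+: p → 2 ≤ q.length → q ∈ I.2 ∨ q.reverse ∈ I.2

/-- For all `u, v ∈ A` the vertices of the path joining `u` and `v` are in `A`. -/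
def Closed (I : Inst) (A : Set ℕ) : Prop :=
  ∀ u ∈ A, ∀ v ∈ A, ∀ p ∈ I.2, Joins p u v → ∀ x ∈ p, x ∈ A

/-- The partition of the vertex set into `A` and `B` is a reduction. -/
def IsReduction (I : Inst) (A B : Set ℕ) : Prop :=
  A ∪ B = {v | v < I.1.n} ∧ Disjoint A B ∧ A.Nonempty ∧ B.Nonempty ∧ Closed I A ∧ Closed I B

/-- There is no reduction. -/
def Irreducible (I : Inst) : Prop := ¬ ∃ A B : Set ℕ, IsReduction I A B

/-! ### Path systems of diameter two -/

/-- The unordered pairs `{x, y}` and `{a, b}` are equal. -/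
def Same (x y a b : ℕ) : Prop := (x = a ∧ y = b) ∨ (x = b ∧ y = a)

/-- `{i, j}` is the pair of one of the constraints. -/
def isC (cs : List (ℕ × ℕ × ℕ)) (i j : ℕ) : Bool :=
  cs.any (fun c => (decide (c.1 = i) && decide (c.2.1 = j)) ||
    (decide (c.1 = j) && decide (c.2.1 = i)))

/-- the middle vertex -/
def midOf (cs : List (ℕ × ℕ × ℕ)) (i j : ℕ) : ℕ :=
  ((cs.filter (fun c => (decide (c.1 = i) && decide (c.2.1 = j)) ||
    (decide (c.1 = j) && decide (c.2.1 = i)))).map (fun c => c.2.2)).getD 0 0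

/-- the path from `i` to `j` -/
def pth (cs : List (ℕ × ℕ × ℕ)) (i j : ℕ) : List ℕ :=
  if isC cs i j = true then [i, midOf cs i j, j] else [i, j]

/-- all paths -/
def paths (n : ℕ) (cs : List (ℕ × ℕ × ℕ)) : List (List ℕ) :=
  (List.range n).flatMap (fun i => ((List.range n).filter (fun j => decide (i < j))).map
    (fun j => pth cs i j))

theorem isC_iff {cs : List (ℕ × ℕ × ℕ)} {i j : ℕ} :
    isC cs i j = true ↔ ∃ c ∈ cs, Same c.1 c.2.1 i j := by
  unfold isC Same
  rw [List.any_eq_true]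
  refine exists_congr fun c => and_congr_right fun _ => ?_
  simp only [Bool.or_eq_true, Bool.and_eq_true, decide_eq_true_eq]

theorem isC_symm {cs : List (ℕ × ℕ × ℕ)} {i j : ℕ} : isC cs i j = isC cs j i := by
  rw [Bool.eq_iff_iff, isC_iff, isC_iff]
  refine exists_congr fun c => and_congr_right fun _ => ?_
  unfold Same
  omega

/-- The graph: pairs of constraints are the non-adjacent pairs. -/
def gr (n : ℕ) (cs : List (ℕ × ℕ × ℕ)) : SimpleGraph (Fin n) where
  Adj i j := i ≠ j ∧ isC cs i j = false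
  symm := ⟨fun _ _ h => ⟨h.1.symm, by rw [isC_symm]; exact h.2⟩⟩
  loopless := ⟨fun _ h => h.1 rfl⟩

/-- The instance. -/
def inst (n : ℕ) (cs : List (ℕ × ℕ × ℕ)) : Inst := (⟨n, gr n cs⟩, paths n cs)

/-- The conditions on the constraints `({u, v}; m)`. -/
structure Good (n : ℕ) (cs : List (ℕ × ℕ × ℕ)) : Prop where
  lt : ∀ c ∈ cs, c.1 < n ∧ c.2.1 < n ∧ c.2.2 < n
  ne : ∀ c ∈ cs, c.1 ≠ c.2.1 ∧ c.2.2 ≠ c.1 ∧ c.2.2 ≠ c.2.1
  uniq : ∀ c ∈ cs, ∀ d ∈ cs, Same c.1 c.2.1 d.1 d.2.1 → c.2.2 = d.2.2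
  edge : ∀ c ∈ cs, ∀ d ∈ cs, ¬ Same c.1 c.2.2 d.1 d.2.1 ∧ ¬ Same c.2.1 c.2.2 d.1 d.2.1

variable {n : ℕ} {cs : List (ℕ × ℕ × ℕ)}

theorem midOf_mem {i j : ℕ} (h : isC cs i j = true) :
    ∃ c ∈ cs, Same c.1 c.2.1 i j ∧ midOf cs i j = c.2.2 := by
  obtain ⟨c, hc, hs⟩ := isC_iff.1 h
  unfold midOf
  have hmem : c ∈ cs.filter (fun c => (decide (c.1 = i) && decide (c.2.1 = j)) ||
      (decide (c.1 = j) && decide (c.2.1 = i))) := by
    rw [List.mem_filter]
    refine ⟨hc, ?_⟩
    simp only [Bool.or_eq_true, Bool.and_eq_true, decide_eq_true_eq]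
    exact hs
  cases hl : cs.filter (fun c => (decide (c.1 = i) && decide (c.2.1 = j)) ||
      (decide (c.1 = j) && decide (c.2.1 = i))) with
  | nil => rw [hl] at hmem; simp at hmem
  | cons d l =>
    have hd : d ∈ cs.filter (fun c => (decide (c.1 = i) && decide (c.2.1 = j)) ||
      (decide (c.1 = j) && decide (c.2.1 = i))) := by rw [hl]; simp
    rw [List.mem_filter] at hd
    simp only [Bool.or_eq_true, Bool.and_eq_true, decide_eq_true_eq] at hd
    exact ⟨d, hd.1, hd.2, by simp⟩

theorem mem_paths {p : List ℕ} : p ∈ paths n cs ↔ ∃ i j, i < j ∧ j < n ∧ p = pth cs i j := by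
  unfold paths
  simp only [List.mem_flatMap, List.mem_range, List.mem_map, List.mem_filter, decide_eq_true_eq]
  constructor
  · rintro ⟨i, hi, j, ⟨hj, hij⟩, rfl⟩
    exact ⟨i, j, hij, hj, rfl⟩
  · rintro ⟨i, j, hij, hj, rfl⟩
    exact ⟨i, by omega, j, ⟨hj, hij⟩, rfl⟩

theorem pth_head (i j : ℕ) : (pth cs i j).head? = some i := by
  unfold pth; split_ifs <;> rfl

theorem pth_last (i j : ℕ) : (pth cs i j).getLast? = some j := by
  unfold pth; split_ifs <;> rfl

theorem joins_pth {i j u v : ℕ} : Joins (pth cs i j) u v ↔ Same i j u v := by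
  unfold Joins Same
  rw [pth_head, pth_last]
  simp only [Option.some.injEq]

theorem adjN_iff {i j : ℕ} : AdjN (⟨n, gr n cs⟩ : FinGraph) i j ↔
    i < n ∧ j < n ∧ i ≠ j ∧ isC cs i j = false := by
  unfold AdjN gr
  constructor
  · rintro ⟨hi, hj, h1, h2⟩
    exact ⟨hi, hj, fun h => h1 (Fin.ext h), h2⟩
  · rintro ⟨hi, hj, h1, h2⟩
    exact ⟨hi, hj, fun h => h1 (Fin.ext_iff.1 h), h2⟩

theorem infix2 {a b : ℕ} {q : List ℕ} (h : q <:+: [a, b]) (hq : 2 ≤ q.length) : q = [a, b] :=
  h.eq_of_length_le hq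

theorem infix3 {a b c : ℕ} {q : List ℕ} (h : q <:+: [a, b, c]) (hq : 2 ≤ q.length) :
    q = [a, b] ∨ q = [b, c] ∨ q = [a, b, c] := by
  obtain ⟨s, t, hst⟩ := h
  rcases s with _ | ⟨x, s⟩
  · rcases q with _ | ⟨q1, _ | ⟨q2, _ | ⟨q3, q⟩⟩⟩
    · simp at hq
    · simp at hq
    · simp only [List.nil_append, List.cons_append, List.cons.injEq] at hst
      exact Or.inl (by rw [hst.1, hst.2.1])
    · simp only [List.nil_append, List.cons_append, List.cons.injEq] at hst
      obtain ⟨rfl, rfl, rfl, h⟩ := hst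
      have := List.append_eq_nil_iff.1 h
      rw [this.1]
      exact Or.inr (Or.inr rfl)
  · rcases s with _ | ⟨y, s⟩
    · rcases q with _ | ⟨q1, _ | ⟨q2, q⟩⟩
      · simp at hq
      · simp at hq
      · simp only [List.nil_append, List.cons_append, List.cons.injEq] at hst
        obtain ⟨_, rfl, rfl, h⟩ := hst
        have := List.append_eq_nil_iff.1 h
        rw [this.1]
        exact Or.inr (Or.inl rfl)
    · have hlen := congrArg List.length hst
      simp only [List.length_append, List.length_cons, List.length_nil] at hlen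
      omega

theorem inst_system (h : Good n cs) : IsPathSystem (inst n cs) := by
  constructor
  · intro p hp
    obtain ⟨i, j, hij, hj, rfl⟩ := mem_paths.1 hp
    by_cases hc : isC cs i j = true
    · obtain ⟨c, hcm, hs, hm⟩ := midOf_mem hc
      have h1 := h.lt c hcm
      have h2 := h.ne c hcm
      have e1 : isC cs i (midOf cs i j) = false := by
        rw [Bool.eq_false_iff]
        intro hh
        obtain ⟨d, hd, hd'⟩ := isC_iff.1 hh
        have := h.edge c hcm d hd
        rw [hm] at hd'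
        unfold Same at *
        omega
      have e2 : isC cs (midOf cs i j) j = false := by
        rw [Bool.eq_false_iff]
        intro hh
        obtain ⟨d, hd, hd'⟩ := isC_iff.1 hh
        have := h.edge c hcm d hd
        rw [hm] at hd'
        unfold Same at *
        omega
      unfold pth
      rw [if_pos hc]
      refine ⟨by simp, ?_, ?_⟩
      · simp only [List.nodup_cons, List.mem_cons, List.not_mem_nil, or_false, not_false_eq_true,
          List.nodup_nil, and_true]
        rw [hm]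
        unfold Same at hs
        omega
      · simp only [List.isChain_cons_cons, List.isChain_singleton, and_true, inst]
        rw [adjN_iff, adjN_iff, e1, e2]
        unfold Same at hs
        refine ⟨⟨by omega, by rw [hm]; omega, by rw [hm]; omega, rfl⟩, by rw [hm]; omega, hj,
          by rw [hm]; omega, rfl⟩
    · unfold pth
      rw [if_neg hc]
      refine ⟨by simp, ?_, ?_⟩
      · simp only [List.nodup_cons, List.mem_cons, List.not_mem_nil, or_false, not_false_eq_true,
          List.nodup_nil, and_true]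
        omega
      · simp only [List.isChain_cons_cons, List.isChain_singleton, and_true, inst]
        rw [adjN_iff]
        exact ⟨by omega, hj, by omega, by simpa using hc⟩
  · intro u v hu hv huv
    have hu' : u < n := hu
    have hv' : v < n := hv
    rcases lt_or_gt_of_ne huv with hlt | hlt
    · refine ⟨pth cs u v, ⟨mem_paths.2 ⟨u, v, hlt, hv', rfl⟩, joins_pth.2 (Or.inl ⟨rfl, rfl⟩)⟩, ?_⟩
      rintro p ⟨hp, hj⟩
      obtain ⟨i, j, hij, hj', rfl⟩ := mem_paths.1 hp
      have := joins_pth.1 hj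
      unfold Same at this
      have h1 : i = u ∧ j = v := by omega
      rw [h1.1, h1.2]
    · refine ⟨pth cs v u, ⟨mem_paths.2 ⟨v, u, hlt, hu', rfl⟩, joins_pth.2 (Or.inr ⟨rfl, rfl⟩)⟩, ?_⟩
      rintro p ⟨hp, hj⟩
      obtain ⟨i, j, hij, hj', rfl⟩ := mem_paths.1 hp
      have := joins_pth.1 hj
      unfold Same at this
      have h1 : i = v ∧ j = u := by omega
      rw [h1.1, h1.2]

/-- edges are members -/
theorem edge_mem {i j : ℕ} (hi : i < n) (hj : j < n) (hij : i ≠ j) (hc : isC cs i j = false) :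
    [i, j] ∈ paths n cs ∨ [i, j].reverse ∈ paths n cs := by
  rcases lt_or_gt_of_ne hij with hlt | hlt
  · left
    refine mem_paths.2 ⟨i, j, hlt, hj, ?_⟩
    unfold pth
    rw [if_neg (by rw [hc]; simp)]
  · right
    refine mem_paths.2 ⟨j, i, hlt, hi, ?_⟩
    unfold pth
    rw [if_neg (by rw [isC_symm, hc]; simp)]
    rfl

theorem inst_consistent (h : Good n cs) : Consistent (inst n cs) := by
  intro p hp q hq hlen
  have hsys := (inst_system h).1 p hp
  obtain ⟨i, j, hij, hj, rfl⟩ := mem_paths.1 hp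
  by_cases hc : isC cs i j = true
  · unfold pth at hq
    rw [if_pos hc] at hq
    unfold pth at hsys
    rw [if_pos hc] at hsys
    obtain ⟨_, _, hch⟩ := hsys
    simp only [List.isChain_cons_cons, List.isChain_singleton, and_true, inst] at hch
    rw [adjN_iff, adjN_iff] at hch
    rcases infix3 hq hlen with rfl | rfl | rfl
    · exact edge_mem hch.1.1 hch.1.2.1 hch.1.2.2.1 hch.1.2.2.2
    · exact edge_mem hch.2.1 hch.2.2.1 hch.2.2.2.1 hch.2.2.2.2
    · left
      refine mem_paths.2 ⟨i, j, hij, hj, ?_⟩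
      unfold pth
      rw [if_pos hc]
  · unfold pth at hq
    rw [if_neg hc] at hq
    rw [infix2 hq hlen]
    exact edge_mem (by omega) hj (by omega) (by simpa using hc)

/-- Reductions are the non-constant solutions of the constraints. -/
theorem reduction_iff (h : Good n cs) : ¬ Irreducible (inst n cs) ↔
    ∃ χ : ℕ → Bool, (∃ i < n, χ i = true) ∧ (∃ i < n, χ i = false) ∧
      ∀ c ∈ cs, χ c.1 = χ c.2.1 → χ c.2.2 = χ c.1 := by
  classical
  unfold Irreducible
  rw [not_not]
  constructor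
  · rintro ⟨A, B, hAB, hd, ⟨a, ha⟩, ⟨b, hb⟩, hA, hB⟩
    have hAn : ∀ x ∈ A, x < n := fun x hx => by
      have : x ∈ A ∪ B := Or.inl hx
      rw [hAB] at this; exact this
    have hBn : ∀ x ∈ B, x < n := fun x hx => by
      have : x ∈ A ∪ B := Or.inr hx
      rw [hAB] at this; exact this
    have hcov : ∀ x < n, x ∈ A ∨ x ∈ B := fun x hx => by
      have : x ∈ {v | v < (inst n cs).1.n} := hx
      rw [← hAB] at this; exact this
    have hdis : ∀ x, x ∈ A → x ∈ B → False := fun x h1 h2 => Set.disjoint_left.1 hd h1 h2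
    refine ⟨fun x => decide (x ∈ A), ⟨a, hAn a ha, by simpa using ha⟩,
      ⟨b, hBn b hb, by simpa using fun h => hdis b h hb⟩, fun c hc heq => ?_⟩
    obtain ⟨h1, h2, h3⟩ := h.lt c hc
    obtain ⟨g1, g2, g3⟩ := h.ne c hc
    have hC : isC cs c.1 c.2.1 = true := isC_iff.2 ⟨c, hc, Or.inl ⟨rfl, rfl⟩⟩
    have hm : midOf cs c.1 c.2.1 = c.2.2 := by
      obtain ⟨d, hd, hs, hm⟩ := midOf_mem hC
      rw [hm]
      exact h.uniq d hd c hc hs
    have hm' : midOf cs c.2.1 c.1 = c.2.2 := by
      have hC' : isC cs c.2.1 c.1 = true := by rw [isC_symm]; exact hC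
      obtain ⟨d, hd, hs, hm⟩ := midOf_mem hC'
      rw [hm]
      refine h.uniq d hd c hc ?_
      unfold Same at *
      omega
    have key : ∃ p ∈ (inst n cs).2, Joins p c.1 c.2.1 ∧ c.2.2 ∈ p := by
      rcases lt_or_gt_of_ne g1 with hlt | hlt
      · refine ⟨pth cs c.1 c.2.1, mem_paths.2 ⟨_, _, hlt, h2, rfl⟩,
          joins_pth.2 (Or.inl ⟨rfl, rfl⟩), ?_⟩
        unfold pth
        rw [if_pos hC, hm]
        simp
      · refine ⟨pth cs c.2.1 c.1, mem_paths.2 ⟨_, _, hlt, h1, rfl⟩,
          joins_pth.2 (Or.inr ⟨rfl, rfl⟩), ?_⟩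
        unfold pth
        rw [isC_symm, if_pos hC, hm']
        simp
    obtain ⟨p, hp, hj, hx⟩ := key
    by_cases hcA : c.1 ∈ A
    · have hcA' : c.2.1 ∈ A := by simpa [hcA] using heq
      have := hA _ hcA _ hcA' p hp hj _ hx
      simp [this, hcA]
    · have hcA' : c.2.1 ∉ A := by simpa [hcA] using heq
      have h5 : c.1 ∈ B := (hcov _ h1).resolve_left hcA
      have h6 : c.2.1 ∈ B := (hcov _ h2).resolve_left hcA'
      have h7 := hB _ h5 _ h6 p hp hj _ hx
      have h8 : c.2.2 ∉ A := fun h => hdis _ h h7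
      simp [h8, hcA]
  · rintro ⟨χ, ⟨a, ha, ha'⟩, ⟨b, hb, hb'⟩, hχ⟩
    have hcl : ∀ v : Bool, Closed (inst n cs) {x | x < n ∧ χ x = v} := by
      rintro v i ⟨hi, hi'⟩ j ⟨hj, hj'⟩ p hp hJ x hx
      obtain ⟨i', j', hij, hj2, rfl⟩ := mem_paths.1 hp
      have hs := joins_pth.1 hJ
      have hi2 : χ i' = v := by
        rcases hs with ⟨rfl, rfl⟩ | ⟨rfl, rfl⟩
        · exact hi'
        · exact hj'
      have hj3 : χ j' = v := by
        rcases hs with ⟨rfl, rfl⟩ | ⟨rfl, rfl⟩
        · exact hj'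
        · exact hi'
      by_cases hc : isC cs i' j' = true
      · obtain ⟨c, hcm, hs', hm⟩ := midOf_mem hc
        unfold pth at hx
        rw [if_pos hc] at hx
        have hlt := h.lt c hcm
        have hmid : χ c.2.2 = v := by
          rcases hs' with ⟨h1, h2⟩ | ⟨h1, h2⟩
          · rw [hχ c hcm (by rw [h1, h2, hi2, hj3]), h1, hi2]
          · rw [hχ c hcm (by rw [h1, h2, hi2, hj3]), h1, hj3]
        simp only [List.mem_cons, List.not_mem_nil, or_false] at hx
        rcases hx with rfl | rfl | rfl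
        · exact ⟨by omega, hi2⟩
        · rw [hm]; exact ⟨hlt.2.2, hmid⟩
        · exact ⟨hj2, hj3⟩
      · unfold pth at hx
        rw [if_neg hc] at hx
        simp only [List.mem_cons, List.not_mem_nil, or_false] at hx
        rcases hx with rfl | rfl
        · exact ⟨by omega, hi2⟩
        · exact ⟨hj2, hj3⟩
    refine ⟨{x | x < n ∧ χ x = true}, {x | x < n ∧ χ x = false}, ?_, ?_, ⟨a, ha, ha'⟩,
      ⟨b, hb, hb'⟩, hcl true, hcl false⟩
    · ext x
      simp only [Set.mem_union, Set.mem_setOf_eq, inst]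
      cases χ x <;> simp
    · rw [Set.disjoint_left]
      rintro x ⟨_, h1⟩ ⟨_, h2⟩
      rw [h1] at h2
      simp at h2

end Pool.Agent.NPC.V11230.PS
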