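import Mathlib
import Pool.Agent.V11230.PathSys

/-!
# The reduction from 3SAT to path systems with a reduction
-/

set_option autoImplicit false

namespace Pool.Agent.NPC.V11230.PS

open Pool.Agent.NPC Pool.Agent.H692R2

/-- A clause with three literals. -/
abbrev Cl : Type := Lit ℕ × Lit ℕ × Lit ℕ

/-- A path system on eight vertices without reduction. -/
def core : List (ℕ × ℕ × ℕ) :=
  [(0, 4, 7), (0, 5, 1), (0, 6, 3), (1, 3, 4), (1, 6, 2), (1, 7, 0), (2, 3, 0), (2, 7, 6),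
    (3, 7, 5), (4, 5, 2), (5, 6, 3)]

/-- The same on the vertices `8, …, 15`. -/
def core' : List (ℕ × ℕ × ℕ) :=
  [(8, 12, 15), (8, 13, 9), (8, 14, 11), (9, 11, 12), (9, 14, 10), (9, 15, 8), (10, 11, 8),
    (10, 15, 14), (11, 15, 13), (12, 13, 10), (13, 14, 11)]

/-- the vertex of a literal -/
def li (x : Lit ℕ) : ℕ := if x.1 then 16 + 2 * x.2 else 17 + 2 * x.2

/-- The constraints. -/
def cons (φ : List Cl) : List (ℕ × ℕ × ℕ) :=
  core ++ (core' ++
  ((6, 4, 16 + 10 * φ.length) ::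
  ((List.range (10 * φ.length)).map (fun j => (16 + 10 * φ.length + j,
      (if j % 2 = 0 then 5 else 4), 17 + 10 * φ.length + j)) ++
  ((List.range (10 * φ.length)).map (fun j => (16 + 10 * φ.length + j, 8, 16 + j)) ++
  ((List.range (3 * φ.length)).map (fun x => (16 + 2 * x, 17 + 2 * x, 0)) ++
  (φ.zipIdx.flatMap (fun p => [(9, 16 + 6 * φ.length + 4 * p.2, li p.1.1),
      (9, 17 + 6 * φ.length + 4 * p.2, li p.1.2.1), (9, 18 + 6 * φ.length + 4 * p.2, li p.1.2.2)]) ++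
  ((List.range φ.length).map (fun C => (16 + 6 * φ.length + 4 * C, 17 + 6 * φ.length + 4 * C,
      19 + 6 * φ.length + 4 * C)) ++
  (List.range φ.length).map (fun C => (19 + 6 * φ.length + 4 * C, 18 + 6 * φ.length + 4 * C,
      10)))))))))

/-- The number of vertices. -/
def num (φ : List Cl) : ℕ := 17 + 20 * φ.length

/-- the `l`-th literal -/
def litOf (c : Cl) (l : ℕ) : Lit ℕ := if l = 0 then c.1 else if l = 1 then c.2.1 else c.2.2

theorem mem_cons {φ : List Cl} {c : ℕ × ℕ × ℕ} : c ∈ cons φ ↔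
    c ∈ core ∨ c ∈ core' ∨ c = (6, 4, 16 + 10 * φ.length) ∨
    (∃ j < 10 * φ.length, c = (16 + 10 * φ.length + j, (if j % 2 = 0 then 5 else 4),
      17 + 10 * φ.length + j)) ∨
    (∃ j < 10 * φ.length, c = (16 + 10 * φ.length + j, 8, 16 + j)) ∨
    (∃ x < 3 * φ.length, c = (16 + 2 * x, 17 + 2 * x, 0)) ∨
    (∃ (C : ℕ) (hC : C < φ.length), ∃ l < 3,
      c = (9, 16 + l + 6 * φ.length + 4 * C, li (litOf φ[C] l))) ∨
    (∃ C < φ.length, c = (16 + 6 * φ.length + 4 * C, 17 + 6 * φ.length + 4 * C,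
      19 + 6 * φ.length + 4 * C)) ∨
    (∃ C < φ.length, c = (19 + 6 * φ.length + 4 * C, 18 + 6 * φ.length + 4 * C, 10)) := by
  unfold cons
  simp only [List.mem_append, List.mem_map, List.mem_range, List.mem_flatMap, List.mem_cons]
  refine or_congr Iff.rfl (or_congr Iff.rfl (or_congr Iff.rfl (or_congr ?_ (or_congr ?_
    (or_congr ?_ (or_congr ?_ (or_congr ?_ ?_)))))))
  · exact exists_congr fun j => and_congr_right fun _ => eq_comm
  · exact exists_congr fun j => and_congr_right fun _ => eq_comm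
  · exact exists_congr fun j => and_congr_right fun _ => eq_comm
  · constructor
    · rintro ⟨⟨d, C⟩, hd, ha⟩
      rw [List.mem_zipIdx_iff_getElem?] at hd
      simp only at hd
      obtain ⟨hC, hd⟩ := List.getElem?_eq_some_iff.1 hd
      subst hd
      simp only [List.not_mem_nil, or_false] at ha
      rcases ha with rfl | rfl | rfl
      · exact ⟨C, hC, 0, by simp, rfl⟩
      · exact ⟨C, hC, 1, by simp, rfl⟩
      · exact ⟨C, hC, 2, by simp, rfl⟩
    · rintro ⟨C, hC, l, hl, rfl⟩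
      refine ⟨(φ[C], C), ?_, ?_⟩
      · rw [List.mem_zipIdx_iff_getElem?]
        simp [hC]
      · have : l = 0 ∨ l = 1 ∨ l = 2 := by omega
        rcases this with rfl | rfl | rfl <;> simp [litOf]
  · exact exists_congr fun j => and_congr_right fun _ => eq_comm
  · exact exists_congr fun j => and_congr_right fun _ => eq_comm

theorem core_facts : ∀ c ∈ core, c.1 < 8 ∧ c.2.1 < 8 ∧ c.2.2 < 8 ∧ c.1 < c.2.1 ∧ c.2.2 ≠ c.1 ∧
    c.2.2 ≠ c.2.1 ∧ ¬ (c.1 = 4 ∧ c.2.1 = 6) ∧ ¬ (c.1 = 4 ∧ c.2.2 = 6) ∧ ¬ (c.1 = 6 ∧ c.2.2 = 4) ∧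
      ¬ (c.2.1 = 4 ∧ c.2.2 = 6) ∧ ¬ (c.2.1 = 6 ∧ c.2.2 = 4) := by decide

theorem core'_facts : ∀ c ∈ core', 8 ≤ c.1 ∧ c.1 < 16 ∧ 8 ≤ c.2.1 ∧ c.2.1 < 16 ∧ 8 ≤ c.2.2 ∧
    c.2.2 < 16 ∧ c.1 < c.2.1 ∧ c.2.2 ≠ c.1 ∧ c.2.2 ≠ c.2.1 := by decide

instance (x y a b : ℕ) : Decidable (Same x y a b) := by unfold Same; infer_instance

theorem core_core : ∀ c ∈ core, ∀ d ∈ core, (Same c.1 c.2.1 d.1 d.2.1 → c.2.2 = d.2.2) ∧
    ¬ Same c.1 c.2.2 d.1 d.2.1 ∧ ¬ Same c.2.1 c.2.2 d.1 d.2.1 := by decide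

theorem core'_core' : ∀ c ∈ core', ∀ d ∈ core', (Same c.1 c.2.1 d.1 d.2.1 → c.2.2 = d.2.2) ∧
    ¬ Same c.1 c.2.2 d.1 d.2.1 ∧ ¬ Same c.2.1 c.2.2 d.1 d.2.1 := by decide

/-- the constraint `({u, v}; m)` -/
def ct (u v m : Bool) : Bool := !(u == v) || (m == u)

theorem ct_of {u v m : Bool} (h : u = v → m = u) : ct u v m = true := by
  revert h; unfold ct; cases u <;> cases v <;> cases m <;> simp

theorem core_rigid8b : ∀ a b c d e f g h : Bool,
    (ct a e h && ct a f b && ct a g d && ct b d e && ct b g c && ct b h a && ct c d a &&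
      ct c h g && ct d h f && ct e f c && ct f g d) = true →
    ((b == a) && (c == a) && (d == a) && (e == a) && (f == a) && (g == a) && (h == a)) = true := by
  decide

theorem core_rigid8 (a b c d e f g h : Bool)
    (h1 : a = e → h = a) (h2 : a = f → b = a) (h3 : a = g → d = a) (h4 : b = d → e = b)
    (h5 : b = g → c = b) (h6 : b = h → a = b) (h7 : c = d → a = c) (h8 : c = h → g = c)
    (h9 : d = h → f = d) (h10 : e = f → c = e) (h11 : f = g → d = f) :
    b = a ∧ c = a ∧ d = a ∧ e = a ∧ f = a ∧ g = a ∧ h = a := by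
  have := core_rigid8b a b c d e f g h (by
    rw [ct_of h1, ct_of h2, ct_of h3, ct_of h4, ct_of h5, ct_of h6, ct_of h7, ct_of h8, ct_of h9,
      ct_of h10, ct_of h11]; rfl)
  simp only [Bool.and_eq_true, beq_iff_eq, and_assoc] at this
  exact this

theorem core_rigid {χ : ℕ → Bool} (h : ∀ c ∈ core, χ c.1 = χ c.2.1 → χ c.2.2 = χ c.1) :
    ∀ i < 8, χ i = χ 0 := by
  have h1 := core_rigid8 (χ 0) (χ 1) (χ 2) (χ 3) (χ 4) (χ 5) (χ 6) (χ 7)
    (h (0, 4, 7) (by decide)) (h (0, 5, 1) (by decide)) (h (0, 6, 3) (by decide))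
    (h (1, 3, 4) (by decide)) (h (1, 6, 2) (by decide)) (h (1, 7, 0) (by decide))
    (h (2, 3, 0) (by decide)) (h (2, 7, 6) (by decide)) (h (3, 7, 5) (by decide))
    (h (4, 5, 2) (by decide)) (h (5, 6, 3) (by decide))
  obtain ⟨h1, h2, h3, h4, h5, h6, h7⟩ := h1
  intro i hi
  interval_cases i <;> first | rfl | assumption

theorem core'_rigid {χ : ℕ → Bool} (h : ∀ c ∈ core', χ c.1 = χ c.2.1 → χ c.2.2 = χ c.1) :
    χ 9 = χ 8 ∧ χ 10 = χ 8 := by
  have h1 := core_rigid8 (χ 8) (χ 9) (χ 10) (χ 11) (χ 12) (χ 13) (χ 14) (χ 15)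
    (h (8, 12, 15) (by decide)) (h (8, 13, 9) (by decide)) (h (8, 14, 11) (by decide))
    (h (9, 11, 12) (by decide)) (h (9, 14, 10) (by decide)) (h (9, 15, 8) (by decide))
    (h (10, 11, 8) (by decide)) (h (10, 15, 14) (by decide)) (h (11, 15, 13) (by decide))
    (h (12, 13, 10) (by decide)) (h (13, 14, 11) (by decide))
  exact ⟨h1.1, h1.2.1⟩

theorem litOf_lt {φ : List Cl} (hφ : Bounded3 φ) {C : ℕ} (hC : C < φ.length) (l : ℕ) :
    (litOf φ[C] l).2 < 3 * φ.length := by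
  have := hφ φ[C] (List.getElem_mem hC)
  unfold litOf
  split_ifs
  · exact this.1
  · exact this.2.1
  · exact this.2.2

theorem li_range {x : Lit ℕ} {m : ℕ} (h : x.2 < m) : 16 ≤ li x ∧ li x < 16 + 2 * m := by
  unfold li
  split_ifs <;> omega

/-- The pairs and the middle vertices, in a form for linear arithmetic. -/
theorem good_aux {φ : List Cl} (hφ : Bounded3 φ) {c : ℕ × ℕ × ℕ} (h : c ∈ cons φ) :
    c ∈ core ∨ c ∈ core' ∨ (c.1 = 6 ∧ c.2.1 = 4 ∧ c.2.2 = 16 + 10 * φ.length) ∨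
    (∃ j < 10 * φ.length, c.1 = 16 + 10 * φ.length + j ∧ ((j % 2 = 0 ∧ c.2.1 = 5) ∨
      (j % 2 = 1 ∧ c.2.1 = 4)) ∧ c.2.2 = 17 + 10 * φ.length + j) ∨
    (∃ j < 10 * φ.length, c.1 = 16 + 10 * φ.length + j ∧ c.2.1 = 8 ∧ c.2.2 = 16 + j) ∨
    (∃ x < 3 * φ.length, c.1 = 16 + 2 * x ∧ c.2.1 = 17 + 2 * x ∧ c.2.2 = 0) ∨
    (∃ C < φ.length, ∃ l < 3, c.1 = 9 ∧ c.2.1 = 16 + l + 6 * φ.length + 4 * C ∧
      16 ≤ c.2.2 ∧ c.2.2 < 16 + 6 * φ.length ∧
      ∀ D l', l' < 3 → 16 + l' + 6 * φ.length + 4 * D = 16 + l + 6 * φ.length + 4 * C →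
        ∀ hD : D < φ.length, c.2.2 = li (litOf φ[D] l')) ∨
    (∃ C < φ.length, c.1 = 16 + 6 * φ.length + 4 * C ∧ c.2.1 = 17 + 6 * φ.length + 4 * C ∧
      c.2.2 = 19 + 6 * φ.length + 4 * C) ∨
    (∃ C < φ.length, c.1 = 19 + 6 * φ.length + 4 * C ∧ c.2.1 = 18 + 6 * φ.length + 4 * C ∧
      c.2.2 = 10) := by
  rcases mem_cons.1 h with h | h | rfl | ⟨j, hj, rfl⟩ | ⟨j, hj, rfl⟩ | ⟨x, hx, rfl⟩ |
    ⟨C, hC, l, hl, rfl⟩ | ⟨C, hC, rfl⟩ | ⟨C, hC, rfl⟩
  · exact Or.inl h
  · exact Or.inr (Or.inl h)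
  · exact Or.inr (Or.inr (Or.inl ⟨rfl, rfl, rfl⟩))
  · refine Or.inr (Or.inr (Or.inr (Or.inl ⟨j, hj, rfl, ?_, rfl⟩)))
    have : j % 2 = 0 ∨ j % 2 = 1 := by omega
    rcases this with h | h <;> simp [h]
  · exact Or.inr (Or.inr (Or.inr (Or.inr (Or.inl ⟨j, hj, rfl, rfl, rfl⟩))))
  · exact Or.inr (Or.inr (Or.inr (Or.inr (Or.inr (Or.inl ⟨x, hx, rfl, rfl, rfl⟩)))))
  · have hr := li_range (litOf_lt hφ hC l)
    refine Or.inr (Or.inr (Or.inr (Or.inr (Or.inr (Or.inr (Or.inl ⟨C, hC, l, hl, rfl, rfl, hr.1,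
      by simp only; omega, ?_⟩))))))
    intro D l' hl' heq hD
    have h1 : D = C := by omega
    have h2 : l' = l := by omega
    subst h1 h2
    rfl
  · exact Or.inr (Or.inr (Or.inr (Or.inr (Or.inr (Or.inr (Or.inr (Or.inl
      ⟨C, hC, rfl, rfl, rfl⟩)))))))
  · exact Or.inr (Or.inr (Or.inr (Or.inr (Or.inr (Or.inr (Or.inr (Or.inr
      ⟨C, hC, rfl, rfl, rfl⟩)))))))

/-- The kinds of constraints, as one disjunction on numbers. -/
def Kind (L a b m : ℕ) : Prop :=
  (a < 8 ∧ b < 8 ∧ m < 8) ∨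
  (8 ≤ a ∧ a < 16 ∧ 8 ≤ b ∧ b < 16 ∧ 8 ≤ m ∧ m < 16) ∨
  (a = 6 ∧ b = 4 ∧ m = 16 + 10 * L) ∨
  (∃ j < 10 * L, a = 16 + 10 * L + j ∧ ((j % 2 = 0 ∧ b = 5) ∨ (j % 2 = 1 ∧ b = 4)) ∧
    m = 17 + 10 * L + j) ∨
  (∃ j < 10 * L, a = 16 + 10 * L + j ∧ b = 8 ∧ m = 16 + j) ∨
  (∃ x < 3 * L, a = 16 + 2 * x ∧ b = 17 + 2 * x ∧ m = 0) ∨
  (∃ C < L, ∃ l < 3, a = 9 ∧ b = 16 + l + 6 * L + 4 * C ∧ 16 ≤ m ∧ m < 16 + 6 * L) ∨
  (∃ C < L, a = 16 + 6 * L + 4 * C ∧ b = 17 + 6 * L + 4 * C ∧ m = 19 + 6 * L + 4 * C) ∨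
  (∃ C < L, a = 19 + 6 * L + 4 * C ∧ b = 18 + 6 * L + 4 * C ∧ m = 10)

theorem kind_of {φ : List Cl} (hφ : Bounded3 φ) {c : ℕ × ℕ × ℕ} (h : c ∈ cons φ) :
    Kind φ.length c.1 c.2.1 c.2.2 := by
  unfold Kind
  rcases good_aux hφ h with h | h | h | h | h | h | ⟨C, hC, l, hl, h1, h2, h3, h4, _⟩ | h | h
  · have := core_facts c h
    exact Or.inl ⟨this.1, this.2.1, this.2.2.1⟩
  · have := core'_facts c h
    exact Or.inr (Or.inl ⟨this.1, this.2.1, this.2.2.1, this.2.2.2.1, this.2.2.2.2.1,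
      this.2.2.2.2.2.1⟩)
  · exact Or.inr (Or.inr (Or.inl h))
  · exact Or.inr (Or.inr (Or.inr (Or.inl h)))
  · exact Or.inr (Or.inr (Or.inr (Or.inr (Or.inl h))))
  · exact Or.inr (Or.inr (Or.inr (Or.inr (Or.inr (Or.inl h)))))
  · exact Or.inr (Or.inr (Or.inr (Or.inr (Or.inr (Or.inr (Or.inl ⟨C, hC, l, hl, h1, h2, h3, h4⟩))))))
  · exact Or.inr (Or.inr (Or.inr (Or.inr (Or.inr (Or.inr (Or.inr (Or.inl h)))))))
  · exact Or.inr (Or.inr (Or.inr (Or.inr (Or.inr (Or.inr (Or.inr (Or.inr h)))))))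

theorem kind_lt {L a b m : ℕ} (h : Kind L a b m) :
    a < 17 + 20 * L ∧ b < 17 + 20 * L ∧ m < 17 + 20 * L := by
  unfold Kind at h
  rcases h with h | h | h | ⟨j, hj, h⟩ | ⟨j, hj, h⟩ | ⟨x, hx, h⟩ | ⟨C, hC, l, hl, h⟩ | ⟨C, hC, h⟩ |
    ⟨C, hC, h⟩ <;> omega

theorem kind_ne {L a b m : ℕ} (h : Kind L a b m) (h8 : 16 ≤ a ∨ 16 ≤ b ∨ 16 ≤ m) :
    a ≠ b ∧ m ≠ a ∧ m ≠ b := by
  unfold Kind at h
  rcases h with h | h | h | ⟨j, hj, h⟩ | ⟨j, hj, h⟩ | ⟨x, hx, h⟩ | ⟨C, hC, l, hl, h⟩ | ⟨C, hC, h⟩ |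
    ⟨C, hC, h⟩ <;> omega

/-- If the first constraint is not in a core, the middle vertex is not joined with the ends by
constraints. -/
theorem kind_edge {L a b m a' b' m' : ℕ} (h : Kind L a b m) (h' : Kind L a' b' m')
    (h8 : 16 ≤ a ∨ 16 ≤ b ∨ 16 ≤ m) : ¬ Same a m a' b' := by
  unfold Kind at h h'
  unfold Same
  rcases h with h | h | h | ⟨j, hj, h⟩ | ⟨j, hj, h⟩ | ⟨x, hx, h⟩ | ⟨C, hC, l, hl, h⟩ | ⟨C, hC, h⟩ |
    ⟨C, hC, h⟩ <;>
  rcases h' with h' | h' | h' | ⟨j', hj', h'⟩ | ⟨j', hj', h'⟩ | ⟨x', hx', h'⟩ |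
    ⟨C', hC', l', hl', h'⟩ | ⟨C', hC', h'⟩ | ⟨C', hC', h'⟩ <;> omega

theorem kind_edge' {L a b m a' b' m' : ℕ} (h : Kind L a b m) (h' : Kind L a' b' m')
    (h8 : 16 ≤ a ∨ 16 ≤ b ∨ 16 ≤ m) : ¬ Same b m a' b' := by
  unfold Kind at h h'
  unfold Same
  rcases h with h | h | h | ⟨j, hj, h⟩ | ⟨j, hj, h⟩ | ⟨x, hx, h⟩ | ⟨C, hC, l, hl, h⟩ | ⟨C, hC, h⟩ |
    ⟨C, hC, h⟩ <;>
  rcases h' with h' | h' | h' | ⟨j', hj', h'⟩ | ⟨j', hj', h'⟩ | ⟨x', hx', h'⟩ |
    ⟨C', hC', l', hl', h'⟩ | ⟨C', hC', h'⟩ | ⟨C', hC', h'⟩ <;> omega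

theorem kind_uniq {L a b m a' b' m' : ℕ} (h : Kind L a b m) (h' : Kind L a' b' m')
    (h8 : 16 ≤ a ∨ 16 ≤ b ∨ 16 ≤ m) (h8' : 16 ≤ a' ∨ 16 ≤ b' ∨ 16 ≤ m') (hs : Same a b a' b') :
    m = m' ∨ (a = 9 ∧ a' = 9 ∧ b = b') := by
  unfold Kind at h h'
  unfold Same at hs
  rcases h with h | h | h | ⟨j, hj, h⟩ | ⟨j, hj, h⟩ | ⟨x, hx, h⟩ | ⟨C, hC, l, hl, h⟩ | ⟨C, hC, h⟩ |
    ⟨C, hC, h⟩ <;>
  rcases h' with h' | h' | h' | ⟨j', hj', h'⟩ | ⟨j', hj', h'⟩ | ⟨x', hx', h'⟩ |
    ⟨C', hC', l', hl', h'⟩ | ⟨C', hC', h'⟩ | ⟨C', hC', h'⟩ <;> omega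

/-- A constraint not in the cores whose pair is within the cores. -/
theorem kind_small {L a b m : ℕ} (h : Kind L a b m) (h8 : 16 ≤ a ∨ 16 ≤ b ∨ 16 ≤ m)
    (ha : a < 16) (hb : b < 16) : a = 6 ∧ b = 4 := by
  unfold Kind at h
  rcases h with h | h | h | ⟨j, hj, h⟩ | ⟨j, hj, h⟩ | ⟨x, hx, h⟩ | ⟨C, hC, l, hl, h⟩ | ⟨C, hC, h⟩ |
    ⟨C, hC, h⟩ <;> omega

theorem split_core {φ : List Cl} (hφ : Bounded3 φ) {c : ℕ × ℕ × ℕ} (h : c ∈ cons φ) :
    c ∈ core ∨ c ∈ core' ∨ (16 ≤ c.1 ∨ 16 ≤ c.2.1 ∨ 16 ≤ c.2.2) := by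
  rcases good_aux hφ h with h | h | h | ⟨j, _, h⟩ | ⟨j, _, h⟩ | ⟨j, _, h⟩ | ⟨C, hC, l, hl, h⟩ |
    ⟨j, _, h⟩ | ⟨j, _, h⟩
  · exact Or.inl h
  · exact Or.inr (Or.inl h)
  all_goals right; right; omega

theorem good {φ : List Cl} (hφ : Bounded3 φ) : Good (num φ) (cons φ) := by
  constructor
  · intro c hc
    exact kind_lt (kind_of hφ hc)
  · intro c hc
    rcases split_core hφ hc with h | h | h
    · have := core_facts c h
      omega
    · have := core'_facts c h
      omega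
    · exact kind_ne (kind_of hφ hc) h
  · intro c hc d hd hs
    rcases split_core hφ hc with h | h | h <;> rcases split_core hφ hd with h' | h' | h'
    · exact (core_core c h d h').1 hs
    · have := core_facts c h
      have := core'_facts d h'
      unfold Same at hs
      omega
    · have h1 := core_facts c h
      have h2 : d.1 < 16 ∧ d.2.1 < 16 := by
        unfold Same at hs
        omega
      have h3 := kind_small (kind_of hφ hd) h' h2.1 h2.2
      unfold Same at hs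
      omega
    · have := core_facts d h'
      have := core'_facts c h
      unfold Same at hs
      omega
    · exact (core'_core' c h d h').1 hs
    · have h1 := core'_facts c h
      have h2 : d.1 < 16 ∧ d.2.1 < 16 := by
        unfold Same at hs
        omega
      have h3 := kind_small (kind_of hφ hd) h' h2.1 h2.2
      unfold Same at hs
      omega
    · have h1 := core_facts d h'
      have h2 : c.1 < 16 ∧ c.2.1 < 16 := by
        unfold Same at hs
        omega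
      have h3 := kind_small (kind_of hφ hc) h h2.1 h2.2
      unfold Same at hs
      omega
    · have h1 := core'_facts d h'
      have h2 : c.1 < 16 ∧ c.2.1 < 16 := by
        unfold Same at hs
        omega
      have h3 := kind_small (kind_of hφ hc) h h2.1 h2.2
      unfold Same at hs
      omega
    · rcases kind_uniq (kind_of hφ hc) (kind_of hφ hd) h h' hs with h1 | ⟨h1, h2, h3⟩
      · exact h1
      · have g1 := good_aux hφ hc
        have g2 := good_aux hφ hd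
        rcases g1 with g1 | g1 | g1 | ⟨j, _, g1⟩ | ⟨j, _, g1⟩ | ⟨j, _, g1⟩ |
          ⟨C, hC, l, hl, g11, g12, g13, g14, g15⟩ | ⟨j, _, g1⟩ | ⟨j, _, g1⟩
        · have := core_facts c g1
          omega
        · have := core'_facts c g1
          omega
        · omega
        · omega
        · omega
        · omega
        · rcases g2 with g2 | g2 | g2 | ⟨j, _, g2⟩ | ⟨j, _, g2⟩ | ⟨j, _, g2⟩ |
            ⟨D, hD, l', hl', g21, g22, g23, g24, g25⟩ | ⟨j, _, g2⟩ | ⟨j, _, g2⟩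
          · have := core_facts d g2
            omega
          · have := core'_facts d g2
            omega
          · omega
          · omega
          · omega
          · omega
          · rw [g15 C l hl rfl hC, g25 C l hl (by omega) hC]
          · omega
          · omega
        · omega
        · omega
  · intro c hc d hd
    rcases split_core hφ hc with h | h | h
    · rcases split_core hφ hd with h' | h' | h'
      · exact (core_core c h d h').2
      · have h1 := core_facts c h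
        have h2 := core'_facts d h'
        unfold Same
        omega
      · have h1 := core_facts c h
        have h2 := kind_small (kind_of hφ hd) h'
        unfold Same
        omega
    · rcases split_core hφ hd with h' | h' | h'
      · have h1 := core_facts d h'
        have h2 := core'_facts c h
        unfold Same
        omega
      · exact (core'_core' c h d h').2
      · have h1 := core'_facts c h
        have h2 := kind_small (kind_of hφ hd) h'
        unfold Same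
        omega
    · exact ⟨kind_edge (kind_of hφ hc) (kind_of hφ hd) h,
        kind_edge' (kind_of hφ hc) (kind_of hφ hd) h⟩

/-! ### Correctness -/

section

variable {φ : List Cl}

theorem mem_chain {j : ℕ} (hj : j < 10 * φ.length) :
    (16 + 10 * φ.length + j, (if j % 2 = 0 then 5 else 4), 17 + 10 * φ.length + j) ∈ cons φ :=
  mem_cons.2 (Or.inr (Or.inr (Or.inr (Or.inl ⟨j, hj, rfl⟩))))

theorem mem_force {j : ℕ} (hj : j < 10 * φ.length) :
    (16 + 10 * φ.length + j, 8, 16 + j) ∈ cons φ :=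
  mem_cons.2 (Or.inr (Or.inr (Or.inr (Or.inr (Or.inl ⟨j, hj, rfl⟩)))))

theorem mem_var {x : ℕ} (hx : x < 3 * φ.length) : (16 + 2 * x, 17 + 2 * x, 0) ∈ cons φ :=
  mem_cons.2 (Or.inr (Or.inr (Or.inr (Or.inr (Or.inr (Or.inl ⟨x, hx, rfl⟩))))))

theorem mem_lit {C : ℕ} (hC : C < φ.length) {l : ℕ} (hl : l < 3) :
    (9, 16 + l + 6 * φ.length + 4 * C, li (litOf φ[C] l)) ∈ cons φ :=
  mem_cons.2 (Or.inr (Or.inr (Or.inr (Or.inr (Or.inr (Or.inr (Or.inl ⟨C, hC, l, hl, rfl⟩)))))))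

theorem mem_c {C : ℕ} (hC : C < φ.length) :
    (16 + 6 * φ.length + 4 * C, 17 + 6 * φ.length + 4 * C, 19 + 6 * φ.length + 4 * C) ∈ cons φ :=
  mem_cons.2 (Or.inr (Or.inr (Or.inr (Or.inr (Or.inr (Or.inr (Or.inr (Or.inl
    ⟨C, hC, rfl⟩))))))))

theorem mem_d {C : ℕ} (hC : C < φ.length) :
    (19 + 6 * φ.length + 4 * C, 18 + 6 * φ.length + 4 * C, 10) ∈ cons φ :=
  mem_cons.2 (Or.inr (Or.inr (Or.inr (Or.inr (Or.inr (Or.inr (Or.inr (Or.inr
    ⟨C, hC, rfl⟩))))))))

theorem sat_of {χ : ℕ → Bool} (hφ : Bounded3 φ) (h1 : ∃ i < num φ, χ i = true)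
    (h2 : ∃ i < num φ, χ i = false) (h : ∀ c ∈ cons φ, χ c.1 = χ c.2.1 → χ c.2.2 = χ c.1) :
    SAT3 φ := by
  have hcore : ∀ i < 8, χ i = χ 0 := core_rigid fun c hc => h c (mem_cons.2 (Or.inl hc))
  have hcore' : ∀ i, 8 ≤ i → i < 16 → χ i = χ 8 := by
    have h0 : ∀ c ∈ core', χ c.1 = χ c.2.1 → χ c.2.2 = χ c.1 := fun c hc =>
      h c (mem_cons.2 (Or.inr (Or.inl hc)))
    have h1 := core_rigid8 (χ 8) (χ 9) (χ 10) (χ 11) (χ 12) (χ 13) (χ 14) (χ 15)
      (h0 (8, 12, 15) (by decide)) (h0 (8, 13, 9) (by decide)) (h0 (8, 14, 11) (by decide))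
      (h0 (9, 11, 12) (by decide)) (h0 (9, 14, 10) (by decide)) (h0 (9, 15, 8) (by decide))
      (h0 (10, 11, 8) (by decide)) (h0 (10, 15, 14) (by decide)) (h0 (11, 15, 13) (by decide))
      (h0 (12, 13, 10) (by decide)) (h0 (13, 14, 11) (by decide))
    obtain ⟨g1, g2, g3, g4, g5, g6, g7⟩ := h1
    intro i hi hi'
    interval_cases i <;> first | rfl | assumption
  -- the chain
  have hchain : ∀ j ≤ 10 * φ.length, χ (16 + 10 * φ.length + j) = χ 0 := by
    intro j
    induction j with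
    | zero =>
      intro _
      have h0 := h _ (mem_cons.2 (Or.inr (Or.inr (Or.inl rfl))) :
        ((6, 4, 16 + 10 * φ.length) : ℕ × ℕ × ℕ) ∈ cons φ)
      simp only at h0
      rw [add_zero, h0 (by rw [hcore 6 (by norm_num), hcore 4 (by norm_num)]),
        hcore 6 (by norm_num)]
    | succ j ih =>
      intro hj
      have ih' := ih (by omega)
      have h0 := h _ (mem_chain (φ := φ) (j := j) (by omega))
      simp only at h0
      have h3 : χ (if j % 2 = 0 then 5 else 4) = χ 0 := by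
        split_ifs
        · exact hcore 5 (by norm_num)
        · exact hcore 4 (by norm_num)
      have e : 16 + 10 * φ.length + (j + 1) = 17 + 10 * φ.length + j := by omega
      rw [e, h0 (by rw [ih', h3]), ih']
  -- the two cores differ
  have hne : χ 8 ≠ χ 0 := by
    intro he
    have hall : ∀ i < num φ, χ i = χ 0 := by
      intro i hi
      unfold num at hi
      by_cases c1 : i < 8
      · exact hcore i c1
      by_cases c2 : i < 16
      · rw [hcore' i (by omega) c2, he]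
      by_cases c3 : i < 16 + 10 * φ.length
      · obtain ⟨j, rfl⟩ := Nat.exists_eq_add_of_le (show 16 ≤ i by omega)
        have h0 := h _ (mem_force (φ := φ) (j := j) (by omega))
        simp only at h0
        have h3 := hchain j (by omega)
        rw [h0 (by rw [h3, he]), h3]
      · obtain ⟨j, rfl⟩ := Nat.exists_eq_add_of_le (show 16 + 10 * φ.length ≤ i by omega)
        exact hchain j (by omega)
    obtain ⟨i, hi, hi'⟩ := h1
    obtain ⟨k, hk, hk'⟩ := h2
    rw [hall i hi] at hi'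
    rw [hall k hk, hi'] at hk'
    simp at hk'
  have h9 : χ 9 = χ 8 := hcore' 9 (by norm_num) (by norm_num)
  have h10 : χ 10 = χ 8 := hcore' 10 (by norm_num) (by norm_num)
  refine ⟨fun x => decide (χ (16 + 2 * x) = χ 8), fun d hd => ?_⟩
  obtain ⟨C, hC, rfl⟩ := List.getElem_of_mem hd
  -- some occurrence is true
  have key : ∃ l < 3, χ (16 + l + 6 * φ.length + 4 * C) = χ 8 := by
    by_contra hno
    push Not at hno
    have n0 := hno 0 (by norm_num)
    have n1 := hno 1 (by norm_num)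
    have n2 := hno 2 (by norm_num)
    have hc := h _ (mem_c hC)
    have hd := h _ (mem_d hC)
    simp only at hc hd
    have e0 : 16 + 0 + 6 * φ.length + 4 * C = 16 + 6 * φ.length + 4 * C := by omega
    have e1 : 16 + 1 + 6 * φ.length + 4 * C = 17 + 6 * φ.length + 4 * C := by omega
    have e2 : 16 + 2 + 6 * φ.length + 4 * C = 18 + 6 * φ.length + 4 * C := by omega
    rw [e0] at n0
    rw [e1] at n1
    rw [e2] at n2
    rw [h10] at hd
    generalize χ (16 + 6 * φ.length + 4 * C) = a at *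
    generalize χ (17 + 6 * φ.length + 4 * C) = b at *
    generalize χ (18 + 6 * φ.length + 4 * C) = e at *
    generalize χ (19 + 6 * φ.length + 4 * C) = f at *
    generalize χ 8 = g at *
    revert hc hd n0 n1 n2
    cases a <;> cases b <;> cases e <;> cases f <;> cases g <;> simp
  obtain ⟨l, hl, hl'⟩ := key
  have hlit : χ (li (litOf φ[C] l)) = χ 8 := by
    have h0 := h _ (mem_lit hC hl)
    simp only at h0
    rw [h0 (by rw [h9, hl']), h9]
  have hx := litOf_lt hφ hC l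
  have main : decide (χ (16 + 2 * (litOf φ[C] l).2) = χ 8) = (litOf φ[C] l).1 := by
    generalize litOf φ[C] l = x at *
    obtain ⟨b, x⟩ := x
    simp only at *
    cases b with
    | true =>
      simp only [li, if_true] at hlit
      rw [hlit]
      simp
    | false =>
      simp only [li, Bool.false_eq_true, if_false] at hlit
      have h0 := h _ (mem_var hx)
      simp only at h0
      rw [decide_eq_false_iff_not]
      intro h16
      have e : 16 + 2 * x + 1 = 17 + 2 * x := by omega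
      have h4 := h0 (by rw [h16, hlit])
      exact hne (by rw [h4, h16])
  have : l = 0 ∨ l = 1 ∨ l = 2 := by omega
  rcases this with rfl | rfl | rfl
  · exact Or.inl main
  · exact Or.inr (Or.inl main)
  · exact Or.inr (Or.inr main)

/-- the truth value of a literal of a clause -/
def val (φ : List Cl) (τ : ℕ → Bool) (C l : ℕ) : Bool :=
  decide (τ (litOf (φ.getD C ((true, 0), (true, 0), (true, 0))) l).2 =
    (litOf (φ.getD C ((true, 0), (true, 0), (true, 0))) l).1)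

/-- the partition given by an assignment -/
def chi (φ : List Cl) (τ : ℕ → Bool) (i : ℕ) : Bool :=
  if i < 8 then false else if i < 16 then true else
  if i < 16 + 6 * φ.length then (if (i - 16) % 2 = 0 then τ ((i - 16) / 2) else !τ ((i - 16) / 2))
  else if i < 16 + 10 * φ.length then
    (if (i - 16 - 6 * φ.length) % 4 = 3 then
      (if val φ τ ((i - 16 - 6 * φ.length) / 4) 0 = val φ τ ((i - 16 - 6 * φ.length) / 4) 1
        then val φ τ ((i - 16 - 6 * φ.length) / 4) 0 else true)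
    else val φ τ ((i - 16 - 6 * φ.length) / 4) ((i - 16 - 6 * φ.length) % 4))
  else false

variable {τ : ℕ → Bool}

theorem chi_core {i : ℕ} (h : i < 8) : chi φ τ i = false := by
  unfold chi; rw [if_pos h]

theorem chi_core' {i : ℕ} (h : 8 ≤ i) (h' : i < 16) : chi φ τ i = true := by
  unfold chi; rw [if_neg (by omega), if_pos h']

theorem chi_chain {i : ℕ} (h : 16 + 10 * φ.length ≤ i) : chi φ τ i = false := by
  unfold chi
  rw [if_neg (by omega), if_neg (by omega), if_neg (by omega), if_neg (by omega)]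

theorem chi_pos {x : ℕ} (h : x < 3 * φ.length) : chi φ τ (16 + 2 * x) = τ x := by
  unfold chi
  rw [if_neg (by omega), if_neg (by omega), if_pos (by omega), if_pos (by omega)]
  congr 1
  omega

theorem chi_neg {x : ℕ} (h : x < 3 * φ.length) : chi φ τ (17 + 2 * x) = !τ x := by
  unfold chi
  rw [if_neg (by omega), if_neg (by omega), if_pos (by omega), if_neg (by omega)]
  congr 2
  omega

theorem chi_li {x : Lit ℕ} (h : x.2 < 3 * φ.length) :
    chi φ τ (li x) = decide (τ x.2 = x.1) := by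
  obtain ⟨b, x⟩ := x
  unfold li
  cases b with
  | true =>
    simp only [if_true]
    rw [chi_pos h]
    simp
  | false =>
    simp only [Bool.false_eq_true, if_false]
    rw [chi_neg h]
    cases τ x <;> simp

theorem chi_val {C l : ℕ} (hC : C < φ.length) (hl : l < 3) :
    chi φ τ (16 + l + 6 * φ.length + 4 * C) = decide (τ (litOf φ[C] l).2 = (litOf φ[C] l).1) := by
  unfold chi
  have e1 : (16 + l + 6 * φ.length + 4 * C - 16 - 6 * φ.length) % 4 = l := by omega
  have e2 : (16 + l + 6 * φ.length + 4 * C - 16 - 6 * φ.length) / 4 = C := by omega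
  rw [if_neg (by omega), if_neg (by omega), if_neg (by omega), if_pos (by omega), e1, e2,
    if_neg (by omega)]
  unfold val
  rw [List.getD_eq_getElem _ _ hC]

theorem chi_p {C : ℕ} (hC : C < φ.length) :
    chi φ τ (19 + 6 * φ.length + 4 * C) =
      if chi φ τ (16 + 6 * φ.length + 4 * C) = chi φ τ (17 + 6 * φ.length + 4 * C) then
        chi φ τ (16 + 6 * φ.length + 4 * C) else true := by
  have h0 := chi_val (φ := φ) (τ := τ) hC (l := 0) (by norm_num)
  have h1 := chi_val (φ := φ) (τ := τ) hC (l := 1) (by norm_num)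
  have e0 : 16 + 0 + 6 * φ.length + 4 * C = 16 + 6 * φ.length + 4 * C := by omega
  have e1 : 16 + 1 + 6 * φ.length + 4 * C = 17 + 6 * φ.length + 4 * C := by omega
  rw [e0] at h0
  rw [e1] at h1
  rw [h0, h1]
  unfold chi
  have e1 : (19 + 6 * φ.length + 4 * C - 16 - 6 * φ.length) % 4 = 3 := by omega
  have e2 : (19 + 6 * φ.length + 4 * C - 16 - 6 * φ.length) / 4 = C := by omega
  rw [if_neg (by omega), if_neg (by omega), if_neg (by omega), if_pos (by omega), e1, e2,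
    if_pos rfl]
  unfold val
  rw [List.getD_eq_getElem _ _ hC]

theorem of_sat (hφ : Bounded3 φ) (h : SAT3 φ) :
    ∃ χ : ℕ → Bool, (∃ i < num φ, χ i = true) ∧ (∃ i < num φ, χ i = false) ∧
      ∀ c ∈ cons φ, χ c.1 = χ c.2.1 → χ c.2.2 = χ c.1 := by
  obtain ⟨τ, hτ⟩ := h
  refine ⟨chi φ τ, ⟨8, by unfold num; omega, chi_core' le_rfl (by norm_num)⟩,
    ⟨0, by unfold num; omega, chi_core (by norm_num)⟩, ?_⟩
  intro c hc
  rcases mem_cons.1 hc with h | h | rfl | ⟨j, hj, rfl⟩ | ⟨j, hj, rfl⟩ | ⟨x, hx, rfl⟩ |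
    ⟨C, hC, l, hl, rfl⟩ | ⟨C, hC, rfl⟩ | ⟨C, hC, rfl⟩
  · have := core_facts c h
    intro _
    rw [chi_core this.1, chi_core this.2.2.1]
  · have := core'_facts c h
    intro _
    rw [chi_core' this.1 this.2.1, chi_core' this.2.2.2.2.1 this.2.2.2.2.2.1]
  · intro _
    simp only
    rw [chi_chain le_rfl, chi_core (by norm_num)]
  · intro _
    simp only
    rw [chi_chain (by omega), chi_chain (by omega)]
  · simp only
    rw [chi_chain (by omega), chi_core' le_rfl (by norm_num)]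
    simp
  · simp only
    rw [chi_pos hx, chi_neg hx]
    cases τ x <;> simp
  · simp only
    rw [chi_core' (by norm_num) (by norm_num), chi_val hC hl, chi_li (litOf_lt hφ hC l)]
    intro h
    exact h.symm
  · simp only
    intro h
    rw [chi_p hC, if_pos h]
  · simp only
    have h3 : chi φ τ (16 + 6 * φ.length + 4 * C) = true ∨
        chi φ τ (17 + 6 * φ.length + 4 * C) = true ∨
        chi φ τ (18 + 6 * φ.length + 4 * C) = true := by
      have h0 := chi_val (φ := φ) (τ := τ) hC (l := 0) (by norm_num)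
      have h1 := chi_val (φ := φ) (τ := τ) hC (l := 1) (by norm_num)
      have h2 := chi_val (φ := φ) (τ := τ) hC (l := 2) (by norm_num)
      have e0 : 16 + 0 + 6 * φ.length + 4 * C = 16 + 6 * φ.length + 4 * C := by omega
      have e1 : 16 + 1 + 6 * φ.length + 4 * C = 17 + 6 * φ.length + 4 * C := by omega
      have e2 : 16 + 2 + 6 * φ.length + 4 * C = 18 + 6 * φ.length + 4 * C := by omega
      rw [e0] at h0
      rw [e1] at h1
      rw [e2] at h2
      rw [h0, h1, h2]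
      rcases hτ φ[C] (List.getElem_mem hC) with g | g | g
      · left; exact decide_eq_true g
      · right; left; exact decide_eq_true g
      · right; right; exact decide_eq_true g
    rw [chi_p hC, chi_core' (φ := φ) (i := 10) (by norm_num) (by norm_num)]
    revert h3
    generalize chi φ τ (16 + 6 * φ.length + 4 * C) = a
    generalize chi φ τ (17 + 6 * φ.length + 4 * C) = b
    generalize chi φ τ (18 + 6 * φ.length + 4 * C) = e
    cases a <;> cases b <;> cases e <;> simp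

/-- The reduction. -/
noncomputable def red (φ : List Cl) : Inst := inst (num φ) (cons φ)

theorem red_spec (hφ : Bounded3 φ) : IsPathSystem (red φ) ∧ Consistent (red φ) ∧
    (SAT3 φ ↔ ¬ Irreducible (red φ)) := by
  refine ⟨inst_system (good hφ), inst_consistent (good hφ), ?_⟩
  unfold red
  rw [reduction_iff (good hφ)]
  exact ⟨of_sat hφ, fun ⟨χ, h1, h2, h3⟩ => sat_of hφ h1 h2 h3⟩

end

end Pool.Agent.NPC.V11230.PS
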