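import Mathlib

/-!
# Packing jobs with divisible periods into rounds
-/

namespace Pool.Agent.V11230.DP

open Finset

/-- Summing a periodic function over several periods. -/
theorem sum_periodic {g : ℕ → ℕ} {k : ℕ} (hg : ∀ r, g (r + k) = g r) (c : ℕ) :
    ∑ r ∈ range (k * c), g r = c * ∑ r ∈ range k, g r := by
  have key : ∀ c r, g (r + k * c) = g r := by
    intro c
    induction c with
    | zero => intro r; simp
    | succ c ih => intro r; rw [Nat.mul_succ, ← Nat.add_assoc, hg, ih]
  induction c with
  | zero => simp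
  | succ c ih =>
    rw [Nat.mul_succ, sum_range_add, ih, Nat.succ_mul]
    congr 1
    refine sum_congr rfl fun r _ => ?_
    rw [Nat.add_comm, key]

/-- The number of `r < k * c` with `r % k = b`. -/
theorem sum_mod_eq {k b : ℕ} (hb : b < k) (c : ℕ) :
    ∑ r ∈ range (k * c), (if r % k = b then 1 else 0) = c := by
  rw [sum_periodic (g := fun r => if r % k = b then 1 else 0) (fun r => by simp)]
  have : ∑ r ∈ range k, (if r % k = b then 1 else 0) = 1 := by
    rw [sum_eq_single b]
    · simp [Nat.mod_eq_of_lt hb]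
    · intro r hr hne
      rw [Nat.mod_eq_of_lt (mem_range.1 hr), if_neg hne]
    · intro h; exact absurd (mem_range.2 hb) h
  rw [this, Nat.mul_one]

/-- The number of `r < k * c` with `r % k < h`. -/
theorem sum_mod_lt {k h : ℕ} (hh : h ≤ k) (c : ℕ) :
    ∑ r ∈ range (k * c), (if r % k < h then 1 else 0) = c * h := by
  rw [sum_periodic (g := fun r => if r % k < h then 1 else 0) (fun r => by simp)]
  congr 1
  have : ∑ r ∈ range k, (if r % k < h then 1 else 0) = ∑ r ∈ range k, (if r < h then 1 else 0) :=
    sum_congr rfl fun r hr => by rw [Nat.mod_eq_of_lt (mem_range.1 hr)]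
  rw [this, ← sum_filter]
  simp only [sum_const, smul_eq_mul, mul_one]
  have : (range k).filter (fun r => r < h) = range h := by
    ext r; simp only [mem_filter, mem_range]; omega
  rw [this, card_range]

section Pack

variable (K q : ℕ → ℕ) (C : ℕ)

/-- The load of the small jobs among the first `m` in round `r`. -/
def LS (b : ℕ → ℕ) (m r : ℕ) : ℕ :=
  ∑ i ∈ range m, (if r % K i = b i ∧ 2 * q i ≤ C then q i else 0)

/-- The number of large jobs among the first `m` in round `r`. -/
def LC (b : ℕ → ℕ) (m r : ℕ) : ℕ :=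
  ∑ i ∈ range m, (if r % K i = b i ∧ C < 2 * q i then 1 else 0)

variable {K q C}

theorem sum_LS {b : ℕ → ℕ} {m M : ℕ} (hb : ∀ i < m, b i < K i) (hM : ∀ i < m, K i ∣ M) :
    ∑ r ∈ range M, LS K q C b m r ≤ ∑ i ∈ range m, q i * (M / K i) := by
  unfold LS
  rw [sum_comm]
  refine sum_le_sum fun i hi => ?_
  have hi := mem_range.1 hi
  obtain ⟨c, hc⟩ := hM i hi
  have hK : 0 < K i := lt_of_le_of_lt (Nat.zero_le _) (hb i hi)
  rw [hc, Nat.mul_div_cancel_left _ hK]
  calc ∑ r ∈ range (K i * c), (if r % K i = b i ∧ 2 * q i ≤ C then q i else 0)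
      ≤ ∑ r ∈ range (K i * c), q i * (if r % K i = b i then 1 else 0) := by
        refine sum_le_sum fun r _ => ?_
        by_cases h : r % K i = b i <;> by_cases h' : 2 * q i ≤ C <;> simp [h, h']
    _ = q i * c := by rw [← mul_sum, sum_mod_eq (hb i hi)]

theorem sum_LC {b : ℕ → ℕ} {m M : ℕ} (hb : ∀ i < m, b i < K i) (hM : ∀ i < m, K i ∣ M) :
    C * ∑ r ∈ range M, LC K q C b m r ≤ 2 * ∑ i ∈ range m, q i * (M / K i) := by
  unfold LC
  rw [sum_comm, mul_sum, mul_sum]
  refine sum_le_sum fun i hi => ?_
  have hi := mem_range.1 hi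
  obtain ⟨c, hc⟩ := hM i hi
  have hK : 0 < K i := lt_of_le_of_lt (Nat.zero_le _) (hb i hi)
  rw [hc, Nat.mul_div_cancel_left _ hK]
  by_cases h' : C < 2 * q i
  · have : ∑ r ∈ range (K i * c), (if r % K i = b i ∧ C < 2 * q i then 1 else 0) = c := by
      refine Eq.trans (sum_congr rfl fun r _ => ?_) (sum_mod_eq (hb i hi) c)
      simp [h']
    rw [this]
    nlinarith
  · have : ∑ r ∈ range (K i * c), (if r % K i = b i ∧ C < 2 * q i then 1 else 0) = 0 := by
      refine sum_eq_zero fun r _ => ?_
      simp [h']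
    rw [this]
    simp

theorem LS_congr {b : ℕ → ℕ} {m r r' M : ℕ} (hM : ∀ i < m, K i ∣ M) (h : r % M = r' % M) :
    LS K q C b m r = LS K q C b m r' := by
  unfold LS
  refine sum_congr rfl fun i hi => ?_
  have : r % K i = r' % K i := by
    rw [← Nat.mod_mod_of_dvd r (hM i (mem_range.1 hi)), h,
      Nat.mod_mod_of_dvd r' (hM i (mem_range.1 hi))]
  rw [this]

theorem LC_congr {b : ℕ → ℕ} {m r r' M : ℕ} (hM : ∀ i < m, K i ∣ M) (h : r % M = r' % M) :
    LC K q C b m r = LC K q C b m r' := by
  unfold LC
  refine sum_congr rfl fun i hi => ?_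
  have : r % K i = r' % K i := by
    rw [← Nat.mod_mod_of_dvd r (hM i (mem_range.1 hi)), h,
      Nat.mod_mod_of_dvd r' (hM i (mem_range.1 hi))]
  rw [this]

/-- The packing, with its invariants: small jobs go to rounds `r` with `r % k₀ < k₀ / 2`, large
jobs to the other rounds. -/
theorem pack_aux {n k₀ : ℕ} (hC : 0 < C) (hk₀ : 2 ≤ k₀) (hK : ∀ i < n, 0 < K i)
    (hdvd : ∀ i j, i ≤ j → j < n → K i ∣ K j) (h0 : ∀ i < n, q i = 0 ∨ k₀ ∣ K i)
    (hD : ∀ m < n, 6 * ∑ i ∈ range m, q i * (K m / K i) ≤ K m * C) :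
    ∀ m ≤ n, ∃ b : ℕ → ℕ, (∀ i < m, b i < K i) ∧
      (∀ i < m, q i ≠ 0 → 2 * q i ≤ C → b i % k₀ < k₀ / 2) ∧
      (∀ i < m, C < 2 * q i → ¬ b i % k₀ < k₀ / 2) ∧
      (∀ r, LS K q C b m r ≤ C) ∧ (∀ r, LC K q C b m r ≤ 1) := by
  intro m
  induction m with
  | zero =>
    intro _
    exact ⟨fun _ => 0, by simp, by simp, by simp, fun r => by simp [LS], fun r => by simp [LC]⟩
  | succ m ih =>
    intro hm
    obtain ⟨b, hb, h1, h2, h3, h4⟩ := ih (by omega)
    have hKm : 0 < K m := hK m (by omega)
    have hdm : ∀ i < m, K i ∣ K m := fun i hi => hdvd i m hi.le (by omega)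
    -- the choice of the round
    have hex : ∃ r₀, r₀ < K m ∧ (q m ≠ 0 → 2 * q m ≤ C → r₀ % k₀ < k₀ / 2 ∧
        2 * LS K q C b m r₀ ≤ C) ∧ (C < 2 * q m → ¬ r₀ % k₀ < k₀ / 2 ∧ LC K q C b m r₀ = 0) := by
      rcases h0 m (by omega) with hq | ⟨c, hc⟩
      · exact ⟨0, hKm, fun h => absurd hq h, fun h => by omega⟩
      · have hc0 : 0 < c := Nat.pos_of_ne_zero (by rintro rfl; omega)
        have hsum := hD m (by omega)
        have hA := sum_mod_lt (k := k₀) (h := k₀ / 2) (Nat.div_le_self _ _) c
        rw [← hc] at hA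
        by_cases hs : 2 * q m ≤ C
        · by_contra hno
          push Not at hno
          have hbig : ∀ r ∈ range (K m), (if r % k₀ < k₀ / 2 then 1 else 0) * (C + 1) ≤
              2 * LS K q C b m r := by
            intro r hr
            split_ifs with hr'
            · rw [one_mul]
              by_contra hlt
              have h5 := hno r (mem_range.1 hr) (fun _ _ => ⟨hr', by omega⟩)
              omega
            · simp
          have h5 := sum_le_sum hbig
          rw [← sum_mul, ← mul_sum, hA] at h5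
          have h6 := sum_LS (q := q) (C := C) (M := K m) hb hdm
          have h7 : K m ≤ 3 * (c * (k₀ / 2)) := by
            have : k₀ ≤ 3 * (k₀ / 2) := by omega
            calc K m = k₀ * c := hc
              _ ≤ 3 * (k₀ / 2) * c := Nat.mul_le_mul_right c this
              _ = 3 * (c * (k₀ / 2)) := by ring
          have h8 : 3 * (c * (k₀ / 2) * (C + 1)) ≤ K m * C := by
            calc 3 * (c * (k₀ / 2) * (C + 1)) ≤ 3 * (2 * ∑ r ∈ range (K m), LS K q C b m r) :=
                  Nat.mul_le_mul_left _ h5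
              _ ≤ 6 * ∑ i ∈ range m, q i * (K m / K i) := by omega
              _ ≤ K m * C := hsum
          have h9 : K m * (C + 1) ≤ K m * C := by
            calc K m * (C + 1) ≤ 3 * (c * (k₀ / 2)) * (C + 1) := Nat.mul_le_mul_right _ h7
              _ = 3 * (c * (k₀ / 2) * (C + 1)) := by ring
              _ ≤ K m * C := h8
          nlinarith
        · by_contra hno
          push Not at hno hs
          have hbig : ∀ r ∈ range (K m), 1 ≤ LC K q C b m r + (if r % k₀ < k₀ / 2 then 1 else 0) := by
            intro r hr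
            by_contra hlt
            have h5 := hno r (mem_range.1 hr) (fun _ h => by omega)
            obtain ⟨_, h6⟩ := h5
            split_ifs at hlt with hr'
            · omega
            · exact h6 (by omega) (by omega)
          have h5 := sum_le_sum hbig
          rw [sum_add_distrib, hA, sum_const, card_range, smul_eq_mul, mul_one] at h5
          have h6 := sum_LC (q := q) (C := C) (M := K m) hb hdm
          have h7 : 2 * (c * (k₀ / 2)) ≤ K m := by
            calc 2 * (c * (k₀ / 2)) = (2 * (k₀ / 2)) * c := by ring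
              _ ≤ k₀ * c := Nat.mul_le_mul_right c (Nat.mul_div_le k₀ 2)
              _ = K m := hc.symm
          have h8 : 3 * (C * ∑ r ∈ range (K m), LC K q C b m r) ≤ K m * C := by
            calc 3 * (C * ∑ r ∈ range (K m), LC K q C b m r)
                ≤ 3 * (2 * ∑ i ∈ range m, q i * (K m / K i)) := Nat.mul_le_mul_left _ h6
              _ = 6 * ∑ i ∈ range m, q i * (K m / K i) := by ring
              _ ≤ K m * C := hsum
          have h9 : 3 * ∑ r ∈ range (K m), LC K q C b m r ≤ K m := by
            refine le_of_mul_le_mul_left ?_ hC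
            calc C * (3 * ∑ r ∈ range (K m), LC K q C b m r)
                = 3 * (C * ∑ r ∈ range (K m), LC K q C b m r) := by ring
              _ ≤ K m * C := h8
              _ = C * K m := by ring
          omega
    obtain ⟨r₀, hr₀, hr1, hr2⟩ := hex
    -- the new assignment
    have hbi : ∀ i < m, Function.update b m r₀ i = b i := fun i hi =>
      Function.update_of_ne (by omega) _ _
    have hbm : Function.update b m r₀ m = r₀ := Function.update_self _ _ _
    have hLS : ∀ r, LS K q C (Function.update b m r₀) (m + 1) r =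
        LS K q C b m r + (if r % K m = r₀ ∧ 2 * q m ≤ C then q m else 0) := by
      intro r
      unfold LS
      rw [sum_range_succ, hbm]
      congr 1
      exact sum_congr rfl fun i hi => by rw [hbi i (mem_range.1 hi)]
    have hLC : ∀ r, LC K q C (Function.update b m r₀) (m + 1) r =
        LC K q C b m r + (if r % K m = r₀ ∧ C < 2 * q m then 1 else 0) := by
      intro r
      unfold LC
      rw [sum_range_succ, hbm]
      congr 1
      exact sum_congr rfl fun i hi => by rw [hbi i (mem_range.1 hi)]
    refine ⟨Function.update b m r₀, ?_, ?_, ?_, ?_, ?_⟩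
    · intro i hi
      rcases Nat.lt_succ_iff_lt_or_eq.1 hi with h | rfl
      · rw [hbi i h]; exact hb i h
      · rw [hbm]; exact hr₀
    · intro i hi hq hs
      rcases Nat.lt_succ_iff_lt_or_eq.1 hi with h | rfl
      · rw [hbi i h]; exact h1 i h hq hs
      · rw [hbm]; exact (hr1 hq hs).1
    · intro i hi hs
      rcases Nat.lt_succ_iff_lt_or_eq.1 hi with h | rfl
      · rw [hbi i h]; exact h2 i h hs
      · rw [hbm]; exact (hr2 hs).1
    · intro r
      rw [hLS]
      split_ifs with h
      · obtain ⟨h5, h6⟩ := h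
        have h7 : LS K q C b m r = LS K q C b m r₀ :=
          LS_congr hdm (by rw [h5, Nat.mod_eq_of_lt hr₀])
        rw [h7]
        by_cases hq : q m = 0
        · rw [hq]; exact h3 r₀
        · have := (hr1 hq h6).2
          omega
      · exact h3 r
    · intro r
      rw [hLC]
      split_ifs with h
      · obtain ⟨h5, h6⟩ := h
        have h7 : LC K q C b m r = LC K q C b m r₀ :=
          LC_congr hdm (by rw [h5, Nat.mod_eq_of_lt hr₀])
        rw [h7, (hr2 h6).2]
      · exact h4 r

/-- The packing. -/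
theorem pack {n k₀ : ℕ} (hC : 0 < C) (hk₀ : 2 ≤ k₀) (hK : ∀ i < n, 0 < K i)
    (hdvd : ∀ i j, i ≤ j → j < n → K i ∣ K j) (h0 : ∀ i < n, q i = 0 ∨ k₀ ∣ K i)
    (hq : ∀ i < n, q i ≤ C)
    (hD : ∀ m < n, 6 * ∑ i ∈ range m, q i * (K m / K i) ≤ K m * C) :
    ∃ b : ℕ → ℕ, (∀ i < n, b i < K i) ∧
      ∀ r, ∑ i ∈ range n, (if r % K i = b i then q i else 0) ≤ C := by
  obtain ⟨b, hb, h1, h2, h3, h4⟩ := pack_aux hC hk₀ hK hdvd h0 hD n le_rfl
  refine ⟨b, hb, fun r => ?_⟩
  have hmod : ∀ i < n, q i ≠ 0 → r % K i = b i → b i % k₀ = r % k₀ := by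
    intro i hi hqi hr
    have hk : k₀ ∣ K i := (h0 i hi).resolve_left hqi
    rw [← hr, Nat.mod_mod_of_dvd _ hk]
  by_cases hA : r % k₀ < k₀ / 2
  · refine le_trans (le_of_eq ?_) (h3 r)
    unfold LS
    refine sum_congr rfl fun i hi => ?_
    have hi := mem_range.1 hi
    by_cases hr : r % K i = b i
    · by_cases hs : 2 * q i ≤ C
      · simp [hr, hs]
      · exfalso
        have hqi : q i ≠ 0 := by omega
        exact h2 i hi (by omega) (by rw [hmod i hi hqi hr]; exact hA)
    · simp [hr]
  · -- all jobs in this round are large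
    have hle : ∀ i ∈ range n, (if r % K i = b i then q i else 0) ≤
        C * (if r % K i = b i ∧ C < 2 * q i then 1 else 0) := by
      intro i hi
      have hi := mem_range.1 hi
      by_cases hr : r % K i = b i
      · by_cases hs : C < 2 * q i
        · simp [hr, hs, hq i hi]
        · by_cases hqi : q i = 0
          · simp [hqi]
          · exfalso
            have := h1 i hi hqi (by omega)
            rw [hmod i hi hqi hr] at this
            exact hA this
      · simp [hr]
    calc ∑ i ∈ range n, (if r % K i = b i then q i else 0)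
        ≤ ∑ i ∈ range n, C * (if r % K i = b i ∧ C < 2 * q i then 1 else 0) := sum_le_sum hle
      _ = C * LC K q C b n r := by rw [← mul_sum]; rfl
      _ ≤ C * 1 := Nat.mul_le_mul_left _ (h4 r)
      _ = C := mul_one _

end Pack

end Pool.Agent.V11230.DP
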