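import Pool.Agent.V11230.PinPack

/-!
# The schedule of an assignment of the jobs to rounds
-/

namespace Pool.Agent.V11230.DP

open Finset

section Sched

variable (n : ℕ) (K b p : ℕ → ℕ)

/-- The pairs (round, job), coded by numbers, such that the job is processed in the round. -/
def En (m : ℕ) : Prop := (m / n) % K (m % n) = b (m % n)

instance : DecidablePred (En n K b) := fun m => inferInstanceAs (Decidable (_ = _))

/-- The total duration of a round. -/
def total (r : ℕ) : ℕ := ∑ i ∈ range n, (if r % K i = b i then p i else 0)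

/-- The duration of a coded pair (zero if the job is not processed in the round). -/
def ind (m : ℕ) : ℕ := if En n K b m then p (m % n) else 0

variable {n K b p}

theorem En_mul_add {r i : ℕ} (hi : i < n) : En n K b (r * n + i) ↔ r % K i = b i := by
  have h1 : (r * n + i) / n = r := by
    rw [Nat.add_comm, Nat.add_mul_div_right _ _ (by omega), Nat.div_eq_of_lt hi, Nat.zero_add]
  have h2 : (r * n + i) % n = i := by
    rw [Nat.add_comm, Nat.add_mul_mod_self_right, Nat.mod_eq_of_lt hi]
  unfold En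
  rw [h1, h2]

theorem ind_mul_add {r i : ℕ} (hi : i < n) :
    ind n K b p (r * n + i) = if r % K i = b i then p i else 0 := by
  have h2 : (r * n + i) % n = i := by
    rw [Nat.add_comm, Nat.add_mul_mod_self_right, Nat.mod_eq_of_lt hi]
  unfold ind
  rw [h2]
  simp only [En_mul_add hi]

/-- Partial sums. -/
theorem psum (r k : ℕ) : ∑ m ∈ range ((r + k) * n), ind n K b p m =
    ∑ m ∈ range (r * n), ind n K b p m + ∑ s ∈ range k, total n K b p (r + s) := by
  induction k with
  | zero => simp
  | succ k ih =>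
    have e : (r + (k + 1)) * n = (r + k) * n + n := by ring
    rw [e, sum_range_add, ih, sum_range_succ, Nat.add_assoc]
    congr 2
    unfold total
    exact sum_congr rfl fun i hi => ind_mul_add (mem_range.1 hi)

theorem window {j r F : ℕ} (hj : j < n) (hdvd : ∀ i ≤ j, K i ∣ K j)
    (hF : ∀ r, total n K b p r ≤ F) :
    ∑ m ∈ Ioc (r * n + j) ((r + K j) * n + j), ind n K b p m ≤ K j * F := by
  have h1 : ∀ r, ∑ m ∈ range (r * n + j + 1), ind n K b p m =
      ∑ m ∈ range (r * n), ind n K b p m + ∑ i ∈ range (j + 1), ind n K b p (r * n + i) := by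
    intro r
    rw [Nat.add_assoc, sum_range_add]
  have h2 : ∑ i ∈ range (j + 1), ind n K b p ((r + K j) * n + i) =
      ∑ i ∈ range (j + 1), ind n K b p (r * n + i) := by
    refine sum_congr rfl fun i hi => ?_
    have hi := mem_range.1 hi
    obtain ⟨c, hc⟩ := hdvd i (by omega)
    rw [ind_mul_add (by omega), ind_mul_add (by omega), hc, Nat.add_mul_mod_self_left]
  have h3 : ∑ s ∈ range (K j), total n K b p (r + s) ≤ K j * F := by
    calc _ ≤ ∑ s ∈ range (K j), F := sum_le_sum fun s _ => hF _
      _ = K j * F := by rw [sum_const, card_range, smul_eq_mul]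
  have hle : r * n + j + 1 ≤ (r + K j) * n + j + 1 := by
    have : r * n ≤ (r + K j) * n := Nat.mul_le_mul_right _ (by omega)
    omega
  have h4 := sum_range_add_sum_Ico (ind n K b p) hle
  have h5 : Ico (r * n + j + 1) ((r + K j) * n + j + 1) =
      Ioc (r * n + j) ((r + K j) * n + j) := by
    ext x; simp only [mem_Ico, mem_Ioc]; omega
  rw [h5, h1, h1, h2, psum] at h4
  omega

theorem En_infinite (hn : 0 < n) (hK : 0 < K 0) (hb : b 0 < K 0) : {m | En n K b m}.Infinite := by
  rw [Set.infinite_iff_exists_gt]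
  intro a
  refine ⟨(b 0 + (a + 1) * K 0) * n + 0, ?_, ?_⟩
  · change En n K b _
    rw [En_mul_add hn, Nat.add_mul_mod_self_right, Nat.mod_eq_of_lt hb]
  · have h1 : (a + 1) * 1 ≤ (a + 1) * K 0 := Nat.mul_le_mul_left _ hK
    have h2 : (b 0 + (a + 1) * K 0) * 1 ≤ (b 0 + (a + 1) * K 0) * n := Nat.mul_le_mul_left _ hn
    omega

/-- The sequence of jobs. -/
noncomputable def sched (n : ℕ) (K b : ℕ → ℕ) (t : ℕ) : ℕ := Nat.nth (En n K b) t % n

theorem sched_infinite (hn : 0 < n) (hK : ∀ i < n, 0 < K i) (hb : ∀ i < n, b i < K i)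
    {j : ℕ} (hj : j < n) (N : ℕ) : ∃ t, N ≤ t ∧ sched n K b t = j := by
  have hinf := En_infinite hn (hK 0 hn) (hb 0 hn)
  set a := Nat.nth (En n K b) N with ha
  set m := (b j + (a + 1) * K j) * n + j with hm
  have hEm : En n K b m := by
    rw [hm, En_mul_add hj, Nat.add_mul_mod_self_right, Nat.mod_eq_of_lt (hb j hj)]
  have hnth := Nat.nth_count hEm
  refine ⟨Nat.count (En n K b) m, ?_, ?_⟩
  · have hlt : Nat.nth (En n K b) N < Nat.nth (En n K b) (Nat.count (En n K b) m) := by
      rw [hnth, ← ha]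
      have h1 : (a + 1) * 1 ≤ (a + 1) * K j := Nat.mul_le_mul_left _ (hK j hj)
      have h2 : (b j + (a + 1) * K j) * 1 ≤ (b j + (a + 1) * K j) * n :=
        Nat.mul_le_mul_left _ hn
      omega
    exact ((Nat.nth_strictMono hinf).lt_iff_lt.1 hlt).le
  · unfold sched
    rw [hnth, hm, Nat.add_comm, Nat.add_mul_mod_self_right, Nat.mod_eq_of_lt hj]

theorem sum_sched (hinf : {m | En n K b m}.Infinite) (s t : ℕ) :
    ∑ x ∈ Ioc s t, p (sched n K b x) =
      ∑ m ∈ Ioc (Nat.nth (En n K b) s) (Nat.nth (En n K b) t), ind n K b p m := by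
  have hmono := Nat.nth_strictMono hinf
  unfold ind
  rw [← sum_filter]
  have h1 : (Ioc (Nat.nth (En n K b) s) (Nat.nth (En n K b) t)).filter (fun m => En n K b m) =
      (Ioc s t).image (Nat.nth (En n K b)) := by
    ext m
    simp only [mem_filter, mem_Ioc, mem_image]
    constructor
    · rintro ⟨⟨h1, h2⟩, h3⟩
      have h4 := Nat.nth_count h3
      refine ⟨Nat.count (En n K b) m, ⟨?_, ?_⟩, h4⟩
      · rw [← h4] at h1; exact hmono.lt_iff_lt.1 h1
      · rw [← h4] at h2; exact hmono.le_iff_le.1 h2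
    · rintro ⟨x, ⟨h1, h2⟩, rfl⟩
      exact ⟨⟨hmono h1, hmono.monotone h2⟩, Nat.nth_mem_of_infinite hinf x⟩
  rw [h1, sum_image (fun x _ y _ h => hmono.injective h)]
  rfl

/-- The gaps of the schedule. -/
theorem sched_gap (hn : 0 < n) (hK : ∀ i < n, 0 < K i) (hb : ∀ i < n, b i < K i)
    {j F : ℕ} (hj : j < n) (hdvd : ∀ i ≤ j, K i ∣ K j) (hF : ∀ r, total n K b p r ≤ F)
    {s t : ℕ} (hs : sched n K b s = j) (hcons : ∀ x, s < x → x < t →
      sched n K b x ≠ j) : ∑ x ∈ Ioc s t, p (sched n K b x) ≤ K j * F := by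
  have hinf := En_infinite hn (hK 0 hn) (hb 0 hn)
  have hmono := Nat.nth_strictMono hinf
  rw [sum_sched hinf]
  set m := Nat.nth (En n K b) s with hm
  have hEm : En n K b m := Nat.nth_mem_of_infinite hinf s
  have hmj : m % n = j := hs
  have hmd : m = (m / n) * n + j := by
    have := Nat.div_add_mod m n
    rw [hmj] at this
    rw [Nat.mul_comm]; exact this.symm
  set r := m / n with hr
  have hrj : r % K j = b j := by
    rw [hmd, En_mul_add hj] at hEm; exact hEm
  set m' := (r + K j) * n + j with hm'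
  have hEm' : En n K b m' := by
    rw [hm', En_mul_add hj, Nat.add_mod_right, hrj]
  have hnth := Nat.nth_count hEm'
  have hlt : m < m' := by
    have h1 : (r + K j) * n = r * n + K j * n := by ring
    have h2 : 0 < K j * n := Nat.mul_pos (hK j hj) hn
    omega
  have hc1 : s < Nat.count (En n K b) m' := by
    refine hmono.lt_iff_lt.1 ?_
    rw [hnth]; exact hlt
  have hc2 : t ≤ Nat.count (En n K b) m' := by
    by_contra hlt2
    refine hcons _ hc1 (by omega) ?_
    unfold sched
    rw [hnth, hm', Nat.add_comm, Nat.add_mul_mod_self_right, Nat.mod_eq_of_lt hj]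
  have hle : Nat.nth (En n K b) t ≤ m' := by
    have := hmono.monotone hc2
    rwa [hnth] at this
  calc ∑ x ∈ Ioc m (Nat.nth (En n K b) t), ind n K b p x
      ≤ ∑ x ∈ Ioc m m', ind n K b p x :=
        sum_le_sum_of_subset (Ioc_subset_Ioc_right hle)
    _ ≤ K j * F := by
        rw [hm', hmd]
        exact window hj hdvd hF

end Sched

end Pool.Agent.V11230.DP
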