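import Pool.Agent.V11230.VC
import Pool.Agent.Y644.QS.PolyBase
import Pool.Agent.H601R2.PP

/-!
# The pooling problem with one quality: definitions
-/

set_option autoImplicit false

namespace Pool.Agent.NPC.V11230.Pooling

open Pool.Agent.NPC

/-- An arc: its tail and its head, and its cost and its capacity. -/
abbrev Arc := (ℕ × ℕ) × (ℤ × ℕ)

/-- An instance of the pooling problem with one quality and integral data: the list of the inputs
(quality value and capacity), the list of the pools (capacity), the list of the outputs (quality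
bound and capacity); the arcs from inputs to pools and the arcs from pools to outputs. The inputs,
pools and outputs are numbered from zero in the order of the lists. -/
abbrev Inst := ((List (ℤ × ℕ) × List ℕ) × List (ℤ × ℕ)) × (List Arc × List Arc)

namespace Inst

/-- the inputs -/
def inp (I : Inst) : List (ℤ × ℕ) := I.1.1.1
/-- the pools -/
def pool (I : Inst) : List ℕ := I.1.1.2
/-- the outputs -/
def outp (I : Inst) : List (ℤ × ℕ) := I.1.2
/-- the arcs from inputs to pools -/
def AI (I : Inst) : List Arc := I.2.1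
/-- the arcs from pools to outputs -/
def AJ (I : Inst) : List Arc := I.2.2

/-- the quality value of input `i` -/
def lam (I : Inst) (i : ℕ) : ℤ := (I.inp.getD i (0, 0)).1
/-- the capacity of input `i` -/
def capI (I : Inst) (i : ℕ) : ℕ := (I.inp.getD i (0, 0)).2
/-- the capacity of pool `l` -/
def capL (I : Inst) (l : ℕ) : ℕ := I.pool.getD l 0
/-- the quality bound of output `j` -/
def mu (I : Inst) (j : ℕ) : ℤ := (I.outp.getD j (0, 0)).1
/-- the capacity of output `j` -/
def capJ (I : Inst) (j : ℕ) : ℕ := (I.outp.getD j (0, 0)).2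

end Inst

/-- the arcs with tail `v` -/
def arcsOut (A : List Arc) (v : ℕ) : List Arc := A.filter (fun a => decide (a.1.1 = v))
/-- the arcs with head `v` -/
def arcsIn (A : List Arc) (v : ℕ) : List Arc := A.filter (fun a => decide (a.1.2 = v))

/-- The arcs join inputs with pools and pools with outputs, and there are no parallel arcs. -/
def Valid (I : Inst) : Prop :=
  (∀ a ∈ I.AI, a.1.1 < I.inp.length ∧ a.1.2 < I.pool.length) ∧
  (∀ a ∈ I.AJ, a.1.1 < I.pool.length ∧ a.1.2 < I.outp.length) ∧
  (I.AI.map Prod.fst).Nodup ∧ (I.AJ.map Prod.fst).Nodup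

/-- All inputs and pools have out-degree at most two. -/
def OutDegTwo (I : Inst) : Prop :=
  (∀ i < I.inp.length, (arcsOut I.AI i).length ≤ 2) ∧
  (∀ l < I.pool.length, (arcsOut I.AJ l).length ≤ 2)

/-- All pools and outputs have in-degree at most two. -/
def InDegTwo (I : Inst) : Prop :=
  (∀ l < I.pool.length, (arcsIn I.AI l).length ≤ 2) ∧
  (∀ j < I.outp.length, (arcsIn I.AJ j).length ≤ 2)

/-- the number of vertices plus the number of arcs -/
def graphSize (I : Inst) : ℕ :=
  I.inp.length + I.pool.length + I.outp.length + I.AI.length + I.AJ.length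

/-- All numbers of the instance and of the threshold are, in absolute value, at most the number of
vertices plus the number of arcs. -/
def SmallData (I : Inst) (B : ℤ) : Prop :=
  |B| ≤ graphSize I ∧
  (∀ v ∈ I.inp, |v.1| ≤ graphSize I ∧ v.2 ≤ graphSize I) ∧
  (∀ c ∈ I.pool, c ≤ graphSize I) ∧
  (∀ v ∈ I.outp, |v.1| ≤ graphSize I ∧ v.2 ≤ graphSize I) ∧
  (∀ a ∈ I.AI, |a.2.1| ≤ graphSize I ∧ a.2.2 ≤ graphSize I) ∧
  (∀ a ∈ I.AJ, |a.2.1| ≤ graphSize I ∧ a.2.2 ≤ graphSize I)

/-- `x` (flows on the arcs from inputs to pools), `y` (flows on the arcs from pools to outputs) and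
`p` (qualities of the pools) form a feasible solution. -/
structure Feasible (I : Inst) (x y : ℕ × ℕ → ℝ) (p : ℕ → ℝ) : Prop where
  /-- the flows `x` are nonnegative and respect the capacities of the arcs -/
  x_arc : ∀ a ∈ I.AI, 0 ≤ x a.1 ∧ x a.1 ≤ (a.2.2 : ℝ)
  /-- the flows `y` are nonnegative and respect the capacities of the arcs -/
  y_arc : ∀ a ∈ I.AJ, 0 ≤ y a.1 ∧ y a.1 ≤ (a.2.2 : ℝ)
  /-- flow conservation at the pools -/
  cons : ∀ l < I.pool.length,
    ((arcsIn I.AI l).map fun a => x a.1).sum = ((arcsOut I.AJ l).map fun a => y a.1).sum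
  /-- capacities of the inputs -/
  cap_inp : ∀ i < I.inp.length, ((arcsOut I.AI i).map fun a => x a.1).sum ≤ (I.capI i : ℝ)
  /-- capacities of the pools -/
  cap_pool : ∀ l < I.pool.length, ((arcsIn I.AI l).map fun a => x a.1).sum ≤ (I.capL l : ℝ)
  /-- capacities of the outputs -/
  cap_outp : ∀ j < I.outp.length, ((arcsIn I.AJ j).map fun a => y a.1).sum ≤ (I.capJ j : ℝ)
  /-- blending at the pools -/
  blend_pool : ∀ l < I.pool.length,
    ((arcsIn I.AI l).map fun a => (I.lam a.1.1 : ℝ) * x a.1).sum =
      p l * ((arcsOut I.AJ l).map fun a => y a.1).sum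
  /-- blending at the outputs -/
  blend_outp : ∀ j < I.outp.length,
    ((arcsIn I.AJ j).map fun a => p a.1.1 * y a.1).sum ≤
      (I.mu j : ℝ) * ((arcsIn I.AJ j).map fun a => y a.1).sum

/-- the cost of a solution -/
noncomputable def cost (I : Inst) (x y : ℕ × ℕ → ℝ) : ℝ :=
  (I.AI.map fun a => (a.2.1 : ℝ) * x a.1).sum + (I.AJ.map fun a => (a.2.1 : ℝ) * y a.1).sum

/-- There is a feasible solution with cost at most `B`. -/
def Sol (I : Inst) (B : ℤ) : Prop :=
  ∃ (x y : ℕ × ℕ → ℝ) (p : ℕ → ℝ), Feasible I x y p ∧ cost I x y ≤ (B : ℝ)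

/-- The decision version of the pooling problem with one quality and out-degrees of inputs and pools
at most two; all numbers are bounded by the size of the graph. -/
def PoolingOutTwo (Q : Inst × ℤ) : Prop :=
  Valid Q.1 ∧ OutDegTwo Q.1 ∧ SmallData Q.1 Q.2 ∧ Sol Q.1 Q.2

/-- The decision version of the pooling problem with one quality and in-degrees of pools and outputs
at most two; all numbers are bounded by the size of the graph. -/
def PoolingInTwo (Q : Inst × ℤ) : Prop :=
  Valid Q.1 ∧ InDegTwo Q.1 ∧ SmallData Q.1 Q.2 ∧ Sol Q.1 Q.2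

/-! ### sums -/

theorem sum_filter {α : Type} (L : List α) (P : α → Bool) (f : α → ℝ) :
    ((L.filter P).map f).sum = (L.map (fun a => if P a then f a else 0)).sum := by
  induction L with
  | nil => rfl
  | cons a L ih =>
    rw [List.filter_cons]
    by_cases h : P a
    · rw [if_pos h, List.map_cons, List.sum_cons, ih, List.map_cons, List.sum_cons, if_pos h]
    · rw [if_neg h, ih, List.map_cons, List.sum_cons, if_neg h, zero_add]

theorem sum_range (n : ℕ) (f : ℕ → ℝ) : ((List.range n).map f).sum = ∑ i ∈ Finset.range n, f i := by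
  induction n with
  | zero => rfl
  | succ n ih => rw [List.range_succ, List.map_append, List.sum_append, ih, Finset.sum_range_succ]; simp

theorem length_filter_le {α : Type} (L : List α) (P : α → Bool) :
    (L.filter P).length = (L.map (fun a => if P a then 1 else 0)).sum := by
  induction L with
  | nil => rfl
  | cons a L ih =>
    rw [List.filter_cons]
    by_cases h : P a
    · rw [if_pos h, List.length_cons, ih, List.map_cons, List.sum_cons, if_pos h]; omega
    · rw [if_neg h, ih, List.map_cons, List.sum_cons, if_neg h, zero_add]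

theorem sum_rangeN (n : ℕ) (f : ℕ → ℕ) : ((List.range n).map f).sum = ∑ i ∈ Finset.range n, f i := by
  induction n with
  | zero => rfl
  | succ n ih => rw [List.range_succ, List.map_append, List.sum_append, ih, Finset.sum_range_succ]; simp

/-- A set of vertices that leaves few edges uncovered gives a vertex cover. -/
theorem vc_of {n k : ℕ} {E : List (ℕ × ℕ)} (hE : ∀ e ∈ E, e.1 < e.2 ∧ e.2 < n)
    (C : Finset ℕ) (hC : ∀ v ∈ C, v < n)
    (hk : C.card + ((Finset.range E.length).filter
      (fun e => (E.getD e (0, 0)).1 ∉ C ∧ (E.getD e (0, 0)).2 ∉ C)).card ≤ k) :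
    VC ((List.range n, E), k) := by
  set U := (Finset.range E.length).filter
      (fun e => (E.getD e (0, 0)).1 ∉ C ∧ (E.getD e (0, 0)).2 ∉ C) with hU
  have hmem : ∀ e < E.length, E.getD e (0, 0) ∈ E := by
    intro e he
    rw [List.getD_eq_getElem _ _ he]
    exact List.getElem_mem _
  refine ⟨C ∪ U.image (fun e => (E.getD e (0, 0)).1), ?_, ?_, ?_⟩
  · intro v hv
    simp only [List.length_range]
    rcases Finset.mem_union.1 hv with hv | hv
    · exact hC v hv
    · obtain ⟨e, he, rfl⟩ := Finset.mem_image.1 hv
      have he' := Finset.mem_range.1 (Finset.mem_filter.1 he).1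
      have := hE _ (hmem e he')
      omega
  · refine (Finset.card_union_le _ _).trans ?_
    have := Finset.card_image_le (s := U) (f := fun e => (E.getD e (0, 0)).1)
    simp only
    omega
  · intro e he
    obtain ⟨i, hi, rfl⟩ := List.getElem_of_mem he
    by_cases h1 : (E[i]).1 ∈ C
    · exact Or.inl (Finset.mem_union_left _ h1)
    by_cases h2 : (E[i]).2 ∈ C
    · exact Or.inr (Finset.mem_union_left _ h2)
    refine Or.inl (Finset.mem_union_right _ (Finset.mem_image.2 ⟨i, ?_, ?_⟩))
    · rw [hU, Finset.mem_filter, List.getD_eq_getElem _ _ hi]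
      exact ⟨Finset.mem_range.2 hi, h1, h2⟩
    · rw [List.getD_eq_getElem _ _ hi]

end Pool.Agent.NPC.V11230.Pooling
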