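import Pool.Agent.V11230.PoolDefs

/-!
# The pooling problem with one quality and out-degrees at most two is strongly NP-hard
-/

set_option autoImplicit false

namespace Pool.Agent.NPC.V11230.Pooling

open Pool.Agent.NPC

/-- first end of edge number `e` -/
def e1 (E : List (ℕ × ℕ)) (e : ℕ) : ℕ := (E.getD e (0, 0)).1
/-- second end of edge number `e` -/
def e2 (E : List (ℕ × ℕ)) (e : ℕ) : ℕ := (E.getD e (0, 0)).2

theorem ends_lt {n : ℕ} {E : List (ℕ × ℕ)} (hE : ∀ e ∈ E, e.1 < e.2 ∧ e.2 < n) {e : ℕ}
    (he : e < E.length) : e1 E e < e2 E e ∧ e2 E e < n := by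
  unfold e1 e2
  rw [List.getD_eq_getElem _ _ he]
  exact hE _ (List.getElem_mem _)

namespace OutTwo

/-- arcs from inputs to pools -/
def aI (n : ℕ) (E : List (ℕ × ℕ)) : List Arc :=
  (List.range n).map (fun u => ((u, u), (0, 1))) ++
  ((List.range E.length).map (fun e => ((n + e, e1 E e), (-2, 1))) ++
   (List.range E.length).map (fun e => ((n + e, e2 E e), (-2, 1))))

/-- arcs from pools to outputs -/
def aJ (n m : ℕ) : List Arc :=
  (List.range n).map (fun u => ((u, u), (-1, 1))) ++
  (List.range n).map (fun u => ((u, n + u), (0, m)))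

/-- The instance: pool `u` for every vertex `u`, with a good input `u`, a strict output `u` and a
lenient output `n + u`; a bad input `n + e` for every edge. -/
def inst (n : ℕ) (E : List (ℕ × ℕ)) : Inst :=
  ((((List.range n).map (fun _ => (0, 1)) ++ (List.range E.length).map (fun _ => (1, 1)),
    (List.range n).map (fun _ => E.length + 1)),
    (List.range n).map (fun _ => (0, 1)) ++ (List.range n).map (fun _ => (1, E.length))),
   (aI n E, aJ n E.length))

variable {n : ℕ} {E : List (ℕ × ℕ)}

theorem inp_length : (inst n E).inp.length = n + E.length := by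
  simp [inst, Inst.inp]

theorem pool_length : (inst n E).pool.length = n := by
  simp [inst, Inst.pool]

theorem outp_length : (inst n E).outp.length = n + n := by
  simp [inst, Inst.outp]

theorem AI_eq : (inst n E).AI = aI n E := rfl

theorem AJ_eq : (inst n E).AJ = aJ n E.length := rfl

theorem lam_lt {i : ℕ} (h : i < n) : (inst n E).lam i = 0 := by
  unfold Inst.lam inst Inst.inp
  rw [List.getD_append _ _ _ _ (by simpa using h), List.getD_eq_getElem _ _ (by simpa using h)]
  simp

theorem lam_ge {e : ℕ} (h : e < E.length) : (inst n E).lam (n + e) = 1 := by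
  unfold Inst.lam inst Inst.inp
  rw [List.getD_append_right _ _ _ _ (by simp), List.getD_eq_getElem _ _ (by simpa using h)]
  simp

theorem capI_lt {i : ℕ} (h : i < n + E.length) : (inst n E).capI i = 1 := by
  unfold Inst.capI inst Inst.inp
  rw [List.getD_eq_getElem _ _ (by simpa using h), List.getElem_append]
  split_ifs <;> simp

theorem capL_eq {l : ℕ} (h : l < n) : (inst n E).capL l = E.length + 1 := by
  unfold Inst.capL inst Inst.pool
  rw [List.getD_eq_getElem _ _ (by simpa using h)]
  simp

theorem mu_lt {j : ℕ} (h : j < n) : (inst n E).mu j = 0 := by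
  unfold Inst.mu inst Inst.outp
  rw [List.getD_append _ _ _ _ (by simpa using h), List.getD_eq_getElem _ _ (by simpa using h)]
  simp

theorem mu_ge {j : ℕ} (h : j < n) : (inst n E).mu (n + j) = 1 := by
  unfold Inst.mu inst Inst.outp
  rw [List.getD_append_right _ _ _ _ (by simp), List.getD_eq_getElem _ _ (by simpa using h)]
  simp

theorem capJ_lt {j : ℕ} (h : j < n) : (inst n E).capJ j = 1 := by
  unfold Inst.capJ inst Inst.outp
  rw [List.getD_append _ _ _ _ (by simpa using h), List.getD_eq_getElem _ _ (by simpa using h)]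
  simp

theorem capJ_ge {j : ℕ} (h : j < n) : (inst n E).capJ (n + j) = E.length := by
  unfold Inst.capJ inst Inst.outp
  rw [List.getD_append_right _ _ _ _ (by simp), List.getD_eq_getElem _ _ (by simpa using h)]
  simp

theorem sumAI (F : Arc → ℝ) : ((aI n E).map F).sum =
    ∑ u ∈ Finset.range n, F ((u, u), (0, 1)) +
    (∑ e ∈ Finset.range E.length, F ((n + e, e1 E e), (-2, 1)) +
     ∑ e ∈ Finset.range E.length, F ((n + e, e2 E e), (-2, 1))) := by
  unfold aI
  rw [List.map_append, List.sum_append, List.map_append, List.sum_append, List.map_map,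
    List.map_map, List.map_map, sum_range, sum_range, sum_range]
  rfl

theorem sumAJ (m : ℕ) (F : Arc → ℝ) : ((aJ n m).map F).sum =
    ∑ u ∈ Finset.range n, F ((u, u), (-1, 1)) + ∑ u ∈ Finset.range n, F ((u, n + u), (0, m)) := by
  unfold aJ
  rw [List.map_append, List.sum_append, List.map_map, List.map_map, sum_range, sum_range]
  rfl

theorem sumAIN (F : Arc → ℕ) : ((aI n E).map F).sum =
    ∑ u ∈ Finset.range n, F ((u, u), (0, 1)) +
    (∑ e ∈ Finset.range E.length, F ((n + e, e1 E e), (-2, 1)) +
     ∑ e ∈ Finset.range E.length, F ((n + e, e2 E e), (-2, 1))) := by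
  unfold aI
  rw [List.map_append, List.sum_append, List.map_append, List.sum_append, List.map_map,
    List.map_map, List.map_map, sum_rangeN, sum_rangeN, sum_rangeN]
  rfl

theorem sumAJN (m : ℕ) (F : Arc → ℕ) : ((aJ n m).map F).sum =
    ∑ u ∈ Finset.range n, F ((u, u), (-1, 1)) + ∑ u ∈ Finset.range n, F ((u, n + u), (0, m)) := by
  unfold aJ
  rw [List.map_append, List.sum_append, List.map_map, List.map_map, sum_rangeN, sum_rangeN]
  rfl

/-! ### sums over the arcs at a vertex -/

theorem in_pool (G : Arc → ℝ) {l : ℕ} (hl : l < n) : ((arcsIn (aI n E) l).map G).sum =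
    G ((l, l), (0, 1)) +
    (∑ e ∈ Finset.range E.length, (if e1 E e = l then G ((n + e, e1 E e), (-2, 1)) else 0) +
     ∑ e ∈ Finset.range E.length, (if e2 E e = l then G ((n + e, e2 E e), (-2, 1)) else 0)) := by
  unfold arcsIn
  rw [sum_filter, sumAI]
  simp only [decide_eq_true_eq]
  rw [Finset.sum_ite_eq' (Finset.range n) l (fun u => G ((u, u), (0, 1))),
    if_pos (Finset.mem_range.2 hl)]

theorem out_good (G : Arc → ℝ) {i : ℕ} (hi : i < n) : ((arcsOut (aI n E) i).map G).sum =
    G ((i, i), (0, 1)) := by
  unfold arcsOut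
  rw [sum_filter, sumAI]
  simp only [decide_eq_true_eq]
  rw [Finset.sum_ite_eq' (Finset.range n) i (fun u => G ((u, u), (0, 1))),
    if_pos (Finset.mem_range.2 hi), Finset.sum_eq_zero, Finset.sum_eq_zero]
  · ring
  · intro e _
    rw [if_neg (by omega)]
  · intro e _
    rw [if_neg (by omega)]

theorem out_bad (G : Arc → ℝ) {e : ℕ} (he : e < E.length) :
    ((arcsOut (aI n E) (n + e)).map G).sum =
    G ((n + e, e1 E e), (-2, 1)) + G ((n + e, e2 E e), (-2, 1)) := by
  unfold arcsOut
  rw [sum_filter, sumAI]
  simp only [decide_eq_true_eq, Nat.add_left_cancel_iff]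
  rw [Finset.sum_ite_eq' (Finset.range E.length) e (fun e => G ((n + e, e1 E e), (-2, 1))),
    Finset.sum_ite_eq' (Finset.range E.length) e (fun e => G ((n + e, e2 E e), (-2, 1))),
    if_pos (Finset.mem_range.2 he), if_pos (Finset.mem_range.2 he), Finset.sum_eq_zero]
  · ring
  · intro u hu
    have := Finset.mem_range.1 hu
    rw [if_neg (by omega)]

theorem out_pool (m : ℕ) (G : Arc → ℝ) {l : ℕ} (hl : l < n) : ((arcsOut (aJ n m) l).map G).sum =
    G ((l, l), (-1, 1)) + G ((l, n + l), (0, m)) := by
  unfold arcsOut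
  rw [sum_filter, sumAJ]
  simp only [decide_eq_true_eq]
  rw [Finset.sum_ite_eq' (Finset.range n) l (fun u => G ((u, u), (-1, 1))),
    Finset.sum_ite_eq' (Finset.range n) l (fun u => G ((u, n + u), (0, m))),
    if_pos (Finset.mem_range.2 hl), if_pos (Finset.mem_range.2 hl)]

theorem in_strict (m : ℕ) (G : Arc → ℝ) {j : ℕ} (hj : j < n) :
    ((arcsIn (aJ n m) j).map G).sum = G ((j, j), (-1, 1)) := by
  unfold arcsIn
  rw [sum_filter, sumAJ]
  simp only [decide_eq_true_eq]
  rw [Finset.sum_ite_eq' (Finset.range n) j (fun u => G ((u, u), (-1, 1))),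
    if_pos (Finset.mem_range.2 hj), Finset.sum_eq_zero, add_zero]
  intro e _
  rw [if_neg (by omega)]

theorem in_len (m : ℕ) (G : Arc → ℝ) {j : ℕ} (hj : j < n) :
    ((arcsIn (aJ n m) (n + j)).map G).sum = G ((j, n + j), (0, m)) := by
  unfold arcsIn
  rw [sum_filter, sumAJ]
  simp only [decide_eq_true_eq, Nat.add_left_cancel_iff]
  rw [Finset.sum_ite_eq' (Finset.range n) j (fun u => G ((u, n + u), (0, m))),
    if_pos (Finset.mem_range.2 hj), Finset.sum_eq_zero, zero_add]
  intro u hu
  have := Finset.mem_range.1 hu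
  rw [if_neg (by omega)]

/-! ### the instance is valid -/

theorem mem_aI {a : Arc} : a ∈ aI n E ↔ (∃ u < n, ((u, u), (0, 1)) = a) ∨
    (∃ e < E.length, ((n + e, e1 E e), (-2, 1)) = a) ∨
    (∃ e < E.length, ((n + e, e2 E e), (-2, 1)) = a) := by
  simp [aI, List.mem_range]

theorem mem_aJ {m : ℕ} {a : Arc} : a ∈ aJ n m ↔ (∃ u < n, ((u, u), (-1, 1)) = a) ∨
    (∃ u < n, ((u, n + u), (0, m)) = a) := by
  simp [aJ, List.mem_range]

theorem valid (hE : ∀ e ∈ E, e.1 < e.2 ∧ e.2 < n) : Valid (inst n E) := by
  refine ⟨?_, ?_, ?_, ?_⟩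
  · intro a ha
    rw [AI_eq, mem_aI] at ha
    rw [inp_length, pool_length]
    rcases ha with ⟨u, hu, rfl⟩ | ⟨e, he, rfl⟩ | ⟨e, he, rfl⟩
    · simp only; omega
    · have := ends_lt hE he
      simp only; omega
    · have := ends_lt hE he
      simp only; omega
  · intro a ha
    rw [AJ_eq, mem_aJ] at ha
    rw [pool_length, outp_length]
    rcases ha with ⟨u, hu, rfl⟩ | ⟨u, hu, rfl⟩
    · simp only; omega
    · simp only; omega
  · rw [AI_eq]
    unfold aI
    rw [List.map_append, List.map_append, List.map_map, List.map_map, List.map_map]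
    refine List.nodup_append.2 ⟨?_, List.nodup_append.2 ⟨?_, ?_, ?_⟩, ?_⟩
    · refine List.nodup_range.map ?_
      intro a b h
      simpa using h
    · refine List.nodup_range.map ?_
      intro a b h
      simp only [Function.comp, Prod.mk.injEq] at h
      omega
    · refine List.nodup_range.map ?_
      intro a b h
      simp only [Function.comp, Prod.mk.injEq] at h
      omega
    · intro a ha b hb hab
      simp only [List.mem_map, List.mem_range, Function.comp] at ha hb
      obtain ⟨e, he, rfl⟩ := ha
      obtain ⟨e', he', rfl⟩ := hb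
      simp only [Prod.mk.injEq] at hab
      obtain rfl : e = e' := by omega
      have := ends_lt hE he
      omega
    · intro a ha b hb hab
      simp only [List.mem_append, List.mem_map, List.mem_range, Function.comp] at ha hb
      obtain ⟨u, hu, rfl⟩ := ha
      rcases hb with ⟨e', he', rfl⟩ | ⟨e', he', rfl⟩ <;>
        simp only [Prod.mk.injEq] at hab <;> omega
  · rw [AJ_eq]
    unfold aJ
    rw [List.map_append, List.map_map, List.map_map]
    refine List.nodup_append.2 ⟨?_, ?_, ?_⟩
    · refine List.nodup_range.map ?_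
      intro a b h
      simpa using h
    · refine List.nodup_range.map ?_
      intro a b h
      simpa using h
    · intro a ha b hb hab
      simp only [List.mem_map, List.mem_range, Function.comp] at ha hb
      obtain ⟨u, hu, rfl⟩ := ha
      obtain ⟨v, hv, rfl⟩ := hb
      simp only [Prod.mk.injEq] at hab
      omega

theorem outDegTwo : OutDegTwo (inst n E) := by
  refine ⟨?_, ?_⟩
  · intro i hi
    rw [inp_length] at hi
    rw [AI_eq]
    unfold arcsOut
    rw [length_filter_le, sumAIN]
    simp only [decide_eq_true_eq]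
    rcases Nat.lt_or_ge i n with h | h
    · rw [Finset.sum_ite_eq', if_pos (Finset.mem_range.2 h), Finset.sum_eq_zero]
      · omega
      · intro e _
        rw [if_neg (by omega)]
    · obtain ⟨e, rfl⟩ := Nat.exists_eq_add_of_le h
      simp only [Nat.add_left_cancel_iff]
      rw [Finset.sum_ite_eq', if_neg (by rw [Finset.mem_range]; omega), Finset.sum_ite_eq',
        if_pos (Finset.mem_range.2 (by omega))]
  · intro l hl
    rw [pool_length] at hl
    rw [AJ_eq]
    unfold arcsOut
    rw [length_filter_le, sumAJN]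
    simp only [decide_eq_true_eq]
    rw [Finset.sum_ite_eq', if_pos (Finset.mem_range.2 hl)]

theorem graphSize_eq : graphSize (inst n E) = 7 * n + 3 * E.length := by
  unfold graphSize
  rw [inp_length, pool_length, outp_length, AI_eq, AJ_eq]
  simp only [aI, aJ, List.length_append, List.length_map, List.length_range]
  omega

theorem smallData {k : ℕ} (hk : k ≤ n) (hn : 1 ≤ n) :
    SmallData (inst n E) (-(2 * (E.length : ℤ) + n - k)) := by
  have hg := @graphSize_eq n E
  refine ⟨?_, ?_, ?_, ?_, ?_, ?_⟩
  · rw [hg, abs_neg, abs_of_nonneg (by omega)]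
    push_cast
    omega
  · intro v hv
    simp only [inst, Inst.inp, List.mem_append, List.mem_map] at hv
    rw [hg]
    rcases hv with ⟨_, _, rfl⟩ | ⟨_, _, rfl⟩
    · simp; omega
    · simp; omega
  · intro v hv
    simp only [inst, Inst.pool, List.mem_map] at hv
    rw [hg]
    obtain ⟨_, _, rfl⟩ := hv
    omega
  · intro v hv
    simp only [inst, Inst.outp, List.mem_append, List.mem_map] at hv
    rw [hg]
    rcases hv with ⟨_, _, rfl⟩ | ⟨_, _, rfl⟩
    · simp; omega
    · simp; omega
  · intro a ha
    rw [AI_eq, mem_aI] at ha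
    rw [hg]
    rcases ha with ⟨u, hu, rfl⟩ | ⟨e, he, rfl⟩ | ⟨e, he, rfl⟩
    · simp; omega
    · simp; omega
    · simp; omega
  · intro a ha
    rw [AJ_eq, mem_aJ] at ha
    rw [hg]
    rcases ha with ⟨u, hu, rfl⟩ | ⟨u, hu, rfl⟩
    · simp; omega
    · simp; omega

/-! ### from a vertex cover to a solution -/

theorem sol_of_vc {k : ℕ} (hE : ∀ e ∈ E, e.1 < e.2 ∧ e.2 < n)
    (h : VC ((List.range n, E), k)) : Sol (inst n E) (-(2 * (E.length : ℤ) + n - k)) := by
  obtain ⟨K, hK, hKk, hcov⟩ := h
  simp only [List.length_range] at hK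
  simp only at hKk
  set t : ℕ → ℕ := fun e => if e1 E e ∈ K then e1 E e else e2 E e with ht
  have htK : ∀ e < E.length, t e ∈ K := by
    intro e he
    simp only [ht]
    split_ifs with h1
    · exact h1
    · have hm : E.getD e (0, 0) ∈ E := by
        rw [List.getD_eq_getElem _ _ he]; exact List.getElem_mem _
      exact (hcov _ hm).resolve_left h1
  -- number of edges assigned to a vertex
  set D : ℕ → ℝ := fun u => ∑ e ∈ Finset.range E.length, (if t e = u then (1 : ℝ) else 0) with hD
  have hD0 : ∀ u, 0 ≤ D u := fun u => Finset.sum_nonneg fun e _ => by split_ifs <;> norm_num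
  have hDm : ∀ u, D u ≤ E.length := by
    intro u
    refine (Finset.sum_le_sum (g := fun _ => (1 : ℝ)) fun e _ => ?_).trans ?_
    · split_ifs <;> norm_num
    · simp
  have hDn : ∀ u, u ∉ K → D u = 0 := by
    intro u hu
    refine Finset.sum_eq_zero fun e he => ?_
    rw [if_neg]
    rintro rfl
    exact hu (htK e (Finset.mem_range.1 he))
  set x : ℕ × ℕ → ℝ := fun q => if q.1 < n then (if q.1 ∈ K then 0 else 1) else
    (if t (q.1 - n) = q.2 then 1 else 0) with hx
  set y : ℕ × ℕ → ℝ := fun q => if q.2 < n then (if q.1 ∈ K then 0 else 1) else D q.1 with hy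
  set p : ℕ → ℝ := fun u => if u ∈ K then 1 else 0 with hp
  have hxg : ∀ u < n, x (u, u) = if u ∈ K then 0 else 1 := fun u hu => by
    simp only [hx, if_pos hu]
  have hxb : ∀ e l, x (n + e, l) = if t e = l then 1 else 0 := fun e l => by
    simp only [hx]
    rw [if_neg (by omega), Nat.add_sub_cancel_left]
  have hys : ∀ u < n, y (u, u) = if u ∈ K then 0 else 1 := fun u hu => by
    simp only [hy, if_pos hu]
  have hyl : ∀ u, y (u, n + u) = D u := fun u => by
    simp only [hy]
    rw [if_neg (by omega)]
  -- the two ends of an edge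
  have hends : ∀ e < E.length, ∀ l, ((if e1 E e = l then (if t e = e1 E e then (1 : ℝ) else 0)
      else 0) + (if e2 E e = l then (if t e = e2 E e then (1 : ℝ) else 0) else 0)) =
      if t e = l then 1 else 0 := by
    intro e he l
    have h12 := (ends_lt hE he).1
    have hte : t e = e1 E e ∨ t e = e2 E e := by
      simp only [ht]
      split_ifs <;> simp
    rcases hte with h' | h'
    · rw [h', if_pos rfl, if_neg (by omega : ¬ (e1 E e = e2 E e))]
      simp
    · rw [h', if_pos rfl, if_neg (by omega : ¬ (e2 E e = e1 E e))]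
      simp
  have hbad : ∀ l, (∑ e ∈ Finset.range E.length, (if e1 E e = l then x (n + e, e1 E e) else 0) +
     ∑ e ∈ Finset.range E.length, (if e2 E e = l then x (n + e, e2 E e) else 0)) = D l := by
    intro l
    rw [← Finset.sum_add_distrib]
    refine Finset.sum_congr rfl fun e he => ?_
    rw [hxb, hxb]
    exact hends e (Finset.mem_range.1 he) l
  refine ⟨x, y, p, ?_, ?_⟩
  · constructor
    · intro a ha
      rw [AI_eq, mem_aI] at ha
      rcases ha with ⟨u, hu, rfl⟩ | ⟨e, he, rfl⟩ | ⟨e, he, rfl⟩
      · simp only [hxg u hu]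
        split_ifs <;> norm_num
      · simp only [hxb]
        split_ifs <;> norm_num
      · simp only [hxb]
        split_ifs <;> norm_num
    · intro a ha
      rw [AJ_eq, mem_aJ] at ha
      rcases ha with ⟨u, hu, rfl⟩ | ⟨u, hu, rfl⟩
      · simp only [hys u hu]
        split_ifs <;> norm_num
      · simp only [hyl]
        exact ⟨hD0 u, hDm u⟩
    · intro l hl
      rw [pool_length] at hl
      rw [AI_eq, AJ_eq, in_pool _ hl, out_pool _ _ hl]
      simp only
      rw [hbad, hxg l hl, hys l hl, hyl]
    · intro i hi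
      rw [inp_length] at hi
      rw [AI_eq]
      rcases Nat.lt_or_ge i n with h | h
      · rw [out_good _ h, capI_lt hi]
        simp only
        rw [hxg i h]
        split_ifs <;> norm_num
      · obtain ⟨e, rfl⟩ := Nat.exists_eq_add_of_le h
        have he : e < E.length := by omega
        rw [out_bad _ he, capI_lt hi]
        simp only
        rw [hxb, hxb]
        have h12 := (ends_lt hE he).1
        by_cases h' : t e = e1 E e
        · rw [if_pos h', if_neg (by omega)]; norm_num
        · rw [if_neg h']
          split_ifs <;> norm_num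
    · intro l hl
      rw [pool_length] at hl
      rw [AI_eq, in_pool _ hl, capL_eq hl]
      simp only
      rw [hbad, hxg l hl]
      have := hDm l
      push_cast
      split_ifs
      · linarith
      · linarith
    · intro j hj
      rw [outp_length] at hj
      rw [AJ_eq]
      rcases Nat.lt_or_ge j n with h | h
      · rw [in_strict _ _ h, capJ_lt h]
        simp only
        rw [hys j h]
        split_ifs <;> norm_num
      · obtain ⟨u, rfl⟩ := Nat.exists_eq_add_of_le h
        have hu : u < n := by omega
        rw [in_len _ _ hu, capJ_ge hu]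
        simp only
        rw [hyl]
        exact hDm u
    · intro l hl
      rw [pool_length] at hl
      rw [AI_eq, AJ_eq, in_pool _ hl, out_pool _ _ hl]
      simp only
      rw [lam_lt hl, hys l hl, hyl]
      have e : (∑ e ∈ Finset.range E.length, (if e1 E e = l then
            ((inst n E).lam (n + e) : ℝ) * x (n + e, e1 E e) else 0) +
          ∑ e ∈ Finset.range E.length, (if e2 E e = l then
            ((inst n E).lam (n + e) : ℝ) * x (n + e, e2 E e) else 0)) = D l := by
        rw [← hbad l]
        congr 1
        · refine Finset.sum_congr rfl fun e he => ?_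
          rw [lam_ge (Finset.mem_range.1 he)]; simp
        · refine Finset.sum_congr rfl fun e he => ?_
          rw [lam_ge (Finset.mem_range.1 he)]; simp
      rw [e]
      simp only [hp]
      by_cases hK' : l ∈ K
      · rw [if_pos hK', if_pos hK']; simp
      · rw [if_neg hK', if_neg hK', hDn l hK']; simp
    · intro j hj
      rw [outp_length] at hj
      rw [AJ_eq]
      rcases Nat.lt_or_ge j n with h | h
      · rw [in_strict _ _ h, in_strict _ _ h, mu_lt h]
        simp only
        rw [hys j h]
        simp only [hp]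
        split_ifs <;> simp
      · obtain ⟨u, rfl⟩ := Nat.exists_eq_add_of_le h
        have hu : u < n := by omega
        rw [in_len _ _ hu, in_len _ _ hu, mu_ge hu]
        simp only
        rw [hyl]
        simp only [hp]
        have := hD0 u
        split_ifs
        · simp
        · simpa using this
  · unfold cost
    rw [AI_eq, AJ_eq, sumAI, sumAJ]
    simp only
    have c1 : (∑ e ∈ Finset.range E.length, ((-2 : ℤ) : ℝ) * x (n + e, e1 E e) +
        ∑ e ∈ Finset.range E.length, ((-2 : ℤ) : ℝ) * x (n + e, e2 E e)) = -2 * E.length := by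
      rw [← Finset.sum_add_distrib]
      rw [Finset.sum_congr rfl (g := fun _ => (-2 : ℝ))]
      · simp; ring
      · intro e he
        rw [hxb, hxb]
        have he' := Finset.mem_range.1 he
        have h12 := (ends_lt hE he').1
        have hte : t e = e1 E e ∨ t e = e2 E e := by
          simp only [ht]
          split_ifs <;> simp
        rcases hte with h' | h'
        · rw [h', if_pos rfl, if_neg (by omega)]; norm_num
        · rw [h', if_pos rfl, if_neg (by omega)]; norm_num
    have c2 : ∑ u ∈ Finset.range n, ((-1 : ℤ) : ℝ) * y (u, u) ≤ -(n : ℝ) + k := by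
      have e : ∑ u ∈ Finset.range n, ((-1 : ℤ) : ℝ) * y (u, u) =
          ∑ u ∈ Finset.range n, ((-1 : ℝ) + if u ∈ K then 1 else 0) := by
        refine Finset.sum_congr rfl fun u hu => ?_
        rw [hys u (Finset.mem_range.1 hu)]
        split_ifs <;> norm_num
      rw [e, Finset.sum_add_distrib, ← Finset.sum_filter]
      have e2 : ((Finset.range n).filter (fun u => u ∈ K)).card ≤ k := by
        refine (Finset.card_le_card ?_).trans hKk
        intro u hu
        exact (Finset.mem_filter.1 hu).2
      have e3 : (((Finset.range n).filter (fun u => u ∈ K)).card : ℝ) ≤ k := by exact_mod_cast e2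
      simp only [Finset.sum_const, Finset.card_range, nsmul_eq_mul, mul_neg, mul_one]
      linarith
    rw [c1]
    simp only [Int.cast_zero, zero_mul, Finset.sum_const_zero]
    push_cast at c2 ⊢
    linarith

/-! ### from a solution to a vertex cover -/

theorem vc_of_sol {k : ℕ} (hE : ∀ e ∈ E, e.1 < e.2 ∧ e.2 < n)
    (h : Sol (inst n E) (-(2 * (E.length : ℤ) + n - k))) : VC ((List.range n, E), k) := by
  obtain ⟨x, y, p, hF, hc⟩ := h
  -- the inflow from bad inputs
  have hx1 : ∀ e < E.length, 0 ≤ x (n + e, e1 E e) := fun e he =>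
    (hF.x_arc ((n + e, e1 E e), (-2, 1)) (by
      rw [AI_eq, mem_aI]; exact Or.inr (Or.inl ⟨e, he, rfl⟩))).1
  have hx2 : ∀ e < E.length, 0 ≤ x (n + e, e2 E e) := fun e he =>
    (hF.x_arc ((n + e, e2 E e), (-2, 1)) (by
      rw [AI_eq, mem_aI]; exact Or.inr (Or.inr ⟨e, he, rfl⟩))).1
  have hys : ∀ u < n, 0 ≤ y (u, u) ∧ y (u, u) ≤ 1 := fun u hu => by
    have := hF.y_arc ((u, u), (-1, 1)) (by rw [AJ_eq, mem_aJ]; exact Or.inl ⟨u, hu, rfl⟩)
    simpa using this
  have hyl : ∀ u < n, 0 ≤ y (u, n + u) := fun u hu =>
    (hF.y_arc ((u, n + u), (0, E.length)) (by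
      rw [AJ_eq, mem_aJ]; exact Or.inr ⟨u, hu, rfl⟩)).1
  set bad : ℕ → ℝ := fun l => (∑ e ∈ Finset.range E.length,
      (if e1 E e = l then x (n + e, e1 E e) else 0) +
     ∑ e ∈ Finset.range E.length, (if e2 E e = l then x (n + e, e2 E e) else 0)) with hbad
  have hblend : ∀ l < n, bad l = p l * (y (l, l) + y (l, n + l)) := by
    intro l hl
    have := hF.blend_pool l (by rw [pool_length]; exact hl)
    rw [AI_eq, AJ_eq, in_pool _ hl, out_pool _ _ hl] at this
    simp only at this
    rw [lam_lt hl] at this
    rw [← this]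
    simp only [hbad, Int.cast_zero, zero_mul, zero_add]
    congr 1
    · refine Finset.sum_congr rfl fun e he => ?_
      rw [lam_ge (Finset.mem_range.1 he)]; simp
    · refine Finset.sum_congr rfl fun e he => ?_
      rw [lam_ge (Finset.mem_range.1 he)]; simp
  have hstrict : ∀ l < n, p l * y (l, l) ≤ 0 := by
    intro l hl
    have := hF.blend_outp l (by rw [outp_length]; omega)
    rw [AJ_eq, in_strict _ _ hl, in_strict _ _ hl, mu_lt hl] at this
    simpa using this
  have hkey : ∀ l < n, 0 < bad l → y (l, l) = 0 := by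
    intro l hl hb
    by_contra hne
    have hpos : 0 < y (l, l) := lt_of_le_of_ne (hys l hl).1 (Ne.symm hne)
    have hp : p l ≤ 0 := by
      by_contra hcon
      push Not at hcon
      have := mul_pos hcon hpos
      linarith [hstrict l hl]
    have := hblend l hl
    have h2 : p l * (y (l, l) + y (l, n + l)) ≤ 0 :=
      mul_nonpos_of_nonpos_of_nonneg hp (by linarith [hyl l hl])
    linarith
  have hb1 : ∀ e < E.length, x (n + e, e1 E e) ≤ bad (e1 E e) := by
    intro e he
    have s1 := Finset.single_le_sum (f := fun e' => if e1 E e' = e1 E e then x (n + e', e1 E e')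
      else 0) (s := Finset.range E.length) (fun e' he' => by
        have := hx1 e' (Finset.mem_range.1 he')
        split_ifs
        · exact this
        · exact le_rfl) (Finset.mem_range.2 he)
    have s2 : 0 ≤ ∑ e' ∈ Finset.range E.length,
        (if e2 E e' = e1 E e then x (n + e', e2 E e') else 0) :=
      Finset.sum_nonneg fun e' he' => by
        have := hx2 e' (Finset.mem_range.1 he')
        split_ifs
        · exact this
        · exact le_rfl
    simp only [if_true] at s1
    simp only [hbad]
    linarith
  have hb2 : ∀ e < E.length, x (n + e, e2 E e) ≤ bad (e2 E e) := by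
    intro e he
    have s1 := Finset.single_le_sum (f := fun e' => if e2 E e' = e2 E e then x (n + e', e2 E e')
      else 0) (s := Finset.range E.length) (fun e' he' => by
        have := hx2 e' (Finset.mem_range.1 he')
        split_ifs
        · exact this
        · exact le_rfl) (Finset.mem_range.2 he)
    have s2 : 0 ≤ ∑ e' ∈ Finset.range E.length,
        (if e1 E e' = e2 E e then x (n + e', e1 E e') else 0) :=
      Finset.sum_nonneg fun e' he' => by
        have := hx1 e' (Finset.mem_range.1 he')
        split_ifs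
        · exact this
        · exact le_rfl
    simp only [if_true] at s1
    simp only [hbad]
    linarith
  have hcap : ∀ e < E.length, x (n + e, e1 E e) + x (n + e, e2 E e) ≤ 1 := by
    intro e he
    have := hF.cap_inp (n + e) (by rw [inp_length]; omega)
    rw [AI_eq, out_bad _ he, capI_lt (by omega)] at this
    simpa using this
  classical
  set C : Finset ℕ := (Finset.range n).filter (fun u => 0 < bad u) with hC
  refine vc_of hE C (fun v hv => Finset.mem_range.1 (Finset.mem_filter.1 hv).1) ?_
  change C.card + ((Finset.range E.length).filter (fun e => e1 E e ∉ C ∧ e2 E e ∉ C)).card ≤ k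
  set U := (Finset.range E.length).filter (fun e => e1 E e ∉ C ∧ e2 E e ∉ C) with hU
  unfold cost at hc
  rw [AI_eq, AJ_eq, sumAI, sumAJ] at hc
  simp only at hc
  have c1 : ∑ e ∈ Finset.range E.length, (x (n + e, e1 E e) + x (n + e, e2 E e)) ≤
      ∑ e ∈ Finset.range E.length, ((1 : ℝ) - if e1 E e ∉ C ∧ e2 E e ∉ C then 1 else 0) := by
    refine Finset.sum_le_sum fun e he => ?_
    have he' := Finset.mem_range.1 he
    split_ifs with h'
    · have h12 := ends_lt hE he'
      have f1 : x (n + e, e1 E e) ≤ 0 := by
        refine (hb1 e he').trans ?_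
        by_contra hcon
        push Not at hcon
        exact h'.1 (Finset.mem_filter.2 ⟨Finset.mem_range.2 (by omega), hcon⟩)
      have f2 : x (n + e, e2 E e) ≤ 0 := by
        refine (hb2 e he').trans ?_
        by_contra hcon
        push Not at hcon
        exact h'.2 (Finset.mem_filter.2 ⟨Finset.mem_range.2 (by omega), hcon⟩)
      linarith
    · linarith [hcap e he']
  have c2 : ∑ u ∈ Finset.range n, y (u, u) ≤
      ∑ u ∈ Finset.range n, ((1 : ℝ) - if 0 < bad u then 1 else 0) := by
    refine Finset.sum_le_sum fun u hu => ?_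
    have hu' := Finset.mem_range.1 hu
    split_ifs with h'
    · rw [hkey u hu' h']; norm_num
    · linarith [(hys u hu').2]
  rw [Finset.sum_sub_distrib, ← Finset.sum_filter] at c1 c2
  rw [← hU] at c1
  rw [← hC] at c2
  simp only [Finset.sum_const, Finset.card_range, nsmul_eq_mul, mul_one] at c1 c2
  rw [← Finset.mul_sum, ← Finset.mul_sum, ← Finset.mul_sum, ← Finset.mul_sum,
    ← Finset.mul_sum] at hc
  rw [Finset.sum_add_distrib] at c1
  have hfin : (C.card : ℝ) + U.card ≤ k := by
    have hU0 : (0 : ℝ) ≤ U.card := Nat.cast_nonneg _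
    push_cast at hc
    linarith
  exact_mod_cast hfin

theorem iff {k : ℕ} (hE : ∀ e ∈ E, e.1 < e.2 ∧ e.2 < n) (hk : k ≤ n) (hn : 1 ≤ n) :
    VC ((List.range n, E), k) ↔ PoolingOutTwo (inst n E, -(2 * (E.length : ℤ) + n - k)) :=
  ⟨fun h => ⟨valid hE, outDegTwo, smallData hk hn, sol_of_vc hE h⟩,
    fun h => vc_of_sol hE h.2.2.2⟩

/-! ### polynomial time -/

/-- the reduction from vertex cover -/
def red (I : (List ℕ × List (ℕ × ℕ)) × ℕ) : Inst × ℤ :=
  (inst I.1.1.length I.1.2, -(2 * (I.1.2.length : ℤ) + I.1.1.length - I.2))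

theorem poly_red : Poly red := by
  have hr : Poly (fun I : (List ℕ × List (ℕ × ℕ)) × ℕ => List.range I.1.1.length) :=
    (UPoly.length (Poly.fst (Poly.fst Poly.id))).range
  have hm : Poly (fun I : (List ℕ × List (ℕ × ℕ)) × ℕ => List.range I.1.2.length) :=
    (UPoly.length (Poly.snd (Poly.fst Poly.id))).range
  have he1 : Poly (fun x : ((List ℕ × List (ℕ × ℕ)) × ℕ) × ℕ => e1 x.1.1.2 x.2) := by
    unfold e1
    exact Poly.fst (Poly.getD (by fun_prop) (by fun_prop) (Poly.const (0, 0)))
  have he2 : Poly (fun x : ((List ℕ × List (ℕ × ℕ)) × ℕ) × ℕ => e2 x.1.1.2 x.2) := by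
    unfold e2
    exact Poly.snd (Poly.getD (by fun_prop) (by fun_prop) (Poly.const (0, 0)))
  unfold red inst aI aJ
  fun_prop

theorem hardPr : HardPr (fun _ => True) PoolingOutTwo := by
  refine hardPr_VC.trans poly_red (fun _ _ => trivial) ?_
  rintro ⟨⟨V, E⟩, k⟩ ⟨hV, -, hE, hk, hn⟩
  simp only at hV hE hk hn
  unfold red
  simp only
  rw [← iff hE hk hn, ← hV]

end OutTwo

end Pool.Agent.NPC.V11230.Pooling
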