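import Mathlib

/-!
# Optimal-colouring reconfiguration: definitions and the gadget graph
-/

set_option autoImplicit false

namespace Pool.Agent.NPC.V11230.RC

/-- `f` is a `k`-colouring of `G`: the colours are `1, …, k`, adjacent vertices have different
colours. -/
def IsCol {V : Type} (G : SimpleGraph V) (k : ℕ) (f : V → ℕ) : Prop :=
  (∀ v, 1 ≤ f v ∧ f v ≤ k) ∧ ∀ v w, G.Adj v w → f v ≠ f w

/-- `g` arises from `f` by recolouring a single vertex; both are `k`-colourings. -/
def Step {V : Type} (G : SimpleGraph V) (k : ℕ) (f g : V → ℕ) : Prop :=
  IsCol G k f ∧ IsCol G k g ∧ ∃ v, f v ≠ g v ∧ ∀ w, w ≠ v → f w = g w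

/-- `f` is `k`-reachable from `f₀`. -/
def Reachable {V : Type} (G : SimpleGraph V) (k : ℕ) (f₀ f : V → ℕ) : Prop :=
  IsCol G k f₀ ∧ Relation.ReflTransGen (Step G k) f₀ f

/-- `χ(G, k, f₀)`: the least number of colours used by a colouring that is `k`-reachable from
`f₀` (infinite if there is none). -/
noncomputable def optCol {V : Type} (G : SimpleGraph V) (k : ℕ) (f₀ : V → ℕ) : ℕ∞ :=
  sInf {m | ∃ f, Reachable G k f₀ f ∧ m = (Set.range f).encard}

/-- `G` is perfect. -/
def Perfect {V : Type} (G : SimpleGraph V) : Prop :=
  ∀ s : Set V, (G.induce s).chromaticNumber = ((G.induce s).cliqueNum : ℕ∞)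

theorem perfect_of_bipartite {V : Type} [Finite V] {G : SimpleGraph V} (h : G.IsBipartite) :
    Perfect G := by
  intro s
  have hb : (G.induce s).IsBipartite := by
    obtain ⟨c⟩ := h
    exact ⟨c.comp (SimpleGraph.Embedding.induce s).toHom⟩
  rcases isEmpty_or_nonempty s with he | he
  · rw [SimpleGraph.chromaticNumber_eq_zero_of_isEmpty]
    obtain ⟨t, ht⟩ := (G.induce s).exists_isNClique_cliqueNum
    have : t = ∅ := Finset.eq_empty_of_isEmpty t
    rw [← ht.card_eq, this]
    simp
  · by_cases hbot : G.induce s = ⊥
    · have h1 : (G.induce s).chromaticNumber = 1 := by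
        rw [hbot]; exact SimpleGraph.chromaticNumber_bot
      have h2 : (G.induce s).cliqueNum = 1 := by
        apply le_antisymm
        · obtain ⟨t, ht⟩ := (G.induce s).exists_isNClique_cliqueNum
          rw [← ht.card_eq]
          rw [Finset.card_le_one]
          intro a ha b hb
          by_contra hab
          have := ht.isClique ha hb hab
          rw [hbot] at this
          exact this
        · obtain ⟨a⟩ := he
          have hc : (G.induce s).IsClique (({a} : Finset s) : Set s) := by simp
          have := hc.card_le_cliqueNum
          simpa using this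
      rw [h1, h2]
      rfl
    · have h1 : (G.induce s).chromaticNumber = 2 :=
        SimpleGraph.chromaticNumber_eq_two_iff.2 ⟨hb, hbot⟩
      have h2 : (G.induce s).cliqueNum = 2 := by
        apply le_antisymm
        · obtain ⟨t, ht⟩ := (G.induce s).exists_isNClique_cliqueNum
          rw [← ht.card_eq]
          obtain ⟨c⟩ := hb
          exact ht.isClique.card_le_of_coloring c |>.trans (by simp)
        · obtain ⟨a, b, hab⟩ : ∃ a b, (G.induce s).Adj a b := by
            by_contra hh
            push Not at hh
            apply hbot
            ext a b
            simp only [SimpleGraph.bot_adj, iff_false]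
            exact hh a b
          classical
          have hc : (G.induce s).IsClique (({a, b} : Finset s) : Set s) := by
            rw [Finset.coe_pair, SimpleGraph.isClique_pair]
            exact fun _ => hab
          have := hc.card_le_cliqueNum
          rwa [Finset.card_pair hab.ne] at this
      rw [h1, h2]
      rfl

/-- Two colourings that differ only on an independent set. -/
theorem reach_indep {V : Type} [Finite V] {G : SimpleGraph V} {k : ℕ} {S : Set V}
    (hS : ∀ v ∈ S, ∀ w ∈ S, ¬ G.Adj v w) : ∀ (n : ℕ) (f g : V → ℕ), IsCol G k f → IsCol G k g →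
      (∀ v, v ∉ S → f v = g v) → {v | f v ≠ g v}.ncard = n →
        Relation.ReflTransGen (Step G k) f g := by
  classical
  intro n
  induction n with
  | zero =>
    intro f g _ _ _ hn
    have : {v | f v ≠ g v} = ∅ := (Set.ncard_eq_zero (Set.toFinite _)).1 hn
    have h : f = g := by
      funext v
      by_contra hv
      have h2 : v ∈ ({v | f v ≠ g v} : Set V) := hv
      rw [this] at h2
      exact h2
    rw [h]
  | succ n ih =>
    intro f g hf hg hfg hn
    have hne : {v | f v ≠ g v}.Nonempty := by
      rw [← Set.ncard_pos (Set.toFinite _)]
      omega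
    obtain ⟨v, hv⟩ := hne
    have hv' : f v ≠ g v := hv
    have hvS : v ∈ S := by
      by_contra h
      exact hv' (hfg v h)
    have hw : ∀ w, G.Adj v w → f w = g w := fun w hvw =>
      hfg w (fun hwS => hS v hvS w hwS hvw)
    have hf' : IsCol G k (Function.update f v (g v)) := by
      refine ⟨fun w => ?_, fun w w' hww => ?_⟩
      · by_cases h : w = v
        · subst h; rw [Function.update_self]; exact hg.1 w
        · rw [Function.update_of_ne h]; exact hf.1 w
      · by_cases h : w = v
        · subst h
          rw [Function.update_self, Function.update_of_ne (fun h => hww.ne h.symm), hw w' hww]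
          exact hg.2 w w' hww
        · by_cases h' : w' = v
          · subst h'
            rw [Function.update_self, Function.update_of_ne h, hw w hww.symm]
            exact hg.2 w w' hww
          · rw [Function.update_of_ne h, Function.update_of_ne h']
            exact hf.2 w w' hww
    refine Relation.ReflTransGen.head (b := Function.update f v (g v)) ⟨hf, hf', v, ?_, ?_⟩ ?_
    · rw [Function.update_self]; exact hv'
    · intro w hw; rw [Function.update_of_ne hw]
    · apply ih _ _ hf' hg
      · intro w hw
        by_cases h : w = v
        · subst h; rw [Function.update_self]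
        · rw [Function.update_of_ne h]; exact hfg w hw
      · have : {w | Function.update f v (g v) w ≠ g w} = {w | f w ≠ g w} \ {v} := by
          ext w
          by_cases h : w = v
          · subst h; simp
          · simp [Function.update_of_ne h, h]
        rw [this, Set.ncard_sdiff_singleton_of_mem hv, hn]
        rfl

end Pool.Agent.NPC.V11230.RC
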