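import Pool.Agent.V11230.Recol
import Pool.Agent.NPC.Sat2

/-!
# Optimal-colouring reconfiguration: the gadget graph
-/

set_option autoImplicit false

namespace Pool.Agent.NPC.V11230.RC

open Pool.Agent.NPC

/-- A clause with three literals. -/
abbrev Cl : Type := Lit ℕ × Lit ℕ × Lit ℕ

/-- Labels of the vertices: a type and four numbers. -/
abbrev Lab : Type := ℕ × ℕ × ℕ × ℕ × ℕ

/-- Adjacency (to be symmetrised). -/
def adjL (a b : Lab) : Bool :=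
  (decide (a.1 = 0) && decide (b.1 = 1) && !decide (a.2.1 = b.2.1)) ||
  (decide (a.1 = 0) && decide (b.1 = 2) && !decide (a.2.1 = 8) && !decide (a.2.1 = 9)) ||
  (decide (a.1 = 0) && decide (b.1 = 3) && decide (5 ≤ a.2.1)) ||
  (decide (a.1 = 0) && decide (b.1 = 4) && !decide (a.2.1 = 1) && !decide (a.2.1 = 5) &&
    !decide (a.2.1 = 6) && !decide (a.2.1 = 7)) ||
  (decide (a.1 = 5) && decide (b.1 = 1) && !decide (b.2.1 = 2 + a.2.2.1) &&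
    !decide (b.2.1 = a.2.2.2.2)) ||
  (decide (a.1 = 6) && decide (b.1 = 1) && !decide (b.2.1 = 5 + a.2.2.1) &&
    !decide (b.2.1 = a.2.2.2.2)) ||
  ((decide (a.1 = 5) || decide (a.1 = 6)) && decide (b.1 = 2) && decide (a.2.2.2.1 = b.2.1)) ||
  (decide (a.1 = 5) && decide (b.1 = 3) && decide (a.2.1 = b.2.1)) ||
  (decide (a.1 = 5) && decide (b.1 = 4)) ||
  (decide (a.1 = 6) && decide (b.1 = 4) && decide (a.2.1 = b.2.1)) ||
  (decide (a.1 = 6) && decide (b.1 = 3))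

/-- The label of a literal vertex. -/
def lit (t C l : ℕ) (x : Lit ℕ) : Lab := (t, C, l, x.2, if x.1 then 9 else 8)

/-- The labels. -/
def labs (φ : List Cl) : List Lab :=
  (List.range 10).map (fun i => ((0, i + 1, 0, 0, 0) : Lab)) ++
  ((List.range 9).map (fun i => ((1, i + 2, 0, 0, 0) : Lab)) ++
  ((List.range (3 * φ.length)).map (fun x => ((2, x, 0, 0, 0) : Lab)) ++
  ((List.range φ.length).map (fun C => ((3, C, 0, 0, 0) : Lab)) ++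
  ((List.range φ.length).map (fun C => ((4, C, 0, 0, 0) : Lab)) ++
  φ.zipIdx.flatMap (fun p => [lit 5 p.2 0 p.1.1, lit 5 p.2 1 p.1.2.1, lit 5 p.2 2 p.1.2.2,
    lit 6 p.2 0 p.1.1, lit 6 p.2 1 p.1.2.1, lit 6 p.2 2 p.1.2.2])))))

/-- The `l`-th literal of a clause. -/
def litOf (c : Cl) (l : ℕ) : Lit ℕ := if l = 0 then c.1 else if l = 1 then c.2.1 else c.2.2

theorem mem_labs {φ : List Cl} {a : Lab} : a ∈ labs φ ↔
    (∃ i, 1 ≤ i ∧ i ≤ 10 ∧ a = (0, i, 0, 0, 0)) ∨ (∃ i, 2 ≤ i ∧ i ≤ 10 ∧ a = (1, i, 0, 0, 0)) ∨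
    (∃ x, x < 3 * φ.length ∧ a = (2, x, 0, 0, 0)) ∨ (∃ C, C < φ.length ∧ a = (3, C, 0, 0, 0)) ∨
    (∃ C, C < φ.length ∧ a = (4, C, 0, 0, 0)) ∨
    (∃ (t C l : ℕ) (h : C < φ.length), (t = 5 ∨ t = 6) ∧ l < 3 ∧ a = lit t C l (litOf φ[C] l)) := by
  unfold labs
  simp only [List.mem_append, List.mem_map, List.mem_range, List.mem_flatMap]
  refine or_congr ?_ (or_congr ?_ (or_congr ?_ (or_congr ?_ (or_congr ?_ ?_))))
  · constructor
    · rintro ⟨i, hi, rfl⟩; exact ⟨i + 1, by omega, by omega, rfl⟩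
    · rintro ⟨i, h1, h2, rfl⟩; exact ⟨i - 1, by omega, by rw [Nat.sub_add_cancel h1]⟩
  · constructor
    · rintro ⟨i, hi, rfl⟩; exact ⟨i + 2, by omega, by omega, rfl⟩
    · rintro ⟨i, h1, h2, rfl⟩; exact ⟨i - 2, by omega, by rw [Nat.sub_add_cancel h1]⟩
  · constructor
    · rintro ⟨i, hi, rfl⟩; exact ⟨i, hi, rfl⟩
    · rintro ⟨i, h1, rfl⟩; exact ⟨i, h1, rfl⟩
  · constructor
    · rintro ⟨i, hi, rfl⟩; exact ⟨i, hi, rfl⟩
    · rintro ⟨i, h1, rfl⟩; exact ⟨i, h1, rfl⟩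
  · constructor
    · rintro ⟨i, hi, rfl⟩; exact ⟨i, hi, rfl⟩
    · rintro ⟨i, h1, rfl⟩; exact ⟨i, h1, rfl⟩
  · constructor
    · rintro ⟨⟨c, C⟩, hc, ha⟩
      rw [List.mem_zipIdx_iff_getElem?] at hc
      simp only at hc
      obtain ⟨hC, hc⟩ := List.getElem?_eq_some_iff.1 hc
      subst hc
      simp only [List.mem_cons, List.not_mem_nil, or_false] at ha
      rcases ha with rfl | rfl | rfl | rfl | rfl | rfl
      · exact ⟨5, C, 0, hC, by simp, by simp, rfl⟩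
      · exact ⟨5, C, 1, hC, by simp, by simp, rfl⟩
      · exact ⟨5, C, 2, hC, by simp, by simp, rfl⟩
      · exact ⟨6, C, 0, hC, by simp, by simp, rfl⟩
      · exact ⟨6, C, 1, hC, by simp, by simp, rfl⟩
      · exact ⟨6, C, 2, hC, by simp, by simp, rfl⟩
    · rintro ⟨t, C, l, hC, ht, hl, rfl⟩
      refine ⟨(φ[C], C), ?_, ?_⟩
      · rw [List.mem_zipIdx_iff_getElem?]
        simp [hC]
      · have : l = 0 ∨ l = 1 ∨ l = 2 := by omega
        rcases ht with rfl | rfl <;> rcases this with rfl | rfl | rfl <;> simp [litOf]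

/-- The facts on labels used in the verifications of colourings. -/
theorem lab_cases {φ : List Cl} {a : Lab} (h : a ∈ labs φ) :
    (a.1 = 0 ∧ 1 ≤ a.2.1 ∧ a.2.1 ≤ 10) ∨ (a.1 = 1 ∧ 2 ≤ a.2.1 ∧ a.2.1 ≤ 10) ∨ a.1 = 2 ∨ a.1 = 3 ∨
      a.1 = 4 ∨ ((a.1 = 5 ∨ a.1 = 6) ∧ a.2.2.1 < 3 ∧ (a.2.2.2.2 = 8 ∨ a.2.2.2.2 = 9)) := by
  rcases mem_labs.1 h with ⟨i, h1, h2, rfl⟩ | ⟨i, h1, h2, rfl⟩ | ⟨x, _, rfl⟩ | ⟨x, _, rfl⟩ |
    ⟨x, _, rfl⟩ | ⟨t, C, l, hC, ht, hl, rfl⟩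
  · simp [h1, h2]
  · simp [h1, h2]
  · simp
  · simp
  · simp
  · simp only [lit]
    refine Or.inr (Or.inr (Or.inr (Or.inr (Or.inr ⟨ht, hl, ?_⟩))))
    split_ifs <;> simp

theorem adjL_iff {a b : Lab} : adjL a b = true ↔
    (a.1 = 0 ∧ b.1 = 1 ∧ a.2.1 ≠ b.2.1) ∨
    (a.1 = 0 ∧ b.1 = 2 ∧ a.2.1 ≠ 8 ∧ a.2.1 ≠ 9) ∨
    (a.1 = 0 ∧ b.1 = 3 ∧ 5 ≤ a.2.1) ∨
    (a.1 = 0 ∧ b.1 = 4 ∧ a.2.1 ≠ 1 ∧ a.2.1 ≠ 5 ∧ a.2.1 ≠ 6 ∧ a.2.1 ≠ 7) ∨
    (a.1 = 5 ∧ b.1 = 1 ∧ b.2.1 ≠ 2 + a.2.2.1 ∧ b.2.1 ≠ a.2.2.2.2) ∨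
    (a.1 = 6 ∧ b.1 = 1 ∧ b.2.1 ≠ 5 + a.2.2.1 ∧ b.2.1 ≠ a.2.2.2.2) ∨
    ((a.1 = 5 ∨ a.1 = 6) ∧ b.1 = 2 ∧ a.2.2.2.1 = b.2.1) ∨
    (a.1 = 5 ∧ b.1 = 3 ∧ a.2.1 = b.2.1) ∨
    (a.1 = 5 ∧ b.1 = 4) ∨
    (a.1 = 6 ∧ b.1 = 4 ∧ a.2.1 = b.2.1) ∨
    (a.1 = 6 ∧ b.1 = 3) := by
  unfold adjL
  simp only [Bool.or_eq_true, Bool.and_eq_true, decide_eq_true_eq, Bool.not_eq_true',
    decide_eq_false_iff_not, and_assoc, or_assoc, ne_eq]

/-- The sides of the bipartition. -/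
def isX (a : Lab) : Prop := a.1 = 0 ∨ a.1 = 5 ∨ a.1 = 6

theorem adj_sides {a b : Lab} (h : adjL a b = true) : isX a ∧ ¬ isX b := by
  rw [adjL_iff] at h
  unfold isX
  omega

/-- The initial colouring. -/
def col0 (a : Lab) : ℕ :=
  if a.1 = 2 then 8 else if a.1 = 3 then 1 else if a.1 = 4 then 1 else
    if a.1 = 5 then 2 + a.2.2.1 else if a.1 = 6 then 5 + a.2.2.1 else a.2.1

/-- The situation: a graph with labelled vertices. -/
structure Sit (V : Type) (G : SimpleGraph V) (φ : List Cl) (lab : V → Lab) : Prop where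
  mem : ∀ v, lab v ∈ labs φ
  ex : ∀ a ∈ labs φ, ∃ v, lab v = a
  adj : ∀ v w, G.Adj v w ↔ adjL (lab v) (lab w) = true ∨ adjL (lab w) (lab v) = true

section

variable {V : Type} {G : SimpleGraph V} {φ : List Cl} {lab : V → Lab}

theorem Sit.bip (S : Sit V G φ lab) : G.IsBipartite := by
  classical
  refine ⟨SimpleGraph.Coloring.mk (fun v => if isX (lab v) then 0 else 1) ?_⟩
  intro v w h
  rcases (S.adj v w).1 h with h | h
  · have := adj_sides h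
    simp [this.1, this.2]
  · have := adj_sides h
    simp [this.1, this.2]

/-- A colouring of the labels gives a colouring of the graph. -/
theorem Sit.isCol (S : Sit V G φ lab) {c : Lab → ℕ} (h1 : ∀ a ∈ labs φ, 1 ≤ c a ∧ c a ≤ 10)
    (h2 : ∀ a ∈ labs φ, ∀ b ∈ labs φ, adjL a b = true → c a ≠ c b) :
    IsCol G 10 (fun v => c (lab v)) := by
  refine ⟨fun v => h1 _ (S.mem v), fun v w h => ?_⟩
  rcases (S.adj v w).1 h with h | h
  · exact h2 _ (S.mem v) _ (S.mem w) h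
  · exact (h2 _ (S.mem w) _ (S.mem v) h).symm

theorem col0_ok1 : ∀ a ∈ labs φ, 1 ≤ col0 a ∧ col0 a ≤ 10 := by
  intro a ha
  have := lab_cases ha
  unfold col0
  split_ifs <;> omega

theorem col0_ok2 : ∀ a ∈ labs φ, ∀ b ∈ labs φ, adjL a b = true → col0 a ≠ col0 b := by
  intro a ha b hb h
  have h1 := lab_cases ha
  have h2 := lab_cases hb
  rw [adjL_iff] at h
  unfold col0
  split_ifs <;> omega

/-- Moving between colourings of the labels differing on one side only. -/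
theorem Sit.move [Finite V] (S : Sit V G φ lab) {c d : Lab → ℕ} (hc : IsCol G 10 (fun v => c (lab v)))
    (hd : IsCol G 10 (fun v => d (lab v)))
    (h : (∀ a ∈ labs φ, isX a → c a = d a) ∨ (∀ a ∈ labs φ, ¬ isX a → c a = d a)) :
    Relation.ReflTransGen (Step G 10) (fun v => c (lab v)) (fun v => d (lab v)) := by
  rcases h with h | h
  · refine reach_indep (S := {v | ¬ isX (lab v)}) ?_ _ _ _ hc hd ?_ rfl
    · intro v hv w hw hvw
      rcases (S.adj v w).1 hvw with h | h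
      · exact hv (adj_sides h).1
      · exact hw (adj_sides h).1
    · intro v hv
      exact h _ (S.mem v) (not_not.1 hv)
  · refine reach_indep (S := {v | isX (lab v)}) ?_ _ _ _ hc hd ?_ rfl
    · intro v hv w hw hvw
      rcases (S.adj v w).1 hvw with h | h
      · exact (adj_sides h).2 hw
      · exact (adj_sides h).2 hv
    · intro v hv
      exact h _ (S.mem v) hv

end

end Pool.Agent.NPC.V11230.RC
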