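import Pool.Agent.V11230.Recol2

/-!
# Optimal-colouring reconfiguration: correctness of the reduction
-/

set_option autoImplicit false

namespace Pool.Agent.NPC.V11230.RC

open Pool.Agent.NPC

section Sat


variable {V : Type} {G : SimpleGraph V} {φ : List Cl} {lab : V → Lab} (v ℓ : ℕ → ℕ)

/-- variables recoloured -/
def col1 (a : Lab) : ℕ := if a.1 = 2 then v a.2.1 else col0 a

/-- true literals recoloured -/
def col2 (a : Lab) : ℕ :=
  if (a.1 = 5 ∨ a.1 = 6) ∧ a.2.2.2.2 ≠ v a.2.2.2.1 then a.2.2.2.2 else col1 v a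

/-- clause vertices recoloured -/
def col3 (a : Lab) : ℕ :=
  if a.1 = 3 then 2 + ℓ a.2.1 else if a.1 = 4 then 5 + ℓ a.2.1 else col2 v a

/-- the core vertex `10` recoloured -/
def col4 (a : Lab) : ℕ := if a.1 = 0 ∧ a.2.1 = 10 then 1 else col3 v ℓ a

open Classical in
/-- one side gets the colour `10` -/
noncomputable def col5 (a : Lab) : ℕ := if isX a then col4 v ℓ a else 10

open Classical in
/-- both sides monochromatic -/
noncomputable def col6 (a : Lab) : ℕ := if isX a then 1 else 10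

variable {v ℓ} (hv : ∀ x, v x = 8 ∨ v x = 9) (hl : ∀ C, ℓ C < 3)
  (hs : ∀ a ∈ labs φ, (a.1 = 5 ∨ a.1 = 6) → a.2.2.1 = ℓ a.2.1 → a.2.2.2.2 ≠ v a.2.2.2.1)

include hv in
theorem col1_ok1 : ∀ a ∈ labs φ, 1 ≤ col1 v a ∧ col1 v a ≤ 10 := by
  intro a ha
  have h0 := col0_ok1 a ha
  have := hv a.2.1
  unfold col1
  split_ifs <;> omega

include hv in
theorem col1_ok2 : ∀ a ∈ labs φ, ∀ b ∈ labs φ, adjL a b = true → col1 v a ≠ col1 v b := by
  intro a ha b hb h
  have h1 := lab_cases ha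
  have h2 := lab_cases hb
  have h3 := hv a.2.1
  have h4 := hv b.2.1
  rw [adjL_iff] at h
  unfold col1 col0
  rcases h with ⟨ha1, hb1, hh⟩ | ⟨ha1, hb1, hh⟩ | ⟨ha1, hb1, hh⟩ | ⟨ha1, hb1, hh⟩ |
    ⟨ha1, hb1, hh⟩ | ⟨ha1, hb1, hh⟩ | ⟨ha1 | ha1, hb1, hh⟩ | ⟨ha1, hb1, hh⟩ | ⟨ha1, hb1⟩ |
    ⟨ha1, hb1, hh⟩ | ⟨ha1, hb1⟩
  all_goals simp only [ha1, hb1, OfNat.ofNat_ne_zero, OfNat.zero_ne_ofNat, OfNat.ofNat_ne_one,
    OfNat.one_ne_ofNat, Nat.reduceEqDiff, zero_ne_one, one_ne_zero, reduceIte, false_or, or_false,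
    true_or, or_true, true_and, false_and, and_true, and_false, forall_const,
    forall_eq, IsEmpty.forall_iff, false_imp_iff, true_imp_iff] at *
  all_goals (try split_ifs)
  all_goals omega

include hv in
theorem col2_ok1 : ∀ a ∈ labs φ, 1 ≤ col2 v a ∧ col2 v a ≤ 10 := by
  intro a ha
  have h0 := col1_ok1 hv a ha
  have := lab_cases ha
  unfold col2
  split_ifs <;> omega

include hv in
theorem col2_ok2 : ∀ a ∈ labs φ, ∀ b ∈ labs φ, adjL a b = true → col2 v a ≠ col2 v b := by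
  intro a ha b hb h
  have h1 := lab_cases ha
  have h2 := lab_cases hb
  have h3 := hv a.2.1
  have h4 := hv b.2.1
  have h5 := hv a.2.2.2.1
  have h6 := hv b.2.2.2.1
  have h7 : a.2.2.2.1 = b.2.1 → v a.2.2.2.1 = v b.2.1 := fun h => by rw [h]
  rw [adjL_iff] at h
  unfold col2 col1 col0
  rcases h with ⟨ha1, hb1, hh⟩ | ⟨ha1, hb1, hh⟩ | ⟨ha1, hb1, hh⟩ | ⟨ha1, hb1, hh⟩ |
    ⟨ha1, hb1, hh⟩ | ⟨ha1, hb1, hh⟩ | ⟨ha1 | ha1, hb1, hh⟩ | ⟨ha1, hb1, hh⟩ | ⟨ha1, hb1⟩ |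
    ⟨ha1, hb1, hh⟩ | ⟨ha1, hb1⟩
  all_goals simp only [ha1, hb1, OfNat.ofNat_ne_zero, OfNat.zero_ne_ofNat, OfNat.ofNat_ne_one,
    OfNat.one_ne_ofNat, Nat.reduceEqDiff, zero_ne_one, one_ne_zero, reduceIte, false_or, or_false,
    true_or, or_true, true_and, false_and, and_true, and_false, forall_const,
    forall_eq, IsEmpty.forall_iff, false_imp_iff, true_imp_iff] at *
  all_goals (try split_ifs)
  all_goals omega

include hv hl in
theorem col3_ok1 : ∀ a ∈ labs φ, 1 ≤ col3 v ℓ a ∧ col3 v ℓ a ≤ 10 := by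
  intro a ha
  have h0 := col2_ok1 hv a ha
  have := lab_cases ha
  have := hl a.2.1
  unfold col3
  split_ifs <;> omega

include hv hl hs in
theorem col3_ok2 : ∀ a ∈ labs φ, ∀ b ∈ labs φ, adjL a b = true → col3 v ℓ a ≠ col3 v ℓ b := by
  intro a ha b hb h
  have h1 := lab_cases ha
  have h2 := lab_cases hb
  have h3 := hv a.2.1
  have h4 := hv b.2.1
  have h5 := hv a.2.2.2.1
  have h6 := hv b.2.2.2.1
  have h7 : a.2.2.2.1 = b.2.1 → v a.2.2.2.1 = v b.2.1 := fun h => by rw [h]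
  have h8 := hs a ha
  have h9 : a.2.1 = b.2.1 → ℓ a.2.1 = ℓ b.2.1 := fun h => by rw [h]
  have h10 := hl a.2.1
  have h11 := hl b.2.1
  rw [adjL_iff] at h
  unfold col3 col2 col1 col0
  rcases h with ⟨ha1, hb1, hh⟩ | ⟨ha1, hb1, hh⟩ | ⟨ha1, hb1, hh⟩ | ⟨ha1, hb1, hh⟩ |
    ⟨ha1, hb1, hh⟩ | ⟨ha1, hb1, hh⟩ | ⟨ha1 | ha1, hb1, hh⟩ | ⟨ha1, hb1, hh⟩ | ⟨ha1, hb1⟩ |
    ⟨ha1, hb1, hh⟩ | ⟨ha1, hb1⟩
  all_goals simp only [ha1, hb1, OfNat.ofNat_ne_zero, OfNat.zero_ne_ofNat, OfNat.ofNat_ne_one,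
    OfNat.one_ne_ofNat, Nat.reduceEqDiff, zero_ne_one, one_ne_zero, reduceIte, false_or, or_false,
    true_or, or_true, true_and, false_and, and_true, and_false, forall_const,
    forall_eq, IsEmpty.forall_iff, false_imp_iff, true_imp_iff] at *
  all_goals (try split_ifs)
  all_goals omega

include hv hl in
theorem col4_ok1 : ∀ a ∈ labs φ, 1 ≤ col4 v ℓ a ∧ col4 v ℓ a ≤ 10 := by
  intro a ha
  have h0 := col3_ok1 hv hl a ha
  unfold col4
  split_ifs <;> omega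

include hv hl hs in
theorem col4_ok2 : ∀ a ∈ labs φ, ∀ b ∈ labs φ, adjL a b = true → col4 v ℓ a ≠ col4 v ℓ b := by
  intro a ha b hb h
  have h0 := col3_ok2 hv hl hs a ha b hb h
  have h1 := lab_cases ha
  have h2 := lab_cases hb
  rw [adjL_iff] at h
  by_cases hh : a.1 = 0 ∧ a.2.1 = 10
  · have h10 := hl b.2.1
    have h12 := hv b.2.1
    clear h0
    unfold col4 col3 col2 col1 col0
    rcases h with ⟨ha1, hb1, hh⟩ | ⟨ha1, hb1, hh⟩ | ⟨ha1, hb1, hh⟩ | ⟨ha1, hb1, hh⟩ |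
      ⟨ha1, hb1, hh⟩ | ⟨ha1, hb1, hh⟩ | ⟨ha1 | ha1, hb1, hh⟩ | ⟨ha1, hb1, hh⟩ | ⟨ha1, hb1⟩ |
      ⟨ha1, hb1, hh⟩ | ⟨ha1, hb1⟩
    all_goals simp only [ha1, hb1, OfNat.ofNat_ne_zero, OfNat.zero_ne_ofNat, OfNat.ofNat_ne_one,
      OfNat.one_ne_ofNat, Nat.reduceEqDiff, zero_ne_one, one_ne_zero, reduceIte, false_or, or_false,
      true_or, or_true, true_and, false_and, and_true, and_false, forall_const,
      forall_eq, IsEmpty.forall_iff, false_imp_iff, true_imp_iff] at *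
    all_goals (try split_ifs)
    all_goals omega
  · unfold col4
    rw [if_neg hh, if_neg (by omega)]
    exact h0

include hv hl in
theorem col5_ok1 : ∀ a ∈ labs φ, 1 ≤ col5 v ℓ a ∧ col5 v ℓ a ≤ 10 := by
  intro a ha
  have h0 := col4_ok1 hv hl a ha
  unfold col5
  split_ifs <;> omega

include hv in
theorem col5_ok2 : ∀ a ∈ labs φ, ∀ b ∈ labs φ, adjL a b = true → col5 v ℓ a ≠ col5 v ℓ b := by
  intro a ha b hb h
  have h1 := lab_cases ha
  have hx := adj_sides h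
  unfold col5
  rw [if_pos hx.1, if_neg hx.2]
  clear hx
  rw [adjL_iff] at h
  have h3 := hv a.2.1
  unfold col4 col3 col2 col1 col0
  rcases h with ⟨ha1, hb1, hh⟩ | ⟨ha1, hb1, hh⟩ | ⟨ha1, hb1, hh⟩ | ⟨ha1, hb1, hh⟩ |
    ⟨ha1, hb1, hh⟩ | ⟨ha1, hb1, hh⟩ | ⟨ha1 | ha1, hb1, hh⟩ | ⟨ha1, hb1, hh⟩ | ⟨ha1, hb1⟩ |
    ⟨ha1, hb1, hh⟩ | ⟨ha1, hb1⟩
  all_goals simp only [ha1, hb1, OfNat.ofNat_ne_zero, OfNat.zero_ne_ofNat, OfNat.ofNat_ne_one,
    OfNat.one_ne_ofNat, Nat.reduceEqDiff, zero_ne_one, one_ne_zero, reduceIte, false_or, or_false,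
    true_or, or_true, true_and, false_and, and_true, and_false, forall_const,
    forall_eq, IsEmpty.forall_iff, false_imp_iff, true_imp_iff] at *
  all_goals (try split_ifs)
  all_goals omega

theorem col6_ok1 : ∀ a ∈ labs φ, 1 ≤ col6 a ∧ col6 a ≤ 10 := by
  intro a ha
  unfold col6
  split_ifs <;> omega

theorem col6_ok2 : ∀ a ∈ labs φ, ∀ b ∈ labs φ, adjL a b = true → col6 a ≠ col6 b := by
  intro a ha b hb h
  have hx := adj_sides h
  unfold col6
  rw [if_pos hx.1, if_neg hx.2]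
  omega

include hv hl hs in
theorem Sit.reach [Finite V] (S : Sit V G φ lab) :
    Reachable G 10 (fun u => col0 (lab u)) (fun u => col6 (lab u)) := by
  have i0 := S.isCol col0_ok1 col0_ok2
  have i1 := S.isCol (col1_ok1 hv) (col1_ok2 hv)
  have i2 := S.isCol (col2_ok1 hv) (col2_ok2 hv)
  have i3 := S.isCol (col3_ok1 hv hl) (col3_ok2 hv hl hs)
  have i4 := S.isCol (col4_ok1 hv hl) (col4_ok2 hv hl hs)
  have i5 := S.isCol (col5_ok1 (φ := φ) hv hl) (col5_ok2 hv)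
  have i6 := S.isCol (φ := φ) col6_ok1 col6_ok2
  refine ⟨i0, ?_⟩
  refine (S.move i0 i1 (Or.inl ?_)).trans ((S.move i1 i2 (Or.inr ?_)).trans
    ((S.move i2 i3 (Or.inl ?_)).trans ((S.move i3 i4 (Or.inr ?_)).trans
    ((S.move i4 i5 (Or.inl ?_)).trans (S.move i5 i6 (Or.inr ?_))))))
  · intro a _ ha
    unfold isX at ha
    unfold col1
    rw [if_neg (by omega)]
  · intro a _ ha
    unfold isX at ha
    unfold col2
    rw [if_neg (by omega)]
  · intro a _ ha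
    unfold isX at ha
    unfold col3
    rw [if_neg (by omega), if_neg (by omega)]
  · intro a _ ha
    unfold isX at ha
    unfold col4
    rw [if_neg (by omega)]
  · intro a _ ha
    unfold col5
    rw [if_pos ha]
  · intro a _ ha
    unfold col5 col6
    rw [if_neg ha, if_neg ha]

end Sat

section Unsat

variable {V : Type} {G : SimpleGraph V} {φ : List Cl} {lab : V → Lab}

section Adj

variable {a b : Lab}

theorem adj_a (h1 : a.1 = 0) (h2 : b.1 = 1) (h3 : a.2.1 ≠ b.2.1) : adjL a b = true :=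
  adjL_iff.2 (Or.inl ⟨h1, h2, h3⟩)
theorem adj_b (h1 : a.1 = 0) (h2 : b.1 = 2) (h3 : a.2.1 ≠ 8) (h4 : a.2.1 ≠ 9) : adjL a b = true :=
  adjL_iff.2 (Or.inr (Or.inl ⟨h1, h2, h3, h4⟩))
theorem adj_c (h1 : a.1 = 0) (h2 : b.1 = 3) (h3 : 5 ≤ a.2.1) : adjL a b = true :=
  adjL_iff.2 (Or.inr (Or.inr (Or.inl ⟨h1, h2, h3⟩)))
theorem adj_d (h1 : a.1 = 0) (h2 : b.1 = 4) (h3 : a.2.1 ≠ 1) (h4 : a.2.1 ≠ 5) (h5 : a.2.1 ≠ 6)
    (h6 : a.2.1 ≠ 7) : adjL a b = true :=
  adjL_iff.2 (Or.inr (Or.inr (Or.inr (Or.inl ⟨h1, h2, h3, h4, h5, h6⟩))))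
theorem adj_e (h1 : a.1 = 5) (h2 : b.1 = 1) (h3 : b.2.1 ≠ 2 + a.2.2.1)
    (h4 : b.2.1 ≠ a.2.2.2.2) : adjL a b = true :=
  adjL_iff.2 (Or.inr (Or.inr (Or.inr (Or.inr (Or.inl ⟨h1, h2, h3, h4⟩)))))
theorem adj_f (h1 : a.1 = 6) (h2 : b.1 = 1) (h3 : b.2.1 ≠ 5 + a.2.2.1)
    (h4 : b.2.1 ≠ a.2.2.2.2) : adjL a b = true :=
  adjL_iff.2 (Or.inr (Or.inr (Or.inr (Or.inr (Or.inr (Or.inl ⟨h1, h2, h3, h4⟩))))))
theorem adj_g (h1 : a.1 = 5 ∨ a.1 = 6) (h2 : b.1 = 2) (h3 : a.2.2.2.1 = b.2.1) :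
    adjL a b = true :=
  adjL_iff.2 (Or.inr (Or.inr (Or.inr (Or.inr (Or.inr (Or.inr (Or.inl ⟨h1, h2, h3⟩)))))))
theorem adj_h (h1 : a.1 = 5) (h2 : b.1 = 3) (h3 : a.2.1 = b.2.1) : adjL a b = true :=
  adjL_iff.2 (Or.inr (Or.inr (Or.inr (Or.inr (Or.inr (Or.inr (Or.inr (Or.inl
    ⟨h1, h2, h3⟩))))))))
theorem adj_i (h1 : a.1 = 5) (h2 : b.1 = 4) : adjL a b = true :=
  adjL_iff.2 (Or.inr (Or.inr (Or.inr (Or.inr (Or.inr (Or.inr (Or.inr (Or.inr (Or.inl
    ⟨h1, h2⟩)))))))))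
theorem adj_j (h1 : a.1 = 6) (h2 : b.1 = 4) (h3 : a.2.1 = b.2.1) : adjL a b = true :=
  adjL_iff.2 (Or.inr (Or.inr (Or.inr (Or.inr (Or.inr (Or.inr (Or.inr (Or.inr (Or.inr (Or.inl
    ⟨h1, h2, h3⟩))))))))))
theorem adj_k (h1 : a.1 = 6) (h2 : b.1 = 3) : adjL a b = true :=
  adjL_iff.2 (Or.inr (Or.inr (Or.inr (Or.inr (Or.inr (Or.inr (Or.inr (Or.inr (Or.inr (Or.inr
    ⟨h1, h2⟩))))))))))

end Adj

/-- The core vertices have their initial colours. -/
def Core (lab : V → Lab) (f : V → ℕ) : Prop :=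
  ∀ v, (lab v).1 = 0 ∨ (lab v).1 = 1 → f v = (lab v).2.1

/-- A vertex not adjacent to colour `j` only through the core. -/
theorem Sit.exX (S : Sit V G φ lab) {j : ℕ} (h1 : 1 ≤ j) (h2 : j ≤ 10) :
    ∃ w, lab w = (0, j, 0, 0, 0) := S.ex _ (mem_labs.2 (Or.inl ⟨j, h1, h2, rfl⟩))

theorem Sit.exY (S : Sit V G φ lab) {j : ℕ} (h1 : 2 ≤ j) (h2 : j ≤ 10) :
    ∃ w, lab w = (1, j, 0, 0, 0) := S.ex _ (mem_labs.2 (Or.inr (Or.inl ⟨j, h1, h2, rfl⟩)))

theorem Sit.ne (S : Sit V G φ lab) {g : V → ℕ} (hg : IsCol G 10 g) {v w : V}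
    (h : adjL (lab v) (lab w) = true ∨ adjL (lab w) (lab v) = true) : g v ≠ g w :=
  hg.2 v w ((S.adj v w).2 h)

/-- The satisfying assignment read off a colouring. -/
theorem Sit.clause (S : Sit V G φ lab) (hφ : Bounded3 φ) {g : V → ℕ} (hg : IsCol G 10 g)
    (hc : Core lab g) {w : V} {t C l : ℕ} (hC : C < φ.length) (ht : t = 5 ∨ t = 6)
    (hw : lab w = lit t C l (litOf φ[C] l)) (he : g w = if (litOf φ[C] l).1 then 9 else 8)
    (τ : ℕ → Bool) (hτ : ∀ x, τ x = true ↔ ∃ v, lab v = (2, x, 0, 0, 0) ∧ g v = 8) :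
    τ (litOf φ[C] l).2 = (litOf φ[C] l).1 := by
  have hlt : (litOf φ[C] l).2 < 3 * φ.length := by
    have := hφ φ[C] (List.getElem_mem hC)
    unfold litOf
    split_ifs
    · exact this.1
    · exact this.2.1
    · exact this.2.2
  generalize litOf φ[C] l = x at *
  obtain ⟨b, x⟩ := x
  simp only at *
  have hvar : ∀ y, lab y = (2, x, 0, 0, 0) → g y ≠ (if b then 9 else 8) ∧ (g y = 8 ∨ g y = 9) := by
    intro y hy
    constructor
    · rw [← he]
      exact (S.ne hg (Or.inl (adj_g (a := lab w) (b := lab y) (by rw [hw]; exact ht)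
        (by rw [hy]) (by rw [hw, hy]; rfl)))).symm
    · have hr := hg.1 y
      by_contra hno
      obtain ⟨u, hu⟩ := S.exX hr.1 hr.2
      have h1 : g u = g y := by
        rw [hc u (by rw [hu]; simp), hu]
      refine S.ne hg (v := u) (w := y) (Or.inl ?_) h1
      exact adj_b (by rw [hu]) (by rw [hy]) (by rw [hu]; simp only; omega)
        (by rw [hu]; simp only; omega)
  obtain ⟨y, hy⟩ := S.ex (2, x, 0, 0, 0) (mem_labs.2 (Or.inr (Or.inr (Or.inl ⟨x, hlt, rfl⟩))))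
  have h1 := hvar y hy
  cases b with
  | true =>
    rw [hτ]
    refine ⟨y, hy, ?_⟩
    simp only [if_true] at h1
    omega
  | false =>
    rw [Bool.eq_false_iff]
    intro h
    obtain ⟨y', hy', h8⟩ := (hτ x).1 h
    have h2 := hvar y' hy'
    simp only [Bool.false_eq_true, if_false] at h2
    omega

/-- If no clause vertex of one kind has the colour `1`, while one of the other kind does, then the
formula is satisfiable. -/
theorem Sit.sat (S : Sit V G φ lab) (hφ : Bounded3 φ) {g : V → ℕ} (hg : IsCol G 10 g)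
    (hc : Core lab g) {k : ℕ} (hk : k = 3 ∨ k = 4) (h1 : ∀ v, (lab v).1 = k → g v ≠ 1)
    (h2 : ∃ v, (lab v).1 = 7 - k ∧ g v = 1) : SAT3 φ := by
  classical
  let τ : ℕ → Bool := fun x => decide (∃ v, lab v = (2, x, 0, 0, 0) ∧ g v = 8)
  have hτ : ∀ x, τ x = true ↔ ∃ v, lab v = (2, x, 0, 0, 0) ∧ g v = 8 := fun x => by
    simp only [τ, decide_eq_true_eq]
  have main : ∀ (C : ℕ) (hC : C < φ.length), ∃ l < 3, τ (litOf φ[C] l).2 = (litOf φ[C] l).1 := by
    intro C hC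
    obtain ⟨u, hu⟩ : ∃ u, lab u = (k, C, 0, 0, 0) := by
      rcases hk with rfl | rfl
      · exact S.ex _ (mem_labs.2 (Or.inr (Or.inr (Or.inr (Or.inl ⟨C, hC, rfl⟩)))))
      · exact S.ex _ (mem_labs.2 (Or.inr (Or.inr (Or.inr (Or.inr (Or.inl ⟨C, hC, rfl⟩))))))
    obtain ⟨z, hz1, hz2⟩ := h2
    have hu1 : g u ≠ 1 := h1 u (by rw [hu])
    have hur := hg.1 u
    -- the colour of the clause vertex
    have hcol : ∃ l, l < 3 ∧ g u = 3 * k - 7 + l := by
      obtain ⟨w, hw⟩ := S.exX hur.1 hur.2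
      have hgw : g w = g u := by rw [hc w (by rw [hw]; simp), hw]
      have hnadj : ¬ (adjL (lab w) (lab u) = true) := fun h => S.ne hg (Or.inl h) hgw
      rcases hk with rfl | rfl
      · have : ¬ (5 ≤ g u) := fun h5 =>
          hnadj (adj_c (by rw [hw]) (by rw [hu]) (by rw [hw]; exact h5))
        exact ⟨g u - 2, by omega, by omega⟩
      · have : ¬ (g u ≠ 1 ∧ g u ≠ 5 ∧ g u ≠ 6 ∧ g u ≠ 7) := fun ⟨h5, h6, h7, h8⟩ =>
          hnadj (adj_d (by rw [hw]) (by rw [hu]) (by rw [hw]; exact h5) (by rw [hw]; exact h6)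
            (by rw [hw]; exact h7) (by rw [hw]; exact h8))
        exact ⟨g u - 5, by omega, by omega⟩
    obtain ⟨l, hl, hgu⟩ := hcol
    refine ⟨l, hl, ?_⟩
    obtain ⟨w, hw⟩ := S.ex (lit (k + 2) C l (litOf φ[C] l)) (mem_labs.2 (Or.inr (Or.inr (Or.inr
      (Or.inr (Or.inr ⟨k + 2, C, l, hC, by omega, hl, rfl⟩))))))
    refine S.clause hφ hg hc hC (t := k + 2) (by omega) hw ?_ τ hτ
    have hwr := hg.1 w
    by_contra hne
    -- the colour is not one of the clause colour and `1`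
    have n1 : g w ≠ g u := by
      apply S.ne hg
      left
      rcases hk with rfl | rfl
      · exact adj_h (by rw [hw]; rfl) (by rw [hu]) (by rw [hw, hu]; rfl)
      · exact adj_j (by rw [hw]; rfl) (by rw [hu]) (by rw [hw, hu]; rfl)
    have n2 : g w ≠ 1 := by
      rw [← hz2]
      apply S.ne hg
      left
      rcases hk with rfl | rfl
      · exact adj_i (by rw [hw]; rfl) hz1
      · exact adj_k (by rw [hw]; rfl) hz1
    obtain ⟨y, hy⟩ := S.exY (j := g w) (by omega) hwr.2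
    have hgy : g w = g y := by rw [hc y (by rw [hy]; simp), hy]
    refine S.ne hg (v := w) (w := y) (Or.inl ?_) hgy
    rcases hk with rfl | rfl
    · exact adj_e (by rw [hw]; rfl) (by rw [hy]) (by rw [hw, hy]; simp only [lit]; omega)
        (by rw [hw, hy]; simp only [lit]; exact hne)
    · exact adj_f (by rw [hw]; rfl) (by rw [hy]) (by rw [hw, hy]; simp only [lit]; omega)
        (by rw [hw, hy]; simp only [lit]; exact hne)
  refine ⟨τ, fun c hcm => ?_⟩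
  obtain ⟨C, hC, rfl⟩ := List.getElem_of_mem hcm
  obtain ⟨l, hl, h⟩ := main C hC
  have : l = 0 ∨ l = 1 ∨ l = 2 := by omega
  rcases this with rfl | rfl | rfl
  · exact Or.inl h
  · exact Or.inr (Or.inl h)
  · exact Or.inr (Or.inr h)

/-- The invariant. -/
def Inv (G : SimpleGraph V) (lab : V → Lab) (f : V → ℕ) : Prop :=
  IsCol G 10 f ∧ Core lab f ∧ (∃ v, (lab v).1 = 3 ∧ f v = 1) ∧ (∃ v, (lab v).1 = 4 ∧ f v = 1)

theorem Sit.step (S : Sit V G φ lab) (hφ : Bounded3 φ) (hns : ¬ SAT3 φ) {f g : V → ℕ}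
    (hf : Inv G lab f) (h : Step G 10 f g) : Inv G lab g := by
  obtain ⟨_, hg, v, hv, hw⟩ := h
  obtain ⟨hcf, hc, ⟨z, hz, hz1⟩, ⟨y, hy, hy1⟩⟩ := hf
  have hlv : ∀ w, lab w ≠ lab v → g w = f w := fun w h => (hw w (fun hh => h (by rw [hh]))).symm
  have hvr := hg.1 v
  have hcore : Core lab g := by
    intro w hw01
    by_cases hwv : w = v
    · subst hwv
      exfalso
      rw [hc w hw01] at hv
      rcases hw01 with h0 | h0
      · -- `X`-core
        by_cases h1 : g w = 1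
        · have hm := lab_cases (S.mem w)
          by_cases h5 : 5 ≤ (lab w).2.1
          · refine S.ne hg (v := w) (w := z) (Or.inl ?_) ?_
            · exact adj_c h0 hz h5
            · rw [h1, ← hz1, hlv z (fun h => by rw [h] at hz; omega)]
          · refine S.ne hg (v := w) (w := y) (Or.inl ?_) ?_
            · exact adj_d h0 hy (by omega) (by omega) (by omega) (by omega)
            · rw [h1, ← hy1, hlv y (fun h => by rw [h] at hy; omega)]
        · obtain ⟨u, hu⟩ := S.exY (j := g w) (by omega) hvr.2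
          refine S.ne hg (v := w) (w := u) (Or.inl ?_) ?_
          · exact adj_a h0 (by rw [hu]) (by rw [hu]; exact hv)
          · rw [hlv u (fun h => by rw [← h, hu] at h0; simp at h0), hc u (by rw [hu]; simp), hu]
      · obtain ⟨u, hu⟩ := S.exX (j := g w) hvr.1 hvr.2
        refine S.ne hg (v := w) (w := u) (Or.inr ?_) ?_
        · exact adj_a (by rw [hu]) h0 (by rw [hu]; exact hv.symm)
        · rw [hlv u (fun h => by rw [← h, hu] at h0; simp at h0), hc u (by rw [hu]; simp), hu]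
    · rw [← hw w hwv]; exact hc w hw01
  refine ⟨hg, hcore, ?_, ?_⟩
  · by_contra hno
    push Not at hno
    apply hns
    refine S.sat hφ hg hcore (k := 3) (Or.inl rfl) hno ⟨y, hy, ?_⟩
    rw [← hy1]
    have : v = z := by
      by_contra hh
      exact hno z hz (by rw [← hz1, hw z (fun h => hh h.symm)])
    exact hlv y (fun h => by rw [h, this, hz] at hy; omega)
  · by_contra hno
    push Not at hno
    apply hns
    refine S.sat hφ hg hcore (k := 4) (Or.inr rfl) hno ⟨z, hz, ?_⟩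
    rw [← hz1]
    have : v = y := by
      by_contra hh
      exact hno y hy (by rw [← hy1, hw y (fun h => hh h.symm)])
    exact hlv z (fun h => by rw [h, this, hy] at hz; omega)

theorem Sit.inv0 (S : Sit V G φ lab) (hne : φ ≠ []) : Inv G lab (fun v => col0 (lab v)) := by
  have hlen : 0 < φ.length := List.length_pos_iff.2 hne
  refine ⟨S.isCol col0_ok1 col0_ok2, ?_, ?_, ?_⟩
  · intro v hv
    simp only [col0]
    rcases hv with h | h <;> rw [h] <;> simp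
  · obtain ⟨v, hv⟩ := S.ex (3, 0, 0, 0, 0) (mem_labs.2 (by simp [hlen, lit]))
    exact ⟨v, by rw [hv], by simp [hv, col0]⟩
  · obtain ⟨v, hv⟩ := S.ex (4, 0, 0, 0, 0) (mem_labs.2 (by simp [hlen, lit]))
    exact ⟨v, by rw [hv], by simp [hv, col0]⟩

theorem Sit.inv (S : Sit V G φ lab) (hne : φ ≠ []) (hφ : Bounded3 φ) (hns : ¬ SAT3 φ)
    {f : V → ℕ} (h : Reachable G 10 (fun v => col0 (lab v)) f) : Inv G lab f := by
  obtain ⟨_, h⟩ := h
  induction h with
  | refl => exact S.inv0 hne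
  | tail _ hst ih => exact S.step hφ hns ih hst

theorem Sit.range (S : Sit V G φ lab) {f : V → ℕ} (h : Inv G lab f) :
    Set.range f = Set.Icc 1 10 := by
  ext j
  constructor
  · rintro ⟨v, rfl⟩
    exact h.1.1 v
  · rintro ⟨h1, h2⟩
    obtain ⟨w, hw⟩ := S.exX h1 h2
    exact ⟨w, by rw [h.2.1 w (by rw [hw]; simp), hw]⟩

theorem Sit.opt_unsat (S : Sit V G φ lab) (hne : φ ≠ []) (hφ : Bounded3 φ) (hns : ¬ SAT3 φ) :
    optCol G 10 (fun v => col0 (lab v)) = 10 := by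
  have hcard : (Set.Icc 1 10 : Set ℕ).encard = 10 := by
    rw [← Finset.coe_Icc, Set.encard_coe_eq_coe_finsetCard]
    rfl
  unfold optCol
  apply le_antisymm
  · apply sInf_le
    refine ⟨_, ⟨S.isCol col0_ok1 col0_ok2, Relation.ReflTransGen.refl⟩, ?_⟩
    rw [S.range (S.inv0 hne), hcard]
  · apply le_sInf
    rintro m ⟨f, hf, rfl⟩
    rw [S.range (S.inv hne hφ hns hf), hcard]

theorem Sit.opt_sat [Finite V] (S : Sit V G φ lab) (hs : SAT3 φ) :
    optCol G 10 (fun v => col0 (lab v)) = 2 := by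
  classical
  obtain ⟨τ, hτ⟩ := hs
  let v : ℕ → ℕ := fun x => if τ x then 8 else 9
  have hv : ∀ x, v x = 8 ∨ v x = 9 := fun x => by
    simp only [v]; split_ifs <;> simp
  have hex : ∀ C : ℕ, ∃ l < 3, ∀ hC : C < φ.length, τ (litOf φ[C] l).2 = (litOf φ[C] l).1 := by
    intro C
    by_cases hC : C < φ.length
    · rcases hτ φ[C] (List.getElem_mem hC) with h | h | h
      · exact ⟨0, by norm_num, fun _ => h⟩
      · exact ⟨1, by norm_num, fun _ => h⟩
      · exact ⟨2, by norm_num, fun _ => h⟩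
    · exact ⟨0, by norm_num, fun h => absurd h hC⟩
  choose ℓ hl hℓ using hex
  have hs : ∀ a ∈ labs φ, (a.1 = 5 ∨ a.1 = 6) → a.2.2.1 = ℓ a.2.1 →
      a.2.2.2.2 ≠ v a.2.2.2.1 := by
    intro a ha h56 hla
    rcases mem_labs.1 ha with ⟨i, h1, h2, rfl⟩ | ⟨i, h1, h2, rfl⟩ | ⟨x, _, rfl⟩ | ⟨x, _, rfl⟩ |
      ⟨x, _, rfl⟩ | ⟨t, C, l, hC, ht, hl, rfl⟩
    · simp at h56
    · simp at h56
    · simp at h56
    · simp at h56
    · simp at h56
    · simp only [lit] at *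
      subst hla
      have := hℓ C hC
      generalize litOf φ[C] (ℓ C) = x at *
      obtain ⟨b, x⟩ := x
      simp only [v] at *
      rw [this]
      cases b <;> simp
  have hreach := S.reach hv hl hs
  have hedge : ∃ a b, G.Adj a b := by
    obtain ⟨a, ha⟩ := S.exX (j := 1) (by norm_num) (by norm_num)
    obtain ⟨b, hb⟩ := S.exY (j := 2) (by norm_num) (by norm_num)
    refine ⟨a, b, (S.adj a b).2 (Or.inl ?_)⟩
    rw [ha, hb]
    decide
  unfold optCol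
  apply le_antisymm
  · refine le_trans (b := (Set.range (fun u => col6 (lab u))).encard)
      (sInf_le ⟨_, hreach, rfl⟩) ?_
    have hsub : Set.range (fun u => col6 (lab u)) ⊆ ({1, 10} : Set ℕ) := by
      rintro _ ⟨u, rfl⟩
      simp only [col6]
      split_ifs <;> simp
    refine (Set.encard_le_encard hsub).trans ?_
    exact (Set.encard_pair (by norm_num)).le
  · apply le_sInf
    rintro m ⟨f, hf, rfl⟩
    obtain ⟨a, b, hab⟩ := hedge
    have hfc : IsCol G 10 f := by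
      obtain ⟨h0, h⟩ := hf
      induction h with
      | refl => exact h0
      | tail _ hst _ => exact hst.2.1
    have hsub : ({f a, f b} : Set ℕ) ⊆ Set.range f := by
      rintro x (rfl | rfl)
      · exact ⟨a, rfl⟩
      · exact ⟨b, rfl⟩
    refine le_trans ?_ (Set.encard_le_encard hsub)
    rw [Set.encard_pair (hfc.2 a b hab)]

end Unsat

end Pool.Agent.NPC.V11230.RC
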