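import Mathlib

/-!
# Reset tuples of automata

If an automaton with `n` states and `m` letters has a reset `m`-tuple, then the constant tuple
`(N, …, N)` is one for every `N ≥ n * (n!)^m + n + n!`.
-/

set_option autoImplicit false

namespace Pool.Agent.V11230.RT

/-- An automaton with states `0, …, n - 1` and letters `0, …, m - 1`. -/
abbrev Aut (n m : ℕ) : Type := Fin m → Fin n → Fin n

variable {n m : ℕ}

/-- The state reached from `p` by the word `w`. -/
def run (a : Aut n m) (w : List (Fin m)) (p : Fin n) : Fin n := w.foldl (fun q i => a i q) p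

/-- `α` is a reset `m`-tuple. -/
def IsReset (a : Aut n m) (α : Fin m → ℕ) : Prop :=
  1 ≤ ∑ i, α i ∧ ∃ q₀ : Fin n, ∀ p : Fin n, ∃ w : List (Fin m),
    (∀ i, w.count i = α i) ∧ run a w p = q₀

/-- The automaton is `m`-synchronizing. -/
def MSync (a : Aut n m) : Prop := ∃ α : Fin m → ℕ, IsReset a α

/-- The matrix of the letter `i`. -/
def mat (a : Aut n m) (i : Fin m) : Matrix (Fin n) (Fin n) ℕ := fun q p =>
  if a i p = q then 1 else 0

/-- The words (as functions) with letter counts `α`. -/
def words (α : Fin m → ℕ) : Finset (Fin (∑ i, α i) → Fin m) :=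
  Finset.univ.filter (fun w => ∀ i, (Finset.univ.filter (fun j => w j = i)).card = α i)

/-- The Hurwitz product: the sum of all products of `|α|` matrices of letters with exactly `α i`
factors equal to the matrix of the letter `i`. -/
def hurwitz (a : Aut n m) (α : Fin m → ℕ) : Matrix (Fin n) (Fin n) ℕ :=
  ∑ w ∈ words α, (List.ofFn (fun j => mat a (w j))).prod

/-- The automaton is `m`-primitive: some Hurwitz product is positive. -/
def MPrimitive (a : Aut n m) : Prop :=
  ∃ α : Fin m → ℕ, 1 ≤ ∑ i, α i ∧ ∀ q p, 0 < hurwitz a α q p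

theorem run_nil (a : Aut n m) (p : Fin n) : run a [] p = p := rfl

theorem run_append (a : Aut n m) (u v : List (Fin m)) (p : Fin n) :
    run a (u ++ v) p = run a v (run a u p) := by
  unfold run
  rw [List.foldl_append]

theorem run_singleton (a : Aut n m) (i : Fin m) (p : Fin n) : run a [i] p = a i p := rfl

/-! ### Hurwitz products -/

theorem prod_apply (a : Aut n m) (w : List (Fin m)) (q p : Fin n) :
    (w.map (mat a)).prod q p = if run a w.reverse p = q then 1 else 0 := by
  induction w generalizing q with
  | nil =>
    simp only [List.map_nil, List.prod_nil, List.reverse_nil, run_nil, Matrix.one_apply]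
    by_cases h : q = p
    · simp [h]
    · simp [h, Ne.symm h]
  | cons i w ih =>
    rw [List.map_cons, List.prod_cons, Matrix.mul_apply, List.reverse_cons, run_append,
      run_singleton]
    have : ∀ r, mat a i q r * (w.map (mat a)).prod r p =
        if r = run a w.reverse p then (if a i r = q then 1 else 0) else 0 := by
      intro r
      rw [ih r]
      unfold mat
      by_cases h : run a w.reverse p = r
      · simp [h]
      · simp [h, Ne.symm h]
    rw [Finset.sum_congr rfl fun r _ => this r, Finset.sum_ite_eq']
    simp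

theorem count_ofFn {k : ℕ} (f : Fin k → Fin m) (i : Fin m) :
    (List.ofFn f).count i = (Finset.univ.filter (fun j => f j = i)).card := by
  induction k with
  | zero => simp
  | succ k ih =>
    rw [List.ofFn_succ, List.count_cons, ih, Fin.card_filter_univ_succ']
    by_cases h : f 0 = i
    · simp [h]
      ring
    · simp [h]

/-- The entry `(q, p)` of a Hurwitz product is positive iff some word with these letter counts
sends `p` to `q`. -/
theorem hurwitz_pos {a : Aut n m} {α : Fin m → ℕ} {q p : Fin n} (h : 0 < hurwitz a α q p) :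
    ∃ w : List (Fin m), (∀ i, w.count i = α i) ∧ run a w p = q := by
  unfold hurwitz at h
  rw [Matrix.sum_apply] at h
  obtain ⟨w, hw, hpos⟩ := Finset.exists_ne_zero_of_sum_ne_zero h.ne'
  have h1 : List.ofFn (fun j => mat a (w j)) = (List.ofFn w).map (mat a) := by
    rw [List.map_ofFn]
    rfl
  rw [h1, prod_apply] at hpos
  refine ⟨(List.ofFn w).reverse, fun i => ?_, ?_⟩
  · rw [List.count_reverse, count_ofFn]
    exact (Finset.mem_filter.1 hw).2 i
  · by_contra hne
    rw [if_neg hne] at hpos
    exact hpos rfl

theorem MPrimitive.mSync {a : Aut n m} (hn : 0 < n) (h : MPrimitive a) : MSync a := by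
  obtain ⟨α, h1, h2⟩ := h
  exact ⟨α, h1, ⟨0, hn⟩, fun p => hurwitz_pos (h2 _ p)⟩

/-! ### Upward closedness -/

theorem count_blocks (x : Fin m → ℕ) (i : Fin m) :
    ((List.finRange m).flatMap (fun j => List.replicate (x j) j)).count i = x i := by
  rw [List.count_flatMap]
  have h : (List.map (List.count i ∘ fun j => List.replicate (x j) j) (List.finRange m)) =
      (List.finRange m).map (fun j => if j = i then x j else 0) := by
    refine List.map_congr_left fun j _ => ?_
    simp [List.count_replicate]
  rw [h, ← List.ofFn_eq_map, List.sum_ofFn, Finset.sum_ite_eq']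
  simp

theorem IsReset.mono {a : Aut n m} {α β : Fin m → ℕ} (h : IsReset a α) (hle : ∀ i, α i ≤ β i) :
    IsReset a β := by
  obtain ⟨h1, q₀, h2⟩ := h
  refine ⟨h1.trans (Finset.sum_le_sum fun i _ => hle i), q₀, fun p => ?_⟩
  obtain ⟨w, hw, hr⟩ := h2 (run a ((List.finRange m).flatMap
    (fun j => List.replicate (β j - α j) j)) p)
  refine ⟨(List.finRange m).flatMap (fun j => List.replicate (β j - α j) j) ++ w, fun i => ?_, ?_⟩
  · rw [List.count_append, count_blocks, hw]
    have := hle i
    omega
  · rw [run_append, hr]

/-! ### Short words with given residues -/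

theorem short_word (a : Aut n m) (κ : ℕ) (hκ : 0 < κ) (α : Fin m → ℕ) {p q : Fin n}
    (h : ∃ w : List (Fin m), (∀ i, w.count i = α i) ∧ run a w p = q) :
    ∃ w : List (Fin m), (∀ i, w.count i ≡ α i [MOD κ]) ∧ run a w p = q ∧
      w.length < n * κ ^ m := by
  have : NeZero κ := ⟨hκ.ne'⟩
  have hex : ∃ k, ∃ w : List (Fin m), w.length = k ∧ (∀ i, w.count i ≡ α i [MOD κ]) ∧
      run a w p = q := by
    obtain ⟨w, hw, hr⟩ := h
    exact ⟨w.length, w, rfl, fun i => by rw [hw i], hr⟩
  classical
  obtain ⟨w, hl, hw, hr⟩ := Nat.find_spec hex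
  have hmin := fun k (hk : k < Nat.find hex) => Nat.find_min hex hk
  refine ⟨w, hw, hr, ?_⟩
  by_contra hlt
  push Not at hlt
  have hcard : Fintype.card (Fin n × (Fin m → ZMod κ)) = n * κ ^ m := by
    rw [Fintype.card_prod, Fintype.card_fun, Fintype.card_fin, Fintype.card_fin, ZMod.card]
  let f : Fin (w.length + 1) → Fin n × (Fin m → ZMod κ) := fun j =>
    (run a (w.take j) p, fun i => ((w.take j).count i : ZMod κ))
  obtain ⟨j, k, hjk, hf⟩ := Fintype.exists_ne_map_eq_of_card_lt f (by
    rw [hcard, Fintype.card_fin]; omega)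
  wlog hlt' : j < k generalizing j k
  · exact this k j hjk.symm hf.symm (lt_of_le_of_ne (not_lt.1 hlt') hjk.symm)
  have h1 : run a (w.take j) p = run a (w.take k) p := congrArg Prod.fst hf
  have h2 : ∀ i, ((w.take j).count i : ZMod κ) = ((w.take k).count i : ZMod κ) := fun i =>
    congrFun (congrArg Prod.snd hf) i
  refine hmin (w.take j ++ w.drop k).length ?_ ⟨w.take j ++ w.drop k, rfl, fun i => ?_, ?_⟩
  · rw [← hl, List.length_append, List.length_take, List.length_drop]
    have := k.2
    have := j.2
    have : (j : ℕ) < k := hlt'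
    omega
  · refine Nat.ModEq.trans ?_ (hw i)
    have h3 : w.count i = (w.take k).count i + (w.drop k).count i := by
      rw [← List.count_append, List.take_append_drop]
    rw [List.count_append, h3]
    exact Nat.ModEq.add_right _ ((ZMod.natCast_eq_natCast_iff _ _ _).1 (h2 i))
  · rw [run_append, h1, ← run_append, List.take_append_drop]
    exact hr

/-! ### Cycles of a letter -/

theorem run_replicate (a : Aut n m) (i : Fin m) (k : ℕ) (p : Fin n) :
    run a (List.replicate k i) p = (a i)^[k] p := by
  induction k generalizing p with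
  | zero => rfl
  | succ k ih =>
    rw [List.replicate_succ, Function.iterate_succ_apply, ← ih]
    rfl

theorem iterate_factorial (f : Fin n → Fin n) (x : ℕ) (p : Fin n) :
    f^[n + n.factorial * x] p = f^[n] p := by
  obtain ⟨s, t, hst, hf⟩ := Fintype.exists_ne_map_eq_of_card_lt
    (fun j : Fin (n + 1) => f^[j] p) (by simp)
  wlog hlt : s < t generalizing s t
  · exact this t s hst.symm hf.symm (lt_of_le_of_ne (not_lt.1 hlt) hst.symm)
  have hlt' : (s : ℕ) < t := hlt
  have ht := t.2
  have hper : Function.IsPeriodicPt f (t - s) (f^[n] p) := by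
    unfold Function.IsPeriodicPt Function.IsFixedPt
    have h1 : f^[n] p = f^[n - s] (f^[s] p) := by
      rw [← Function.iterate_add_apply]
      congr 2
      omega
    rw [h1, ← Function.iterate_add_apply]
    have h2 : ((t : ℕ) - s) + (n - s) = (n - s) + (t - s) := by omega
    rw [h2, Function.iterate_add_apply, ← Function.iterate_add_apply f (t - s) s]
    have h3 : (t : ℕ) - s + s = t := by omega
    rw [h3]
    exact congrArg _ hf.symm
  have hdvd : ((t : ℕ) - s) ∣ n.factorial * x :=
    Dvd.dvd.mul_right (Nat.dvd_factorial (by omega) (by omega)) x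
  have h4 := hper.trans_dvd hdvd
  rw [add_comm, Function.iterate_add_apply]
  exact h4

theorem run_blocks (a : Aut n m) (x : Fin m → ℕ) (l : List (Fin m)) (p : Fin n) :
    run a (l.flatMap (fun j => List.replicate (n + n.factorial * x j) j)) p =
      run a (l.flatMap (fun j => List.replicate n j)) p := by
  induction l generalizing p with
  | nil => rfl
  | cons i l ih =>
    rw [List.flatMap_cons, List.flatMap_cons, run_append, run_append, ih, run_replicate,
      run_replicate, iterate_factorial]

/-! ### The bound -/

theorem reset_const {a : Aut n m} (h : MSync a) {N : ℕ}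
    (hN : n * n.factorial ^ m + n + n.factorial ≤ N) : IsReset a (fun _ => N) := by
  obtain ⟨α, h1, q₀, h2⟩ := h
  have hκ : 0 < n.factorial := Nat.factorial_pos n
  set κ := n.factorial with hκdef
  set B := n * κ ^ m with hB
  -- a number congruent to `α i` between `B` and `B + κ`
  let c : Fin m → ℕ := fun i => B + (α i + (κ - 1) * B) % κ
  have hc1 : ∀ i, c i ≡ α i [MOD κ] := by
    intro i
    have h3 : c i ≡ B + (α i + (κ - 1) * B) [MOD κ] :=
      Nat.ModEq.add_left _ (Nat.mod_modEq _ _)
    refine h3.trans ?_
    have h4 : B + (α i + (κ - 1) * B) = α i + κ * B := by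
      obtain ⟨k, hk⟩ : ∃ k, κ = k + 1 := ⟨κ - 1, by omega⟩
      rw [hk]
      simp only [Nat.add_sub_cancel]
      ring
    rw [h4]
    exact (Nat.modEq_iff_dvd' (by omega)).2 ⟨B, by simp⟩ |>.symm
  have hc2 : ∀ i, B ≤ c i := fun i => Nat.le_add_right _ _
  have hc3 : ∀ i, c i < B + κ := fun i => Nat.add_lt_add_left (Nat.mod_lt _ hκ) _
  refine IsReset.mono (α := fun i => n + c i) ?_ (fun i => ?_)
  · refine ⟨?_, run a ((List.finRange m).flatMap (fun j => List.replicate n j)) q₀, fun p => ?_⟩
    · -- there is a letter, and there are states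
      obtain ⟨i, _, hi⟩ := Finset.exists_ne_zero_of_sum_ne_zero (by omega : ∑ i, α i ≠ 0)
      have : 1 ≤ n + c i := by have := q₀.2; omega
      exact this.trans (Finset.single_le_sum (f := fun i => n + c i) (fun _ _ => Nat.zero_le _)
        (Finset.mem_univ i))
    · obtain ⟨w, hw, hr, hl⟩ := short_word a κ hκ α (h2 p)
      have hcnt : ∀ i, ∃ x, c i = w.count i + κ * x := by
        intro i
        have h3 : w.count i ≤ c i := (List.count_le_length).trans (hl.le.trans (hc2 i))
        have h4 : w.count i ≡ c i [MOD κ] := (hw i).trans (hc1 i).symm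
        obtain ⟨x, hx⟩ := (Nat.modEq_iff_dvd' h3).1 h4
        exact ⟨x, by omega⟩
      choose x hx using hcnt
      refine ⟨w ++ (List.finRange m).flatMap (fun j => List.replicate (n + κ * x j) j),
        fun i => ?_, ?_⟩
      · change _ = n + c i
        rw [List.count_append, count_blocks (fun j => n + κ * x j), hx i]
        ring
      · rw [run_append, hr]
        exact run_blocks a x _ q₀
  · have := hc3 i
    omega

end Pool.Agent.V11230.RT
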