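import Mathlib
import Pool.Agent.H622R2.MatGraph

/-!
# The star dichromatic number: definitions and the construction
-/

set_option autoImplicit false

namespace Pool.Agent.V11230.SD

open Finset

/-! ### Definitions -/

/-- the digraph with arc relation `A` has no directed cycle inside `X` -/
def Acyc {V : Type} (A : V → V → Prop) (X : Set V) : Prop :=
  ∀ v, ¬ Relation.TransGen (fun x y => x ∈ X ∧ y ∈ X ∧ A x y) v v

/-- an acyclic `(k, d)`-colouring: for every `i`, the set of the vertices with a colour in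
`{i, i + 1, ..., i + d - 1}` is acyclic -/
def IsCol {V : Type} (A : V → V → Prop) (k d : ℕ) (c : V → ZMod k) : Prop :=
  ∀ i : ZMod k, Acyc A {v | ∃ j : ℕ, j < d ∧ c v = i + (j : ZMod k)}

/-- there is an acyclic `(k, d)`-colouring -/
def Col {V : Type} (A : V → V → Prop) (k d : ℕ) : Prop := ∃ c : V → ZMod k, IsCol A k d c

/-- the star dichromatic number -/
noncomputable def starDi {V : Type} (A : V → V → Prop) : ℝ :=
  sInf {x : ℝ | ∃ k d : ℕ, (1 ≤ d ∧ d ≤ k) ∧ Col A k d ∧ x = (k : ℝ) / d}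

theorem Acyc.of_rank {V : Type} {A : V → V → Prop} {X : Set V} (r : V → ℕ)
    (h : ∀ x ∈ X, ∀ y ∈ X, A x y → r x < r y) : Acyc A X := by
  intro v hv
  have key : ∀ y, Relation.TransGen (fun x y => x ∈ X ∧ y ∈ X ∧ A x y) v y → r v < r y := by
    intro y hy
    induction hy with
    | single h1 => exact h _ h1.1 _ h1.2.1 h1.2.2
    | tail _ h1 ih => exact ih.trans (h _ h1.1 _ h1.2.1 h1.2.2)
  exact lt_irrefl _ (key v hv)

theorem Col.comap {V W : Type} {A : V → V → Prop} {B : W → W → Prop} (f : V → W)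
    (h : ∀ x y, A x y → B (f x) (f y)) {k d : ℕ} (hc : Col B k d) : Col A k d := by
  obtain ⟨c, hc⟩ := hc
  refine ⟨c ∘ f, fun i v hv => ?_⟩
  refine hc i (f v) ?_
  have key : ∀ y, Relation.TransGen (fun x y => x ∈ {v | ∃ j : ℕ, j < d ∧
      (c ∘ f) v = i + (j : ZMod k)} ∧ y ∈ {v | ∃ j : ℕ, j < d ∧
      (c ∘ f) v = i + (j : ZMod k)} ∧ A x y) v y →
      Relation.TransGen (fun x y => x ∈ {v | ∃ j : ℕ, j < d ∧ c v = i + (j : ZMod k)} ∧
        y ∈ {v | ∃ j : ℕ, j < d ∧ c v = i + (j : ZMod k)} ∧ B x y) (f v) (f y) := by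
    intro y hy
    induction hy with
    | single h1 => exact Relation.TransGen.single ⟨h1.1, h1.2.1, h _ _ h1.2.2⟩
    | tail _ h1 ih => exact ih.tail ⟨h1.1, h1.2.1, h _ _ h1.2.2⟩
  exact key v hv

theorem col_nonempty (n : ℕ) (A : Fin n → Fin n → Prop) (hA : ∀ x y, A x y → x ≠ y) :
    ∃ x : ℝ, ∃ k d : ℕ, (1 ≤ d ∧ d ≤ k) ∧ Col A k d ∧ x = (k : ℝ) / d := by
  refine ⟨_, n + 1, 1, ⟨le_refl _, by omega⟩, ⟨fun v => ((v.val : ℕ) : ZMod (n + 1)), ?_⟩, rfl⟩
  intro i v hv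
  have key : ∀ x y : Fin n, (∃ j : ℕ, j < 1 ∧ ((x.val : ℕ) : ZMod (n + 1)) =
      i + (j : ZMod (n + 1))) → (∃ j : ℕ, j < 1 ∧ ((y.val : ℕ) : ZMod (n + 1)) =
      i + (j : ZMod (n + 1))) → x = y := by
    rintro x y ⟨j, hj, hx⟩ ⟨j', hj', hy⟩
    obtain rfl : j = 0 := by omega
    obtain rfl : j' = 0 := by omega
    rw [← hy] at hx
    have h1 := congrArg ZMod.val hx
    rw [ZMod.val_cast_of_lt (by omega), ZMod.val_cast_of_lt (by omega)] at h1
    exact Fin.ext h1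
  rcases Relation.TransGen.head'_iff.1 hv with ⟨w, hw, _⟩
  exact hA _ _ hw.2.2 (key _ _ hw.1 hw.2.1)

/-! ### The construction -/

/-- labels: kind and two parameters -/
abbrev Lab : Type := ℕ × ℕ × ℕ

/-- the parameters: the number of clauses, and the conflicts -/
structure Par where
  /-- the number of the clauses -/
  n : ℕ
  /-- the conflicts -/
  cf : ℕ → ℕ → Bool

/-- the arcs between labels -/
def adj (r : ℕ) (cf : ℕ → ℕ → Bool) (x y : Lab) : Bool :=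
  (([(0, 0), (1, 1)] : List (ℕ × ℕ)).contains (x.1, y.1) &&
    decide ((x.2.2 = 0 ∧ y.2.2 = 0) ∧ (y.2.1 = x.2.1 + 1 ∧ y.2.1 < r))) ||
  ((([(0, 2), (0, 3), (1, 2), (1, 4)] : List (ℕ × ℕ)).contains (x.1, y.1) &&
    decide ((x.2.1 + 1 = r ∧ x.2.2 = 0) ∧ y.2 = (0, 0))) ||
  ((([(2, 3), (2, 5), (3, 4), (3, 1), (4, 0), (4, 5), (5, 0), (5, 1), (7, 4), (8, 4), (10, 4),
      (9, 5), (9, 4), (11, 5), (12, 5)] : List (ℕ × ℕ)).contains (x.1, y.1) &&
    decide (y.2 = (0, 0))) ||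
  (([(2, 6), (2, 7), (2, 10), (3, 8), (3, 11), (3, 12)] : List (ℕ × ℕ)).contains (x.1, y.1) ||
  ((([(8, 10), (10, 9), (11, 8), (12, 9)] : List (ℕ × ℕ)).contains (x.1, y.1) &&
    decide (y.2 = x.2)) ||
  (decide ((x.1 = 3 ∧ y.1 = 6) ∧ y.2.1 % 3 = 0) ||
  (decide ((x.1 = 6 ∧ y.1 = 5) ∧ (x.2.1 % 3 = 2 ∧ y.2 = (0, 0))) ||
  ((decide ((x.1 = 6 ∧ y.1 = 11) ∧ y.2.1 = x.2.1) && cf x.2.1 y.2.2) ||
  ((decide ((x.1 = 6 ∧ y.1 = 12) ∧ y.2.2 = x.2.1) && cf y.2.1 x.2.1) ||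
  (decide ((x.1 = 6 ∧ y.1 = 7) ∧ (y.2 = x.2 ∧ x.2.1 % 3 < 2)) ||
  decide ((x.1 = 7 ∧ y.1 = 6) ∧ (y.2 = (x.2.1 + 1, x.2.2) ∧ x.2.1 % 3 < 2)))))))))))

/-- the labels -/
def vs (r n : ℕ) : List Lab :=
  (List.product (List.range 13) (List.product (List.range (3 * n + r))
    (List.range (3 * n + r)))).filter
    (fun x => decide (x.1 < 6) || decide (x.2.1 < 3 * n ∧ x.2.2 < 3 * n))

/-- the arcs between the labels of the digraph -/
def Arc (r : ℕ) (P : Par) (x y : Lab) : Prop :=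
  (x ∈ vs r P.n ∧ y ∈ vs r P.n) ∧ adj r P.cf x y = true

theorem mem_vs {r n κ p q : ℕ} : (κ, p, q) ∈ vs r n ↔
    (κ < 13 ∧ p < 3 * n + r ∧ q < 3 * n + r) ∧ (κ < 6 ∨ (p < 3 * n ∧ q < 3 * n)) := by
  unfold vs
  rw [List.mem_filter, List.pair_mem_product, List.pair_mem_product, List.mem_range,
    List.mem_range, List.mem_range, Bool.or_eq_true, decide_eq_true_iff, decide_eq_true_iff]

theorem nodup_vs (r n : ℕ) : (vs r n).Nodup := by
  unfold vs
  exact List.Nodup.filter _ (List.nodup_range.product (List.nodup_range.product List.nodup_range))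

/-- the requirement for an assignment -/
def Ok (P : Par) (a : ℕ → Prop) : Prop :=
  (∀ e < P.n, a (3 * e) ∨ a (3 * e + 1) ∨ a (3 * e + 2)) ∧
    ∀ p < 3 * P.n, ∀ q < 3 * P.n, P.cf p q = true → ¬ (a p ∧ a q)

/-! ### From an assignment to a colouring -/

section
open Classical

variable (r : ℕ) (P : Par) (a : ℕ → Prop)

/-- the value of a label -/
def tv (x : Lab) : Prop :=
  if x.1 = 2 ∨ x.1 = 4 ∨ x.1 = 11 ∨ x.1 = 12 then True
  else if x.1 = 6 then a x.2.1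
  else if x.1 = 8 then ¬ a x.2.1
  else if x.1 = 9 then ¬ (a x.2.2 ∧ P.cf x.2.1 x.2.2 = true)
  else False

/-- the colour of a label -/
noncomputable def cl (x : Lab) : ℕ :=
  if x.1 < 2 then min x.2.1 (r - 1) else if tv P a x then r else r + 1

/-- the rank when a colour of the hub is removed -/
noncomputable def rkH (κ : ℕ) (x : Lab) : ℕ :=
  if x.1 < 2 then (if κ < x.2.1 then x.2.1 else 6 * P.n + 2 * r + 30 + x.2.1)
  else if x.1 = 2 then r + 1
  else if x.1 = 3 then r + 2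
  else if x.1 = 6 then r + 3 + 2 * x.2.1
  else if x.1 = 7 then r + 4 + 2 * x.2.1
  else if x.1 = 11 ∨ x.1 = 12 then r + 6 * P.n + 4
  else if x.1 = 8 then r + 6 * P.n + 5
  else if x.1 = 10 then r + 6 * P.n + 6
  else if x.1 = 9 then r + 6 * P.n + 7
  else if x.1 = 4 then r + 6 * P.n + 8
  else r + 6 * P.n + 9

/-- there is an earlier true literal in the clause -/
def aft (p : ℕ) : Prop := (1 ≤ p % 3 ∧ a (p - 1)) ∨ (p % 3 = 2 ∧ a (p - 2))

/-- the rank when the colour `r` is removed -/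
noncomputable def rkA (x : Lab) : ℕ :=
  if x.1 = 0 then 11 + x.2.1
  else if x.1 = 1 then r + 30 + x.2.1
  else if x.1 = 3 then 12 + r
  else if x.1 = 5 then 10
  else if x.1 = 6 then (if aft a x.2.1 then 2 * (x.2.1 % 3) else r + 13 + 2 * (x.2.1 % 3))
  else if x.1 = 7 then (if a x.2.1 ∨ aft a x.2.1 then 2 * (x.2.1 % 3) + 1
    else r + 14 + 2 * (x.2.1 % 3))
  else if x.1 = 8 then r + 13
  else if x.1 = 10 then (if a x.2.1 then r + 14 else 1)
  else if x.1 = 9 then 2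
  else 0

/-- the rank when the colour `r + 1` is removed -/
noncomputable def rkB (x : Lab) : ℕ :=
  if x.1 = 0 then r + 3 + x.2.1
  else if x.1 = 1 then x.2.1
  else if x.1 = 2 then 2 * r + 4
  else if x.1 = 4 then r + 2
  else if x.1 = 6 then 2 * r + 5
  else if x.1 = 8 ∨ x.1 = 9 then r + 1
  else if x.1 = 11 then (if a x.2.1 then 2 * r + 6 else r)
  else if x.1 = 12 then (if a x.2.2 ∧ P.cf x.2.1 x.2.2 = true then 2 * r + 6 else r)
  else 0

end

end Pool.Agent.V11230.SD
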