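import Pool.Agent.V11230.SD1

/-!
# The star dichromatic number: from assignments to colourings
-/

set_option autoImplicit false

namespace Pool.Agent.V11230.SD

theorem adj_iff {r : ℕ} {cf : ℕ → ℕ → Bool} {κ p q κ' p' q' : ℕ} :
    adj r cf (κ, p, q) (κ', p', q') = true ↔
  (κ = 0 ∧ κ' = 0 ∨ κ = 1 ∧ κ' = 1) ∧ (q = 0 ∧ q' = 0) ∧ p' = p + 1 ∧ p' < r ∨
  (κ = 0 ∧ κ' = 2 ∨ κ = 0 ∧ κ' = 3 ∨ κ = 1 ∧ κ' = 2 ∨ κ = 1 ∧ κ' = 4) ∧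
    (p + 1 = r ∧ q = 0) ∧ p' = 0 ∧ q' = 0 ∨
  (κ = 2 ∧ κ' = 3 ∨ κ = 2 ∧ κ' = 5 ∨ κ = 3 ∧ κ' = 4 ∨ κ = 3 ∧ κ' = 1 ∨ κ = 4 ∧ κ' = 0 ∨
    κ = 4 ∧ κ' = 5 ∨ κ = 5 ∧ κ' = 0 ∨ κ = 5 ∧ κ' = 1 ∨ κ = 7 ∧ κ' = 4 ∨ κ = 8 ∧ κ' = 4 ∨
    κ = 10 ∧ κ' = 4 ∨ κ = 9 ∧ κ' = 5 ∨ κ = 9 ∧ κ' = 4 ∨ κ = 11 ∧ κ' = 5 ∨ κ = 12 ∧ κ' = 5) ∧
    p' = 0 ∧ q' = 0 ∨
  (κ = 2 ∧ κ' = 6 ∨ κ = 2 ∧ κ' = 7 ∨ κ = 2 ∧ κ' = 10 ∨ κ = 3 ∧ κ' = 8 ∨ κ = 3 ∧ κ' = 11 ∨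
    κ = 3 ∧ κ' = 12) ∨
  (κ = 8 ∧ κ' = 10 ∨ κ = 10 ∧ κ' = 9 ∨ κ = 11 ∧ κ' = 8 ∨ κ = 12 ∧ κ' = 9) ∧ p' = p ∧ q' = q ∨
  (κ = 3 ∧ κ' = 6) ∧ p' % 3 = 0 ∨
  (κ = 6 ∧ κ' = 5) ∧ p % 3 = 2 ∧ p' = 0 ∧ q' = 0 ∨
  ((κ = 6 ∧ κ' = 11) ∧ p' = p) ∧ cf p q' = true ∨
  ((κ = 6 ∧ κ' = 12) ∧ q' = p) ∧ cf p' p = true ∨
  (κ = 6 ∧ κ' = 7) ∧ (p' = p ∧ q' = q) ∧ p % 3 < 2 ∨
  (κ = 7 ∧ κ' = 6) ∧ (p' = p + 1 ∧ q' = q) ∧ p % 3 < 2 := by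
  unfold adj
  simp only [List.contains_cons, List.contains_nil, Bool.or_false, Bool.or_eq_true,
    Bool.and_eq_true, decide_eq_true_eq, beq_iff_eq, Prod.mk.injEq]

variable {r : ℕ} {P : Par} {a : ℕ → Prop}

theorem rkH_lt {κ0 : ℕ} (hκ : κ0 < r) {x y : Lab} (h : Arc r P x y) (cx : cl r P a x ≠ κ0)
    (cy : cl r P a y ≠ κ0) : rkH r P κ0 x < rkH r P κ0 y := by
  obtain ⟨κ, p, q⟩ := x
  obtain ⟨κ', p', q'⟩ := y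
  obtain ⟨⟨hx, hy⟩, h⟩ := h
  rw [mem_vs] at hx hy
  rw [adj_iff] at h
  rcases h with h | h | h | h | h | h | h | h | h | h | h
  · obtain ⟨h1, ⟨rfl, rfl⟩, rfl, h2⟩ := h
    rcases h1 with ⟨rfl, rfl⟩ | ⟨rfl, rfl⟩ <;> simp [rkH, cl] at cx cy ⊢ <;> split_ifs <;> omega
  · obtain ⟨h1, ⟨h2, rfl⟩, rfl, rfl⟩ := h
    rcases h1 with ⟨rfl, rfl⟩ | ⟨rfl, rfl⟩ | ⟨rfl, rfl⟩ | ⟨rfl, rfl⟩ <;>
      simp [rkH, cl] at cx cy ⊢ <;> split_ifs <;> omega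
  · obtain ⟨h1, rfl, rfl⟩ := h
    rcases h1 with ⟨rfl, rfl⟩ | ⟨rfl, rfl⟩ | ⟨rfl, rfl⟩ | ⟨rfl, rfl⟩ | ⟨rfl, rfl⟩ | ⟨rfl, rfl⟩ |
      ⟨rfl, rfl⟩ | ⟨rfl, rfl⟩ | ⟨rfl, rfl⟩ | ⟨rfl, rfl⟩ | ⟨rfl, rfl⟩ | ⟨rfl, rfl⟩ |
      ⟨rfl, rfl⟩ | ⟨rfl, rfl⟩ | ⟨rfl, rfl⟩ <;>
      simp [rkH] <;> omega
  · rcases h with ⟨rfl, rfl⟩ | ⟨rfl, rfl⟩ | ⟨rfl, rfl⟩ | ⟨rfl, rfl⟩ | ⟨rfl, rfl⟩ | ⟨rfl, rfl⟩ <;>
      simp [rkH] <;> omega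
  · obtain ⟨h1, rfl, rfl⟩ := h
    rcases h1 with ⟨rfl, rfl⟩ | ⟨rfl, rfl⟩ | ⟨rfl, rfl⟩ | ⟨rfl, rfl⟩ <;> simp [rkH]
  · obtain ⟨⟨rfl, rfl⟩, h2⟩ := h
    simp [rkH]
    omega
  · obtain ⟨⟨rfl, rfl⟩, h2, rfl, rfl⟩ := h
    simp [rkH]
    omega
  · obtain ⟨⟨⟨rfl, rfl⟩, rfl⟩, h2⟩ := h
    simp [rkH]
    omega
  · obtain ⟨⟨⟨rfl, rfl⟩, rfl⟩, h2⟩ := h
    simp [rkH]
    omega
  · obtain ⟨⟨rfl, rfl⟩, ⟨rfl, rfl⟩, h2⟩ := h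
    simp [rkH]
  · obtain ⟨⟨rfl, rfl⟩, ⟨rfl, rfl⟩, h2⟩ := h
    simp [rkH]
    omega

theorem rkB_lt (hr : 1 ≤ r) (ho : Ok P a) {x y : Lab} (h : Arc r P x y)
    (cx : cl r P a x ≠ r + 1)
    (cy : cl r P a y ≠ r + 1) : rkB r P a x < rkB r P a y := by
  obtain ⟨κ, p, q⟩ := x
  obtain ⟨κ', p', q'⟩ := y
  obtain ⟨⟨hx, hy⟩, h⟩ := h
  rw [mem_vs] at hx hy
  rw [adj_iff] at h
  rcases h with h | h | h | h | h | h | h | h | h | h | h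
  · obtain ⟨h1, ⟨rfl, rfl⟩, rfl, h2⟩ := h
    rcases h1 with ⟨rfl, rfl⟩ | ⟨rfl, rfl⟩ <;> simp [rkB] <;> omega
  · obtain ⟨h1, ⟨h2, rfl⟩, rfl, rfl⟩ := h
    rcases h1 with ⟨rfl, rfl⟩ | ⟨rfl, rfl⟩ | ⟨rfl, rfl⟩ | ⟨rfl, rfl⟩ <;>
      simp [rkB, cl, tv] at cx cy ⊢ <;> omega
  · obtain ⟨h1, rfl, rfl⟩ := h
    rcases h1 with ⟨rfl, rfl⟩ | ⟨rfl, rfl⟩ | ⟨rfl, rfl⟩ | ⟨rfl, rfl⟩ | ⟨rfl, rfl⟩ | ⟨rfl, rfl⟩ |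
      ⟨rfl, rfl⟩ | ⟨rfl, rfl⟩ | ⟨rfl, rfl⟩ | ⟨rfl, rfl⟩ | ⟨rfl, rfl⟩ | ⟨rfl, rfl⟩ |
      ⟨rfl, rfl⟩ | ⟨rfl, rfl⟩ | ⟨rfl, rfl⟩ <;>
      simp [rkB, cl, tv] at cx cy ⊢
  · rcases h with ⟨rfl, rfl⟩ | ⟨rfl, rfl⟩ | ⟨rfl, rfl⟩ | ⟨rfl, rfl⟩ | ⟨rfl, rfl⟩ | ⟨rfl, rfl⟩ <;>
      simp [rkB, cl, tv] at cx cy ⊢
  · obtain ⟨h1, rfl, rfl⟩ := h
    rcases h1 with ⟨rfl, rfl⟩ | ⟨rfl, rfl⟩ | ⟨rfl, rfl⟩ | ⟨rfl, rfl⟩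
    · simp [cl, tv] at cy
    · simp [cl, tv] at cx
    · have h3 : ¬ a p' := by
        intro h3
        simp [cl, tv, h3] at cy
      simp [rkB, h3]
    · have h3 : ¬ (a q' ∧ P.cf p' q' = true) := by
        intro h3
        simp [cl, tv, h3.1, h3.2] at cy
      simp only [rkB, if_neg h3]
      simp
  · obtain ⟨⟨rfl, rfl⟩, h2⟩ := h
    simp [cl, tv] at cx
  · obtain ⟨⟨rfl, rfl⟩, h2, rfl, rfl⟩ := h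
    simp [cl, tv] at cy
  · obtain ⟨⟨⟨rfl, rfl⟩, rfl⟩, h2⟩ := h
    have h3 : a p' := by
      by_contra h3
      simp [cl, tv, h3] at cx
    simp [rkB, h3]
  · obtain ⟨⟨⟨rfl, rfl⟩, rfl⟩, h2⟩ := h
    have h3 : a q' := by
      by_contra h3
      simp [cl, tv, h3] at cx
    simp [rkB, h3, h2]
  · obtain ⟨⟨rfl, rfl⟩, ⟨rfl, rfl⟩, h2⟩ := h
    simp [cl, tv] at cy
  · obtain ⟨⟨rfl, rfl⟩, ⟨rfl, rfl⟩, h2⟩ := h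
    simp [cl, tv] at cx

theorem rkA_lt (hr : 1 ≤ r) (ho : Ok P a) {x y : Lab} (h : Arc r P x y)
    (cx : cl r P a x ≠ r) (cy : cl r P a y ≠ r) : rkA r a x < rkA r a y := by
  obtain ⟨κ, p, q⟩ := x
  obtain ⟨κ', p', q'⟩ := y
  obtain ⟨⟨hx, hy⟩, h⟩ := h
  rw [mem_vs] at hx hy
  rw [adj_iff] at h
  rcases h with h | h | h | h | h | h | h | h | h | h | h
  · obtain ⟨h1, ⟨rfl, rfl⟩, rfl, h2⟩ := h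
    rcases h1 with ⟨rfl, rfl⟩ | ⟨rfl, rfl⟩ <;> simp [rkA] <;> omega
  · obtain ⟨h1, ⟨h2, rfl⟩, rfl, rfl⟩ := h
    rcases h1 with ⟨rfl, rfl⟩ | ⟨rfl, rfl⟩ | ⟨rfl, rfl⟩ | ⟨rfl, rfl⟩ <;>
      simp [rkA, cl, tv] at cx cy ⊢ <;> omega
  · obtain ⟨h1, rfl, rfl⟩ := h
    rcases h1 with ⟨rfl, rfl⟩ | ⟨rfl, rfl⟩ | ⟨rfl, rfl⟩ | ⟨rfl, rfl⟩ | ⟨rfl, rfl⟩ | ⟨rfl, rfl⟩ |
      ⟨rfl, rfl⟩ | ⟨rfl, rfl⟩ | ⟨rfl, rfl⟩ | ⟨rfl, rfl⟩ | ⟨rfl, rfl⟩ | ⟨rfl, rfl⟩ |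
      ⟨rfl, rfl⟩ | ⟨rfl, rfl⟩ | ⟨rfl, rfl⟩ <;>
      simp [rkA, cl, tv] at cx cy ⊢ <;> omega
  · rcases h with ⟨rfl, rfl⟩ | ⟨rfl, rfl⟩ | ⟨rfl, rfl⟩ | ⟨rfl, rfl⟩ | ⟨rfl, rfl⟩ | ⟨rfl, rfl⟩ <;>
      simp [rkA, cl, tv] at cx cy ⊢
    omega
  · obtain ⟨h1, rfl, rfl⟩ := h
    have hlt : p' < 3 * P.n ∧ q' < 3 * P.n := by omega
    rcases h1 with ⟨rfl, rfl⟩ | ⟨rfl, rfl⟩ | ⟨rfl, rfl⟩ | ⟨rfl, rfl⟩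
    · have h3 : a p' := by
        by_contra h3
        simp [cl, tv, h3] at cx
      simp [rkA, h3]
    · have h3 : a q' ∧ P.cf p' q' = true := by
        by_contra h3
        have h6 : tv P a (9, p', q') := by simpa [tv] using h3
        apply cy
        unfold cl
        rw [if_neg (by simp), if_pos h6]
      have h4 : ¬ a p' := fun h4 => ho.2 p' hlt.1 q' hlt.2 h3.2 ⟨h4, h3.1⟩
      simp [rkA, h4]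
    · simp [cl, tv] at cx
    · simp [cl, tv] at cx
  · obtain ⟨⟨rfl, rfl⟩, h2⟩ := h
    have h3 : ¬ aft a p' := by
      unfold aft
      rintro (h | h) <;> omega
    simp only [rkA, if_neg h3]
    simp
    omega
  · obtain ⟨⟨rfl, rfl⟩, h2, rfl, rfl⟩ := h
    have h3 : ¬ a p := by
      intro h3
      simp [cl, tv, h3] at cx
    have hlt : p < 3 * P.n := by omega
    have h4 : aft a p := by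
      have h5 := ho.1 (p / 3) (by omega)
      rw [show 3 * (p / 3) = p - 2 by omega, show p - 2 + 1 = p - 1 by omega,
        show p - 2 + 2 = p by omega] at h5
      rcases h5 with h5 | h5 | h5
      · exact Or.inr ⟨h2, h5⟩
      · exact Or.inl ⟨by omega, h5⟩
      · exact absurd h5 h3
    simp only [rkA, if_pos h4]
    simp
    omega
  · obtain ⟨⟨⟨rfl, rfl⟩, rfl⟩, h2⟩ := h
    simp [cl, tv] at cy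
  · obtain ⟨⟨⟨rfl, rfl⟩, rfl⟩, h2⟩ := h
    simp [cl, tv] at cy
  · obtain ⟨⟨rfl, rfl⟩, ⟨rfl, rfl⟩, h2⟩ := h
    have h3 : ¬ a p' := by
      intro h3
      simp [cl, tv, h3] at cx
    by_cases h4 : aft a p'
    · simp only [rkA, if_pos h4, if_pos (Or.inr h4 : a p' ∨ aft a p')]
      simp
    · simp only [rkA, if_neg h4, if_neg (fun h => h.elim h3 h4 : ¬ (a p' ∨ aft a p'))]
      simp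
  · obtain ⟨⟨rfl, rfl⟩, ⟨rfl, rfl⟩, h2⟩ := h
    have h3 : ¬ a (p + 1) := by
      intro h3
      simp [cl, tv, h3] at cy
    have h5 : (a p ∨ aft a p) ↔ aft a (p + 1) := by
      unfold aft
      rw [Nat.add_sub_cancel, show p + 1 - 2 = p - 1 by omega]
      constructor
      · rintro (h | ⟨h, h'⟩ | ⟨h, h'⟩)
        · exact Or.inl ⟨by omega, h⟩
        · exact Or.inr ⟨by omega, h'⟩
        · omega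
      · rintro (⟨h, h'⟩ | ⟨h, h'⟩)
        · exact Or.inl h'
        · exact Or.inr (Or.inl ⟨by omega, h'⟩)
    have h6 : (p + 1) % 3 = p % 3 + 1 := by omega
    by_cases h4 : aft a (p + 1)
    · simp only [rkA, if_pos h4, if_pos (h5.2 h4), h6]
      simp
      omega
    · simp only [rkA, if_neg h4, if_neg (fun h => h4 (h5.1 h) : ¬ (a p ∨ aft a p)), h6]
      simp
      omega

theorem cl_lt (hr : 1 ≤ r) (x : Lab) : cl r P a x < r + 2 := by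
  unfold cl
  split_ifs <;> omega

/-- **From an assignment to a colouring.** -/
theorem col_of_ok (hr : 1 ≤ r) (ho : Ok P a) : Col (Arc r P) (r + 2) (r + 1) := by
  refine ⟨fun x => ((cl r P a x : ℕ) : ZMod (r + 2)), fun i => ?_⟩
  set κ0 : ℕ := (i + ((r + 1 : ℕ) : ZMod (r + 2))).val with hκ0
  have hlt : κ0 < r + 2 := ZMod.val_lt _
  have hne : ∀ x, (∃ j : ℕ, j < r + 1 ∧ ((cl r P a x : ℕ) : ZMod (r + 2)) =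
      i + (j : ZMod (r + 2))) → cl r P a x ≠ κ0 := by
    rintro x ⟨j, hj, hx⟩ he
    have h1 : ((κ0 : ℕ) : ZMod (r + 2)) = i + ((r + 1 : ℕ) : ZMod (r + 2)) := by
      rw [hκ0, ZMod.natCast_val, ZMod.cast_id]
    rw [he, h1] at hx
    have h2 := congrArg ZMod.val (add_left_cancel hx)
    rw [ZMod.val_cast_of_lt (by omega), ZMod.val_cast_of_lt (by omega)] at h2
    omega
  by_cases h1 : κ0 < r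
  · exact Acyc.of_rank (rkH r P κ0) fun x hx y hy h => rkH_lt h1 h (hne x hx) (hne y hy)
  · by_cases h2 : κ0 = r
    · exact Acyc.of_rank (rkA r a) fun x hx y hy h => rkA_lt hr ho h
        (h2 ▸ hne x hx) (h2 ▸ hne y hy)
    · have h3 : κ0 = r + 1 := by omega
      exact Acyc.of_rank (rkB r P a) fun x hx y hy h => rkB_lt hr ho h
        (h3 ▸ hne x hx) (h3 ▸ hne y hy)

end Pool.Agent.V11230.SD
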