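import Pool.Agent.V11230.SD2

/-!
# The star dichromatic number: from colourings to assignments
-/

set_option autoImplicit false

namespace Pool.Agent.V11230.SD

open Finset

theorem Acyc.mono {V : Type} {A : V → V → Prop} {X Y : Set V} (h : X ⊆ Y) (hY : Acyc A Y) :
    Acyc A X := by
  intro v hv
  have h1 : (fun x y => x ∈ X ∧ y ∈ X ∧ A x y) ≤ (fun x y => x ∈ Y ∧ y ∈ Y ∧ A x y) :=
    fun x y hxy => ⟨h hxy.1, h hxy.2.1, hxy.2.2⟩
  exact hY v (Relation.TransGen.mono h1 v v hv)

/-- a walk with given inner vertices -/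
def Path {V : Type} (A : V → V → Prop) : V → List V → V → Prop
  | x, [], y => A x y
  | x, z :: l, y => A x z ∧ Path A z l y

theorem Path.trans {V : Type} {A : V → V → Prop} {X : Set V} : ∀ (l : List V) (x y : V),
    Path A x l y → x ∈ X → y ∈ X → (∀ z ∈ l, z ∈ X) →
      Relation.TransGen (fun x y => x ∈ X ∧ y ∈ X ∧ A x y) x y
  | [], _, _, h, hx, hy, _ => Relation.TransGen.single ⟨hx, hy, h⟩
  | z :: l, _, y, h, hx, hy, hl => Relation.TransGen.head ⟨hx, hl z List.mem_cons_self, h.1⟩
      (Path.trans l z y h.2 (hl z List.mem_cons_self) hy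
        (fun w hw => hl w (List.mem_cons_of_mem _ hw)))

section

variable {r : ℕ} {P : Par} {ω : Lab → ℕ} (hr : 1 ≤ r)
  (hw : ∀ j ≤ r, Acyc (Arc r P) {x | ω x ≠ j})
include hr hw

theorem hit {κ j : ℕ} (hκ : κ < 2) (hj : j ≤ r) (hh : ∀ p < r, ω (κ, p, 0) ≠ j) (l : List Lab)
    (hl : Path (Arc r P) (κ, r - 1, 0) l (κ, 0, 0)) : ∃ x ∈ l, ω x = j := by
  by_contra hcon
  push Not at hcon
  have h1 : ∀ p < r, Relation.ReflTransGen (fun x y => x ∈ {x | ω x ≠ j} ∧ y ∈ {x | ω x ≠ j} ∧
      Arc r P x y) (κ, 0, 0) (κ, p, 0) := by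
    intro p
    induction p with
    | zero => exact fun _ => Relation.ReflTransGen.refl
    | succ p ih =>
      intro hp
      refine (ih (by omega)).tail ⟨hh p (by omega), hh (p + 1) hp, ⟨⟨?_, ?_⟩, ?_⟩⟩
      · rw [mem_vs]
        omega
      · rw [mem_vs]
        omega
      · rw [adj_iff]
        left
        omega
  have h2 := Path.trans (X := {x | ω x ≠ j}) l _ _ hl (hh _ (by omega)) (hh 0 (by omega)) hcon
  exact hw j hj _ (h2.trans_left (h1 (r - 1) (by omega)))

theorem ok_of_omega (h0 : r < ω (0, 0, 0)) : ∃ a, Ok P a := by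
  classical
  -- the windows that are missed by the hub
  have hS : 1 < ((range (r + 1)) \ ((range r).image (fun p => ω (0, p, 0)))).card := by
    have h1 : ((range (r + 1)) ∩ ((range r).image (fun p => ω (0, p, 0)))) ⊆
        ((range r).erase 0).image (fun p => ω (0, p, 0)) := by
      intro x hx
      rw [mem_inter, mem_range, mem_image] at hx
      obtain ⟨hx1, p, hp, rfl⟩ := hx
      rw [mem_image]
      refine ⟨p, mem_erase.2 ⟨?_, hp⟩, rfl⟩
      rintro rfl
      omega
    have h2 := card_le_card h1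
    have h3 : (((range r).erase 0).image (fun p => ω (0, p, 0))).card ≤ r - 1 := by
      refine card_image_le.trans ?_
      rw [card_erase_of_mem (mem_range.2 (by omega)), card_range]
    have h4 := card_sdiff_add_card_inter (range (r + 1)) ((range r).image (fun p => ω (0, p, 0)))
    rw [card_range] at h4
    omega
  obtain ⟨L, hL, R, hR, hLR⟩ := one_lt_card.1 hS
  rw [mem_sdiff, mem_range, mem_image] at hL hR
  have hL' : ∀ p < r, ω (0, p, 0) ≠ L := fun p hp h => hL.2 ⟨p, mem_range.2 hp, h⟩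
  have hR' : ∀ p < r, ω (0, p, 0) ≠ R := fun p hp h => hR.2 ⟨p, mem_range.2 hp, h⟩
  -- the base cycles
  have p1 : Path (Arc r P) (0, r - 1, 0) [(2, 0, 0), (5, 0, 0)] (0, 0, 0) := by
    simp [Path, Arc, mem_vs, adj_iff]
    omega
  have p2 : Path (Arc r P) (0, r - 1, 0) [(3, 0, 0), (4, 0, 0)] (0, 0, 0) := by
    simp [Path, Arc, mem_vs, adj_iff]
    omega
  have p3 : Path (Arc r P) (1, r - 1, 0) [(2, 0, 0), (3, 0, 0)] (1, 0, 0) := by
    simp [Path, Arc, mem_vs, adj_iff]
    omega
  have p4 : Path (Arc r P) (1, r - 1, 0) [(4, 0, 0), (5, 0, 0)] (1, 0, 0) := by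
    simp [Path, Arc, mem_vs, adj_iff]
    omega
  have b1L := hit hr hw (by omega) (by omega) hL' _ p1
  have b1R := hit hr hw (by omega) (by omega) hR' _ p1
  have b2L := hit hr hw (by omega) (by omega) hL' _ p2
  have b2R := hit hr hw (by omega) (by omega) hR' _ p2
  simp only [List.mem_cons, List.not_mem_nil, or_false, exists_eq_or_imp, exists_eq_left]
    at b1L b1R b2L b2R
  have hne : ω (2, 0, 0) ≠ ω (3, 0, 0) := by
    intro he
    have hall : range (r + 1) ⊆ (range r).image (fun p => ω (1, p, 0)) := by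
      intro j hj
      rw [mem_range] at hj
      rw [mem_image]
      by_contra hcon
      have hh : ∀ p < r, ω (1, p, 0) ≠ j := fun p hp h => hcon ⟨p, mem_range.2 hp, h⟩
      have c3 := hit hr hw (by omega) (by omega) hh _ p3
      have c4 := hit hr hw (by omega) (by omega) hh _ p4
      simp only [List.mem_cons, List.not_mem_nil, or_false, exists_eq_or_imp, exists_eq_left]
        at c3 c4
      omega
    have h1 := card_le_card hall
    have h2 : ((range r).image (fun p => ω (1, p, 0))).card ≤ r := by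
      refine card_image_le.trans ?_
      rw [card_range]
    rw [card_range] at h1
    omega
  -- rename
  obtain ⟨L, R, hLR, hLr, hRr, hL', hR', e2, e4, e3, e5⟩ : ∃ L R : ℕ, L ≠ R ∧ L ≤ r ∧ R ≤ r ∧
      (∀ p < r, ω (0, p, 0) ≠ L) ∧ (∀ p < r, ω (0, p, 0) ≠ R) ∧ ω (2, 0, 0) = L ∧
      ω (4, 0, 0) = L ∧ ω (3, 0, 0) = R ∧ ω (5, 0, 0) = R := by
    by_cases h : ω (2, 0, 0) = L
    · exact ⟨L, R, hLR, by omega, by omega, hL', hR', h, by omega, by omega, by omega⟩
    · exact ⟨R, L, hLR.symm, by omega, by omega, hR', hL', by omega, by omega, by omega, by omega⟩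
  have hitL : ∀ l, Path (Arc r P) (0, r - 1, 0) l (0, 0, 0) → ∃ x ∈ l, ω x = L :=
    fun l hl => hit hr hw (by omega) hLr hL' l hl
  have hitR : ∀ l, Path (Arc r P) (0, r - 1, 0) l (0, 0, 0) → ∃ x ∈ l, ω x = R :=
    fun l hl => hit hr hw (by omega) hRr hR' l hl
  have w7 : ∀ p < 3 * P.n, ω (7, p, 0) = R := by
    intro p hp
    have h1 := hitR [(2, 0, 0), (7, p, 0), (4, 0, 0)] (by
      simp [Path, Arc, mem_vs, adj_iff]
      omega)
    simp only [List.mem_cons, List.not_mem_nil, or_false, exists_eq_or_imp, exists_eq_left] at h1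
    omega
  have w10 : ∀ p < 3 * P.n, ∀ q < 3 * P.n, ω (10, p, q) = R := by
    intro p hp q hq
    have h1 := hitR [(2, 0, 0), (10, p, q), (4, 0, 0)] (by
      simp [Path, Arc, mem_vs, adj_iff]
      omega)
    simp only [List.mem_cons, List.not_mem_nil, or_false, exists_eq_or_imp, exists_eq_left] at h1
    omega
  have w11 : ∀ p < 3 * P.n, ∀ q < 3 * P.n, ω (11, p, q) = L := by
    intro p hp q hq
    have h1 := hitL [(3, 0, 0), (11, p, q), (5, 0, 0)] (by
      simp [Path, Arc, mem_vs, adj_iff]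
      omega)
    simp only [List.mem_cons, List.not_mem_nil, or_false, exists_eq_or_imp, exists_eq_left] at h1
    omega
  have w12 : ∀ p < 3 * P.n, ∀ q < 3 * P.n, ω (12, p, q) = L := by
    intro p hp q hq
    have h1 := hitL [(3, 0, 0), (12, p, q), (5, 0, 0)] (by
      simp [Path, Arc, mem_vs, adj_iff]
      omega)
    simp only [List.mem_cons, List.not_mem_nil, or_false, exists_eq_or_imp, exists_eq_left] at h1
    omega
  refine ⟨fun p => ω (6, p, 0) = L, ?_, ?_⟩
  · intro e he
    have h1 := hitL [(3, 0, 0), (6, 3 * e, 0), (7, 3 * e, 0), (6, 3 * e + 1, 0), (7, 3 * e + 1, 0),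
      (6, 3 * e + 2, 0), (5, 0, 0)] (by
      simp [Path, Arc, mem_vs, adj_iff]
      omega)
    simp only [List.mem_cons, List.not_mem_nil, or_false, exists_eq_or_imp, exists_eq_left] at h1
    have h2 := w7 (3 * e) (by omega)
    have h3 := w7 (3 * e + 1) (by omega)
    omega
  · rintro p hp q hq hcf ⟨h1, h2⟩
    have g1 := hitR [(2, 0, 0), (6, p, 0), (11, p, q), (8, p, q), (4, 0, 0)] (by
      simp [Path, Arc, mem_vs, adj_iff, hcf]
      omega)
    have g2 := hitR [(2, 0, 0), (6, q, 0), (12, p, q), (9, p, q), (4, 0, 0)] (by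
      simp [Path, Arc, mem_vs, adj_iff, hcf]
      omega)
    have g3 := hitL [(3, 0, 0), (8, p, q), (10, p, q), (9, p, q), (5, 0, 0)] (by
      simp [Path, Arc, mem_vs, adj_iff]
      omega)
    simp only [List.mem_cons, List.not_mem_nil, or_false, exists_eq_or_imp, exists_eq_left]
      at g1 g2 g3
    have g4 := w10 p hp q hq
    have g5 := w11 p hp q hq
    have g6 := w12 p hp q hq
    omega

end

/-- **From a colouring to an assignment.** -/
theorem ok_of_col {r : ℕ} {P : Par} (hr : 1 ≤ r) {k d : ℕ} (hd : 1 ≤ d ∧ d ≤ k)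
    (hkd : (r + 1) * (k - d) < k) (h : Col (Arc r P) k d) : ∃ a, Ok P a := by
  obtain ⟨c, hc⟩ := h
  have : NeZero k := ⟨by omega⟩
  set q := k - d with hq
  set pos : Lab → ℕ := fun x => (c x - c (0, 0, 0) - 1).val with hpos
  have hposlt : ∀ x, pos x < k := fun x => ZMod.val_lt _
  have hcp : ∀ x, c x = c (0, 0, 0) + 1 + ((pos x : ℕ) : ZMod k) := by
    intro x
    rw [hpos]
    simp only [ZMod.natCast_val, ZMod.cast_id', id_eq]
    ring
  refine ok_of_omega (ω := fun x => if q = 0 then r + 1 else pos x / q) hr ?_ ?_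
  · intro j hj
    refine Acyc.mono ?_ (hc (c (0, 0, 0) + 1 + (((j + 1) * q : ℕ) : ZMod k)))
    intro x hx
    have hx : (if q = 0 then r + 1 else pos x / q) ≠ j := hx
    have h1 : (j + 1) * q ≤ (r + 1) * q := Nat.mul_le_mul_right _ (by omega)
    have h2 : (j + 1) * q = j * q + q := by ring
    have hp := hposlt x
    by_cases hlt : pos x < (j + 1) * q
    · refine ⟨pos x + k - (j + 1) * q, ?_, ?_⟩
      · have h3 : pos x < j * q := by
          by_contra h3
          have hq0 : 0 < q := by
            by_contra h4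
            rw [show q = 0 by omega] at hlt
            omega
          apply hx
          rw [if_neg (by omega)]
          exact Nat.div_eq_of_lt_le (by omega) hlt
        omega
      · rw [hcp x, add_assoc (c (0, 0, 0) + 1), ← Nat.cast_add,
          show (j + 1) * q + (pos x + k - (j + 1) * q) = pos x + k by omega, Nat.cast_add,
          ZMod.natCast_self, add_zero]
    · refine ⟨pos x - (j + 1) * q, by omega, ?_⟩
      rw [hcp x, add_assoc (c (0, 0, 0) + 1), ← Nat.cast_add,
        show (j + 1) * q + (pos x - (j + 1) * q) = pos x by omega]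
  · change r < (if q = 0 then r + 1 else pos (0, 0, 0) / q)
    by_cases hq0 : q = 0
    · rw [if_pos hq0]
      omega
    · rw [if_neg hq0]
      have h1 : pos (0, 0, 0) = k - 1 := by
        rw [hpos]
        simp only [sub_self, zero_sub]
        obtain ⟨k', rfl⟩ : ∃ k', k = k' + 1 := ⟨k - 1, by omega⟩
        rw [ZMod.val_neg_one]
        omega
      rw [h1]
      have h2 : (r + 1) * q ≤ k - 1 := by omega
      exact (Nat.le_div_iff_mul_le (by omega)).2 h2

end Pool.Agent.V11230.SD
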