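import Pool.Agent.V11230.SD3
import Pool.Agent.V11230.MS5

/-!
# The star dichromatic number: matrices and formulas
-/

set_option autoImplicit false

namespace Pool.Agent.V11230.SD

open Pool.Agent.H622R2 Pool.Agent.NPC

/-- the digraph of a 0-1 matrix (the diagonal is ignored): the vertices are the numbers of the
rows, and there is an arc from `i` to `j ≠ i` when the entry `(i, j)` is 1 -/
def dig (M : List (List Bool)) (i j : Fin M.length) : Prop := i ≠ j ∧ entry M i j = true

theorem adj_irrefl {r : ℕ} {cf : ℕ → ℕ → Bool} {x y : Lab} (h : adj r cf x y = true) : x ≠ y := by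
  rintro rfl
  obtain ⟨κ, p, q⟩ := x
  rw [adj_iff] at h
  omega

theorem col_mat (r : ℕ) (hr : 1 ≤ r) (P : Par) (k d : ℕ) :
    Col (dig (mat (vs r P.n) (adj r P.cf))) k d ↔ Col (Arc r P) k d := by
  classical
  set e : Fin (mat (vs r P.n) (adj r P.cf)).length ≃ {x // x ∈ vs r P.n} :=
    (finCongr (mat_length _ _)).trans (List.Nodup.getEquiv _ (nodup_vs r P.n)) with he
  have hent : ∀ a b : Fin (mat (vs r P.n) (adj r P.cf)).length,
      entry (mat (vs r P.n) (adj r P.cf)) a b = adj r P.cf (e a).1 (e b).1 := by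
    intro a b
    have ha : a.1 < (vs r P.n).length := lt_of_lt_of_eq a.2 (mat_length _ _)
    have hb : b.1 < (vs r P.n).length := lt_of_lt_of_eq b.2 (mat_length _ _)
    rw [entry_mat _ _ _ _ ha hb]
    rfl
  have h0 : ((0, 0, 0) : Lab) ∈ vs r P.n := by
    rw [mem_vs]
    omega
  constructor
  · refine Col.comap (fun x => if hx : x ∈ vs r P.n then e.symm ⟨x, hx⟩ else e.symm ⟨_, h0⟩) ?_
    rintro x y ⟨⟨hx, hy⟩, hxy⟩
    rw [dif_pos hx, dif_pos hy]
    refine ⟨fun h => adj_irrefl hxy ?_, ?_⟩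
    · exact congrArg Subtype.val (e.symm.injective h)
    · rw [hent, e.apply_symm_apply, e.apply_symm_apply]
      exact hxy
  · refine Col.comap (fun i => (e i).1) ?_
    rintro i j ⟨_, hij⟩
    rw [hent] at hij
    exact ⟨⟨(e i).2, (e j).2⟩, hij⟩

/-! ### Formulas -/

/-- the parameters for a formula: the conflicts are the complementary literals -/
def parF (φ : List MS.Cl) : Par where
  n := φ.length
  cf p q := decide ((MS.lit φ p).2 = (MS.lit φ q).2) && ((MS.lit φ p).1 && !(MS.lit φ q).1)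

theorem ok_iff (φ : List MS.Cl) : (∃ a, Ok (parF φ) a) ↔ SAT3 φ := by
  classical
  have hlit : ∀ i < φ.length, MS.lit φ (3 * i) =
      (φ.getD i ((false, 0), (false, 0), (false, 0))).1 ∧
      MS.lit φ (3 * i + 1) = (φ.getD i ((false, 0), (false, 0), (false, 0))).2.1 ∧
      MS.lit φ (3 * i + 2) = (φ.getD i ((false, 0), (false, 0), (false, 0))).2.2 := by
    intro i _
    unfold MS.lit
    refine ⟨?_, ?_, ?_⟩
    · rw [if_pos (by omega), show 3 * i / 3 = i by omega]
    · rw [if_neg (by omega), if_pos (by omega), show (3 * i + 1) / 3 = i by omega]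
    · rw [if_neg (by omega), if_neg (by omega), show (3 * i + 2) / 3 = i by omega]
  have hcf : ∀ p q, (parF φ).cf p q = true ↔
      (MS.lit φ p).2 = (MS.lit φ q).2 ∧ (MS.lit φ p).1 = true ∧ (MS.lit φ q).1 = false := by
    intro p q
    change (decide ((MS.lit φ p).2 = (MS.lit φ q).2) &&
      ((MS.lit φ p).1 && !(MS.lit φ q).1)) = true ↔ _
    rw [Bool.and_eq_true, Bool.and_eq_true, Bool.not_eq_true', decide_eq_true_iff]
  constructor
  · rintro ⟨a, hx, hc⟩
    have hm : (parF φ).n = φ.length := rfl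
    rw [hm] at hx hc
    set τ : ℕ → Bool := fun v => decide (∃ p < 3 * φ.length, a p ∧ MS.lit φ p = (true, v))
      with hτ
    have key : ∀ p < 3 * φ.length, a p → τ (MS.lit φ p).2 = (MS.lit φ p).1 := by
      intro p hp hap
      cases hb : (MS.lit φ p).1 with
      | true =>
        rw [hτ]
        exact decide_eq_true ⟨p, hp, hap, Prod.ext hb rfl⟩
      | false =>
        rw [hτ]
        refine decide_eq_false ?_
        rintro ⟨q, hq, haq, hlq⟩
        refine hc q hq p hp ((hcf q p).2 ⟨?_, ?_, hb⟩) ⟨haq, hap⟩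
        · rw [hlq]
        · rw [hlq]
    refine ⟨τ, fun c hcφ => ?_⟩
    obtain ⟨i, hi, rfl⟩ := List.getElem_of_mem hcφ
    have hl := hlit i hi
    rw [List.getD_eq_getElem _ _ hi] at hl
    rcases hx i hi with h3 | h3 | h3
    · have h4 := key _ (by omega) h3
      rw [hl.1] at h4
      exact Or.inl h4
    · have h4 := key _ (by omega) h3
      rw [hl.2.1] at h4
      exact Or.inr (Or.inl h4)
    · have h4 := key _ (by omega) h3
      rw [hl.2.2] at h4
      exact Or.inr (Or.inr h4)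
  · rintro ⟨τ, hτ⟩
    refine ⟨fun p => τ (MS.lit φ p).2 = (MS.lit φ p).1, ?_, ?_⟩
    · intro i hi
      have hi' : i < φ.length := hi
      have hl := hlit i hi'
      have h1 := hτ _ (List.getElem_mem hi')
      rw [List.getD_eq_getElem _ _ hi'] at hl
      beta_reduce
      rw [hl.1, hl.2.1, hl.2.2]
      exact h1
    · rintro p _ q _ hpq ⟨h1, h2⟩
      beta_reduce at h1 h2
      obtain ⟨h3, h4, h5⟩ := (hcf p q).1 hpq
      rw [h3, h2, h5, h4] at h1
      exact absurd h1 (by simp)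

/-- the matrix of a formula -/
def matF (r : ℕ) (φ : List MS.Cl) : List (List Bool) :=
  mat (vs r (parF φ).n) (adj r (parF φ).cf)

/-- a satisfiable formula gives a digraph with a colouring -/
theorem col_of_sat {r : ℕ} (hr : 1 ≤ r) {φ : List MS.Cl} (h : SAT3 φ) :
    Col (dig (matF r φ)) (r + 2) (r + 1) := by
  obtain ⟨a, ha⟩ := (ok_iff φ).2 h
  exact (col_mat r hr (parF φ) _ _).2 (col_of_ok hr ha)

/-- a digraph with a good colouring comes from a satisfiable formula -/
theorem sat_of_col {r : ℕ} (hr : 1 ≤ r) {φ : List MS.Cl} {k d : ℕ} (hd : 1 ≤ d ∧ d ≤ k)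
    (hkd : (k : ℝ) / d < ((r : ℝ) + 1) / r) (h : Col (dig (matF r φ)) k d) : SAT3 φ := by
  refine (ok_iff φ).1 (ok_of_col hr hd ?_ ((col_mat r hr (parF φ) _ _).1 h))
  have hr' : (0 : ℝ) < r := by exact_mod_cast hr
  have hd' : (0 : ℝ) < d := by exact_mod_cast hd.1
  rw [div_lt_div_iff₀ hd' hr'] at hkd
  have h1 : k * r < (r + 1) * d := by exact_mod_cast hkd
  have h2 : (r + 1) * (k - d) + (r + 1) * d = (r + 1) * k := by
    rw [← Nat.mul_add, Nat.sub_add_cancel hd.2]
  have h3 : (r + 1) * k = k * r + k := by ring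
  omega

/-- the threshold problem for the star dichromatic number of digraphs given by matrices -/
def Star (p : ℝ) (M : List (List Bool)) : Prop := starDi (dig M) ≤ p

/-- there is an acyclic `(k, d)`-colouring with `k / d ≤ p` -/
def StarMin (p : ℝ) (M : List (List Bool)) : Prop :=
  ∃ k d : ℕ, (1 ≤ d ∧ d ≤ k) ∧ (k : ℝ) / d ≤ p ∧ Col (dig M) k d

theorem star_of_starMin {p : ℝ} {M : List (List Bool)} (h : StarMin p M) : Star p M := by
  obtain ⟨k, d, hd, hkd, hc⟩ := h
  refine le_trans (csInf_le ⟨0, ?_⟩ ⟨k, d, hd, hc, rfl⟩) hkd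
  rintro x ⟨k, d, _, _, rfl⟩
  positivity

theorem starMin_matF {r : ℕ} (hr : 1 ≤ r) {p : ℝ} (h1 : ((r : ℝ) + 2) / (r + 1) ≤ p)
    {φ : List MS.Cl} (h : SAT3 φ) : StarMin p (matF r φ) := by
  refine ⟨r + 2, r + 1, ⟨by omega, by omega⟩, ?_, col_of_sat hr h⟩
  push_cast
  exact h1

theorem sat_of_star {r : ℕ} (hr : 1 ≤ r) {p : ℝ} (h2 : p < ((r : ℝ) + 1) / r)
    {φ : List MS.Cl} (h : Star p (matF r φ)) : SAT3 φ := by
  obtain ⟨x, ⟨k, d, hd, hc, rfl⟩, hx⟩ := exists_lt_of_csInf_lt
    (col_nonempty _ _ (fun _ _ h => h.1)) (lt_of_le_of_lt h h2)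
  exact sat_of_col hr hd hx hc

end Pool.Agent.V11230.SD
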