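import Pool.Agent.V11230.SD4

/-!
# The star dichromatic number: polynomial time
-/

set_option autoImplicit false

namespace Pool.Agent.NPC.V11230.SDP

open Pool.Agent.V11230.SD Pool.Agent.NPC Pool.Agent.H622R2 Pool.Agent.NPC.V11230.MSP

section

variable {α : Type} [TEnc α]

theorem poly_contains (l : List (ℕ × ℕ)) {x : α → ℕ × ℕ}
    (hx : Poly x) : Poly (fun a => l.contains (x a)) := by
  have h : Poly (fun a => l.any (fun y => decide (x a = y))) := by
    refine Poly.any (p := fun a y => decide (x a = y)) (Poly.const l) ?_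
    exact Poly.decide_eq (hx.comp (Poly.fst Poly.id)) (Poly.snd Poly.id)
  refine h.congr fun a => ?_
  rw [Bool.eq_iff_iff, List.any_eq_true, List.contains_iff_mem]
  constructor
  · rintro ⟨y, hy, h⟩
    rw [decide_eq_true_iff.1 h]
    exact hy
  · intro h
    exact ⟨x a, h, decide_eq_true rfl⟩

variable {r : ℕ} {cf : α → ℕ → ℕ → Bool} {x y : α → Lab}
  (hcf : Poly (fun z : α × ℕ × ℕ => cf z.1 z.2.1 z.2.2)) (hx : Poly x) (hy : Poly y)
include hcf hx hy

theorem poly_adj : Poly (fun a => adj r (cf a) (x a) (y a)) := by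
  have x1 := Poly.fst hx
  have x2 := Poly.fst (Poly.snd hx)
  have x3 := Poly.snd (Poly.snd hx)
  have y1 := Poly.fst hy
  have y2 := Poly.fst (Poly.snd hy)
  have y3 := Poly.snd (Poly.snd hy)
  have k := Poly.pair x1 y1
  have hr : Poly (fun _ : α => r) := Poly.const r
  have h00 : Poly (fun a => decide ((y a).2 = (0, 0))) :=
    Poly.decide_eq (Poly.snd hy) (Poly.const (0, 0))
  have c1 : Poly (fun a => cf a (x a).2.1 (y a).2.2) :=
    hcf.comp (Poly.pair Poly.id (Poly.pair x2 y3))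
  have c2 : Poly (fun a => cf a (y a).2.1 (x a).2.1) :=
    hcf.comp (Poly.pair Poly.id (Poly.pair y2 x2))
  have hk : ∀ i j : ℕ, Poly (fun a => decide ((x a).1 = i ∧ (y a).1 = j)) := fun i j =>
    Poly.decide_and (Poly.decide_eq x1 (Poly.const i)) (Poly.decide_eq y1 (Poly.const j))
  have x2m := Poly.mod x2 (Poly.const 3)
  have x2s := Poly.add x2 (Poly.const 1)
  unfold adj
  refine Poly.or (Poly.and (poly_contains _ k) (Poly.decide_and
    (Poly.decide_and (Poly.decide_eq x3 (Poly.const 0)) (Poly.decide_eq y3 (Poly.const 0)))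
    (Poly.decide_and (Poly.decide_eq y2 x2s) (Poly.decide_lt y2 hr)))) ?_
  refine Poly.or (Poly.and (poly_contains _ k) (Poly.decide_and
    (Poly.decide_and (Poly.decide_eq x2s hr) (Poly.decide_eq x3 (Poly.const 0))) h00)) ?_
  refine Poly.or (Poly.and (poly_contains _ k) h00) ?_
  refine Poly.or (poly_contains _ k) ?_
  refine Poly.or (Poly.and (poly_contains _ k) (Poly.decide_eq (Poly.snd hy) (Poly.snd hx))) ?_
  refine Poly.or (Poly.decide_and (hk 3 6) (Poly.decide_eq (Poly.mod y2 (Poly.const 3))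
    (Poly.const 0))) ?_
  refine Poly.or (Poly.decide_and (hk 6 5) (Poly.decide_and (Poly.decide_eq x2m (Poly.const 2))
    h00)) ?_
  refine Poly.or (Poly.and (Poly.decide_and (hk 6 11) (Poly.decide_eq y2 x2)) c1) ?_
  refine Poly.or (Poly.and (Poly.decide_and (hk 6 12) (Poly.decide_eq y3 x2)) c2) ?_
  refine Poly.or (Poly.decide_and (hk 6 7) (Poly.decide_and
    (Poly.decide_eq (Poly.snd hy) (Poly.snd hx)) (Poly.decide_lt x2m (Poly.const 2)))) ?_
  exact Poly.decide_and (hk 7 6) (Poly.decide_and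
    (Poly.decide_eq (Poly.snd hy) (Poly.pair x2s x3)) (Poly.decide_lt x2m (Poly.const 2)))

end

theorem poly_vs (r : ℕ) : Poly (fun φ : List Pool.Agent.V11230.MS.Cl => vs r φ.length) := by
  have hN : UPoly (fun φ : List Pool.Agent.V11230.MS.Cl => 3 * φ.length + r) :=
    UPoly.add (UPoly.mul (UPoly.const 3) (UPoly.length Poly.id)) (UPoly.const r)
  have hf : Poly (fun z : List Pool.Agent.V11230.MS.Cl × Lab => z.1) := Poly.fst Poly.id
  have hs : Poly (fun z : List Pool.Agent.V11230.MS.Cl × Lab => z.2) := Poly.snd Poly.id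
  have hB : Poly (fun z : List Pool.Agent.V11230.MS.Cl × Lab => 3 * z.1.length) :=
    Poly.mul (Poly.const 3) (Poly.length hf)
  unfold vs
  refine Poly.filter (p := fun (φ : List Pool.Agent.V11230.MS.Cl) (x : Lab) =>
    decide (x.1 < 6) || decide (x.2.1 < 3 * φ.length ∧ x.2.2 < 3 * φ.length))
    (poly_product (Poly.const _) (poly_product (UPoly.range hN) (UPoly.range hN))) ?_
  exact Poly.or (Poly.decide_lt (Poly.fst hs) (Poly.const 6))
    (Poly.decide_and (Poly.decide_lt (Poly.fst (Poly.snd hs)) hB)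
      (Poly.decide_lt (Poly.snd (Poly.snd hs)) hB))

theorem poly_cf : Poly (fun x : List Pool.Agent.V11230.MS.Cl × ℕ × ℕ =>
    (parF x.1).cf x.2.1 x.2.2) := by
  have hφ : Poly (fun x : List Pool.Agent.V11230.MS.Cl × ℕ × ℕ => x.1) := Poly.fst Poly.id
  have h1 := poly_lit hφ (Poly.fst (Poly.snd Poly.id))
  have h2 := poly_lit hφ (Poly.snd (Poly.snd Poly.id))
  exact Poly.and (Poly.decide_eq (Poly.snd h1) (Poly.snd h2))
    (Poly.and (Poly.fst h1) (Poly.not (Poly.fst h2)))

theorem poly_matF (r : ℕ) : Poly (matF r) := by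
  have hv := poly_vs r
  have hf : Poly (fun z : List Pool.Agent.V11230.MS.Cl × Lab => z.1) := Poly.fst Poly.id
  have hff : Poly (fun z : (List Pool.Agent.V11230.MS.Cl × Lab) × Lab => z.1.1) :=
    Poly.fst (Poly.fst Poly.id)
  have h : Poly (fun φ : List Pool.Agent.V11230.MS.Cl => mat (vs r φ.length)
      (adj r (parF φ).cf)) := by
    unfold mat
    refine Poly.map (F := fun φ u => (vs r φ.length).map (fun v => adj r (parF φ).cf u v)) hv ?_
    refine Poly.map (F := fun (p : List Pool.Agent.V11230.MS.Cl × Lab) v =>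
      adj r (parF p.1).cf p.2 v) (hv.comp hf) ?_
    refine poly_adj (cf := fun z : (List Pool.Agent.V11230.MS.Cl × Lab) × Lab =>
      (parF z.1.1).cf) ?_ (Poly.snd (Poly.fst Poly.id)) (Poly.snd Poly.id)
    exact poly_cf.comp (Poly.pair (hff.comp (Poly.fst Poly.id)) (Poly.snd Poly.id))
  exact h

theorem exists_r {p : ℝ} (h1 : 1 < p) (h2 : p < 2) : ∃ r : ℕ, 1 ≤ r ∧
    ((r : ℝ) + 2) / (r + 1) ≤ p ∧ p < ((r : ℝ) + 1) / r := by
  have h3 : 0 < p - 1 := by linarith
  set t := 1 / (p - 1) with ht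
  have h4 : t * (p - 1) = 1 := by
    rw [ht]
    exact one_div_mul_cancel h3.ne'
  have h5 : 1 < t := by
    rw [ht, lt_div_iff₀ h3]
    linarith
  have h6 : 1 < ⌈t⌉₊ := Nat.lt_ceil.2 (by exact_mod_cast h5)
  have h7 : t ≤ ⌈t⌉₊ := Nat.le_ceil t
  have h8 : (⌈t⌉₊ : ℝ) < t + 1 := Nat.ceil_lt_add_one (by linarith)
  refine ⟨⌈t⌉₊ - 1, by omega, ?_, ?_⟩
  · rw [Nat.cast_sub h6.le, Nat.cast_one, div_le_iff₀ (by linarith)]
    nlinarith
  · rw [Nat.cast_sub h6.le, Nat.cast_one, lt_div_iff₀ (by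
      have : (1 : ℝ) < ⌈t⌉₊ := by exact_mod_cast h6
      linarith)]
    nlinarith

/-- **NP-hardness of the threshold problem for all thresholds between 1 and 2.** -/
theorem hard_star {p : ℝ} (h1 : 1 < p) (h2 : p < 2) :
    HardI (Star p) ∧ HardI (StarMin p) := by
  obtain ⟨r, hr, hr1, hr2⟩ := exists_r h1 h2
  exact ⟨hardI_SAT3.trans (poly_matF r) (fun φ => ⟨fun h => star_of_starMin
    (starMin_matF hr hr1 h), fun h => sat_of_star hr hr2 h⟩),
    hardI_SAT3.trans (poly_matF r) (fun φ => ⟨fun h => starMin_matF hr hr1 h,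
      fun h => sat_of_star hr hr2 (star_of_starMin h)⟩)⟩

end Pool.Agent.NPC.V11230.SDP
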