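import Pool.Agent.V11230.SD4

/-!
# The star dichromatic number above 2: the construction
-/

set_option autoImplicit false

namespace Pool.Agent.V11230.SD

open Finset Pool.Agent.H622R2

/-- a frame: the number of its vertices, its ordered adjacent pairs, the neighbours of the literals
and of the separators, and the special vertex in the cycles for the clauses -/
structure Fr where
  /-- the number of vertices -/
  f : ℕ
  /-- the ordered adjacent pairs -/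
  E : List (ℕ × ℕ)
  /-- the neighbours of the literals -/
  Y0 : List ℕ
  /-- the neighbours of the separators -/
  U0 : List ℕ
  /-- the special vertex -/
  t : ℕ

/-- the arcs between labels -/
def adj2 (F : Fr) (cf : ℕ → ℕ → Bool) (x y : Lab) : Bool :=
  (decide (x.1 = 0 ∧ y.1 = 0) && F.E.contains (x.2.1, y.2.1)) ||
  ((decide (x.1 = 0 ∧ y.1 = 1) && F.Y0.contains x.2.1) ||
  ((decide (x.1 = 1 ∧ y.1 = 0) && F.Y0.contains y.2.1) ||
  ((decide (x.1 = 0 ∧ 2 ≤ y.1) && F.U0.contains x.2.1) ||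
  ((decide (2 ≤ x.1 ∧ y.1 = 0) && F.U0.contains y.2.1) ||
  (decide ((x.1 = 0 ∧ y.1 = 1) ∧ (x.2.1 = F.t ∧ y.2.1 % 3 = 0)) ||
  (decide ((x.1 = 1 ∧ y.1 = 0) ∧ (y.2.1 = F.t ∧ x.2.1 % 3 = 2)) ||
  (decide ((x.1 = 1 ∧ y.1 = 1) ∧ (y.2.1 = x.2.1 + 1 ∧ x.2.1 % 3 < 2)) ||
  ((decide ((x.1 = 1 ∧ y.1 = 2) ∧ y.2.1 = x.2.1) && cf y.2.1 y.2.2) ||
  ((decide ((x.1 = 2 ∧ y.1 = 1) ∧ x.2.2 = y.2.1) && cf x.2.1 x.2.2) ||
  ((decide ((x.1 = 1 ∧ y.1 = 3) ∧ y.2.2 = x.2.1) && cf y.2.1 y.2.2) ||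
  (decide ((x.1 = 3 ∧ y.1 = 1) ∧ x.2.1 = y.2.1) && cf x.2.1 x.2.2)))))))))))

/-- the labels -/
def vs2 (F : Fr) (n : ℕ) : List Lab :=
  (List.product (List.range 4) (List.product (List.range (3 * n + F.f))
    (List.range (3 * n + F.f)))).filter
    (fun x => decide ((x.1 = 0 ∧ x.2.2 = 0) ∧ x.2.1 < F.f) ||
      (decide ((x.1 = 1 ∧ x.2.2 = 0) ∧ x.2.1 < 3 * n) ||
        decide (2 ≤ x.1 ∧ (x.2.1 < 3 * n ∧ x.2.2 < 3 * n))))

/-- the arcs between the labels of the digraph -/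
def Arc2 (F : Fr) (P : Par) (x y : Lab) : Prop :=
  (x ∈ vs2 F P.n ∧ y ∈ vs2 F P.n) ∧ adj2 F P.cf x y = true

theorem mem_vs2 {F : Fr} {n κ p q : ℕ} : (κ, p, q) ∈ vs2 F n ↔
    (κ < 4 ∧ p < 3 * n + F.f ∧ q < 3 * n + F.f) ∧
      (((κ = 0 ∧ q = 0) ∧ p < F.f) ∨ ((κ = 1 ∧ q = 0) ∧ p < 3 * n) ∨
        (2 ≤ κ ∧ p < 3 * n ∧ q < 3 * n)) := by
  unfold vs2
  rw [List.mem_filter, List.pair_mem_product, List.pair_mem_product, List.mem_range,
    List.mem_range, List.mem_range, Bool.or_eq_true, Bool.or_eq_true, decide_eq_true_iff,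
    decide_eq_true_iff, decide_eq_true_iff]

theorem nodup_vs2 (F : Fr) (n : ℕ) : (vs2 F n).Nodup := by
  unfold vs2
  exact List.Nodup.filter _ (List.nodup_range.product (List.nodup_range.product List.nodup_range))

theorem adj2_iff {F : Fr} {cf : ℕ → ℕ → Bool} {κ p q κ' p' q' : ℕ} :
    adj2 F cf (κ, p, q) (κ', p', q') = true ↔
  (κ = 0 ∧ κ' = 0) ∧ (p, p') ∈ F.E ∨ (κ = 0 ∧ κ' = 1) ∧ p ∈ F.Y0 ∨ (κ = 1 ∧ κ' = 0) ∧ p' ∈ F.Y0 ∨
  (κ = 0 ∧ 2 ≤ κ') ∧ p ∈ F.U0 ∨ (2 ≤ κ ∧ κ' = 0) ∧ p' ∈ F.U0 ∨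
  (κ = 0 ∧ κ' = 1) ∧ p = F.t ∧ p' % 3 = 0 ∨ (κ = 1 ∧ κ' = 0) ∧ p' = F.t ∧ p % 3 = 2 ∨
  (κ = 1 ∧ κ' = 1) ∧ p' = p + 1 ∧ p % 3 < 2 ∨
  ((κ = 1 ∧ κ' = 2) ∧ p' = p) ∧ cf p' q' = true ∨
  ((κ = 2 ∧ κ' = 1) ∧ q = p') ∧ cf p q = true ∨
  ((κ = 1 ∧ κ' = 3) ∧ q' = p) ∧ cf p' q' = true ∨
  ((κ = 3 ∧ κ' = 1) ∧ p = p') ∧ cf p q = true := by
  unfold adj2
  simp only [List.contains_iff_mem, Bool.or_eq_true, Bool.and_eq_true, decide_eq_true_eq]

/-! ### The colouring -/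

/-- two colours that are not in a common window -/
def Sep (m d : ℕ) (a b : ZMod m) : Prop :=
  ∀ i : ZMod m, ¬ ((∃ j : ℕ, j < d ∧ a = i + (j : ZMod m)) ∧ ∃ j : ℕ, j < d ∧ b = i + (j : ZMod m))

theorem Sep.symm {m d : ℕ} {a b : ZMod m} (h : Sep m d a b) : Sep m d b a :=
  fun i hi => h i ⟨hi.2, hi.1⟩

theorem sep_of {m d e : ℕ} (a : ZMod m) (h1 : d ≤ e) (h2 : e + d ≤ m) :
    Sep m d a (a + (e : ZMod m)) := by
  rintro i ⟨⟨s, hs, h3⟩, s', hs', h4⟩
  rw [h3, add_assoc] at h4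
  have h5 := add_left_cancel h4
  rw [← Nat.cast_add, ZMod.natCast_eq_natCast_iff] at h5
  have h6 := h5.eq_of_abs_lt (by
    rw [abs_lt]
    constructor <;> push_cast <;> omega)
  omega

/-- the requirements for the colouring of a frame -/
structure FrCol (F : Fr) (m d : ℕ) (γ : ℕ → ZMod m) (α β υ : ZMod m) : Prop where
  /-- adjacent vertices -/
  e : ∀ i i', (i, i') ∈ F.E → Sep m d (γ i) (γ i')
  /-- neighbours of true literals -/
  ya : ∀ i ∈ F.Y0, Sep m d (γ i) α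
  /-- neighbours of false literals -/
  yb : ∀ i ∈ F.Y0, Sep m d (γ i) β
  /-- neighbours of separators -/
  u : ∀ i ∈ F.U0, Sep m d (γ i) υ
  /-- the special vertex and a true literal -/
  t : Sep m d (γ F.t) α
  /-- a separator and a false literal -/
  ub : Sep m d υ β

open Classical in
/-- the colour of a label -/
noncomputable def cl2 {m : ℕ} (γ : ℕ → ZMod m) (α β υ : ZMod m) (a : ℕ → Prop) (x : Lab) :
    ZMod m :=
  if x.1 = 0 then γ x.2.1 else if x.1 = 1 then (if a x.2.1 then α else β) else υ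

open Classical in
/-- the rank of a label -/
noncomputable def rk2 (a : ℕ → Prop) (U T : Prop) (x : Lab) : ℕ :=
  if U then
    (if x.1 = 1 then 1 + x.2.1 % 3 else if x.1 = 2 then (if a x.2.1 then 10 else 0)
      else if x.1 = 3 then (if a x.2.2 then 10 else 0) else 0)
  else if T then
    (if x.1 = 1 then (if aft a x.2.1 then x.2.1 % 3 else 20 + x.2.1 % 3) else 10)
  else x.2.1 % 3

theorem col2_of_ok {F : Fr} {P : Par} {a : ℕ → Prop} {m d : ℕ} {γ : ℕ → ZMod m}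
    {α β υ : ZMod m} (hF : FrCol F m d γ α β υ) (ho : Ok P a) : Col (Arc2 F P) m d := by
  classical
  refine ⟨cl2 γ α β υ a, fun i => ?_⟩
  set W : ZMod m → Prop := fun z => ∃ j : ℕ, j < d ∧ z = i + (j : ZMod m) with hW
  have hsep : ∀ {x y : ZMod m}, Sep m d x y → W x → W y → False :=
    fun h h1 h2 => h i ⟨h1, h2⟩
  refine Acyc.of_rank (rk2 a (W υ) (W (γ F.t))) ?_
  rintro ⟨κ, p, q⟩ hx ⟨κ', p', q'⟩ hy ⟨⟨mx, my⟩, h⟩
  have hx : W (cl2 γ α β υ a (κ, p, q)) := hx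
  have hy : W (cl2 γ α β υ a (κ', p', q')) := hy
  rw [mem_vs2] at mx my
  rw [adj2_iff] at h
  have lit : ∀ p q, W (cl2 γ α β υ a (1, p, q)) → (a p ∧ W α) ∨ (¬ a p ∧ W β) := by
    intro p q h
    by_cases hp : a p
    · simp only [cl2, if_pos hp] at h
      exact Or.inl ⟨hp, by simpa using h⟩
    · simp only [cl2, if_neg hp] at h
      exact Or.inr ⟨hp, by simpa using h⟩
  have fr : ∀ p q, W (cl2 γ α β υ a (0, p, q)) → W (γ p) := fun p q h => by simpa [cl2] using h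
  have su : ∀ κ p q, 2 ≤ κ → W (cl2 γ α β υ a (κ, p, q)) → W υ := by
    intro κ p q hκ h
    simp only [cl2, if_neg (show ¬ κ = 0 by omega), if_neg (show ¬ κ = 1 by omega)] at h
    exact h
  have hU : W υ → ∀ p q, W (cl2 γ α β υ a (1, p, q)) → a p := by
    intro hu p q h
    rcases lit p q h with h | h
    · exact h.1
    · exact (hsep hF.ub hu h.2).elim
  have hT : W (γ F.t) → ∀ p q, W (cl2 γ α β υ a (1, p, q)) → ¬ a p := by
    intro ht p q h
    rcases lit p q h with h | h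
    · exact (hsep hF.t ht h.2).elim
    · exact h.1
  rcases h with h | h | h | h | h | h | h | h | h | h | h | h
  · obtain ⟨⟨rfl, rfl⟩, h⟩ := h
    exact (hsep (hF.e _ _ h) (fr _ _ hx) (fr _ _ hy)).elim
  · obtain ⟨⟨rfl, rfl⟩, h⟩ := h
    rcases lit _ _ hy with h1 | h1
    · exact (hsep (hF.ya _ h) (fr _ _ hx) h1.2).elim
    · exact (hsep (hF.yb _ h) (fr _ _ hx) h1.2).elim
  · obtain ⟨⟨rfl, rfl⟩, h⟩ := h
    rcases lit _ _ hx with h1 | h1
    · exact (hsep (hF.ya _ h) (fr _ _ hy) h1.2).elim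
    · exact (hsep (hF.yb _ h) (fr _ _ hy) h1.2).elim
  · obtain ⟨⟨rfl, h1⟩, h⟩ := h
    exact (hsep (hF.u _ h) (fr _ _ hx) (su _ _ _ h1 hy)).elim
  · obtain ⟨⟨h1, rfl⟩, h⟩ := h
    exact (hsep (hF.u _ h) (fr _ _ hy) (su _ _ _ h1 hx)).elim
  · -- from the special vertex to a literal
    obtain ⟨⟨rfl, rfl⟩, rfl, h2⟩ := h
    have ht := fr _ _ hx
    have h3 := hT ht _ _ hy
    have h4 : ¬ W υ := fun hu => h3 (hU hu _ _ hy)
    have h5 : ¬ aft a p' := by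
      unfold aft
      rintro (h | h) <;> omega
    simp only [rk2, if_neg h4, if_pos ht, if_neg h5]
    simp
    omega
  · obtain ⟨⟨rfl, rfl⟩, rfl, h2⟩ := h
    have ht := fr _ _ hy
    have h3 := hT ht _ _ hx
    have h4 : ¬ W υ := fun hu => h3 (hU hu _ _ hx)
    have h5 : aft a p := by
      have h5 := ho.1 (p / 3) (by omega)
      rw [show 3 * (p / 3) = p - 2 by omega, show p - 2 + 1 = p - 1 by omega,
        show p - 2 + 2 = p by omega] at h5
      rcases h5 with h5 | h5 | h5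
      · exact Or.inr ⟨h2, h5⟩
      · exact Or.inl ⟨by omega, h5⟩
      · exact absurd h5 h3
    simp only [rk2, if_neg h4, if_pos ht, if_pos h5]
    simp
    omega
  · obtain ⟨⟨rfl, rfl⟩, rfl, h2⟩ := h
    have h6 : (p + 1) % 3 = p % 3 + 1 := by omega
    by_cases hu : W υ
    · simp only [rk2, if_pos hu]
      simp
      omega
    · by_cases ht : W (γ F.t)
      · have h3 := hT ht _ _ hx
        have h5 : aft a p ↔ aft a (p + 1) := by
          unfold aft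
          rw [Nat.add_sub_cancel, show p + 1 - 2 = p - 1 by omega]
          constructor
          · rintro (⟨h, h'⟩ | ⟨h, h'⟩)
            · exact Or.inr ⟨by omega, h'⟩
            · omega
          · rintro (⟨h, h'⟩ | ⟨h, h'⟩)
            · exact absurd h' h3
            · exact Or.inl ⟨by omega, h'⟩
        by_cases h4 : aft a (p + 1)
        · simp only [rk2, if_neg hu, if_pos ht, if_pos h4, if_pos (h5.2 h4), h6]
          simp
        · simp only [rk2, if_neg hu, if_pos ht, if_neg h4, if_neg (fun h => h4 (h5.1 h)), h6]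
          simp
      · simp only [rk2, if_neg hu, if_neg ht, h6]
        omega
  · obtain ⟨⟨⟨rfl, rfl⟩, rfl⟩, h2⟩ := h
    have hu := su _ _ _ (by omega) hy
    have h3 := hU hu _ _ hx
    simp only [rk2, if_pos hu, if_pos h3]
    simp
    omega
  · obtain ⟨⟨⟨rfl, rfl⟩, rfl⟩, h2⟩ := h
    have hu := su _ _ _ (by omega) hx
    have h3 := hU hu _ _ hy
    have h4 : ¬ a p := fun h => ho.2 p (by omega) q (by omega) h2 ⟨h, h3⟩
    simp only [rk2, if_pos hu, if_neg h4]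
    simp
  · obtain ⟨⟨⟨rfl, rfl⟩, rfl⟩, h2⟩ := h
    have hu := su _ _ _ (by omega) hy
    have h3 := hU hu _ _ hx
    simp only [rk2, if_pos hu, if_pos h3]
    simp
    omega
  · obtain ⟨⟨⟨rfl, rfl⟩, rfl⟩, h2⟩ := h
    have hu := su _ _ _ (by omega) hx
    have h3 := hU hu _ _ hy
    have h4 : ¬ a q := fun h => ho.2 p (by omega) q (by omega) h2 ⟨h3, h⟩
    simp only [rk2, if_pos hu, if_neg h4]
    simp

end Pool.Agent.V11230.SD
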