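import Pool.Agent.V11230.SE1

/-!
# The star dichromatic number between 2 and 3
-/

set_option autoImplicit false

namespace Pool.Agent.V11230.SD

open Finset Pool.Agent.H622R2

theorem IsCol.cyc {V : Type} {A : V → V → Prop} {k d : ℕ} {c : V → ZMod k}
    (hc : IsCol A k d c) (x : V) (l : List V) (hp : Path A x l x) (i : ZMod k)
    (hx : ∃ j : ℕ, j < d ∧ c x = i + (j : ZMod k))
    (hl : ∀ z ∈ l, ∃ j : ℕ, j < d ∧ c z = i + (j : ZMod k)) : False :=
  hc i x (Path.trans l x x hp hx hx hl)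

theorem IsCol.neg {V : Type} {A : V → V → Prop} {k d : ℕ} {c : V → ZMod k}
    (hc : IsCol A k d c) : IsCol A k d (fun v => - c v) := by
  intro i
  refine Acyc.mono ?_ (hc (- i - ((d - 1 : ℕ) : ZMod k)))
  rintro v ⟨j, hj, hv⟩
  refine ⟨d - 1 - j, by omega, ?_⟩
  have h1 : ((d - 1 - j : ℕ) : ZMod k) + (j : ZMod k) = ((d - 1 : ℕ) : ZMod k) := by
    rw [← Nat.cast_add]
    congr 1
    omega
  have h2 : c v = - (i + (j : ZMod k)) := by
    rw [← hv, neg_neg]
  rw [h2, ← h1]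
  ring

section
variable {V : Type} {A : V → V → Prop} {k d : ℕ} {c : V → ZMod k}

/-- the difference of two colours -/
def gp (c : V → ZMod k) (x y : V) : ℕ := (c y - c x).val

theorem gp_eq [NeZero k] (x y : V) : c y = c x + ((gp c x y : ℕ) : ZMod k) := by
  unfold gp
  rw [ZMod.natCast_val, ZMod.cast_id]
  ring

theorem gap [NeZero k] (hd : 1 ≤ d) (hc : IsCol A k d c) {x y : V} (hxy : A x y)
    (hyx : A y x) : d ≤ gp c x y ∧ gp c x y + d ≤ k := by
  have h1 : gp c x y < k := ZMod.val_lt _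
  have h2 := gp_eq (c := c) x y
  constructor
  · by_contra h
    refine hc.cyc x [y] ⟨hxy, hyx⟩ (c x) ⟨0, by omega, by simp⟩ ?_
    intro z hz
    rw [List.mem_singleton] at hz
    subst hz
    exact ⟨gp c x z, by omega, h2⟩
  · by_contra h
    refine hc.cyc x [y] ⟨hxy, hyx⟩ (c y) ⟨k - gp c x y, by omega, ?_⟩ ?_
    · rw [h2, add_assoc, ← Nat.cast_add, show gp c x y + (k - gp c x y) = k by omega,
        ZMod.natCast_self, add_zero]
    · intro z hz
      rw [List.mem_singleton] at hz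
      subst hz
      exact ⟨0, by omega, by simp⟩

end

/-- the frame for ratios between 2 and 3: an odd cycle -/
def frC (j : ℕ) : Fr where
  f := 2 * j + 1
  E := (List.range (2 * j)).map (fun i => (i, i + 1)) ++
    ((List.range (2 * j)).map (fun i => (i + 1, i)) ++ [(2 * j, 0), (0, 2 * j)])
  Y0 := [0]
  U0 := [1, 3]
  t := 2 * j - 1

theorem mem_frC {j i i' : ℕ} : (i, i') ∈ (frC j).E ↔ (i < 2 * j ∧ i' = i + 1) ∨
    (i' < 2 * j ∧ i = i' + 1) ∨ (i = 2 * j ∧ i' = 0) ∨ (i = 0 ∧ i' = 2 * j) := by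
  unfold frC
  simp only [List.mem_append, List.mem_map, List.mem_range, Prod.mk.injEq, List.mem_cons,
    List.not_mem_nil, or_false]
  constructor
  · rintro (⟨a, h, rfl, rfl⟩ | ⟨a, h, rfl, rfl⟩ | h | h)
    · exact Or.inl ⟨h, rfl⟩
    · exact Or.inr (Or.inl ⟨h, rfl⟩)
    · exact Or.inr (Or.inr (Or.inl h))
    · exact Or.inr (Or.inr (Or.inr h))
  · rintro (⟨h, rfl⟩ | ⟨h, rfl⟩ | h | h)
    · exact Or.inl ⟨i, h, rfl, rfl⟩
    · exact Or.inr (Or.inl ⟨i', h, rfl, rfl⟩)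
    · exact Or.inr (Or.inr (Or.inl h))
    · exact Or.inr (Or.inr (Or.inr h))

theorem frCol_frC {j : ℕ} (hj : 2 ≤ j) : FrCol (frC j) (2 * j + 1) j
    (fun i => ((i * j : ℕ) : ZMod (2 * j + 1))) ((2 * j * j : ℕ) : ZMod (2 * j + 1))
    ((1 * j : ℕ) : ZMod (2 * j + 1)) ((2 * j : ℕ) : ZMod (2 * j + 1)) := by
  have s1 : ∀ i : ℕ, Sep (2 * j + 1) j ((i * j : ℕ) : ZMod (2 * j + 1))
      (((i + 1) * j : ℕ) : ZMod (2 * j + 1)) := by
    intro i
    have h := sep_of (m := 2 * j + 1) (d := j) (e := j) ((i * j : ℕ) : ZMod (2 * j + 1))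
      le_rfl (by omega)
    rw [← Nat.cast_add, show i * j + j = (i + 1) * j by ring] at h
    exact h
  have s2 : Sep (2 * j + 1) j ((2 * j * j : ℕ) : ZMod (2 * j + 1))
      ((0 * j : ℕ) : ZMod (2 * j + 1)) := by
    have h := sep_of (m := 2 * j + 1) (d := j) (e := j) ((2 * j * j : ℕ) : ZMod (2 * j + 1))
      le_rfl (by omega)
    rw [← Nat.cast_add, show 2 * j * j + j = (2 * j + 1) * j by ring,
      Nat.cast_mul (2 * j + 1) j, ZMod.natCast_self, zero_mul] at h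
    rw [Nat.zero_mul, Nat.cast_zero]
    exact h
  refine ⟨?_, ?_, ?_, ?_, ?_, ?_⟩
  · intro i i' h
    rw [mem_frC] at h
    rcases h with ⟨_, rfl⟩ | ⟨_, rfl⟩ | ⟨rfl, rfl⟩ | ⟨rfl, rfl⟩
    · exact s1 i
    · exact (s1 i').symm
    · exact s2
    · exact s2.symm
  · intro i hi
    obtain rfl : i = 0 := by simpa [frC] using hi
    exact s2.symm
  · intro i hi
    obtain rfl : i = 0 := by simpa [frC] using hi
    exact s1 0
  · intro i hi
    have hi : i = 1 ∨ i = 3 := by simpa [frC] using hi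
    rcases hi with rfl | rfl
    · exact s1 1
    · exact (s1 2).symm
  · have h := s1 (2 * j - 1)
    rw [show 2 * j - 1 + 1 = 2 * j by omega] at h
    exact h
  · exact (s1 1).symm

/-- the core of the extraction -/
theorem ok_core {j : ℕ} (hj : 2 ≤ j) {P : Par} {k d ε : ℕ} [NeZero k] (hd : 1 ≤ d)
    (hk : k = 2 * d + ε) (hε : (j - 1) * ε < d) {c : Lab → ZMod k}
    (hc : IsCol (Arc2 (frC j) P) k d c)
    (hS : ∑ i ∈ range (2 * j), gp c (0, i, 0) (0, i + 1, 0) + gp c (0, 2 * j, 0) (0, 0, 0) =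
      k * j) : ∃ a, Ok P a := by
  have hε' : ε < d := by
    have : 1 * ε ≤ (j - 1) * ε := Nat.mul_le_mul_right _ (by omega)
    omega
  have hf : (frC j).f = 2 * j + 1 := rfl
  have ht : (frC j).t = 2 * j - 1 := rfl
  have hY : (frC j).Y0 = [0] := rfl
  have hU : (frC j).U0 = [1, 3] := rfl
  have arcv : ∀ i i', i < 2 * j + 1 → i' < 2 * j + 1 → (i, i') ∈ (frC j).E →
      Arc2 (frC j) P (0, i, 0) (0, i', 0) := by
    intro i i' hi hi' h
    refine ⟨⟨?_, ?_⟩, ?_⟩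
    · rw [mem_vs2, hf]
      omega
    · rw [mem_vs2, hf]
      omega
    · rw [adj2_iff]
      exact Or.inl ⟨⟨rfl, rfl⟩, h⟩
  have g0 : ∀ i < 2 * j, d ≤ gp c (0, i, 0) (0, i + 1, 0) ∧
      gp c (0, i, 0) (0, i + 1, 0) + d ≤ k := by
    intro i hi
    exact gap hd hc (arcv _ _ (by omega) (by omega) (mem_frC.2 (Or.inl ⟨hi, rfl⟩)))
      (arcv _ _ (by omega) (by omega) (mem_frC.2 (Or.inr (Or.inl ⟨hi, rfl⟩))))
  have gl : d ≤ gp c (0, 2 * j, 0) (0, 0, 0) ∧ gp c (0, 2 * j, 0) (0, 0, 0) + d ≤ k :=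
    gap hd hc (arcv _ _ (by omega) (by omega) (mem_frC.2 (by omega)))
      (arcv _ _ (by omega) (by omega) (mem_frC.2 (by omega)))
  set e : ℕ → ℕ := fun i => gp c (0, i, 0) (0, i + 1, 0) - d with he
  set el : ℕ := gp c (0, 2 * j, 0) (0, 0, 0) - d with hel
  have hge : ∀ i < 2 * j, gp c (0, i, 0) (0, i + 1, 0) = e i + d := by
    intro i hi
    have := (g0 i hi).1
    rw [he]
    simp only
    omega
  have hsum : ∑ i ∈ range (2 * j), gp c (0, i, 0) (0, i + 1, 0) =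
      ∑ i ∈ range (2 * j), e i + 2 * j * d := by
    rw [sum_congr rfl (fun i hi => hge i (mem_range.1 hi)), sum_add_distrib, sum_const,
      card_range, smul_eq_mul]
  have hpart : e 0 + (e 1 + (e 2 + e (2 * j - 1))) ≤ ∑ i ∈ range (2 * j), e i := by
    have h1 : ({0, 1, 2, 2 * j - 1} : Finset ℕ) ⊆ range (2 * j) := by
      intro x hx
      simp only [mem_insert, mem_singleton] at hx
      rw [mem_range]
      omega
    have h2 := sum_le_sum_of_subset (f := e) h1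
    rw [sum_insert (by simp; omega), sum_insert (by simp; omega), sum_insert (by simp; omega),
      sum_singleton] at h2
    exact h2
  have htot : e 0 + (e 1 + (e 2 + e (2 * j - 1))) + el < ε := by
    have h1 : ∑ i ∈ range (2 * j), e i + el + (2 * j + 1) * d = k * j := by
      rw [← hS, hsum, show gp c (0, 2 * j, 0) (0, 0, 0) = el + d by omega]
      ring
    obtain ⟨j', rfl⟩ : ∃ j', j = j' + 1 := ⟨j - 1, by omega⟩
    rw [Nat.add_sub_cancel] at hε
    have h2 : k * (j' + 1) = 2 * j' * d + 2 * d + j' * ε + ε := by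
      rw [hk]
      ring
    have h3 : (2 * (j' + 1) + 1) * d = 2 * j' * d + 3 * d := by ring
    rw [h2, h3] at h1
    omega
  -- the positions
  have hv1 : c (0, 1, 0) = c (0, 0, 0) + ((e 0 + d : ℕ) : ZMod k) := by
    rw [← hge 0 (by omega)]
    exact gp_eq _ _
  have hvt : c (0, 0, 0) = c (0, 2 * j - 1, 0) + ((2 * d + (e (2 * j - 1) + el) : ℕ) : ZMod k) := by
    have h1 := gp_eq (c := c) (0, 2 * j - 1, 0) (0, 2 * j - 1 + 1, 0)
    rw [hge (2 * j - 1) (by omega), show 2 * j - 1 + 1 = 2 * j by omega] at h1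
    have h2 := gp_eq (c := c) (0, 2 * j, 0) (0, 0, 0)
    rw [h1, show gp c (0, 2 * j, 0) (0, 0, 0) = el + d by omega, add_assoc, ← Nat.cast_add] at h2
    rw [h2]
    congr 2
    omega
  set b : ℕ := e (2 * j - 1) + el with hb
  have hct : c (0, 2 * j - 1, 0) = c (0, 0, 0) + ((ε - b : ℕ) : ZMod k) := by
    rw [hvt, add_assoc, ← Nat.cast_add, show 2 * d + b + (ε - b) = k by omega,
      ZMod.natCast_self, add_zero]
  -- the separators
  have hsepar : ∀ κ p q, 2 ≤ κ → κ < 4 → p < 3 * P.n → q < 3 * P.n →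
      ∃ a : ℕ, c (κ, p, q) = c (0, 0, 0) + ((2 * d + a : ℕ) : ZMod k) ∧ a + b < ε := by
    intro κ p q hκ hκ' hp hq
    have arcu : ∀ i, i = 1 ∨ i = 3 → Arc2 (frC j) P (0, i, 0) (κ, p, q) ∧
        Arc2 (frC j) P (κ, p, q) (0, i, 0) := by
      intro i hi
      have m1 : ((0, i, 0) : Lab) ∈ vs2 (frC j) P.n := by
        rw [mem_vs2, hf]
        omega
      have m2 : ((κ, p, q) : Lab) ∈ vs2 (frC j) P.n := by
        rw [mem_vs2, hf]
        omega
      have m3 : i ∈ (frC j).U0 := by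
        rw [hU]
        simpa using hi
      exact ⟨⟨⟨m1, m2⟩, adj2_iff.2 (Or.inr (Or.inr (Or.inr (Or.inl ⟨⟨rfl, hκ⟩, m3⟩))))⟩,
        ⟨⟨m2, m1⟩, adj2_iff.2 (Or.inr (Or.inr (Or.inr (Or.inr (Or.inl ⟨⟨hκ, rfl⟩, m3⟩)))))⟩⟩
    have u1 := gap hd hc (arcu 1 (Or.inl rfl)).1 (arcu 1 (Or.inl rfl)).2
    have u3 := gap hd hc (arcu 3 (Or.inr rfl)).2 (arcu 3 (Or.inr rfl)).1
    have q1 := gp_eq (c := c) (0, 1, 0) (κ, p, q)
    have q2 := gp_eq (c := c) (κ, p, q) (0, 3, 0)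
    have q3 := gp_eq (c := c) (0, 1, 0) (0, 2, 0)
    have q4 := gp_eq (c := c) (0, 2, 0) (0, 3, 0)
    have w1 := hge 1 (by omega)
    have w2 := hge 2 (by omega)
    have b1 := g0 1 (by omega)
    have b2 := g0 2 (by omega)
    rw [show 1 + 1 = 2 by omega] at w1 b1
    rw [show 2 + 1 = 3 by omega] at w2 b2
    have hcong : gp c (0, 1, 0) (κ, p, q) + gp c (κ, p, q) (0, 3, 0) =
        gp c (0, 1, 0) (0, 2, 0) + gp c (0, 2, 0) (0, 3, 0) := by
      have h1 : c (0, 1, 0) + ((gp c (0, 1, 0) (κ, p, q) + gp c (κ, p, q) (0, 3, 0) : ℕ) :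
          ZMod k) = c (0, 1, 0) + ((gp c (0, 1, 0) (0, 2, 0) + gp c (0, 2, 0) (0, 3, 0) : ℕ) :
          ZMod k) := by
        rw [Nat.cast_add, Nat.cast_add, ← add_assoc, ← add_assoc, ← q1, ← q2, ← q3, ← q4]
      have h2 := add_left_cancel h1
      rw [ZMod.natCast_eq_natCast_iff] at h2
      refine h2.eq_of_abs_lt ?_
      rw [abs_lt]
      constructor <;> push_cast <;> omega
    refine ⟨e 0 + (gp c (0, 1, 0) (κ, p, q) - d), ?_, by omega⟩
    rw [q1, hv1, add_assoc, ← Nat.cast_add]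
    congr 2
    omega
  -- the literals
  have hlit : ∀ p < 3 * P.n, d ≤ gp c (0, 0, 0) (1, p, 0) ∧
      gp c (0, 0, 0) (1, p, 0) + d ≤ k := by
    intro p hp
    have m1 : ((0, 0, 0) : Lab) ∈ vs2 (frC j) P.n := by
      rw [mem_vs2, hf]
      omega
    have m2 : ((1, p, 0) : Lab) ∈ vs2 (frC j) P.n := by
      rw [mem_vs2, hf]
      omega
    have m3 : 0 ∈ (frC j).Y0 := by
      rw [hY]
      simp
    exact gap hd hc ⟨⟨m1, m2⟩, adj2_iff.2 (Or.inr (Or.inl ⟨⟨rfl, rfl⟩, m3⟩))⟩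
      ⟨⟨m2, m1⟩, adj2_iff.2 (Or.inr (Or.inr (Or.inl ⟨⟨rfl, rfl⟩, m3⟩)))⟩
  refine ⟨fun p => d + ε ≤ gp c (0, 0, 0) (1, p, 0) + b, ?_, ?_⟩
  · intro s hs
    by_contra hcon
    have hp : Path (Arc2 (frC j) P) (0, 2 * j - 1, 0) [(1, 3 * s, 0), (1, 3 * s + 1, 0),
        (1, 3 * s + 2, 0)] (0, 2 * j - 1, 0) := by
      simp [Path, Arc2, mem_vs2, adj2_iff, hf, ht]
      omega
    have hy : ∀ p < 3 * P.n, ¬ (d + ε ≤ gp c (0, 0, 0) (1, p, 0) + b) →
        ∃ i : ℕ, i < d ∧ c (1, p, 0) = c (0, 2 * j - 1, 0) + (i : ZMod k) := by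
      intro p hp hn
      have := hlit p hp
      refine ⟨gp c (0, 0, 0) (1, p, 0) - (ε - b), by omega, ?_⟩
      rw [hct, add_assoc, ← Nat.cast_add,
        show ε - b + (gp c (0, 0, 0) (1, p, 0) - (ε - b)) = gp c (0, 0, 0) (1, p, 0) by omega]
      exact gp_eq _ _
    refine hc.cyc _ _ hp (c (0, 2 * j - 1, 0)) ⟨0, by omega, by simp⟩ ?_
    push Not at hcon
    intro z hz
    simp only [List.mem_cons, List.not_mem_nil, or_false] at hz
    rcases hz with rfl | rfl | rfl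
    · exact hy _ (by omega) (by omega)
    · exact hy _ (by omega) (by omega)
    · exact hy _ (by omega) (by omega)
  · rintro p hp q hq hcf ⟨h1, h2⟩
    have hpath : Path (Arc2 (frC j) P) (1, p, 0) [(2, p, q), (1, q, 0), (3, p, q)] (1, p, 0) := by
      simp [Path, Arc2, mem_vs2, adj2_iff, hf, hcf]
      omega
    obtain ⟨a1, ha1, hb1⟩ := hsepar 2 p q (by omega) (by omega) hp hq
    obtain ⟨a2, ha2, hb2⟩ := hsepar 3 p q (by omega) (by omega) hp hq
    have l1 := hlit p hp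
    have l2 := hlit q hq
    have h1 : d + ε ≤ gp c (0, 0, 0) (1, p, 0) + b := h1
    have h2 : d + ε ≤ gp c (0, 0, 0) (1, q, 0) + b := h2
    set m0 := min (gp c (0, 0, 0) (1, p, 0)) (gp c (0, 0, 0) (1, q, 0)) with hm0
    have key : ∀ z : Lab, ∀ s : ℕ, c z = c (0, 0, 0) + (s : ZMod k) → m0 ≤ s → s < m0 + d →
        ∃ i : ℕ, i < d ∧ c z = c (0, 0, 0) + (m0 : ZMod k) + (i : ZMod k) := by
      intro z s hz hs1 hs2
      refine ⟨s - m0, by omega, ?_⟩
      rw [hz, add_assoc, ← Nat.cast_add, show m0 + (s - m0) = s by omega]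
    refine hc.cyc _ _ hpath (c (0, 0, 0) + (m0 : ZMod k)) (key _ _ (gp_eq _ _) (by omega)
      (by omega)) ?_
    intro z hz
    simp only [List.mem_cons, List.not_mem_nil, or_false] at hz
    rcases hz with rfl | rfl | rfl
    · exact key _ _ ha1 (by omega) (by omega)
    · exact key _ _ (gp_eq _ _) (by omega) (by omega)
    · exact key _ _ ha2 (by omega) (by omega)

end Pool.Agent.V11230.SD
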