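import Pool.Agent.V11230.SE2

/-!
# The star dichromatic number above 2: from colourings to assignments
-/

set_option autoImplicit false

namespace Pool.Agent.V11230.SD

open Finset Pool.Agent.H622R2

theorem gp_neg {V : Type} {k : ℕ} [NeZero k] (c : V → ZMod k) {x y : V} (h : 1 ≤ gp c x y) :
    gp (fun v => - c v) x y = k - gp c x y := by
  unfold gp at h ⊢
  have h1 : - c y - - c x = - (c y - c x) := by ring
  rw [h1, ZMod.neg_val, if_neg]
  intro h2
  rw [h2, ZMod.val_zero] at h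
  omega

theorem ok_of_col_C {j : ℕ} (hj : 2 ≤ j) {P : Par} {k d : ℕ} (hd : 1 ≤ d ∧ d ≤ k)
    (hkd : (j - 1) * (k - 2 * d) < d) (h : Col (Arc2 (frC j) P) k d) : ∃ a, Ok P a := by
  obtain ⟨c, hc⟩ := h
  have : NeZero k := ⟨by omega⟩
  have hf : (frC j).f = 2 * j + 1 := rfl
  have arcv : ∀ i i', i < 2 * j + 1 → i' < 2 * j + 1 → (i, i') ∈ (frC j).E →
      Arc2 (frC j) P (0, i, 0) (0, i', 0) := by
    intro i i' hi hi' h
    refine ⟨⟨?_, ?_⟩, ?_⟩
    · rw [mem_vs2, hf]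
      omega
    · rw [mem_vs2, hf]
      omega
    · rw [adj2_iff]
      exact Or.inl ⟨⟨rfl, rfl⟩, h⟩
  have g0 : ∀ i < 2 * j, d ≤ gp c (0, i, 0) (0, i + 1, 0) ∧
      gp c (0, i, 0) (0, i + 1, 0) + d ≤ k := by
    intro i hi
    exact gap hd.1 hc (arcv _ _ (by omega) (by omega) (mem_frC.2 (Or.inl ⟨hi, rfl⟩)))
      (arcv _ _ (by omega) (by omega) (mem_frC.2 (Or.inr (Or.inl ⟨hi, rfl⟩))))
  have gl : d ≤ gp c (0, 2 * j, 0) (0, 0, 0) ∧ gp c (0, 2 * j, 0) (0, 0, 0) + d ≤ k :=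
    gap hd.1 hc (arcv _ _ (by omega) (by omega) (mem_frC.2 (by omega)))
      (arcv _ _ (by omega) (by omega) (mem_frC.2 (by omega)))
  have h2d : 2 * d ≤ k := by omega
  obtain ⟨ε, hk⟩ : ∃ ε, k = 2 * d + ε := ⟨k - 2 * d, by omega⟩
  rw [show k - 2 * d = ε by omega] at hkd
  set S := ∑ i ∈ range (2 * j), gp c (0, i, 0) (0, i + 1, 0) with hS
  set gL := gp c (0, 2 * j, 0) (0, 0, 0) with hgL
  have tele : ∀ n : ℕ, ((∑ i ∈ range n, gp c (0, i, 0) (0, i + 1, 0) : ℕ) : ZMod k) =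
      c (0, n, 0) - c (0, 0, 0) := by
    intro n
    induction n with
    | zero => simp
    | succ n ih =>
      rw [sum_range_succ, Nat.cast_add, ih]
      have := gp_eq (c := c) (0, n, 0) (0, n + 1, 0)
      rw [this]
      ring
  have hdvd : k ∣ S + gL := by
    rw [← ZMod.natCast_eq_zero_iff, Nat.cast_add, hS, tele (2 * j)]
    have := gp_eq (c := c) (0, 2 * j, 0) (0, 0, 0)
    rw [this]
    ring
  obtain ⟨m, hm⟩ := hdvd
  have hlo : 2 * j * d ≤ S := by
    have h1 : ∑ _i ∈ range (2 * j), d ≤ S := sum_le_sum fun i hi => (g0 i (mem_range.1 hi)).1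
    rw [sum_const, card_range, smul_eq_mul] at h1
    exact h1
  have hhi : S + 2 * j * d ≤ 2 * j * k := by
    have h1 : ∑ i ∈ range (2 * j), (gp c (0, i, 0) (0, i + 1, 0) + d) ≤
        ∑ _i ∈ range (2 * j), k := sum_le_sum fun i hi => (g0 i (mem_range.1 hi)).2
    rw [sum_add_distrib, sum_const, sum_const, card_range, smul_eq_mul, smul_eq_mul] at h1
    exact h1
  have hmj : m = j ∨ m = j + 1 := by
    obtain ⟨j', rfl⟩ : ∃ j', j = j' + 1 := ⟨j - 1, by omega⟩
    rw [Nat.add_sub_cancel] at hkd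
    by_contra hcon
    push Not at hcon
    have e1 : 2 * (j' + 1) * d = 2 * (j' * d) + 2 * d := by ring
    have e2 : 2 * (j' + 1) * k = 2 * (j' * k) + 2 * k := by ring
    have e3 : j' * k = 2 * (j' * d) + j' * ε := by
      rw [hk]
      ring
    rcases Nat.lt_or_ge m (j' + 1) with h1 | h1
    · have h2 : k * m ≤ k * j' := Nat.mul_le_mul_left _ (by omega)
      rw [Nat.mul_comm k j'] at h2
      omega
    · have h2 : k * (j' + 3) ≤ k * m := Nat.mul_le_mul_left _ (by omega)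
      have h3 : k * (j' + 3) = j' * k + 3 * k := by ring
      omega
  rcases hmj with rfl | rfl
  · exact ok_core hj hd.1 hk hkd hc hm
  · refine ok_core hj hd.1 hk hkd hc.neg ?_
    rw [gp_neg c (by omega), sum_congr rfl (fun i hi => gp_neg c
      (by have := g0 i (mem_range.1 hi); omega))]
    have h1 : ∑ i ∈ range (2 * j), (k - gp c (0, i, 0) (0, i + 1, 0)) + S = 2 * j * k := by
      rw [hS, ← sum_add_distrib]
      have h2 : ∀ i ∈ range (2 * j), k - gp c (0, i, 0) (0, i + 1, 0) +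
          gp c (0, i, 0) (0, i + 1, 0) = k := by
        intro i hi
        have := g0 i (mem_range.1 hi)
        omega
      rw [sum_congr rfl h2, sum_const, card_range, smul_eq_mul]
    have h2 : 2 * j * k = 2 * (k * j) := by ring
    have h3 : k * (j + 1) = k * j + k := by ring
    omega

/-! ### Ratios at least 3 -/

/-- the frame for ratios at least 3: a complete graph -/
def frK (r : ℕ) : Fr where
  f := r
  E := (List.product (List.range r) (List.range r)).filter (fun x => !(decide (x.1 = x.2)))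
  Y0 := List.range (r - 2)
  U0 := (r - 1) :: List.range (r - 2)
  t := r - 1

theorem mem_frK {r i i' : ℕ} : (i, i') ∈ (frK r).E ↔ (i < r ∧ i' < r) ∧ i ≠ i' := by
  unfold frK
  rw [List.mem_filter, List.pair_mem_product, List.mem_range, List.mem_range,
    Bool.not_eq_true', decide_eq_false_iff_not]

theorem sepK {r i i' : ℕ} (hi : i < r) (hi' : i' < r) (h : i ≠ i') :
    Sep r 1 ((i : ℕ) : ZMod r) ((i' : ℕ) : ZMod r) := by
  rcases Nat.lt_or_gt_of_ne h with h1 | h1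
  · have h2 := sep_of (m := r) (d := 1) (e := i' - i) ((i : ℕ) : ZMod r) (by omega) (by omega)
    rw [← Nat.cast_add, show i + (i' - i) = i' by omega] at h2
    exact h2
  · have h2 := sep_of (m := r) (d := 1) (e := i - i') ((i' : ℕ) : ZMod r) (by omega) (by omega)
    rw [← Nat.cast_add, show i' + (i - i') = i by omega] at h2
    exact h2.symm

theorem frCol_frK {r : ℕ} (hr : 3 ≤ r) : FrCol (frK r) r 1
    (fun i => ((i : ℕ) : ZMod r)) ((r - 2 : ℕ) : ZMod r)
    ((r - 1 : ℕ) : ZMod r) ((r - 2 : ℕ) : ZMod r) := by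
  refine ⟨?_, ?_, ?_, ?_, ?_, ?_⟩
  · intro i i' h
    rw [mem_frK] at h
    exact sepK h.1.1 h.1.2 h.2
  · intro i hi
    have hi : i < r - 2 := List.mem_range.1 hi
    exact sepK (by omega) (by omega) (by omega)
  · intro i hi
    have hi : i < r - 2 := List.mem_range.1 hi
    exact sepK (by omega) (by omega) (by omega)
  · intro i hi
    have hi : i = r - 1 ∨ i < r - 2 := by
      rcases List.mem_cons.1 hi with h | h
      · exact Or.inl h
      · exact Or.inr (List.mem_range.1 h)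
    rcases hi with rfl | hi
    · exact sepK (by omega) (by omega) (by omega)
    · exact sepK (by omega) (by omega) (by omega)
  · exact sepK (i := r - 1) (by omega) (by omega) (by omega)
  · exact sepK (by omega) (by omega) (by omega)

theorem ok_of_col_K {r : ℕ} (hr : 3 ≤ r) {P : Par} {k d : ℕ} (hd : 1 ≤ d ∧ d ≤ k)
    (hkd : k < (r + 1) * d) (h : Col (Arc2 (frK r) P) k d) : ∃ a, Ok P a := by
  obtain ⟨c, hc⟩ := h
  have : NeZero k := ⟨by omega⟩
  have hf : (frK r).f = r := rfl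
  have ht : (frK r).t = r - 1 := rfl
  have hY : ∀ i, i ∈ (frK r).Y0 ↔ i < r - 2 := fun i => List.mem_range
  have hU : ∀ i, i ∈ (frK r).U0 ↔ i = r - 1 ∨ i < r - 2 := by
    intro i
    change i ∈ (r - 1) :: List.range (r - 2) ↔ _
    rw [List.mem_cons, List.mem_range]
  set cs : Lab → ℕ := fun x => gp c (0, 0, 0) x / d with hcs
  have win : ∀ x s, cs x = s → ∃ i : ℕ, i < d ∧ c x = c (0, 0, 0) + ((s * d : ℕ) : ZMod k) +
      (i : ZMod k) := by
    intro x s hs
    refine ⟨gp c (0, 0, 0) x % d, Nat.mod_lt _ (by omega), ?_⟩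
    have h1 : s * d + gp c (0, 0, 0) x % d = gp c (0, 0, 0) x := by
      rw [← hs, Nat.mul_comm]
      exact Nat.div_add_mod _ _
    rw [add_assoc, ← Nat.cast_add, h1]
    exact gp_eq _ _
  have rng : ∀ x, Arc2 (frK r) P (0, 0, 0) x → Arc2 (frK r) P x (0, 0, 0) →
      1 ≤ cs x ∧ cs x < r := by
    intro x h1 h2
    have h3 := gap hd.1 hc h1 h2
    refine ⟨(Nat.one_le_div_iff (by omega)).2 h3.1, ?_⟩
    refine (Nat.div_lt_iff_lt_mul (by omega)).2 ?_
    have h4 : (r + 1) * d = r * d + d := by ring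
    omega
  have sep : ∀ x y, Arc2 (frK r) P x y → Arc2 (frK r) P y x → cs x ≠ cs y := by
    intro x y h1 h2 h3
    refine hc.cyc x [y] ⟨h1, h2⟩ _ (win x (cs y) h3) ?_
    intro z hz
    rw [List.mem_singleton] at hz
    subst hz
    exact win z _ rfl
  have mv : ∀ i < r, ((0, i, 0) : Lab) ∈ vs2 (frK r) P.n := by
    intro i hi
    rw [mem_vs2, hf]
    omega
  have my : ∀ p < 3 * P.n, ((1, p, 0) : Lab) ∈ vs2 (frK r) P.n := by
    intro p hp
    rw [mem_vs2, hf]
    omega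
  have mu : ∀ κ p q, 2 ≤ κ → κ < 4 → p < 3 * P.n → q < 3 * P.n →
      ((κ, p, q) : Lab) ∈ vs2 (frK r) P.n := by
    intro κ p q h1 h2 h3 h4
    rw [mem_vs2, hf]
    omega
  have arcv : ∀ i i', i < r → i' < r → i ≠ i' →
      Arc2 (frK r) P (0, i, 0) (0, i', 0) := by
    intro i i' hi hi' h
    exact ⟨⟨mv i hi, mv i' hi'⟩, adj2_iff.2 (Or.inl ⟨⟨rfl, rfl⟩, mem_frK.2 ⟨⟨hi, hi'⟩, h⟩⟩)⟩
  have arcy : ∀ i p, i < r - 2 → p < 3 * P.n → Arc2 (frK r) P (0, i, 0) (1, p, 0) ∧
      Arc2 (frK r) P (1, p, 0) (0, i, 0) := by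
    intro i p hi hp
    exact ⟨⟨⟨mv i (by omega), my p hp⟩, adj2_iff.2 (Or.inr (Or.inl ⟨⟨rfl, rfl⟩, (hY i).2 hi⟩))⟩,
      ⟨⟨my p hp, mv i (by omega)⟩, adj2_iff.2 (Or.inr (Or.inr (Or.inl ⟨⟨rfl, rfl⟩,
        (hY i).2 hi⟩)))⟩⟩
  have arcu : ∀ i κ p q, (i = r - 1 ∨ i < r - 2) → 2 ≤ κ → κ < 4 → p < 3 * P.n → q < 3 * P.n →
      Arc2 (frK r) P (0, i, 0) (κ, p, q) ∧ Arc2 (frK r) P (κ, p, q) (0, i, 0) := by
    intro i κ p q hi h1 h2 hp hq
    exact ⟨⟨⟨mv i (by omega), mu κ p q h1 h2 hp hq⟩, adj2_iff.2 (Or.inr (Or.inr (Or.inr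
      (Or.inl ⟨⟨rfl, h1⟩, (hU i).2 hi⟩))))⟩,
      ⟨⟨mu κ p q h1 h2 hp hq, mv i (by omega)⟩, adj2_iff.2 (Or.inr (Or.inr (Or.inr
      (Or.inr (Or.inl ⟨⟨h1, rfl⟩, (hU i).2 hi⟩)))))⟩⟩
  have hsurj : ∀ s, 1 ≤ s → s < r → ∃ i, (1 ≤ i ∧ i < r) ∧ cs (0, i, 0) = s := by
    have h1 : (Ico 1 r).image (fun i => cs (0, i, 0)) = Ico 1 r := by
      refine eq_of_subset_of_card_le ?_ ?_
      · intro s hs
        rw [mem_image] at hs
        obtain ⟨i, hi, rfl⟩ := hs
        rw [mem_Ico] at hi ⊢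
        exact rng _ (arcv _ _ (by omega) (by omega) (by omega))
          (arcv _ _ (by omega) (by omega) (by omega))
      · rw [card_image_of_injOn]
        intro i hi i' hi' he
        rw [mem_coe, mem_Ico] at hi hi'
        by_contra hne
        exact sep _ _ (arcv i i' (by omega) (by omega) hne)
          (arcv i' i (by omega) (by omega) (Ne.symm hne)) he
    intro s hs1 hs2
    have h2 : s ∈ (Ico 1 r).image (fun i => cs (0, i, 0)) := by
      rw [h1, mem_Ico]
      exact ⟨hs1, hs2⟩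
    rw [mem_image] at h2
    obtain ⟨i, hi, h3⟩ := h2
    rw [mem_Ico] at hi
    exact ⟨i, hi, h3⟩
  have cy : ∀ p < 3 * P.n, cs (1, p, 0) = cs (0, r - 2, 0) ∨ cs (1, p, 0) = cs (0, r - 1, 0) := by
    intro p hp
    have h1 := rng _ (arcy 0 p (by omega) hp).1 (arcy 0 p (by omega) hp).2
    obtain ⟨i, hi, h2⟩ := hsurj _ h1.1 h1.2
    by_cases h3 : i < r - 2
    · exact absurd h2 (sep _ _ (arcy i p h3 hp).1 (arcy i p h3 hp).2)
    · rcases (show i = r - 2 ∨ i = r - 1 by omega) with rfl | rfl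
      · exact Or.inl h2.symm
      · exact Or.inr h2.symm
  have cu : ∀ κ p q, 2 ≤ κ → κ < 4 → p < 3 * P.n → q < 3 * P.n →
      cs (κ, p, q) = cs (0, r - 2, 0) := by
    intro κ p q g1 g2 hp hq
    have h1 := rng _ (arcu 0 κ p q (by omega) g1 g2 hp hq).1
      (arcu 0 κ p q (by omega) g1 g2 hp hq).2
    obtain ⟨i, hi, h2⟩ := hsurj _ h1.1 h1.2
    by_cases h3 : i = r - 1 ∨ i < r - 2
    · exact absurd h2 (sep _ _ (arcu i κ p q h3 g1 g2 hp hq).1 (arcu i κ p q h3 g1 g2 hp hq).2)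
    · rw [show i = r - 2 by omega] at h2
      exact h2.symm
  refine ⟨fun p => cs (1, p, 0) = cs (0, r - 2, 0), ?_, ?_⟩
  · intro s hs
    by_contra hcon
    push Not at hcon
    have hp : Path (Arc2 (frK r) P) (0, r - 1, 0) [(1, 3 * s, 0), (1, 3 * s + 1, 0),
        (1, 3 * s + 2, 0)] (0, r - 1, 0) := by
      simp [Path, Arc2, mem_vs2, adj2_iff, hf, ht]
      omega
    have hy : ∀ p < 3 * P.n, cs (1, p, 0) ≠ cs (0, r - 2, 0) →
        cs (1, p, 0) = cs (0, r - 1, 0) := fun p hp h => (cy p hp).resolve_left h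
    refine hc.cyc _ _ hp _ (win _ _ rfl) ?_
    intro z hz
    simp only [List.mem_cons, List.not_mem_nil, or_false] at hz
    rcases hz with rfl | rfl | rfl
    · exact win _ _ (hy _ (by omega) hcon.1)
    · exact win _ _ (hy _ (by omega) hcon.2.1)
    · exact win _ _ (hy _ (by omega) hcon.2.2)
  · rintro p hp q hq hcf ⟨h1, h2⟩
    have hpath : Path (Arc2 (frK r) P) (1, p, 0) [(2, p, q), (1, q, 0), (3, p, q)] (1, p, 0) := by
      simp [Path, Arc2, mem_vs2, adj2_iff, hf, hcf]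
      omega
    refine hc.cyc _ _ hpath _ (win _ _ h1) ?_
    intro z hz
    simp only [List.mem_cons, List.not_mem_nil, or_false] at hz
    rcases hz with rfl | rfl | rfl
    · exact win _ _ (cu 2 p q (by omega) (by omega) hp hq)
    · exact win _ _ h2
    · exact win _ _ (cu 3 p q (by omega) (by omega) hp hq)

end Pool.Agent.V11230.SD
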