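import Pool.Agent.V11230.SE3
import Pool.Agent.V11230.SD5

/-!
# The star dichromatic number above 2: polynomial time and hardness
-/

set_option autoImplicit false

namespace Pool.Agent.V11230.SD

open Pool.Agent.H622R2 Pool.Agent.NPC

theorem adj2_irrefl {F : Fr} (hE : ∀ i, (i, i) ∉ F.E) {cf : ℕ → ℕ → Bool} {x y : Lab}
    (h : adj2 F cf x y = true) : x ≠ y := by
  rintro rfl
  obtain ⟨κ, p, q⟩ := x
  rw [adj2_iff] at h
  rcases h with h | h | h | h | h | h | h | h | h | h | h | h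
  · exact hE _ h.2
  all_goals omega

theorem col_mat2 (F : Fr) (hf : 1 ≤ F.f) (hE : ∀ i, (i, i) ∉ F.E) (P : Par) (k d : ℕ) :
    Col (dig (mat (vs2 F P.n) (adj2 F P.cf))) k d ↔ Col (Arc2 F P) k d := by
  classical
  set e : Fin (mat (vs2 F P.n) (adj2 F P.cf)).length ≃ {x // x ∈ vs2 F P.n} :=
    (finCongr (mat_length _ _)).trans (List.Nodup.getEquiv _ (nodup_vs2 F P.n)) with he
  have hent : ∀ a b : Fin (mat (vs2 F P.n) (adj2 F P.cf)).length,
      entry (mat (vs2 F P.n) (adj2 F P.cf)) a b = adj2 F P.cf (e a).1 (e b).1 := by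
    intro a b
    have ha : a.1 < (vs2 F P.n).length := lt_of_lt_of_eq a.2 (mat_length _ _)
    have hb : b.1 < (vs2 F P.n).length := lt_of_lt_of_eq b.2 (mat_length _ _)
    rw [entry_mat _ _ _ _ ha hb]
    rfl
  have h0 : ((0, 0, 0) : Lab) ∈ vs2 F P.n := by
    rw [mem_vs2]
    omega
  constructor
  · refine Col.comap (fun x => if hx : x ∈ vs2 F P.n then e.symm ⟨x, hx⟩ else e.symm ⟨_, h0⟩) ?_
    rintro x y ⟨⟨hx, hy⟩, hxy⟩
    rw [dif_pos hx, dif_pos hy]
    refine ⟨fun h => adj2_irrefl hE hxy ?_, ?_⟩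
    · exact congrArg Subtype.val (e.symm.injective h)
    · rw [hent, e.apply_symm_apply, e.apply_symm_apply]
      exact hxy
  · refine Col.comap (fun i => (e i).1) ?_
    rintro i j ⟨_, hij⟩
    rw [hent] at hij
    exact ⟨⟨(e i).2, (e j).2⟩, hij⟩

/-- the matrix of a formula -/
def matG (F : Fr) (φ : List MS.Cl) : List (List Bool) :=
  mat (vs2 F (parF φ).n) (adj2 F (parF φ).cf)

/-- a frame that works for a threshold `p`, with a gap up to `p'` -/
structure Good (F : Fr) (p : ℝ) : Prop where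
  /-- there is a vertex -/
  f : 1 ≤ F.f
  /-- there is no loop -/
  irr : ∀ i, (i, i) ∉ F.E
  /-- the colouring for satisfiable formulas -/
  yes : ∃ m d : ℕ, (1 ≤ d ∧ d ≤ m) ∧ (m : ℝ) / d ≤ p ∧
    ∃ γ : ℕ → ZMod m, ∃ α β υ, FrCol F m d γ α β υ
  /-- the extraction -/
  no : ∃ p' : ℝ, p < p' ∧ ∀ P : Par, ∀ k d : ℕ, 1 ≤ d ∧ d ≤ k → (k : ℝ) / d < p' →
    Col (Arc2 F P) k d → ∃ a, Ok P a

theorem Good.starMin {F : Fr} {p : ℝ} (h : Good F p) {φ : List MS.Cl} (hs : SAT3 φ) :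
    StarMin p (matG F φ) := by
  obtain ⟨m, d, hmd, hp, γ, α, β, υ, hF⟩ := h.yes
  obtain ⟨a, ha⟩ := (ok_iff φ).2 hs
  exact ⟨m, d, hmd, hp, (col_mat2 F h.f h.irr (parF φ) _ _).2 (col2_of_ok hF ha)⟩

theorem Good.sat {F : Fr} {p : ℝ} (h : Good F p) {φ : List MS.Cl}
    (hs : Star p (matG F φ)) : SAT3 φ := by
  obtain ⟨p', hp, hno⟩ := h.no
  obtain ⟨x, ⟨k, d, hd, hc, rfl⟩, hx⟩ := exists_lt_of_csInf_lt
    (col_nonempty _ _ (fun _ _ h => h.1)) (lt_of_le_of_lt hs hp)
  exact (ok_iff φ).1 (hno _ k d hd hx ((col_mat2 F h.f h.irr (parF φ) _ _).1 hc))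

theorem good_C {p : ℝ} (h1 : 2 < p) (h2 : p < 3) : ∃ F, Good F p := by
  have h3 : 0 < p - 2 := by linarith
  set t := 1 / (p - 2) with ht
  have h4 : t * (p - 2) = 1 := by
    rw [ht]
    exact one_div_mul_cancel h3.ne'
  have h5 : 1 < t := by
    rw [ht, lt_div_iff₀ h3]
    linarith
  have h6 : 1 < ⌈t⌉₊ := Nat.lt_ceil.2 (by exact_mod_cast h5)
  have h7 : t ≤ ⌈t⌉₊ := Nat.le_ceil t
  have h8 : (⌈t⌉₊ : ℝ) < t + 1 := Nat.ceil_lt_add_one (by linarith)
  set j := ⌈t⌉₊ with hj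
  have hj2 : 2 ≤ j := h6
  have hjR : (0 : ℝ) < j := by
    have : (2 : ℝ) ≤ j := by exact_mod_cast hj2
    linarith
  have hj1 : (0 : ℝ) < (j : ℝ) - 1 := by
    have : (2 : ℝ) ≤ j := by exact_mod_cast hj2
    linarith
  refine ⟨frC j, ?_, ?_, ?_, ?_⟩
  · change 1 ≤ 2 * j + 1
    omega
  · intro i h
    rw [mem_frC] at h
    omega
  · refine ⟨2 * j + 1, j, ⟨by omega, by omega⟩, ?_, _, _, _, _, frCol_frC hj2⟩
    rw [div_le_iff₀ hjR]
    push_cast
    nlinarith
  · refine ⟨2 + 1 / ((j : ℝ) - 1), ?_, ?_⟩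
    · have h9 : p - 2 < 1 / ((j : ℝ) - 1) := by
        rw [lt_div_iff₀ hj1]
        nlinarith
      linarith
    · intro P k d hd hkd hc
      refine ok_of_col_C hj2 hd ?_ hc
      have hdR : (0 : ℝ) < d := by exact_mod_cast hd.1
      rw [div_lt_iff₀ hdR] at hkd
      have h9 : ((j : ℝ) - 1) * (1 / ((j : ℝ) - 1)) = 1 := mul_one_div_cancel hj1.ne'
      have h10 : ((j : ℝ) - 1) * ((k : ℝ) - 2 * d) < d := by
        have h11 : (k : ℝ) - 2 * d < 1 / ((j : ℝ) - 1) * d := by linarith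
        have h12 := mul_lt_mul_of_pos_left h11 hj1
        rw [← mul_assoc, h9, one_mul] at h12
        exact h12
      by_cases hk2 : 2 * d ≤ k
      · have h13 : (((j - 1) * (k - 2 * d) : ℕ) : ℝ) < (d : ℝ) := by
          rw [Nat.cast_mul, Nat.cast_sub (by omega), Nat.cast_sub hk2]
          push_cast
          exact h10
        exact_mod_cast h13
      · rw [show k - 2 * d = 0 by omega, Nat.mul_zero]
        exact hd.1

theorem good_K {p : ℝ} (h1 : 3 ≤ p) : ∃ F, Good F p := by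
  have h2 : (⌊p⌋₊ : ℝ) ≤ p := Nat.floor_le (by linarith)
  have h3 : p < ⌊p⌋₊ + 1 := Nat.lt_floor_add_one p
  have h4 : 3 ≤ ⌊p⌋₊ := Nat.le_floor (by exact_mod_cast h1)
  set r := ⌊p⌋₊ with hr
  refine ⟨frK r, ?_, ?_, ?_, ?_⟩
  · change 1 ≤ r
    omega
  · intro i h
    rw [mem_frK] at h
    exact h.2 rfl
  · refine ⟨r, 1, ⟨le_rfl, by omega⟩, ?_, _, _, _, _, frCol_frK h4⟩
    rw [Nat.cast_one, div_one]
    exact h2
  · refine ⟨r + 1, h3, ?_⟩
    intro P k d hd hkd hc
    refine ok_of_col_K h4 hd ?_ hc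
    have hdR : (0 : ℝ) < d := by exact_mod_cast hd.1
    rw [div_lt_iff₀ hdR] at hkd
    exact_mod_cast hkd

end Pool.Agent.V11230.SD

namespace Pool.Agent.NPC.V11230.SDP

open Pool.Agent.V11230.SD Pool.Agent.NPC Pool.Agent.H622R2 Pool.Agent.NPC.V11230.MSP

section

variable {α : Type} [TEnc α]

theorem poly_containsN (l : List ℕ) {x : α → ℕ}
    (hx : Poly x) : Poly (fun a => l.contains (x a)) := by
  have h : Poly (fun a => l.any (fun y => decide (x a = y))) := by
    refine Poly.any (p := fun a y => decide (x a = y)) (Poly.const l) ?_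
    exact Poly.decide_eq (hx.comp (Poly.fst Poly.id)) (Poly.snd Poly.id)
  refine h.congr fun a => ?_
  rw [Bool.eq_iff_iff, List.any_eq_true, List.contains_iff_mem]
  constructor
  · rintro ⟨y, hy, h⟩
    rw [decide_eq_true_iff.1 h]
    exact hy
  · intro h
    exact ⟨x a, h, decide_eq_true rfl⟩

variable {F : Fr} {cf : α → ℕ → ℕ → Bool} {x y : α → Lab}
  (hcf : Poly (fun z : α × ℕ × ℕ => cf z.1 z.2.1 z.2.2)) (hx : Poly x) (hy : Poly y)
include hcf hx hy

theorem poly_adj2 : Poly (fun a => adj2 F (cf a) (x a) (y a)) := by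
  have x1 := Poly.fst hx
  have x2 := Poly.fst (Poly.snd hx)
  have x3 := Poly.snd (Poly.snd hx)
  have y1 := Poly.fst hy
  have y2 := Poly.fst (Poly.snd hy)
  have y3 := Poly.snd (Poly.snd hy)
  have c1 : Poly (fun a => cf a (y a).2.1 (y a).2.2) :=
    hcf.comp (Poly.pair Poly.id (Poly.pair y2 y3))
  have c2 : Poly (fun a => cf a (x a).2.1 (x a).2.2) :=
    hcf.comp (Poly.pair Poly.id (Poly.pair x2 x3))
  have hk : ∀ i j : ℕ, Poly (fun a => decide ((x a).1 = i ∧ (y a).1 = j)) := fun i j =>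
    Poly.decide_and (Poly.decide_eq x1 (Poly.const i)) (Poly.decide_eq y1 (Poly.const j))
  have x2m := Poly.mod x2 (Poly.const 3)
  have y2m := Poly.mod y2 (Poly.const 3)
  have x2s := Poly.add x2 (Poly.const 1)
  unfold adj2
  refine Poly.or (Poly.and (hk 0 0) (poly_contains _ (Poly.pair x2 y2))) ?_
  refine Poly.or (Poly.and (hk 0 1) (poly_containsN _ x2)) ?_
  refine Poly.or (Poly.and (hk 1 0) (poly_containsN _ y2)) ?_
  refine Poly.or (Poly.and (Poly.decide_and (Poly.decide_eq x1 (Poly.const 0))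
    (Poly.decide_le (Poly.const 2) y1)) (poly_containsN _ x2)) ?_
  refine Poly.or (Poly.and (Poly.decide_and (Poly.decide_le (Poly.const 2) x1)
    (Poly.decide_eq y1 (Poly.const 0))) (poly_containsN _ y2)) ?_
  refine Poly.or (Poly.decide_and (hk 0 1) (Poly.decide_and (Poly.decide_eq x2 (Poly.const F.t))
    (Poly.decide_eq y2m (Poly.const 0)))) ?_
  refine Poly.or (Poly.decide_and (hk 1 0) (Poly.decide_and (Poly.decide_eq y2 (Poly.const F.t))
    (Poly.decide_eq x2m (Poly.const 2)))) ?_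
  refine Poly.or (Poly.decide_and (hk 1 1) (Poly.decide_and (Poly.decide_eq y2 x2s)
    (Poly.decide_lt x2m (Poly.const 2)))) ?_
  refine Poly.or (Poly.and (Poly.decide_and (hk 1 2) (Poly.decide_eq y2 x2)) c1) ?_
  refine Poly.or (Poly.and (Poly.decide_and (hk 2 1) (Poly.decide_eq x3 y2)) c2) ?_
  refine Poly.or (Poly.and (Poly.decide_and (hk 1 3) (Poly.decide_eq y3 x2)) c1) ?_
  exact Poly.and (Poly.decide_and (hk 3 1) (Poly.decide_eq x2 y2)) c2

end

theorem poly_vs2 (F : Fr) : Poly (fun φ : List Pool.Agent.V11230.MS.Cl => vs2 F φ.length) := by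
  have hN : UPoly (fun φ : List Pool.Agent.V11230.MS.Cl => 3 * φ.length + F.f) :=
    UPoly.add (UPoly.mul (UPoly.const 3) (UPoly.length Poly.id)) (UPoly.const F.f)
  have hf : Poly (fun z : List Pool.Agent.V11230.MS.Cl × Lab => z.1) := Poly.fst Poly.id
  have hs : Poly (fun z : List Pool.Agent.V11230.MS.Cl × Lab => z.2) := Poly.snd Poly.id
  have hB : Poly (fun z : List Pool.Agent.V11230.MS.Cl × Lab => 3 * z.1.length) :=
    Poly.mul (Poly.const 3) (Poly.length hf)
  have x1 := Poly.fst hs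
  have x2 := Poly.fst (Poly.snd hs)
  have x3 := Poly.snd (Poly.snd hs)
  unfold vs2
  refine Poly.filter (p := fun (φ : List Pool.Agent.V11230.MS.Cl) (x : Lab) =>
    decide ((x.1 = 0 ∧ x.2.2 = 0) ∧ x.2.1 < F.f) ||
      (decide ((x.1 = 1 ∧ x.2.2 = 0) ∧ x.2.1 < 3 * φ.length) ||
        decide (2 ≤ x.1 ∧ (x.2.1 < 3 * φ.length ∧ x.2.2 < 3 * φ.length))))
    (poly_product (Poly.const _) (poly_product (UPoly.range hN) (UPoly.range hN))) ?_
  refine Poly.or (Poly.decide_and (Poly.decide_and (Poly.decide_eq x1 (Poly.const 0))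
    (Poly.decide_eq x3 (Poly.const 0))) (Poly.decide_lt x2 (Poly.const F.f))) ?_
  refine Poly.or (Poly.decide_and (Poly.decide_and (Poly.decide_eq x1 (Poly.const 1))
    (Poly.decide_eq x3 (Poly.const 0))) (Poly.decide_lt x2 hB)) ?_
  exact Poly.decide_and (Poly.decide_le (Poly.const 2) x1)
    (Poly.decide_and (Poly.decide_lt x2 hB) (Poly.decide_lt x3 hB))

theorem poly_matG (F : Fr) : Poly (matG F) := by
  have hv := poly_vs2 F
  have hf : Poly (fun z : List Pool.Agent.V11230.MS.Cl × Lab => z.1) := Poly.fst Poly.id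
  have hff : Poly (fun z : (List Pool.Agent.V11230.MS.Cl × Lab) × Lab => z.1.1) :=
    Poly.fst (Poly.fst Poly.id)
  have h : Poly (fun φ : List Pool.Agent.V11230.MS.Cl => mat (vs2 F φ.length)
      (adj2 F (parF φ).cf)) := by
    unfold mat
    refine Poly.map (F := fun φ u => (vs2 F φ.length).map (fun v => adj2 F (parF φ).cf u v))
      hv ?_
    refine Poly.map (F := fun (p : List Pool.Agent.V11230.MS.Cl × Lab) v =>
      adj2 F (parF p.1).cf p.2 v) (hv.comp hf) ?_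
    refine poly_adj2 (cf := fun z : (List Pool.Agent.V11230.MS.Cl × Lab) × Lab =>
      (parF z.1.1).cf) ?_ (Poly.snd (Poly.fst Poly.id)) (Poly.snd Poly.id)
    exact poly_cf.comp (Poly.pair (hff.comp (Poly.fst Poly.id)) (Poly.snd Poly.id))
  exact h

/-- **NP-hardness of the threshold problem for all thresholds above 1 except 2.** -/
theorem hard_star_all {p : ℝ} (h1 : 1 < p) (h2 : p ≠ 2) :
    HardI (Star p) ∧ HardI (StarMin p) := by
  rcases lt_or_gt_of_ne h2 with h | h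
  · exact hard_star h1 h
  · have hG : ∃ F, Good F p := by
      rcases lt_or_ge p 3 with h3 | h3
      · exact good_C h h3
      · exact good_K h3
    obtain ⟨F, hF⟩ := hG
    exact ⟨hardI_SAT3.trans (poly_matG F) (fun φ => ⟨fun h => star_of_starMin
      (hF.starMin h), fun h => hF.sat h⟩),
      hardI_SAT3.trans (poly_matG F) (fun φ => ⟨fun h => hF.starMin h,
        fun h => hF.sat (star_of_starMin h)⟩)⟩

end Pool.Agent.NPC.V11230.SDP
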