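import Pool.Agent.V11230.SD4

/-!
# The star dichromatic number: rational thresholds
-/

set_option autoImplicit false

namespace Pool.Agent.V11230.SD

open Finset

theorem mod_cases {K u w j : ℕ} (hu : u < K) (hw : w < K) (hj : j < K)
    (h : (u : ZMod K) = (w : ZMod K) + (j : ZMod K)) : u = w + j ∨ u + K = w + j := by
  rw [← Nat.cast_add, ZMod.natCast_eq_natCast_iff'] at h
  rw [Nat.mod_eq_of_lt hu] at h
  rcases Nat.lt_or_ge (w + j) K with h1 | h1
  · rw [Nat.mod_eq_of_lt h1] at h
    exact Or.inl h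
  · rw [Nat.mod_eq_sub_mod h1, Nat.mod_eq_of_lt (by omega)] at h
    exact Or.inr (by omega)

/-- **Monotonicity.** -/
theorem Col.mono {V : Type} {A : V → V → Prop} {k d k' d' : ℕ} (hd : 1 ≤ d ∧ d ≤ k)
    (hd' : 1 ≤ d' ∧ d' ≤ k') (h : k * d' ≤ k' * d) (hc : Col A k d) : Col A k' d' := by
  obtain ⟨c, hc⟩ := hc
  have : NeZero k := ⟨by omega⟩
  have : NeZero k' := ⟨by omega⟩
  have hcv : ∀ v, c v = (((c v).val : ℕ) : ZMod k) := by
    intro v
    rw [ZMod.natCast_val, ZMod.cast_id]
  refine ⟨fun v => ((((c v).val * k' / k : ℕ)) : ZMod k'), fun i => ?_⟩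
  set w := i.val with hw
  have hwk : w < k' := ZMod.val_lt _
  have hiw : i = ((w : ℕ) : ZMod k') := by rw [hw, ZMod.natCast_val, ZMod.cast_id]
  set t := (w * k + k' - 1) / k' with ht
  have ht1 : w * k ≤ t * k' := by
    have h1 := Nat.div_add_mod (w * k + k' - 1) k'
    have h2 := Nat.mod_lt (w * k + k' - 1) (show 0 < k' by omega)
    rw [← ht, Nat.mul_comm] at h1
    omega
  have ht2 : t * k' < w * k + k' := by
    have h1 := Nat.div_mul_le_self (w * k + k' - 1) k'
    rw [← ht] at h1
    omega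
  have htk : t ≤ k := by
    by_contra hcon
    have h1 : (k + 1) * k' ≤ t * k' := Nat.mul_le_mul_right _ (by omega)
    have h2 : (w + 1) * k ≤ k' * k := Nat.mul_le_mul_right _ (by omega)
    have h3 : (k + 1) * k' = k' * k + k' := by ring
    have h4 : (w + 1) * k = w * k + k := by ring
    omega
  refine Acyc.mono ?_ (hc ((t : ℕ) : ZMod k))
  rintro v ⟨j, hj, hv⟩
  set x := (c v).val with hx
  have hxk : x < k := ZMod.val_lt _
  set u := x * k' / k with hu
  have hu1 : u * k ≤ x * k' := Nat.div_mul_le_self _ _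
  have hu2 : x * k' < (u + 1) * k := by
    have h1 := Nat.lt_mul_div_succ (x * k') (show 0 < k by omega)
    rw [← hu, Nat.mul_comm k] at h1
    exact h1
  have huk : u < k' := by
    by_contra hcon
    have h1 : k' * k ≤ u * k := Nat.mul_le_mul_right _ (by omega)
    have h2 : (x + 1) * k' ≤ k * k' := Nat.mul_le_mul_right _ (by omega)
    have h3 : (x + 1) * k' = x * k' + k' := by ring
    have h4 : k * k' = k' * k := by ring
    omega
  have hv : ((u : ℕ) : ZMod k') = i + (j : ZMod k') := hv
  rw [hiw] at hv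
  have e1 : (u + 1) * k = u * k + k := by ring
  rcases mod_cases huk hwk (by omega) hv with h1 | h1
  · -- no wrap
    have h2 : w * k ≤ u * k := Nat.mul_le_mul_right _ (by omega)
    have h3 : t ≤ x := by
      by_contra hcon
      have h4 : (x + 1) * k' ≤ t * k' := Nat.mul_le_mul_right _ (by omega)
      have h5 : (x + 1) * k' = x * k' + k' := by ring
      omega
    have h4 : x < t + d := by
      by_contra hcon
      have h5 : (t + d) * k' ≤ x * k' := Nat.mul_le_mul_right _ (by omega)
      have h6 : (t + d) * k' = t * k' + k' * d := by ring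
      have h7 : (u + 1) * k ≤ (w + d') * k := Nat.mul_le_mul_right _ (by omega)
      have h8 : (w + d') * k = w * k + k * d' := by ring
      omega
    refine ⟨x - t, by omega, ?_⟩
    rw [hcv v, ← Nat.cast_add]
    congr 1
    omega
  · -- wrap
    have h4 : x + k < t + d := by
      by_contra hcon
      have h5 : (t + d) * k' ≤ (x + k) * k' := Nat.mul_le_mul_right _ (by omega)
      have h6 : (t + d) * k' = t * k' + k' * d := by ring
      have h7 : (u + 1 + k') * k ≤ (w + d') * k := Nat.mul_le_mul_right _ (by omega)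
      have h8 : (w + d') * k = w * k + k * d' := by ring
      have h9 : (x + k) * k' = x * k' + k' * k := by ring
      have h10 : (u + 1 + k') * k = (u + 1) * k + k' * k := by ring
      omega
    refine ⟨x + k - t, by omega, ?_⟩
    rw [hcv v, ← Nat.cast_add, show t + (x + k - t) = x + k by omega, Nat.cast_add,
      ZMod.natCast_self, add_zero]

/-- **Rounding.** -/
theorem Col.round {n : ℕ} {A : Fin n → Fin n → Prop} {a b N : ℕ} (hb : 1 ≤ b) (hab : b ≤ a)
    (hN : n * (a + 1) < N) (hc : Col A (a * N + 1) (b * N)) : Col A a b := by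
  classical
  obtain ⟨K, hK⟩ : ∃ K, K = a * N + 1 := ⟨_, rfl⟩
  rw [← hK] at hc
  obtain ⟨c, hc⟩ := hc
  have : NeZero a := ⟨by omega⟩
  have : NeZero K := ⟨by omega⟩
  have hKN : N ≤ a * N := Nat.le_mul_of_pos_left _ (by omega)
  -- a good rotation
  obtain ⟨s, hs⟩ : ∃ s : ZMod K, ∀ v, (c v + s).val % N ≠ 0 := by
    by_contra hcon
    push Not at hcon
    have h1 : (univ : Finset (ZMod K)) ⊆ ((univ : Finset (Fin n)) ×ˢ range (a + 1)).image
        (fun z => ((z.2 * N : ℕ) : ZMod K) - c z.1) := by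
      intro s _
      obtain ⟨v, hv⟩ := hcon s
      rw [mem_image]
      have h2 : (c v + s).val < K := ZMod.val_lt _
      refine ⟨(v, (c v + s).val / N), mem_product.2 ⟨mem_univ _, ?_⟩, ?_⟩
      · rw [mem_range]
        refine (Nat.div_lt_iff_lt_mul (by omega)).2 ?_
        have h3 : (a + 1) * N = a * N + N := by ring
        omega
      · have h3 : (c v + s).val / N * N = (c v + s).val := by
          have h4 := Nat.div_add_mod (c v + s).val N
          rw [Nat.mul_comm]
          omega
        simp only [h3]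
        rw [ZMod.natCast_val, ZMod.cast_id]
        ring
    have h2 := card_le_card h1
    have h3 := h2.trans card_image_le
    rw [card_product, card_univ, card_univ, ZMod.card, Fintype.card_fin, card_range] at h3
    omega
  refine ⟨fun v => ((((c v + s).val / N : ℕ)) : ZMod a), fun i => ?_⟩
  set w := i.val with hw
  have hwa : w < a := ZMod.val_lt _
  have hiw : i = ((w : ℕ) : ZMod a) := by rw [hw, ZMod.natCast_val, ZMod.cast_id]
  refine Acyc.mono ?_ (hc (((w * N + 1 : ℕ) : ZMod K) - s))
  rintro v ⟨j, hj, hv⟩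
  have hxK : (c v + s).val < K := ZMod.val_lt _
  have hxs := hs v
  have hcv : c v = (((c v + s).val : ℕ) : ZMod K) - s := by
    rw [ZMod.natCast_val, ZMod.cast_id]
    ring
  set x := (c v + s).val with hx
  set u := x / N with hu
  have hu1 := Nat.div_add_mod x N
  have hu2 := Nat.mod_lt x (show 0 < N by omega)
  rw [← hu] at hu1
  have hua : u < a := by
    by_contra hcon
    have h1 : N * a ≤ N * u := Nat.mul_le_mul_left _ (by omega)
    rw [Nat.mul_comm N a] at h1
    omega
  have hv : ((u : ℕ) : ZMod a) = i + (j : ZMod a) := hv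
  rw [hiw] at hv
  rcases mod_cases hua hwa (by omega) hv with h1 | h1
  · have h2 : w * N ≤ N * u := by
      rw [Nat.mul_comm]
      exact Nat.mul_le_mul_left _ (by omega)
    have h3 : N * (u + 1) ≤ N * (w + b) := Nat.mul_le_mul_left _ (by omega)
    have h4 : N * (u + 1) = N * u + N := by ring
    have h5 : N * (w + b) = w * N + b * N := by ring
    refine ⟨x - (w * N + 1), by omega, ?_⟩
    have h6 : ((x : ℕ) : ZMod K) = ((w * N + 1 : ℕ) : ZMod K) +
        ((x - (w * N + 1) : ℕ) : ZMod K) := by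
      rw [← Nat.cast_add]
      congr 1
      omega
    rw [hcv, h6]
    ring
  · have h3 : N * (u + 1 + a) ≤ N * (w + b) := Nat.mul_le_mul_left _ (by omega)
    have h4 : N * (u + 1 + a) = N * u + N + a * N := by ring
    have h5 : N * (w + b) = w * N + b * N := by ring
    have h7 : w * N ≤ a * N := Nat.mul_le_mul_right _ hwa.le
    refine ⟨x + K - (w * N + 1), by omega, ?_⟩
    have h6 : ((x : ℕ) : ZMod K) = ((w * N + 1 : ℕ) : ZMod K) +
        ((x + K - (w * N + 1) : ℕ) : ZMod K) := by
      rw [← Nat.cast_add, show w * N + 1 + (x + K - (w * N + 1)) = x + K by omega, Nat.cast_add,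
        ZMod.natCast_self, add_zero]
    rw [hcv, h6]
    ring

/-- **For a rational threshold, the infimum is at most the threshold exactly when there is a colouring
with this ratio.** -/
theorem starDi_le_iff {n : ℕ} {A : Fin n → Fin n → Prop} (hA : ∀ x y, A x y → x ≠ y) {a b : ℕ}
    (hb : 1 ≤ b) (hab : b ≤ a) : starDi A ≤ (a : ℝ) / b ↔ Col A a b := by
  constructor
  · intro h
    set N := n * (a + 1) + 1 with hN
    have hbR : (0 : ℝ) < b := by exact_mod_cast hb
    have hNR : (0 : ℝ) < N := by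
      have : 0 < N := by omega
      exact_mod_cast this
    have hlt : (a : ℝ) / b < ((a * N + 1 : ℕ) : ℝ) / ((b * N : ℕ) : ℝ) := by
      rw [div_lt_div_iff₀ hbR (by push_cast; positivity)]
      push_cast
      nlinarith
    obtain ⟨x, ⟨k, d, hd, hc, rfl⟩, hx⟩ := exists_lt_of_csInf_lt
      (col_nonempty _ _ hA) (lt_of_le_of_lt h hlt)
    have hdR : (0 : ℝ) < d := by exact_mod_cast hd.1
    rw [div_lt_div_iff₀ hdR (by push_cast; positivity)] at hx
    have hx' : k * (b * N) < (a * N + 1) * d := by exact_mod_cast hx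
    have hbN : 1 ≤ b * N := Nat.mul_pos hb (by omega)
    have hbaN : b * N ≤ a * N := Nat.mul_le_mul_right _ hab
    exact Col.round hb hab (by omega) (Col.mono hd ⟨hbN, by omega⟩ hx'.le hc)
  · intro h
    refine csInf_le ⟨0, ?_⟩ ⟨a, b, ⟨hb, hab⟩, h, rfl⟩
    rintro x ⟨k, d, _, _, rfl⟩
    positivity

theorem star_iff {M : List (List Bool)} {a b : ℕ} (hb : 1 ≤ b) (hab : b ≤ a) :
    Star ((a : ℝ) / b) M ↔ Col (dig M) a b := starDi_le_iff (fun _ _ h => h.1) hb hab

theorem starMin_iff {M : List (List Bool)} {a b : ℕ} (hb : 1 ≤ b) (hab : b ≤ a) :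
    StarMin ((a : ℝ) / b) M ↔ Col (dig M) a b :=
  ⟨fun h => (star_iff hb hab).1 (star_of_starMin h), fun h => ⟨a, b, ⟨hb, hab⟩, le_rfl, h⟩⟩

/-! ### Ranks -/

theorem Acyc.rank {n : ℕ} {A : Fin n → Fin n → Prop} {X : Set (Fin n)} (h : Acyc A X) :
    ∃ r : Fin n → ℕ, (∀ v, r v ≤ n) ∧ ∀ x ∈ X, ∀ y ∈ X, A x y → r x < r y := by
  classical
  set R : Fin n → Fin n → Prop := Relation.TransGen (fun x y => x ∈ X ∧ y ∈ X ∧ A x y) with hR
  refine ⟨fun v => (univ.filter (fun u => R u v)).card, fun v => ?_, ?_⟩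
  · refine (card_le_univ _).trans ?_
    rw [Fintype.card_fin]
  · intro x hx y hy hxy
    refine card_lt_card ?_
    rw [ssubset_iff_of_subset]
    · refine ⟨x, ?_, ?_⟩
      · rw [mem_filter]
        exact ⟨mem_univ _, Relation.TransGen.single ⟨hx, hy, hxy⟩⟩
      · rw [mem_filter]
        exact fun hh => h x hh.2
    · intro u hu
      rw [mem_filter] at hu ⊢
      exact ⟨mem_univ _, hu.2.tail ⟨hx, hy, hxy⟩⟩

end Pool.Agent.V11230.SD
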