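import Pool.Agent.V11230.SF1
import Pool.Agent.V11230.SE4

/-!
# The star dichromatic number: membership in NP for rational thresholds
-/

set_option autoImplicit false

namespace Pool.Agent.V11230.SD

/-- the colour `x` is in the window that starts at `i` -/
def inw (a b i x : ℕ) : Bool := decide ((x + a - i) % a < b)

theorem inw_iff {a b i x : ℕ} (hab : b ≤ a) (hi : i < a) : inw a b i x = true ↔
    ∃ j : ℕ, j < b ∧ ((x : ℕ) : ZMod a) = ((i : ℕ) : ZMod a) + (j : ZMod a) := by
  unfold inw
  rw [decide_eq_true_iff]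
  have h1 : ((x + a - i : ℕ) : ZMod a) + ((i : ℕ) : ZMod a) = ((x : ℕ) : ZMod a) := by
    rw [← Nat.cast_add, show x + a - i + i = x + a by omega, Nat.cast_add, ZMod.natCast_self,
      add_zero]
  constructor
  · intro h
    refine ⟨(x + a - i) % a, h, ?_⟩
    rw [ZMod.natCast_mod, add_comm, h1]
  · rintro ⟨j, hj, h⟩
    have h2 : ((x + a - i : ℕ) : ZMod a) = ((j : ℕ) : ZMod a) := by
      have h3 : ((x + a - i : ℕ) : ZMod a) + ((i : ℕ) : ZMod a) =
          ((j : ℕ) : ZMod a) + ((i : ℕ) : ZMod a) := by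
        rw [h1, h, add_comm]
      exact add_right_cancel h3
    rw [ZMod.natCast_eq_natCast_iff'] at h2
    rw [h2, Nat.mod_eq_of_lt (by omega)]
    exact hj

end Pool.Agent.V11230.SD

namespace Pool.Agent.NPC.V11230.SDP

open Pool.Agent.V11230.SD Pool.Agent.NPC Pool.Agent.H622R2 Pool.Agent.NPC.V11230.MSP

/-- a certificate: a list of colours, and a list of ranks for each window -/
abbrev Cert : Type := List ℕ × List (List ℕ)

/-- the test of a certificate -/
def chkS (a b : ℕ) (x : List (List Bool) × Cert) : Bool :=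
  (List.range a).all (fun i => (List.range x.1.length).all (fun u =>
    (List.range x.1.length).all (fun v =>
      !((!(decide (u = v)) && entry x.1 u v) &&
        (inw a b i (x.2.1.getD u 0) && inw a b i (x.2.1.getD v 0))) ||
      decide ((x.2.2.getD i []).getD u 0 < (x.2.2.getD i []).getD v 0))))

theorem chkS_iff {a b : ℕ} {M : List (List Bool)} {cl : List ℕ} {rk : List (List ℕ)} :
    chkS a b (M, (cl, rk)) = true ↔ ∀ i < a, ∀ u < M.length, ∀ v < M.length,
      (u ≠ v ∧ entry M u v = true) → inw a b i (cl.getD u 0) = true →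
        inw a b i (cl.getD v 0) = true →
          (rk.getD i []).getD u 0 < (rk.getD i []).getD v 0 := by
  unfold chkS
  simp only [List.all_eq_true, List.mem_range, Bool.or_eq_true, Bool.not_eq_true',
    decide_eq_true_eq]
  refine forall_congr' fun i => forall_congr' fun _ => forall_congr' fun u =>
    forall_congr' fun _ => forall_congr' fun v => forall_congr' fun _ => ?_
  constructor
  · rintro h ⟨h1, h2⟩ h3 h4
    rcases h with h | h
    · exfalso
      have h5 : ((!(decide (u = v)) && entry M u v) &&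
        (inw a b i (cl.getD u 0) && inw a b i (cl.getD v 0))) = true := by
        rw [h2, h3, h4]
        simp [h1]
      rw [h5] at h
      exact absurd h (by simp)
    · exact h
  · intro h
    by_cases h5 : ((!(decide (u = v)) && entry M u v) &&
        (inw a b i (cl.getD u 0) && inw a b i (cl.getD v 0))) = true
    · right
      rw [Bool.and_eq_true, Bool.and_eq_true, Bool.and_eq_true, Bool.not_eq_true',
        decide_eq_false_iff_not] at h5
      exact h h5.1 h5.2.1 h5.2.2
    · left
      exact Bool.eq_false_iff.2 h5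

theorem poly_chkS (a b : ℕ) : Poly (chkS a b) := by
  have f1 : Poly (fun y : (List (List Bool) × Cert) × ℕ => y.1) := Poly.fst Poly.id
  have f2 : Poly (fun y : ((List (List Bool) × Cert) × ℕ) × ℕ => y.1.1) := Poly.fst (Poly.fst Poly.id)
  have f3 : Poly (fun y : (((List (List Bool) × Cert) × ℕ) × ℕ) × ℕ => y.1.1.1) :=
    Poly.fst (Poly.fst (Poly.fst Poly.id))
  have hi : Poly (fun y : (((List (List Bool) × Cert) × ℕ) × ℕ) × ℕ => y.1.1.2) :=
    Poly.snd (Poly.fst (Poly.fst Poly.id))
  have hu : Poly (fun y : (((List (List Bool) × Cert) × ℕ) × ℕ) × ℕ => y.1.2) :=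
    Poly.snd (Poly.fst Poly.id)
  have hv : Poly (fun y : (((List (List Bool) × Cert) × ℕ) × ℕ) × ℕ => y.2) := Poly.snd Poly.id
  have hM := Poly.fst f3
  have hcl := Poly.fst (Poly.snd f3)
  have hrk := Poly.snd (Poly.snd f3)
  have hw : ∀ {w : (((List (List Bool) × Cert) × ℕ) × ℕ) × ℕ → ℕ}, Poly w →
      Poly (fun y : (((List (List Bool) × Cert) × ℕ) × ℕ) × ℕ =>
        inw a b y.1.1.2 (y.1.1.1.2.1.getD (w y) 0)) := by
    intro w hw
    unfold inw
    exact Poly.decide_lt (Poly.mod (Poly.sub (Poly.add (Poly.getD hcl hw (Poly.const 0))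
      (Poly.const a)) hi) (Poly.const a)) (Poly.const b)
  have hr := Poly.getD hrk hi (Poly.const [])
  unfold chkS
  refine Poly.all (p := fun (x : List (List Bool) × Cert) i =>
    (List.range x.1.length).all (fun u =>
    (List.range x.1.length).all (fun v =>
      !((!(decide (u = v)) && entry x.1 u v) &&
        (inw a b i (x.2.1.getD u 0) && inw a b i (x.2.1.getD v 0))) ||
      decide ((x.2.2.getD i []).getD u 0 < (x.2.2.getD i []).getD v 0)))) (Poly.const _) ?_
  refine Poly.all (p := fun (z : (List (List Bool) × Cert) × ℕ) u =>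
    (List.range z.1.1.length).all (fun v =>
      !((!(decide (u = v)) && entry z.1.1 u v) &&
        (inw a b z.2 (z.1.2.1.getD u 0) && inw a b z.2 (z.1.2.1.getD v 0))) ||
      decide ((z.1.2.2.getD z.2 []).getD u 0 < (z.1.2.2.getD z.2 []).getD v 0)))
    (Poly.range_length (Poly.fst f1)) ?_
  refine Poly.all (p := fun (z : ((List (List Bool) × Cert) × ℕ) × ℕ) v =>
      !((!(decide (z.2 = v)) && entry z.1.1.1 z.2 v) &&
        (inw a b z.1.2 (z.1.1.2.1.getD z.2 0) && inw a b z.1.2 (z.1.1.2.1.getD v 0))) ||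
      decide ((z.1.1.2.2.getD z.1.2 []).getD z.2 0 < (z.1.1.2.2.getD z.1.2 []).getD v 0))
    (Poly.range_length (Poly.fst f2)) ?_
  exact Poly.or (Poly.not (Poly.and (Poly.and (Poly.not (Poly.decide_eq hu hv))
    (poly_entry hM hu hv)) (Poly.and (hw hu) (hw hv))))
    (Poly.decide_lt (Poly.getD hr hu (Poly.const 0)) (Poly.getD hr hv (Poly.const 0)))

theorem getD_ofFn {β : Type} {n : ℕ} (f : Fin n → β) (d : β) (i : ℕ) (hi : i < n) :
    (List.ofFn f).getD i d = f ⟨i, hi⟩ := by
  rw [List.getD_eq_getElem _ _ (by simpa using hi)]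
  simp

theorem col_cert {a b : ℕ} (hb : 1 ≤ b) (hab : b ≤ a) (M : List (List Bool)) :
    Col (dig M) a b ↔ ∃ w : Cert,
    sz w ≤ (Polynomial.X * ((4 * a + 2 : ℕ) : Polynomial ℕ) + ((a : ℕ) : Polynomial ℕ) *
      (Polynomial.X * (4 * Polynomial.X + 2) + 2) + 3 : Polynomial ℕ).eval (sz M) ∧
      chkS a b (M, w) = true := by
  have : NeZero a := ⟨by omega⟩
  constructor
  · rintro ⟨c, hc⟩
    choose r hr1 hr2 using fun i : ZMod a => (hc i).rank
    refine ⟨(List.ofFn (fun v => (c v).val),
      List.ofFn (fun i : Fin a => List.ofFn (r ((i.val : ℕ) : ZMod a)))), ?_, ?_⟩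
    · have h5 := length_lt_sz M
      have h1 := sz_le_length_mul (List.ofFn (fun v => (c v).val)) (4 * a + 1) (by
        intro x hx
        rw [List.mem_ofFn] at hx
        obtain ⟨v, rfl⟩ := hx
        have h2 := sz_nat_le (c v).val
        have h3 : (c v).val.size ≤ (c v).val := Nat.size_le.2 Nat.lt_two_pow_self
        have h4 : (c v).val < a := ZMod.val_lt _
        omega)
      have h2 := sz_le_length_mul (List.ofFn (fun i : Fin a =>
          List.ofFn (r ((i.val : ℕ) : ZMod a)))) (sz M * (4 * sz M + 2) + 1) (by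
        intro x hx
        rw [List.mem_ofFn] at hx
        obtain ⟨i, rfl⟩ := hx
        have h3 := sz_le_length_mul (List.ofFn (r ((i.val : ℕ) : ZMod a))) (4 * sz M + 1) (by
          intro y hy
          rw [List.mem_ofFn] at hy
          obtain ⟨v, rfl⟩ := hy
          have g2 := sz_nat_le (r ((i.val : ℕ) : ZMod a) v)
          have g3 : (r ((i.val : ℕ) : ZMod a) v).size ≤ r ((i.val : ℕ) : ZMod a) v :=
            Nat.size_le.2 Nat.lt_two_pow_self
          have g4 := hr1 ((i.val : ℕ) : ZMod a) v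
          omega)
        rw [List.length_ofFn] at h3
        have h6 : M.length * (4 * sz M + 1 + 1) ≤ sz M * (4 * sz M + 2) :=
          Nat.mul_le_mul h5.le (by omega)
        omega)
      rw [List.length_ofFn] at h1 h2
      simp only [Polynomial.eval_add, Polynomial.eval_mul, Polynomial.eval_ofNat,
        Polynomial.eval_natCast, Polynomial.eval_X]
      rw [sz_pair]
      have h6 : M.length * (4 * a + 1 + 1) ≤ sz M * (4 * a + 2) :=
        Nat.mul_le_mul h5.le (by omega)
      have h7 : a * (sz M * (4 * sz M + 2) + 1 + 1) = a * (sz M * (4 * sz M + 2) + 2) := by ring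
      push_cast
      omega
    · rw [chkS_iff]
      rintro i hi u hu v hv ⟨huv, he⟩ h1 h2
      rw [getD_ofFn _ _ _ hi, getD_ofFn _ _ _ hu, getD_ofFn _ _ _ hv]
      rw [getD_ofFn _ _ _ hu, inw_iff hab hi] at h1
      rw [getD_ofFn _ _ _ hv, inw_iff hab hi] at h2
      rw [ZMod.natCast_val, ZMod.cast_id] at h1 h2
      exact hr2 ((i : ℕ) : ZMod a) ⟨u, hu⟩ h1 ⟨v, hv⟩ h2 ⟨fun h => huv (congrArg Fin.val h), he⟩
  · rintro ⟨⟨cl, rk⟩, _, hw⟩
    rw [chkS_iff] at hw
    refine ⟨fun v => ((cl.getD v 0 : ℕ) : ZMod a), fun i => ?_⟩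
    have hi : i.val < a := ZMod.val_lt _
    have hiv : ((i.val : ℕ) : ZMod a) = i := by rw [ZMod.natCast_val, ZMod.cast_id]
    refine Acyc.of_rank (fun v => (rk.getD i.val []).getD v 0) ?_
    rintro u ⟨j, hj, hu⟩ v ⟨j', hj', hv⟩ ⟨huv, he⟩
    refine hw i.val hi u u.2 v v.2 ⟨fun h => huv (Fin.ext h), he⟩ ?_ ?_
    · rw [inw_iff hab hi, hiv]
      exact ⟨j, hj, hu⟩
    · rw [inw_iff hab hi, hiv]
      exact ⟨j', hj', hv⟩

theorem inNPP_star' {a b : ℕ} (hb : 1 ≤ b) (hab : b ≤ a) :
    InNPP (fun M => Star ((a : ℝ) / b) M) :=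
  inNPP_of (poly_chkS a b) (Polynomial.X * ((4 * a + 2 : ℕ) : Polynomial ℕ) +
      ((a : ℕ) : Polynomial ℕ) * (Polynomial.X * (4 * Polynomial.X + 2) + 2) + 3 : Polynomial ℕ)
    (fun M => (star_iff hb hab).trans (col_cert hb hab M))

/-- **Membership in NP for rational thresholds.** -/
theorem inNPP_star {q : ℚ} (hq : 1 ≤ q) : InNPP (Star (q : ℝ)) ∧
    ∀ M, Star (q : ℝ) M ↔ StarMin (q : ℝ) M := by
  have hden : 1 ≤ q.den := q.den_pos
  have hnum : 0 ≤ q.num := Rat.num_nonneg.2 (by linarith)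
  have hqa : (q : ℝ) = (q.num.toNat : ℝ) / q.den := by
    have h1 : (q : ℝ) = (q.num : ℝ) / q.den := Rat.cast_def q
    have h2 : ((q.num.toNat : ℕ) : ℤ) = q.num := Int.toNat_of_nonneg hnum
    rw [h1]
    congr 1
    rw [← h2]
    push_cast
    rfl
  have hab : q.den ≤ q.num.toNat := by
    have h1 : (1 : ℝ) ≤ (q : ℝ) := by exact_mod_cast hq
    have h2 : (0 : ℝ) < q.den := by exact_mod_cast hden
    rw [hqa, le_div_iff₀ h2, one_mul] at h1
    exact_mod_cast h1
  constructor
  · rw [hqa]
    exact inNPP_star' hden hab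
  · intro M
    rw [hqa, star_iff hden hab, starMin_iff hden hab]

end Pool.Agent.NPC.V11230.SDP
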