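import Pool.Agent.H642R2.TMSim

/-!
# There are countably many languages in NP
-/

set_option autoImplicit false

namespace Pool.Agent.NPC

deriving instance Countable for Cmd

end Pool.Agent.NPC

namespace Pool.Agent.NPC.V11230.SDQ

open Pool.Agent.NPC

theorem run_det {c : Cmd ℕ} {s s₁ : ℕ → List Bool} {t₁ : ℕ} (h₁ : Run c s s₁ t₁) :
    ∀ {s₂ : ℕ → List Bool} {t₂ : ℕ}, Run c s s₂ t₂ → s₁ = s₂ := by
  induction h₁ with
  | skip s => intro s₂ t₂ h; cases h; rfl
  | push s k b => intro s₂ t₂ h; cases h; rfl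
  | pop s k => intro s₂ t₂ h; cases h; rfl
  | seq _ _ ih1 ih2 =>
    intro s₂ t₂ h
    cases h with
    | seq h1 h2 =>
      have := ih1 h1
      subst this
      exact ih2 h2
  | casesNil hk _ ih =>
    intro s₂ t₂ h
    cases h with
    | casesNil _ h1 => exact ih h1
    | casesFalse h0 _ => rw [hk] at h0; cases h0
    | casesTrue h0 _ => rw [hk] at h0; cases h0
  | casesFalse hk _ ih =>
    intro s₂ t₂ h
    cases h with
    | casesNil h0 _ => rw [hk] at h0; cases h0
    | casesFalse _ h1 => exact ih h1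
    | casesTrue h0 _ => rw [hk] at h0; cases h0
  | casesTrue hk _ ih =>
    intro s₂ t₂ h
    cases h with
    | casesNil h0 _ => rw [hk] at h0; cases h0
    | casesFalse h0 _ => rw [hk] at h0; cases h0
    | casesTrue _ h1 => exact ih h1
  | loopNil hk =>
    intro s₂ t₂ h
    cases h with
    | loopNil _ => rfl
    | loopCons h0 _ _ => exact absurd hk h0
  | loopCons hk _ _ ih1 ih2 =>
    intro s₂ t₂ h
    cases h with
    | loopNil h0 => exact absurd h0 hk
    | loopCons _ h1 h2 =>
      have := ih1 h1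
      subst this
      exact ih2 h2

theorem countable_polyTime : {f : List Bool → List Bool | PolyTime f}.Countable := by
  classical
  have h : ∀ f : {f : List Bool → List Bool | PolyTime f}, ∃ c : Cmd ℕ,
      ∀ a, ∃ t, Run c (inp a) (inp (f.1 a)) t := by
    rintro ⟨f, hf⟩
    obtain ⟨c, p, hc⟩ := Pool.Agent.H642R2.TMSim.polyTime_toPC hf
    exact ⟨c, fun a => ⟨_, (hc a).choose_spec.2⟩⟩
  choose g hg using h
  have hinj : Function.Injective g := by
    rintro ⟨f, hf⟩ ⟨f', hf'⟩ he
    refine Subtype.ext (funext fun a => ?_)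
    obtain ⟨t, h1⟩ := hg ⟨f, hf⟩ a
    obtain ⟨t', h2⟩ := hg ⟨f', hf'⟩ a
    rw [he] at h1
    have h3 := congrFun (run_det h1 h2) 0
    simpa [inp] using h3
  exact Set.countable_coe_iff.1 hinj.countable

/-- **There are countably many languages in NP.** -/
theorem countable_NP : {L : Set (List Bool) | InNP L}.Countable := by
  classical
  have h : ∀ L : {L : Set (List Bool) | InNP L}, ∃ x : {f : List Bool → List Bool | PolyTime f} ×
      Polynomial ℕ, ∀ y, y ∈ L.1 ↔ ∃ w : List Bool, w.length ≤ x.2.eval y.length ∧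
        x.1.1 (pairBits y w) = [true] := by
    rintro ⟨L, V, p, hV, hL⟩
    exact ⟨(⟨V, hV⟩, p), hL⟩
  choose g hg using h
  have hinj : Function.Injective g := by
    rintro L L' he
    refine Subtype.ext (Set.ext fun a => ?_)
    rw [hg L a, hg L' a, he]
  have := countable_polyTime.to_subtype
  have : Countable (Polynomial ℕ) := by
    have h := Polynomial.cardinalMk_le_max (R := ℕ)
    rw [Cardinal.mk_nat, max_self] at h
    exact Cardinal.mk_le_aleph0_iff.1 h
  exact Set.countable_coe_iff.1 hinj.countable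

end Pool.Agent.NPC.V11230.SDQ
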