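import Pool.Agent.V11230.SF2
import Pool.Agent.V11230.SG1

/-!
# Every rational `≥ 1` is a star dichromatic number; `STAR_p` is in NP for countably many `p` only
-/

set_option autoImplicit false

namespace Pool.Agent.NPC.V11230.SDQ

open Finset Pool.Agent.NPC Pool.Agent.V11230.SD Pool.Agent.NPC.V11230.SDP
open Pool.Agent.H622R2

/-- the matrix of the circular digraph: vertices `0, ..., a - 1`, arcs `i → j` for
`(j - i) mod a ≥ b` -/
def circ (a b : ℕ) : List (List Bool) :=
  List.ofFn (fun i : Fin a => List.ofFn (fun j : Fin a => decide (b ≤ (j.val + a - i.val) % a)))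

theorem circ_length (a b : ℕ) : (circ a b).length = a := List.length_ofFn

theorem entry_circ {a b i j : ℕ} (hi : i < a) (hj : j < a) :
    entry (circ a b) i j = decide (b ≤ (j + a - i) % a) := by
  unfold entry circ
  rw [getD_ofFn _ _ _ hi, getD_ofFn _ _ _ hj]

theorem dmod {a w v : ℕ} (hw : w < a) (hv : v < a) :
    (w + a - v) % a = if v ≤ w then w - v else w + a - v := by
  split_ifs with h
  · rw [show w + a - v = (w - v) + a by omega, Nat.add_mod_right, Nat.mod_eq_of_lt (by omega)]
  · rw [Nat.mod_eq_of_lt (by omega)]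

theorem circ_col {a b : ℕ} (hb : 1 ≤ b) (hab : b ≤ a) : Col (dig (circ a b)) a b := by
  have : NeZero a := ⟨by omega⟩
  refine ⟨fun v => ((v.val : ℕ) : ZMod a), fun i => ?_⟩
  refine Acyc.of_rank (fun v => b - (((v.val : ℕ) : ZMod a) - i).val) ?_
  rintro u ⟨j, hj, hu⟩ v ⟨j', hj', hv⟩ ⟨huv, he⟩
  have hu' : u.val < a := lt_of_lt_of_eq u.2 (circ_length a b)
  have hv' : v.val < a := lt_of_lt_of_eq v.2 (circ_length a b)
  have hu2 : ((u.val : ℕ) : ZMod a) = i + (j : ZMod a) := hu
  have hv2 : ((v.val : ℕ) : ZMod a) = i + (j' : ZMod a) := hv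
  have h1 : (((u.val : ℕ) : ZMod a) - i).val = j := by
    rw [hu2, add_sub_cancel_left, ZMod.val_natCast, Nat.mod_eq_of_lt (by omega)]
  have h2 : (((v.val : ℕ) : ZMod a) - i).val = j' := by
    rw [hv2, add_sub_cancel_left, ZMod.val_natCast, Nat.mod_eq_of_lt (by omega)]
  rw [entry_circ hu' hv', decide_eq_true_eq] at he
  show b - (((u.val : ℕ) : ZMod a) - i).val < b - (((v.val : ℕ) : ZMod a) - i).val
  rw [h1, h2]
  by_contra hcon
  have hjj : j ≤ j' := by omega
  have h3 : (v.val + a - u.val) % a = j' - j := by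
    have h4 : ((v.val + a - u.val : ℕ) : ZMod a) = ((j' - j : ℕ) : ZMod a) := by
      rw [Nat.cast_sub (by omega), Nat.cast_add, ZMod.natCast_self, hv2, hu2, Nat.cast_sub hjj]
      ring
    have h5 := congrArg ZMod.val h4
    rw [ZMod.val_natCast, ZMod.val_natCast, Nat.mod_eq_of_lt (show j' - j < a by omega)] at h5
    exact h5
  omega

theorem circ_lower {a b k d : ℕ} (hb : 1 ≤ b) (hd : 1 ≤ d) (hdk : d ≤ k)
    (h : Col (dig (circ a b)) k d) : a * d ≤ k * b := by
  classical
  obtain ⟨c, hc⟩ := h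
  have : NeZero k := ⟨by omega⟩
  have hlt : ∀ v : Fin (circ a b).length, v.val < a :=
    fun v => lt_of_lt_of_eq v.2 (circ_length a b)
  have h1 : ∀ i : ZMod k, (univ.filter (fun v : Fin (circ a b).length =>
      ∃ j : ℕ, j < d ∧ c v = i + (j : ZMod k))).card ≤ b := by
    intro i
    obtain ⟨r, _, hr⟩ := (hc i).rank
    rcases (univ.filter (fun v : Fin (circ a b).length =>
      ∃ j : ℕ, j < d ∧ c v = i + (j : ZMod k))).eq_empty_or_nonempty with he | hne
    · rw [he, card_empty]; exact Nat.zero_le _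
    · obtain ⟨v, hv, hmax⟩ := exists_max_image _ r hne
      refine (card_le_card_of_injOn (t := range b) (fun w => (w.val + a - v.val) % a) ?_ ?_).trans
        (card_range b).le
      · intro w hw
        have hw' := (mem_filter.1 (mem_coe.1 hw)).2
        have hv' := (mem_filter.1 hv).2
        rw [mem_coe, mem_range]
        by_contra hcon
        by_cases hwv : w = v
        · subst hwv
          apply hcon
          show (w.val + a - w.val) % a < b
          rw [Nat.add_sub_cancel_left, Nat.mod_self]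
          omega
        · have h5 := hr v hv' w hw' ⟨fun h => hwv h.symm, by
            rw [entry_circ (hlt v) (hlt w), decide_eq_true_eq]
            exact not_lt.1 hcon⟩
          have h6 := hmax w (mem_coe.1 hw)
          omega
      · intro w _ w' _ he
        have he' : (w.val + a - v.val) % a = (w'.val + a - v.val) % a := he
        rw [dmod (hlt w) (hlt v), dmod (hlt w') (hlt v)] at he'
        have g1 := hlt w
        have g2 := hlt w'
        have g3 := hlt v
        apply Fin.ext
        split_ifs at he' <;> omega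
  have h2 : ∀ v : Fin (circ a b).length, (univ.filter (fun i : ZMod k =>
      ∃ j : ℕ, j < d ∧ c v = i + (j : ZMod k))).card = d := by
    intro v
    have h3 : (univ.filter (fun i : ZMod k => ∃ j : ℕ, j < d ∧ c v = i + (j : ZMod k))) =
        (range d).image (fun j : ℕ => c v - (j : ZMod k)) := by
      ext i
      simp only [mem_filter, mem_univ, true_and, mem_image, mem_range]
      constructor
      · rintro ⟨j, hj, he⟩
        exact ⟨j, hj, by rw [he]; ring⟩
      · rintro ⟨j, hj, he⟩
        exact ⟨j, hj, by rw [← he]; ring⟩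
    rw [h3, card_image_of_injOn, card_range]
    intro j hj j' hj' he
    have hj2 : j < d := mem_range.1 (mem_coe.1 hj)
    have hj2' : j' < d := mem_range.1 (mem_coe.1 hj')
    have h4 : ((j : ℕ) : ZMod k) = ((j' : ℕ) : ZMod k) := sub_right_injective he
    have h5 := congrArg ZMod.val h4
    rw [ZMod.val_natCast, ZMod.val_natCast, Nat.mod_eq_of_lt (by omega),
      Nat.mod_eq_of_lt (by omega)] at h5
    exact h5
  have h3 := sum_card_bipartiteAbove_eq_sum_card_bipartiteBelow
    (s := (univ : Finset (Fin (circ a b).length))) (t := (univ : Finset (ZMod k)))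
    (fun v i => ∃ j : ℕ, j < d ∧ c v = i + (j : ZMod k))
  unfold bipartiteAbove bipartiteBelow at h3
  have h4 : ∑ v : Fin (circ a b).length, (univ.filter (fun i : ZMod k =>
      ∃ j : ℕ, j < d ∧ c v = i + (j : ZMod k))).card = a * d := by
    rw [sum_congr rfl (fun v _ => h2 v), sum_const, card_univ, Fintype.card_fin, circ_length,
      smul_eq_mul]
  have h5 : ∑ i : ZMod k, (univ.filter (fun v : Fin (circ a b).length =>
      ∃ j : ℕ, j < d ∧ c v = i + (j : ZMod k))).card ≤ k * b := by
    refine (sum_le_card_nsmul _ _ b (fun i _ => h1 i)).trans ?_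
    rw [card_univ, ZMod.card, smul_eq_mul]
  rw [← h4]
  exact h3.le.trans h5

/-- every rational number `a / b ≥ 1` is the star dichromatic number of a digraph -/
theorem starDi_circ {a b : ℕ} (hb : 1 ≤ b) (hab : b ≤ a) :
    starDi (dig (circ a b)) = (a : ℝ) / b := by
  refine le_antisymm ((star_iff hb hab).2 (circ_col hb hab)) ?_
  refine le_csInf ⟨_, a, b, ⟨hb, hab⟩, circ_col hb hab, rfl⟩ ?_
  rintro x ⟨k, d, ⟨hd, hdk⟩, hc, rfl⟩
  have h1 : (0 : ℝ) < b := by exact_mod_cast hb
  have h2 : (0 : ℝ) < d := by exact_mod_cast hd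
  rw [div_le_div_iff₀ h1 h2]
  exact_mod_cast circ_lower hb hd hdk hc

theorem rat_form {q : ℚ} (hq : 1 ≤ q) : ∃ a b : ℕ, 1 ≤ b ∧ b ≤ a ∧ (q : ℝ) = (a : ℝ) / b := by
  have hden : 1 ≤ q.den := q.den_pos
  have hnum : 0 ≤ q.num := Rat.num_nonneg.2 (by linarith)
  have hqa : (q : ℝ) = (q.num.toNat : ℝ) / q.den := by
    have h1 : (q : ℝ) = (q.num : ℝ) / q.den := Rat.cast_def q
    have h2 : ((q.num.toNat : ℕ) : ℤ) = q.num := Int.toNat_of_nonneg hnum
    rw [h1]
    congr 1
    rw [← h2]
    push_cast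
    rfl
  refine ⟨q.num.toNat, q.den, hden, ?_, hqa⟩
  have h1 : (1 : ℝ) ≤ (q : ℝ) := by exact_mod_cast hq
  have h2 : (0 : ℝ) < q.den := by exact_mod_cast hden
  rw [hqa, le_div_iff₀ h2, one_mul] at h1
  exact_mod_cast h1

/-- different thresholds give different problems -/
theorem star_ne {p p' : ℝ} (hp : 1 ≤ p) (h : p < p') : ¬ ∀ M, Star p M ↔ Star p' M := by
  intro hM
  obtain ⟨q, hq1, hq2⟩ := exists_rat_btwn h
  obtain ⟨a, b, hb, hab, hq⟩ := rat_form (q := q) (by exact_mod_cast hp.trans hq1.le)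
  have h1 : Star p' (circ a b) := by
    show starDi (dig (circ a b)) ≤ p'
    rw [starDi_circ hb hab, ← hq]
    exact hq2.le
  have h2 : starDi (dig (circ a b)) ≤ p := (hM _).2 h1
  rw [starDi_circ hb hab, ← hq] at h2
  linarith

theorem lang_inj {α : Type} [TEnc α] {P Q : α → Prop} (h : lang P = lang Q) (a : α) :
    P a → Q a := by
  intro ha
  have h1 : bits a ∈ lang P := ⟨a, rfl, ha⟩
  rw [h] at h1
  obtain ⟨a', h2, h3⟩ := h1
  rw [← bits_injective h2]
  exact h3

/-- **`STAR_p` is in NP for only countably many real `p > 1`.** -/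
theorem countable_star : {p : ℝ | 1 < p ∧ InNPP (Star p)}.Countable := by
  have h1 : Set.MapsTo (fun p => lang (Star p)) {p : ℝ | 1 < p ∧ InNPP (Star p)}
      {L : Set (List Bool) | InNP L} := fun p hp => hp.2
  refine h1.countable_of_injOn ?_ countable_NP
  rintro p ⟨hp, _⟩ p' ⟨hp', _⟩ he
  rcases lt_trichotomy p p' with h | h | h
  · exact absurd (fun M => ⟨lang_inj he M, lang_inj he.symm M⟩) (star_ne hp.le h)
  · exact h
  · exact absurd (fun M => ⟨lang_inj he.symm M, lang_inj he M⟩) (star_ne hp'.le h)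

theorem exists_not_NP : ∃ p : ℝ, 1 < p ∧ p < 2 ∧ ¬ InNPP (Star p) := by
  by_contra hcon
  push Not at hcon
  have h0 : Set.Ioo (1 : ℝ) 2 ⊆ {p : ℝ | 1 < p ∧ InNPP (Star p)} :=
    fun p hp => ⟨hp.1, hcon p hp.1 hp.2⟩
  have h1 : (Set.Ioo (1 : ℝ) 2).Countable := countable_star.mono h0
  rw [Cardinal.Real.Ioo_countable_iff] at h1
  norm_num at h1

end Pool.Agent.NPC.V11230.SDQ
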