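import Pool.Agent.V11230.DSep2

/-!
# Distance domination and split modulators

For `r ≥ 3` a graph with a split modulator of size `k` has at most `3 * 4 ^ k` different balls of
radius `r` around non-isolated vertices.
-/

set_option autoImplicit false

namespace Pool.Agent.V11230.SV

open Pool.Agent.H622R2

/-- The distance between `v` and `w` is at most `r`. -/
def Near {V : Type} (G : SimpleGraph V) (r : ℕ) (v w : V) : Prop :=
  ∃ p : G.Walk v w, p.length ≤ r

/-- `G` has an `r`-dominating set of size at most `l`. -/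
def RDom {V : Type} (G : SimpleGraph V) (r l : ℕ) : Prop :=
  ∃ S : Finset V, S.card ≤ l ∧ ∀ v, ∃ s ∈ S, Near G r v s

/-- The list `X` of vertices is a split modulator of the graph `G` with vertices `0, …, n - 1`: the
other vertices are partitioned into a clique `K` and an independent set. -/
def SplitModulator {n : ℕ} (G : SimpleGraph (Fin n)) (X : List ℕ) : Prop :=
  ∃ K : Set (Fin n), (∀ v ∈ K, (v : ℕ) ∉ X) ∧ (∀ u ∈ K, ∀ v ∈ K, u ≠ v → G.Adj u v) ∧
    ∀ u v, u ∉ K → v ∉ K → (u : ℕ) ∉ X → (v : ℕ) ∉ X → ¬ G.Adj u v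

section
variable {V : Type} {G : SimpleGraph V} {r : ℕ} {u v w : V}

theorem Near.refl (r : ℕ) (v : V) : Near G r v v := ⟨SimpleGraph.Walk.nil, by simp⟩

theorem Near.symm (h : Near G r v w) : Near G r w v := by
  obtain ⟨p, hp⟩ := h
  exact ⟨p.reverse, by simpa using hp⟩

theorem Near.mono {r' : ℕ} (h : Near G r v w) (hr : r ≤ r') : Near G r' v w := by
  obtain ⟨p, hp⟩ := h
  exact ⟨p, hp.trans hr⟩

theorem Near.cons (h : G.Adj u v) (h' : Near G r v w) : Near G (r + 1) u w := by
  obtain ⟨p, hp⟩ := h'
  exact ⟨SimpleGraph.Walk.cons h p, by simpa using hp⟩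

theorem Near.snoc (h' : Near G r u v) (h : G.Adj v w) : Near G (r + 1) u w :=
  (Near.cons h.symm h'.symm).symm

theorem near_zero : Near G 0 v w ↔ v = w := by
  constructor
  · rintro ⟨p, hp⟩
    exact SimpleGraph.Walk.eq_of_length_eq_zero (p := p) (by omega)
  · rintro rfl
    exact Near.refl 0 v

theorem near_succ : Near G (r + 1) v w ↔ v = w ∨ ∃ z, G.Adj v z ∧ Near G r z w := by
  constructor
  · rintro ⟨p, hp⟩
    cases p with
    | nil => exact Or.inl rfl
    | cons h q =>
      right
      refine ⟨_, h, q, ?_⟩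
      simpa using hp
  · rintro (rfl | ⟨z, h, h'⟩)
    · exact Near.refl _ _
    · exact Near.cons h h'

theorem near_one : Near G 1 v w ↔ v = w ∨ G.Adj v w := by
  rw [near_succ]
  constructor
  · rintro (h | ⟨z, h, h'⟩)
    · exact Or.inl h
    · rw [near_zero] at h'
      subst h'
      exact Or.inr h
  · rintro (h | h)
    · exact Or.inl h
    · exact Or.inr ⟨w, h, Near.refl _ _⟩

theorem near_two : Near G 2 v w ↔ v = w ∨ G.Adj v w ∨ ∃ z, G.Adj v z ∧ G.Adj z w := by
  rw [near_succ]
  constructor
  · rintro (h | ⟨z, h, h'⟩)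
    · exact Or.inl h
    · rw [near_one] at h'
      rcases h' with rfl | h'
      · exact Or.inr (Or.inl h)
      · exact Or.inr (Or.inr ⟨z, h, h'⟩)
  · rintro (h | h | ⟨z, h, h'⟩)
    · exact Or.inl h
    · exact Or.inr ⟨w, h, Near.refl _ _⟩
    · exact Or.inr ⟨z, h, near_one.2 (Or.inr h')⟩

end

/-- Domination is invariant under isomorphisms. -/
theorem RDom.iso {V V' : Type} {G : SimpleGraph V} {G' : SimpleGraph V'} (e : G ≃g G') {r l : ℕ}
    (h : RDom G r l) : RDom G' r l := by
  classical
  obtain ⟨S, hS, hd⟩ := h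
  refine ⟨S.image e, Finset.card_image_le.trans hS, fun v => ?_⟩
  obtain ⟨s, hs, p, hp⟩ := hd (e.symm v)
  refine ⟨e s, Finset.mem_image_of_mem _ hs, ?_⟩
  have h1 : Near G' r (e (e.symm v)) (e s) := ⟨p.map e.toHom, by simpa using hp⟩
  rwa [e.apply_symm_apply] at h1

theorem rDom_iso {V V' : Type} {G : SimpleGraph V} {G' : SimpleGraph V'} (e : G ≃g G') {r l : ℕ} :
    RDom G r l ↔ RDom G' r l := ⟨fun h => h.iso e, fun h => h.iso e.symm⟩

/-! ### The number of balls -/

section Balls

open Classical

variable {n : ℕ} {G : SimpleGraph (Fin n)} {X : Finset (Fin n)} {K : Set (Fin n)} {q : ℕ}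

/-- the clique and the vertices adjacent to it -/
def InY (G : SimpleGraph (Fin n)) (K : Set (Fin n)) (v : Fin n) : Prop := v ∈ K ∨ ∃ c ∈ K, G.Adj v c

/-- the signature of a vertex -/
noncomputable def sig (G : SimpleGraph (Fin n)) (X : Finset (Fin n)) (K : Set (Fin n)) (q : ℕ)
    (v : Fin n) : ℕ × Finset (Fin n) × Finset (Fin n) :=
  if v ∈ X then (0, {v}, ∅) else if InY G K v then
    (2, X.filter (Near G q v), X.filter (Near G (q + 1) v)) else (1, X.filter (G.Adj v), ∅)

theorem sig_mem (v : Fin n) :
    sig G X K q v ∈ Finset.range 3 ×ˢ (X.powerset ×ˢ X.powerset) := by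
  unfold sig
  split_ifs with h1 h2
  · simp [h1]
  · simp [Finset.filter_subset]
  · simp [Finset.filter_subset]

/-- Vertices outside the modulator and not in `Y` have all their neighbours in the modulator. -/
theorem nbr_mem (hI : ∀ u v, u ∉ K → v ∉ K → u ∉ X → v ∉ X → ¬ G.Adj u v) {v w : Fin n}
    (hv : v ∉ X) (hY : ¬ InY G K v) (h : G.Adj v w) : w ∈ X := by
  by_contra hw
  by_cases hwK : w ∈ K
  · exact hY (Or.inr ⟨w, hwK, h⟩)
  · exact hI v w (fun hk => hY (Or.inl hk)) hwK hv hw h

theorem near_Y (hK : ∀ u ∈ K, ∀ v ∈ K, u ≠ v → G.Adj u v) (hq : 2 ≤ q) {v w : Fin n}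
    (hv : InY G K v) (hw : InY G K w) : Near G (q + 1) v w := by
  have hclose : ∀ {v : Fin n}, InY G K v → ∃ c ∈ K, Near G 1 v c := by
    rintro v (h | ⟨c, h, h'⟩)
    · exact ⟨v, h, Near.refl _ _⟩
    · exact ⟨c, h, near_one.2 (Or.inr h')⟩
  obtain ⟨c, hc, h1⟩ := hclose hv
  obtain ⟨d, hd, h2⟩ := hclose hw
  have h3 : Near G 1 c d := by
    rw [near_one]
    by_cases h : c = d
    · exact Or.inl h
    · exact Or.inr (hK c hc d hd h)
  have h4 : Near G 2 v d := by
    rw [near_one] at h1
    rcases h1 with rfl | h1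
    · exact h3.mono (by omega)
    · exact Near.cons h1 h3
  have h5 : Near G 3 v w := by
    have := h2.symm
    rw [near_one] at this
    rcases this with rfl | this
    · exact h4.mono (by omega)
    · exact Near.snoc h4 this
  exact h5.mono (by omega)

theorem near_of_nbr (hq : 1 ≤ q) {v w z : Fin n} (hvz : G.Adj v z) :
    Near G (q + 1) v w ↔ ∃ x, G.Adj v x ∧ Near G q x w := by
  rw [near_succ]
  constructor
  · rintro (rfl | h)
    · exact ⟨z, hvz, (near_one.2 (Or.inr hvz.symm)).mono hq⟩
    · exact h
  · exact Or.inr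

/-- The signature determines the ball. -/
theorem ball_of_sig (hK : ∀ u ∈ K, ∀ v ∈ K, u ≠ v → G.Adj u v)
    (hI : ∀ u v, u ∉ K → v ∉ K → u ∉ X → v ∉ X → ¬ G.Adj u v) (hq : 2 ≤ q) {v w : Fin n}
    (hv : ∃ z, G.Adj v z) (hw : ∃ z, G.Adj w z) (h : sig G X K q v = sig G X K q w) (z : Fin n) :
    Near G (q + 1) v z ↔ Near G (q + 1) w z := by
  unfold sig at h
  by_cases hvX : v ∈ X
  · rw [if_pos hvX] at h
    by_cases hwX : w ∈ X
    · rw [if_pos hwX] at h
      have h1 : ({v} : Finset (Fin n)) = {w} := congrArg (fun p => p.2.1) h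
      rw [Finset.singleton_inj.1 h1]
    · rw [if_neg hwX] at h
      split_ifs at h with h2
      · exact absurd (congrArg Prod.fst h) (by simp)
      · exact absurd (congrArg Prod.fst h) (by simp)
  · rw [if_neg hvX] at h
    by_cases hwX : w ∈ X
    · rw [if_pos hwX] at h
      split_ifs at h with h2
      · exact absurd (congrArg Prod.fst h) (by simp)
      · exact absurd (congrArg Prod.fst h) (by simp)
    · rw [if_neg hwX] at h
      by_cases hvY : InY G K v
      · rw [if_pos hvY] at h
        by_cases hwY : InY G K w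
        · rw [if_pos hwY] at h
          have hP : X.filter (Near G q v) = X.filter (Near G q w) := congrArg (fun p => p.2.1) h
          have hQ : X.filter (Near G (q + 1) v) = X.filter (Near G (q + 1) w) :=
            congrArg (fun p => p.2.2) h
          have hP' : ∀ x ∈ X, (Near G q v x ↔ Near G q w x) := by
            intro x hx
            have := Finset.ext_iff.1 hP x
            simpa [hx] using this
          have hQ' : ∀ x ∈ X, (Near G (q + 1) v x ↔ Near G (q + 1) w x) := by
            intro x hx
            have := Finset.ext_iff.1 hQ x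
            simpa [hx] using this
          by_cases hzX : z ∈ X
          · exact hQ' z hzX
          · by_cases hzY : InY G K z
            · exact ⟨fun _ => near_Y hK hq hwY hzY, fun _ => near_Y hK hq hvY hzY⟩
            · -- a vertex with all its neighbours in the modulator
              have key : ∀ a : Fin n, InY G K a → (Near G (q + 1) a z ↔
                  ∃ x ∈ X, G.Adj z x ∧ Near G q a x) := by
                intro a ha
                constructor
                · intro h'
                  rcases near_succ.1 h'.symm with rfl | ⟨x, hx, hx'⟩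
                  · exact absurd ha hzY
                  · exact ⟨x, nbr_mem hI hzX hzY hx, hx, hx'.symm⟩
                · rintro ⟨x, _, hx, hx'⟩
                  exact Near.snoc hx' hx.symm
              rw [key v hvY, key w hwY]
              constructor
              · rintro ⟨x, hx, h1, h2⟩
                exact ⟨x, hx, h1, (hP' x hx).1 h2⟩
              · rintro ⟨x, hx, h1, h2⟩
                exact ⟨x, hx, h1, (hP' x hx).2 h2⟩
        · rw [if_neg hwY] at h
          exact absurd (congrArg Prod.fst h) (by simp)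
      · rw [if_neg hvY] at h
        by_cases hwY : InY G K w
        · rw [if_pos hwY] at h
          exact absurd (congrArg Prod.fst h) (by simp)
        · rw [if_neg hwY] at h
          have hN : X.filter (G.Adj v) = X.filter (G.Adj w) := congrArg (fun p => p.2.1) h
          have hN' : ∀ x, (G.Adj v x ↔ G.Adj w x) := by
            intro x
            constructor
            · intro hx
              have hxX := nbr_mem hI hvX hvY hx
              have := Finset.ext_iff.1 hN x
              rw [Finset.mem_filter, Finset.mem_filter] at this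
              exact (this.1 ⟨hxX, hx⟩).2
            · intro hx
              have hxX := nbr_mem hI hwX hwY hx
              have := Finset.ext_iff.1 hN x
              rw [Finset.mem_filter, Finset.mem_filter] at this
              exact (this.2 ⟨hxX, hx⟩).2
          obtain ⟨v', hv'⟩ := hv
          obtain ⟨w', hw'⟩ := hw
          rw [near_of_nbr (by omega) hv', near_of_nbr (by omega) hw']
          constructor
          · rintro ⟨x, hx, hx'⟩
            exact ⟨x, (hN' x).1 hx, hx'⟩
          · rintro ⟨x, hx, hx'⟩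
            exact ⟨x, (hN' x).2 hx, hx'⟩

/-- **The number of balls of radius at least `3` around non-isolated vertices is bounded in terms
of the size of a split modulator.** -/
theorem card_balls (hK : ∀ u ∈ K, ∀ v ∈ K, u ≠ v → G.Adj u v)
    (hI : ∀ u v, u ∉ K → v ∉ K → u ∉ X → v ∉ X → ¬ G.Adj u v) (hq : 2 ≤ q) (R : Finset (Fin n))
    (hR : ∀ v ∈ R, ∃ z, G.Adj v z)
    (hdist : ∀ v ∈ R, ∀ w ∈ R, (∀ z, Near G (q + 1) v z ↔ Near G (q + 1) w z) → v = w) :
    R.card ≤ 3 * (2 ^ X.card * 2 ^ X.card) := by
  have h1 := Finset.card_le_card_of_injOn (s := R) (sig G X K q)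
    (t := Finset.range 3 ×ˢ (X.powerset ×ˢ X.powerset)) (fun v _ => sig_mem v) (by
      intro v hv w hw h
      exact hdist v hv w hw (ball_of_sig hK hI hq (hR v hv) (hR w hw) h))
  rwa [Finset.card_product, Finset.card_product, Finset.card_powerset, Finset.card_range] at h1

end Balls

end Pool.Agent.V11230.SV
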