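import Pool.Agent.V11230.SVD2

/-!
# 2-domination with a small split modulator: the reduction from Dominating Set

The clique consists of the vertices `c_u` of the source graph.  The vertices `y_u` hang on `c_u`.  For
each `i < t` there are copies `v^i` of the vertices `v`, adjacent to `c_u` for all `u` in the closed
neighbourhood of `v`; the modulator vertex `x_i` is adjacent to all `v^i` and to a leaf `q_i`.
-/

set_option autoImplicit false

namespace Pool.Agent.V11230.SV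

open Pool.Agent.H622R2 Pool.Agent.V11230.DS

/-- labels `(h, u, i)` -/
abbrev L3 : Type := ℕ × ℕ × ℕ

/-- the vertices outside the modulator -/
def val3 (n t : ℕ) (x : L3) : Bool :=
  (decide (x.1 ≤ 1) && decide (x.2.1 < n) && decide (x.2.2 = 0)) ||
  (decide (x.1 = 2) && decide (x.2.1 < n) && decide (x.2.2 < t)) ||
  (decide (x.1 = 3) && decide (x.2.1 = 0) && decide (x.2.2 < t))

theorem val3_iff {n t h u i : ℕ} : val3 n t (h, u, i) = true ↔
    (h ≤ 1 ∧ u < n ∧ i = 0) ∨ (h = 2 ∧ u < n ∧ i < t) ∨ (h = 3 ∧ u = 0 ∧ i < t) := by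
  unfold val3
  simp [and_assoc, or_assoc]

/-- edges -/
def ad3 (E : ℕ → ℕ → Bool) (x y : L3) : Bool :=
  (decide (x.1 = 0) && decide (y.1 = 0) && !(decide (x.2.1 = y.2.1))) ||
  (decide (x.1 = 1) && decide (y.1 = 0) && decide (x.2.1 = y.2.1)) ||
  (decide (x.1 = 2) && decide (y.1 = 0) && (decide (x.2.1 = y.2.1) || E x.2.1 y.2.1)) ||
  (decide (x.1 = 4) && decide (y.1 = 2) && decide (x.2.2 = y.2.2)) ||
  (decide (x.1 = 4) && decide (y.1 = 3) && decide (x.2.2 = y.2.2))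

theorem ad3_iff {E : ℕ → ℕ → Bool} {h u i h' u' i' : ℕ} :
    ad3 E (h, u, i) (h', u', i') = true ↔
      (h = 0 ∧ h' = 0 ∧ u ≠ u') ∨ (h = 1 ∧ h' = 0 ∧ u = u') ∨
      (h = 2 ∧ h' = 0 ∧ (u = u' ∨ E u u' = true)) ∨ (h = 4 ∧ h' = 2 ∧ i = i') ∨
      (h = 4 ∧ h' = 3 ∧ i = i') := by
  unfold ad3
  simp [and_assoc, or_assoc]

/-- the vertices -/
def vs3 (n t : ℕ) : List L3 :=
  ((List.range t).map fun i => (4, 0, i)) ++
    ((List.range 4).flatMap fun h => (List.range (n + 1)).flatMap fun u =>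
      ((List.range (t + 1)).map fun i => (h, u, i)).filter (val3 n t))

theorem mem_vs3 {n t h u i : ℕ} : ((h, u, i) : L3) ∈ vs3 n t ↔
    (h ≤ 1 ∧ u < n ∧ i = 0) ∨ (h = 2 ∧ u < n ∧ i < t) ∨ (h = 3 ∧ u = 0 ∧ i < t) ∨
      (h = 4 ∧ u = 0 ∧ i < t) := by
  unfold vs3
  simp only [List.mem_append, List.mem_flatMap, List.mem_filter, List.mem_map, List.mem_range]
  constructor
  · rintro (⟨a, ha, hh⟩ | ⟨_, _, _, _, _, hh⟩)
    · simp only [Prod.mk.injEq] at hh
      obtain ⟨h1, h2, h3⟩ := hh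
      subst h3
      omega
    · rw [val3_iff] at hh
      omega
  · intro h1
    by_cases h4 : h = 4
    · left
      have h2 : u = 0 := by omega
      refine ⟨i, by omega, ?_⟩
      rw [h4, h2]
    · right
      refine ⟨h, by omega, u, by omega, ⟨i, by omega, rfl⟩, ?_⟩
      rw [val3_iff]
      omega

theorem nodup_vs3 (n t : ℕ) : (vs3 n t).Nodup := by
  unfold vs3
  rw [List.nodup_append]
  refine ⟨List.Nodup.map (fun a b h => by simpa using h) List.nodup_range, ?_, ?_⟩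
  · refine nodup_flatMap_range 4 _ (fun x : L3 => x.1) (fun h => h) (fun a b h => h) ?_ ?_
    · intro h x hx
      simp only [List.mem_flatMap, List.mem_filter, List.mem_map] at hx
      obtain ⟨_, _, ⟨_, _, rfl⟩, _⟩ := hx
      rfl
    intro h
    refine nodup_flatMap_range (n + 1) _ (fun x : L3 => x.2.1) (fun h => h) (fun a b h => h) ?_ ?_
    · intro i x hx
      simp only [List.mem_filter, List.mem_map] at hx
      obtain ⟨⟨_, _, rfl⟩, _⟩ := hx
      rfl
    intro u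
    refine List.Nodup.filter _ (List.Nodup.map ?_ List.nodup_range)
    intro a b hab
    simpa using hab
  · intro a ha b hb hab
    subst hab
    obtain ⟨h, u, i⟩ := a
    simp only [List.mem_flatMap, List.mem_filter, List.mem_map] at ha hb
    obtain ⟨_, _, ha⟩ := ha
    obtain ⟨_, _, _, _, _, hb⟩ := hb
    rw [val3_iff] at hb
    simp only [Prod.mk.injEq] at ha
    omega

/-- the vertex with a given label -/
def mk3 {n t : ℕ} (x : L3) (hx : x ∈ vs3 n t) : {x // x ∈ vs3 n t} := ⟨x, hx⟩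

section

variable {n t : ℕ} {E : ℕ → ℕ → Bool}

theorem adj3 {x y : L3} (hx : x ∈ vs3 n t) (hy : y ∈ vs3 n t) :
    (labGraph (vs3 n t) (ad3 E)).Adj ⟨x, hx⟩ ⟨y, hy⟩ ↔
      x ≠ y ∧ (ad3 E x y = true ∨ ad3 E y x = true) := by
  unfold labGraph
  simp

/-- from a dominating set of the source graph -/
theorem rDom_of_dom (d : ℕ → ℕ) (hd : ∀ i < t, d i < n)
    (hdom : ∀ u < n, ∃ i < t, u = d i ∨ E (d i) u = true) :
    RDom (labGraph (vs3 n t) (ad3 E)) 2 t := by
  classical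
  have hmem : ∀ i < t, ((2, d i, i) : L3) ∈ vs3 n t := fun i hi =>
    mem_vs3.2 (Or.inr (Or.inl ⟨rfl, hd i hi, hi⟩))
  refine ⟨(Finset.univ : Finset (Fin t)).image (fun i : Fin t =>
    (⟨(2, d (i : ℕ), (i : ℕ)), hmem i i.2⟩ : {x // x ∈ vs3 n t})),
    Finset.card_image_le.trans (by simp), ?_⟩
  rintro ⟨⟨h, u, i⟩, hx⟩
  have hx' := mem_vs3.1 hx
  -- the clique
  have hc : ∀ (i : ℕ) (hi : i < t), ∀ u < n, ∀ (hu : ((0, u, 0) : L3) ∈ vs3 n t),
      Near (labGraph (vs3 n t) (ad3 E)) 2 ⟨(0, u, 0), hu⟩ ⟨(2, d i, i), hmem i hi⟩ := by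
    intro i hi u hun hu
    have hci : ((0, d i, 0) : L3) ∈ vs3 n t := mem_vs3.2 (Or.inl ⟨by omega, hd i hi, rfl⟩)
    have ha : (labGraph (vs3 n t) (ad3 E)).Adj ⟨(2, d i, i), hmem i hi⟩ ⟨(0, d i, 0), hci⟩ := by
      rw [adj3]
      refine ⟨by simp, Or.inl ?_⟩
      rw [ad3_iff]
      exact Or.inr (Or.inr (Or.inl ⟨rfl, rfl, Or.inl rfl⟩))
    rw [near_two]
    by_cases h : u = d i
    · subst h
      exact Or.inr (Or.inl ha.symm)
    · refine Or.inr (Or.inr ⟨⟨(0, d i, 0), hci⟩, ?_, ha.symm⟩)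
      rw [adj3]
      refine ⟨by simp [h], Or.inl ?_⟩
      rw [ad3_iff]
      exact Or.inl ⟨rfl, rfl, h⟩
  rcases hx' with ⟨h1, h2, rfl⟩ | ⟨rfl, h2, h3⟩ | ⟨rfl, rfl, h3⟩ | ⟨rfl, rfl, h3⟩
  · obtain ⟨i, hi, hdi⟩ := hdom u h2
    refine ⟨⟨(2, d i, i), hmem i hi⟩, Finset.mem_image.2 ⟨⟨i, hi⟩, Finset.mem_univ _, rfl⟩, ?_⟩
    by_cases h0 : h = 0
    · subst h0
      exact hc i hi u h2 hx
    · have h1' : h = 1 := by omega
      subst h1'
      have hcu : ((0, u, 0) : L3) ∈ vs3 n t := mem_vs3.2 (Or.inl ⟨by omega, h2, rfl⟩)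
      rw [near_two]
      refine Or.inr (Or.inr ⟨⟨(0, u, 0), hcu⟩, ?_, ?_⟩)
      · rw [adj3]
        refine ⟨by simp, Or.inl ?_⟩
        rw [ad3_iff]
        exact Or.inr (Or.inl ⟨rfl, rfl, rfl⟩)
      · rw [adj3]
        refine ⟨by simp, Or.inr ?_⟩
        rw [ad3_iff]
        exact Or.inr (Or.inr (Or.inl ⟨rfl, rfl, hdi.imp Eq.symm id⟩))
  all_goals
    refine ⟨⟨(2, d i, i), hmem i h3⟩, Finset.mem_image.2 ⟨⟨i, h3⟩, Finset.mem_univ _, rfl⟩, ?_⟩
    have hxi : ((4, 0, i) : L3) ∈ vs3 n t := mem_vs3.2 (Or.inr (Or.inr (Or.inr ⟨rfl, rfl, h3⟩)))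
    have ha : (labGraph (vs3 n t) (ad3 E)).Adj ⟨(4, 0, i), hxi⟩ ⟨(2, d i, i), hmem i h3⟩ := by
      rw [adj3]
      refine ⟨by simp, Or.inl ?_⟩
      rw [ad3_iff]
      exact Or.inr (Or.inr (Or.inr (Or.inl ⟨rfl, rfl, rfl⟩)))
    rw [near_two]
  · refine Or.inr (Or.inr ⟨⟨(4, 0, i), hxi⟩, ?_, ha⟩)
    rw [adj3]
    refine ⟨by simp, Or.inr ?_⟩
    rw [ad3_iff]
    exact Or.inr (Or.inr (Or.inr (Or.inl ⟨rfl, rfl, rfl⟩)))
  · refine Or.inr (Or.inr ⟨⟨(4, 0, i), hxi⟩, ?_, ha⟩)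
    rw [adj3]
    refine ⟨by simp, Or.inr ?_⟩
    rw [ad3_iff]
    exact Or.inr (Or.inr (Or.inr (Or.inr ⟨rfl, rfl, rfl⟩)))
  · exact Or.inr (Or.inl ha)

/-- to a dominating set of the source graph -/
theorem dom_of_rDom (h : RDom (labGraph (vs3 n t) (ad3 E)) 2 t) :
    ∃ D : Finset ℕ, D.card ≤ t ∧ (∀ v ∈ D, v < n) ∧ ∀ u < n, ∃ v ∈ D, u = v ∨ E v u = true := by
  classical
  obtain ⟨S, hS, hd⟩ := h
  -- each group contains a member of `S`
  have hgrp : ∀ i : Fin t, ∃ s ∈ S, 2 ≤ s.1.1 ∧ s.1.2.2 = i := by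
    intro i
    have hq : ((3, 0, (i : ℕ)) : L3) ∈ vs3 n t :=
      mem_vs3.2 (Or.inr (Or.inr (Or.inl ⟨rfl, rfl, i.2⟩)))
    obtain ⟨⟨⟨h, u, j⟩, hs⟩, hsS, hns⟩ := hd ⟨_, hq⟩
    refine ⟨⟨⟨h, u, j⟩, hs⟩, hsS, ?_⟩
    rw [near_two] at hns
    dsimp only
    rcases hns with hns | hns | ⟨⟨⟨h', u', j'⟩, hz⟩, hz1, hz2⟩
    · simp only [Subtype.mk.injEq, Prod.mk.injEq] at hns
      omega
    · rw [adj3, ad3_iff, ad3_iff] at hns
      omega
    · rw [adj3, ad3_iff, ad3_iff] at hz1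
      rw [adj3, ad3_iff, ad3_iff] at hz2
      omega
  choose sf hsf1 hsf2 hsf3 using hgrp
  have himg : (Finset.univ : Finset (Fin t)).image sf = S := by
    refine Finset.eq_of_subset_of_card_le ?_ ?_
    · intro x hx
      rw [Finset.mem_image] at hx
      obtain ⟨i, _, rfl⟩ := hx
      exact hsf1 i
    · rw [Finset.card_image_of_injective]
      · simpa using hS
      · intro i j hij
        have h1 := hsf3 i
        rw [hij, hsf3 j] at h1
        exact Fin.ext h1.symm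
  have hS2 : ∀ s ∈ S, 2 ≤ s.1.1 := by
    intro s hs
    rw [← himg, Finset.mem_image] at hs
    obtain ⟨i, _, rfl⟩ := hs
    exact hsf2 i
  refine ⟨(S.filter (fun s => s.1.1 = 2)).image (fun s => s.1.2.1),
    Finset.card_image_le.trans ((Finset.card_filter_le _ _).trans hS), ?_, ?_⟩
  · intro v hv
    rw [Finset.mem_image] at hv
    obtain ⟨⟨⟨h, u, j⟩, hs⟩, hsS, rfl⟩ := hv
    rw [Finset.mem_filter] at hsS
    have h2 : h = 2 := hsS.2
    have := mem_vs3.1 hs
    dsimp only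
    omega
  · intro u hu
    have hy : ((1, u, 0) : L3) ∈ vs3 n t := mem_vs3.2 (Or.inl ⟨by omega, hu, rfl⟩)
    obtain ⟨⟨⟨h, v, j⟩, hs⟩, hsS, hns⟩ := hd ⟨_, hy⟩
    have h2 : 2 ≤ h := hS2 _ hsS
    rw [near_two] at hns
    rcases hns with hns | hns | ⟨⟨⟨h', u', j'⟩, hz⟩, hz1, hz2⟩
    · simp only [Subtype.mk.injEq, Prod.mk.injEq] at hns
      omega
    · rw [adj3, ad3_iff, ad3_iff] at hns
      omega
    · rw [adj3, ad3_iff, ad3_iff] at hz1
      have h3 : h' = 0 ∧ u' = u := by omega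
      obtain ⟨rfl, rfl⟩ := h3
      rw [adj3, ad3_iff, ad3_iff] at hz2
      have h4 : h = 2 ∧ (v = u' ∨ E v u' = true) := by
        rcases hz2.2 with h5 | h5
        · omega
        · rcases h5 with h5 | h5 | h5 | h5 | h5
          · omega
          · omega
          · exact ⟨h5.1, h5.2.2⟩
          · omega
          · omega
      refine ⟨v, Finset.mem_image.2 ⟨⟨⟨h, v, j⟩, hs⟩, Finset.mem_filter.2 ⟨hsS, h4.1⟩, rfl⟩, ?_⟩
      exact h4.2.imp Eq.symm id

end

/-- domination in the source graph -/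
theorem rDom_one_iff (A : List (List Bool)) (t : ℕ) : RDom (matGraph A) 1 t ↔
    ∃ D : Finset ℕ, D.card ≤ t ∧ (∀ v ∈ D, v < A.length) ∧
      ∀ u < A.length, ∃ v ∈ D, u = v ∨ ed A v u = true := by
  classical
  constructor
  · rintro ⟨S, hS, hd⟩
    refine ⟨S.image Fin.val, Finset.card_image_le.trans hS, ?_, ?_⟩
    · intro v hv
      rw [Finset.mem_image] at hv
      obtain ⟨s, _, rfl⟩ := hv
      exact s.2
    · intro u hu
      obtain ⟨s, hs, hns⟩ := hd ⟨u, hu⟩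
      refine ⟨s, Finset.mem_image_of_mem _ hs, ?_⟩
      rw [near_one] at hns
      rcases hns with h | h
      · left
        rw [← h]
      · right
        exact (adj_ed A s ⟨u, hu⟩).1 h.symm
  · rintro ⟨D, hD, hDn, hd⟩
    refine ⟨Finset.univ.filter (fun v : Fin A.length => (v : ℕ) ∈ D), ?_, ?_⟩
    · have h1 : (Finset.univ.filter (fun v : Fin A.length => (v : ℕ) ∈ D)).image Fin.val ⊆ D := by
        intro x hx
        rw [Finset.mem_image] at hx
        obtain ⟨v, hv, rfl⟩ := hx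
        exact (Finset.mem_filter.1 hv).2
      have h2 := Finset.card_le_card h1
      rw [Finset.card_image_of_injective _ Fin.val_injective] at h2
      exact h2.trans hD
    · intro u
      obtain ⟨v, hv, h⟩ := hd u u.2
      refine ⟨⟨v, hDn v hv⟩, by simpa using hv, ?_⟩
      rw [near_one]
      rcases h with h | h
      · left
        exact Fin.ext h
      · right
        exact ((adj_ed A ⟨v, hDn v hv⟩ u).2 h).symm

/-- **The reduction is correct.** -/
theorem rDom_lab_iff (A : List (List Bool)) {t : ℕ} (ht : t ≤ A.length) :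
    RDom (labGraph (vs3 A.length t) (ad3 (ed A))) 2 t ↔ RDom (matGraph A) 1 t := by
  rw [rDom_one_iff]
  constructor
  · exact dom_of_rDom
  · rintro ⟨D, hD, hDn, hd⟩
    obtain ⟨D', hDD', hD'n, hD'⟩ : ∃ D', D ⊆ D' ∧ D' ⊆ Finset.range A.length ∧ D'.card = t :=
      Finset.exists_subsuperset_card_eq (fun v hv => Finset.mem_range.2 (hDn v hv)) hD
        (by simpa using ht)
    obtain ⟨e⟩ : Nonempty (Fin t ≃ D') := by
      rw [← Fintype.card_eq]
      simp [hD']
    refine rDom_of_dom (fun i => if h : i < t then (e ⟨i, h⟩ : ℕ) else 0) ?_ ?_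
    · intro i hi
      simp only [hi, dif_pos]
      exact Finset.mem_range.1 (hD'n (e ⟨i, hi⟩).2)
    · intro u hu
      obtain ⟨v, hv, h⟩ := hd u hu
      refine ⟨e.symm ⟨v, hDD' hv⟩, (e.symm ⟨v, hDD' hv⟩).2, ?_⟩
      simpa using h

/-- the modulator -/
theorem splitModulator (n t : ℕ) (E : ℕ → ℕ → Bool) :
    SplitModulator (matGraph (mat (vs3 n t) (ad3 E))) (List.range t) := by
  have hlab : ∀ a : Fin (mat (vs3 n t) (ad3 E)).length, (a : ℕ) < (vs3 n t).length := fun a =>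
    lt_of_lt_of_eq a.2 (mat_length _ _)
  have hadj : ∀ a b, (matGraph (mat (vs3 n t) (ad3 E))).Adj a b ↔ a ≠ b ∧
      (ad3 E ((vs3 n t)[(a : ℕ)]'(hlab a)) ((vs3 n t)[(b : ℕ)]'(hlab b)) = true ∨
        ad3 E ((vs3 n t)[(b : ℕ)]'(hlab b)) ((vs3 n t)[(a : ℕ)]'(hlab a)) = true) := by
    intro a b
    unfold matGraph
    simp only
    rw [entry_mat _ _ _ _ (hlab a) (hlab b), entry_mat _ _ _ _ (hlab b) (hlab a)]
  have hfirst : ∀ i (h : i < (vs3 n t).length), i < t → ((vs3 n t)[i]).1 = 4 := by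
    intro i h hi
    have h1 := List.getElem_append_left (as := (List.range t).map fun i => ((4, 0, i) : L3))
      (bs := ((List.range 4).flatMap fun h => (List.range (n + 1)).flatMap fun u =>
      ((List.range (t + 1)).map fun i => (h, u, i)).filter (val3 n t))) (i := i)
      (by simpa using hi) (h' := h)
    have h2 : (vs3 n t)[i] = ((List.range t).map fun i => ((4, 0, i) : L3))[i]'(by
      simpa using hi) := h1
    rw [h2]
    simp
  have hrest : ∀ i (h : i < (vs3 n t).length), ¬ i < t → ((vs3 n t)[i]).1 ≤ 3 := by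
    intro i h hi
    have hmem : (vs3 n t)[i] ∈ ((List.range 4).flatMap fun h =>
        (List.range (n + 1)).flatMap fun u =>
        ((List.range (t + 1)).map fun i => ((h, u, i) : L3)).filter (val3 n t)) := by
      have h1 := List.getElem_append_right (as := (List.range t).map fun i => ((4, 0, i) : L3))
        (bs := ((List.range 4).flatMap fun h => (List.range (n + 1)).flatMap fun u =>
        ((List.range (t + 1)).map fun i => (h, u, i)).filter (val3 n t))) (i := i)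
        (by simpa using hi) (h₂ := h)
      have h2 : (vs3 n t)[i] = _ := h1
      rw [h2]
      exact List.getElem_mem _
    simp only [List.mem_flatMap, List.mem_filter, List.mem_map, List.mem_range] at hmem
    obtain ⟨h1, h2, _, _, ⟨_, _, h3⟩, _⟩ := hmem
    rw [← h3]
    dsimp only
    omega
  refine ⟨{a | ((vs3 n t)[(a : ℕ)]'(hlab a)).1 = 0}, ?_, ?_, ?_⟩
  · intro a ha hX
    rw [Set.mem_ofPred_eq] at ha
    rw [hfirst a (hlab a) (List.mem_range.1 hX)] at ha
    omega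
  · intro a ha b hb hab
    rw [Set.mem_ofPred_eq] at ha hb
    rw [hadj]
    refine ⟨hab, Or.inl ?_⟩
    have hne : (vs3 n t)[(a : ℕ)]'(hlab a) ≠ (vs3 n t)[(b : ℕ)]'(hlab b) := by
      intro h
      exact hab (Fin.ext ((nodup_vs3 n t).getElem_inj_iff.1 h))
    have hma : (vs3 n t)[(a : ℕ)]'(hlab a) ∈ vs3 n t := List.getElem_mem _
    have hmb : (vs3 n t)[(b : ℕ)]'(hlab b) ∈ vs3 n t := List.getElem_mem _
    generalize (vs3 n t)[(a : ℕ)]'(hlab a) = x at *
    generalize (vs3 n t)[(b : ℕ)]'(hlab b) = y at *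
    obtain ⟨h, u, i⟩ := x
    obtain ⟨h', u', i'⟩ := y
    rw [mem_vs3] at hma hmb
    rw [ad3_iff]
    dsimp only at ha hb
    left
    refine ⟨ha, hb, ?_⟩
    rintro rfl
    apply hne
    have e1 : h = h' := by omega
    have e2 : i = i' := by omega
    rw [e1, e2]
  · intro a b ha hb haX hbX hab
    rw [Set.mem_ofPred_eq] at ha hb
    rw [List.mem_range] at haX hbX
    have h1 := hrest a (hlab a) haX
    have h2 := hrest b (hlab b) hbX
    rw [hadj] at hab
    obtain ⟨-, hab⟩ := hab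
    generalize (vs3 n t)[(a : ℕ)]'(hlab a) = x at *
    generalize (vs3 n t)[(b : ℕ)]'(hlab b) = y at *
    obtain ⟨h, u, i⟩ := x
    obtain ⟨h', u', i'⟩ := y
    rw [ad3_iff, ad3_iff] at hab
    dsimp only at ha hb h1 h2
    omega

end Pool.Agent.V11230.SV
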