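import Mathlib

/-!
# Edge deletion to bounded component size: the construction
-/

set_option autoImplicit false

namespace Pool.Agent.V11230.TD

open Finset

/-- the graph with the vertices `0, …, n - 1` and the edges listed in `L` -/
def LG (n : ℕ) (L : List (ℕ × ℕ)) : SimpleGraph (Fin n) where
  Adj a b := a ≠ b ∧ ((a.1, b.1) ∈ L ∨ (b.1, a.1) ∈ L)
  symm := ⟨fun _ _ h => ⟨h.1.symm, h.2.symm⟩⟩
  loopless := ⟨fun _ h => h.1 rfl⟩

/-- it is possible to delete at most `k` edges so that all components have at most `h` vertices -/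
def TFree {V : Type} (G : SimpleGraph V) (k h : ℕ) : Prop :=
  ∃ F : Finset (Sym2 V), (F : Set (Sym2 V)) ⊆ G.edgeSet ∧ F.card ≤ k ∧
    ∀ v, {w | (G.deleteEdges F).Reachable v w}.ncard ≤ h

/-- the parameters: a grid tiling instance with `t` rows and columns, values `1, …, N` and
constraints `R` -/
structure Par where
  /-- the number of rows -/
  t : ℕ
  /-- the number of values -/
  N : ℕ
  /-- the constraints -/
  R : ℕ → ℕ → ℕ → ℕ → Bool

namespace Par

variable (P : Par)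

/-- the base -/
def M : ℕ := P.N + 1
/-- the offset -/
def Q : ℕ := P.M * P.M
/-- the length of the arcs -/
def T : ℕ := 2 * P.Q
/-- the budget -/
def K : ℕ := 3 * (P.t * P.t)
/-- the stride -/
def W : ℕ := 5 * P.Q + 2 * P.K + 1
/-- the bound on the components -/
def h : ℕ := 6 * P.Q + 2 * P.K + 1
/-- the number of the vertices -/
def n : ℕ := 5 * P.t * P.t * P.W

/-- the code of a vertex -/
def cd (κ i j s : ℕ) : ℕ := ((κ * P.t + i) * P.t + j) * P.W + s

/-- the allowed positions -/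
def al (κ i j s : ℕ) : Bool :=
  (decide (s = 0) || (decide (s = P.T) || decide (s = P.T + 1))) ||
    (if κ = 2 then decide (P.Q < s) && (decide (s < P.T) && (decide (1 ≤ (s - P.Q) % P.M) &&
        (decide (1 ≤ (s - P.Q) / P.M) && P.R i j ((s - P.Q) % P.M) ((s - P.Q) / P.M))))
      else if κ = 3 then decide (s ≤ P.N)
      else decide (s % P.M = 0) && decide (s < P.Q))

/-- the next allowed position -/
def nx (κ i j p : ℕ) : ℕ :=
  (((List.range (P.T + 2)).filter (fun q => decide (p < q) && P.al κ i j q)).head?).getD 0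

/-- the next index -/
def nxt (j : ℕ) : ℕ := if j + 1 = P.t then 0 else j + 1

/-- the previous index -/
def prv (j : ℕ) : ℕ := if j = 0 then P.t - 1 else j - 1

/-- the centre of the tail -/
def tl (κ i j : ℕ) : ℕ := if κ = 2 then P.cd 0 i j 0 else P.cd 1 i j 0

/-- the centre of the head -/
def hd (κ i j : ℕ) : ℕ := if κ = 2 then P.cd 1 i j 0 else
  if κ = 3 then P.cd 0 i (P.nxt j) 0 else P.cd 0 (P.nxt i) j 0

/-- the vertex at the position `p` of an arc -/
def vx (κ i j p : ℕ) : ℕ := if p = 0 then P.tl κ i j else if p = P.T + 1 then P.hd κ i j else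
  P.cd κ i j p

/-- the edges -/
def L : List (ℕ × ℕ) :=
  (List.range P.t).flatMap (fun i => (List.range P.t).flatMap (fun j =>
    (List.range (P.Q + 2 * P.K)).map (fun s => (P.cd 0 i j 0, P.cd 0 i j (s + 1))) ++
      ((List.range (5 * P.Q + 2 * P.K)).map (fun s => (P.cd 1 i j 0, P.cd 1 i j (s + 1))) ++
        ([2, 3, 4] : List ℕ).flatMap (fun κ => (List.range (P.T + 1)).map (fun p =>
          (P.vx κ i j p, P.vx κ i j (P.nx κ i j p)))))))

/-- an index of an arc -/
def Arc (κ i j : ℕ) : Prop := (2 ≤ κ ∧ κ < 5) ∧ i < P.t ∧ j < P.t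

variable {P}

theorem mem_L {a b : ℕ} : (a, b) ∈ P.L ↔ ∃ i < P.t, ∃ j < P.t,
    (∃ s < P.Q + 2 * P.K, a = P.cd 0 i j 0 ∧ b = P.cd 0 i j (s + 1)) ∨
    (∃ s < 5 * P.Q + 2 * P.K, a = P.cd 1 i j 0 ∧ b = P.cd 1 i j (s + 1)) ∨
    (∃ κ, (2 ≤ κ ∧ κ < 5) ∧ ∃ p ≤ P.T, a = P.vx κ i j p ∧ b = P.vx κ i j (P.nx κ i j p)) := by
  unfold L
  simp only [List.mem_flatMap, List.mem_append, List.mem_map, List.mem_range, List.mem_cons,
    List.not_mem_nil, or_false, Prod.mk.injEq]
  constructor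
  · rintro ⟨i, hi, j, hj, h⟩
    refine ⟨i, hi, j, hj, ?_⟩
    rcases h with ⟨s, hs, h1, h2⟩ | ⟨s, hs, h1, h2⟩ | ⟨κ, hκ, p, hp, h1, h2⟩
    · exact Or.inl ⟨s, hs, h1.symm, h2.symm⟩
    · exact Or.inr (Or.inl ⟨s, hs, h1.symm, h2.symm⟩)
    · exact Or.inr (Or.inr ⟨κ, by omega, p, by omega, h1.symm, h2.symm⟩)
  · rintro ⟨i, hi, j, hj, h⟩
    refine ⟨i, hi, j, hj, ?_⟩
    rcases h with ⟨s, hs, h1, h2⟩ | ⟨s, hs, h1, h2⟩ | ⟨κ, hκ, p, hp, h1, h2⟩
    · exact Or.inl ⟨s, hs, h1.symm, h2.symm⟩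
    · exact Or.inr (Or.inl ⟨s, hs, h1.symm, h2.symm⟩)
    · exact Or.inr (Or.inr ⟨κ, by omega, p, by omega, h1.symm, h2.symm⟩)

/-! ### Codes -/

theorem mul_add_lt {a A s W : ℕ} (ha : a < A) (hs : s < W) : a * W + s < A * W := by
  calc a * W + s < (a + 1) * W := by rw [Nat.succ_mul]; omega
    _ ≤ A * W := Nat.mul_le_mul_right _ ha

theorem mul_add_div {a s W : ℕ} (hs : s < W) : (a * W + s) / W = a := by
  rw [Nat.add_comm, Nat.add_mul_div_right _ _ (by omega), Nat.div_eq_of_lt hs, Nat.zero_add]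

theorem mul_add_mod {a s W : ℕ} (hs : s < W) : (a * W + s) % W = s := by
  rw [Nat.add_comm, Nat.add_mul_mod_self_right, Nat.mod_eq_of_lt hs]

theorem cd_lt {κ i j s : ℕ} (hκ : κ < 5) (hi : i < P.t) (hj : j < P.t) (hs : s < P.W) :
    P.cd κ i j s < P.n :=
  mul_add_lt (mul_add_lt (mul_add_lt hκ hi) hj) hs

/-- decoding: the kind -/
def dk (P : Par) (v : ℕ) : ℕ := v / P.W / P.t / P.t
/-- decoding: the row -/
def di (P : Par) (v : ℕ) : ℕ := v / P.W / P.t % P.t
/-- decoding: the column -/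
def dj (P : Par) (v : ℕ) : ℕ := v / P.W % P.t
/-- decoding: the position -/
def ds (P : Par) (v : ℕ) : ℕ := v % P.W

section
variable {κ i j s : ℕ} (hi : i < P.t) (hj : j < P.t) (hs : s < P.W)
include hi hj hs

theorem dk_cd : P.dk (P.cd κ i j s) = κ := by
  unfold dk cd
  rw [mul_add_div hs, mul_add_div hj, mul_add_div hi]

omit hi in
theorem di_cd (hi : i < P.t) : P.di (P.cd κ i j s) = i := by
  unfold di cd
  rw [mul_add_div hs, mul_add_div hj, mul_add_mod hi]

omit hi in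
theorem dj_cd : P.dj (P.cd κ i j s) = j := by
  unfold dj cd
  rw [mul_add_div hs, mul_add_mod hj]

omit hi hj in
theorem ds_cd : P.ds (P.cd κ i j s) = s := by
  unfold ds cd
  rw [mul_add_mod hs]

end

theorem cd_inj {κ i j s κ' i' j' s' : ℕ} (hi : i < P.t) (hj : j < P.t) (hs : s < P.W)
    (hi' : i' < P.t) (hj' : j' < P.t) (hs' : s' < P.W) (h : P.cd κ i j s = P.cd κ' i' j' s') :
    κ = κ' ∧ i = i' ∧ j = j' ∧ s = s' := by
  have h1 := dk_cd (κ := κ) hi hj hs
  have h2 := di_cd (κ := κ) hj hs hi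
  have h3 := dj_cd (κ := κ) (i := i) hj hs
  have h4 := ds_cd (κ := κ) (i := i) (j := j) hs
  rw [h] at h1 h2 h3 h4
  rw [dk_cd hi' hj' hs'] at h1
  rw [di_cd hj' hs' hi'] at h2
  rw [dj_cd hj' hs'] at h3
  rw [ds_cd hs'] at h4
  exact ⟨h1.symm, h2.symm, h3.symm, h4.symm⟩

theorem cd_dec (v : ℕ) : P.cd (P.dk v) (P.di v) (P.dj v) (P.ds v) = v := by
  unfold cd dk di dj ds
  have h1 := Nat.div_add_mod' (v / P.W / P.t) P.t
  have h2 := Nat.div_add_mod' (v / P.W) P.t
  have h3 := Nat.div_add_mod' v P.W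
  rw [h1, h2, h3]

theorem dec_lt {v : ℕ} (hv : v < P.n) : P.dk v < 5 ∧ P.di v < P.t ∧ P.dj v < P.t ∧
    P.ds v < P.W := by
  have hn : 0 < P.n := by omega
  have hW : 0 < P.W := by unfold W; omega
  have ht : 0 < P.t := by
    rcases Nat.eq_zero_or_pos P.t with h | h
    · unfold n at hn
      rw [h] at hn
      simp at hn
    · exact h
  refine ⟨?_, Nat.mod_lt _ ht, Nat.mod_lt _ ht, Nat.mod_lt _ hW⟩
  unfold dk
  rw [Nat.div_lt_iff_lt_mul ht, Nat.div_lt_iff_lt_mul ht, Nat.div_lt_iff_lt_mul hW]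
  exact hv

/-! ### Indices and positions -/

theorem nxt_lt {j : ℕ} (hj : j < P.t) : P.nxt j < P.t := by
  unfold nxt
  split_ifs <;> omega

theorem prv_lt {j : ℕ} (hj : j < P.t) : P.prv j < P.t := by
  unfold prv
  split_ifs <;> omega

theorem nxt_prv {j : ℕ} (hj : j < P.t) : P.nxt (P.prv j) = j := by
  unfold nxt prv
  by_cases h : j = 0
  · rw [if_pos h, if_pos (by omega)]
    exact h.symm
  · rw [if_neg h, if_neg (by omega)]
    omega

theorem prv_nxt {j : ℕ} : P.prv (P.nxt j) = j := by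
  unfold nxt prv
  by_cases h : j + 1 = P.t
  · rw [if_pos h, if_pos rfl]
    omega
  · rw [if_neg h, if_neg (by omega)]
    omega

theorem sum_prv (f : ℕ → ℕ) : ∑ j ∈ range P.t, f (P.prv j) = ∑ j ∈ range P.t, f j := by
  unfold prv
  rcases h : P.t with _ | t
  · simp
  · rw [sum_range_succ', sum_range_succ]
    simp

theorem head_filter {p : ℕ → Bool} {N t : ℕ} (ht : t < N) (hp : p t = true) :
    (((List.range N).filter p).head?).getD 0 ≤ t ∧
      p ((((List.range N).filter p).head?).getD 0) = true := by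
  have hmem : t ∈ (List.range N).filter p := List.mem_filter.2 ⟨List.mem_range.2 ht, hp⟩
  have hs : ((List.range N).filter p).Pairwise (· < ·) := List.Pairwise.filter _
    List.pairwise_lt_range
  cases hl : (List.range N).filter p with
  | nil =>
    rw [hl] at hmem
    simp at hmem
  | cons a l =>
    rw [hl] at hmem hs
    have ha : a ∈ (List.range N).filter p := by
      rw [hl]
      exact List.mem_cons_self
    refine ⟨?_, (List.mem_filter.1 ha).2⟩
    rw [List.head?_cons, Option.getD_some]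
    rw [List.mem_cons] at hmem
    rcases hmem with rfl | hmem
    · exact le_rfl
    · exact ((List.pairwise_cons.1 hs).1 t hmem).le

theorem al_zero (κ i j : ℕ) : P.al κ i j 0 = true := by
  unfold al
  simp

theorem al_T (κ i j : ℕ) : P.al κ i j P.T = true := by
  unfold al
  simp

theorem al_T1 (κ i j : ℕ) : P.al κ i j (P.T + 1) = true := by
  unfold al
  simp

theorem nx_le {κ i j p q : ℕ} (hp : p < q) (hq : q ≤ P.T + 1) (ha : P.al κ i j q = true) :
    P.nx κ i j p ≤ q := by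
  unfold nx
  refine (head_filter (by omega) ?_).1
  rw [Bool.and_eq_true, decide_eq_true_iff]
  exact ⟨hp, ha⟩

theorem nx_spec {κ i j p : ℕ} (hp : p ≤ P.T) : p < P.nx κ i j p ∧
    P.al κ i j (P.nx κ i j p) = true := by
  have h := (head_filter (N := P.T + 2) (t := P.T + 1)
    (p := fun q => decide (p < q) && P.al κ i j q) (by omega) (by
      rw [Bool.and_eq_true, decide_eq_true_iff]
      exact ⟨by omega, al_T1 _ _ _⟩)).2
  rw [Bool.and_eq_true, decide_eq_true_iff] at h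
  exact h

theorem nx_le_T1 {κ i j p : ℕ} (hp : p ≤ P.T) : P.nx κ i j p ≤ P.T + 1 :=
  nx_le (by omega) le_rfl (al_T1 _ _ _)

theorem nx_le_T {κ i j p : ℕ} (hp : p < P.T) : P.nx κ i j p ≤ P.T :=
  nx_le hp (by omega) (al_T _ _ _)

theorem T_pos : 0 < P.T := by
  unfold T Q M
  positivity

theorem T_lt : P.T + 1 ≤ P.W := by
  unfold W T
  omega

theorem vx_mid {κ i j p : ℕ} (h1 : 1 ≤ p) (h2 : p ≤ P.T) : P.vx κ i j p = P.cd κ i j p := by
  unfold vx
  rw [if_neg (by omega), if_neg (by omega)]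

theorem vx_zero (κ i j : ℕ) : P.vx κ i j 0 = P.tl κ i j := by
  unfold vx
  rw [if_pos rfl]

theorem vx_T1 (κ i j : ℕ) : P.vx κ i j (P.T + 1) = P.hd κ i j := by
  unfold vx
  rw [if_neg (by omega), if_pos rfl]

end Par

end Pool.Agent.V11230.TD
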