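import Pool.Agent.V11230.TD1

/-!
# Edge deletion to bounded component size: from a deletion set to a grid tiling
-/

set_option autoImplicit false

namespace Pool.Agent.V11230.TD

open Finset

namespace Par

variable {P : Par} (hn : 0 < P.n)

/-- the vertex with the given code -/
def V (x : ℕ) : Fin P.n := ⟨x % P.n, Nat.mod_lt _ hn⟩

theorem V_val {x : ℕ} (hx : x < P.n) : (V hn x).val = x := Nat.mod_eq_of_lt hx

theorem V_inj {x y : ℕ} (hx : x < P.n) (hy : y < P.n) (h : V hn x = V hn y) : x = y := by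
  have := congrArg Fin.val h
  rwa [V_val hn hx, V_val hn hy] at this

theorem tl_lt {κ i j : ℕ} (hA : P.Arc κ i j) : P.tl κ i j < P.n := by
  have hW : 0 < P.W := by unfold W; omega
  unfold tl
  split_ifs
  · exact cd_lt (by omega) hA.2.1 hA.2.2 hW
  · exact cd_lt (by omega) hA.2.1 hA.2.2 hW

theorem hd_lt {κ i j : ℕ} (hA : P.Arc κ i j) : P.hd κ i j < P.n := by
  have hW : 0 < P.W := by unfold W; omega
  unfold hd
  split_ifs
  · exact cd_lt (by omega) hA.2.1 hA.2.2 hW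
  · exact cd_lt (by omega) hA.2.1 (nxt_lt hA.2.2) hW
  · exact cd_lt (by omega) (nxt_lt hA.2.1) hA.2.2 hW

theorem vx_lt {κ i j p : ℕ} (hA : P.Arc κ i j) (hp : p ≤ P.T + 1) : P.vx κ i j p < P.n := by
  unfold vx
  split_ifs
  · exact tl_lt hA
  · exact hd_lt hA
  · exact cd_lt hA.1.2 hA.2.1 hA.2.2 (by have := P.T_lt; omega)

/-- the kinds of the endpoints -/
theorem dk_tl {κ i j : ℕ} (hA : P.Arc κ i j) : P.dk (P.tl κ i j) = if κ = 2 then 0 else 1 := by
  have hW : 0 < P.W := by unfold W; omega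
  unfold tl
  split_ifs
  · exact dk_cd hA.2.1 hA.2.2 hW
  · exact dk_cd hA.2.1 hA.2.2 hW

theorem dk_hd {κ i j : ℕ} (hA : P.Arc κ i j) : P.dk (P.hd κ i j) = if κ = 2 then 1 else 0 := by
  have hW : 0 < P.W := by unfold W; omega
  unfold hd
  split_ifs
  · exact dk_cd hA.2.1 hA.2.2 hW
  · exact dk_cd hA.2.1 (nxt_lt hA.2.2) hW
  · exact dk_cd (nxt_lt hA.2.1) hA.2.2 hW

theorem dk_vx {κ i j p : ℕ} (hA : P.Arc κ i j) (hp : p ≤ P.T + 1) :
    (p = 0 ∧ P.dk (P.vx κ i j p) = if κ = 2 then 0 else 1) ∨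
    (p = P.T + 1 ∧ P.dk (P.vx κ i j p) = if κ = 2 then 1 else 0) ∨
    ((1 ≤ p ∧ p ≤ P.T) ∧ P.dk (P.vx κ i j p) = κ) := by
  by_cases h0 : p = 0
  · subst h0
    left
    rw [vx_zero]
    exact ⟨rfl, dk_tl hA⟩
  by_cases h1 : p = P.T + 1
  · subst h1
    right; left
    rw [vx_T1]
    exact ⟨rfl, dk_hd hA⟩
  · right; right
    rw [vx_mid (by omega) (by omega)]
    exact ⟨⟨by omega, by omega⟩, dk_cd hA.2.1 hA.2.2 (by have := P.T_lt; omega)⟩

theorem vx_same {κ i j p q : ℕ} (hA : P.Arc κ i j) (hp : p ≤ P.T + 1) (hq : q ≤ P.T + 1)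
    (h : P.vx κ i j p = P.vx κ i j q) : p = q := by
  have hκ := hA.1
  rcases dk_vx hA hp with ⟨h1, h2⟩ | ⟨h1, h2⟩ | ⟨h1, h2⟩ <;>
    rcases dk_vx hA hq with ⟨h3, h4⟩ | ⟨h3, h4⟩ | ⟨h3, h4⟩ <;>
    rw [h, h4] at h2
  · omega
  · split_ifs at h2
  · split_ifs at h2 <;> omega
  · split_ifs at h2
  · omega
  · split_ifs at h2 <;> omega
  · split_ifs at h2 <;> omega
  · split_ifs at h2 <;> omega
  · rw [vx_mid h1.1 h1.2, vx_mid h3.1 h3.2] at h
    have hT := P.T_lt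
    exact (cd_inj hA.2.1 hA.2.2 (by omega) hA.2.1 hA.2.2 (by omega) h).2.2.2

theorem vx_diff {κ i j p κ' i' j' q : ℕ} (hA : P.Arc κ i j) (hA' : P.Arc κ' i' j')
    (hp1 : 1 ≤ p) (hp : p ≤ P.T) (hq : q ≤ P.T + 1)
    (h : P.vx κ i j p = P.vx κ' i' j' q) : (κ = κ' ∧ i = i' ∧ j = j') ∧ p = q := by
  have hκ := hA.1
  have hT := P.T_lt
  have h1 : P.dk (P.vx κ i j p) = κ := by
    rw [vx_mid hp1 hp]
    exact dk_cd hA.2.1 hA.2.2 (by omega)
  rcases dk_vx hA' hq with ⟨h3, h4⟩ | ⟨h3, h4⟩ | ⟨h3, h4⟩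
  · rw [h, h4] at h1
    split_ifs at h1 <;> omega
  · rw [h, h4] at h1
    split_ifs at h1 <;> omega
  · rw [vx_mid hp1 hp, vx_mid h3.1 h3.2] at h
    obtain ⟨g1, g2, g3, g4⟩ := cd_inj hA.2.1 hA.2.2 (by omega) hA'.2.1 hA'.2.2 (by omega) h
    exact ⟨⟨g1, g2, g3⟩, g4⟩

/-- the edge with the index `p` of an arc -/
def edge (κ i j p : ℕ) : Sym2 (Fin P.n) :=
  s(V hn (P.vx κ i j p), V hn (P.vx κ i j (P.nx κ i j p)))

theorem edge_inj {κ i j p κ' i' j' q : ℕ} (hA : P.Arc κ i j) (hA' : P.Arc κ' i' j')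
    (hp : p ≤ P.T) (hq : q ≤ P.T) (h : edge hn κ i j p = edge hn κ' i' j' q) :
    (κ = κ' ∧ i = i' ∧ j = j') ∧ p = q := by
  unfold edge at h
  have n1 := nx_spec (P := P) (κ := κ) (i := i) (j := j) hp
  have n2 := nx_spec (P := P) (κ := κ') (i := i') (j := j') hq
  have m1 := nx_le_T1 (P := P) (κ := κ) (i := i) (j := j) hp
  have m2 := nx_le_T1 (P := P) (κ := κ') (i := i') (j := j') hq
  have hT := P.T_pos
  have l1 := vx_lt hA (p := p) (by omega)
  have l2 := vx_lt hA m1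
  have l3 := vx_lt hA' (p := q) (by omega)
  have l4 := vx_lt hA' m2
  rw [Sym2.eq_iff] at h
  rcases h with ⟨h1, h2⟩ | ⟨h1, h2⟩
  · have e1 := V_inj hn l1 l3 h1
    have e2 := V_inj hn l2 l4 h2
    rcases Nat.eq_zero_or_pos p with h0 | h0
    · have h3 : P.nx κ i j p ≤ P.T := nx_le_T (by omega)
      obtain ⟨⟨rfl, rfl, rfl⟩, _⟩ := vx_diff hA hA' (by omega) h3 m2 e2
      exact ⟨⟨rfl, rfl, rfl⟩, vx_same hA (by omega) (by omega) e1⟩
    · exact vx_diff hA hA' h0 hp (by omega) e1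
  · have e1 := V_inj hn l1 l4 h1
    have e2 := V_inj hn l2 l3 h2
    rcases Nat.eq_zero_or_pos p with h0 | h0
    · have h3 : P.nx κ i j p ≤ P.T := nx_le_T (by omega)
      obtain ⟨⟨rfl, rfl, rfl⟩, _⟩ := vx_diff hA hA' (by omega) h3 (by omega) e2
      have h4 := vx_same hA (by omega) (by omega) e1
      omega
    · obtain ⟨⟨rfl, rfl, rfl⟩, h4⟩ := vx_diff hA hA' h0 hp m2 e1
      have h5 := vx_same hA (by omega) (by omega) e2
      omega

theorem adj_arc {κ i j p : ℕ} (hA : P.Arc κ i j) (hp : p ≤ P.T) :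
    (LG P.n P.L).Adj (V hn (P.vx κ i j p)) (V hn (P.vx κ i j (P.nx κ i j p))) := by
  have n1 := nx_spec (P := P) (κ := κ) (i := i) (j := j) hp
  have m1 := nx_le_T1 (P := P) (κ := κ) (i := i) (j := j) hp
  have l1 := vx_lt hA (p := p) (by omega)
  have l2 := vx_lt hA m1
  refine ⟨fun h => ?_, Or.inl ?_⟩
  · have h1 := vx_same hA (by omega) (by omega) (V_inj hn l1 l2 h)
    omega
  · rw [V_val hn l1, V_val hn l2]
    exact mem_L.2 ⟨i, hA.2.1, j, hA.2.2, Or.inr (Or.inr ⟨κ, hA.1, p, hp, rfl, rfl⟩)⟩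

theorem adj_leaf0 {i j s : ℕ} (hi : i < P.t) (hj : j < P.t) (h1 : 1 ≤ s)
    (hs : s ≤ P.Q + 2 * P.K) :
    (LG P.n P.L).Adj (V hn (P.cd 0 i j 0)) (V hn (P.cd 0 i j s)) := by
  have hW : P.Q + 2 * P.K < P.W := by unfold W; omega
  have l1 := cd_lt (P := P) (κ := 0) (by omega) hi hj (s := 0) (by omega)
  have l2 := cd_lt (P := P) (κ := 0) (by omega) hi hj (s := s) (by omega)
  refine ⟨fun h => ?_, Or.inl ?_⟩
  · have h1 := (cd_inj hi hj (by omega) hi hj (by omega) (V_inj hn l1 l2 h)).2.2.2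
    omega
  · rw [V_val hn l1, V_val hn l2]
    refine mem_L.2 ⟨i, hi, j, hj, Or.inl ⟨s - 1, by omega, rfl, ?_⟩⟩
    rw [Nat.sub_add_cancel h1]

theorem adj_leaf1 {i j s : ℕ} (hi : i < P.t) (hj : j < P.t) (h1 : 1 ≤ s)
    (hs : s ≤ 5 * P.Q + 2 * P.K) :
    (LG P.n P.L).Adj (V hn (P.cd 1 i j 0)) (V hn (P.cd 1 i j s)) := by
  have hW : 5 * P.Q + 2 * P.K < P.W := by unfold W; omega
  have l1 := cd_lt (P := P) (κ := 1) (by omega) hi hj (s := 0) (by omega)
  have l2 := cd_lt (P := P) (κ := 1) (by omega) hi hj (s := s) (by omega)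
  refine ⟨fun h => ?_, Or.inl ?_⟩
  · have h1 := (cd_inj hi hj (by omega) hi hj (by omega) (V_inj hn l1 l2 h)).2.2.2
    omega
  · rw [V_val hn l1, V_val hn l2]
    refine mem_L.2 ⟨i, hi, j, hj, Or.inr (Or.inl ⟨s - 1, by omega, rfl, ?_⟩)⟩
    rw [Nat.sub_add_cancel h1]

variable {F : Finset (Sym2 (Fin P.n))}

/-- going up an arc -/
theorem reach_up {κ i j : ℕ} (hA : P.Arc κ i j) : ∀ (d p q : ℕ), q - p ≤ d → p ≤ q →
    q ≤ P.T + 1 → P.al κ i j q = true →
    (∀ r, p ≤ r → r < q → (r = p ∨ P.al κ i j r = true) → edge hn κ i j r ∉ F) →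
      ((LG P.n P.L).deleteEdges F).Reachable (V hn (P.vx κ i j p)) (V hn (P.vx κ i j q)) := by
  intro d
  induction d with
  | zero =>
    intro p q h1 h2 _ _ _
    have : p = q := by omega
    rw [this]
  | succ d ih =>
    intro p q h1 h2 h3 h4 h5
    rcases Nat.eq_or_lt_of_le h2 with h6 | h6
    · rw [h6]
    · have hp : p ≤ P.T := by omega
      have n1 := nx_spec (P := P) (κ := κ) (i := i) (j := j) hp
      have n2 := nx_le h6 h3 h4
      refine SimpleGraph.Reachable.trans (SimpleGraph.Adj.reachable ?_)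
        (ih (P.nx κ i j p) q (by omega) n2 h3 h4 ?_)
      · rw [SimpleGraph.deleteEdges_adj]
        exact ⟨adj_arc hn hA hp, h5 p le_rfl h6 (Or.inl rfl)⟩
      · intro r hr1 hr2 hr3
        refine h5 r (by omega) hr2 (Or.inr ?_)
        rcases hr3 with rfl | hr3
        · exact n1.2
        · exact hr3

/-- few leaves of a hub are outside of a component that contains the centre -/
theorem hub_big {G : SimpleGraph (Fin P.n)} {c : Fin P.n} {X : Finset (Fin P.n)}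
    {C : Set (Fin P.n)} (hX : ∀ v ∈ X, v = c ∨ G.Adj c v) (hc : c ∈ C)
    (hC : ∀ v, (G.deleteEdges F).Adj c v → v ∈ C) :
    ∃ Y ⊆ X, (∀ v ∈ Y, v ∈ C) ∧ X.card ≤ F.card + Y.card := by
  classical
  refine ⟨X.filter (fun v => v ∈ C), filter_subset _ _, fun v hv => (mem_filter.1 hv).2, ?_⟩
  rw [← card_filter_add_card_filter_not (s := X) (fun v => v ∈ C), add_comm]
  refine Nat.add_le_add_right ?_ _
  refine card_le_card_of_injOn (fun v => s(c, v)) ?_ ?_
  · intro v hv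
    rw [mem_coe, mem_filter] at hv
    rcases hX v hv.1 with h | h
    · exact absurd (h ▸ hc) hv.2
    · by_contra hF
      refine hv.2 (hC v ?_)
      rw [SimpleGraph.deleteEdges_adj]
      exact ⟨h, hF⟩
  · intro v _ w _ h
    exact Sym2.congr_right.1 h

/-- a set of the vertices of one kind -/
def blk (κ i j : ℕ) (A : Finset ℕ) : Finset (Fin P.n) := A.image (fun s => V hn (P.cd κ i j s))

theorem card_blk {κ i j : ℕ} {A : Finset ℕ} (hκ : κ < 5) (hi : i < P.t) (hj : j < P.t)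
    (hA : ∀ s ∈ A, s < P.W) : (blk hn κ i j A).card = A.card := by
  unfold blk
  refine card_image_of_injOn ?_
  intro s hs s' hs' h
  exact (cd_inj hi hj (hA s hs) hi hj (hA s' hs') (V_inj hn (cd_lt hκ hi hj (hA s hs))
    (cd_lt hκ hi hj (hA s' hs')) h)).2.2.2

theorem dk_blk {κ i j : ℕ} {A : Finset ℕ} (hκ : κ < 5) (hi : i < P.t) (hj : j < P.t)
    (hA : ∀ s ∈ A, s < P.W) {v : Fin P.n} (hv : v ∈ blk hn κ i j A) : P.dk v.val = κ := by
  unfold blk at hv
  rw [mem_image] at hv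
  obtain ⟨s, hs, rfl⟩ := hv
  rw [V_val hn (cd_lt hκ hi hj (hA s hs))]
  exact dk_cd hi hj (hA s hs)

theorem card_two {α : Type} [DecidableEq α] {A B : Finset α} (k : α → ℕ) {a b : ℕ} (hab : a ≠ b)
    (hA : ∀ v ∈ A, k v = a) (hB : ∀ v ∈ B, k v = b) : A.card + B.card = (A ∪ B).card := by
  refine (card_union_of_disjoint ?_).symm
  rw [disjoint_left]
  intro v h1 h2
  exact hab ((hA v h1).symm.trans (hB v h2))

theorem four_le {α : Type} [Finite α] {A B C D : Finset α} {S : Set α} (k : α → ℕ)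
    {a b c d : ℕ} (h : (a ≠ b ∧ a ≠ c ∧ a ≠ d) ∧ (b ≠ c ∧ b ≠ d) ∧ c ≠ d)
    (hA : ∀ v ∈ A, k v = a) (hB : ∀ v ∈ B, k v = b) (hC : ∀ v ∈ C, k v = c)
    (hD : ∀ v ∈ D, k v = d) (sA : ∀ v ∈ A, v ∈ S) (sB : ∀ v ∈ B, v ∈ S) (sC : ∀ v ∈ C, v ∈ S)
    (sD : ∀ v ∈ D, v ∈ S) : A.card + B.card + C.card + D.card ≤ S.ncard := by
  classical
  have d1 : Disjoint A B := disjoint_left.2 fun v h1 h2 =>
    h.1.1 ((hA v h1).symm.trans (hB v h2))
  have d2 : Disjoint (A ∪ B) C := disjoint_left.2 fun v h1 h2 => by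
    rcases mem_union.1 h1 with h1 | h1
    · exact h.1.2.1 ((hA v h1).symm.trans (hC v h2))
    · exact h.2.1.1 ((hB v h1).symm.trans (hC v h2))
  have d3 : Disjoint (A ∪ B ∪ C) D := disjoint_left.2 fun v h1 h2 => by
    rcases mem_union.1 h1 with h1 | h1
    · rcases mem_union.1 h1 with h1 | h1
      · exact h.1.2.2 ((hA v h1).symm.trans (hD v h2))
      · exact h.2.1.2 ((hB v h1).symm.trans (hD v h2))
    · exact h.2.2 ((hC v h1).symm.trans (hD v h2))
  rw [← card_union_of_disjoint d1, ← card_union_of_disjoint d2, ← card_union_of_disjoint d3,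
    ← Set.ncard_coe_finset]
  refine Set.ncard_le_ncard ?_ (Set.toFinite _)
  intro v hv
  rw [mem_coe, mem_union, mem_union, mem_union] at hv
  rcases hv with ((hv | hv) | hv) | hv
  · exact sA v hv
  · exact sB v hv
  · exact sC v hv
  · exact sD v hv

/-- two hubs are not in the same component -/
theorem hubs_sep (hF : F.card ≤ P.K)
    (hc : ∀ v, {w | ((LG P.n P.L).deleteEdges F).Reachable v w}.ncard ≤ P.h)
    {i0 j0 i1 j1 : ℕ} (hi0 : i0 < P.t) (hj0 : j0 < P.t) (hi1 : i1 < P.t) (hj1 : j1 < P.t) :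
    ¬ ((LG P.n P.L).deleteEdges F).Reachable (V hn (P.cd 0 i0 j0 0)) (V hn (P.cd 1 i1 j1 0)) := by
  classical
  intro hr
  set C := {w | ((LG P.n P.L).deleteEdges F).Reachable (V hn (P.cd 0 i0 j0 0)) w} with hC
  have hCh : C.ncard ≤ P.h := hc (V hn (P.cd 0 i0 j0 0))
  have hW : P.Q + 2 * P.K + 1 ≤ P.W ∧ 5 * P.Q + 2 * P.K + 1 ≤ P.W := by unfold W; omega
  have w0 : ∀ s ∈ range (P.Q + 2 * P.K + 1), s < P.W := fun s hs => by
    have := mem_range.1 hs
    omega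
  have w1 : ∀ s ∈ range (5 * P.Q + 2 * P.K + 1), s < P.W := fun s hs => by
    have := mem_range.1 hs
    omega
  obtain ⟨Y0, hY0, hY0C, c0⟩ := hub_big (F := F) (G := LG P.n P.L) (c := V hn (P.cd 0 i0 j0 0))
    (X := blk hn 0 i0 j0 (range (P.Q + 2 * P.K + 1))) (C := C) (by
      intro v hv
      unfold blk at hv
      rw [mem_image] at hv
      obtain ⟨s, hs, rfl⟩ := hv
      have := mem_range.1 hs
      rcases Nat.eq_zero_or_pos s with h | h
      · left
        rw [h]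
      · exact Or.inr (adj_leaf0 hn hi0 hj0 h (by omega)))
    (SimpleGraph.Reachable.refl _) (fun v hv => hv.reachable)
  obtain ⟨Y1, hY1, hY1C, c1⟩ := hub_big (F := F) (G := LG P.n P.L) (c := V hn (P.cd 1 i1 j1 0))
    (X := blk hn 1 i1 j1 (range (5 * P.Q + 2 * P.K + 1))) (C := C) (by
      intro v hv
      unfold blk at hv
      rw [mem_image] at hv
      obtain ⟨s, hs, rfl⟩ := hv
      have := mem_range.1 hs
      rcases Nat.eq_zero_or_pos s with h | h
      · left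
        rw [h]
      · exact Or.inr (adj_leaf1 hn hi1 hj1 h (by omega)))
    hr (fun v hv => hr.trans hv.reachable)
  rw [card_blk hn (by omega) hi0 hj0 w0, card_range] at c0
  rw [card_blk hn (by omega) hi1 hj1 w1, card_range] at c1
  have h4 := four_le (A := Y0) (B := Y1) (C := ∅) (D := ∅) (S := C)
    (fun v : Fin P.n => P.dk v.val) (a := 0) (b := 1) (c := 2) (d := 3) (by omega)
    (fun v hv => dk_blk hn (by omega) hi0 hj0 w0 (hY0 hv))
    (fun v hv => dk_blk hn (by omega) hi1 hj1 w1 (hY1 hv)) (by simp) (by simp) hY0C hY1C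
    (by simp) (by simp)
  rw [card_empty] at h4
  unfold h at hCh
  omega

/-- every arc has a deleted edge -/
theorem cut_exists (hF : F.card ≤ P.K)
    (hc : ∀ v, {w | ((LG P.n P.L).deleteEdges F).Reachable v w}.ncard ≤ P.h)
    {κ i j : ℕ} (hA : P.Arc κ i j) :
    ∃ s ≤ P.T, P.al κ i j s = true ∧ edge hn κ i j s ∈ F := by
  by_contra hcon
  have hr := reach_up (F := F) hn hA (P.T + 1) 0 (P.T + 1) (by omega) (by omega) le_rfl
    (al_T1 _ _ _) (by
      intro r _ hr1 hr2 hr3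
      refine hcon ⟨r, by omega, ?_, hr3⟩
      rcases hr2 with rfl | hr2
      · exact al_zero _ _ _
      · exact hr2)
  rw [vx_zero, vx_T1] at hr
  unfold tl hd at hr
  have hκ := hA.1
  split_ifs at hr
  · exact hubs_sep hn hF hc hA.2.1 hA.2.2 hA.2.1 hA.2.2 hr
  · exact hubs_sep hn hF hc hA.2.1 (nxt_lt hA.2.2) hA.2.1 hA.2.2 hr.symm
  · exact hubs_sep hn hF hc (nxt_lt hA.2.1) hA.2.2 hA.2.1 hA.2.2 hr.symm

/-- the indices of the arcs -/
def arcs (P : Par) : Finset (ℕ × ℕ × ℕ) := ({2, 3, 4} : Finset ℕ) ×ˢ (range P.t ×ˢ range P.t)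

theorem card_arcs (P : Par) : P.arcs.card = P.K := by
  unfold arcs K
  rw [card_product, card_product, card_range]
  rfl

theorem mem_arcs {e : ℕ × ℕ × ℕ} : e ∈ P.arcs ↔ P.Arc e.1 e.2.1 e.2.2 := by
  unfold arcs Arc
  rw [mem_product, mem_product, mem_range, mem_range, mem_insert, mem_insert, mem_singleton]
  constructor
  · rintro ⟨h1, h2⟩
    exact ⟨by omega, h2⟩
  · rintro ⟨h1, h2⟩
    exact ⟨by omega, h2⟩

theorem back_image (hF : F.card ≤ P.K) {S : ℕ → ℕ → ℕ → ℕ}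
    (hS : ∀ κ i j, P.Arc κ i j → S κ i j ≤ P.T ∧ P.al κ i j (S κ i j) = true ∧
      edge hn κ i j (S κ i j) ∈ F) :
    P.arcs.image (fun e => edge hn e.1 e.2.1 e.2.2 (S e.1 e.2.1 e.2.2)) = F := by
  refine eq_of_subset_of_card_le ?_ ?_
  · intro x hx
    rw [mem_image] at hx
    obtain ⟨e, he, rfl⟩ := hx
    exact (hS _ _ _ (mem_arcs.1 he)).2.2
  · rw [card_image_of_injOn, card_arcs]
    · exact hF
    · rintro ⟨a, b, c⟩ he ⟨a', b', c'⟩ he' h
      have h1 := mem_arcs.1 he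
      have h2 := mem_arcs.1 he'
      obtain ⟨⟨g1, g2, g3⟩, _⟩ := edge_inj hn h1 h2 (hS _ _ _ h1).1 (hS _ _ _ h2).1 h
      change a = a' at g1
      change b = b' at g2
      change c = c' at g3
      rw [g1, g2, g3]

end Par

end Pool.Agent.V11230.TD
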