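import Pool.Agent.V11230.TD2

/-!
# Edge deletion to bounded component size: from a deletion set to a grid tiling, conclusion
-/

set_option autoImplicit false

namespace Pool.Agent.V11230.TD

open Finset

namespace Par

variable {P : Par} (hn : 0 < P.n) {F : Finset (Sym2 (Fin P.n))}

/-- a leaf is not on an arc -/
theorem leaf_ne {a κ i j s κ' i' j' p : ℕ} (hA : P.Arc κ' i' j') (hκ : κ < 2) (hi : i < P.t)
    (hj : j < P.t) (hs1 : 1 ≤ s) (hs : s < P.W) (hp : p ≤ P.T) :
    s(V hn a, V hn (P.cd κ i j s)) ≠ edge hn κ' i' j' p := by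
  have key : ∀ q ≤ P.T + 1, V hn (P.cd κ i j s) ≠ V hn (P.vx κ' i' j' q) := by
    intro q hq h
    have hW : 0 < P.W := by omega
    have h1 := V_inj hn (cd_lt (by omega) hi hj hs) (vx_lt hA hq) h
    have hκ' := hA.1
    have hT := P.T_lt
    unfold vx at h1
    split_ifs at h1
    · unfold tl at h1
      split_ifs at h1
      · have := (cd_inj hi hj hs hA.2.1 hA.2.2 hW h1).2.2.2
        omega
      · have := (cd_inj hi hj hs hA.2.1 hA.2.2 hW h1).2.2.2
        omega
    · unfold hd at h1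
      split_ifs at h1
      · have := (cd_inj hi hj hs hA.2.1 hA.2.2 hW h1).2.2.2
        omega
      · have := (cd_inj hi hj hs hA.2.1 (nxt_lt hA.2.2) hW h1).2.2.2
        omega
      · have := (cd_inj hi hj hs (nxt_lt hA.2.1) hA.2.2 hW h1).2.2.2
        omega
    · have := (cd_inj hi hj hs hA.2.1 hA.2.2 (by omega) h1).1
      omega
  intro h
  unfold edge at h
  rw [Sym2.eq_iff] at h
  rcases h with ⟨_, h⟩ | ⟨_, h⟩
  · exact key _ (nx_le_T1 hp) h
  · exact key _ (by omega) h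

section
variable {S : ℕ → ℕ → ℕ → ℕ}
  (hS : ∀ κ i j, P.Arc κ i j → S κ i j ≤ P.T ∧ P.al κ i j (S κ i j) = true ∧
      edge hn κ i j (S κ i j) ∈ F)
  (himg : P.arcs.image (fun e => edge hn e.1 e.2.1 e.2.2 (S e.1 e.2.1 e.2.2)) = F)
include hS himg

theorem notMem_F {κ i j p : ℕ} (hA : P.Arc κ i j) (hp : p ≤ P.T) (hne : p ≠ S κ i j) :
    edge hn κ i j p ∉ F := by
  intro h
  rw [← himg, mem_image] at h
  obtain ⟨e, he, h⟩ := h
  have h1 := mem_arcs.1 he
  obtain ⟨⟨g1, g2, g3⟩, g4⟩ := edge_inj hn h1 hA (hS _ _ _ h1).1 hp h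
  rw [g1, g2, g3] at g4
  exact hne g4.symm

theorem reach_down {κ i j p : ℕ} (hA : P.Arc κ i j) (hp : p ≤ S κ i j) :
    ((LG P.n P.L).deleteEdges F).Reachable (V hn (P.vx κ i j 0)) (V hn (P.vx κ i j p)) := by
  have h := hS κ i j hA
  refine SimpleGraph.Reachable.trans (reach_up (F := F) hn hA (S κ i j) 0 (S κ i j) (by omega)
    (by omega) (by omega) h.2.1 ?_) (reach_up (F := F) hn hA (S κ i j) p (S κ i j) (by omega)
    hp (by omega) h.2.1 ?_).symm
  · intro r _ hr _
    exact notMem_F hn hS himg hA (by omega) (by omega)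
  · intro r _ hr _
    exact notMem_F hn hS himg hA (by omega) (by omega)

theorem reach_head {κ i j p : ℕ} (hA : P.Arc κ i j) (hp : S κ i j < p) (hp' : p ≤ P.T + 1) :
    ((LG P.n P.L).deleteEdges F).Reachable (V hn (P.vx κ i j (P.T + 1)))
      (V hn (P.vx κ i j p)) := by
  refine (reach_up (F := F) hn hA (P.T + 1) p (P.T + 1) (by omega) hp' le_rfl
    (al_T1 _ _ _) ?_).symm
  intro r hr1 hr2 _
  exact notMem_F hn hS himg hA (by omega) (by omega)

theorem reach_leaf0 {i j s : ℕ} (hi : i < P.t) (hj : j < P.t) (hs : s ≤ P.Q + 2 * P.K) :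
    ((LG P.n P.L).deleteEdges F).Reachable (V hn (P.cd 0 i j 0)) (V hn (P.cd 0 i j s)) := by
  rcases Nat.eq_zero_or_pos s with h | h
  · rw [h]
  · refine SimpleGraph.Adj.reachable ?_
    rw [SimpleGraph.deleteEdges_adj]
    refine ⟨adj_leaf0 hn hi hj h hs, fun hF => ?_⟩
    rw [mem_coe, ← himg, mem_image] at hF
    obtain ⟨e, he, hF⟩ := hF
    have h1 := mem_arcs.1 he
    exact leaf_ne hn h1 (by omega) hi hj h (by unfold W; omega) (hS _ _ _ h1).1 hF.symm

theorem reach_leaf1 {i j s : ℕ} (hi : i < P.t) (hj : j < P.t) (hs : s ≤ 5 * P.Q + 2 * P.K) :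
    ((LG P.n P.L).deleteEdges F).Reachable (V hn (P.cd 1 i j 0)) (V hn (P.cd 1 i j s)) := by
  rcases Nat.eq_zero_or_pos s with h | h
  · rw [h]
  · refine SimpleGraph.Adj.reachable ?_
    rw [SimpleGraph.deleteEdges_adj]
    refine ⟨adj_leaf1 hn hi hj h hs, fun hF => ?_⟩
    rw [mem_coe, ← himg, mem_image] at hF
    obtain ⟨e, he, hF⟩ := hF
    have h1 := mem_arcs.1 he
    exact leaf_ne hn h1 (by omega) hi hj h (by unfold W; omega) (hS _ _ _ h1).1 hF.symm

/-- the inequality at the first hub of a cell -/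
theorem ineq0 (hc : ∀ v, {w | ((LG P.n P.L).deleteEdges F).Reachable v w}.ncard ≤ P.h)
    {i j : ℕ} (hi : i < P.t) (hj : j < P.t) :
    S 2 i j ≤ P.Q + S 3 i (P.prv j) + S 4 (P.prv i) j := by
  have a2 : P.Arc 2 i j := ⟨by omega, hi, hj⟩
  have a3 : P.Arc 3 i (P.prv j) := ⟨by omega, hi, prv_lt hj⟩
  have a4 : P.Arc 4 (P.prv i) j := ⟨by omega, prv_lt hi, hj⟩
  have s2 := (hS _ _ _ a2).1
  have s3 := (hS _ _ _ a3).1
  have s4 := (hS _ _ _ a4).1
  have hTW := P.T_lt
  have hW : P.Q + 2 * P.K + 1 ≤ P.W := by unfold W; omega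
  have w0 : ∀ s ∈ range (P.Q + 2 * P.K + 1), s < P.W := fun s hs => by
    have := mem_range.1 hs
    omega
  have w2 : ∀ s ∈ Ioc 0 (S 2 i j), s < P.W := fun s hs => by
    have := mem_Ioc.1 hs
    omega
  have w3 : ∀ s ∈ Ioc (S 3 i (P.prv j)) P.T, s < P.W := fun s hs => by
    have := mem_Ioc.1 hs
    omega
  have w4 : ∀ s ∈ Ioc (S 4 (P.prv i) j) P.T, s < P.W := fun s hs => by
    have := mem_Ioc.1 hs
    omega
  have h := four_le (S := {w | ((LG P.n P.L).deleteEdges F).Reachable (V hn (P.cd 0 i j 0)) w})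
    (A := blk hn 0 i j (range (P.Q + 2 * P.K + 1))) (B := blk hn 2 i j (Ioc 0 (S 2 i j)))
    (C := blk hn 3 i (P.prv j) (Ioc (S 3 i (P.prv j)) P.T))
    (D := blk hn 4 (P.prv i) j (Ioc (S 4 (P.prv i) j) P.T))
    (fun v : Fin P.n => P.dk v.val) (a := 0) (b := 2) (c := 3) (d := 4) (by omega)
    (fun v hv => dk_blk hn (by omega) hi hj w0 hv)
    (fun v hv => dk_blk hn (by omega) hi hj w2 hv)
    (fun v hv => dk_blk hn (by omega) hi (prv_lt hj) w3 hv)
    (fun v hv => dk_blk hn (by omega) (prv_lt hi) hj w4 hv)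
    (by
      intro v hv
      unfold blk at hv
      rw [mem_image] at hv
      obtain ⟨s, hs, rfl⟩ := hv
      have := mem_range.1 hs
      exact reach_leaf0 hn hS himg hi hj (by omega))
    (by
      intro v hv
      unfold blk at hv
      rw [mem_image] at hv
      obtain ⟨s, hs, rfl⟩ := hv
      have h1 := mem_Ioc.1 hs
      have h2 := reach_down hn hS himg a2 h1.2
      rw [vx_zero, vx_mid (by omega) (by omega)] at h2
      exact h2)
    (by
      intro v hv
      unfold blk at hv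
      rw [mem_image] at hv
      obtain ⟨s, hs, rfl⟩ := hv
      have h1 := mem_Ioc.1 hs
      have h2 := reach_head hn hS himg a3 h1.1 (by omega)
      rw [vx_T1, vx_mid (by omega) (by omega)] at h2
      unfold hd at h2
      rw [if_neg (by omega), if_pos rfl, nxt_prv hj] at h2
      exact h2)
    (by
      intro v hv
      unfold blk at hv
      rw [mem_image] at hv
      obtain ⟨s, hs, rfl⟩ := hv
      have h1 := mem_Ioc.1 hs
      have h2 := reach_head hn hS himg a4 h1.1 (by omega)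
      rw [vx_T1, vx_mid (by omega) (by omega)] at h2
      unfold hd at h2
      rw [if_neg (by omega), if_neg (by omega), nxt_prv hi] at h2
      exact h2)
  rw [card_blk hn (by omega) hi hj w0, card_blk hn (by omega) hi hj w2,
    card_blk hn (by omega) hi (prv_lt hj) w3, card_blk hn (by omega) (prv_lt hi) hj w4,
    card_range, Nat.card_Ioc, Nat.card_Ioc, Nat.card_Ioc] at h
  have h5 := h.trans (hc _)
  unfold Par.h at h5
  unfold T at h5 s2 s3 s4
  omega

/-- the inequality at the second hub of a cell -/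
theorem ineq1 (hc : ∀ v, {w | ((LG P.n P.L).deleteEdges F).Reachable v w}.ncard ≤ P.h)
    {i j : ℕ} (hi : i < P.t) (hj : j < P.t) :
    S 3 i j + S 4 i j + P.Q ≤ S 2 i j := by
  have a2 : P.Arc 2 i j := ⟨by omega, hi, hj⟩
  have a3 : P.Arc 3 i j := ⟨by omega, hi, hj⟩
  have a4 : P.Arc 4 i j := ⟨by omega, hi, hj⟩
  have s2 := (hS _ _ _ a2).1
  have s3 := (hS _ _ _ a3).1
  have s4 := (hS _ _ _ a4).1
  have hTW := P.T_lt
  have hW : 5 * P.Q + 2 * P.K + 1 ≤ P.W := by unfold W; omega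
  have w0 : ∀ s ∈ range (5 * P.Q + 2 * P.K + 1), s < P.W := fun s hs => by
    have := mem_range.1 hs
    omega
  have w2 : ∀ s ∈ Ioc (S 2 i j) P.T, s < P.W := fun s hs => by
    have := mem_Ioc.1 hs
    omega
  have w3 : ∀ s ∈ Ioc 0 (S 3 i j), s < P.W := fun s hs => by
    have := mem_Ioc.1 hs
    omega
  have w4 : ∀ s ∈ Ioc 0 (S 4 i j), s < P.W := fun s hs => by
    have := mem_Ioc.1 hs
    omega
  have h := four_le (S := {w | ((LG P.n P.L).deleteEdges F).Reachable (V hn (P.cd 1 i j 0)) w})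
    (A := blk hn 1 i j (range (5 * P.Q + 2 * P.K + 1))) (B := blk hn 2 i j (Ioc (S 2 i j) P.T))
    (C := blk hn 3 i j (Ioc 0 (S 3 i j))) (D := blk hn 4 i j (Ioc 0 (S 4 i j)))
    (fun v : Fin P.n => P.dk v.val) (a := 1) (b := 2) (c := 3) (d := 4) (by omega)
    (fun v hv => dk_blk hn (by omega) hi hj w0 hv)
    (fun v hv => dk_blk hn (by omega) hi hj w2 hv)
    (fun v hv => dk_blk hn (by omega) hi hj w3 hv)
    (fun v hv => dk_blk hn (by omega) hi hj w4 hv)
    (by
      intro v hv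
      unfold blk at hv
      rw [mem_image] at hv
      obtain ⟨s, hs, rfl⟩ := hv
      have := mem_range.1 hs
      exact reach_leaf1 hn hS himg hi hj (by omega))
    (by
      intro v hv
      unfold blk at hv
      rw [mem_image] at hv
      obtain ⟨s, hs, rfl⟩ := hv
      have h1 := mem_Ioc.1 hs
      have h2 := reach_head hn hS himg a2 h1.1 (by omega)
      rw [vx_T1, vx_mid (by omega) (by omega)] at h2
      unfold hd at h2
      rw [if_pos rfl] at h2
      exact h2)
    (by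
      intro v hv
      unfold blk at hv
      rw [mem_image] at hv
      obtain ⟨s, hs, rfl⟩ := hv
      have h1 := mem_Ioc.1 hs
      have h2 := reach_down hn hS himg a3 h1.2
      rw [vx_zero, vx_mid (by omega) (by omega)] at h2
      unfold tl at h2
      rw [if_neg (by omega)] at h2
      exact h2)
    (by
      intro v hv
      unfold blk at hv
      rw [mem_image] at hv
      obtain ⟨s, hs, rfl⟩ := hv
      have h1 := mem_Ioc.1 hs
      have h2 := reach_down hn hS himg a4 h1.2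
      rw [vx_zero, vx_mid (by omega) (by omega)] at h2
      unfold tl at h2
      rw [if_neg (by omega)] at h2
      exact h2)
  rw [card_blk hn (by omega) hi hj w0, card_blk hn (by omega) hi hj w2,
    card_blk hn (by omega) hi hj w3, card_blk hn (by omega) hi hj w4,
    card_range, Nat.card_Ioc, Nat.card_Ioc, Nat.card_Ioc] at h
  have h5 := h.trans (hc _)
  unfold Par.h at h5
  unfold T at h5 s2 s3 s4
  omega

end

/-- the grid tiling instance has a solution -/
def GT (P : Par) : Prop := ∃ a b : ℕ → ℕ, ∀ i < P.t, ∀ j < P.t,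
  (1 ≤ a i ∧ a i ≤ P.N) ∧ (1 ≤ b j ∧ b j ≤ P.N) ∧ P.R i j (a i) (b j) = true

/-- the meaning of the values -/
theorem dec_xy {i j i3 j3 i4 j4 x y z : ℕ} (hx : x ≤ P.T) (hy : y ≤ P.T) (hz : z ≤ P.T)
    (ax : P.al 3 i3 j3 x = true) (ay : P.al 4 i4 j4 y = true) (az : P.al 2 i j z = true)
    (h : z = P.Q + x + y) : (1 ≤ x ∧ x ≤ P.N) ∧ (1 ≤ y / P.M ∧ y / P.M ≤ P.N) ∧
      P.R i j x (y / P.M) = true ∧ x = (z - P.Q) % P.M ∧ y = (z - P.Q) - x := by
  have hM : 0 < P.M := by unfold M; omega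
  have hQ : 0 < P.Q := by unfold Q; positivity
  have hMN : P.M = P.N + 1 := rfl
  have hT : P.T = 2 * P.Q := rfl
  unfold al at ax ay az
  simp only [Bool.or_eq_true, decide_eq_true_eq] at ax ay az
  rw [if_neg (by omega : ¬ (3 : ℕ) = 2), if_pos trivial, decide_eq_true_iff] at ax
  rw [if_neg (by omega : ¬ (4 : ℕ) = 2), if_neg (by omega : ¬ (4 : ℕ) = 3), Bool.and_eq_true,
    decide_eq_true_iff, decide_eq_true_iff] at ay
  rw [if_pos trivial] at az
  simp only [Bool.and_eq_true, decide_eq_true_eq] at az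
  have hxN : x ≤ P.N := by omega
  have hy' : y % P.M = 0 ∧ y < P.Q := by
    rcases ay with (rfl | ay) | ay
    · exact ⟨Nat.zero_mod _, hQ⟩
    · omega
    · exact ay
  obtain ⟨c, rfl⟩ := Nat.dvd_of_mod_eq_zero hy'.1
  have hcM : c < P.M := by
    have h2 : P.M * c < P.M * P.M := hy'.2
    exact Nat.lt_of_mul_lt_mul_left h2
  have e0 : z - P.Q = c * P.M + x := by
    rw [h, mul_comm]
    omega
  have e1 : (z - P.Q) % P.M = x := by
    rw [e0]
    exact mul_add_mod (by omega)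
  have e2 : (z - P.Q) / P.M = c := by
    rw [e0]
    exact mul_add_div (by omega)
  have e3 : P.M * c / P.M = c := Nat.mul_div_cancel_left _ hM
  have e4 : c * P.M + x < P.M * P.M := mul_add_lt hcM (by omega)
  have e5 : P.M * P.M = P.Q := rfl
  rw [e1, e2] at az
  rw [e3]
  refine ⟨?_, ?_, ?_, e1.symm, ?_⟩
  · rcases az with (az | az) | az <;> omega
  · rcases az with (az | az) | az <;> omega
  · rcases az with (az | az) | az
    · omega
    · omega
    · exact az.2.2.2.2
  · rw [e0, mul_comm]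
    omega

/-- **From a deletion set to a grid tiling.** -/
theorem back (ht : 0 < P.t) (h : TFree (LG P.n P.L) P.K P.h) : GT P := by
  obtain ⟨F, _, hF, hc⟩ := h
  have hn : 0 < P.n := by
    unfold n W
    positivity
  have hex : ∀ κ i j, ∃ s, P.Arc κ i j → s ≤ P.T ∧ P.al κ i j s = true ∧
      edge hn κ i j s ∈ F := by
    intro κ i j
    by_cases hA : P.Arc κ i j
    · obtain ⟨s, h1, h2, h3⟩ := cut_exists hn hF hc hA
      exact ⟨s, fun _ => ⟨h1, h2, h3⟩⟩
    · exact ⟨0, fun h => absurd h hA⟩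
  choose S hS using hex
  have himg := back_image hn hF hS
  have a2 : ∀ {i j}, i < P.t → j < P.t → P.Arc 2 i j := fun hi hj => ⟨by omega, hi, hj⟩
  have a3 : ∀ {i j}, i < P.t → j < P.t → P.Arc 3 i j := fun hi hj => ⟨by omega, hi, hj⟩
  have a4 : ∀ {i j}, i < P.t → j < P.t → P.Arc 4 i j := fun hi hj => ⟨by omega, hi, hj⟩
  have i0 : ∀ i < P.t, ∀ j < P.t, S 2 i j ≤ P.Q + S 3 i (P.prv j) + S 4 (P.prv i) j :=
    fun i hi j hj => ineq0 hn hS himg hc hi hj
  have i1 : ∀ i < P.t, ∀ j < P.t, S 3 i j + S 4 i j + P.Q ≤ S 2 i j :=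
    fun i hi j hj => ineq1 hn hS himg hc hi hj
  have hsum : ∑ i ∈ range P.t, ∑ j ∈ range P.t, (S 3 i (P.prv j) + S 4 (P.prv i) j) =
      ∑ i ∈ range P.t, ∑ j ∈ range P.t, (S 3 i j + S 4 i j) := by
    simp only [sum_add_distrib]
    congr 1
    · exact sum_congr rfl fun i _ => sum_prv (fun j => S 3 i j)
    · exact sum_prv (fun i => ∑ j ∈ range P.t, S 4 i j)
  have heq : ∀ i < P.t, ∀ j < P.t, S 3 i j + S 4 i j = S 3 i (P.prv j) + S 4 (P.prv i) j := by
    have h1 : ∀ i ∈ range P.t, ∑ j ∈ range P.t, (S 3 i j + S 4 i j) ≤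
        ∑ j ∈ range P.t, (S 3 i (P.prv j) + S 4 (P.prv i) j) := by
      intro i hi
      refine sum_le_sum fun j hj => ?_
      have h2 := i0 i (mem_range.1 hi) j (mem_range.1 hj)
      have h3 := i1 i (mem_range.1 hi) j (mem_range.1 hj)
      omega
    have h4 := (sum_eq_sum_iff_of_le h1).1 hsum.symm
    intro i hi j hj
    have h5 := h4 i (mem_range.2 hi)
    refine (sum_eq_sum_iff_of_le ?_).1 h5 j (mem_range.2 hj)
    intro j hj
    have h2 := i0 i hi j (mem_range.1 hj)
    have h3 := i1 i hi j (mem_range.1 hj)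
    omega
  have hz : ∀ i < P.t, ∀ j < P.t, S 2 i j = P.Q + S 3 i (P.prv j) + S 4 (P.prv i) j ∧
      S 2 i j = P.Q + S 3 i j + S 4 i j := by
    intro i hi j hj
    have h2 := i0 i hi j hj
    have h3 := i1 i hi j hj
    have h4 := heq i hi j hj
    omega
  have key : ∀ i < P.t, ∀ j < P.t, ((1 ≤ S 3 i (P.prv j) ∧ S 3 i (P.prv j) ≤ P.N) ∧
      (1 ≤ S 4 (P.prv i) j / P.M ∧ S 4 (P.prv i) j / P.M ≤ P.N) ∧
      P.R i j (S 3 i (P.prv j)) (S 4 (P.prv i) j / P.M) = true) ∧
      S 3 i j = S 3 i (P.prv j) ∧ S 4 i j = S 4 (P.prv i) j := by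
    intro i hi j hj
    have b2 := hS _ _ _ (a2 hi hj)
    have b3 := hS _ _ _ (a3 hi (prv_lt hj))
    have b4 := hS _ _ _ (a4 (prv_lt hi) hj)
    have c3 := hS _ _ _ (a3 hi hj)
    have c4 := hS _ _ _ (a4 hi hj)
    obtain ⟨d1, d2, d3, d4, d5⟩ := dec_xy b3.1 b4.1 b2.1 b3.2.1 b4.2.1 b2.2.1 (hz i hi j hj).1
    obtain ⟨_, _, _, e4, e5⟩ := dec_xy c3.1 c4.1 b2.1 c3.2.1 c4.2.1 b2.2.1 (hz i hi j hj).2
    refine ⟨⟨d1, d2, d3⟩, ?_, ?_⟩
    · rw [d4, e4]
    · omega
  have row : ∀ i < P.t, ∀ j < P.t, S 3 i j = S 3 i 0 := by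
    intro i hi j
    induction j with
    | zero => exact fun _ => rfl
    | succ j ih =>
      intro hj
      rw [(key i hi (j + 1) hj).2.1]
      unfold prv
      rw [if_neg (by omega), Nat.add_sub_cancel]
      exact ih (by omega)
  have col : ∀ j < P.t, ∀ i < P.t, S 4 i j = S 4 0 j := by
    intro j hj i
    induction i with
    | zero => exact fun _ => rfl
    | succ i ih =>
      intro hi
      rw [(key (i + 1) hi j hj).2.2]
      unfold prv
      rw [if_neg (by omega), Nat.add_sub_cancel]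
      exact ih (by omega)
  refine ⟨fun i => S 3 i 0, fun j => S 4 0 j / P.M, fun i hi j hj => ?_⟩
  have h1 := (key i hi j hj).1
  rw [row i hi _ (prv_lt hj), col j hj _ (prv_lt hi)] at h1
  exact h1

end Par

end Pool.Agent.V11230.TD
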