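import Pool.Agent.V11230.TD3

/-!
# Edge deletion to bounded component size: from a grid tiling to a deletion set
-/

set_option autoImplicit false

namespace Pool.Agent.V11230.TD

open Finset

namespace Par

variable {P : Par} (hn : 0 < P.n)

/-- the label of the tail -/
def tlab (κ i j : ℕ) : ℕ × ℕ × ℕ := if κ = 2 then (0, i, j) else (1, i, j)

/-- the label of the head -/
def hlab (P : Par) (κ i j : ℕ) : ℕ × ℕ × ℕ := if κ = 2 then (1, i, j) else
  if κ = 3 then (0, i, P.nxt j) else (0, P.nxt i, j)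

/-- the label of a vertex -/
def lb (P : Par) (S : ℕ → ℕ → ℕ → ℕ) (v : ℕ) : ℕ × ℕ × ℕ :=
  if P.dk v = 0 ∧ P.ds v ≤ P.Q + 2 * P.K then (0, P.di v, P.dj v)
  else if P.dk v = 1 ∧ P.ds v ≤ 5 * P.Q + 2 * P.K then (1, P.di v, P.dj v)
  else if 2 ≤ P.dk v ∧ 1 ≤ P.ds v ∧ P.ds v ≤ P.T then
    (if P.ds v ≤ S (P.dk v) (P.di v) (P.dj v) then tlab (P.dk v) (P.di v) (P.dj v)
      else P.hlab (P.dk v) (P.di v) (P.dj v))
  else (2, v, 0)

variable {S : ℕ → ℕ → ℕ → ℕ}

theorem lb_leaf0 {i j s : ℕ} (hi : i < P.t) (hj : j < P.t) (hs : s ≤ P.Q + 2 * P.K) :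
    P.lb S (P.cd 0 i j s) = (0, i, j) := by
  have hW : s < P.W := by unfold W; omega
  unfold lb
  rw [dk_cd hi hj hW, di_cd hj hW hi, dj_cd hj hW, ds_cd hW, if_pos ⟨rfl, hs⟩]

theorem lb_leaf1 {i j s : ℕ} (hi : i < P.t) (hj : j < P.t) (hs : s ≤ 5 * P.Q + 2 * P.K) :
    P.lb S (P.cd 1 i j s) = (1, i, j) := by
  have hW : s < P.W := by unfold W; omega
  unfold lb
  rw [dk_cd hi hj hW, di_cd hj hW hi, dj_cd hj hW, ds_cd hW, if_neg (by omega),
    if_pos ⟨rfl, hs⟩]

theorem lb_vx (hS : ∀ κ i j, P.Arc κ i j → S κ i j ≤ P.T) {κ i j p : ℕ} (hA : P.Arc κ i j)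
    (hp : p ≤ P.T + 1) :
    P.lb S (P.vx κ i j p) = if p ≤ S κ i j then tlab κ i j else P.hlab κ i j := by
  have hSA := hS _ _ _ hA
  unfold vx
  split_ifs with h1 h2 h3 h4 h5
  · unfold tl tlab
    split_ifs
    · exact lb_leaf0 hA.2.1 hA.2.2 (by omega)
    · exact lb_leaf1 hA.2.1 hA.2.2 (by omega)
  · omega
  · omega
  · unfold hd hlab
    split_ifs
    · exact lb_leaf1 hA.2.1 hA.2.2 (by omega)
    · exact lb_leaf0 hA.2.1 (nxt_lt hA.2.2) (by omega)
    · exact lb_leaf0 (nxt_lt hA.2.1) hA.2.2 (by omega)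
  all_goals
    have hW : p < P.W := by
      have := P.T_lt
      omega
    have hκ := hA.1
    unfold lb
    rw [dk_cd hA.2.1 hA.2.2 hW, di_cd hA.2.2 hW hA.2.1, dj_cd hA.2.2 hW, ds_cd hW,
      if_neg (by omega), if_neg (by omega), if_pos ⟨hκ.1, by omega, by omega⟩]
  · rw [if_pos h5]
  · rw [if_neg h5]

/-- the label of a vertex is the label of a hub, or the vertex is not used -/
theorem lb_cases {v : ℕ} (hv : v < P.n) : (∃ i < P.t, ∃ j < P.t, P.lb S v = (0, i, j)) ∨
    (∃ i < P.t, ∃ j < P.t, P.lb S v = (1, i, j)) ∨ P.lb S v = (2, v, 0) := by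
  obtain ⟨h1, h2, h3, h4⟩ := dec_lt hv
  unfold lb
  split_ifs
  · exact Or.inl ⟨_, h2, _, h3, rfl⟩
  · exact Or.inr (Or.inl ⟨_, h2, _, h3, rfl⟩)
  · unfold tlab
    split_ifs
    · exact Or.inl ⟨_, h2, _, h3, rfl⟩
    · exact Or.inr (Or.inl ⟨_, h2, _, h3, rfl⟩)
  · unfold hlab
    split_ifs
    · exact Or.inr (Or.inl ⟨_, h2, _, h3, rfl⟩)
    · exact Or.inl ⟨_, h2, _, nxt_lt h3, rfl⟩
    · exact Or.inl ⟨_, nxt_lt h2, _, h3, rfl⟩
  · exact Or.inr (Or.inr rfl)

theorem mem_blk_dec {v : Fin P.n} {κ i j : ℕ} {A : Finset ℕ} (h1 : P.dk v.val = κ)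
    (h2 : P.di v.val = i) (h3 : P.dj v.val = j) (h4 : P.ds v.val ∈ A) : v ∈ blk hn κ i j A := by
  unfold blk
  rw [mem_image]
  refine ⟨P.ds v.val, h4, ?_⟩
  rw [← h1, ← h2, ← h3, cd_dec]
  exact Fin.ext (V_val hn v.2)

theorem prv_eq {j j' : ℕ} (h : P.nxt j' = j) : j' = P.prv j := by
  rw [← h, prv_nxt]

theorem class0 {i j : ℕ} {v : Fin P.n} (h : P.lb S v.val = (0, i, j)) :
    v ∈ blk hn 0 i j (range (P.Q + 2 * P.K + 1)) ∪ (blk hn 2 i j (Ioc 0 (S 2 i j)) ∪
      (blk hn 3 i (P.prv j) (Ioc (S 3 i (P.prv j)) P.T) ∪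
        blk hn 4 (P.prv i) j (Ioc (S 4 (P.prv i) j) P.T))) := by
  obtain ⟨d1, d2, d3, d4⟩ := dec_lt v.2
  rw [mem_union, mem_union, mem_union]
  unfold lb at h
  split_ifs at h with h1 h2 h3 h4
  · rw [Prod.mk.injEq, Prod.mk.injEq] at h
    exact Or.inl (mem_blk_dec hn h1.1 h.2.1 h.2.2 (mem_range.2 (by omega)))
  · rw [Prod.mk.injEq] at h
    omega
  · unfold tlab at h
    split_ifs at h with h5
    · rw [Prod.mk.injEq, Prod.mk.injEq] at h
      refine Or.inr (Or.inl (mem_blk_dec hn h5 h.2.1 h.2.2 (mem_Ioc.2 ⟨by omega, ?_⟩)))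
      rw [h5, h.2.1, h.2.2] at h4
      exact h4
    · rw [Prod.mk.injEq] at h
      omega
  · unfold hlab at h
    split_ifs at h with h5 h6
    · rw [Prod.mk.injEq] at h
      omega
    · rw [Prod.mk.injEq, Prod.mk.injEq] at h
      have h7 := prv_eq h.2.2
      refine Or.inr (Or.inr (Or.inl (mem_blk_dec hn h6 h.2.1 h7 (mem_Ioc.2 ⟨?_, h3.2.2⟩))))
      rw [h6, h.2.1, h7] at h4
      omega
    · rw [Prod.mk.injEq, Prod.mk.injEq] at h
      have h7 := prv_eq h.2.1
      have h8 : P.dk v.val = 4 := by omega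
      refine Or.inr (Or.inr (Or.inr (mem_blk_dec hn h8 h7 h.2.2 (mem_Ioc.2 ⟨?_, h3.2.2⟩))))
      rw [h8, h.2.2, h7] at h4
      omega
  · rw [Prod.mk.injEq] at h
    omega

theorem class1 {i j : ℕ} {v : Fin P.n} (h : P.lb S v.val = (1, i, j)) :
    v ∈ blk hn 1 i j (range (5 * P.Q + 2 * P.K + 1)) ∪ (blk hn 2 i j (Ioc (S 2 i j) P.T) ∪
      (blk hn 3 i j (Ioc 0 (S 3 i j)) ∪ blk hn 4 i j (Ioc 0 (S 4 i j)))) := by
  obtain ⟨d1, d2, d3, d4⟩ := dec_lt v.2
  rw [mem_union, mem_union, mem_union]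
  unfold lb at h
  split_ifs at h with h1 h2 h3 h4
  · rw [Prod.mk.injEq] at h
    omega
  · rw [Prod.mk.injEq, Prod.mk.injEq] at h
    exact Or.inl (mem_blk_dec hn h2.1 h.2.1 h.2.2 (mem_range.2 (by omega)))
  · unfold tlab at h
    split_ifs at h with h5
    · rw [Prod.mk.injEq] at h
      omega
    · rw [Prod.mk.injEq, Prod.mk.injEq] at h
      by_cases h6 : P.dk v.val = 3
      · refine Or.inr (Or.inr (Or.inl (mem_blk_dec hn h6 h.2.1 h.2.2
          (mem_Ioc.2 ⟨by omega, ?_⟩))))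
        rw [h6, h.2.1, h.2.2] at h4
        exact h4
      · have h8 : P.dk v.val = 4 := by omega
        refine Or.inr (Or.inr (Or.inr (mem_blk_dec hn h8 h.2.1 h.2.2
          (mem_Ioc.2 ⟨by omega, ?_⟩))))
        rw [h8, h.2.1, h.2.2] at h4
        exact h4
  · unfold hlab at h
    split_ifs at h with h5 h6
    · rw [Prod.mk.injEq, Prod.mk.injEq] at h
      refine Or.inr (Or.inl (mem_blk_dec hn h5 h.2.1 h.2.2 (mem_Ioc.2 ⟨?_, h3.2.2⟩)))
      rw [h5, h.2.1, h.2.2] at h4
      omega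
    · rw [Prod.mk.injEq] at h
      omega
    · rw [Prod.mk.injEq] at h
      omega
  · rw [Prod.mk.injEq] at h
    omega

theorem class2 {u v : Fin P.n} (h : P.lb S v.val = (2, u.val, 0)) : v = u := by
  unfold lb at h
  split_ifs at h with h1 h2 h3 h4
  · rw [Prod.mk.injEq] at h
    omega
  · rw [Prod.mk.injEq] at h
    omega
  · unfold tlab at h
    split_ifs at h
    · rw [Prod.mk.injEq] at h
      omega
    · rw [Prod.mk.injEq] at h
      omega
  · unfold hlab at h
    split_ifs at h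
    · rw [Prod.mk.injEq] at h
      omega
    · rw [Prod.mk.injEq] at h
      omega
    · rw [Prod.mk.injEq] at h
      omega
  · rw [Prod.mk.injEq, Prod.mk.injEq] at h
    exact Fin.ext h.2.1

theorem card_blk_le {κ i j : ℕ} {A : Finset ℕ} : (blk hn κ i j A).card ≤ A.card :=
  card_image_le

/-- the cuts -/
def cutS (P : Par) (a b : ℕ → ℕ) (κ i j : ℕ) : ℕ :=
  if κ = 2 then P.Q + a i + b j * P.M else if κ = 3 then a i else b j * P.M

/-- **From a grid tiling to a deletion set.** -/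
theorem forth (ht : 0 < P.t) (h : GT P) : TFree (LG P.n P.L) P.K P.h := by
  classical
  obtain ⟨a, b, hab⟩ := h
  have hn : 0 < P.n := by
    unfold n W
    positivity
  have hM : 0 < P.M := by unfold M; omega
  have hMN : P.M = P.N + 1 := rfl
  have hQ : P.Q = P.M * P.M := rfl
  have hT : P.T = 2 * P.Q := rfl
  have hcell : ∀ i < P.t, ∀ j < P.t, a i + b j * P.M < P.Q ∧ b j * P.M < P.Q := by
    intro i hi j hj
    obtain ⟨h1, h2, _⟩ := hab i hi j hj
    have h3 : b j * P.M + a i < P.M * P.M := mul_add_lt (by omega) (by omega)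
    omega
  set S := P.cutS a b with hSdef
  have s2 : ∀ i j, S 2 i j = P.Q + a i + b j * P.M := fun i j => by
    rw [hSdef]; unfold cutS; rw [if_pos rfl]
  have s3 : ∀ i j, S 3 i j = a i := fun i j => by
    rw [hSdef]; unfold cutS; rw [if_neg (by omega), if_pos rfl]
  have s4 : ∀ i j, S 4 i j = b j * P.M := fun i j => by
    rw [hSdef]; unfold cutS; rw [if_neg (by omega), if_neg (by omega)]
  have hS : ∀ κ i j, P.Arc κ i j → S κ i j ≤ P.T := by
    intro κ i j hA
    have h1 := hcell i hA.2.1 j hA.2.2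
    have h2 := hA.1
    obtain rfl | rfl | rfl : κ = 2 ∨ κ = 3 ∨ κ = 4 := by omega
    · rw [s2]; omega
    · rw [s3]; omega
    · rw [s4]; omega
  have hal : ∀ κ i j, P.Arc κ i j → P.al κ i j (S κ i j) = true := by
    intro κ i j hA
    have h1 := hcell i hA.2.1 j hA.2.2
    obtain ⟨g1, g2, g3⟩ := hab i hA.2.1 j hA.2.2
    have h2 := hA.1
    obtain rfl | rfl | rfl : κ = 2 ∨ κ = 3 ∨ κ = 4 := by omega
    · rw [s2]
      have e0 : P.Q + a i + b j * P.M - P.Q = b j * P.M + a i := by omega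
      unfold al
      rw [if_pos rfl, e0, mul_add_mod (by omega), mul_add_div (by omega)]
      simp only [Bool.or_eq_true, Bool.and_eq_true, decide_eq_true_eq]
      exact Or.inr ⟨by omega, by omega, g1.1, g2.1, g3⟩
    · rw [s3]
      unfold al
      rw [if_neg (by omega), if_pos rfl]
      simp only [Bool.or_eq_true, decide_eq_true_eq]
      exact Or.inr g1.2
    · rw [s4]
      unfold al
      rw [if_neg (by omega), if_neg (by omega)]
      simp only [Bool.or_eq_true, Bool.and_eq_true, decide_eq_true_eq]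
      exact Or.inr ⟨Nat.mul_mod_left _ _, h1.2⟩
  set F := P.arcs.image (fun e => edge hn e.1 e.2.1 e.2.2 (S e.1 e.2.1 e.2.2)) with hF
  refine ⟨F, ?_, ?_, ?_⟩
  · intro x hx
    rw [mem_coe, hF, mem_image] at hx
    obtain ⟨e, he, rfl⟩ := hx
    have hA := mem_arcs.1 he
    unfold edge
    rw [SimpleGraph.mem_edgeSet]
    exact adj_arc hn hA (hS _ _ _ hA)
  · rw [← card_arcs]
    exact card_image_le
  · have hadjL : ∀ x y : ℕ, ∀ hx : x < P.n, ∀ hy : y < P.n, (x, y) ∈ P.L →
        s((⟨x, hx⟩ : Fin P.n), ⟨y, hy⟩) ∉ F → P.lb S x = P.lb S y := by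
      intro x y hx hy hxy hFn
      obtain ⟨i, hi, j, hj, h | h | h⟩ := mem_L.1 hxy
      · obtain ⟨s, hs, rfl, rfl⟩ := h
        rw [lb_leaf0 hi hj (by omega), lb_leaf0 hi hj (by omega)]
      · obtain ⟨s, hs, rfl, rfl⟩ := h
        rw [lb_leaf1 hi hj (by omega), lb_leaf1 hi hj (by omega)]
      · obtain ⟨κ, hκ, p, hp, rfl, rfl⟩ := h
        have hA : P.Arc κ i j := ⟨hκ, hi, hj⟩
        have n1 := nx_spec (P := P) (κ := κ) (i := i) (j := j) hp
        have n2 := nx_le_T1 (P := P) (κ := κ) (i := i) (j := j) hp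
        rw [lb_vx hS hA (by omega), lb_vx hS hA n2]
        have hne : p ≠ S κ i j := by
          intro he
          apply hFn
          rw [hF, mem_image]
          refine ⟨(κ, i, j), mem_arcs.2 hA, ?_⟩
          change edge hn κ i j (S κ i j) = _
          unfold edge
          rw [← he]
          have e1 : V hn (P.vx κ i j p) = ⟨P.vx κ i j p, hx⟩ := Fin.ext (V_val hn hx)
          have e2 : V hn (P.vx κ i j (P.nx κ i j p)) = ⟨P.vx κ i j (P.nx κ i j p), hy⟩ :=
            Fin.ext (V_val hn hy)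
          rw [e1, e2]
        rcases Nat.lt_or_gt_of_ne hne with h1 | h1
        · have n3 := nx_le (P := P) (κ := κ) (i := i) (j := j) h1
            (by have := hS _ _ _ hA; omega) (hal _ _ _ hA)
          rw [if_pos h1.le, if_pos n3]
        · rw [if_neg (by omega), if_neg (by omega)]
    have hadj : ∀ v w : Fin P.n, ((LG P.n P.L).deleteEdges F).Adj v w →
        P.lb S v.val = P.lb S w.val := by
      intro v w hvw
      rw [SimpleGraph.deleteEdges_adj] at hvw
      rcases hvw.1.2 with h | h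
      · exact hadjL _ _ v.2 w.2 h hvw.2
      · refine (hadjL _ _ w.2 v.2 h ?_).symm
        intro h'
        apply hvw.2
        rw [mem_coe, Sym2.eq_swap]
        exact h'
    have hreach : ∀ v w : Fin P.n, ((LG P.n P.L).deleteEdges F).Reachable v w →
        P.lb S v.val = P.lb S w.val := by
      intro v w hvw
      obtain ⟨p⟩ := hvw
      induction p with
      | nil => rfl
      | cons h _ ih => exact (hadj _ _ h).trans ih
    intro v
    have hsub : ∀ X : Finset (Fin P.n), (∀ w : Fin P.n, P.lb S w.val = P.lb S v.val → w ∈ X) →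
        {w | ((LG P.n P.L).deleteEdges F).Reachable v w}.ncard ≤ X.card := by
      intro X hX
      rw [← Set.ncard_coe_finset]
      refine Set.ncard_le_ncard ?_ (Set.toFinite _)
      intro w hw
      exact hX w (hreach v w hw).symm
    rcases lb_cases (S := S) v.2 with ⟨i, hi, j, hj, h⟩ | ⟨i, hi, j, hj, h⟩ | h
    · refine (hsub _ (fun w hw => class0 hn (hw.trans h))).trans ?_
      refine (card_union_le _ _).trans ?_
      refine (Nat.add_le_add (card_blk_le hn) ((card_union_le _ _).trans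
        (Nat.add_le_add (card_blk_le hn) ((card_union_le _ _).trans
          (Nat.add_le_add (card_blk_le hn) (card_blk_le hn)))))).trans ?_
      rw [card_range, Nat.card_Ioc, Nat.card_Ioc, Nat.card_Ioc, s2, s3, s4]
      have h1 := hcell i hi j hj
      unfold Par.h
      omega
    · refine (hsub _ (fun w hw => class1 hn (hw.trans h))).trans ?_
      refine (card_union_le _ _).trans ?_
      refine (Nat.add_le_add (card_blk_le hn) ((card_union_le _ _).trans
        (Nat.add_le_add (card_blk_le hn) ((card_union_le _ _).trans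
          (Nat.add_le_add (card_blk_le hn) (card_blk_le hn)))))).trans ?_
      rw [card_range, Nat.card_Ioc, Nat.card_Ioc, Nat.card_Ioc, s2, s3, s4]
      have h1 := hcell i hi j hj
      unfold Par.h
      omega
    · refine (hsub {v} (fun w hw => mem_singleton.2 (class2 (hw.trans h)))).trans ?_
      rw [card_singleton]
      unfold Par.h
      omega

/-- **The construction is correct.** -/
theorem tfree_iff (ht : 0 < P.t) : TFree (LG P.n P.L) P.K P.h ↔ GT P :=
  ⟨back ht, forth ht⟩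

end Par

end Pool.Agent.V11230.TD
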