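import Pool.Agent.V11230.TD4
import Pool.Agent.NPC.Dec
import Pool.Agent.Y644.QS.PolyBase

/-!
# Edge deletion to bounded component size: polynomial time
-/

set_option autoImplicit false

namespace Pool.Agent.NPC.V11230.TDP

open Pool.Agent.V11230.TD Pool.Agent.NPC

section

variable {α β : Type} [TEnc α] [TEnc β]

/-- a family of parameters that can be computed in polynomial time -/
structure PolyPar (P : α → Par) : Prop where
  /-- the number of the rows -/
  t : UPoly (fun a => (P a).t)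
  /-- the number of the values -/
  N : UPoly (fun a => (P a).N)
  /-- the constraints -/
  R : Poly (fun x : α × ℕ × ℕ × ℕ × ℕ => (P x.1).R x.2.1 x.2.2.1 x.2.2.2.1 x.2.2.2.2)

theorem PolyPar.comp {P : α → Par} (hP : PolyPar P) {f : β → α} (hf : Poly f) :
    PolyPar (fun b => P (f b)) where
  t := hP.t.comp hf
  N := hP.N.comp hf
  R := hP.R.comp (Poly.pair (hf.comp (Poly.fst Poly.id)) (Poly.snd Poly.id))

variable {P : α → Par} (hP : PolyPar P)
include hP

theorem uM : UPoly (fun a => (P a).M) := UPoly.add hP.N (UPoly.const 1)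

theorem uQ : UPoly (fun a => (P a).Q) := UPoly.mul (uM hP) (uM hP)

theorem uT : UPoly (fun a => (P a).T) := UPoly.mul (UPoly.const 2) (uQ hP)

theorem uK : UPoly (fun a => (P a).K) := UPoly.mul (UPoly.const 3) (UPoly.mul hP.t hP.t)

theorem uW : UPoly (fun a => (P a).W) :=
  UPoly.add (UPoly.add (UPoly.mul (UPoly.const 5) (uQ hP)) (UPoly.mul (UPoly.const 2) (uK hP)))
    (UPoly.const 1)

theorem uh : UPoly (fun a => (P a).h) :=
  UPoly.add (UPoly.add (UPoly.mul (UPoly.const 6) (uQ hP)) (UPoly.mul (UPoly.const 2) (uK hP)))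
    (UPoly.const 1)

theorem un : UPoly (fun a => (P a).n) :=
  UPoly.mul (UPoly.mul (UPoly.mul (UPoly.const 5) hP.t) hP.t) (uW hP)

variable {κ i j s p : α → ℕ}

theorem poly_cd (hκ : Poly κ) (hi : Poly i) (hj : Poly j) (hs : Poly s) :
    Poly (fun a => (P a).cd (κ a) (i a) (j a) (s a)) := by
  unfold Par.cd
  exact Poly.add (Poly.mul (Poly.add (Poly.mul (Poly.add (Poly.mul hκ hP.t.toPoly) hi)
    hP.t.toPoly) hj) (uW hP).toPoly) hs

theorem poly_al (hκ : Poly κ) (hi : Poly i) (hj : Poly j) (hs : Poly s) :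
    Poly (fun a => (P a).al (κ a) (i a) (j a) (s a)) := by
  have hQ := (uQ hP).toPoly
  have hT := (uT hP).toPoly
  have hM := (uM hP).toPoly
  have h1 : Poly (fun a => (s a - (P a).Q) % (P a).M) := Poly.mod (Poly.sub hs hQ) hM
  have h2 : Poly (fun a => (s a - (P a).Q) / (P a).M) := Poly.div (Poly.sub hs hQ) hM
  have h3 : Poly (fun a => (P a).R (i a) (j a) ((s a - (P a).Q) % (P a).M)
      ((s a - (P a).Q) / (P a).M)) :=
    hP.R.comp (Poly.pair Poly.id (Poly.pair hi (Poly.pair hj (Poly.pair h1 h2))))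
  unfold Par.al
  exact Poly.or (Poly.or (Poly.decide_eq hs (Poly.const 0)) (Poly.or (Poly.decide_eq hs hT)
    (Poly.decide_eq hs (Poly.add hT (Poly.const 1)))))
    (Poly.ite (Poly.decide_eq hκ (Poly.const 2))
      (Poly.and (Poly.decide_lt hQ hs) (Poly.and (Poly.decide_lt hs hT)
        (Poly.and (Poly.decide_le (Poly.const 1) h1) (Poly.and (Poly.decide_le (Poly.const 1) h2)
          h3))))
      (Poly.ite (Poly.decide_eq hκ (Poly.const 3)) (Poly.decide_le hs hP.N.toPoly)
        (Poly.and (Poly.decide_eq (Poly.mod hs hM) (Poly.const 0)) (Poly.decide_lt hs hQ))))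

theorem poly_nx (hκ : Poly κ) (hi : Poly i) (hj : Poly j) (hp : Poly p) :
    Poly (fun a => (P a).nx (κ a) (i a) (j a) (p a)) := by
  have hf : Poly (fun x : α × ℕ => x.1) := Poly.fst Poly.id
  unfold Par.nx
  refine Poly.head?_getD (Poly.filter (p := fun a q => decide (p a < q) &&
    (P a).al (κ a) (i a) (j a) q) (UPoly.range (UPoly.add (uT hP) (UPoly.const 2))) ?_) 0
  exact Poly.and (Poly.decide_lt (hp.comp hf) (Poly.snd Poly.id))
    (poly_al (hP.comp hf) (hκ.comp hf) (hi.comp hf) (hj.comp hf) (Poly.snd Poly.id))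

theorem poly_nxt (hj : Poly j) : Poly (fun a => (P a).nxt (j a)) := by
  unfold Par.nxt
  exact Poly.ite (Poly.decide_eq (Poly.add hj (Poly.const 1)) hP.t.toPoly) (Poly.const 0)
    (Poly.add hj (Poly.const 1))

theorem poly_tl (hκ : Poly κ) (hi : Poly i) (hj : Poly j) :
    Poly (fun a => (P a).tl (κ a) (i a) (j a)) := by
  unfold Par.tl
  exact Poly.ite (Poly.decide_eq hκ (Poly.const 2))
    (poly_cd hP (Poly.const 0) hi hj (Poly.const 0))
    (poly_cd hP (Poly.const 1) hi hj (Poly.const 0))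

theorem poly_hd (hκ : Poly κ) (hi : Poly i) (hj : Poly j) :
    Poly (fun a => (P a).hd (κ a) (i a) (j a)) := by
  unfold Par.hd
  exact Poly.ite (Poly.decide_eq hκ (Poly.const 2))
    (poly_cd hP (Poly.const 1) hi hj (Poly.const 0))
    (Poly.ite (Poly.decide_eq hκ (Poly.const 3))
      (poly_cd hP (Poly.const 0) hi (poly_nxt hP hj) (Poly.const 0))
      (poly_cd hP (Poly.const 0) (poly_nxt hP hi) hj (Poly.const 0)))

theorem poly_vx (hκ : Poly κ) (hi : Poly i) (hj : Poly j) (hp : Poly p) :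
    Poly (fun a => (P a).vx (κ a) (i a) (j a) (p a)) := by
  unfold Par.vx
  exact Poly.ite (Poly.decide_eq hp (Poly.const 0)) (poly_tl hP hκ hi hj)
    (Poly.ite (Poly.decide_eq hp (Poly.add (uT hP).toPoly (Poly.const 1))) (poly_hd hP hκ hi hj)
      (poly_cd hP hκ hi hj hp))

/-- the edges of a cell -/
theorem poly_cell (hi : Poly i) (hj : Poly j) : Poly (fun a =>
    (List.range ((P a).Q + 2 * (P a).K)).map
      (fun s => ((P a).cd 0 (i a) (j a) 0, (P a).cd 0 (i a) (j a) (s + 1))) ++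
    ((List.range (5 * (P a).Q + 2 * (P a).K)).map
      (fun s => ((P a).cd 1 (i a) (j a) 0, (P a).cd 1 (i a) (j a) (s + 1))) ++
        ([2, 3, 4] : List ℕ).flatMap (fun κ => (List.range ((P a).T + 1)).map (fun p =>
          ((P a).vx κ (i a) (j a) p, (P a).vx κ (i a) (j a) ((P a).nx κ (i a) (j a) p)))))) := by
  have hf : Poly (fun x : α × ℕ => x.1) := Poly.fst Poly.id
  have hs : Poly (fun x : α × ℕ => x.2) := Poly.snd Poly.id
  have hPf := hP.comp hf
  refine Poly.append ?_ (Poly.append ?_ ?_)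
  · refine Poly.map (F := fun a s => ((P a).cd 0 (i a) (j a) 0, (P a).cd 0 (i a) (j a) (s + 1)))
      (UPoly.range (UPoly.add (uQ hP) (UPoly.mul (UPoly.const 2) (uK hP)))) ?_
    exact Poly.pair (poly_cd hPf (Poly.const 0) (hi.comp hf) (hj.comp hf) (Poly.const 0))
      (poly_cd hPf (Poly.const 0) (hi.comp hf) (hj.comp hf) (Poly.add hs (Poly.const 1)))
  · refine Poly.map (F := fun a s => ((P a).cd 1 (i a) (j a) 0, (P a).cd 1 (i a) (j a) (s + 1)))
      (UPoly.range (UPoly.add (UPoly.mul (UPoly.const 5) (uQ hP))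
        (UPoly.mul (UPoly.const 2) (uK hP)))) ?_
    exact Poly.pair (poly_cd hPf (Poly.const 1) (hi.comp hf) (hj.comp hf) (Poly.const 0))
      (poly_cd hPf (Poly.const 1) (hi.comp hf) (hj.comp hf) (Poly.add hs (Poly.const 1)))
  · refine Poly.flatMap (F := fun a κ => (List.range ((P a).T + 1)).map (fun p =>
      ((P a).vx κ (i a) (j a) p, (P a).vx κ (i a) (j a) ((P a).nx κ (i a) (j a) p))))
      (Poly.const _) ?_
    refine Poly.map (F := fun (x : α × ℕ) p =>
      ((P x.1).vx x.2 (i x.1) (j x.1) p, (P x.1).vx x.2 (i x.1) (j x.1)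
        ((P x.1).nx x.2 (i x.1) (j x.1) p)))
      (UPoly.range (UPoly.add (uT hPf) (UPoly.const 1))) ?_
    have q1 : Poly (fun y : (α × ℕ) × ℕ => y.1.1) := Poly.fst (Poly.fst Poly.id)
    have q2 : Poly (fun y : (α × ℕ) × ℕ => y.1.2) := Poly.snd (Poly.fst Poly.id)
    have q3 : Poly (fun y : (α × ℕ) × ℕ => y.2) := Poly.snd Poly.id
    have hPq := hP.comp q1
    exact Poly.pair (poly_vx hPq q2 (hi.comp q1) (hj.comp q1) q3)
      (poly_vx hPq q2 (hi.comp q1) (hj.comp q1)
        (poly_nx hPq q2 (hi.comp q1) (hj.comp q1) q3))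

theorem poly_L : Poly (fun a => (P a).L) := by
  have hf : Poly (fun x : α × ℕ => x.1) := Poly.fst Poly.id
  have q1 : Poly (fun y : (α × ℕ) × ℕ => y.1.1) := Poly.fst (Poly.fst Poly.id)
  have q2 : Poly (fun y : (α × ℕ) × ℕ => y.1.2) := Poly.snd (Poly.fst Poly.id)
  have q3 : Poly (fun y : (α × ℕ) × ℕ => y.2) := Poly.snd Poly.id
  unfold Par.L
  refine Poly.flatMap (F := fun a i => (List.range (P a).t).flatMap (fun j =>
    (List.range ((P a).Q + 2 * (P a).K)).map (fun s => ((P a).cd 0 i j 0, (P a).cd 0 i j (s + 1)))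
      ++ ((List.range (5 * (P a).Q + 2 * (P a).K)).map
        (fun s => ((P a).cd 1 i j 0, (P a).cd 1 i j (s + 1))) ++
        ([2, 3, 4] : List ℕ).flatMap (fun κ => (List.range ((P a).T + 1)).map (fun p =>
          ((P a).vx κ i j p, (P a).vx κ i j ((P a).nx κ i j p))))))) (UPoly.range hP.t) ?_
  refine Poly.flatMap (F := fun (x : α × ℕ) j =>
    (List.range ((P x.1).Q + 2 * (P x.1).K)).map
      (fun s => ((P x.1).cd 0 x.2 j 0, (P x.1).cd 0 x.2 j (s + 1)))
      ++ ((List.range (5 * (P x.1).Q + 2 * (P x.1).K)).map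
        (fun s => ((P x.1).cd 1 x.2 j 0, (P x.1).cd 1 x.2 j (s + 1))) ++
        ([2, 3, 4] : List ℕ).flatMap (fun κ => (List.range ((P x.1).T + 1)).map (fun p =>
          ((P x.1).vx κ x.2 j p, (P x.1).vx κ x.2 j ((P x.1).nx κ x.2 j p))))))
    (UPoly.range (hP.comp hf).t) ?_
  exact poly_cell (hP.comp q1) q2 q3

end

end Pool.Agent.NPC.V11230.TDP
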