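import Pool.Agent.V11230.TD5
import Pool.Agent.V11230.DSep2

/-!
# Edge deletion to bounded component size: the reduction from Clique
-/

set_option autoImplicit false

namespace Pool.Agent.NPC.V11230.TDP

open Pool.Agent.V11230.TD Pool.Agent.NPC Pool.Agent.H622R2 Pool.Agent.V11230.DS

/-- the parameters for a graph and a number of rows -/
def cp (A : List (List Bool)) (t : ℕ) : Par where
  t := t
  N := A.length
  R i j a b := if i = j then decide (a = b) else ed A (a - 1) (b - 1)

theorem adj_ed' {A : List (List Bool)} {u v : Fin A.length} :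
    (matGraph A).Adj u v ↔ ed A u v = true := by
  unfold matGraph ed
  simp only [Bool.and_eq_true, Bool.or_eq_true, Bool.not_eq_true', decide_eq_false_iff_not, ne_eq,
    Fin.ext_iff]

theorem gt_iff (A : List (List Bool)) (t : ℕ) :
    (cp A t).GT ↔ ∃ C : Finset (Fin A.length), (matGraph A).IsNClique t C := by
  constructor
  · rintro ⟨a, b, h⟩
    have hN : (cp A t).N = A.length := rfl
    have ha : ∀ i < t, 1 ≤ a i ∧ a i ≤ A.length := fun i hi => (h i hi i hi).1
    have hbb : ∀ i < t, b i = a i := by
      intro i hi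
      have h1 := (h i hi i hi).2.2
      change (if i = i then decide (a i = b i) else ed A (a i - 1) (b i - 1)) = true at h1
      rw [if_pos rfl, decide_eq_true_iff] at h1
      exact h1.symm
    have hadj : ∀ i < t, ∀ j < t, i ≠ j → ed A (a i - 1) (a j - 1) = true := by
      intro i hi j hj hij
      have h1 := (h i hi j hj).2.2
      change (if i = j then decide (a i = b j) else ed A (a i - 1) (b j - 1)) = true at h1
      rw [if_neg hij, hbb j hj] at h1
      exact h1
    set f : Fin t → Fin A.length := fun i => ⟨a i - 1, by have := ha i i.2; omega⟩ with hf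
    have hinj : Function.Injective f := by
      intro i j hij
      by_contra hne
      have h1 := hadj i i.2 j j.2 (fun he => hne (Fin.ext he))
      have h2 : a i - 1 = a j - 1 := congrArg Fin.val hij
      rw [h2] at h1
      unfold ed at h1
      simp at h1
    refine ⟨Finset.univ.image f, ?_, ?_⟩
    · intro u hu v hv huv
      rw [Finset.mem_coe, Finset.mem_image] at hu hv
      obtain ⟨i, _, rfl⟩ := hu
      obtain ⟨j, _, rfl⟩ := hv
      rw [adj_ed']
      exact hadj i i.2 j j.2 (fun he => huv (by rw [Fin.ext he]))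
    · rw [Finset.card_image_of_injective _ hinj, Finset.card_univ, Fintype.card_fin]
  · rintro ⟨C, hC, hcard⟩
    set e := Finset.equivFinOfCardEq hcard with he
    set a : ℕ → ℕ := fun i => if hi : i < t then (e.symm ⟨i, hi⟩).1.1 + 1 else 0 with ha
    refine ⟨a, a, fun i hi j hj => ?_⟩
    have e1 : a i = (e.symm ⟨i, hi⟩).1.1 + 1 := dif_pos hi
    have e2 : a j = (e.symm ⟨j, hj⟩).1.1 + 1 := dif_pos hj
    have l1 := (e.symm ⟨i, hi⟩).1.2
    have l2 := (e.symm ⟨j, hj⟩).1.2
    refine ⟨⟨by omega, ?_⟩, ⟨by omega, ?_⟩, ?_⟩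
    · rw [e1]
      exact l1
    · rw [e2]
      exact l2
    · change (if i = j then decide (a i = a j) else ed A (a i - 1) (a j - 1)) = true
      by_cases hij : i = j
      · rw [if_pos hij, hij]
        exact decide_eq_true rfl
      · rw [if_neg hij, e1, e2, Nat.add_sub_cancel, Nat.add_sub_cancel, ← adj_ed']
        refine hC (e.symm ⟨i, hi⟩).2 (e.symm ⟨j, hj⟩).2 ?_
        intro h
        have h1 := e.symm.injective (Subtype.ext h)
        exact hij (congrArg Fin.val h1)

/-- an instance of the deletion problem: a token for each vertex, the edges, `k` and `h` -/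
abbrev Inst : Type := List Unit × List (ℕ × ℕ) × ℕ × ℕ

/-- the instance for given parameters -/
def pinst (P : Par) : Inst := (List.replicate P.n (), P.L, P.K, P.h)

/-- a trivial instance without solution: a path with three vertices, `k = 1` and `h = 1` -/
def noInst : Inst := (List.replicate 3 (), [(0, 1), (1, 2)], 1, 1)

/-- the constructed instance -/
def inst (z : List (List Bool) × ℕ) : Inst :=
  if z.2 ≤ z.1.length then pinst (cp z.1 (min z.2 z.1.length)) else noInst

theorem no_noInst : ¬ TFree (LG 3 [(0, 1), (1, 2)]) 1 1 := by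
  classical
  rintro ⟨F, _, hF, hc⟩
  have key : ∀ v w : Fin 3, (LG 3 [(0, 1), (1, 2)]).Adj v w → s(v, w) ∈ F := by
    intro v w h
    by_contra hn
    have h1 : ((LG 3 [(0, 1), (1, 2)]).deleteEdges F).Reachable v w := by
      refine SimpleGraph.Adj.reachable ?_
      rw [SimpleGraph.deleteEdges_adj]
      exact ⟨h, hn⟩
    have h2 := hc v
    have h3 : (({v, w} : Finset (Fin 3)) : Set (Fin 3)) ⊆
        {w | ((LG 3 [(0, 1), (1, 2)]).deleteEdges F).Reachable v w} := by
      intro x hx
      rw [Finset.mem_coe, Finset.mem_insert, Finset.mem_singleton] at hx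
      rcases hx with rfl | rfl
      · exact SimpleGraph.Reachable.refl _
      · exact h1
    have h4 := Set.ncard_le_ncard h3 (Set.toFinite _)
    rw [Set.ncard_coe_finset, Finset.card_pair h.1] at h4
    omega
  have h1 := key 0 1 ⟨by decide, by left; simp⟩
  have h2 := key 1 2 ⟨by decide, by left; simp⟩
  have h3 : (s((0 : Fin 3), 1) : Sym2 (Fin 3)) = s(1, 2) :=
    Finset.card_le_one.1 hF _ h1 _ h2
  exact absurd h3 (by decide)

section
variable {α : Type} [TEnc α] {A : α → List (List Bool)} {u j : α → ℕ}

theorem poly_ed' (hA : Poly A) (hu : Poly u) (hj : Poly j) :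
    Poly (fun a => ed (A a) (u a) (j a)) :=
  Poly.and (Poly.not (Poly.decide_eq hu hj)) (Poly.or
    (Poly.getD (Poly.getD hA hu (Poly.const [])) hj (Poly.const false))
    (Poly.getD (Poly.getD hA hj (Poly.const [])) hu (Poly.const false)))

end

theorem polyPar : PolyPar (fun z : List (List Bool) × ℕ => cp z.1 (min z.2 z.1.length)) where
  t := UPoly.of_le (Poly.min (Poly.snd Poly.id) (Poly.length (Poly.fst Poly.id)))
    (UPoly.length (Poly.fst Poly.id)) (fun _ => Nat.min_le_right _ _)
  N := UPoly.length (Poly.fst Poly.id)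
  R := by
    have hA : Poly (fun x : (List (List Bool) × ℕ) × ℕ × ℕ × ℕ × ℕ => x.1.1) :=
      Poly.fst (Poly.fst Poly.id)
    have hi : Poly (fun x : (List (List Bool) × ℕ) × ℕ × ℕ × ℕ × ℕ => x.2.1) :=
      Poly.fst (Poly.snd Poly.id)
    have hj : Poly (fun x : (List (List Bool) × ℕ) × ℕ × ℕ × ℕ × ℕ => x.2.2.1) :=
      Poly.fst (Poly.snd (Poly.snd Poly.id))
    have ha : Poly (fun x : (List (List Bool) × ℕ) × ℕ × ℕ × ℕ × ℕ => x.2.2.2.1) :=
      Poly.fst (Poly.snd (Poly.snd (Poly.snd Poly.id)))
    have hb : Poly (fun x : (List (List Bool) × ℕ) × ℕ × ℕ × ℕ × ℕ => x.2.2.2.2) :=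
      Poly.snd (Poly.snd (Poly.snd (Poly.snd Poly.id)))
    exact Poly.ite (Poly.decide_eq hi hj) (Poly.decide_eq ha hb)
      (poly_ed' hA (Poly.sub ha (Poly.const 1)) (Poly.sub hb (Poly.const 1)))

theorem poly_inst : Poly inst := by
  have h1 : Poly (fun z : List (List Bool) × ℕ => pinst (cp z.1 (min z.2 z.1.length))) :=
    Poly.pair (un polyPar) (Poly.pair (poly_L polyPar) (Poly.pair (uK polyPar).toPoly
      (uh polyPar).toPoly))
  exact Poly.ite (Poly.decide_le (Poly.snd Poly.id) (Poly.length (Poly.fst Poly.id))) h1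
    (Poly.const _)

/-- the reduction -/
def red (x : List Bool) : List Bool :=
  bits (inst ((unbits (List (List Bool) × ℕ) x).getD ([], 0)))

theorem polyTime_red : PolyTime red := by
  refine polyTime_bits (g := fun x => inst ((unbits (List (List Bool) × ℕ) x).getD ([], 0))) ?_
  exact poly_inst.comp ((Poly.optCases (o := fun x => unbits (List (List Bool) × ℕ) x)
    (g := fun _ => (([], 0) : List (List Bool) × ℕ)) (h := fun _ I => I) poly_unbits
    (Poly.const _) (Poly.snd Poly.id)).congr fun x => by
      cases unbits (List (List Bool) × ℕ) x <;> rfl)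

theorem red_bits (z : List (List Bool) × ℕ) : red (bits z) = bits (inst z) := by
  unfold red
  rw [unbits_bits, Option.getD_some]

end Pool.Agent.NPC.V11230.TDP
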