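import Pool.Agent.H632R2.X3C

/-!
# Three-dimensional matching is NP-hard
-/

namespace Pool.Agent.NPC.V11230

open Pool.Agent.NPC Pool.Agent.NPC.H632

/-- Three-dimensional matching: some of the triples of the list have first components forming
exactly `0, …, q-1`, each occurring once, and the same for the second and third components. -/
def TDM (I : List (ℕ × ℕ × ℕ) × ℕ) : Prop :=
  ∃ C : List (ℕ × ℕ × ℕ), (∀ t ∈ C, t ∈ I.1) ∧ (C.map (fun t => t.1)).Perm (List.range I.2) ∧
    (C.map (fun t => t.2.1)).Perm (List.range I.2) ∧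
    (C.map (fun t => t.2.2)).Perm (List.range I.2)

/-- Promise: the components are below `q`, and `1 ≤ q ≤` number of triples. -/
def TDMPr (I : List (ℕ × ℕ × ℕ) × ℕ) : Prop :=
  (∀ t ∈ I.1, t.1 < I.2 ∧ t.2.1 < I.2 ∧ t.2.2 < I.2) ∧ 1 ≤ I.2 ∧ I.2 ≤ I.1.length

namespace TDMRed

def Wl (m : ℕ) : List E3 :=
  (grid m).map (fun p => tip true p.1 p.2) ++ (grid m).map (fun p => tip false p.1 p.2)
def Xl (m : ℕ) : List E3 :=
  (grid m).map (fun p => ea p.1 p.2) ++ ((List.range m).map es1 ++
    (List.range (3 * m * m - m)).map eg1)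
def Yl (m : ℕ) : List E3 :=
  (grid m).map (fun p => eb p.1 p.2) ++ ((List.range m).map es2 ++
    (List.range (3 * m * m - m)).map eg2)

theorem le_sq (m : ℕ) : m ≤ 3 * m * m := by
  nlinarith [Nat.zero_le m, Nat.mul_self_le_mul_self (Nat.zero_le m)]

theorem Wl_length (m : ℕ) : (Wl m).length = 6 * m * m := by
  simp only [Wl, List.length_append, List.length_map, grid_length]
  ring

theorem Xl_length (m : ℕ) : (Xl m).length = 6 * m * m := by
  simp only [Xl, List.length_append, List.length_map, List.length_range, grid_length]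
  have := le_sq m
  zify [this]
  ring

theorem Yl_length (m : ℕ) : (Yl m).length = 6 * m * m := by
  simp only [Yl, List.length_append, List.length_map, List.length_range, grid_length]
  have := le_sq m
  zify [this]
  ring

theorem mem_split {m : ℕ} {e : E3} : e ∈ elems m ↔ e ∈ Wl m ∨ e ∈ Xl m ∨ e ∈ Yl m := by
  simp only [elems, Wl, Xl, Yl, List.mem_append]
  tauto

theorem elems_perm (m : ℕ) : (elems m).Perm (Wl m ++ (Xl m ++ Yl m)) := by
  rw [List.perm_iff_count]
  intro e
  simp only [elems, Wl, Xl, Yl, List.count_append]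
  omega

theorem all_nodup (m : ℕ) : (Wl m).Nodup ∧ (Xl m).Nodup ∧ (Yl m).Nodup := by
  have h := (elems_perm m).nodup_iff.1 (elems_nodup m)
  rw [List.nodup_append', List.nodup_append'] at h
  exact ⟨h.1, h.2.1.1, h.2.1.2.1⟩

/-- the renaming -/
noncomputable def ren3 (m : ℕ) (t : E3 × E3 × E3) : ℕ × ℕ × ℕ :=
  (index (Wl m) t.1, index (Xl m) t.2.1, index (Yl m) t.2.2)

theorem trips_parts {φ : List (Lit ℕ × Lit ℕ × Lit ℕ)} (hb : Bounded3 φ) :
    ∀ t ∈ trips φ, t.1 ∈ Wl φ.length ∧ t.2.1 ∈ Xl φ.length ∧ t.2.2 ∈ Yl φ.length := by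
  intro t ht
  have hsub := trips_sub hb t ht
  have h1 := hsub t.1 (by simp [el])
  have h2 := hsub t.2.1 (by simp [el])
  have h3 := hsub t.2.2 (by simp [el])
  -- tags
  have tW : ∀ e ∈ Wl φ.length, e.1 = 2 ∨ e.1 = 3 := by
    intro e he
    simp only [Wl, List.mem_append, List.mem_map] at he
    rcases he with ⟨p, _, rfl⟩ | ⟨p, _, rfl⟩ <;> simp [tip]
  have tX : ∀ e ∈ Xl φ.length, e.1 = 0 ∨ e.1 = 4 ∨ e.1 = 6 := by
    intro e he
    simp only [Xl, List.mem_append, List.mem_map] at he
    rcases he with ⟨p, _, rfl⟩ | ⟨p, _, rfl⟩ | ⟨p, _, rfl⟩ <;> simp [ea, es1, eg1]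
  have tY : ∀ e ∈ Yl φ.length, e.1 = 1 ∨ e.1 = 5 ∨ e.1 = 7 := by
    intro e he
    simp only [Yl, List.mem_append, List.mem_map] at he
    rcases he with ⟨p, _, rfl⟩ | ⟨p, _, rfl⟩ | ⟨p, _, rfl⟩ <;> simp [eb, es2, eg2]
  have hg : (t.1.1 = 2 ∨ t.1.1 = 3) ∧ (t.2.1.1 = 0 ∨ t.2.1.1 = 4 ∨ t.2.1.1 = 6) ∧
      (t.2.2.1 = 1 ∨ t.2.2.1 = 5 ∨ t.2.2.1 = 7) := by
    rcases mem_trips.1 ht with ⟨i, j, _, _, rfl | rfl⟩ | ⟨c, j, _, rfl | rfl | rfl⟩ |
      ⟨s, i, j, k, _, _, _, rfl⟩
    · simp [tT, tip, ea, eb]
    · simp [tF, tip, ea, eb]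
    · simp only [tC, tip, es1, es2]; cases c.1.1 <;> simp
    · simp only [tC, tip, es1, es2]; cases c.2.1.1 <;> simp
    · simp only [tC, tip, es1, es2]; cases c.2.2.1 <;> simp
    · simp only [tG, tip, eg1, eg2]; cases s <;> simp
  obtain ⟨g1, g2, g3⟩ := hg
  refine ⟨?_, ?_, ?_⟩
  · rcases mem_split.1 h1 with h | h | h
    · exact h
    · have := tX _ h; omega
    · have := tY _ h; omega
  · rcases mem_split.1 h2 with h | h | h
    · have := tW _ h; omega
    · exact h
    · have := tY _ h; omega
  · rcases mem_split.1 h3 with h | h | h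
    · have := tW _ h; omega
    · have := tX _ h; omega
    · exact h

/-- disjointness of the parts -/
theorem parts_disj {m : ℕ} {e : E3} : (e ∈ Wl m → e ∉ Xl m ∧ e ∉ Yl m) ∧ (e ∈ Xl m → e ∉ Yl m) := by
  have h := (elems_perm m).nodup_iff.1 (elems_nodup m)
  rw [List.nodup_append', List.nodup_append'] at h
  obtain ⟨_, ⟨_, _, h3⟩, h4⟩ := h
  refine ⟨fun he => ⟨fun h' => h4 he (List.mem_append_left _ h'),
    fun h' => h4 he (List.mem_append_right _ h')⟩, fun he h' => h3 he h'⟩

theorem flatMap_el_perm (C : List (E3 × E3 × E3)) :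
    (C.flatMap el).Perm (C.map (fun t => t.1) ++ (C.map (fun t => t.2.1) ++
      C.map (fun t => t.2.2))) := by
  rw [List.perm_iff_count]
  intro e
  induction C with
  | nil => simp
  | cons t C ih =>
    simp only [List.flatMap_cons, List.count_append, ih, List.map_cons, List.count_cons, el,
      List.count_nil]
    omega

theorem cover_iff {φ : List (Lit ℕ × Lit ℕ × Lit ℕ)} (hb : Bounded3 φ) :
    XC (trips φ) (elems φ.length) ↔
      TDM ((trips φ).map (ren3 φ.length), 6 * φ.length * φ.length) := by
  set m := φ.length with hm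
  obtain ⟨nW, nX, nY⟩ := all_nodup m
  have hp := trips_parts hb
  rw [← hm] at hp
  have mW : (Wl m).map (index (Wl m)) = List.range (6 * m * m) := by
    rw [map_index nW, Wl_length]
  have mX : (Xl m).map (index (Xl m)) = List.range (6 * m * m) := by
    rw [map_index nX, Xl_length]
  have mY : (Yl m).map (index (Yl m)) = List.range (6 * m * m) := by
    rw [map_index nY, Yl_length]
  constructor
  · rintro ⟨C, hC, hperm⟩
    refine ⟨C.map (ren3 m), ?_, ?_, ?_, ?_⟩
    · intro t ht
      obtain ⟨s, hs, rfl⟩ := List.mem_map.1 ht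
      exact List.mem_map_of_mem (hC s hs)
    · -- first components
      have key : (C.map (fun t => t.1)).Perm (Wl m) := by
        have h1 := (flatMap_el_perm C).symm.trans (hperm.trans (elems_perm m))
        have h2 := h1.filter (fun e => decide (e ∈ Wl m))
        rw [List.filter_append, List.filter_append, List.filter_append, List.filter_append,
          List.filter_eq_self.2, List.filter_eq_nil_iff.2, List.filter_eq_nil_iff.2,
          List.filter_eq_self.2, List.filter_eq_nil_iff.2, List.filter_eq_nil_iff.2] at h2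
        · simpa using h2
        · intro e he; simp only [decide_eq_true_eq]; exact fun h => (parts_disj.1 h).2 he
        · intro e he; simp only [decide_eq_true_eq]; exact fun h => (parts_disj.1 h).1 he
        · intro e he; simpa using he
        · intro e he
          obtain ⟨t, ht, rfl⟩ := List.mem_map.1 he
          simp only [decide_eq_true_eq]
          exact fun h => (parts_disj.1 h).2 (hp t (hC t ht)).2.2
        · intro e he
          obtain ⟨t, ht, rfl⟩ := List.mem_map.1 he
          simp only [decide_eq_true_eq]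
          exact fun h => (parts_disj.1 h).1 (hp t (hC t ht)).2.1
        · intro e he
          obtain ⟨t, ht, rfl⟩ := List.mem_map.1 he
          simpa using (hp t (hC t ht)).1
      have := key.map (index (Wl m))
      rw [mW, List.map_map] at this
      rw [List.map_map]
      exact this
    · have key : (C.map (fun t => t.2.1)).Perm (Xl m) := by
        have h1 := (flatMap_el_perm C).symm.trans (hperm.trans (elems_perm m))
        have h2 := h1.filter (fun e => decide (e ∈ Xl m))
        rw [List.filter_append, List.filter_append, List.filter_append, List.filter_append,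
          List.filter_eq_nil_iff.2, List.filter_eq_self.2, List.filter_eq_nil_iff.2,
          List.filter_eq_nil_iff.2, List.filter_eq_self.2, List.filter_eq_nil_iff.2] at h2
        · simpa using h2
        · intro e he; simp only [decide_eq_true_eq]; exact fun h => parts_disj.2 h he
        · intro e he; simpa using he
        · intro e he; simp only [decide_eq_true_eq]; exact fun h => (parts_disj.1 he).1 h
        · intro e he
          obtain ⟨t, ht, rfl⟩ := List.mem_map.1 he
          simp only [decide_eq_true_eq]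
          exact fun h => parts_disj.2 h (hp t (hC t ht)).2.2
        · intro e he
          obtain ⟨t, ht, rfl⟩ := List.mem_map.1 he
          simpa using (hp t (hC t ht)).2.1
        · intro e he
          obtain ⟨t, ht, rfl⟩ := List.mem_map.1 he
          simp only [decide_eq_true_eq]
          exact fun h => (parts_disj.1 (hp t (hC t ht)).1).1 h
      have := key.map (index (Xl m))
      rw [mX, List.map_map] at this
      rw [List.map_map]
      exact this
    · have key : (C.map (fun t => t.2.2)).Perm (Yl m) := by
        have h1 := (flatMap_el_perm C).symm.trans (hperm.trans (elems_perm m))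
        have h2 := h1.filter (fun e => decide (e ∈ Yl m))
        rw [List.filter_append, List.filter_append, List.filter_append, List.filter_append,
          List.filter_eq_nil_iff.2, List.filter_eq_nil_iff.2, List.filter_eq_self.2,
          List.filter_eq_nil_iff.2, List.filter_eq_nil_iff.2, List.filter_eq_self.2] at h2
        · simpa using h2
        · intro e he; simpa using he
        · intro e he; simp only [decide_eq_true_eq]; exact fun h => parts_disj.2 he h
        · intro e he; simp only [decide_eq_true_eq]; exact fun h => (parts_disj.1 he).2 h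
        · intro e he
          obtain ⟨t, ht, rfl⟩ := List.mem_map.1 he
          simpa using (hp t (hC t ht)).2.2
        · intro e he
          obtain ⟨t, ht, rfl⟩ := List.mem_map.1 he
          simp only [decide_eq_true_eq]
          exact fun h => parts_disj.2 (hp t (hC t ht)).2.1 h
        · intro e he
          obtain ⟨t, ht, rfl⟩ := List.mem_map.1 he
          simp only [decide_eq_true_eq]
          exact fun h => (parts_disj.1 (hp t (hC t ht)).1).2 h
      have := key.map (index (Yl m))
      rw [mY, List.map_map] at this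
      rw [List.map_map]
      exact this
  · rintro ⟨C', hC', p1, p2, p3⟩
    obtain ⟨D, hD, rfl⟩ := exists_preimage _ _ _ hC'
    refine ⟨D, hD, perm_of_cover (elems_nodup m) ?_ ?_⟩
    · intro e he
      rcases mem_split.1 he with h | h | h
      · have h1 : index (Wl m) e ∈ List.range (6 * m * m) := by
          rw [← mW]; exact List.mem_map_of_mem h
        have h2 := p1.mem_iff.2 h1
        rw [List.map_map] at h2
        obtain ⟨t, ht, hte⟩ := List.mem_map.1 h2
        refine ⟨t, ht, ?_⟩
        have := index_inj (hp t (hD t ht)).1 h hte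
        rw [← this]; simp [el]
      · have h1 : index (Xl m) e ∈ List.range (6 * m * m) := by
          rw [← mX]; exact List.mem_map_of_mem h
        have h2 := p2.mem_iff.2 h1
        rw [List.map_map] at h2
        obtain ⟨t, ht, hte⟩ := List.mem_map.1 h2
        refine ⟨t, ht, ?_⟩
        have := index_inj (hp t (hD t ht)).2.1 h hte
        rw [← this]; simp [el]
      · have h1 : index (Yl m) e ∈ List.range (6 * m * m) := by
          rw [← mY]; exact List.mem_map_of_mem h
        have h2 := p3.mem_iff.2 h1
        rw [List.map_map] at h2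
        obtain ⟨t, ht, hte⟩ := List.mem_map.1 h2
        refine ⟨t, ht, ?_⟩
        have := index_inj (hp t (hD t ht)).2.2 h hte
        rw [← this]; simp [el]
    · have := p1.length_eq
      simp only [List.length_map, List.length_range] at this
      rw [this, elems_length]

/-- the reduction -/
noncomputable def redT (φ : List (Lit ℕ × Lit ℕ × Lit ℕ)) : List (ℕ × ℕ × ℕ) × ℕ :=
  ((trips φ).map (ren3 φ.length), 6 * φ.length * φ.length)

theorem poly_grid {α : Type} [TEnc α] {n : α → ℕ} (hn : UPoly n) : Poly (fun a => grid (n a)) :=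
  poly_range_mul hn

theorem poly_redT : Poly redT := by
  have hl : UPoly (fun φ : List (Lit ℕ × Lit ℕ × Lit ℕ) => φ.length) := UPoly.length Poly.id
  have hg := poly_grid hl
  have hr : Poly (fun φ : List (Lit ℕ × Lit ℕ × Lit ℕ) => List.range φ.length) := hl.range
  have hr' : Poly (fun φ : List (Lit ℕ × Lit ℕ × Lit ℕ) =>
      List.range (3 * φ.length * φ.length - φ.length)) := (uG hl).range
  have hW : Poly (fun φ : List (Lit ℕ × Lit ℕ × Lit ℕ) => Wl φ.length) := by
    unfold Wl tip; fun_prop
  have hX : Poly (fun φ : List (Lit ℕ × Lit ℕ × Lit ℕ) => Xl φ.length) := by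
    unfold Xl ea es1 eg1; fun_prop
  have hY : Poly (fun φ : List (Lit ℕ × Lit ℕ × Lit ℕ) => Yl φ.length) := by
    unfold Yl eb es2 eg2; fun_prop
  have hW' : Poly (fun p : List (Lit ℕ × Lit ℕ × Lit ℕ) × (E3 × E3 × E3) => Wl p.1.length) :=
    hW.comp (Poly.fst Poly.id)
  have hX' : Poly (fun p : List (Lit ℕ × Lit ℕ × Lit ℕ) × (E3 × E3 × E3) => Xl p.1.length) :=
    hX.comp (Poly.fst Poly.id)
  have hY' : Poly (fun p : List (Lit ℕ × Lit ℕ × Lit ℕ) × (E3 × E3 × E3) => Yl p.1.length) :=
    hY.comp (Poly.fst Poly.id)
  unfold redT ren3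
  refine Poly.pair (Poly.map poly_trips ?_) ?_
  · exact Poly.pair (Poly.index hW' (by fun_prop))
      (Poly.pair (Poly.index hX' (by fun_prop)) (Poly.index hY' (by fun_prop)))
  · fun_prop

end TDMRed

open TDMRed in
/-- **Three-dimensional matching is NP-hard**, with the promise `TDMPr`. -/
theorem hardPr_TDM : HardPr TDMPr TDM := by
  refine hardPr_SAT3b.trans poly_redT ?_ ?_
  · rintro φ ⟨_, hb, hne⟩
    have hm0 : 0 < φ.length := List.length_pos_iff.2 hne
    refine ⟨?_, ?_, ?_⟩
    · intro t ht
      obtain ⟨s, hs, rfl⟩ := List.mem_map.1 ht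
      obtain ⟨h1, h2, h3⟩ := trips_parts hb s hs
      have e1 := index_lt h1
      have e2 := index_lt h2
      have e3 := index_lt h3
      rw [Wl_length] at e1
      rw [Xl_length] at e2
      rw [Yl_length] at e3
      exact ⟨e1, e2, e3⟩
    · show 1 ≤ 6 * φ.length * φ.length
      nlinarith
    · show 6 * φ.length * φ.length ≤ ((trips φ).map _).length
      rw [List.length_map]
      exact mem_trips_length
  · rintro φ ⟨_, hb, hne⟩
    unfold TDMRed.redT
    rw [← cover_iff hb]
    exact ⟨sat_to_cover hb hne, cover_to_sat hb⟩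

end Pool.Agent.NPC.V11230
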