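import Mathlib

/-!
# Friedman's weights for automata whose vertices all have the same out-neighbours
-/

set_option autoImplicit false

namespace Pool.Agent.NPC.V11230.TS

open Finset

/-- the action of a word -/
def act {V A : Type} (δ : V → A → V) (v : V) (w : List A) : V := w.foldl δ v

theorem act_append {V A : Type} (δ : V → A → V) (v : V) (x y : List A) :
    act δ v (x ++ y) = act δ (act δ v x) y := by
  unfold act; rw [List.foldl_append]

theorem act_cons {V A : Type} (δ : V → A → V) (v : V) (a : A) (y : List A) :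
    act δ v (a :: y) = act δ (δ v a) y := rfl

variable {V A : Type} [Fintype V] [DecidableEq V] [Fintype A] [DecidableEq A]

/-- the fibre of a word over a state -/
def fib (δ : V → A → V) (w : List A) (q : V) : Finset V := univ.filter (fun v => act δ v w = q)

theorem mem_fib {δ : V → A → V} {w : List A} {q v : V} : v ∈ fib δ w q ↔ act δ v w = q := by
  unfold fib
  rw [mem_filter]
  simp

theorem sum_pre (δ : V → A → V) (wt : V → ℕ)
    (hwt : ∀ v u, (univ.filter (fun a => δ v a = u)).card = wt u) (S : Finset V) :
    ∑ a : A, ∑ v ∈ univ.filter (fun v => δ v a ∈ S), wt v = (∑ v, wt v) * ∑ v ∈ S, wt v := by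
  have h1 : ∀ v, (univ.filter (fun a : A => δ v a ∈ S)).card = ∑ u ∈ S, wt u := by
    intro v
    have : univ.filter (fun a : A => δ v a ∈ S) = S.biUnion (fun u => univ.filter (fun a => δ v a = u)) := by
      ext a
      simp
    rw [this, card_biUnion]
    · exact sum_congr rfl fun u _ => hwt v u
    · intro u _ u' _ huu'
      show Disjoint _ _
      rw [Finset.disjoint_left]
      intro a ha ha'
      simp only [mem_filter, mem_univ, true_and] at ha ha'
      exact huu' (ha.symm.trans ha')
  calc ∑ a : A, ∑ v ∈ univ.filter (fun v => δ v a ∈ S), wt v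
      = ∑ a : A, ∑ v : V, if δ v a ∈ S then wt v else 0 := by
        refine sum_congr rfl fun a _ => ?_
        rw [sum_filter]
    _ = ∑ v : V, ∑ a : A, if δ v a ∈ S then wt v else 0 := sum_comm
    _ = ∑ v : V, wt v * ∑ u ∈ S, wt u := by
        refine sum_congr rfl fun v _ => ?_
        rw [← sum_filter, sum_const, h1 v, smul_eq_mul, mul_comm]
    _ = _ := by rw [← sum_mul]

theorem card_letters (δ : V → A → V) (wt : V → ℕ)
    (hwt : ∀ v u, (univ.filter (fun a => δ v a = u)).card = wt u) (v : V) :
    Fintype.card A = ∑ u, wt u := by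
  have : (univ : Finset A) = (univ : Finset V).biUnion (fun u => univ.filter (fun a => δ v a = u)) := by
    ext a
    simp
  rw [← card_univ, this, card_biUnion]
  · exact sum_congr rfl fun u _ => hwt v u
  · intro u _ u' _ huu'
    show Disjoint _ _
    rw [Finset.disjoint_left]
    intro a ha ha'
    simp only [mem_filter, mem_univ, true_and] at ha ha'
    exact huu' (ha.symm.trans ha')

theorem friedman [Nonempty V] (δ : V → A → V) (wt : V → ℕ)
    (hwt : ∀ v u, (univ.filter (fun a => δ v a = u)).card = wt u) (hpos : ∀ u, 0 < wt u)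
    (hns : ¬ ∃ (w : List A) (q : V), ∀ v, act δ v w = q) :
    ∃ (r m : ℕ) (c : V → Fin r), 2 ≤ r ∧ ∀ j, ∑ v ∈ univ.filter (fun v => c v = j), wt v = m := by
  classical
  -- a fibre of maximal weight
  let F : Finset (Finset V) := univ.filter (fun S => ∃ w q, S = fib δ w q)
  have hF : F.Nonempty := by
    obtain ⟨q⟩ := (inferInstance : Nonempty V)
    exact ⟨fib δ [] q, by simp only [F, mem_filter, mem_univ, true_and]; exact ⟨[], q, rfl⟩⟩
  obtain ⟨S, hS, hmax⟩ := exists_max_image F (fun S => ∑ v ∈ S, wt v) hF
  obtain ⟨u, q, rfl⟩ : ∃ w q, S = fib δ w q := by simpa [F] using hS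
  set m := ∑ v ∈ fib δ u q, wt v with hm
  have hmax' : ∀ w q', ∑ v ∈ fib δ w q', wt v ≤ m := by
    intro w q'
    exact hmax _ (by simp only [F, mem_filter, mem_univ, true_and]; exact ⟨w, q', rfl⟩)
  have hcard : ∀ v : V, Fintype.card A = ∑ u, wt u := card_letters δ wt hwt
  have key : ∀ x : List A, ∑ v ∈ fib δ (x ++ u) q, wt v = m := by
    intro x
    induction x with
    | nil => rfl
    | cons a x ih =>
      have h1 := sum_pre δ wt hwt (fib δ (x ++ u) q)
      rw [ih] at h1
      have hpre : ∀ b : A, univ.filter (fun v => δ v b ∈ fib δ (x ++ u) q) =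
          fib δ (b :: (x ++ u)) q := by
        intro b
        ext v
        rw [mem_fib, mem_filter, mem_fib, act_cons]
        simp
      simp only [hpre] at h1
      rw [← hcard q] at h1
      have h2 : ∑ b : A, ∑ v ∈ fib δ (b :: (x ++ u)) q, wt v = ∑ _b : A, m := by
        rw [h1, sum_const, card_univ, smul_eq_mul]
      have h3 := (sum_eq_sum_iff_of_le (fun b _ => hmax' (b :: (x ++ u)) q)).1 h2
      exact h3 a (mem_univ _)
  have hmpos : 0 < m := by
    obtain ⟨q0⟩ := (inferInstance : Nonempty V)
    refine lt_of_lt_of_le (hpos q0) (le_trans ?_ (hmax' [] q0))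
    exact single_le_sum (f := wt) (fun _ _ => Nat.zero_le _) (mem_fib.2 rfl)
  obtain ⟨s, hs⟩ : (fib δ u q).Nonempty := by
    rw [nonempty_iff_ne_empty]
    intro h0
    rw [h0, sum_empty] at hm
    omega
  -- a word of minimal rank
  obtain ⟨x, hx⟩ : ∃ x : List A, ∀ y : List A, (univ.image (fun v => act δ v x)).card ≤
      (univ.image (fun v => act δ v y)).card := by
    let R : Set ℕ := {n | ∃ x : List A, (univ.image (fun v => act δ v x)).card = n}
    have hR : R.Nonempty := ⟨_, [], rfl⟩
    obtain ⟨x, hx⟩ := Nat.sInf_mem hR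
    exact ⟨x, fun y => by rw [hx]; exact Nat.sInf_le ⟨y, rfl⟩⟩
  set I := univ.image (fun v => act δ v x) with hI
  have hfib : ∀ p ∈ I, ∑ v ∈ univ.filter (fun v => act δ v x = p), wt v = m := by
    intro p hp
    obtain ⟨y, hy⟩ : ∃ y : A, δ p y = s := by
      have : 0 < (univ.filter (fun a => δ p a = s)).card := by rw [hwt]; exact hpos s
      obtain ⟨y, hy⟩ := card_pos.1 this
      exact ⟨y, by simpa using hy⟩
    have hsu : act δ s u = q := mem_fib.1 hs
    have hpq : act δ p (y :: u) = q := by rw [act_cons, hy, hsu]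
    have himg : univ.image (fun v => act δ v (x ++ y :: u)) = I.image (fun v => act δ v (y :: u)) := by
      rw [hI, image_image]
      refine image_congr fun v _ => ?_
      simp [act_append]
    have hinj : Set.InjOn (fun v => act δ v (y :: u)) I := by
      rw [← card_image_iff]
      refine le_antisymm card_image_le ?_
      rw [← himg]
      exact hx _
    have hset : fib δ (x ++ y :: u) q = univ.filter (fun v => act δ v x = p) := by
      ext v
      rw [mem_fib, mem_filter, act_append]
      simp only [mem_univ, true_and]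
      constructor
      · intro h
        refine hinj ?_ hp (by simpa using h.trans hpq.symm)
        simp only [hI, coe_image, coe_univ, Set.image_univ, Set.mem_range]
        exact ⟨v, rfl⟩
      · intro h
        rw [h, hpq]
    rw [← hset]
    have := key (x ++ [y])
    rwa [List.append_assoc] at this
  -- the rank is at least two
  have hr : 2 ≤ I.card := by
    by_contra hlt
    have h1 : I.card ≤ 1 := by omega
    rw [card_le_one] at h1
    obtain ⟨v0⟩ := (inferInstance : Nonempty V)
    refine hns ⟨x, act δ v0 x, fun v => h1 _ ?_ _ ?_⟩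
    · rw [hI]; exact mem_image_of_mem _ (mem_univ _)
    · rw [hI]; exact mem_image_of_mem _ (mem_univ _)
  let e : {p // p ∈ I} ≃ Fin I.card := I.equivFin
  refine ⟨I.card, m, fun v => e ⟨act δ v x, by rw [hI]; exact mem_image_of_mem _ (mem_univ _)⟩,
    hr, fun j => ?_⟩
  rw [← hfib (e.symm j).1 (e.symm j).2]
  refine sum_congr ?_ fun _ _ => rfl
  ext v
  simp only [mem_filter, mem_univ, true_and]
  rw [← Equiv.eq_symm_apply, Subtype.ext_iff]

end Pool.Agent.NPC.V11230.TS
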