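import Pool.Agent.V11230.UVBP

/-!
# Partitions into classes of equal weight and exact bin packing
-/

set_option autoImplicit false

namespace Pool.Agent.NPC.V11230.TS

open Finset

/-- the weights of the vertices -/
def Wt (A B : List ℕ) (p P : ℕ) : List ℕ :=
  A ++ (B.map (fun b => P - b) ++ List.replicate (p - B.length) P)

theorem wt_length {A B : List ℕ} {p P : ℕ} (hb : B.length ≤ p) :
    (Wt A B p P).length = A.length + p := by
  unfold Wt
  simp only [List.length_append, List.length_map, List.length_replicate]
  omega

theorem wt_A {A B : List ℕ} {p P i : ℕ} (hi : i < A.length) :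
    (Wt A B p P).getD i 0 = A.getD i 0 := by
  unfold Wt
  rw [List.getD_append _ _ _ _ hi]

theorem wt_B {A B : List ℕ} {p P t : ℕ} (ht : t < B.length) :
    (Wt A B p P).getD (A.length + t) 0 = P - B.getD t 0 := by
  unfold Wt
  rw [List.getD_append_right _ _ _ _ (by omega), Nat.add_sub_cancel_left,
    List.getD_append _ _ _ _ (by simpa using ht)]
  simp [List.getD, ht]

theorem wt_P {A B : List ℕ} {p P t : ℕ} (ht : B.length ≤ t) (ht' : t < p) :
    (Wt A B p P).getD (A.length + t) 0 = P := by
  unfold Wt
  rw [List.getD_append_right _ _ _ _ (by omega), Nat.add_sub_cancel_left,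
    List.getD_append_right _ _ _ _ (by simpa using ht)]
  simp only [List.length_map]
  exact List.getD_replicate _ (by omega)

theorem sum_getD (L : List ℕ) : ∑ v ∈ range L.length, L.getD v 0 = L.sum := by
  induction L with
  | nil => simp
  | cons a L ih =>
    rw [List.length_cons, sum_range_succ', List.sum_cons, ← ih]
    simp [add_comm]

theorem wt_sum {A B : List ℕ} {p P : ℕ} (hb : B.length ≤ p) (hB : ∀ b ∈ B, 2 * b < P)
    (hs : A.sum = B.sum) : (Wt A B p P).sum = p * P := by
  have h1 : (B.map (fun b => P - b)).sum + B.sum = B.length * P := by
    clear hs hb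
    induction B with
    | nil => simp
    | cons b B ih =>
      have := ih (fun x hx => hB x (List.mem_cons_of_mem _ hx))
      have h2 := hB b List.mem_cons_self
      simp only [List.map_cons, List.sum_cons, List.length_cons, Nat.succ_mul]
      omega
  unfold Wt
  rw [List.sum_append, List.sum_append, List.sum_replicate, smul_eq_mul, hs]
  have h3 : p * P = B.length * P + (p - B.length) * P := by
    rw [← Nat.add_mul]; congr 1; omega
  omega

theorem sum_filter_range (g : ℕ → ℕ) (q : ℕ → Bool) (a : ℕ) :
    (((List.range a).filter q).map g).sum = ∑ i ∈ range a, if q i then g i else 0 := by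
  induction a with
  | zero => simp
  | succ a ih =>
    rw [List.range_succ, List.filter_append, List.map_append, List.sum_append, ih,
      sum_range_succ]
    by_cases h : q a <;> simp [h]

theorem classes_to_vbp {A B : List ℕ} {p P r m : ℕ} (hA : ∀ a ∈ A, 0 < a)
    (hB : ∀ b ∈ B, 2 * b < P) (hbp : B.length < p) (hp : p.Prime) (hP : P.Prime) (hpP : p < P)
    (hs : A.sum = B.sum) (hr : 2 ≤ r) (c : ℕ → ℕ) (hcr : ∀ v < A.length + p, c v < r)
    (hc : ∀ j < r, ∑ v ∈ range (A.length + p), (if c v = j then (Wt A B p P).getD v 0 else 0) = m) :
    r = p ∧ m = P ∧ VBP A B := by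
  set L := Wt A B p P with hL
  have hlen : L.length = A.length + p := wt_length hbp.le
  have htot : r * m = p * P := by
    have h1 : ∑ j ∈ range r, ∑ v ∈ range (A.length + p), (if c v = j then L.getD v 0 else 0) =
        r * m := by
      rw [sum_congr rfl (fun j hj => hc j (mem_range.1 hj)), sum_const, card_range, smul_eq_mul]
    rw [← h1, sum_comm, ← wt_sum hbp.le hB hs, ← sum_getD, ← hL, hlen]
    refine sum_congr rfl fun v hv => ?_
    rw [sum_ite_eq, if_pos (mem_range.2 (hcr v (mem_range.1 hv)))]
  have hge : ∀ v < A.length + p, L.getD v 0 ≤ m := by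
    intro v hv
    rw [← hc (c v) (hcr v hv)]
    have := single_le_sum (f := fun v' => if c v' = c v then L.getD v' 0 else 0)
      (fun _ _ => Nat.zero_le _) (mem_range.2 hv)
    simpa using this
  have hPm : P ≤ m := by
    have := hge (A.length + B.length) (by omega)
    rwa [hL, wt_P le_rfl hbp] at this
  have hP0 : 0 < P := hP.pos
  have hrp : r ≤ p := by
    by_contra hlt
    have h1 : (p + 1) * P ≤ r * m := Nat.mul_le_mul (by omega) hPm
    rw [htot] at h1
    nlinarith
  have hreq : r = p := by
    by_contra hne
    have hlt : r < p := by omega
    have hco : Nat.Coprime r p := (Nat.coprime_of_lt_prime (by omega) hlt hp).symm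
    have hd : r ∣ P := hco.dvd_of_dvd_mul_left (htot ▸ Dvd.intro m rfl)
    rcases (Nat.dvd_prime hP).1 hd with h1 | h1 <;> omega
  subst hreq
  have hm : m = P := Nat.eq_of_mul_eq_mul_left (by omega) htot
  subst hm
  refine ⟨rfl, rfl, ?_⟩
  -- big items
  have hbig : ∀ t < r, m < 2 * L.getD (A.length + t) 0 := by
    intro t ht
    by_cases h : t < B.length
    · rw [hL, wt_B h]
      have h2 := hB (B.getD t 0) (by rw [List.getD_eq_getElem _ _ h]; exact List.getElem_mem _)
      omega
    · rw [hL, wt_P (by omega) ht]; omega
  have hinj : ∀ t < r, ∀ t' < r, c (A.length + t) = c (A.length + t') → t = t' := by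
    intro t ht t' ht' hcc
    by_contra hne
    have h1 := hc (c (A.length + t)) (hcr _ (by omega))
    have h2 : ∑ v ∈ ({A.length + t, A.length + t'} : Finset ℕ),
        (if c v = c (A.length + t) then L.getD v 0 else 0) ≤
        ∑ v ∈ range (A.length + r), (if c v = c (A.length + t) then L.getD v 0 else 0) := by
      apply sum_le_sum_of_subset
      intro v hv
      simp only [mem_insert, mem_singleton] at hv
      rw [mem_range]
      omega
    rw [sum_pair (by omega), h1, if_pos rfl, if_pos hcc.symm] at h2
    have h3 := hbig t ht
    have h4 := hbig t' ht'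
    omega
  have hsur : ∀ j < r, ∃ t < r, c (A.length + t) = j := by
    intro j hj
    let f : Fin r → Fin r := fun t => ⟨c (A.length + t), hcr _ (by omega)⟩
    have hf : Function.Injective f := by
      intro t t' h
      exact Fin.ext (hinj t t.2 t' t'.2 (by simpa [f] using h))
    obtain ⟨t, ht⟩ := (Finite.injective_iff_surjective.1 hf) ⟨j, hj⟩
    exact ⟨t, t.2, by simpa [f] using congrArg Fin.val ht⟩
  have hpart : ∀ t < r, (∑ i ∈ range A.length, if c i = c (A.length + t) then A.getD i 0 else 0) +
      L.getD (A.length + t) 0 = m := by
    intro t ht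
    rw [← hc (c (A.length + t)) (hcr _ (by omega)), sum_range_add]
    congr 1
    · refine sum_congr rfl fun i hi => ?_
      rw [hL, wt_A (mem_range.1 hi)]
    · rw [sum_eq_single t]
      · simp
      · intro t' ht' hne
        rw [if_neg]
        intro h
        exact hne (hinj t' (mem_range.1 ht') t ht h)
      · intro h
        exact (h (mem_range.2 ht)).elim
  have hB' : ∀ t < B.length, (∑ i ∈ range A.length, if c i = c (A.length + t) then A.getD i 0 else 0)
      = B.getD t 0 := by
    intro t ht
    have h1 := hpart t (by omega)
    rw [hL, wt_B ht] at h1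
    have h2 := hB (B.getD t 0) (by rw [List.getD_eq_getElem _ _ ht]; exact List.getElem_mem _)
    omega
  have hE : ∀ i < A.length, ∃ t < B.length, c i = c (A.length + t) := by
    intro i hi
    obtain ⟨t, ht, hct⟩ := hsur (c i) (hcr i (by omega))
    by_cases h : t < B.length
    · exact ⟨t, h, hct.symm⟩
    · exfalso
      have h1 := hpart t ht
      rw [hL, wt_P (by omega) ht] at h1
      have h2 := single_le_sum (f := fun i => if c i = c (A.length + t) then A.getD i 0 else 0)
        (fun _ _ => Nat.zero_le _) (mem_range.2 hi)
      simp only [hct, if_true] at h2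
      rw [hct] at h1
      have h3 := hA (A.getD i 0) (by rw [List.getD_eq_getElem _ _ hi]; exact List.getElem_mem _)
      omega
  -- the packing
  have hAget : (List.range A.length).map (fun i => A.getD i 0) = A := by
    apply List.ext_getElem
    · simp
    · intro i h1 h2
      simp [h2]
  refine ⟨(List.range B.length).map (fun t =>
    ((List.range A.length).filter (fun i => decide (c i = c (A.length + t)))).map
      (fun i => A.getD i 0)), ?_, ?_⟩
  · have h1 : ((List.range B.length).map (fun t =>
        ((List.range A.length).filter (fun i => decide (c i = c (A.length + t)))).map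
        (fun i => A.getD i 0))).flatten = (((List.range B.length).flatMap (fun t =>
        (List.range A.length).filter (fun i => decide (c i = c (A.length + t))))).map
        (fun i => A.getD i 0)) := by
      rw [List.map_flatMap, List.flatMap_def]
    have h2 : ((List.range B.length).flatMap (fun t =>
        (List.range A.length).filter (fun i => decide (c i = c (A.length + t))))).Perm
        (List.range A.length) := by
      rw [List.perm_ext_iff_of_nodup]
      · intro i
        simp only [List.mem_flatMap, List.mem_range, List.mem_filter, decide_eq_true_eq]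
        constructor
        · rintro ⟨t, -, hi, -⟩
          exact hi
        · intro hi
          obtain ⟨t, ht, hct⟩ := hE i hi
          exact ⟨t, ht, hi, hct⟩
      · rw [List.nodup_flatMap]
        refine ⟨fun t _ => List.Nodup.filter _ List.nodup_range, ?_⟩
        refine List.Nodup.pairwise_of_forall_ne List.nodup_range ?_
        intro t ht t' ht' hne i hi hi'
        simp only [List.mem_filter, decide_eq_true_eq, List.mem_range] at hi hi' ht ht'
        exact hne (hinj t (by omega) t' (by omega) (hi.2.symm.trans hi'.2))
      · exact List.nodup_range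
    rw [h1]
    exact (h2.map _).trans (by rw [hAget])
  · have h3 : ((List.range B.length).map (fun t =>
        ((List.range A.length).filter (fun i => decide (c i = c (A.length + t)))).map
        (fun i => A.getD i 0))).map List.sum = B := by
      apply List.ext_getElem
      · simp
      · intro t h1 h2
        simp only [List.getElem_map, List.getElem_range]
        rw [sum_filter_range]
        have h4 := hB' t h2
        rw [List.getD_eq_getElem _ _ h2] at h4
        simpa using h4
    rw [h3]

end Pool.Agent.NPC.V11230.TS
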