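import Pool.Agent.V11230.TSyncA
import Pool.Agent.V11230.TSyncB

/-!
# Totally synchronizing digraphs: definitions, and the first direction of the reduction
-/

set_option autoImplicit false

namespace Pool.Agent.NPC.V11230.TS

open Finset

/-- The state reached from `v` with the letter `a`: `C` lists for every state the heads of its
edges in the order of the letters `0, 1, …`. -/
def step (C : List (List ℕ)) (v a : ℕ) : ℕ := (C.getD v []).getD a 0

/-- The state reached from `v` with the word `w`. -/
def run (C : List (List ℕ)) (v : ℕ) (w : List ℕ) : ℕ := w.foldl (step C) v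

/-- `k`-out-regular digraphs: `G` lists for every vertex the heads of its `k` outgoing edges. -/
def Reg (k : ℕ) (G : List (List ℕ)) : Prop := ∀ l ∈ G, l.length = k ∧ ∀ u ∈ l, u < G.length

/-- Colourings: the outgoing edges of every vertex are put in the order of the letters. -/
def IsColouring (G C : List (List ℕ)) : Prop := List.Forall₂ List.Perm C G

/-- Synchronizing automata: some word leads from all states to the same state. -/
def Sync (k : ℕ) (C : List (List ℕ)) : Prop :=
  ∃ w : List ℕ, (∀ a ∈ w, a < k) ∧ ∃ q < C.length, ∀ v < C.length, run C v w = q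

/-- Totally synchronizing `k`-out-regular digraphs. -/
def TotSync (G : List (List ℕ)) : Prop :=
  ∃ k, 1 ≤ k ∧ Reg k G ∧ ∀ C, IsColouring G C → Sync k C

theorem run_nil (C : List (List ℕ)) (v : ℕ) : run C v [] = v := rfl

theorem run_cons (C : List (List ℕ)) (v a : ℕ) (w : List ℕ) :
    run C v (a :: w) = run C (step C v a) w := rfl

theorem step_lt {k : ℕ} {C : List (List ℕ)} (hC : Reg k C) {v a : ℕ} (hv : v < C.length)
    (ha : a < k) : step C v a < C.length := by
  unfold step
  rw [List.getD_eq_getElem _ _ hv]
  obtain ⟨h1, h2⟩ := hC C[v] (List.getElem_mem _)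
  rw [List.getD_eq_getElem _ _ (by omega)]
  exact h2 _ (List.getElem_mem _)

theorem reg_of_colouring {k : ℕ} {G C : List (List ℕ)} (h : IsColouring G C) (hG : Reg k G) :
    Reg k C := by
  have hlen : C.length = G.length := h.length_eq
  intro l hl
  obtain ⟨i, hi, rfl⟩ := List.getElem_of_mem hl
  have hp : (C[i]).Perm (G[i]'(by omega)) := by
    have := List.forall₂_iff_get.1 h
    exact this.2 i hi (by omega)
  obtain ⟨h1, h2⟩ := hG _ (List.getElem_mem (l := G) (n := i) (by omega))
  refine ⟨hp.length_eq.trans h1, fun u hu => ?_⟩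
  rw [hlen]
  exact h2 u (hp.mem_iff.1 hu)

/-- the automaton of a regular list -/
def dl {k : ℕ} {C : List (List ℕ)} (hC : Reg k C) (v : Fin C.length) (a : Fin k) : Fin C.length :=
  ⟨step C v a, step_lt hC v.2 a.2⟩

theorem act_dl {k : ℕ} {C : List (List ℕ)} (hC : Reg k C) (w : List (Fin k)) :
    ∀ v : Fin C.length, (act (dl hC) v w).val = run C v (w.map Fin.val) := by
  induction w with
  | nil => intro v; rfl
  | cons a w ih =>
    intro v
    rw [act_cons, List.map_cons, run_cons, ih]
    rfl

theorem count_dl {k : ℕ} {C : List (List ℕ)} (hC : Reg k C) (v u : Fin C.length) :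
    (univ.filter (fun a => dl hC v a = u)).card = (C[v.val]).count u.val := by
  obtain ⟨h1, h2⟩ := hC C[v.val] (List.getElem_mem _)
  have e1 : C[v.val] = (List.finRange k).map (fun a : Fin k => step C v.val a.val) := by
    apply List.ext_getElem
    · simp [h1]
    · intro i h3 h4
      rw [List.getElem_map, List.getElem_finRange]
      have h5 : step C v.val i = (C[v.val])[i] := by
        unfold step
        rw [List.getD_eq_getElem _ _ v.2]
        exact List.getD_eq_getElem _ _ h3
      exact h5.symm
  rw [e1, ← Multiset.coe_count, ← Multiset.map_coe, Multiset.count_map]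
  rw [Finset.card_def]
  simp only [Finset.filter_val]
  congr 1
  have e2 : (univ : Finset (Fin k)).val = ((List.finRange k : List (Fin k)) : Multiset (Fin k)) := rfl
  rw [e2]
  refine Multiset.filter_congr fun a _ => ?_
  unfold dl
  rw [Fin.ext_iff]
  exact eq_comm

/-- the out-neighbours of every vertex of the digraph with the weights `L` -/
def Hd (L : List ℕ) : List ℕ := (List.range L.length).flatMap (fun u => List.replicate (L.getD u 0) u)

theorem count_flatMap_rep (f : ℕ → ℕ) (u n : ℕ) :
    ((List.range n).flatMap (fun v => List.replicate (f v) v)).count u = if u < n then f u else 0 := by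
  induction n with
  | zero => simp
  | succ n ih =>
    rw [List.range_succ, List.flatMap_append, List.count_append, ih]
    simp only [List.flatMap_cons, List.flatMap_nil, List.append_nil, List.count_replicate]
    by_cases h : n = u
    · subst h; simp
    · have h' : ¬ (n == u) = true := by simpa using h
      rw [if_neg h']
      by_cases h2 : u < n
      · rw [if_pos h2, if_pos (by omega), Nat.add_zero]
      · rw [if_neg h2, if_neg (by omega)]

theorem count_Hd {L : List ℕ} {u : ℕ} (hu : u < L.length) : (Hd L).count u = L.getD u 0 := by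
  unfold Hd
  rw [count_flatMap_rep, if_pos hu]

theorem length_Hd (L : List ℕ) : (Hd L).length = L.sum := by
  unfold Hd
  rw [List.length_flatMap]
  have : (List.range L.length).map (fun a => (List.replicate (L.getD a 0) a).length) = L := by
    apply List.ext_getElem
    · simp
    · intro i h1 h2
      rw [List.getElem_map, List.length_replicate, List.getElem_range]
      exact List.getD_eq_getElem _ _ h2
  rw [this]

theorem mem_Hd {L : List ℕ} {u : ℕ} (hu : u ∈ Hd L) : u < L.length := by
  unfold Hd at hu
  simp only [List.mem_flatMap, List.mem_range, List.mem_replicate] at hu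
  obtain ⟨v, hv, -, rfl⟩ := hu
  exact hv

/-- the digraph -/
def Gr (L : List ℕ) : List (List ℕ) := List.replicate L.length (Hd L)

theorem reg_Gr (L : List ℕ) : Reg L.sum (Gr L) := by
  intro l hl
  unfold Gr at *
  obtain rfl := (List.mem_replicate.1 hl).2
  refine ⟨length_Hd L, fun u hu => ?_⟩
  rw [List.length_replicate]
  exact mem_Hd hu

theorem not_sync_classes {L : List ℕ} {C : List (List ℕ)} (hpos : ∀ a ∈ L, 0 < a) (hne : L ≠ [])
    (hC : IsColouring (Gr L) C) (hns : ¬ Sync L.sum C) :
    ∃ (r m : ℕ) (c : ℕ → ℕ), 2 ≤ r ∧ (∀ v < L.length, c v < r) ∧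
      ∀ j < r, ∑ v ∈ range L.length, (if c v = j then L.getD v 0 else 0) = m := by
  have hR := reg_of_colouring hC (reg_Gr L)
  have hlen : C.length = L.length := by rw [hC.length_eq, Gr, List.length_replicate]
  have hn : 0 < C.length := by rw [hlen]; exact List.length_pos_iff.2 hne
  have : Nonempty (Fin C.length) := ⟨⟨0, hn⟩⟩
  have hget : ∀ u : Fin C.length, 0 < L.getD u 0 := by
    intro u
    have hu := u.2
    rw [List.getD_eq_getElem _ _ (by omega)]
    exact hpos _ (List.getElem_mem _)
  obtain ⟨r, m, c, hr, hc⟩ := friedman (dl hR) (fun u => L.getD u 0) (by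
    intro v u
    have hv := v.2
    have hu := u.2
    rw [count_dl]
    have hp : (C[v.val]).Perm (Hd L) := by
      have := (List.forall₂_iff_get.1 hC).2 v.val v.2 (by rw [Gr, List.length_replicate]; omega)
      simpa [Gr] using this
    rw [hp.count_eq, count_Hd (by omega)]) hget (by
    rintro ⟨w, q, hw⟩
    refine hns ⟨w.map Fin.val, ?_, q, q.2, fun v hv => ?_⟩
    · intro a ha
      obtain ⟨b, -, rfl⟩ := List.mem_map.1 ha
      exact b.2
    · rw [← hw ⟨v, hv⟩, act_dl])
  refine ⟨r, m, fun v => if h : v < C.length then (c ⟨v, h⟩).val else 0, hr, ?_, ?_⟩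
  · intro v hv
    have hv' : v < C.length := by omega
    simp only [dif_pos hv']
    exact (c _).2
  · intro j hj
    rw [← hlen, sum_range, ← hc ⟨j, hj⟩, sum_filter]
    refine sum_congr rfl fun v _ => ?_
    simp [Fin.ext_iff]

end Pool.Agent.NPC.V11230.TS
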