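import Pool.Agent.V11230.TSyncC

/-!
# Totally synchronizing digraphs: from packings to colourings which are not synchronizing
-/

set_option autoImplicit false

namespace Pool.Agent.NPC.V11230.TS

open Finset

theorem sum_map_range (g : ℕ → ℕ) (a : ℕ) : ((List.range a).map g).sum = ∑ i ∈ range a, g i := by
  induction a with
  | zero => simp
  | succ a ih => rw [List.range_succ, List.map_append, List.sum_append, ih, sum_range_succ]; simp

theorem vbp_to_fun {A B : List ℕ} (h : VBP A B) : ∃ c : ℕ → ℕ, (∀ i < A.length, c i < B.length) ∧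
    ∀ j < B.length, ∑ i ∈ range A.length, (if c i = j then A.getD i 0 else 0) = B.getD j 0 := by
  obtain ⟨Q, h1, h2⟩ := h
  obtain ⟨Q2, hQ2, hs⟩ := lift_perm List.sum h2.symm
  have hAget : (List.range A.length).map (fun i => A.getD i 0) = A := by
    apply List.ext_getElem
    · simp
    · intro i h1 h2
      simp [h2]
  have h3 : Q2.flatten.Perm ((List.range A.length).map (fun i => A.getD i 0)) := by
    rw [hAget]; exact hQ2.flatten.trans h1
  obtain ⟨l', hl1, hl2⟩ := lift_perm _ h3
  obtain ⟨Q', rfl, hQ'⟩ := lift_flatten _ Q2 l' hl2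
  have hlen : Q'.length = B.length := by
    rw [← hs, List.length_map, ← hQ', List.length_map]
  have hnd : Q'.flatten.Nodup := hl1.nodup_iff.2 List.nodup_range
  rw [List.nodup_flatten] at hnd
  have hex : ∀ i < A.length, ∃ q ∈ Q', decide (i ∈ q) = true := by
    intro i hi
    obtain ⟨q, hq, hiq⟩ := List.mem_flatten.1 (hl1.mem_iff.2 (List.mem_range.2 hi))
    exact ⟨q, hq, by simpa using hiq⟩
  have hlt : ∀ i < A.length, Q'.findIdx (fun q => decide (i ∈ q)) < Q'.length := fun i hi =>
    List.findIdx_lt_length.2 (hex i hi)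
  refine ⟨fun i => Q'.findIdx (fun q => decide (i ∈ q)), fun i hi => by rw [← hlen]; exact hlt i hi,
    fun j hj => ?_⟩
  have hj' : j < Q'.length := by omega
  have hset : (range A.length).filter (fun i => Q'.findIdx (fun q => decide (i ∈ q)) = j) =
      (Q'[j]).toFinset := by
    ext i
    rw [mem_filter, mem_range, List.mem_toFinset]
    constructor
    · rintro ⟨hi, hc⟩
      have h5 := List.findIdx_getElem (w := hlt i hi)
      simp only [hc] at h5
      simpa using h5
    · intro hi
      have hi' : i < A.length := List.mem_range.1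
        (hl1.mem_iff.1 (List.mem_flatten.2 ⟨_, List.getElem_mem hj', hi⟩))
      refine ⟨hi', ?_⟩
      by_contra hne
      have h5 := List.findIdx_getElem (w := hlt i hi')
      have h6 : i ∈ Q'[Q'.findIdx (fun q => decide (i ∈ q))]'(hlt i hi') := by simpa using h5
      rcases Nat.lt_or_ge (Q'.findIdx (fun q => decide (i ∈ q))) j with h7 | h7
      · exact (List.pairwise_iff_getElem.1 hnd.2 _ _ (hlt i hi') hj' h7) h6 hi
      · exact (List.pairwise_iff_getElem.1 hnd.2 _ _ hj' (hlt i hi') (by omega)) hi h6
  rw [← sum_filter, hset, List.sum_toFinset _ (hnd.1 _ (List.getElem_mem hj'))]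
  have h8 : (Q2[j]'(by rw [← hQ', List.length_map]; exact hj')).sum = B[j] := by
    have := List.getElem_map (f := List.sum) (l := Q2) (i := j)
      (h := by rw [List.length_map, ← hQ', List.length_map]; exact hj')
    rw [← this]
    simp only [hs]
  rw [List.getD_eq_getElem _ _ hj, ← h8]
  simp only [← hQ', List.getElem_map]

/-- the class of a vertex -/
def cl (A : List ℕ) (c : ℕ → ℕ) (v : ℕ) : ℕ := if v < A.length then c v else v - A.length

theorem cl_sum {A B : List ℕ} {p P : ℕ} (hB : ∀ b ∈ B, 2 * b < P) {c : ℕ → ℕ}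
    (hc1 : ∀ i < A.length, c i < B.length)
    (hc2 : ∀ j < B.length, ∑ i ∈ range A.length, (if c i = j then A.getD i 0 else 0) = B.getD j 0)
    {j : ℕ} (hj : j < p) :
    ∑ v ∈ range (A.length + p), (if cl A c v = j then (Wt A B p P).getD v 0 else 0) = P := by
  rw [sum_range_add]
  have h1 : ∑ v ∈ range A.length, (if cl A c v = j then (Wt A B p P).getD v 0 else 0) =
      ∑ i ∈ range A.length, (if c i = j then A.getD i 0 else 0) := by
    refine sum_congr rfl fun i hi => ?_
    rw [mem_range] at hi
    rw [cl, if_pos hi, wt_A hi]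
  have h2 : ∑ t ∈ range p, (if cl A c (A.length + t) = j then (Wt A B p P).getD (A.length + t) 0
      else 0) = (Wt A B p P).getD (A.length + j) 0 := by
    have h3 : ∀ t, cl A c (A.length + t) = t := by
      intro t
      unfold cl
      rw [if_neg (by omega)]
      omega
    simp only [h3]
    rw [sum_ite_eq' (range p) j, if_pos (mem_range.2 hj)]
  rw [h1, h2]
  by_cases hjb : j < B.length
  · rw [hc2 j hjb, wt_B hjb]
    have := hB (B.getD j 0) (by rw [List.getD_eq_getElem _ _ hjb]; exact List.getElem_mem _)
    omega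
  · rw [wt_P (by omega) hj, sum_eq_zero, zero_add]
    intro i hi
    have := hc1 i (mem_range.1 hi)
    rw [if_neg (by omega)]

theorem getD_flatMap {P : ℕ} (f : ℕ → List ℕ) : ∀ p : ℕ, (∀ r < p, (f r).length = P) →
    ∀ r < p, ∀ t < P, ((List.range p).flatMap f).getD (P * r + t) 0 = (f r).getD t 0 := by
  intro p
  induction p with
  | zero => intro _ r hr; omega
  | succ p ih =>
    intro hf r hr t ht
    have hl : ((List.range p).flatMap f).length = P * p := by
      rw [List.length_flatMap, sum_map_range, sum_congr rfl (fun r hr => hf r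
        (by have := mem_range.1 hr; omega)), sum_const, card_range, smul_eq_mul, Nat.mul_comm]
    rw [List.range_succ, List.flatMap_append]
    simp only [List.flatMap_cons, List.flatMap_nil, List.append_nil]
    by_cases hrp : r < p
    · have h1 : P * r + t < P * p := by
        calc P * r + t < P * r + P := by omega
          _ = P * (r + 1) := by ring
          _ ≤ P * p := Nat.mul_le_mul_left _ hrp
      rw [List.getD_append _ _ _ _ (by omega)]
      exact ih (fun r hr => hf r (by omega)) r hrp t ht
    · obtain rfl : r = p := by omega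
      rw [List.getD_append_right _ _ _ _ (by omega), hl, Nat.add_sub_cancel_left]

/-- the edges into the class `j` -/
def Ed (n : ℕ) (L : List ℕ) (d : ℕ → ℕ) (j : ℕ) : List ℕ :=
  (List.range n).flatMap (fun u => List.replicate (if d u = j then L.getD u 0 else 0) u)

theorem mem_Ed {n : ℕ} {L : List ℕ} {d : ℕ → ℕ} {j u : ℕ} (h : u ∈ Ed n L d j) : u < n ∧ d u = j := by
  unfold Ed at h
  simp only [List.mem_flatMap, List.mem_range, List.mem_replicate] at h
  obtain ⟨v, hv, h1, rfl⟩ := h
  refine ⟨hv, ?_⟩
  by_contra hne
  rw [if_neg hne] at h1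
  exact h1 rfl

theorem length_Ed (n : ℕ) (L : List ℕ) (d : ℕ → ℕ) (j : ℕ) :
    (Ed n L d j).length = ∑ v ∈ range n, (if d v = j then L.getD v 0 else 0) := by
  unfold Ed
  rw [List.length_flatMap, sum_map_range]
  exact sum_congr rfl fun v _ => by rw [List.length_replicate]

/-- the colouring which respects the classes -/
def Col (n p : ℕ) (L : List ℕ) (d : ℕ → ℕ) : List (List ℕ) :=
  (List.range n).map (fun v => (List.range p).flatMap (fun r => Ed n L d ((d v + r) % p)))

theorem unique_shift {p x y : ℕ} (hx : x < p) (hy : y < p) (g : ℕ) :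
    ∑ r ∈ range p, (if y = (x + r) % p then g else 0) = g := by
  have h0 : (x + (y + p - x) % p) % p = y := by
    rw [Nat.add_mod_mod]
    rw [show x + (y + p - x) = y + p by omega, Nat.add_mod_right, Nat.mod_eq_of_lt hy]
  rw [sum_eq_single ((y + p - x) % p)]
  · rw [if_pos h0.symm]
  · intro r hr hne
    rw [if_neg]
    intro h
    apply hne
    rw [mem_range] at hr
    have h1 : (x + r) % p = (x + (y + p - x) % p) % p := by rw [h0, ← h]
    have h2 : r % p = ((y + p - x) % p) % p := Nat.ModEq.add_left_cancel' x h1
    rw [Nat.mod_mod, Nat.mod_eq_of_lt hr] at h2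
    exact h2
  · intro h
    exact (h (mem_range.2 (Nat.mod_lt _ (by omega)))).elim

theorem isColouring_Col {p : ℕ} {L : List ℕ} {d : ℕ → ℕ} (hd : ∀ v < L.length, d v < p) :
    IsColouring (Gr L) (Col L.length p L d) := by
  unfold IsColouring
  rw [List.forall₂_iff_get]
  refine ⟨by simp [Col, Gr], ?_⟩
  intro i h1 h2
  have hi : i < L.length := by simpa [Gr] using h2
  simp only [List.get_eq_getElem, Col, Gr, List.getElem_map, List.getElem_range,
    List.getElem_replicate]
  rw [List.perm_iff_count]
  intro u
  rw [List.count_flatMap, sum_map_range]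
  have h3 : ∀ r, (List.count u ∘ fun r => Ed L.length L d ((d i + r) % p)) r =
      if u < L.length then (if d u = (d i + r) % p then L.getD u 0 else 0) else 0 := by
    intro r
    simp only [Function.comp_apply]
    unfold Ed
    rw [count_flatMap_rep]
  rw [sum_congr rfl (fun r _ => h3 r)]
  by_cases hu : u < L.length
  · simp only [hu, if_true]
    rw [unique_shift (hd i hi) (hd u hu), count_Hd hu]
  · simp only [hu, if_false, sum_const_zero]
    exact (List.count_eq_zero_of_not_mem (fun h => hu (mem_Hd h))).symm

theorem step_Col {p P : ℕ} {L : List ℕ} {d : ℕ → ℕ}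
    (hs : ∀ j < p, ∑ v ∈ range L.length, (if d v = j then L.getD v 0 else 0) = P)
    (hP : 0 < P) {v a : ℕ} (hv : v < L.length) (ha : a < p * P) :
    step (Col L.length p L d) v a < L.length ∧ d (step (Col L.length p L d) v a) =
      (d v + a / P) % p := by
  have hp : 0 < p := by
    rcases Nat.eq_zero_or_pos p with h | h
    · subst h; simp at ha
    · exact h
  have h1 : step (Col L.length p L d) v a =
      (Ed L.length L d ((d v + a / P) % p)).getD (a % P) 0 := by
    have h0 : (Col L.length p L d).getD v [] =
        (List.range p).flatMap (fun r => Ed L.length L d ((d v + r) % p)) := by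
      have hv' : v < (Col L.length p L d).length := by simpa [Col] using hv
      rw [List.getD_eq_getElem _ _ hv']
      simp only [Col, List.getElem_map, List.getElem_range]
    unfold step
    rw [h0]
    conv_lhs => rw [← Nat.div_add_mod a P]
    refine getD_flatMap _ p (fun r _ => ?_) _ ?_ _ (Nat.mod_lt _ hP)
    · rw [length_Ed]
      exact hs _ (Nat.mod_lt _ hp)
    · exact Nat.div_lt_of_lt_mul (by rw [Nat.mul_comm]; exact ha)
  rw [h1]
  apply mem_Ed
  rw [List.getD_eq_getElem _ _ (by
    rw [length_Ed, hs _ (Nat.mod_lt _ hp)]; exact Nat.mod_lt _ hP)]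
  exact List.getElem_mem _

theorem not_sync_Col {p P : ℕ} {L : List ℕ} {d : ℕ → ℕ} (hd : ∀ v < L.length, d v < p)
    (hs : ∀ j < p, ∑ v ∈ range L.length, (if d v = j then L.getD v 0 else 0) = P)
    (hP : 0 < P) (hp : 2 ≤ p) : ¬ Sync (p * P) (Col L.length p L d) := by
  rintro ⟨w, hw, q, -, hq⟩
  have hlen : (Col L.length p L d).length = L.length := by simp [Col]
  rw [hlen] at hq
  have key : ∀ w : List ℕ, (∀ a ∈ w, a < p * P) → ∀ v < L.length, ∀ v' < L.length, d v ≠ d v' →
      run (Col L.length p L d) v w ≠ run (Col L.length p L d) v' w := by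
    intro w
    induction w with
    | nil =>
      intro _ v _ v' _ hne h
      rw [run_nil, run_nil] at h
      exact hne (by rw [h])
    | cons a w ih =>
      intro hw v hv v' hv' hne
      rw [run_cons, run_cons]
      obtain ⟨h1, h2⟩ := step_Col hs hP hv (hw a List.mem_cons_self)
      obtain ⟨h3, h4⟩ := step_Col hs hP hv' (hw a List.mem_cons_self)
      refine ih (fun b hb => hw b (List.mem_cons_of_mem _ hb)) _ h1 _ h3 ?_
      rw [h2, h4]
      intro h5
      have h6 : d v % p = d v' % p := Nat.ModEq.add_right_cancel' (a / P) h5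
      rw [Nat.mod_eq_of_lt (hd v hv), Nat.mod_eq_of_lt (hd v' hv')] at h6
      exact hne h6
  have hex : ∀ j < p, ∃ v < L.length, d v = j := by
    intro j hj
    by_contra hno
    push Not at hno
    have := hs j hj
    rw [sum_eq_zero (fun v hv => if_neg (hno v (mem_range.1 hv)))] at this
    omega
  obtain ⟨v, hv, h1⟩ := hex 0 (by omega)
  obtain ⟨v', hv', h2⟩ := hex 1 (by omega)
  exact key w hw v hv v' hv' (by omega) ((hq v hv).trans (hq v' hv').symm)

end Pool.Agent.NPC.V11230.TS
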