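import Pool.Agent.V11230.TSyncE

/-!
# Recognising totally synchronizing digraphs: membership in coNP
-/

set_option autoImplicit false

namespace Pool.Agent.NPC.V11230.TS

/-- A set of pairs of distinct states which is closed under the letters. -/
def Closed (k : ℕ) (C : List (List ℕ)) (X : List (ℕ × ℕ)) : Prop :=
  ∀ x ∈ X, x.1 ≠ x.2 ∧ x.1 < C.length ∧ x.2 < C.length ∧
    ∀ a ∈ List.range k, (step C x.1 a, step C x.2 a) ∈ X

theorem not_sync_of_closed {k : ℕ} {C : List (List ℕ)} {X : List (ℕ × ℕ)} (hX : Closed k C X)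
    (hne : X ≠ []) : ¬ Sync k C := by
  rintro ⟨w, hw, q, -, hq⟩
  obtain ⟨x, hx⟩ := List.exists_mem_of_ne_nil X hne
  have key : ∀ w : List ℕ, (∀ a ∈ w, a < k) → ∀ x ∈ X, run C x.1 w ≠ run C x.2 w := by
    intro w
    induction w with
    | nil => intro _ x hx; exact (hX x hx).1
    | cons a w ih =>
      intro hw x hx
      rw [run_cons, run_cons]
      exact ih (fun b hb => hw b (List.mem_cons_of_mem _ hb)) _
        ((hX x hx).2.2.2 a (List.mem_range.2 (hw a List.mem_cons_self)))
  obtain ⟨-, h1, h2, -⟩ := hX x hx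
  exact key w hw x hx ((hq _ h1).trans (hq _ h2).symm)

theorem run_append (C : List (List ℕ)) (v : ℕ) (w w' : List ℕ) :
    run C v (w ++ w') = run C (run C v w) w' := by
  unfold run
  rw [List.foldl_append]

theorem run_lt {k : ℕ} {C : List (List ℕ)} (hC : Reg k C) : ∀ (w : List ℕ) (v : ℕ),
    (∀ a ∈ w, a < k) → v < C.length → run C v w < C.length
  | [], v, _, hv => hv
  | a :: w, v, hw, hv => by
    rw [run_cons]
    exact run_lt hC w _ (fun b hb => hw b (List.mem_cons_of_mem _ hb))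
      (step_lt hC hv (hw a List.mem_cons_self))

theorem sync_of_pairs {k : ℕ} {C : List (List ℕ)} (hC : Reg k C) (hne : 0 < C.length)
    (h : ∀ p < C.length, ∀ q < C.length, ∃ w : List ℕ, (∀ a ∈ w, a < k) ∧ run C p w = run C q w) :
    Sync k C := by
  have key : ∀ S : List ℕ, (∀ v ∈ S, v < C.length) →
      ∃ w : List ℕ, (∀ a ∈ w, a < k) ∧ ∃ q < C.length, ∀ v ∈ S, run C v w = q := by
    intro S
    induction S with
    | nil => intro _; exact ⟨[], by simp, 0, hne, by simp⟩
    | cons s S ih =>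
      intro hS
      obtain ⟨w, hw, q, hq, hSq⟩ := ih (fun v hv => hS v (List.mem_cons_of_mem _ hv))
      have hs := run_lt hC w s hw (hS s List.mem_cons_self)
      obtain ⟨w', hw', hm⟩ := h (run C s w) hs q hq
      refine ⟨w ++ w', ?_, run C q w', run_lt hC w' q hw' hq, ?_⟩
      · intro a ha
        rcases List.mem_append.1 ha with h1 | h1
        · exact hw a h1
        · exact hw' a h1
      · intro v hv
        rw [run_append]
        rcases List.mem_cons.1 hv with rfl | h1
        · exact hm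
        · rw [hSq v h1]
  obtain ⟨w, hw, q, hq, h2⟩ := key (List.range C.length) (fun v hv => List.mem_range.1 hv)
  exact ⟨w, hw, q, hq, fun v hv => h2 v (List.mem_range.2 hv)⟩

theorem closed_of_not_sync {k : ℕ} {C : List (List ℕ)} (hC : Reg k C) (hne : 0 < C.length)
    (h : ¬ Sync k C) : ∃ X : List (ℕ × ℕ), X ≠ [] ∧ Closed k C X ∧
      X.length ≤ C.length * C.length := by
  classical
  let X := ((List.range C.length).flatMap (fun p => (List.range C.length).map (fun q => (p, q)))).filter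
    (fun x => decide (∀ w : List ℕ, (∀ a ∈ w, a < k) → run C x.1 w ≠ run C x.2 w))
  have hX : ∀ x : ℕ × ℕ, x ∈ X ↔ (x.1 < C.length ∧ x.2 < C.length ∧
      ∀ w : List ℕ, (∀ a ∈ w, a < k) → run C x.1 w ≠ run C x.2 w) := by
    rintro ⟨p, q⟩
    simp only [X, List.mem_filter, List.mem_flatMap, List.mem_range, List.mem_map, Prod.mk.injEq,
      decide_eq_true_eq]
    constructor
    · rintro ⟨⟨p', hp', q', hq', rfl, rfl⟩, h1⟩
      exact ⟨hp', hq', h1⟩
    · rintro ⟨h1, h2, h3⟩
      exact ⟨⟨p, h1, q, h2, rfl, rfl⟩, h3⟩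
  refine ⟨X, ?_, ?_, ?_⟩
  · intro h0
    apply h
    refine sync_of_pairs hC hne fun p hp q hq => ?_
    by_contra hno
    push Not at hno
    have : (p, q) ∈ X := (hX (p, q)).2 ⟨hp, hq, hno⟩
    rw [h0] at this
    simp at this
  · intro x hx
    obtain ⟨h1, h2, h3⟩ := (hX x).1 hx
    refine ⟨h3 [] (by simp), h1, h2, fun a ha => ?_⟩
    rw [List.mem_range] at ha
    refine (hX _).2 ⟨step_lt hC h1 ha, step_lt hC h2 ha, fun w hw => ?_⟩
    rw [← run_cons, ← run_cons]
    exact h3 (a :: w) (by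
      intro b hb
      rcases List.mem_cons.1 hb with rfl | h4
      · exact ha
      · exact hw b h4)
  · refine (List.length_filter_le _ _).trans ?_
    rw [List.length_flatMap]
    simp

/-- the number of edges of the first vertex -/
def deg (G : List (List ℕ)) : ℕ := (G.head?.getD []).length

theorem reg_deg {k : ℕ} {G : List (List ℕ)} (hG : Reg k G) (hne : G ≠ []) : deg G = k := by
  cases G with
  | nil => exact (hne rfl).elim
  | cons l G => exact (hG l List.mem_cons_self).1

/-- the test of a certificate -/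
def CertT (G : List (List ℕ)) (w : List (List ℕ) × List (ℕ × ℕ)) : Prop :=
  ¬ (1 ≤ deg G ∧ ∀ l ∈ G, l.length = deg G ∧ ∀ u ∈ l, u < G.length) ∨
    ((w.1.length = G.length ∧ ∀ x ∈ w.1.zip G, x.1.Perm x.2) ∧ w.2 ≠ [] ∧
      ∀ x ∈ w.2, x.1 ≠ x.2 ∧ x.1 < w.1.length ∧ x.2 < w.1.length ∧
        ∀ a ∈ List.range (deg G), (step w.1 x.1 a, step w.1 x.2 a) ∈ w.2)

theorem certT_sound {G : List (List ℕ)} {w : List (List ℕ) × List (ℕ × ℕ)} (h : CertT G w) :
    ¬ TotSync G := by
  rintro ⟨k, hk, hR, hC⟩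
  have hne : G ≠ [] := by
    rintro rfl
    obtain ⟨w, -, q, hq, -⟩ := hC [] List.Forall₂.nil
    simp at hq
  have hd := reg_deg hR hne
  rcases h with h | ⟨⟨h1, h2⟩, h3, h4⟩
  · exact h (by rw [hd]; exact ⟨hk, hR⟩)
  · rw [hd] at h4
    have hcol : IsColouring G w.1 := by
      unfold IsColouring
      rw [List.forall₂_iff_zip]
      exact ⟨h1, fun {a b} hab => h2 (a, b) hab⟩
    exact not_sync_of_closed h4 h3 (hC _ hcol)

theorem certT_complete {G : List (List ℕ)} (h : ¬ TotSync G) :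
    ∃ w : List (List ℕ) × List (ℕ × ℕ), CertT G w ∧ (w.1 = [] ∨ List.Forall₂ List.Perm w.1 G) ∧
      w.2.length ≤ G.length * G.length ∧ ∀ x ∈ w.2, x.1 < G.length ∧ x.2 < G.length := by
  by_cases hv : 1 ≤ deg G ∧ Reg (deg G) G
  · have hne : 0 < G.length := by
      rcases List.eq_nil_or_concat G with h0 | ⟨l, b, h0⟩
      · subst h0
        have := hv.1
        simp [deg] at this
      · rw [h0]; simp
    have h1 : ∃ C, IsColouring G C ∧ ¬ Sync (deg G) C := by
      by_contra hno
      push Not at hno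
      exact h ⟨deg G, hv.1, hv.2, hno⟩
    obtain ⟨C, hC, hns⟩ := h1
    have hlen : C.length = G.length := hC.length_eq
    obtain ⟨X, hX1, hX2, hX3⟩ := closed_of_not_sync (reg_of_colouring hC hv.2) (by omega) hns
    refine ⟨(C, X), Or.inr ⟨⟨hlen, ?_⟩, hX1, hX2⟩, Or.inr hC, by rw [← hlen]; exact hX3, ?_⟩
    · rintro ⟨a, b⟩ hab
      exact (List.forall₂_iff_zip.1 hC).2 hab
    · intro x hx
      have := hX2 x hx
      simp only at *
      omega
  · exact ⟨([], []), Or.inl hv, Or.inl rfl, by simp, by simp⟩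

theorem sz_perm {α : Type} [TEnc α] {l l' : List α} (h : l.Perm l') : sz l = sz l' := by
  induction h with
  | nil => rfl
  | cons a _ ih => rw [sz_list_cons, sz_list_cons, ih]
  | swap a b l => simp only [sz_list_cons]; omega
  | trans _ _ ih1 ih2 => exact ih1.trans ih2

theorem sz_forall2 {C G : List (List ℕ)} (h : List.Forall₂ List.Perm C G) : sz C = sz G := by
  induction h with
  | nil => rfl
  | cons h1 _ ih => rw [sz_list_cons, sz_list_cons, ih, sz_perm h1]

theorem poly_step {α : Type} [TEnc α] {C : α → List (List ℕ)} {v a : α → ℕ} (hC : Poly C)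
    (hv : Poly v) (ha : Poly a) : Poly (fun x => step (C x) (v x) (a x)) := by
  unfold step
  fun_prop

theorem poly_hd : Poly (fun G : List (List ℕ) => G.head?.getD []) := by
  fun_prop

theorem pp_certT : PP (fun x : List (List ℕ) × (List (List ℕ) × List (ℕ × ℕ)) =>
    CertT x.1 x.2) := by
  have hdeg : UPoly (fun x : List (List ℕ) × (List (List ℕ) × List (ℕ × ℕ)) => deg x.1) :=
    UPoly.length (poly_hd.comp (Poly.fst Poly.id))
  have hdp := hdeg.toPoly
  have hdr := hdeg.range
  unfold CertT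
  refine PP.or (PP.not (PP.and (PP.le (Poly.const 1) hdp) ?_)) (PP.and (PP.and
    (PP.eq (by fun_prop) (by fun_prop)) ?_) (PP.and (PP.ne (by fun_prop) (by fun_prop)) ?_))
  · refine PP.ball (l := fun x : List (List ℕ) × (List (List ℕ) × List (ℕ × ℕ)) => x.1)
      (r := fun x l => l.length = deg x.1 ∧ ∀ u ∈ l, u < x.1.length) (by fun_prop) ?_
    refine PP.and (PP.eq (by fun_prop) (hdp.comp (Poly.fst Poly.id))) ?_
    exact PP.ball (l := fun y : (List (List ℕ) × (List (List ℕ) × List (ℕ × ℕ))) × List ℕ => y.2)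
      (r := fun y u => u < y.1.1.length) (by fun_prop) (PP.lt (by fun_prop) (by fun_prop))
  · refine PP.ball (l := fun x : List (List ℕ) × (List (List ℕ) × List (ℕ × ℕ)) => x.2.1.zip x.1)
      (r := fun _ y => y.1.Perm y.2) (by fun_prop) ?_
    exact JIT.pp_perm (by fun_prop) (by fun_prop)
  · refine PP.ball (l := fun x : List (List ℕ) × (List (List ℕ) × List (ℕ × ℕ)) => x.2.2)
      (r := fun x y => y.1 ≠ y.2 ∧ y.1 < x.2.1.length ∧ y.2 < x.2.1.length ∧
        ∀ a ∈ List.range (deg x.1), (step x.2.1 y.1 a, step x.2.1 y.2 a) ∈ x.2.2) (by fun_prop) ?_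
    refine PP.and (PP.ne (by fun_prop) (by fun_prop)) (PP.and (PP.lt (by fun_prop) (by fun_prop))
      (PP.and (PP.lt (by fun_prop) (by fun_prop)) ?_))
    refine PP.ball (l := fun y : (List (List ℕ) × (List (List ℕ) × List (ℕ × ℕ))) × (ℕ × ℕ) =>
      List.range (deg y.1.1)) (r := fun y a =>
        (step y.1.2.1 y.2.1 a, step y.1.2.1 y.2.2 a) ∈ y.1.2.2) (hdr.comp (Poly.fst Poly.id)) ?_
    refine PP.mem (Poly.pair (poly_step (by fun_prop) (by fun_prop) (by fun_prop))
      (poly_step (by fun_prop) (by fun_prop) (by fun_prop))) (by fun_prop)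

theorem inCoNPP_TotSync : InCoNPP TotSync := by
  obtain ⟨b, hb, hb'⟩ := pp_certT
  refine inCoNPP_of (β := List (List ℕ) × List (ℕ × ℕ)) hb
    (Polynomial.X + (Polynomial.X * Polynomial.X) * (8 * Polynomial.X + 4) + 5) (fun G => ⟨?_, ?_⟩)
  · intro h
    obtain ⟨w, h1, h2, h3, h4⟩ := certT_complete h
    refine ⟨w, ?_, (hb' (G, w)).2 h1⟩
    have e0 := JIT.length_le_sz G
    have e1 : sz w.1 ≤ sz G := by
      rcases h2 with h2 | h2
      · rw [h2]
        have h8 := sz_pos G
        rw [sz_list_nil]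
        omega
      · exact (sz_forall2 h2).le
    have e2 : ∀ x ∈ w.2, sz x ≤ 8 * sz G + 3 := by
      rintro ⟨p, q⟩ hx
      obtain ⟨h5, h6⟩ := h4 _ hx
      simp only at h5 h6
      have f1 := Y592.OP.sz_le_of_le (k := p) (s := sz G) (by omega)
      have f2 := Y592.OP.sz_le_of_le (k := q) (s := sz G) (by omega)
      rw [sz_pair]
      omega
    have e3 := sz_le_length_mul w.2 _ e2
    have e4 : w.2.length * (8 * sz G + 3 + 1) ≤ (sz G * sz G) * (8 * sz G + 4) :=
      Nat.mul_le_mul (h3.trans (Nat.mul_le_mul e0 e0)) le_rfl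
    obtain ⟨w1, w2⟩ := w
    rw [sz_pair]
    simp only [Polynomial.eval_add, Polynomial.eval_mul, Polynomial.eval_X,
      Polynomial.eval_ofNat] at *
    omega
  · rintro ⟨w, -, hR⟩
    exact certT_sound ((hb' (G, w)).1 hR)

end Pool.Agent.NPC.V11230.TS
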