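import Mathlib
import Pool.Agent.V11230.CompDi

/-!
# 2-factors with one directed cycle: definitions and the digraph of a formula

The only directed cycles of the digraph run through all the variables and, for each variable,
through all vertices of one of the two literals.  The vertices of the other literal may be covered
by private cycles, or by the cycle through the two vertices of a clause.
-/

set_option autoImplicit false

namespace Pool.Agent.NPC.V11230.TF

open Pool.Agent.NPC Pool.Agent.NPC.V11230.CD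

/-- `F` is a 2-factor of the underlying graph of the digraph with arc relation `A` (a spanning
subgraph in which all vertices have degree `2`), and one of its cycles is a directed cycle
`c 0, c 1, ..., c m = c 0` of the digraph. -/
def HasDirTwoFactor {V : Type} (A : V → V → Prop) : Prop :=
  ∃ F : SimpleGraph V, (∀ u v, F.Adj u v → A u v ∨ A v u) ∧
    (∀ v, (F.neighborSet v).ncard = 2) ∧
    ∃ (m : ℕ) (c : ℕ → V), 3 ≤ m ∧ (∀ i < m, ∀ j < m, c i = c j → i = j) ∧ c m = c 0 ∧
      ∀ i < m, F.Adj (c i) (c (i + 1)) ∧ A (c i) (c (i + 1))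

theorem HasDirTwoFactor.map {V W : Type} {A : V → V → Prop} {B : W → W → Prop} (e : V ≃ W)
    (he : ∀ u v, A u v ↔ B (e u) (e v)) (h : HasDirTwoFactor A) : HasDirTwoFactor B := by
  obtain ⟨F, h1, h2, m, c, h3, h4, h5, h6⟩ := h
  refine ⟨F.comap e.symm, ?_, ?_, m, fun i => e (c i), h3, ?_, ?_, ?_⟩
  · intro u v huv
    rcases h1 _ _ huv with h | h
    · left
      rw [he] at h
      simpa using h
    · right
      rw [he] at h
      simpa using h
  · intro v
    have : (F.comap e.symm).neighborSet v = e '' (F.neighborSet (e.symm v)) := by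
      ext w
      simp only [SimpleGraph.mem_neighborSet, SimpleGraph.comap_adj, Set.mem_image]
      constructor
      · intro h
        exact ⟨e.symm w, h, by simp⟩
      · rintro ⟨x, hx, rfl⟩
        simpa using hx
    rw [this, Set.ncard_image_of_injective _ e.injective, h2]
  · intro i hi j hj hij
    exact h4 i hi j hj (e.injective hij)
  · simp only
    rw [h5]
  · intro i hi
    refine ⟨?_, ?_⟩
    · simp only [SimpleGraph.comap_adj, Equiv.symm_apply_apply]
      exact (h6 i hi).1
    · exact (he _ _).1 (h6 i hi).2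

/-! ### The digraph of a formula -/

/-- Labels of vertices: `(0, x, 0)` is the hub of the variable `x`, `(1, x, j)` and `(2, x, j)` are
the vertices of the literals `x` and not `x` for the clause `j`, `(k + 2, x, j)`, `(k + 4, x, j)`,
`(k + 6, x, j)` are the private vertices of `(k, x, j)`, and `(9, j, 0)`, `(10, j, 0)` are the
vertices of the clause `j`. -/
abbrev T : Type := ℕ × ℕ × ℕ

def okT (L : ℕ) (u : T) : Bool :=
  (decide (u.1 = 0) && decide (u.2.2 = 0)) ||
  (decide (1 ≤ u.1) && decide (u.1 ≤ 8) && decide (u.2.1 < 3 * L)) ||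
  (decide (9 ≤ u.1) && decide (u.2.1 < L) && decide (u.2.2 = 0))

/-- the vertices -/
def lab (L : ℕ) : List T :=
  ((List.range 11).flatMap (fun k => (List.range (3 * L + 1)).flatMap (fun x =>
    (List.range L).map (fun j => (k, x, j))))).filter (okT L)

theorem mem_lab {L k x j : ℕ} : (k, x, j) ∈ lab L ↔
    (k = 0 ∧ x ≤ 3 * L ∧ j = 0 ∧ 0 < L) ∨ (1 ≤ k ∧ k ≤ 8 ∧ x < 3 * L ∧ j < L) ∨
      (9 ≤ k ∧ k ≤ 10 ∧ x < L ∧ j = 0) := by
  unfold lab okT
  simp only [List.mem_filter, List.mem_flatMap, List.mem_range, List.mem_map, Prod.mk.injEq,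
    Bool.or_eq_true, Bool.and_eq_true, decide_eq_true_eq]
  constructor
  · rintro ⟨⟨k', hk, x', hx, j', hj, rfl, rfl, rfl⟩, h⟩
    omega
  · intro h
    refine ⟨⟨k, by omega, x, by omega, j, by omega, rfl, rfl, rfl⟩, by omega⟩

theorem nodup_lab (L : ℕ) : (lab L).Nodup := by
  unfold lab
  refine List.Nodup.filter _ ?_
  refine List.nodup_flatMap.2 ⟨fun k _ => ?_, ?_⟩
  · refine List.nodup_flatMap.2 ⟨fun x _ => ?_, ?_⟩
    · exact List.Nodup.map (fun a b h => by simpa using h) List.nodup_range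
    · refine List.Pairwise.imp_of_mem ?_ List.nodup_range
      intro a b _ _ hab
      intro u hu hu'
      simp only [List.mem_map] at hu hu'
      obtain ⟨_, _, rfl⟩ := hu
      obtain ⟨_, _, h⟩ := hu'
      simp only [Prod.mk.injEq] at h
      exact hab h.2.1.symm
  · refine List.Pairwise.imp_of_mem ?_ List.nodup_range
    intro a b _ _ hab
    intro u hu hu'
    simp only [List.mem_flatMap, List.mem_map] at hu hu'
    obtain ⟨_, _, _, _, rfl⟩ := hu
    obtain ⟨_, _, _, _, h⟩ := hu'
    simp only [Prod.mk.injEq] at h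
    exact hab h.1.symm

/-- the kind of a literal -/
def lk (l : Lit ℕ) : ℕ := if l.1 = true then 1 else 2

/-- the clause contains the literal -/
def inCl (c : Cl) (k x : ℕ) : Bool :=
  (decide (lk c.1 = k) && decide (c.1.2 = x)) ||
  ((decide (lk c.2.1 = k) && decide (c.2.1.2 = x)) ||
  (decide (lk c.2.2 = k) && decide (c.2.2.2 = x)))

/-- a clause -/
def dcl : Cl := ((true, 0), (true, 0), (true, 0))

/-- the arcs -/
def arcB (φ : List Cl) (u v : T) : Bool :=
  (decide (u.1 = 0) && (decide (v.1 = 1) || decide (v.1 = 2)) && decide (v.2.1 = u.2.1) &&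
    decide (v.2.2 = 0)) ||
  ((decide (u.1 = 1) || decide (u.1 = 2)) && decide (v.1 = u.1) && decide (v.2.1 = u.2.1) &&
    decide (v.2.2 = u.2.2 + 1)) ||
  ((decide (u.1 = 1) || decide (u.1 = 2)) && decide (u.2.2 + 1 = φ.length) && decide (v.1 = 0) &&
    decide (v.2.1 = u.2.1 + 1)) ||
  (decide (u.1 = 0) && decide (u.2.1 = 3 * φ.length) && decide (v.1 = 0) && decide (v.2.1 = 0)) ||
  (decide (3 ≤ u.1) && decide (u.1 ≤ 6) && decide (v.1 = u.1 + 2) && decide (v.2 = u.2)) ||
  ((decide (u.1 = 3) || decide (u.1 = 4)) && decide (v.1 = u.1 + 4) && decide (v.2 = u.2)) ||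
  ((decide (u.1 = 3) || decide (u.1 = 4)) && decide (v.1 + 2 = u.1) && decide (v.2 = u.2)) ||
  ((decide (u.1 = 5) || decide (u.1 = 6)) && decide (v.1 + 4 = u.1) && decide (v.2 = u.2)) ||
  (decide (u.1 = 9) && decide (v.1 = 10) && decide (v.2.1 = u.2.1)) ||
  (decide (9 ≤ u.1) && (decide (v.1 = 1) || decide (v.1 = 2)) && decide (v.2.2 = u.2.1) &&
    inCl (φ.getD u.2.1 dcl) v.1 v.2.1)

theorem arcB_iff {φ : List Cl} {k x j k' x' j' : ℕ} : arcB φ (k, x, j) (k', x', j') = true ↔
    (k = 0 ∧ (k' = 1 ∨ k' = 2) ∧ x' = x ∧ j' = 0) ∨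
    ((k = 1 ∨ k = 2) ∧ k' = k ∧ x' = x ∧ j' = j + 1) ∨
    ((k = 1 ∨ k = 2) ∧ j + 1 = φ.length ∧ k' = 0 ∧ x' = x + 1) ∨
    (k = 0 ∧ x = 3 * φ.length ∧ k' = 0 ∧ x' = 0) ∨
    (3 ≤ k ∧ k ≤ 6 ∧ k' = k + 2 ∧ x' = x ∧ j' = j) ∨
    ((k = 3 ∨ k = 4) ∧ k' = k + 4 ∧ x' = x ∧ j' = j) ∨
    ((k = 3 ∨ k = 4) ∧ k' + 2 = k ∧ x' = x ∧ j' = j) ∨
    ((k = 5 ∨ k = 6) ∧ k' + 4 = k ∧ x' = x ∧ j' = j) ∨
    (k = 9 ∧ k' = 10 ∧ x' = x) ∨
    (9 ≤ k ∧ (k' = 1 ∨ k' = 2) ∧ j' = x ∧ inCl (φ.getD x dcl) k' x' = true) := by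
  unfold arcB
  simp only [Bool.or_eq_true, Bool.and_eq_true, decide_eq_true_eq, Prod.mk.injEq, and_assoc,
    or_assoc]

/-- the adjacency matrix -/
def mat (φ : List Cl) : List (List Bool) :=
  (lab φ.length).map (fun u => (lab φ.length).map (fun v => arcB φ u v))

theorem mat_length (φ : List Cl) : (mat φ).length = (lab φ.length).length := by simp [mat]

theorem arc_mat {φ : List Cl} {i j : ℕ} (hi : i < (lab φ.length).length)
    (hj : j < (lab φ.length).length) :
    Arc (mat φ) i j ↔ arcB φ ((lab φ.length)[i]) ((lab φ.length)[j]) = true := by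
  unfold Arc mat
  simp [List.getD_eq_getElem?_getD, List.getElem?_map, hi, hj]

theorem isDigraph_mat (φ : List Cl) : IsDigraph (mat φ) := by
  refine ⟨?_, ?_⟩
  · intro row hrow
    rw [mat_length]
    unfold mat at hrow
    obtain ⟨u, _, rfl⟩ := List.mem_map.1 hrow
    simp
  · intro i h
    by_cases hi : i < (lab φ.length).length
    · rw [arc_mat hi hi] at h
      have hm := List.getElem_mem hi
      generalize (lab φ.length)[i] = u at h hm
      obtain ⟨k, x, j⟩ := u
      rw [arcB_iff] at h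
      rw [mem_lab] at hm
      omega
    · unfold Arc mat at h
      rw [List.getD_eq_getElem?_getD, List.getD_eq_getElem?_getD,
        List.getElem?_eq_none (l := (lab φ.length).map _) (i := i) (by simpa using hi)] at h
      simp at h

/-- the vertices as a type -/
abbrev Vt (φ : List Cl) : Type := {u : T // u ∈ lab φ.length}

/-- positions and vertices -/
def posEquiv (φ : List Cl) : Fin (mat φ).length ≃ Vt φ :=
  (finCongr (mat_length φ)).trans (List.Nodup.getEquiv _ (nodup_lab _))

theorem arc_pos (φ : List Cl) (i j : Fin (mat φ).length) :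
    Arc (mat φ) i j ↔ arcB φ (posEquiv φ i).1 (posEquiv φ j).1 = true := by
  have hi : (i : ℕ) < (lab φ.length).length := lt_of_lt_of_eq i.2 (mat_length φ)
  have hj : (j : ℕ) < (lab φ.length).length := lt_of_lt_of_eq j.2 (mat_length φ)
  rw [arc_mat hi hj]
  rfl

end Pool.Agent.NPC.V11230.TF
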