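import Pool.Agent.V11230.TwoFac1

/-!
# 2-factors with one directed cycle: a 2-factor gives a satisfying assignment
-/

set_option autoImplicit false

namespace Pool.Agent.NPC.V11230.TF

open Pool.Agent.NPC Pool.Agent.NPC.V11230.CD

theorem lk_cases (l : Lit ℕ) : (lk l = 1 ∧ l.1 = true) ∨ (lk l = 2 ∧ l.1 = false) := by
  unfold lk
  cases h : l.1 <;> simp

theorem inCl_iff {c : Cl} {k x : ℕ} : inCl c k x = true ↔
    (lk c.1 = k ∧ c.1.2 = x) ∨ (lk c.2.1 = k ∧ c.2.1.2 = x) ∨ (lk c.2.2 = k ∧ c.2.2.2 = x) := by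
  unfold inCl
  simp

theorem sound {φ : List Cl} (hne : φ ≠ [])
    (h : HasDirTwoFactor (fun u v : Vt φ => arcB φ u.1 v.1 = true)) : SAT3 φ := by
  classical
  obtain ⟨F, h1, h2, m, c, h3, h4, h5, h6⟩ := h
  have hL : 0 < φ.length := List.length_pos_iff.2 hne
  -- on the cycle
  let On : Vt φ → Prop := fun v => ∃ i < m, c i = v
  have step : ∀ v, On v → ∃ a b, On a ∧ On b ∧ a ≠ b ∧ F.Adj v a ∧ F.Adj v b ∧
      arcB φ v.1 a.1 = true ∧ arcB φ b.1 v.1 = true := by
    rintro v ⟨i, hi, rfl⟩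
    have hnext : ∃ i' < m, c i' = c (i + 1) ∧ (i' = i + 1 ∨ (i' = 0 ∧ i + 1 = m)) := by
      rcases Nat.lt_or_ge (i + 1) m with hlt | hge
      · exact ⟨i + 1, hlt, rfl, Or.inl rfl⟩
      · have : i + 1 = m := by omega
        exact ⟨0, by omega, by rw [this, h5], Or.inr ⟨rfl, this⟩⟩
    obtain ⟨i', hi', hci', hii'⟩ := hnext
    have hprev : ∃ i'' < m, c (i'' + 1) = c i ∧ (i'' + 1 = i ∨ (i = 0 ∧ i'' + 1 = m)) := by
      rcases Nat.eq_zero_or_pos i with h0 | hpos
      · subst h0
        refine ⟨m - 1, by omega, ?_, Or.inr ⟨rfl, by omega⟩⟩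
        rw [Nat.sub_add_cancel (by omega), h5]
      · refine ⟨i - 1, by omega, ?_, Or.inl (by omega)⟩
        rw [Nat.sub_add_cancel hpos]
    obtain ⟨i'', hi'', hci'', hii''⟩ := hprev
    refine ⟨c i', c i'', ⟨i', hi', rfl⟩, ⟨i'', hi'', rfl⟩, ?_, ?_, ?_, ?_, ?_⟩
    · intro he
      have := h4 _ hi' _ hi'' he
      omega
    · rw [hci']
      exact (h6 i hi).1
    · have := (h6 i'' hi'').1
      rw [hci''] at this
      exact this.symm
    · rw [hci']
      exact (h6 i hi).2
    · have := (h6 i'' hi'').2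
      rwa [hci''] at this
  have closed : ∀ v w, On v → F.Adj v w → On w := by
    intro v w hv hw
    obtain ⟨a, b, ha, hb, hab, hva, hvb, _, _⟩ := step v hv
    obtain ⟨p, q, hpq, hset⟩ := Set.ncard_eq_two.1 (h2 v)
    have m1 : a ∈ F.neighborSet v := hva
    have m2 : b ∈ F.neighborSet v := hvb
    have m3 : w ∈ F.neighborSet v := hw
    rw [hset] at m1 m2 m3
    rcases m1 with rfl | rfl
    · rcases m2 with rfl | rfl
      · exact absurd rfl hab
      · rcases m3 with rfl | rfl
        · exact ha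
        · exact hb
    · rcases m2 with rfl | rfl
      · rcases m3 with rfl | rfl
        · exact hb
        · exact ha
      · exact absurd rfl hab
  -- labels on the cycle
  let P : ℕ → ℕ → ℕ → Prop := fun k x j => ∃ hm : (k, x, j) ∈ lab φ.length, On ⟨(k, x, j), hm⟩
  have hPnext : ∀ k x j, P k x j → ∃ k' x' j', P k' x' j' ∧
      arcB φ (k, x, j) (k', x', j') = true := by
    rintro k x j ⟨hm, hon⟩
    obtain ⟨⟨⟨k', x', j'⟩, ha⟩, b, hona, _, _, _, _, harc, _⟩ := step _ hon
    exact ⟨k', x', j', ⟨ha, hona⟩, harc⟩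
  have hPprev : ∀ k x j, P k x j → ∃ k' x' j', P k' x' j' ∧
      arcB φ (k', x', j') (k, x, j) = true := by
    rintro k x j ⟨hm, hon⟩
    obtain ⟨a, ⟨⟨k', x', j'⟩, hb⟩, _, honb, _, _, _, _, harc⟩ := step _ hon
    exact ⟨k', x', j', ⟨hb, honb⟩, harc⟩
  have hPlab : ∀ k x j, P k x j → (k, x, j) ∈ lab φ.length := fun k x j h => h.1
  have no34 : ∀ k x j, P k x j → k ≠ 3 ∧ k ≠ 4 ∧ k ≠ 9 := by
    intro k x j hP
    obtain ⟨k', x', j', hP', harc⟩ := hPprev _ _ _ hP
    rw [arcB_iff] at harc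
    have := mem_lab.1 (hPlab _ _ _ hP)
    omega
  have no56 : ∀ k x j, P k x j → k ≠ 5 ∧ k ≠ 6 ∧ k ≠ 10 := by
    intro k x j hP
    obtain ⟨k', x', j', hP', harc⟩ := hPprev _ _ _ hP
    rw [arcB_iff] at harc
    have := mem_lab.1 (hPlab _ _ _ hP)
    have := no34 _ _ _ hP'
    omega
  have no78 : ∀ k x j, P k x j → k ≤ 2 := by
    intro k x j hP
    obtain ⟨k', x', j', hP', harc⟩ := hPprev _ _ _ hP
    rw [arcB_iff] at harc
    have := mem_lab.1 (hPlab _ _ _ hP)
    have := no34 _ _ _ hP'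
    have := no56 _ _ _ hP'
    have := no34 _ _ _ hP
    have := no56 _ _ _ hP
    omega
  have fwd : ∀ k x j, (k = 1 ∨ k = 2) → P k x j → j + 1 < φ.length → P k x (j + 1) := by
    intro k x j hk hP hj
    obtain ⟨k', x', j', hP', harc⟩ := hPnext _ _ _ hP
    rw [arcB_iff] at harc
    have := no78 _ _ _ hP'
    have : k' = k ∧ x' = x ∧ j' = j + 1 := by omega
    obtain ⟨rfl, rfl, rfl⟩ := this
    exact hP'
  have last : ∀ k x j, (k = 1 ∨ k = 2) → P k x j → j + 1 = φ.length → P 0 (x + 1) 0 := by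
    intro k x j hk hP hj
    obtain ⟨k', x', j', hP', harc⟩ := hPnext _ _ _ hP
    rw [arcB_iff] at harc
    have := no78 _ _ _ hP'
    have := mem_lab.1 (hPlab _ _ _ hP')
    have : k' = 0 ∧ x' = x + 1 ∧ j' = 0 := by omega
    obtain ⟨rfl, rfl, rfl⟩ := this
    exact hP'
  have all : ∀ k x d j, (k = 1 ∨ k = 2) → P k x j → j + d < φ.length → P k x (j + d) := by
    intro k x d
    induction d with
    | zero => intro j _ h _; exact h
    | succ d ih =>
      intro j hk h hd
      have := fwd k x (j + d) hk (ih j hk h (by omega)) (by omega)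
      exact this
  have toHub : ∀ k x j, (k = 1 ∨ k = 2) → P k x j → P 0 (x + 1) 0 := by
    intro k x j hk hP
    have := mem_lab.1 (hPlab _ _ _ hP)
    have hj : j < φ.length := by omega
    refine last k x (φ.length - 1) hk ?_ (by omega)
    have h' := all k x (φ.length - 1 - j) j hk hP (by omega)
    rwa [show j + (φ.length - 1 - j) = φ.length - 1 from by omega] at h'
  have hub1 : ∀ x, x < 3 * φ.length → P 0 x 0 → P 1 x 0 ∨ P 2 x 0 := by
    intro x hx hP
    obtain ⟨k', x', j', hP', harc⟩ := hPnext _ _ _ hP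
    rw [arcB_iff] at harc
    have h1 := no78 _ _ _ hP'
    have : (k' = 1 ∨ k' = 2) ∧ x' = x ∧ j' = 0 := by omega
    obtain ⟨hk, rfl, rfl⟩ := this
    rcases hk with rfl | rfl
    · exact Or.inl hP'
    · exact Or.inr hP'
  have hubs : ∀ x, x < 3 * φ.length → P 0 x 0 → P 0 (x + 1) 0 := by
    intro x hx hP
    rcases hub1 x hx hP with h | h
    · exact toHub 1 x 0 (Or.inl rfl) h
    · exact toHub 2 x 0 (Or.inr rfl) h
  have hubs' : ∀ x d, x + d ≤ 3 * φ.length → P 0 x 0 → P 0 (x + d) 0 := by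
    intro x d
    induction d with
    | zero => intro _ h; exact h
    | succ d ih =>
      intro hd h
      exact hubs (x + d) (by omega) (ih (by omega) h)
  have some_hub : ∃ x ≤ 3 * φ.length, P 0 x 0 := by
    have h0 : P (c 0).1.1 (c 0).1.2.1 (c 0).1.2.2 := ⟨(c 0).2, ⟨0, by omega, rfl⟩⟩
    generalize (c 0).1.1 = k at h0
    generalize (c 0).1.2.1 = x at h0
    generalize (c 0).1.2.2 = j at h0
    have hk := no78 _ _ _ h0
    have hl := mem_lab.1 (hPlab _ _ _ h0)
    rcases Nat.eq_zero_or_pos k with hk0 | hk0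
    · subst hk0
      have hj : j = 0 := by omega
      subst hj
      exact ⟨x, by omega, h0⟩
    · exact ⟨x + 1, by omega, toHub k x j (by omega) h0⟩
  have hub0 : P 0 0 0 := by
    obtain ⟨x, hx, hP⟩ := some_hub
    have h := hubs' x (3 * φ.length - x) (by omega) hP
    rw [show x + (3 * φ.length - x) = 3 * φ.length from by omega] at h
    obtain ⟨k', x', j', hP', harc⟩ := hPnext _ _ _ h
    rw [arcB_iff] at harc
    have h1 := no78 _ _ _ hP'
    have h2 := mem_lab.1 (hPlab _ _ _ hP')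
    have : k' = 0 ∧ x' = 0 ∧ j' = 0 := by omega
    obtain ⟨rfl, rfl, rfl⟩ := this
    exact hP'
  have hubAll : ∀ x, x ≤ 3 * φ.length → P 0 x 0 := by
    intro x hx
    have := hubs' 0 x (by omega) hub0
    rwa [Nat.zero_add] at this
  -- the assignment
  refine ⟨fun x => decide (¬ P 1 x 0), fun cl hcl => ?_⟩
  obtain ⟨j, hj, rfl⟩ := List.getElem_of_mem hcl
  have hm9 : (9, j, 0) ∈ lab φ.length := mem_lab.2 (by omega)
  obtain ⟨p, q, hpq, hset⟩ := Set.ncard_eq_two.1 (h2 ⟨(9, j, 0), hm9⟩)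
  have hnb : ∀ p : Vt φ, F.Adj ⟨(9, j, 0), hm9⟩ p → p.1 = (10, j, 0) ∨
      ∃ k x, (k = 1 ∨ k = 2) ∧ p.1 = (k, x, j) ∧ inCl (φ[j]) k x = true := by
    rintro ⟨⟨k, x, j'⟩, hp⟩ hadj
    have hlp := mem_lab.1 hp
    rcases h1 _ _ hadj with h | h
    · rw [arcB_iff] at h
      by_cases hk : k = 10
      · left
        simp only [Prod.mk.injEq]
        omega
      · right
        have hin : (k = 1 ∨ k = 2) ∧ j' = j ∧ inCl (φ.getD j dcl) k x = true := by
          rcases h with h | h | h | h | h | h | h | h | h | h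
          · omega
          · omega
          · omega
          · omega
          · omega
          · omega
          · omega
          · omega
          · omega
          · exact ⟨h.2.1, h.2.2.1, h.2.2.2⟩
        obtain ⟨hk', rfl, hin⟩ := hin
        refine ⟨k, x, hk', rfl, ?_⟩
        rwa [List.getD_eq_getElem?_getD, List.getElem?_eq_getElem hj, Option.getD_some] at hin
    · rw [arcB_iff] at h
      omega
  have hex : ∃ k x, (k = 1 ∨ k = 2) ∧ x < 3 * φ.length ∧ inCl (φ[j]) k x = true ∧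
      ¬ P k x j := by
    have key : ∀ p : Vt φ, F.Adj ⟨(9, j, 0), hm9⟩ p → p.1 ≠ (10, j, 0) →
        ∃ k x, (k = 1 ∨ k = 2) ∧ x < 3 * φ.length ∧ inCl (φ[j]) k x = true ∧ ¬ P k x j := by
      intro p hadj hne'
      rcases hnb p hadj with h | ⟨k, x, hk, hpe, hin⟩
      · exact absurd h hne'
      · have hx : x < 3 * φ.length := by
          have := p.2
          rw [hpe] at this
          have := mem_lab.1 this
          omega
        refine ⟨k, x, hk, hx, hin, ?_⟩
        rintro ⟨hm, hon⟩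
        have hpe' : p = ⟨(k, x, j), hm⟩ := Subtype.ext hpe
        rw [← hpe'] at hon
        have := closed _ _ hon hadj.symm
        exact (no34 9 j 0 ⟨hm9, this⟩).2.2 rfl
    have hp : F.Adj ⟨(9, j, 0), hm9⟩ p := by
      have : p ∈ F.neighborSet ⟨(9, j, 0), hm9⟩ := by rw [hset]; simp
      exact this
    have hq : F.Adj ⟨(9, j, 0), hm9⟩ q := by
      have : q ∈ F.neighborSet ⟨(9, j, 0), hm9⟩ := by rw [hset]; simp
      exact this
    by_cases hp' : p.1 = (10, j, 0)
    · refine key q hq ?_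
      intro hq'
      exact hpq (Subtype.ext (hp'.trans hq'.symm))
    · exact key p hp hp'
  obtain ⟨k, x, hk, hxL, hin, hnP⟩ := hex
  -- the literal is true
  have htrue : ∀ l : Lit ℕ, lk l = k → l.2 = x → decide (¬ P 1 l.2 0) = l.1 := by
    intro l hlk hlx
    rw [hlx]
    rcases lk_cases l with ⟨h, h'⟩ | ⟨h, h'⟩
    · rw [h']
      have hk1 : k = 1 := by omega
      subst hk1
      rw [decide_eq_true_iff]
      intro hP
      have hx := mem_lab.1 (hPlab _ _ _ hP)
      have := all 1 x j 0 (Or.inl rfl) hP (by omega)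
      rw [Nat.zero_add] at this
      exact hnP this
    · rw [h']
      have hk2 : k = 2 := by omega
      subst hk2
      rw [decide_eq_false_iff_not, not_not]
      by_contra hP
      rcases hub1 x hxL (hubAll x (by omega)) with h1 | h1
      · exact hP h1
      · have := all 2 x j 0 (Or.inr rfl) h1 (by omega)
        rw [Nat.zero_add] at this
        exact hnP this
  rw [inCl_iff] at hin
  rcases hin with ⟨h, h'⟩ | ⟨h, h'⟩ | ⟨h, h'⟩
  · left
    exact htrue _ h h'
  · right; left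
    exact htrue _ h h'
  · right; right
    exact htrue _ h h'

end Pool.Agent.NPC.V11230.TF
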