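import Pool.Agent.V11230.TwoFac2

/-!
# 2-factors with one directed cycle: a satisfying assignment gives a 2-factor
-/

set_option autoImplicit false

namespace Pool.Agent.NPC.V11230.TF

open Pool.Agent.NPC Pool.Agent.NPC.V11230.CD

/-- the literal vertex is covered by a private cycle -/
def Free (bad ck cx : ℕ → ℕ) (k x j : ℕ) : Prop := bad x ≠ k ∧ ¬ (ck j = k ∧ cx j = x)

instance (bad ck cx : ℕ → ℕ) (k x j : ℕ) : Decidable (Free bad ck cx k x j) := by
  unfold Free; infer_instance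

/-- one neighbour of a vertex in the 2-factor (on the directed cycle, the one before) -/
def n1 (L : ℕ) (bad ck cx : ℕ → ℕ) (u : T) : T :=
  if u.1 = 0 then (if u.2.1 = 0 then (0, 3 * L, 0) else (bad (u.2.1 - 1), u.2.1 - 1, L - 1))
  else if u.1 ≤ 2 then
    (if bad u.2.1 = u.1 then (if u.2.2 = 0 then (0, u.2.1, 0) else (u.1, u.2.1, u.2.2 - 1))
    else if ck u.2.2 = u.1 ∧ cx u.2.2 = u.2.1 then (9, u.2.2, 0) else (u.1 + 2, u.2))
  else if u.1 ≤ 4 then
    (if Free bad ck cx (u.1 - 2) u.2.1 u.2.2 then (u.1 - 2, u.2) else (u.1 + 2, u.2))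
  else if u.1 ≤ 6 then
    (if Free bad ck cx (u.1 - 4) u.2.1 u.2.2 then (u.1 - 4, u.2) else (u.1 - 2, u.2))
  else if u.1 ≤ 8 then (u.1 - 4, u.2)
  else if u.1 = 9 then (10, u.2) else (9, u.2)

/-- the other neighbour of a vertex in the 2-factor (on the directed cycle, the one after) -/
def n2 (L : ℕ) (bad ck cx : ℕ → ℕ) (u : T) : T :=
  if u.1 = 0 then (if u.2.1 = 3 * L then (0, 0, 0) else (bad u.2.1, u.2.1, 0))
  else if u.1 ≤ 2 then
    (if bad u.2.1 = u.1 then (if u.2.2 + 1 = L then (0, u.2.1 + 1, 0) else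
      (u.1, u.2.1, u.2.2 + 1))
    else if ck u.2.2 = u.1 ∧ cx u.2.2 = u.2.1 then (10, u.2.2, 0) else (u.1 + 4, u.2))
  else if u.1 ≤ 4 then (u.1 + 4, u.2)
  else if u.1 ≤ 6 then (u.1 + 2, u.2)
  else if u.1 ≤ 8 then (u.1 - 2, u.2)
  else (ck u.2.1, cx u.2.1, u.2.1)

section

variable {L : ℕ} {bad ck cx : ℕ → ℕ} {k x j : ℕ}

theorem n1_h0 : n1 L bad ck cx (0, 0, j) = (0, 3 * L, 0) := by simp [n1]

theorem n1_hS : n1 L bad ck cx (0, x + 1, j) = (bad x, x, L - 1) := by simp [n1]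

theorem n2_hL : n2 L bad ck cx (0, 3 * L, j) = (0, 0, 0) := by simp [n2]

theorem n2_h (hx : x ≠ 3 * L) : n2 L bad ck cx (0, x, j) = (bad x, x, 0) := by simp [n2, hx]

theorem n1_b0 (hk : k = 1 ∨ k = 2) (hb : bad x = k) : n1 L bad ck cx (k, x, 0) = (0, x, 0) := by
  rcases hk with rfl | rfl <;> simp [n1, hb]

theorem n1_bS (hk : k = 1 ∨ k = 2) (hb : bad x = k) :
    n1 L bad ck cx (k, x, j + 1) = (k, x, j) := by
  rcases hk with rfl | rfl <;> simp [n1, hb]

theorem n2_bL (hk : k = 1 ∨ k = 2) (hb : bad x = k) (hj : j + 1 = L) :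
    n2 L bad ck cx (k, x, j) = (0, x + 1, 0) := by
  rcases hk with rfl | rfl <;> simp [n2, hb, hj]

theorem n2_b (hk : k = 1 ∨ k = 2) (hb : bad x = k) (hj : j + 1 ≠ L) :
    n2 L bad ck cx (k, x, j) = (k, x, j + 1) := by
  rcases hk with rfl | rfl <;> simp [n2, hb, hj]

theorem n1_u (hk : k = 1 ∨ k = 2) (hb : bad x ≠ k) (hu : ck j = k ∧ cx j = x) :
    n1 L bad ck cx (k, x, j) = (9, j, 0) := by
  obtain ⟨h1, h2⟩ := hu
  subst h2
  rcases hk with rfl | rfl <;> simp [n1, hb, h1]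

theorem n2_u (hk : k = 1 ∨ k = 2) (hb : bad x ≠ k) (hu : ck j = k ∧ cx j = x) :
    n2 L bad ck cx (k, x, j) = (10, j, 0) := by
  obtain ⟨h1, h2⟩ := hu
  subst h2
  rcases hk with rfl | rfl <;> simp [n2, hb, h1]

theorem n1_f (hk : k = 1 ∨ k = 2) (hf : Free bad ck cx k x j) :
    n1 L bad ck cx (k, x, j) = (k + 2, x, j) := by
  unfold n1
  dsimp only
  rw [if_neg (by omega), if_pos (by omega), if_neg hf.1, if_neg hf.2]

theorem n2_f (hk : k = 1 ∨ k = 2) (hf : Free bad ck cx k x j) :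
    n2 L bad ck cx (k, x, j) = (k + 4, x, j) := by
  unfold n2
  dsimp only
  rw [if_neg (by omega), if_pos (by omega), if_neg hf.1, if_neg hf.2]

theorem n1_g (hk : k = 1 ∨ k = 2) (hf : Free bad ck cx k x j) :
    n1 L bad ck cx (k + 2, x, j) = (k, x, j) := by
  unfold n1
  dsimp only
  rw [if_neg (by omega), if_neg (by omega), if_pos (by omega), Nat.add_sub_cancel, if_pos hf]

theorem n1_g' (hk : k = 1 ∨ k = 2) (hf : ¬ Free bad ck cx k x j) :
    n1 L bad ck cx (k + 2, x, j) = (k + 4, x, j) := by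
  unfold n1
  dsimp only
  rw [if_neg (by omega), if_neg (by omega), if_pos (by omega), Nat.add_sub_cancel, if_neg hf]

theorem n2_g (hk : k = 1 ∨ k = 2) : n2 L bad ck cx (k + 2, x, j) = (k + 6, x, j) := by
  unfold n2
  dsimp only
  rw [if_neg (by omega), if_neg (by omega), if_pos (by omega)]

theorem n1_gg (hk : k = 1 ∨ k = 2) (hf : Free bad ck cx k x j) :
    n1 L bad ck cx (k + 4, x, j) = (k, x, j) := by
  unfold n1
  dsimp only
  rw [if_neg (by omega), if_neg (by omega), if_neg (by omega), if_pos (by omega),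
    Nat.add_sub_cancel, if_pos hf]

theorem n1_gg' (hk : k = 1 ∨ k = 2) (hf : ¬ Free bad ck cx k x j) :
    n1 L bad ck cx (k + 4, x, j) = (k + 2, x, j) := by
  unfold n1
  dsimp only
  rw [if_neg (by omega), if_neg (by omega), if_neg (by omega), if_pos (by omega),
    Nat.add_sub_cancel, if_neg hf]
  rfl

theorem n2_gg (hk : k = 1 ∨ k = 2) : n2 L bad ck cx (k + 4, x, j) = (k + 6, x, j) := by
  unfold n2
  dsimp only
  rw [if_neg (by omega), if_neg (by omega), if_neg (by omega), if_pos (by omega)]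

theorem n1_ggg (hk : k = 1 ∨ k = 2) : n1 L bad ck cx (k + 6, x, j) = (k + 2, x, j) := by
  unfold n1
  dsimp only
  rw [if_neg (by omega), if_neg (by omega), if_neg (by omega), if_neg (by omega),
    if_pos (by omega)]
  rfl

theorem n2_ggg (hk : k = 1 ∨ k = 2) : n2 L bad ck cx (k + 6, x, j) = (k + 4, x, j) := by
  unfold n2
  dsimp only
  rw [if_neg (by omega), if_neg (by omega), if_neg (by omega), if_neg (by omega),
    if_pos (by omega)]
  rfl

theorem n1_c : n1 L bad ck cx (9, x, j) = (10, x, j) := by simp [n1]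

theorem n1_c' : n1 L bad ck cx (10, x, j) = (9, x, j) := by simp [n1]

theorem n2_c (hk : k = 9 ∨ k = 10) : n2 L bad ck cx (k, x, j) = (ck x, cx x, x) := by
  rcases hk with rfl | rfl <;> simp [n2]

end

/-! ### Single arcs -/

section

variable {φ : List Cl} {k x j : ℕ}

theorem a1 (hk : k = 1 ∨ k = 2) : arcB φ (0, x, 0) (k, x, 0) = true :=
  arcB_iff.2 (Or.inl ⟨rfl, hk, rfl, rfl⟩)

theorem a2 (hk : k = 1 ∨ k = 2) : arcB φ (k, x, j) (k, x, j + 1) = true :=
  arcB_iff.2 (Or.inr (Or.inl ⟨hk, rfl, rfl, rfl⟩))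

theorem a3 (hk : k = 1 ∨ k = 2) (hj : j + 1 = φ.length) :
    arcB φ (k, x, j) (0, x + 1, 0) = true :=
  arcB_iff.2 (Or.inr (Or.inr (Or.inl ⟨hk, hj, rfl, rfl⟩)))

theorem a4 : arcB φ (0, 3 * φ.length, 0) (0, 0, 0) = true :=
  arcB_iff.2 (Or.inr (Or.inr (Or.inr (Or.inl ⟨rfl, rfl, rfl, rfl⟩))))

theorem a5 (h1 : 3 ≤ k) (h2 : k ≤ 6) : arcB φ (k, x, j) (k + 2, x, j) = true :=
  arcB_iff.2 (Or.inr (Or.inr (Or.inr (Or.inr (Or.inl ⟨h1, h2, rfl, rfl, rfl⟩)))))

theorem a6 (hk : k = 3 ∨ k = 4) : arcB φ (k, x, j) (k + 4, x, j) = true :=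
  arcB_iff.2 (Or.inr (Or.inr (Or.inr (Or.inr (Or.inr (Or.inl ⟨hk, rfl, rfl, rfl⟩))))))

theorem a7 (hk : k = 1 ∨ k = 2) : arcB φ (k + 2, x, j) (k, x, j) = true :=
  arcB_iff.2 (Or.inr (Or.inr (Or.inr (Or.inr (Or.inr (Or.inr
    (Or.inl ⟨by omega, rfl, rfl, rfl⟩)))))))

theorem a8 (hk : k = 1 ∨ k = 2) : arcB φ (k + 4, x, j) (k, x, j) = true :=
  arcB_iff.2 (Or.inr (Or.inr (Or.inr (Or.inr (Or.inr (Or.inr (Or.inr
    (Or.inl ⟨by omega, rfl, rfl, rfl⟩))))))))

theorem a9 {j' : ℕ} : arcB φ (9, x, j) (10, x, j') = true :=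
  arcB_iff.2 (Or.inr (Or.inr (Or.inr (Or.inr (Or.inr (Or.inr (Or.inr (Or.inr
    (Or.inl ⟨rfl, rfl, rfl⟩)))))))))

theorem a10 {k' x' : ℕ} (hk : 9 ≤ k) (hk' : k' = 1 ∨ k' = 2)
    (h : inCl (φ.getD x dcl) k' x' = true) : arcB φ (k, x, j) (k', x', x) = true :=
  arcB_iff.2 (Or.inr (Or.inr (Or.inr (Or.inr (Or.inr (Or.inr (Or.inr (Or.inr (Or.inr
    ⟨hk, hk', rfl, h⟩)))))))))

end

/-- a choice of the false literals and of a true literal in each clause -/
structure Ch (φ : List Cl) (bad ck cx : ℕ → ℕ) : Prop where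
  hbad : ∀ x, bad x = 1 ∨ bad x = 2
  hck : ∀ j < φ.length, ck j = 1 ∨ ck j = 2
  hcx : ∀ j < φ.length, cx j < 3 * φ.length
  hne : ∀ j < φ.length, bad (cx j) ≠ ck j
  hin : ∀ j < φ.length, inCl (φ.getD j dcl) (ck j) (cx j) = true

/-- `a` is a neighbour of `u` -/
def Nb (φ : List Cl) (bad ck cx : ℕ → ℕ) (u a : T) : Prop :=
  a ∈ lab φ.length ∧ a ≠ u ∧ (arcB φ u a = true ∨ arcB φ a u = true) ∧
    (u = n1 φ.length bad ck cx a ∨ u = n2 φ.length bad ck cx a)

variable {φ : List Cl} {bad ck cx : ℕ → ℕ}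

theorem spec_hub (h : Ch φ bad ck cx) {x : ℕ} (hL : 0 < φ.length) (hx : x ≤ 3 * φ.length) :
    Nb φ bad ck cx (0, x, 0) (n1 φ.length bad ck cx (0, x, 0)) ∧
    (Nb φ bad ck cx (0, x, 0) (n2 φ.length bad ck cx (0, x, 0)) ∧
      arcB φ (0, x, 0) (n2 φ.length bad ck cx (0, x, 0)) = true) ∧
    n1 φ.length bad ck cx (0, x, 0) ≠ n2 φ.length bad ck cx (0, x, 0) := by
  have hb := h.hbad x
  refine ⟨?_, ?_, ?_⟩
  · rcases x with _ | y
    · rw [n1_h0]
      refine ⟨mem_lab.2 (by omega), ?_, Or.inr a4, Or.inr n2_hL.symm⟩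
      simp only [ne_eq, Prod.mk.injEq]; omega
    · rw [n1_hS]
      have hb := h.hbad y
      refine ⟨mem_lab.2 (by omega), ?_, Or.inr (a3 hb (by omega)),
        Or.inr (n2_bL hb rfl (by omega)).symm⟩
      simp only [ne_eq, Prod.mk.injEq]; omega
  · by_cases hx' : x = 3 * φ.length
    · subst hx'
      rw [n2_hL]
      have ha : arcB φ (0, 3 * φ.length, 0) (0, 0, 0) = true := a4
      refine ⟨⟨mem_lab.2 (by omega), ?_, Or.inl ha, Or.inl n1_h0.symm⟩, ha⟩
      simp only [ne_eq, Prod.mk.injEq]; omega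
    · rw [n2_h hx']
      have ha : arcB φ (0, x, 0) (bad x, x, 0) = true := a1 hb
      refine ⟨⟨mem_lab.2 (by omega), ?_, Or.inl ha, Or.inl (n1_b0 hb rfl).symm⟩, ha⟩
      simp only [ne_eq, Prod.mk.injEq]; omega
  · rcases x with _ | y
    · rw [n1_h0, n2_h (by omega)]
      simp only [ne_eq, Prod.mk.injEq]; omega
    · rw [n1_hS]
      have hb' := h.hbad y
      by_cases hx' : y + 1 = 3 * φ.length
      · rw [hx', n2_hL]
        simp only [ne_eq, Prod.mk.injEq]; omega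
      · rw [n2_h hx']
        simp only [ne_eq, Prod.mk.injEq]; omega

theorem spec_bad {k x j : ℕ} (hx : x < 3 * φ.length)
    (hj : j < φ.length) (hk : k = 1 ∨ k = 2) (hb : bad x = k) :
    Nb φ bad ck cx (k, x, j) (n1 φ.length bad ck cx (k, x, j)) ∧
    (Nb φ bad ck cx (k, x, j) (n2 φ.length bad ck cx (k, x, j)) ∧
      arcB φ (k, x, j) (n2 φ.length bad ck cx (k, x, j)) = true) ∧
    n1 φ.length bad ck cx (k, x, j) ≠ n2 φ.length bad ck cx (k, x, j) := by
  refine ⟨?_, ?_, ?_⟩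
  · rcases j with _ | i
    · rw [n1_b0 hk hb]
      refine ⟨mem_lab.2 (by omega), ?_, Or.inr (a1 hk), Or.inr ?_⟩
      · simp only [ne_eq, Prod.mk.injEq]; omega
      · rw [n2_h (by omega), hb]
    · rw [n1_bS hk hb]
      refine ⟨mem_lab.2 (by omega), ?_, Or.inr (a2 hk), Or.inr (n2_b hk hb (by omega)).symm⟩
      simp only [ne_eq, Prod.mk.injEq]; omega
  · by_cases hj' : j + 1 = φ.length
    · rw [n2_bL hk hb hj']
      have ha : arcB φ (k, x, j) (0, x + 1, 0) = true := a3 hk hj'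
      refine ⟨⟨mem_lab.2 (by omega), ?_, Or.inl ha, Or.inl ?_⟩, ha⟩
      · simp only [ne_eq, Prod.mk.injEq]; omega
      · rw [n1_hS, hb]
        simp only [Prod.mk.injEq, true_and]; omega
    · rw [n2_b hk hb hj']
      have ha : arcB φ (k, x, j) (k, x, j + 1) = true := a2 hk
      refine ⟨⟨mem_lab.2 (by omega), ?_, Or.inl ha, Or.inl (n1_bS hk hb).symm⟩, ha⟩
      simp only [ne_eq, Prod.mk.injEq]; omega
  · rcases j with _ | i
    · rw [n1_b0 hk hb]
      by_cases hj' : 0 + 1 = φ.length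
      · rw [n2_bL hk hb hj']
        simp only [ne_eq, Prod.mk.injEq]; omega
      · rw [n2_b hk hb hj']
        simp only [ne_eq, Prod.mk.injEq]; omega
    · rw [n1_bS hk hb]
      by_cases hj' : i + 1 + 1 = φ.length
      · rw [n2_bL hk hb hj']
        simp only [ne_eq, Prod.mk.injEq]; omega
      · rw [n2_b hk hb hj']
        simp only [ne_eq, Prod.mk.injEq]; omega

theorem spec_used (h : Ch φ bad ck cx) {k x j : ℕ}
    (hj : j < φ.length) (hk : k = 1 ∨ k = 2) (hb : bad x ≠ k) (hu : ck j = k ∧ cx j = x) :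
    Nb φ bad ck cx (k, x, j) (n1 φ.length bad ck cx (k, x, j)) ∧
    Nb φ bad ck cx (k, x, j) (n2 φ.length bad ck cx (k, x, j)) ∧
    n1 φ.length bad ck cx (k, x, j) ≠ n2 φ.length bad ck cx (k, x, j) := by
  have hin := h.hin j hj
  rw [hu.1, hu.2] at hin
  rw [n1_u hk hb hu, n2_u hk hb hu]
  refine ⟨⟨mem_lab.2 (by omega), ?_, Or.inr (a10 (by omega) hk hin), Or.inr ?_⟩,
    ⟨mem_lab.2 (by omega), ?_, Or.inr (a10 (by omega) hk hin), Or.inr ?_⟩, ?_⟩
  · simp only [ne_eq, Prod.mk.injEq]; omega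
  · rw [n2_c (Or.inl rfl), hu.1, hu.2]
  · simp only [ne_eq, Prod.mk.injEq]; omega
  · rw [n2_c (Or.inr rfl), hu.1, hu.2]
  · simp only [ne_eq, Prod.mk.injEq]; omega

theorem spec_free {k x j : ℕ} (hx : x < 3 * φ.length)
    (hj : j < φ.length) (hk : k = 1 ∨ k = 2) (hf : Free bad ck cx k x j) :
    Nb φ bad ck cx (k, x, j) (n1 φ.length bad ck cx (k, x, j)) ∧
    Nb φ bad ck cx (k, x, j) (n2 φ.length bad ck cx (k, x, j)) ∧
    n1 φ.length bad ck cx (k, x, j) ≠ n2 φ.length bad ck cx (k, x, j) := by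
  rw [n1_f hk hf, n2_f hk hf]
  refine ⟨⟨mem_lab.2 (by omega), ?_, Or.inr (a7 hk), Or.inl (n1_g hk hf).symm⟩,
    ⟨mem_lab.2 (by omega), ?_, Or.inr (a8 hk), Or.inl (n1_gg hk hf).symm⟩, ?_⟩
  · simp only [ne_eq, Prod.mk.injEq]; omega
  · simp only [ne_eq, Prod.mk.injEq]; omega
  · simp only [ne_eq, Prod.mk.injEq]; omega

theorem spec_g {k x j : ℕ} (hx : x < 3 * φ.length) (hj : j < φ.length) (hk : k = 1 ∨ k = 2) :
    Nb φ bad ck cx (k + 2, x, j) (n1 φ.length bad ck cx (k + 2, x, j)) ∧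
    Nb φ bad ck cx (k + 2, x, j) (n2 φ.length bad ck cx (k + 2, x, j)) ∧
    n1 φ.length bad ck cx (k + 2, x, j) ≠ n2 φ.length bad ck cx (k + 2, x, j) := by
  by_cases hf : Free bad ck cx k x j
  · rw [n1_g hk hf, n2_g hk]
    refine ⟨⟨mem_lab.2 (by omega), ?_, Or.inl (a7 hk), Or.inl (n1_f hk hf).symm⟩,
      ⟨mem_lab.2 (by omega), ?_, Or.inl (a6 (by omega)), Or.inl (n1_ggg hk).symm⟩, ?_⟩
    · simp only [ne_eq, Prod.mk.injEq]; omega
    · simp only [ne_eq, Prod.mk.injEq]; omega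
    · simp only [ne_eq, Prod.mk.injEq]; omega
  · rw [n1_g' hk hf, n2_g hk]
    refine ⟨⟨mem_lab.2 (by omega), ?_, Or.inl (a5 (by omega) (by omega)),
      Or.inl (n1_gg' hk hf).symm⟩,
      ⟨mem_lab.2 (by omega), ?_, Or.inl (a6 (by omega)), Or.inl (n1_ggg hk).symm⟩, ?_⟩
    · simp only [ne_eq, Prod.mk.injEq]; omega
    · simp only [ne_eq, Prod.mk.injEq]; omega
    · simp only [ne_eq, Prod.mk.injEq]; omega

theorem spec_gg {k x j : ℕ} (hx : x < 3 * φ.length) (hj : j < φ.length) (hk : k = 1 ∨ k = 2) :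
    Nb φ bad ck cx (k + 4, x, j) (n1 φ.length bad ck cx (k + 4, x, j)) ∧
    Nb φ bad ck cx (k + 4, x, j) (n2 φ.length bad ck cx (k + 4, x, j)) ∧
    n1 φ.length bad ck cx (k + 4, x, j) ≠ n2 φ.length bad ck cx (k + 4, x, j) := by
  by_cases hf : Free bad ck cx k x j
  · rw [n1_gg hk hf, n2_gg hk]
    refine ⟨⟨mem_lab.2 (by omega), ?_, Or.inl (a8 hk), Or.inr (n2_f hk hf).symm⟩,
      ⟨mem_lab.2 (by omega), ?_, Or.inl (a5 (by omega) (by omega)),
        Or.inr (n2_ggg hk).symm⟩, ?_⟩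
    · simp only [ne_eq, Prod.mk.injEq]; omega
    · simp only [ne_eq, Prod.mk.injEq]; omega
    · simp only [ne_eq, Prod.mk.injEq]; omega
  · rw [n1_gg' hk hf, n2_gg hk]
    refine ⟨⟨mem_lab.2 (by omega), ?_, Or.inr (a5 (by omega) (by omega)),
      Or.inl (n1_g' hk hf).symm⟩,
      ⟨mem_lab.2 (by omega), ?_, Or.inl (a5 (by omega) (by omega)),
        Or.inr (n2_ggg hk).symm⟩, ?_⟩
    · simp only [ne_eq, Prod.mk.injEq]; omega
    · simp only [ne_eq, Prod.mk.injEq]; omega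
    · simp only [ne_eq, Prod.mk.injEq]; omega

theorem spec_ggg {k x j : ℕ} (hx : x < 3 * φ.length) (hj : j < φ.length) (hk : k = 1 ∨ k = 2) :
    Nb φ bad ck cx (k + 6, x, j) (n1 φ.length bad ck cx (k + 6, x, j)) ∧
    Nb φ bad ck cx (k + 6, x, j) (n2 φ.length bad ck cx (k + 6, x, j)) ∧
    n1 φ.length bad ck cx (k + 6, x, j) ≠ n2 φ.length bad ck cx (k + 6, x, j) := by
  rw [n1_ggg hk, n2_ggg hk]
  refine ⟨⟨mem_lab.2 (by omega), ?_, Or.inr (a6 (by omega)), Or.inr (n2_g hk).symm⟩,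
    ⟨mem_lab.2 (by omega), ?_, Or.inr (a5 (by omega) (by omega)), Or.inr (n2_gg hk).symm⟩, ?_⟩
  · simp only [ne_eq, Prod.mk.injEq]; omega
  · simp only [ne_eq, Prod.mk.injEq]; omega
  · simp only [ne_eq, Prod.mk.injEq]; omega

theorem spec_c (h : Ch φ bad ck cx) {k x : ℕ} (hx : x < φ.length) (hk : k = 9 ∨ k = 10) :
    Nb φ bad ck cx (k, x, 0) (n1 φ.length bad ck cx (k, x, 0)) ∧
    Nb φ bad ck cx (k, x, 0) (n2 φ.length bad ck cx (k, x, 0)) ∧
    n1 φ.length bad ck cx (k, x, 0) ≠ n2 φ.length bad ck cx (k, x, 0) := by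
  have h1 := h.hck x hx
  have h2 := h.hcx x hx
  have h3 := h.hne x hx
  have h4 := h.hin x hx
  have harc : arcB φ (k, x, 0) (ck x, cx x, x) = true := a10 (by omega) h1 h4
  rw [n2_c hk]
  rcases hk with rfl | rfl
  · rw [n1_c]
    refine ⟨⟨mem_lab.2 (by omega), ?_, Or.inl a9, Or.inl n1_c'.symm⟩,
      ⟨mem_lab.2 (by omega), ?_, Or.inl harc, Or.inl (n1_u h1 h3 ⟨rfl, rfl⟩).symm⟩, ?_⟩
    · simp only [ne_eq, Prod.mk.injEq]; omega
    · simp only [ne_eq, Prod.mk.injEq]; omega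
    · simp only [ne_eq, Prod.mk.injEq]; omega
  · rw [n1_c']
    refine ⟨⟨mem_lab.2 (by omega), ?_, Or.inr a9, Or.inl n1_c.symm⟩,
      ⟨mem_lab.2 (by omega), ?_, Or.inl harc, Or.inr (n2_u h1 h3 ⟨rfl, rfl⟩).symm⟩, ?_⟩
    · simp only [ne_eq, Prod.mk.injEq]; omega
    · simp only [ne_eq, Prod.mk.injEq]; omega
    · simp only [ne_eq, Prod.mk.injEq]; omega

theorem spec (h : Ch φ bad ck cx) {u : T} (hu : u ∈ lab φ.length) :
    Nb φ bad ck cx u (n1 φ.length bad ck cx u) ∧ Nb φ bad ck cx u (n2 φ.length bad ck cx u) ∧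
      n1 φ.length bad ck cx u ≠ n2 φ.length bad ck cx u := by
  obtain ⟨k, x, j⟩ := u
  rcases mem_lab.1 hu with ⟨rfl, h1, rfl, h3⟩ | ⟨h1, h2, h3, h4⟩ | ⟨h1, h2, h3, rfl⟩
  · have := spec_hub h h3 h1
    exact ⟨this.1, this.2.1.1, this.2.2⟩
  · by_cases hk : k ≤ 2
    · have hk' : k = 1 ∨ k = 2 := by omega
      by_cases hb : bad x = k
      · have := spec_bad (ck := ck) (cx := cx) h3 h4 hk' hb
        exact ⟨this.1, this.2.1.1, this.2.2⟩
      · by_cases hu' : ck j = k ∧ cx j = x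
        · exact spec_used h h4 hk' hb hu'
        · exact spec_free h3 h4 hk' ⟨hb, hu'⟩
    · by_cases hk4 : k ≤ 4
      · obtain ⟨k', rfl⟩ : ∃ k', k = k' + 2 := ⟨k - 2, by omega⟩
        exact spec_g h3 h4 (by omega)
      · by_cases hk6 : k ≤ 6
        · obtain ⟨k', rfl⟩ : ∃ k', k = k' + 4 := ⟨k - 4, by omega⟩
          exact spec_gg h3 h4 (by omega)
        · obtain ⟨k', rfl⟩ : ∃ k', k = k' + 6 := ⟨k - 6, by omega⟩
          exact spec_ggg h3 h4 (by omega)
  · exact spec_c h h3 (by omega)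

/-! ### The directed cycle -/

/-- the vertices of the directed cycle -/
def cyc (L : ℕ) (bad : ℕ → ℕ) (t : ℕ) : T :=
  if t = 3 * L * (L + 1) + 1 then (0, 0, 0) else
  if t % (L + 1) = 0 then (0, t / (L + 1), 0) else (bad (t / (L + 1)), t / (L + 1), t % (L + 1) - 1)

theorem cyc_eq {L : ℕ} {bad : ℕ → ℕ} {x r : ℕ} (hx : x < 3 * L) (hr : r ≤ L) :
    cyc L bad (x * (L + 1) + r) = if r = 0 then (0, x, 0) else (bad x, x, r - 1) := by
  have h := (Nat.div_mod_unique (a := x * (L + 1) + r) (b := L + 1) (c := r) (d := x)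
    (by omega)).2 ⟨by rw [Nat.mul_comm (L + 1) x]; omega, by omega⟩
  have hne : x * (L + 1) + r ≠ 3 * L * (L + 1) + 1 := by
    have : (x + 1) * (L + 1) ≤ 3 * L * (L + 1) := Nat.mul_le_mul_right _ (by omega)
    rw [Nat.add_mul, Nat.one_mul] at this
    omega
  unfold cyc
  rw [if_neg hne, h.1, h.2]

theorem cyc_last {L : ℕ} {bad : ℕ → ℕ} : cyc L bad (3 * L * (L + 1)) = (0, 3 * L, 0) := by
  unfold cyc
  rw [if_neg (by omega), Nat.mul_mod_left, if_pos rfl, Nat.mul_div_cancel _ (by omega)]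

theorem cyc_end {L : ℕ} {bad : ℕ → ℕ} : cyc L bad (3 * L * (L + 1) + 1) = (0, 0, 0) := by
  unfold cyc
  rw [if_pos rfl]

theorem cyc_form {L t : ℕ} (hL : 0 < L) (ht : t < 3 * L * (L + 1) + 1) :
    t = 3 * L * (L + 1) ∨ ∃ x r, x < 3 * L ∧ r ≤ L ∧ t = x * (L + 1) + r := by
  by_cases h : t = 3 * L * (L + 1)
  · exact Or.inl h
  · right
    refine ⟨t / (L + 1), t % (L + 1), ?_, ?_, ?_⟩
    · rw [Nat.div_lt_iff_lt_mul (by omega)]
      omega
    · have := Nat.mod_lt t (show 0 < L + 1 by omega)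
      omega
    · have := Nat.div_add_mod t (L + 1)
      rw [Nat.mul_comm] at this
      exact this.symm

theorem cyc_mem (h : Ch φ bad ck cx) (hL : 0 < φ.length) {t : ℕ}
    (ht : t ≤ 3 * φ.length * (φ.length + 1) + 1) : cyc φ.length bad t ∈ lab φ.length := by
  rcases Nat.lt_or_ge t (3 * φ.length * (φ.length + 1) + 1) with hlt | hge
  · rcases cyc_form hL hlt with rfl | ⟨x, r, hx, hr, rfl⟩
    · rw [cyc_last]
      exact mem_lab.2 (by omega)
    · rw [cyc_eq hx hr]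
      have := h.hbad x
      split_ifs
      · exact mem_lab.2 (by omega)
      · exact mem_lab.2 (by omega)
  · have : t = 3 * φ.length * (φ.length + 1) + 1 := by omega
    rw [this, cyc_end]
    exact mem_lab.2 (by omega)

theorem cyc_succ (h : Ch φ bad ck cx) (hL : 0 < φ.length) {t : ℕ}
    (ht : t < 3 * φ.length * (φ.length + 1) + 1) :
    cyc φ.length bad (t + 1) = n2 φ.length bad ck cx (cyc φ.length bad t) ∧
      arcB φ (cyc φ.length bad t) (cyc φ.length bad (t + 1)) = true := by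
  have key : cyc φ.length bad (t + 1) = n2 φ.length bad ck cx (cyc φ.length bad t) ∧
      (arcB φ (cyc φ.length bad t) (n2 φ.length bad ck cx (cyc φ.length bad t)) = true) := by
    rcases cyc_form hL ht with rfl | ⟨x, r, hx, hr, rfl⟩
    · rw [cyc_last, cyc_end]
      exact ⟨n2_hL.symm, (spec_hub h hL (le_refl _)).2.1.2⟩
    · rw [cyc_eq hx hr]
      have hb := h.hbad x
      rcases Nat.eq_zero_or_pos r with rfl | hr0
      · rw [if_pos rfl, Nat.add_assoc, cyc_eq hx (by omega), if_neg (by omega),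
          n2_h (by omega)]
        refine ⟨rfl, ?_⟩
        have := (spec_hub h hL (x := x) (by omega)).2.1.2
        rwa [n2_h (by omega)] at this
      · rw [if_neg (by omega)]
        refine ⟨?_, (spec_bad hx (by omega) hb rfl).2.1.2⟩
        rcases Nat.lt_or_ge r φ.length with hlt | hge
        · rw [Nat.add_assoc, cyc_eq hx (by omega), if_neg (by omega), n2_b hb rfl (by omega)]
          simp only [Prod.mk.injEq, true_and]
          omega
        · have hrL : r = φ.length := by omega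
          rw [n2_bL hb rfl (by omega), hrL]
          have e1 : x * (φ.length + 1) + φ.length + 1 = (x + 1) * (φ.length + 1) := by ring
          rw [e1]
          rcases Nat.lt_or_ge (x + 1) (3 * φ.length) with hx' | hx'
          · have := cyc_eq (bad := bad) (x := x + 1) (r := 0) hx' (Nat.zero_le _)
            rw [Nat.add_zero] at this
            rw [this, if_pos rfl]
          · have : x + 1 = 3 * φ.length := by omega
            rw [this, cyc_last]
  rw [key.1]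
  exact ⟨rfl, key.2⟩

theorem cyc_inj (h : Ch φ bad ck cx) (hL : 0 < φ.length) {s t : ℕ}
    (hs : s < 3 * φ.length * (φ.length + 1) + 1) (ht : t < 3 * φ.length * (φ.length + 1) + 1)
    (hst : cyc φ.length bad s = cyc φ.length bad t) : s = t := by
  rcases cyc_form hL hs with rfl | ⟨x, r, hx, hr, rfl⟩
  · rcases cyc_form hL ht with rfl | ⟨y, q, hy, hq, rfl⟩
    · rfl
    · rw [cyc_last, cyc_eq hy hq] at hst
      split_ifs at hst <;> simp only [Prod.mk.injEq] at hst <;> omega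
  · rcases cyc_form hL ht with rfl | ⟨y, q, hy, hq, rfl⟩
    · rw [cyc_last, cyc_eq hx hr] at hst
      split_ifs at hst <;> simp only [Prod.mk.injEq] at hst <;> omega
    · rw [cyc_eq hx hr, cyc_eq hy hq] at hst
      have hb := h.hbad x
      have hb' := h.hbad y
      have : x = y ∧ r = q := by
        split_ifs at hst <;> simp only [Prod.mk.injEq] at hst <;> omega
      rw [this.1, this.2]

theorem hasDir_of_ch (h : Ch φ bad ck cx) (hL : 0 < φ.length) :
    HasDirTwoFactor (fun u v : Vt φ => arcB φ u.1 v.1 = true) := by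
  classical
  let F : SimpleGraph (Vt φ) :=
    { Adj := fun u v => v.1 = n1 φ.length bad ck cx u.1 ∨ v.1 = n2 φ.length bad ck cx u.1
      symm := ⟨by
        rintro u v (huv | huv)
        · rw [huv]
          exact (spec h u.2).1.2.2.2
        · rw [huv]
          exact (spec h u.2).2.1.2.2.2⟩
      loopless := ⟨by
        rintro u (huu | huu)
        · exact (spec h u.2).1.2.1 huu.symm
        · exact (spec h u.2).2.1.2.1 huu.symm⟩ }
  have h0 : ((0, 0, 0) : T) ∈ lab φ.length := mem_lab.2 (by omega)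
  let toV : T → Vt φ := fun u => if hu : u ∈ lab φ.length then ⟨u, hu⟩ else ⟨(0, 0, 0), h0⟩
  have htoV : ∀ u, u ∈ lab φ.length → (toV u).1 = u := by
    intro u hu
    simp only [toV, dif_pos hu]
  refine ⟨F, ?_, ?_, 3 * φ.length * (φ.length + 1) + 1, fun t => toV (cyc φ.length bad t), ?_, ?_,
    ?_, ?_⟩
  · rintro u v (huv | huv)
    · have := (spec h u.2).1.2.2.1
      rwa [← huv] at this
    · have := (spec h u.2).2.1.2.2.1
      rwa [← huv] at this
  · intro u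
    rw [Set.ncard_eq_two]
    refine ⟨⟨_, (spec h u.2).1.1⟩, ⟨_, (spec h u.2).2.1.1⟩, ?_, ?_⟩
    · intro he
      exact (spec h u.2).2.2 (congrArg Subtype.val he)
    · ext v
      simp only [SimpleGraph.mem_neighborSet, Set.mem_insert_iff, Set.mem_singleton_iff,
        Subtype.ext_iff]
      rfl
  · have : 1 * 2 ≤ 3 * φ.length * (φ.length + 1) := Nat.mul_le_mul (by omega) (by omega)
    omega
  · intro i hi j hj hij
    have e := congrArg Subtype.val hij
    simp only at e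
    rw [htoV _ (cyc_mem h hL hi.le), htoV _ (cyc_mem h hL hj.le)] at e
    exact cyc_inj h hL hi hj e
  · simp only
    rw [cyc_end]
    congr 1
    unfold cyc
    simp
  · intro i hi
    have hs := cyc_succ h hL hi
    have e1 := htoV _ (cyc_mem h hL hi.le)
    have e2 := htoV _ (cyc_mem h hL (t := i + 1) (by omega))
    refine ⟨Or.inr ?_, ?_⟩
    · simp only
      rw [e1, e2]
      exact hs.1
    · simp only
      rw [e1, e2]
      exact hs.2

theorem complete (hb : Bounded3 φ) (hne : φ ≠ []) (h : SAT3 φ) :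
    HasDirTwoFactor (fun u v : Vt φ => arcB φ u.1 v.1 = true) := by
  classical
  obtain ⟨τ, hτ⟩ := h
  have hex : ∀ j, ∃ l : Lit ℕ, j < φ.length → l.2 < 3 * φ.length ∧ τ l.2 = l.1 ∧
      inCl (φ.getD j dcl) (lk l) l.2 = true := by
    intro j
    by_cases hj : j < φ.length
    · have hm := List.getElem_mem hj
      have hg : φ.getD j dcl = φ[j] := by
        rw [List.getD_eq_getElem?_getD, List.getElem?_eq_getElem hj, Option.getD_some]
      have hbj := hb _ hm
      rw [hg]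
      rcases hτ _ hm with h | h | h
      · exact ⟨(φ[j]).1, fun _ => ⟨hbj.1, h, inCl_iff.2 (Or.inl ⟨rfl, rfl⟩)⟩⟩
      · exact ⟨(φ[j]).2.1, fun _ => ⟨hbj.2.1, h, inCl_iff.2 (Or.inr (Or.inl ⟨rfl, rfl⟩))⟩⟩
      · exact ⟨(φ[j]).2.2, fun _ => ⟨hbj.2.2, h, inCl_iff.2 (Or.inr (Or.inr ⟨rfl, rfl⟩))⟩⟩
    · exact ⟨(true, 0), fun h => absurd h hj⟩
  choose l hl using hex
  have hch : Ch φ (fun x => if τ x = true then 2 else 1) (fun j => lk (l j)) (fun j => (l j).2) := by
    refine ⟨fun x => ?_, fun j hj => ?_, fun j hj => (hl j hj).1, fun j hj => ?_,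
      fun j hj => (hl j hj).2.2⟩
    · split_ifs
      · exact Or.inr rfl
      · exact Or.inl rfl
    · rcases lk_cases (l j) with h | h
      · exact Or.inl h.1
      · exact Or.inr h.1
    · have h2 := (hl j hj).2.1
      rcases lk_cases (l j) with h | h
      · rw [h.2] at h2
        rw [if_pos h2, h.1]
        decide
      · rw [h.2] at h2
        rw [if_neg (by rw [h2]; decide), h.1]
        decide
  exact hasDir_of_ch hch (List.length_pos_iff.2 hne)

end Pool.Agent.NPC.V11230.TF
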