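import Pool.Agent.V11230.JITMain

/-!
# Exact bin packing with polynomially bounded sizes is NP-hard
-/

set_option autoImplicit false

namespace Pool.Agent.NPC.V11230

open Pool.Agent.NPC.V11230.VB Pool.Agent.NPC.V11230.JIT

/-- Promise: the items are positive, there are bins, the total size of the items is that of the
bins, and it is polynomially bounded in the number of the bins. -/
def UVPr (I : List ℕ × List ℕ) : Prop :=
  (∀ a ∈ I.1, 0 < a) ∧ I.2 ≠ [] ∧ I.1.sum = I.2.sum ∧
    I.2.sum ≤ 16000 * (I.2.length * I.2.length * (I.2.length * I.2.length))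

namespace UVB

def itemsF (I : List (ℕ × ℕ × ℕ) × ℕ) : List ℕ := (items I.1 (qf I)).map (fun x => val (rf I) x)
def binsF (I : List (ℕ × ℕ × ℕ) × ℕ) : List ℕ := I.1.map (fun t => val (rf I) (bin t))

def redU (I : List (ℕ × ℕ × ℕ) × ℕ) : List ℕ × List ℕ :=
  if (itemsF I).sum = (binsF I).sum then (itemsF I, binsF I) else ([2], [1, 1])

theorem poly_itemsF : Poly itemsF := by
  unfold itemsF
  have hr : Poly rf := upoly_rf.toPoly
  refine Poly.map (F := fun I (x : It) => val (rf I) x) poly_items ?_
  exact poly_val (hr.comp (Poly.fst Poly.id)) (Poly.snd Poly.id)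

theorem poly_binsF : Poly binsF := by
  unfold binsF bin
  have hr : Poly rf := upoly_rf.toPoly
  refine Poly.map (F := fun I (t : ℕ × ℕ × ℕ) => val (rf I) (30, t.1 + 1, t.2.1 + 1, t.2.2 + 1))
    (by fun_prop) ?_
  exact poly_val (hr.comp (Poly.fst Poly.id)) (by fun_prop)

theorem poly_redU : Poly redU := by
  unfold redU
  exact Poly.ite (Poly.dec_eq (Poly.sum poly_itemsF) (Poly.sum poly_binsF))
    (Poly.pair poly_itemsF poly_binsF) (Poly.const _)

end UVB

open UVB in
theorem hardPr_UVBP : HardPr UVPr (fun I => VBP I.1 I.2) := by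
  refine hardPr_TDM.trans poly_redU ?_ ?_
  · intro I hI
    obtain ⟨h1, h2, h3⟩ := hI
    have hq : qf I = I.2 := min_eq_left h3
    have hr : rf I = 4 * I.2 + 4 := by rw [rf, hq]
    unfold redU
    split_ifs with hs
    · refine ⟨?_, ?_, hs, ?_⟩
      · exact fun a ha => (redF_eq ⟨h1, h2, h3⟩).2.2 a (by rw [← hq]; exact ha)
      · intro h0
        have : I.1.length = 0 := by
          have := congrArg List.length h0
          simpa [binsF] using this
        omega
      · have hb : ∀ x ∈ binsF I, x ≤ 31 * (rf I * rf I * rf I) := by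
          intro x hx
          obtain ⟨t, ht, rfl⟩ := List.mem_map.1 hx
          have hMt := h1 t ht
          exact val_le (x := bin t) (r := rf I) (q := I.2) (by omega) (by simp [bin])
            (by simp only [bin]; omega) (by simp only [bin]; omega) (by simp only [bin]; omega)
        have h4 := List.sum_le_card_nsmul (binsF I) _ hb
        have h5 : (binsF I).length = I.1.length := by simp [binsF]
        simp only [h5, smul_eq_mul] at h4 ⊢
        set m := I.1.length
        have h6 : rf I ≤ 8 * m := by omega
        have h7 : rf I * rf I * rf I ≤ 8 * m * (8 * m) * (8 * m) :=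
          Nat.mul_le_mul (Nat.mul_le_mul h6 h6) h6
        calc (binsF I).sum ≤ m * (31 * (rf I * rf I * rf I)) := h4
          _ ≤ m * (31 * (8 * m * (8 * m) * (8 * m))) := by gcongr
          _ ≤ 16000 * (m * m * (m * m)) := by nlinarith [Nat.zero_le (m * m * (m * m))]
    · refine ⟨by simp, by simp, by simp, by simp⟩
  · intro I hI
    obtain ⟨h1, h2, h3⟩ := hI
    have hq : qf I = I.2 := min_eq_left h3
    have hr : 3 * I.2 + 1 < rf I := by rw [rf, hq]; omega
    have key : TDM I ↔ VBP (itemsF I) (binsF I) := by
      unfold itemsF binsF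
      rw [hq]
      exact ⟨fun h => tdm_to_vbp h1 h, fun h => vbp_to_tdm hr h1 h⟩
    unfold redU
    split_ifs with hs
    · exact key
    · rw [key]
      constructor
      · rintro ⟨P, hP1, hP2⟩
        refine (hs ?_).elim
        rw [← hP1.sum_eq, ← hP2.sum_eq, List.sum_flatten]
      · rintro ⟨P, hP1, hP2⟩
        exfalso
        simp only at hP1 hP2
        have h2m : 2 ∈ P.flatten := hP1.mem_iff.2 (by simp)
        obtain ⟨p, hp, h2p⟩ := List.mem_flatten.1 h2m
        have h4 : p.sum ∈ [1, 1] := hP2.mem_iff.1 (List.mem_map_of_mem hp)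
        have h5 := List.le_sum_of_mem h2p
        simp at h4
        omega

end Pool.Agent.NPC.V11230
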