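import Pool.Agent.V11230.TDM

/-!
# Exact bin packing with bins of several sizes, from three-dimensional matching
-/

set_option autoImplicit false

namespace Pool.Agent.NPC.V11230

/-- exact bin packing of the list of sizes `A` into bins of the sizes `B`. -/
def VBP (A B : List ℕ) : Prop :=
  ∃ P : List (List ℕ), P.flatten.Perm A ∧ (P.map List.sum).Perm B

theorem lift_perm {α β : Type} (f : α → β) {l : List β} {m : List α} (h : l.Perm (m.map f)) :
    ∃ l' : List α, l'.Perm m ∧ l'.map f = l := by
  have h2 : List.Forall₂ (fun a b => a = f b) (m.map f) m := by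
    induction m with
    | nil => exact List.Forall₂.nil
    | cons a m ih => exact List.Forall₂.cons rfl (by
        clear h
        induction m with
        | nil => exact List.Forall₂.nil
        | cons a m ih => exact List.Forall₂.cons rfl (by
            rename_i h; exact (List.forall₂_map_left_iff.2 (List.forall₂_same.2 fun _ _ => rfl))))
  obtain ⟨w, hw1, hw2⟩ := List.perm_comp_forall₂ h h2
  refine ⟨w, hw2, ?_⟩
  clear hw2 h h2
  induction hw1 with
  | nil => rfl
  | cons h _ ih => rw [List.map_cons, ih, h]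

theorem lift_flatten {α β : Type} (f : α → β) : ∀ (P : List (List β)) (l : List α),
    l.map f = P.flatten → ∃ P' : List (List α), P'.flatten = l ∧ P'.map (List.map f) = P
  | [], l, h => ⟨[], by simpa [eq_comm] using h, rfl⟩
  | p :: P, l, h => by
    rw [List.flatten_cons, List.map_eq_append_iff] at h
    obtain ⟨l1, l2, rfl, h1, h2⟩ := h
    obtain ⟨P', hP1, hP2⟩ := lift_flatten f P l2 h2
    exact ⟨l1 :: P', by rw [List.flatten_cons, hP1], by rw [List.map_cons, h1, hP2]⟩

namespace VB

abbrev It := ℕ × ℕ × ℕ × ℕ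

/-- the size of an item -/
def val (r : ℕ) (x : It) : ℕ := x.1 * r ^ 3 + x.2.2.2 * r ^ 2 + x.2.2.1 * r + x.2.1

def dum (q : ℕ) (L : List ℕ) : List ℕ :=
  (List.range q).flatMap (fun i => List.replicate (L.count i - 1) i)

def rW (i : ℕ) : It := (10, i + 1, 0, 0)
def rX (j : ℕ) : It := (10, 0, j + 1, 0)
def rY (k : ℕ) : It := (10, 0, 0, k + 1)
def dW (i : ℕ) : It := (11, i + 1, 0, 0)
def dX (j : ℕ) : It := (11, 0, j + 1, 0)
def dY (k : ℕ) : It := (8, 0, 0, k + 1)

def items (M : List (ℕ × ℕ × ℕ)) (q : ℕ) : List It :=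
  ((List.range q).map rW ++ ((List.range q).map rX ++ (List.range q).map rY)) ++
  ((dum q (M.map (fun t => t.1))).map dW ++ ((dum q (M.map (fun t => t.2.1))).map dX ++
    (dum q (M.map (fun t => t.2.2))).map dY))

def bin (t : ℕ × ℕ × ℕ) : It := (30, t.1 + 1, t.2.1 + 1, t.2.2 + 1)

theorem count_flatMap_replicate (c : ℕ → ℕ) (a : ℕ) : ∀ q : ℕ,
    ((List.range q).flatMap (fun i => List.replicate (c i) i)).count a = if a < q then c a else 0
  | 0 => by simp
  | q + 1 => by
    rw [List.range_succ, List.flatMap_append, List.count_append, count_flatMap_replicate c a q]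
    simp only [List.flatMap_cons, List.flatMap_nil, List.append_nil, List.count_replicate]
    by_cases h1 : a < q
    · have h2 : a < q + 1 := by omega
      have h3 : ¬ (q == a) = true := by simp; omega
      simp [h1, h2, h3]
    · by_cases h2 : a = q
      · subst h2; simp
      · have h3 : ¬ a < q + 1 := by omega
        have h4 : ¬ (q == a) = true := by simp; omega
        simp [h1, h3, h4]

theorem dum_perm {q : ℕ} {L L' : List ℕ} (hL : ∀ x ∈ L, x < q)
    (h : L.Perm (List.range q ++ L')) : (dum q L).Perm L' := by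
  rw [List.perm_iff_count]
  intro a
  unfold dum
  rw [count_flatMap_replicate (fun i => L.count i - 1)]
  have h1 := h.count_eq a
  rw [List.count_append] at h1
  by_cases ha : a < q
  · have h2 : (List.range q).count a = 1 :=
      List.count_eq_one_of_mem (List.nodup_range) (List.mem_range.2 ha)
    rw [if_pos ha]
    omega
  · rw [if_neg ha]
    have h2 : a ∉ L' := fun h3 => ha (hL a (h.mem_iff.2 (List.mem_append_right _ h3)))
    exact (List.count_eq_zero_of_not_mem h2).symm

theorem flatMap_three {α β : Type} (f g h : α → β) (l : List α) :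
    (l.flatMap (fun t => [f t, g t, h t])).Perm (l.map f ++ (l.map g ++ l.map h)) := by
  classical
  rw [List.perm_iff_count]
  intro a
  induction l with
  | nil => simp
  | cons t l ih =>
    simp only [List.flatMap_cons, List.count_append, List.map_cons, List.count_cons,
      List.count_nil] at ih ⊢
    omega

theorem tdm_to_vbp {M : List (ℕ × ℕ × ℕ)} {q r : ℕ}
    (hM : ∀ t ∈ M, t.1 < q ∧ t.2.1 < q ∧ t.2.2 < q) (h : TDM (M, q)) :
    VBP ((items M q).map (val r)) (M.map (fun t => val r (bin t))) := by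
  obtain ⟨C, hC, h1, h2, h3⟩ := h
  have hnd : C.Nodup := by
    have : (C.map (fun t => t.1)).Nodup := h1.nodup_iff.2 List.nodup_range
    exact List.Nodup.of_map _ this
  obtain ⟨E, hE⟩ : ∃ E, M.Perm (C ++ E) := by
    obtain ⟨l, hl1, hl2⟩ := hnd.subperm hC
    obtain ⟨E, hE⟩ := hl2.exists_perm_append
    exact ⟨E, hE.trans (hl1.append_right E)⟩
  let P : List (List It) := C.map (fun t => [rW t.1, rX t.2.1, rY t.2.2]) ++
    E.map (fun t => [dW t.1, dX t.2.1, dY t.2.2])
  have hd : ∀ (π : ℕ × ℕ × ℕ → ℕ), (∀ t ∈ M, π t < q) → (C.map π).Perm (List.range q) →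
      (dum q (M.map π)).Perm (E.map π) := by
    intro π hπ hCπ
    apply dum_perm
    · intro x hx
      obtain ⟨t, ht, rfl⟩ := List.mem_map.1 hx
      exact hπ t ht
    · refine (hE.map π).trans ?_
      rw [List.map_append]
      exact hCπ.append_right _
  have hP : P.flatten.Perm (items M q) := by
    simp only [P, List.flatten_append, ← List.flatMap_def]
    unfold items
    refine List.Perm.append ?_ ?_
    · refine (flatMap_three _ _ _ _).trans ?_
      have e1 : C.map (fun t => rW t.1) = (C.map (fun t => t.1)).map rW := by simp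
      have e2 : C.map (fun t => rX t.2.1) = (C.map (fun t => t.2.1)).map rX := by simp
      have e3 : C.map (fun t => rY t.2.2) = (C.map (fun t => t.2.2)).map rY := by simp
      rw [e1, e2, e3]
      exact (h1.map _).append ((h2.map _).append (h3.map _))
    · refine (flatMap_three _ _ _ _).trans ?_
      have e1 : E.map (fun t => dW t.1) = (E.map (fun t => t.1)).map dW := by simp
      have e2 : E.map (fun t => dX t.2.1) = (E.map (fun t => t.2.1)).map dX := by simp
      have e3 : E.map (fun t => dY t.2.2) = (E.map (fun t => t.2.2)).map dY := by simp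
      rw [e1, e2, e3]
      exact ((hd _ (fun t ht => (hM t ht).1) h1).symm.map _).append
        (((hd _ (fun t ht => (hM t ht).2.1) h2).symm.map _).append
          ((hd _ (fun t ht => (hM t ht).2.2) h3).symm.map _))
  refine ⟨P.map (List.map (val r)), ?_, ?_⟩
  · rw [← List.map_flatten]
    exact hP.map _
  · refine List.Perm.trans ?_ (hE.map _).symm
    have : (P.map (List.map (val r))).map List.sum =
        (C ++ E).map (fun t => val r (bin t)) := by
      simp only [P, List.map_append, List.map_map]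
      congr 1
      · refine List.map_congr_left fun t _ => ?_
        simp [val, bin, rW, rX, rY]; ring
      · refine List.map_congr_left fun t _ => ?_
        simp [val, bin, dW, dX, dY]; ring
    rw [this]

/-- digitwise sum -/
def sumI (p : List It) : It :=
  ((p.map (fun x => x.1)).sum, (p.map (fun x => x.2.1)).sum, (p.map (fun x => x.2.2.1)).sum,
    (p.map (fun x => x.2.2.2)).sum)

theorem val_sumI (r : ℕ) : ∀ p : List It, (p.map (val r)).sum = val r (sumI p)
  | [] => by simp [sumI, val]
  | x :: p => by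
    rw [List.map_cons, List.sum_cons, val_sumI r p]
    simp only [sumI, val, List.map_cons, List.sum_cons]
    ring

theorem val_inj {r : ℕ} {x y : It} (hx : x.2.1 < r ∧ x.2.2.1 < r ∧ x.2.2.2 < r)
    (hy : y.2.1 < r ∧ y.2.2.1 < r ∧ y.2.2.2 < r) (h : val r x = val r y) : x = y := by
  obtain ⟨c, i, j, k⟩ := x
  obtain ⟨c', i', j', k'⟩ := y
  simp only at hx hy
  have key : ∀ a b a' b' : ℕ, b < r → b' < r → a * r + b = a' * r + b' → a = a' ∧ b = b' := by
    intro a b a' b' hb hb' hab
    have hr : 0 < r := by omega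
    have e1 : (a * r + b) / r = a := by
      rw [Nat.mul_comm, Nat.mul_add_div hr, Nat.div_eq_of_lt hb]; rfl
    have e2 : (a' * r + b') / r = a' := by
      rw [Nat.mul_comm, Nat.mul_add_div hr, Nat.div_eq_of_lt hb']; rfl
    have : a = a' := by rw [← e1, hab, e2]
    subst this
    exact ⟨rfl, by omega⟩
  have h' : ((c * r + k) * r + j) * r + i = ((c' * r + k') * r + j') * r + i' := by
    unfold val at h
    simp only at h
    ring_nf at h ⊢
    omega
  obtain ⟨h1, rfl⟩ := key _ _ _ _ hx.1 hy.1 h'
  obtain ⟨h2, rfl⟩ := key _ _ _ _ hx.2.1 hy.2.1 h1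
  obtain ⟨rfl, rfl⟩ := key _ _ _ _ hx.2.2 hy.2.2 h2
  rfl

def Kind (q : ℕ) (x : It) : Prop :=
  ((x.1 = 10 ∨ x.1 = 11) ∧ x.2.1 ≠ 0 ∧ x.2.2.1 = 0 ∧ x.2.2.2 = 0 ∧ x.2.1 ≤ q) ∨
  ((x.1 = 10 ∨ x.1 = 11) ∧ x.2.1 = 0 ∧ x.2.2.1 ≠ 0 ∧ x.2.2.2 = 0 ∧ x.2.2.1 ≤ q) ∨
  ((x.1 = 10 ∨ x.1 = 8) ∧ x.2.1 = 0 ∧ x.2.2.1 = 0 ∧ x.2.2.2 ≠ 0 ∧ x.2.2.2 ≤ q)

theorem mem_dum_lt {q : ℕ} {L : List ℕ} {i : ℕ} (h : i ∈ dum q L) : i < q := by
  obtain ⟨j, hj, hi⟩ := List.mem_flatMap.1 h
  rw [List.eq_of_mem_replicate hi]
  exact List.mem_range.1 hj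

theorem kind_items {M : List (ℕ × ℕ × ℕ)} {q : ℕ} {x : It} (hx : x ∈ items M q) : Kind q x := by
  simp only [items, List.mem_append, List.mem_map] at hx
  rcases hx with (⟨i, hi, rfl⟩ | ⟨i, hi, rfl⟩ | ⟨i, hi, rfl⟩) | (⟨i, hi, rfl⟩ | ⟨i, hi, rfl⟩ | ⟨i, hi, rfl⟩)
  · have := List.mem_range.1 hi
    simp [Kind, rW]; omega
  · have := List.mem_range.1 hi
    simp [Kind, rX]; omega
  · have := List.mem_range.1 hi
    simp [Kind, rY]; omega
  · have := mem_dum_lt hi
    simp [Kind, dW]; omega
  · have := mem_dum_lt hi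
    simp [Kind, dX]; omega
  · have := mem_dum_lt hi
    simp [Kind, dY]; omega

theorem sum_count_range {q : ℕ} {L : List ℕ} (hL : ∀ x ∈ L, x < q) :
    ((List.range q).map (fun i => L.count i)).sum = L.length := by
  induction L with
  | nil => simp
  | cons a L ih =>
    have h1 : ((List.range q).map (fun i => (a :: L).count i)).sum =
        ((List.range q).map (fun i => L.count i)).sum +
          ((List.range q).map (fun i => if a = i then 1 else 0)).sum := by
      rw [← List.sum_map_add]
      congr 1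
      refine List.map_congr_left fun i _ => ?_
      rw [List.count_cons]
      simp
    rw [h1, ih (fun x hx => hL x (List.mem_cons_of_mem _ hx)), List.length_cons]
    congr 1
    have h2 : ((List.range q).map (fun i => if a = i then 1 else 0)).sum = (List.range q).count a := by
      generalize List.range q = l
      induction l with
      | nil => simp
      | cons b l ih =>
        rw [List.map_cons, List.sum_cons, ih, List.count_cons]
        by_cases h : a = b
        · subst h; simp [Nat.add_comm]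
        · have : ¬ (b == a) = true := by simp; exact fun h' => h h'.symm
          simp [h, this]
    rw [h2]
    exact List.count_eq_one_of_mem List.nodup_range
      (List.mem_range.2 (hL a (List.mem_cons_self)))

theorem dum_length {q : ℕ} {L : List ℕ} (hL : ∀ x ∈ L, x < q) : L.length ≤ (dum q L).length + q := by
  rw [← sum_count_range hL]
  unfold dum
  rw [List.length_flatMap]
  simp only [List.length_replicate]
  have : ∀ l : List ℕ, (l.map (fun i => L.count i)).sum ≤
      (l.map (fun i => L.count i - 1)).sum + l.length := by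
    intro l
    induction l with
    | nil => simp
    | cons a l ih =>
      simp only [List.map_cons, List.sum_cons, List.length_cons]
      omega
  simpa using this (List.range q)

theorem items_length {M : List (ℕ × ℕ × ℕ)} {q : ℕ}
    (hM : ∀ t ∈ M, t.1 < q ∧ t.2.1 < q ∧ t.2.2 < q) : 3 * M.length ≤ (items M q).length := by
  have h : ∀ (π : ℕ × ℕ × ℕ → ℕ), (∀ t ∈ M, π t < q) →
      M.length ≤ (dum q (M.map π)).length + q := by
    intro π hπ
    have := dum_length (q := q) (L := M.map π) (by
      intro x hx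
      obtain ⟨t, ht, rfl⟩ := List.mem_map.1 hx
      exact hπ t ht)
    simpa using this
  have h1 : M.length ≤ (dum q (M.map (fun t => t.1))).length + q :=
    h (fun t => t.1) (fun t ht => (hM t ht).1)
  have h2 := h (fun t => t.2.1) (fun t ht => (hM t ht).2.1)
  have h3 := h (fun t => t.2.2) (fun t ht => (hM t ht).2.2)
  simp only [items, List.length_append, List.length_map, List.length_range]
  omega

theorem all_three : ∀ (P : List (List It)), (∀ p ∈ P, p.length ≤ 3) →
    3 * P.length ≤ P.flatten.length → ∀ p ∈ P, p.length = 3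
  | [], _, _ => by simp
  | p :: P, h1, h2 => by
    have hb : ∀ Q : List (List It), (∀ p ∈ Q, p.length ≤ 3) → Q.flatten.length ≤ 3 * Q.length := by
      intro Q
      induction Q with
      | nil => simp
      | cons a Q ih =>
        intro hQ
        rw [List.flatten_cons, List.length_append, List.length_cons]
        have := ih (fun p hp => hQ p (List.mem_cons_of_mem _ hp))
        have := hQ a (List.mem_cons_self)
        omega
    rw [List.flatten_cons, List.length_append, List.length_cons] at h2
    have h3 := h1 p (List.mem_cons_self)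
    have h4 := hb P (fun p hp => h1 p (List.mem_cons_of_mem _ hp))
    intro x hx
    rcases List.mem_cons.1 hx with rfl | hx
    · omega
    · exact all_three P (fun p hp => h1 p (List.mem_cons_of_mem _ hp)) (by omega) x hx

/-- the parts made of real items -/
def isR (p : List It) : Bool := p.all (fun x => x.1 == 10)

def dec (p : List It) : ℕ × ℕ × ℕ := ((sumI p).2.1 - 1, (sumI p).2.2.1 - 1, (sumI p).2.2.2 - 1)

theorem c_lemma {c1 c2 c3 : ℕ} (h1 : c1 = 10 ∨ c1 = 11 ∨ c1 = 8) (h2 : c2 = 10 ∨ c2 = 11 ∨ c2 = 8)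
    (h3 : c3 = 10 ∨ c3 = 11 ∨ c3 = 8) (h : c1 + (c2 + c3) = 30) :
    (c1 = 10 ∧ c2 = 10 ∧ c3 = 10) ∨ (c1 ≠ 10 ∧ c2 ≠ 10 ∧ c3 ≠ 10) := by
  rcases h1 with rfl | rfl | rfl <;> rcases h2 with rfl | rfl | rfl <;>
    rcases h3 with rfl | rfl | rfl <;> simp_all

theorem part_lemma {q : ℕ} {t : ℕ × ℕ × ℕ} {c1 i1 j1 k1 c2 i2 j2 k2 c3 i3 j3 k3 : ℕ}
    (kx : Kind q (c1, i1, j1, k1)) (ky : Kind q (c2, i2, j2, k2)) (kz : Kind q (c3, i3, j3, k3))
    (hc : c1 + (c2 + c3) = 30) (hi : i1 + (i2 + i3) = t.1 + 1)
    (hj : j1 + (j2 + j3) = t.2.1 + 1) (hkk : k1 + (k2 + k3) = t.2.2 + 1) :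
    ∀ p : List It, p = [(c1, i1, j1, k1), (c2, i2, j2, k2), (c3, i3, j3, k3)] →
      (p.filter (fun x => x.1 == 10 && x.2.1 != 0) =
        if isR p then [rW (dec p).1] else []) ∧
      (p.filter (fun x => x.1 == 10 && x.2.2.1 != 0) =
        if isR p then [rX (dec p).2.1] else []) ∧
      (p.filter (fun x => x.1 == 10 && x.2.2.2 != 0) =
        if isR p then [rY (dec p).2.2] else []) := by
  intro p hp
  subst hp
  have g1 : c1 = 10 ∨ c1 = 11 ∨ c1 = 8 := by unfold Kind at kx; simp only at kx; omega
  have g2 : c2 = 10 ∨ c2 = 11 ∨ c2 = 8 := by unfold Kind at ky; simp only at ky; omega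
  have g3 : c3 = 10 ∨ c3 = 11 ∨ c3 = 8 := by unfold Kind at kz; simp only at kz; omega
  rcases c_lemma g1 g2 g3 hc with ⟨rfl, rfl, rfl⟩ | ⟨n1, n2, n3⟩
  · have ez : t.1 + 1 - 1 + 1 = t.1 + 1 := by omega
    rcases kx with ⟨-, a1, a2, a3, -⟩ | ⟨-, a1, a2, a3, -⟩ | ⟨-, a1, a2, a3, -⟩ <;>
    rcases ky with ⟨-, b1, b2, b3, -⟩ | ⟨-, b1, b2, b3, -⟩ | ⟨-, b1, b2, b3, -⟩ <;>
    rcases kz with ⟨-, d1, d2, d3, -⟩ | ⟨-, d1, d2, d3, -⟩ | ⟨-, d1, d2, d3, -⟩ <;>
    simp only at a1 a2 a3 b1 b2 b3 d1 d2 d3 <;>
    first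
    | omega
    | (simp only [a1, a2, a3, b1, b2, b3, d1, d2, d3, Nat.add_zero, Nat.zero_add] at hi hj hkk
       simp [dec, sumI, isR, List.filter_cons, rW, rX, rY, a1, a2, a3, b1, b2, b3, d1, d2, d3,
         hi, hj, hkk])
  · simp [isR, List.filter_cons, n1, n2, n3]

theorem flatMap_ite {α β : Type} (b : α → Bool) (g : α → β) (l : List α) :
    l.flatMap (fun p => if b p then [g p] else []) = (l.filter b).map g := by
  induction l with
  | nil => rfl
  | cons a l ih =>
    rw [List.flatMap_cons, ih, List.filter_cons]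
    cases h : b a <;> simp

theorem vbp_to_tdm {M : List (ℕ × ℕ × ℕ)} {q r : ℕ} (hr : 3 * q + 1 < r)
    (hM : ∀ t ∈ M, t.1 < q ∧ t.2.1 < q ∧ t.2.2 < q)
    (h : VBP ((items M q).map (val r)) (M.map (fun t => val r (bin t)))) : TDM (M, q) := by
  obtain ⟨P0, h1, h2⟩ := h
  obtain ⟨l', hl1, hl2⟩ := lift_perm (val r) h1
  obtain ⟨P, rfl, rfl⟩ := lift_flatten (val r) P0 l' hl2
  clear h1 hl2
  have hr0 : 0 < r := by omega
  have hk : ∀ p ∈ P, ∀ x ∈ p, Kind q x := fun p hp x hx =>
    kind_items (hl1.mem_iff.1 (List.mem_flatten.2 ⟨p, hp, hx⟩))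
  have hlen : P.length = M.length := by
    have := h2.length_eq
    simpa using this
  have hbin : ∀ p ∈ P, ∃ t ∈ M, val r (sumI p) = val r (bin t) := by
    intro p hp
    have : val r (sumI p) ∈ M.map (fun t => val r (bin t)) := by
      rw [← h2.mem_iff, List.map_map]
      exact List.mem_map.2 ⟨p, hp, by simp [val_sumI]⟩
    obtain ⟨t, ht, hte⟩ := List.mem_map.1 this
    exact ⟨t, ht, hte.symm⟩
  have hbd : ∀ p : List It, (∀ x ∈ p, Kind q x) → 8 * p.length ≤ (sumI p).1 ∧
      (sumI p).2.1 ≤ q * p.length ∧ (sumI p).2.2.1 ≤ q * p.length ∧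
      (sumI p).2.2.2 ≤ q * p.length := by
    intro p
    induction p with
    | nil => simp [sumI]
    | cons x p ih =>
      intro hx
      have := ih (fun y hy => hx y (List.mem_cons_of_mem _ hy))
      have hkx := hx x (List.mem_cons_self)
      simp only [sumI, List.map_cons, List.sum_cons, List.length_cons, Nat.mul_add,
        Nat.mul_one] at this ⊢
      unfold Kind at hkx
      omega
  have hle3 : ∀ p ∈ P, p.length ≤ 3 := by
    intro p hp
    by_contra hcon
    obtain ⟨t, ht, hte⟩ := hbin p hp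
    have hb := hbd p (hk p hp)
    have hMt := hM t ht
    have e1 : 32 * r ^ 3 ≤ val r (sumI p) := by
      unfold val
      have : 32 * r ^ 3 ≤ (sumI p).1 * r ^ 3 := Nat.mul_le_mul_right _ (by omega)
      omega
    have e2 : val r (bin t) ≤ 31 * r ^ 3 := by
      unfold val bin
      simp only
      have f1 : (t.2.2 + 1) * r ^ 2 ≤ q * r ^ 2 := Nat.mul_le_mul_right _ (by omega)
      have f2 : (t.2.1 + 1) * r ≤ q * r := Nat.mul_le_mul_right _ (by omega)
      have f2' : q * r ≤ q * r ^ 2 := Nat.mul_le_mul_left _ (by nlinarith)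
      have f3 : t.1 + 1 ≤ q * r ^ 2 := by
        calc t.1 + 1 ≤ q * 1 := by omega
          _ ≤ q * r ^ 2 := Nat.mul_le_mul_left _ (Nat.one_le_pow _ _ hr0)
      have f4 : 3 * q * r ^ 2 ≤ r * r ^ 2 := Nat.mul_le_mul_right _ (by omega)
      have f5 : r ^ 3 = r * r ^ 2 := by ring
      nlinarith
    have e3 : 0 < r ^ 3 := by positivity
    omega
  have h3 : ∀ p ∈ P, p.length = 3 := by
    refine all_three P hle3 ?_
    rw [hlen, hl1.length_eq]
    exact items_length hM
  have hsum : ∀ p ∈ P, ∃ t ∈ M, sumI p = bin t := by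
    intro p hp
    obtain ⟨t, ht, hte⟩ := hbin p hp
    refine ⟨t, ht, val_inj (r := r) ?_ ?_ hte⟩
    · have hb := hbd p (hk p hp)
      rw [h3 p hp] at hb
      omega
    · have hMt := hM t ht
      unfold bin
      simp only
      omega
  -- the matching
  have hparts : ∀ p ∈ P,
      (p.filter (fun x => x.1 == 10 && x.2.1 != 0) =
        if isR p then [rW (dec p).1] else []) ∧
      (p.filter (fun x => x.1 == 10 && x.2.2.1 != 0) =
        if isR p then [rX (dec p).2.1] else []) ∧
      (p.filter (fun x => x.1 == 10 && x.2.2.2 != 0) =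
        if isR p then [rY (dec p).2.2] else []) := by
    intro p hp
    obtain ⟨t, ht, hte⟩ := hsum p hp
    have hk' := hk p hp
    obtain ⟨x, y, z, rfl⟩ : ∃ x y z, p = [x, y, z] := by
      match p, h3 p hp with
      | [x, y, z], _ => exact ⟨x, y, z, rfl⟩
    have kx := hk' x (by simp)
    have ky := hk' y (by simp)
    have kz := hk' z (by simp)
    clear hk' hp ht
    obtain ⟨c1, i1, j1, k1⟩ := x
    obtain ⟨c2, i2, j2, k2⟩ := y
    obtain ⟨c3, i3, j3, k3⟩ := z
    simp only [sumI, bin, List.map_cons, List.map_nil, List.sum_cons, List.sum_nil,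
      Prod.mk.injEq, Nat.add_zero] at hte
    obtain ⟨hc, hi, hj, hkk⟩ := hte
    exact part_lemma kx ky kz hc hi hj hkk _ rfl
  have hfl : ∀ (f : It → Bool) (g : List It → It),
      (∀ p ∈ P, p.filter f = if isR p then [g p] else []) →
      ((items M q).filter f).Perm ((P.filter isR).map g) := by
    intro f g hfg
    refine (hl1.symm.filter f).trans ?_
    rw [List.filter_flatten, ← flatMap_ite isR g P, List.flatMap_def]
    have : P.map (List.filter f) = P.map (fun p => if isR p then [g p] else []) :=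
      List.map_congr_left hfg
    rw [this]
  refine ⟨(P.filter isR).map dec, ?_, ?_, ?_, ?_⟩
  · intro s hs
    obtain ⟨p, hp, rfl⟩ := List.mem_map.1 hs
    obtain ⟨t, ht, hte⟩ := hsum p (List.mem_of_mem_filter hp)
    have : dec p = t := by
      simp only [dec, hte, bin, Nat.add_sub_cancel]
    rw [this]
    exact ht
  · have h4 := hfl _ (fun p => rW (dec p).1) (fun p hp => (hparts p hp).1)
    have h5 : (items M q).filter (fun x => x.1 == 10 && x.2.1 != 0) = (List.range q).map rW := by
      simp [items, List.filter_append, List.filter_map, rW, rX, rY, dW, dX, dY, Function.comp_def]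
    rw [h5] at h4
    have h6 := (h4.map (fun x => x.2.1 - 1)).symm
    simpa [rW, Function.comp_def] using h6
  · have h4 := hfl _ (fun p => rX (dec p).2.1) (fun p hp => (hparts p hp).2.1)
    have h5 : (items M q).filter (fun x => x.1 == 10 && x.2.2.1 != 0) = (List.range q).map rX := by
      simp [items, List.filter_append, List.filter_map, rW, rX, rY, dW, dX, dY, Function.comp_def]
    rw [h5] at h4
    have h6 := (h4.map (fun x => x.2.2.1 - 1)).symm
    simpa [rX, Function.comp_def] using h6
  · have h4 := hfl _ (fun p => rY (dec p).2.2) (fun p hp => (hparts p hp).2.2)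
    have h5 : (items M q).filter (fun x => x.1 == 10 && x.2.2.2 != 0) = (List.range q).map rY := by
      simp [items, List.filter_append, List.filter_map, rW, rX, rY, dW, dX, dY, Function.comp_def]
    rw [h5] at h4
    have h6 := (h4.map (fun x => x.2.2.2 - 1)).symm
    simpa [rY, Function.comp_def] using h6

end VB

end Pool.Agent.NPC.V11230
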