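import Mathlib

/-!
# Scheduling a single vehicle on a line with release and handling times
-/

set_option autoImplicit false

namespace Pool.Agent.NPC.V11230.VL

open Finset

/-- Travel time from the vertex `i` to the vertex `j` of the line `0 — 1 — 2 — …`; the `e`-th entry
of the list `w` gives the travel times of the edge between `e` and `e + 1`, from `e` to `e + 1` and
from `e + 1` to `e`. -/
def travel (w : List (ℕ × ℕ)) (i j : ℕ) : ℕ :=
  ∑ e ∈ Ico i j, (w.getD e (0, 0)).1 + ∑ e ∈ Ico j i, (w.getD e (0, 0)).2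

/-- The vehicle is at the vertex `i` at time `t` and processes the jobs of the list one after the
other (the `j`-th entry of `J` is the release time and the handling time of the job at the vertex
`j`), and then returns to the vertex `s`: the time at which it is back. -/
def finish (J w : List (ℕ × ℕ)) (s : ℕ) : ℕ → ℕ → List ℕ → ℕ
  | t, i, [] => t + travel w i s
  | t, i, j :: l => finish J w s (max (t + travel w i j) (J.getD j (0, 0)).1 + (J.getD j (0, 0)).2) j l

/-- The decision problem: an instance is `((J, w, s), K)`, where `J` lists the release and handling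
times of the jobs at the vertices in the order of the line, `w` the travel times of the edges, `s`
is the start vertex, and `K` the bound. The handling times are positive. -/
def VSP (I : (List (ℕ × ℕ) × List (ℕ × ℕ) × ℕ) × ℕ) : Prop :=
  (I.1.1.length = I.1.2.1.length + 1 ∧ I.1.2.2 < I.1.1.length ∧ ∀ x ∈ I.1.1, 0 < x.2) ∧
  ∃ π : List ℕ, π.Perm (List.range I.1.1.length) ∧ finish I.1.1 I.1.2.1 I.1.2.2 0 I.1.2.2 π ≤ I.2

/-! ### Lower bounds -/

/-- number of changes in a sequence -/
def chg : List Bool → ℕ
  | [] => 0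
  | [_] => 0
  | a :: b :: l => (if a = b then 0 else 1) + chg (b :: l)

theorem chg_tri (a b : Bool) (l : List Bool) :
    chg (a :: l) ≤ (if a = b then 0 else 1) + chg (b :: l) := by
  cases l with
  | nil => simp [chg]
  | cons c l =>
    simp only [chg]
    cases a <;> cases b <;> cases c <;> simp <;> omega

theorem chg_sublist {l l' : List Bool} (h : l.Sublist l') : ∀ a, chg (a :: l) ≤ chg (a :: l') := by
  induction h with
  | slnil => exact fun _ => le_refl _
  | cons b _ ih =>
    intro a
    refine (chg_tri a b _).trans ?_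
    simp only [chg]
    exact Nat.add_le_add_left (ih b) _
  | cons_cons b _ ih =>
    intro a
    simp only [chg]
    exact Nat.add_le_add_left (ih b) _

/-- total travel -/
def tr (w : List (ℕ × ℕ)) (s : ℕ) : ℕ → List ℕ → ℕ
  | i, [] => travel w i s
  | i, j :: l => travel w i j + tr w s j l

theorem finish_ge (J w : List (ℕ × ℕ)) (s : ℕ) : ∀ (l : List ℕ) (t i : ℕ),
    t + tr w s i l + (l.map (fun j => (J.getD j (0, 0)).2)).sum ≤ finish J w s t i l
  | [], t, i => by simp [finish, tr]
  | j :: l, t, i => by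
    have := finish_ge J w s l (max (t + travel w i j) (J.getD j (0, 0)).1 + (J.getD j (0, 0)).2) j
    simp only [finish, tr, List.map_cons, List.sum_cons]
    have h2 := le_max_left (t + travel w i j) (J.getD j (0, 0)).1
    omega

theorem finish_ge_release (J w : List (ℕ × ℕ)) (s : ℕ) (j : ℕ) (l2 : List ℕ) :
    ∀ (l1 : List ℕ) (t i : ℕ),
    (J.getD j (0, 0)).1 + (J.getD j (0, 0)).2 + tr w s j l2 +
      (l2.map (fun j => (J.getD j (0, 0)).2)).sum ≤ finish J w s t i (l1 ++ j :: l2)
  | [], t, i => by
    have := finish_ge J w s l2 (max (t + travel w i j) (J.getD j (0, 0)).1 + (J.getD j (0, 0)).2) j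
    simp only [List.nil_append, finish]
    have h2 := le_max_right (t + travel w i j) (J.getD j (0, 0)).1
    omega
  | k :: l1, t, i => finish_ge_release J w s j l2 l1 _ k

/-- crossings -/
theorem travel_eq {w : List (ℕ × ℕ)} {W : ℕ → ℕ} {N : ℕ} (hw : ∀ e, w.getD e (0, 0) = (W e, W e))
    {i j : ℕ} (hi : i ≤ N) (hj : j ≤ N) : travel w i j =
      ∑ e ∈ range N, W e * (if decide (e < i) = decide (e < j) then 0 else 1) := by
  unfold travel
  simp only [hw]
  have h1 : ∀ a b : ℕ, b ≤ N → ∑ e ∈ Ico a b, W e =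
      ∑ e ∈ range N, if a ≤ e ∧ e < b then W e else 0 := by
    intro a b hb
    rw [← sum_filter]
    refine sum_congr ?_ fun _ _ => rfl
    ext e
    simp only [mem_Ico, mem_filter, mem_range]
    omega
  rw [h1 i j hj, h1 j i hi, ← sum_add_distrib]
  refine sum_congr rfl fun e _ => ?_
  by_cases h2 : e < i <;> by_cases h3 : e < j
  · have : ¬ (i ≤ e ∧ e < j) := by omega
    have : ¬ (j ≤ e ∧ e < i) := by omega
    simp [*]
  · have : ¬ (i ≤ e ∧ e < j) := by omega
    have : (j ≤ e ∧ e < i) := by omega
    simp [*]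
  · have : (i ≤ e ∧ e < j) := by omega
    have : ¬ (j ≤ e ∧ e < i) := by omega
    simp [*]
  · have : ¬ (i ≤ e ∧ e < j) := by omega
    have : ¬ (j ≤ e ∧ e < i) := by omega
    simp [*]

theorem tr_eq {w : List (ℕ × ℕ)} {W : ℕ → ℕ} {N : ℕ} (hw : ∀ e, w.getD e (0, 0) = (W e, W e))
    {s : ℕ} (hs : s ≤ N) : ∀ (l : List ℕ) (i : ℕ), i ≤ N → (∀ j ∈ l, j ≤ N) → tr w s i l =
      ∑ e ∈ range N, W e * chg (((i :: l) ++ [s]).map (fun x => decide (e < x)))
  | [], i, hi, _ => by
    rw [tr, travel_eq hw hi hs]
    refine sum_congr rfl fun e _ => ?_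
    simp [chg]
  | j :: l, i, hi, hl => by
    have hj : j ≤ N := hl j (List.mem_cons_self)
    rw [tr, travel_eq hw hi hj, tr_eq hw hs l j hj (fun x hx => hl x (List.mem_cons_of_mem _ hx)),
      ← sum_add_distrib]
    refine sum_congr rfl fun e _ => ?_
    simp only [List.cons_append, List.map_cons, chg]
    ring

/-- lower bounds for the travel time -/
theorem tr_ge {w : List (ℕ × ℕ)} {W : ℕ → ℕ} {N : ℕ} (hw : ∀ e, w.getD e (0, 0) = (W e, W e))
    {s : ℕ} (hs : s ≤ N) {l : List ℕ} {i : ℕ} (hi : i ≤ N) (hl : ∀ j ∈ l, j ≤ N) (c : ℕ → ℕ)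
    (hc : ∀ e < N, ∃ m : List ℕ, m.Sublist l ∧
      c e ≤ chg (((i :: m) ++ [s]).map (fun x => decide (e < x)))) :
    ∑ e ∈ range N, W e * c e ≤ tr w s i l := by
  rw [tr_eq hw hs l i hi hl]
  refine sum_le_sum fun e he => Nat.mul_le_mul_left _ ?_
  obtain ⟨m, hm, hcm⟩ := hc e (mem_range.1 he)
  refine hcm.trans ?_
  simp only [List.cons_append, List.map_cons]
  exact chg_sublist ((hm.append (List.Sublist.refl [s])).map _) _

/-! ### The instance -/

section

variable (a : List ℕ) (T : ℕ)

def MM : ℕ := 3 * a.sum + 2 * T + 2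

def hf (x : ℕ) : ℕ × ℕ :=
  if x = 0 then (0, 1)
  else if x = 2 * a.length + 1 then
    ((a.length + 1) * MM a T + a.sum + 1 + a.length * MM a T + 4 * T, 1)
  else if x % 2 = 1 then (2 * (x / 2 + 1) * MM a T, 2 * a.getD (x / 2) 0)
  else (0, MM a T)

def wf (e : ℕ) : ℕ := if e % 2 = 1 then a.getD (e / 2) 0 else MM a T

def JJ : List (ℕ × ℕ) := (List.range (2 * a.length + 2)).map (hf a T)

def ww : List (ℕ × ℕ) := (List.range (2 * a.length + 1)).map (fun e => (wf a T e, wf a T e))

def Kb : ℕ := 2 * ((a.length + 1) * MM a T + a.sum) + (2 + a.length * MM a T + 2 * a.sum) + 2 * T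

def WW (e : ℕ) : ℕ := if e < 2 * a.length + 1 then wf a T e else 0

variable {a T}

theorem ww_getD (e : ℕ) : (ww a T).getD e (0, 0) = (WW a T e, WW a T e) := by
  unfold ww WW
  by_cases h : e < 2 * a.length + 1
  · rw [List.getD_eq_getElem _ _ (by simpa using h)]
    simp [h]
  · rw [List.getD_eq_default _ _ (by simpa using h)]
    simp [h]

theorem JJ_getD {x : ℕ} (hx : x < 2 * a.length + 2) : (JJ a T).getD x (0, 0) = hf a T x := by
  unfold JJ
  rw [List.getD_eq_getElem _ _ (by simpa using hx)]
  simp

theorem sum_W (i : ℕ) (hi : i ≤ a.length) : ∑ e ∈ range (2 * i + 1), WW a T e =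
    (i + 1) * MM a T + ∑ j ∈ range i, a.getD j 0 := by
  induction i with
  | zero => simp [WW, wf]
  | succ i ih =>
    have e1 : 2 * (i + 1) + 1 = 2 * i + 1 + 1 + 1 := by ring
    rw [e1, sum_range_succ, sum_range_succ, ih (by omega), sum_range_succ]
    have h1 : WW a T (2 * i + 1) = a.getD i 0 := by
      unfold WW wf
      rw [if_pos (by omega), if_pos (by omega)]
      congr 1
      omega
    have h2 : WW a T (2 * i + 1 + 1) = MM a T := by
      unfold WW wf
      rw [if_pos (by omega), if_neg (by omega)]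
    rw [h1, h2]
    ring

theorem sum_getD (a : List ℕ) : ∑ j ∈ range a.length, a.getD j 0 = a.sum := by
  induction a with
  | nil => simp
  | cons x a ih =>
    rw [List.length_cons, sum_range_succ', List.sum_cons, ← ih]
    simp [Nat.add_comm]

theorem sum_getD_le (a : List ℕ) {i : ℕ} (hi : i ≤ a.length) :
    ∑ j ∈ range i, a.getD j 0 ≤ a.sum := by
  rw [← sum_getD a]
  exact sum_le_sum_of_subset (range_subset_range.2 hi)

theorem sum_h (i : ℕ) (hi : i ≤ a.length) : ∑ x ∈ range (2 * i + 1), (hf a T x).2 =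
    1 + i * MM a T + 2 * ∑ j ∈ range i, a.getD j 0 := by
  induction i with
  | zero => simp [hf]
  | succ i ih =>
    have e1 : 2 * (i + 1) + 1 = 2 * i + 1 + 1 + 1 := by ring
    rw [e1, sum_range_succ, sum_range_succ, ih (by omega), sum_range_succ]
    have h1 : (hf a T (2 * i + 1)).2 = 2 * a.getD i 0 := by
      unfold hf
      rw [if_neg (by omega), if_neg (by omega), if_pos (by omega)]
      simp only
      congr 2
      omega
    have h2 : (hf a T (2 * i + 1 + 1)).2 = MM a T := by
      unfold hf
      rw [if_neg (by omega), if_neg (by omega), if_neg (by omega)]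
    rw [h1, h2]
    ring

theorem sum_h_all : ∑ x ∈ range (2 * a.length + 2), (hf a T x).2 =
    2 + a.length * MM a T + 2 * a.sum := by
  rw [sum_range_succ, sum_h _ le_rfl, sum_getD]
  have : (hf a T (2 * a.length + 1)).2 = 1 := by
    unfold hf
    rw [if_neg (by omega), if_pos rfl]
  rw [this]
  ring

theorem sum_odd (Z : Finset ℕ) (i : ℕ) (hi : i ≤ a.length) :
    ∑ e ∈ range (2 * i + 1), WW a T e * (if e % 2 = 1 ∧ e / 2 ∈ Z then 2 else 0) =
    2 * ∑ j ∈ range i, if j ∈ Z then a.getD j 0 else 0 := by
  induction i with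
  | zero => simp
  | succ i ih =>
    have e1 : 2 * (i + 1) + 1 = 2 * i + 1 + 1 + 1 := by ring
    rw [e1, sum_range_succ, sum_range_succ, ih (by omega), sum_range_succ]
    have h1 : WW a T (2 * i + 1) = a.getD i 0 := by
      unfold WW wf
      rw [if_pos (by omega), if_pos (by omega)]
      congr 1
      omega
    have h2 : (2 * i + 1) / 2 = i := by omega
    have h3 : (2 * i + 1) % 2 = 1 := by omega
    have h4 : ¬ ((2 * i + 1 + 1) % 2 = 1) := by omega
    rw [h1, h2]
    simp only [h3, h4, true_and, false_and, if_false, mul_zero, add_zero]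
    split_ifs
    · ring
    · ring

/-- The converse direction. -/
theorem backward {π : List ℕ} (hπ : π.Perm (List.range (2 * a.length + 2)))
    (hC : finish (JJ a T) (ww a T) 0 0 0 π ≤ Kb a T) :
    ∃ Z : Finset ℕ, Z ⊆ range a.length ∧ ∑ i ∈ Z, a.getD i 0 = T := by
  classical
  set n := a.length with hn
  set M := MM a T with hM
  have hMd : M = 3 * a.sum + 2 * T + 2 := rfl
  have hnd : π.Nodup := hπ.nodup_iff.2 List.nodup_range
  have hmem : ∀ x, x ∈ π ↔ x < 2 * n + 2 := fun x => by rw [hπ.mem_iff, List.mem_range]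
  have hle : ∀ x ∈ π, x ≤ 2 * n + 1 := fun x hx => by have := (hmem x).1 hx; omega
  -- handling sums
  have hhs : ∀ l : List ℕ, l.Nodup → (∀ x ∈ l, x ∈ π) →
      (l.map (fun j => ((JJ a T).getD j (0, 0)).2)).sum = ∑ x ∈ l.toFinset, (hf a T x).2 := by
    intro l hl hlπ
    rw [List.sum_toFinset _ hl]
    congr 1
    refine List.map_congr_left fun x hx => ?_
    rw [JJ_getD ((hmem x).1 (hlπ x hx))]
  have hall : ∑ x ∈ π.toFinset, (hf a T x).2 = 2 + n * M + 2 * a.sum := by
    have : π.toFinset = range (2 * n + 2) := by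
      ext x
      rw [List.mem_toFinset, hmem, mem_range]
    rw [this]
    exact sum_h_all
  have hK : Kb a T = 2 * ((n + 1) * M + a.sum) + (2 + n * M + 2 * a.sum) + 2 * T := rfl
  have hD : ∑ e ∈ range (2 * n + 1), WW a T e = (n + 1) * M + a.sum := by
    rw [sum_W _ le_rfl, sum_getD]
  have hhF : hf a T (2 * n + 1) = ((n + 1) * M + a.sum + 1 + n * M + 4 * T, 1) := by
    unfold hf
    rw [if_neg (by omega), if_pos rfl]
  -- the far end
  obtain ⟨l1, l2, hspl⟩ := List.append_of_mem ((hmem (2 * n + 1)).2 (by omega))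
  have hl2π : ∀ x ∈ l2, x ∈ π := fun x hx => by rw [hspl]; simp [hx]
  have hl1π : ∀ x ∈ l1, x ∈ π := fun x hx => by rw [hspl]; simp [hx]
  have hnd' := hnd
  rw [hspl, List.nodup_append] at hnd'
  obtain ⟨hnd1, hnd2, hdis⟩ := hnd'
  rw [List.nodup_cons] at hnd2
  have hl2h : (l2.map (fun j => ((JJ a T).getD j (0, 0)).2)).sum + 2 * T ≤ 2 * a.sum := by
    have h1 := finish_ge_release (JJ a T) (ww a T) 0 (2 * n + 1) l2 l1 0 0
    rw [← hspl, JJ_getD (by omega), hhF] at h1
    have h2 := tr_ge (w := ww a T) (W := WW a T) (N := 2 * n + 1) ww_getD (s := 0) (by omega)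
      (l := l2) (i := 2 * n + 1) le_rfl (fun x hx => hle x (hl2π x hx)) (fun _ => 1) (by
        intro e he
        refine ⟨[], List.nil_sublist _, ?_⟩
        have : e < 2 * n + 1 := he
        simp [chg, this])
    simp only [mul_one] at h2
    rw [hD] at h2
    simp only at h1
    rw [hK] at hC
    omega
  have hB1 : ∀ i < n, 2 * i + 2 ∈ l1 := by
    intro i hi
    have h1 : 2 * i + 2 ∈ π := (hmem _).2 (by omega)
    rw [hspl, List.mem_append, List.mem_cons] at h1
    rcases h1 with h1 | h1 | h1
    · exact h1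
    · omega
    · exfalso
      have h2 := List.le_sum_of_mem (List.mem_map_of_mem
        (f := fun j => ((JJ a T).getD j (0, 0)).2) h1)
      rw [JJ_getD (by omega)] at h2
      have h3 : hf a T (2 * i + 2) = (0, M) := by
        unfold hf
        rw [if_neg (by omega), if_neg (by omega), if_neg (by omega)]
      rw [h3] at h2
      simp only at h2
      omega
  -- the set
  let Z : Finset ℕ := (range n).filter (fun i => 2 * i + 1 ∈ l1)
  have htot := finish_ge (JJ a T) (ww a T) 0 π 0 0
  rw [hhs π hnd (fun x hx => hx), hall] at htot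
  -- patterns
  have hpat : ∀ y p q x, l1 = p ++ y :: q → x ∈ p → List.Sublist [x, y, 2 * n + 1] π := by
    intro y p q x hl hx
    rw [hspl, hl]
    have s1 : List.Sublist [x] p := List.singleton_sublist.2 hx
    have s2 : List.Sublist [y] (y :: q) := List.singleton_sublist.2 (List.mem_cons_self)
    have s3 : List.Sublist [2 * n + 1] ((2 * n + 1) :: l2) :=
      List.singleton_sublist.2 (List.mem_cons_self)
    exact (s1.append s2).append s3
  have hchg4 : ∀ e x y, e < x → y ≤ e → e < 2 * n + 1 →
      4 ≤ chg (((0 :: [x, y, 2 * n + 1]) ++ [0]).map (fun z => decide (e < z))) := by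
    intro e x y h1 h2 h3
    have h4 : ¬ e < y := by omega
    simp [chg, h1, h4, h3]
  have hchg2 : ∀ e, e < 2 * n + 1 →
      2 ≤ chg (((0 :: [2 * n + 1]) ++ [0]).map (fun z => decide (e < z))) := by
    intro e h3
    simp [chg, h3]
  have hFsub : List.Sublist [2 * n + 1] π :=
    List.singleton_sublist.2 ((hmem _).2 (by omega))
  have hright : ∀ i < n, ∀ p q, l1 = p ++ (2 * i + 1) :: q → ∀ x ∈ p, x ≤ 2 * i + 2 := by
    intro i hi p q hl x hx
    by_contra hcon
    have hxπ := (hmem x).1 (hl1π x (by rw [hl]; simp [hx]))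
    have h2 := tr_ge (w := ww a T) (W := WW a T) (N := 2 * n + 1) ww_getD (s := 0) (by omega)
      (l := π) (i := 0) (by omega) hle (fun e => 2 + if e = 2 * i + 2 then 2 else 0) (by
        intro e he
        by_cases h : e = 2 * i + 2
        · subst h
          refine ⟨[x, 2 * i + 1, 2 * n + 1], hpat _ p q x hl hx, ?_⟩
          simp only [if_true]
          exact hchg4 _ _ _ (by omega) (by omega) he
        · refine ⟨[2 * n + 1], hFsub, ?_⟩
          simp only [h, if_false, add_zero]
          exact hchg2 e he)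
    have h3 : ∑ e ∈ range (2 * n + 1), WW a T e * (2 + if e = 2 * i + 2 then 2 else 0) =
        2 * ((n + 1) * M + a.sum) + 2 * M := by
      simp only [mul_add, sum_add_distrib, mul_ite, mul_zero]
      rw [← sum_mul, hD, sum_ite_eq' (range (2 * n + 1)) (2 * i + 2)]
      have h5 : 2 * i + 2 ∈ range (2 * n + 1) := mem_range.2 (by omega)
      have h6 : WW a T (2 * i + 2) = M := by
        unfold WW wf
        rw [if_pos (by omega), if_neg (by omega)]
      rw [if_pos h5, h6]
      ring
    rw [h3] at h2
    rw [hK] at hC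
    omega
  have hbefore : ∀ i < n, ∀ p q, l1 = p ++ (2 * i + 1) :: q → 2 * i + 2 ∈ p := by
    intro i hi p q hl
    by_contra hnp
    have hpl : ∀ x ∈ p, x < 2 * i + 1 := by
      intro x hx
      have h1 := hright i hi p q hl x hx
      have h2 : x ≠ 2 * i + 2 := fun h => hnp (h ▸ hx)
      have h3 : x ≠ 2 * i + 1 := by
        rintro rfl
        rw [hl, List.nodup_append] at hnd1
        exact hnd1.2.2 _ hx _ (List.mem_cons_self) rfl
      omega
    have hπ2 : π = p ++ (2 * i + 1) :: (q ++ (2 * n + 1) :: l2) := by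
      rw [hspl, hl]
      simp
    have h1 := finish_ge_release (JJ a T) (ww a T) 0 (2 * i + 1) (q ++ (2 * n + 1) :: l2) p 0 0
    rw [← hπ2, JJ_getD (by omega)] at h1
    have hfA : (hf a T (2 * i + 1)).1 = 2 * (i + 1) * M := by
      unfold hf
      rw [if_neg (by omega), if_neg (by omega), if_pos (by omega)]
      have : (2 * i + 1) / 2 = i := by omega
      rw [this]
    have h2 := tr_ge (w := ww a T) (W := WW a T) (N := 2 * n + 1) ww_getD (s := 0) (by omega)
      (l := q ++ (2 * n + 1) :: l2) (i := 2 * i + 1) (by omega)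
      (fun x hx => hle x (by rw [hπ2]; exact List.mem_append_right _ (List.mem_cons_of_mem _ hx)))
      (fun e => if e < 2 * i + 1 then 1 else 2) (by
        intro e he
        refine ⟨[2 * n + 1], (List.singleton_sublist.2 (by simp)), ?_⟩
        by_cases h : e < 2 * i + 1
        · simp [chg, h, he]
        · simp [chg, h, he])
    have h3 : (∑ e ∈ range (2 * n + 1), WW a T e * (if e < 2 * i + 1 then 1 else 2)) +
        ((i + 1) * M + ∑ j ∈ range i, a.getD j 0) = 2 * ((n + 1) * M + a.sum) := by
      rw [← hD, ← sum_W i (by omega), mul_sum]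
      have h4 : ∑ e ∈ range (2 * i + 1), WW a T e =
          ∑ e ∈ range (2 * n + 1), if e < 2 * i + 1 then WW a T e else 0 := by
        rw [← sum_filter]
        refine sum_congr ?_ fun _ _ => rfl
        ext e
        simp only [mem_filter, mem_range]
        omega
      rw [h4, ← sum_add_distrib]
      refine sum_congr rfl fun e _ => ?_
      split_ifs <;> ring
    have h5 : (p.map (fun j => ((JJ a T).getD j (0, 0)).2)).sum ≤
        1 + i * M + 2 * ∑ j ∈ range i, a.getD j 0 := by
      have hndp : p.Nodup := by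
        rw [hl, List.nodup_append] at hnd1
        exact hnd1.1
      rw [hhs p hndp (fun x hx => hl1π x (by rw [hl]; simp [hx])), ← sum_h i (by omega)]
      refine sum_le_sum_of_subset fun x hx => ?_
      exact mem_range.2 (hpl x (List.mem_toFinset.1 hx))
    have h6 : (π.map (fun j => ((JJ a T).getD j (0, 0)).2)).sum = 2 + n * M + 2 * a.sum := by
      rw [hhs π hnd (fun x hx => hx), hall]
    rw [hπ2] at h6
    rw [List.map_append, List.map_cons, List.sum_append, List.sum_cons, JJ_getD (by omega)] at h6
    have h7 := sum_getD_le a (i := i) (by omega)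
    rw [hK] at hC
    rw [hfA] at h1
    have h8 : 2 * (i + 1) * M = (i + 1) * M + i * M + M := by ring
    omega
  refine ⟨Z, filter_subset _ _, le_antisymm ?_ ?_⟩
  · -- travel bound
    have h2 := tr_ge (w := ww a T) (W := WW a T) (N := 2 * n + 1) ww_getD (s := 0) (by omega)
      (l := π) (i := 0) (by omega) hle (fun e => 2 + if e % 2 = 1 ∧ e / 2 ∈ Z then 2 else 0) (by
        intro e he
        by_cases h : e % 2 = 1 ∧ e / 2 ∈ Z
        · obtain ⟨h3, h4⟩ := h
          obtain ⟨h5, h6⟩ := mem_filter.1 h4
          obtain ⟨p, q, hl⟩ := List.append_of_mem h6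
          have h7 := hbefore (e / 2) (mem_range.1 h5) p q hl
          refine ⟨[2 * (e / 2) + 2, 2 * (e / 2) + 1, 2 * n + 1], hpat _ p q _ hl h7, ?_⟩
          simp only [h3, h4, true_and, if_true]
          exact hchg4 _ _ _ (by omega) (by omega) he
        · refine ⟨[2 * n + 1], hFsub, ?_⟩
          simp only [h, if_false, add_zero]
          exact hchg2 e he)
    have h3 : ∑ e ∈ range (2 * n + 1), WW a T e * (2 + if e % 2 = 1 ∧ e / 2 ∈ Z then 2 else 0) =
        2 * ((n + 1) * M + a.sum) + 2 * ∑ i ∈ Z, a.getD i 0 := by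
      simp only [mul_add, sum_add_distrib]
      rw [← sum_mul, hD, sum_odd Z n le_rfl]
      have h4 : ∑ j ∈ range n, (if j ∈ Z then a.getD j 0 else 0) = ∑ i ∈ Z, a.getD i 0 := by
        rw [← sum_filter]
        refine sum_congr ?_ fun _ _ => rfl
        ext j
        simp only [mem_filter, Z]
        tauto
      rw [h4]
      ring
    rw [h3] at h2
    rw [hK] at hC
    omega
  · -- handling bound
    have h1 : ∑ i ∈ range n \ Z, 2 * a.getD i 0 ≤
        (l2.map (fun j => ((JJ a T).getD j (0, 0)).2)).sum := by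
      rw [hhs l2 hnd2.2 hl2π]
      have hinj : Set.InjOn (fun i : ℕ => 2 * i + 1) (range n \ Z : Finset ℕ) := fun x _ y _ h => by
        simp only at h
        omega
      calc ∑ i ∈ range n \ Z, 2 * a.getD i 0
          = ∑ i ∈ range n \ Z, (hf a T (2 * i + 1)).2 := by
            refine sum_congr rfl fun i hi => ?_
            have h3 := mem_range.1 (mem_sdiff.1 hi).1
            unfold hf
            rw [if_neg (by omega), if_neg (by omega), if_pos (by omega)]
            simp only
            congr 2
            omega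
        _ = ∑ x ∈ (range n \ Z).image (fun i => 2 * i + 1), (hf a T x).2 := by
            rw [sum_image hinj]
        _ ≤ ∑ x ∈ l2.toFinset, (hf a T x).2 := by
            refine sum_le_sum_of_subset fun x hx => ?_
            obtain ⟨i, hi, rfl⟩ := mem_image.1 hx
            obtain ⟨h3, h4⟩ := mem_sdiff.1 hi
            have h5 : 2 * i + 1 ∈ π := (hmem _).2 (by have := mem_range.1 h3; omega)
            rw [hspl, List.mem_append, List.mem_cons] at h5
            rcases h5 with h5 | h5 | h5
            · exact absurd (mem_filter.2 ⟨h3, h5⟩) h4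
            · have := mem_range.1 h3
              omega
            · exact List.mem_toFinset.2 h5
    have h2 : ∑ i ∈ range n \ Z, a.getD i 0 + ∑ i ∈ Z, a.getD i 0 = a.sum := by
      rw [sum_sdiff (filter_subset _ _), sum_getD]
    rw [← mul_sum] at h1
    omega

end

end Pool.Agent.NPC.V11230.VL
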