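import Pool.Agent.V11230.VLine
import Pool.Agent.H671R2.SubsetSum

/-!
# Scheduling a single vehicle on a line: schedules, and the reduction
-/

set_option autoImplicit false

namespace Pool.Agent.NPC.V11230.VL

open Finset Pool.Agent.NPC

/-- time and place after a list of jobs -/
def run (J w : List (ℕ × ℕ)) : ℕ × ℕ → List ℕ → ℕ × ℕ
  | p, [] => p
  | p, j :: l => run J w (max (p.1 + travel w p.2 j) (J.getD j (0, 0)).1 + (J.getD j (0, 0)).2, j) l

theorem run_append (J w : List (ℕ × ℕ)) : ∀ (l1 l2 : List ℕ) (p : ℕ × ℕ),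
    run J w p (l1 ++ l2) = run J w (run J w p l1) l2
  | [], _, _ => rfl
  | j :: l1, l2, p => by
    simp only [List.cons_append, run]
    exact run_append J w l1 l2 _

theorem finish_eq_run (J w : List (ℕ × ℕ)) (s : ℕ) : ∀ (l : List ℕ) (t i : ℕ),
    finish J w s t i l = (run J w (t, i) l).1 + travel w (run J w (t, i) l).2 s
  | [], _, _ => rfl
  | j :: l, t, i => by
    simp only [finish, run]
    exact finish_eq_run J w s l _ _

section

variable {a : List ℕ} {T : ℕ}

theorem travel_le {i j : ℕ} (h : i ≤ j) : travel (ww a T) i j = ∑ e ∈ Ico i j, WW a T e := by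
  unfold travel
  simp only [ww_getD]
  rw [Ico_eq_empty (a := j) (b := i) (by omega)]
  simp

theorem travel_ge {i j : ℕ} (h : j ≤ i) : travel (ww a T) i j = ∑ e ∈ Ico j i, WW a T e := by
  unfold travel
  simp only [ww_getD]
  rw [Ico_eq_empty (a := i) (b := j) (by omega)]
  simp

theorem travel_add {i j k : ℕ} (h1 : i ≤ j) (h2 : j ≤ k) :
    travel (ww a T) i j + travel (ww a T) j k = travel (ww a T) i k := by
  rw [travel_le h1, travel_le h2, travel_le (h1.trans h2)]
  exact Finset.sum_Ico_consecutive _ h1 h2

theorem travel_add' {i j k : ℕ} (h1 : j ≤ i) (h2 : k ≤ j) :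
    travel (ww a T) i j + travel (ww a T) j k = travel (ww a T) i k := by
  rw [travel_ge h1, travel_ge h2, travel_ge (h2.trans h1), add_comm]
  exact Finset.sum_Ico_consecutive _ h2 h1

theorem travel_AB {i : ℕ} (hi : i < a.length) :
    travel (ww a T) (2 * i + 1) (2 * i + 2) = a.getD i 0 := by
  rw [travel_le (by omega)]
  have : Ico (2 * i + 1) (2 * i + 2) = {2 * i + 1} := by
    ext x; simp only [mem_Ico, mem_singleton]; omega
  rw [this, sum_singleton]
  unfold WW wf
  rw [if_pos (by omega), if_pos (by omega)]
  congr 1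
  omega

theorem travel_BA {i : ℕ} (hi : i < a.length) :
    travel (ww a T) (2 * i + 2) (2 * i + 1) = a.getD i 0 := by
  have h : 2 * i + 1 ≤ 2 * i + 2 := by omega
  rw [← travel_AB (T := T) hi, travel_ge h, travel_le h]

theorem travel_BA' {i : ℕ} (hi : i < a.length) :
    travel (ww a T) (2 * i + 2) (2 * (i + 1) + 1) = MM a T := by
  rw [travel_le (by omega)]
  have : Ico (2 * i + 2) (2 * (i + 1) + 1) = {2 * i + 2} := by
    ext x; simp only [mem_Ico, mem_singleton]; omega
  rw [this, sum_singleton]
  unfold WW wf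
  rw [if_pos (by omega), if_neg (by omega)]

variable (z : ℕ → Bool)

def outL (i : ℕ) : List ℕ :=
  (List.range i).flatMap (fun j => if z j then [2 * j + 2, 2 * j + 1] else [2 * j + 2])

def retL (i : ℕ) : List ℕ :=
  (List.range i).reverse.flatMap (fun j => if z j then [] else [2 * j + 1])

variable {z}

theorem hA {i : ℕ} (hi : i < a.length) : hf a T (2 * i + 1) =
    (2 * (i + 1) * MM a T, 2 * a.getD i 0) := by
  unfold hf
  rw [if_neg (by omega), if_neg (by omega), if_pos (by omega)]
  have : (2 * i + 1) / 2 = i := by omega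
  rw [this]

theorem hB {i : ℕ} (_ : i < a.length) : hf a T (2 * i + 2) = (0, MM a T) := by
  unfold hf
  rw [if_neg (by omega), if_neg (by omega), if_neg (by omega)]

/-- the outward trip -/
theorem run_out (i : ℕ) (hi : i ≤ a.length) :
    (run (JJ a T) (ww a T) (1, 0) (outL z i)).2 ≤ 2 * i + 1 ∧
    (run (JJ a T) (ww a T) (1, 0) (outL z i)).1 +
      travel (ww a T) (run (JJ a T) (ww a T) (1, 0) (outL z i)).2 (2 * i + 1) =
      1 + ((i + 1) * MM a T + ∑ j ∈ range i, a.getD j 0) + i * MM a T +
        4 * ∑ j ∈ range i, if z j then a.getD j 0 else 0 := by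
  induction i with
  | zero =>
    simp only [outL, List.range_zero, List.flatMap_nil, run]
    refine ⟨by omega, ?_⟩
    rw [travel_le (by omega)]
    simp [WW, wf]
  | succ i ih =>
    obtain ⟨ih1, ih2⟩ := ih (by omega)
    have hsplit : outL z (i + 1) = outL z i ++
        (if z i then [2 * i + 2, 2 * i + 1] else [2 * i + 2]) := by
      simp [outL, List.range_succ]
    rw [hsplit, run_append]
    generalize run (JJ a T) (ww a T) (1, 0) (outL z i) = p at ih1 ih2
    have hi' : i < a.length := by omega
    have h1 : travel (ww a T) p.2 (2 * i + 2) =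
        travel (ww a T) p.2 (2 * i + 1) + a.getD i 0 := by
      rw [← travel_AB (T := T) hi', travel_add ih1 (by omega)]
    rw [sum_range_succ, sum_range_succ]
    by_cases hz : z i
    · simp only [hz, if_true, run]
      rw [JJ_getD (by omega), JJ_getD (by omega), hA hi', hB hi']
      simp only [Nat.max_zero]
      refine ⟨by omega, ?_⟩
      rw [travel_BA hi']
      have h2 : travel (ww a T) (2 * i + 1) (2 * (i + 1) + 1) = a.getD i 0 + MM a T := by
        rw [← travel_add (j := 2 * i + 2) (by omega) (by omega), travel_AB hi', travel_BA' hi']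
      rw [h2]
      have h3 : (i + 1) * MM a T = i * MM a T + MM a T := by ring
      have h4 : (i + 1 + 1) * MM a T = i * MM a T + MM a T + MM a T := by ring
      have h5 : 2 * (i + 1) * MM a T = 2 * (i * MM a T) + 2 * MM a T := by ring
      rw [max_eq_left (by omega)]
      omega
    · simp only [hz, Bool.false_eq_true, if_false, run]
      rw [JJ_getD (by omega), hB hi']
      simp only [Nat.max_zero]
      refine ⟨by omega, ?_⟩
      rw [travel_BA' hi']
      have h3 : (i + 1) * MM a T = i * MM a T + MM a T := by ring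
      have h4 : (i + 1 + 1) * MM a T = i * MM a T + MM a T + MM a T := by ring
      omega

/-- the return trip -/
theorem run_ret (i : ℕ) (hi : i ≤ a.length) : ∀ p : ℕ × ℕ, 2 * i ≤ p.2 + 1 →
    2 * a.length * MM a T ≤ p.1 →
    (run (JJ a T) (ww a T) p (retL z i)).1 +
      travel (ww a T) (run (JJ a T) (ww a T) p (retL z i)).2 0 =
      p.1 + travel (ww a T) p.2 0 + 2 * ∑ j ∈ range i, if z j then 0 else a.getD j 0 := by
  induction i with
  | zero =>
    intro p _ _
    simp [retL, run]
  | succ i ih =>
    intro p hp1 hp2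
    have hsplit : retL z (i + 1) = (if z i then [] else [2 * i + 1]) ++ retL z i := by
      simp [retL, List.range_succ]
    rw [hsplit, run_append, sum_range_succ]
    have hi' : i < a.length := by omega
    by_cases hz : z i
    · simp only [hz, if_true, run]
      rw [ih (by omega) p (by omega) hp2]
      omega
    · simp only [hz, Bool.false_eq_true, if_false, run]
      rw [JJ_getD (by omega), hA hi']
      simp only
      have h1 : 2 * (i + 1) * MM a T ≤ 2 * a.length * MM a T :=
        Nat.mul_le_mul_right _ (by omega)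
      rw [max_eq_left (by omega)]
      rw [ih (by omega) _ (by simp only; omega) (by simp only; omega)]
      simp only
      rw [← travel_add' (i := p.2) (j := 2 * i + 1) (k := 0) (by omega) (by omega)]
      omega

theorem perm_out_ret (i : ℕ) : (outL z i ++ retL z i).Perm (List.range' 1 (2 * i)) := by
  induction i with
  | zero => simp [outL, retL]
  | succ i ih =>
    have hs1 : outL z (i + 1) = outL z i ++
        (if z i then [2 * i + 2, 2 * i + 1] else [2 * i + 2]) := by
      simp [outL, List.range_succ]
    have hs2 : retL z (i + 1) = (if z i then [] else [2 * i + 1]) ++ retL z i := by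
      simp [retL, List.range_succ]
    have hs3 : List.range' 1 (2 * (i + 1)) = List.range' 1 (2 * i) ++ [2 * i + 1, 2 * i + 2] := by
      have e1 : 2 * (i + 1) = 2 * i + 1 + 1 := by ring
      rw [e1, List.range'_1_concat, List.range'_1_concat]
      simp
      omega
    rw [hs1, hs2, hs3]
    rw [List.perm_iff_count] at ih ⊢
    intro x
    have := ih x
    simp only [List.count_append] at this ⊢
    split_ifs
    · simp only [List.count_cons, List.count_nil] at *
      omega
    · simp only [List.count_cons, List.count_nil] at *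
      omega

theorem forward {Z : Finset ℕ} (hZ : Z ⊆ range a.length) (hT : ∑ i ∈ Z, a.getD i 0 = T) :
    ∃ π : List ℕ, π.Perm (List.range (2 * a.length + 2)) ∧
      finish (JJ a T) (ww a T) 0 0 0 π ≤ Kb a T := by
  classical
  let z : ℕ → Bool := fun i => decide (i ∈ Z)
  refine ⟨0 :: (outL z a.length ++ (2 * a.length + 1) :: retL z a.length), ?_, ?_⟩
  · have e1 : List.range (2 * a.length + 2) =
        0 :: (List.range' 1 (2 * a.length) ++ [2 * a.length + 1]) := by
      rw [List.range_eq_range', List.range'_succ]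
      congr 1
      have e2 : 2 * a.length + 1 = 2 * a.length + 1 := rfl
      rw [List.range'_1_concat]
      simp
      omega
    rw [e1]
    refine List.Perm.cons 0 ?_
    refine List.perm_middle.trans ?_
    refine (List.Perm.cons _ (perm_out_ret (z := z) a.length)).trans ?_
    exact (List.perm_append_singleton _ _).symm
  · have h0 : hf a T 0 = (0, 1) := by simp [hf]
    have hF : hf a T (2 * a.length + 1) =
        ((a.length + 1) * MM a T + a.sum + 1 + a.length * MM a T + 4 * T, 1) := by
      unfold hf
      rw [if_neg (by omega), if_pos rfl]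
    have hz1 : ∑ j ∈ range a.length, (if z j then a.getD j 0 else 0) = T := by
      rw [← hT, ← sum_filter]
      refine sum_congr ?_ fun _ _ => rfl
      ext j
      simp only [mem_filter, z, decide_eq_true_eq]
      exact ⟨fun h => h.2, fun h => ⟨hZ h, h⟩⟩
    have hz2 : ∑ j ∈ range a.length, (if z j then 0 else a.getD j 0) + T = a.sum := by
      rw [← hz1, ← sum_add_distrib, ← sum_getD a]
      refine sum_congr rfl fun j _ => ?_
      split_ifs <;> simp
    rw [finish_eq_run]
    simp only [run]
    rw [JJ_getD (by omega), h0]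
    have ht0 : travel (ww a T) 0 0 = 0 := by rw [travel_le le_rfl]; simp
    rw [ht0]
    simp only [Nat.max_zero, Nat.zero_add]
    rw [run_append]
    obtain ⟨h1, h2⟩ := run_out (a := a) (T := T) (z := z) a.length le_rfl
    generalize run (JJ a T) (ww a T) (1, 0) (outL z a.length) = p at h1 h2
    simp only [run]
    rw [JJ_getD (by omega), hF, h2, hz1, sum_getD]
    simp only
    rw [max_eq_left (by omega)]
    rw [run_ret (a := a) (T := T) (z := z) a.length le_rfl _ (by simp only; omega) (by
      simp only
      have : 2 * a.length * MM a T = a.length * MM a T + a.length * MM a T := by ring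
      have : (a.length + 1) * MM a T = a.length * MM a T + MM a T := by ring
      omega)]
    have h3 : travel (ww a T) (2 * a.length + 1) 0 = (a.length + 1) * MM a T + a.sum := by
      rw [travel_ge (by omega), Nat.Ico_zero_eq_range, sum_W _ le_rfl, sum_getD]
    simp only
    rw [h3]
    unfold Kb
    omega

theorem sublist_to_set : ∀ {s a : List ℕ}, s.Sublist a →
    ∃ Z : Finset ℕ, Z ⊆ range a.length ∧ ∑ i ∈ Z, a.getD i 0 = s.sum := by
  intro s a h
  induction h with
  | slnil => exact ⟨∅, by simp, by simp⟩
  | @cons l₁ l₂ x h ih =>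
    obtain ⟨Z, hZ, hs⟩ := ih
    refine ⟨Z.map ⟨(· + 1), add_left_injective 1⟩, ?_, ?_⟩
    · intro i hi
      obtain ⟨j, hj, rfl⟩ := mem_map.1 hi
      have := mem_range.1 (hZ hj)
      simp only [Function.Embedding.coeFn_mk, List.length_cons, mem_range]
      omega
    · rw [sum_map, ← hs]
      simp
  | @cons_cons l₁ l₂ x h ih =>
    obtain ⟨Z, hZ, hs⟩ := ih
    refine ⟨insert 0 (Z.map ⟨(· + 1), add_left_injective 1⟩), ?_, ?_⟩
    · intro i hi
      rcases mem_insert.1 hi with rfl | hi
      · simp
      · obtain ⟨j, hj, rfl⟩ := mem_map.1 hi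
        have := mem_range.1 (hZ hj)
        simp only [Function.Embedding.coeFn_mk, List.length_cons, mem_range]
        omega
    · rw [sum_insert (by simp), sum_map, List.sum_cons, ← hs]
      simp

theorem set_to_sublist (a : List ℕ) (Z : Finset ℕ) (hZ : Z ⊆ range a.length) :
    ∃ s : List ℕ, s.Sublist a ∧ s.sum = ∑ i ∈ Z, a.getD i 0 := by
  classical
  refine ⟨((List.range a.length).filter (· ∈ Z)).map (fun i => a.getD i 0), ?_, ?_⟩
  · have h1 : ((List.range a.length).filter (· ∈ Z)).Sublist (List.range a.length) :=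
      List.filter_sublist
    have h2 := h1.map (fun i => a.getD i 0)
    have h3 : (List.range a.length).map (fun i => a.getD i 0) = a := by
      apply List.ext_getElem
      · simp
      · intro i h4 h5
        simp [h5]
    rw [h3] at h2
    exact h2
  · have hnd : ((List.range a.length).filter (· ∈ Z)).Nodup := List.nodup_range.filter _
    rw [← List.sum_toFinset _ hnd]
    refine sum_congr ?_ fun _ _ => rfl
    ext i
    simp only [List.mem_toFinset, List.mem_filter, List.mem_range, decide_eq_true_eq]
    exact ⟨fun h => h.2, fun h => ⟨mem_range.1 (hZ h), h⟩⟩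

end

/-! ### Polynomial time -/

theorem poly_MM : Poly (fun x : List ℕ × ℕ => MM x.1 x.2) := by
  unfold MM
  fun_prop

theorem poly_hf : Poly (fun p : (List ℕ × ℕ) × ℕ => hf p.1.1 p.1.2 p.2) := by
  have h1 : Poly (fun p : (List ℕ × ℕ) × ℕ => MM p.1.1 p.1.2) := poly_MM.comp (Poly.fst Poly.id)
  unfold hf
  refine Poly.ite (by fun_prop) (by fun_prop) (Poly.ite (by fun_prop) (by fun_prop)
    (Poly.ite (by fun_prop) ?_ (by fun_prop)))
  exact Poly.pair (by fun_prop) (Poly.mul (Poly.const 2) (Poly.getD (by fun_prop) (by fun_prop)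
    (Poly.const 0)))

theorem poly_wf : Poly (fun p : (List ℕ × ℕ) × ℕ => wf p.1.1 p.1.2 p.2) := by
  have h1 : Poly (fun p : (List ℕ × ℕ) × ℕ => MM p.1.1 p.1.2) := poly_MM.comp (Poly.fst Poly.id)
  unfold wf
  exact Poly.ite (by fun_prop) (Poly.getD (by fun_prop) (by fun_prop) (Poly.const 0)) h1

theorem poly_JJ : Poly (fun x : List ℕ × ℕ => JJ x.1 x.2) := by
  unfold JJ
  refine Poly.map (F := fun (x : List ℕ × ℕ) i => hf x.1 x.2 i) (UPoly.range ?_) poly_hf
  exact UPoly.add (UPoly.mul (UPoly.const 2) (UPoly.length (by fun_prop))) (UPoly.const 2)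

theorem poly_ww : Poly (fun x : List ℕ × ℕ => ww x.1 x.2) := by
  unfold ww
  refine Poly.map (F := fun (x : List ℕ × ℕ) e => (wf x.1 x.2 e, wf x.1 x.2 e)) (UPoly.range ?_)
    (Poly.pair poly_wf poly_wf)
  exact UPoly.add (UPoly.mul (UPoly.const 2) (UPoly.length (by fun_prop))) (UPoly.const 1)

theorem poly_Kb : Poly (fun x : List ℕ × ℕ => Kb x.1 x.2) := by
  have h1 := poly_MM
  unfold Kb
  fun_prop

/-- **NP-hardness.** -/
theorem hard : HardI VSP := by
  refine (R671.SS.hardPr_SubsetSum.trans (Pr' := fun _ => True)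
    (f := fun x : List ℕ × ℕ => ((JJ x.1 x.2, ww x.1 x.2, 0), Kb x.1 x.2))
    (Poly.pair (Poly.pair poly_JJ (Poly.pair poly_ww (Poly.const 0))) poly_Kb)
    (fun _ _ => trivial) ?_).toHardI
  rintro ⟨a, T⟩ ⟨hpos, -⟩
  have hl1 : (JJ a T).length = 2 * a.length + 2 := by simp [JJ]
  have hl2 : (ww a T).length = 2 * a.length + 1 := by simp [ww]
  constructor
  · rintro ⟨s, hs, hsT⟩
    obtain ⟨Z, hZ, hZs⟩ := sublist_to_set hs
    obtain ⟨π, h1, h2⟩ := forward (T := T) hZ (hZs.trans hsT)
    refine ⟨⟨by simp only; omega, by simp only; omega, ?_⟩, π, by simp only; rw [hl1]; exact h1, h2⟩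
    intro x hx
    obtain ⟨i, hi, rfl⟩ := List.mem_map.1 hx
    have hi' : i < 2 * a.length + 2 := List.mem_range.1 hi
    change 0 < (hf a T i).2
    unfold hf
    split_ifs with h3 h4 h5
    · simp
    · simp
    · simp only
      have h6 : i / 2 < a.length := by omega
      rw [List.getD_eq_getElem _ _ h6]
      have := (hpos _ (List.getElem_mem h6)).1
      omega
    · simp [MM]
  · rintro ⟨-, π, h1, h2⟩
    simp only at h1 h2
    rw [hl1] at h1
    obtain ⟨Z, hZ, hZT⟩ := backward h1 h2
    obtain ⟨s, hs, hss⟩ := set_to_sublist a Z hZ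
    exact ⟨s, hs, hss.trans hZT⟩

end Pool.Agent.NPC.V11230.VL
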